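import Pool.Agent.GW.Sched

/-!
# End of a stage: satellites are absorbed by the outer words

Net without open corners, `dep = k + 1`. Sat = letters of `F` of level `k + 1`. All reserved letters in Sat are up letters (`resv`:
`d ∈ up` or `a d ∈ up`; the second is impossible because then `lev (a d) = k + 2`), so a word of level `k + 1` is `(u, p_1 .. p_n)` with
ports `p_i`, `n ≥ 1` (`port`). `Y` = the ports of Sat and their partners.
New net: `S.glueSet Y`, `F ∖ Sat`, `up ∖ Sat`, everything else unchanged, depth `k`.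
FACTS. (1) `a p_i` and `a p_(i+1)` lie in one outer word: `(r a)` sends `a p_i` to `p_(i+1)`, then to `r (a p_(i+1))`, then along dead letters to
the first live letter of this outer word, which must be `a p_i` (no open corners); see `next_live`. So every word of Sat
faces one outer word only; blocks for `blocks_U`: an outer word together with the satellites facing it: at most `24 m` live
letters (the satellites facing a word have at most as many ports as the word has letters, and one up letter each).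
(2) Vertices: `r a` does not change. New live outer letters are the up letters `u` of Sat; `a p_n` (`p_n = r⁻¹ u`) is at the
vertex of `u` and is now dead, so two new or one new and one old live outer letters at one vertex would give an open corner before.
(3) Words: the new word containing `u` is contained in a block, its live letters: old live letters not in `Y` and up letters,
one up letter for `n ≥ 1` removed letters: at most `8 m`.
(statement helper92, proof helper18)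
-/

set_option autoImplicit false

namespace Pool.Agent.GW

open Equiv Pool.Agent.SWP

/-- the first live letter after `d` in its word is at the vertex of `a`-partner ... : if `d` is live and outer letters have no
open corners, going from `r d` along dead letters ends in a live letter `e` of the same word, and `e` is at the vertex of `a d`
(that is `(r a)` sends `a d` to `r d` and dead letters `g` to `r g`). -/
theorem next_live (S : Sf) (d : S.D) (hd : S.a d ≠ d) :
    ∃ e, S.a e ≠ e ∧ S.r.SameCycle d e ∧ S.vx (S.a d) e := by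
  classical
  have hex : ∃ i : ℕ, 0 < i ∧ S.a ((S.r ^ i) d) ≠ (S.r ^ i) d := by
    refine ⟨orderOf S.r, orderOf_pos S.r, ?_⟩
    rw [pow_orderOf_eq_one]
    exact hd
  obtain ⟨hi0, hi1⟩ := Nat.find_spec hex
  have hmin : ∀ j, 0 < j → j < Nat.find hex → S.a ((S.r ^ j) d) = (S.r ^ j) d := by
    intro j hj0 hj
    by_contra h
    exact Nat.find_min hex hj ⟨hj0, h⟩
  have key : ∀ j, 0 < j → j ≤ Nat.find hex → ((S.r * S.a) ^ j) (S.a d) = (S.r ^ j) d := by
    intro j
    induction j with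
    | zero => intro h; omega
    | succ j ih =>
      intro _ hj
      rcases Nat.eq_zero_or_pos j with h0 | h0
      · subst h0
        rw [zero_add, pow_one, pow_one, Perm.mul_apply, S.aa]
      · rw [pow_succ', Perm.mul_apply, ih h0 (by omega), Perm.mul_apply, hmin j h0 (by omega), pow_succ',
          Perm.mul_apply]
  refine ⟨(S.r ^ Nat.find hex) d, hi1, ⟨Nat.find hex, by rw [zpow_natCast]⟩, ⟨Nat.find hex, ?_⟩⟩
  rw [zpow_natCast]
  exact key _ hi0 le_rfl

/-! ## the glued state -/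

theorem gs_r_mem (S : Sf) {Y : Set S.D} (hY : S.Cl Y) {d : S.D} (hd : d ∈ Y) :
    (S.glueSet Y hY).r d = S.r (S.a d) := by
  show S.r (S.beta Y d) = _
  rw [S.beta_mem hY hd]

theorem gs_r_not (S : Sf) {Y : Set S.D} (hY : S.Cl Y) {d : S.D} (hd : d ∉ Y) :
    (S.glueSet Y hY).r d = S.r d := by
  show S.r (S.beta Y d) = _
  rw [S.beta_notMem hd]

theorem gs_a_mem (S : Sf) {Y : Set S.D} (hY : S.Cl Y) {d : S.D} (hd : d ∈ Y) :
    (S.glueSet Y hY).a d = d := by
  show S.a (S.beta Y d) = _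
  rw [S.beta_mem hY hd, S.aa]

theorem gs_a_not (S : Sf) {Y : Set S.D} (hY : S.Cl Y) {d : S.D} (hd : d ∉ Y) :
    (S.glueSet Y hY).a d = S.a d := by
  show S.a (S.beta Y d) = _
  rw [S.beta_notMem hd]

theorem gs_ra (S : Sf) {Y : Set S.D} (hY : S.Cl Y) :
    (S.glueSet Y hY).r * (S.glueSet Y hY).a = S.r * S.a := by
  refine Equiv.ext fun (d : S.D) => ?_
  show S.r (S.beta Y (S.a (S.beta Y d))) = S.r (S.a d)
  congr 1
  by_cases h : d ∈ Y
  · rw [S.beta_mem hY h, S.aa, S.beta_mem hY h]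
  · have h2 : S.a d ∉ Y := fun h2 => h (by rw [← S.aa d]; exact hY _ h2)
    rw [S.beta_notMem h, S.beta_notMem h2]

theorem gs_vx (S : Sf) {Y : Set S.D} (hY : S.Cl Y) (d e : S.D) : (S.glueSet Y hY).vx d e ↔ S.vx d e := by
  show ((S.glueSet Y hY).r * (S.glueSet Y hY).a).SameCycle d e ↔ _
  rw [gs_ra]
  exact Iff.rfl

theorem exists_code {D : Type} [Finite D] (s : Perm D) : ∃ c : D → ℕ, ∀ d e, c d = c e ↔ s.SameCycle d e := by
  classical
  obtain ⟨n, ⟨f⟩⟩ := Finite.exists_equiv_fin (Quotient (Perm.SameCycle.setoid s))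
  refine ⟨fun d => (f (Quotient.mk (Perm.SameCycle.setoid s) d)).val, fun d e => ?_⟩
  rw [Fin.val_inj, f.apply_eq_iff_eq]
  exact Quotient.eq (r := Perm.SameCycle.setoid s)

/-! ## satellites of the highest level -/

section

variable {R B : ℕ} {P : Par R B} {N : NetS R B} {k : ℕ}

/-- letters of level `k + 1` -/
def sat (N : NetS R B) (k : ℕ) : Set N.S.D := {d | d ∈ N.F ∧ N.lev d = k + 1}

theorem sat_r (hN : Ok P N) (d : N.S.D) : N.S.r d ∈ sat N k ↔ d ∈ sat N k := by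
  constructor
  · rintro ⟨h1, h2⟩
    have h3 := (hN.fat.inv d).1 h1
    exact ⟨h3, by rw [← hN.levr d h3]; exact h2⟩
  · rintro ⟨h1, h2⟩
    exact ⟨(hN.fat.inv d).2 h1, by rw [hN.levr d h1]; exact h2⟩

theorem sat_same (hN : Ok P N) {d e : N.S.D} (h : N.S.r.SameCycle d e) (hd : d ∈ sat N k) : e ∈ sat N k :=
  mem_of_same (Z := sat N k) (fun d hd => (sat_r hN d).2 hd) hd h

theorem out_same (hN : Ok P N) {d e : N.S.D} (h : N.S.r.SameCycle d e) (hd : d ∉ N.F) : e ∉ N.F :=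
  mem_of_same (Z := N.Fᶜ) (fun d hd h' => hd ((hN.fat.inv d).1 h')) hd h

theorem sat_up (hN : Ok P N) (hk : P.dep = k + 1) {d : N.S.D} (hd : d ∈ sat N k) (ha : N.S.a d ∈ N.F) : d ∈ N.up := by
  rcases hN.resv d hd.1 ha (by rw [hd.2]; omega) with h | h
  · exact h
  · have h1 := (hN.upF _ h).2.2.2
    have h2 := hN.levd _ ha
    rw [N.S.aa, hd.2] at h1
    omega

theorem up_unique (hN : Ok P N) (hk : P.dep = k + 1) {d e : N.S.D} (hd : d ∈ sat N k) (h : N.S.r.SameCycle d e)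
    (hda : N.S.a d ∈ N.F) (hea : N.S.a e ∈ N.F) : d = e :=
  hN.upU d (sat_up hN hk hd hda) e (sat_up hN hk (sat_same hN h hd) hea) h

/-- the letter after the up letter is a port -/
theorem up_next (hN : Ok P N) (hk : P.dep = k + 1) {u : N.S.D} (hu : u ∈ sat N k) (ha : N.S.a u ∈ N.F) :
    N.S.a (N.S.r u) ∉ N.F := by
  intro h
  have h1 : u = N.S.r u := up_unique hN hk hu ⟨1, by rw [zpow_one]⟩ ha h
  obtain ⟨p, hp1, hp2⟩ := hN.port u hu.1
  obtain ⟨n, hn⟩ := hp1.exists_nat_pow_eq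
  have h2 : ∀ n : ℕ, (N.S.r ^ n) u = u := by
    intro n
    induction n with
    | zero => rfl
    | succ n ih => rw [pow_succ', Perm.mul_apply, ih, ← h1]
  rw [h2 n] at hn
  rw [← hn] at hp2
  exact hp2 ha

/-- the letter before the up letter is a port -/
theorem up_prev (hN : Ok P N) (hk : P.dep = k + 1) {u : N.S.D} (hu : u ∈ sat N k) (ha : N.S.a u ∈ N.F) :
    N.S.a (N.S.r.symm u) ∉ N.F := by
  intro h
  have h0 : N.S.r (N.S.r.symm u) = u := N.S.r.apply_symm_apply u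
  have h3 : N.S.r.symm u ∈ sat N k := by
    rw [← sat_r hN, h0]
    exact hu
  have h1 : N.S.r.symm u = u := up_unique hN hk h3 ⟨1, by rw [zpow_one, h0]⟩ h ha
  have h4 := up_next hN hk h3 h
  rw [h0] at h4
  exact h4 ha

/-- consecutive ports face the same outer word -/
theorem face_step (hN : Ok P N) (hp : prs N.S N.F = ∅) {p : N.S.D} (h1 : p ∈ N.F) (h2 : N.S.a p ∉ N.F)
    (h3 : N.S.a (N.S.r p) ∉ N.F) : N.S.r.SameCycle (N.S.a (N.S.r p)) (N.S.a p) := by
  have hq : N.S.r p ∈ N.F := (hN.fat.inv p).2 h1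
  have hl1 : N.S.a (N.S.a (N.S.r p)) ≠ N.S.a (N.S.r p) := by
    rw [N.S.aa]
    intro h
    rw [← h] at h3
    exact h3 hq
  have hl2 : N.S.a (N.S.a p) ≠ N.S.a p := by
    rw [N.S.aa]
    intro h
    rw [← h] at h2
    exact h2 h1
  obtain ⟨e, he1, he2, he3⟩ := next_live N.S (N.S.a (N.S.r p)) hl1
  rw [N.S.aa] at he3
  have hv : N.S.vx (N.S.a p) (N.S.r p) := ⟨1, by rw [zpow_one, Perm.mul_apply, N.S.aa]⟩
  have hv2 : N.S.vx (N.S.a p) e := Perm.SameCycle.trans hv he3
  by_cases hpe : N.S.a p = e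
  · rw [hpe]
    exact he2
  · exfalso
    have : (N.S.a p, e) ∈ prs N.S N.F := ⟨h2, out_same hN he2 h3, hl2, he1, hpe, hv2⟩
    rw [hp] at this
    exact this

/-- all ports of a satellite of the highest level face the same outer word -/
theorem face (hN : Ok P N) (hk : P.dep = k + 1) (hp : prs N.S N.F = ∅) {p p' : N.S.D} (hs : p ∈ sat N k)
    (h : N.S.r.SameCycle p p') (h1 : N.S.a p ∉ N.F) (h2 : N.S.a p' ∉ N.F) :
    N.S.r.SameCycle (N.S.a p) (N.S.a p') := by
  classical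
  obtain ⟨u, hu, hpu⟩ := hN.upE p hs.1 (by rw [hs.2]; omega)
  have hus : u ∈ sat N k := sat_same hN hpu hs
  have hua : N.S.a u ∈ N.F := (hN.upF u hu).2.1
  have claim : ∀ q, N.S.r.SameCycle u q → N.S.a q ∉ N.F → N.S.r.SameCycle (N.S.a (N.S.r u)) (N.S.a q) := by
    intro q hq hqa
    have hex : ∃ i : ℕ, 0 < i ∧ (N.S.r ^ i) u = q := by
      obtain ⟨n, hn⟩ := hq.exists_nat_pow_eq
      refine ⟨n + orderOf N.S.r, Nat.add_pos_right _ (orderOf_pos N.S.r), ?_⟩
      rw [pow_add, pow_orderOf_eq_one, mul_one, hn]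
    obtain ⟨hj0, hj1⟩ := Nat.find_spec hex
    have hport : ∀ i, 0 < i → i ≤ Nat.find hex → N.S.a ((N.S.r ^ i) u) ∉ N.F := by
      intro i hi0 hi hia
      rcases Nat.lt_or_ge i (Nat.find hex) with hlt | hge
      · have h3 : u = (N.S.r ^ i) u := up_unique hN hk hus ⟨i, by rw [zpow_natCast]⟩ hua hia
        refine Nat.find_min hex (m := Nat.find hex - i) (by omega) ⟨by omega, ?_⟩
        have h4 : (N.S.r ^ Nat.find hex) u = (N.S.r ^ (Nat.find hex - i)) ((N.S.r ^ i) u) := by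
          rw [← Perm.mul_apply, ← pow_add, Nat.sub_add_cancel hlt.le]
        rw [← h3] at h4
        rw [← h4]
        exact hj1
      · have : i = Nat.find hex := le_antisymm hi hge
        rw [this, hj1] at hia
        exact hqa hia
    have key : ∀ i, 0 < i → i ≤ Nat.find hex → N.S.r.SameCycle (N.S.a (N.S.r u)) (N.S.a ((N.S.r ^ i) u)) := by
      intro i
      induction i with
      | zero => intro h; omega
      | succ i ih =>
        intro _ hi
        rcases Nat.eq_zero_or_pos i with h0 | h0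
        · subst h0
          rw [zero_add, pow_one]
        · have h3 := ih h0 (by omega)
          have h4 := hport i h0 (by omega)
          have h5 := hport (i + 1) (Nat.succ_pos i) hi
          rw [pow_succ', Perm.mul_apply] at h5 ⊢
          have h6 : (N.S.r ^ i) u ∈ N.F := (sat_same hN ⟨i, by rw [zpow_natCast]⟩ hus : (N.S.r ^ i) u ∈ sat N k).1
          exact h3.trans (face_step hN hp h6 h4 h5).symm
    have h7 := key _ hj0 le_rfl
    rw [hj1] at h7
    exact h7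
  exact (claim p hpu.symm h1).symm.trans (claim p' (hpu.symm.trans h) h2)

end

/-- the blocks: an outer word together with the satellites which face it -/
theorem exists_zeta {R B : ℕ} {P : Par R B} {N : NetS R B} {k : ℕ} (hN : Ok P N) (hk : P.dep = k + 1)
    (hp : prs N.S N.F = ∅) : ∃ ζ : N.S.D → ℕ, (∀ d, ζ (N.S.r d) = ζ d) ∧
      (∀ d ∈ sat N k, N.S.a d ∉ N.F → ζ (N.S.a d) = ζ d) ∧
      ∀ d e, d ∉ sat N k → e ∉ sat N k → ζ d = ζ e → N.S.r.SameCycle d e := by
  classical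
  obtain ⟨c, hc⟩ := exists_code N.S.r
  have hs : ∀ d, N.S.r.SameCycle d (N.S.r d) := fun d => ⟨1, by rw [zpow_one]⟩
  have hport : ∀ d : N.S.D, ∃ e : N.S.D, d ∈ sat N k → N.S.r.SameCycle d e ∧ N.S.a e ∉ N.F := by
    intro d
    by_cases h : d ∈ sat N k
    · obtain ⟨e, he⟩ := hN.port d h.1
      exact ⟨e, fun _ => he⟩
    · exact ⟨d, fun h' => absurd h' h⟩
  choose g hg using hport
  obtain ⟨ζ, hζ1, hζ2⟩ : ∃ ζ : N.S.D → ℕ, (∀ d ∈ sat N k, ζ d = c (N.S.a (g d))) ∧
      ∀ d, d ∉ sat N k → ζ d = c d :=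
    ⟨fun d => if d ∈ sat N k then c (N.S.a (g d)) else c d, fun d h => if_pos h, fun d h => if_neg h⟩
  refine ⟨ζ, ?_, ?_, ?_⟩
  · intro d
    by_cases h : d ∈ sat N k
    · have h' : N.S.r d ∈ sat N k := (sat_r hN d).2 h
      rw [hζ1 d h, hζ1 _ h', hc]
      obtain ⟨h1, h2⟩ := hg d h
      obtain ⟨h3, h4⟩ := hg (N.S.r d) h'
      exact face hN hk hp (sat_same hN h3 h') (h3.symm.trans ((hs d).symm.trans h1)) h4 h2
    · have h' : N.S.r d ∉ sat N k := fun h' => h ((sat_r hN d).1 h')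
      rw [hζ2 d h, hζ2 _ h', hc]
      exact (hs d).symm
  · intro d h ha
    have h' : N.S.a d ∉ sat N k := fun h' => ha h'.1
    rw [hζ1 d h, hζ2 _ h', hc]
    obtain ⟨h1, h2⟩ := hg d h
    exact face hN hk hp h h1 ha h2
  · intro d e hd he h
    rw [hζ2 d hd, hζ2 e he, hc] at h
    exact h

theorem absorb {R B : ℕ} (P : Par R B) (N : NetS R B) (hN : Ok P N) (k : ℕ) (hk : P.dep = k + 1)
    (hp : prs N.S N.F = ∅) (m : ℕ) (hl : ∀ d, d ∉ N.F → N.S.len d ≤ 8 * m)
    (hF : ∀ d ∈ N.F, N.S.len d ≤ 8 * m) (L : ℕ) (hL : 24 * m ≤ L) :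
    ∃ N' : NetS R B, Ok ⟨P.pres, P.K, P.Th0, P.Th, k⟩ N' ∧ (U L N'.S → U L N.S) ∧ prs N'.S N'.F = ∅ ∧
      (∀ d, d ∉ N'.F → N'.S.len d ≤ 8 * m) ∧ (∀ d ∈ N'.F, N'.S.len d ≤ 8 * m) ∧ N'.t = N.t := by
  classical
  obtain ⟨ζ, hζr, hζa, hζs⟩ := exists_zeta (k := k) hN hk hp
  set Y : Set N.S.D := {d | (d ∈ sat N k ∧ N.S.a d ∉ N.F) ∨ (N.S.a d ∈ sat N k ∧ d ∉ N.F)} with hYdef
  have hY : N.S.Cl Y := by
    intro d hd
    rcases hd with h | h
    · right
      rw [N.S.aa]
      exact h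
    · left
      rw [N.S.aa]
      exact h
  set F' : Set N.S.D := N.F \ sat N k with hF'
  have hYF : ∀ d ∈ F', d ∉ Y := by
    rintro d ⟨h1, h2⟩ (h | h)
    · exact h2 h.1
    · exact h.2 h1
  have hYs : ∀ d ∈ sat N k, d ∉ Y → N.S.a d ∈ N.F := by
    intro d hd h
    by_contra h2
    exact h (Or.inl ⟨hd, h2⟩)
  have hζY : ∀ d ∈ Y, ζ (N.S.a d) = ζ d := by
    rintro d (h | h)
    · exact hζa d h.1 h.2
    · have h1 := hζa (N.S.a d) h.1 (by rw [N.S.aa]; exact h.2)
      rw [N.S.aa] at h1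
      exact h1.symm
  have hr1 : ∀ d ∈ F', (N.S.glueSet Y hY).r d = N.S.r d := fun d hd => gs_r_not N.S hY (hYF d hd)
  have ha1 : ∀ d ∈ F', (N.S.glueSet Y hY).a d = N.S.a d := fun d hd => gs_a_not N.S hY (hYF d hd)
  have hrF : ∀ d, N.S.r d ∈ F' ↔ d ∈ F' := by
    intro d
    rw [hF', Set.mem_sdiff, Set.mem_sdiff, hN.fat.inv d, sat_r hN d]
  have hsc : ∀ d ∈ F', ∀ e : N.S.D, (N.S.glueSet Y hY).r.SameCycle d e ↔ N.S.r.SameCycle d e := by
    intro d hd e
    refine same_congr (D := N.S.D) (s := N.S.r * N.S.beta Y) (t := N.S.r) (Z := F') ?_ hr1 hd e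
    intro d hd
    have h1 : (N.S.r * N.S.beta Y) d = N.S.r d := hr1 d hd
    rw [h1]
    exact (hrF d).2 hd
  have haF : ∀ d ∈ N.F, N.S.a d ∈ N.F → d ∉ sat N k → N.lev (N.S.a d) + 1 = N.lev d → N.S.a d ∉ sat N k := by
    intro d hd _ _ h4 h5
    have h6 := hN.levd d hd
    have h7 := h5.2
    omega
  have hlevF : ∀ d ∈ F', N.lev d ≤ k := by
    rintro d ⟨h1, h2⟩
    have h3 := hN.levd d h1
    have h4 : N.lev d ≠ k + 1 := fun h => h2 ⟨h1, h⟩
    omega
  -- the number of live letters of a block outside of the satellites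
  have hn1 : ∀ i, N.S.num ({d | ζ d = i} \ sat N k) ≤ 8 * m := by
    intro i
    by_cases hne : ∃ d0, d0 ∈ ({d | ζ d = i} \ sat N k : Set N.S.D)
    · obtain ⟨d0, hd0, hd1⟩ := hne
      have h1 : ({d | ζ d = i} \ sat N k : Set N.S.D) ⊆ N.S.word d0 := by
        rintro d ⟨h2, h3⟩
        exact hζs d0 d hd1 h3 ((hd0 : ζ d0 = i).trans (h2 : ζ d = i).symm)
      refine (num_mono N.S h1).trans ?_
      by_cases h4 : d0 ∈ N.F
      · exact hF d0 h4
      · exact hl d0 h4
    · have h1 : ({d | ζ d = i} \ sat N k : Set N.S.D) = ∅ := by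
        rw [Set.eq_empty_iff_forall_notMem]
        exact fun d hd => hne ⟨d, hd⟩
      rw [h1]
      unfold Sf.num
      rw [Set.empty_inter, Set.ncard_empty]
      exact Nat.zero_le _
  -- ports and up letters of a block
  have hlo : ∀ d ∈ N.F, N.S.a d ∉ N.F → N.S.a (N.S.a d) ≠ N.S.a d := by
    intro d hd h h1
    rw [N.S.aa] at h1
    rw [← h1] at h
    exact h hd
  have hports : ∀ i, ({d | ζ d = i ∧ d ∈ sat N k ∧ N.S.a d ∉ N.F} : Set N.S.D).ncard ≤ 8 * m := by
    intro i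
    refine le_trans ?_ (hn1 i)
    refine Set.ncard_le_ncard_of_injOn (fun d => N.S.a d) ?_ (fun d _ e _ h => N.S.a.injective h) (Set.toFinite _)
    rintro d ⟨h1, h2, h3⟩
    exact ⟨⟨(hζa d h2 h3).trans h1, fun h => h3 h.1⟩, hlo d h2.1 h3⟩
  have hups : ∀ i, ({d | ζ d = i ∧ d ∈ sat N k ∧ N.S.a d ∈ N.F} : Set N.S.D).ncard ≤ 8 * m := by
    intro i
    refine le_trans ?_ (hports i)
    refine Set.ncard_le_ncard_of_injOn (fun d => N.S.r d) ?_ (fun d _ e _ h => N.S.r.injective h) (Set.toFinite _)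
    rintro d ⟨h1, h2, h3⟩
    exact ⟨(hζr d).trans h1, (sat_r hN d).2 h2, up_next hN hk h2 h3⟩
  have hblock : ∀ i, N.S.num {d | ζ d = i} ≤ L := by
    intro i
    refine le_trans ?_ hL
    have h1 : ({d | ζ d = i} : Set N.S.D) ∩ N.S.live ⊆ ((({d | ζ d = i} \ sat N k) ∩ N.S.live) ∪
        {d | ζ d = i ∧ d ∈ sat N k ∧ N.S.a d ∉ N.F}) ∪ {d | ζ d = i ∧ d ∈ sat N k ∧ N.S.a d ∈ N.F} := by
      rintro d ⟨h2, h3⟩
      by_cases h4 : d ∈ sat N k
      · by_cases h5 : N.S.a d ∈ N.F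
        · exact Or.inr ⟨h2, h4, h5⟩
        · exact Or.inl (Or.inr ⟨h2, h4, h5⟩)
      · exact Or.inl (Or.inl ⟨⟨h2, h4⟩, h3⟩)
    have h2 := Set.ncard_le_ncard h1 (Set.toFinite _)
    have h3 := Set.ncard_union_le ((({d | ζ d = i} \ sat N k : Set N.S.D) ∩ N.S.live) ∪
        {d | ζ d = i ∧ d ∈ sat N k ∧ N.S.a d ∉ N.F}) {d | ζ d = i ∧ d ∈ sat N k ∧ N.S.a d ∈ N.F}
    have h4 := Set.ncard_union_le (({d | ζ d = i} \ sat N k : Set N.S.D) ∩ N.S.live)
        {d | ζ d = i ∧ d ∈ sat N k ∧ N.S.a d ∉ N.F}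
    have h5 := hn1 i
    have h6 := hports i
    have h7 := hups i
    unfold Sf.num at h5 ⊢
    omega
  -- live letters of the new state outside of the satellites
  have hnew : ∀ i, (N.S.glueSet Y hY).num {d : N.S.D | ζ d = i} ≤ 8 * m := by
    intro i
    refine le_trans ?_ (hn1 i)
    have hlive : ∀ d : N.S.D, (N.S.glueSet Y hY).a d ≠ d → d ∉ Y ∧ N.S.a d ≠ d := by
      intro d h1
      have h2 : d ∉ Y := fun h2 => h1 (gs_a_mem N.S hY h2)
      rw [gs_a_not N.S hY h2] at h1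
      exact ⟨h2, h1⟩
    refine Set.ncard_le_ncard_of_injOn (fun d : N.S.D => if d ∈ sat N k then N.S.a (N.S.r d) else d) ?_ ?_
      (Set.toFinite _)
    · rintro (d : N.S.D) ⟨h1, h2⟩
      obtain ⟨h3, h4⟩ := hlive d h2
      show (if d ∈ sat N k then N.S.a (N.S.r d) else d) ∈ ({d | ζ d = i} \ sat N k) ∩ N.S.live
      by_cases h5 : d ∈ sat N k
      · rw [if_pos h5]
        have h6 := up_next hN hk h5 (hYs d h5 h3)
        have h7 := (sat_r hN d).2 h5
        exact ⟨⟨(hζa _ h7 h6).trans ((hζr d).trans h1), fun h => h6 h.1⟩, hlo _ h7.1 h6⟩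
      · rw [if_neg h5]
        exact ⟨⟨h1, h5⟩, h4⟩
    · rintro (d : N.S.D) ⟨_, h1⟩ (e : N.S.D) ⟨_, h2⟩ hde
      obtain ⟨h3, _⟩ := hlive d h1
      obtain ⟨h4, _⟩ := hlive e h2
      replace hde : (if d ∈ sat N k then N.S.a (N.S.r d) else d) = (if e ∈ sat N k then N.S.a (N.S.r e) else e) := hde
      have hin : ∀ f : N.S.D, f ∈ sat N k → f ∉ Y → N.S.a (N.S.r f) ∈ Y := by
        intro f h5 h6
        have h7 := up_next hN hk h5 (hYs f h5 h6)
        have h8 := (sat_r hN f).2 h5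
        exact Or.inr ⟨by rw [N.S.aa]; exact h8, h7⟩
      by_cases h5 : d ∈ sat N k
      · by_cases h6 : e ∈ sat N k
        · rw [if_pos h5, if_pos h6] at hde
          exact N.S.r.injective (N.S.a.injective hde)
        · rw [if_pos h5, if_neg h6] at hde
          exfalso
          rw [← hde] at h4
          exact h4 (hin d h5 h3)
      · by_cases h6 : e ∈ sat N k
        · rw [if_neg h5, if_pos h6] at hde
          exfalso
          rw [hde] at h3
          exact h3 (hin e h6 h4)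
        · rw [if_neg h5, if_neg h6] at hde
          exact hde
  have hζ' : ∀ d : N.S.D, ζ ((N.S.glueSet Y hY).r d) = ζ d := by
    intro d
    by_cases h : d ∈ Y
    · rw [gs_r_mem N.S hY h, hζr, hζY d h]
    · rw [gs_r_not N.S hY h, hζr]
  have hlen : ∀ d : N.S.D, (N.S.glueSet Y hY).len d ≤ 8 * m := by
    intro d
    refine (num_mono (N.S.glueSet Y hY) (A := (N.S.glueSet Y hY).word d) (B := {e : N.S.D | ζ e = ζ d}) ?_).trans
      (hnew (ζ d))
    intro e he
    exact mem_of_same (D := N.S.D) (s := (N.S.glueSet Y hY).r) (Z := {e : N.S.D | ζ e = ζ d})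
      (fun e he => (hζ' e).trans he) rfl he
  refine ⟨⟨N.S.glueSet Y hY, F', N.hub, N.lev, N.fr, N.up \ sat N k, N.t⟩, ?_, ?_, ?_, fun d _ => hlen d,
    fun d _ => hlen d, rfl⟩
  · have hsat : ∀ d ∈ F', d ∉ sat N k := fun d hd => hd.2
    have hsc2 : ∀ d ∈ F', ∀ e : N.S.D, N.S.r.SameCycle d e → e ∈ F' := by
      intro d hd e h
      exact mem_of_same (Z := F') (fun d hd => (hrF d).2 hd) hd h
    have hfrF' : ∀ d ∈ N.fr, d ∈ F' := by
      intro d hd
      obtain ⟨h1, h2, _⟩ := hN.frF d hd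
      exact ⟨h1, fun h => by have := h.2; omega⟩
    have hmem : ∀ x y : N.S.D, x = y → (x ∈ F' ↔ y ∈ F') := fun x y h => by rw [h]
    refine ⟨⟨?_, ?_, ?_⟩, ?_, ?_, ?_, ?_, ?_, ?_, ?_, ?_, ?_, ?_, ?_, ?_, ?_, ?_, ?_, ?_⟩
    · -- inv
      intro (d : N.S.D)
      by_cases h : d ∈ Y
      · refine (hmem _ _ (gs_r_mem N.S hY h)).trans ((hrF _).trans ?_)
        exact ⟨fun h1 => absurd (hY d h) (hYF _ h1), fun h1 => absurd h (hYF _ h1)⟩
      · exact (hmem _ _ (gs_r_not N.S hY h)).trans (hrF _)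
    · -- live
      intro (d : N.S.D) (hd : d ∈ F')
      show (N.S.glueSet Y hY).a d ≠ d
      rw [ha1 d hd]
      exact hN.fat.live d hd.1
    · -- out
      intro (d : N.S.D) (hd : d ∉ F') (h1 : (N.S.glueSet Y hY).a d ≠ d)
      show (N.S.glueSet Y hY).a d ∈ F'
      have h2 : d ∉ Y := fun h2 => h1 (gs_a_mem N.S hY h2)
      rw [gs_a_not N.S hY h2] at h1 ⊢
      by_cases h3 : d ∈ sat N k
      · have h4 := hYs d h3 h2
        have h5 := (hN.upF d (sat_up hN hk h3 h4)).2.2.2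
        refine ⟨h4, fun h6 => ?_⟩
        have h7 := h6.2
        have h8 := h3.2
        omega
      · have h4 : d ∉ N.F := fun h4 => hd ⟨h4, h3⟩
        refine ⟨hN.fat.out d h4 h1, fun h6 => h2 (Or.inr ⟨h6, h4⟩)⟩
    · -- hubr
      intro (d : N.S.D) (hd : d ∈ F')
      show N.hub ((N.S.glueSet Y hY).r d) = N.hub d
      rw [hr1 d hd]
      exact hN.hubr d hd.1
    · -- levr
      intro (d : N.S.D) (hd : d ∈ F')
      show N.lev ((N.S.glueSet Y hY).r d) = N.lev d
      rw [hr1 d hd]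
      exact hN.levr d hd.1
    · -- hubp
      intro (d : N.S.D) (hd : d ∈ F')
      exact hN.hubp d hd.1
    · -- levd
      intro (d : N.S.D) (hd : d ∈ F')
      exact hlevF d hd
    · -- port
      intro (d : N.S.D) (hd : d ∈ F')
      show ∃ e : N.S.D, (N.S.glueSet Y hY).r.SameCycle d e ∧ (N.S.glueSet Y hY).a e ∉ F'
      obtain ⟨e, h1, h2⟩ := hN.port d hd.1
      refine ⟨e, (hsc d hd e).2 h1, ?_⟩
      rw [ha1 e (hsc2 d hd e h1)]
      exact fun h => h2 h.1
    · -- upF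
      intro (u : N.S.D) (hu : u ∈ N.up \ sat N k)
      show u ∈ F' ∧ (N.S.glueSet Y hY).a u ∈ F' ∧ N.hub ((N.S.glueSet Y hY).a u) = N.hub u ∧
        N.lev ((N.S.glueSet Y hY).a u) + 1 = N.lev u
      obtain ⟨h1, h2, h3, h4⟩ := hN.upF u hu.1
      have h5 : u ∈ F' := ⟨h1, hu.2⟩
      rw [ha1 u h5]
      exact ⟨h5, ⟨h2, haF u h1 h2 hu.2 h4⟩, h3, h4⟩
    · -- upE
      intro (d : N.S.D) (hd : d ∈ F') (h0 : 0 < N.lev d)
      show ∃ u ∈ N.up \ sat N k, (N.S.glueSet Y hY).r.SameCycle d u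
      obtain ⟨u, h1, h2⟩ := hN.upE d hd.1 h0
      exact ⟨u, ⟨h1, hsat u (hsc2 d hd u h2)⟩, (hsc d hd u).2 h2⟩
    · -- upU
      intro (u : N.S.D) (hu : u ∈ N.up \ sat N k) (v : N.S.D) (hv : v ∈ N.up \ sat N k)
        (h : (N.S.glueSet Y hY).r.SameCycle u v)
      exact hN.upU u hu.1 v hv.1 ((hsc u ⟨(hN.upF u hu.1).1, hu.2⟩ v).1 h)
    · -- resv
      intro (d : N.S.D) (hd : d ∈ F') (h1 : (N.S.glueSet Y hY).a d ∈ F') (h2 : 0 < N.lev d)
      show d ∈ N.up \ sat N k ∨ (N.S.glueSet Y hY).a d ∈ N.up \ sat N k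
      rw [ha1 d hd] at h1 ⊢
      rcases hN.resv d hd.1 h1.1 h2 with h | h
      · exact Or.inl ⟨h, hd.2⟩
      · exact Or.inr ⟨h, h1.2⟩
    · -- frF
      intro (d : N.S.D) (hd : d ∈ N.fr)
      show d ∈ F' ∧ N.lev d = 0 ∧ (N.S.glueSet Y hY).a d ∈ N.fr ∧ adj (N.hub d) (N.hub ((N.S.glueSet Y hY).a d))
      obtain ⟨h1, h2, h3, h4⟩ := hN.frF d hd
      rw [ha1 d (hfrF' d hd)]
      exact ⟨hfrF' d hd, h2, h3, h4⟩
    · -- frU
      intro (d : N.S.D) (hd : d ∈ N.fr) (e : N.S.D) (he : e ∈ N.fr) (h1 : N.hub d = N.hub e)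
        (h2 : N.hub ((N.S.glueSet Y hY).a d) = N.hub ((N.S.glueSet Y hY).a e))
      rw [ha1 d (hfrF' d hd), ha1 e (hfrF' e he)] at h2
      exact hN.frU d hd e he h1 h2
    · -- frE
      intro g hg h hh hgh hg0 hh0
      show ∃ d ∈ N.fr, N.hub d = g ∧ N.hub ((N.S.glueSet Y hY).a d) = h
      obtain ⟨d, h1, h2, h3⟩ := hN.frE g hg h hh hgh hg0 hh0
      refine ⟨d, h1, h2, ?_⟩
      rw [ha1 d (hfrF' d h1)]
      exact h3
    · -- one
      intro (d : N.S.D) (hd : d ∈ F') (e : N.S.D) (he : e ∈ F') (h1 : N.hub d = N.hub e)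
        (h2 : N.t (N.hub d) = 0) (h3 : N.lev d = 0) (h4 : N.lev e = 0)
      exact (hsc d hd e).2 (hN.one d hd.1 e he.1 h1 h2 h3 h4)
    · -- cnt
      intro (d : N.S.D) (hd : d ∈ F') (h1 : N.lev d = 0)
      refine (hN.cnt d hd.1 h1).trans (Nat.mul_le_mul_left _ ?_)
      exact Set.ncard_le_ncard (fun e he => ⟨he.1, (hsc d hd e).2 he.2⟩) (Set.toFinite _)
    · -- c0
      intro g
      refine le_trans ?_ (hN.c0 g)
      exact Set.ncard_le_ncard (fun d hd => ⟨hd.1.1, hd.2⟩) (Set.toFinite _)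
    · -- cT
      intro g
      refine le_trans ?_ (hN.cT g)
      exact Set.ncard_le_ncard (fun d hd => ⟨hd.1.1, hd.2⟩) (Set.toFinite _)
  · intro h
    exact blocks_U L N.S Y hY ζ hζr hζY hblock h
  · -- no open corners
    have hcomp : ∀ d : N.S.D, d ∉ F' → (N.S.glueSet Y hY).a d ≠ d → ∃ o : N.S.D, o ∉ N.F ∧ N.S.a o ≠ o ∧
        N.S.vx o d ∧ (d ∈ sat N k → o = N.S.a (N.S.r.symm d) ∧ o ∈ Y) ∧ (d ∉ sat N k → o = d ∧ o ∉ Y) := by
      intro d hd h1
      have h2 : d ∉ Y := fun h2 => h1 (gs_a_mem N.S hY h2)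
      rw [gs_a_not N.S hY h2] at h1
      by_cases h3 : d ∈ sat N k
      · have h4 := hYs d h3 h2
        have h5 := up_prev hN hk h3 h4
        have h6 : N.S.r (N.S.r.symm d) = d := N.S.r.apply_symm_apply d
        have h7 : N.S.r.symm d ∈ sat N k := by
          rw [← sat_r hN, h6]
          exact h3
        refine ⟨N.S.a (N.S.r.symm d), h5, hlo _ h7.1 h5, ⟨1, ?_⟩, fun _ => ⟨rfl, Or.inr ⟨?_, h5⟩⟩,
          fun h => absurd h3 h⟩
        · rw [zpow_one, Perm.mul_apply, N.S.aa, h6]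
        · rw [N.S.aa]
          exact h7
      · have h4 : d ∉ N.F := fun h4 => hd ⟨h4, h3⟩
        exact ⟨d, h4, h1, Perm.SameCycle.refl _ _, fun h => absurd h h3, fun _ => ⟨rfl, h2⟩⟩
    rw [Set.eq_empty_iff_forall_notMem]
    rintro ⟨d, e⟩ ⟨h1, h2, h3, h4, h5, h6⟩
    replace h1 : d ∉ F' := h1
    replace h2 : e ∉ F' := h2
    replace h3 : (N.S.glueSet Y hY).a d ≠ d := h3
    replace h4 : (N.S.glueSet Y hY).a e ≠ e := h4
    replace h5 : d ≠ e := h5
    replace h6 : N.S.vx d e := (gs_vx N.S hY d e).1 h6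
    obtain ⟨o, ho1, ho2, ho3, ho4, ho5⟩ := hcomp d h1 h3
    obtain ⟨o', hp1, hp2, hp3, hp4, hp5⟩ := hcomp e h2 h4
    have hv : N.S.vx o o' := Perm.SameCycle.trans ho3 (Perm.SameCycle.trans h6 (Perm.SameCycle.symm hp3))
    have hoo : o = o' := by
      by_contra hne
      have : (o, o') ∈ prs N.S N.F := ⟨ho1, hp1, ho2, hp2, hne, hv⟩
      rw [hp] at this
      exact this
    by_cases hds : d ∈ sat N k
    · by_cases hes : e ∈ sat N k
      · apply h5
        have h7 : N.S.a (N.S.r.symm d) = N.S.a (N.S.r.symm e) := by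
          rw [← (ho4 hds).1, ← (hp4 hes).1, hoo]
        exact N.S.r.symm.injective (N.S.a.injective h7)
      · exact (hp5 hes).2 (hoo ▸ (ho4 hds).2)
    · by_cases hes : e ∈ sat N k
      · exact (ho5 hds).2 (hoo ▸ (hp4 hes).2)
      · apply h5
        rw [← (ho5 hds).1, ← (hp5 hes).1, hoo]

end Pool.Agent.GW
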