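import Pool.Agent.SWP.Cy

/-!
# Arcs of cycles
-/

set_option autoImplicit false

namespace Pool.Agent.GW

open Equiv Pool.Agent.SWP

section
variable {D : Type} {r : Perm D} {x y d e f : D}

theorem garc_ne (h : Arc r x y d) : d ≠ y := by
  obtain ⟨i, h1, h2⟩ := h
  rw [← h1]
  exact h2 i le_rfl

theorem garc_start (h : x ≠ y) : Arc r x y x :=
  ⟨0, rfl, fun i' hi' => by
    have : i' = 0 := by omega
    rw [this]
    exact h⟩

theorem garc_next (h : Arc r x y d) : r d = y ∨ Arc r x y (r d) := by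
  obtain ⟨i, h1, h2⟩ := h
  by_cases h3 : r d = y
  · exact Or.inl h3
  · refine Or.inr ⟨i + 1, ?_, ?_⟩
    · rw [pow_succ', Perm.mul_apply, h1]
    · intro i' hi'
      rcases Nat.lt_or_ge i' (i + 1) with h4 | h4
      · exact h2 i' (by omega)
      · have : i' = i + 1 := by omega
        rw [this, pow_succ', Perm.mul_apply, h1]
        exact h3

theorem garc_prev (h : Arc r (r e) y d) : d = r e ∨ Arc r (r e) y (r.symm d) := by
  obtain ⟨i, h1, h2⟩ := h
  cases i with
  | zero => exact Or.inl h1.symm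
  | succ i =>
    refine Or.inr ⟨i, ?_, fun i' hi' => h2 i' (by omega)⟩
    rw [← h1, pow_succ', Perm.mul_apply, Equiv.symm_apply_apply]

theorem garc_same (h : Arc r x y d) : r.SameCycle x d := by
  obtain ⟨i, h1, _⟩ := h
  exact ⟨i, by rw [zpow_natCast]; exact h1⟩

theorem garc_same' (h : Arc r (r e) y d) : r.SameCycle e d :=
  Perm.sameCycle_apply_left.1 (garc_same h)

variable [Finite D]

theorem garc_cover (_hs : r.SameCycle e f) (hd : r.SameCycle e d) (h1 : d ≠ e) (h2 : d ≠ f) :
    Arc r (r e) f d ∨ Arc r (r f) e d := by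
  have key : d ∈ {z | z = e ∨ z = f ∨ Arc r (r e) f z ∨ Arc r (r f) e z} := by
    refine mem_of_same (s := r) ?_ (Or.inl rfl : e ∈ {z | z = e ∨ z = f ∨ Arc r (r e) f z ∨ Arc r (r f) e z}) hd
    rintro z (h | h | h | h)
    · rw [h]
      by_cases h3 : r e = f
      · exact Or.inr (Or.inl h3)
      · exact Or.inr (Or.inr (Or.inl (garc_start h3)))
    · rw [h]
      by_cases h3 : r f = e
      · exact Or.inl h3
      · exact Or.inr (Or.inr (Or.inr (garc_start h3)))
    · rcases garc_next h with h3 | h3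
      · exact Or.inr (Or.inl h3)
      · exact Or.inr (Or.inr (Or.inl h3))
    · rcases garc_next h with h3 | h3
      · exact Or.inl h3
      · exact Or.inr (Or.inr (Or.inr h3))
  rcases key with h | h | h | h
  · exact absurd h h1
  · exact absurd h h2
  · exact Or.inl h
  · exact Or.inr h

theorem garc_not_start (hs : r.SameCycle e f) : ¬ Arc r (r e) f e := by
  rintro ⟨i, h1, h2⟩
  have key : f ∈ {z | ∃ i' ≤ i, (r ^ i') (r e) = z} := by
    refine mem_of_same (s := r) ?_ (⟨i, le_rfl, h1⟩ : e ∈ {z | ∃ i' ≤ i, (r ^ i') (r e) = z}) hs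
    rintro z ⟨i', hi', rfl⟩
    rcases Nat.lt_or_ge i' i with h4 | h4
    · exact ⟨i' + 1, by omega, by rw [pow_succ', Perm.mul_apply]⟩
    · have : i' = i := by omega
      rw [this, h1]
      exact ⟨0, by omega, rfl⟩
  obtain ⟨i', hi', h3⟩ := key
  exact h2 i' hi' h3

omit [Finite D] in
theorem garc_disj (hne : e ≠ f) (h1 : Arc r (r e) f d) (h2 : Arc r (r f) e d) : False := by
  obtain ⟨i, hi, hi2⟩ := h1
  obtain ⟨k, hk, hk2⟩ := h2
  rcases lt_trichotomy i k with h | h | h
  · have : (r ^ (k - (i + 1))) (r f) = e := by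
      apply (r ^ (i + 1)).injective
      rw [← Perm.mul_apply, ← pow_add, show i + 1 + (k - (i + 1)) = k by omega, hk, ← hi, ← Perm.mul_apply,
        ← pow_succ]
    exact hk2 _ (by omega) this
  · subst h
    apply hne
    apply r.injective
    apply (r ^ i).injective
    rw [hi, hk]
  · have : (r ^ (i - (k + 1))) (r e) = f := by
      apply (r ^ (k + 1)).injective
      rw [← Perm.mul_apply, ← pow_add, show k + 1 + (i - (k + 1)) = i by omega, hi, ← hk, ← Perm.mul_apply,
        ← pow_succ]
    exact hi2 _ (by omega) this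

end

end Pool.Agent.GW
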