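import Pool.Agent.GW.CovDef

/-!
# GW/Arcs: chains of words give rungs (MP_37d33d_gt)

The letters of the rung `i` are the letters strictly between the entry letter `s i j` and the exit letter `t i j`
of the words `j = 0 .. n i`, in this order (list `L i`). Inside an arc the next letter is `r d`; from the last letter of
an arc the rotation crosses `c i j` (several of them if arcs are empty).
-/

set_option autoImplicit false

namespace Pool.Agent.GW

open Equiv Pool.Agent.SWP

/-- A system of disjoint chains of words: the chain `i` consists of `n i + 1` words, `c i j` is the letter of the word `j`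
(for `j < n i`) whose partner lies in the word `j + 1`; `x i` and `y i` are letters of `E` in the first and in the last
word. `s i j` and `t i j` are the entry and the exit letter of the word `j`. -/
structure PS (S : Sf) (E : Set S.D) where
  I : Type
  fI : Fintype I
  n : I → ℕ
  c : I → ℕ → S.D
  x : I → S.D
  y : I → S.D
  xE : ∀ i, x i ∈ E
  yE : ∀ i, y i ∈ E
  cE : ∀ i, ∀ j < n i, c i j ∉ E

/-- entry letter -/
def PS.s {S : Sf} {E : Set S.D} (Q : PS S E) (i : Q.I) : ℕ → S.D
  | 0 => Q.x i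
  | (j + 1) => S.a (Q.c i j)

/-- exit letter -/
def PS.t {S : Sf} {E : Set S.D} (Q : PS S E) (i : Q.I) (j : ℕ) : S.D := if j < Q.n i then Q.c i j else Q.y i

/-! ## lists -/

section Lists

variable {D : Type}

/-- consecutive elements of a list -/
private def Nx : List D → D → D → Prop
  | [], _, _ => False
  | [_], _, _ => False
  | a :: b :: l, d, e => (d = a ∧ e = b) ∨ Nx (b :: l) d e

private theorem nx_left : ∀ (l : List D) (d e : D), Nx l d e → d ∈ l
  | [], _, _, h => h.elim
  | [_], _, _, h => h.elim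
  | a :: b :: l, d, e, h => by
    rcases h with h | h
    · rw [h.1]; exact List.mem_cons_self
    · exact List.mem_cons_of_mem _ (nx_left (b :: l) d e h)

private theorem nx_right : ∀ (l : List D) (a d e : D), Nx (a :: l) d e → e ∈ l
  | [], _, _, _, h => h.elim
  | b :: l, a, d, e, h => by
    rcases h with h | h
    · rw [h.2]; exact List.mem_cons_self
    · exact List.mem_cons_of_mem _ (nx_right l b d e h)

private theorem nx_fun : ∀ (l : List D), l.Nodup → ∀ d e e', Nx l d e → Nx l d e' → e = e'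
  | [], _, _, _, _, h, _ => h.elim
  | [_], _, _, _, _, h, _ => h.elim
  | a :: b :: l, hl, d, e, e', h, h' => by
    have ha : a ∉ b :: l := (List.nodup_cons.1 hl).1
    rcases h with h | h
    · rcases h' with h' | h'
      · rw [h.2, h'.2]
      · exact absurd (h.1 ▸ nx_left _ _ _ h') ha
    · rcases h' with h' | h'
      · exact absurd (h'.1 ▸ nx_left _ _ _ h) ha
      · exact nx_fun (b :: l) (List.nodup_cons.1 hl).2 d e e' h h'

private theorem nx_inj : ∀ (l : List D), l.Nodup → ∀ d d' e, Nx l d e → Nx l d' e → d = d'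
  | [], _, _, _, _, h, _ => h.elim
  | [_], _, _, _, _, h, _ => h.elim
  | a :: b :: l, hl, d, d', e, h, h' => by
    have hb : b ∉ l := (List.nodup_cons.1 (List.nodup_cons.1 hl).2).1
    rcases h with h | h
    · rcases h' with h' | h'
      · rw [h.1, h'.1]
      · exact absurd (h.2 ▸ nx_right _ _ _ _ h') hb
    · rcases h' with h' | h'
      · exact absurd (h'.2 ▸ nx_right _ _ _ _ h) hb
      · exact nx_inj (b :: l) (List.nodup_cons.1 hl).2 d d' e h h'

private theorem ex_next : ∀ (l : List D) (hl : l ≠ []) (d : D), d ∈ l → d ≠ l.getLast hl → ∃ e, Nx l d e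
  | [], hl, _, _, _ => absurd rfl hl
  | [a], _, d, hd, hne => by
    rw [List.mem_singleton] at hd
    exact absurd hd hne
  | a :: b :: l, _, d, hd, hne => by
    by_cases hda : d = a
    · exact ⟨b, Or.inl ⟨hda, rfl⟩⟩
    · have h1 : d ∈ b :: l := by
        rcases List.mem_cons.1 hd with h | h
        · exact absurd h hda
        · exact h
      obtain ⟨e, he⟩ := ex_next (b :: l) (by simp) d h1 (by
        rw [List.getLast_cons (by simp)] at hne; exact hne)
      exact ⟨e, Or.inr he⟩

private theorem no_next : ∀ (l : List D) (hl : l ≠ []), l.Nodup → ∀ e, ¬ Nx l (l.getLast hl) e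
  | [], hl, _, _ => absurd rfl hl
  | [_], _, _, _ => fun h => h.elim
  | a :: b :: l, _, hn, e => by
    intro h
    have hg : (a :: b :: l).getLast (by simp) = (b :: l).getLast (by simp) := List.getLast_cons (by simp)
    rw [hg] at h
    rcases h with h | h
    · apply (List.nodup_cons.1 hn).1
      rw [← h.1]
      exact List.getLast_mem _
    · exact no_next (b :: l) (by simp) (List.nodup_cons.1 hn).2 e h

private theorem ex_prev : ∀ (l : List D) (a d : D), d ∈ a :: l → d ≠ a → ∃ d', Nx (a :: l) d' d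
  | [], a, d, hd, hne => by
    rw [List.mem_singleton] at hd
    exact absurd hd hne
  | b :: l, a, d, hd, hne => by
    by_cases hdb : d = b
    · exact ⟨a, Or.inl ⟨rfl, hdb⟩⟩
    · have h1 : d ∈ b :: l := by
        rcases List.mem_cons.1 hd with h | h
        · exact absurd h hne
        · exact h
      obtain ⟨e, he⟩ := ex_prev l b d h1 hdb
      exact ⟨e, Or.inr he⟩

private theorem nx_reach : ∀ (l : List D) (a d : D), d ∈ a :: l → Relation.ReflTransGen (Nx (a :: l)) a d
  | [], a, d, hd => by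
    rw [List.mem_singleton] at hd
    rw [hd]
  | b :: l, a, d, hd => by
    rcases List.mem_cons.1 hd with h | h
    · rw [h]
    · have h1 := nx_reach l b d h
      have h2 : Relation.ReflTransGen (Nx (a :: b :: l)) b d := by
        clear h hd
        induction h1 with
        | refl => exact Relation.ReflTransGen.refl
        | tail _ h3 ih => exact ih.tail (Or.inr h3)
      exact Relation.ReflTransGen.head (Or.inl ⟨rfl, rfl⟩) h2

/-- chain from `d` through the list to `y` -/
private def Ch (C : D → D → Prop) (y : D) : D → List D → Prop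
  | d, [] => C d y
  | d, e :: l => C d e ∧ Ch C y e l

private theorem ch_nx (C : D → D → Prop) (y : D) : ∀ (l : List D) (x : D), Ch C y x l → ∀ d e, Nx l d e → C d e
  | [], _, _, _, _, h => h.elim
  | [_], _, _, _, _, h => h.elim
  | a :: b :: l, x, hc, d, e, h => by
    rcases h with h | h
    · rw [h.1, h.2]; exact hc.2.1
    · exact ch_nx C y (b :: l) a hc.2 d e h

private theorem ch_last (C : D → D → Prop) (y : D) :
    ∀ (l : List D) (x : D), Ch C y x l → ∀ hl : l ≠ [], C (l.getLast hl) y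
  | [], _, _, hl => absurd rfl hl
  | [a], _, hc, _ => hc.2
  | a :: b :: l, x, hc, _ => by
    rw [List.getLast_cons (by simp)]
    exact ch_last C y (b :: l) a hc.2 (by simp)

/-- the letters `r s, .., r^k s` -/
private def arcL (r : Perm D) : ℕ → D → List D
  | 0, _ => []
  | k + 1, s => r s :: arcL r k (r s)

private theorem mem_arcL (r : Perm D) : ∀ (k : ℕ) (s d : D), d ∈ arcL r k s ↔ ∃ p, 1 ≤ p ∧ p ≤ k ∧ (r ^ p) s = d
  | 0, s, d => by
    constructor
    · intro h; exact absurd h List.not_mem_nil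
    · rintro ⟨p, h1, h2, _⟩; omega
  | k + 1, s, d => by
    show d ∈ r s :: arcL r k (r s) ↔ _
    rw [List.mem_cons, mem_arcL r k (r s) d]
    constructor
    · rintro (h | ⟨p, h1, h2, h3⟩)
      · exact ⟨1, le_rfl, by omega, by rw [pow_one]; exact h.symm⟩
      · exact ⟨p + 1, by omega, by omega, by rw [pow_succ, Perm.mul_apply]; exact h3⟩
    · rintro ⟨p, h1, h2, h3⟩
      obtain ⟨q, rfl⟩ : ∃ q, p = q + 1 := ⟨p - 1, by omega⟩
      by_cases hq : q = 0
      · subst hq
        left
        rw [zero_add, pow_one] at h3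
        exact h3.symm
      · right
        exact ⟨q, by omega, by omega, by rw [pow_succ, Perm.mul_apply] at h3; exact h3⟩

private theorem nodup_arcL (r : Perm D) : ∀ (k : ℕ) (s : D), (∀ p, 1 ≤ p → p ≤ k → (r ^ p) s ≠ s) →
    (arcL r k s).Nodup
  | 0, _, _ => List.nodup_nil
  | k + 1, s, h => by
    show (r s :: arcL r k (r s)).Nodup
    rw [List.nodup_cons]
    have h' : ∀ p, 1 ≤ p → p ≤ k → (r ^ p) (r s) ≠ r s := by
      intro p h1 h2 h3
      apply h p h1 (by omega)
      apply r.injective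
      rw [← Perm.mul_apply, ← pow_succ', pow_succ, Perm.mul_apply]
      exact h3
    refine ⟨?_, nodup_arcL r k (r s) h'⟩
    rw [mem_arcL]
    rintro ⟨p, h1, h2, h3⟩
    exact h' p h1 h2 h3

private theorem ch_arc (r : Perm D) (C : D → D → Prop) (hC : ∀ d, C d (r d)) (y : D) (T : List D) :
    ∀ (k : ℕ) (s d : D), C d (r s) → (∀ u, C u ((r ^ (k + 1)) s) → Ch C y u T) → Ch C y d (arcL r k s ++ T)
  | 0, s, d, h, hT => by
    apply hT
    rw [zero_add, pow_one]
    exact h
  | k + 1, s, d, h, hT => by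
    refine ⟨h, ch_arc r C hC y T k (r s) (r s) (hC _) ?_⟩
    intro u hu
    apply hT
    rw [pow_succ, Perm.mul_apply]
    exact hu

/-- concatenation -/
private def LL (arc : ℕ → List D) : ℕ → ℕ → List D
  | 0, _ => []
  | q + 1, j => arc j ++ LL arc q (j + 1)

private theorem mem_LL (arc : ℕ → List D) : ∀ (q j : ℕ) (d : D),
    d ∈ LL arc q j ↔ ∃ p, j ≤ p ∧ p < j + q ∧ d ∈ arc p
  | 0, j, d => by
    constructor
    · intro h; exact absurd h List.not_mem_nil
    · rintro ⟨p, h1, h2, _⟩; omega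
  | q + 1, j, d => by
    show d ∈ arc j ++ LL arc q (j + 1) ↔ _
    rw [List.mem_append, mem_LL arc q (j + 1) d]
    constructor
    · rintro (h | ⟨p, h1, h2, h3⟩)
      · exact ⟨j, le_rfl, by omega, h⟩
      · exact ⟨p, by omega, by omega, h3⟩
    · rintro ⟨p, h1, h2, h3⟩
      by_cases hp : p = j
      · left; rw [← hp]; exact h3
      · right; exact ⟨p, by omega, by omega, h3⟩

private theorem nodup_LL (arc : ℕ → List D) (N : ℕ) (h1 : ∀ p ≤ N, (arc p).Nodup)
    (h2 : ∀ p ≤ N, ∀ p' ≤ N, ∀ d, d ∈ arc p → d ∈ arc p' → p = p') :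
    ∀ (q j : ℕ), j + q ≤ N + 1 → (LL arc q j).Nodup
  | 0, _, _ => List.nodup_nil
  | q + 1, j, hj => by
    show (arc j ++ LL arc q (j + 1)).Nodup
    rw [List.nodup_append]
    refine ⟨h1 j (by omega), nodup_LL arc N h1 h2 q (j + 1) (by omega), ?_⟩
    intro a ha b hb hab
    subst hab
    rw [mem_LL] at hb
    obtain ⟨p, hp1, hp2, hp3⟩ := hb
    have := h2 j (by omega) p (by omega) a ha hp3
    omega

end Lists

/-- a partial injection from a functional and injective relation -/
private theorem lk_exists {D : Type} (R : D → D → Prop) (h1 : ∀ d e e', R d e → R d e' → e = e')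
    (h2 : ∀ d d' e, R d e → R d' e → d = d') :
    ∃ K : Lk D, (∀ d e, K.N d = some e ↔ R d e) ∧ (∀ d e, K.P e = some d ↔ R d e) := by
  classical
  have hN : ∀ d e, (if h : ∃ e, R d e then some h.choose else none) = some e ↔ R d e := by
    intro d e
    by_cases h : ∃ e, R d e
    · rw [dif_pos h, Option.some_inj]
      constructor
      · intro h3; rw [← h3]; exact h.choose_spec
      · intro h3; exact h1 d _ _ h.choose_spec h3
    · rw [dif_neg h]
      constructor
      · intro h3; exact absurd h3 (by simp)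
      · intro h3; exact absurd ⟨e, h3⟩ h
  have hP : ∀ d e, (if h : ∃ d, R d e then some h.choose else none) = some d ↔ R d e := by
    intro d e
    by_cases h : ∃ d, R d e
    · rw [dif_pos h, Option.some_inj]
      constructor
      · intro h3; rw [← h3]; exact h.choose_spec
      · intro h3; exact h2 _ _ e h.choose_spec h3
    · rw [dif_neg h]
      constructor
      · intro h3; exact absurd h3 (by simp)
      · intro h3; exact absurd ⟨d, h3⟩ h
  exact ⟨⟨fun d => if h : ∃ e, R d e then some h.choose else none,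
    fun e => if h : ∃ d, R d e then some h.choose else none,
    fun d e => (hN d e).trans (hP d e).symm⟩, hN, hP⟩

/-! ## the rotation -/

private theorem cor_zero (S : Sf) (B : Set S.D) (d : S.D) : S.Cor B d (S.r d) :=
  ⟨0, rfl, fun i hi => absurd hi (Nat.not_lt_zero i)⟩

private theorem cor_cross (S : Sf) (B : Set S.D) {d z : S.D} (h : S.Cor B d z) (h1 : z ∉ B) (h2 : S.a z ∉ B) :
    S.Cor B d (S.r (S.a z)) := by
  obtain ⟨k, hk, hi⟩ := h
  refine ⟨k + 1, ?_, ?_⟩
  · rw [pow_succ', Perm.mul_apply, hk, Perm.mul_apply]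
  · intro i hik
    rcases Nat.lt_succ_iff_lt_or_eq.1 hik with h | h
    · exact hi i h
    · subst h
      rw [hk]
      exact ⟨h1, h2⟩

private theorem cor_unique (S : Sf) (E : Set S.D) {d g g' : S.D} (h : S.Cor E d g) (h' : S.Cor E d g')
    (hg : g ∈ E) (hg' : g' ∈ E) : g = g' := by
  obtain ⟨k, hk, hi⟩ := h
  obtain ⟨k', hk', hi'⟩ := h'
  rcases lt_trichotomy k k' with h1 | h1 | h1
  · exact absurd (hk ▸ hg) (hi' k h1).1
  · subst h1
    rw [← hk, ← hk']
  · exact absurd (hk' ▸ hg') (hi k' h1).1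

private theorem cor_mono (S : Sf) {E B : Set S.D} (hEB : E ⊆ B) {d g : S.D} (h : S.Cor B d g) : S.Cor E d g := by
  obtain ⟨k, hk, hi⟩ := h
  exact ⟨k, hk, fun i hik => ⟨fun h => (hi i hik).1 (hEB h), fun h => (hi i hik).2 (hEB h)⟩⟩

/-- the number of letters strictly between two letters of a word -/
private theorem arc_exists {D : Type} [Finite D] (r : Perm D) {s t : D} (h : r.SameCycle s t) (hst : s ≠ t) :
    ∃ k : ℕ, (r ^ (k + 1)) s = t ∧ (∀ p, 1 ≤ p → p ≤ k → (r ^ p) s ≠ t) ∧
      ∀ p, 1 ≤ p → p ≤ k → (r ^ p) s ≠ s := by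
  classical
  have hex : ∃ k : ℕ, (r ^ (k + 1)) s = t := by
    obtain ⟨n, hn⟩ := h.exists_nat_pow_eq
    rcases n with _ | n
    · rw [pow_zero] at hn
      exact absurd hn hst
    · exact ⟨n, hn⟩
  refine ⟨Nat.find hex, Nat.find_spec hex, ?_, ?_⟩
  · intro p h1 h2 h3
    obtain ⟨q, rfl⟩ : ∃ q, p = q + 1 := ⟨p - 1, by omega⟩
    exact Nat.find_min hex (m := q) (by omega) h3
  · intro p h1 h2 h3
    have h4 := Nat.find_spec hex
    have h5 : Nat.find hex + 1 = (Nat.find hex - p + 1) + p := by omega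
    rw [h5, pow_add, Perm.mul_apply, h3] at h4
    exact Nat.find_min hex (m := Nat.find hex - p) (by omega) h4

/-- chains of words give rungs -/
theorem rungs_of_chains (S : Sf) (hC : S.Closed) (E : Set S.D) (hE : S.Cl E) (ρ : Perm S.D) (hρ : S.FR E ρ) (Q : PS S E)
    (hst : ∀ i, ∀ j ≤ Q.n i, S.r.SameCycle (Q.s i j) (Q.t i j) ∧ Q.s i j ≠ Q.t i j)
    (hdis : ∀ i i', ∀ j ≤ Q.n i, ∀ j' ≤ Q.n i', S.r.SameCycle (Q.s i j) (Q.s i' j') → i = i' ∧ j = j')
    (hxy : ∀ i j, ρ (Q.x i) ≠ Q.y j) :
    ∃ (R : Rg S E ρ) (φ : R.I ≃ Q.I), (∀ i, R.x i = Q.x (φ i)) ∧ (∀ i, R.y i = Q.y (φ i)) ∧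
      ∀ i, ∀ d ∈ R.ch i, ∃ j ≤ Q.n (φ i), S.r.SameCycle (Q.s (φ i) j) d := by
  classical
  -- the arcs
  have hk : ∀ i j, ∃ k : ℕ, j ≤ Q.n i → (S.r ^ (k + 1)) (Q.s i j) = Q.t i j ∧
      (∀ p, 1 ≤ p → p ≤ k → (S.r ^ p) (Q.s i j) ≠ Q.t i j) ∧
      ∀ p, 1 ≤ p → p ≤ k → (S.r ^ p) (Q.s i j) ≠ Q.s i j := by
    intro i j
    by_cases h : j ≤ Q.n i
    · obtain ⟨k, hk⟩ := arc_exists S.r (hst i j h).1 (hst i j h).2
      exact ⟨k, fun _ => hk⟩
    · exact ⟨0, fun h' => absurd h' h⟩
  choose kk hkk using hk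
  set arc : Q.I → ℕ → List S.D := fun i j => arcL S.r (kk i j) (Q.s i j) with harc
  have harc_same : ∀ i j d, d ∈ arc i j → S.r.SameCycle (Q.s i j) d := by
    intro i j d hd
    obtain ⟨p, _, _, hp⟩ := (mem_arcL _ _ _ _).1 hd
    exact ⟨p, by rw [zpow_natCast]; exact hp⟩
  have harc_s : ∀ i, ∀ j ≤ Q.n i, Q.s i j ∉ arc i j := by
    intro i j hj hd
    obtain ⟨p, h1, h2, hp⟩ := (mem_arcL _ _ _ _).1 hd
    exact (hkk i j hj).2.2 p h1 h2 hp
  have harc_t : ∀ i, ∀ j ≤ Q.n i, Q.t i j ∉ arc i j := by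
    intro i j hj hd
    obtain ⟨p, h1, h2, hp⟩ := (mem_arcL _ _ _ _).1 hd
    exact (hkk i j hj).2.1 p h1 h2 hp
  set L : Q.I → List S.D := fun i => LL (arc i) (Q.n i + 1) 0 with hL
  have hmem : ∀ i d, d ∈ L i ↔ ∃ j ≤ Q.n i, d ∈ arc i j := by
    intro i d
    rw [hL]
    show d ∈ LL (arc i) (Q.n i + 1) 0 ↔ _
    rw [mem_LL]
    constructor
    · rintro ⟨p, _, h2, h3⟩; exact ⟨p, by omega, h3⟩
    · rintro ⟨p, h2, h3⟩; exact ⟨p, by omega, by omega, h3⟩
  have hLnd : ∀ i, (L i).Nodup := by
    intro i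
    apply nodup_LL (arc i) (Q.n i) _ _ (Q.n i + 1) 0 (by omega)
    · intro p hp
      exact nodup_arcL _ _ _ (hkk i p hp).2.2
    · intro p hp p' hp' d hd hd'
      exact (hdis i i p hp p' hp' ((harc_same i p d hd).trans (harc_same i p' d hd').symm)).2
  have huniq : ∀ i i' d, d ∈ L i → d ∈ L i' → i = i' := by
    intro i i' d hd hd'
    obtain ⟨j, hj, h1⟩ := (hmem i d).1 hd
    obtain ⟨j', hj', h1'⟩ := (hmem i' d).1 hd'
    exact (hdis i i' j hj j' hj' ((harc_same i j d h1).trans (harc_same i' j' d h1').symm)).1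
  set G : Set S.D := {d | ∃ i, d ∈ L i} with hG
  -- entry and exit letters are not in G
  have hsG : ∀ i, ∀ j ≤ Q.n i, Q.s i j ∉ G := by
    rintro i j hj ⟨i', hd⟩
    obtain ⟨j', hj', h1⟩ := (hmem i' _).1 hd
    have h2 := hdis i' i j' hj' j hj (harc_same i' j' _ h1)
    obtain ⟨h3, h4⟩ := h2
    subst h3; subst h4
    exact harc_s i' j' hj h1
  have htG : ∀ i, ∀ j ≤ Q.n i, Q.t i j ∉ G := by
    rintro i j hj ⟨i', hd⟩
    obtain ⟨j', hj', h1⟩ := (hmem i' _).1 hd
    have h2 := hdis i' i j' hj' j hj ((harc_same i' j' _ h1).trans (hst i j hj).1.symm)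
    obtain ⟨h3, h4⟩ := h2
    subst h3; subst h4
    exact harc_t i' j' hj h1
  -- the chain
  have hchain : ∀ i, ∀ q j, j + q = Q.n i → ∀ d, S.Cor (E ∪ G) d (S.r (Q.s i j)) →
      Ch (S.Cor (E ∪ G)) (Q.y i) d (LL (arc i) (q + 1) j) := by
    intro i q
    induction q with
    | zero =>
      intro j hj d hd
      show Ch (S.Cor (E ∪ G)) (Q.y i) d (arcL S.r (kk i j) (Q.s i j) ++ [])
      apply ch_arc S.r (S.Cor (E ∪ G)) (cor_zero S _) _ _ _ _ _ hd
      intro u hu
      rw [(hkk i j (by omega)).1] at hu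
      have h1 : Q.t i j = Q.y i := by
        unfold PS.t; rw [if_neg (by omega)]
      rw [h1] at hu
      exact hu
    | succ q ih =>
      intro j hj d hd
      show Ch (S.Cor (E ∪ G)) (Q.y i) d (arcL S.r (kk i j) (Q.s i j) ++ LL (arc i) (q + 1) (j + 1))
      apply ch_arc S.r (S.Cor (E ∪ G)) (cor_zero S _) _ _ _ _ _ hd
      intro u hu
      rw [(hkk i j (by omega)).1] at hu
      have h1 : Q.t i j = Q.c i j := by
        unfold PS.t; rw [if_pos (by omega)]
      have h2 : Q.c i j ∉ E ∪ G := by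
        rintro (h | h)
        · exact Q.cE i j (by omega) h
        · rw [← h1] at h
          exact htG i j (by omega) h
      have h3 : S.a (Q.c i j) ∉ E ∪ G := by
        rintro (h | h)
        · apply Q.cE i j (by omega)
          rw [← S.aa (Q.c i j)]
          exact hE _ h
        · exact hsG i (j + 1) (by omega) h
      rw [h1] at hu
      exact ih (j + 1) (by omega) u (cor_cross S _ hu h2 h3)
  have hCh : ∀ i, Ch (S.Cor (E ∪ G)) (Q.y i) (Q.x i) (L i) := by
    intro i
    exact hchain i (Q.n i) 0 (by omega) (Q.x i) (cor_zero S _ _)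
  have hne : ∀ i, L i ≠ [] := by
    intro i h
    have h1 := hCh i
    rw [h] at h1
    have h2 : S.Cor E (Q.x i) (Q.y i) := cor_mono S Set.subset_union_left h1
    exact hxy i i (cor_unique S E (hρ.cor _ (Q.xE i)) h2 (hρ.mem _ (Q.xE i)) (Q.yE i))
  -- the successor map
  obtain ⟨K, hKN, hKP⟩ := lk_exists (fun d e => ∃ i, Nx (L i) d e)
    (by
      rintro d e e' ⟨i, h⟩ ⟨i', h'⟩
      have hi := huniq i i' d (nx_left _ _ _ h) (nx_left _ _ _ h')
      subst hi
      exact nx_fun _ (hLnd i) _ _ _ h h')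
    (by
      rintro d d' e ⟨i, h⟩ ⟨i', h'⟩
      have hr : ∀ (l : List S.D) (d e : S.D), Nx l d e → e ∈ l := by
        intro l d e h
        cases l with
        | nil => exact h.elim
        | cons a l => exact List.mem_cons_of_mem _ (nx_right _ _ _ _ h)
      have hi := huniq i i' e (hr _ _ _ h) (hr _ _ _ h')
      subst hi
      exact nx_inj _ (hLnd i) _ _ _ h h')
  have hr : ∀ (l : List S.D) (d e : S.D), Nx l d e → e ∈ l := by
    intro l d e h
    cases l with
    | nil => exact h.elim
    | cons a l => exact List.mem_cons_of_mem _ (nx_right _ _ _ _ h)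
  have hhead : ∀ i, ∃ l, L i = (L i).head (hne i) :: l := by
    intro i
    exact ⟨(L i).tail, (List.cons_head_tail (hne i)).symm⟩
  have hreach : ∀ i, ∀ d ∈ L i, Relation.ReflTransGen (fun d e => K.N d = some e) ((L i).head (hne i)) d := by
    intro i d hd
    obtain ⟨l, hl⟩ := hhead i
    have h1 := nx_reach l ((L i).head (hne i)) d (by rw [← hl]; exact hd)
    rw [← hl] at h1
    induction h1 with
    | refl => exact Relation.ReflTransGen.refl
    | @tail b c _ h3 ih => exact (ih (nx_left _ _ _ h3)).tail ((hKN b c).2 ⟨i, h3⟩)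
  have hclosed : ∀ i d, Relation.ReflTransGen (fun d e => K.N d = some e) ((L i).head (hne i)) d → d ∈ L i := by
    intro i d h
    induction h with
    | refl => exact List.head_mem _
    | @tail b c _ h3 ih =>
      obtain ⟨i', h4⟩ := (hKN b c).1 h3
      have hi := huniq i i' b ih (nx_left _ _ _ h4)
      subst hi
      exact hr _ _ _ h4
  refine ⟨{ G := G, K := K, I := Q.I, fI := Q.fI, x := Q.x, y := Q.y,
            f := fun i => (L i).head (hne i), l := fun i => (L i).getLast (hne i),
            xE := Q.xE, yE := Q.yE, xG := fun i => hsG i 0 (Nat.zero_le _),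
            yG := ?_, live := fun d _ => hC d, NG := ?_,
            fG := fun i => ⟨i, List.head_mem _⟩, lG := fun i => ⟨i, List.getLast_mem _⟩,
            Pf := ?_, Nl := ?_, finj := ?_, linj := ?_,
            fl := fun i => hreach i _ (List.getLast_mem _), reach := ?_,
            xf := ?_, ly := ?_, xinj := ?_, yinj := ?_, xy := hxy }, Equiv.refl _, fun _ => rfl, fun _ => rfl, ?_⟩
  · -- yG
    intro i
    have h1 : Q.t i (Q.n i) = Q.y i := by
      unfold PS.t; rw [if_neg (by omega)]
    rw [← h1]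
    exact htG i (Q.n i) le_rfl
  · -- NG
    intro d e h
    obtain ⟨i, h1⟩ := (hKN d e).1 h
    exact ⟨⟨i, nx_left _ _ _ h1⟩, ⟨i, hr _ _ _ h1⟩, ch_nx _ _ _ _ (hCh i) d e h1⟩
  · -- Pf
    rintro d ⟨i, hd⟩
    obtain ⟨l, hl⟩ := hhead i
    constructor
    · intro h
      refine ⟨i, ?_⟩
      by_contra hne'
      obtain ⟨d', h'⟩ := ex_prev l ((L i).head (hne i)) d (by rw [← hl]; exact hd) hne'
      rw [← hl] at h'
      have h2 := (hKP d' d).2 ⟨i, h'⟩
      rw [h] at h2
      exact absurd h2 (by simp)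
    · rintro ⟨i', hi'⟩
      rcases h : K.P d with _ | d'
      · rfl
      · exfalso
        obtain ⟨i2, h2⟩ := (hKP d' d).1 h
        have h3 : i2 = i' := huniq i2 i' d (hr _ _ _ h2) (hi' ▸ List.head_mem _)
        subst h3
        obtain ⟨l2, hl2⟩ := hhead i2
        have hnd := hLnd i2
        rw [hl2] at h2 hnd
        have h4 := nx_right _ _ _ _ h2
        have h5 := (List.nodup_cons.1 hnd).1
        apply h5
        rw [← hi']
        exact h4
  · -- Nl
    rintro d ⟨i, hd⟩
    constructor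
    · intro h
      refine ⟨i, ?_⟩
      by_contra hne'
      obtain ⟨e, h'⟩ := ex_next (L i) (hne i) d hd hne'
      have h2 := (hKN d e).2 ⟨i, h'⟩
      rw [h] at h2
      exact absurd h2 (by simp)
    · rintro ⟨i', hi'⟩
      rcases h : K.N d with _ | e
      · rfl
      · exfalso
        obtain ⟨i2, h2⟩ := (hKN d e).1 h
        have h3 : i2 = i' := huniq i2 i' d (nx_left _ _ _ h2) (hi' ▸ List.getLast_mem _)
        subst h3
        rw [hi'] at h2
        exact no_next (L i2) (hne i2) (hLnd i2) e h2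
  · -- finj
    intro i i' h
    exact huniq i i' ((L i).head (hne i)) (List.head_mem _) (by
      have h' : (L i).head (hne i) = (L i').head (hne i') := h
      rw [h']; exact List.head_mem _)
  · -- linj
    intro i i' h
    exact huniq i i' ((L i).getLast (hne i)) (List.getLast_mem _) (by
      have h' : (L i).getLast (hne i) = (L i').getLast (hne i') := h
      rw [h']; exact List.getLast_mem _)
  · -- reach
    rintro d ⟨i, hd⟩
    exact ⟨i, hreach i d hd⟩
  · -- xf
    intro i
    obtain ⟨l, hl⟩ := hhead i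
    have h1 := hCh i
    rw [hl] at h1
    exact h1.1
  · -- ly
    intro i
    exact ch_last _ _ _ _ (hCh i) (hne i)
  · -- xinj
    intro i i' h
    apply (hdis i i' 0 (Nat.zero_le _) 0 (Nat.zero_le _) _).1
    show S.r.SameCycle (Q.x i) (Q.x i')
    rw [h]
  · -- yinj
    intro i i' h
    have h1 : Q.t i (Q.n i) = Q.y i := by
      unfold PS.t; rw [if_neg (by omega)]
    have h2 : Q.t i' (Q.n i') = Q.y i' := by
      unfold PS.t; rw [if_neg (by omega)]
    apply (hdis i i' (Q.n i) le_rfl (Q.n i') le_rfl _).1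
    have h3 := (hst i (Q.n i) le_rfl).1
    have h4 := (hst i' (Q.n i') le_rfl).1
    rw [h1, h] at h3
    rw [h2] at h4
    exact h3.trans h4.symm
  · -- words
    intro i d hd
    obtain ⟨j, hj, h1⟩ := (hmem i d).1 (hclosed i d hd)
    exact ⟨j, hj, harc_same i j d h1⟩

end Pool.Agent.GW
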