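import Pool.Agent.GW.Balls

/-!
# GW.Grow: exponential growth of balls

PROOF.  `S s = ∑_{x ∈ shell s} p x`, `W r = ∑_{s<r} S s`.  `S s ≥ ee (EB s) (U \ EB s) ≥ g + (1/ρ) ∑_{EB s} p^2` (`cut_shell`),
`W r ≤ ∑_{EB r} p m ≤ ∑_{EB r} p^2 + Y` (`sum_shell`).  For `r0 ≤ r ≤ R`: `W r ≥ g r0 ≥ 2 Y`, so `∑_{EB r} p^2 ≥ W r / 2` and
`W (r+1) ≥ W r (1 + 1/(2ρ))`.  Hence `W R ≥ g r0 (1 + 1/(2ρ))^(R - r0) ≥ g r0 exp ((R - r0)/(4ρ)) ≥ 2 g r0 + T + Y > W R`.
-/

set_option autoImplicit false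

namespace Pool.Agent.GW

open Finset

namespace WG

variable {V : Type} [Fintype V] [DecidableEq V] (G : WG V)

theorem grow (U : Finset V) (m : V → ℕ) (A : Finset V) (p : V → ℕ) (hp : ∀ x, G.om x ≤ p x) {g ρ Y T : ℝ} {r0 R : ℕ}
    (hg : 0 < g) (hρ : 1 ≤ ρ) (hr0 : 1 ≤ r0)
    (hm : ∀ r < R + 1, ∑ x ∈ G.EB U m A r, (p x : ℝ) * m x ≤ ∑ x ∈ G.EB U m A r, (p x : ℝ) ^ 2 + Y)
    (hT : ∑ x ∈ U, (p x : ℝ) ^ 2 ≤ T) (hY : 2 * Y ≤ g * r0)
    (hcut : ∀ r < R, g + 1 / ρ * ∑ x ∈ G.EB U m A r, (p x : ℝ) ^ 2 ≤ G.ee (G.EB U m A r) (U \ G.EB U m A r))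
    (hR : r0 + 4 * ρ * Real.log (2 + (T + Y) / (g * r0)) ≤ R) : False := by
  set S : ℕ → ℝ := fun s => ∑ x ∈ G.shell U m A s, (p x : ℝ) with hS
  set W : ℕ → ℝ := fun r => ∑ s ∈ range r, S s with hW
  have hρ0 : 0 < ρ := by linarith
  have hr0' : (1 : ℝ) ≤ r0 := by exact_mod_cast hr0
  have hgr : 0 < g * r0 := mul_pos hg (by linarith)
  have q0 : ∀ r, 0 ≤ ∑ x ∈ G.EB U m A r, (p x : ℝ) ^ 2 := fun r => sum_nonneg fun x _ => sq_nonneg _
  have h1 : ∀ s < R, g + 1 / ρ * ∑ x ∈ G.EB U m A s, (p x : ℝ) ^ 2 ≤ S s := fun s hs =>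
    (hcut s hs).trans (G.cut_shell U m A s p hp)
  have h2 : ∀ r < R + 1, W r ≤ ∑ x ∈ G.EB U m A r, (p x : ℝ) ^ 2 + Y := fun r hr =>
    (G.sum_shell U m A r p).trans (hm r hr)
  have hWnn : ∀ r, 0 ≤ W r := fun r => sum_nonneg fun s _ => sum_nonneg fun x _ => Nat.cast_nonneg _
  have hWR : W R ≤ T + Y := by
    refine (h2 R (Nat.lt_succ_self R)).trans ?_
    have : ∑ x ∈ G.EB U m A R, (p x : ℝ) ^ 2 ≤ ∑ x ∈ U, (p x : ℝ) ^ 2 :=
      sum_le_sum_of_subset_of_nonneg (G.EB_sub U m A R) fun x _ _ => sq_nonneg _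
    linarith
  have hTY : 0 ≤ T + Y := (hWnn R).trans hWR
  have hlog : 0 < Real.log (2 + (T + Y) / (g * r0)) := by
    apply Real.log_pos
    have : 0 ≤ (T + Y) / (g * r0) := div_nonneg hTY hgr.le
    linarith
  have hRr : (r0 : ℝ) ≤ R := by
    have : 0 ≤ 4 * ρ * Real.log (2 + (T + Y) / (g * r0)) := by positivity
    linarith
  have hRr' : r0 ≤ R := by exact_mod_cast hRr
  -- lower bound by the constant flow
  have h3 : ∀ r ≤ R, g * r ≤ W r := by
    intro r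
    induction r with
    | zero =>
      intro _
      simp [hW]
    | succ r ih =>
      intro hr
      have e1 : W (r + 1) = W r + S r := sum_range_succ _ _
      have e2 := ih (by omega)
      have e3 := h1 r (by omega)
      have e4 : 0 ≤ 1 / ρ * ∑ x ∈ G.EB U m A r, (p x : ℝ) ^ 2 := mul_nonneg (by positivity) (q0 r)
      push_cast
      rw [e1]
      linarith
  have h4 : ∀ d : ℕ, r0 + d ≤ R → g * r0 * (1 + 1 / (2 * ρ)) ^ d ≤ W (r0 + d) := by
    intro d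
    induction d with
    | zero =>
      intro h
      rw [pow_zero, mul_one]
      exact h3 r0 h
    | succ d ih =>
      intro h
      have e1 : W (r0 + (d + 1)) = W (r0 + d) + S (r0 + d) := sum_range_succ _ _
      have e2 := ih (by omega)
      have e3 := h1 (r0 + d) (by omega)
      have e4 := h2 (r0 + d) (by omega)
      have e5 : g * r0 ≤ W (r0 + d) := by
        refine le_trans ?_ (h3 (r0 + d) (by omega))
        push_cast
        have : 0 ≤ g * d := by positivity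
        linarith
      have e6 : W (r0 + d) / 2 ≤ ∑ x ∈ G.EB U m A (r0 + d), (p x : ℝ) ^ 2 := by linarith
      have e7 : 1 / ρ * (W (r0 + d) / 2) ≤ 1 / ρ * ∑ x ∈ G.EB U m A (r0 + d), (p x : ℝ) ^ 2 :=
        mul_le_mul_of_nonneg_left e6 (by positivity)
      have e8 : 1 / ρ * (W (r0 + d) / 2) = 1 / (2 * ρ) * W (r0 + d) := by
        field_simp
      rw [e1, pow_succ]
      calc g * r0 * ((1 + 1 / (2 * ρ)) ^ d * (1 + 1 / (2 * ρ)))
          = (g * r0 * (1 + 1 / (2 * ρ)) ^ d) * (1 + 1 / (2 * ρ)) := by ring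
        _ ≤ W (r0 + d) * (1 + 1 / (2 * ρ)) := mul_le_mul_of_nonneg_right e2 (by positivity)
        _ = W (r0 + d) + 1 / (2 * ρ) * W (r0 + d) := by ring
        _ ≤ W (r0 + d) + S (r0 + d) := by linarith
  have h5 := h4 (R - r0) (by omega)
  rw [Nat.add_sub_cancel' hRr'] at h5
  -- exponential growth
  have h6 : Real.exp (1 / (4 * ρ)) ≤ 1 + 1 / (2 * ρ) := by
    set t : ℝ := 1 / (4 * ρ) with ht
    have t0 : 0 ≤ t := by positivity
    have t1 : t ≤ 1 / 4 := by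
      rw [ht, div_le_div_iff₀ (by positivity) (by norm_num)]
      linarith
    have e1 : Real.exp t ≤ 1 / (1 - t) := by
      have := Real.one_sub_le_exp_neg t
      rw [Real.exp_neg] at this
      rw [le_div_iff₀ (by linarith)]
      have hp := Real.exp_pos t
      calc Real.exp t * (1 - t) ≤ Real.exp t * (Real.exp t)⁻¹ := mul_le_mul_of_nonneg_left this hp.le
        _ = 1 := mul_inv_cancel₀ hp.ne'
    have e2 : 1 / (1 - t) ≤ 1 + 2 * t := by
      rw [div_le_iff₀ (by linarith)]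
      nlinarith
    have e3 : 1 + 1 / (2 * ρ) = 1 + 2 * t := by
      rw [ht]
      field_simp
      ring
    rw [e3]
    exact e1.trans e2
  have h7 : 2 + (T + Y) / (g * r0) ≤ (1 + 1 / (2 * ρ)) ^ (R - r0) := by
    have e1 : Real.exp (1 / (4 * ρ)) ^ (R - r0) ≤ (1 + 1 / (2 * ρ)) ^ (R - r0) :=
      pow_le_pow_left₀ (Real.exp_pos _).le h6 _
    refine le_trans ?_ e1
    rw [← Real.exp_nat_mul, ← Real.log_le_iff_le_exp (by
      have : 0 ≤ (T + Y) / (g * r0) := div_nonneg hTY hgr.le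
      linarith)]
    rw [Nat.cast_sub hRr', mul_one_div, le_div_iff₀ (by positivity)]
    linarith
  have h8 : g * r0 * (2 + (T + Y) / (g * r0)) ≤ W R :=
    (mul_le_mul_of_nonneg_left h7 hgr.le).trans h5
  have h9 : g * r0 * (2 + (T + Y) / (g * r0)) = 2 * (g * r0) + (T + Y) := by
    field_simp
  linarith

end WG

end Pool.Agent.GW
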