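import Pool.Agent.GW.Pc

/-!
# GW.RungDef: blocks of wall sides and rungs (definitions)

`blk β i x`: number of wall sides of the polygon `x` in the block `(β, i)`; the blocks `(false, i)` and `(true, i)` have to be
joined by a path of polygons.
-/

set_option autoImplicit false

namespace Pool.Agent.GW

open Finset

namespace WG

variable {V : Type} [Fintype V] [DecidableEq V] (G : WG V)

/-- pairwise disjoint blocks of at least `b` wall sides. -/
structure Blocks {ι : Type} [Fintype ι] (p : V → ℕ) (blk : Bool → ι → V → ℝ) (b : ℝ) : Prop where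
  nonneg : ∀ β i x, 0 ≤ blk β i x
  disj : ∀ x, ∑ β, ∑ i, blk β i x ≤ p x - G.om x
  size : ∀ β i, b ≤ ∑ x, blk β i x

/-- a path of polygons from the block `(false, i)` to the block `(true, i)`, of total perimeter at most `l`. -/
structure IsRung {ι : Type} (p : V → ℕ) (blk : Bool → ι → V → ℝ) (l : ℝ) (i : ι) (γ : List V) : Prop where
  ne : γ ≠ []
  nodup : γ.Nodup
  chain : γ.IsChain G.Adj
  first : 0 < blk false i (γ.head ne)
  last : 0 < blk true i (γ.getLast ne)
  len : ((γ.map p).sum : ℝ) ≤ l

end WG

end Pool.Agent.GW
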