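import Pool.Agent.GW.Core
import Pool.Agent.GW.Grow
import Pool.Agent.GW.RungDef

/-!
# GW.BadPairs: few pairs have no cheap path

`m = p + y`, `Y = ∑ p y`, `U` = vertices of cost `≤ 2 u/ψ`, `h = ∑_{x ∉ U} p x ≤ (ψ/u) Y`.

PROOF.  If `hsmall : Y ≤ u ν / 100` let `x0` be as in `core` with `R1 = ⌈200 (u/ψ) log N⌉`, `K` its ball (`nuP K > ν/2`).  Let `R = ⌈30 (u/ψ) log N⌉`.
An end `(β, i)` is bad if the ball `EB U m A R`, `A = {x | 0 < blk β i x}`, misses `K`.  If both ends of `i` are good there is a walk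
of cost at most `2 (R + R1) + 4 * 2 u/ψ ≤ 10^3 (u/ψ) log N` (`rch_walk`, `IsWalk.trans`, `IsWalk.exists_path`).
Let `I` be the set of bad ends, `A` the union of their blocks, `B r = EB U m A r` for `r < R`: every point of `B r` is in the ball of one
bad end, so `B r` misses `K`, `nuP (B r) < ν/2`, `ee (B r) (U \ B r) ≥ cut (B r) - h ≥ ψ nuP (B r) - h
≥ (ψ/u) ∑_{B r} p^2 + κ ψ (b |I| - h) - h` (all wall sides of the blocks in `U`; blocks are disjoint by `hb1`).
If `4 Y ≤ κ b u |I|` then `h ≤ κ ψ b |I| / 4`, so `grow` applies with `g = κ ψ b |I| / 2`, `ρ = u/ψ`, `r0 = ⌈u/ψ⌉`,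
`T = u ν`: contradiction (`T + Y ≤ 2 u N`, `g r0 ≥ u/2` because `κ ψ b ≥ 1`).  So `|I| < 4 Y / (κ b u)`.
For `Y = 0` this says that there is no bad end.
-/

set_option autoImplicit false

namespace Pool.Agent.GW

open Finset

namespace WG

variable {V : Type} [Fintype V] [DecidableEq V] (G : WG V)

/-- a point of the ball of a union is in the ball of one of the sets. -/
theorem EB_biUnion {τ : Type} [DecidableEq τ] (U : Finset V) (m : V → ℕ) (I : Finset τ) (A : τ → Finset V) {r : ℕ} {x : V}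
    (h : x ∈ G.EB U m (I.biUnion A) r) : ∃ e ∈ I, x ∈ G.EB U m (A e) r := by
  have h1 := G.mem_EB.1 h
  clear h
  induction h1 with
  | base h h' =>
    obtain ⟨e, he, hx⟩ := mem_biUnion.1 h
    exact ⟨e, he, G.mem_EB.2 (Rch.base hx h')⟩
  | step _ h2 h3 h4 ih =>
    obtain ⟨e, he, hx⟩ := ih
    exact ⟨e, he, G.mem_EB.2 (Rch.step (G.mem_EB.1 hx) h2 h3 h4)⟩

/-- weight of the edges leaving the good part. -/
theorem ee_compl_le (U B : Finset V) (p : V → ℕ) (hp : ∀ x, G.om x ≤ p x) (hB : B ⊆ U) :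
    G.cut B ≤ G.ee B (U \ B) + ∑ x ∈ Uᶜ, (p x : ℝ) := by
  have h1 : Bᶜ = (U \ B) ∪ Uᶜ := by
    ext x
    simp only [mem_compl, mem_union, mem_sdiff]
    constructor
    · intro h
      by_cases hU : x ∈ U
      · exact Or.inl ⟨hU, h⟩
      · exact Or.inr hU
    · rintro (⟨_, h⟩ | h)
      · exact h
      · exact fun h' => h (hB h')
  have h2 : Disjoint (U \ B) Uᶜ := by
    rw [disjoint_left]
    intro x hx hx'
    exact (mem_compl.1 hx') (mem_sdiff.1 hx).1
  have h3 : G.ee B Bᶜ = G.ee B (U \ B) + G.ee B Uᶜ := by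
    unfold ee
    rw [h1, ← sum_add_distrib]
    exact sum_congr rfl fun x _ => sum_union h2
  have h4 : G.ee B Uᶜ ≤ ∑ x ∈ Uᶜ, (p x : ℝ) := by
    rw [G.ee_comm]
    exact (G.ee_le_vol _ _).trans (sum_le_sum fun x _ => hp x)
  unfold cut
  linarith

/-- a vertex outside the good part has a small number of sides compared with its cost. -/
theorem out_le {p y : V → ℕ} {ψ u κ : ℝ} (hP : G.Pc p ψ u κ) :
    ∑ x ∈ (univ.filter fun x => (p x : ℝ) + y x ≤ 2 * u / ψ)ᶜ, (p x : ℝ) ≤ ψ / u * ∑ x, (p x : ℝ) * y x := by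
  have hu : (0 : ℝ) < u := by linarith [hP.hu]
  have hψ := hP.h0
  rw [mul_sum]
  refine (sum_le_sum (g := fun x => ψ / u * ((p x : ℝ) * y x)) fun x hx => ?_).trans
    (sum_le_sum_of_subset_of_nonneg (subset_univ _) fun x _ _ => by positivity)
  have h1 : ¬ ((p x : ℝ) + y x ≤ 2 * u / ψ) := by
    intro h
    exact (mem_compl.1 hx) (mem_filter.2 ⟨mem_univ _, h⟩)
  have h2 : (p x : ℝ) ≤ u / ψ := hP.hpu x
  have h3 : u / ψ < y x := by
    have : 2 * u / ψ = u / ψ + u / ψ := by ring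
    rw [this] at h1
    linarith
  have h4 : 1 ≤ ψ / u * y x := by
    have h5 : ψ / u * (u / ψ) = 1 := by
      field_simp
    have h6 : ψ / u * (u / ψ) ≤ ψ / u * y x := mul_le_mul_of_nonneg_left h3.le (by positivity)
    linarith
  have h7 : (0 : ℝ) ≤ p x := Nat.cast_nonneg _
  calc (p x : ℝ) = p x * 1 := (mul_one _).symm
    _ ≤ p x * (ψ / u * y x) := mul_le_mul_of_nonneg_left h4 h7
    _ = ψ / u * ((p x : ℝ) * y x) := by ring

/-- two good ends are joined by a cheap path. -/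
theorem good_ends {ι : Type} {p : V → ℕ} {blk : Bool → ι → V → ℝ} (U : Finset V) (m : V → ℕ) (x0 : V)
    (A : Bool → Finset V) (i : ι) (hA : ∀ β, ∀ x ∈ A β, 0 < blk β i x) (hpm : ∀ x, p x ≤ m x) {R R1 : ℕ} {c l : ℝ}
    (hc : ∀ x ∈ U, (m x : ℝ) ≤ c) (hl : 2 * (R : ℝ) + 2 * R1 + 4 * c ≤ l)
    (hg : ∀ β, ∃ z, z ∈ G.EB U m (A β) R ∧ z ∈ G.EB U m {x0} R1) :
    ∃ γ : List V, G.IsRung p blk l i γ ∧ ((γ.map m).sum : ℝ) ≤ l := by
  have key : ∀ β, ∃ a ∈ A β, ∃ w, G.IsWalk U a x0 w ∧ ((w.map m).sum : ℝ) ≤ R + R1 + 2 * c := by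
    intro β
    obtain ⟨z, hz, hz'⟩ := hg β
    obtain ⟨a, ha, w, hw, hs⟩ := G.rch_walk (G.mem_EB.1 hz)
    obtain ⟨a', ha', w', hw', hs'⟩ := G.rch_walk (G.mem_EB.1 hz')
    rw [mem_singleton] at ha'
    subst ha'
    obtain ⟨w'', h1, h2⟩ := IsWalk.trans G hw (IsWalk.reverse G hw') m
    refine ⟨a, ha, w'', h1, ?_⟩
    have h3 : (w'.reverse.map m).sum = (w'.map m).sum := by
      rw [List.map_reverse, List.sum_reverse]
    rw [h3] at h2
    have hzU : z ∈ U := (G.EB_sub U m (A β) R) hz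
    have h4 := hc z hzU
    have h5 : ((w''.map m).sum : ℝ) ≤ ((R + m z + (R1 + m z) : ℕ) : ℝ) := by
      exact_mod_cast h2.trans (add_le_add hs hs')
    simp only [Nat.cast_add] at h5
    linarith
  obtain ⟨a, ha, w, hw, hs⟩ := key false
  obtain ⟨a', ha', w', hw', hs'⟩ := key true
  obtain ⟨w'', h1, h2⟩ := IsWalk.trans G hw (IsWalk.reverse G hw') m
  have h3 : (w'.reverse.map m).sum = (w'.map m).sum := by
    rw [List.map_reverse, List.sum_reverse]
  rw [h3] at h2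
  obtain ⟨γ, h4, h5, h6⟩ := IsWalk.exists_path G h1
  have h7 : (γ.map m).sum ≤ (w''.map m).sum := (h6.map m).sum_le_sum fun _ _ => Nat.zero_le _
  have h8 : ((γ.map m).sum : ℝ) ≤ l := by
    have h9 : ((γ.map m).sum : ℝ) ≤ (((w.map m).sum + (w'.map m).sum : ℕ) : ℝ) := by
      exact_mod_cast h7.trans h2
    simp only [Nat.cast_add] at h9
    linarith
  have h10 : ((γ.map p).sum : ℝ) ≤ l := by
    have h11 : (γ.map p).sum ≤ (γ.map m).sum := List.sum_le_sum fun x _ => hpm x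
    have h12 : ((γ.map p).sum : ℝ) ≤ ((γ.map m).sum : ℝ) := by exact_mod_cast h11
    linarith
  refine ⟨γ, ⟨h4.ne, h5, h4.chain, ?_, ?_, h10⟩, h8⟩
  · rw [h4.first]
    exact hA false a ha
  · rw [h4.last]
    exact hA true a' ha'

open Classical in
/-- the number of bad ends. -/
theorem bad_card {τ : Type} [Fintype τ] [DecidableEq τ] {p : V → ℕ} {ψ u κ b N : ℝ} (hP : G.Pc p ψ u κ)
    (f : τ → V → ℝ) (hf0 : ∀ e x, 0 ≤ f e x) (hf1 : ∀ x, ∑ e, f e x ≤ p x - G.om x) (hf2 : ∀ e, b ≤ ∑ x, f e x)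
    (hN : G.nuP p u κ univ ≤ N) (hN2 : 2 ≤ N) (hb : 1 ≤ κ * ψ * b) (y : V → ℕ)
    (hY : ∑ x, (p x : ℝ) * y x ≤ u * G.nuP p u κ univ / 100) {R : ℕ}
    (hR : 15 * (u / ψ) * Real.log N ≤ R) (K : Finset V) (hK : G.nuP p u κ univ < 2 * G.nuP p u κ K)
    (I : Finset τ) (hI : ∀ e ∈ I, Disjoint (G.EB (univ.filter fun x => (p x : ℝ) + y x ≤ 2 * u / ψ)
      (fun x => p x + y x) (univ.filter fun x => 0 < f e x) R) K) :
    (I.card : ℝ) * (κ * b * u) ≤ 4 * ∑ x, (p x : ℝ) * y x := by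
  by_contra hcon
  rw [not_le] at hcon
  set U : Finset V := univ.filter fun x => (p x : ℝ) + y x ≤ 2 * u / ψ with hU
  set Y : ℝ := ∑ x, (p x : ℝ) * y x with hYd
  set ν : ℝ := G.nuP p u κ univ with hν
  set h : ℝ := ∑ x ∈ Uᶜ, (p x : ℝ) with hh
  set m : V → ℕ := fun x => p x + y x with hm
  set A : τ → Finset V := fun e => univ.filter fun x => 0 < f e x with hA
  have hu : (0 : ℝ) < u := by linarith [hP.hu]
  have hu1 := hP.hu
  have hψ := hP.h0
  have hψ1 := hP.h1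
  have hκ := hP.hκ
  have hκψ := hP.hκ1
  have hY0 : 0 ≤ Y := sum_nonneg fun x _ => by positivity
  have hh0 : 0 ≤ h := sum_nonneg fun x _ => Nat.cast_nonneg _
  have hhY : h ≤ ψ / u * Y := G.out_le hP
  have hb0 : 0 < b := by
    by_contra hb'
    rw [not_lt] at hb'
    have : κ * ψ * b ≤ 0 := mul_nonpos_of_nonneg_of_nonpos (by positivity) hb'
    linarith
  have hlogN : 0 < Real.log N := Real.log_pos (by linarith)
  have hlog2 : (0.69 : ℝ) ≤ Real.log N := by
    have h1 : Real.log 2 ≤ Real.log N := Real.log_le_log (by norm_num) hN2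
    linarith [Real.log_two_gt_d9]
  set n : ℝ := (I.card : ℝ) with hn
  have hκbu : 0 < κ * b * u := by positivity
  have hn0 : 0 < n := by
    by_contra h'
    rw [not_lt] at h'
    have : n * (κ * b * u) ≤ 0 := mul_nonpos_of_nonpos_of_nonneg h' hκbu.le
    linarith
  have hn1 : 1 ≤ n := by
    rw [hn] at hn0 ⊢
    have h1 : 0 < I.card := Nat.cast_pos.1 hn0
    exact Nat.one_le_cast.2 h1
  set ρ : ℝ := u / ψ with hρd
  have hρ : 1 ≤ ρ := by
    rw [hρd, le_div_iff₀ hψ]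
    linarith
  have hρ0 : 0 < ρ := by linarith
  set g : ℝ := κ * ψ * b * n / 2 with hg
  have hg0 : 0 < g := by positivity
  have hh4 : 2 * h ≤ g := by
    have h1 : ψ / u * Y ≤ ψ / u * (n * (κ * b * u) / 4) :=
      mul_le_mul_of_nonneg_left (by linarith) (by positivity)
    have h2 : ψ / u * (n * (κ * b * u) / 4) = g / 2 := by
      rw [hg]
      field_simp
      ring
    linarith
  have hωp : ∀ x, G.om x ≤ p x := hP.hp
  -- balls of bad ends
  have hBK : ∀ r < R, Disjoint (G.EB U m (I.biUnion A) r) K := by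
    intro r hr
    rw [disjoint_left]
    intro x hx hxK
    obtain ⟨e, he, hxe⟩ := G.EB_biUnion U m I A hx
    exact disjoint_left.1 (hI e he) (G.EB_mono U m (A e) hr.le hxe) hxK
  have hcut : ∀ r < R, g + 1 / ρ * ∑ x ∈ G.EB U m (I.biUnion A) r, (p x : ℝ) ^ 2 ≤
      G.ee (G.EB U m (I.biUnion A) r) (U \ G.EB U m (I.biUnion A) r) := by
    intro r hr
    set B := G.EB U m (I.biUnion A) r with hB
    have hBU : B ⊆ U := G.EB_sub U m _ r
    have e1 : G.nuP p u κ B ≤ G.nuP p u κ Bᶜ := by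
      have h1 : G.nuP p u κ K ≤ G.nuP p u κ Bᶜ := by
        refine G.nuP_mono hP fun x hx => ?_
        rw [mem_compl]
        exact fun hx' => disjoint_left.1 (hBK r hr) hx' hx
      have h2 := G.nuP_add_compl p u κ B
      rw [← hν] at h2
      linarith
    have e2 : ψ * G.nuP p u κ B ≤ G.cut B := by
      have := hP.hE B
      rwa [min_eq_left e1] at this
    have e3 := G.ee_compl_le U B p hωp hBU
    -- walls
    have e4 : b * n - h ≤ ∑ x ∈ B, ((p x : ℝ) - G.om x) := by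
      have w1 : ∑ x ∈ B, ∑ e ∈ I, f e x ≤ ∑ x ∈ B, ((p x : ℝ) - G.om x) := by
        refine sum_le_sum fun x _ => ?_
        refine le_trans ?_ (hf1 x)
        exact sum_le_sum_of_subset_of_nonneg (subset_univ _) fun e _ _ => hf0 e x
      have w2 : ∑ x ∈ Uᶜ, ∑ e ∈ I, f e x ≤ h := by
        refine sum_le_sum fun x _ => ?_
        have := hf1 x
        have h0 := G.om_nonneg x
        have h1 : ∑ e ∈ I, f e x ≤ ∑ e, f e x :=
          sum_le_sum_of_subset_of_nonneg (subset_univ _) fun e _ _ => hf0 e x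
        linarith
      have w3 : ∀ e ∈ I, b ≤ ∑ x ∈ B, f e x + ∑ x ∈ Uᶜ, f e x := by
        intro e he
        refine (hf2 e).trans ?_
        have s1 : ∑ x, f e x = ∑ x ∈ B, f e x + ∑ x ∈ Bᶜ, f e x := (sum_add_sum_compl B _).symm
        have s2 : ∑ x ∈ Bᶜ, f e x ≤ ∑ x ∈ Uᶜ, f e x := by
          have s3 : ∑ x ∈ Bᶜ, f e x = ∑ x ∈ Bᶜ, if x ∈ Uᶜ then f e x else 0 := by
            refine sum_congr rfl fun x hx => ?_
            split_ifs with hxU
            · rfl
            · rw [mem_compl, not_not] at hxU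
              by_contra hne
              have hpos : 0 < f e x := lt_of_le_of_ne (hf0 e x) fun h' => hne h'.symm
              have hxB : x ∈ B := by
                refine G.sub_EB U m (I.biUnion A) r (mem_inter.2 ⟨?_, hxU⟩)
                exact mem_biUnion.2 ⟨e, he, mem_filter.2 ⟨mem_univ _, hpos⟩⟩
              exact (mem_compl.1 hx) hxB
          rw [s3, Finset.sum_ite_mem]
          exact sum_le_sum_of_subset_of_nonneg inter_subset_right fun x _ _ => hf0 e x
        linarith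
      have w4 : b * n ≤ ∑ x ∈ B, ∑ e ∈ I, f e x + ∑ x ∈ Uᶜ, ∑ e ∈ I, f e x := by
        rw [sum_comm (s := B), sum_comm (s := Uᶜ), ← sum_add_distrib]
        calc b * n = ∑ _e ∈ I, b := by rw [sum_const, nsmul_eq_mul, mul_comm, hn]
          _ ≤ _ := sum_le_sum w3
      linarith
    have e5 : 1 / u * ∑ x ∈ B, (p x : ℝ) ^ 2 + κ * ∑ x ∈ B, ((p x : ℝ) - G.om x) ≤ G.nuP p u κ B := by
      unfold nuP
      rw [mul_sum, mul_sum, ← sum_add_distrib]
      refine sum_le_sum fun x _ => ?_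
      have h1 : (0 : ℝ) ≤ p x := Nat.cast_nonneg _
      have h2 : 1 / u * (p x : ℝ) ^ 2 = (p x : ℝ) ^ 2 / u := by ring
      rw [h2]
      linarith
    have e6 : ψ * (1 / u * ∑ x ∈ B, (p x : ℝ) ^ 2 + κ * (b * n - h)) ≤ ψ * G.nuP p u κ B := by
      refine mul_le_mul_of_nonneg_left (le_trans ?_ e5) hψ.le
      have := mul_le_mul_of_nonneg_left e4 hκ.le
      linarith
    have e7 : ψ * (1 / u * ∑ x ∈ B, (p x : ℝ) ^ 2 + κ * (b * n - h)) =
        1 / ρ * ∑ x ∈ B, (p x : ℝ) ^ 2 + 2 * g - κ * ψ * h := by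
      rw [hρd, hg]
      field_simp
      ring
    have e8 : κ * ψ * h ≤ h := by
      calc κ * ψ * h ≤ 1 * h := mul_le_mul_of_nonneg_right hκψ hh0
        _ = h := one_mul h
    rw [e7] at e6
    linarith
  -- the growth lemma
  have hpu2 : ∀ X : Finset V, ∑ x ∈ X, (p x : ℝ) ^ 2 ≤ u * G.nuP p u κ X := by
    intro X
    unfold nuP
    rw [mul_sum]
    refine sum_le_sum fun x _ => ?_
    have h1 : (0 : ℝ) ≤ p x := Nat.cast_nonneg _
    have h2 : 0 ≤ (p x : ℝ) - G.om x := by linarith [hωp x]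
    have h3 : u * ((p x : ℝ) + (p x : ℝ) ^ 2 / u + κ * (p x - G.om x)) =
        (p x : ℝ) ^ 2 + (u * p x + u * (κ * (p x - G.om x))) := by
      field_simp
      ring
    rw [h3]
    have h4 : 0 ≤ u * (p x : ℝ) + u * (κ * (p x - G.om x)) := by positivity
    linarith
  have hm1 : ∀ r < R + 1, ∑ x ∈ G.EB U m (I.biUnion A) r, (p x : ℝ) * m x ≤
      ∑ x ∈ G.EB U m (I.biUnion A) r, (p x : ℝ) ^ 2 + Y := by
    intro r _
    have h1 : ∑ x ∈ G.EB U m (I.biUnion A) r, (p x : ℝ) * m x =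
        ∑ x ∈ G.EB U m (I.biUnion A) r, (p x : ℝ) ^ 2 + ∑ x ∈ G.EB U m (I.biUnion A) r, (p x : ℝ) * y x := by
      rw [← sum_add_distrib]
      refine sum_congr rfl fun x _ => ?_
      rw [hm]
      push_cast
      ring
    rw [h1]
    have h2 : ∑ x ∈ G.EB U m (I.biUnion A) r, (p x : ℝ) * y x ≤ Y :=
      sum_le_sum_of_subset_of_nonneg (subset_univ _) fun x _ _ => by positivity
    linarith
  have hT : ∑ x ∈ U, (p x : ℝ) ^ 2 ≤ u * ν := (hpu2 U).trans
    (mul_le_mul_of_nonneg_left (G.nuP_mono hP (subset_univ U)) hu.le)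
  have hν0 : 0 ≤ ν := G.nuP_nonneg hP univ
  set r0 : ℕ := ⌈ρ⌉₊ with hr0
  have hr0ρ : ρ ≤ r0 := Nat.le_ceil ρ
  have hr0' : (r0 : ℝ) < ρ + 1 := Nat.ceil_lt_add_one hρ0.le
  have hr01 : 1 ≤ r0 := by
    rw [hr0, Nat.one_le_ceil_iff]
    exact hρ0
  have hgρ : κ * b * u * n / 2 ≤ g * r0 := by
    have h1 : g * ρ = κ * b * u * n / 2 := by
      rw [hg, hρd]
      field_simp
    rw [← h1]
    exact mul_le_mul_of_nonneg_left hr0ρ hg0.le
  have hY2 : 2 * Y ≤ g * r0 := by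
    have : n * (κ * b * u) / 2 = κ * b * u * n / 2 := by ring
    linarith
  have hgu : u / 2 ≤ g * r0 := by
    refine le_trans ?_ hgρ
    have h1 : 1 ≤ κ * b := by
      have h2 : κ * ψ * b ≤ κ * b := by
        have : κ * ψ * b = κ * b * ψ := by ring
        rw [this]
        exact mul_le_of_le_one_right (by positivity) hψ1
      linarith
    have h3 : 1 * 1 ≤ κ * b * n := mul_le_mul h1 hn1 (by norm_num) (by positivity)
    have h4 : κ * b * u * n / 2 = u * (κ * b * n) / 2 := by ring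
    rw [h4]
    have h5 : u * 1 ≤ u * (κ * b * n) := mul_le_mul_of_nonneg_left (by linarith) hu.le
    linarith
  have hgr0 : 0 < g * r0 := by linarith
  have hratio : (u * ν + Y) / (g * r0) ≤ 2.02 * N := by
    rw [div_le_iff₀ hgr0]
    have h1 : u * ν + Y ≤ 1.01 * (u * N) := by
      have h2 : u * ν ≤ u * N := mul_le_mul_of_nonneg_left hN hu.le
      linarith
    have h3 : 2.02 * N * (u / 2) ≤ 2.02 * N * (g * r0) := mul_le_mul_of_nonneg_left hgu (by linarith)
    have h4 : 2.02 * N * (u / 2) = 1.01 * (u * N) := by ring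
    linarith
  have hlog : Real.log (2 + (u * ν + Y) / (g * r0)) ≤ 3 * Real.log N := by
    have h1 : 2 + (u * ν + Y) / (g * r0) ≤ N ^ 3 := by
      have h2 : 2 + 2.02 * N ≤ N ^ 3 := by nlinarith [sq_nonneg (N - 2), mul_self_nonneg N]
      linarith
    have h3 : 0 < 2 + (u * ν + Y) / (g * r0) := by
      have : 0 ≤ (u * ν + Y) / (g * r0) := by positivity
      linarith
    calc Real.log (2 + (u * ν + Y) / (g * r0)) ≤ Real.log (N ^ 3) := Real.log_le_log h3 h1
      _ = 3 * Real.log N := by rw [Real.log_pow]; norm_num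
  have hRfin : r0 + 4 * ρ * Real.log (2 + (u * ν + Y) / (g * r0)) ≤ R := by
    have h1 : 4 * ρ * Real.log (2 + (u * ν + Y) / (g * r0)) ≤ 12 * (ρ * Real.log N) := by
      have := mul_le_mul_of_nonneg_left hlog (by positivity : 0 ≤ 4 * ρ)
      linarith
    have h2 : (r0 : ℝ) ≤ 2 * ρ := by linarith
    have h3 : 2 * ρ ≤ 3 * (ρ * Real.log N) := by
      have : ρ * 0.69 ≤ ρ * Real.log N := mul_le_mul_of_nonneg_left hlog2 hρ0.le
      linarith
    have h4 : 15 * (u / ψ) * Real.log N = 15 * (ρ * Real.log N) := by rw [hρd]; ring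
    linarith
  exact G.grow U m (I.biUnion A) p hωp hg0 hρ hr01 hm1 hT hY2 hcut hRfin

open Classical in
theorem bad_pairs [Nonempty V] {ι : Type} [Fintype ι] {p : V → ℕ} {blk : Bool → ι → V → ℝ} {ψ u κ b N : ℝ}
    (hP : G.Pc p ψ u κ) (hB : G.Blocks p blk b) (hN : G.nuP p u κ univ ≤ N) (hN2 : 2 ≤ N) (hb : 1 ≤ κ * ψ * b)
    (y : V → ℕ) (hY : ∑ x, (p x : ℝ) * y x ≤ u * G.nuP p u κ univ / 100) :
    ((univ.filter fun i => ¬ ∃ γ : List V, G.IsRung p blk (10 ^ 3 * (u / ψ) * Real.log N) i γ ∧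
        ((γ.map fun x => p x + y x).sum : ℝ) ≤ 10 ^ 3 * (u / ψ) * Real.log N).card : ℝ) * (κ * b * u) ≤
      4 * ∑ x, (p x : ℝ) * y x := by
  have hu : (0 : ℝ) < u := by linarith [hP.hu]
  have hψ := hP.h0
  have hρ : 1 ≤ u / ψ := by
    rw [le_div_iff₀ hψ]
    linarith [hP.hu, hP.h1]
  have hlog2 : (0.69 : ℝ) ≤ Real.log N := by
    have h1 : Real.log 2 ≤ Real.log N := Real.log_le_log (by norm_num) hN2
    linarith [Real.log_two_gt_d9]
  have hL : 0.69 * (u / ψ) ≤ (u / ψ) * Real.log N := by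
    rw [mul_comm]
    exact mul_le_mul_of_nonneg_left hlog2 (by linarith)
  set L : ℝ := (u / ψ) * Real.log N with hLd
  have hL0 : 0.69 ≤ L := by linarith
  set R1 : ℕ := ⌈200 * (u / ψ) * Real.log N⌉₊ with hR1d
  have hR1 : 200 * (u / ψ) * Real.log N ≤ R1 := Nat.le_ceil _
  have hR1' : (R1 : ℝ) < 200 * L + 1 := by
    have h1 : 200 * (u / ψ) * Real.log N = 200 * L := by rw [hLd]; ring
    have h2 : (R1 : ℝ) < 200 * (u / ψ) * Real.log N + 1 := Nat.ceil_lt_add_one (by rw [h1]; linarith)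
    linarith
  set R : ℕ := ⌈15 * (u / ψ) * Real.log N⌉₊ with hRd
  have hR : 15 * (u / ψ) * Real.log N ≤ R := Nat.le_ceil _
  have hR' : (R : ℝ) < 15 * L + 1 := by
    have h1 : 15 * (u / ψ) * Real.log N = 15 * L := by rw [hLd]; ring
    have h2 : (R : ℝ) < 15 * (u / ψ) * Real.log N + 1 := Nat.ceil_lt_add_one (by rw [h1]; linarith)
    linarith
  obtain ⟨x0, _, hK⟩ := G.core hP hN hN2 y hY hR1
  set U : Finset V := univ.filter fun x => (p x : ℝ) + y x ≤ 2 * u / ψ with hU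
  set K := G.EB U (fun x => p x + y x) {x0} R1 with hKd
  let f : Bool × ι → V → ℝ := fun e x => blk e.1 e.2 x
  set I : Finset (Bool × ι) := univ.filter fun e => Disjoint (G.EB U (fun x => p x + y x)
    (univ.filter fun x => 0 < f e x) R) K with hI
  have h1 : (I.card : ℝ) * (κ * b * u) ≤ 4 * ∑ x, (p x : ℝ) * y x := by
    refine G.bad_card hP f (fun e x => hB.nonneg _ _ _) (fun x => ?_) (fun e => hB.size _ _) hN hN2 hb y hY hR K hK I
      fun e he => (mem_filter.1 he).2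
    rw [Fintype.sum_prod_type]
    exact hB.disj x
  have hb0 : 0 < b := by
    by_contra hb'
    rw [not_lt] at hb'
    have hκ := hP.hκ
    have : κ * ψ * b ≤ 0 := mul_nonpos_of_nonneg_of_nonpos (by positivity) hb'
    linarith
  refine le_trans (mul_le_mul_of_nonneg_right ?_ (by have := hP.hκ; positivity)) h1
  have h2 : (univ.filter fun i => ¬ ∃ γ : List V, G.IsRung p blk (10 ^ 3 * (u / ψ) * Real.log N) i γ ∧
        ((γ.map fun x => p x + y x).sum : ℝ) ≤ 10 ^ 3 * (u / ψ) * Real.log N) ⊆ I.image Prod.snd := by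
    intro i hi
    have h3 := (mem_filter.1 hi).2
    by_contra h4
    apply h3
    have h5 : ∀ β, ∃ z, z ∈ G.EB U (fun x => p x + y x) (univ.filter fun x => 0 < blk β i x) R ∧
        z ∈ G.EB U (fun x => p x + y x) {x0} R1 := by
      intro β
      by_contra h6
      rw [not_exists] at h6
      apply h4
      refine mem_image.2 ⟨(β, i), mem_filter.2 ⟨mem_univ _, ?_⟩, rfl⟩
      rw [disjoint_left]
      exact fun z hz hz' => h6 z ⟨hz, hz'⟩
    refine G.good_ends U (fun x => p x + y x) x0 (fun β => univ.filter fun x => 0 < blk β i x) i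
      (fun β x hx => (mem_filter.1 hx).2) (fun x => Nat.le_add_right _ _) (R := R) (R1 := R1) (c := 2 * u / ψ) ?_ ?_ h5
    · intro x hx
      have := (mem_filter.1 hx).2
      push_cast
      exact this
    · have e1 : 2 * u / ψ = 2 * (u / ψ) := by ring
      have e2 : 10 ^ 3 * (u / ψ) * Real.log N = 10 ^ 3 * L := by rw [hLd]; ring
      rw [e1, e2]
      linarith
  exact_mod_cast (card_le_card h2).trans card_image_le

end WG

end Pool.Agent.GW
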