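import Pool.Agent.GW.Balls

/-!
# GW/BallBig: large balls from a quadratic isoperimetric inequality

PROOF.  `W r = ∑ y ∈ EB r, p y ^ 2`, `b s = ∑ y ∈ shell s, p y` (a natural number).  `cut_shell` (with `m = p`): `cut (EB s) ≤ b s`; `sum_shell`:
`∑ s < r, b s ≤ W r`.  Suppose `W R ≤ a0`; then `W s ≤ a0` for `s ≤ R` (`EB_mono`), so `W s < 2 (b s)^2`.  `B r = ∑ s < r, b s`: `B r ≤ W r`.
Induction: `r ^ 2 ≤ 18 B r` for `r ≤ R` (`r ^ 2 ≤ 18 B r ≤ 18 W r < 36 (b r)^2`, so `r < 6 b r` and `B (r + 1) = B r + b r`).  So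
`18 a0 ≥ 18 W R ≥ R^2 > 18 a0`, contradiction.
-/

set_option autoImplicit false

namespace Pool.Agent.GW

open Finset

theorem ball_big {V : Type} [Fintype V] [DecidableEq V] (G : WG V) (p : V → ℕ) (hp : ∀ x, G.om x ≤ p x) (x : V)
    (hx : 1 ≤ p x) {a0 : ℕ}
    (hreg : ∀ r, ∑ y ∈ G.EB univ p {x} r, p y ^ 2 ≤ a0 →
      ((∑ y ∈ G.EB univ p {x} r, p y ^ 2 : ℕ) : ℝ) < 2 * G.cut (G.EB univ p {x} r) ^ 2)
    (R : ℕ) (hR : 18 * a0 < R ^ 2) : a0 < ∑ y ∈ G.EB univ p {x} R, p y ^ 2 := by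
  classical
  by_contra hcon
  push Not at hcon
  have hW : ∀ r, r ≤ R → ∑ y ∈ G.EB univ p {x} r, p y ^ 2 ≤ a0 := fun r hr =>
    (sum_le_sum_of_subset_of_nonneg (G.EB_mono univ p {x} hr) fun _ _ _ => Nat.zero_le _).trans hcon
  have hb : ∀ r, r ≤ R → ∑ y ∈ G.EB univ p {x} r, p y ^ 2 < 2 * (∑ y ∈ G.shell univ p {x} r, p y) ^ 2 := by
    intro r hr
    have h1 := hreg r (hW r hr)
    have h2 := G.cut_shell univ p {x} r p hp
    have h3 : G.cut (G.EB univ p {x} r) ≤ ((∑ y ∈ G.shell univ p {x} r, p y : ℕ) : ℝ) := by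
      push_cast
      refine le_trans (le_of_eq ?_) h2
      unfold WG.cut
      rw [compl_eq_univ_sdiff]
    have h0 : 0 ≤ G.cut (G.EB univ p {x} r) := G.ee_nonneg _ _
    have h4 : G.cut (G.EB univ p {x} r) ^ 2 ≤ ((∑ y ∈ G.shell univ p {x} r, p y : ℕ) : ℝ) ^ 2 :=
      pow_le_pow_left₀ h0 h3 2
    have h5 : ((∑ y ∈ G.EB univ p {x} r, p y ^ 2 : ℕ) : ℝ) < ((2 * (∑ y ∈ G.shell univ p {x} r, p y) ^ 2 : ℕ) : ℝ) := by
      rw [Nat.cast_mul, Nat.cast_pow, Nat.cast_ofNat]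
      linarith
    exact_mod_cast h5
  have hB : ∀ r, ∑ s ∈ range r, ∑ y ∈ G.shell univ p {x} s, p y ≤ ∑ y ∈ G.EB univ p {x} r, p y ^ 2 := by
    intro r
    have h1 := G.sum_shell univ p {x} r p
    have h2 : ((∑ s ∈ range r, ∑ y ∈ G.shell univ p {x} s, p y : ℕ) : ℝ) ≤ ((∑ y ∈ G.EB univ p {x} r, p y ^ 2 : ℕ) : ℝ) := by
      push_cast
      refine h1.trans (le_of_eq (sum_congr rfl fun y _ => ?_))
      ring
    exact_mod_cast h2
  have hmain : ∀ r, r ≤ R → r ^ 2 ≤ 18 * ∑ s ∈ range r, ∑ y ∈ G.shell univ p {x} s, p y := by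
    intro r
    induction r with
    | zero => intro _; simp
    | succ r ih =>
      intro hr
      have h1 := ih (by omega)
      have h2 := hb r (by omega)
      have h3 := hB r
      rw [sum_range_succ]
      set b := ∑ y ∈ G.shell univ p {x} r, p y with hbdef
      set B := ∑ s ∈ range r, ∑ y ∈ G.shell univ p {x} s, p y with hBdef
      have h4 : r ^ 2 < (6 * b) ^ 2 := by
        have : (6 * b) ^ 2 = 18 * (2 * b ^ 2) := by ring
        rw [this]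
        omega
      have h5 : r < 6 * b := lt_of_pow_lt_pow_left₀ 2 (Nat.zero_le _) h4
      have h6 : (r + 1) ^ 2 = r ^ 2 + 2 * r + 1 := by ring
      omega
  have h1 := hmain R le_rfl
  have h2 := hB R
  omega

end Pool.Agent.GW
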