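import Pool.Agent.GW.Graph

/-!
# GW.Balls: balls for integer vertex costs

`Rch U m A r x`: `x` is reached inside `U` from a vertex of `A ∩ U`, the cost `m` of all vertices before `x` being at most `r`.
`EB U m A r`: the ball, `shell r`: vertices of the ball which are not yet crossed at time `r`.

PROOFS.  `cut_shell`: if `x ∈ EB r`, `y ∈ U \ EB r`, `w x y > 0` then `x ∈ shell r` (otherwise `y` is reached at time `r`), and
`∑_y w x y ≤ om x ≤ p x`.  `sum_shell`: let `d` be the least `s` with `Rch s x`; `x ∈ shell r'` iff `d ≤ r' < d + m x`.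
`rch_path`, `exists_path_of_walk`: induction (cut out the part between two visits of the same vertex).
-/

set_option autoImplicit false

namespace Pool.Agent.GW

open Finset

namespace WG

variable {V : Type} (G : WG V)

/-- `x` is reached inside `U` from `A`, the vertices before `x` having total cost at most `r`. -/
inductive Rch (U : Finset V) (m : V → ℕ) (A : Finset V) : ℕ → V → Prop
  | base {r : ℕ} {x : V} : x ∈ A → x ∈ U → Rch U m A r x
  | step {r s : ℕ} {x y : V} : Rch U m A r x → G.Adj x y → y ∈ U → r + m x ≤ s → Rch U m A s y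

variable [Fintype V] [DecidableEq V]

open Classical in
/-- the ball. -/
noncomputable def EB (U : Finset V) (m : V → ℕ) (A : Finset V) (r : ℕ) : Finset V := univ.filter fun x => G.Rch U m A r x

open Classical in
/-- vertices entered but not crossed at time `r`. -/
noncomputable def shell (U : Finset V) (m : V → ℕ) (A : Finset V) (r : ℕ) : Finset V :=
  (G.EB U m A r).filter fun x => ¬ ∃ s, G.Rch U m A s x ∧ s + m x ≤ r

theorem mem_EB {U : Finset V} {m : V → ℕ} {A : Finset V} {r : ℕ} {x : V} : x ∈ G.EB U m A r ↔ G.Rch U m A r x := by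
  simp [EB]

omit [Fintype V] [DecidableEq V] in
theorem Rch.mem {G : WG V} {U : Finset V} {m : V → ℕ} {A : Finset V} {r : ℕ} {x : V} (h : G.Rch U m A r x) :
    x ∈ U := by
  cases h with
  | base _ h => exact h
  | step _ _ h _ => exact h

omit [Fintype V] [DecidableEq V] in
theorem Rch.mono {G : WG V} {U : Finset V} {m : V → ℕ} {A : Finset V} {r s : ℕ} {x : V} (h : G.Rch U m A r x)
    (hrs : r ≤ s) : G.Rch U m A s x := by
  cases h with
  | base h h' => exact Rch.base h h'
  | step h1 h2 h3 h4 => exact Rch.step h1 h2 h3 (h4.trans hrs)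

theorem EB_sub (U : Finset V) (m : V → ℕ) (A : Finset V) (r : ℕ) : G.EB U m A r ⊆ U := by
  intro x hx
  exact (G.mem_EB.1 hx).mem

theorem EB_mono (U : Finset V) (m : V → ℕ) (A : Finset V) {r s : ℕ} (h : r ≤ s) : G.EB U m A r ⊆ G.EB U m A s := by
  intro x hx
  exact G.mem_EB.2 ((G.mem_EB.1 hx).mono h)

theorem EB_mono_U {U U' : Finset V} (hU : U ⊆ U') (m : V → ℕ) (A : Finset V) (r : ℕ) :
    G.EB U m A r ⊆ G.EB U' m A r := by
  intro x hx
  have h := G.mem_EB.1 hx
  refine G.mem_EB.2 ?_
  clear hx
  induction h with
  | base h h' => exact Rch.base h (hU h')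
  | step _ h2 h3 h4 ih => exact Rch.step ih h2 (hU h3) h4

theorem sub_EB (U : Finset V) (m : V → ℕ) (A : Finset V) (r : ℕ) : A ∩ U ⊆ G.EB U m A r := by
  intro x hx
  exact G.mem_EB.2 (Rch.base (mem_inter.1 hx).1 (mem_inter.1 hx).2)

theorem cut_shell (U : Finset V) (m : V → ℕ) (A : Finset V) (r : ℕ) (p : V → ℕ) (hp : ∀ x, G.om x ≤ p x) :
    G.ee (G.EB U m A r) (U \ G.EB U m A r) ≤ ∑ x ∈ G.shell U m A r, (p x : ℝ) := by
  classical
  unfold ee
  have h1 : ∀ x ∈ G.EB U m A r, ∑ y ∈ U \ G.EB U m A r, G.w x y ≤
      if x ∈ G.shell U m A r then (p x : ℝ) else 0 := by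
    intro x hx
    split_ifs with hs
    · refine le_trans ?_ (hp x)
      exact sum_le_sum_of_subset_of_nonneg (subset_univ _) fun y _ _ => G.nonneg x y
    · refine le_of_eq (sum_eq_zero fun y hy => ?_)
      have h2 : ∃ s, G.Rch U m A s x ∧ s + m x ≤ r := by
        by_contra h3
        exact hs (mem_filter.2 ⟨hx, h3⟩)
      obtain ⟨s, h3, h4⟩ := h2
      obtain ⟨hyU, hyE⟩ := mem_sdiff.1 hy
      by_contra h5
      have h6 : 0 < G.w x y := lt_of_le_of_ne (G.nonneg x y) fun h => h5 h.symm
      have h7 : x ≠ y := by
        rintro rfl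
        exact hyE hx
      exact hyE (G.mem_EB.2 (Rch.step h3 ⟨h7, h6⟩ hyU h4))
  refine (sum_le_sum h1).trans (le_of_eq ?_)
  have hsub : G.shell U m A r ⊆ G.EB U m A r := filter_subset _ _
  rw [Finset.sum_ite_mem, inter_eq_right.2 hsub]

theorem sum_shell (U : Finset V) (m : V → ℕ) (A : Finset V) (r : ℕ) (p : V → ℕ) :
    ∑ s ∈ range r, ∑ x ∈ G.shell U m A s, (p x : ℝ) ≤ ∑ x ∈ G.EB U m A r, (p x : ℝ) * m x := by
  classical
  have h1 : ∀ s ∈ range r, ∑ x ∈ G.shell U m A s, (p x : ℝ) =
      ∑ x ∈ G.EB U m A r, if x ∈ G.shell U m A s then (p x : ℝ) else 0 := by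
    intro s hs
    have hsub : G.shell U m A s ⊆ G.EB U m A r :=
      (filter_subset _ _).trans (G.EB_mono U m A (mem_range.1 hs).le)
    rw [Finset.sum_ite_mem, inter_eq_right.2 hsub]
  rw [sum_congr rfl h1, sum_comm]
  refine sum_le_sum fun x hx => ?_
  have hex : ∃ s, G.Rch U m A s x := ⟨r, G.mem_EB.1 hx⟩
  set d := Nat.find hex with hd
  have h2 : (range r).filter (fun s => x ∈ G.shell U m A s) ⊆ Ico d (d + m x) := by
    intro s hs
    have h3 := (mem_filter.1 hs).2
    obtain ⟨h4, h5⟩ := mem_filter.1 h3
    rw [mem_Ico]
    refine ⟨Nat.find_min' hex (G.mem_EB.1 h4), ?_⟩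
    by_contra h6
    exact h5 ⟨d, Nat.find_spec hex, not_lt.1 h6⟩
  have h3 : ((range r).filter (fun s => x ∈ G.shell U m A s)).card ≤ m x := by
    refine (card_le_card h2).trans ?_
    rw [Nat.card_Ico]
    omega
  rw [← Finset.sum_filter, sum_const, nsmul_eq_mul, mul_comm]
  exact mul_le_mul_of_nonneg_left (by exact_mod_cast h3) (Nat.cast_nonneg _)

/-- a list of vertices is a walk. -/
structure IsWalk (U : Finset V) (x y : V) (l : List V) : Prop where
  ne : l ≠ []
  chain : l.IsChain G.Adj
  sub : ∀ v ∈ l, v ∈ U
  first : l.head ne = x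
  last : l.getLast ne = y

theorem rch_walk {U : Finset V} {m : V → ℕ} {A : Finset V} {r : ℕ} {x : V} (h : G.Rch U m A r x) :
    ∃ a ∈ A, ∃ l, G.IsWalk U a x l ∧ (l.map m).sum ≤ r + m x := by
  induction h with
  | base h h' =>
    rename_i r x
    refine ⟨x, h, [x], ⟨by simp, by simp, fun v hv => ?_, by simp, by simp⟩, by simp⟩
    rw [List.mem_singleton.1 hv]
    exact h'
  | step h1 h2 h3 h4 ih =>
    rename_i r s x y
    obtain ⟨a, ha, l, hl, hs⟩ := ih
    refine ⟨a, ha, l ++ [y], ⟨by simp, ?_, ?_, ?_, by simp⟩, ?_⟩
    · rw [List.isChain_append]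
      refine ⟨hl.chain, by simp, fun v hv w hw => ?_⟩
      have e1 : l.getLast? = some x := by rw [List.getLast?_eq_getLast_of_ne_nil hl.ne, hl.last]
      rw [e1] at hv
      simp only [Option.mem_def, Option.some.injEq, List.head?_cons] at hv hw
      rw [← hv, ← hw]
      exact h2
    · intro v hv
      rcases List.mem_append.1 hv with h | h
      · exact hl.sub v h
      · rw [List.mem_singleton.1 h]
        exact h3
    · rw [List.head_append_of_ne_nil hl.ne]
      exact hl.first
    · rw [List.map_append, List.sum_append]
      simp only [List.map_cons, List.map_nil, List.sum_cons, List.sum_nil, add_zero]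
      omega

theorem IsWalk.reverse {U : Finset V} {x y : V} {l : List V} (h : G.IsWalk U x y l) : G.IsWalk U y x l.reverse := by
  refine ⟨by simpa using h.ne, ?_, fun v hv => h.sub v (List.mem_reverse.1 hv), ?_, ?_⟩
  · rw [List.isChain_reverse]
    exact h.chain.imp fun a b hab => hab.symm
  · rw [List.head_reverse, h.last]
  · rw [List.getLast_reverse, h.first]

theorem IsWalk.trans {U : Finset V} {x y z : V} {l l' : List V} (h : G.IsWalk U x y l) (h' : G.IsWalk U y z l')
    (m : V → ℕ) : ∃ l'', G.IsWalk U x z l'' ∧ (l''.map m).sum ≤ (l.map m).sum + (l'.map m).sum := by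
  cases l' with
  | nil => exact absurd rfl h'.ne
  | cons v t =>
    have hv : v = y := h'.first
    subst hv
    cases t with
    | nil =>
      have hz : v = z := h'.last
      subst hz
      exact ⟨l, h, Nat.le_add_right _ _⟩
    | cons w t =>
      refine ⟨l ++ (w :: t), ⟨by simp, ?_, ?_, ?_, ?_⟩, ?_⟩
      · rw [List.isChain_append]
        have hc := h'.chain
        rw [List.isChain_cons] at hc
        refine ⟨h.chain, hc.2, fun a ha b hb => ?_⟩
        have e1 : l.getLast? = some v := by rw [List.getLast?_eq_getLast_of_ne_nil h.ne, h.last]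
        rw [e1] at ha
        simp only [Option.mem_def, Option.some.injEq] at ha
        rw [← ha]
        exact hc.1 b hb
      · intro a ha
        rcases List.mem_append.1 ha with h1 | h1
        · exact h.sub a h1
        · exact h'.sub a (List.mem_cons_of_mem _ h1)
      · rw [List.head_append_of_ne_nil h.ne]
        exact h.first
      · have := h'.last
        rw [List.getLast_cons (by simp)] at this
        rw [← this]
        exact List.getLast_append_of_ne_nil (by simp) (by simp)
      · rw [List.map_append, List.sum_append, List.map_cons (l := w :: t), List.sum_cons]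
        omega

/-- a walk contains a path with the same ends. -/
theorem IsWalk.exists_path {U : Finset V} {x y : V} {l : List V} (h : G.IsWalk U x y l) :
    ∃ l', G.IsWalk U x y l' ∧ l'.Nodup ∧ l'.Sublist l := by
  obtain ⟨n, hn⟩ : ∃ n, l.length = n := ⟨_, rfl⟩
  induction n using Nat.strong_induction_on generalizing x l with
  | _ n ih =>
    cases l with
    | nil => exact absurd rfl h.ne
    | cons v t =>
      have hv : v = x := h.first
      subst hv
      by_cases hvt : v ∈ t
      · obtain ⟨s1, s2, rfl⟩ := List.append_of_mem hvt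
        have hw : G.IsWalk U v y (v :: s2) := by
          refine ⟨by simp, ?_, fun a ha => h.sub a ?_, by simp, ?_⟩
          · have hc := h.chain
            rw [show v :: (s1 ++ v :: s2) = (v :: s1) ++ (v :: s2) from rfl] at hc
            exact hc.right_of_append
          · exact List.mem_cons_of_mem _ (List.mem_append_right _ ha)
          · have hl := h.last
            rw [List.getLast_cons (by simp)] at hl
            rw [← hl]
            exact (List.getLast_append_of_ne_nil (by simp) (by simp)).symm
        obtain ⟨l', h1, h2, h3⟩ := ih (v :: s2).length (by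
          rw [← hn]
          simp only [List.length_cons, List.length_append]
          omega) hw rfl
        refine ⟨l', h1, h2, h3.trans ?_⟩
        exact (List.sublist_append_right s1 (v :: s2)).trans (List.sublist_cons_self v _)
      · cases t with
        | nil => exact ⟨[v], h, by simp, List.Sublist.refl _⟩
        | cons w t =>
          have hc := h.chain
          rw [List.isChain_cons] at hc
          have hw : G.IsWalk U w y (w :: t) := by
            refine ⟨by simp, hc.2, fun a ha => h.sub a (List.mem_cons_of_mem _ ha), by simp, ?_⟩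
            have hl := h.last
            rw [List.getLast_cons (by simp)] at hl
            exact hl
          obtain ⟨l', h1, h2, h3⟩ := ih (w :: t).length (by
            rw [← hn]
            simp only [List.length_cons]
            omega) hw rfl
          refine ⟨v :: l', ⟨by simp, ?_, ?_, by simp, ?_⟩, ?_, h3.cons_cons v⟩
          · rw [List.isChain_cons]
            refine ⟨fun b hb => ?_, h1.chain⟩
            have e1 : l'.head? = some w := by rw [List.head?_eq_some_head h1.ne, h1.first]
            rw [e1] at hb
            simp only [Option.mem_def, Option.some.injEq] at hb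
            rw [← hb]
            exact hc.1 w (by simp)
          · intro a ha
            rcases List.mem_cons.1 ha with rfl | h4
            · exact h.sub a (by simp)
            · exact h1.sub a h4
          · rw [List.getLast_cons h1.ne]
            exact h1.last
          · rw [List.nodup_cons]
            exact ⟨fun h4 => hvt (h3.subset h4), h2⟩

end WG

end Pool.Agent.GW
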