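import Pool.Agent.GW.GenDef

/-!
# GW/BfsF (helper59): breadth first forest of the vertex graph

`VR S R0 n d`: the vertex where `d` starts has distance at most `n` from a vertex of a letter of `R0`.
-/

set_option autoImplicit false

namespace Pool.Agent.GW

open Equiv Pool.Agent.SWP

/-- distance in the vertex graph from `R0`. -/
inductive VR (S : Sf) (R0 : Set S.D) : ℕ → S.D → Prop
  | base {n : ℕ} {e d : S.D} : e ∈ R0 → S.vx e d → VR S R0 n d
  | step {n : ℕ} {d e f : S.D} : VR S R0 n d → S.vx d e → S.vx (S.a e) f → VR S R0 (n + 1) f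

section

variable {S : Sf} {R0 : Set S.D}

theorem VR.mono1 {n : ℕ} {d : S.D} (h : VR S R0 n d) : ∀ k, VR S R0 (n + k) d := by
  induction h with
  | base h1 h2 => exact fun k => VR.base h1 h2
  | @step n d e f _ h2 h3 ih =>
    intro k
    rw [show n + 1 + k = n + k + 1 by omega]
    exact VR.step (ih k) h2 h3

theorem VR.mono {n m : ℕ} {d : S.D} (h : VR S R0 n d) (hm : n ≤ m) : VR S R0 m d := by
  obtain ⟨k, rfl⟩ := Nat.exists_eq_add_of_le hm
  exact h.mono1 k

theorem VR.vx {n : ℕ} {d e : S.D} (h : VR S R0 n d) (hde : S.vx d e) : VR S R0 n e := by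
  cases h with
  | base h1 h2 => exact VR.base h1 (h2.trans hde)
  | step h1 h2 h3 => exact VR.step h1 h2 (h3.trans hde)

theorem vx_ra (S : Sf) (d : S.D) : S.vx d (S.r (S.a d)) := ⟨1, by simp⟩

theorem vx_ar (S : Sf) (d : S.D) : S.vx (S.a d) (S.r d) := by
  have := vx_ra S (S.a d)
  rwa [S.aa] at this

/-- along a letter -/
theorem VR.r {n : ℕ} {d : S.D} (h : VR S R0 n d) : VR S R0 (n + 1) (S.r d) :=
  VR.step h (Perm.SameCycle.refl _ _) (vx_ar S d)

/-- against a letter -/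
theorem VR.r' {n : ℕ} {d : S.D} (h : VR S R0 n (S.r d)) : VR S R0 (n + 1) d := by
  refine VR.step h (e := S.a d) (vx_ar S d).symm ?_
  rw [S.aa]
  exact Perm.SameCycle.refl _ _

theorem VR.pow {n : ℕ} {d : S.D} (h : VR S R0 n d) : ∀ k : ℕ, VR S R0 (n + k) ((S.r ^ k) d) := by
  intro k
  induction k with
  | zero => simpa using h
  | succ k ih =>
    rw [pow_succ', Perm.mul_apply]
    exact ih.r

theorem VR.le_mem {n : ℕ} {d : S.D} (h : VR S R0 n d) : n = 0 → ∃ e ∈ R0, S.vx e d := by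
  intro hn
  cases h with
  | base h1 h2 => exact ⟨_, h1, h2⟩
  | step h1 h2 h3 => omega

end

/-- **breadth first forest.** -/
theorem bfs_forest (S : Sf) (R0 : Set S.D) (ρ : ℕ) (hρ : ∀ d, VR S R0 ρ d) :
    ∃ (N : Set S.D) (δ : S.D → ℕ), Fo S N δ ρ ∧ ∀ d, δ d = 0 → ∃ e ∈ R0, S.vx e d := by
  classical
  have hex : ∀ d, ∃ n, VR S R0 n d := fun d => ⟨ρ, hρ d⟩
  set δ : S.D → ℕ := fun d => Nat.find (hex d) with hδ
  have hfind : ∀ d, VR S R0 (δ d) d := fun d => Nat.find_spec (hex d)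
  have hmin : ∀ d n, VR S R0 n d → δ d ≤ n := fun d n h => Nat.find_min' (hex d) h
  have hvx : ∀ d e, S.vx d e → δ d = δ e := fun d e h =>
    le_antisymm (hmin d _ ((hfind e).vx h.symm)) (hmin e _ ((hfind d).vx h))
  have ha : ∀ d, δ (S.a d) ≤ δ d + 1 := fun d =>
    hmin _ _ (VR.step (hfind d) (Perm.SameCycle.refl _ _) (Perm.SameCycle.refl _ _))
  have hpos : ∀ d, 0 < δ d → ∃ u, S.vx d u ∧ δ u = δ (S.a u) + 1 := by
    intro d hd
    have h1 := hfind d
    obtain ⟨n, hn⟩ : ∃ n, δ d = n + 1 := ⟨δ d - 1, by omega⟩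
    rw [hn] at h1
    cases h1 with
    | base h2 h3 =>
      have := hmin d 0 (VR.base h2 h3)
      omega
    | @step _ d' e _ h2 h3 h4 =>
      refine ⟨S.a e, h4.symm, ?_⟩
      rw [S.aa]
      have h5 : δ (S.a e) = δ d := hvx _ _ h4
      have h6 := hmin e n (h2.vx h3)
      have h7 := ha e
      omega
  -- the chosen up-letter of a vertex
  set pr : Quotient (Perm.SameCycle.setoid (S.r * S.a)) → S.D → Prop := fun q u =>
    Quotient.mk (Perm.SameCycle.setoid (S.r * S.a)) u = q ∧ δ u = δ (S.a u) + 1 with hpr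
  set ch : S.D → S.D := fun d => @Classical.epsilon S.D ⟨d⟩ (pr (Quotient.mk _ d)) with hch
  have hch1 : ∀ d e, S.vx d e → ch d = ch e := by
    intro d e h
    have : (Quotient.mk (Perm.SameCycle.setoid (S.r * S.a)) d) = Quotient.mk _ e := Quotient.sound h
    simp only [hch]
    rw [this]
  have hch2 : ∀ d, (∃ u, S.vx d u ∧ δ u = δ (S.a u) + 1) → S.vx d (ch d) ∧ δ (ch d) = δ (S.a (ch d)) + 1 := by
    rintro d ⟨u, h1, h2⟩
    have h3 : ∃ u, pr (Quotient.mk _ d) u := ⟨u, Quotient.sound h1.symm, h2⟩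
    have h4 := @Classical.epsilon_spec_aux S.D ⟨d⟩ _ h3
    have h5 : Quotient.mk (Perm.SameCycle.setoid (S.r * S.a)) (ch d) = Quotient.mk _ d := h4.1
    exact ⟨(Quotient.exact h5).symm, h4.2⟩
  set good : S.D → Prop := fun d => δ d = δ (S.a d) + 1 ∧ ch d = d with hgood
  refine ⟨{d | ¬ good d ∧ ¬ good (S.a d)}, δ, ⟨?_, ?_, ?_, ?_, ?_, ?_⟩, ?_⟩
  · rintro d ⟨h1, h2⟩
    exact ⟨h2, by rw [S.aa]; exact h1⟩
  · intro d
    exact (hvx _ _ (vx_ra S d)).symm
  · exact fun d => hmin d ρ (hρ d)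
  · intro d hd
    have h1 : good d ∨ good (S.a d) := by
      by_contra h
      push Not at h
      exact hd h
    rcases h1 with h1 | h1
    · exact Or.inl h1.1
    · right
      have := h1.1
      rwa [S.aa] at this
  · intro d hd
    obtain ⟨h1, h2⟩ := hch2 d (hpos d hd)
    refine ⟨ch d, ⟨fun h3 => h3.1 ⟨h2, (hch1 _ _ h1).symm⟩, h2⟩, h1⟩
  · rintro d ⟨h1, h2⟩ e ⟨h3, h4⟩ hde
    have key : ∀ x, (¬ (¬ good x ∧ ¬ good (S.a x))) → δ x = δ (S.a x) + 1 → ch x = x := by
      intro x hx hx2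
      have h5 : good x ∨ good (S.a x) := by
        by_contra h
        push Not at h
        exact hx h
      rcases h5 with h5 | h5
      · exact h5.2
      · have := h5.1
        rw [S.aa] at this
        omega
    rw [← key d h1 h2, ← key e h3 h4]
    exact hch1 _ _ hde
  · intro d hd
    exact (hfind d).le_mem hd

end Pool.Agent.GW
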