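import Pool.Agent.GW.U

/-!
# GW/Cnd (helper73): closed states, conductance, area; the trivial sweep; the bridge to real lengths
-/

set_option autoImplicit false

namespace Pool.Agent.GW

open Equiv Pool.Agent.SWP

namespace Sf

/-- number of letters -/
def card (S : Sf) : ℕ := Fintype.card S.D

/-- no letter is dead -/
def Closed (S : Sf) : Prop := ∀ d, S.a d ≠ d

/-- the letters of `X` with partner outside of `X` -/
def bd (S : Sf) (X : Set S.D) : Set S.D := {d | d ∈ X ∧ S.a d ∉ X}

/-- conductance at least `ψ` -/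
def Cond (ψ : ℝ) (S : Sf) : Prop :=
  ∀ X : Set S.D, S.Inv X → ψ * min (X.ncard : ℝ) (Xᶜ.ncard : ℝ) ≤ ((S.bd X).ncard : ℝ)

/-- area: sum over all letters of the length of their word (for a closed state: sum of the squares of the lengths
of the words) -/
noncomputable def area (S : Sf) : ℕ := ∑ d, S.len d

end Sf

theorem len_le_card (S : Sf) (d : S.D) : S.len d ≤ S.card := by
  unfold Sf.len Sf.num Sf.card
  rw [← Nat.card_eq_fintype_card, ← Set.ncard_univ]
  exact Set.ncard_le_ncard (Set.subset_univ _) (Set.toFinite _)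

theorem U_trivial (L : ℕ) : ∀ (k : ℕ) (S : Sf), S.card ≤ L → Set.ncard {d | S.a d ≠ d} ≤ k → U L S := by
  intro k
  induction k with
  | zero =>
    intro S _ h
    apply U.done
    intro d
    by_contra hd
    have h1 : ({d | S.a d ≠ d} : Set S.D) = ∅ := by
      rw [← Set.ncard_eq_zero (Set.toFinite _)]; omega
    have : d ∈ ({d | S.a d ≠ d} : Set S.D) := hd
    rw [h1] at this
    exact this
  | succ k ih =>
    intro S hS h
    by_cases hall : ∀ d, S.a d = d
    · exact U.done S hall
    push Not at hall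
    obtain ⟨b, hb⟩ := hall
    refine U.glue S b hb (fun d => (len_le_card S d).trans hS) (ih (S.glue b) hS ?_)
    have hsub : ({d | (S.glue b).a d ≠ d} : Set S.D) ⊆ {d | S.a d ≠ d} \ {b} := by
      intro d hd
      have hd' : S.a (sw b (S.a b) d) ≠ d := hd
      by_cases h1 : d = b
      · subst h1; rw [sw_left, S.aa] at hd'; exact absurd rfl hd'
      by_cases h2 : d = S.a b
      · subst h2; rw [sw_right] at hd'; exact absurd rfl hd'
      rw [sw_of_ne h1 h2] at hd'
      exact ⟨hd', h1⟩
    have h3 : Set.ncard ({d | S.a d ≠ d} \ {b} : Set S.D) + 1 = Set.ncard ({d | S.a d ≠ d} : Set S.D) :=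
      Set.ncard_sdiff_singleton_add_one (show b ∈ ({d | S.a d ≠ d} : Set S.D) from hb) (Set.toFinite _)
    have h4 := Set.ncard_le_ncard hsub (Set.toFinite _)
    change Set.ncard ({d | (S.glue b).a d ≠ d} : Set S.D) ≤ k
    omega

/-- gluing everything: the total number of letters is a bound for all lengths -/
theorem U_of_card (L : ℕ) (S : Sf) (h : S.card ≤ L) : U L S :=
  U_trivial L _ S h le_rfl

/-- every word of a closed state has at least one letter: `card ≤ area` -/
theorem card_le_area (S : Sf) (h : S.Closed) : S.card ≤ S.area := by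
  unfold Sf.card Sf.area
  rw [← Finset.card_univ, Finset.card_eq_sum_ones]
  refine Finset.sum_le_sum (fun d _ => ?_)
  have h1 : (S.word d ∩ S.live).Nonempty := ⟨d, Perm.SameCycle.refl _ _, h d⟩
  exact (Set.ncard_pos (Set.toFinite _)).mpr h1

/-- the length of a word is at most the number of its live letters if all lengths are at most one -/
theorem len_forget (S : St) (h1 : ∀ d, S.w d ≤ 1) (d : S.D) : S.len d ≤ ((forget S).len d : ℝ) := by
  classical
  unfold St.len cyc Sf.len
  have h : ∀ e : S.D, Set.indicator {e | S.r.SameCycle d e} S.w e ≤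
      if e ∈ Finset.univ.filter (fun e => S.r.SameCycle d e ∧ S.a e ≠ e) then 1 else 0 := by
    intro e
    by_cases he : S.r.SameCycle d e
    · rw [Set.indicator_of_mem (show e ∈ {e | S.r.SameCycle d e} from he)]
      by_cases ha : S.a e = e
      · rw [S.w0 e ha]; split_ifs <;> norm_num
      · rw [if_pos (by simp [he, ha])]; exact h1 e
    · rw [Set.indicator_of_notMem (show e ∉ {e | S.r.SameCycle d e} from he)]
      split_ifs <;> norm_num
  refine (Finset.sum_le_sum (fun e _ => h e)).trans ?_
  rw [Finset.sum_ite_mem, Finset.univ_inter, Finset.sum_const, nsmul_eq_mul, mul_one]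
  have h2 : ({e | S.r.SameCycle d e ∧ S.a e ≠ e} : Set S.D) =
      ((Finset.univ.filter (fun e => S.r.SameCycle d e ∧ S.a e ≠ e) : Finset S.D) : Set S.D) := by
    ext e; simp
  change _ ≤ ((Set.ncard ({e | S.r.SameCycle d e ∧ S.a e ≠ e} : Set S.D) : ℕ) : ℝ)
  rw [h2, Set.ncard_coe_finset]

theorem ind_le {D : Type} (w : D → ℝ) (h1 : ∀ d, w d ≤ 1) (X : Set D) (d : D) : Set.indicator X w d ≤ 1 := by
  by_cases hd : d ∈ X
  · rw [Set.indicator_of_mem hd]; exact h1 d
  · rw [Set.indicator_of_notMem hd]; norm_num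

theorem glue_w_le (S : St) (h1 : ∀ d, S.w d ≤ 1) (b : S.D) (d : (S.glue b).D) : (S.glue b).w d ≤ 1 :=
  ind_le S.w h1 _ d

/-- the bridge: lengths at most one -/
theorem SW_of_U {L : ℕ} {C : Sf} (h : U L C) : ∀ S : St, (∀ d, S.w d ≤ 1) → forget S = C → SW (L : ℝ) S := by
  induction h with
  | done C hd =>
    rintro S h1 rfl
    exact SW.done S hd
  | glue C b hb hl _ ih =>
    rintro S h1 rfl
    exact SW.glue S b hb (fun d => (len_forget S h1 d).trans (by exact_mod_cast hl d))
      (ih (S.glue b) (glue_w_le S h1 b) rfl)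
  | dbl C e he _ ih =>
    rintro S h1 rfl
    refine SW.dbl S e he (ih (S.dbl e) ?_ rfl)
    rintro (d | d)
    · exact h1 d
    · exact h1 e
  | sub C b hb _ ih =>
    rintro S h1 rfl
    refine SW.sub S b hb (ih (S.sub b) ?_ rfl)
    rintro (d | d)
    · exact h1 d
    · exact zero_le_one
  | vtx C p q hp hq hpq hc hl _ ih =>
    rintro S h1 rfl
    exact SW.vtx S p q hp hq hpq hc (fun d => (len_forget S h1 d).trans (by exact_mod_cast hl d)) (ih (S.vtx p q) h1 rfl)
  | ghost C g hg _ ih =>
    rintro S h1 rfl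
    exact SW.ghost S g hg (ih (S.ghost g) h1 rfl)

end Pool.Agent.GW
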