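import Pool.Agent.GW.Union
import Pool.Agent.GW.Cnd

/-!
# Basic lemmas for `U`

* `U_iso`: induction on `U`; each move on `S` becomes the same move on `T` (for `dbl`, `sub` with the bijection
  `Equiv.sumCongr φ (Equiv.refl Bool)`), `sw (φ x) (φ y) (φ d) = φ (sw x y d)`.
* `glueSet_U`: as `SWP.glueSet_sw` (strong induction on the number of letters `d ∈ Y` with `a d ≠ d`).
* `bridge`: induction on `U`, for all weights `≤ 1`; `St.len d ≤ (forget S).len d` because dead letters have weight 0.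
* `blocks_U`: glue `Y ∩ {ζ = i}` for `i = 0, 1, ..` one after the other with `glueSet_U` (the block is a union of words at
  every moment, its number of live letters only drops).
* `purge`: as `SWP.clean_exists` (ghost moves), `r'` is the first return map to the live letters on the live letters.
-/

set_option autoImplicit false

namespace Pool.Agent.GW

open Equiv Pool.Agent.SWP

theorem num_mono (S : Sf) {A B : Set S.D} (h : A ⊆ B) : S.num A ≤ S.num B :=
  Set.ncard_le_ncard (Set.inter_subset_inter_left _ h) (Set.toFinite _)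

theorem num_union_le (S : Sf) (A B : Set S.D) : S.num (A ∪ B) ≤ S.num A + S.num B := by
  unfold Sf.num
  rw [Set.union_inter_distrib_right]
  exact Set.ncard_union_le _ _

theorem num_le_ncard (S : Sf) (A : Set S.D) : S.num A ≤ A.ncard :=
  Set.ncard_le_ncard Set.inter_subset_left (Set.toFinite _)

theorem len_le_num (S : Sf) {B : Set S.D} (hB : ∀ d ∈ B, S.r d ∈ B) {d : S.D} (hd : d ∈ B) : S.len d ≤ S.num B :=
  num_mono S (fun _ he => mem_of_same hB hd he)

theorem len_same (S : Sf) {d e : S.D} (h : S.r.SameCycle d e) : S.len d = S.len e := by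
  have : S.word d = S.word e := by
    ext x
    exact ⟨fun hx => h.symm.trans hx, fun hx => h.trans hx⟩
  unfold Sf.len
  rw [this]

theorem U.mono {L L' : ℕ} (hL : L ≤ L') {S : Sf} (h : U L S) : U L' S := by
  induction h with
  | done S h0 => exact U.done S h0
  | glue S b hb hl _ ih => exact U.glue S b hb (fun d => (hl d).trans hL) ih
  | dbl S e he _ ih => exact U.dbl S e he ih
  | sub S b hb _ ih => exact U.sub S b hb ih
  | vtx S p q hp hq hpq hc hl _ ih => exact U.vtx S p q hp hq hpq hc (fun d => (hl d).trans hL) ih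
  | ghost S g hg _ ih => exact U.ghost S g hg ih

theorem U_iso {L : ℕ} {S T : Sf} (φ : S.D ≃ T.D) (hφ : Iso S T φ) (h : U L S) : U L T :=
  U.iso h hφ

private theorem ub_ext (D : Type) (fD : Fintype D) (r r' a a' : Perm D) (h1 : r = r') (h2 : a = a')
    (p1 : ∀ d, a (a d) = d) (q1 : ∀ d, a' (a' d) = d) : (⟨D, fD, r, a, p1⟩ : Sf) = ⟨D, fD, r', a', q1⟩ := by
  subst h1 h2
  rfl

private theorem ub_cl (S : Sf) (X : Set S.D) (hX : S.Cl X) (b : S.D) (hb : b ∈ X) : (S.glue b).Cl X := by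
  refine fun (d : S.D) (hd : d ∈ X) => ?_
  show S.a (sw b (S.a b) d) ∈ X
  by_cases h1 : d = b
  · subst h1
    rw [sw_left, S.aa]
    exact hd
  by_cases h2 : d = S.a b
  · subst h2
    rw [sw_right]
    exact hd
  rw [sw_of_ne h1 h2]
  exact hX d hd

private noncomputable def ub_b (S : Sf) (b : S.D) (X : Set S.D) : Perm S.D := (S.glue b).beta X

private theorem ub_beta (S : Sf) (X : Set S.D) (hX : S.Cl X) (b : S.D) (hb : b ∈ X) :
    S.beta X = sw b (S.a b) * ub_b S b X := by
  have hX1 := ub_cl S X hX b hb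
  ext d
  rw [Perm.mul_apply]
  by_cases hd : d ∈ X
  · rw [S.beta_mem hX hd]
    have e1 : ub_b S b X d = S.a (sw b (S.a b) d) := (S.glue b).beta_mem hX1 hd
    rw [e1]
    by_cases h1 : d = b
    · subst h1
      rw [sw_left, S.aa, sw_left]
    by_cases h2 : d = S.a b
    · subst h2
      rw [sw_right, S.aa, sw_right]
    have h3 : S.a d ≠ b := fun h => h2 (by rw [← h, S.aa])
    have h4 : S.a d ≠ S.a b := fun h => h1 (S.a.injective h)
    rw [sw_of_ne h1 h2, sw_of_ne h3 h4]
  · rw [S.beta_notMem hd]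
    have e1 : ub_b S b X d = d := (S.glue b).beta_notMem hd
    rw [e1, sw_of_ne (fun h => hd (by rw [h]; exact hb)) (fun h => hd (by rw [h]; exact hX b hb))]

private theorem ub_glue (S : Sf) (X : Set S.D) (hX : S.Cl X) (b : S.D) (hb : b ∈ X) (hX1 : (S.glue b).Cl X) :
    S.glueSet X hX = (S.glue b).glueSet X hX1 := by
  have hβ := ub_beta S X hX b hb
  refine ub_ext S.D S.fD _ _ _ _ ?_ ?_ _ _
  · show S.r * S.beta X = S.r * sw b (S.a b) * ub_b S b X
    rw [hβ, mul_assoc]
  · show S.a * S.beta X = S.a * sw b (S.a b) * ub_b S b X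
    rw [hβ, mul_assoc]

private theorem ub_none (S : Sf) (X : Set S.D) (hX : S.Cl X) (h0 : ∀ d ∈ X, S.a d = d) : S.glueSet X hX = S := by
  have hβ : S.beta X = 1 := by
    ext d
    by_cases hd : d ∈ X
    · rw [S.beta_mem hX hd, h0 d hd]
      rfl
    · rw [S.beta_notMem hd]
      rfl
  refine ub_ext S.D S.fD _ _ _ _ ?_ ?_ _ _
  · show S.r * S.beta X = S.r
    rw [hβ, mul_one]
  · show S.a * S.beta X = S.a
    rw [hβ, mul_one]

/-- gluing kills letters only -/
private theorem ub_live (S : Sf) (b : S.D) (d : S.D) (h : (S.glue b).a d ≠ d) : S.a d ≠ d := by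
  intro hc
  apply h
  show S.a (sw b (S.a b) d) = d
  by_cases h1 : d = b
  · rw [h1, sw_left, S.aa]
  by_cases h2 : d = S.a b
  · rw [h2, sw_right]
  rw [sw_of_ne h1 h2, hc]

private theorem ub_aux (L : ℕ) (n : ℕ) : ∀ (S : Sf) (X B : Set S.D) (hX : S.Cl X), X ⊆ B →
    (∀ d, S.r d ∈ B ↔ d ∈ B) → S.num B ≤ L → (∀ d, S.len d ≤ L) → U L (S.glueSet X hX) →
    Set.ncard {d | d ∈ X ∧ S.a d ≠ d} ≤ n → U L S := by
  induction n with
  | zero =>
    intro S X B hX hXB hB hw hlen h hn
    have h0 : {d | d ∈ X ∧ S.a d ≠ d} = (∅ : Set S.D) :=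
      (Set.ncard_eq_zero (Set.toFinite _)).1 (Nat.le_zero.1 hn)
    have h1 : ∀ d ∈ X, S.a d = d := by
      intro d hd
      by_contra hc
      have : d ∈ (∅ : Set S.D) := h0 ▸ (show d ∈ {d | d ∈ X ∧ S.a d ≠ d} from ⟨hd, hc⟩)
      exact this
    rw [ub_none S X hX h1] at h
    exact h
  | succ n ih =>
    intro S X B hX hXB hB hw hlen h hn
    by_cases hall : ∀ d ∈ X, S.a d = d
    · rw [ub_none S X hX hall] at h
      exact h
    push Not at hall
    obtain ⟨b, hb, hab⟩ := hall
    have hX1 := ub_cl S X hX b hb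
    have hbB : b ∈ B := hXB hb
    have habB : S.a b ∈ B := hXB (hX b hb)
    have hB1 : ∀ d : S.D, (S.glue b).r d ∈ B ↔ d ∈ B := by
      intro d
      show S.r (sw b (S.a b) d) ∈ B ↔ d ∈ B
      rw [hB]
      by_cases h1 : d = b
      · subst h1
        rw [sw_left]
        exact ⟨fun _ => hbB, fun _ => habB⟩
      by_cases h2 : d = S.a b
      · rw [h2, sw_right]
        exact ⟨fun _ => habB, fun _ => hbB⟩
      rw [sw_of_ne h1 h2]
    have hnum : ∀ A : Set S.D, (S.glue b).num A ≤ S.num A := by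
      intro A
      refine Set.ncard_le_ncard ?_ (Set.toFinite _)
      rintro d ⟨hd, hd2⟩
      exact ⟨hd, ub_live S b d hd2⟩
    have hw1 : (S.glue b).num B ≤ L := le_trans (hnum B) hw
    have hlen1 : ∀ d : S.D, (S.glue b).len d ≤ L := by
      intro d
      by_cases hd : d ∈ B
      · exact le_trans (len_le_num (S.glue b) (fun e he => (hB1 e).2 he) hd) hw1
      · have hword : (S.glue b).word d = S.word d := by
          ext e
          have h3 : (S.glue b).r.SameCycle d e ↔ S.r.SameCycle d e := by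
            refine same_congr (s := (S.glue b).r) (t := S.r) (Z := Bᶜ)
              (fun e he => fun h' => he ((hB1 e).1 h')) ?_ hd e
            refine fun (e : S.D) he => ?_
            show S.r (sw b (S.a b) e) = S.r e
            rw [sw_of_ne (fun h => he (by rw [h]; exact hbB)) (fun h => he (by rw [h]; exact habB))]
          exact h3
        have h4 : (S.glue b).len d ≤ S.len d := by
          unfold Sf.len
          rw [hword]
          exact hnum _
        exact h4.trans (hlen d)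
    have h1 : U L ((S.glue b).glueSet X hX1) := by
      rw [← ub_glue S X hX b hb hX1]
      exact h
    refine U.glue S b hab hlen (ih (S.glue b) X B hX1 hXB hB1 hw1 hlen1 h1 ?_)
    have hsub : {d : S.D | d ∈ X ∧ (S.glue b).a d ≠ d} ⊂ {d : S.D | d ∈ X ∧ S.a d ≠ d} := by
      refine ⟨?_, ?_⟩
      · rintro d ⟨hd, hd2⟩
        exact ⟨hd, ub_live S b d hd2⟩
      · intro hc
        have h2 := hc (show b ∈ {d | d ∈ X ∧ S.a d ≠ d} from ⟨hb, hab⟩)
        apply h2.2
        show S.a (sw b (S.a b) b) = b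
        rw [sw_left, S.aa]
    have hlt := Set.ncard_lt_ncard hsub (Set.toFinite _)
    have : Set.ncard {d : S.D | d ∈ X ∧ (S.glue b).a d ≠ d} < n + 1 := lt_of_lt_of_le hlt hn
    exact Nat.lt_succ_iff.1 this

theorem glueSet_U (L : ℕ) (S : Sf) (Y B : Set S.D) (hY : S.Cl Y) (hYB : Y ⊆ B) (hB : S.Inv B) (hn : S.num B ≤ L)
    (hlen : ∀ d, S.len d ≤ L) (h : U L (S.glueSet Y hY)) : U L S :=
  ub_aux L _ S Y B hY hYB hB hn hlen h le_rfl

theorem glue_all_U (L : ℕ) (S : Sf) (h : S.num Set.univ ≤ L) : U L S := by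
  have hX : S.Cl Set.univ := fun d _ => Set.mem_univ _
  refine glueSet_U L S Set.univ Set.univ hX (le_refl _) (fun d => by simp) h ?_ ?_
  · intro d
    exact (num_mono S (Set.subset_univ _)).trans h
  · refine U.done _ (fun (d : S.D) => ?_)
    show S.a (S.beta Set.univ d) = d
    rw [S.beta_mem hX (Set.mem_univ d), S.aa]

private noncomputable def ub_c (S : Sf) (Y1 : Set S.D) (hY1 : S.Cl Y1) (Y0 : Set S.D) : Perm S.D :=
  (S.glueSet Y1 hY1).beta Y0

/-- gluing in two steps -/
private theorem ub_two (S : Sf) (Y Y0 Y1 : Set S.D) (hY : S.Cl Y) (hY1 : S.Cl Y1) (h0 : S.Cl Y0)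
    (hd : ∀ d, d ∈ Y0 → d ∉ Y1) (hu : ∀ d, d ∈ Y ↔ d ∈ Y0 ∨ d ∈ Y1) (hY0 : (S.glueSet Y1 hY1).Cl Y0) :
    (S.glueSet Y1 hY1).glueSet Y0 hY0 = S.glueSet Y hY := by
  have hβ : S.beta Y1 * ub_c S Y1 hY1 Y0 = S.beta Y := by
    ext d
    rw [Perm.mul_apply]
    by_cases h1 : d ∈ Y0
    · have e1 : ub_c S Y1 hY1 Y0 d = S.a d := by
        have e2 : ub_c S Y1 hY1 Y0 d = S.a (S.beta Y1 d) :=
          (S.glueSet Y1 hY1).beta_mem hY0 h1
        rw [e2, S.beta_notMem (hd d h1)]
      rw [e1, S.beta_notMem (hd _ (h0 d h1)), S.beta_mem hY ((hu d).mpr (Or.inl h1))]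
    · have e1 : ub_c S Y1 hY1 Y0 d = d := (S.glueSet Y1 hY1).beta_notMem h1
      rw [e1]
      by_cases h2 : d ∈ Y1
      · rw [S.beta_mem hY1 h2, S.beta_mem hY ((hu d).mpr (Or.inr h2))]
      · rw [S.beta_notMem h2, S.beta_notMem (fun h => by rcases (hu d).mp h with h | h; exacts [h1 h, h2 h])]
  refine ub_ext S.D S.fD _ _ _ _ ?_ ?_ _ _
  · show S.r * S.beta Y1 * ub_c S Y1 hY1 Y0 = S.r * S.beta Y
    rw [← hβ, mul_assoc]
  · show S.a * S.beta Y1 * ub_c S Y1 hY1 Y0 = S.a * S.beta Y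
    rw [← hβ, mul_assoc]

private theorem ub_blocks (L : ℕ) (S : Sf) (ζ : S.D → ℕ) (hr : ∀ d, ζ (S.r d) = ζ d)
    (hn : ∀ i, S.num {d | ζ d = i} ≤ L) (n : ℕ) : ∀ (Y : Set S.D) (hY : S.Cl Y), (∀ d ∈ Y, ζ (S.a d) = ζ d) →
    (∀ d ∈ Y, ζ d < n) → U L (S.glueSet Y hY) → U L S := by
  induction n with
  | zero =>
    intro Y hY _ hb h
    have h0 : ∀ d ∈ Y, S.a d = d := fun d hd => absurd (hb d hd) (Nat.not_lt_zero _)
    rw [ub_none S Y hY h0] at h
    exact h
  | succ n ih =>
    intro Y hY ha hb h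
    set Y1 : Set S.D := {d | d ∈ Y ∧ ζ d < n} with hY1d
    set Y0 : Set S.D := {d | d ∈ Y ∧ ζ d = n} with hY0d
    have hY1 : S.Cl Y1 := fun d hd => ⟨hY d hd.1, by rw [ha d hd.1]; exact hd.2⟩
    have hY0 : S.Cl Y0 := fun d hd => ⟨hY d hd.1, by rw [ha d hd.1]; exact hd.2⟩
    have hdis : ∀ d, d ∈ Y0 → d ∉ Y1 := fun d h0 h1 => by
      have h2 := h0.2
      have h3 := h1.2
      omega
    have hbeta : ∀ d, ζ (S.beta Y1 d) = ζ d := by
      intro d
      by_cases h1 : d ∈ Y1
      · rw [S.beta_mem hY1 h1, ha d h1.1]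
      · rw [S.beta_notMem h1]
    have hTr : ∀ d : S.D, ζ ((S.glueSet Y1 hY1).r d) = ζ d := by
      intro d
      show ζ (S.r (S.beta Y1 d)) = ζ d
      rw [hr, hbeta]
    have hnum : ∀ A : Set S.D, (S.glueSet Y1 hY1).num A ≤ S.num A := by
      intro A
      refine Set.ncard_le_ncard (fun (d : S.D) hd' => ?_) (Set.toFinite _)
      obtain ⟨hd, hd2⟩ := hd'
      refine ⟨hd, fun hc => hd2 ?_⟩
      show S.a (S.beta Y1 d) = d
      have hc' : S.a d = d := hc
      by_cases h1 : d ∈ Y1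
      · rw [S.beta_mem hY1 h1, S.aa]
      · rw [S.beta_notMem h1, hc']
    have hTY0 : (S.glueSet Y1 hY1).Cl Y0 := by
      refine fun (d : S.D) (hd : d ∈ Y0) => ?_
      show S.a (S.beta Y1 d) ∈ Y0
      rw [S.beta_notMem (hdis d hd)]
      exact hY0 d hd
    have hu : ∀ d, d ∈ Y ↔ d ∈ Y0 ∨ d ∈ Y1 := by
      intro d
      constructor
      · intro hd
        rcases lt_or_ge (ζ d) n with h1 | h1
        · exact Or.inr ⟨hd, h1⟩
        · exact Or.inl ⟨hd, by have := hb d hd; omega⟩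
      · rintro (hd | hd)
        · exact hd.1
        · exact hd.1
    refine ih Y1 hY1 (fun d hd => ha d hd.1) (fun d hd => hd.2) ?_
    refine glueSet_U L (S.glueSet Y1 hY1) Y0 {d | ζ d = n} hTY0 (fun d hd => hd.2) ?_ ((hnum _).trans (hn n)) ?_ ?_
    · refine fun (d : S.D) => ?_
      show ζ ((S.glueSet Y1 hY1).r d) = n ↔ ζ d = n
      rw [hTr]
    · refine fun (d : S.D) => ?_
      have h1 : (S.glueSet Y1 hY1).len d ≤ (S.glueSet Y1 hY1).num {e | ζ e = ζ d} :=
        len_le_num (S.glueSet Y1 hY1) (B := {e | ζ e = ζ d})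
          (fun e (he : ζ e = ζ d) => (hTr e).trans he) (show ζ d = ζ d from rfl)
      exact h1.trans ((hnum _).trans (hn _))
    · rw [ub_two S Y Y0 Y1 hY hY1 hY0 hdis hu hTY0]
      exact h

/-- glue the letters of `Y`, block after block -/
theorem blocks_U (L : ℕ) (S : Sf) (Y : Set S.D) (hY : S.Cl Y) (ζ : S.D → ℕ) (hr : ∀ d, ζ (S.r d) = ζ d)
    (ha : ∀ d ∈ Y, ζ (S.a d) = ζ d) (hn : ∀ i, S.num {d | ζ d = i} ≤ L) (h : U L (S.glueSet Y hY)) : U L S := by
  refine ub_blocks L S ζ hr hn (∑ d, ζ d + 1) Y hY ha ?_ h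
  intro d _
  exact Nat.lt_succ_of_le (Finset.single_le_sum (f := ζ) (fun _ _ => Nat.zero_le _) (Finset.mem_univ d))

/-- taking one letter out of its cycle -/
private theorem ub_out {D : Type} [Fintype D] (r : Perm D) (g : D) (hg : r g ≠ g) {d e : D} (hd : d ≠ g) (he : e ≠ g) :
    (sw g (r g) * r).SameCycle d e ↔ r.SameCycle d e := by
  classical
  set r1 := sw g (r g) * r with hr1
  have e1 : r1 g = g := by rw [hr1, Perm.mul_apply, sw_right]
  have e2 : ∀ x, r x = g → r1 x = r g := fun x hx => by rw [hr1, Perm.mul_apply, hx, sw_left]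
  have e3 : ∀ x, x ≠ g → r x ≠ g → r1 x = r x := fun x hx hx2 => by
    rw [hr1, Perm.mul_apply, sw_of_ne hx2 (fun h => hx (r.injective h))]
  constructor
  · intro h
    have hQ : ∀ x, r.SameCycle d (r1 x) ↔ r.SameCycle d x := by
      intro x
      by_cases h1 : x = g
      · rw [h1, e1]
      by_cases h2 : r x = g
      · rw [e2 x h2]
        constructor
        · intro h3
          have h4 := Perm.sameCycle_apply_right.1 h3
          rw [← h2] at h4
          exact Perm.sameCycle_apply_right.1 h4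
        · intro h3
          refine Perm.sameCycle_apply_right.2 ?_
          rw [← h2]
          exact Perm.sameCycle_apply_right.2 h3
      · rw [e3 x h1 h2]
        exact Perm.sameCycle_apply_right
    exact (iff_of_same (s := r1) (Q := fun x => r.SameCycle d x) hQ h).mp (Perm.SameCycle.refl _ _)
  · intro h
    have hQ : ∀ x, r1.SameCycle d (if r x = g then r g else r x) ↔ r1.SameCycle d (if x = g then r g else x) := by
      intro x
      by_cases h1 : x = g
      · have h2 : ¬ r x = g := by rw [h1]; exact hg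
        rw [if_neg h2, if_pos h1, h1]
      by_cases h2 : r x = g
      · rw [if_pos h2, if_neg h1, ← e2 x h2]
        exact Perm.sameCycle_apply_right
      · rw [if_neg h2, if_neg h1, ← e3 x h1 h2]
        exact Perm.sameCycle_apply_right
    have h3 := (iff_of_same (s := r) (Q := fun x => r1.SameCycle d (if x = g then r g else x)) hQ h).mp
    simp only [hd, he, if_false] at h3
    exact h3 (Perm.SameCycle.refl _ _)

private theorem ub_purge (n : ℕ) : ∀ S : Sf, Set.ncard {g | S.a g = g ∧ S.r g ≠ g} ≤ n →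
    ∃ r' : Perm S.D, (∀ d, S.a d = d → r' d = d) ∧
    (∀ d e, S.a d ≠ d → S.a e ≠ e → (r'.SameCycle d e ↔ S.r.SameCycle d e)) ∧ ∀ L, U L (S.setr r') → U L S := by
  induction n with
  | zero =>
    intro S hn
    have h0 : {g | S.a g = g ∧ S.r g ≠ g} = (∅ : Set S.D) :=
      (Set.ncard_eq_zero (Set.toFinite _)).1 (Nat.le_zero.1 hn)
    refine ⟨S.r, ?_, fun d e _ _ => Iff.rfl, fun L h => h⟩
    intro d hd
    by_contra hc
    have : d ∈ (∅ : Set S.D) := h0 ▸ (show d ∈ {g | S.a g = g ∧ S.r g ≠ g} from ⟨hd, hc⟩)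
    exact this
  | succ n ih =>
    intro S hn
    by_cases hall : ∀ d, S.a d = d → S.r d = d
    · exact ⟨S.r, hall, fun d e _ _ => Iff.rfl, fun L h => h⟩
    push Not at hall
    obtain ⟨g, hg, hrg⟩ := hall
    have hr : ∀ e : S.D, (S.setr (sw g (S.r g) * S.r)).r e = sw g (S.r g) (S.r e) := fun e => rfl
    have hsub : {h : S.D | (S.setr (sw g (S.r g) * S.r)).a h = h ∧ (S.setr (sw g (S.r g) * S.r)).r h ≠ h} ⊂
        {h : S.D | S.a h = h ∧ S.r h ≠ h} := by
      refine ⟨?_, ?_⟩
      · rintro h ⟨h1, h2⟩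
        refine ⟨h1, fun hc => h2 ?_⟩
        rw [hr]
        have h3 : h ≠ g := by
          rintro rfl
          exact hrg hc
        have h4 : h ≠ S.r g := by
          intro h5
          apply h3
          apply S.r.injective
          rw [hc]
          exact h5
        rw [hc, sw_of_ne h3 h4]
      · intro hc
        have h2 := hc (show g ∈ {h | S.a h = h ∧ S.r h ≠ h} from ⟨hg, hrg⟩)
        apply h2.2
        rw [hr, sw_right]
    have hlt := Set.ncard_lt_ncard hsub (Set.toFinite _)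
    have hn1 : Set.ncard {h : S.D | (S.setr (sw g (S.r g) * S.r)).a h = h ∧
        (S.setr (sw g (S.r g) * S.r)).r h ≠ h} < n + 1 := lt_of_lt_of_le hlt hn
    obtain ⟨r', h1, h2, h3⟩ := ih (S.setr (sw g (S.r g) * S.r)) (Nat.lt_succ_iff.1 hn1)
    refine ⟨r', h1, ?_, fun L h => U.ghost S g hg (h3 L h)⟩
    intro d e hd he
    have h4 := h2 d e hd he
    have hdg : d ≠ g := fun h => hd (by rw [h]; exact hg)
    have heg : e ≠ g := fun h => he (by rw [h]; exact hg)
    exact h4.trans (ub_out S.r g hrg hdg heg)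

/-- take all dead letters out of their words -/
theorem purge (S : Sf) : ∃ r' : Perm S.D, (∀ d, S.a d = d → r' d = d) ∧
    (∀ d e, S.a d ≠ d → S.a e ≠ e → (r'.SameCycle d e ↔ S.r.SameCycle d e)) ∧ ∀ L, U L (S.setr r') → U L S :=
  ub_purge _ S le_rfl

/-- from unit letters to weights at most one -/
theorem bridge (L : ℕ) (S : St) (hw : ∀ d, S.w d ≤ 1) (h : U L (forget S)) : SW (L : ℝ) S :=
  SW_of_U h S hw rfl

end Pool.Agent.GW
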