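import Pool.Agent.GW.UEmb
import Pool.Agent.GW.UBas

/-!
# GW/CovU (helper22): doubling all letters of `G` and joining the digons is a sequence of moves (MP_37d33d_gt)

`CovU.pl G d`: the place of the old letter `d` in the cover (`cp d` for `d ∈ G`, `inl d` otherwise).
-/

set_option autoImplicit false

namespace Pool.Agent.GW

open Equiv Pool.Agent.SWP

namespace CovU

section vals

variable {D : Type}

/-- the place of the old letter `d` in the cover -/
noncomputable def pl (G : Set D) (d : D) : D ⊕ (D ⊕ D) :=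
  @ite _ (d ∈ G) (Classical.propDecidable _) (Sum.inr (Sum.inl d)) (Sum.inl d)

theorem pl_mem {G : Set D} {d : D} (h : d ∈ G) : pl G d = Sum.inr (Sum.inl d) := by
  unfold pl; rw [if_pos h]

theorem pl_notMem {G : Set D} {d : D} (h : d ∉ G) : pl G d = Sum.inl d := by
  unfold pl; rw [if_neg h]

theorem pl_inj (G : Set D) : Function.Injective (pl G) := by
  intro d e h
  by_cases h1 : d ∈ G <;> by_cases h2 : e ∈ G
  · rw [pl_mem h1, pl_mem h2] at h; exact Sum.inl_injective (Sum.inr_injective h)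
  · rw [pl_mem h1, pl_notMem h2] at h; exact absurd h Sum.inr_ne_inl
  · rw [pl_notMem h1, pl_mem h2] at h; exact absurd h Sum.inl_ne_inr
  · rw [pl_notMem h1, pl_notMem h2] at h; exact Sum.inl_injective h

theorem th_inl (G : Set D) (d : D) : th G (Sum.inl d) = pl G d := rfl

theorem th_pl (G : Set D) (d : D) : th G (pl G d) = Sum.inl d := by
  rw [← th_inl]; exact th_inv G _

end vals

section cv

variable (S : Sf) (G : Set S.D) (K : Lk S.D)

/-- the permutation `r` of the cover -/
noncomputable def R : Perm (S.D ⊕ (S.D ⊕ S.D)) := (S.cov G K).r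

/-- the partner map of the cover -/
noncomputable def A : Perm (S.D ⊕ (S.D ⊕ S.D)) := (S.cov G K).a

theorem r_eq (x : S.D ⊕ (S.D ⊕ S.D)) : R S G K x = ta K (de G (th G (Sum.map S.r id (th G x)))) := rfl

theorem a_eq (x : S.D ⊕ (S.D ⊕ S.D)) : A S G K x = ac G S.a x := rfl

variable {G K}

theorem P_none (hG : ∀ d e, K.N d = some e → d ∈ G ∧ e ∈ G) {d : S.D} (hd : d ∉ G) : K.P d = none := by
  rcases h : K.P d with _ | e
  · rfl
  · exact absurd (hG e d ((K.h e d).2 h)).2 hd

theorem N_none (hG : ∀ d e, K.N d = some e → d ∈ G ∧ e ∈ G) {d : S.D} (hd : d ∉ G) : K.N d = none := by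
  rcases h : K.N d with _ | e
  · rfl
  · exact absurd (hG d e h).1 hd

theorem r_pl (hG : ∀ d e, K.N d = some e → d ∈ G ∧ e ∈ G) (d : S.D) :
    R S G K (pl G d) = pl G (S.r d) := by
  rw [r_eq, th_pl]
  change ta K (de G (th G (Sum.inl (S.r d)))) = _
  rw [th_inl]
  by_cases h : S.r d ∈ G
  · rw [pl_mem h]; rfl
  · rw [pl_notMem h]
    have h1 : de G (Sum.inl (S.r d)) = Sum.inl (S.r d) := if_neg h
    have h2 := P_none S hG h
    rw [h1]
    change (K.P (S.r d)).elim _ _ = _
    rw [h2]; rfl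

theorem r_inl {d : S.D} (hd : d ∈ G) :
    R S G K (Sum.inl d) = (K.N d).elim (Sum.inr (Sum.inr d)) (fun e => Sum.inl e) := by
  rw [r_eq, th_inl, pl_mem hd]
  change ta K (de G (th G (Sum.inr (Sum.inl d)))) = _
  rw [← pl_mem hd, th_pl]
  have h1 : de G (Sum.inl d) = Sum.inr (Sum.inr d) := if_pos hd
  rw [h1]; rfl

theorem r_inl_some {d e : S.D} (hd : d ∈ G) (h : K.N d = some e) : R S G K (Sum.inl d) = Sum.inl e := by
  rw [r_inl S hd, h]; rfl

theorem r_inl_none {d : S.D} (hd : d ∈ G) (h : K.N d = none) :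
    R S G K (Sum.inl d) = Sum.inr (Sum.inr d) := by
  rw [r_inl S hd, h]; rfl

theorem r_pt {d : S.D} (hd : d ∈ G) :
    R S G K (Sum.inr (Sum.inr d)) = (K.P d).elim (Sum.inl d) (fun e => Sum.inr (Sum.inr e)) := by
  rw [r_eq]
  change ta K (de G (Sum.inr (Sum.inr d))) = _
  have h1 : de G (Sum.inr (Sum.inr d)) = Sum.inl d := if_pos hd
  rw [h1]; rfl

theorem r_pt_some {d e : S.D} (hd : d ∈ G) (h : K.P d = some e) :
    R S G K (Sum.inr (Sum.inr d)) = Sum.inr (Sum.inr e) := by
  rw [r_pt S hd, h]; rfl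

theorem r_pt_none {d : S.D} (hd : d ∈ G) (h : K.P d = none) :
    R S G K (Sum.inr (Sum.inr d)) = Sum.inl d := by
  rw [r_pt S hd, h]; rfl

theorem r_cp_not {d : S.D} (hd : d ∉ G) : R S G K (Sum.inr (Sum.inl d)) = Sum.inr (Sum.inl d) := by
  rw [r_eq]
  have h1 : th G (Sum.inr (Sum.inl d)) = Sum.inr (Sum.inl d) := if_neg hd
  rw [h1]
  change ta K (de G (th G (Sum.inr (Sum.inl d)))) = _
  rw [h1]; rfl

theorem r_pt_not (hG : ∀ d e, K.N d = some e → d ∈ G ∧ e ∈ G) {d : S.D} (hd : d ∉ G) :
    R S G K (Sum.inr (Sum.inr d)) = Sum.inr (Sum.inr d) := by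
  rw [r_eq]
  change ta K (de G (Sum.inr (Sum.inr d))) = _
  have h1 : de G (Sum.inr (Sum.inr d)) = Sum.inr (Sum.inr d) := if_neg hd
  rw [h1]
  change (K.N d).elim _ _ = _
  rw [N_none S hG hd]; rfl

theorem a_inl (d : S.D) : A S G K (Sum.inl d) = Sum.inl (S.a d) := rfl

theorem a_cp {d : S.D} (hd : d ∈ G) : A S G K (Sum.inr (Sum.inl d)) = Sum.inr (Sum.inr d) := if_pos hd

theorem a_pt {d : S.D} (hd : d ∈ G) : A S G K (Sum.inr (Sum.inr d)) = Sum.inr (Sum.inl d) := if_pos hd

theorem a_cp_not {d : S.D} (hd : d ∉ G) : A S G K (Sum.inr (Sum.inl d)) = Sum.inr (Sum.inl d) := if_neg hd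

theorem a_pt_not {d : S.D} (hd : d ∉ G) : A S G K (Sum.inr (Sum.inr d)) = Sum.inr (Sum.inr d) := if_neg hd

end cv

section dbls

/-- no joins -/
def K0 (D : Type) : Lk D := ⟨fun _ => none, fun _ => none, fun _ _ => by simp⟩

theorem K0_G {D : Type} (G : Set D) : ∀ d e, (K0 D).N d = some e → d ∈ G ∧ e ∈ G := by
  intro d e h
  exact absurd h (by simp [K0])

variable {D : Type} (s : Perm D)

/-- image of a letter of `S` in `S.dbl b`: the letter `b` moves to its copy -/
noncomputable def qq (b : D) (x : D) : D ⊕ Bool := @ite _ (x = b) (Classical.propDecidable _) (Sum.inr false) (Sum.inl x)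

theorem qq_eq (b : D) : qq b b = Sum.inr false := if_pos rfl

theorem qq_ne {b x : D} (h : x ≠ b) : qq b x = Sum.inl x := if_neg h

/-- the permutation `r` of `S.dbl b` -/
noncomputable def dr (b : D) : Perm (D ⊕ Bool) :=
  sw (Sum.inl b) (Sum.inr false) * Equiv.sumCongr s (Equiv.refl Bool) * sw (Sum.inr true) (Sum.inr false)
    * sw (Sum.inl b) (Sum.inr false)

/-- the partner map of `S.dbl b` -/
def da : Perm (D ⊕ Bool) := Equiv.sumCongr s Equiv.boolNot

theorem dbl_r (b : D) (y : D ⊕ Bool) : dr s b y =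
    sw (Sum.inl b) (Sum.inr false) (Equiv.sumCongr s (Equiv.refl Bool) (sw (Sum.inr true) (Sum.inr false)
    (sw (Sum.inl b) (Sum.inr false) y))) := rfl

theorem dbl_fin (b x : D) : sw (Sum.inl b) (Sum.inr false) (Sum.inl x : D ⊕ Bool) = qq b x := by
  by_cases h : x = b
  · subst h; rw [sw_left, qq_eq]
  · rw [qq_ne h, sw_of_ne (fun h' => h (Sum.inl_injective h')) Sum.inl_ne_inr]

theorem tf_ne : (Sum.inr true : D ⊕ Bool) ≠ Sum.inr false := fun h => by simpa using Sum.inr_injective h

theorem dbl_q (b x : D) : dr s b (qq b x) = qq b (s x) := by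
  have e1 : sw (Sum.inl b) (Sum.inr false) (qq b x) = (Sum.inl x : D ⊕ Bool) := by
    rw [← dbl_fin, sw_sq]
  rw [dbl_r, e1, sw_of_ne Sum.inl_ne_inr Sum.inl_ne_inr]
  change sw (Sum.inl b) (Sum.inr false) (Sum.inl (s x) : D ⊕ Bool) = _
  rw [dbl_fin]

theorem dbl_o (b x : D) (h : x ≠ b) : dr s b (Sum.inl x) = qq b (s x) := by
  rw [← qq_ne h, dbl_q]

theorem dbl_b (b : D) : dr s b (Sum.inl b) = Sum.inr true := by
  rw [dbl_r, sw_left, sw_right]
  change sw (Sum.inl b) (Sum.inr false) (Sum.inr true : D ⊕ Bool) = _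
  rw [sw_of_ne Sum.inr_ne_inl tf_ne]

theorem dbl_t (b : D) : dr s b (Sum.inr true) = Sum.inl b := by
  rw [dbl_r, sw_of_ne Sum.inr_ne_inl tf_ne, sw_left]
  change sw (Sum.inl b) (Sum.inr false) (Sum.inr false : D ⊕ Bool) = _
  rw [sw_right]

variable (S : Sf) (G : Set S.D) (e : S.D)

/-- the letters of the cover of `insert e G` as letters of the doubled cover of `G` -/
noncomputable def jj (x : S.D ⊕ (S.D ⊕ S.D)) : (S.D ⊕ (S.D ⊕ S.D)) ⊕ Bool :=
  @ite _ (x = Sum.inr (Sum.inl e)) (Classical.propDecidable _) (Sum.inr false)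
    (@ite _ (x = Sum.inr (Sum.inr e)) (Classical.propDecidable _) (Sum.inr true) (Sum.inl x))

theorem jj_cp : jj S e (Sum.inr (Sum.inl e)) = Sum.inr false := if_pos rfl

theorem jj_pt : jj S e (Sum.inr (Sum.inr e)) = Sum.inr true := by
  unfold jj
  rw [if_neg (fun h => Sum.inr_ne_inl (Sum.inr_injective h)), if_pos rfl]

theorem jj_ne {x : S.D ⊕ (S.D ⊕ S.D)} (h1 : x ≠ Sum.inr (Sum.inl e)) (h2 : x ≠ Sum.inr (Sum.inr e)) :
    jj S e x = Sum.inl x := by
  unfold jj
  rw [if_neg h1, if_neg h2]

theorem jj_inl (d : S.D) : jj S e (Sum.inl d) = Sum.inl (Sum.inl d) := jj_ne S e Sum.inl_ne_inr Sum.inl_ne_inr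

theorem jj_cp_ne {d : S.D} (h : d ≠ e) : jj S e (Sum.inr (Sum.inl d)) = Sum.inl (Sum.inr (Sum.inl d)) :=
  jj_ne S e (fun h' => h (Sum.inl_injective (Sum.inr_injective h')))
    (fun h' => Sum.inl_ne_inr (Sum.inr_injective h'))

theorem jj_pt_ne {d : S.D} (h : d ≠ e) : jj S e (Sum.inr (Sum.inr d)) = Sum.inl (Sum.inr (Sum.inr d)) :=
  jj_ne S e (fun h' => Sum.inr_ne_inl (Sum.inr_injective h'))
    (fun h' => h (Sum.inr_injective (Sum.inr_injective h')))

theorem jj_inj : Function.Injective (jj S e) := by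
  rintro (x | x | x) (y | y | y) h
  all_goals by_cases hx : x = e <;> by_cases hy : y = e
  all_goals simp_all [jj_inl, jj_cp, jj_pt, jj_cp_ne, jj_pt_ne]

theorem jj_pl (he : e ∉ G) (d : S.D) : jj S e (pl (insert e G) d) = qq (Sum.inl e) (pl G d) := by
  by_cases h : d = e
  · subst h
    rw [pl_mem (Set.mem_insert d G), jj_cp, pl_notMem he, qq_eq]
  by_cases h2 : d ∈ G
  · rw [pl_mem (Set.mem_insert_of_mem e h2), jj_cp_ne S e h, pl_mem h2, qq_ne Sum.inr_ne_inl]
  · rw [pl_notMem (fun h' : d ∈ insert e G => h'.elim h h2), jj_inl, pl_notMem h2,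
      qq_ne (fun h' => h (Sum.inl_injective h'))]

theorem jj_r (he : e ∉ G) (x : S.D ⊕ (S.D ⊕ S.D)) :
    dr (R S G (K0 S.D)) (Sum.inl e) (jj S e x) = jj S e (R S (insert e G) (K0 S.D) x) := by
  have hG := K0_G (D := S.D) G
  have hG' := K0_G (D := S.D) (insert e G)
  have hpl : ∀ d : S.D, dr (R S G (K0 S.D)) (Sum.inl e) (jj S e (pl (insert e G) d)) =
      jj S e (R S (insert e G) (K0 S.D) (pl (insert e G) d)) := by
    intro d
    rw [jj_pl S G e he, dbl_q, r_pl S hG, r_pl S hG', jj_pl S G e he]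
  have hne : ∀ d : S.D, d ≠ e → d ∉ G → d ∉ insert e G := fun d h1 h2 h => h.elim h1 h2
  rcases x with d | d | d
  · by_cases h : d = e
    · subst h
      rw [jj_inl, dbl_b, r_inl_none S (Set.mem_insert d G) rfl, jj_pt]
    by_cases h2 : d ∈ G
    · have h3 : d ∈ insert e G := Set.mem_insert_of_mem e h2
      rw [jj_inl, r_inl_none S h3 rfl, jj_pt_ne S e h, dbl_o _ _ _ (fun h' => h (Sum.inl_injective h')),
        r_inl_none S h2 rfl, qq_ne Sum.inr_ne_inl]
    · have h3 := hpl d
      rw [pl_notMem (hne d h h2)] at h3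
      exact h3
  · by_cases h : d ∈ insert e G
    · have h3 := hpl d
      rw [pl_mem h] at h3
      exact h3
    · have h1 : d ≠ e := fun h' => h (by rw [h']; exact Set.mem_insert _ _)
      have h2 : d ∉ G := fun h' => h (Set.mem_insert_of_mem _ h')
      rw [r_cp_not S h, jj_cp_ne S e h1, dbl_o _ _ _ Sum.inr_ne_inl, r_cp_not S h2, qq_ne Sum.inr_ne_inl]
  · by_cases h : d = e
    · subst h
      rw [jj_pt, dbl_t, r_pt_none S (Set.mem_insert d G) rfl, jj_inl]
    by_cases h2 : d ∈ G
    · have h3 : d ∈ insert e G := Set.mem_insert_of_mem e h2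
      rw [jj_pt_ne S e h, r_pt_none S h3 rfl, jj_inl, dbl_o _ _ _ Sum.inr_ne_inl,
        r_pt_none S h2 rfl, qq_ne (fun h' => h (Sum.inl_injective h'))]
    · rw [r_pt_not S hG' (hne d h h2), jj_pt_ne S e h, dbl_o _ _ _ Sum.inr_ne_inl, r_pt_not S hG h2,
        qq_ne Sum.inr_ne_inl]

theorem jj_a (he : e ∉ G) (x : S.D ⊕ (S.D ⊕ S.D)) :
    da (A S G (K0 S.D)) (jj S e x) = jj S e (A S (insert e G) (K0 S.D) x) := by
  have hl : ∀ y : S.D ⊕ (S.D ⊕ S.D), da (A S G (K0 S.D)) (Sum.inl y) =
    Sum.inl (A S G (K0 S.D) y) := fun _ => rfl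
  have ht : da (A S G (K0 S.D)) (Sum.inr true) = Sum.inr false := rfl
  have hf : da (A S G (K0 S.D)) (Sum.inr false) = Sum.inr true := rfl
  have hne : ∀ d : S.D, d ≠ e → d ∉ G → d ∉ insert e G := fun d h1 h2 h => h.elim h1 h2
  rcases x with d | d | d
  · rw [jj_inl, hl, a_inl, a_inl, jj_inl]
  · by_cases h : d = e
    · subst h
      rw [jj_cp, hf, a_cp S (Set.mem_insert d G), jj_pt]
    by_cases h2 : d ∈ G
    · rw [jj_cp_ne S e h, hl, a_cp S h2, a_cp S (Set.mem_insert_of_mem e h2), jj_pt_ne S e h]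
    · rw [jj_cp_ne S e h, hl, a_cp_not S h2, a_cp_not S (hne d h h2), jj_cp_ne S e h]
  · by_cases h : d = e
    · subst h
      rw [jj_pt, ht, a_pt S (Set.mem_insert d G), jj_cp]
    by_cases h2 : d ∈ G
    · rw [jj_pt_ne S e h, hl, a_pt S h2, a_pt S (Set.mem_insert_of_mem e h2), jj_cp_ne S e h]
    · rw [jj_pt_ne S e h, hl, a_pt_not S h2, a_pt_not S (hne d h h2), jj_pt_ne S e h]

theorem jj_dead (he : e ∉ G) (y : (S.D ⊕ (S.D ⊕ S.D)) ⊕ Bool) (hy : ∀ x, jj S e x ≠ y) :
    da (A S G (K0 S.D)) y = y := by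
  have hl : ∀ y : S.D ⊕ (S.D ⊕ S.D), da (A S G (K0 S.D)) (Sum.inl y) =
    Sum.inl (A S G (K0 S.D) y) := fun _ => rfl
  rcases y with (d | d | d) | c
  · exact absurd (jj_inl S e d) (hy _)
  · by_cases h : d = e
    · subst h
      rw [hl, a_cp_not S he]
    · exact absurd (jj_cp_ne S e h) (hy _)
  · by_cases h : d = e
    · subst h
      rw [hl, a_pt_not S he]
    · exact absurd (jj_pt_ne S e h) (hy _)
  · cases c
    · exact absurd (jj_cp S e) (hy _)
    · exact absurd (jj_pt S e) (hy _)

theorem dbl_step (L : ℕ) (he : e ∉ G) (hl : S.a e ≠ e) (h : U L (S.cov (insert e G) (K0 S.D))) :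
    U L (S.cov G (K0 S.D)) := by
  refine U.dbl (S.cov G (K0 S.D)) (Sum.inl e) (fun h' => hl (Sum.inl_injective h')) ?_
  exact U_ext L h _ (jj S e) (jj_inj S e) (jj_r S G e he) (jj_a S G e he) (jj_dead S G e he)

theorem dbl_all (L : ℕ) (G : Set S.D) (hlive : ∀ d ∈ G, S.a d ≠ d) (h : U L (S.cov G (K0 S.D))) : U L S := by
  have key : ∀ F : Set S.D, F ⊆ G → U L (S.cov F (K0 S.D)) → U L S := by
    intro F
    induction F, Set.toFinite F using Set.Finite.induction_on with
    | empty =>
      intro _ h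
      refine U_emb L h S Sum.inl Sum.inl_injective ?_ (fun _ => rfl) ?_
      · intro d
        have h1 := r_pl S (K0_G (D := S.D) ∅) d
        rw [pl_notMem (Set.notMem_empty _), pl_notMem (Set.notMem_empty _)] at h1
        exact h1
      · rintro (d | d | d) hd
        · exact absurd rfl (hd d)
        · exact a_cp_not S (Set.notMem_empty _)
        · exact a_pt_not S (Set.notMem_empty _)
    | @insert e F he _ ih =>
      intro hF h
      exact ih (fun d hd => hF (Set.mem_insert_of_mem _ hd))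
        (dbl_step S F e L he (hlive e (hF (Set.mem_insert _ _))) h)
  exact key G subset_rfl h

end dbls

section joins

/-- restriction of the successor map to the set `J` -/
noncomputable def res {D : Type} (K : Lk D) (J : Set D) : Lk D where
  N := fun d => @ite _ (d ∈ J) (Classical.propDecidable _) (K.N d) none
  P := fun e => (K.P e).elim none (fun d => @ite _ (d ∈ J) (Classical.propDecidable _) (some d) none)
  h := by
    intro d e
    constructor
    · intro h
      by_cases hd : d ∈ J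
      · rw [if_pos hd] at h
        rw [(K.h d e).1 h]
        exact if_pos hd
      · rw [if_neg hd] at h
        exact absurd h (by simp)
    · intro h
      rcases hP : K.P e with _ | x
      · rw [hP] at h
        exact absurd h (by simp)
      · rw [hP] at h
        change (@ite _ (x ∈ J) (Classical.propDecidable _) (some x) none) = some d at h
        by_cases hx : x ∈ J
        · rw [if_pos hx] at h
          obtain rfl := Option.some_injective _ h
          rw [if_pos hx]
          exact (K.h x e).2 hP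
        · rw [if_neg hx] at h
          exact absurd h (by simp)

theorem res_N {D : Type} (K : Lk D) {J : Set D} {d : D} (h : d ∈ J) : (res K J).N d = K.N d := if_pos h

theorem res_N_not {D : Type} (K : Lk D) {J : Set D} {d : D} (h : d ∉ J) : (res K J).N d = none := if_neg h

theorem res_N_some {D : Type} (K : Lk D) {J : Set D} {d e : D} (h : (res K J).N d = some e) : K.N d = some e := by
  by_cases hd : d ∈ J
  · rw [← res_N K hd]; exact h
  · rw [res_N_not K hd] at h
    exact absurd h (by simp)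

theorem res_P_some {D : Type} (K : Lk D) {J : Set D} {d e : D} (h : (res K J).P e = some d) : K.P e = some d :=
  (K.h d e).1 (res_N_some K (((res K J).h d e).2 h))

theorem Lk_ext {D : Type} {K K' : Lk D} (h : ∀ d, K.N d = K'.N d) : K = K' := by
  obtain ⟨N, P, hh⟩ := K
  obtain ⟨N', P', hh'⟩ := K'
  obtain rfl : N = N' := funext h
  have h2 : P = P' := by
    funext e
    rcases h1 : P e with _ | d
    · rcases h3 : P' e with _ | d'
      · rfl
      · have := (hh d' e).1 ((hh' d' e).2 h3)
        rw [h1] at this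
        exact absurd this (by simp)
    · exact ((hh' d e).1 ((hh d e).2 h1)).symm
  subst h2
  rfl

theorem res_univ {D : Type} (K : Lk D) : res K Set.univ = K := Lk_ext (fun d => res_N K (Set.mem_univ d))

theorem res_empty {D : Type} (K : Lk D) : res K ∅ = K0 D := Lk_ext (fun d => res_N_not K (Set.notMem_empty d))

theorem res_none {D : Type} (K : Lk D) (J : Set D) (d : D) (h : K.N d = none) : res K (insert d J) = res K J := by
  apply Lk_ext
  intro e
  by_cases he : e = d
  · subst he
    rw [res_N K (Set.mem_insert _ _), h]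
    by_cases h2 : e ∈ J
    · rw [res_N K h2, h]
    · rw [res_N_not K h2]
  by_cases h2 : e ∈ J
  · rw [res_N K (Set.mem_insert_of_mem _ h2), res_N K h2]
  · rw [res_N_not K h2, res_N_not K (fun h' : e ∈ insert d J => h'.elim he h2)]

/-- joining one more corner is one swap -/
theorem ta_insert {D : Type} (K : Lk D) (J : Set D) (d e : D) (hd : d ∉ J) (h : K.N d = some e)
    (x : D ⊕ (D ⊕ D)) : ta (res K (insert d J)) x = sw (Sum.inr (Sum.inr d)) (Sum.inl e) (ta (res K J) x) := by
  have hP : K.P e = some d := (K.h d e).1 h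
  have hN0 : (res K J).N d = none := res_N_not K hd
  have hP0 : (res K J).P e = none := by
    rcases h1 : (res K J).P e with _ | y
    · rfl
    · have h2 := res_P_some K h1
      rw [hP] at h2
      obtain rfl := Option.some_injective _ h2
      have h3 := ((res K J).h d e).2 h1
      rw [hN0] at h3
      exact absurd h3 (by simp)
  have hN1 : (res K (insert d J)).N d = some e := by rw [res_N K (Set.mem_insert _ _), h]
  have hP1 : (res K (insert d J)).P e = some d := ((res K (insert d J)).h d e).1 hN1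
  have hNo : ∀ y, y ≠ d → (res K (insert d J)).N y = (res K J).N y := by
    intro y hy
    by_cases h2 : y ∈ J
    · rw [res_N K (Set.mem_insert_of_mem _ h2), res_N K h2]
    · rw [res_N_not K h2, res_N_not K (fun h' : y ∈ insert d J => h'.elim hy h2)]
  have hPo : ∀ y, y ≠ e → (res K (insert d J)).P y = (res K J).P y := by
    intro y hy
    rcases h1 : (res K J).P y with _ | z
    · rcases h2 : (res K (insert d J)).P y with _ | w
      · rfl
      · have h3 := ((res K (insert d J)).h w y).2 h2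
        by_cases hw : w = d
        · subst hw
          rw [hN1] at h3
          exact absurd (Option.some_injective _ h3).symm hy
        · rw [hNo w hw] at h3
          have h4 := ((res K J).h w y).1 h3
          rw [h1] at h4
          exact absurd h4 (by simp)
    · have h3 := ((res K J).h z y).2 h1
      have hz : z ≠ d := by
        rintro rfl
        rw [hN0] at h3
        exact absurd h3 (by simp)
      rw [← hNo z hz] at h3
      exact ((res K (insert d J)).h z y).1 h3
  rcases x with y | y | y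
  · change ((res K (insert d J)).P y).elim _ _ = sw _ _ (((res K J).P y).elim _ _)
    by_cases hy : y = e
    · subst hy
      rw [hP1, hP0]
      exact (sw_right _ _).symm
    · rw [hPo y hy]
      rcases h1 : (res K J).P y with _ | z
      · exact (sw_of_ne Sum.inl_ne_inr (fun h' => hy (Sum.inl_injective h'))).symm
      · have hz : z ≠ d := by
          rintro rfl
          have h3 := ((res K J).h z y).2 h1
          rw [hN0] at h3
          exact absurd h3 (by simp)
        exact (sw_of_ne (fun h' => hz (Sum.inr_injective (Sum.inr_injective h'))) Sum.inr_ne_inl).symm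
  · exact (sw_of_ne (fun h' => Sum.inl_ne_inr (Sum.inr_injective h')) Sum.inr_ne_inl).symm
  · change ((res K (insert d J)).N y).elim _ _ = sw _ _ (((res K J).N y).elim _ _)
    by_cases hy : y = d
    · subst hy
      rw [hN1, hN0]
      exact (sw_left _ _).symm
    · rw [hNo y hy]
      rcases h1 : (res K J).N y with _ | z
      · exact (sw_of_ne (fun h' => hy (Sum.inr_injective (Sum.inr_injective h'))) Sum.inr_ne_inl).symm
      · have hz : z ≠ e := by
          rintro rfl
          have h3 := ((res K J).h y z).1 h1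
          rw [hP0] at h3
          exact absurd h3 (by simp)
        exact (sw_of_ne Sum.inl_ne_inr (fun h' => hz (Sum.inl_injective h'))).symm

variable (S : Sf) (G : Set S.D) (K : Lk S.D)

/-- lengths in the cover -/
theorem cov_len (L : ℕ) (J : Set S.D) (hlive : ∀ d ∈ G, S.a d ≠ d) (hG : ∀ d e, K.N d = some e → d ∈ G ∧ e ∈ G)
    (hL : ∀ d, S.len d ≤ L)
    (hch : ∀ d ∈ G, 2 * Set.ncard {e | Relation.EqvGen (fun x y => K.N x = some y) d e} ≤ L)
    (x : (S.cov G (res K J)).D) : (S.cov G (res K J)).len x ≤ L := by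
  have hG' : ∀ d e, (res K J).N d = some e → d ∈ G ∧ e ∈ G := fun d e h => hG d e (res_N_some K h)
  -- old words
  have hold : ∀ d, (S.cov G (res K J)).len (pl G d) ≤ L := by
    intro d
    refine le_trans ?_ (hL d)
    let B : Set (S.D ⊕ (S.D ⊕ S.D)) := pl G '' S.word d
    have hB : ∀ y ∈ B, R S G (res K J) y ∈ B := by
      rintro y ⟨z, hz, rfl⟩
      rw [r_pl S hG']
      exact ⟨S.r z, hz.trans ⟨1, rfl⟩, rfl⟩
    refine (len_le_num (S.cov G (res K J)) hB ⟨d, Perm.SameCycle.refl _ _, rfl⟩).trans ?_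
    have hsub : (B ∩ (S.cov G (res K J)).live : Set (S.D ⊕ (S.D ⊕ S.D))) ⊆ pl G '' (S.word d ∩ S.live) := by
      rintro y ⟨⟨z, hz, rfl⟩, hl⟩
      refine ⟨z, ⟨hz, ?_⟩, rfl⟩
      by_cases h : z ∈ G
      · exact hlive z h
      · intro h2
        apply hl
        rw [pl_notMem h]
        exact congrArg Sum.inl h2
    exact (Set.ncard_le_ncard hsub (Set.toFinite _)).trans (Set.ncard_image_le (Set.toFinite _))
  -- new words
  have hnew : ∀ d ∈ G, (S.cov G (res K J)).len (Sum.inl d) ≤ L ∧
      (S.cov G (res K J)).len (Sum.inr (Sum.inr d)) ≤ L := by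
    intro d hd
    let Cs : Set S.D := {e | Relation.EqvGen (fun x y => K.N x = some y) d e}
    have hCs : ∀ e ∈ Cs, e ∈ G := by
      intro e he
      have h1 : ∀ x y, Relation.EqvGen (fun x y => K.N x = some y) x y → (x ∈ G ↔ y ∈ G) := by
        intro x y h
        induction h with
        | rel x y h => exact ⟨fun _ => (hG x y h).2, fun _ => (hG x y h).1⟩
        | refl x => exact Iff.rfl
        | symm x y _ ih => exact ih.symm
        | trans x y z _ _ ih1 ih2 => exact ih1.trans ih2
      exact (h1 d e he).1 hd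
    let B : Set (S.D ⊕ (S.D ⊕ S.D)) := Sum.inl '' Cs ∪ (fun e => Sum.inr (Sum.inr e)) '' Cs
    have hB : ∀ y ∈ B, R S G (res K J) y ∈ B := by
      rintro y (⟨z, hz, rfl⟩ | ⟨z, hz, rfl⟩)
      · rcases h1 : (res K J).N z with _ | w
        · rw [r_inl_none S (hCs z hz) h1]
          exact Or.inr ⟨z, hz, rfl⟩
        · rw [r_inl_some S (hCs z hz) h1]
          exact Or.inl ⟨w, Relation.EqvGen.trans _ _ _ hz (Relation.EqvGen.rel _ _ (res_N_some K h1)), rfl⟩
      · change R S G (res K J) (Sum.inr (Sum.inr z)) ∈ B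
        rcases h1 : (res K J).P z with _ | w
        · rw [r_pt_none S (hCs z hz) h1]
          exact Or.inl ⟨z, hz, rfl⟩
        · rw [r_pt_some S (hCs z hz) h1]
          exact Or.inr ⟨w, Relation.EqvGen.trans _ _ _ hz (Relation.EqvGen.symm _ _ (Relation.EqvGen.rel _ _
            ((K.h w z).2 (res_P_some K h1)))), rfl⟩
    have hnum : (S.cov G (res K J)).num B ≤ L := by
      refine (num_le_ncard (S.cov G (res K J)) B).trans ?_
      refine le_trans ?_ (hch d hd)
      refine (Set.ncard_union_le _ _).trans ?_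
      have h1 := Set.ncard_image_le (f := (Sum.inl : S.D → S.D ⊕ (S.D ⊕ S.D))) (Set.toFinite Cs)
      have h2 := Set.ncard_image_le (f := (fun e => Sum.inr (Sum.inr e) : S.D → S.D ⊕ (S.D ⊕ S.D))) (Set.toFinite Cs)
      refine (Nat.add_le_add h1 h2).trans ?_
      rw [two_mul]
    exact ⟨(len_le_num (S.cov G (res K J)) hB (Or.inl ⟨d, Relation.EqvGen.refl d, rfl⟩)).trans hnum,
      (len_le_num (S.cov G (res K J)) hB (Or.inr ⟨d, Relation.EqvGen.refl d, rfl⟩)).trans hnum⟩
  -- dead letters
  have hdead : ∀ y : S.D ⊕ (S.D ⊕ S.D), R S G (res K J) y = y → A S G (res K J) y = y →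
      (S.cov G (res K J)).len y ≤ L := by
    intro y hr ha
    let B : Set (S.D ⊕ (S.D ⊕ S.D)) := {y}
    have hB : ∀ z ∈ B, R S G (res K J) z ∈ B := by
      intro z hz
      have hz' : z = y := hz
      rw [hz']
      exact hr
    refine (len_le_num (S.cov G (res K J)) hB rfl).trans ?_
    have h1 : (B ∩ (S.cov G (res K J)).live : Set (S.D ⊕ (S.D ⊕ S.D))) = ∅ := by
      ext z
      constructor
      · rintro ⟨h1, h2⟩
        have hz' : z = y := h1
        rw [hz'] at h2
        exact absurd ha h2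
      · intro h; exact absurd h (Set.notMem_empty _)
    have h2 : (S.cov G (res K J)).num B = 0 := by
      change (B ∩ (S.cov G (res K J)).live : Set (S.D ⊕ (S.D ⊕ S.D))).ncard = 0
      rw [h1, Set.ncard_empty]
    rw [h2]
    exact Nat.zero_le _
  rcases x with d | d | d
  · by_cases h : d ∈ G
    · exact (hnew d h).1
    · have := hold d
      rw [pl_notMem h] at this
      exact this
  · by_cases h : d ∈ G
    · have := hold d
      rw [pl_mem h] at this
      exact this
    · exact hdead _ (r_cp_not S h) (a_cp_not S h)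
  · by_cases h : d ∈ G
    · exact (hnew d h).2
    · exact hdead _ (r_pt_not S hG' h) (a_pt_not S h)

/-- the two letters of a corner lie at the same vertex of the cover -/
theorem cov_vx (J : Set S.D) (hG : ∀ d e, K.N d = some e → d ∈ G ∧ e ∈ G) (d e : S.D) (hd : d ∈ G) (he : e ∈ G)
    (hP : (res K J).P e = none) (hc : S.Cor G d e) :
    (R S G (res K J) * A S G (res K J)).SameCycle (Sum.inr (Sum.inr d)) (Sum.inl e) := by
  have hG' : ∀ d e, (res K J).N d = some e → d ∈ G ∧ e ∈ G := fun d e h => hG d e (res_N_some K h)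
  obtain ⟨k, hk, hi⟩ := hc
  have h1 : (R S G (res K J) * A S G (res K J)) (Sum.inr (Sum.inr d)) = pl G (S.r d) := by
    rw [Perm.mul_apply, a_pt S hd, ← pl_mem hd, r_pl S hG']
  have h2 : ∀ i ≤ k, ((R S G (res K J) * A S G (res K J)) ^ i) (pl G (S.r d)) = pl G (((S.r * S.a) ^ i) (S.r d)) := by
    intro i
    induction i with
    | zero => intro _; rfl
    | succ i ih =>
      intro hik
      rw [pow_succ', Perm.mul_apply, ih (by omega), Perm.mul_apply, pl_notMem (hi i (by omega)).1, a_inl,
        ← pl_notMem (hi i (by omega)).2, r_pl S hG', pow_succ', Perm.mul_apply, Perm.mul_apply]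
  have h3 := h2 k le_rfl
  rw [hk, pl_mem he] at h3
  have h4 : (R S G (res K J) * A S G (res K J)) (Sum.inr (Sum.inl e)) = Sum.inl e := by
    rw [Perm.mul_apply, a_cp S he, r_pt_none S he hP]
  refine ⟨((k + 1 + 1 : ℕ) : ℤ), ?_⟩
  rw [zpow_natCast]
  have h5 : ((R S G (res K J) * A S G (res K J)) ^ (k + 1)) (Sum.inr (Sum.inr d)) = Sum.inr (Sum.inl e) := by
    rw [pow_succ]
    exact (congrArg _ h1).trans h3
  rw [pow_succ']
  exact (congrArg _ h5).trans h4

theorem join_step (L : ℕ) (J : Set S.D) (hlive : ∀ d ∈ G, S.a d ≠ d)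
    (hK : ∀ d e, K.N d = some e → d ∈ G ∧ e ∈ G ∧ S.Cor G d e) (hL : ∀ d, S.len d ≤ L)
    (hch : ∀ d ∈ G, 2 * Set.ncard {e | Relation.EqvGen (fun x y => K.N x = some y) d e} ≤ L) (d : S.D) (hd : d ∉ J)
    (h : U L (S.cov G (res K (insert d J)))) : U L (S.cov G (res K J)) := by
  rcases hN : K.N d with _ | e
  · rw [res_none K J d hN] at h
    exact h
  have hG : ∀ d e, K.N d = some e → d ∈ G ∧ e ∈ G := fun d e h => ⟨(hK d e h).1, (hK d e h).2.1⟩
  obtain ⟨hdG, heG, hc⟩ := hK d e hN
  have hP0 : (res K J).P e = none := by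
    rcases h1 : (res K J).P e with _ | y
    · rfl
    · have h2 := res_P_some K h1
      rw [(K.h d e).1 hN] at h2
      obtain rfl := Option.some_injective _ h2
      have h3 := ((res K J).h d e).2 h1
      rw [res_N_not K hd] at h3
      exact absurd h3 (by simp)
  have hp : A S G (res K J) (Sum.inr (Sum.inr d)) ≠ Sum.inr (Sum.inr d) := by
    rw [a_pt S hdG]
    exact fun h' => Sum.inl_ne_inr (Sum.inr_injective h')
  have hq : A S G (res K J) (Sum.inl e) ≠ Sum.inl e := fun h' => hlive e heG (Sum.inl_injective h')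
  refine U.vtx (S.cov G (res K J)) (Sum.inr (Sum.inr d)) (Sum.inl e) hp hq Sum.inr_ne_inl
    (cov_vx S G K J hG d e hdG heG hP0 hc) (cov_len S G K L J hlive hG hL hch) ?_
  have hr : (S.cov G (res K (insert d J))).r =
      sw (Sum.inr (Sum.inr d) : S.D ⊕ (S.D ⊕ S.D)) (Sum.inl e) * R S G (res K J) := by
    ext x
    exact ta_insert K J d e hd hN _
  have he : (S.cov G (res K J)).setr (sw (Sum.inr (Sum.inr d) : S.D ⊕ (S.D ⊕ S.D)) (Sum.inl e) * R S G (res K J)) =
      S.cov G (res K (insert d J)) := by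
    rw [← hr]
    rfl
  have h5 := h
  rw [← he] at h5
  exact h5

end joins

end CovU

/-- doubling all letters of `G` and joining the digons at the corners given by `K` is a sequence of moves -/
theorem U_cov (L : ℕ) (S : Sf) (G : Set S.D) (K : Lk S.D) (hlive : ∀ d ∈ G, S.a d ≠ d)
    (hK : ∀ d e, K.N d = some e → d ∈ G ∧ e ∈ G ∧ S.Cor G d e) (hL : ∀ d, S.len d ≤ L)
    (hch : ∀ d ∈ G, 2 * Set.ncard {e | Relation.EqvGen (fun x y => K.N x = some y) d e} ≤ L)
    (h : U L (S.cov G K)) : U L S := by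
  apply CovU.dbl_all S L G hlive
  rw [← CovU.res_empty K]
  have key : ∀ J : Set S.D, U L (S.cov G (CovU.res K J)) → U L (S.cov G (CovU.res K ∅)) := by
    intro J
    induction J, Set.toFinite J using Set.Finite.induction_on with
    | empty => exact fun h => h
    | @insert d J hd _ ih => exact fun h => ih (CovU.join_step S G K L J hlive hK hL hch d hd h)
  apply key Set.univ
  rw [CovU.res_univ]
  exact h

end Pool.Agent.GW
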