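import Pool.Agent.GW.U

/-!
# Isomorphic states and disjoint unions (MP_37d33d_gt)

`U.iso`: the predicate `U` only depends on the isomorphism class of a state. `U.add`: the disjoint union of two states
with `U L` has `U L` (one of them is swept first, so the words of the other one must not be longer than `L`).
-/

set_option autoImplicit false

namespace Pool.Agent.GW

open Equiv Pool.Agent.SWP

section perm

variable {α β : Type} {s : Perm α} {t : Perm β} {j : α → β}

theorem zpow_map (h : ∀ d, t (j d) = j (s d)) (i : ℤ) (x : α) : (t ^ i) (j x) = j ((s ^ i) x) := by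
  have hinv : ∀ d, t⁻¹ (j d) = j (s⁻¹ d) := by
    intro d
    rw [Perm.inv_eq_iff_eq, h]
    simp
  have hn : ∀ (n : ℕ) (x : α), (t ^ n) (j x) = j ((s ^ n) x) := by
    intro n
    induction n with
    | zero => intro x; simp
    | succ n ih =>
      intro x
      rw [pow_succ, pow_succ, Perm.mul_apply, Perm.mul_apply, h, ih]
  have hm : ∀ (n : ℕ) (x : α), (t⁻¹ ^ n) (j x) = j ((s⁻¹ ^ n) x) := by
    intro n
    induction n with
    | zero => intro x; simp
    | succ n ih =>
      intro x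
      rw [pow_succ, pow_succ, Perm.mul_apply, Perm.mul_apply, hinv, ih]
  cases i with
  | ofNat n => simpa using hn n x
  | negSucc n =>
    rw [zpow_negSucc, zpow_negSucc, ← inv_pow, ← inv_pow]
    exact hm (n + 1) x

theorem same_map (h : ∀ d, t (j d) = j (s d)) (x : α) (e : β) :
    t.SameCycle (j x) e ↔ ∃ y, e = j y ∧ s.SameCycle x y := by
  constructor
  · rintro ⟨i, hi⟩
    rw [zpow_map h] at hi
    exact ⟨_, hi.symm, i, rfl⟩
  · rintro ⟨y, rfl, i, hi⟩
    exact ⟨i, by rw [zpow_map h, hi]⟩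

theorem same_map' (hj : Function.Injective j) (h : ∀ d, t (j d) = j (s d)) (x y : α) :
    t.SameCycle (j x) (j y) ↔ s.SameCycle x y := by
  rw [same_map h]
  constructor
  · rintro ⟨z, hz, h2⟩
    rw [hj hz]
    exact h2
  · intro h2
    exact ⟨y, rfl, h2⟩

theorem sw_map (hj : Function.Injective j) (x y d : α) : sw (j x) (j y) (j d) = j (sw x y d) := by
  by_cases h1 : d = x
  · rw [h1, sw_left, sw_left]
  by_cases h2 : d = y
  · rw [h2, sw_right, sw_right]
  rw [sw_of_ne h1 h2, sw_of_ne (fun h => h1 (hj h)) (fun h => h2 (hj h))]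

theorem sw_out {x y : α} {e : β} (h : ∀ d, j d ≠ e) : sw (j x) (j y) e = e :=
  sw_of_ne (fun h' => h x h'.symm) (fun h' => h y h'.symm)

end perm

/-- `j` embeds the state `S` as a union of words of `T` which is closed under the partner map. -/
structure Sub (S T : Sf) (j : S.D → T.D) : Prop where
  inj : Function.Injective j
  r : ∀ d, T.r (j d) = j (S.r d)
  a : ∀ d, T.a (j d) = j (S.a d)

theorem Iso.sub {S T : Sf} {φ : S.D ≃ T.D} (h : Iso S T φ) : Sub S T φ := ⟨φ.injective, h.r, h.a⟩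

theorem Iso.symm {S T : Sf} {φ : S.D ≃ T.D} (h : Iso S T φ) : Iso T S φ.symm where
  r := by
    intro d
    apply φ.injective
    rw [← h.r, φ.apply_symm_apply, φ.apply_symm_apply]
  a := by
    intro d
    apply φ.injective
    rw [← h.a, φ.apply_symm_apply, φ.apply_symm_apply]

theorem Iso.trans {S T R : Sf} {φ : S.D ≃ T.D} {χ : T.D ≃ R.D} (h : Iso S T φ) (h' : Iso T R χ) :
    Iso S R (φ.trans χ) where
  r := by
    intro d
    rw [Equiv.trans_apply, Equiv.trans_apply, h'.r, h.r]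
  a := by
    intro d
    rw [Equiv.trans_apply, Equiv.trans_apply, h'.a, h.a]

theorem Iso.rfl' (S : Sf) : Iso S S (Equiv.refl S.D) := ⟨fun _ => rfl, fun _ => rfl⟩

theorem Sub.live {S T : Sf} {j : S.D → T.D} (h : Sub S T j) (d : S.D) : T.a (j d) = j d ↔ S.a d = d := by
  rw [h.a]
  exact h.inj.eq_iff

theorem Sub.word {S T : Sf} {j : S.D → T.D} (h : Sub S T j) (d : S.D) : T.word (j d) = j '' S.word d := by
  ext e
  constructor
  · intro he
    obtain ⟨y, rfl, hy⟩ := (same_map h.r d e).mp he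
    exact ⟨y, hy, rfl⟩
  · rintro ⟨y, hy, rfl⟩
    exact (same_map h.r d _).mpr ⟨y, rfl, hy⟩

theorem Sub.num {S T : Sf} {j : S.D → T.D} (h : Sub S T j) (B : Set S.D) : T.num (j '' B) = S.num B := by
  unfold Sf.num
  have h1 : j '' B ∩ T.live = j '' (B ∩ S.live) := by
    ext e
    constructor
    · rintro ⟨⟨d, hd, rfl⟩, he⟩
      exact ⟨d, ⟨hd, fun h2 => he ((h.live d).mpr h2)⟩, rfl⟩
    · rintro ⟨d, ⟨hd, hl⟩, rfl⟩
      exact ⟨⟨d, hd, rfl⟩, fun h2 => hl ((h.live d).mp h2)⟩
  rw [h1, Set.ncard_image_of_injective _ h.inj]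

theorem Sub.len {S T : Sf} {j : S.D → T.D} (h : Sub S T j) (d : S.D) : T.len (j d) = S.len d := by
  unfold Sf.len
  rw [h.word, h.num]

theorem Sub.vx {S T : Sf} {j : S.D → T.D} (h : Sub S T j) (d e : S.D) : T.vx (j d) (j e) ↔ S.vx d e := by
  unfold Sf.vx
  refine same_map' h.inj ?_ d e
  intro d
  rw [Perm.mul_apply, Perm.mul_apply, h.a, h.r]

/-! ### Isomorphic states -/

theorem map_right {α β : Type} {φ : α ≃ β} {s : Perm α} {t : Perm β} (h : ∀ d, t (φ d) = φ (s d)) (b c : α)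
    (d : α) : (t * sw (φ b) (φ c)) (φ d) = φ ((s * sw b c) d) := by
  rw [Perm.mul_apply, Perm.mul_apply, sw_map φ.injective, h]

theorem Iso.glue {S T : Sf} {φ : S.D ≃ T.D} (h : Iso S T φ) (b : S.D) : Iso (S.glue b) (T.glue (φ b)) φ where
  r := by
    intro d
    have h1 := map_right h.r b (S.a b) d
    rw [← h.a] at h1
    exact h1
  a := by
    intro d
    have h1 := map_right h.a b (S.a b) d
    rw [← h.a] at h1
    exact h1

theorem Iso.setr {S T : Sf} {φ : S.D ≃ T.D} (h : Iso S T φ) {r : Perm S.D} {r' : Perm T.D}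
    (hr : ∀ d, r' (φ d) = φ (r d)) : Iso (S.setr r) (T.setr r') φ where
  r := hr
  a := h.a

theorem sumCongr_inj {α β γ : Type} {f : α → β} (hf : Function.Injective f) :
    Function.Injective (Sum.map f (id : γ → γ)) := Function.Injective.sumMap hf Function.injective_id

theorem map_dbl {α β : Type} {φ : α ≃ β} {s : Perm α} {t : Perm β} (h : ∀ d, t (φ d) = φ (s d)) (e : α)
    (d : α ⊕ Bool) :
    (sw (Sum.inl (φ e) : β ⊕ Bool) (Sum.inr false) * Equiv.sumCongr t (Equiv.refl Bool) *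
      sw (Sum.inr true : β ⊕ Bool) (Sum.inr false) * sw (Sum.inl (φ e) : β ⊕ Bool) (Sum.inr false))
      (Equiv.sumCongr φ (Equiv.refl Bool) d) =
    Equiv.sumCongr φ (Equiv.refl Bool) ((sw (Sum.inl e : α ⊕ Bool) (Sum.inr false) *
      Equiv.sumCongr s (Equiv.refl Bool) * sw (Sum.inr true : α ⊕ Bool) (Sum.inr false) *
      sw (Sum.inl e : α ⊕ Bool) (Sum.inr false)) d) := by
  have hj := (Equiv.sumCongr φ (Equiv.refl Bool)).injective
  have e1 : (Sum.inl (φ e) : β ⊕ Bool) = Equiv.sumCongr φ (Equiv.refl Bool) (Sum.inl e) := rfl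
  have e2 : ∀ x : Bool, (Sum.inr x : β ⊕ Bool) = Equiv.sumCongr φ (Equiv.refl Bool) (Sum.inr x) := fun _ => rfl
  have e3 : ∀ d : α ⊕ Bool, Equiv.sumCongr t (Equiv.refl Bool) (Equiv.sumCongr φ (Equiv.refl Bool) d) =
      Equiv.sumCongr φ (Equiv.refl Bool) (Equiv.sumCongr s (Equiv.refl Bool) d) := by
    intro d
    rcases d with d | d
    · exact congrArg Sum.inl (h d)
    · rfl
  simp only [Perm.mul_apply]
  rw [e1, e2 true, e2 false, sw_map hj, sw_map hj, e3, sw_map hj]

theorem map_sub {α β : Type} {φ : α ≃ β} {s : Perm α} {t : Perm β} (h : ∀ d, t (φ d) = φ (s d)) (e f : α)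
    (d : α ⊕ Bool) :
    (sw (Sum.inl (φ f) : β ⊕ Bool) (Sum.inr false) * Equiv.sumCongr t (Equiv.refl Bool) *
      sw (Sum.inl (φ e) : β ⊕ Bool) (Sum.inr true)) (Equiv.sumCongr φ (Equiv.refl Bool) d) =
    Equiv.sumCongr φ (Equiv.refl Bool) ((sw (Sum.inl f : α ⊕ Bool) (Sum.inr false) *
      Equiv.sumCongr s (Equiv.refl Bool) * sw (Sum.inl e : α ⊕ Bool) (Sum.inr true)) d) := by
  have hj := (Equiv.sumCongr φ (Equiv.refl Bool)).injective
  have e1 : ∀ e : α, (Sum.inl (φ e) : β ⊕ Bool) = Equiv.sumCongr φ (Equiv.refl Bool) (Sum.inl e) := fun _ => rfl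
  have e2 : ∀ x : Bool, (Sum.inr x : β ⊕ Bool) = Equiv.sumCongr φ (Equiv.refl Bool) (Sum.inr x) := fun _ => rfl
  have e3 : ∀ d : α ⊕ Bool, Equiv.sumCongr t (Equiv.refl Bool) (Equiv.sumCongr φ (Equiv.refl Bool) d) =
      Equiv.sumCongr φ (Equiv.refl Bool) (Equiv.sumCongr s (Equiv.refl Bool) d) := by
    intro d
    rcases d with d | d
    · exact congrArg Sum.inl (h d)
    · rfl
  simp only [Perm.mul_apply]
  rw [e1 e, e1 f, e2 true, e2 false, sw_map hj, e3, sw_map hj]

theorem Iso.dbl {S T : Sf} {φ : S.D ≃ T.D} (h : Iso S T φ) (e : S.D) :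
    Iso (S.dbl e) (T.dbl (φ e)) (Equiv.sumCongr φ (Equiv.refl Bool)) where
  r := fun d => map_dbl h.r e d
  a := by
    intro d
    rcases d with d | d
    · exact congrArg Sum.inl (h.a d)
    · rfl

theorem Iso.sub' {S T : Sf} {φ : S.D ≃ T.D} (h : Iso S T φ) (e : S.D) :
    Iso (S.sub e) (T.sub (φ e)) (Equiv.sumCongr φ (Equiv.refl Bool)) where
  r := by
    intro d
    have h1 := map_sub h.r e (S.a e) d
    rw [← h.a] at h1
    exact h1
  a := by
    intro d
    rcases d with d | d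
    · exact congrArg Sum.inl (h.a d)
    · rfl

theorem U.iso {L : ℕ} {S : Sf} (hU : U L S) : ∀ {T : Sf} {φ : S.D ≃ T.D}, Iso S T φ → U L T := by
  induction hU with
  | done S h0 =>
    intro T φ h
    refine U.done T (fun d => ?_)
    have := (h.sub.live (φ.symm d)).mpr (h0 _)
    rwa [φ.apply_symm_apply] at this
  | glue S b hb hl _ ih =>
    intro T φ h
    refine U.glue T (φ b) (fun h' => hb ((h.sub.live b).mp h')) (fun d => ?_) (ih (h.glue b))
    rw [← φ.apply_symm_apply d, h.sub.len]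
    exact hl _
  | dbl S e he _ ih =>
    intro T φ h
    exact U.dbl T (φ e) (fun h' => he ((h.sub.live e).mp h')) (ih (h.dbl e))
  | sub S e he _ ih =>
    intro T φ h
    exact U.sub T (φ e) (fun h' => he ((h.sub.live e).mp h')) (ih (h.sub' e))
  | vtx S p q hp hq hpq hv hl _ ih =>
    intro T φ h
    refine U.vtx T (φ p) (φ q) (fun h' => hp ((h.sub.live p).mp h')) (fun h' => hq ((h.sub.live q).mp h'))
      (fun h' => hpq (φ.injective h')) ((h.sub.vx p q).mpr hv) (fun d => ?_) (ih (h.setr ?_))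
    · rw [← φ.apply_symm_apply d, h.sub.len]
      exact hl _
    · intro d
      rw [Perm.mul_apply, Perm.mul_apply, h.r, sw_map φ.injective]
  | ghost S g hg _ ih =>
    intro T φ h
    refine U.ghost T (φ g) ((h.sub.live g).mpr hg) (ih (h.setr ?_))
    intro d
    rw [Perm.mul_apply, Perm.mul_apply, h.r, h.r, sw_map φ.injective]

/-! ### Disjoint unions -/

/-- disjoint union -/
def Sf.add (S T : Sf) : Sf where
  D := S.D ⊕ T.D
  fD := inferInstance
  r := Equiv.sumCongr S.r T.r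
  a := Equiv.sumCongr S.a T.a
  aa := by
    intro d
    rcases d with d | d
    · exact congrArg Sum.inl (S.aa d)
    · exact congrArg Sum.inr (T.aa d)

theorem add_inl (S T : Sf) : Sub S (S.add T) Sum.inl := ⟨Sum.inl_injective, fun _ => rfl, fun _ => rfl⟩

theorem add_inr (S T : Sf) : Sub T (S.add T) Sum.inr := ⟨Sum.inr_injective, fun _ => rfl, fun _ => rfl⟩

theorem add_comm' (S T : Sf) : Iso (S.add T) (T.add S) (Equiv.sumComm S.D T.D) where
  r := by rintro (d | d) <;> rfl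
  a := by rintro (d | d) <;> rfl

theorem add_len {S T : Sf} {L : ℕ} (hS : ∀ d, S.len d ≤ L) (hT : ∀ d, T.len d ≤ L) : ∀ d, (S.add T).len d ≤ L := by
  rintro (d | d)
  · rw [(add_inl S T).len]
    exact hS d
  · rw [(add_inr S T).len]
    exact hT d

theorem cross_right {α β : Type} (r : Perm α) (s : Perm β) (b c : β) (d : α ⊕ β) :
    (Equiv.sumCongr r s * sw (Sum.inr b : α ⊕ β) (Sum.inr c)) d = Equiv.sumCongr r (s * sw b c) d := by
  rcases d with d | d
  · have h1 : sw (Sum.inr b : α ⊕ β) (Sum.inr c) (Sum.inl d) = Sum.inl d := sw_of_ne (by simp) (by simp)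
    rw [Perm.mul_apply, h1]
    rfl
  · have h1 : sw (Sum.inr b : α ⊕ β) (Sum.inr c) (Sum.inr d) = Sum.inr (sw b c d) :=
      sw_map Sum.inr_injective _ _ _
    rw [Perm.mul_apply, h1]
    rfl

theorem cross_left {α β : Type} (r : Perm α) (s : Perm β) (b c : β) (d : α ⊕ β) :
    (sw (Sum.inr b : α ⊕ β) (Sum.inr c) * Equiv.sumCongr r s) d = Equiv.sumCongr r (sw b c * s) d := by
  rcases d with d | d
  · have h0 : Equiv.sumCongr r s (Sum.inl d) = Sum.inl (r d) := rfl
    have h1 : sw (Sum.inr b : α ⊕ β) (Sum.inr c) (Sum.inl (r d)) = Sum.inl (r d) :=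
      sw_of_ne (by simp) (by simp)
    rw [Perm.mul_apply, h0, h1]
    rfl
  · have h0 : Equiv.sumCongr r s (Sum.inr d) = Sum.inr (s d) := rfl
    have h1 : sw (Sum.inr b : α ⊕ β) (Sum.inr c) (Sum.inr (s d)) = Sum.inr (sw b c (s d)) :=
      sw_map Sum.inr_injective _ _ _
    rw [Perm.mul_apply, h0, h1]
    rfl

theorem add_glue (S T : Sf) (b : T.D) : Iso (S.add (T.glue b)) ((S.add T).glue (Sum.inr b)) (Equiv.refl _) where
  r := fun d => cross_right S.r T.r b (T.a b) d
  a := fun d => cross_right S.a T.a b (T.a b) d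

theorem add_setr (S T : Sf) (p q : T.D) :
    Iso (S.add (T.setr (sw p q * T.r)))
      ((S.add T).setr (sw (Sum.inr p : S.D ⊕ T.D) (Sum.inr q) * Equiv.sumCongr S.r T.r : Perm (S.D ⊕ T.D)))
      (Equiv.refl _) where
  r := fun d => cross_left S.r T.r p q d
  a := fun _ => rfl

/-- the letters of the new digon are put behind the union -/
def assocB (α β : Type) : (α ⊕ (β ⊕ Bool)) ≃ ((α ⊕ β) ⊕ Bool) := (Equiv.sumAssoc α β Bool).symm

theorem assocB_inj (α β : Type) : Function.Injective (fun x : β ⊕ Bool => assocB α β (Sum.inr x)) :=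
  (assocB α β).injective.comp Sum.inr_injective

theorem dbl_perm {α β : Type} (r : Perm α) (s : Perm β) (e : β) (d : α ⊕ (β ⊕ Bool)) :
    (sw (Sum.inl (Sum.inr e) : (α ⊕ β) ⊕ Bool) (Sum.inr false) *
      Equiv.sumCongr (Equiv.sumCongr r s) (Equiv.refl Bool) *
      sw (Sum.inr true : (α ⊕ β) ⊕ Bool) (Sum.inr false) *
      sw (Sum.inl (Sum.inr e) : (α ⊕ β) ⊕ Bool) (Sum.inr false)) (assocB α β d) =
    assocB α β (Equiv.sumCongr r (sw (Sum.inl e : β ⊕ Bool) (Sum.inr false) * Equiv.sumCongr s (Equiv.refl Bool) *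
      sw (Sum.inr true : β ⊕ Bool) (Sum.inr false) * sw (Sum.inl e : β ⊕ Bool) (Sum.inr false)) d) := by
  have hj := assocB_inj α β
  rcases d with d | d
  · have h0 : assocB α β (Sum.inl d) = Sum.inl (Sum.inl d) := rfl
    have h5 : assocB α β (Sum.inl (r d)) = Sum.inl (Sum.inl (r d)) := rfl
    have h1 : sw (Sum.inl (Sum.inr e) : (α ⊕ β) ⊕ Bool) (Sum.inr false) (Sum.inl (Sum.inl d)) =
      Sum.inl (Sum.inl d) := sw_of_ne (by simp) (by simp)
    have h2 : sw (Sum.inr true : (α ⊕ β) ⊕ Bool) (Sum.inr false) (Sum.inl (Sum.inl d)) =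
      Sum.inl (Sum.inl d) := sw_of_ne (by simp) (by simp)
    have h3 : sw (Sum.inl (Sum.inr e) : (α ⊕ β) ⊕ Bool) (Sum.inr false) (Sum.inl (Sum.inl (r d))) =
      Sum.inl (Sum.inl (r d)) := sw_of_ne (by simp) (by simp)
    have h4 : Equiv.sumCongr (Equiv.sumCongr r s) (Equiv.refl Bool) (Sum.inl (Sum.inl d)) =
      Sum.inl (Sum.inl (r d)) := rfl
    simp only [Perm.mul_apply]
    rw [h0, h1, h2, h4, h3]
    rfl
  · have e1 : (Sum.inl (Sum.inr e) : (α ⊕ β) ⊕ Bool) =
        (fun x : β ⊕ Bool => assocB α β (Sum.inr x)) (Sum.inl e) := rfl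
    have e2 : ∀ x : Bool, (Sum.inr x : (α ⊕ β) ⊕ Bool) =
        (fun x : β ⊕ Bool => assocB α β (Sum.inr x)) (Sum.inr x) := fun _ => rfl
    have e3 : ∀ d : β ⊕ Bool, Equiv.sumCongr (Equiv.sumCongr r s) (Equiv.refl Bool)
        ((fun x : β ⊕ Bool => assocB α β (Sum.inr x)) d) =
        (fun x : β ⊕ Bool => assocB α β (Sum.inr x)) (Equiv.sumCongr s (Equiv.refl Bool) d) := by
      rintro (d | d) <;> rfl
    have h0 : assocB α β (Sum.inr d) = (fun x : β ⊕ Bool => assocB α β (Sum.inr x)) d := rfl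
    have h9 : ∀ t : Perm (β ⊕ Bool), assocB α β (Equiv.sumCongr r t (Sum.inr d)) =
      (fun x : β ⊕ Bool => assocB α β (Sum.inr x)) (t d) := fun _ => rfl
    rw [h0, h9, e1, e2 true, e2 false]
    simp only [Perm.mul_apply]
    rw [sw_map hj, sw_map hj, e3, sw_map hj]

theorem sub_perm {α β : Type} (r : Perm α) (s : Perm β) (e f : β) (d : α ⊕ (β ⊕ Bool)) :
    (sw (Sum.inl (Sum.inr f) : (α ⊕ β) ⊕ Bool) (Sum.inr false) *
      Equiv.sumCongr (Equiv.sumCongr r s) (Equiv.refl Bool) *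
      sw (Sum.inl (Sum.inr e) : (α ⊕ β) ⊕ Bool) (Sum.inr true)) (assocB α β d) =
    assocB α β (Equiv.sumCongr r (sw (Sum.inl f : β ⊕ Bool) (Sum.inr false) * Equiv.sumCongr s (Equiv.refl Bool) *
      sw (Sum.inl e : β ⊕ Bool) (Sum.inr true)) d) := by
  have hj := assocB_inj α β
  rcases d with d | d
  · have h0 : assocB α β (Sum.inl d) = Sum.inl (Sum.inl d) := rfl
    have h1 : sw (Sum.inl (Sum.inr e) : (α ⊕ β) ⊕ Bool) (Sum.inr true) (Sum.inl (Sum.inl d)) =
      Sum.inl (Sum.inl d) := sw_of_ne (by simp) (by simp)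
    have h3 : sw (Sum.inl (Sum.inr f) : (α ⊕ β) ⊕ Bool) (Sum.inr false) (Sum.inl (Sum.inl (r d))) =
      Sum.inl (Sum.inl (r d)) := sw_of_ne (by simp) (by simp)
    have h4 : Equiv.sumCongr (Equiv.sumCongr r s) (Equiv.refl Bool) (Sum.inl (Sum.inl d)) =
      Sum.inl (Sum.inl (r d)) := rfl
    simp only [Perm.mul_apply]
    rw [h0, h1, h4, h3]
    rfl
  · have e1 : ∀ e : β, (Sum.inl (Sum.inr e) : (α ⊕ β) ⊕ Bool) =
        (fun x : β ⊕ Bool => assocB α β (Sum.inr x)) (Sum.inl e) := fun _ => rfl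
    have e2 : ∀ x : Bool, (Sum.inr x : (α ⊕ β) ⊕ Bool) =
        (fun x : β ⊕ Bool => assocB α β (Sum.inr x)) (Sum.inr x) := fun _ => rfl
    have e3 : ∀ d : β ⊕ Bool, Equiv.sumCongr (Equiv.sumCongr r s) (Equiv.refl Bool)
        ((fun x : β ⊕ Bool => assocB α β (Sum.inr x)) d) =
        (fun x : β ⊕ Bool => assocB α β (Sum.inr x)) (Equiv.sumCongr s (Equiv.refl Bool) d) := by
      rintro (d | d) <;> rfl
    have h0 : assocB α β (Sum.inr d) = (fun x : β ⊕ Bool => assocB α β (Sum.inr x)) d := rfl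
    have h9 : ∀ t : Perm (β ⊕ Bool), assocB α β (Equiv.sumCongr r t (Sum.inr d)) =
      (fun x : β ⊕ Bool => assocB α β (Sum.inr x)) (t d) := fun _ => rfl
    rw [h0, h9, e1 e, e1 f, e2 true, e2 false]
    simp only [Perm.mul_apply]
    rw [sw_map hj, e3, sw_map hj]

theorem add_dbl (S T : Sf) (e : T.D) :
    Iso (S.add (T.dbl e)) ((S.add T).dbl (Sum.inr e)) (assocB S.D T.D) where
  r := fun d => dbl_perm S.r T.r e d
  a := by
    rintro (d | (d | d)) <;> rfl

theorem add_sub (S T : Sf) (e : T.D) :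
    Iso (S.add (T.sub e)) ((S.add T).sub (Sum.inr e)) (assocB S.D T.D) where
  r := fun d => sub_perm S.r T.r e (T.a e) d
  a := by
    rintro (d | (d | d)) <;> rfl

/-- Sweep the second part of a disjoint union. -/
theorem add_right {L : ℕ} (R : Sf) (hR : ∀ d, R.len d ≤ L)
    (K : ∀ T' : Sf, (∀ d, T'.a d = d) → U L (R.add T')) {T : Sf} (hT : U L T) : U L (R.add T) := by
  induction hT with
  | done T h0 => exact K T h0
  | glue T b hb hl _ ih =>
    refine U.glue _ (Sum.inr b) (fun h => hb (((add_inr R T).live b).mp h)) (add_len hR hl)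
      (U.iso ih (add_glue R T b))
  | dbl T e he _ ih =>
    exact U.dbl _ (Sum.inr e) (fun h => he (((add_inr R T).live e).mp h)) (U.iso ih (add_dbl R T e))
  | sub T e he _ ih =>
    exact U.sub _ (Sum.inr e) (fun h => he (((add_inr R T).live e).mp h)) (U.iso ih (add_sub R T e))
  | vtx T p q hp hq hpq hv hl _ ih =>
    exact U.vtx _ (Sum.inr p) (Sum.inr q) (fun h => hp (((add_inr R T).live p).mp h))
      (fun h => hq (((add_inr R T).live q).mp h)) (fun h => hpq (Sum.inr_injective h))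
      (((add_inr R T).vx p q).mpr hv) (add_len hR hl) (U.iso ih (add_setr R T p q))
  | ghost T g hg _ ih =>
    exact U.ghost _ (Sum.inr g) (((add_inr R T).live g).mpr hg) (U.iso ih (add_setr R T g (T.r g)))

theorem len_dead {S : Sf} (h : ∀ d, S.a d = d) (d : S.D) : S.len d = 0 := by
  unfold Sf.len Sf.num
  have : S.live = ∅ := by
    ext e
    simp [Sf.live, h e]
  rw [this, Set.inter_empty, Set.ncard_empty]

/-- Disjoint unions: sweep `S` first, then `T`. -/
theorem U.add {L : ℕ} {S T : Sf} (hS : U L S) (hT : U L T) (hl : ∀ d, T.len d ≤ L) : U L (S.add T) := by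
  refine U.iso (add_right T hl ?_ hS) (add_comm' T S)
  intro S' h0
  refine U.iso (add_right S' (fun d => ?_) ?_ hT) (add_comm' S' T)
  · rw [len_dead h0]
    exact Nat.zero_le L
  · intro T' h1
    refine U.done _ ?_
    rintro (d | d)
    · exact congrArg Sum.inl (h0 d)
    · exact congrArg Sum.inr (h1 d)

/-- Splitting a state into two parts which are unions of words and closed under the partner map. -/
theorem U.split {L : ℕ} {R S T : Sf} (j : S.D → R.D) (k : T.D → R.D) (hj : Sub S R j) (hk : Sub T R k)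
    (hd : ∀ x y, j x ≠ k y) (hc : ∀ d, (∃ x, j x = d) ∨ ∃ y, k y = d) (hS : U L S) (hT : U L T)
    (hl : ∀ d, T.len d ≤ L) : U L R := by
  have hb : Function.Bijective (Sum.elim j k : S.D ⊕ T.D → R.D) := by
    constructor
    · rintro (x | x) (y | y) h
      · exact congrArg Sum.inl (hj.inj h)
      · exact absurd h (hd x y)
      · exact absurd h.symm (hd y x)
      · exact congrArg Sum.inr (hk.inj h)
    · intro d
      rcases hc d with ⟨x, hx⟩ | ⟨y, hy⟩
      · exact ⟨Sum.inl x, hx⟩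
      · exact ⟨Sum.inr y, hy⟩
  refine U.iso (U.add hS hT hl) (φ := Equiv.ofBijective _ hb) ⟨?_, ?_⟩
  · rintro (x | x)
    · exact hj.r x
    · exact hk.r x
  · rintro (x | x)
    · exact hj.a x
    · exact hk.a x

end Pool.Agent.GW
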