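import Pool.Agent.GW.UEmb
import Pool.Agent.GW.CovU
import Pool.Agent.GW.Union

/-!
# GW/Cap (helper61): the cap lemma (MP_37d33d_gt)

All letters of the walls `E` are doubled and the digons are joined along the hole cycles: the surface becomes the disjoint
union of the capped surface and the surface of the holes.
-/

set_option autoImplicit false

namespace Pool.Agent.GW

open Equiv Pool.Agent.SWP

section

variable {D : Type}

/-- the joins along the hole cycles: next letter -/
noncomputable def capN (E : Set D) (ρ : Perm D) (d : D) : Option D :=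
  @ite _ (d ∈ E) (Classical.propDecidable _) (some (ρ d)) none

/-- the joins along the hole cycles: previous letter -/
noncomputable def capP (E : Set D) (ρ : Perm D) (d : D) : Option D :=
  @ite _ (d ∈ E) (Classical.propDecidable _) (some (ρ⁻¹ d)) none

theorem capN_pos {E : Set D} {ρ : Perm D} {d : D} (h : d ∈ E) : capN E ρ d = some (ρ d) := by
  unfold capN; rw [if_pos h]

theorem capN_neg {E : Set D} {ρ : Perm D} {d : D} (h : d ∉ E) : capN E ρ d = none := by
  unfold capN; rw [if_neg h]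

theorem capP_pos {E : Set D} {ρ : Perm D} {d : D} (h : d ∈ E) : capP E ρ d = some (ρ⁻¹ d) := by
  unfold capP; rw [if_pos h]

theorem capP_neg {E : Set D} {ρ : Perm D} {d : D} (h : d ∉ E) : capP E ρ d = none := by
  unfold capP; rw [if_neg h]

theorem cap_inv_mem {E : Set D} {ρ : Perm D} (hoff : ∀ d, d ∉ E → ρ d = d) {d : D} (hd : d ∈ E) :
    ρ⁻¹ d ∈ E := by
  by_contra h
  have h1 := hoff _ h
  have h2 : ρ (ρ⁻¹ d) = d := by simp
  rw [← h1, h2] at h
  exact h hd

/-- the joins along the hole cycles -/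
noncomputable def capK (E : Set D) (ρ : Perm D) (hoff : ∀ d, d ∉ E → ρ d = d) (hmem : ∀ e ∈ E, ρ e ∈ E) : Lk D where
  N := capN E ρ
  P := capP E ρ
  h := by
    intro d e
    constructor
    · intro h
      by_cases hd : d ∈ E
      · rw [capN_pos hd] at h
        have h1 : ρ d = e := Option.some.inj h
        rw [← h1, capP_pos (hmem d hd)]
        simp
      · rw [capN_neg hd] at h
        exact absurd h (by simp)
    · intro h
      by_cases he : e ∈ E
      · rw [capP_pos he] at h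
        have h1 : ρ⁻¹ e = d := Option.some.inj h
        have h2 : d ∈ E := by rw [← h1]; exact cap_inv_mem hoff he
        rw [capN_pos h2, ← h1]
        simp
      · rw [capP_neg he] at h
        exact absurd h (by simp)

/-- renaming of the letters -/
def psi (D : Type) : (D ⊕ (D ⊕ D)) ≃ ((D ⊕ D) ⊕ D) where
  toFun
    | Sum.inl d => Sum.inl (Sum.inl d)
    | Sum.inr (Sum.inl d) => Sum.inr d
    | Sum.inr (Sum.inr d) => Sum.inl (Sum.inr d)
  invFun
    | Sum.inl (Sum.inl d) => Sum.inl d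
    | Sum.inr d => Sum.inr (Sum.inl d)
    | Sum.inl (Sum.inr d) => Sum.inr (Sum.inr d)
  left_inv := by rintro (d | d | d) <;> rfl
  right_inv := by rintro ((d | d) | d) <;> rfl

variable {E : Set D}

theorem th_inl_pos {d : D} (h : d ∈ E) : th E (Sum.inl d) = Sum.inr (Sum.inl d) := by simp [th, h]

theorem th_inl_neg {d : D} (h : d ∉ E) : th E (Sum.inl d) = Sum.inl d := by simp [th, h]

theorem th_cp_pos {d : D} (h : d ∈ E) : th E (Sum.inr (Sum.inl d)) = Sum.inl d := by simp [th, h]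

theorem th_cp_neg {d : D} (h : d ∉ E) : th E (Sum.inr (Sum.inl d)) = Sum.inr (Sum.inl d) := by simp [th, h]

theorem th_pt (d : D) : th E (Sum.inr (Sum.inr d)) = Sum.inr (Sum.inr d) := rfl

theorem de_inl_pos {d : D} (h : d ∈ E) : de E (Sum.inl d) = Sum.inr (Sum.inr d) := by simp [de, h]

theorem de_inl_neg {d : D} (h : d ∉ E) : de E (Sum.inl d) = Sum.inl d := by simp [de, h]

theorem de_cp (d : D) : de E (Sum.inr (Sum.inl d)) = Sum.inr (Sum.inl d) := rfl

theorem de_pt_pos {d : D} (h : d ∈ E) : de E (Sum.inr (Sum.inr d)) = Sum.inl d := by simp [de, h]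

theorem de_pt_neg {d : D} (h : d ∉ E) : de E (Sum.inr (Sum.inr d)) = Sum.inr (Sum.inr d) := by simp [de, h]

theorem cap_r (s : Perm D) (ρ : Perm D) (hoff : ∀ d, d ∉ E → ρ d = d) (hmem : ∀ e ∈ E, ρ e ∈ E) (y : D ⊕ (D ⊕ D)) :
    (Equiv.sumCongr (Equiv.sumCongr s ρ⁻¹) ρ) (psi D y) =
      psi D (th E (ta (capK E ρ hoff hmem) (de E (th E (Equiv.sumCongr s (Equiv.refl (D ⊕ D)) y))))) := by
  have hinv : ∀ d, d ∉ E → ρ⁻¹ d = d := by
    intro d hd
    rw [Perm.inv_eq_iff_eq]
    exact (hoff d hd).symm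
  rcases y with d | d | d
  · have h0 : Equiv.sumCongr s (Equiv.refl (D ⊕ D)) (Sum.inl d) = Sum.inl (s d) := rfl
    rw [h0]
    by_cases h : s d ∈ E
    · have h1 : ta (capK E ρ hoff hmem) (Sum.inr (Sum.inl (s d))) = Sum.inr (Sum.inl (s d)) := rfl
      rw [th_inl_pos h, de_cp, h1, th_cp_pos h]
      rfl
    · have h1 : ta (capK E ρ hoff hmem) (Sum.inl (s d)) = Sum.inl (s d) := by
        have h2 : (capK E ρ hoff hmem).P (s d) = none := capP_neg h
        simp [ta, h2]
      rw [th_inl_neg h, de_inl_neg h, h1, th_inl_neg h]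
      rfl
  · have h0 : Equiv.sumCongr s (Equiv.refl (D ⊕ D)) (Sum.inr (Sum.inl d)) = Sum.inr (Sum.inl d) := rfl
    rw [h0]
    by_cases h : d ∈ E
    · have h1 : ta (capK E ρ hoff hmem) (Sum.inr (Sum.inr d)) = Sum.inl (ρ d) := by
        have h2 : (capK E ρ hoff hmem).N d = some (ρ d) := capN_pos h
        simp [ta, h2]
      rw [th_cp_pos h, de_inl_pos h, h1, th_inl_pos (hmem d h)]
      rfl
    · have h1 : ta (capK E ρ hoff hmem) (Sum.inr (Sum.inl d)) = Sum.inr (Sum.inl d) := rfl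
      rw [th_cp_neg h, de_cp, h1, th_cp_neg h]
      exact congrArg Sum.inr (hoff d h)
  · have h0 : Equiv.sumCongr s (Equiv.refl (D ⊕ D)) (Sum.inr (Sum.inr d)) = Sum.inr (Sum.inr d) := rfl
    rw [h0, th_pt]
    by_cases h : d ∈ E
    · have h1 : ta (capK E ρ hoff hmem) (Sum.inl d) = Sum.inr (Sum.inr (ρ⁻¹ d)) := by
        have h2 : (capK E ρ hoff hmem).P d = some (ρ⁻¹ d) := capP_pos h
        simp [ta, h2]
      rw [de_pt_pos h, h1, th_pt]
      rfl
    · have h1 : ta (capK E ρ hoff hmem) (Sum.inr (Sum.inr d)) = Sum.inr (Sum.inr d) := by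
        have h2 : (capK E ρ hoff hmem).N d = none := capN_neg h
        simp [ta, h2]
      rw [de_pt_neg h, h1, th_pt]
      exact congrArg (fun x => Sum.inl (Sum.inr x)) (hinv d h)

theorem cap_a (a h' : Perm D) (hE : ∀ d, d ∈ E → a d ∈ E) (ha : ∀ d, a (a d) = d)
    (h1 : ∀ d ∈ E, h' d = a d) (h2 : ∀ d, d ∉ E → h' d = d) (x : D ⊕ (D ⊕ D)) :
    Sum.map (hatFun E a) h' (psi D (th E x)) = psi D (th E (ac E a x)) := by
  rcases x with d | d | d
  · have h0 : ac E a (Sum.inl d) = Sum.inl (a d) := rfl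
    by_cases h : d ∈ E
    · rw [h0, th_inl_pos h, th_inl_pos (hE d h)]
      exact congrArg Sum.inr (h1 d h)
    · have h3 : a d ∉ E := fun h3 => h (by rw [← ha d]; exact hE _ h3)
      rw [h0, th_inl_neg h, th_inl_neg h3]
      have h4 : hatFun E a (Sum.inl d) = Sum.inl (a d) := by simp [hatFun, h]
      exact congrArg Sum.inl h4
  · by_cases h : d ∈ E
    · have h0 : ac E a (Sum.inr (Sum.inl d)) = Sum.inr (Sum.inr d) := by simp [ac, h]
      rw [h0, th_cp_pos h, th_pt]
      have h4 : hatFun E a (Sum.inl d) = Sum.inr d := by simp [hatFun, h]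
      exact congrArg Sum.inl h4
    · have h0 : ac E a (Sum.inr (Sum.inl d)) = Sum.inr (Sum.inl d) := by simp [ac, h]
      rw [h0, th_cp_neg h]
      exact congrArg Sum.inr (h2 d h)
  · by_cases h : d ∈ E
    · have h0 : ac E a (Sum.inr (Sum.inr d)) = Sum.inr (Sum.inl d) := by simp [ac, h]
      rw [h0, th_cp_pos h, th_pt]
      have h4 : hatFun E a (Sum.inr d) = Sum.inl d := by simp [hatFun, h]
      exact congrArg Sum.inl h4
    · have h0 : ac E a (Sum.inr (Sum.inr d)) = Sum.inr (Sum.inr d) := by simp [ac, h]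
      rw [h0, th_pt]
      have h4 : hatFun E a (Sum.inr d) = Sum.inr d := by simp [hatFun, h]
      exact congrArg Sum.inl h4

end

theorem holes_a_pos (S : Sf) (E : Set S.D) (ρ : Perm S.D) {d : S.D} (h : d ∈ E) : (S.holes E ρ).a d = S.a d := by
  have h1 : S.beta Eᶜ d = d := S.beta_notMem (fun h' => h' h)
  exact congrArg S.a h1

theorem holes_a_neg (S : Sf) (E : Set S.D) (hE : S.Cl E) (ρ : Perm S.D) {d : S.D} (h : d ∉ E) :
    (S.holes E ρ).a d = d := by
  have h3 : S.a d ∉ E := fun h3 => h (by rw [← S.aa d]; exact hE _ h3)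
  have h1 : S.beta Eᶜ d = S.a d := S.betaFun_pos ⟨h, h3⟩
  have h2 : (S.holes E ρ).a d = S.a (S.a d) := congrArg S.a h1
  rw [h2, S.aa]

theorem holes_class (S : Sf) (E : Set S.D) (ρ : Perm S.D) (hlive : ∀ d ∈ E, S.a d ≠ d) (hoff : ∀ d, d ∉ E → ρ d = d)
    (hmem : ∀ e ∈ E, ρ e ∈ E) (d : S.D) (hd : d ∈ E) :
    Set.ncard {e | Relation.EqvGen (fun x y => (capK E ρ hoff hmem).N x = some y) d e} ≤ (S.holes E ρ).len d := by
  have key : ∀ x y, Relation.EqvGen (fun x y => (capK E ρ hoff hmem).N x = some y) x y →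
      ρ.SameCycle x y ∧ (x ∈ E ↔ y ∈ E) := by
    intro x y h
    induction h with
    | rel x y h =>
      have hx : x ∈ E := by
        by_contra hx
        have h1 : (capK E ρ hoff hmem).N x = none := capN_neg hx
        rw [h1] at h
        exact absurd h (by simp)
      have h1 : (capK E ρ hoff hmem).N x = some (ρ x) := capN_pos hx
      rw [h1] at h
      have h2 : ρ x = y := Option.some.inj h
      rw [← h2]
      exact ⟨⟨1, by simp⟩, ⟨fun _ => hmem x hx, fun _ => hx⟩⟩
    | refl x => exact ⟨Perm.SameCycle.refl _ _, Iff.rfl⟩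
    | symm x y _ ih => exact ⟨ih.1.symm, ih.2.symm⟩
    | trans x y z _ _ ih1 ih2 => exact ⟨ih1.1.trans ih2.1, ih1.2.trans ih2.2⟩
  unfold Sf.len Sf.num
  refine Set.ncard_le_ncard ?_ (Set.toFinite _)
  intro e he
  have h1 := key d e he
  have h2 : e ∈ E := h1.2.mp hd
  refine ⟨h1.1, ?_⟩
  have h3 : (S.holes E ρ).a e = S.a e := holes_a_pos S E ρ h2
  intro h4
  rw [h3] at h4
  exact hlive e h2 h4

/-- the cover along all hole cycles is the capped surface and the surface of the holes -/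
theorem cap_iso (S : Sf) (E : Set S.D) (hE : S.Cl E) (ρ : Perm S.D) (hoff : ∀ d, d ∉ E → ρ d = d)
    (hmem : ∀ e ∈ E, ρ e ∈ E) :
    Iso (S.cov E (capK E ρ hoff hmem)) ((S.capped E hE ρ).add (S.holes E ρ))
      ((th_inv E).toPerm.trans (psi S.D)) where
  r := by
    intro x
    have h1 := cap_r S.r ρ hoff hmem (th E x)
    exact h1
  a := by
    intro x
    have h1 := cap_a S.a (S.holes E ρ).a hE S.aa (fun d hd => holes_a_pos S E ρ hd)
      (fun d hd => holes_a_neg S E hE ρ hd) x
    have h2 : ∀ z : (S.D ⊕ S.D) ⊕ S.D, ((S.capped E hE ρ).add (S.holes E ρ)).a z =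
        Sum.map (hatFun E S.a) (S.holes E ρ).a z := by
      rintro (z | z) <;> rfl
    exact (h2 _).trans h1

/-- **cap lemma**: a surface can be swept if the capped surface and the surface of the holes can be swept -/
theorem U_cap (L : ℕ) (S : Sf) (E : Set S.D) (hE : S.Cl E) (hlive : ∀ d ∈ E, S.a d ≠ d) (ρ : Perm S.D)
    (hρ : S.FR E ρ) (hL : ∀ d, S.len d ≤ L) (hb : ∀ d, 2 * (S.holes E ρ).len d ≤ L)
    (h1 : U L (S.capped E hE ρ)) (h2 : U L (S.holes E ρ)) : U L S := by
  refine U_cov L S E (capK E ρ hρ.off hρ.mem) hlive ?_ hL ?_ ?_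
  · intro d e h
    by_cases hd : d ∈ E
    · have h3 : (capK E ρ hρ.off hρ.mem).N d = some (ρ d) := capN_pos hd
      rw [h3] at h
      have h4 : ρ d = e := Option.some.inj h
      rw [← h4]
      exact ⟨hd, hρ.mem d hd, hρ.cor d hd⟩
    · have h3 : (capK E ρ hρ.off hρ.mem).N d = none := capN_neg hd
      rw [h3] at h
      exact absurd h (by simp)
  · intro d hd
    exact le_trans (Nat.mul_le_mul_left 2 (holes_class S E ρ hlive hρ.off hρ.mem d hd)) (hb d)
  · have hl : ∀ d, (S.holes E ρ).len d ≤ L := fun d => le_trans (Nat.le_mul_of_pos_left _ (by norm_num)) (hb d)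
    exact U.iso (U.add h1 h2 hl) (cap_iso S E hE ρ hρ.off hρ.mem).symm

end Pool.Agent.GW
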