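import Pool.Agent.GW.CovDef

/-!
# GW/CapCond (helper8; statement of helper76): counting boundaries in the capped state with rungs
-/

set_option autoImplicit false

namespace Pool.Agent.GW

open Equiv Pool.Agent.SWP

theorem hatFun_inl_pos {D : Type} (E : Set D) (a : Perm D) {z : D} (h : z ∈ E) :
    hatFun E a (Sum.inl z) = Sum.inr z := by
  unfold hatFun
  simp only
  rw [if_pos h]

theorem hatFun_inl_neg {D : Type} (E : Set D) (a : Perm D) {z : D} (h : z ∉ E) :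
    hatFun E a (Sum.inl z) = Sum.inl (a z) := by
  unfold hatFun
  simp only
  rw [if_neg h]

theorem hatFun_inr_pos {D : Type} (E : Set D) (a : Perm D) {z : D} (h : z ∈ E) :
    hatFun E a (Sum.inr z) = Sum.inl z := by
  unfold hatFun
  simp only
  rw [if_pos h]

theorem hatFun_inr_neg {D : Type} (E : Set D) (a : Perm D) {z : D} (h : z ∉ E) :
    hatFun E a (Sum.inr z) = Sum.inr z := by
  unfold hatFun
  simp only
  rw [if_neg h]

/-- the place of the old letter `d` in the capped state after the rungs -/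
noncomputable def Rg.io {S : Sf} {E : Set S.D} {ρ : Perm S.D} (R : Rg S E ρ) (d : S.D) :
    (S.D ⊕ (S.D ⊕ S.D)) ⊕ (S.D ⊕ (S.D ⊕ S.D)) :=
  Sum.inl (@ite _ (d ∈ R.G) (Classical.propDecidable _) (Sum.inr (Sum.inl d)) (Sum.inl d))

section

variable {S : Sf} {E : Set S.D} {ρ : Perm S.D} (R : Rg S E ρ)

theorem Rg.io_pos {d : S.D} (h : d ∈ R.G) : R.io d = Sum.inl (Sum.inr (Sum.inl d)) := by
  unfold Rg.io; rw [if_pos h]

theorem Rg.io_neg {d : S.D} (h : d ∉ R.G) : R.io d = Sum.inl (Sum.inl d) := by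
  unfold Rg.io; rw [if_neg h]

theorem cov_r_apply (S : Sf) (G : Set S.D) (K : Lk S.D) (z : S.D ⊕ (S.D ⊕ S.D)) :
    (S.cov G K).r z = ta K (de G (th G (Equiv.sumCongr S.r (Equiv.refl _) (th G z)))) := rfl

theorem Rg.P_none8 {d : S.D} (h : d ∉ R.G) : R.K.P d = none := by
  rcases hp : R.K.P d with _ | e
  · rfl
  · exact absurd (R.NG e d ((R.K.h e d).2 hp)).2.1 h

theorem Rg.N_none {d : S.D} (h : d ∉ R.G) : R.K.N d = none := by
  rcases hp : R.K.N d with _ | e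
  · rfl
  · exact absurd (R.NG d e hp).1 h

/-- the place of `r d` follows the place of `d` -/
theorem Rg.r_io (d : S.D) : (S.cov R.G R.K).r (th R.G (Sum.inl d)) = th R.G (Sum.inl (S.r d)) := by
  rw [cov_r_apply, th_inv R.G]
  simp only [Equiv.sumCongr_apply, Sum.map_inl]
  by_cases h : S.r d ∈ R.G
  · simp [th, de, ta, h]
  · simp [th, de, ta, h, R.P_none8 h]

theorem Rg.r_inl {d e : S.D} (h : R.K.N d = some e) : (S.cov R.G R.K).r (Sum.inl d) = Sum.inl e := by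
  have hd := (R.NG d e h).1
  rw [cov_r_apply]
  simp [th, de, ta, hd, h]

theorem Rg.r_pt {d e : S.D} (h : R.K.N d = some e) :
    (S.cov R.G R.K).r (Sum.inr (Sum.inr e)) = Sum.inr (Sum.inr d) := by
  have he := (R.NG d e h).2.1
  rw [cov_r_apply]
  simp [th, de, ta, he, (R.K.h d e).1 h]

theorem Rg.r_ptf {d : S.D} (hd : d ∈ R.G) (h : R.K.P d = none) :
    (S.cov R.G R.K).r (Sum.inr (Sum.inr d)) = Sum.inl d := by
  rw [cov_r_apply]
  simp [th, de, ta, hd, h]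

end

section

variable {S : Sf} {E : Set S.D} {ρ : Perm S.D} (R : Rg S E ρ)
  (hE' : (S.cov R.G R.K).Cl R.E') (ρ' : Perm (S.D ⊕ (S.D ⊕ S.D)))

theorem capped_r_inl (z : S.D ⊕ (S.D ⊕ S.D)) :
    ((S.cov R.G R.K).capped R.E' hE' ρ').r (Sum.inl z) = Sum.inl ((S.cov R.G R.K).r z) := rfl

theorem capped_a_inl_pos {z : S.D ⊕ (S.D ⊕ S.D)} (h : z ∈ R.E') :
    ((S.cov R.G R.K).capped R.E' hE' ρ').a (Sum.inl z) = Sum.inr z :=
  hatFun_inl_pos R.E' (S.cov R.G R.K).a h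

theorem capped_a_inl_neg {z : S.D ⊕ (S.D ⊕ S.D)} (h : z ∉ R.E') :
    ((S.cov R.G R.K).capped R.E' hE' ρ').a (Sum.inl z) = Sum.inl ((S.cov R.G R.K).a z) :=
  hatFun_inl_neg R.E' (S.cov R.G R.K).a h

theorem capped_a_inr_pos {z : S.D ⊕ (S.D ⊕ S.D)} (h : z ∈ R.E') :
    ((S.cov R.G R.K).capped R.E' hE' ρ').a (Sum.inr z) = Sum.inl z :=
  hatFun_inr_pos R.E' (S.cov R.G R.K).a h

theorem capped_a_inr_neg {z : S.D ⊕ (S.D ⊕ S.D)} (h : z ∉ R.E') :
    ((S.cov R.G R.K).capped R.E' hE' ρ').a (Sum.inr z) = Sum.inr z :=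
  hatFun_inr_neg R.E' (S.cov R.G R.K).a h

theorem cov_a_inl (d : S.D) : (S.cov R.G R.K).a (Sum.inl d) = Sum.inl (S.a d) := rfl

theorem cov_a_cp8 {d : S.D} (h : d ∉ R.G) : (S.cov R.G R.K).a (Sum.inr (Sum.inl d)) = Sum.inr (Sum.inl d) := by
  change ac R.G S.a (Sum.inr (Sum.inl d)) = _
  unfold ac
  simp only
  rw [if_neg h]

theorem cov_a_pt8 {d : S.D} (h : d ∉ R.G) : (S.cov R.G R.K).a (Sum.inr (Sum.inr d)) = Sum.inr (Sum.inr d) := by
  change ac R.G S.a (Sum.inr (Sum.inr d)) = _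
  unfold ac
  simp only
  rw [if_neg h]

/-- a rung lies in `X` with both of its sides -/
theorem rung_both (X : Set ((S.cov R.G R.K).capped R.E' hE' ρ').D)
    (hX : ((S.cov R.G R.K).capped R.E' hE' ρ').Inv X) {d : S.D} (hd : d ∈ R.G) :
    ((Sum.inl (Sum.inl d) : (S.D ⊕ (S.D ⊕ S.D)) ⊕ (S.D ⊕ (S.D ⊕ S.D))) ∈ X ↔
      (Sum.inl (Sum.inr (Sum.inr d)) : (S.D ⊕ (S.D ⊕ S.D)) ⊕ (S.D ⊕ (S.D ⊕ S.D))) ∈ X) := by
  obtain ⟨i, hi⟩ := R.reach d hd
  induction hi with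
  | refl =>
    have h1 : R.K.P (R.f i) = none := (R.Pf _ (R.fG i)).2 ⟨i, rfl⟩
    have h2 := hX (Sum.inl (Sum.inr (Sum.inr (R.f i))))
    rw [capped_r_inl, R.r_ptf (R.fG i) h1] at h2
    exact h2
  | tail _ h ih =>
    rename_i b c _
    have hb := (R.NG b c h).1
    have h1 := hX (Sum.inl (Sum.inl b))
    rw [capped_r_inl, R.r_inl h] at h1
    have h2 := hX (Sum.inl (Sum.inr (Sum.inr c)))
    rw [capped_r_inl, R.r_pt h] at h2
    exact h1.trans ((ih hb).trans h2)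

end

/-- six copies of the letters -/
abbrev Six (D : Type) : Type := (D ⊕ (D ⊕ D)) ⊕ (D ⊕ (D ⊕ D))

/-- the counting, in plain types -/
theorem cap_count {D : Type} [Finite D] (G E : Set D) (a : D → D) (ha : Function.Injective a) (X B : Set (Six D))
    (io : D → Six D) (iop : ∀ d ∈ G, io d = Sum.inl (Sum.inr (Sum.inl d)))
    (ion : ∀ d, d ∉ G → io d = Sum.inl (Sum.inl d))
    (bcp : ∀ d ∈ G, (Sum.inl (Sum.inr (Sum.inl d)) : Six D) ∈ X → (Sum.inr (Sum.inr (Sum.inl d)) : Six D) ∉ X →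
      (Sum.inl (Sum.inr (Sum.inl d)) : Six D) ∈ B)
    (bpt : ∀ d ∈ G, (Sum.inl (Sum.inr (Sum.inr d)) : Six D) ∈ X → (Sum.inr (Sum.inr (Sum.inr d)) : Six D) ∉ X →
      (Sum.inl (Sum.inr (Sum.inr d)) : Six D) ∈ B)
    (bol : ∀ d, d ∉ E → (Sum.inl (Sum.inl d) : Six D) ∈ X → (Sum.inl (Sum.inl (a d)) : Six D) ∉ X →
      (Sum.inl (Sum.inl d) : Six D) ∈ B)
    (bha : ∀ d ∈ E, (Sum.inr (Sum.inl d) : Six D) ∈ X → (Sum.inl (Sum.inl d) : Six D) ∉ X →
      (Sum.inr (Sum.inl d) : Six D) ∈ B)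
    (rg : ∀ d ∈ G, (Sum.inl (Sum.inl d) : Six D) ∈ X → (Sum.inl (Sum.inr (Sum.inr d)) : Six D) ∈ X)
    (d1 : ∀ d, d ∉ G → (Sum.inl (Sum.inr (Sum.inl d)) : Six D) ∉ X)
    (d2 : ∀ d, d ∉ G → (Sum.inl (Sum.inr (Sum.inr d)) : Six D) ∉ X)
    (d3 : ∀ d, d ∉ G → (Sum.inr (Sum.inr (Sum.inl d)) : Six D) ∉ X)
    (d4 : ∀ d, d ∉ G → (Sum.inr (Sum.inr (Sum.inr d)) : Six D) ∉ X)
    (d5 : ∀ d, d ∉ E → (Sum.inr (Sum.inl d) : Six D) ∉ X) :
    Set.ncard {d | io d ∈ X ∧ d ∉ E ∧ io (a d) ∉ X} ≤ Set.ncard B +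
      Set.ncard {e | e ∈ X ∧ ∃ d ∈ G, e = Sum.inr (Sum.inr (Sum.inl d)) ∨ e = Sum.inr (Sum.inr (Sum.inr d))} ∧
    Set.ncard {e | e ∈ X ∧ ∃ d ∈ E, e = Sum.inr (Sum.inl d)} ≤
      2 * Set.ncard B + Set.ncard {d | io d ∈ X ∧ d ∈ E} +
      Set.ncard {e | e ∈ X ∧ ∃ d ∈ G, e = Sum.inr (Sum.inr (Sum.inl d)) ∨ e = Sum.inr (Sum.inr (Sum.inr d))} ∧
    Set.ncard X ≤ Set.ncard {d | io d ∈ X} + 2 * Set.ncard B +
      3 * Set.ncard {e | e ∈ X ∧ ∃ d ∈ G, e = Sum.inr (Sum.inr (Sum.inl d)) ∨ e = Sum.inr (Sum.inr (Sum.inr d))} +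
      Set.ncard {e | e ∈ X ∧ ∃ d ∈ E, e = Sum.inr (Sum.inl d)} := by
  classical
  set qX : Set (Six D) := {e | e ∈ X ∧ ∃ d ∈ G, e = Sum.inr (Sum.inr (Sum.inl d)) ∨ e = Sum.inr (Sum.inr (Sum.inr d))}
    with hqX
  set oX : Set (Six D) := {e | e ∈ X ∧ ∃ d ∈ E, e = Sum.inr (Sum.inl d)} with hoX
  have hpt : ∀ d ∈ G, (Sum.inl (Sum.inr (Sum.inr d)) : Six D) ∈ X →
      (Sum.inl (Sum.inr (Sum.inr d)) : Six D) ∈ B ∨ (Sum.inr (Sum.inr (Sum.inr d)) : Six D) ∈ qX := by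
    intro d hd hx
    by_cases h : (Sum.inr (Sum.inr (Sum.inr d)) : Six D) ∈ X
    · exact Or.inr ⟨h, d, hd, Or.inr rfl⟩
    · exact Or.inl (bpt d hd hx h)
  have hcp : ∀ d ∈ G, (Sum.inl (Sum.inr (Sum.inl d)) : Six D) ∈ X →
      (Sum.inl (Sum.inr (Sum.inl d)) : Six D) ∈ B ∨ (Sum.inr (Sum.inr (Sum.inl d)) : Six D) ∈ qX := by
    intro d hd hx
    by_cases h : (Sum.inr (Sum.inr (Sum.inl d)) : Six D) ∈ X
    · exact Or.inr ⟨h, d, hd, Or.inl rfl⟩
    · exact Or.inl (bcp d hd hx h)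
  have n1 : Set.ncard {d : D | (Sum.inl (Sum.inr (Sum.inr d)) : Six D) ∈ B} ≤ Set.ncard B :=
    Set.ncard_le_ncard_of_injOn (fun d => (Sum.inl (Sum.inr (Sum.inr d)) : Six D)) (fun d hd => hd)
      (fun d _ e _ h => by simpa using h) (Set.toFinite _)
  have n2 : Set.ncard {d : D | (Sum.inr (Sum.inr (Sum.inr d)) : Six D) ∈ qX} ≤ Set.ncard qX :=
    Set.ncard_le_ncard_of_injOn (fun d => (Sum.inr (Sum.inr (Sum.inr d)) : Six D)) (fun d hd => hd)
      (fun d _ e _ h => by simpa using h) (Set.toFinite _)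
  refine ⟨?_, ?_, ?_⟩
  · set φB : D → Six D := fun d =>
      if d ∈ G then Sum.inl (Sum.inr (Sum.inl d))
      else if (Sum.inl (Sum.inl (a d)) : Six D) ∈ X then Sum.inl (Sum.inr (Sum.inr (a d)))
      else Sum.inl (Sum.inl d) with hφB
    set φQ : D → Six D := fun d =>
      if d ∈ G then Sum.inr (Sum.inr (Sum.inl d)) else Sum.inr (Sum.inr (Sum.inr (a d))) with hφQ
    have hBinj : Function.Injective φB := by
      intro d e h
      simp only [hφB] at h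
      split_ifs at h <;> simp_all [ha.eq_iff]
    have hQinj : Function.Injective φQ := by
      intro d e h
      simp only [hφQ] at h
      split_ifs at h <;> simp_all [ha.eq_iff]
    have hcov : {d | io d ∈ X ∧ d ∉ E ∧ io (a d) ∉ X} ⊆ {d | φB d ∈ B} ∪ {d | φQ d ∈ qX} := by
      rintro d ⟨hd1, hd2, hd3⟩
      by_cases hG : d ∈ G
      · rw [iop d hG] at hd1
        rcases hcp d hG hd1 with h | h
        · left; change φB d ∈ B; simp only [hφB, if_pos hG]; exact h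
        · right; change φQ d ∈ qX; simp only [hφQ, if_pos hG]; exact h
      · rw [ion d hG] at hd1
        by_cases hx : (Sum.inl (Sum.inl (a d)) : Six D) ∈ X
        · have haG : a d ∈ G := by
            by_contra hn
            rw [ion _ hn] at hd3
            exact hd3 hx
          rcases hpt _ haG (rg _ haG hx) with h | h
          · left; change φB d ∈ B; simp only [hφB, if_neg hG, if_pos hx]; exact h
          · right; change φQ d ∈ qX; simp only [hφQ, if_neg hG]; exact h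
        · left
          change φB d ∈ B
          simp only [hφB, if_neg hG, if_neg hx]
          exact bol d hd2 hd1 hx
    have h1 : Set.ncard {d | φB d ∈ B} ≤ Set.ncard B :=
      Set.ncard_le_ncard_of_injOn φB (fun d hd => hd) (hBinj.injOn) (Set.toFinite _)
    have h2 : Set.ncard {d | φQ d ∈ qX} ≤ Set.ncard qX :=
      Set.ncard_le_ncard_of_injOn φQ (fun d hd => hd) (hQinj.injOn) (Set.toFinite _)
    exact (Set.ncard_le_ncard hcov (Set.toFinite _)).trans ((Set.ncard_union_le _ _).trans (Nat.add_le_add h1 h2))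
  · have hcov : oX ⊆ B ∪ (fun d : D => (Sum.inr (Sum.inl d) : Six D)) ''
        ({d | io d ∈ X ∧ d ∈ E} ∪ ({d | (Sum.inl (Sum.inr (Sum.inr d)) : Six D) ∈ B} ∪
          {d | (Sum.inr (Sum.inr (Sum.inr d)) : Six D) ∈ qX})) := by
      rintro e ⟨he, d, hd, rfl⟩
      by_cases hx : (Sum.inl (Sum.inl d) : Six D) ∈ X
      · right
        refine ⟨d, ?_, rfl⟩
        by_cases hG : d ∈ G
        · rcases hpt _ hG (rg _ hG hx) with h | h
          · exact Or.inr (Or.inl h)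
          · exact Or.inr (Or.inr h)
        · left
          refine ⟨?_, hd⟩
          rw [ion _ hG]; exact hx
      · exact Or.inl (bha d hd he hx)
    have h3 := Set.ncard_le_ncard hcov (Set.toFinite _)
    have h4 := Set.ncard_union_le B ((fun d : D => (Sum.inr (Sum.inl d) : Six D)) ''
        ({d | io d ∈ X ∧ d ∈ E} ∪ ({d | (Sum.inl (Sum.inr (Sum.inr d)) : Six D) ∈ B} ∪
          {d | (Sum.inr (Sum.inr (Sum.inr d)) : Six D) ∈ qX})))
    have h5 := Set.ncard_image_le (f := fun d : D => (Sum.inr (Sum.inl d) : Six D)) (Set.toFinite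
        ({d | io d ∈ X ∧ d ∈ E} ∪ ({d | (Sum.inl (Sum.inr (Sum.inr d)) : Six D) ∈ B} ∪
          {d | (Sum.inr (Sum.inr (Sum.inr d)) : Six D) ∈ qX})))
    have h6 := Set.ncard_union_le {d | io d ∈ X ∧ d ∈ E} ({d | (Sum.inl (Sum.inr (Sum.inr d)) : Six D) ∈ B} ∪
          {d | (Sum.inr (Sum.inr (Sum.inr d)) : Six D) ∈ qX})
    have h7 := Set.ncard_union_le {d | (Sum.inl (Sum.inr (Sum.inr d)) : Six D) ∈ B}
          {d | (Sum.inr (Sum.inr (Sum.inr d)) : Six D) ∈ qX}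
    omega
  · set P : Set D := {d | d ∈ G ∧ (Sum.inl (Sum.inr (Sum.inr d)) : Six D) ∈ X} with hP
    have hP1 : P ⊆ {d | (Sum.inl (Sum.inr (Sum.inr d)) : Six D) ∈ B} ∪
        {d | (Sum.inr (Sum.inr (Sum.inr d)) : Six D) ∈ qX} := by
      rintro d ⟨hd1, hd2⟩
      rcases hpt d hd1 hd2 with h | h
      · exact Or.inl h
      · exact Or.inr h
    have hP2 : Set.ncard P ≤ Set.ncard B + Set.ncard qX :=
      (Set.ncard_le_ncard hP1 (Set.toFinite _)).trans ((Set.ncard_union_le _ _).trans (Nat.add_le_add n1 n2))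
    have hcov : X ⊆ (io '' {d | io d ∈ X}) ∪
        (((fun d : D => (Sum.inl (Sum.inl d) : Six D)) '' P) ∪
        (((fun d : D => (Sum.inl (Sum.inr (Sum.inr d)) : Six D)) '' P) ∪ (qX ∪ oX))) := by
      intro e he
      rcases e with (d | (d | d)) | (d | (d | d))
      · by_cases hG : d ∈ G
        · exact Or.inr (Or.inl ⟨d, ⟨hG, rg d hG he⟩, rfl⟩)
        · refine Or.inl ⟨d, ?_, ion d hG⟩
          change io d ∈ X
          rw [ion d hG]; exact he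
      · by_cases hG : d ∈ G
        · refine Or.inl ⟨d, ?_, iop d hG⟩
          change io d ∈ X
          rw [iop d hG]; exact he
        · exact absurd he (d1 d hG)
      · by_cases hG : d ∈ G
        · exact Or.inr (Or.inr (Or.inl ⟨d, ⟨hG, he⟩, rfl⟩))
        · exact absurd he (d2 d hG)
      · by_cases hdE : d ∈ E
        · exact Or.inr (Or.inr (Or.inr (Or.inr ⟨he, d, hdE, rfl⟩)))
        · exact absurd he (d5 d hdE)
      · by_cases hG : d ∈ G
        · exact Or.inr (Or.inr (Or.inr (Or.inl ⟨he, d, hG, Or.inl rfl⟩)))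
        · exact absurd he (d3 d hG)
      · by_cases hG : d ∈ G
        · exact Or.inr (Or.inr (Or.inr (Or.inl ⟨he, d, hG, Or.inr rfl⟩)))
        · exact absurd he (d4 d hG)
    have h3 := Set.ncard_le_ncard hcov (Set.toFinite _)
    have h4 := Set.ncard_union_le (io '' {d | io d ∈ X})
        (((fun d : D => (Sum.inl (Sum.inl d) : Six D)) '' P) ∪
        (((fun d : D => (Sum.inl (Sum.inr (Sum.inr d)) : Six D)) '' P) ∪ (qX ∪ oX)))
    have h5 := Set.ncard_union_le ((fun d : D => (Sum.inl (Sum.inl d) : Six D)) '' P)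
        (((fun d : D => (Sum.inl (Sum.inr (Sum.inr d)) : Six D)) '' P) ∪ (qX ∪ oX))
    have h6 := Set.ncard_union_le ((fun d : D => (Sum.inl (Sum.inr (Sum.inr d)) : Six D)) '' P) (qX ∪ oX)
    have h7 := Set.ncard_union_le qX oX
    have h8 := Set.ncard_image_le (f := io) (Set.toFinite {d | io d ∈ X})
    have h9 := Set.ncard_image_le (f := fun d : D => (Sum.inl (Sum.inl d) : Six D)) (Set.toFinite P)
    have h10 := Set.ncard_image_le (f := fun d : D => (Sum.inl (Sum.inr (Sum.inr d)) : Six D)) (Set.toFinite P)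
    omega

/-- Boundaries in the capped state with rungs. `X0`: old letters in `X`; `qX`: hat letters of rung letters in `X`;
`oX`: hat letters of old walls in `X`. -/
theorem cap_cond (S : Sf) (hC : S.Closed) (E : Set S.D) (hE : S.Cl E) (ρ : Perm S.D) (hρ : S.FR E ρ) (R : Rg S E ρ)
    (hE' : (S.cov R.G R.K).Cl R.E') (ρ' : Perm (S.D ⊕ (S.D ⊕ S.D))) (hF : (S.cov R.G R.K).FR R.E' ρ')
    (X : Set ((S.cov R.G R.K).capped R.E' hE' ρ').D) (hX : ((S.cov R.G R.K).capped R.E' hE' ρ').Inv X)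
    (hXl : ∀ d ∈ X, ((S.cov R.G R.K).capped R.E' hE' ρ').a d ≠ d) :
    S.Inv {d | R.io d ∈ X} ∧
    Set.ncard {d | R.io d ∈ X ∧ d ∉ E ∧ R.io (S.a d) ∉ X} ≤ Set.ncard (((S.cov R.G R.K).capped R.E' hE' ρ').bd X) +
      Set.ncard {e | e ∈ X ∧ ∃ d ∈ R.G, e = Sum.inr (Sum.inr (Sum.inl d)) ∨ e = Sum.inr (Sum.inr (Sum.inr d))} ∧
    Set.ncard {e | e ∈ X ∧ ∃ d ∈ E, e = Sum.inr (Sum.inl d)} ≤
      2 * Set.ncard (((S.cov R.G R.K).capped R.E' hE' ρ').bd X) + Set.ncard {d | R.io d ∈ X ∧ d ∈ E} +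
      Set.ncard {e | e ∈ X ∧ ∃ d ∈ R.G, e = Sum.inr (Sum.inr (Sum.inl d)) ∨ e = Sum.inr (Sum.inr (Sum.inr d))} ∧
    Set.ncard X ≤ Set.ncard {d | R.io d ∈ X} + 2 * Set.ncard (((S.cov R.G R.K).capped R.E' hE' ρ').bd X) +
      3 * Set.ncard {e | e ∈ X ∧ ∃ d ∈ R.G, e = Sum.inr (Sum.inr (Sum.inl d)) ∨ e = Sum.inr (Sum.inr (Sum.inr d))} +
      Set.ncard {e | e ∈ X ∧ ∃ d ∈ E, e = Sum.inr (Sum.inl d)} := by
  have hS : Finite S.D := inferInstance
  refine ⟨?_, cap_count R.G E S.a S.a.injective X (((S.cov R.G R.K).capped R.E' hE' ρ').bd X) R.io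
    (fun d h => R.io_pos h) (fun d h => R.io_neg h) ?_ ?_ ?_ ?_ ?_ ?_ ?_ ?_ ?_ ?_⟩
  · intro d
    have h1 : ∀ d, R.io d = Sum.inl (th R.G (Sum.inl d)) := by
      intro d
      by_cases h : d ∈ R.G
      · rw [R.io_pos h]; simp [th, h]
      · rw [R.io_neg h]; simp [th, h]
    change R.io (S.r d) ∈ X ↔ R.io d ∈ X
    rw [h1, h1, ← R.r_io d]
    exact hX (Sum.inl (th R.G (Sum.inl d)))
  · intro d hd hx h
    exact ⟨hx, fun h' => h (Set.mem_of_eq_of_mem (capped_a_inl_pos R hE' ρ'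
      (show (Sum.inr (Sum.inl d) : S.D ⊕ (S.D ⊕ S.D)) ∈ R.E' from hd)).symm h')⟩
  · intro d hd hx h
    exact ⟨hx, fun h' => h (Set.mem_of_eq_of_mem (capped_a_inl_pos R hE' ρ'
      (show (Sum.inr (Sum.inr d) : S.D ⊕ (S.D ⊕ S.D)) ∈ R.E' from hd)).symm h')⟩
  · intro d hd hx h
    exact ⟨hx, fun h' => h (Set.mem_of_eq_of_mem (capped_a_inl_neg R hE' ρ'
      (show (Sum.inl d : S.D ⊕ (S.D ⊕ S.D)) ∉ R.E' from hd)).symm h')⟩
  · intro d hd hx h
    exact ⟨hx, fun h' => h (Set.mem_of_eq_of_mem (capped_a_inr_pos R hE' ρ'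
      (show (Sum.inl d : S.D ⊕ (S.D ⊕ S.D)) ∈ R.E' from hd)).symm h')⟩
  · intro d hd hx
    exact (rung_both R hE' ρ' X hX hd).1 hx
  · intro d hd hx
    exact hXl _ hx ((capped_a_inl_neg R hE' ρ' (show (Sum.inr (Sum.inl d) : S.D ⊕ (S.D ⊕ S.D)) ∉ R.E' from hd)).trans
      (congrArg Sum.inl (cov_a_cp8 R hd)))
  · intro d hd hx
    exact hXl _ hx ((capped_a_inl_neg R hE' ρ' (show (Sum.inr (Sum.inr d) : S.D ⊕ (S.D ⊕ S.D)) ∉ R.E' from hd)).trans
      (congrArg Sum.inl (cov_a_pt8 R hd)))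
  · intro d hd hx
    exact hXl _ hx (capped_a_inr_neg R hE' ρ' (show (Sum.inr (Sum.inl d) : S.D ⊕ (S.D ⊕ S.D)) ∉ R.E' from hd))
  · intro d hd hx
    exact hXl _ hx (capped_a_inr_neg R hE' ρ' (show (Sum.inr (Sum.inr d) : S.D ⊕ (S.D ⊕ S.D)) ∉ R.E' from hd))
  · intro d hd hx
    exact hXl _ hx (capped_a_inr_neg R hE' ρ' (show (Sum.inl d : S.D ⊕ (S.D ⊕ S.D)) ∉ R.E' from hd))

end Pool.Agent.GW
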