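import Pool.Agent.GW.Sector
import Pool.Agent.GW.UBas

/-!
# GW/Carve: gluing everything except the walls with short words

`W` walls, `Ct` cotree; every letter of `N` outside of `W` is a letter of the cotree; `top` labels the clusters (connected by
the cotree letters which are not walls).
PROOF.  For a set `M` of letters which is a union of words let `gl M = {d | d ∈ M ∧ a d ∈ M ∧ d ∉ W}` (closed under `a`).
CLAIM (Good M): for every union of words `Z`, disjoint from `M`, and every closed set `Y` inside `Z` of letters with partner in `Z`: if all words of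
`glueSet Y` and of `glueSet (Y ∪ gl M)` have length at most `L` then `U L (glueSet (Y ∪ gl M)) → U L (glueSet Y)`.  A word `P` is good (`glueSet_U`,
block `P`).  If `M1`, `M2` are disjoint and good and `|liv W M1| + |liv W M2| ≤ L` then `M1 ∪ M2` is good: `glueSet_U` with the block `M1 ∪ M2` glues the
letters between them (after gluing `gl M` the live letters in `M` are `liv W M` together with nothing else).
For a word `P` and a set of children `Q` (inside the cluster, `e Q ∉ W`) let `J` be the union of `P` and the subtrees of these children inside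
the cluster: the live letters of `J` which are in `N` are letters of `W` in the cluster of `P` or letters of `P` in `N`; so
`|liv W J| ≤ (2 ρ + 1) (..)` by `sector`, which is at most `L / 2`.  Induction on `h` (descending): all subtrees are good, then all clusters
are good, glue the clusters one after the other.  By `sector_out` for a cluster every letter outside of `W` has its partner in the same
cluster, so at the end all letters outside of `W` are glued.
-/

set_option autoImplicit false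

namespace Pool.Agent.GW

open Equiv Pool.Agent.SWP

theorem Wl.clc {S : Sf} {N : Set S.D} {δ : S.D → ℕ} {W : Set S.D} (h : Wl S N δ W) : S.Cl Wᶜ := by
  intro d hd h2
  exact hd (by rw [← S.aa d]; exact h.cl _ h2)

/-- the letters outside of `W` inside the blocks of a labelling of the words -/
def Yl (S : Sf) (W : Set S.D) (c : S.Wd → S.Wd) : Set S.D := {d | d ∉ W ∧ c (S.wd d) = c (S.wd (S.a d))}

theorem Yl_cl {S : Sf} {N : Set S.D} {δ : S.D → ℕ} {W : Set S.D} (hW : Wl S N δ W) (c : S.Wd → S.Wd) :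
    S.Cl (Yl S W c) := by
  rintro d ⟨h1, h2⟩
  exact ⟨hW.clc d h1, by rw [S.aa]; exact h2.symm⟩

private theorem cv_ext (D : Type) (fD : Fintype D) (r r' a a' : Perm D) (h1 : r = r') (h2 : a = a')
    (p1 : ∀ d, a (a d) = d) (q1 : ∀ d, a' (a' d) = d) : (⟨D, fD, r, a, p1⟩ : Sf) = ⟨D, fD, r', a', q1⟩ := by
  subst h1 h2
  rfl

private noncomputable def cv_c (S : Sf) (Y1 : Set S.D) (hY1 : S.Cl Y1) (Y0 : Set S.D) : Perm S.D :=
  (S.glueSet Y1 hY1).beta Y0

/-- gluing in two steps -/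
private theorem cv_two (S : Sf) (Y Y0 Y1 : Set S.D) (hY : S.Cl Y) (hY1 : S.Cl Y1) (h0 : S.Cl Y0)
    (hd : ∀ d, d ∈ Y0 → d ∉ Y1) (hu : ∀ d, d ∈ Y ↔ d ∈ Y0 ∨ d ∈ Y1) (hY0 : (S.glueSet Y1 hY1).Cl Y0) :
    (S.glueSet Y1 hY1).glueSet Y0 hY0 = S.glueSet Y hY := by
  have hβ : S.beta Y1 * cv_c S Y1 hY1 Y0 = S.beta Y := by
    ext d
    rw [Perm.mul_apply]
    by_cases h1 : d ∈ Y0
    · have e1 : cv_c S Y1 hY1 Y0 d = S.a d := by
        have e2 : cv_c S Y1 hY1 Y0 d = S.a (S.beta Y1 d) :=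
          (S.glueSet Y1 hY1).beta_mem hY0 h1
        rw [e2, S.beta_notMem (hd d h1)]
      rw [e1, S.beta_notMem (hd _ (h0 d h1)), S.beta_mem hY ((hu d).mpr (Or.inl h1))]
    · have e1 : cv_c S Y1 hY1 Y0 d = d := (S.glueSet Y1 hY1).beta_notMem h1
      rw [e1]
      by_cases h2 : d ∈ Y1
      · rw [S.beta_mem hY1 h2, S.beta_mem hY ((hu d).mpr (Or.inr h2))]
      · rw [S.beta_notMem h2, S.beta_notMem (fun h => by rcases (hu d).mp h with h | h; exacts [h1 h, h2 h])]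
  refine cv_ext S.D S.fD _ _ _ _ ?_ ?_ _ _
  · show S.r * S.beta Y1 * cv_c S Y1 hY1 Y0 = S.r * S.beta Y
    rw [← hβ, mul_assoc]
  · show S.a * S.beta Y1 * cv_c S Y1 hY1 Y0 = S.a * S.beta Y
    rw [← hβ, mul_assoc]

private theorem cv_wdr (S : Sf) (d : S.D) : S.wd (S.r d) = S.wd d :=
  (S.wd_eq _ _).mpr (Perm.sameCycle_apply_left.mpr (Perm.SameCycle.refl _ _))

/-- the letters of a block -/
def blk (S : Sf) (c : S.Wd → S.Wd) (k : S.Wd) : Set S.D := {d | c (S.wd d) = k}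

theorem blk_inv (S : Sf) (c : S.Wd → S.Wd) (k : S.Wd) : S.Inv (blk S c k) := by
  intro d
  show c (S.wd (S.r d)) = k ↔ c (S.wd d) = k
  rw [cv_wdr]

private theorem cv_beta {S : Sf} {N : Set S.D} {δ : S.D → ℕ} {W : Set S.D} (hW : Wl S N δ W) (c : S.Wd → S.Wd)
    (d : S.D) : c (S.wd (S.beta (Yl S W c) d)) = c (S.wd d) := by
  by_cases h : d ∈ Yl S W c
  · rw [S.beta_mem (Yl_cl hW c) h]
    exact h.2.symm
  · rw [S.beta_notMem h]

/-- live letters of a block after gluing the letters inside of the blocks -/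
private theorem cv_num {S : Sf} {N : Set S.D} {δ : S.D → ℕ} {W : Set S.D} (hW : Wl S N δ W) (c : S.Wd → S.Wd)
    (k : S.Wd) : (S.glueSet (Yl S W c) (Yl_cl hW c)).num (blk S c k) ≤ (S.liv W (blk S c k)).ncard := by
  refine Set.ncard_le_ncard (fun (d : S.D) hd => ?_) (Set.toFinite _)
  obtain ⟨h1, h2⟩ := hd
  refine ⟨h1, ?_⟩
  by_contra hc
  push Not at hc
  obtain ⟨h3, h4⟩ := hc
  apply h2
  show S.a (S.beta (Yl S W c) d) = d
  have h5 : d ∈ Yl S W c := by
    refine ⟨h3, ?_⟩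
    have h6 : c (S.wd d) = k := h1
    have h7 : c (S.wd (S.a d)) = k := h4
    rw [h6, h7]
  rw [S.beta_mem (Yl_cl hW c) h5, S.aa]

/-- merge two blocks -/
private theorem cv_merge (L : ℕ) {S : Sf} {N : Set S.D} {δ : S.D → ℕ} {W : Set S.D} (hW : Wl S N δ W)
    (c c' : S.Wd → S.Wd) (i j : S.Wd) (h1 : ∀ Q, c Q = j → c' Q = i) (h2 : ∀ Q, c Q ≠ j → c' Q = c Q)
    (hL : ∀ k, 2 * (S.liv W (blk S c k)).ncard ≤ L)
    (h : U L (S.glueSet (Yl S W c') (Yl_cl hW c'))) : U L (S.glueSet (Yl S W c) (Yl_cl hW c)) := by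
  have hsub : Yl S W c ⊆ Yl S W c' := by
    rintro d ⟨h3, h4⟩
    refine ⟨h3, ?_⟩
    by_cases h5 : c (S.wd d) = j
    · rw [h1 _ h5, h1 _ (h4.symm.trans h5)]
    · rw [h2 _ h5, h2 _ (by rw [← h4]; exact h5), h4]
  have hr : ∀ d : S.D, c (S.wd ((S.glueSet (Yl S W c) (Yl_cl hW c)).r d)) = c (S.wd d) := by
    intro d
    show c (S.wd (S.r (S.beta (Yl S W c) d))) = _
    rw [cv_wdr, cv_beta hW c]
  obtain ⟨Y0, hY0d⟩ : ∃ Y0 : Set S.D, ∀ d, d ∈ Y0 ↔ d ∈ Yl S W c' ∧ d ∉ Yl S W c :=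
    ⟨Yl S W c' \ Yl S W c, fun d => Iff.rfl⟩
  have hY0 : S.Cl Y0 := by
    intro d hd
    obtain ⟨h3, h4⟩ := (hY0d d).1 hd
    refine (hY0d _).2 ⟨Yl_cl hW c' d h3, fun h5 => h4 ?_⟩
    have := Yl_cl hW c _ h5
    rwa [S.aa] at this
  have hTY0 : (S.glueSet (Yl S W c) (Yl_cl hW c)).Cl Y0 := by
    refine fun (d : S.D) hd => ?_
    show S.a (S.beta (Yl S W c) d) ∈ Y0
    rw [S.beta_notMem ((hY0d d).1 hd).2]
    exact hY0 d hd
  have hu : ∀ d, d ∈ Yl S W c' ↔ d ∈ Y0 ∨ d ∈ Yl S W c := by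
    intro d
    constructor
    · intro hd
      by_cases h3 : d ∈ Yl S W c
      · exact Or.inr h3
      · exact Or.inl ((hY0d d).2 ⟨hd, h3⟩)
    · rintro (hd | hd)
      · exact ((hY0d d).1 hd).1
      · exact hsub hd
  refine glueSet_U L (S.glueSet (Yl S W c) (Yl_cl hW c)) Y0 (blk S c i ∪ blk S c j) hTY0 ?_ ?_ ?_ ?_ ?_
  · intro d hd
    obtain ⟨⟨h3, h4⟩, h5⟩ := (hY0d d).1 hd
    by_cases h6 : c (S.wd d) = j
    · exact Or.inr h6
    · left
      show c (S.wd d) = i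
      by_cases h7 : c (S.wd (S.a d)) = j
      · rw [← h2 _ h6, h4, h1 _ h7]
      · exfalso
        apply h5
        refine ⟨h3, ?_⟩
        rw [h2 _ h6, h2 _ h7] at h4
        exact h4
  · refine fun (d : S.D) => ?_
    show (c (S.wd ((S.glueSet (Yl S W c) (Yl_cl hW c)).r d)) = i ∨ c (S.wd ((S.glueSet (Yl S W c) (Yl_cl hW c)).r d)) = j)
      ↔ (c (S.wd d) = i ∨ c (S.wd d) = j)
    rw [hr]
  · have h3 := num_union_le (S.glueSet (Yl S W c) (Yl_cl hW c)) (blk S c i) (blk S c j)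
    have h4 := cv_num hW c i
    have h5 := cv_num hW c j
    have h6 := hL i
    have h7 := hL j
    omega
  · refine fun (d : S.D) => ?_
    have h3 : (S.glueSet (Yl S W c) (Yl_cl hW c)).len d ≤
        (S.glueSet (Yl S W c) (Yl_cl hW c)).num (blk S c (c (S.wd d))) :=
      len_le_num (S.glueSet (Yl S W c) (Yl_cl hW c)) (B := blk S c (c (S.wd d)))
        (fun e (he : c (S.wd e) = c (S.wd d)) => (hr e).trans he) (show c (S.wd d) = c (S.wd d) from rfl)
    have h4 := cv_num hW c (c (S.wd d))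
    have h5 := hL (c (S.wd d))
    omega
  · rw [cv_two S (Yl S W c') Y0 (Yl S W c) (Yl_cl hW c') (Yl_cl hW c) hY0 (fun d hd => ((hY0d d).1 hd).2) hu hTY0]
    exact h

private theorem cv_sec (S : Sf) {N : Set S.D} {δ : S.D → ℕ} {ρ : ℕ} (hF : Fo S N δ ρ) {W : Set S.D} (hW : Wl S N δ W)
    (M : Set S.D) (hM : S.Inv M) : (S.liv W M).ncard ≤ (2 * ρ + 1) * (S.liv W M ∩ N).ncard := by
  have h1 := sector S hF hW M hM
  have h2 : (S.liv W M).ncard ≤ (S.liv W M \ N).ncard + (S.liv W M ∩ N).ncard := by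
    have h3 : S.liv W M = (S.liv W M \ N) ∪ (S.liv W M ∩ N) := (Set.sdiff_union_inter _ _).symm
    conv_lhs => rw [h3]
    exact Set.ncard_union_le _ _
  calc (S.liv W M).ncard ≤ 2 * ρ * (S.liv W M ∩ N).ncard + (S.liv W M ∩ N).ncard := by omega
    _ = _ := by ring

/-- a labelling which comes from merging the words of `Z` into their parents -/
private structure Lab (S : Sf) (root : S.Wd) (e : S.Wd → S.D) (W : Set S.D) (Z : Set S.Wd) (c : S.Wd → S.Wd) : Prop where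
  sub : ∀ P ∈ Z, P ≠ root ∧ e P ∉ W
  down : ∀ P, P ≠ root → e P ∉ W → S.wd (S.a (e P)) ∈ Z → P ∈ Z
  out : ∀ P, P ∉ Z → c P = P
  inn : ∀ P ∈ Z, c P = c (S.wd (S.a (e P)))

private theorem Lab.le {S : Sf} {N : Set S.D} {root : S.Wd} {e : S.Wd → S.D} {h : S.Wd → ℕ} (hT : Ct S N root e h)
    {W : Set S.D} {Z : Set S.Wd} {c : S.Wd → S.Wd} (hl : Lab S root e W Z c) : ∀ (n : ℕ) (P : S.Wd), h P ≤ n →
    h (c P) ≤ h P := by
  intro n
  induction n with
  | zero =>
    intro P hP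
    by_cases h1 : P ∈ Z
    · have := hT.lt P (hl.sub P h1).1
      omega
    · rw [hl.out P h1]
  | succ n ih =>
    intro P hP
    by_cases h1 : P ∈ Z
    · have h2 := hT.lt P (hl.sub P h1).1
      rw [hl.inn P h1]
      have h3 := ih (S.wd (S.a (e P))) (by omega)
      omega
    · rw [hl.out P h1]

private theorem Lab.top {S : Sf} {N : Set S.D} {root : S.Wd} {e : S.Wd → S.D} {h : S.Wd → ℕ} (hT : Ct S N root e h)
    {W : Set S.D} {Z : Set S.Wd} {c : S.Wd → S.Wd} (hl : Lab S root e W Z c) (top : S.Wd → S.Wd)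
    (ht2 : ∀ P, P ≠ root → e P ∉ W → top P = top (S.wd (S.a (e P)))) : ∀ (n : ℕ) (P : S.Wd), h P ≤ n →
    top (c P) = top P := by
  intro n
  induction n with
  | zero =>
    intro P hP
    by_cases h1 : P ∈ Z
    · have := hT.lt P (hl.sub P h1).1
      omega
    · rw [hl.out P h1]
  | succ n ih =>
    intro P hP
    by_cases h1 : P ∈ Z
    · have h2 := hT.lt P (hl.sub P h1).1
      rw [hl.inn P h1, ht2 P (hl.sub P h1).1 (hl.sub P h1).2]
      exact ih (S.wd (S.a (e P))) (by omega)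
    · rw [hl.out P h1]

/-- the bound for the blocks -/
private theorem Lab.bd (L : ℕ) {S : Sf} {N : Set S.D} {δ : S.D → ℕ} {ρ : ℕ} (hF : Fo S N δ ρ) {root : S.Wd}
    {e : S.Wd → S.D} {h : S.Wd → ℕ} (hT : Ct S N root e h) {W : Set S.D} (hW : Wl S N δ W)
    (hX : ∀ d ∈ N, d ∉ W → d ∈ hT.T) (top : S.Wd → S.Wd)
    (ht2 : ∀ P, P ≠ root → e P ∉ W → top P = top (S.wd (S.a (e P))))
    (hB : ∀ P, 2 * ((2 * ρ + 1) * (Set.ncard {d | d ∈ W ∧ d ∈ N ∧ top (S.wd d) = top P} +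
      Set.ncard {d | d ∈ N ∧ S.wd d = P})) ≤ L) {Z : Set S.Wd} {c : S.Wd → S.Wd} (hl : Lab S root e W Z c)
    (k : S.Wd) : 2 * (S.liv W (blk S c k)).ncard ≤ L := by
  have h1 := cv_sec S hF hW (blk S c k) (blk_inv S c k)
  have h2 : (S.liv W (blk S c k) ∩ N).ncard ≤ Set.ncard {d | d ∈ W ∧ d ∈ N ∧ top (S.wd d) = top k} +
      Set.ncard {d | d ∈ N ∧ S.wd d = k} := by
    refine le_trans (Set.ncard_le_ncard ?_ (Set.toFinite _)) (Set.ncard_union_le _ _)
    rintro d ⟨⟨h3, h4⟩, h5⟩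
    have h3' : c (S.wd d) = k := h3
    by_cases h6 : d ∈ W
    · left
      refine ⟨h6, h5, ?_⟩
      rw [← h3']
      exact (hl.top hT top ht2 _ _ le_rfl).symm
    · right
      refine ⟨h5, ?_⟩
      have h7 : c (S.wd (S.a d)) ≠ k := by
        rcases h4 with h4 | h4
        · exact absurd h4 h6
        · exact h4
      obtain ⟨Q, hQ, hdQ | hdQ⟩ := hX d h5 h6
      · have hQW : e Q ∉ W := hdQ ▸ h6
        have hwQ : S.wd d = Q := by rw [hdQ]; exact hT.wd Q hQ
        have hQZ : Q ∉ Z := by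
          intro hc
          apply h7
          rw [hdQ, ← hl.inn Q hc, ← hwQ, h3']
        rw [← h3', hwQ, hl.out Q hQZ]
      · have hadQ : S.a d = e Q := by rw [hdQ, S.aa]
        have hQW : e Q ∉ W := by rw [← hadQ]; exact hW.clc d h6
        have hwQ : S.wd (S.a d) = Q := by rw [hadQ]; exact hT.wd Q hQ
        have hQZ : Q ∉ Z := by
          intro hc
          apply h7
          rw [hwQ, hl.inn Q hc, ← hdQ, h3']
        by_contra hne
        apply hQZ
        apply hl.down Q hQ hQW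
        by_contra hc
        apply hne
        rw [← hdQ] at hc
        rw [← hl.out _ hc, h3']
  have h3 := hB k
  have h4 : (2 * ρ + 1) * (S.liv W (blk S c k) ∩ N).ncard ≤ (2 * ρ + 1) *
      (Set.ncard {d | d ∈ W ∧ d ∈ N ∧ top (S.wd d) = top k} + Set.ncard {d | d ∈ N ∧ S.wd d = k}) :=
    Nat.mul_le_mul_left _ h2
  omega

private theorem cv_glue_eq (S : Sf) (Y Y' : Set S.D) (hY : S.Cl Y) (hY' : S.Cl Y') (h : Y = Y') :
    S.glueSet Y hY = S.glueSet Y' hY' := by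
  subst h
  rfl

/-- all merges -/
private theorem cv_all (L : ℕ) {S : Sf} {N : Set S.D} {δ : S.D → ℕ} {ρ : ℕ} (hF : Fo S N δ ρ) {root : S.Wd}
    {e : S.Wd → S.D} {h : S.Wd → ℕ} (hT : Ct S N root e h) {W : Set S.D} (hW : Wl S N δ W)
    (hX : ∀ d ∈ N, d ∉ W → d ∈ hT.T) (top : S.Wd → S.Wd)
    (ht2 : ∀ P, P ≠ root → e P ∉ W → top P = top (S.wd (S.a (e P))))
    (hB : ∀ P, 2 * ((2 * ρ + 1) * (Set.ncard {d | d ∈ W ∧ d ∈ N ∧ top (S.wd d) = top P} +
      Set.ncard {d | d ∈ N ∧ S.wd d = P})) ≤ L)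
    (hU : U L (S.glueSet Wᶜ hW.clc)) : ∀ (n : ℕ) (Z : Set S.Wd) (c : S.Wd → S.Wd), Lab S root e W Z c →
    Set.ncard {P | (P ≠ root ∧ e P ∉ W) ∧ P ∉ Z} ≤ n → U L (S.glueSet (Yl S W c) (Yl_cl hW c)) := by
  intro n
  induction n with
  | zero =>
    intro Z c hl hn
    have h0 : ∀ P, P ≠ root → e P ∉ W → P ∈ Z := by
      intro P h1 h2
      by_contra h3
      have h4 : ({P | (P ≠ root ∧ e P ∉ W) ∧ P ∉ Z} : Set S.Wd) = ∅ :=
        (Set.ncard_eq_zero (Set.toFinite _)).1 (Nat.le_zero.1 hn)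
      have h5 : P ∈ ({P | (P ≠ root ∧ e P ∉ W) ∧ P ∉ Z} : Set S.Wd) := ⟨⟨h1, h2⟩, h3⟩
      rw [h4] at h5
      exact h5
    have h1 : Yl S W c = Wᶜ := by
      ext d
      refine ⟨fun hd => hd.1, fun hd => ⟨hd, ?_⟩⟩
      refine (sector_out S hF hW (blk S c (c (S.wd d))) (blk_inv S c _) ?_ d rfl hd).symm
      intro y hyN hyM hyW
      have hyM' : c (S.wd y) = c (S.wd d) := hyM
      show c (S.wd (S.a y)) = c (S.wd d)
      rw [← hyM']
      obtain ⟨Q, hQ, hdQ | hdQ⟩ := hX y hyN hyW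
      · rw [hdQ, hT.wd Q hQ]
        exact (hl.inn Q (h0 Q hQ (hdQ ▸ hyW))).symm
      · have hadQ : S.a y = e Q := by rw [hdQ, S.aa]
        have hQW : e Q ∉ W := by rw [← hadQ]; exact hW.clc y hyW
        rw [hadQ, hT.wd Q hQ, hdQ]
        exact hl.inn Q (h0 Q hQ hQW)
    rw [cv_glue_eq S _ _ (Yl_cl hW c) hW.clc h1]
    exact hU
  | succ n ih =>
    intro Z c hl hn
    classical
    by_cases hne : ({P | (P ≠ root ∧ e P ∉ W) ∧ P ∉ Z} : Set S.Wd).Nonempty
    · obtain ⟨P, hP, hmax⟩ := Set.exists_max_image _ h (Set.toFinite _) hne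
      obtain ⟨⟨hP1, hP2⟩, hP3⟩ := hP
      have hlt := hT.lt P hP1
      have hcpar : c (S.wd (S.a (e P))) ≠ P := by
        intro hc
        have h1 := hl.le hT _ (S.wd (S.a (e P))) le_rfl
        rw [hc] at h1
        omega
      have hcP : c P = P := hl.out P hP3
      set c' : S.Wd → S.Wd := fun Q => if c Q = P then c (S.wd (S.a (e P))) else c Q with hc'
      have hc1 : ∀ Q, c Q = P → c' Q = c (S.wd (S.a (e P))) := fun Q hQ => by rw [hc']; simp only; rw [if_pos hQ]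
      have hc2 : ∀ Q, c Q ≠ P → c' Q = c Q := fun Q hQ => by rw [hc']; simp only; rw [if_neg hQ]
      have hl' : Lab S root e W (insert P Z) c' := by
        refine ⟨?_, ?_, ?_, ?_⟩
        · rintro Q (rfl | hQ)
          · exact ⟨hP1, hP2⟩
          · exact hl.sub Q hQ
        · intro Q h1 h2 h3
          rcases h3 with h3 | h3
          · by_contra h4
            have h5 : Q ∉ Z := fun h5 => h4 (Or.inr h5)
            have h6 := hmax Q ⟨⟨h1, h2⟩, h5⟩
            have h7 := hT.lt Q h1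
            rw [h3] at h7
            omega
          · exact Or.inr (hl.down Q h1 h2 h3)
        · intro Q hQ
          have h1 : Q ∉ Z := fun h1 => hQ (Or.inr h1)
          have h2 : Q ≠ P := fun h2 => hQ (Or.inl h2)
          have h3 := hl.out Q h1
          rw [hc2 Q (by rw [h3]; exact h2), h3]
        · rintro Q (rfl | hQ)
          · rw [hc1 Q hcP, hc2 _ hcpar]
          · have h1 := hl.inn Q hQ
            by_cases h2 : c Q = P
            · rw [hc1 Q h2, hc1 _ (h1.symm.trans h2)]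
            · rw [hc2 Q h2, hc2 _ (by rw [← h1]; exact h2), h1]
      refine cv_merge L hW c c' (c (S.wd (S.a (e P)))) P hc1 hc2 (hl.bd L hF hT hW hX top ht2 hB) ?_
      refine ih (insert P Z) c' hl' ?_
      have hss : ({Q | (Q ≠ root ∧ e Q ∉ W) ∧ Q ∉ insert P Z} : Set S.Wd) ⊂ {Q | (Q ≠ root ∧ e Q ∉ W) ∧ Q ∉ Z} := by
        refine ⟨?_, ?_⟩
        · rintro Q ⟨h1, h2⟩
          exact ⟨h1, fun h3 => h2 (Or.inr h3)⟩
        · intro hc
          have h1 := hc (show P ∈ {Q | (Q ≠ root ∧ e Q ∉ W) ∧ Q ∉ Z} from ⟨⟨hP1, hP2⟩, hP3⟩)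
          exact h1.2 (Or.inl rfl)
      have h1 := Set.ncard_lt_ncard hss (Set.toFinite _)
      omega
    · refine ih Z c hl ?_
      rw [Set.not_nonempty_iff_eq_empty.1 hne, Set.ncard_empty]
      exact Nat.zero_le _

theorem carve (L : ℕ) (S : Sf) (hS : S.Closed) {N : Set S.D} {δ : S.D → ℕ} {ρ : ℕ} (hF : Fo S N δ ρ) {root : S.Wd}
    {e : S.Wd → S.D} {h : S.Wd → ℕ} (hT : Ct S N root e h) {W : Set S.D} (hW : Wl S N δ W)
    (hX : ∀ d ∈ N, d ∉ W → d ∈ hT.T) (top : S.Wd → S.Wd) (ht1 : ∀ P, P = root ∨ e P ∈ W → top P = P)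
    (ht2 : ∀ P, P ≠ root → e P ∉ W → top P = top (S.wd (S.a (e P)))) (hL : ∀ d, S.len d ≤ L)
    (hB : ∀ P, 2 * ((2 * ρ + 1) * (Set.ncard {d | d ∈ W ∧ d ∈ N ∧ top (S.wd d) = top P} +
      Set.ncard {d | d ∈ N ∧ S.wd d = P})) ≤ L)
    (h : U L (S.glueSet Wᶜ hW.clc)) : U L S := by
  have h1 : Lab S root e W ∅ (fun P => P) := by
    refine ⟨?_, ?_, ?_, ?_⟩
    · intro P hP; exact absurd hP (Set.notMem_empty _)
    · intro P _ _ hP; exact absurd hP (Set.notMem_empty _)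
    · intro P _; rfl
    · intro P hP; exact absurd hP (Set.notMem_empty _)
  have h2 := cv_all L hF hT hW hX top ht2 hB h _ ∅ (fun P => P) h1 le_rfl
  have hfin : Nonempty (S.Wd ≃ Fin (Fintype.card S.Wd)) := ⟨Fintype.equivFin _⟩
  obtain ⟨φ⟩ := hfin
  refine blocks_U L S (Yl S W (fun P => P)) (Yl_cl hW _) (fun d => (φ (S.wd d) : ℕ)) ?_ ?_ ?_ h2
  · intro d
    show (φ (S.wd (S.r d)) : ℕ) = _
    rw [cv_wdr]
  · rintro d ⟨_, h3⟩
    show (φ (S.wd (S.a d)) : ℕ) = (φ (S.wd d) : ℕ)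
    have h3' : S.wd d = S.wd (S.a d) := h3
    rw [h3']
  · intro i
    by_cases hi : ∃ d, (φ (S.wd d) : ℕ) = i
    · obtain ⟨d, hd⟩ := hi
      refine le_trans (num_mono S ?_) (hL d)
      intro f hf
      have hf' : (φ (S.wd f) : ℕ) = i := hf
      have h3 : φ (S.wd d) = φ (S.wd f) := Fin.ext (hd.trans hf'.symm)
      exact (S.wd_eq d f).1 (φ.injective h3)
    · have h3 : ({d | (φ (S.wd d) : ℕ) = i} : Set S.D) = ∅ := by
        ext d
        simp only [Set.mem_ofPred_eq, Set.mem_empty_iff_false, iff_false]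
        exact fun hd => hi ⟨d, hd⟩
      unfold Sf.num
      rw [h3, Set.empty_inter, Set.ncard_empty]
      exact Nat.zero_le _

/-- number of walls of a cluster -/
theorem cluster_walls (S : Sf) {N : Set S.D} {δ : S.D → ℕ} {ρ : ℕ} (hF : Fo S N δ ρ) {root : S.Wd}
    {e : S.Wd → S.D} {h : S.Wd → ℕ} (hT : Ct S N root e h) {W : Set S.D} (hW : Wl S N δ W)
    (hX : ∀ d ∈ N, d ∉ W → d ∈ hT.T) (top : S.Wd → S.Wd)
    (ht2 : ∀ P, P ≠ root → e P ∉ W → top P = top (S.wd (S.a (e P)))) :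
    (∀ d, d ∉ W → top (S.wd (S.a d)) = top (S.wd d)) ∧
    ∀ t, Set.ncard {d | d ∈ W ∧ top (S.wd d) = t} ≤ (2 * ρ + 1) * Set.ncard {d | d ∈ W ∧ d ∈ N ∧ top (S.wd d) = t} := by
  have h1 : ∀ d, d ∉ W → top (S.wd (S.a d)) = top (S.wd d) := by
    intro d hd
    refine sector_out S hF hW (blk S top (top (S.wd d))) (blk_inv S top _) ?_ d rfl hd
    intro y hyN hyM hyW
    have hyM' : top (S.wd y) = top (S.wd d) := hyM
    show top (S.wd (S.a y)) = top (S.wd d)
    rw [← hyM']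
    obtain ⟨Q, hQ, hdQ | hdQ⟩ := hX y hyN hyW
    · rw [hdQ, hT.wd Q hQ]
      exact (ht2 Q hQ (hdQ ▸ hyW)).symm
    · have hadQ : S.a y = e Q := by rw [hdQ, S.aa]
      have hQW : e Q ∉ W := by rw [← hadQ]; exact hW.clc y hyW
      rw [hadQ, hT.wd Q hQ, hdQ]
      exact ht2 Q hQ hQW
  refine ⟨h1, fun t => ?_⟩
  have h2 := cv_sec S hF hW (blk S top t) (blk_inv S top t)
  have h3 : S.liv W (blk S top t) = {d | d ∈ W ∧ top (S.wd d) = t} := by
    ext d
    constructor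
    · rintro ⟨h4, h5⟩
      have h4' : top (S.wd d) = t := h4
      refine ⟨?_, h4'⟩
      by_contra h6
      rcases h5 with h5 | h5
      · exact h6 h5
      · exact h5 ((h1 d h6).trans h4')
    · rintro ⟨h4, h5⟩
      exact ⟨h5, Or.inl h4⟩
  have h4 : S.liv W (blk S top t) ∩ N = {d | d ∈ W ∧ d ∈ N ∧ top (S.wd d) = t} := by
    rw [h3]
    ext d
    constructor
    · rintro ⟨⟨h5, h6⟩, h7⟩
      exact ⟨h5, h7, h6⟩
    · rintro ⟨h5, h6, h7⟩
      exact ⟨⟨h5, h7⟩, h6⟩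
  rw [h4, h3] at h2
  exact h2

end Pool.Agent.GW
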