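import Pool.Agent.GW.NetCells

/-! GW/CellsNet: see GW/NetCells (helper81). -/
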