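import Pool.Agent.GW.ChordB

/-!
# GW/Chord (helper76): chords, every word gets few letters of `N`

`S` closed, connected, with forest data `Fo S N δ ρ`. Every word is divided into runs of at most `r0` consecutive letters. As long as a
run contains two letters of `N`: let `A` be the part of the run from its first letter `y` to its second letter of `N`; cover with
`G = A`, all joins: a new word (strip) with `2 |A|` letters and three letters of `N`; the old word gets the copies of `A`, only the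
last of them is in `N`; the depth of the new vertices is `δ y + 1, δ y + 2, ..`.
-/

set_option autoImplicit false

namespace Pool.Agent.GW

open Equiv Pool.Agent.SWP

namespace Chord

/-- the stages of the construction; `i` is the position of a letter of `S0` in its run, `q` the present place of the letters -/
structure Sg (S0 : Sf) (i : S0.D → ℕ) (ρ r0 : ℕ) (g0 : ℤ) (c0 : ℕ) (S : Sf) (q : S0.D → S.D) (N : Set S.D)
    (δ : S.D → ℕ) : Prop where
  cl : S.Closed
  con : S.Con
  fo : Fo S N δ (ρ + r0)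
  inj : Function.Injective q
  r : ∀ d, S.r (q d) = q (S0.r d)
  low : ∀ d, i d = 0 → δ (q d) ≤ ρ
  strip : ∀ z, (∀ d, q d ≠ z) → (S.word z).ncard ≤ 2 * r0 ∧ (N ∩ S.word z).ncard ≤ 3
  gen : S.gen ≤ g0
  roots : ∃ R0 : Finset S.D, R0.card ≤ c0 ∧ ∀ d, δ d = 0 → ∃ e ∈ R0, S.vx e d

theorem pow_add' {D : Type} (s : Perm D) (m n : ℕ) (z : D) : (s ^ (m + n)) z = (s ^ m) ((s ^ n) z) := by
  rw [pow_add, Perm.mul_apply]

section run

variable {D : Type} {r : Perm D} {i : D → ℕ} (hi : ∀ d, i (r d) = 0 ∨ i (r d) = i d + 1)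

include hi in
/-- the first letter of the run -/
theorem start (n : ℕ) : ∀ d, i d = n → ∃ x, i x = 0 ∧ (r ^ n) x = d := by
  induction n with
  | zero => intro d hd; exact ⟨d, hd, rfl⟩
  | succ n ih =>
    intro d hd
    have h1 := hi (r.symm d)
    rw [Equiv.apply_symm_apply] at h1
    obtain ⟨x, hx, hx2⟩ := ih (r.symm d) (by omega)
    refine ⟨x, hx, ?_⟩
    rw [pow_s, hx2, Equiv.apply_symm_apply]

include hi in
theorem along {x : D} (M : ℕ) (hM : i ((r ^ M) x) = M) : ∀ m ≤ M, i ((r ^ m) x) = m := by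
  have key : ∀ n, n ≤ M → i ((r ^ (M - n)) x) = M - n := by
    intro n
    induction n with
    | zero => intro _; exact hM
    | succ n ih =>
      intro hn
      have h1 := ih (by omega)
      have h2 : M - n = (M - (n + 1)) + 1 := by omega
      rw [h2, pow_s] at h1
      have h3 := hi ((r ^ (M - (n + 1))) x)
      omega
  intro m hm
  have h1 := key (M - m) (by omega)
  rwa [Nat.sub_sub_self hm] at h1

end run

/-- one step -/
theorem step {S0 : Sf} (hS0 : S0.Closed) {i : S0.D → ℕ} (hi : ∀ d, i (S0.r d) = 0 ∨ i (S0.r d) = i d + 1) {ρ r0 : ℕ}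
    (hlt : ∀ d, i d < r0) {g0 : ℤ} {c0 : ℕ} {S : Sf} {q : S0.D → S.D} {N : Set S.D} {δ : S.D → ℕ}
    (h : Sg S0 i ρ r0 g0 c0 S q N δ) (d : S0.D) (j : ℕ) (hj : j ≠ 0) (hij : i ((S0.r ^ j) d) = i d + j) (h1 : q d ∈ N)
    (h2 : q ((S0.r ^ j) d) ∈ N) :
    ∃ (T : Sf) (q' : S0.D → T.D) (N' : Set T.D) (δ' : T.D → ℕ), Sg S0 i ρ r0 g0 c0 T q' N' δ' ∧
      (q' ⁻¹' N').ncard < (q ⁻¹' N).ncard ∧
      ∀ L, (∀ d, 2 * S0.len d ≤ L) → 4 * r0 ≤ L → U L T → U L S := by
  classical
  obtain ⟨x, hx0, hxd⟩ := start hi (i d) d rfl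
  have hq : ∀ (m : ℕ) (z : S0.D), (S.r ^ m) (q z) = q ((S0.r ^ m) z) := by
    intro m
    induction m with
    | zero => intro z; rfl
    | succ m ih => intro z; rw [pow_s, ih, h.r, pow_s]
  have hM : (S0.r ^ (i d + j)) x = (S0.r ^ j) d := by
    rw [Nat.add_comm, pow_add', hxd]
  have hal := along hi (x := x) (i d + j) (by rw [hM]; exact hij)
  -- the first two letters of `N`
  have e1 : ∃ m, q ((S0.r ^ m) x) ∈ N := ⟨i d, by rw [hxd]; exact h1⟩
  set m1 := Nat.find e1 with hm1
  have hm1N : q ((S0.r ^ m1) x) ∈ N := Nat.find_spec e1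
  have hm1le : m1 ≤ i d := Nat.find_min' e1 (by rw [hxd]; exact h1)
  have e2 : ∃ m, m1 < m ∧ q ((S0.r ^ m) x) ∈ N := ⟨i d + j, by omega, by rw [hM]; exact h2⟩
  set k := Nat.find e2 with hk
  have hkN : q ((S0.r ^ k) x) ∈ N := (Nat.find_spec e2).2
  have hm1k : m1 < k := (Nat.find_spec e2).1
  have hkle : k ≤ i d + j := Nat.find_min' e2 ⟨by omega, by rw [hM]; exact h2⟩
  have hkr : k + 1 ≤ r0 := by
    have := hlt ((S0.r ^ j) d)
    omega
  -- the position function
  obtain ⟨p, hpq⟩ : ∃ p : S.D → ℕ, ∀ z, p (q z) = i z := by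
    refine ⟨fun w => if hw : ∃ z, q z = w then i (Classical.choose hw) else 0, fun z => ?_⟩
    have hw : ∃ z', q z' = q z := ⟨z, rfl⟩
    show (if hw : ∃ z', q z' = q z then i (Classical.choose hw) else 0) = i z
    rw [dif_pos hw]
    congr 1
    exact h.inj (Classical.choose_spec hw)
  have hp : ∀ m ≤ k, p ((S.r ^ m) (q x)) = m := by
    intro m hm
    rw [hq, hpq]
    exact hal m (by omega)
  have hGq : ∀ z ∈ G S.r (q x) k, ∃ m ≤ k, z = q ((S0.r ^ m) x) := by
    rintro z ⟨m, hm, rfl⟩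
    exact ⟨m, hm, hq m x⟩
  have hGN : N ∩ G S.r (q x) k ⊆ {q ((S0.r ^ m1) x), q ((S0.r ^ k) x)} := by
    rintro z ⟨hzN, hzG⟩
    obtain ⟨m, hm, rfl⟩ := hGq z hzG
    rcases Nat.lt_or_ge m m1 with h3 | h3
    · exact absurd hzN (Nat.find_min e1 h3)
    rcases Nat.eq_or_lt_of_le h3 with h4 | h4
    · left; rw [h4]
    rcases Nat.lt_or_ge m k with h5 | h5
    · exact absurd ⟨h4, hzN⟩ (Nat.find_min e2 h5)
    · right
      have h6 : m = k := le_antisymm hm h5
      rw [h6]; rfl
  have hGN2 : (N ∩ G S.r (q x) k).ncard ≤ 2 := by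
    refine (Set.ncard_le_ncard hGN (Set.toFinite _)).trans ?_
    refine (Set.ncard_insert_le _ _).trans ?_
    rw [Set.ncard_singleton]
  have hy : δ (q x) + k ≤ ρ + r0 := by
    have := h.low x hx0
    omega
  have hr' : ∀ z, (T S (q x) k).r (cvN (G S.r (q x) k) (q z)) = cvN (G S.r (q x) k) (q (S0.r z)) := by
    intro z
    rw [r_pl, h.r]
  refine ⟨T S (q x) k, fun z => cvN (G S.r (q x) k) (q z), nN S (q x) k p N, dl S (q x) k p δ, ?_, ?_, ?_⟩
  · refine ⟨closed h.cl, con hp h.con, fo hp h.fo le_rfl hy, ?_, hr', ?_, ?_, ?_, root hp h.fo h.roots⟩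
    · intro z z' hz
      exact h.inj (cvN_inj _ hz)
    · intro z hz
      by_cases hG : q z ∈ G S.r (q x) k
      · have h3 : dl S (q x) k p δ (cvN (G S.r (q x) k) (q z)) = δ (q x) + p (q z) := by
          rw [cvN_mem hG]; rfl
        rw [h3, hpq, hz, Nat.add_zero]
        exact h.low x hx0
      · have h3 : dl S (q x) k p δ (cvN (G S.r (q x) k) (q z)) = δ (q z) := by
          rw [cvN_notMem hG]; rfl
        rw [h3]
        exact h.low z hz
    · intro z hz
      rcases strip_or (S := S) (y := q x) (k := k) z with h3 | ⟨t, rfl⟩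
      · have h4 := strip_word hp h3
        constructor
        · refine (Set.ncard_le_ncard h4 (Set.toFinite _)).trans ?_
          exact le_trans (strip_ncard (S := S) (y := q x) (k := k)) (by omega)
        · refine (Set.ncard_le_ncard (Set.inter_subset_inter_right _ h4) (Set.toFinite _)).trans ?_
          exact le_trans (strip_N hp (N := N)) (by omega)
      · have ht : ∀ z, q z ≠ t := by
          intro z' hz'
          exact hz z' (by rw [hz'])
        have hout : ∀ e ∈ S.word t, ∀ z', q z' ≠ e := by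
          intro e he z' hz'
          have h3 : S.r.SameCycle e t := Perm.SameCycle.symm he
          rw [← hz'] at h3
          obtain ⟨w, hw, _⟩ := (same_map h.r z' t).1 h3
          exact ht w hw.symm
        have hw : (T S (q x) k).word (cvN (G S.r (q x) k) t) = cvN (G S.r (q x) k) '' S.word t :=
          word_map (T := T S (q x) k) (fun d => r_pl d) t
        have h5 := h.strip t ht
        constructor
        · have h6 := Set.ncard_image_le (f := cvN (G S.r (q x) k)) (s := S.word t) (Set.toFinite _)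
          have h7 : ((T S (q x) k).word (cvN (G S.r (q x) k) t)).ncard ≤ (S.word t).ncard := by
            rw [hw]; exact h6
          exact h7.trans h5.1
        · have h6 : nN S (q x) k p N ∩ (T S (q x) k).word (cvN (G S.r (q x) k) t) ⊆
              (Sum.inl '' (N ∩ S.word t) : Set (TD S (q x) k)) := by
            rintro e ⟨he1, he2⟩
            rw [hw] at he2
            obtain ⟨w, hw1, rfl⟩ := he2
            have hwG : w ∉ G S.r (q x) k := by
              intro hwG
              obtain ⟨m, _, hm⟩ := hGq w hwG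
              exact hout w hw1 _ hm.symm
            rw [cvN_notMem hwG] at he1 ⊢
            exact ⟨w, ⟨he1, hw1⟩, rfl⟩
          have h7 := Set.ncard_le_ncard h6 (Set.toFinite _)
          have h8 := Set.ncard_image_le (f := (Sum.inl : S.D → TD S (q x) k)) (s := N ∩ S.word t) (Set.toFinite _)
          exact (h7.trans h8).trans h5.2
    · exact (cover_gen S _ _ (fun d _ => h.cl d)).trans h.gen
  · -- fewer letters of `N`
    refine Set.ncard_lt_ncard ⟨?_, ?_⟩ (Set.toFinite _)
    · intro z hz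
      have hz' : cvN (G S.r (q x) k) (q z) ∈ nN S (q x) k p N := hz
      by_cases hG : q z ∈ G S.r (q x) k
      · rw [cvN_mem hG] at hz'
        have h3 : p (q z) = k := hz'
        have h4 := eq_pow hp hG
        rw [h3, hq] at h4
        show q z ∈ N
        rw [← h4]
        exact hkN
      · rw [cvN_notMem hG] at hz'
        exact hz'
    · intro hc
      have h3 := hc (show (S0.r ^ m1) x ∈ q ⁻¹' N from hm1N)
      have h3' : cvN (G S.r (q x) k) (q ((S0.r ^ m1) x)) ∈ nN S (q x) k p N := h3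
      have hG : q ((S0.r ^ m1) x) ∈ G S.r (q x) k := ⟨m1, hm1k.le, hq m1 x⟩
      rw [cvN_mem hG] at h3'
      have h4 : p (q ((S0.r ^ m1) x)) = k := h3'
      rw [← hq, hp m1 hm1k.le] at h4
      omega
  · intro L hL1 hL2 hU
    refine cover_U L S _ _ (fun x _ => h.cl x) ?_ hU
    intro z
    by_cases hz : ∃ w, q w = z
    · obtain ⟨w, rfl⟩ := hz
      have h3 : S.len (q w) = S0.len w := by
        rw [len_closed S h.cl, len_closed S0 hS0, word_map h.r, Set.ncard_image_of_injective _ h.inj]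
      rw [h3]
      exact hL1 w
    · push Not at hz
      have h3 := (h.strip z hz).1
      rw [len_closed S h.cl]
      omega

/-- the last stage -/
theorem final {S0 : Sf} (hS0 : S0.Closed) {i : S0.D → ℕ} (hi : ∀ d, i (S0.r d) = 0 ∨ i (S0.r d) = i d + 1) {ρ r0 : ℕ}
    (hlt : ∀ d, i d < r0) {g0 : ℤ} {c0 : ℕ} (n : ℕ) : ∀ {S : Sf} {q : S0.D → S.D} {N : Set S.D} {δ : S.D → ℕ}
    (_ : Sg S0 i ρ r0 g0 c0 S q N δ) (_ : (q ⁻¹' N).ncard ≤ n),
    ∃ (T : Sf) (q' : S0.D → T.D) (N' : Set T.D) (δ' : T.D → ℕ), Sg S0 i ρ r0 g0 c0 T q' N' δ' ∧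
      (∀ d j, i ((S0.r ^ j) d) = i d + j → q' d ∈ N' → q' ((S0.r ^ j) d) ∈ N' → j = 0) ∧
      ∀ L, (∀ d, 2 * S0.len d ≤ L) → 4 * r0 ≤ L → U L T → U L S := by
  induction n with
  | zero =>
    intro S q N δ h hn
    refine ⟨S, q, N, δ, h, ?_, fun _ _ _ hU => hU⟩
    intro d j _ hd _
    exfalso
    have h1 : (q ⁻¹' N : Set S0.D) = ∅ := (Set.ncard_eq_zero (Set.toFinite _)).1 (Nat.le_zero.1 hn)
    have h2 : d ∈ q ⁻¹' N := hd
    rw [h1] at h2
    exact h2
  | succ n ih =>
    intro S q N δ h hn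
    by_cases hall : ∀ d j, i ((S0.r ^ j) d) = i d + j → q d ∈ N → q ((S0.r ^ j) d) ∈ N → j = 0
    · exact ⟨S, q, N, δ, h, hall, fun _ _ _ hU => hU⟩
    · push Not at hall
      obtain ⟨d, j, hij, h1, h2, hj⟩ := hall
      obtain ⟨T, q', N', δ', h3, h4, h5⟩ := step hS0 hi hlt h d j hj hij h1 h2
      obtain ⟨T', q'', N'', δ'', h6, h7, h8⟩ := ih h3 (by omega)
      exact ⟨T', q'', N'', δ'', h6, h7, fun L hL1 hL2 hU => h5 L hL1 hL2 (h8 L hL1 hL2 hU)⟩

theorem chord_aux {S : Sf} (hS : S.Closed) {i : S.D → ℕ} (hi : ∀ d, i (S.r d) = 0 ∨ i (S.r d) = i d + 1) {ρ r0 : ℕ}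
    {g0 : ℤ} {c0 : ℕ} (hz : ∀ d, r0 * Set.ncard {e | e ∈ S.word d ∧ i e = 0} ≤ S.len d + r0)
    {T : Sf} {q : S.D → T.D} {N : Set T.D} {δ : T.D → ℕ}
    (h : Sg S i ρ r0 g0 c0 T q N δ) (hf : ∀ d j, i ((S.r ^ j) d) = i d + j → q d ∈ N → q ((S.r ^ j) d) ∈ N → j = 0) :
    (∀ d, r0 * (N ∩ T.word d).ncard ≤ T.len d + 3 * r0) ∧
      (∀ d, (∃ e, T.len d = S.len e) ∨ T.len d ≤ 2 * r0) ∧
      (∀ X : Finset T.Wd, ∑ P ∈ X, (Set.ncard {d | T.wd d = P}) ^ 2 ≤ S.area + X.card * (2 * r0) ^ 2) := by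
  classical
  have hlen : ∀ d, T.len (q d) = S.len d := by
    intro w
    rw [len_closed T h.cl, len_closed S hS, word_map h.r, Set.ncard_image_of_injective _ h.inj]
  refine ⟨?_, ?_, ?_⟩
  · intro z
    by_cases hz' : ∃ w, q w = z
    · obtain ⟨d, rfl⟩ := hz'
      rw [hlen]
      have h1 : (N ∩ T.word (q d)).ncard ≤ Set.ncard {e | e ∈ S.word d ∧ i e = 0} := by
        have h2 : N ∩ T.word (q d) = q '' {e | e ∈ S.word d ∧ q e ∈ N} := by
          rw [word_map h.r]
          ext e
          constructor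
          · rintro ⟨h3, w, hw, rfl⟩
            exact ⟨w, ⟨hw, h3⟩, rfl⟩
          · rintro ⟨w, ⟨hw, h3⟩, rfl⟩
            exact ⟨h3, w, hw, rfl⟩
        rw [h2, Set.ncard_image_of_injective _ h.inj]
        have h3 : ∀ e, ∃ x, i x = 0 ∧ (S.r ^ (i e)) x = e := fun e => start hi (i e) e rfl
        choose st hst1 hst2 using h3
        refine Set.ncard_le_ncard_of_injOn st ?_ ?_ (Set.toFinite _)
        · rintro e ⟨he, _⟩
          refine ⟨?_, hst1 e⟩
          have h4 : S.r.SameCycle (st e) e := ⟨(i e : ℤ), by rw [zpow_natCast]; exact hst2 e⟩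
          exact Perm.SameCycle.trans he h4.symm
        · have key : ∀ e e', q e ∈ N → q e' ∈ N → st e = st e' → i e ≤ i e' → e = e' := by
            intro e e' he he' hs hle
            have h5 : (S.r ^ (i e' - i e)) e = e' := by
              have h6 : (S.r ^ ((i e' - i e) + i e)) (st e) = (S.r ^ (i e' - i e)) ((S.r ^ (i e)) (st e)) :=
                pow_add' _ _ _ _
              rw [hst2 e] at h6
              rw [← h6, Nat.sub_add_cancel hle, hs, hst2 e']
            have h7 := hf e (i e' - i e) (by rw [h5]; omega) he (by rw [h5]; exact he')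
            rw [h7] at h5
            exact h5
          rintro e ⟨_, he⟩ e' ⟨_, he'⟩ hs
          rcases le_total (i e) (i e') with h5 | h5
          · exact key e e' he he' hs h5
          · exact (key e' e he' he hs.symm h5).symm
      have h2 := hz d
      have h3 := Nat.mul_le_mul_left r0 h1
      omega
    · push Not at hz'
      have h1 := (h.strip z hz').2
      have h2 := Nat.mul_le_mul_left r0 h1
      omega
  · intro z
    by_cases hz' : ∃ w, q w = z
    · obtain ⟨d, rfl⟩ := hz'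
      exact Or.inl ⟨d, hlen d⟩
    · push Not at hz'
      right
      rw [len_closed T h.cl]
      exact (h.strip z hz').1
  · intro X
    have hwd : ∀ z : T.D, ({e | T.wd e = T.wd z} : Set T.D) = T.word z := by
      intro z
      ext e
      constructor
      · intro he
        exact ((T.wd_eq _ _).1 he).symm
      · intro he
        exact (T.wd_eq _ _).2 (Perm.SameCycle.symm he)
    have h1 : ∀ P ∈ X, (Set.ncard {d | T.wd d = P}) ^ 2 ≤
        (∑ d ∈ Finset.univ.filter (fun d => T.wd (q d) = P), S.len d) + (2 * r0) ^ 2 := by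
      intro P _
      by_cases hP : ∃ d, T.wd (q d) = P
      · obtain ⟨d, rfl⟩ := hP
        have h2 : (Set.ncard {e | T.wd e = T.wd (q d)}) = S.len d := by
          rw [hwd, ← len_closed T h.cl, hlen]
        have h3 : ∀ e ∈ Finset.univ.filter (fun e => T.wd (q e) = T.wd (q d)), S.len e = S.len d := by
          intro e he
          have h4 := (Finset.mem_filter.1 he).2
          exact len_same S ((same_map' h.inj h.r e d).1 ((T.wd_eq _ _).1 h4))
        have h4 : (Finset.univ.filter (fun e => T.wd (q e) = T.wd (q d))).card = S.len d := by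
          rw [len_closed S hS, ← Set.ncard_coe_finset]
          congr 1
          ext e
          simp only [Finset.coe_filter, Finset.mem_univ, true_and]
          constructor
          · intro he
            exact ((same_map' h.inj h.r e d).1 ((T.wd_eq _ _).1 he)).symm
          · intro he
            exact (T.wd_eq _ _).2 ((same_map' h.inj h.r e d).2 (Perm.SameCycle.symm he))
        rw [Finset.sum_congr rfl h3, Finset.sum_const, h4, h2, smul_eq_mul, sq]
        exact Nat.le_add_right _ _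
      · push Not at hP
        obtain ⟨z, rfl⟩ := T.wd_surj P
        have h2 : ∀ d, q d ≠ z := fun d hd => hP d (by rw [hd])
        have h3 := (h.strip z h2).1
        rw [hwd]
        have h4 : (T.word z).ncard ^ 2 ≤ (2 * r0) ^ 2 := Nat.pow_le_pow_left h3 2
        exact h4.trans (Nat.le_add_left _ _)
    refine (Finset.sum_le_sum h1).trans ?_
    rw [Finset.sum_add_distrib, Finset.sum_const, smul_eq_mul]
    refine Nat.add_le_add_right ?_ _
    have h2 : ∀ P ∈ X, (∑ d ∈ Finset.univ.filter (fun d => T.wd (q d) = P), S.len d) =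
        ∑ d, (if T.wd (q d) = P then S.len d else 0) := by
      intro P _
      rw [Finset.sum_filter]
    rw [Finset.sum_congr rfl h2, Finset.sum_comm]
    unfold Sf.area
    refine Finset.sum_le_sum (fun d _ => ?_)
    rw [Finset.sum_ite_eq]
    split_ifs
    · exact le_rfl
    · exact Nat.zero_le _

theorem pos_mod {S : Sf} {pos : S.D → ℕ} {b : S.D → S.D} (hp : Pos S pos b) (r0 : ℕ) (h0 : 0 < r0) (d : S.D) :
    pos (S.r d) % r0 = 0 ∨ pos (S.r d) % r0 = pos d % r0 + 1 := by
  rcases hp.next d with ⟨h1, _⟩ | ⟨h1, _⟩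
  · rw [h1]
    have h2 := Nat.mod_lt (pos d) h0
    rcases Nat.lt_or_ge (pos d % r0 + 1) r0 with h3 | h3
    · right
      have h5 := Nat.div_add_mod (pos d) r0
      have h6 : pos d + 1 = (pos d % r0 + 1) + r0 * (pos d / r0) := by omega
      rw [h6, Nat.add_mul_mod_self_left]
      exact Nat.mod_eq_of_lt h3
    · left
      have h4 : pos d % r0 + 1 = r0 := by omega
      have h5 := Nat.div_add_mod (pos d) r0
      have h6 : pos d + 1 = r0 * (pos d / r0 + 1) := by
        rw [Nat.mul_add, Nat.mul_one]; omega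
      rw [h6]
      exact Nat.mul_mod_right _ _
  · left
    rw [h1]; exact Nat.zero_mod _

theorem zero_count {S : Sf} (hS : S.Closed) {pos : S.D → ℕ} {b : S.D → S.D} (hp : Pos S pos b) (r0 : ℕ) (h0 : 0 < r0)
    (d : S.D) : r0 * Set.ncard {e | e ∈ S.word d ∧ pos e % r0 = 0} ≤ S.len d + r0 := by
  have _ := h0
  have hlen := len_closed S hS d
  have hpos : 0 < S.len d := by
    rw [hlen]
    exact (Set.ncard_pos (Set.toFinite _)).2 ⟨d, Perm.SameCycle.refl _ _⟩
  have h1 : Set.ncard {e | e ∈ S.word d ∧ pos e % r0 = 0} ≤ (S.len d - 1) / r0 + 1 := by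
    have h2 : Set.ncard {e | e ∈ S.word d ∧ pos e % r0 = 0} ≤
        (Finset.range ((S.len d - 1) / r0 + 1) : Set ℕ).ncard := by
      refine Set.ncard_le_ncard_of_injOn (fun e => pos e / r0) ?_ ?_ (Finset.finite_toSet _)
      · rintro e ⟨he, _⟩
        have h3 := hp.lt e
        have h4 : S.word e = S.word d := by
          ext z
          exact ⟨fun hz => Perm.SameCycle.trans he hz, fun hz => Perm.SameCycle.trans (Perm.SameCycle.symm he) hz⟩
        rw [h4, ← hlen] at h3
        simp only [Finset.coe_range, Set.mem_Iio]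
        have h5 : pos e / r0 ≤ (S.len d - 1) / r0 := Nat.div_le_div_right (by omega)
        omega
      · rintro e ⟨he, he0⟩ e' ⟨he', he0'⟩ hee
        have hee' : pos e / r0 = pos e' / r0 := hee
        have h5 := Nat.div_add_mod (pos e) r0
        have h6 := Nat.div_add_mod (pos e') r0
        rw [he0, hee'] at h5
        rw [he0'] at h6
        exact hp.inj (Perm.SameCycle.trans (Perm.SameCycle.symm he) he') (by omega)
    rwa [Set.ncard_coe_finset, Finset.card_range] at h2
  have h2 := Nat.mul_le_mul_left r0 h1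
  have h3 := Nat.mul_div_le (S.len d - 1) r0
  rw [Nat.mul_add, Nat.mul_one] at h2
  omega

end Chord

theorem chord (S : Sf) (hS : S.Closed) (hC : S.Con) {N : Set S.D} {δ : S.D → ℕ} {ρ : ℕ} (hF : Fo S N δ ρ) (R0 : Finset S.D)
    (hR : ∀ d, δ d = 0 → ∃ e ∈ R0, S.vx e d) (r0 : ℕ) (h0 : 0 < r0) :
    ∃ (T : Sf) (N' : Set T.D) (δ' : T.D → ℕ) (R0' : Finset T.D),
      T.Closed ∧ T.Con ∧ Fo T N' δ' (ρ + r0) ∧ R0'.card ≤ R0.card ∧ (∀ d, δ' d = 0 → ∃ e ∈ R0', T.vx e d) ∧
      T.gen ≤ S.gen ∧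
      (∀ d, r0 * (N' ∩ T.word d).ncard ≤ T.len d + 3 * r0) ∧
      (∀ d, (∃ e, T.len d = S.len e) ∨ T.len d ≤ 2 * r0) ∧
      (∀ X : Finset T.Wd, ∑ P ∈ X, (Set.ncard {d | T.wd d = P}) ^ 2 ≤ S.area + X.card * (2 * r0) ^ 2) ∧
      ∀ L, (∀ d, 2 * S.len d ≤ L) → 4 * r0 ≤ L → U L T → U L S := by
  obtain ⟨pos, b, hp⟩ := pos_exists S
  have hi : ∀ d, (fun d => pos d % r0) (S.r d) = 0 ∨ (fun d => pos d % r0) (S.r d) = (fun d => pos d % r0) d + 1 :=
    fun d => Chord.pos_mod hp r0 h0 d
  have hst : Chord.Sg S (fun d => pos d % r0) ρ r0 S.gen R0.card S id N δ := by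
    refine ⟨hS, hC, ⟨hF.cl, hF.vtx, fun d => (hF.le d).trans (Nat.le_add_right _ _), hF.tree, hF.ex, hF.uniq⟩,
      Function.injective_id, fun _ => rfl, fun d _ => hF.le d, fun z hz => absurd rfl (hz z), le_rfl, R0, le_rfl, hR⟩
  obtain ⟨T, q, N', δ', h1, h2, h3⟩ := Chord.final hS hi (fun d => Nat.mod_lt _ h0) _ hst le_rfl
  obtain ⟨h4, h5, h6⟩ := Chord.chord_aux hS hi (Chord.zero_count hS hp r0 h0) h1 h2
  obtain ⟨R0', h7, h8⟩ := h1.roots
  exact ⟨T, N', δ', R0', h1.cl, h1.con, h1.fo, h7, h8, h1.gen, h4, h5, h6, h3⟩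

end Pool.Agent.GW
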