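import Pool.Agent.GW.UBas

/-!
# Doubling a set of letters (explicit state)

`cover G J`: every letter `x` of `G` is doubled (digon `(x, (x,true))`, the partner `(x,false)` of `(x,true)` replaces `x`
in its word); the digons of `x` and `r x` are joined at their common vertex for `x ∈ J` (if `x, r x ∈ G`). So if
`x_1 .. x_k` is a maximal run of letters in `G`, all joined, then the new words are `(x_1 .. x_k c_k .. c_1)`, `c_i = (x_i,true)`,
and in the old word `x_1 .. x_k` is replaced by `c'_1 .. c'_k`, `c'_i = (x_i,false)`.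

PROOF of `cover_U`. First `J = ∅`, induction on `G.ncard`: for `G = G0 ∪ {x}` the state `(cover G0 ∅).dbl (inl x)` is isomorphic
to `cover G ∅` (`inr true` is `(x,true)`, `inr false` is `(x,false)`), use `U_iso` and `U.dbl`. Then add the joins one after the
other: `cover G (J ∪ {y}) = (cover G J).setr (sw (y,true) (inl (r y)) * r)`, legal because
`inl (a y) -> (y,true) -> (r y,false) -> inl (r y)` under `r' a'`; the length condition: all words of `cover G J` have at most
`2 L` letters if all words of `S` have at most `L` letters (the words of outer letters have the same number of live letters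
as before, every other word consists of letters `inl x`, `(x,true)` with `x` in one word of `S`).
-/

set_option autoImplicit false

namespace Pool.Agent.GW

open Equiv Pool.Agent.SWP

section
variable {D : Type}

/-- position of the letter `t` in the outer words -/
noncomputable def cvN (G : Set D) (t : D) : D ⊕ (G × Bool) :=
  open Classical in if h : t ∈ G then Sum.inr (⟨t, h⟩, false) else Sum.inl t

/-- next letter after doubling the letters of `G` -/
noncomputable def cvF (r : Perm D) (G J : Set D) : D ⊕ (G × Bool) → D ⊕ (G × Bool)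
  | Sum.inl t => open Classical in
      if h : t ∈ G then (if t ∈ J ∧ r t ∈ G then Sum.inl (r t) else Sum.inr (⟨t, h⟩, true)) else cvN G (r t)
  | Sum.inr (x, false) => cvN G (r x)
  | Sum.inr (x, true) => open Classical in
      if h : r.symm x ∈ G ∧ r.symm (x : D) ∈ J then Sum.inr (⟨r.symm x, h.1⟩, true) else Sum.inl x

theorem cvN_mem {G : Set D} {t : D} (h : t ∈ G) : cvN G t = Sum.inr (⟨t, h⟩, false) := by
  unfold cvN; rw [dif_pos h]

theorem cvN_notMem {G : Set D} {t : D} (h : t ∉ G) : cvN G t = Sum.inl t := by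
  unfold cvN; rw [dif_neg h]

theorem cvF_inl_notMem (r : Perm D) {G : Set D} (J : Set D) {t : D} (h : t ∉ G) :
    cvF r G J (Sum.inl t) = cvN G (r t) := by
  simp only [cvF, dif_neg h]

theorem cvF_inl_join (r : Perm D) {G J : Set D} {t : D} (h : t ∈ G) (hJ : t ∈ J ∧ r t ∈ G) :
    cvF r G J (Sum.inl t) = Sum.inl (r t) := by
  simp only [cvF, dif_pos h, if_pos hJ]

theorem cvF_inl_end (r : Perm D) {G J : Set D} {t : D} (h : t ∈ G) (hJ : ¬(t ∈ J ∧ r t ∈ G)) :
    cvF r G J (Sum.inl t) = Sum.inr (⟨t, h⟩, true) := by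
  simp only [cvF, dif_pos h, if_neg hJ]

theorem cvF_false (r : Perm D) (G J : Set D) (x : G) :
    cvF r G J (Sum.inr (x, false)) = cvN G (r x) := rfl

theorem cvF_true_join (r : Perm D) {G J : Set D} {x : G} (h : r.symm (x : D) ∈ G ∧ r.symm (x : D) ∈ J) :
    cvF r G J (Sum.inr (x, true)) = Sum.inr (⟨r.symm x, h.1⟩, true) := by
  simp only [cvF, dif_pos h]

theorem cvF_true_end (r : Perm D) {G J : Set D} {x : G} (h : ¬(r.symm (x : D) ∈ G ∧ r.symm (x : D) ∈ J)) :
    cvF r G J (Sum.inr (x, true)) = Sum.inl (x : D) := by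
  simp only [cvF, dif_neg h]

/-- the letter before `z` -/
private noncomputable def cvI (r : Perm D) (G J : Set D) : D ⊕ (G × Bool) → D ⊕ (G × Bool)
  | Sum.inl y => open Classical in
      if y ∈ G then (if h : r.symm y ∈ G ∧ r.symm y ∈ J then Sum.inl (r.symm y) else
        (if h2 : y ∈ G then Sum.inr (⟨y, h2⟩, true) else Sum.inl y)) else cvN G (r.symm y)
  | Sum.inr (y, false) => cvN G (r.symm y)
  | Sum.inr (y, true) => open Classical in
      if h : (y : D) ∈ J ∧ r y ∈ G then Sum.inr (⟨r y, h.2⟩, true) else Sum.inl y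

private theorem cvI_cvN (r : Perm D) (G J : Set D) (t : D) :
    cvI r G J (cvN G (r t)) = cvN G t := by
  by_cases h : r t ∈ G
  · rw [cvN_mem h]
    show cvN G (r.symm (r t)) = _
    rw [Equiv.symm_apply_apply]
  · rw [cvN_notMem h]
    simp only [cvI, if_neg h, Equiv.symm_apply_apply]

private theorem cvI_cvF (r : Perm D) (G J : Set D) (z : D ⊕ (G × Bool)) :
    cvI r G J (cvF r G J z) = z := by
  rcases z with t | ⟨x, b⟩
  · by_cases h : t ∈ G
    · by_cases hJ : t ∈ J ∧ r t ∈ G
      · rw [cvF_inl_join r h hJ]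
        have h1 : r.symm (r t) ∈ G ∧ r.symm (r t) ∈ J := by
          rw [Equiv.symm_apply_apply]; exact ⟨h, hJ.1⟩
        simp only [cvI, if_pos hJ.2, dif_pos h1, Equiv.symm_apply_apply]
      · rw [cvF_inl_end r h hJ]
        simp only [cvI, dif_neg hJ]
    · rw [cvF_inl_notMem r J h, cvI_cvN, cvN_notMem h]
  · cases b
    · rw [cvF_false, cvI_cvN, cvN_mem x.2]
    · by_cases h : r.symm (x : D) ∈ G ∧ r.symm (x : D) ∈ J
      · rw [cvF_true_join r h]
        have h1 : (r.symm (x : D)) ∈ J ∧ r (r.symm (x : D)) ∈ G := by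
          rw [Equiv.apply_symm_apply]; exact ⟨h.2, x.2⟩
        simp only [cvI, dif_pos h1]
        congr 2
        apply Subtype.ext
        exact Equiv.apply_symm_apply _ _
      · rw [cvF_true_end r h]
        simp only [cvI, if_pos x.2, dif_neg h, dif_pos x.2]

theorem cvF_inj (r : Perm D) (G J : Set D) : Function.Injective (cvF r G J) := by
  intro z z' h
  rw [← cvI_cvF r G J z, h, cvI_cvF]

/-- the doubled permutation -/
noncomputable def cvR [Finite D] (r : Perm D) (G J : Set D) : Perm (D ⊕ (G × Bool)) :=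
  Equiv.ofBijective (cvF r G J) (Finite.injective_iff_bijective.1 (cvF_inj r G J))

end

/-- double all letters of `G`, join the digons of `x` and `r x` for `x ∈ J` -/
noncomputable def Sf.cover (S : Sf) (G J : Set S.D) : Sf where
  D := S.D ⊕ (G × Bool)
  fD := Fintype.ofFinite _
  r := cvR S.r G J
  a := Equiv.sumCongr S.a (Equiv.prodCongr (Equiv.refl G) Equiv.boolNot)
  aa := by
    rintro (d | ⟨d, c⟩)
    · simp [S.aa]
    · cases c <;> simp

/-! ## first all doublings -/

private theorem cover_r (S : Sf) (G J : Set S.D) (z : S.D ⊕ (G × Bool)) :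
    (S.cover G J).r z = cvF S.r G J z := rfl

private theorem cover_a_inl (S : Sf) (G J : Set S.D) (t : S.D) :
    (S.cover G J).a (Sum.inl t) = Sum.inl (S.a t) := rfl

private theorem cover_a_inr (S : Sf) (G J : Set S.D) (x : G) (b : Bool) :
    (S.cover G J).a (Sum.inr (x, b)) = Sum.inr (x, !b) := rfl

/-- forgetting the copies when nothing is doubled -/
private theorem cover_empty (L : ℕ) (S : Sf) (h : U L (S.cover ∅ ∅)) : U L S := by
  let φ : (S.cover ∅ ∅).D ≃ S.D :=
    { toFun := fun z => match z with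
        | Sum.inl t => t
        | Sum.inr (x, _) => x
      invFun := fun t => Sum.inl t
      left_inv := by
        rintro (t | ⟨x, _⟩)
        · rfl
        · exact absurd x.2 (Set.notMem_empty _)
      right_inv := fun t => rfl }
  refine U_iso φ ⟨?_, ?_⟩ h
  · rintro (t | ⟨x, _⟩)
    · show S.r t = φ ((S.cover ∅ ∅).r (Sum.inl t))
      rw [cover_r, cvF_inl_notMem S.r ∅ (Set.notMem_empty t), cvN_notMem (Set.notMem_empty _)]
      rfl
    · exact absurd x.2 (Set.notMem_empty _)
  · rintro (t | ⟨x, _⟩)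
    · rfl
    · exact absurd x.2 (Set.notMem_empty _)

private theorem dbl_r_e (S : Sf) (e : S.D) : (S.dbl e).r (Sum.inl e) = Sum.inr true := by
  show (sw (Sum.inl e) (Sum.inr false) * Equiv.sumCongr S.r (Equiv.refl Bool) * sw (Sum.inr true) (Sum.inr false)
    * sw (Sum.inl e) (Sum.inr false) : Perm (S.D ⊕ Bool)) (Sum.inl e) = _
  simp only [Perm.mul_apply]
  rw [sw_left, sw_right]
  show sw (Sum.inl e) (Sum.inr false) (Sum.inr true) = _
  rw [sw_of_ne (by simp) (by simp)]

private theorem dbl_r_true (S : Sf) (e : S.D) : (S.dbl e).r (Sum.inr true) = Sum.inl e := by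
  show (sw (Sum.inl e) (Sum.inr false) * Equiv.sumCongr S.r (Equiv.refl Bool) * sw (Sum.inr true) (Sum.inr false)
    * sw (Sum.inl e) (Sum.inr false) : Perm (S.D ⊕ Bool)) (Sum.inr true) = _
  have h1 : sw (Sum.inl e) (Sum.inr false) (Sum.inr true : S.D ⊕ Bool) = Sum.inr true :=
    sw_of_ne (by simp) (by simp)
  simp only [Perm.mul_apply]
  rw [h1, sw_left]
  show sw (Sum.inl e) (Sum.inr false) (Sum.inr false) = _
  rw [sw_right]

private theorem dbl_r_false (S : Sf) (e : S.D) :
    (S.dbl e).r (Sum.inr false) = sw (Sum.inl e) (Sum.inr false) (Sum.inl (S.r e)) := by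
  show (sw (Sum.inl e) (Sum.inr false) * Equiv.sumCongr S.r (Equiv.refl Bool) * sw (Sum.inr true) (Sum.inr false)
    * sw (Sum.inl e) (Sum.inr false) : Perm (S.D ⊕ Bool)) (Sum.inr false) = _
  have h1 : sw (Sum.inr true) (Sum.inr false) (Sum.inl e : S.D ⊕ Bool) = Sum.inl e :=
    sw_of_ne (by simp) (by simp)
  simp only [Perm.mul_apply]
  rw [sw_right, h1]
  rfl

private theorem dbl_r_ne (S : Sf) {e d : S.D} (h : d ≠ e) :
    (S.dbl e).r (Sum.inl d) = sw (Sum.inl e) (Sum.inr false) (Sum.inl (S.r d)) := by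
  show (sw (Sum.inl e) (Sum.inr false) * Equiv.sumCongr S.r (Equiv.refl Bool) * sw (Sum.inr true) (Sum.inr false)
    * sw (Sum.inl e) (Sum.inr false) : Perm (S.D ⊕ Bool)) (Sum.inl d) = _
  have h1 : sw (Sum.inl e) (Sum.inr false) (Sum.inl d : S.D ⊕ Bool) = Sum.inl d :=
    sw_of_ne (by simpa using h) (by simp)
  have h2 : sw (Sum.inr true) (Sum.inr false) (Sum.inl d : S.D ⊕ Bool) = Sum.inl d :=
    sw_of_ne (by simp) (by simp)
  simp only [Perm.mul_apply]
  rw [h1, h2]
  rfl

section Insert

variable {D : Type} (G : Set D) (x : D) (hx : x ∉ G)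

/-- the letters of `cover (G ∪ {x})` as letters of `(cover G).dbl x` -/
private noncomputable def cvE : D ⊕ (↥(insert x G) × Bool) → (D ⊕ (G × Bool)) ⊕ Bool
  | Sum.inl t => Sum.inl (Sum.inl t)
  | Sum.inr (y, b) => open Classical in
      if h : (y : D) ∈ G then Sum.inl (Sum.inr (⟨y, h⟩, b)) else Sum.inr b

private def cvE' : (D ⊕ (G × Bool)) ⊕ Bool → D ⊕ (↥(insert x G) × Bool)
  | Sum.inl (Sum.inl t) => Sum.inl t
  | Sum.inl (Sum.inr (y, b)) => Sum.inr (⟨y, Set.mem_insert_of_mem _ y.2⟩, b)
  | Sum.inr b => Sum.inr (⟨x, Set.mem_insert _ _⟩, b)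

private theorem cvE_mem {y : (insert x G : Set D)} (h : (y : D) ∈ G) (b : Bool) :
    cvE G x (Sum.inr (y, b)) = Sum.inl (Sum.inr (⟨y, h⟩, b)) := by
  simp only [cvE, dif_pos h]

private theorem cvE_notMem {y : (insert x G : Set D)} (h : (y : D) ∉ G) (b : Bool) :
    cvE G x (Sum.inr (y, b)) = Sum.inr b := by
  simp only [cvE, dif_neg h]

include hx in
private theorem cvE_left (z) : cvE' G x (cvE G x z) = z := by
  rcases z with t | ⟨y, b⟩
  · rfl
  · by_cases h : (y : D) ∈ G
    · rw [cvE_mem G x h]
      rfl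
    · rw [cvE_notMem G x h]
      show Sum.inr (_, b) = Sum.inr (y, b)
      congr 2
      apply Subtype.ext
      rcases y.2 with h1 | h1
      · exact h1.symm
      · exact absurd h1 h

include hx in
private theorem cvE_right (z) : cvE G x (cvE' G x z) = z := by
  rcases z with (t | ⟨y, b⟩) | b
  · rfl
  · show cvE G x (Sum.inr (⟨y, Set.mem_insert_of_mem _ y.2⟩, b)) = _
    rw [cvE_mem G x y.2]
  · show cvE G x (Sum.inr (⟨x, Set.mem_insert _ _⟩, b)) = _
    rw [cvE_notMem G x hx]

include hx in
/-- the outer position -/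
private theorem cvE_cvN (t : D) :
    cvE G x (cvN (insert x G) t) = sw (Sum.inl (Sum.inl x)) (Sum.inr false) (Sum.inl (cvN G t)) := by
  by_cases htx : t = x
  · subst htx
    rw [cvN_mem (Set.mem_insert _ _), cvE_notMem G t hx, cvN_notMem hx, sw_left]
  · by_cases h : t ∈ G
    · rw [cvN_mem (Set.mem_insert_of_mem x h), cvE_mem G x h, cvN_mem h,
        sw_of_ne (by simp) (by simp)]
    · have h1 : t ∉ insert x G := by
        rintro (h2 | h2)
        · exact htx h2
        · exact h h2
      rw [cvN_notMem h1, cvN_notMem h, sw_of_ne (by simpa using htx) (by simp)]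
      rfl

private theorem notE {D : Type} {t : D} {P : Prop} : ¬(t ∈ (∅ : Set D) ∧ P) := fun h => h.1

private theorem notE' {D : Type} {t : D} {P : Prop} : ¬(P ∧ t ∈ (∅ : Set D)) := fun h => h.2

private theorem cover_insert_r {D : Type} (r : Perm D) (G : Set D) (x : D) (hx : x ∉ G)
    (R : (D ⊕ (G × Bool)) ⊕ Bool → (D ⊕ (G × Bool)) ⊕ Bool)
    (he : R (Sum.inl (Sum.inl x)) = Sum.inr true) (ht : R (Sum.inr true) = Sum.inl (Sum.inl x))
    (hf : R (Sum.inr false) = sw (Sum.inl (Sum.inl x)) (Sum.inr false) (Sum.inl (cvF r G ∅ (Sum.inl x))))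
    (hne : ∀ d : D ⊕ (G × Bool), d ≠ Sum.inl x →
      R (Sum.inl d) = sw (Sum.inl (Sum.inl x)) (Sum.inr false) (Sum.inl (cvF r G ∅ d)))
    (z : D ⊕ (↥(insert x G) × Bool)) :
    R (cvE G x z) = cvE G x (cvF r (insert x G) ∅ z) := by
  rcases z with t | ⟨y, b⟩
  · show R (Sum.inl (Sum.inl t)) = _
    by_cases htx : t = x
    · subst htx
      rw [he, cvF_inl_end r (Set.mem_insert _ _) notE, cvE_notMem G t hx]
    · rw [hne (Sum.inl t) (fun h => htx (Sum.inl_injective h))]
      by_cases h : t ∈ G
      · rw [cvF_inl_end r h notE,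
          cvF_inl_end r (Set.mem_insert_of_mem x h) notE, cvE_mem G x h,
          sw_of_ne (by simp) (by simp)]
      · have h2 : t ∉ insert x G := by
          rintro (h2 | h2)
          · exact htx h2
          · exact h h2
        rw [cvF_inl_notMem r _ h, cvF_inl_notMem r _ h2, cvE_cvN G x hx]
  · by_cases hy : (y : D) ∈ G
    · rw [cvE_mem G x hy, hne _ (by simp)]
      cases b
      · rw [cvF_false, cvF_false, cvE_cvN G x hx]
      · rw [cvF_true_end r notE', cvF_true_end r notE']
        have h2 : (y : D) ≠ x := fun h => hx (h ▸ hy)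
        rw [sw_of_ne (by simpa using h2) (by simp)]
        rfl
    · have hyx : (y : D) = x := by
        rcases y.2 with h1 | h1
        · exact h1
        · exact absurd h1 hy
      rw [cvE_notMem G x hy]
      cases b
      · rw [hf, cvF_false, cvE_cvN G x hx, hyx, cvF_inl_notMem r _ hx]
      · rw [ht, cvF_true_end r notE', hyx]
        rfl

private theorem cover_insert (S : Sf) (G : Set S.D) (x : S.D) (hx : x ∉ G) (L : ℕ) (hax : S.a x ≠ x)
    (h : U L (S.cover (insert x G) ∅)) : U L (S.cover G ∅) := by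
  let φ : (S.cover (insert x G) ∅).D ≃ ((S.cover G ∅).dbl (Sum.inl x)).D :=
    ⟨cvE G x, cvE' G x, cvE_left G x hx, cvE_right G x hx⟩
  refine U.dbl _ (Sum.inl x) ?_ (U_iso φ ⟨?_, ?_⟩ h)
  · rw [cover_a_inl]
    intro h1
    exact hax (Sum.inl_injective h1)
  · intro z
    exact cover_insert_r S.r G x hx (fun z => ((S.cover G ∅).dbl (Sum.inl x)).r z)
      (dbl_r_e (S.cover G ∅) (Sum.inl x)) (dbl_r_true (S.cover G ∅) (Sum.inl x))
      (dbl_r_false (S.cover G ∅) (Sum.inl x))
      (fun d hd => dbl_r_ne (S.cover G ∅) (e := Sum.inl x) (d := d) hd) z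
  · intro z
    rcases z with t | ⟨y, b⟩
    · rfl
    · show Equiv.sumCongr (S.cover G ∅).a Equiv.boolNot (cvE G x (Sum.inr (y, b))) = cvE G x (Sum.inr (y, !b))
      by_cases hy : (y : S.D) ∈ G
      · rw [cvE_mem G x hy, cvE_mem G x hy]
        rfl
      · rw [cvE_notMem G x hy, cvE_notMem G x hy]
        rfl

end Insert

private theorem cover_none (L : ℕ) (S : Sf) (G : Set S.D) (hG : ∀ x ∈ G, S.a x ≠ x)
    (h : U L (S.cover G ∅)) : U L S := by
  have hfin : G.Finite := Set.toFinite G
  induction G, hfin using Set.Finite.induction_on with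
  | empty => exact cover_empty L S h
  | @insert x G hx _ ih =>
    exact ih (fun y hy => hG y (Set.mem_insert_of_mem x hy))
      (cover_insert S G x hx L (hG x (Set.mem_insert _ _)) h)

/-! ## the joins -/

/-- projection to the old letters -/
private def cvP {D : Type} {G : Set D} : D ⊕ (G × Bool) → D
  | Sum.inl t => t
  | Sum.inr (x, _) => x

private theorem cvP_cvN {D : Type} (G : Set D) (t : D) : cvP (cvN G t) = t := by
  by_cases h : t ∈ G
  · rw [cvN_mem h]; rfl
  · rw [cvN_notMem h]; rfl

private theorem cvP_cvF {D : Type} (r : Perm D) (G J : Set D) (z : D ⊕ (G × Bool)) :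
    r.SameCycle (cvP z) (cvP (cvF r G J z)) := by
  have hs : ∀ t : D, r.SameCycle t (r t) := fun t =>
    Perm.sameCycle_apply_right.2 (Perm.SameCycle.refl _ _)
  rcases z with t | ⟨x, b⟩
  · by_cases h : t ∈ G
    · by_cases hJ : t ∈ J ∧ r t ∈ G
      · rw [cvF_inl_join r h hJ]; exact hs t
      · rw [cvF_inl_end r h hJ]; exact Perm.SameCycle.refl _ _
    · rw [cvF_inl_notMem r J h, cvP_cvN]; exact hs t
  · cases b
    · rw [cvF_false, cvP_cvN]; exact hs x
    · by_cases h : r.symm (x : D) ∈ G ∧ r.symm (x : D) ∈ J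
      · rw [cvF_true_join r h]
        show r.SameCycle (x : D) (r.symm x)
        have h1 := hs (r.symm (x : D))
        rw [Equiv.apply_symm_apply] at h1
        exact h1.symm
      · rw [cvF_true_end r h]; exact Perm.SameCycle.refl _ _

/-- outer letters -/
private def cvO {D : Type} {G : Set D} : D ⊕ (G × Bool) → Prop
  | Sum.inl t => t ∉ G
  | Sum.inr (_, b) => b = false

private theorem cvO_cvN {D : Type} (G : Set D) (t : D) : cvO (cvN G t) := by
  by_cases h : t ∈ G
  · rw [cvN_mem h]; rfl
  · rw [cvN_notMem h]; exact h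

private theorem cvO_cvF {D : Type} (r : Perm D) (G J : Set D) (z : D ⊕ (G × Bool)) :
    cvO (cvF r G J z) ↔ cvO z := by
  rcases z with t | ⟨x, b⟩
  · by_cases h : t ∈ G
    · have h0 : ¬ cvO (Sum.inl t : D ⊕ (G × Bool)) := fun h' => h' h
      by_cases hJ : t ∈ J ∧ r t ∈ G
      · rw [cvF_inl_join r h hJ]
        exact ⟨fun h' => absurd hJ.2 h', fun h' => absurd h' h0⟩
      · rw [cvF_inl_end r h hJ]
        exact ⟨fun h' => absurd h' (by intro h2; exact Bool.noConfusion h2), fun h' => absurd h' h0⟩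
    · rw [cvF_inl_notMem r J h]
      exact ⟨fun _ => h, fun _ => cvO_cvN G _⟩
  · cases b
    · rw [cvF_false]
      exact ⟨fun _ => rfl, fun _ => cvO_cvN G _⟩
    · have h0 : ¬ cvO (Sum.inr (x, true) : D ⊕ (G × Bool)) := fun h' => Bool.noConfusion h'
      by_cases h : r.symm (x : D) ∈ G ∧ r.symm (x : D) ∈ J
      · rw [cvF_true_join r h]
        exact ⟨fun h' => Bool.noConfusion h', fun h' => absurd h' h0⟩
      · rw [cvF_true_end r h]
        exact ⟨fun h' => absurd x.2 h', fun h' => absurd h' h0⟩

private theorem cover_word (S : Sf) (G J : Set S.D) {z z' : (S.cover G J).D}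
    (h : (S.cover G J).r.SameCycle z z') :
    S.r.SameCycle (cvP z) (cvP z') ∧ (cvO z' ↔ cvO z) := by
  obtain ⟨i, hi⟩ := h.exists_nat_pow_eq
  clear h
  induction i generalizing z' with
  | zero =>
    rw [pow_zero] at hi
    have : z = z' := hi
    subst this
    exact ⟨Perm.SameCycle.refl _ _, Iff.rfl⟩
  | succ i ih =>
    rw [pow_succ', Perm.mul_apply] at hi
    have h1 := ih (z' := ((S.cover G J).r ^ i) z) rfl
    rw [cover_r] at hi
    rw [← hi]
    exact ⟨h1.1.trans (cvP_cvF S.r G J _), (cvO_cvF S.r G J _).trans h1.2⟩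

private theorem cover_len (S : Sf) (G J : Set S.D) (hG : ∀ x ∈ G, S.a x ≠ x) (z : (S.cover G J).D) :
    (S.cover G J).len z ≤ 2 * S.len (cvP z) := by
  show ((S.cover G J).word z ∩ (S.cover G J).live).ncard ≤ 2 * (S.word (cvP z) ∩ S.live).ncard
  let ψ : (S.cover G J).D → S.D × Bool := fun y => match y with
    | Sum.inl t => (t, false)
    | Sum.inr (x, _) => (x, true)
  have h1 : ((S.cover G J).word z ∩ (S.cover G J).live).ncard
      ≤ ((S.word (cvP z) ∩ S.live) ×ˢ (Set.univ : Set Bool)).ncard := by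
    apply Set.ncard_le_ncard_of_injOn ψ
    · rintro y ⟨hy, hyl⟩
      have hw := (cover_word S G J hy).1
      rcases y with t | ⟨x, b⟩
      · refine ⟨⟨hw, ?_⟩, Set.mem_univ _⟩
        intro h2
        apply hyl
        show Sum.inl (S.a t) = Sum.inl t
        rw [show S.a t = t from h2]
      · exact ⟨⟨hw, hG x x.2⟩, Set.mem_univ _⟩
    · rintro y ⟨hy, _⟩ y' ⟨hy', _⟩ hyy
      have hO := (cover_word S G J hy).2.trans (cover_word S G J hy').2.symm
      rcases y with t | ⟨x, b⟩ <;> rcases y' with t' | ⟨x', b'⟩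
      · have h2 : t = t' := congrArg Prod.fst hyy
        rw [h2]
      · exact absurd (congrArg Prod.snd hyy) (by intro h2; exact Bool.noConfusion h2)
      · exact absurd (congrArg Prod.snd hyy) (by intro h2; exact Bool.noConfusion h2)
      · have h2 : (x : S.D) = x' := congrArg Prod.fst hyy
        have h3 : x = x' := Subtype.ext h2
        subst h3
        have h4 : (b = false) ↔ (b' = false) := hO
        have h5 : b = b' := by
          cases b <;> cases b' <;> simp_all
        rw [h5]
  rw [Set.ncard_prod, Set.ncard_univ, Nat.card_eq_fintype_card, Fintype.card_bool] at h1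
  omega

private theorem cover_join (L : ℕ) (S : Sf) (G J : Set S.D) (hG : ∀ x ∈ G, S.a x ≠ x)
    (hL : ∀ d, 2 * S.len d ≤ L) (y : S.D) (hyJ : y ∉ J) (h : U L (S.cover G (insert y J))) :
    U L (S.cover G J) := by
  by_cases hy : y ∈ G ∧ S.r y ∈ G
  · -- a real join
    have hz : ∀ z : S.D ⊕ (G × Bool), sw (Sum.inr (⟨y, hy.1⟩, true)) (Sum.inl (S.r y)) (cvF S.r G J z)
        = cvF S.r G (insert y J) z := by
      intro z
      rcases z with t | ⟨x, b⟩
      · by_cases ht : t ∈ G
        · by_cases hty : t = y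
          · subst hty
            rw [cvF_inl_end S.r ht (fun h => hyJ h.1), sw_left,
              cvF_inl_join S.r ht ⟨Set.mem_insert _ _, hy.2⟩]
          · by_cases hJ : t ∈ J ∧ S.r t ∈ G
            · rw [cvF_inl_join S.r ht hJ, cvF_inl_join S.r ht ⟨Set.mem_insert_of_mem _ hJ.1, hJ.2⟩,
                sw_of_ne (by simp) (fun h => hty (S.r.injective (Sum.inl_injective h)))]
            · have hJ' : ¬(t ∈ insert y J ∧ S.r t ∈ G) := by
                rintro ⟨h1 | h1, h2⟩
                · exact hty h1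
                · exact hJ ⟨h1, h2⟩
              rw [cvF_inl_end S.r ht hJ, cvF_inl_end S.r ht hJ', sw_of_ne _ (by simp)]
              intro h1
              apply hty
              have h2 := Sum.inr_injective h1
              exact congrArg (fun p => (p.1 : S.D)) h2
        · rw [cvF_inl_notMem S.r J ht, cvF_inl_notMem S.r _ ht]
          by_cases h2 : S.r t ∈ G
          · rw [cvN_mem h2, sw_of_ne _ (by simp)]
            intro h1
            have h3 := congrArg Prod.snd (Sum.inr_injective h1)
            exact Bool.noConfusion h3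
          · rw [cvN_notMem h2, sw_of_ne (by simp)
              (fun h1 => h2 (by rw [Sum.inl_injective h1]; exact hy.2))]
      · cases b
        · rw [cvF_false, cvF_false]
          by_cases h2 : S.r x ∈ G
          · rw [cvN_mem h2, sw_of_ne _ (by simp)]
            intro h1
            have h3 := congrArg Prod.snd (Sum.inr_injective h1)
            exact Bool.noConfusion h3
          · rw [cvN_notMem h2, sw_of_ne (by simp)
              (fun h1 => h2 (by rw [Sum.inl_injective h1]; exact hy.2))]
        · by_cases hxy : S.r.symm (x : S.D) = y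
          · have hx1 : ¬(S.r.symm (x : S.D) ∈ G ∧ S.r.symm (x : S.D) ∈ J) := by
              rw [hxy]; exact fun h => hyJ h.2
            have hx2 : S.r.symm (x : S.D) ∈ G ∧ S.r.symm (x : S.D) ∈ insert y J := by
              rw [hxy]; exact ⟨hy.1, Set.mem_insert _ _⟩
            rw [cvF_true_end S.r hx1, cvF_true_join S.r hx2]
            have hx3 : (Sum.inl (x : S.D) : S.D ⊕ (G × Bool)) = Sum.inl (S.r y) := by
              rw [← hxy, Equiv.apply_symm_apply]
            refine (congrArg _ hx3).trans ?_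
            rw [sw_right]
            congr 2
            apply Subtype.ext
            exact hxy.symm
          · by_cases hx1 : S.r.symm (x : S.D) ∈ G ∧ S.r.symm (x : S.D) ∈ J
            · rw [cvF_true_join S.r hx1,
                cvF_true_join S.r ⟨hx1.1, Set.mem_insert_of_mem _ hx1.2⟩, sw_of_ne _ (by simp)]
              intro h1
              apply hxy
              have h2 := Sum.inr_injective h1
              exact congrArg (fun p => (p.1 : S.D)) h2
            · have hx2 : ¬(S.r.symm (x : S.D) ∈ G ∧ S.r.symm (x : S.D) ∈ insert y J) := by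
                rintro ⟨h1, h2 | h2⟩
                · exact hxy h2
                · exact hx1 ⟨h1, h2⟩
              rw [cvF_true_end S.r hx1, cvF_true_end S.r hx2, sw_of_ne (by simp) _]
              intro h1
              apply hxy
              rw [Sum.inl_injective h1, Equiv.symm_apply_apply]
    refine U.vtx (S.cover G J) (Sum.inr (⟨y, hy.1⟩, true)) (Sum.inl (S.r y)) ?_ ?_ (by simp) ?_ ?_ ?_
    · rw [cover_a_inr]
      intro h1
      have h3 := congrArg Prod.snd (Sum.inr_injective h1)
      exact Bool.noConfusion h3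
    · rw [cover_a_inl]
      intro h1
      exact hG _ hy.2 (Sum.inl_injective h1)
    · refine ⟨2, ?_⟩
      show ((S.cover G J).r * (S.cover G J).a) ((((S.cover G J).r * (S.cover G J).a) ^ 1)
        (Sum.inr (⟨y, hy.1⟩, true))) = _
      rw [pow_one, Perm.mul_apply, Perm.mul_apply, cover_a_inr, cover_r]
      show (S.cover G J).r ((S.cover G J).a (cvN G (S.r y))) = _
      rw [cvN_mem hy.2, cover_a_inr, cover_r]
      show cvF S.r G J (Sum.inr (⟨S.r y, hy.2⟩, true)) = _
      rw [cvF_true_end]
      rintro ⟨_, h2⟩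
      apply hyJ
      rwa [Equiv.symm_apply_apply] at h2
    · intro d
      exact (cover_len S G J hG d).trans (hL _)
    · refine U_iso (Equiv.refl (S.D ⊕ (G × Bool))) ⟨?_, fun _ => rfl⟩ h
      intro z
      exact hz z
  · -- nothing happens
    refine U_iso (Equiv.refl (S.D ⊕ (G × Bool))) ⟨?_, fun _ => rfl⟩ h
    intro z
    show cvF S.r G J z = cvF S.r G (insert y J) z
    rcases z with t | ⟨x, b⟩
    · by_cases ht : t ∈ G
      · by_cases hJ : t ∈ J ∧ S.r t ∈ G
        · rw [cvF_inl_join S.r ht hJ, cvF_inl_join S.r ht ⟨Set.mem_insert_of_mem _ hJ.1, hJ.2⟩]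
        · have hJ' : ¬(t ∈ insert y J ∧ S.r t ∈ G) := by
            rintro ⟨h1 | h1, h2⟩
            · exact hy ⟨h1 ▸ ht, h1 ▸ h2⟩
            · exact hJ ⟨h1, h2⟩
          rw [cvF_inl_end S.r ht hJ, cvF_inl_end S.r ht hJ']
      · rw [cvF_inl_notMem S.r J ht, cvF_inl_notMem S.r _ ht]
    · cases b
      · rw [cvF_false, cvF_false]
      · by_cases hx1 : S.r.symm (x : S.D) ∈ G ∧ S.r.symm (x : S.D) ∈ J
        · rw [cvF_true_join S.r hx1, cvF_true_join S.r ⟨hx1.1, Set.mem_insert_of_mem _ hx1.2⟩]
        · have hx2 : ¬(S.r.symm (x : S.D) ∈ G ∧ S.r.symm (x : S.D) ∈ insert y J) := by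
            rintro ⟨h1, h2 | h2⟩
            · apply hy
              refine ⟨h2 ▸ h1, ?_⟩
              rw [← h2, Equiv.apply_symm_apply]
              exact x.2
            · exact hx1 ⟨h1, h2⟩
          rw [cvF_true_end S.r hx1, cvF_true_end S.r hx2]

theorem cover_U (L : ℕ) (S : Sf) (G J : Set S.D) (hG : ∀ x ∈ G, S.a x ≠ x) (hL : ∀ d, 2 * S.len d ≤ L)
    (h : U L (S.cover G J)) : U L S := by
  apply cover_none L S G hG
  have hfin : J.Finite := Set.toFinite J
  induction J, hfin using Set.Finite.induction_on with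
  | empty => exact h
  | @insert y J hy _ ih => exact ih (cover_join L S G J hG hL y hy h)

/-- the lengths of the words of the doubled state -/
theorem cover_len_le (S : Sf) (G J : Set S.D) (hG : ∀ x ∈ G, S.a x ≠ x) {L : ℕ} (hL : ∀ d, 2 * S.len d ≤ L)
    (z : (S.cover G J).D) : (S.cover G J).len z ≤ L := (cover_len S G J hG z).trans (hL _)

end Pool.Agent.GW
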