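import Pool.Agent.GW.LayDef
import Pool.Agent.SWP.Cy

/-!
# GW/LayPos: positions of letters in their words (row 402, T1FIN)

PROOF. `pos_exists`: choose a letter `b` in every word (`Quotient.out` of `S.wd d`), `p` = number of letters of the word = least `p > 0`
with `r ^ p b = b`; `pos d` = least `k` with `r ^ k b = d`. The others follow from `pw`, `idx`, `lt` and `r ^ p b = b`.
-/

set_option autoImplicit false

namespace Pool.Agent.GW

open Equiv Pool.Agent.SWP

private theorem LayPos_pow_add {D : Type} (s : Perm D) (m n : ℕ) (z : D) : (s ^ (m + n)) z = (s ^ m) ((s ^ n) z) := by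
  rw [pow_add, Perm.mul_apply]

/-- the cycle of a letter: its least period is the number of its letters -/
private theorem LayPos_cyc {D : Type} [Finite D] (s : Perm D) (x : D) :
    ∃ n : ℕ, (s ^ n) x = x ∧ {e | s.SameCycle x e}.ncard = n ∧ (∀ e, s.SameCycle x e → ∃ k < n, (s ^ k) x = e) ∧
      ∀ j < n, ∀ k < n, (s ^ j) x = (s ^ k) x → j = k := by
  classical
  have := Fintype.ofFinite D
  have hex : ∃ n : ℕ, 0 < n ∧ (s ^ n) x = x := ⟨orderOf s, orderOf_pos s, by rw [pow_orderOf_eq_one]; rfl⟩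
  set n := Nat.find hex with hn
  have h0 : 0 < n := (Nat.find_spec hex).1
  have h1 : (s ^ n) x = x := (Nat.find_spec hex).2
  have hmin : ∀ m < n, 0 < m → (s ^ m) x ≠ x := fun m hm hm0 he => Nat.find_min hex hm ⟨hm0, he⟩
  have hinj : ∀ j < n, ∀ k < n, (s ^ j) x = (s ^ k) x → j = k := by
    have key : ∀ j k, j < k → k < n → (s ^ j) x ≠ (s ^ k) x := by
      intro j k hjk hk he
      refine hmin (k - j) (by omega) (by omega) ?_
      apply (s ^ j).injective
      rw [← LayPos_pow_add, Nat.add_sub_cancel' hjk.le, ← he]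
    intro j hj k hk he
    rcases Nat.lt_trichotomy j k with h | h | h
    · exact absurd he (key j k h hk)
    · exact h
    · exact absurd he.symm (key k j h hj)
  have hmul : ∀ q : ℕ, (s ^ (n * q)) x = x := by
    intro q
    induction q with
    | zero => simp
    | succ q ih => rw [Nat.mul_succ, LayPos_pow_add, h1, ih]
  have hall : ∀ e, s.SameCycle x e → ∃ k < n, (s ^ k) x = e := by
    intro e he
    obtain ⟨m, hm⟩ := he.exists_nat_pow_eq
    refine ⟨m % n, Nat.mod_lt _ h0, ?_⟩
    rw [← hm]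
    conv_rhs => rw [← Nat.mod_add_div m n]
    rw [LayPos_pow_add, hmul]
  refine ⟨n, h1, ?_, hall, hinj⟩
  have hset : {e | s.SameCycle x e} = (((Finset.range n).image (fun k => (s ^ k) x) : Finset D) : Set D) := by
    ext e
    simp only [Finset.coe_image, Finset.coe_range, Set.mem_image, Set.mem_Iio]
    constructor
    · intro he
      exact hall e he
    · rintro ⟨k, _, rfl⟩
      exact ⟨(k : ℤ), by rw [zpow_natCast]⟩
  rw [hset, Set.ncard_coe_finset, Finset.card_image_of_injOn, Finset.card_range]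
  intro j hj k hk he
  exact hinj j (by simpa using hj) k (by simpa using hk) he

private theorem LayPos_word (S : Sf) {d e : S.D} (h : S.r.SameCycle d e) : S.word d = S.word e := by
  ext x
  exact ⟨fun h1 => h.symm.trans h1, fun h1 => h.trans h1⟩

theorem pos_exists (S : Sf) : ∃ (pos : S.D → ℕ) (b : S.D → S.D), Pos S pos b := by
  classical
  set b : S.D → S.D := fun d => Quotient.out (S.wd d) with hb
  have hsame : ∀ d, S.r.SameCycle (b d) d := by
    intro d
    rw [← S.wd_eq]
    exact Quotient.out_eq (S.wd d)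
  have hconst : ∀ d e, S.r.SameCycle d e → b d = b e := by
    intro d e h
    have h1 : S.wd d = S.wd e := (S.wd_eq d e).2 h
    simp only [hb, h1]
  have hex : ∀ d, ∃ k : ℕ, (S.r ^ k) (b d) = d := fun d => (hsame d).exists_nat_pow_eq
  set pos : S.D → ℕ := fun d => Nat.find (hex d) with hpos
  have hcyc : ∀ d, (∀ e, S.r.SameCycle (b d) e → ∃ k < (S.word d).ncard, (S.r ^ k) (b d) = e) ∧
      ∀ j < (S.word d).ncard, ∀ k < (S.word d).ncard, (S.r ^ j) (b d) = (S.r ^ k) (b d) → j = k := by
    intro d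
    obtain ⟨n, _, h2, h3, h4⟩ := LayPos_cyc S.r (b d)
    have h5 : (S.word d).ncard = n := by
      rw [← LayPos_word S (hsame d)]; exact h2
    rw [h5]
    exact ⟨h3, h4⟩
  refine ⟨pos, b, hsame, hconst, fun d => Nat.find_spec (hex d), ?_, ?_⟩
  · intro d
    obtain ⟨k, hk, hk'⟩ := (hcyc d).1 d (hsame d)
    exact lt_of_le_of_lt (Nat.find_min' (hex d) hk') hk
  · intro d k hk
    have hbk : b ((S.r ^ k) (b d)) = b d := by
      refine hconst _ _ ?_
      refine Perm.SameCycle.trans (Perm.SameCycle.symm ?_) (hsame d)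
      exact ⟨(k : ℤ), by rw [zpow_natCast]⟩
    have h1 : pos ((S.r ^ k) (b d)) ≤ k := Nat.find_min' (hex ((S.r ^ k) (b d))) (by rw [hbk])
    have h2 : (S.r ^ pos ((S.r ^ k) (b d))) (b ((S.r ^ k) (b d))) = (S.r ^ k) (b d) :=
      Nat.find_spec (hex ((S.r ^ k) (b d)))
    rw [hbk] at h2
    exact (hcyc d).2 _ (by omega) _ hk h2

namespace Pos

variable {S : Sf} {pos : S.D → ℕ} {b : S.D → S.D}

private theorem LayPos_per (h : Pos S pos b) (d : S.D) : (S.r ^ (S.word d).ncard) (b d) = b d := by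
  obtain ⟨n, h1, h2, _, _⟩ := LayPos_cyc S.r (b d)
  have h5 : (S.word d).ncard = n := by
    rw [← LayPos_word S (h.same d)]; exact h2
  rw [h5]; exact h1

theorem next (h : Pos S pos b) (d : S.D) :
    (pos (S.r d) = pos d + 1 ∧ pos d + 1 < (S.word d).ncard) ∨ (pos (S.r d) = 0 ∧ pos d + 1 = (S.word d).ncard) := by
  have hlt := h.lt d
  have h1 : S.r d = (S.r ^ (pos d + 1)) (b d) := by
    rw [pow_succ', Perm.mul_apply, h.pw d]
  rcases Nat.lt_or_ge (pos d + 1) (S.word d).ncard with h2 | h2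
  · left
    exact ⟨by rw [h1]; exact h.idx d _ h2, h2⟩
  · right
    have h3 : pos d + 1 = (S.word d).ncard := by omega
    refine ⟨?_, h3⟩
    rw [h1, h3, LayPos_per h d]
    have h4 := h.idx d 0 (by omega)
    simpa using h4

theorem inj (h : Pos S pos b) {d e : S.D} (hde : S.r.SameCycle d e) (he : pos d = pos e) : d = e := by
  rw [← h.pw d, ← h.pw e, he, h.const d e hde]

theorem reach (h : Pos S pos b) {d e : S.D} (hde : S.r.SameCycle d e) (hle : pos d ≤ pos e) :
    (S.r ^ (pos e - pos d)) d = e := by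
  have h1 : (S.r ^ (pos e - pos d)) ((S.r ^ pos d) (b d)) = e := by
    rw [← LayPos_pow_add, Nat.sub_add_cancel hle, h.const d e hde, h.pw e]
  rw [h.pw d] at h1
  exact h1

/-- positions along a run -/
theorem along (h : Pos S pos b) {d e : S.D} (hde : S.r.SameCycle d e) {i : ℕ} (hi : pos d + i ≤ pos e) :
    pos ((S.r ^ i) d) = pos d + i := by
  have h1 : (S.r ^ i) d = (S.r ^ (pos d + i)) (b d) := by
    rw [Nat.add_comm, LayPos_pow_add, h.pw d]
  rw [h1]
  refine h.idx d _ ?_
  have h2 := h.lt e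
  rw [← LayPos_word S hde] at h2
  omega

/-- a block is a run of joined letters -/
theorem run (h : Pos S pos b) (l : ℕ) {d e : S.D} (hde : S.r.SameCycle d e) (hb : pos d / 2 ^ l = pos e / 2 ^ l) {i : ℕ}
    (hi : pos d + i < pos e) : jn S.r pos l ((S.r ^ i) d) := by
  have h1 : pos ((S.r ^ i) d) = pos d + i := h.along hde (by omega)
  have h2 : pos ((S.r ^ (i + 1)) d) = pos d + (i + 1) := h.along hde (by omega)
  have h3 : S.r ((S.r ^ i) d) = (S.r ^ (i + 1)) d := by rw [pow_succ', Perm.mul_apply]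
  unfold jn
  rw [h3, h2, h1]
  refine ⟨rfl, ?_⟩
  have a1 : pos d / 2 ^ l ≤ (pos d + i) / 2 ^ l := Nat.div_le_div_right (by omega)
  have a2 : (pos d + i) / 2 ^ l ≤ (pos d + (i + 1)) / 2 ^ l := Nat.div_le_div_right (by omega)
  have a3 : (pos d + (i + 1)) / 2 ^ l ≤ pos e / 2 ^ l := Nat.div_le_div_right (by omega)
  omega

end Pos

end Pool.Agent.GW
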