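import Pool.Agent.GW.CovDef
import Pool.Agent.GW.Union

/-!
# GW/UEmb (helper61): isolated dead letters may be removed or added (MP_37d33d_gt)

`Emb S T j`: `T` is `S` together with isolated dead letters.
-/

set_option autoImplicit false

namespace Pool.Agent.GW

open Equiv Pool.Agent.SWP

section perm

variable {α β : Type} {s : Perm α} {t : Perm β} {j : α → β}

theorem inj_map (hj : Function.Injective j) : Function.Injective (Sum.map j (id : Bool → Bool)) :=
  Function.Injective.sumMap hj Function.injective_id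

theorem emb_dbl (hj : Function.Injective j) (h : ∀ d, t (j d) = j (s d)) (e : α) (d : α ⊕ Bool) :
    (sw (Sum.inl (j e) : β ⊕ Bool) (Sum.inr false) * Equiv.sumCongr t (Equiv.refl Bool) *
      sw (Sum.inr true : β ⊕ Bool) (Sum.inr false) * sw (Sum.inl (j e) : β ⊕ Bool) (Sum.inr false))
      (Sum.map j (id : Bool → Bool) d) =
    Sum.map j (id : Bool → Bool) ((sw (Sum.inl e : α ⊕ Bool) (Sum.inr false) *
      Equiv.sumCongr s (Equiv.refl Bool) * sw (Sum.inr true : α ⊕ Bool) (Sum.inr false) *
      sw (Sum.inl e : α ⊕ Bool) (Sum.inr false)) d) := by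
  have hj' := inj_map hj
  have e1 : (Sum.inl (j e) : β ⊕ Bool) = Sum.map j (id : Bool → Bool) (Sum.inl e) := rfl
  have e2 : ∀ x : Bool, (Sum.inr x : β ⊕ Bool) = Sum.map j (id : Bool → Bool) (Sum.inr x) := fun _ => rfl
  have e3 : ∀ d : α ⊕ Bool, Equiv.sumCongr t (Equiv.refl Bool) (Sum.map j (id : Bool → Bool) d) =
      Sum.map j (id : Bool → Bool) (Equiv.sumCongr s (Equiv.refl Bool) d) := by
    intro d
    rcases d with d | d
    · exact congrArg Sum.inl (h d)
    · rfl
  simp only [Perm.mul_apply]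
  rw [e1, e2 true, e2 false, sw_map hj', sw_map hj', e3, sw_map hj']

theorem emb_sub (hj : Function.Injective j) (h : ∀ d, t (j d) = j (s d)) (e f : α) (d : α ⊕ Bool) :
    (sw (Sum.inl (j f) : β ⊕ Bool) (Sum.inr false) * Equiv.sumCongr t (Equiv.refl Bool) *
      sw (Sum.inl (j e) : β ⊕ Bool) (Sum.inr true)) (Sum.map j (id : Bool → Bool) d) =
    Sum.map j (id : Bool → Bool) ((sw (Sum.inl f : α ⊕ Bool) (Sum.inr false) *
      Equiv.sumCongr s (Equiv.refl Bool) * sw (Sum.inl e : α ⊕ Bool) (Sum.inr true)) d) := by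
  have hj' := inj_map hj
  have e1 : ∀ e : α, (Sum.inl (j e) : β ⊕ Bool) = Sum.map j (id : Bool → Bool) (Sum.inl e) := fun _ => rfl
  have e2 : ∀ x : Bool, (Sum.inr x : β ⊕ Bool) = Sum.map j (id : Bool → Bool) (Sum.inr x) := fun _ => rfl
  have e3 : ∀ d : α ⊕ Bool, Equiv.sumCongr t (Equiv.refl Bool) (Sum.map j (id : Bool → Bool) d) =
      Sum.map j (id : Bool → Bool) (Equiv.sumCongr s (Equiv.refl Bool) d) := by
    intro d
    rcases d with d | d
    · exact congrArg Sum.inl (h d)
    · rfl
  simp only [Perm.mul_apply]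
  rw [e1 e, e1 f, e2 true, e2 false, sw_map hj', e3, sw_map hj']

theorem emb_right (hj : Function.Injective j) (h : ∀ d, t (j d) = j (s d)) (b c d : α) :
    (t * sw (j b) (j c)) (j d) = j ((s * sw b c) d) := by
  rw [Perm.mul_apply, Perm.mul_apply, sw_map hj, h]

theorem emb_left (hj : Function.Injective j) (h : ∀ d, t (j d) = j (s d)) (b c d : α) :
    (sw (j b) (j c) * t) (j d) = j ((sw b c * s) d) := by
  rw [Perm.mul_apply, Perm.mul_apply, h, sw_map hj]

end perm

/-- `T` is `S` with additional isolated dead letters -/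
structure Emb (S T : Sf) (j : S.D → T.D) : Prop extends Sub S T j where
  dead : ∀ e, (∀ d, j d ≠ e) → T.a e = e

section

variable {S T : Sf} {j : S.D → T.D}

theorem Emb.img (h : Emb S T j) {e : T.D} (he : T.a e ≠ e) : ∃ d, j d = e := by
  by_contra h'
  exact he (h.dead e (fun d hd => h' ⟨d, hd⟩))

theorem Sub.out_r (h : Sub S T j) {e : T.D} (he : ∀ d, j d ≠ e) (d : S.D) : j d ≠ T.r e := by
  intro h'
  have h1 : T.r (j (S.r.symm d)) = T.r e := by
    rw [h.r, S.r.apply_symm_apply, h']
  exact he _ (T.r.injective h1)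

theorem Emb.len_out (h : Emb S T j) {e : T.D} (he : ∀ d, j d ≠ e) : T.len e = 0 := by
  unfold Sf.len Sf.num
  have h1 : T.word e ∩ T.live = ∅ := by
    ext f
    constructor
    · rintro ⟨hf, hl⟩
      obtain ⟨d, rfl⟩ := h.img hl
      obtain ⟨y, hy, _⟩ := (same_map h.r d e).mp (Perm.SameCycle.symm hf)
      exact he y hy.symm
    · intro hf
      exact hf.elim
  rw [h1, Set.ncard_empty]

theorem Emb.len_le (h : Emb S T j) {L : ℕ} (hl : ∀ d, S.len d ≤ L) (e : T.D) : T.len e ≤ L := by
  by_cases he : ∃ d, j d = e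
  · obtain ⟨d, rfl⟩ := he
    rw [h.toSub.len]
    exact hl d
  · rw [h.len_out (fun d hd => he ⟨d, hd⟩)]
    exact Nat.zero_le L

theorem Emb.glue (h : Emb S T j) (b : S.D) : Emb (S.glue b) (T.glue (j b)) j where
  inj := h.inj
  r := by
    intro d
    have h1 := emb_right h.inj h.r b (S.a b) d
    rw [← h.a] at h1
    exact h1
  a := by
    intro d
    have h1 := emb_right h.inj h.a b (S.a b) d
    rw [← h.a] at h1
    exact h1
  dead := by
    intro e he
    have h1 : sw (j b) (T.a (j b)) e = e := by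
      rw [h.a]
      exact sw_out he
    have h2 : (T.a * sw (j b) (T.a (j b))) e = e := by
      rw [Perm.mul_apply, h1, h.dead e he]
    exact h2

theorem Emb.dbl (h : Emb S T j) (b : S.D) :
    Emb (S.dbl b) (T.dbl (j b)) (Sum.map j (id : Bool → Bool)) where
  inj := inj_map h.inj
  r := fun d => emb_dbl h.inj h.r b d
  a := by
    rintro (d | d)
    · exact congrArg Sum.inl (h.a d)
    · rfl
  dead := by
    rintro (e | e) he
    · exact congrArg Sum.inl (h.dead e (fun d hd => he (Sum.inl d) (congrArg Sum.inl hd)))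
    · exact absurd rfl (he (Sum.inr e))

theorem Emb.sub' (h : Emb S T j) (b : S.D) :
    Emb (S.sub b) (T.sub (j b)) (Sum.map j (id : Bool → Bool)) where
  inj := inj_map h.inj
  r := by
    intro d
    have h1 := emb_sub h.inj h.r b (S.a b) d
    rw [← h.a] at h1
    exact h1
  a := by
    rintro (d | d)
    · exact congrArg Sum.inl (h.a d)
    · rfl
  dead := by
    rintro (e | e) he
    · exact congrArg Sum.inl (h.dead e (fun d hd => he (Sum.inl d) (congrArg Sum.inl hd)))
    · exact absurd rfl (he (Sum.inr e))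

theorem Emb.setr (h : Emb S T j) {r : Perm S.D} {r' : Perm T.D} (hr : ∀ d, r' (j d) = j (r d)) :
    Emb (S.setr r) (T.setr r') j where
  inj := h.inj
  r := hr
  a := h.a
  dead := h.dead

end

theorem U.ext {L : ℕ} {S : Sf} (hU : U L S) : ∀ {T : Sf} {j : S.D → T.D}, Emb S T j → U L T := by
  induction hU with
  | done S h0 =>
    intro T j h
    refine U.done T (fun e => ?_)
    by_contra he
    obtain ⟨d, rfl⟩ := h.img he
    exact he ((h.toSub.live d).mpr (h0 d))
  | glue S b hb hl _ ih =>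
    intro T j h
    exact U.glue T (j b) (fun h' => hb ((h.toSub.live b).mp h')) (h.len_le hl) (ih (h.glue b))
  | dbl S e he _ ih =>
    intro T j h
    exact U.dbl T (j e) (fun h' => he ((h.toSub.live e).mp h')) (ih (h.dbl e))
  | sub S e he _ ih =>
    intro T j h
    exact U.sub T (j e) (fun h' => he ((h.toSub.live e).mp h')) (ih (h.sub' e))
  | vtx S p q hp hq hpq hv hl _ ih =>
    intro T j h
    exact U.vtx T (j p) (j q) (fun h' => hp ((h.toSub.live p).mp h')) (fun h' => hq ((h.toSub.live q).mp h'))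
      (fun h' => hpq (h.inj h')) ((h.toSub.vx p q).mpr hv) (h.len_le hl)
      (ih (h.setr (emb_left h.inj h.r p q)))
  | ghost S g hg _ ih =>
    intro T j h
    refine U.ghost T (j g) ((h.toSub.live g).mpr hg) (ih (h.setr ?_))
    rw [h.r]
    exact emb_left h.inj h.r g (S.r g)

theorem U.emb {L : ℕ} {T : Sf} (hU : U L T) : ∀ {S : Sf} {j : S.D → T.D}, Emb S T j → U L S := by
  induction hU with
  | done T h0 =>
    intro S j h
    exact U.done S (fun d => (h.toSub.live d).mp (h0 _))
  | glue T b hb hl _ ih =>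
    intro S j h
    obtain ⟨d, rfl⟩ := h.img hb
    refine U.glue S d (fun h' => hb ((h.toSub.live d).mpr h')) (fun x => ?_) (ih (h.glue d))
    rw [← h.toSub.len]
    exact hl _
  | dbl T e he _ ih =>
    intro S j h
    obtain ⟨d, rfl⟩ := h.img he
    exact U.dbl S d (fun h' => he ((h.toSub.live d).mpr h')) (ih (h.dbl d))
  | sub T e he _ ih =>
    intro S j h
    obtain ⟨d, rfl⟩ := h.img he
    exact U.sub S d (fun h' => he ((h.toSub.live d).mpr h')) (ih (h.sub' d))
  | vtx T p q hp hq hpq hv hl _ ih =>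
    intro S j h
    obtain ⟨p', rfl⟩ := h.img hp
    obtain ⟨q', rfl⟩ := h.img hq
    refine U.vtx S p' q' (fun h' => hp ((h.toSub.live p').mpr h')) (fun h' => hq ((h.toSub.live q').mpr h'))
      (fun h' => hpq (congrArg j h')) ((h.toSub.vx p' q').mp hv) (fun x => ?_)
      (ih (h.setr (emb_left h.inj h.r p' q')))
    rw [← h.toSub.len]
    exact hl _
  | ghost T g hg _ ih =>
    intro S j h
    by_cases hx : ∃ d, j d = g
    · obtain ⟨d, rfl⟩ := hx
      refine U.ghost S d ((h.toSub.live d).mp hg) (ih (h.setr ?_))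
      rw [h.r]
      exact emb_left h.inj h.r d (S.r d)
    · have hx' : ∀ d, j d ≠ g := fun d hd => hx ⟨d, hd⟩
      have h2 : Emb (S.setr S.r) (T.setr (sw g (T.r g) * T.r)) j := by
        refine h.setr (fun d => ?_)
        rw [Perm.mul_apply, h.r]
        exact sw_of_ne (hx' _) (h.toSub.out_r hx' _)
      exact ih h2

/-- states which differ by isolated dead letters (and by the names of the letters) -/
theorem U_emb (L : ℕ) {T : Sf} (h : U L T) (S : Sf) (j : S.D → T.D) (hj : Function.Injective j)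
    (hr : ∀ d, T.r (j d) = j (S.r d)) (ha : ∀ d, T.a (j d) = j (S.a d)) (hd : ∀ e, (∀ d, j d ≠ e) → T.a e = e) :
    U L S := h.emb ⟨⟨hj, hr, ha⟩, hd⟩

/-- the other direction: isolated dead letters may be added -/
theorem U_ext (L : ℕ) {S : Sf} (h : U L S) (T : Sf) (j : S.D → T.D) (hj : Function.Injective j)
    (hr : ∀ d, T.r (j d) = j (S.r d)) (ha : ∀ d, T.a (j d) = j (S.a d)) (hd : ∀ e, (∀ d, j d ≠ e) → T.a e = e) :
    U L T := h.ext ⟨⟨hj, hr, ha⟩, hd⟩

end Pool.Agent.GW
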