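import Pool.Agent.GW.GenCov
import Pool.Agent.GW.Cover
import Pool.Agent.GW.LayPos
import Pool.Agent.GW.UEmb

/-!
# GW/ChordA (helper76): one chord

`y, r y, .., r ^ k y` pairwise different letters (`p ((r ^ m) y) = m` for `m ≤ k`), the last one in `N`. Cover with all joins.
-/

set_option autoImplicit false

namespace Pool.Agent.GW

open Equiv Pool.Agent.SWP

namespace Chord

/-- the first `k + 1` letters from `y` on -/
def G {D : Type} (r : Perm D) (y : D) (k : ℕ) : Set D := {z | ∃ m ≤ k, (r ^ m) y = z}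

/-- the joins -/
def J {D : Type} (r : Perm D) (y : D) (k : ℕ) : Set D := {z | ∃ m < k, (r ^ m) y = z}

section seq

variable {D : Type} {r : Perm D} {y : D} {k : ℕ} {p : D → ℕ} (hp : ∀ m ≤ k, p ((r ^ m) y) = m)

theorem pow_s (r : Perm D) (m : ℕ) (y : D) : (r ^ (m + 1)) y = r ((r ^ m) y) := by
  rw [pow_succ', Perm.mul_apply]

include hp in
theorem p_y : p y = 0 := hp 0 (Nat.zero_le _)

theorem y_mem : y ∈ G r y k := ⟨0, Nat.zero_le _, rfl⟩

include hp in
theorem p_le {z : D} (hz : z ∈ G r y k) : p z ≤ k := by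
  obtain ⟨m, hm, rfl⟩ := hz
  rw [hp m hm]; exact hm

include hp in
theorem eq_pow {z : D} (hz : z ∈ G r y k) : (r ^ p z) y = z := by
  obtain ⟨m, hm, rfl⟩ := hz
  rw [hp m hm]

include hp in
theorem p_inj {z w : D} (hz : z ∈ G r y k) (hw : w ∈ G r y k) (h : p z = p w) : z = w := by
  rw [← eq_pow hp hz, h, eq_pow hp hw]

theorem J_sub {z : D} (hz : z ∈ J r y k) : z ∈ G r y k := by
  obtain ⟨m, hm, rfl⟩ := hz
  exact ⟨m, hm.le, rfl⟩

include hp in
theorem J_iff {z : D} (hz : z ∈ G r y k) : z ∈ J r y k ↔ p z < k := by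
  constructor
  · rintro ⟨m, hm, rfl⟩
    rw [hp m hm.le]; exact hm
  · intro h
    exact ⟨p z, h, eq_pow hp hz⟩

include hp in
theorem next_mem {z : D} (hz : z ∈ G r y k) (h : p z < k) : r z ∈ G r y k ∧ p (r z) = p z + 1 := by
  have h1 : (r ^ (p z + 1)) y = r z := by rw [pow_s, eq_pow hp hz]
  refine ⟨⟨p z + 1, h, h1⟩, ?_⟩
  rw [← h1]
  exact hp _ h

include hp in
theorem last_next {z : D} (hz : z ∈ G r y k) (h : p z = k) (h2 : r z ∈ G r y k) : r z = y := by
  obtain ⟨m, hm, hm2⟩ := h2
  cases m with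
  | zero => exact hm2.symm
  | succ m =>
    exfalso
    rw [pow_s] at hm2
    have h3 := r.injective hm2
    have h4 : p z = m := by rw [← h3]; exact hp m (by omega)
    omega

theorem enter {w : D} (hw : w ∉ G r y k) (h2 : r w ∈ G r y k) : r w = y := by
  obtain ⟨m, hm, hm2⟩ := h2
  cases m with
  | zero => exact hm2.symm
  | succ m =>
    exfalso
    rw [pow_s] at hm2
    have h3 := r.injective hm2
    exact hw ⟨m, by omega, h3⟩

include hp in
theorem prev_iff {z : D} (hz : z ∈ G r y k) : (r.symm z ∈ G r y k ∧ r.symm z ∈ J r y k) ↔ 1 ≤ p z := by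
  constructor
  · rintro ⟨_, m, hm, hm2⟩
    have h3 : z = (r ^ (m + 1)) y := by rw [pow_s, hm2, Equiv.apply_symm_apply]
    rw [h3, hp _ (by omega)]
    omega
  · intro h
    have h1 : (r ^ (p z - 1)) y = r.symm z := by
      rw [Equiv.eq_symm_apply, ← pow_s, Nat.sub_add_cancel h, eq_pow hp hz]
    have h2 := p_le hp hz
    exact ⟨⟨p z - 1, by omega, h1⟩, ⟨p z - 1, by omega, h1⟩⟩

include hp in
theorem prev_p {z : D} (hz : z ∈ G r y k) (h : 1 ≤ p z) : p (r.symm z) + 1 = p z := by
  have h1 : (r ^ (p z - 1)) y = r.symm z := by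
    rw [Equiv.eq_symm_apply, ← pow_s, Nat.sub_add_cancel h, eq_pow hp hz]
  have h2 := p_le hp hz
  rw [← h1, hp _ (by omega)]
  omega

end seq

section step

variable (S : Sf) (y : S.D) (k : ℕ)

/-- the state after the chord -/
noncomputable def T : Sf := S.cover (G S.r y k) (J S.r y k)

/-- letters of the state after the chord -/
abbrev TD : Type := S.D ⊕ (G S.r y k × Bool)

theorem T_r (z : TD S y k) : (T S y k).r z = cvF S.r (G S.r y k) (J S.r y k) z := rfl

theorem T_a_inl (t : S.D) : (T S y k).a (Sum.inl t : TD S y k) = (Sum.inl (S.a t) : TD S y k) := rfl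

theorem T_a_inr (x : G S.r y k) (b : Bool) : (T S y k).a (Sum.inr (x, b) : TD S y k) = (Sum.inr (x, !b) : TD S y k) := rfl

variable {S y k} {p : S.D → ℕ} (hp : ∀ m ≤ k, p ((S.r ^ m) y) = m)

theorem r_pl (t : S.D) : (T S y k).r (cvN (G S.r y k) t) = cvN (G S.r y k) (S.r t) := by
  rw [T_r]
  by_cases h : t ∈ G S.r y k
  · rw [cvN_mem h, cvF_false]
  · rw [cvN_notMem h, cvF_inl_notMem S.r _ h]

theorem r_inl_not {t : S.D} (h : t ∉ G S.r y k) :
    (T S y k).r (Sum.inl t : TD S y k) = cvN (G S.r y k) (S.r t) := cvF_inl_notMem S.r _ h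

include hp in
theorem r_inl_join {t : S.D} (h : t ∈ G S.r y k) (h2 : p t < k) :
    (T S y k).r (Sum.inl t : TD S y k) = (Sum.inl (S.r t) : TD S y k) :=
  cvF_inl_join S.r h ⟨(J_iff hp h).2 h2, (next_mem hp h h2).1⟩

include hp in
theorem r_inl_end {t : S.D} (h : t ∈ G S.r y k) (h2 : p t = k) :
    (T S y k).r (Sum.inl t : TD S y k) = (Sum.inr (⟨t, h⟩, true) : TD S y k) :=
  cvF_inl_end S.r h (fun h3 => by
    have := (J_iff hp h).1 h3.1
    omega)

theorem r_false (x : G S.r y k) :
    (T S y k).r (Sum.inr (x, false) : TD S y k) = cvN (G S.r y k) (S.r x) := rfl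

include hp in
theorem r_true_pos (x : G S.r y k) (h : 1 ≤ p x) :
    (T S y k).r (Sum.inr (x, true) : TD S y k) =
      (Sum.inr (⟨S.r.symm x, ((prev_iff hp x.2).2 h).1⟩, true) : TD S y k) :=
  cvF_true_join S.r ((prev_iff hp x.2).2 h)

include hp in
theorem r_true_zero (x : G S.r y k) (h : p x = 0) :
    (T S y k).r (Sum.inr (x, true) : TD S y k) = (Sum.inl (x : S.D) : TD S y k) :=
  cvF_true_end S.r (fun h2 => by
    have := (prev_iff hp x.2).1 h2
    omega)

include hp in
/-- functions which are constant along the vertices -/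
theorem vtx {β : Type} (f : TD S y k → β) (F : S.D → β) (hF : ∀ t, F (S.r (S.a t)) = F t)
    (f1 : ∀ t, f (Sum.inl t) = F t) (f2 : f (Sum.inr (⟨y, y_mem⟩, false)) = F y)
    (f3 : ∀ x : G S.r y k, p x = k → f (Sum.inr (x, true)) = F (S.r x))
    (f4 : ∀ (x : G S.r y k) (h : p x < k), f (Sum.inr (x, true)) =
      f (Sum.inr (⟨S.r x, (next_mem hp x.2 h).1⟩, false))) (z : TD S y k) :
    f ((T S y k).r ((T S y k).a z)) = f z := by
  have hy : ∀ w : S.D, w = y → f (cvN (G S.r y k) w) = F w := by
    rintro w rfl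
    rw [cvN_mem y_mem]; exact f2
  have hnot : ∀ w : S.D, w ∉ G S.r y k → f (cvN (G S.r y k) w) = F w := by
    intro w hw
    rw [cvN_notMem hw]; exact f1 w
  rcases z with t | ⟨x, b⟩
  · rw [T_a_inl, f1, ← hF t]
    by_cases h : S.a t ∈ G S.r y k
    · rcases Nat.lt_or_ge (p (S.a t)) k with h2 | h2
      · rw [r_inl_join hp h h2, f1]
      · have h3 : p (S.a t) = k := le_antisymm (p_le hp h) h2
        rw [r_inl_end hp h h3]
        exact f3 ⟨S.a t, h⟩ h3
    · rw [r_inl_not h]
      by_cases h2 : S.r (S.a t) ∈ G S.r y k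
      · exact hy _ (enter h h2)
      · exact hnot _ h2
  · cases b
    · rw [T_a_inr]
      show f ((T S y k).r (Sum.inr (x, true) : TD S y k)) = _
      rcases Nat.eq_zero_or_pos (p x) with h | h
      · rw [r_true_zero hp x h, f1]
        have h2 : x = ⟨y, y_mem⟩ := Subtype.ext (p_inj hp x.2 y_mem (by rw [h, p_y hp]))
        rw [h2]; exact f2.symm
      · rw [r_true_pos hp x h]
        have h2 := prev_p hp x.2 h
        have h3 := p_le hp x.2
        have h4 := f4 ⟨S.r.symm x, ((prev_iff hp x.2).2 h).1⟩ (by show p (S.r.symm x) < k; omega)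
        rw [h4]
        congr 3
        exact Subtype.ext (Equiv.apply_symm_apply _ _)
    · rw [T_a_inr]
      show f ((T S y k).r (Sum.inr (x, false) : TD S y k)) = _
      rw [r_false]
      rcases Nat.lt_or_ge (p x) k with h2 | h2
      · rw [cvN_mem (next_mem hp x.2 h2).1]
        exact (f4 x h2).symm
      · have h3 : p x = k := le_antisymm (p_le hp x.2) h2
        rw [f3 x h3]
        by_cases h4 : S.r (x : S.D) ∈ G S.r y k
        · exact hy _ (last_next hp x.2 h3 h4)
        · exact hnot _ h4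

theorem const_vx {S : Sf} {β : Type} (f : S.D → β) (hf : ∀ z, f (S.r (S.a z)) = f z) {z z' : S.D} (h : S.vx z z') :
    f z' = f z := by
  obtain ⟨n, hn⟩ := Perm.SameCycle.exists_nat_pow_eq h
  clear h
  induction n generalizing z' with
  | zero => rw [pow_zero] at hn; rw [← hn]; rfl
  | succ n ih =>
    rw [pow_succ', Perm.mul_apply] at hn
    rw [← hn, Perm.mul_apply, hf]
    exact ih rfl

theorem vx_step (S : Sf) (z : S.D) : S.vx z (S.r (S.a z)) := ⟨1, by simp⟩

include hp in
theorem vx_y : (T S y k).vx (Sum.inr (⟨y, y_mem⟩, false) : TD S y k) (Sum.inl y : TD S y k) := by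
  have h := vx_step (T S y k) (Sum.inr (⟨y, y_mem⟩, false) : TD S y k)
  rw [T_a_inr] at h
  have h2 := r_true_zero hp ⟨y, y_mem⟩ (p_y hp)
  have h3 : (T S y k).r (Sum.inr (⟨y, y_mem⟩, !false) : TD S y k) = (Sum.inl y : TD S y k) := h2
  rw [h3] at h
  exact h

include hp in
theorem vx_pl (w : S.D) (hw : w = y ∨ w ∉ G S.r y k) : (T S y k).vx (cvN (G S.r y k) w) (Sum.inl w : TD S y k) := by
  rcases hw with rfl | hw
  · rw [cvN_mem y_mem]
    exact vx_y hp
  · rw [cvN_notMem hw]
    exact Perm.SameCycle.refl _ _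

include hp in
theorem vx_last (x : G S.r y k) (h : p x = k) :
    (T S y k).vx (Sum.inr (x, true) : TD S y k) (Sum.inl (S.r x) : TD S y k) := by
  have h1 := vx_step (T S y k) (Sum.inr (x, true) : TD S y k)
  rw [T_a_inr] at h1
  have h2 : (T S y k).r (Sum.inr (x, !true) : TD S y k) = cvN (G S.r y k) (S.r x) := rfl
  rw [h2] at h1
  refine Perm.SameCycle.trans h1 (vx_pl hp _ ?_)
  by_cases h4 : S.r (x : S.D) ∈ G S.r y k
  · exact Or.inl (last_next hp x.2 h h4)
  · exact Or.inr h4

include hp in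
theorem vx_inner (x : G S.r y k) (h : 1 ≤ p x) :
    (T S y k).vx (Sum.inr (x, false) : TD S y k)
      (Sum.inr (⟨S.r.symm x, ((prev_iff hp x.2).2 h).1⟩, true) : TD S y k) := by
  have h1 := vx_step (T S y k) (Sum.inr (x, false) : TD S y k)
  rw [T_a_inr] at h1
  have h2 := r_true_pos hp x h
  have h3 : (T S y k).r (Sum.inr (x, !false) : TD S y k) =
      (Sum.inr (⟨S.r.symm x, ((prev_iff hp x.2).2 h).1⟩, true) : TD S y k) := h2
  rw [h3] at h1
  exact h1

include hp in
theorem vx_old1 (t : S.D) : (T S y k).vx (Sum.inl t : TD S y k) (Sum.inl (S.r (S.a t)) : TD S y k) := by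
  have h1 := vx_step (T S y k) (Sum.inl t : TD S y k)
  rw [T_a_inl] at h1
  by_cases h : S.a t ∈ G S.r y k
  · rcases Nat.lt_or_ge (p (S.a t)) k with h2 | h2
    · rw [r_inl_join hp h h2] at h1
      exact h1
    · have h3 : p (S.a t) = k := le_antisymm (p_le hp h) h2
      rw [r_inl_end hp h h3] at h1
      exact Perm.SameCycle.trans h1 (vx_last hp ⟨S.a t, h⟩ h3)
  · rw [r_inl_not h] at h1
    refine Perm.SameCycle.trans h1 (vx_pl hp _ ?_)
    by_cases h4 : S.r (S.a t) ∈ G S.r y k
    · exact Or.inl (enter h h4)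
    · exact Or.inr h4

include hp in
theorem vx_old {t t' : S.D} (h : S.vx t t') : (T S y k).vx (Sum.inl t : TD S y k) (Sum.inl t' : TD S y k) := by
  obtain ⟨n, hn⟩ := Perm.SameCycle.exists_nat_pow_eq h
  clear h
  induction n generalizing t' with
  | zero =>
    rw [pow_zero] at hn
    have : t = t' := hn
    subst this
    exact Perm.SameCycle.refl _ _
  | succ n ih =>
    rw [pow_succ', Perm.mul_apply] at hn
    rw [← hn]
    exact Perm.SameCycle.trans (ih rfl) (vx_old1 hp _)

theorem closed (hS : S.Closed) : (T S y k).Closed := by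
  intro z hz
  rcases z with t | ⟨x, b⟩
  · exact hS t (Sum.inl_injective hz)
  · have h1 := congrArg Prod.snd (Sum.inr_injective hz)
    cases b <;> exact Bool.noConfusion h1

include hp in
theorem con (hC : S.Con) : (T S y k).Con := by
  intro A hA ha
  have ha' : ∀ z : (T S y k).D, (T S y k).a z ∈ A ↔ z ∈ A := by
    intro z
    refine ⟨fun h => ?_, ha z⟩
    have := ha _ h
    rwa [(T S y k).aa] at this
  have hv : ∀ z z' : (T S y k).D, (T S y k).vx z z' → (z' ∈ A ↔ z ∈ A) := by
    intro z z' h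
    have h1 := const_vx (S := T S y k) (fun z => z ∈ A)
      (fun z => propext ((hA _).trans (ha' z))) h
    exact iff_of_eq h1
  have hB : ∀ t : S.D, (Sum.inl (S.r t) : TD S y k) ∈ A ↔ (Sum.inl t : TD S y k) ∈ A := by
    intro t
    have h1 := hv _ _ (vx_old1 hp (S.a t))
    rw [S.aa] at h1
    refine h1.trans ?_
    have h2 := ha' (Sum.inl t : TD S y k)
    rw [T_a_inl] at h2
    exact h2
  rcases hC {t | (Sum.inl t : TD S y k) ∈ A} (fun t => hB t)
    (fun t (ht : (Sum.inl t : TD S y k) ∈ A) => (ha' (Sum.inl t : TD S y k)).2 ht) with h0 | h0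
  · -- no old letter
    left
    have hno : ∀ t : S.D, (Sum.inl t : TD S y k) ∉ A := by
      intro t ht
      have : t ∈ ({t | (Sum.inl t : TD S y k) ∈ A} : Set S.D) := ht
      rw [h0] at this
      exact this
    have hf : ∀ (m : ℕ) (x : G S.r y k), p x = m → (Sum.inr (x, false) : TD S y k) ∉ A := by
      intro m
      induction m with
      | zero =>
        intro x hx h
        have h2 : x = ⟨y, y_mem⟩ := Subtype.ext (p_inj hp x.2 y_mem (by rw [hx, p_y hp]))
        rw [h2] at h
        exact hno y ((hv _ _ (vx_y hp)).2 h)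
      | succ m ih =>
        intro x hx h
        have h1 := (hv _ _ (vx_inner hp x (by omega))).2 h
        have h2 := (ha' _).2 h1
        rw [T_a_inr] at h2
        have h3 := prev_p hp x.2 (by omega)
        exact ih ⟨S.r.symm x, ((prev_iff hp x.2).2 (by omega)).1⟩ (by show p (S.r.symm x) = m; omega) h2
    ext z
    constructor
    · intro hz
      rcases z with t | ⟨x, b⟩
      · exact absurd hz (hno t)
      · cases b
        · exact absurd hz (hf _ x rfl)
        · have h2 := (ha' _).2 hz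
          rw [T_a_inr] at h2
          exact absurd h2 (hf _ x rfl)
    · intro h; exact absurd h (Set.notMem_empty _)
  · right
    have hall : ∀ t : S.D, (Sum.inl t : TD S y k) ∈ A := by
      intro t
      have : t ∈ ({t | (Sum.inl t : TD S y k) ∈ A} : Set S.D) := by rw [h0]; exact Set.mem_univ _
      exact this
    have hf : ∀ (m : ℕ) (x : G S.r y k), p x = m → (Sum.inr (x, false) : TD S y k) ∈ A := by
      intro m
      induction m with
      | zero =>
        intro x hx
        have h2 : x = ⟨y, y_mem⟩ := Subtype.ext (p_inj hp x.2 y_mem (by rw [hx, p_y hp]))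
        rw [h2]
        exact (hv _ _ (vx_y hp)).1 (hall y)
      | succ m ih =>
        intro x hx
        apply (hv _ _ (vx_inner hp x (by omega))).1
        apply (ha' _).1
        rw [T_a_inr]
        have h3 := prev_p hp x.2 (by omega)
        exact ih ⟨S.r.symm x, ((prev_iff hp x.2).2 (by omega)).1⟩ (by show p (S.r.symm x) = m; omega)
    ext z
    constructor
    · intro _; exact Set.mem_univ _
    · intro _
      rcases z with t | ⟨x, b⟩
      · exact hall t
      · cases b
        · exact hf _ x rfl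
        · apply (ha' _).1
          rw [T_a_inr]
          exact hf _ x rfl

end step

end Chord

end Pool.Agent.GW
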