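import Pool.Agent.GW.ChordA

/-!
# GW/ChordB (helper76): forest data, genus and words after one chord
-/

set_option autoImplicit false

namespace Pool.Agent.GW

open Equiv Pool.Agent.SWP

namespace Chord

/-- the letters outside of the forest after the chord -/
def nN (S : Sf) (y : S.D) (k : ℕ) (p : S.D → ℕ) (N : Set S.D) : Set (TD S y k)
  | Sum.inl t => t ∈ N
  | Sum.inr (x, _) => p x = k

/-- the depths after the chord -/
def dl (S : Sf) (y : S.D) (k : ℕ) (p : S.D → ℕ) (δ : S.D → ℕ) : TD S y k → ℕ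
  | Sum.inl t => δ t
  | Sum.inr (x, false) => δ y + p x
  | Sum.inr (x, true) => if p x = k then δ (S.r x) else δ y + p x + 1

section step

variable {S : Sf} {y : S.D} {k : ℕ} {p : S.D → ℕ} (hp : ∀ m ≤ k, p ((S.r ^ m) y) = m) {N : Set S.D} {δ : S.D → ℕ} {R : ℕ}

theorem dl_last {x : G S.r y k} (h : p x = k) : dl S y k p δ (Sum.inr (x, true)) = δ (S.r x) := by
  show (if p x = k then δ (S.r x) else δ y + p x + 1) = _
  rw [if_pos h]

theorem dl_not {x : G S.r y k} (h : p x ≠ k) : dl S y k p δ (Sum.inr (x, true)) = δ y + p x + 1 := by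
  show (if p x = k then δ (S.r x) else δ y + p x + 1) = _
  rw [if_neg h]

include hp in
theorem dl_vtx (hF : Fo S N δ R) (z : TD S y k) :
    dl S y k p δ ((T S y k).r ((T S y k).a z)) = dl S y k p δ z := by
  refine vtx hp (dl S y k p δ) δ hF.vtx (fun _ => rfl) ?_ (fun x hx => dl_last hx) ?_ z
  · show δ y + p y = δ y
    rw [p_y hp, Nat.add_zero]
  · intro x h
    rw [dl_not (by omega)]
    show _ = δ y + p (S.r x)
    rw [(next_mem hp x.2 h).2]
    omega

/-- the vertex of a letter as a name -/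
noncomputable def nm (S : Sf) (y : S.D) (k : ℕ) (p : S.D → ℕ) : TD S y k → Set S.D ⊕ ℕ
  | Sum.inl t => Sum.inl {e | S.vx t e}
  | Sum.inr (x, false) => if p x = 0 then Sum.inl {e | S.vx y e} else Sum.inr (p x)
  | Sum.inr (x, true) => if p x = k then Sum.inl {e | S.vx (S.r x) e} else Sum.inr (p x + 1)

theorem nm_not {x : G S.r y k} (h : p x ≠ k) : nm S y k p (Sum.inr (x, true)) = Sum.inr (p x + 1) := by
  show (if p x = k then Sum.inl {e | S.vx (S.r x) e} else Sum.inr (p x + 1)) = _
  rw [if_neg h]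

include hp in
theorem nm_vtx (z : TD S y k) : nm S y k p ((T S y k).r ((T S y k).a z)) = nm S y k p z := by
  refine vtx hp (nm S y k p) (fun t => Sum.inl {e | S.vx t e}) ?_ (fun _ => rfl) ?_ ?_ ?_ z
  · intro t
    refine congrArg Sum.inl ?_
    ext e
    exact ⟨fun h => (vx_step S t).trans h, fun h => (vx_step S t).symm.trans h⟩
  · show (if p y = 0 then Sum.inl {e | S.vx y e} else Sum.inr (p y)) = _
    rw [if_pos (p_y hp)]
  · intro x h
    show (if p x = k then Sum.inl {e | S.vx (S.r x) e} else Sum.inr (p x + 1)) = _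
    rw [if_pos h]
  · intro x h
    rw [nm_not (by omega)]
    show _ = (if p (S.r x) = 0 then Sum.inl {e | S.vx y e} else Sum.inr (p (S.r x)))
    have h2 := (next_mem hp x.2 h).2
    rw [if_neg (by omega), h2]

include hp in
theorem fo (hF : Fo S N δ R) {R' : ℕ} (hR : R ≤ R') (hy : δ y + k ≤ R') :
    Fo (T S y k) (nN S y k p N) (dl S y k p δ) R' where
  cl := by
    intro z hz
    rcases z with t | ⟨x, b⟩
    · exact hF.cl t hz
    · exact hz
  vtx := dl_vtx hp hF
  le := by
    intro z
    rcases z with t | ⟨x, b⟩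
    · exact (hF.le t).trans hR
    · have h1 := p_le hp x.2
      cases b
      · show δ y + p x ≤ R'
        omega
      · by_cases h : p x = k
        · rw [dl_last h]
          exact (hF.le _).trans hR
        · rw [dl_not h]
          omega
  tree := by
    intro z hz
    rcases z with t | ⟨x, b⟩
    · exact hF.tree t hz
    · have hne : p x ≠ k := hz
      have h1 : dl S y k p δ (Sum.inr (x, true)) = δ y + p x + 1 := dl_not hne
      have h2 : dl S y k p δ (Sum.inr (x, false)) = δ y + p x := rfl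
      cases b
      · right
        show dl S y k p δ (Sum.inr (x, true)) = dl S y k p δ (Sum.inr (x, false)) + 1
        rw [h1, h2]
      · left
        show dl S y k p δ (Sum.inr (x, true)) = dl S y k p δ (Sum.inr (x, false)) + 1
        rw [h1, h2]
  ex := by
    have hin : ∀ t : S.D, 0 < δ t → ∃ e ∈ (T S y k).up (nN S y k p N) (dl S y k p δ), (T S y k).vx (Sum.inl t : TD S y k) e := by
      intro t ht
      obtain ⟨e, he, hv⟩ := hF.ex t ht
      exact ⟨(Sum.inl e : TD S y k), ⟨he.1, he.2⟩, vx_old hp hv⟩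
    have hup : ∀ x : G S.r y k, p x ≠ k →
        (Sum.inr (x, true) : TD S y k) ∈ (T S y k).up (nN S y k p N) (dl S y k p δ) := by
      intro x hx
      exact ⟨hx, dl_not hx⟩
    intro z hz
    rcases z with t | ⟨x, b⟩
    · exact hin t hz
    · cases b
      · rcases Nat.eq_zero_or_pos (p x) with h | h
        · have h2 : x = ⟨y, y_mem⟩ := Subtype.ext (p_inj hp x.2 y_mem (by rw [h, p_y hp]))
          have hz' : 0 < δ y + p x := hz
          rw [h, Nat.add_zero] at hz'
          obtain ⟨e, he, hv⟩ := hin y hz'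
          refine ⟨e, he, ?_⟩
          rw [h2]
          exact Perm.SameCycle.trans (vx_y hp) hv
        · have h2 := prev_p hp x.2 h
          have h3 := p_le hp x.2
          exact ⟨_, hup ⟨S.r.symm x, ((prev_iff hp x.2).2 h).1⟩ (by show p (S.r.symm x) ≠ k; omega), vx_inner hp x h⟩
      · by_cases h : p x = k
        · have hz' : 0 < dl S y k p δ (Sum.inr (x, true)) := hz
          rw [dl_last h] at hz'
          obtain ⟨e, he, hv⟩ := hin _ hz'
          exact ⟨e, he, Perm.SameCycle.trans (vx_last hp x h) hv⟩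
        · exact ⟨_, hup x h, Perm.SameCycle.refl _ _⟩
  uniq := by
    intro z hz z' hz' hv
    have hn : nm S y k p z' = nm S y k p z := const_vx (S := T S y k) (nm S y k p) (nm_vtx hp) hv
    have hup : ∀ z : TD S y k, z ∈ (T S y k).up (nN S y k p N) (dl S y k p δ) →
        (∃ t ∈ S.up N δ, z = Sum.inl t) ∨ ∃ x : G S.r y k, p x ≠ k ∧ z = Sum.inr (x, true) := by
      rintro (t | ⟨x, b⟩) ⟨h1, h2⟩
      · exact Or.inl ⟨t, ⟨h1, h2⟩, rfl⟩
      · have hne : p x ≠ k := h1
        cases b
        · exfalso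
          have h3 : δ y + p x = dl S y k p δ (Sum.inr (x, true)) + 1 := h2
          rw [dl_not hne] at h3
          omega
        · exact Or.inr ⟨x, hne, rfl⟩
    rcases hup z hz with ⟨t, ht, rfl⟩ | ⟨x, hx, rfl⟩
    · rcases hup z' hz' with ⟨t', ht', rfl⟩ | ⟨x', hx', rfl⟩
      · have h1 : ({e | S.vx t' e} : Set S.D) = {e | S.vx t e} := Sum.inl_injective hn
        have h2 : t' ∈ ({e | S.vx t e} : Set S.D) := by
          rw [← h1]; exact Perm.SameCycle.refl _ _
        rw [hF.uniq t ht t' ht' h2]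
      · rw [nm_not hx'] at hn
        exact absurd hn.symm Sum.inl_ne_inr
    · rcases hup z' hz' with ⟨t', ht', rfl⟩ | ⟨x', hx', rfl⟩
      · rw [nm_not hx] at hn
        exact absurd hn Sum.inl_ne_inr
      · rw [nm_not hx, nm_not hx'] at hn
        have h1 := Sum.inr_injective hn
        have h2 : x = x' := Subtype.ext (p_inj hp x.2 x'.2 (by omega))
        rw [h2]

include hp in
theorem root (hF : Fo S N δ R) {c : ℕ} (hR : ∃ R0 : Finset S.D, R0.card ≤ c ∧ ∀ d, δ d = 0 → ∃ e ∈ R0, S.vx e d) :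
    ∃ R0 : Finset (TD S y k), R0.card ≤ c ∧ ∀ d, dl S y k p δ d = 0 → ∃ e ∈ R0, (T S y k).vx e d := by
  obtain ⟨R0, h1, h2⟩ := hR
  refine ⟨R0.map ⟨Sum.inl, Sum.inl_injective⟩, by rw [Finset.card_map]; exact h1, ?_⟩
  have hin : ∀ t : S.D, δ t = 0 → ∃ e ∈ R0.map ⟨Sum.inl, Sum.inl_injective⟩,
      (T S y k).vx e (Sum.inl t : TD S y k) := by
    intro t ht
    obtain ⟨e, he, hv⟩ := h2 t ht
    exact ⟨Sum.inl e, Finset.mem_map.2 ⟨e, he, rfl⟩, vx_old hp hv⟩
  intro z hz
  rcases z with t | ⟨x, b⟩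
  · exact hin t hz
  · cases b
    · have h3 : δ y + p x = 0 := hz
      have h4 : x = ⟨y, y_mem⟩ := Subtype.ext (p_inj hp x.2 y_mem (by rw [p_y hp]; omega))
      obtain ⟨e, he, hv⟩ := hin y (by omega)
      refine ⟨e, he, ?_⟩
      rw [h4]
      exact Perm.SameCycle.trans hv (vx_y hp).symm
    · by_cases h : p x = k
      · rw [dl_last h] at hz
        obtain ⟨e, he, hv⟩ := hin _ hz
        exact ⟨e, he, Perm.SameCycle.trans hv (vx_last hp x h).symm⟩
      · rw [dl_not h] at hz
        omega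

end step

/-! ## genus -/

section genus

variable {D : Type}

open Classical in
/-- the joins as a successor map -/
noncomputable def lk (r : Perm D) (G J : Set D) : Lk D where
  N d := if d ∈ G ∧ d ∈ J ∧ r d ∈ G then some (r d) else none
  P e := if e ∈ G ∧ r.symm e ∈ G ∧ r.symm e ∈ J then some (r.symm e) else none
  h := by
    intro d e
    constructor
    · intro h
      by_cases hd : d ∈ G ∧ d ∈ J ∧ r d ∈ G
      · rw [if_pos hd] at h
        have h1 : r d = e := Option.some.inj h
        rw [← h1, if_pos]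
        · rw [Equiv.symm_apply_apply]
        · rw [Equiv.symm_apply_apply]; exact ⟨hd.2.2, hd.1, hd.2.1⟩
      · rw [if_neg hd] at h
        exact absurd h (by simp)
    · intro h
      by_cases he : e ∈ G ∧ r.symm e ∈ G ∧ r.symm e ∈ J
      · rw [if_pos he] at h
        have h1 : r.symm e = d := Option.some.inj h
        rw [← h1, if_pos]
        · rw [Equiv.apply_symm_apply]
        · rw [Equiv.apply_symm_apply]; exact ⟨he.2.1, he.2.2, he.1⟩
      · rw [if_neg he] at h
        exact absurd h (by simp)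

theorem lk_N_pos {r : Perm D} {G J : Set D} {d : D} (h : d ∈ G ∧ d ∈ J ∧ r d ∈ G) : (lk r G J).N d = some (r d) := by
  exact if_pos h

theorem lk_N_neg {r : Perm D} {G J : Set D} {d : D} (h : ¬(d ∈ G ∧ d ∈ J ∧ r d ∈ G)) : (lk r G J).N d = none := by
  exact if_neg h

theorem lk_P_pos {r : Perm D} {G J : Set D} {d : D} (h : d ∈ G ∧ r.symm d ∈ G ∧ r.symm d ∈ J) :
    (lk r G J).P d = some (r.symm d) := by
  exact if_pos h

theorem lk_P_neg {r : Perm D} {G J : Set D} {d : D} (h : ¬(d ∈ G ∧ r.symm d ∈ G ∧ r.symm d ∈ J)) :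
    (lk r G J).P d = none := by
  exact if_neg h

/-- letters of `cover` as letters of `cov` -/
def je (G : Set D) : D ⊕ (G × Bool) → D ⊕ (D ⊕ D)
  | Sum.inl t => Sum.inl t
  | Sum.inr (x, true) => Sum.inr (Sum.inr x)
  | Sum.inr (x, false) => Sum.inr (Sum.inl x)

theorem je_cvN (G : Set D) (t : D) : je G (cvN G t) = CovU.pl G t := by
  by_cases h : t ∈ G
  · rw [cvN_mem h, CovU.pl_mem h]; rfl
  · rw [cvN_notMem h, CovU.pl_notMem h]; rfl

theorem je_inj (G : Set D) : Function.Injective (je G) := by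
  rintro (t | ⟨x, b⟩) (t' | ⟨x', b'⟩) h
  · exact congrArg Sum.inl (Sum.inl_injective h)
  · cases b' <;> exact absurd h Sum.inl_ne_inr
  · cases b <;> exact absurd h Sum.inr_ne_inl
  · cases b <;> cases b'
    · have h1 : (x : D) = x' := Sum.inl_injective (Sum.inr_injective h)
      rw [Subtype.ext h1]
    · exact absurd (Sum.inr_injective h) Sum.inl_ne_inr
    · exact absurd (Sum.inr_injective h) Sum.inr_ne_inl
    · have h1 : (x : D) = x' := Sum.inr_injective (Sum.inr_injective h)
      rw [Subtype.ext h1]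

theorem cover_emb (S : Sf) (G J : Set S.D) : Emb (S.cover G J) (S.cov G (lk S.r G J)) (je G) where
  inj := je_inj G
  r := by
    have hG : ∀ d e, (lk S.r G J).N d = some e → d ∈ G ∧ e ∈ G := by
      intro d e h
      by_cases hd : d ∈ G ∧ d ∈ J ∧ S.r d ∈ G
      · rw [lk_N_pos hd] at h
        have h1 : S.r d = e := Option.some.inj h
        rw [← h1]
        exact ⟨hd.1, hd.2.2⟩
      · rw [lk_N_neg hd] at h
        exact absurd h (by simp)
    intro z
    show CovU.R S G (lk S.r G J) (je G z) = je G (cvF S.r G J z)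
    rcases z with t | ⟨x, b⟩
    · by_cases h : t ∈ G
      · by_cases hJ : t ∈ J ∧ S.r t ∈ G
        · rw [cvF_inl_join S.r h hJ]
          exact CovU.r_inl_some S h (lk_N_pos ⟨h, hJ⟩)
        · rw [cvF_inl_end S.r h hJ]
          exact CovU.r_inl_none S h (lk_N_neg (fun h2 => hJ h2.2))
      · rw [cvF_inl_notMem S.r J h, je_cvN, ← CovU.r_pl S hG, CovU.pl_notMem h]
        rfl
    · cases b
      · rw [cvF_false, je_cvN, ← CovU.r_pl S hG, CovU.pl_mem x.2]
        rfl
      · by_cases h : S.r.symm (x : S.D) ∈ G ∧ S.r.symm (x : S.D) ∈ J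
        · rw [cvF_true_join S.r h]
          exact CovU.r_pt_some S x.2 (lk_P_pos ⟨x.2, h⟩)
        · rw [cvF_true_end S.r h]
          exact CovU.r_pt_none S x.2 (lk_P_neg (fun h2 => h h2.2))
  a := by
    intro z
    show CovU.A S G (lk S.r G J) (je G z) = je G ((S.cover G J).a z)
    rcases z with t | ⟨x, b⟩
    · rfl
    · cases b
      · exact CovU.a_cp S x.2
      · exact CovU.a_pt S x.2
  dead := by
    intro e he
    show CovU.A S G (lk S.r G J) e = e
    rcases e with t | t | t
    · exact absurd rfl (he (Sum.inl t : S.D ⊕ (G × Bool)))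
    · by_cases h : t ∈ G
      · exact absurd rfl (he (Sum.inr (⟨t, h⟩, false) : S.D ⊕ (G × Bool)))
      · exact CovU.a_cp_not S h
    · by_cases h : t ∈ G
      · exact absurd rfl (he (Sum.inr (⟨t, h⟩, true) : S.D ⊕ (G × Bool)))
      · exact CovU.a_pt_not S h

theorem cover_gen (S : Sf) (G J : Set S.D) (hlive : ∀ d ∈ G, S.a d ≠ d) : (S.cover G J).gen ≤ S.gen := by
  have h1 : (S.cov G (lk S.r G J)).gen = (S.cover G J).gen :=
    gen_emb (S := S.cover G J) (T := S.cov G (lk S.r G J)) (je G) (cover_emb S G J)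
  rw [← h1]
  refine gen_cov S G _ hlive ?_
  intro d e h
  by_cases hd : d ∈ G ∧ d ∈ J ∧ S.r d ∈ G
  · rw [lk_N_pos hd] at h
    have h1 : S.r d = e := Option.some.inj h
    rw [← h1]
    exact ⟨hd.1, hd.2.2, 0, rfl, fun i hi => absurd hi (Nat.not_lt_zero _)⟩
  · rw [lk_N_neg hd] at h
    exact absurd h (by simp)

end genus

/-! ## words -/

theorem len_closed (S : Sf) (hS : S.Closed) (d : S.D) : S.len d = (S.word d).ncard := by
  unfold Sf.len Sf.num
  congr 1
  exact Set.inter_eq_left.2 (fun e _ => hS e)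

theorem cvN_inj {D : Type} (G : Set D) : Function.Injective (cvN G) := by
  intro t t' h
  have h1 : CovU.pl G t = CovU.pl G t' := by rw [← je_cvN, ← je_cvN, h]
  exact CovU.pl_inj G h1

theorem word_map {S T : Sf} {j : S.D → T.D} (h : ∀ d, T.r (j d) = j (S.r d)) (d : S.D) : T.word (j d) = j '' S.word d := by
  ext e
  constructor
  · intro he
    obtain ⟨y, rfl, hy⟩ := (same_map h d e).mp he
    exact ⟨y, hy, rfl⟩
  · rintro ⟨y, hy, rfl⟩
    exact (same_map h d _).mpr ⟨y, rfl, hy⟩

section words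

variable {S : Sf} {y : S.D} {k : ℕ} {p : S.D → ℕ} (hp : ∀ m ≤ k, p ((S.r ^ m) y) = m) {N : Set S.D}

/-- the letters of the new word -/
def strip (S : Sf) (y : S.D) (k : ℕ) : Set (TD S y k)
  | Sum.inl t => t ∈ G S.r y k
  | Sum.inr (_, b) => b = true

include hp in
theorem strip_r {z : TD S y k} (hz : z ∈ strip S y k) : ((T S y k).r z : TD S y k) ∈ strip S y k := by
  rcases z with t | ⟨x, b⟩
  · have ht : t ∈ G S.r y k := hz
    rcases Nat.lt_or_ge (p t) k with h2 | h2
    · rw [r_inl_join hp ht h2]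
      exact (next_mem hp ht h2).1
    · rw [r_inl_end hp ht (le_antisymm (p_le hp ht) h2)]
      exact rfl
  · have hb : b = true := hz
    subst hb
    rcases Nat.eq_zero_or_pos (p x) with h | h
    · rw [r_true_zero hp x h]
      exact x.2
    · rw [r_true_pos hp x h]
      exact rfl

/-- a letter lies in the new word or is an old place -/
theorem strip_or (z : TD S y k) : z ∈ strip S y k ∨ ∃ t, cvN (G S.r y k) t = z := by
  rcases z with t | ⟨x, b⟩
  · by_cases h : t ∈ G S.r y k
    · exact Or.inl h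
    · exact Or.inr ⟨t, cvN_notMem h⟩
  · cases b
    · exact Or.inr ⟨x, cvN_mem x.2⟩
    · exact Or.inl rfl

theorem G_ncard : (G S.r y k).ncard ≤ k + 1 := by
  have h1 : G S.r y k ⊆ (fun m => (S.r ^ m) y) '' (Finset.range (k + 1) : Set ℕ) := by
    rintro z ⟨m, hm, rfl⟩
    exact ⟨m, by simpa using Nat.lt_succ_of_le hm, rfl⟩
  have h2 := Set.ncard_le_ncard h1 ((Finset.finite_toSet _).image _)
  have h3 := Set.ncard_image_le (f := fun m => (S.r ^ m) y) (s := (Finset.range (k + 1) : Set ℕ)) (Finset.finite_toSet _)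
  rw [Set.ncard_coe_finset, Finset.card_range] at h3
  exact h2.trans h3

theorem strip_ncard : (strip S y k).ncard ≤ 2 * (k + 1) := by
  have h1 : strip S y k ⊆ Sum.inl '' (G S.r y k) ∪ (fun x : G S.r y k => (Sum.inr (x, true) : TD S y k)) '' Set.univ := by
    rintro (t | ⟨x, b⟩) hz
    · exact Or.inl ⟨t, hz, rfl⟩
    · have hb : b = true := hz
      subst hb
      exact Or.inr ⟨x, Set.mem_univ _, rfl⟩
  have h2 := Set.ncard_le_ncard h1 (Set.toFinite _)
  have h3 := Set.ncard_union_le (Sum.inl '' (G S.r y k) : Set (TD S y k))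
    ((fun x : G S.r y k => (Sum.inr (x, true) : TD S y k)) '' Set.univ)
  have h4 := Set.ncard_image_le (f := (Sum.inl : S.D → TD S y k)) (s := G S.r y k) (Set.toFinite _)
  have h5 := Set.ncard_image_le (f := fun x : G S.r y k => (Sum.inr (x, true) : TD S y k)) (s := Set.univ) (Set.toFinite _)
  have h6 : (Set.univ : Set (G S.r y k)).ncard = (G S.r y k).ncard := by
    rw [Set.ncard_univ]; rfl
  have h7 := G_ncard (S := S) (y := y) (k := k)
  omega

include hp in
theorem strip_N : (nN S y k p N ∩ strip S y k).ncard ≤ (N ∩ G S.r y k).ncard + 1 := by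
  have hk : (S.r ^ k) y ∈ G S.r y k := ⟨k, le_rfl, rfl⟩
  have h1 : nN S y k p N ∩ strip S y k ⊆
      Sum.inl '' (N ∩ G S.r y k) ∪ {(Sum.inr (⟨(S.r ^ k) y, hk⟩, true) : TD S y k)} := by
    rintro (t | ⟨x, b⟩) ⟨h1, h2⟩
    · exact Or.inl ⟨t, ⟨h1, h2⟩, rfl⟩
    · have hb : b = true := h2
      subst hb
      have hx : p x = k := h1
      right
      have h3 : x = ⟨(S.r ^ k) y, hk⟩ := Subtype.ext (p_inj hp x.2 hk (by rw [hx, hp k le_rfl]))
      rw [h3]
      rfl
  have h2 := Set.ncard_le_ncard h1 (Set.toFinite _)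
  have h3 := Set.ncard_union_le (Sum.inl '' (N ∩ G S.r y k) : Set (TD S y k))
    {(Sum.inr (⟨(S.r ^ k) y, hk⟩, true) : TD S y k)}
  have h4 := Set.ncard_image_le (f := (Sum.inl : S.D → TD S y k)) (s := N ∩ G S.r y k) (Set.toFinite _)
  rw [Set.ncard_singleton] at h3
  omega

include hp in
theorem strip_word {z : TD S y k} (hz : z ∈ strip S y k) : (T S y k).word z ⊆ strip S y k := by
  intro e he
  have h1 : (T S y k).r.SameCycle z e := he
  exact mem_of_same (s := (T S y k).r) (Z := strip S y k) (fun d hd => strip_r hp hd) hz h1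

end words

end Chord

end Pool.Agent.GW
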