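import Pool.Agent.GW.LoopB

/-!
# Closing corners in a union of outer words

`close_U`: splice (`U.vtx`) two different live letters of `A` at one vertex as long as there are any: `r` becomes
`sw p q * r`, the cycles of `r * a` get finer (`sw p q * (r * a)` splits the cycle), `A` stays a union of words. Induction on the number
of ordered pairs `(p, q)`, `p ≠ q` live in `A`, `vx p q`.

`ok_setr`: a net stays a net if `r` is changed on outer letters only.
-/

set_option autoImplicit false

namespace Pool.Agent.GW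

open Equiv Pool.Agent.SWP

/-- multiplying by a transposition of two letters of one cycle makes the cycles finer -/
private theorem Close_finer {D : Type} [Finite D] {s : Perm D} {p q d e : D} (hs : s.SameCycle p q)
    (h : (sw p q * s).SameCycle d e) : s.SameCycle d e := by
  refine mem_of_same (s := sw p q * s) (Z := {e | s.SameCycle d e}) ?_ (Perm.SameCycle.refl _ _) h
  intro x hx
  have h1 : s.SameCycle d (s x) := Perm.sameCycle_apply_right.2 hx
  show s.SameCycle d ((sw p q * s) x)
  rw [Perm.mul_apply]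
  by_cases h2 : s x = p
  · rw [h2, sw_left]
    rw [h2] at h1
    exact h1.trans hs
  by_cases h3 : s x = q
  · rw [h3, sw_right]
    rw [h3] at h1
    exact h1.trans hs.symm
  rw [sw_of_ne h2 h3]
  exact h1

/-- it separates the two letters -/
private theorem Close_sep {D : Type} [Finite D] {s : Perm D} {p q : D} (hpq : p ≠ q) (hs : s.SameCycle p q) :
    ¬ (sw p q * s).SameCycle p q := by
  intro h
  exact arc_ne_right ((sw_same_left hpq hs q).1 h) rfl

/-- ordered pairs of different live letters of `A` at one vertex -/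
private def Close_pairs (S : Sf) (A : Set S.D) (r : Perm S.D) : Set (S.D × S.D) :=
  {p | p.1 ∈ A ∧ p.2 ∈ A ∧ S.a p.1 ≠ p.1 ∧ S.a p.2 ≠ p.2 ∧ p.1 ≠ p.2 ∧ (r * S.a).SameCycle p.1 p.2}

private theorem Close_aux (L : ℕ) (S : Sf) (A : Set S.D) (hn : S.num A ≤ L) : ∀ (n : ℕ) (r : Perm S.D),
    (Close_pairs S A r).ncard ≤ n → (∀ d, r d ∈ A ↔ d ∈ A) → (∀ d, (S.setr r).len d ≤ L) →
    ∃ r' : Perm S.D, (∀ d, r d ∉ A → r' d = r d) ∧ (∀ d, r' d ∈ A ↔ d ∈ A) ∧
      (∀ d e, (r' * S.a).SameCycle d e → (r * S.a).SameCycle d e) ∧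
      (∀ d ∈ A, ∀ e ∈ A, S.a d ≠ d → S.a e ≠ e → d ≠ e → ¬ (r' * S.a).SameCycle d e) ∧
      (U L (S.setr r') → U L (S.setr r)) := by
  intro n
  induction n with
  | zero =>
    intro r h hA hL
    have h0 : Close_pairs S A r = ∅ := by
      rw [← Set.ncard_eq_zero (Set.toFinite _)]; omega
    refine ⟨r, fun _ _ => rfl, hA, fun _ _ h => h, ?_, fun h => h⟩
    intro d hd e he hd' he' hde hv
    have : (d, e) ∈ Close_pairs S A r := ⟨hd, he, hd', he', hde, hv⟩
    rw [h0] at this
    exact this
  | succ n ih =>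
    intro r h hA hL
    by_cases hex : (Close_pairs S A r).Nonempty
    · obtain ⟨⟨p, q⟩, hp, hq, hp', hq', hpq, hv⟩ := hex
      simp only at hp hq hp' hq' hpq hv
      have hsw : ∀ x, sw p q x ∈ A ↔ x ∈ A := by
        intro x
        by_cases h1 : x = p
        · rw [h1, sw_left]; exact ⟨fun _ => hp, fun _ => hq⟩
        by_cases h2 : x = q
        · rw [h2, sw_right]; exact ⟨fun _ => hq, fun _ => hp⟩
        rw [sw_of_ne h1 h2]
      have hA1 : ∀ d, (sw p q * r) d ∈ A ↔ d ∈ A := by
        intro d
        rw [Perm.mul_apply, hsw]; exact hA d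
      have hvx : ∀ d e, (sw p q * r * S.a).SameCycle d e → (r * S.a).SameCycle d e := by
        intro d e h1
        rw [mul_assoc] at h1
        exact Close_finer hv h1
      have hsep : ¬ (sw p q * r * S.a).SameCycle p q := by
        intro h1
        rw [mul_assoc] at h1
        exact Close_sep hpq hv h1
      have hmem : (p, q) ∈ Close_pairs S A r := ⟨hp, hq, hp', hq', hpq, hv⟩
      have hsub : Close_pairs S A (sw p q * r) ⊆ Close_pairs S A r \ {(p, q)} := by
        rintro ⟨x, y⟩ ⟨h1, h2, h3, h4, h5, h6⟩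
        refine ⟨⟨h1, h2, h3, h4, h5, hvx _ _ h6⟩, ?_⟩
        intro hx
        have hx' : (x, y) = (p, q) := hx
        have e1 : x = p := congrArg Prod.fst hx'
        have e2 : y = q := congrArg Prod.snd hx'
        have h7 : (sw p q * r * S.a).SameCycle x y := h6
        rw [e1, e2] at h7
        exact hsep h7
      have hcard : (Close_pairs S A (sw p q * r)).ncard ≤ n := by
        have h1 : (Close_pairs S A r \ {(p, q)}).ncard + 1 = (Close_pairs S A r).ncard :=
          Set.ncard_sdiff_singleton_add_one hmem (Set.toFinite _)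
        have h2 := Set.ncard_le_ncard hsub (Set.toFinite _)
        omega
      have hlen : ∀ d, (S.setr (sw p q * r)).len d ≤ L := by
        intro d
        by_cases hd : d ∈ A
        · refine le_trans ?_ hn
          refine Set.ncard_le_ncard ?_ (Set.toFinite _)
          rintro e ⟨he, he'⟩
          exact ⟨mem_of_same (s := sw p q * r) (Z := A) (fun x hx => (hA1 x).2 hx) hd he, he'⟩
        · refine le_trans (le_of_eq ?_) (hL d)
          have hw : ∀ e, (sw p q * r).SameCycle d e ↔ r.SameCycle d e := by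
            intro e
            refine (same_congr (s := r) (t := sw p q * r) (Z := Aᶜ) ?_ ?_ hd e).symm
            · intro x hx hx'
              exact hx ((hA x).1 hx')
            · intro x hx
              have hx1 : r x ∉ A := fun h' => hx ((hA x).1 h')
              rw [Perm.mul_apply, sw_of_ne]
              · intro h'; rw [h'] at hx1; exact hx1 hp
              · intro h'; rw [h'] at hx1; exact hx1 hq
          have hw2 : {e | (sw p q * r).SameCycle d e} = {e | r.SameCycle d e} := by
            ext e; exact hw e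
          show S.num {e | (sw p q * r).SameCycle d e} = S.num {e | r.SameCycle d e}
          rw [hw2]
      obtain ⟨r', k1, k2, k3, k4, k5⟩ := ih (sw p q * r) hcard hA1 hlen
      refine ⟨r', ?_, k2, fun d e h1 => hvx d e (k3 d e h1), k4, ?_⟩
      · intro d hd
        have hd1 : (sw p q * r) d ∉ A := by
          rw [Perm.mul_apply, hsw]; exact hd
        rw [k1 d hd1, Perm.mul_apply, sw_of_ne]
        · intro h'; rw [h'] at hd; exact hd hp
        · intro h'; rw [h'] at hd; exact hd hq
      · intro h1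
        exact U.vtx (S.setr r) p q hp' hq' hpq hv hL (k5 h1)
    · have h0 : (Close_pairs S A r).ncard ≤ n := by
        rw [Set.not_nonempty_iff_eq_empty] at hex
        rw [hex, Set.ncard_empty]; exact Nat.zero_le _
      exact ih r h0 hA hL

theorem close_U (L : ℕ) (S : Sf) (A : Set S.D) (hA : S.Inv A) (hn : S.num A ≤ L) (hL : ∀ d, S.len d ≤ L) :
    ∃ r' : Perm S.D, (∀ d, S.r d ∉ A → r' d = S.r d) ∧ (∀ d, r' d ∈ A ↔ d ∈ A) ∧
      (∀ d e, (S.setr r').vx d e → S.vx d e) ∧
      (∀ d ∈ A, ∀ e ∈ A, S.a d ≠ d → S.a e ≠ e → d ≠ e → ¬ (S.setr r').vx d e) ∧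
      (U L (S.setr r') → U L S) :=
  Close_aux L S A hn _ S.r le_rfl hA hL

/-- change `r` on outer letters -/
def NetS.setr {R B : ℕ} (N : NetS R B) (r : Perm N.S.D) : NetS R B :=
  ⟨N.S.setr r, N.F, N.hub, N.lev, N.fr, N.up, N.t⟩

theorem ok_setr {R B : ℕ} (P : Par R B) (N : NetS R B) (hN : Ok P N) (r' : Perm N.S.D)
    (h1 : ∀ d ∈ N.F, r' d = N.S.r d) (h2 : ∀ d, r' d ∈ N.F ↔ d ∈ N.F) : Ok P (N.setr r') := by
  have hs : ∀ d ∈ N.F, ∀ e, r'.SameCycle d e ↔ N.S.r.SameCycle d e := by
    intro d hd e
    refine (same_congr (s := N.S.r) (t := r') (Z := N.F) ?_ ?_ hd e).symm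
    · intro x hx
      exact (hN.fat.inv x).2 hx
    · intro x hx
      exact (h1 x hx).symm
  constructor
  · exact ⟨fun d => h2 d, hN.fat.live, hN.fat.out⟩
  · intro d hd
    show N.hub (r' d) = N.hub d
    rw [h1 d hd]; exact hN.hubr d hd
  · intro d hd
    show N.lev (r' d) = N.lev d
    rw [h1 d hd]; exact hN.levr d hd
  · exact hN.hubp
  · exact hN.levd
  · intro d hd
    obtain ⟨e, he, he'⟩ := hN.port d hd
    exact ⟨e, (hs d hd e).2 he, he'⟩
  · exact hN.upF
  · intro d hd hd'
    obtain ⟨u, hu, hu'⟩ := hN.upE d hd hd'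
    exact ⟨u, hu, (hs d hd u).2 hu'⟩
  · intro u hu v hv huv
    exact hN.upU u hu v hv ((hs u (hN.upF u hu).1 v).1 huv)
  · exact hN.resv
  · exact hN.frF
  · exact hN.frU
  · exact hN.frE
  · intro d hd e he h3 h4 h5 h6
    exact (hs d hd e).2 (hN.one d hd e he h3 h4 h5 h6)
  · intro d hd hd'
    refine (hN.cnt d hd hd').trans (le_of_eq ?_)
    have : {e | e ∈ N.fr ∧ N.S.r.SameCycle d e} = {e | e ∈ N.fr ∧ r'.SameCycle d e} := by
      ext e
      exact and_congr Iff.rfl (hs d hd e).symm
    rw [this]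
    rfl
  · exact hN.c0
  · exact hN.cT

end Pool.Agent.GW
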