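import Mathlib

/-!
# GW.Cluster: cutting a rooted tree into clusters (genus version, helper59)

`V`: vertices of a rooted tree, `par` parent, `dp` depth, `x P`: number of tokens on `P`.  `pos P`: there is a token in the subtree of
`P`; `cc P = x P + #(children with pos)`; branching: `2 ≤ cc P`; the edge above `R` is cut if `pos R` and (`R` or `par R` is branching).
-/

set_option autoImplicit false
set_option linter.unusedSectionVars false
set_option linter.unusedVariables false

namespace Pool.Agent.GW

open Finset

section

variable {V : Type} [Fintype V] [DecidableEq V]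

/-- a rooted tree. -/
structure RT (root : V) (par : V → V) (dp : V → ℕ) : Prop where
  r0 : dp root = 0
  st : ∀ P, P ≠ root → dp (par P) + 1 = dp P

variable {root : V} {par : V → V} {dp : V → ℕ}

theorem RT.root_of (h : RT root par dp) {P : V} (hP : dp P = 0) : P = root := by
  by_contra hne
  have := h.st P hne
  omega

theorem RT.dp_iter (h : RT root par dp) (Q : V) (n : ℕ) (hn : n ≤ dp Q) : dp (par^[n] Q) = dp Q - n := by
  induction n with
  | zero => simp
  | succ n ih =>
    have h1 := ih (by omega)
    rw [Function.iterate_succ_apply']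
    have h2 : par^[n] Q ≠ root := by
      intro he
      rw [he, h.r0] at h1
      omega
    have h3 := h.st _ h2
    omega

/-- there is a token in the subtree. -/
def tpos (par : V → V) (dp : V → ℕ) (x : V → ℕ) (P : V) : Prop := ∃ Q n, 0 < x Q ∧ n ≤ dp Q ∧ par^[n] Q = P

theorem tpos_self {x : V → ℕ} {P : V} (hx : 0 < x P) : tpos par dp x P := ⟨P, 0, hx, Nat.zero_le _, rfl⟩

theorem tpos_par (h : RT root par dp) {x : V → ℕ} {R : V} (hR : R ≠ root) (hp : tpos par dp x R) :
    tpos par dp x (par R) := by
  obtain ⟨Q, n, h1, h2, h3⟩ := hp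
  refine ⟨Q, n + 1, h1, ?_, by rw [Function.iterate_succ_apply', h3]⟩
  have h4 := h.dp_iter Q n h2
  rw [h3] at h4
  have h5 : dp R ≠ 0 := fun h0 => hR (h.root_of h0)
  omega

theorem tpos_cases (h : RT root par dp) {x : V → ℕ} {P : V} (hp : tpos par dp x P) :
    0 < x P ∨ ∃ R, R ≠ root ∧ par R = P ∧ tpos par dp x R := by
  obtain ⟨Q, n, h1, h2, h3⟩ := hp
  cases n with
  | zero =>
    left
    have : Q = P := h3
    rwa [← this]
  | succ n =>
    right
    refine ⟨par^[n] Q, ?_, by rw [← h3, Function.iterate_succ_apply'], Q, n, h1, by omega, rfl⟩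
    intro he
    have h4 := h.dp_iter Q n (by omega)
    rw [he, h.r0] at h4
    omega

open Classical in
/-- tokens and positive children. -/
noncomputable def cc (root : V) (par : V → V) (dp : V → ℕ) (x : V → ℕ) (P : V) : ℕ :=
  x P + (univ.filter fun R => R ≠ root ∧ par R = P ∧ tpos par dp x R).card

theorem cc_pos (h : RT root par dp) {x : V → ℕ} {P : V} (hp : tpos par dp x P) : 1 ≤ cc root par dp x P := by
  classical
  unfold cc
  rcases tpos_cases h hp with h1 | ⟨R, h1, h2, h3⟩
  · omega
  · have : 0 < (univ.filter fun R => R ≠ root ∧ par R = P ∧ tpos par dp x R).card :=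
      card_pos.2 ⟨R, mem_filter.2 ⟨mem_univ _, h1, h2, h3⟩⟩
    omega

theorem tpos_of_cc (h : RT root par dp) {x : V → ℕ} {P : V} (hc : 1 ≤ cc root par dp x P) : tpos par dp x P := by
  classical
  by_cases hx : 0 < x P
  · exact tpos_self hx
  · unfold cc at hc
    have : 0 < (univ.filter fun R => R ≠ root ∧ par R = P ∧ tpos par dp x R).card := by omega
    obtain ⟨R, hR⟩ := card_pos.1 this
    obtain ⟨_, h1, h2, h3⟩ := mem_filter.1 hR
    rw [← h2]
    exact tpos_par h h1 h3

open Classical in
/-- the cut edges (lower ends). -/
noncomputable def cutE (root : V) (par : V → V) (dp : V → ℕ) (x : V → ℕ) : Finset V :=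
  univ.filter fun R => R ≠ root ∧ tpos par dp x R ∧ (2 ≤ cc root par dp x R ∨ 2 ≤ cc root par dp x (par R))

theorem sum_cc (h : RT root par dp) (x : V → ℕ) :
    ∑ P, (cc root par dp x P - 1) ≤ ∑ P, x P := by
  classical
  have h1 : ∑ P, (univ.filter fun R => R ≠ root ∧ par R = P ∧ tpos par dp x R).card =
      (univ.filter fun R => R ≠ root ∧ tpos par dp x R).card := by
    rw [card_eq_sum_card_fiberwise (f := par) (t := univ) (fun _ _ => mem_coe.2 (mem_univ _))]
    refine sum_congr rfl fun P _ => ?_
    congr 1
    ext R
    simp only [mem_filter, mem_univ, true_and]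
    tauto
  have h2 : ∑ P, cc root par dp x P = ∑ P, x P + (univ.filter fun R => R ≠ root ∧ tpos par dp x R).card := by
    unfold cc
    rw [sum_add_distrib, h1]
  have h3 : ∑ P, cc root par dp x P = ∑ P ∈ univ.filter (fun P => tpos par dp x P), cc root par dp x P := by
    rw [← sum_filter_add_sum_filter_not univ (fun P => tpos par dp x P)]
    have : ∑ P ∈ univ.filter (fun P => ¬ tpos par dp x P), cc root par dp x P = 0 := by
      refine sum_eq_zero fun P hP => ?_
      by_contra hne
      exact (mem_filter.1 hP).2 (tpos_of_cc h (by omega))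
    rw [this, add_zero]
  have h4 : ∑ P, (cc root par dp x P - 1) = ∑ P ∈ univ.filter (fun P => tpos par dp x P), (cc root par dp x P - 1) := by
    rw [← sum_filter_add_sum_filter_not univ (fun P => tpos par dp x P)]
    have : ∑ P ∈ univ.filter (fun P => ¬ tpos par dp x P), (cc root par dp x P - 1) = 0 := by
      refine sum_eq_zero fun P hP => ?_
      by_contra hne
      exact (mem_filter.1 hP).2 (tpos_of_cc h (by omega))
    rw [this, add_zero]
  have h5 : ∑ P ∈ univ.filter (fun P => tpos par dp x P), (cc root par dp x P - 1) +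
      (univ.filter (fun P => tpos par dp x P)).card = ∑ P ∈ univ.filter (fun P => tpos par dp x P), cc root par dp x P := by
    rw [card_eq_sum_ones, ← sum_add_distrib]
    refine sum_congr rfl fun P hP => ?_
    have := cc_pos h (mem_filter.1 hP).2
    omega
  have h6 : (univ.filter fun R => R ≠ root ∧ tpos par dp x R).card ≤ (univ.filter (fun P => tpos par dp x P)).card :=
    card_le_card fun R hR => mem_filter.2 ⟨mem_univ _, (mem_filter.1 hR).2.2⟩
  omega

theorem card_cutE (h : RT root par dp) (x : V → ℕ) : (cutE root par dp x).card ≤ 3 * ∑ P, x P := by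
  classical
  set B := univ.filter fun P => 2 ≤ cc root par dp x P with hB
  have h1 : cutE root par dp x ⊆ B ∪ B.biUnion fun P => univ.filter fun R => R ≠ root ∧ par R = P ∧ tpos par dp x R := by
    intro R hR
    obtain ⟨_, h2, h3, h4⟩ := mem_filter.1 hR
    rcases h4 with h4 | h4
    · exact mem_union_left _ (mem_filter.2 ⟨mem_univ _, h4⟩)
    · exact mem_union_right _ (mem_biUnion.2 ⟨par R, mem_filter.2 ⟨mem_univ _, h4⟩, mem_filter.2 ⟨mem_univ _, h2, rfl, h3⟩⟩)
  have h2 : (B.biUnion fun P => univ.filter fun R => R ≠ root ∧ par R = P ∧ tpos par dp x R).card ≤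
      ∑ P ∈ B, cc root par dp x P := by
    refine card_biUnion_le.trans (sum_le_sum fun P _ => ?_)
    unfold cc
    omega
  have h3 : B.card + ∑ P ∈ B, cc root par dp x P ≤ 3 * ∑ P ∈ B, (cc root par dp x P - 1) := by
    rw [card_eq_sum_ones, ← sum_add_distrib, mul_sum]
    refine sum_le_sum fun P hP => ?_
    have := (mem_filter.1 hP).2
    omega
  have h4 : ∑ P ∈ B, (cc root par dp x P - 1) ≤ ∑ P, (cc root par dp x P - 1) :=
    sum_le_sum_of_subset (subset_univ _)
  have h5 := sum_cc h x
  have h6 := (card_le_card h1).trans (card_union_le _ _)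
  omega

open Classical in
/-- top of the cluster of a vertex, with fuel. -/
noncomputable def clF (root : V) (par : V → V) (C : Finset V) : ℕ → V → V
  | 0, P => P
  | n + 1, P => if P = root ∨ P ∈ C then P else clF root par C n (par P)

/-- top of the cluster of a vertex. -/
noncomputable def clT (root : V) (par : V → V) (dp : V → ℕ) (C : Finset V) (P : V) : V := clF root par C (dp P) P

theorem clT_top (h : RT root par dp) {C : Finset V} {P : V} (hP : P = root ∨ P ∈ C) : clT root par dp C P = P := by
  classical
  unfold clT
  cases hd : dp P with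
  | zero => rfl
  | succ n =>
    show (if P = root ∨ P ∈ C then P else clF root par C n (par P)) = P
    rw [if_pos hP]

theorem clT_par (h : RT root par dp) {C : Finset V} {P : V} (hP : P ≠ root) (hC : P ∉ C) :
    clT root par dp C P = clT root par dp C (par P) := by
  classical
  unfold clT
  have h1 := h.st P hP
  rw [← h1]
  show (if P = root ∨ P ∈ C then P else clF root par C (dp (par P)) (par P)) = _
  rw [if_neg (by tauto)]

/-- the top of a cluster is the root or a cut vertex. -/
theorem clT_mem (h : RT root par dp) {C : Finset V} (P : V) : clT root par dp C P = root ∨ clT root par dp C P ∈ C := by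
  obtain ⟨n, hn⟩ : ∃ n, dp P = n := ⟨_, rfl⟩
  induction n using Nat.strong_induction_on generalizing P with
  | _ n ih =>
    by_cases hP : P = root ∨ P ∈ C
    · rw [clT_top h hP]; exact hP
    · push Not at hP
      rw [clT_par h hP.1 hP.2]
      have := h.st P hP.1
      exact ih (dp (par P)) (by omega) (par P) rfl

theorem below_br (h : RT root par dp) {x : V → ℕ} {K : V} (hb : 2 ≤ cc root par dp x K) (P : V)
    (hP : clT root par dp (cutE root par dp x) P = K) (hne : P ≠ K) : ¬ tpos par dp x P := by
  classical
  obtain ⟨n, hn⟩ : ∃ n, dp P = n := ⟨_, rfl⟩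
  induction n using Nat.strong_induction_on generalizing P with
  | _ n ih =>
    intro hpos
    by_cases htop : P = root ∨ P ∈ cutE root par dp x
    · rw [clT_top h htop] at hP
      exact hne hP
    push Not at htop
    rw [clT_par h htop.1 htop.2] at hP
    by_cases hpar : par P = K
    · exact htop.2 (mem_filter.2 ⟨mem_univ _, htop.1, hpos, Or.inr (by rw [hpar]; exact hb)⟩)
    · have := h.st P htop.1
      exact ih (dp (par P)) (by omega) (par P) hP hpar rfl (tpos_par h htop.1 hpos)

theorem dg_br (h : RT root par dp) {x : V → ℕ} {K : V} (hb : 2 ≤ cc root par dp x K) :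
    ∑ P ∈ univ.filter (fun P => clT root par dp (cutE root par dp x) P = K), x P +
    ((cutE root par dp x).filter fun R => clT root par dp (cutE root par dp x) (par R) = K).card ≤
      x K + (univ.filter fun R => R ≠ root ∧ par R = K).card := by
  classical
  have h1 : ∑ P ∈ univ.filter (fun P => clT root par dp (cutE root par dp x) P = K), x P ≤ x K := by
    calc _ ≤ ∑ P ∈ {K}, x P := by
          rw [← sum_filter_add_sum_filter_not (univ.filter (fun P => clT root par dp (cutE root par dp x) P = K))
            (fun P => P = K)]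
          have e1 : ∑ P ∈ (univ.filter (fun P => clT root par dp (cutE root par dp x) P = K)).filter (fun P => ¬ P = K), x P
              = 0 := by
            refine sum_eq_zero fun P hP => ?_
            obtain ⟨h2, h3⟩ := mem_filter.1 hP
            by_contra hx
            exact below_br h hb P (mem_filter.1 h2).2 h3 (tpos_self (by omega))
          rw [e1, add_zero]
          refine sum_le_sum_of_subset fun P hP => ?_
          rw [mem_singleton]
          exact (mem_filter.1 hP).2
      _ = x K := sum_singleton _ _
  have h2 : ((cutE root par dp x).filter fun R => clT root par dp (cutE root par dp x) (par R) = K).card ≤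
      (univ.filter fun R => R ≠ root ∧ par R = K).card := by
    refine card_le_card fun R hR => ?_
    obtain ⟨h3, h4⟩ := mem_filter.1 hR
    obtain ⟨_, h5, h6, _⟩ := mem_filter.1 h3
    refine mem_filter.2 ⟨mem_univ _, h5, ?_⟩
    by_contra hne
    exact below_br h hb (par R) h4 hne (tpos_par h h5 h6)
  omega

theorem dg_nb (h : RT root par dp) {x : V → ℕ} {K : V} (hb : ¬ 2 ≤ cc root par dp x K) :
    ∑ P ∈ univ.filter (fun P => clT root par dp (cutE root par dp x) P = K), x P +
    ((cutE root par dp x).filter fun R => clT root par dp (cutE root par dp x) (par R) = K).card ≤ 1 := by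
  classical
  set C := cutE root par dp x with hC
  set cl := clT root par dp C with hcl
  set Z := univ.filter fun P => cl P = K ∧ tpos par dp x P with hZ
  -- all vertices of `Z` have `cc = 1`
  have hcc : ∀ P ∈ Z, cc root par dp x P = 1 := by
    intro P hP
    obtain ⟨_, h1, h2⟩ := mem_filter.1 hP
    have h3 := cc_pos h h2
    by_contra hne
    by_cases htop : P = root ∨ P ∈ C
    · have h4 : cl P = P := clT_top h htop
      rw [h1] at h4
      subst h4
      omega
    · push Not at htop
      exact htop.2 (mem_filter.2 ⟨mem_univ _, htop.1, h2, Or.inl (by omega)⟩)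
  -- positive children of `P`: cut ones and those of the cluster
  have hch : ∀ P ∈ Z, cc root par dp x P = x P + (C.filter fun R => par R = P).card +
      (Z.filter fun R => R ≠ K ∧ par R = P).card := by
    intro P hP
    obtain ⟨_, hP1, hP2⟩ := mem_filter.1 hP
    unfold cc
    rw [add_assoc, ← card_union_of_disjoint]
    · congr 2
      ext R
      simp only [mem_filter, mem_univ, true_and, mem_union]
      constructor
      · rintro ⟨h1, h2, h3⟩
        by_cases hR : R ∈ C
        · exact Or.inl ⟨hR, h2⟩
        · right
          have h4 : cl R = cl (par R) := clT_par h h1 hR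
          refine ⟨mem_filter.2 ⟨mem_univ _, by rw [h4, h2, hP1], h3⟩, ?_, h2⟩
          rintro rfl
          rcases clT_mem h (C := C) P with h5 | h5
          · rw [show clT root par dp C P = cl P from rfl, hP1] at h5
            exact h1 h5
          · rw [show clT root par dp C P = cl P from rfl, hP1] at h5
            exact hR h5
      · rintro (⟨h1, h2⟩ | ⟨h1, h2, h3⟩)
        · obtain ⟨_, h4, h5, _⟩ := mem_filter.1 h1
          exact ⟨h4, h2, h5⟩
        · obtain ⟨_, h4, h5⟩ := mem_filter.1 h1
          refine ⟨?_, h3, h5⟩
          rintro rfl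
          exact h2 (by rw [← h4]; exact (clT_top h (Or.inl rfl)).symm)
    · rw [disjoint_left]
      intro R hR hR'
      obtain ⟨h1, _⟩ := mem_filter.1 hR
      obtain ⟨h2, h3, _⟩ := mem_filter.1 hR'
      obtain ⟨_, h4, _⟩ := mem_filter.1 h2
      exact h3 (by rw [← h4]; exact (clT_top h (Or.inr h1)).symm)
  -- every vertex of `Z` except the top has its parent in `Z`
  have hpar : ∑ P ∈ Z, (Z.filter fun R => R ≠ K ∧ par R = P).card = (Z.filter fun R => R ≠ K).card := by
    rw [card_eq_sum_card_fiberwise (f := par) (t := Z)]
    · refine sum_congr rfl fun P _ => ?_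
      congr 1
      ext R
      simp only [mem_filter]
      tauto
    · intro R hR
      obtain ⟨h1, h2⟩ := mem_filter.1 (mem_coe.1 hR)
      obtain ⟨_, h3, h4⟩ := mem_filter.1 h1
      have h5 : ¬ (R = root ∨ R ∈ C) := by
        intro h6
        have h7 : cl R = R := clT_top h h6
        exact h2 (by rw [← h3, h7])
      push Not at h5
      refine mem_coe.2 (mem_filter.2 ⟨mem_univ _, ?_, tpos_par h h5.1 h4⟩)
      rw [← h3]
      exact (clT_par h h5.1 h5.2).symm
  have hcount : ∑ P ∈ Z, (x P + (C.filter fun R => par R = P).card) ≤ 1 := by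
    have h1 : ∑ P ∈ Z, cc root par dp x P = Z.card := by
      rw [card_eq_sum_ones]
      exact sum_congr rfl hcc
    have h2 : ∑ P ∈ Z, cc root par dp x P = ∑ P ∈ Z, (x P + (C.filter fun R => par R = P).card) +
        (Z.filter fun R => R ≠ K).card := by
      rw [← hpar, ← sum_add_distrib]
      exact sum_congr rfl hch
    have h3 : Z.card ≤ (Z.filter fun R => R ≠ K).card + 1 := by
      have h4 : Z ⊆ (Z.filter fun R => R ≠ K) ∪ {K} := by
        intro R hR
        by_cases hRK : R = K
        · exact mem_union_right _ (mem_singleton.2 hRK)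
        · exact mem_union_left _ (mem_filter.2 ⟨hR, hRK⟩)
      exact (card_le_card h4).trans ((card_union_le _ _).trans (by simp))
    omega
  have hx : ∑ P ∈ univ.filter (fun P => cl P = K), x P = ∑ P ∈ Z, x P := by
    rw [← sum_filter_add_sum_filter_not (univ.filter (fun P => cl P = K)) (fun P => tpos par dp x P)]
    have e1 : ∑ P ∈ (univ.filter (fun P => cl P = K)).filter (fun P => ¬ tpos par dp x P), x P = 0 := by
      refine sum_eq_zero fun P hP => ?_
      by_contra hne
      exact (mem_filter.1 hP).2 (tpos_self (by omega))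
    rw [e1, add_zero]
    refine sum_congr ?_ fun _ _ => rfl
    ext P
    simp only [hZ, mem_filter, mem_univ, true_and]
  have hcu : (C.filter fun R => cl (par R) = K).card = ∑ P ∈ Z, (C.filter fun R => par R = P).card := by
    rw [card_eq_sum_card_fiberwise (f := par) (t := Z)]
    · refine sum_congr rfl fun P hP => ?_
      obtain ⟨_, h1, _⟩ := mem_filter.1 hP
      congr 1
      ext R
      simp only [mem_filter]
      constructor
      · rintro ⟨⟨h2, _⟩, h3⟩
        exact ⟨h2, h3⟩
      · rintro ⟨h2, h3⟩
        exact ⟨⟨h2, by rw [h3]; exact h1⟩, h3⟩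
    · intro R hR
      obtain ⟨h1, h2⟩ := mem_filter.1 (mem_coe.1 hR)
      obtain ⟨_, h3, h4, _⟩ := mem_filter.1 h1
      exact mem_coe.2 (mem_filter.2 ⟨mem_univ _, h2, tpos_par h h3 h4⟩)
  rw [sum_add_distrib] at hcount
  rw [show (∑ P ∈ univ.filter (fun P => clT root par dp C P = K), x P) = ∑ P ∈ Z, x P from hx,
    show (C.filter fun R => clT root par dp C (par R) = K).card = ∑ P ∈ Z, (C.filter fun R => par R = P).card from hcu]
  exact hcount

/-- depth function, with fuel. -/
noncomputable def dpF (root : V) (par : V → V) : ℕ → V → ℕ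
  | 0, _ => 0
  | n + 1, P => if P = root then 0 else dpF root par n (par P) + 1

theorem dpF_stable {h : V → ℕ} (hpr : ∀ P, P ≠ root → h (par P) < h P) (n : ℕ) : ∀ (P : V), h P ≤ n →
    dpF root par n P = dpF root par (h P) P := by
  induction n using Nat.strong_induction_on with
  | _ n ih =>
    intro P hP
    rcases hP.lt_or_eq with hlt | heq
    · by_cases hr : P = root
      · have : ∀ m, dpF root par m P = 0 := by
          intro m
          cases m with
          | zero => rfl
          | succ m => show (if P = root then 0 else _) = 0; rw [if_pos hr]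
        rw [this, this]
      · have h1 := hpr P hr
        obtain ⟨m, hm⟩ : ∃ m, h P = m + 1 := ⟨h P - 1, by omega⟩
        obtain ⟨n', hn'⟩ : ∃ n', n = n' + 1 := ⟨n - 1, by omega⟩
        rw [hm, hn']
        show (if P = root then 0 else dpF root par n' (par P) + 1) = (if P = root then 0 else dpF root par m (par P) + 1)
        rw [if_neg hr, if_neg hr, ih n' (by omega) (par P) (by omega), ih m (by omega) (par P) (by omega)]
    · rw [heq]

theorem dpF_rt {h : V → ℕ} (hpr : ∀ P, P ≠ root → h (par P) < h P) :
    RT root par (fun P => dpF root par (h P) P) where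
  r0 := by
    show dpF root par (h root) root = 0
    cases h root with
    | zero => rfl
    | succ n => show (if root = root then 0 else _) = 0; rw [if_pos rfl]
  st := by
    intro P hP
    show dpF root par (h (par P)) (par P) + 1 = dpF root par (h P) P
    have h1 := hpr P hP
    obtain ⟨m, hm⟩ : ∃ m, h P = m + 1 := ⟨h P - 1, by omega⟩
    rw [hm]
    show _ = (if P = root then 0 else dpF root par m (par P) + 1)
    rw [if_neg hP, dpF_stable hpr m (par P) (by omega)]

end

/-- **clusters.** -/
theorem clusters {V : Type} [Fintype V] [DecidableEq V] (root : V) (pr : V → V) (h : V → ℕ)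
    (hpr : ∀ P, P ≠ root → h (pr P) < h P) (x : V → ℕ) :
    ∃ (top : V → V) (C : Finset V), root ∉ C ∧ (∀ P, P = root ∨ P ∈ C → top P = P) ∧
      (∀ P, P ≠ root → P ∉ C → top P = top (pr P)) ∧ C.card ≤ 3 * ∑ P, x P ∧
      ∀ t, (∑ P ∈ univ.filter (fun P => top P = t), x P) + (C.filter (fun P => top (pr P) = t)).card ≤
        1 + x t + (univ.filter (fun P => P ≠ root ∧ pr P = t)).card := by
  classical
  obtain ⟨dp, hR⟩ : ∃ dp : V → ℕ, RT root pr dp := ⟨_, dpF_rt hpr⟩
  refine ⟨clT root pr dp (cutE root pr dp x), cutE root pr dp x, ?_, ?_, ?_, card_cutE hR x, ?_⟩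
  · intro h1
    exact (mem_filter.1 h1).2.1 rfl
  · intro P hP
    exact clT_top hR hP
  · intro P h1 h2
    exact clT_par hR h1 h2
  · intro t
    by_cases hb : 2 ≤ cc root pr dp x t
    · have := dg_br hR hb
      omega
    · have := dg_nb hR hb
      omega

end Pool.Agent.GW
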