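import Pool.Agent.GW.CoarseA

/-!
# GW/Coarse: a state whose unmarked vertices have degree 2 is an expansion

PROOF.  `S2.D = Mk`; the block of `d ∈ Mk`: `d, r d, .., r^(k-1) d`, `k d` = least `k ≥ 1` with `r^k d ∈ Mk` (`≤ δ` by `h3`); `S2.r d = r^(k d) d`; `S2.a d = a (r^(k-1) d)`:
this is in `Mk` because `r^k d` starts at the same vertex; for an unmarked letter `x = r y` the vertex is `{x, a y}`, so `r (a x) = a y`: the block of
`S2.a d` is `a (r^(k-1) d), .., a d`, so `k (S2.a d) = k d`.  Closed: `a (r^(k-1) d) = d` would give `a (r^(k-1-i) d) = r^i d` for all `i`; in the middle a fixed point of `a` or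
`a x = r x`, i.e. a vertex of degree 1 which is not marked.
`φ (d, i) = r^i d`.  A word of `S2` consists of the marked letters of a word of `T`.
-/

set_option autoImplicit false

namespace Pool.Agent.GW

open Equiv Pool.Agent.SWP

/-- a cycle of length two -/
theorem two_cycle {D : Type} {σ : Perm D} {x : D} (h : Set.ncard {e | σ.SameCycle x e} = 2) :
    σ x ≠ x ∧ σ (σ x) = x := by
  have hx : σ x ≠ x := by
    intro hc
    have h1 : {e | σ.SameCycle x e} = {x} := by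
      ext e
      simp only [Set.mem_ofPred_eq, Set.mem_singleton_iff]
      constructor
      · intro h2
        exact (Perm.SameCycle.eq_of_left h2 hc).symm
      · rintro rfl
        exact Perm.SameCycle.refl _ _
    rw [h1, Set.ncard_singleton] at h
    omega
  refine ⟨hx, ?_⟩
  by_contra hc
  have h1 : ({x, σ x, σ (σ x)} : Set D) ⊆ {e | σ.SameCycle x e} := by
    rintro e (rfl | rfl | rfl)
    · exact Perm.SameCycle.refl _ _
    · exact Perm.sameCycle_apply_right.2 (Perm.SameCycle.refl _ _)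
    · exact Perm.sameCycle_apply_right.2 (Perm.sameCycle_apply_right.2 (Perm.SameCycle.refl _ _))
  have hfin : Set.Finite {e | σ.SameCycle x e} := by
    by_contra hinf
    have := Set.Infinite.ncard hinf
    omega
  have h2 := Set.ncard_le_ncard h1 hfin
  have h3 : σ (σ x) ≠ σ x := fun h' => hx (σ.injective h')
  have h4 : ({x, σ x, σ (σ x)} : Set D).ncard = 3 := by
    rw [Set.ncard_eq_three]
    exact ⟨x, σ x, σ (σ x), fun h' => hx h'.symm, fun h' => hc h'.symm, fun h' => h3 h'.symm, rfl⟩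
  omega

section

variable {D : Type} {r a : Perm D} {Mk : Set D}

/-- at an unmarked letter `x = r y` the partners follow each other -/
theorem co_step (haa : ∀ d, a (a d) = d) (h2 : ∀ d, d ∉ Mk → Set.ncard {e | (r * a).SameCycle d e} = 2) {x y : D}
    (hx : x ∉ Mk) (hy : r y = x) : r (a x) = a y := by
  obtain ⟨_, h3⟩ := two_cycle (h2 x hx)
  have h4 : r (a (r (a x))) = r y := Eq.trans h3 hy.symm
  have h5 := r.injective h4
  rw [← h5, haa]

theorem co_block (haa : ∀ d, a (a d) = d) (h2 : ∀ d, d ∉ Mk → Set.ncard {e | (r * a).SameCycle d e} = 2)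
    (hx : ∀ d, ∃ n, 1 ≤ n ∧ (r ^ n) d ∈ Mk) (d : D) : ∀ i, i < crK hx d →
    (r ^ i) (a ((r ^ (crK hx d - 1)) d)) = a ((r ^ (crK hx d - 1 - i)) d) := by
  intro i
  induction i with
  | zero => intro _; simp
  | succ i ih =>
    intro hi
    rw [pow_succ', Perm.mul_apply, ih (by omega)]
    refine co_step haa h2 (crK_min hx (n := crK hx d - 1 - i) (by omega) (by omega)) ?_
    have h4 : crK hx d - 1 - i = (crK hx d - 1 - (i + 1)) + 1 := by omega
    rw [h4, pow_succ', Perm.mul_apply]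

theorem co_mem (haa : ∀ d, a (a d) = d) (h1 : ∀ d e, (r * a).SameCycle d e → (d ∈ Mk ↔ e ∈ Mk))
    (hx : ∀ d, ∃ n, 1 ≤ n ∧ (r ^ n) d ∈ Mk) (d : D) : a ((r ^ (crK hx d - 1)) d) ∈ Mk := by
  have h3 : (r * a).SameCycle (a ((r ^ (crK hx d - 1)) d)) ((r * a) (a ((r ^ (crK hx d - 1)) d))) :=
    Perm.sameCycle_apply_right.2 (Perm.SameCycle.refl _ _)
  rw [h1 _ _ h3, Perm.mul_apply, haa]
  have h4 : crK hx d = (crK hx d - 1) + 1 := by have := crK_pos hx d; omega
  have h5 := crK_mem hx d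
  rw [h4, pow_succ', Perm.mul_apply] at h5
  exact h5

theorem co_k (haa : ∀ d, a (a d) = d) (h1 : ∀ d e, (r * a).SameCycle d e → (d ∈ Mk ↔ e ∈ Mk))
    (h2 : ∀ d, d ∉ Mk → Set.ncard {e | (r * a).SameCycle d e} = 2)
    (hx : ∀ d, ∃ n, 1 ≤ n ∧ (r ^ n) d ∈ Mk) {d : D} (hd : d ∈ Mk) :
    crK hx (a ((r ^ (crK hx d - 1)) d)) = crK hx d := by
  have hk := crK_pos hx d
  refine crK_eq hx hk ?_ ?_
  · have h4 : crK hx d = (crK hx d - 1) + 1 := by omega
    rw [h4, pow_succ', Perm.mul_apply]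
    have h5 := co_block haa h2 hx d (crK hx d - 1) (by omega)
    have h6 : crK hx d - 1 + 1 - 1 = crK hx d - 1 := by omega
    rw [h6, h5, Nat.sub_self, pow_zero, Perm.one_apply]
    have h3 : (r * a).SameCycle d ((r * a) d) := Perm.sameCycle_apply_right.2 (Perm.SameCycle.refl _ _)
    exact (h1 _ _ h3).1 hd
  · intro m hm1 hm2
    rw [co_block haa h2 hx d m hm2]
    have hxm : (r ^ (crK hx d - m)) d ∉ Mk := crK_min hx (by omega) (by omega)
    have h4 : crK hx d - m = (crK hx d - 1 - m) + 1 := by omega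
    have h5 : r (a ((r ^ (crK hx d - m)) d)) = a ((r ^ (crK hx d - 1 - m)) d) := by
      refine co_step haa h2 hxm ?_
      rw [h4, pow_succ', Perm.mul_apply]
    rw [← h5]
    have h3 : (r * a).SameCycle ((r ^ (crK hx d - m)) d) ((r * a) ((r ^ (crK hx d - m)) d)) :=
      Perm.sameCycle_apply_right.2 (Perm.SameCycle.refl _ _)
    exact fun hc => hxm ((h1 _ _ h3).2 hc)

theorem co_ne (haa : ∀ d, a (a d) = d) (hcl : ∀ d, a d ≠ d)
    (h2 : ∀ d, d ∉ Mk → Set.ncard {e | (r * a).SameCycle d e} = 2)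
    (hx : ∀ d, ∃ n, 1 ≤ n ∧ (r ^ n) d ∈ Mk) {d : D} : a ((r ^ (crK hx d - 1)) d) ≠ d := by
  intro hc
  have hk := crK_pos hx d
  have hb : ∀ i, i < crK hx d → (r ^ i) d = a ((r ^ (crK hx d - 1 - i)) d) := by
    intro i hi
    have h4 := co_block haa h2 hx d i hi
    rw [hc] at h4
    exact h4
  obtain ⟨m, hm | hm⟩ := Nat.even_or_odd' (crK hx d - 1)
  · have h4 := hb m (by omega)
    have h5 : crK hx d - 1 - m = m := by omega
    rw [h5] at h4
    exact hcl _ h4.symm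
  · have h4 := hb m (by omega)
    have h5 : crK hx d - 1 - m = m + 1 := by omega
    rw [h5] at h4
    have h6 : (r ^ (m + 1)) d ∉ Mk := crK_min hx (by omega) (by omega)
    have h7 := (two_cycle (h2 _ h6)).1
    apply h7
    rw [Perm.mul_apply, ← h4, pow_succ', Perm.mul_apply]

end

/-- sum over the marked letters of the number of marked letters of the word -/
theorem co_sum {α β : Type} [Fintype α] [Fintype β] [DecidableEq β] (f : α → β) :
    ∑ d : α, Set.ncard {e : α | f e = f d} = ∑ P : β, (Set.ncard {e : α | f e = P}) ^ 2 := by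
  classical
  have h1 : ∑ d : α, Set.ncard {e : α | f e = f d} =
      ∑ P : β, ∑ d ∈ Finset.univ.filter (fun d => f d = P), Set.ncard {e : α | f e = f d} :=
    (Finset.sum_fiberwise Finset.univ f _).symm
  rw [h1]
  refine Finset.sum_congr rfl (fun P _ => ?_)
  have h2 : ∀ d ∈ Finset.univ.filter (fun d => f d = P), Set.ncard {e : α | f e = f d} = Set.ncard {e : α | f e = P} := by
    intro d hd
    rw [(Finset.mem_filter.1 hd).2]
  rw [Finset.sum_congr rfl h2, Finset.sum_const, smul_eq_mul, sq]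
  congr 1
  rw [Set.ncard_eq_toFinset_card']
  congr 1
  ext e
  simp

theorem coarse (T : Sf) (hT : T.Closed) (δ : ℕ) (Mk : Set T.D) (h1 : ∀ d e, T.vx d e → (d ∈ Mk ↔ e ∈ Mk))
    (h2 : ∀ d, d ∉ Mk → Set.ncard {e | T.vx d e} = 2) (h3 : ∀ d, ∃ i < δ, (T.r⁻¹ ^ i) d ∈ Mk) :
    ∃ (S2 : Sf) (k : S2.D → ℕ) (hk : ∀ d, 0 < k d) (ha : ∀ d, k (S2.a d) = k d), S2.Closed ∧ (∀ d, k d ≤ δ) ∧
      S2.card = Mk.ncard ∧ S2.area = ∑ P : T.Wd, (Set.ncard {d | d ∈ Mk ∧ T.wd d = P}) ^ 2 ∧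
      ∃ φ : (ex S2 k hk ha).D ≃ T.D, Iso (ex S2 k hk ha) T φ := by
  classical
  have hx0 : ∀ d, ∃ n, 1 ≤ n ∧ n ≤ δ ∧ (T.r ^ n) d ∈ Mk := by
    intro d
    obtain ⟨i, hi, h⟩ := h3 ((T.r ^ δ) d)
    refine ⟨δ - i, by omega, by omega, ?_⟩
    have h4 : (T.r⁻¹ ^ i) ((T.r ^ δ) d) = (T.r ^ (δ - i)) d := by
      have h5 := pow_inv_sub T.r⁻¹ (m := i) (n := δ) (by omega) d
      rw [inv_inv] at h5
      exact h5
    rw [h4] at h
    exact h
  have hx : ∀ d, ∃ n, 1 ≤ n ∧ (T.r ^ n) d ∈ Mk := by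
    intro d
    obtain ⟨n, h4, _, h5⟩ := hx0 d
    exact ⟨n, h4, h5⟩
  have hkδ : ∀ d, crK hx d ≤ δ := by
    intro d
    obtain ⟨n, h4, h6, h5⟩ := hx0 d
    exact (crK_le hx h4 h5).trans h6
  let aF : Mk → Mk := fun d => ⟨T.a ((T.r ^ (crK hx (d : T.D) - 1)) d), co_mem T.aa h1 hx d⟩
  have hkF : ∀ d : Mk, crK hx ((aF d : Mk) : T.D) = crK hx (d : T.D) := fun d => co_k T.aa h1 h2 hx d.2
  have hinv : Function.Involutive aF := by
    intro d
    apply Subtype.ext
    show T.a ((T.r ^ (crK hx ((aF d : Mk) : T.D) - 1)) (aF d : Mk)) = d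
    rw [hkF d]
    show T.a ((T.r ^ (crK hx (d : T.D) - 1)) (T.a ((T.r ^ (crK hx (d : T.D) - 1)) d))) = d
    have hk := crK_pos hx (d : T.D)
    rw [co_block T.aa h2 hx d _ (by omega), Nat.sub_self, pow_zero, Perm.one_apply, T.aa]
  let S2 : Sf := ⟨Mk, Fintype.ofFinite _, crR hx, hinv.toPerm, hinv⟩
  have hS2 : S2.Closed := by
    refine fun (d : Mk) hc => ?_
    exact co_ne T.aa hT h2 hx (congrArg Subtype.val (show aF d = d from hc))
  let k : S2.D → ℕ := fun (d : Mk) => crK hx (d : T.D)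
  have hk : ∀ d, 0 < k d := fun (d : Mk) => crK_pos hx (d : T.D)
  have ha : ∀ d, k (S2.a d) = k d := fun (d : Mk) => hkF d
  refine ⟨S2, k, hk, ha, hS2, fun (d : Mk) => hkδ d, ?_, ?_, ?_⟩
  · exact (@Nat.card_eq_fintype_card Mk (Fintype.ofFinite _)).symm
  · have e1 : ∀ d : Mk, S2.len d = Set.ncard {e : Mk | T.wd (e : T.D) = T.wd (d : T.D)} := by
      intro d
      unfold Sf.len Sf.num
      congr 1
      ext e
      constructor
      · rintro ⟨h4, _⟩
        exact ((T.wd_eq _ _).2 ((crR_same hx d e).1 h4)).symm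
      · intro h4
        exact ⟨(crR_same hx d e).2 ((T.wd_eq _ _).1 (Eq.symm h4)), hS2 e⟩
    have e2 : S2.area = ∑ P : T.Wd, (Set.ncard {e : Mk | T.wd (e : T.D) = P}) ^ 2 := by
      unfold Sf.area
      have e3 := @co_sum S2.D T.Wd S2.fD _ _ (fun d => T.wd (Subtype.val (p := fun x => x ∈ Mk) d))
      refine Eq.trans ?_ e3
      exact Finset.sum_congr rfl (fun d _ => e1 d)
    rw [e2]
    refine Finset.sum_congr rfl (fun P _ => ?_)
    congr 1
    rw [← Set.ncard_image_of_injective _ Subtype.val_injective]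
    congr 1
    ext e
    constructor
    · rintro ⟨⟨x, hx⟩, hx2, rfl⟩
      exact ⟨hx, hx2⟩
    · rintro ⟨h4, h5⟩
      exact ⟨⟨e, h4⟩, h5, rfl⟩
  · let φ0 : (Σ d : S2.D, Fin (k d)) → T.D := fun x => (T.r ^ (x.2 : ℕ)) ((x.1 : Mk) : T.D)
    have hinj : Function.Injective φ0 := by
      rintro ⟨⟨d, hd⟩, ⟨i, hi⟩⟩ ⟨⟨e, he⟩, ⟨l, hl⟩⟩ h
      have h4 := crK_inj hx hd he hi hl h
      obtain ⟨h5, h6⟩ := h4
      exact ex_eq (Subtype.ext h5) h6 _ _
    have hsurj : Function.Surjective φ0 := by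
      intro e
      obtain ⟨d, hd, i, hi, h4⟩ := cr_surj hx h3 e
      exact ⟨⟨⟨d, hd⟩, ⟨i, hi⟩⟩, h4⟩
    refine ⟨Equiv.ofBijective φ0 ⟨hinj, hsurj⟩, ?_, ?_⟩
    · rintro ⟨⟨d, hd⟩, ⟨i, hi⟩⟩
      by_cases h : i + 1 < crK hx d
      · show T.r ((T.r ^ i) d) = φ0 (exF S2.r k hk ⟨⟨d, hd⟩, ⟨i, hi⟩⟩)
        rw [exF_lt S2.r k hk hi h]
        show T.r ((T.r ^ i) d) = (T.r ^ (i + 1)) d
        rw [pow_succ', Perm.mul_apply]
      · show T.r ((T.r ^ i) d) = φ0 (exF S2.r k hk ⟨⟨d, hd⟩, ⟨i, hi⟩⟩)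
        rw [exF_last S2.r k hk hi h]
        show T.r ((T.r ^ i) d) = (T.r ^ 0) ((T.r ^ crK hx d) d)
        have hi' : i < crK hx d := hi
        have h4 : crK hx d = i + 1 := by omega
        rw [h4, pow_zero, Perm.one_apply, pow_succ', Perm.mul_apply]
    · rintro ⟨⟨d, hd⟩, ⟨i, hi⟩⟩
      show T.a ((T.r ^ i) d) = φ0 (exA S2 k ha ⟨⟨d, hd⟩, ⟨i, hi⟩⟩)
      rw [exA_live S2 k ha _ i hi (hS2 _)]
      show T.a ((T.r ^ i) d) = (T.r ^ (crK hx d - 1 - i)) (T.a ((T.r ^ (crK hx d - 1)) d))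
      have hi' : i < crK hx d := hi
      rw [co_block T.aa h2 hx d _ (by omega)]
      congr 3
      omega

end Pool.Agent.GW
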