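import Pool.Agent.GW.Graph

/-!
# GW.Decomp: boundary-linked decomposition in one step

`p x`: number of sides of the polygon `x`, `q x` an additional measure, `c`: partition (labels in `V`).
`outw c x = p x - ∑_{y, c y = c x} w x y`: sides of `x` whose partner is not in the same part; `nu c κ X = ∑ (p + q + κ outw)`.

PROOF.  Take the labelling `c` minimising `Φ c = ∑_i F (nu c κ (fiber i)) + (∑_x outw c x) / (8 ψ)`, `F t = t log t`.  If
`X ∪ Y = fiber i`, `e = ee X Y < ψ min a b`, `a = nu X`, `b = nu Y`, then `X`, `Y` are nonempty, so some label is unused; give it to `Y`: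
`ν` of the two parts is `a + κ e`, `b + κ e`, `∑ outw` grows by `2 e`.  `F (a + κ e) ≤ F a + κ e (log N + 1)` as all values are in
`[1, N]`; `F a + F b - F (a + b) ≤ - min a b * log 2`; so `Φ` changes by at most
`- min a b log 2 + 2 κ e (log N + 1) + e / (4 ψ) < min a b (- log 2 + 1/8 + 1/4) < 0`.
The bound: compare with the constant labelling.
-/

set_option autoImplicit false

namespace Pool.Agent.GW

open Finset

namespace WG

variable {V : Type} [Fintype V] [DecidableEq V] (G : WG V)

/-- sides whose partner is not in the same part. -/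
noncomputable def outw (p : V → ℝ) (c : V → V) (x : V) : ℝ := p x - ∑ y ∈ univ.filter (fun y => c y = c x), G.w x y

/-- the measure of the decomposition. -/
noncomputable def nu (p q : V → ℝ) (κ : ℝ) (c : V → V) (X : Finset V) : ℝ := ∑ x ∈ X, (p x + q x + κ * G.outw p c x)

theorem Decomp_mul_log_add {a δ : ℝ} (ha : 1 ≤ a) (hδ : 0 ≤ δ) :
    (a + δ) * Real.log (a + δ) ≤ a * Real.log a + δ * (Real.log (a + δ) + 1) := by
  have ha0 : 0 < a := by linarith
  have h1 : Real.log ((a + δ) / a) ≤ (a + δ) / a - 1 := Real.log_le_sub_one_of_pos (by positivity)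
  rw [Real.log_div (by positivity) (by positivity)] at h1
  have h2 : (a + δ) / a - 1 = δ / a := by field_simp; ring
  rw [h2] at h1
  have h3 : a * (Real.log (a + δ) - Real.log a) ≤ a * (δ / a) := mul_le_mul_of_nonneg_left h1 ha0.le
  have h4 : a * (δ / a) = δ := by field_simp
  nlinarith

theorem Decomp_split_le {a b : ℝ} (ha : 1 ≤ a) (hab : a ≤ b) :
    a * Real.log a + b * Real.log b ≤ (a + b) * Real.log (a + b) - a * Real.log 2 := by
  have ha0 : 0 < a := by linarith
  have h1 : Real.log a + Real.log 2 ≤ Real.log (a + b) := by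
    rw [← Real.log_mul (by positivity) (by positivity)]
    exact Real.log_le_log (by positivity) (by linarith)
  have h2 : Real.log b ≤ Real.log (a + b) := Real.log_le_log (by linarith) (by linarith)
  have h3 : b * Real.log b ≤ b * Real.log (a + b) := mul_le_mul_of_nonneg_left h2 (by linarith)
  have h4 : a * (Real.log a + Real.log 2) ≤ a * Real.log (a + b) := mul_le_mul_of_nonneg_left h1 ha0.le
  nlinarith

theorem Decomp_num {a b e ψ κ N : ℝ} (ha : 1 ≤ a) (hb : 1 ≤ b) (he : 0 ≤ e) (h0 : 0 < ψ)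
    (hN : 1 ≤ N) (hκ : κ = 1 / (16 * ψ * (Real.log N + 1))) (haN : a + κ * e ≤ N) (hbN : b + κ * e ≤ N)
    (hlt : e < ψ * min a b) :
    (a + κ * e) * Real.log (a + κ * e) + (b + κ * e) * Real.log (b + κ * e) + 2 * e / (8 * ψ) <
      (a + b) * Real.log (a + b) := by
  have hlog : 0 ≤ Real.log N := Real.log_nonneg hN
  have hκ0 : 0 < κ := by rw [hκ]; positivity
  have hke : 0 ≤ κ * e := by positivity
  have hkl : κ * e * (Real.log N + 1) = e / (16 * ψ) := by
    rw [hκ]; field_simp
  have h1 := Decomp_mul_log_add ha hke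
  have h2 := Decomp_mul_log_add hb hke
  have h3 : κ * e * (Real.log (a + κ * e) + 1) ≤ e / (16 * ψ) := by
    rw [← hkl]
    apply mul_le_mul_of_nonneg_left _ hke
    have := Real.log_le_log (by linarith) haN
    linarith
  have h4 : κ * e * (Real.log (b + κ * e) + 1) ≤ e / (16 * ψ) := by
    rw [← hkl]
    apply mul_le_mul_of_nonneg_left _ hke
    have := Real.log_le_log (by linarith) hbN
    linarith
  have h5 : a * Real.log a + b * Real.log b ≤ (a + b) * Real.log (a + b) - min a b * Real.log 2 := by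
    rcases le_total a b with h | h
    · rw [min_eq_left h]; exact Decomp_split_le ha h
    · rw [min_eq_right h]
      have := Decomp_split_le hb h
      rw [add_comm b a] at this
      linarith
  have h6 : e / ψ < min a b := by rw [div_lt_iff₀ h0]; linarith
  have h7 : e / (16 * ψ) = (e / ψ) / 16 := by field_simp
  have h8 : 2 * e / (8 * ψ) = (e / ψ) / 4 := by field_simp; ring
  rw [h7] at h3 h4
  rw [h8]
  have h9 : (0.6931471803 : ℝ) < Real.log 2 := Real.log_two_gt_d9
  have h10 : 0 ≤ e / ψ := by positivity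
  have h11 : 0 < min a b := lt_min (by linarith) (by linarith)
  nlinarith

section

variable (p q : V → ℝ) (κ : ℝ) (c : V → V)

theorem outw_ge (x : V) : p x - G.om x ≤ G.outw p c x := by
  unfold outw om
  have : ∑ y ∈ univ.filter (fun y => c y = c x), G.w x y ≤ ∑ y, G.w x y :=
    sum_le_sum_of_subset_of_nonneg (filter_subset _ _) fun y _ _ => G.nonneg x y
  linarith

theorem outw_le (x : V) : G.outw p c x ≤ p x := by
  unfold outw
  have : 0 ≤ ∑ y ∈ univ.filter (fun y => c y = c x), G.w x y := sum_nonneg fun y _ => G.nonneg x y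
  linarith

variable {p q κ c}

theorem outw_nonneg (hp : ∀ x, G.om x ≤ p x) (x : V) : 0 ≤ G.outw p c x := by
  have := G.outw_ge p c x
  linarith [hp x]

theorem nu_term_ge (hp : ∀ x, G.om x ≤ p x) (hp1 : ∀ x, 1 ≤ p x) (hq : ∀ x, 0 ≤ q x) (hκ : 0 ≤ κ) (x : V) :
    1 ≤ p x + q x + κ * G.outw p c x := by
  have := mul_nonneg hκ (G.outw_nonneg (c := c) hp x)
  linarith [hp1 x, hq x]

theorem nu_ge_one (hp : ∀ x, G.om x ≤ p x) (hp1 : ∀ x, 1 ≤ p x) (hq : ∀ x, 0 ≤ q x) (hκ : 0 ≤ κ) {X : Finset V}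
    (hX : X.Nonempty) : 1 ≤ G.nu p q κ c X := by
  obtain ⟨x, hx⟩ := hX
  unfold nu
  refine (G.nu_term_ge (c := c) hp hp1 hq hκ x).trans ?_
  exact single_le_sum (f := fun x => p x + q x + κ * G.outw p c x)
    (fun y _ => by have := G.nu_term_ge (c := c) hp hp1 hq hκ y; linarith) hx

theorem nu_le (hp : ∀ x, G.om x ≤ p x) (hp1 : ∀ x, 1 ≤ p x) (hq : ∀ x, 0 ≤ q x) {ψ : ℝ} (h0 : 0 < ψ) (hκ : 0 ≤ κ)
    (hκψ : κ ≤ 1 / ψ) (X : Finset V) : G.nu p q κ c X ≤ ∑ x, (p x + q x) + (∑ x, p x) / ψ := by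
  unfold nu
  have h1 : ∑ x ∈ X, (p x + q x + κ * G.outw p c x) ≤ ∑ x, (p x + q x + κ * G.outw p c x) :=
    sum_le_sum_of_subset_of_nonneg (subset_univ X)
      (fun y _ _ => by have := G.nu_term_ge (c := c) hp hp1 hq hκ y; linarith)
  refine h1.trans ?_
  rw [sum_add_distrib, ← mul_sum]
  have h2 : ∑ x, G.outw p c x ≤ ∑ x, p x := sum_le_sum fun x _ => G.outw_le p c x
  have h3 : 0 ≤ ∑ x, p x := sum_nonneg fun x _ => by linarith [hp1 x]
  have h4 : κ * ∑ x, G.outw p c x ≤ 1 / ψ * ∑ x, p x :=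
    mul_le_mul hκψ h2 (sum_nonneg fun x _ => G.outw_nonneg hp x) (by positivity)
  have h5 : 1 / ψ * ∑ x, p x = (∑ x, p x) / ψ := by ring
  linarith

theorem nu_union {X Y : Finset V} (h : Disjoint X Y) :
    G.nu p q κ c (X ∪ Y) = G.nu p q κ c X + G.nu p q κ c Y := by
  unfold nu; exact sum_union h

/-- the partition after `Y` is given to the new label `j` -/
def recol (c : V → V) (Y : Finset V) (j : V) (x : V) : V := if x ∈ Y then j else c x

variable {X Y : Finset V} {i j : V}

theorem recol_j (hj : ∀ x, c x ≠ j) : univ.filter (fun x => recol c Y j x = j) = Y := by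
  ext x
  rw [mem_filter]
  simp only [mem_univ, true_and]
  unfold recol
  by_cases hx : x ∈ Y
  · simp [hx]
  · simp [hx, hj x]

theorem recol_i (hXY : X ∪ Y = univ.filter (fun x => c x = i)) (hd : Disjoint X Y) (hij : i ≠ j) :
    univ.filter (fun x => recol c Y j x = i) = X := by
  ext x
  rw [mem_filter]
  simp only [mem_univ, true_and]
  unfold recol
  have h1 : x ∈ X ∪ Y ↔ c x = i := by rw [hXY]; simp
  rw [mem_union] at h1
  by_cases hx : x ∈ Y
  · simp only [hx, if_true]
    constructor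
    · intro h; exact absurd h.symm hij
    · intro h; exact absurd hx (disjoint_left.mp hd h)
  · simp only [hx, if_false]
    rw [← h1]
    constructor
    · rintro (h | h)
      · exact h
      · exact absurd h hx
    · intro h; exact Or.inl h

theorem recol_k (hXY : X ∪ Y = univ.filter (fun x => c x = i)) {k : V} (hki : k ≠ i) (hkj : k ≠ j) :
    univ.filter (fun x => recol c Y j x = k) = univ.filter (fun x => c x = k) := by
  ext x
  rw [mem_filter, mem_filter]
  simp only [mem_univ, true_and]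
  unfold recol
  have h1 : x ∈ X ∪ Y ↔ c x = i := by rw [hXY]; simp
  rw [mem_union] at h1
  by_cases hx : x ∈ Y
  · simp only [hx, if_true]
    have h2 : c x = i := h1.1 (Or.inr hx)
    constructor
    · intro h; exact absurd h.symm hkj
    · intro h; exact absurd (h.symm.trans h2) hki
  · simp only [hx, if_false]

theorem outw_recol_X (hXY : X ∪ Y = univ.filter (fun x => c x = i)) (hd : Disjoint X Y) (hij : i ≠ j) {x : V}
    (hx : x ∈ X) : G.outw p (recol c Y j) x = G.outw p c x + ∑ y ∈ Y, G.w x y := by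
  have h1 : x ∈ X ∪ Y ↔ c x = i := by rw [hXY]; simp
  have hcx : c x = i := h1.1 (mem_union_left _ hx)
  have hxY : x ∉ Y := disjoint_left.mp hd hx
  have h2 : recol c Y j x = i := by simp [recol, hxY, hcx]
  unfold outw
  rw [h2, hcx, recol_i hXY hd hij, ← hXY, sum_union hd]
  ring

theorem outw_recol_Y (hXY : X ∪ Y = univ.filter (fun x => c x = i)) (hd : Disjoint X Y) (hj : ∀ x, c x ≠ j) {x : V}
    (hx : x ∈ Y) : G.outw p (recol c Y j) x = G.outw p c x + ∑ y ∈ X, G.w x y := by
  have h1 : x ∈ X ∪ Y ↔ c x = i := by rw [hXY]; simp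
  have hcx : c x = i := h1.1 (mem_union_right _ hx)
  have h2 : recol c Y j x = j := by simp [recol, hx]
  unfold outw
  rw [h2, hcx, recol_j hj, ← hXY, sum_union hd]
  ring

theorem outw_recol_Z (hXY : X ∪ Y = univ.filter (fun x => c x = i)) (hj : ∀ x, c x ≠ j) {x : V}
    (hx : x ∉ X ∪ Y) : G.outw p (recol c Y j) x = G.outw p c x := by
  have h1 : x ∈ X ∪ Y ↔ c x = i := by rw [hXY]; simp
  have hcx : c x ≠ i := fun h => hx (h1.2 h)
  have hxY : x ∉ Y := fun h => hx (mem_union_right _ h)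
  have h2 : recol c Y j x = c x := by simp [recol, hxY]
  unfold outw
  rw [h2, recol_k hXY hcx (hj x)]

theorem nu_recol_X (hXY : X ∪ Y = univ.filter (fun x => c x = i)) (hd : Disjoint X Y) (hij : i ≠ j) :
    G.nu p q κ (recol c Y j) X = G.nu p q κ c X + κ * G.ee X Y := by
  unfold nu ee
  rw [mul_sum, ← sum_add_distrib]
  refine sum_congr rfl fun x hx => ?_
  rw [G.outw_recol_X hXY hd hij hx]
  ring

theorem nu_recol_Y (hXY : X ∪ Y = univ.filter (fun x => c x = i)) (hd : Disjoint X Y) (hj : ∀ x, c x ≠ j) :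
    G.nu p q κ (recol c Y j) Y = G.nu p q κ c Y + κ * G.ee X Y := by
  rw [G.ee_comm X Y]
  unfold nu ee
  rw [mul_sum, ← sum_add_distrib]
  refine sum_congr rfl fun x hx => ?_
  rw [G.outw_recol_Y hXY hd hj hx]
  ring

theorem nu_recol_Z (hXY : X ∪ Y = univ.filter (fun x => c x = i)) (hj : ∀ x, c x ≠ j) {k : V} (hki : k ≠ i) :
    G.nu p q κ (recol c Y j) (univ.filter (fun x => c x = k)) = G.nu p q κ c (univ.filter (fun x => c x = k)) := by
  unfold nu
  refine sum_congr rfl fun x hx => ?_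
  have hcx : c x = k := by simpa using hx
  have hx2 : x ∉ X ∪ Y := by
    rw [hXY]; simp [hcx, hki]
  rw [G.outw_recol_Z hXY hj hx2]

theorem sum_outw_recol (hXY : X ∪ Y = univ.filter (fun x => c x = i)) (hd : Disjoint X Y) (hij : i ≠ j)
    (hj : ∀ x, c x ≠ j) : ∑ x, G.outw p (recol c Y j) x = ∑ x, G.outw p c x + 2 * G.ee X Y := by
  have h1 : ∀ f : V → ℝ, ∑ x, f x = (∑ x ∈ X, f x + ∑ x ∈ Y, f x) + ∑ x ∈ (X ∪ Y)ᶜ, f x := by
    intro f
    rw [← sum_union hd, sum_add_sum_compl]
  rw [h1 (fun x => G.outw p (recol c Y j) x), h1 (fun x => G.outw p c x)]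
  have h2 : ∑ x ∈ X, G.outw p (recol c Y j) x = ∑ x ∈ X, G.outw p c x + G.ee X Y := by
    unfold ee
    rw [← sum_add_distrib]
    exact sum_congr rfl fun x hx => G.outw_recol_X hXY hd hij hx
  have h3 : ∑ x ∈ Y, G.outw p (recol c Y j) x = ∑ x ∈ Y, G.outw p c x + G.ee X Y := by
    rw [G.ee_comm X Y]
    unfold ee
    rw [← sum_add_distrib]
    exact sum_congr rfl fun x hx => G.outw_recol_Y hXY hd hj hx
  have h4 : ∑ x ∈ (X ∪ Y)ᶜ, G.outw p (recol c Y j) x = ∑ x ∈ (X ∪ Y)ᶜ, G.outw p c x :=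
    sum_congr rfl fun x hx => G.outw_recol_Z hXY hj (by simpa using hx)
  rw [h2, h3, h4]
  ring

end

theorem decomp [Nonempty V] (p q : V → ℝ) (hp : ∀ x, G.om x ≤ p x) (hp1 : ∀ x, 1 ≤ p x) (hq : ∀ x, 0 ≤ q x) {ψ κ : ℝ}
    (h0 : 0 < ψ) (h1 : ψ ≤ 1)
    (hκ : κ = 1 / (16 * ψ * (Real.log (∑ x, (p x + q x) + (∑ x, p x) / ψ) + 1))) :
    ∃ c : V → V,
      (∀ i, ∀ X Y : Finset V, Disjoint X Y → X ∪ Y = univ.filter (fun x => c x = i) →
        ψ * min (G.nu p q κ c X) (G.nu p q κ c Y) ≤ G.ee X Y) ∧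
      ∑ x, G.outw p c x ≤ ∑ x, (p x - G.om x) +
        8 * ψ * (∑ x, (p x + q x) + κ * ∑ x, (p x - G.om x)) *
          Real.log (∑ x, (p x + q x) + κ * ∑ x, (p x - G.om x)) := by
  set N : ℝ := ∑ x, (p x + q x) + (∑ x, p x) / ψ with hN
  have hpn : ∀ x, 0 ≤ p x := fun x => by linarith [hp1 x]
  have hsp : 1 ≤ ∑ x, (p x + q x) := by
    obtain ⟨x⟩ := ‹Nonempty V›
    refine le_trans (by linarith [hp1 x, hq x] : 1 ≤ p x + q x) ?_
    exact single_le_sum (f := fun x => p x + q x) (fun y _ => by linarith [hp1 y, hq y]) (mem_univ x)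
  have hN1 : 1 ≤ N := by
    have : 0 ≤ (∑ x, p x) / ψ := div_nonneg (sum_nonneg fun x _ => hpn x) h0.le
    linarith
  have hlog : 0 ≤ Real.log N := Real.log_nonneg hN1
  have hκ0 : 0 < κ := by rw [hκ]; positivity
  have hκψ : κ ≤ 1 / ψ := by
    rw [hκ]
    apply one_div_le_one_div_of_le h0
    nlinarith
  let Φ : (V → V) → ℝ := fun c =>
    ∑ i, G.nu p q κ c (univ.filter (fun x => c x = i)) * Real.log (G.nu p q κ c (univ.filter (fun x => c x = i))) +
      (∑ x, G.outw p c x) / (8 * ψ)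
  obtain ⟨c, -, hc⟩ := exists_min_image (univ : Finset (V → V)) Φ univ_nonempty
  refine ⟨c, ?_, ?_⟩
  · intro i X Y hd hXY
    by_contra hcon
    push Not at hcon
    have he : 0 ≤ G.ee X Y := G.ee_nonneg _ _
    have hX : X.Nonempty := by
      by_contra h
      rw [not_nonempty_iff_eq_empty] at h
      have h1 : G.nu p q κ c X = 0 := by rw [h]; simp [nu]
      have h2 : min (G.nu p q κ c X) (G.nu p q κ c Y) ≤ 0 := by rw [h1]; exact min_le_left _ _
      nlinarith
    have hY : Y.Nonempty := by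
      by_contra h
      rw [not_nonempty_iff_eq_empty] at h
      have h1 : G.nu p q κ c Y = 0 := by rw [h]; simp [nu]
      have h2 : min (G.nu p q κ c X) (G.nu p q κ c Y) ≤ 0 := by rw [h1]; exact min_le_right _ _
      nlinarith
    obtain ⟨x0, hx0⟩ := hX
    obtain ⟨y0, hy0⟩ := hY
    have hcx : c x0 = i := by
      have : x0 ∈ X ∪ Y := mem_union_left _ hx0
      rw [hXY] at this; simpa using this
    have hcy : c y0 = i := by
      have : y0 ∈ X ∪ Y := mem_union_right _ hy0
      rw [hXY] at this; simpa using this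
    have hne : x0 ≠ y0 := fun h => disjoint_left.mp hd hx0 (h ▸ hy0)
    have hnsurj : ¬ Function.Surjective c := by
      intro hs
      have := (Finite.injective_iff_surjective.mpr hs) (hcx.trans hcy.symm)
      exact hne this
    obtain ⟨j, hj⟩ := not_forall.mp hnsurj
    have hj' : ∀ x, c x ≠ j := fun x hx => hj ⟨x, hx⟩
    have hij : i ≠ j := fun h => hj' x0 (hcx.trans h)
    have ha1 := G.nu_ge_one (c := c) hp hp1 hq hκ0.le ⟨x0, hx0⟩
    have hb1 := G.nu_ge_one (c := c) hp hp1 hq hκ0.le ⟨y0, hy0⟩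
    have haN : G.nu p q κ c X + κ * G.ee X Y ≤ N := by
      rw [← G.nu_recol_X hXY hd hij]
      exact G.nu_le hp hp1 hq h0 hκ0.le hκψ X
    have hbN : G.nu p q κ c Y + κ * G.ee X Y ≤ N := by
      rw [← G.nu_recol_Y hXY hd hj']
      exact G.nu_le hp hp1 hq h0 hκ0.le hκψ Y
    have hnum := Decomp_num ha1 hb1 he h0 hN1 hκ haN hbN hcon
    have hmin := hc (recol c Y j) (mem_univ _)
    -- compare the sums over the labels
    have hsplit : ∀ f : V → ℝ, ∑ k, f k = f i + f j + ∑ k ∈ (univ.erase i).erase j, f k := by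
      intro f
      rw [← add_sum_erase univ f (mem_univ i), ← add_sum_erase (univ.erase i) f (by simp [hij.symm] : j ∈ univ.erase i)]
      ring
    have e1 : Φ c = (G.nu p q κ c X + G.nu p q κ c Y) * Real.log (G.nu p q κ c X + G.nu p q κ c Y) +
        ∑ k ∈ (univ.erase i).erase j, G.nu p q κ c (univ.filter (fun x => c x = k)) *
          Real.log (G.nu p q κ c (univ.filter (fun x => c x = k))) + (∑ x, G.outw p c x) / (8 * ψ) := by
      show ∑ k, G.nu p q κ c (univ.filter (fun x => c x = k)) * Real.log (G.nu p q κ c (univ.filter (fun x => c x = k))) +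
        (∑ x, G.outw p c x) / (8 * ψ) = _
      rw [hsplit]
      have h1 : univ.filter (fun x => c x = j) = (∅ : Finset V) := by
        ext x; simp [hj' x]
      rw [h1, ← hXY, G.nu_union hd]
      simp [nu]
    have e2 : Φ (recol c Y j) = (G.nu p q κ c X + κ * G.ee X Y) * Real.log (G.nu p q κ c X + κ * G.ee X Y) +
        (G.nu p q κ c Y + κ * G.ee X Y) * Real.log (G.nu p q κ c Y + κ * G.ee X Y) +
        ∑ k ∈ (univ.erase i).erase j, G.nu p q κ c (univ.filter (fun x => c x = k)) *
          Real.log (G.nu p q κ c (univ.filter (fun x => c x = k))) +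
        (∑ x, G.outw p c x + 2 * G.ee X Y) / (8 * ψ) := by
      show ∑ k, G.nu p q κ (recol c Y j) (univ.filter (fun x => recol c Y j x = k)) *
        Real.log (G.nu p q κ (recol c Y j) (univ.filter (fun x => recol c Y j x = k))) +
        (∑ x, G.outw p (recol c Y j) x) / (8 * ψ) = _
      rw [hsplit, recol_i hXY hd hij, recol_j hj', G.nu_recol_X hXY hd hij, G.nu_recol_Y hXY hd hj',
        G.sum_outw_recol hXY hd hij hj']
      congr 2
      refine sum_congr rfl fun k hk => ?_
      have hkj : k ≠ j := ne_of_mem_erase hk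
      have hki : k ≠ i := ne_of_mem_erase (mem_of_mem_erase hk)
      rw [recol_k hXY hki hkj, G.nu_recol_Z hXY hj' hki]
    rw [e1, e2] at hmin
    have e3 : (∑ x, G.outw p c x + 2 * G.ee X Y) / (8 * ψ) = (∑ x, G.outw p c x) / (8 * ψ) + 2 * G.ee X Y / (8 * ψ) := by
      ring
    rw [e3] at hmin
    linarith
  · obtain ⟨i0⟩ := ‹Nonempty V›
    have hmin := hc (fun _ => i0) (mem_univ _)
    have e1 : Φ (fun _ => i0) = (∑ x, (p x + q x) + κ * ∑ x, (p x - G.om x)) *
        Real.log (∑ x, (p x + q x) + κ * ∑ x, (p x - G.om x)) + (∑ x, (p x - G.om x)) / (8 * ψ) := by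
      show ∑ k, G.nu p q κ (fun _ => i0) (univ.filter (fun x => i0 = k)) *
        Real.log (G.nu p q κ (fun _ => i0) (univ.filter (fun x => i0 = k))) +
        (∑ x, G.outw p (fun _ => i0) x) / (8 * ψ) = _
      have ho : ∀ x, G.outw p (fun _ => i0) x = p x - G.om x := by
        intro x; unfold outw om; simp
      have hn : G.nu p q κ (fun _ => i0) univ = ∑ x, (p x + q x) + κ * ∑ x, (p x - G.om x) := by
        unfold nu
        rw [sum_add_distrib, ← mul_sum]
        simp only [ho]
      rw [sum_eq_single i0]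
      · simp only [ho]
        simp [hn]
      · intro k _ hk
        have : univ.filter (fun _ : V => i0 = k) = (∅ : Finset V) := by
          ext x; simp [hk.symm]
        rw [this]; simp [nu]
      · intro h; exact absurd (mem_univ _) h
    rw [e1] at hmin
    have h2 : (∑ x, G.outw p c x) / (8 * ψ) ≤ Φ c := by
      have h3 : 0 ≤ ∑ i, G.nu p q κ c (univ.filter (fun x => c x = i)) *
          Real.log (G.nu p q κ c (univ.filter (fun x => c x = i))) := by
        refine sum_nonneg fun k _ => ?_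
        rcases (univ.filter (fun x => c x = k)).eq_empty_or_nonempty with h | h
        · rw [h]; simp [nu]
        · have h4 := G.nu_ge_one (c := c) hp hp1 hq hκ0.le h
          exact mul_nonneg (by linarith) (Real.log_nonneg h4)
      show (∑ x, G.outw p c x) / (8 * ψ) ≤ ∑ i, G.nu p q κ c (univ.filter (fun x => c x = i)) *
          Real.log (G.nu p q κ c (univ.filter (fun x => c x = i))) + (∑ x, G.outw p c x) / (8 * ψ)
      linarith
    have h3 := h2.trans hmin
    rw [div_le_iff₀ (by positivity)] at h3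
    have h4 : ((∑ x, (p x + q x) + κ * ∑ x, (p x - G.om x)) *
        Real.log (∑ x, (p x + q x) + κ * ∑ x, (p x - G.om x)) + (∑ x, (p x - G.om x)) / (8 * ψ)) * (8 * ψ) =
        8 * ψ * (∑ x, (p x + q x) + κ * ∑ x, (p x - G.om x)) *
        Real.log (∑ x, (p x + q x) + κ * ∑ x, (p x - G.om x)) + ∑ x, (p x - G.om x) := by
      field_simp
    linarith

end WG

end Pool.Agent.GW
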