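import Pool.Agent.GW.Balls

/-!
# GW.Pc: one piece of the decomposition (definition)

`p x`: number of sides of the polygon `x`, `om x` of them glued inside the piece, `p x - om x` walls.
`nuP X = ∑ (p + p^2/u + κ (p - om))`; `Pc` says that the piece is a `ψ`-expander with respect to `nuP`.
-/

set_option autoImplicit false

namespace Pool.Agent.GW

open Finset

namespace WG

variable {V : Type} [Fintype V] [DecidableEq V] (G : WG V)

/-- the measure of a piece. -/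
noncomputable def nuP (p : V → ℕ) (u κ : ℝ) (X : Finset V) : ℝ :=
  ∑ x ∈ X, ((p x : ℝ) + (p x : ℝ) ^ 2 / u + κ * (p x - G.om x))

/-- a piece of the decomposition. -/
structure Pc (p : V → ℕ) (ψ u κ : ℝ) : Prop where
  hp : ∀ x, G.om x ≤ p x
  hp1 : ∀ x, 1 ≤ p x
  h0 : 0 < ψ
  h1 : ψ ≤ 1
  hu : 1 ≤ u
  hpu : ∀ x, (p x : ℝ) ≤ u / ψ
  hκ : 0 < κ
  hκ1 : κ * ψ ≤ 1
  hE : ∀ X : Finset V, ψ * min (G.nuP p u κ X) (G.nuP p u κ Xᶜ) ≤ G.cut X

theorem nuP_nonneg {p : V → ℕ} {ψ u κ : ℝ} (h : G.Pc p ψ u κ) (X : Finset V) : 0 ≤ G.nuP p u κ X := by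
  refine sum_nonneg fun x _ => ?_
  have h1 : (0 : ℝ) < u := by linarith [h.hu]
  have h2 : 0 ≤ (p x : ℝ) - G.om x := by linarith [h.hp x]
  have h3 := h.hκ
  positivity

theorem nuP_mono {p : V → ℕ} {ψ u κ : ℝ} (h : G.Pc p ψ u κ) {X Y : Finset V} (hXY : X ⊆ Y) :
    G.nuP p u κ X ≤ G.nuP p u κ Y := by
  refine sum_le_sum_of_subset_of_nonneg hXY fun x _ _ => ?_
  have h1 : (0 : ℝ) < u := by linarith [h.hu]
  have h2 : 0 ≤ (p x : ℝ) - G.om x := by linarith [h.hp x]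
  have h3 := h.hκ
  positivity

theorem nuP_add_compl (p : V → ℕ) (u κ : ℝ) (X : Finset V) :
    G.nuP p u κ X + G.nuP p u κ Xᶜ = G.nuP p u κ univ := sum_add_sum_compl X _

end WG

end Pool.Agent.GW
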