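import Pool.Agent.GW.Dual
import Pool.Agent.GW.Pc
import Pool.Agent.GW.Decomp

/-!
# GW.DecompS: the decomposition of a closed state

`pw x`: number of letters of the word `x`; `gr X`: graph of a set `X` of words (vertex type: the subtype), only letters from `X` to
`X` count; big words: `u / ψ < pw x`.

PROOF of `decompS`.  `V = {x // pw x ≤ u / ψ}`, `G = gr`, `q x = (pw x)^2 / u`.  `∑_big pw ≤ ψ card` (because `(u/ψ) ∑_big pw ≤ area ≤ u card`).  `decomp` gives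
`c` (extend it by anything to big words).  `E` = letters of big words (at most `ψ card`) and letters `d` of small words with `wd (a d)` big or
in another class (number: `∑ outw`).  Numbers: `∑ (p + q) ≤ 2 card`, `(∑ p)/ψ ≤ N^2`, so the logarithm in `κ` is at most `3 log N`;
`∑ outw ≤ ψ card + 8 ψ (3 card) log (3 N) ≤ 66 ψ card log N`.
-/

set_option autoImplicit false

namespace Pool.Agent.GW

open Finset

namespace Sf

/-- number of letters of a word. -/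
noncomputable def pw (S : Sf) (x : S.Wd) : ℕ := Set.ncard {d | S.wd d = x}

/-- graph of a set of words. -/
noncomputable def gr (S : Sf) (X : Finset S.Wd) : WG {x // x ∈ X} where
  w x y := S.dual.w x y
  symm x y := S.dual.symm x y
  nonneg x y := S.dual.nonneg x y

open Classical in
/-- the small words of the class `i`. -/
noncomputable def cl (S : Sf) (M : ℝ) (c : S.Wd → S.Wd) (i : S.Wd) : Finset S.Wd :=
  univ.filter fun x => (S.pw x : ℝ) ≤ M ∧ c x = i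

theorem DecompS_om (S : Sf) (x : S.Wd) : S.dual.om x = (S.pw x : ℝ) := S.dual_om x

theorem DecompS_pos (S : Sf) (x : S.Wd) : 1 ≤ S.pw x := by
  obtain ⟨d, hd⟩ := S.wd_surj x
  exact (Set.ncard_pos (Set.toFinite _)).mpr ⟨d, hd⟩

theorem DecompS_sum (S : Sf) : ∑ x : S.Wd, (S.pw x : ℝ) = S.card := by
  rw [← S.dual_vol_univ]
  exact sum_congr rfl fun x _ => (S.DecompS_om x).symm

open Classical in
theorem DecompS_sub {W : Type} [Fintype W] (P : W → Prop) (f : W → ℝ) :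
    ∑ x : {x // P x}, f x = ∑ x ∈ univ.filter P, f x :=
  (Finset.sum_subtype (univ.filter P) (p := P) (by simp) f).symm

open Classical in
theorem DecompS_subf {W : Type} [Fintype W] (P Q : W → Prop) (f : W → ℝ) :
    ∑ y ∈ univ.filter (fun y : {x // P x} => Q y.1), f y.1 = ∑ y ∈ univ.filter (fun y => P y ∧ Q y), f y := by
  have h1 : ∑ y ∈ univ.filter (fun y : {x // P x} => Q y.1), f y.1 =
      ∑ y : {x // P x}, (if Q y.1 then f y.1 else 0) := by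
    rw [sum_filter]
  rw [h1, DecompS_sub P (fun y => if Q y then f y else 0), ← sum_filter, filter_filter]

open Classical in
theorem DecompS_big (S : Sf) {u ψ : ℝ} (h0 : 0 < ψ) (hu : 1 ≤ u)
    (hA : ∑ x : S.Wd, (S.pw x : ℝ) ^ 2 ≤ u * S.card) :
    ∑ x ∈ univ.filter (fun x : S.Wd => u / ψ < S.pw x), (S.pw x : ℝ) ≤ ψ * S.card := by
  have h1 : u / ψ * ∑ x ∈ univ.filter (fun x : S.Wd => u / ψ < S.pw x), (S.pw x : ℝ) ≤ u * S.card := by
    rw [mul_sum]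
    refine le_trans ?_ hA
    refine le_trans (sum_le_sum (g := fun x => (S.pw x : ℝ) ^ 2) ?_)
      (sum_le_sum_of_subset_of_nonneg (subset_univ _) fun x _ _ => by positivity)
    intro x hx
    have h2 : u / ψ < S.pw x := (mem_filter.mp hx).2
    have h3 : (0 : ℝ) ≤ S.pw x := Nat.cast_nonneg _
    show u / ψ * (S.pw x : ℝ) ≤ (S.pw x : ℝ) ^ 2
    nlinarith
  have h2 : 0 < u := by linarith
  have h3 : ∑ x ∈ univ.filter (fun x : S.Wd => u / ψ < S.pw x), (S.pw x : ℝ) =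
      (ψ / u) * (u / ψ * ∑ x ∈ univ.filter (fun x : S.Wd => u / ψ < S.pw x), (S.pw x : ℝ)) := by
    field_simp
  rw [h3]
  calc (ψ / u) * (u / ψ * ∑ x ∈ univ.filter (fun x : S.Wd => u / ψ < S.pw x), (S.pw x : ℝ))
      ≤ (ψ / u) * (u * S.card) := mul_le_mul_of_nonneg_left h1 (by positivity)
    _ = ψ * S.card := by field_simp

theorem DecompS_Pc0 (S : Sf) (X : Finset S.Wd) (hX : X = ∅) {u ψ κ : ℝ} (h0 : 0 < ψ) (h1 : ψ ≤ 1) (hu : 1 ≤ u)
    (hκ : 0 < κ) (hκ1 : κ * ψ ≤ 1) : (S.gr X).Pc (fun x => S.pw x) ψ u κ := by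
  have hf : ∀ x : {x // x ∈ X}, False := by
    rintro ⟨x, hx⟩
    rw [hX] at hx
    exact absurd hx (notMem_empty _)
  refine ⟨fun x => (hf x).elim, fun x => (hf x).elim, h0, h1, hu, fun x => (hf x).elim, hκ, hκ1, fun Y => ?_⟩
  have hY : Y = ∅ := eq_empty_of_forall_notMem fun x _ => hf x
  subst hY
  have h2 : (S.gr X).nuP (fun x => S.pw x) u κ ∅ = 0 := by simp [WG.nuP]
  rw [h2]
  have h3 : min 0 ((S.gr X).nuP (fun x => S.pw x) u κ ∅ᶜ) ≤ 0 := min_le_left _ _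
  have h4 := (S.gr X).cut_nonneg ∅
  nlinarith

theorem DecompS_num {n N T : ℝ} {ψ : ℝ} (h0 : 0 < ψ) (hn : 0 ≤ n) (hnN : n ≤ N) (hN2 : 2 ≤ N) (hT1 : 1 ≤ T)
    (hT : T ≤ 3 * n) : ψ * n + (ψ * n + 8 * ψ * T * Real.log T) ≤ 100 * ψ * Real.log N * n := by
  have hlN : 1 / 2 ≤ Real.log N := by
    have h2 : Real.log 2 ≤ Real.log N := Real.log_le_log (by norm_num) hN2
    linarith [Real.log_two_gt_d9]
  have hlT : Real.log T ≤ 3 * Real.log N := by
    have h3 : Real.log T ≤ Real.log (3 * N) := Real.log_le_log (by linarith) (by linarith)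
    have h4 : Real.log (3 * N) ≤ Real.log (N ^ 3) := Real.log_le_log (by positivity) (by nlinarith [sq_nonneg (N - 2)])
    have h5 : Real.log (N ^ 3) = 3 * Real.log N := by rw [Real.log_pow]; norm_num
    linarith
  have hlT0 : 0 ≤ Real.log T := Real.log_nonneg hT1
  have h6 : T * Real.log T ≤ 3 * n * (3 * Real.log N) := mul_le_mul hT hlT hlT0 (by linarith)
  have h7 : 8 * ψ * T * Real.log T ≤ 8 * ψ * (3 * n * (3 * Real.log N)) := by
    have := mul_le_mul_of_nonneg_left h6 (by positivity : 0 ≤ 8 * ψ)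
    linarith
  have h8 : 0 ≤ ψ * n := by positivity
  have h9 : ψ * n ≤ ψ * n * (2 * Real.log N) := by nlinarith
  nlinarith

theorem DecompS_kap {n N A B ψ κ : ℝ} (h0 : 0 < ψ) (hn : 0 ≤ n) (hnN : n ≤ N) (hN2 : 2 ≤ N)
    (hψN : 1 ≤ ψ * N) (hA1 : 1 ≤ A) (hA : A ≤ 2 * n) (hB0 : 0 ≤ B) (hB : B ≤ n)
    (hκ : κ = 1 / (16 * ψ * (Real.log (A + B / ψ) + 1))) :
    0 < κ ∧ κ * ψ ≤ 1 / 16 ∧ 1 / (80 * Real.log N) ≤ κ * ψ := by
  have hlN : 1 / 2 ≤ Real.log N := by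
    have h2 : Real.log 2 ≤ Real.log N := Real.log_le_log (by norm_num) hN2
    linarith [Real.log_two_gt_d9]
  have hBψ0 : 0 ≤ B / ψ := by positivity
  have hBψ : B / ψ ≤ N * N := by
    rw [div_le_iff₀ h0]
    nlinarith
  have hl0 : 0 ≤ Real.log (A + B / ψ) := Real.log_nonneg (by linarith)
  have hl : Real.log (A + B / ψ) ≤ 3 * Real.log N := by
    have e1 : 0 ≤ N * (N - 2) := mul_nonneg (by linarith) (by linarith)
    have e2 : 0 ≤ N * N * (N - 2) := mul_nonneg (mul_nonneg (by linarith) (by linarith)) (by linarith)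
    have h3 : Real.log (A + B / ψ) ≤ Real.log (N ^ 3) := Real.log_le_log (by linarith) (by nlinarith)
    have h5 : Real.log (N ^ 3) = 3 * Real.log N := by rw [Real.log_pow]; norm_num
    linarith
  have hκψ : κ * ψ = 1 / (16 * (Real.log (A + B / ψ) + 1)) := by
    rw [hκ]; field_simp
  refine ⟨by rw [hκ]; positivity, ?_, ?_⟩
  · rw [hκψ]
    exact one_div_le_one_div_of_le (by norm_num) (by linarith)
  · rw [hκψ]
    exact one_div_le_one_div_of_le (by positivity) (by linarith)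

open Classical in
/-- the number of letters of small words whose partner is not in a small word of the same class. -/
theorem DecompS_cnt (S : Sf) (M : ℝ) (c : S.Wd → S.Wd) :
    (Set.ncard {d | (S.pw (S.wd d) : ℝ) ≤ M ∧ ¬((S.pw (S.wd (S.a d)) : ℝ) ≤ M ∧ c (S.wd (S.a d)) = c (S.wd d))} : ℝ) =
      ∑ x ∈ univ.filter (fun x : S.Wd => (S.pw x : ℝ) ≤ M),
        ((S.pw x : ℝ) - ∑ y ∈ univ.filter (fun y : S.Wd => (S.pw y : ℝ) ≤ M ∧ c y = c x), S.dual.w x y) := by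
  rw [ncard_sum S.wd _ (univ.filter (fun x : S.Wd => (S.pw x : ℝ) ≤ M)) (fun d hd => by simpa using hd.1)]
  refine sum_congr rfl fun x hx => ?_
  have hx' : (S.pw x : ℝ) ≤ M := by simpa using hx
  have h1 := S.dual_ee {x} (univ.filter (fun y : S.Wd => (S.pw y : ℝ) ≤ M ∧ c y = c x))
  unfold WG.ee at h1
  rw [sum_singleton] at h1
  rw [h1]
  have h2 : ({d | S.wd d = x} : Set S.D) =
      {d | d ∈ {d | (S.pw (S.wd d) : ℝ) ≤ M ∧ ¬((S.pw (S.wd (S.a d)) : ℝ) ≤ M ∧ c (S.wd (S.a d)) = c (S.wd d))} ∧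
        S.wd d = x} ∪
      {d | S.wd d ∈ ({x} : Finset S.Wd) ∧ S.wd (S.a d) ∈ univ.filter (fun y : S.Wd => (S.pw y : ℝ) ≤ M ∧ c y = c x)} := by
    ext d
    simp only [Set.mem_ofPred_eq, Set.mem_union, mem_singleton, mem_filter, mem_univ, true_and]
    constructor
    · intro hd
      rw [hd]
      by_cases h : (S.pw (S.wd (S.a d)) : ℝ) ≤ M ∧ c (S.wd (S.a d)) = c x
      · exact Or.inr ⟨rfl, h⟩
      · exact Or.inl ⟨⟨hx', h⟩, rfl⟩
    · rintro (h | h)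
      · exact h.2
      · exact h.1
  have h3 : Disjoint ({d | d ∈ {d | (S.pw (S.wd d) : ℝ) ≤ M ∧ ¬((S.pw (S.wd (S.a d)) : ℝ) ≤ M ∧ c (S.wd (S.a d)) = c (S.wd d))} ∧
        S.wd d = x} : Set S.D)
      {d | S.wd d ∈ ({x} : Finset S.Wd) ∧ S.wd (S.a d) ∈ univ.filter (fun y : S.Wd => (S.pw y : ℝ) ≤ M ∧ c y = c x)} := by
    rw [Set.disjoint_left]
    rintro d ⟨⟨_, h4⟩, h5⟩ ⟨_, h6⟩
    rw [h5] at h4
    exact h4 (by simpa using h6)
  have h4 : (S.pw x : ℝ) = _ := congrArg (fun A : Set S.D => (A.ncard : ℝ)) h2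
  have h5 := Set.ncard_union_eq h3 (Set.toFinite _) (Set.toFinite _)
  rw [h5] at h4
  push_cast at h4
  rw [h4]
  ring

open Classical in
theorem DecompS_lets (S : Sf) (X : Finset S.Wd) : ((S.lets X).ncard : ℝ) = ∑ x ∈ X, (S.pw x : ℝ) := by
  rw [← S.dual_vol]
  exact sum_congr rfl fun x _ => S.DecompS_om x

/-- the graph of the small words. -/
noncomputable def DecompS_G (S : Sf) (M : ℝ) : WG {x : S.Wd // (S.pw x : ℝ) ≤ M} where
  w x y := S.dual.w x y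
  symm x y := S.dual.symm x y
  nonneg x y := S.dual.nonneg x y

theorem DecompS_outw (S : Sf) (M : ℝ) (c0 : {x : S.Wd // (S.pw x : ℝ) ≤ M} → {x : S.Wd // (S.pw x : ℝ) ≤ M})
    (c : S.Wd → S.Wd) (hc : ∀ x, c x.1 = (c0 x).1) :
    ∑ x, (S.DecompS_G M).outw (fun x => (S.pw x : ℝ)) c0 x =
      (Set.ncard {d | (S.pw (S.wd d) : ℝ) ≤ M ∧
        ¬((S.pw (S.wd (S.a d)) : ℝ) ≤ M ∧ c (S.wd (S.a d)) = c (S.wd d))} : ℝ) := by
  classical
  rw [S.DecompS_cnt M c, ← DecompS_sub (fun x : S.Wd => (S.pw x : ℝ) ≤ M)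
    (fun x => (S.pw x : ℝ) - ∑ y ∈ univ.filter (fun y : S.Wd => (S.pw y : ℝ) ≤ M ∧ c y = c x), S.dual.w x y)]
  refine sum_congr rfl fun x _ => ?_
  unfold WG.outw
  congr 1
  rw [← DecompS_subf (fun y : S.Wd => (S.pw y : ℝ) ≤ M) (fun y => c y = c x) (fun y => S.dual.w x y)]
  refine sum_congr ?_ fun y _ => rfl
  ext y
  simp only [mem_filter, mem_univ, true_and]
  rw [hc, hc]
  exact Subtype.ext_iff

theorem DecompS_out0 (S : Sf) (M : ℝ) :
    ∑ x : {x : S.Wd // (S.pw x : ℝ) ≤ M}, ((S.pw x : ℝ) - (S.DecompS_G M).om x) ≤ (S.lets (univ.filter (fun x : S.Wd => M < S.pw x))).ncard := by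
  classical
  rcases isEmpty_or_nonempty {x : S.Wd // (S.pw x : ℝ) ≤ M} with hV | ⟨⟨x0, hx0⟩⟩
  · rw [univ_eq_empty, sum_empty]
    exact Nat.cast_nonneg _
  have h1 := S.DecompS_outw M (fun _ => ⟨x0, hx0⟩) (fun _ => x0) (fun _ => rfl)
  have h2 : ∑ x, (S.DecompS_G M).outw (fun x => (S.pw x : ℝ)) (fun _ => ⟨x0, hx0⟩) x =
      ∑ x : {x : S.Wd // (S.pw x : ℝ) ≤ M}, ((S.pw x : ℝ) - (S.DecompS_G M).om x) := by
    refine sum_congr rfl fun x _ => ?_
    unfold WG.outw WG.om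
    simp
  rw [← h2, h1]
  have h3 : ({d | (S.pw (S.wd d) : ℝ) ≤ M ∧ ¬((S.pw (S.wd (S.a d)) : ℝ) ≤ M ∧ x0 = x0)} : Set S.D) ⊆
      S.a '' (S.lets (univ.filter (fun x : S.Wd => M < S.pw x))) := by
    intro d hd
    refine ⟨S.a d, ?_, S.aa d⟩
    have h4 : ¬((S.pw (S.wd (S.a d)) : ℝ) ≤ M) := fun h => hd.2 ⟨h, rfl⟩
    show S.wd (S.a d) ∈ univ.filter (fun x : S.Wd => M < S.pw x)
    simpa using h4
  have h4 := Set.ncard_le_ncard h3 (Set.toFinite _)
  rw [Set.ncard_image_of_injective _ S.a.injective] at h4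
  exact_mod_cast h4

theorem decompS (S : Sf) {N : ℕ} {u ψ : ℝ} (hN : S.card ≤ N) (hN2 : 2 ≤ N) (h0 : 0 < ψ) (h1 : ψ ≤ 1)
    (hψN : 1 ≤ ψ * N) (hu : 1 ≤ u) (hA : ∑ x : S.Wd, (S.pw x : ℝ) ^ 2 ≤ u * S.card) :
    ∃ (E : Set S.D) (c : S.Wd → S.Wd) (κ : ℝ), S.Cl E ∧
      (∀ d, d ∈ E ↔ u / ψ < S.pw (S.wd d) ∨ u / ψ < S.pw (S.wd (S.a d)) ∨ c (S.wd d) ≠ c (S.wd (S.a d))) ∧
      (E.ncard : ℝ) ≤ 100 * ψ * Real.log N * S.card ∧ 1 / (80 * Real.log N) ≤ κ * ψ ∧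
      ∀ i, (S.gr (S.cl (u / ψ) c i)).Pc (fun x => S.pw x) ψ u κ := by
  classical
  have hNr : (S.card : ℝ) ≤ N := by exact_mod_cast hN
  have hN2r : (2 : ℝ) ≤ N := by exact_mod_cast hN2
  have hc0 : (0 : ℝ) ≤ S.card := Nat.cast_nonneg _
  have hu0 : 0 < u := by linarith
  have hlN : 1 / 2 ≤ Real.log N := by
    have h2 : Real.log 2 ≤ Real.log N := Real.log_le_log (by norm_num) hN2r
    linarith [Real.log_two_gt_d9]
  have hbig := S.DecompS_big h0 hu hA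
  set M : ℝ := u / ψ with hM
  -- the set `E`
  have key : ∀ (c : S.Wd → S.Wd), S.Cl {d | M < S.pw (S.wd d) ∨ M < S.pw (S.wd (S.a d)) ∨ c (S.wd d) ≠ c (S.wd (S.a d))} := by
    intro c d hd
    rw [Set.mem_ofPred_eq] at hd ⊢
    rw [S.aa]
    rcases hd with h | h | h
    · exact Or.inr (Or.inl h)
    · exact Or.inl h
    · exact Or.inr (Or.inr h.symm)
  rcases isEmpty_or_nonempty {x : S.Wd // (S.pw x : ℝ) ≤ M} with hV | hV
  · -- all words are big
    have hall : ∀ x : S.Wd, M < S.pw x := fun x => by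
      by_contra h
      exact hV.false ⟨x, not_lt.mp h⟩
    refine ⟨{d | M < S.pw (S.wd d) ∨ M < S.pw (S.wd (S.a d)) ∨ id (S.wd d) ≠ id (S.wd (S.a d))}, id, 1 / ψ, key id,
      fun d => Iff.rfl, ?_, ?_, ?_⟩
    · have h2 : (univ.filter (fun x : S.Wd => M < S.pw x)) = univ := filter_true_of_mem fun x _ => hall x
      rw [h2, S.DecompS_sum] at hbig
      have h3 : ((Set.ncard {d | M < S.pw (S.wd d) ∨ M < S.pw (S.wd (S.a d)) ∨ id (S.wd d) ≠ id (S.wd (S.a d))} : ℕ) : ℝ) ≤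
          S.card := by
        have h4 : Set.ncard ({d | M < S.pw (S.wd d) ∨ M < S.pw (S.wd (S.a d)) ∨ id (S.wd d) ≠ id (S.wd (S.a d))} : Set S.D) ≤
            S.card := by
          unfold Sf.card
          rw [← Nat.card_eq_fintype_card, ← Set.ncard_univ]
          exact Set.ncard_le_ncard (Set.subset_univ _) (Set.toFinite _)
        exact_mod_cast h4
      have h5 : 0 ≤ ψ * S.card := by positivity
      have h6 : ψ * S.card ≤ 100 * ψ * Real.log N * S.card := by nlinarith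
      linarith
    · have h2 : 1 / ψ * ψ = 1 := by field_simp
      rw [h2, div_le_one (by positivity)]
      linarith
    · intro i
      have h2 : S.cl M id i = ∅ := by
        apply eq_empty_of_forall_notMem
        intro x hx
        have := (mem_filter.mp hx).2.1
        exact absurd (hall x) (not_lt.mpr this)
      exact S.DecompS_Pc0 _ h2 h0 h1 hu (by positivity) (by rw [one_div, inv_mul_cancel₀ h0.ne'])
  -- the graph of the small words
  have homG : ∀ x, (S.DecompS_G M).om x ≤ (S.pw x : ℝ) := by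
    intro x
    rw [← S.DecompS_om]
    show ∑ y : {x : S.Wd // (S.pw x : ℝ) ≤ M}, S.dual.w x y ≤ ∑ y, S.dual.w x y
    rw [DecompS_sub (fun y : S.Wd => (S.pw y : ℝ) ≤ M) (fun y => S.dual.w x y)]
    exact sum_le_sum_of_subset_of_nonneg (subset_univ _) fun y _ _ => S.dual.nonneg x y
  have hp1 : ∀ x : {x : S.Wd // (S.pw x : ℝ) ≤ M}, (1 : ℝ) ≤ S.pw x := fun x => by
    exact_mod_cast S.DecompS_pos x
  -- the numbers
  have hB : ∑ x : {x : S.Wd // (S.pw x : ℝ) ≤ M}, (S.pw x : ℝ) ≤ S.card := by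
    rw [DecompS_sub (fun y : S.Wd => (S.pw y : ℝ) ≤ M) (fun y => (S.pw y : ℝ)), ← S.DecompS_sum]
    exact sum_le_sum_of_subset_of_nonneg (subset_univ _) fun y _ _ => Nat.cast_nonneg _
  have hB0 : 0 ≤ ∑ x : {x : S.Wd // (S.pw x : ℝ) ≤ M}, (S.pw x : ℝ) := sum_nonneg fun y _ => Nat.cast_nonneg _
  have hQ : ∑ x : {x : S.Wd // (S.pw x : ℝ) ≤ M}, (S.pw x : ℝ) ^ 2 / u ≤ S.card := by
    rw [DecompS_sub (fun y : S.Wd => (S.pw y : ℝ) ≤ M) (fun y => (S.pw y : ℝ) ^ 2 / u), ← sum_div,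
      div_le_iff₀ hu0]
    have h2 : ∑ x ∈ univ.filter (fun y : S.Wd => (S.pw y : ℝ) ≤ M), (S.pw x : ℝ) ^ 2 ≤ ∑ x : S.Wd, (S.pw x : ℝ) ^ 2 :=
      sum_le_sum_of_subset_of_nonneg (subset_univ _) fun y _ _ => by positivity
    linarith
  have hPQ : ∑ x : {x : S.Wd // (S.pw x : ℝ) ≤ M}, ((S.pw x : ℝ) + (S.pw x : ℝ) ^ 2 / u) ≤ 2 * S.card := by
    rw [sum_add_distrib]
    linarith
  have hPQ1 : 1 ≤ ∑ x : {x : S.Wd // (S.pw x : ℝ) ≤ M}, ((S.pw x : ℝ) + (S.pw x : ℝ) ^ 2 / u) := by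
    obtain ⟨x⟩ := hV
    have h2 : (0 : ℝ) ≤ (S.pw x : ℝ) ^ 2 / u := by positivity
    refine le_trans (by linarith [hp1 x] : 1 ≤ (S.pw x : ℝ) + (S.pw x : ℝ) ^ 2 / u) ?_
    exact single_le_sum (f := fun x : {x : S.Wd // (S.pw x : ℝ) ≤ M} => (S.pw x : ℝ) + (S.pw x : ℝ) ^ 2 / u)
      (fun y _ => by positivity) (mem_univ x)
  obtain ⟨κ, hκ⟩ : ∃ κ : ℝ, κ = 1 / (16 * ψ * (Real.log (∑ x : {x : S.Wd // (S.pw x : ℝ) ≤ M},
    ((S.pw x : ℝ) + (S.pw x : ℝ) ^ 2 / u) + (∑ x : {x : S.Wd // (S.pw x : ℝ) ≤ M}, (S.pw x : ℝ)) / ψ) + 1)) := ⟨_, rfl⟩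
  obtain ⟨hκ0, hκ1, hκ2⟩ := DecompS_kap h0 hc0 hNr hN2r hψN hPQ1 hPQ hB0 hB hκ
  obtain ⟨c0, hc1, hc2⟩ := (S.DecompS_G M).decomp (fun x => (S.pw x : ℝ)) (fun x => (S.pw x : ℝ) ^ 2 / u) homG hp1
    (fun x => by positivity) h0 h1 hκ
  obtain ⟨c, hc⟩ : ∃ c : S.Wd → S.Wd, ∀ x : {x : S.Wd // (S.pw x : ℝ) ≤ M}, c x.1 = (c0 x).1 :=
    ⟨fun x => if h : (S.pw x : ℝ) ≤ M then (c0 ⟨x, h⟩).1 else x, fun x => by simp [x.2]⟩
  refine ⟨{d | M < S.pw (S.wd d) ∨ M < S.pw (S.wd (S.a d)) ∨ c (S.wd d) ≠ c (S.wd (S.a d))}, c, κ, key c,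
    fun d => Iff.rfl, ?_, hκ2, ?_⟩
  · have hl : ((S.lets (univ.filter (fun x : S.Wd => M < S.pw x))).ncard : ℝ) ≤ ψ * S.card := by
      rw [S.DecompS_lets]
      convert hbig
    have ho := S.DecompS_out0 M
    have hsub : ({d | M < S.pw (S.wd d) ∨ M < S.pw (S.wd (S.a d)) ∨ c (S.wd d) ≠ c (S.wd (S.a d))} : Set S.D) ⊆
        S.lets (univ.filter (fun x : S.Wd => M < S.pw x)) ∪
        {d | (S.pw (S.wd d) : ℝ) ≤ M ∧ ¬((S.pw (S.wd (S.a d)) : ℝ) ≤ M ∧ c (S.wd (S.a d)) = c (S.wd d))} := by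
      intro d hd
      by_cases h : M < S.pw (S.wd d)
      · left
        show S.wd d ∈ univ.filter (fun x : S.Wd => M < S.pw x)
        simpa using h
      · right
        refine ⟨not_lt.mp h, fun h2 => ?_⟩
        rcases hd with h3 | h3 | h3
        · exact h h3
        · exact absurd h2.1 (not_le.mpr h3)
        · exact h3 h2.2.symm
    have h2 : ((Set.ncard {d | M < S.pw (S.wd d) ∨ M < S.pw (S.wd (S.a d)) ∨ c (S.wd d) ≠ c (S.wd (S.a d))} : ℕ) : ℝ) ≤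
        (S.lets (univ.filter (fun x : S.Wd => M < S.pw x))).ncard +
        Set.ncard {d | (S.pw (S.wd d) : ℝ) ≤ M ∧ ¬((S.pw (S.wd (S.a d)) : ℝ) ≤ M ∧ c (S.wd (S.a d)) = c (S.wd d))} := by
      exact_mod_cast (Set.ncard_le_ncard hsub (Set.toFinite _)).trans (Set.ncard_union_le _ _)
    rw [← S.DecompS_outw M c0 c hc] at h2
    have h3 : 0 ≤ ∑ x : {x : S.Wd // (S.pw x : ℝ) ≤ M}, ((S.pw x : ℝ) - (S.DecompS_G M).om x) := sum_nonneg fun x _ => by linarith [homG x]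
    have h4 : κ * ∑ x : {x : S.Wd // (S.pw x : ℝ) ≤ M}, ((S.pw x : ℝ) - (S.DecompS_G M).om x) ≤ S.card := by
      have h5 : κ * ∑ x : {x : S.Wd // (S.pw x : ℝ) ≤ M}, ((S.pw x : ℝ) - (S.DecompS_G M).om x) ≤ κ * (ψ * S.card) :=
        mul_le_mul_of_nonneg_left (ho.trans hl) hκ0.le
      have h6 : κ * (ψ * S.card) = κ * ψ * S.card := by ring
      rw [h6] at h5
      nlinarith
    have h5 : 0 ≤ κ * ∑ x : {x : S.Wd // (S.pw x : ℝ) ≤ M}, ((S.pw x : ℝ) - (S.DecompS_G M).om x) := mul_nonneg hκ0.le h3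
    have h6 := DecompS_num (T := ∑ x : {x : S.Wd // (S.pw x : ℝ) ≤ M}, ((S.pw x : ℝ) + (S.pw x : ℝ) ^ 2 / u) +
      κ * ∑ x : {x : S.Wd // (S.pw x : ℝ) ≤ M}, ((S.pw x : ℝ) - (S.DecompS_G M).om x)) h0 hc0 hNr hN2r (by linarith) (by linarith)
    linarith
  · intro i
    rcases (S.cl M c i).eq_empty_or_nonempty with hi | ⟨x0, hx0⟩
    · exact S.DecompS_Pc0 _ hi h0 h1 hu hκ0 (by linarith)
    have hsm : ∀ x : {x // x ∈ S.cl M c i}, (S.pw x : ℝ) ≤ M := fun x => (mem_filter.mp x.2).2.1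
    have hcl : ∀ x : {x // x ∈ S.cl M c i}, c x = i := fun x => (mem_filter.mp x.2).2.2
    let emb : {x // x ∈ S.cl M c i} ↪ {x : S.Wd // (S.pw x : ℝ) ≤ M} :=
      ⟨fun x => ⟨x.1, hsm x⟩, fun x y h => Subtype.ext (Subtype.mk.inj h)⟩
    have hi0 : (c0 (emb ⟨x0, hx0⟩)).1 = i := by
      rw [← hc]
      exact hcl ⟨x0, hx0⟩
    have hc0e : ∀ x, c0 (emb x) = c0 (emb ⟨x0, hx0⟩) := fun x => by
      apply Subtype.ext
      rw [hi0, ← hc]
      exact hcl x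
    have huniv : univ.map emb = univ.filter (fun y => c0 y = c0 (emb ⟨x0, hx0⟩)) := by
      ext y
      simp only [mem_map, mem_univ, true_and, mem_filter]
      constructor
      · rintro ⟨x, rfl⟩
        exact hc0e x
      · intro hy
        have h2 : c y.1 = i := by rw [hc, hy, hi0]
        exact ⟨⟨y.1, mem_filter.mpr ⟨mem_univ _, y.2, h2⟩⟩, rfl⟩
    have hout : ∀ x, (S.DecompS_G M).outw (fun x => (S.pw x : ℝ)) c0 (emb x) =
        (S.pw x : ℝ) - (S.gr (S.cl M c i)).om x := by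
      intro x
      unfold WG.outw
      rw [hc0e x, ← huniv, sum_map]
      rfl
    have hnu : ∀ X, (S.DecompS_G M).nu (fun x => (S.pw x : ℝ)) (fun x => (S.pw x : ℝ) ^ 2 / u) κ c0 (X.map emb) =
        (S.gr (S.cl M c i)).nuP (fun x => S.pw x) u κ X := by
      intro X
      unfold WG.nu WG.nuP
      rw [sum_map]
      refine sum_congr rfl fun x _ => ?_
      rw [hout]
      rfl
    refine ⟨?_, fun x => S.DecompS_pos x, h0, h1, hu, hsm, hκ0, by linarith, fun X => ?_⟩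
    · intro x
      show ∑ y : {y // y ∈ S.cl M c i}, S.dual.w x y ≤ (S.pw x : ℝ)
      rw [← S.DecompS_om]
      show _ ≤ ∑ y, S.dual.w x y
      refine (le_of_eq (Finset.sum_coe_sort (S.cl M c i) (fun y => S.dual.w x y))).trans ?_
      exact sum_le_sum_of_subset_of_nonneg (subset_univ _) fun y _ _ => S.dual.nonneg x y
    · have h2 := hc1 (c0 (emb ⟨x0, hx0⟩)) (X.map emb) (Xᶜ.map emb)
        ((disjoint_map emb).mpr disjoint_compl_right) (by rw [← map_union, union_compl, huniv])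
      rw [hnu, hnu] at h2
      refine h2.trans (le_of_eq ?_)
      unfold WG.cut WG.ee
      rw [sum_map]
      refine sum_congr rfl fun x _ => ?_
      rw [sum_map]
      rfl

end Sf

end Pool.Agent.GW
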