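import Pool.Agent.GW.Ex
import Pool.Agent.GW.DecompS

/-!
# GW/CoarseA (helper92): return times to a set of marked letters
-/

set_option autoImplicit false

namespace Pool.Agent.GW

open Equiv Pool.Agent.SWP

section

variable {D : Type} {r : Perm D} {Mk : Set D}

open Classical in
/-- the return time to the marked letters -/
noncomputable def crK (hx : ∀ d, ∃ n, 1 ≤ n ∧ (r ^ n) d ∈ Mk) (d : D) : ℕ := Nat.find (hx d)

theorem crK_pos (hx : ∀ d, ∃ n, 1 ≤ n ∧ (r ^ n) d ∈ Mk) (d : D) : 1 ≤ crK hx d := by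
  classical
  unfold crK
  exact (Nat.find_spec (hx d)).1

theorem crK_mem (hx : ∀ d, ∃ n, 1 ≤ n ∧ (r ^ n) d ∈ Mk) (d : D) : (r ^ crK hx d) d ∈ Mk := by
  classical
  unfold crK
  exact (Nat.find_spec (hx d)).2

theorem crK_min (hx : ∀ d, ∃ n, 1 ≤ n ∧ (r ^ n) d ∈ Mk) {d : D} {n : ℕ} (h1 : 1 ≤ n) (h2 : n < crK hx d) :
    (r ^ n) d ∉ Mk := by
  classical
  unfold crK at h2
  intro hc
  exact Nat.find_min (hx d) h2 ⟨h1, hc⟩

theorem crK_le (hx : ∀ d, ∃ n, 1 ≤ n ∧ (r ^ n) d ∈ Mk) {d : D} {n : ℕ} (h1 : 1 ≤ n) (h2 : (r ^ n) d ∈ Mk) :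
    crK hx d ≤ n := by
  by_contra hc
  exact crK_min hx h1 (by omega) h2

theorem crK_eq (hx : ∀ d, ∃ n, 1 ≤ n ∧ (r ^ n) d ∈ Mk) {d : D} {n : ℕ} (h1 : 1 ≤ n) (h2 : (r ^ n) d ∈ Mk)
    (h3 : ∀ m, 1 ≤ m → m < n → (r ^ m) d ∉ Mk) : crK hx d = n := by
  refine le_antisymm (crK_le hx h1 h2) ?_
  by_contra hc
  exact h3 _ (crK_pos hx d) (by omega) (crK_mem hx d)

/-- two marked letters with the same letter in their blocks are equal -/
theorem crK_inj_aux (hx : ∀ d, ∃ n, 1 ≤ n ∧ (r ^ n) d ∈ Mk) {d e : D} (hd : d ∈ Mk) {i l : ℕ} (hil : i ≤ l)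
    (hl : l < crK hx e ∨ (1 ≤ i ∧ l ≤ crK hx e)) (h : (r ^ i) d = (r ^ l) e) : d = e ∧ i = l := by
  obtain ⟨m, rfl⟩ := Nat.exists_eq_add_of_le hil
  rw [pow_add, Perm.mul_apply] at h
  have h1 : d = (r ^ m) e := (r ^ i).injective h
  by_cases hm : m = 0
  · subst hm
    exact ⟨by simpa using h1, rfl⟩
  · exfalso
    refine crK_min hx (n := m) (d := e) (by omega) (by omega) ?_
    rw [← h1]
    exact hd

theorem crK_inj (hx : ∀ d, ∃ n, 1 ≤ n ∧ (r ^ n) d ∈ Mk) {d e : D} (hd : d ∈ Mk) (he : e ∈ Mk) {i l : ℕ}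
    (hi : i < crK hx d) (hl : l < crK hx e) (h : (r ^ i) d = (r ^ l) e) : d = e ∧ i = l := by
  rcases le_total i l with h1 | h1
  · exact crK_inj_aux hx hd h1 (Or.inl hl) h
  · have h2 := crK_inj_aux hx he h1 (Or.inl hi) h.symm
    exact ⟨h2.1.symm, h2.2.symm⟩

theorem crR_inj (hx : ∀ d, ∃ n, 1 ≤ n ∧ (r ^ n) d ∈ Mk) {d e : D} (hd : d ∈ Mk) (he : e ∈ Mk)
    (h : (r ^ crK hx d) d = (r ^ crK hx e) e) : d = e := by
  rcases le_total (crK hx d) (crK hx e) with h1 | h1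
  · exact (crK_inj_aux hx hd h1 (Or.inr ⟨crK_pos hx d, le_refl _⟩) h).1
  · exact (crK_inj_aux hx he h1 (Or.inr ⟨crK_pos hx e, le_refl _⟩) h.symm).1.symm

/-- the first return map on the marked letters -/
noncomputable def crR [Finite D] (hx : ∀ d, ∃ n, 1 ≤ n ∧ (r ^ n) d ∈ Mk) : Perm Mk :=
  Equiv.ofBijective (fun d : Mk => (⟨(r ^ crK hx d) d, crK_mem hx d⟩ : Mk))
    (Finite.injective_iff_bijective.1 (fun d e h => Subtype.ext (crR_inj hx d.2 e.2 (congrArg Subtype.val h))))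

theorem crR_val [Finite D] (hx : ∀ d, ∃ n, 1 ≤ n ∧ (r ^ n) d ∈ Mk) (d : Mk) :
    ((crR hx d : Mk) : D) = (r ^ crK hx d) d := rfl

theorem crR_same [Finite D] (hx : ∀ d, ∃ n, 1 ≤ n ∧ (r ^ n) d ∈ Mk) (d e : Mk) :
    (crR hx).SameCycle d e ↔ r.SameCycle (d : D) (e : D) := by
  constructor
  · intro h
    refine sameCycle_map (s := crR hx) (t := r) (f := Subtype.val) (fun z => ?_) h
    exact ⟨(crK hx z : ℤ), by rw [zpow_natCast, crR_val]⟩
  · intro h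
    obtain ⟨n, hn⟩ := h.exists_nat_pow_eq
    clear h
    induction n using Nat.strong_induction_on generalizing d with
    | _ n ih =>
      by_cases h0 : n = 0
      · subst h0
        have : d = e := Subtype.ext (by simpa using hn)
        rw [this]
      · have h1 : crK hx (d : D) ≤ n := crK_le hx (by omega) (by rw [hn]; exact e.2)
        have h2 := crK_pos hx (d : D)
        have h3 : (r ^ (n - crK hx (d : D))) ((crR hx d : Mk) : D) = e := by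
          rw [crR_val, ← Perm.mul_apply, ← pow_add, Nat.sub_add_cancel h1, hn]
        have h4 := ih (n - crK hx (d : D)) (by omega) (crR hx d) h3
        exact (Perm.sameCycle_apply_right.2 (Perm.SameCycle.refl _ _)).trans h4

theorem pow_inv_sub (r : Perm D) {m n : ℕ} (h : m ≤ n) (e : D) : (r ^ m) ((r⁻¹ ^ n) e) = (r⁻¹ ^ (n - m)) e := by
  obtain ⟨t, rfl⟩ := Nat.exists_eq_add_of_le h
  rw [pow_add, Perm.mul_apply, ← Perm.mul_apply (r ^ m), inv_pow r m, mul_inv_cancel, Perm.one_apply,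
    Nat.add_sub_cancel_left]

theorem cr_surj (hx : ∀ d, ∃ n, 1 ≤ n ∧ (r ^ n) d ∈ Mk) {δ : ℕ} (h3 : ∀ d, ∃ i < δ, (r⁻¹ ^ i) d ∈ Mk) (e : D) :
    ∃ d ∈ Mk, ∃ i < crK hx d, (r ^ i) d = e := by
  classical
  have hex : ∃ i, (r⁻¹ ^ i) e ∈ Mk := by
    obtain ⟨i, _, h⟩ := h3 e
    exact ⟨i, h⟩
  refine ⟨(r⁻¹ ^ Nat.find hex) e, Nat.find_spec hex, Nat.find hex, ?_, ?_⟩
  · by_contra hc
    push Not at hc
    have h1 := crK_pos hx ((r⁻¹ ^ Nat.find hex) e)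
    have h2 := crK_mem hx ((r⁻¹ ^ Nat.find hex) e)
    have h4 := pow_inv_sub r hc e
    rw [h4] at h2
    exact Nat.find_min hex (by omega) h2
  · rw [inv_pow, ← Perm.mul_apply, mul_inv_cancel, Perm.one_apply]

end

end Pool.Agent.GW
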