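import Pool.Agent.GW.CovDef

set_option autoImplicit false

namespace Pool.Agent.GW

open Equiv Pool.Agent.SWP

/-- every closed set of letters has a hole map -/
theorem FR_exists (S : Sf) (E : Set S.D) (hE : S.Cl E) : ∃ ρ : Perm S.D, S.FR E ρ := by
  classical
  set φ : Perm S.D := S.r * S.a with hφ
  have hret : ∀ x ∈ E, ∃ k : ℕ, (φ ^ (k + 1)) x ∈ E := by
    intro x hx
    have h1 : orderOf φ ≠ 0 := (orderOf_pos φ).ne'
    obtain ⟨m, hm⟩ := Nat.exists_eq_succ_of_ne_zero h1
    refine ⟨m, ?_⟩
    have h2 : φ ^ (m + 1) = 1 := by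
      have h3 := pow_orderOf_eq_one φ
      rwa [hm] at h3
    rw [h2]
    simpa using hx
  let n : S.D → ℕ := fun x => if h : ∃ k : ℕ, (φ ^ (k + 1)) x ∈ E then Nat.find h else 0
  have hn1 : ∀ x ∈ E, (φ ^ (n x + 1)) x ∈ E := by
    intro x hx
    have h := hret x hx
    simp only [n, dif_pos h]
    exact Nat.find_spec h
  have hn2 : ∀ x ∈ E, ∀ k < n x, (φ ^ (k + 1)) x ∉ E := by
    intro x hx k hk
    have h := hret x hx
    simp only [n, dif_pos h] at hk
    exact Nat.find_min h hk
  have haE : ∀ d, S.a d ∈ E ↔ d ∈ E := fun d => ⟨fun h => by rw [← S.aa d]; exact hE _ h, hE d⟩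
  let F : S.D → S.D := fun d => if d ∈ E then (φ ^ (n (S.a d) + 1)) (S.a d) else d
  have hFpos : ∀ d ∈ E, F d = (φ ^ (n (S.a d) + 1)) (S.a d) := fun d hd => if_pos hd
  have hFneg : ∀ d, d ∉ E → F d = d := fun d hd => if_neg hd
  have hFE : ∀ d ∈ E, F d ∈ E := by
    intro d hd
    rw [hFpos d hd]
    exact hn1 _ ((haE d).2 hd)
  have key : ∀ x ∈ E, ∀ y ∈ E, n x ≤ n y → (φ ^ (n x + 1)) x = (φ ^ (n y + 1)) y → x = y := by
    intro x hx y hy hle he
    have h1 : (φ ^ (n x + 1)) x = (φ ^ (n x + 1)) ((φ ^ (n y - n x)) y) := by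
      rw [he, ← Perm.mul_apply, ← pow_add]
      congr 2
      omega
    have h2 : x = (φ ^ (n y - n x)) y := (φ ^ (n x + 1)).injective h1
    rcases Nat.eq_zero_or_pos (n y - n x) with h0 | hpos
    · rw [h0] at h2
      simpa using h2
    · exfalso
      refine hn2 y hy (n y - n x - 1) (by omega) ?_
      have h3 : n y - n x - 1 + 1 = n y - n x := by omega
      rw [h3, ← h2]
      exact hx
  have hFinj : Function.Injective F := by
    intro d e hde
    by_cases hd : d ∈ E
    · by_cases he : e ∈ E
      · rw [hFpos d hd, hFpos e he] at hde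
        have h1 : S.a d = S.a e := by
          rcases le_total (n (S.a d)) (n (S.a e)) with hle | hle
          · exact key _ ((haE d).2 hd) _ ((haE e).2 he) hle hde
          · exact (key _ ((haE e).2 he) _ ((haE d).2 hd) hle hde.symm).symm
        exact S.a.injective h1
      · exfalso
        apply he
        rw [← hFneg e he, ← hde]
        exact hFE d hd
    · by_cases he : e ∈ E
      · exfalso
        apply hd
        rw [← hFneg d hd, hde]
        exact hFE e he
      · rw [hFneg d hd, hFneg e he] at hde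
        exact hde
  have hFbij : Function.Bijective F := Finite.injective_iff_bijective.1 hFinj
  refine ⟨Equiv.ofBijective F hFbij, ?_, ?_, ?_⟩
  · intro d hd
    exact hFneg d hd
  · intro e he
    exact hFE e he
  · intro e he
    refine ⟨n (S.a e), ?_, ?_⟩
    · change (φ ^ n (S.a e)) (S.r e) = F e
      rw [hFpos e he, pow_succ, Perm.mul_apply]
      congr 1
      simp [hφ, Perm.mul_apply, S.aa]
    · intro i hi
      have h1 : ((S.r * S.a) ^ i) (S.r e) = (φ ^ (i + 1)) (S.a e) := by
        rw [pow_succ, Perm.mul_apply, ← hφ]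
        congr 1
        simp [hφ, Perm.mul_apply, S.aa]
      have h2 := hn2 _ ((haE e).2 he) i hi
      rw [h1]
      exact ⟨h2, fun h => h2 ((haE _).1 h)⟩

/-- two letters of `E` on the same hole cycle lie in the same region: a set which is a union of words, closed under the
partner map outside of `E`, is closed under the hole map -/
theorem FR_inv (S : Sf) (E : Set S.D) (hE : S.Cl E) (ρ : Perm S.D) (hρ : S.FR E ρ) (X : Set S.D) (hX : S.Inv X)
    (hXa : ∀ d ∈ X, d ∉ E → S.a d ∈ X) : ∀ d, ρ d ∈ X ↔ d ∈ X := by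
  intro d
  by_cases hd : d ∈ E
  · obtain ⟨k, hk, hlt⟩ := hρ.cor d hd
    have step : ∀ i < k, (((S.r * S.a) ^ (i + 1)) (S.r d) ∈ X ↔ ((S.r * S.a) ^ i) (S.r d) ∈ X) := by
      intro i hi
      obtain ⟨h1, h2⟩ := hlt i hi
      rw [pow_succ', Perm.mul_apply, Perm.mul_apply, hX]
      constructor
      · intro h
        have := hXa _ h h2
        rwa [S.aa] at this
      · intro h
        exact hXa _ h h1
    have all : ∀ i ≤ k, (((S.r * S.a) ^ i) (S.r d) ∈ X ↔ S.r d ∈ X) := by
      intro i
      induction i with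
      | zero => intro _; simp
      | succ i ih =>
        intro hi
        rw [step i (by omega)]
        exact ih (by omega)
    rw [← hk, all k le_rfl, hX]
  · rw [hρ.off d hd]

end Pool.Agent.GW
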