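import Pool.Agent.GW.UEmb
import Pool.Agent.GW.UBas

/-!
# GW/NL (helper90): the predicate `U` depends only on the live cores (MP_37d33d_gt)

`NL S d e`: `e` is the next live letter after `d`. `U_take`: a dead letter may be taken out of its word (converse of
`U.ghost`). `U_core`: if the live letters of two states correspond to each other, together with partners and next live
letters, then `U L` passes from one to the other.
-/

set_option autoImplicit false

namespace Pool.Agent.GW

open Equiv Pool.Agent.SWP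

/-- the next live letter after `d` in its word is `e` -/
inductive NL (S : Sf) : S.D → S.D → Prop
  | one (d : S.D) : S.a (S.r d) ≠ S.r d → NL S d (S.r d)
  | step (d e : S.D) : S.a (S.r d) = S.r d → NL S (S.r d) e → NL S d e

theorem NL.live {S : Sf} {d e : S.D} (h : NL S d e) : S.a e ≠ e := by
  induction h with
  | one d h => exact h
  | step d e _ _ ih => exact ih

theorem NL.uniq {S : Sf} {d e : S.D} (h : NL S d e) : ∀ {e' : S.D}, NL S d e' → e = e' := by
  induction h with
  | one d h =>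
    intro e' h'
    cases h' with
    | one _ _ => rfl
    | step _ _ h1 _ => exact absurd h1 h
  | step d e h1 _ ih =>
    intro e' h'
    cases h' with
    | one _ h2 => exact absurd h1 h2
    | step _ _ _ h2 => exact ih h2

private theorem nl_pow {S : Sf} (n : ℕ) : ∀ d : S.D, S.a ((S.r ^ (n + 1)) d) ≠ (S.r ^ (n + 1)) d → ∃ e, NL S d e := by
  induction n with
  | zero =>
    intro d h
    exact ⟨_, NL.one d (by simpa using h)⟩
  | succ n ih =>
    intro d h
    by_cases h1 : S.a (S.r d) = S.r d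
    · rw [pow_succ, Perm.mul_apply] at h
      obtain ⟨e, he⟩ := ih (S.r d) h
      exact ⟨e, NL.step d e h1 he⟩
    · exact ⟨_, NL.one d h1⟩

/-- a live letter has a next live letter -/
theorem NL.ex {S : Sf} {d : S.D} (h : S.a d ≠ d) : ∃ e, NL S d e := by
  obtain ⟨n, hn, hd⟩ := (isOfFinOrder_of_finite S.r).exists_pow_eq_one
  obtain ⟨m, rfl⟩ : ∃ m, n = m + 1 := ⟨n - 1, by omega⟩
  refine nl_pow m d ?_
  rw [hd]
  simpa using h

private theorem nl_out {D : Type} [Fintype D] (r : Perm D) (g : D) {d e : D} (hd : d ≠ g) (he : e ≠ g) :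
    (sw g (r g) * r).SameCycle d e ↔ r.SameCycle d e := by
  classical
  by_cases hg : r g = g
  · rw [hg, sw_self, one_mul]
  set r1 := sw g (r g) * r with hr1
  have e1 : r1 g = g := by rw [hr1, Perm.mul_apply, sw_right]
  have e2 : ∀ x, r x = g → r1 x = r g := fun x hx => by rw [hr1, Perm.mul_apply, hx, sw_left]
  have e3 : ∀ x, x ≠ g → r x ≠ g → r1 x = r x := fun x hx hx2 => by
    rw [hr1, Perm.mul_apply, sw_of_ne hx2 (fun h => hx (r.injective h))]
  constructor
  · intro h
    have hQ : ∀ x, r.SameCycle d (r1 x) ↔ r.SameCycle d x := by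
      intro x
      by_cases h1 : x = g
      · rw [h1, e1]
      by_cases h2 : r x = g
      · rw [e2 x h2]
        constructor
        · intro h3
          have h4 := Perm.sameCycle_apply_right.1 h3
          rw [← h2] at h4
          exact Perm.sameCycle_apply_right.1 h4
        · intro h3
          refine Perm.sameCycle_apply_right.2 ?_
          rw [← h2]
          exact Perm.sameCycle_apply_right.2 h3
      · rw [e3 x h1 h2]
        exact Perm.sameCycle_apply_right
    exact (iff_of_same (s := r1) (Q := fun x => r.SameCycle d x) hQ h).mp (Perm.SameCycle.refl _ _)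
  · intro h
    have hQ : ∀ x, r1.SameCycle d (if r x = g then r g else r x) ↔ r1.SameCycle d (if x = g then r g else x) := by
      intro x
      by_cases h1 : x = g
      · have h2 : ¬ r x = g := by rw [h1]; exact hg
        rw [if_neg h2, if_pos h1, h1]
      by_cases h2 : r x = g
      · rw [if_pos h2, if_neg h1, ← e2 x h2]
        exact Perm.sameCycle_apply_right
      · rw [if_neg h2, if_neg h1, ← e3 x h1 h2]
        exact Perm.sameCycle_apply_right
    have h3 := (iff_of_same (s := r) (Q := fun x => r1.SameCycle d (if x = g then r g else x)) hQ h).mp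
    simp only [hd, he, if_false] at h3
    exact h3 (Perm.SameCycle.refl _ _)

/-- the state with the letter `g` taken out of its word -/
noncomputable def Sf.tk (S : Sf) (g : S.D) : Sf := S.setr (sw g (S.r g) * S.r)

private theorem nl_len {S : Sf} {g : S.D} (hg : S.a g = g) {L : ℕ} (h : ∀ d, S.len d ≤ L) : ∀ d, (S.tk g).len d ≤ L := by
  intro (d : S.D)
  by_cases hd : d = g
  · subst hd
    have h1 : (S.tk d).word d ∩ (S.tk d).live = ∅ := by
      ext f
      constructor
      · rintro ⟨hf, hl⟩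
        have h2 : (sw d (S.r d) * S.r) d = d := by rw [Perm.mul_apply, sw_right]
        have h3 : f = d := by
          obtain ⟨i, hi⟩ := (show (sw d (S.r d) * S.r).SameCycle d f from hf)
          rw [Perm.zpow_apply_eq_self_of_apply_eq_self h2] at hi
          exact hi.symm
        exact absurd hg (h3 ▸ hl)
      · intro hf
        exact hf.elim
    show Set.ncard ((S.tk d).word d ∩ (S.tk d).live) ≤ L
    rw [h1, Set.ncard_empty]
    exact Nat.zero_le L
  · have h1 : (S.tk g).word d ∩ (S.tk g).live = S.word d ∩ S.live := by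
      ext f
      constructor
      · rintro ⟨hf, hl⟩
        have hfg : f ≠ g := fun h' => hl (by rw [h']; exact hg)
        exact ⟨(nl_out S.r g hd hfg).mp hf, hl⟩
      · rintro ⟨hf, hl⟩
        have hfg : f ≠ g := fun h' => hl (by rw [h']; exact hg)
        exact ⟨(nl_out S.r g hd hfg).mpr hf, hl⟩
    show Set.ncard ((S.tk g).word d ∩ (S.tk g).live) ≤ L
    rw [h1]
    exact h d

private theorem nl_conj {D : Type} (f : Perm D) (x y : D) : f * sw x y = sw (f x) (f y) * f := by
  ext z
  simp only [Perm.mul_apply]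
  exact (Pool.Agent.GW.sw_map f.injective x y z).symm

private theorem nl_sum {D : Type} (r : Perm D) (g : D) :
    Equiv.sumCongr (sw g (r g) * r) (Equiv.refl Bool) =
      sw (Sum.inl g : D ⊕ Bool) (Sum.inl (r g)) * Equiv.sumCongr r (Equiv.refl Bool) := by
  ext z
  rcases z with z | z
  · show (Sum.inl (sw g (r g) (r z)) : D ⊕ Bool) = sw (Sum.inl g) (Sum.inl (r g)) (Sum.inl (r z))
    exact (Pool.Agent.GW.sw_map Sum.inl_injective g (r g) (r z)).symm
  · show (Sum.inr z : D ⊕ Bool) = sw (Sum.inl g) (Sum.inl (r g)) (Sum.inr z)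
    rw [sw_of_ne Sum.inr_ne_inl Sum.inr_ne_inl]

private theorem nl_comm4 {D : Type} {g h u v : D} (hgh : g ≠ h) (huv : u ≠ v) (x : D) :
    sw h (sw g u v) (sw g u x) = sw g (sw h v u) (sw h v x) := by
  have hvu := huv.symm
  have hhg := hgh.symm
  by_cases h1 : v = g
  · subst h1
    rw [sw_left]
    by_cases h2 : u = h
    · subst h2
      rw [sw_left, sw_self, sw_self]
      show sw v u x = sw u v x
      rw [sw_comm]
    · rw [sw_of_ne h2 huv]
      by_cases h3 : x = v
      · subst h3
        rw [sw_left, sw_right, sw_right, sw_of_ne hhg (fun h => h2 h.symm)]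
      by_cases h4 : x = u
      · subst h4
        rw [sw_right, sw_of_ne hgh hvu, sw_of_ne h2 huv, sw_right]
      by_cases h5 : x = h
      · subst h5
        rw [sw_of_ne h3 h4, sw_left, sw_left, sw_left]
      · rw [sw_of_ne h3 h4, sw_of_ne h5 h4, sw_of_ne h5 h3, sw_of_ne h3 h4]
  · rw [sw_of_ne h1 hvu]
    by_cases h2 : u = h
    · subst h2
      rw [sw_left]
      by_cases h3 : x = g
      · subst h3
        rw [sw_left, sw_left, sw_of_ne hgh (fun h => h1 h.symm), sw_left]
      by_cases h4 : x = u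
      · subst h4
        rw [sw_right, sw_left, sw_right, sw_of_ne hgh (fun h => h1 h.symm)]
      by_cases h5 : x = v
      · subst h5
        rw [sw_of_ne h3 h4, sw_right, sw_of_ne hhg huv]
      · rw [sw_of_ne h3 h4, sw_of_ne h4 h5, sw_of_ne h3 h5]
    · rw [sw_of_ne h2 huv]
      by_cases h3 : x = g
      · subst h3
        rw [sw_left, sw_of_ne h2 huv, sw_of_ne hgh (fun h => h1 h.symm), sw_left]
      by_cases h4 : x = u
      · subst h4
        rw [sw_right, sw_of_ne hgh (fun h => h1 h.symm), sw_of_ne h2 huv, sw_right]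
      by_cases h5 : x = h
      · subst h5
        rw [sw_of_ne h3 h4, sw_left, sw_of_ne h1 hvu]
      by_cases h6 : x = v
      · subst h6
        rw [sw_of_ne h3 h4, sw_right, sw_of_ne hhg (fun h => h2 h.symm)]
      · rw [sw_of_ne h3 h4, sw_of_ne h5 h6, sw_of_ne h3 h4]

private theorem nl_comm {D : Type} (r : Perm D) (g h : D) :
    sw h ((sw g (r g) * r) h) * (sw g (r g) * r) = sw g ((sw h (r h) * r) g) * (sw h (r h) * r) := by
  classical
  by_cases hgh : g = h
  · subst hgh; rfl
  have huv : r g ≠ r h := fun h' => hgh (r.injective h')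
  simp only [Perm.mul_apply, ← mul_assoc]
  congr 1
  generalize r g = u at *
  generalize r h = v at *
  ext x
  simp only [Perm.mul_apply]
  exact nl_comm4 hgh huv x

private theorem nl_dblp {D : Type} (r : Perm D) {g e : D} (h1 : g ≠ e) :
    sw (Sum.inl g : D ⊕ Bool) ((sw (Sum.inl e : D ⊕ Bool) (Sum.inr false) * Equiv.sumCongr r (Equiv.refl Bool) *
      sw (Sum.inr true : D ⊕ Bool) (Sum.inr false) * sw (Sum.inl e : D ⊕ Bool) (Sum.inr false)) (Sum.inl g)) *
      (sw (Sum.inl e : D ⊕ Bool) (Sum.inr false) * Equiv.sumCongr r (Equiv.refl Bool) *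
      sw (Sum.inr true : D ⊕ Bool) (Sum.inr false) * sw (Sum.inl e : D ⊕ Bool) (Sum.inr false)) =
    sw (Sum.inl e : D ⊕ Bool) (Sum.inr false) * Equiv.sumCongr (sw g (r g) * r) (Equiv.refl Bool) *
      sw (Sum.inr true : D ⊕ Bool) (Sum.inr false) * sw (Sum.inl e : D ⊕ Bool) (Sum.inr false) := by
  have e1 : (sw (Sum.inl e : D ⊕ Bool) (Sum.inr false)) (Sum.inl g) = Sum.inl g :=
    sw_of_ne (fun h' => h1 (Sum.inl_injective h')) Sum.inl_ne_inr
  have e2 : (sw (Sum.inr true : D ⊕ Bool) (Sum.inr false)) (Sum.inl g) = Sum.inl g :=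
    sw_of_ne Sum.inl_ne_inr Sum.inl_ne_inr
  have h6 : (sw (Sum.inl e : D ⊕ Bool) (Sum.inr false) * Equiv.sumCongr r (Equiv.refl Bool) *
      sw (Sum.inr true : D ⊕ Bool) (Sum.inr false) * sw (Sum.inl e : D ⊕ Bool) (Sum.inr false)) (Sum.inl g) =
      sw (Sum.inl e : D ⊕ Bool) (Sum.inr false) (Sum.inl (r g)) := by
    simp only [Perm.mul_apply]
    rw [e1, e2]
    rfl
  rw [h6, nl_sum, ← mul_assoc (sw (Sum.inl e : D ⊕ Bool) (Sum.inr false)) (sw (Sum.inl g : D ⊕ Bool) (Sum.inl (r g))),
    nl_conj (sw (Sum.inl e : D ⊕ Bool) (Sum.inr false)) (Sum.inl g) (Sum.inl (r g)), e1]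
  simp only [mul_assoc]

private theorem nl_subp {D : Type} (r : Perm D) {g b c : D} (h1 : g ≠ b) (h2 : g ≠ c) :
    sw (Sum.inl g : D ⊕ Bool) ((sw (Sum.inl c : D ⊕ Bool) (Sum.inr false) * Equiv.sumCongr r (Equiv.refl Bool) *
      sw (Sum.inl b : D ⊕ Bool) (Sum.inr true)) (Sum.inl g)) *
      (sw (Sum.inl c : D ⊕ Bool) (Sum.inr false) * Equiv.sumCongr r (Equiv.refl Bool) *
      sw (Sum.inl b : D ⊕ Bool) (Sum.inr true)) =
    sw (Sum.inl c : D ⊕ Bool) (Sum.inr false) * Equiv.sumCongr (sw g (r g) * r) (Equiv.refl Bool) *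
      sw (Sum.inl b : D ⊕ Bool) (Sum.inr true) := by
  have e1 : (sw (Sum.inl b : D ⊕ Bool) (Sum.inr true)) (Sum.inl g) = Sum.inl g :=
    sw_of_ne (fun h' => h1 (Sum.inl_injective h')) Sum.inl_ne_inr
  have e2 : (sw (Sum.inl c : D ⊕ Bool) (Sum.inr false)) (Sum.inl g) = Sum.inl g :=
    sw_of_ne (fun h' => h2 (Sum.inl_injective h')) Sum.inl_ne_inr
  have h6 : (sw (Sum.inl c : D ⊕ Bool) (Sum.inr false) * Equiv.sumCongr r (Equiv.refl Bool) *
      sw (Sum.inl b : D ⊕ Bool) (Sum.inr true)) (Sum.inl g) =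
      sw (Sum.inl c : D ⊕ Bool) (Sum.inr false) (Sum.inl (r g)) := by
    simp only [Perm.mul_apply]
    rw [e1]
    rfl
  rw [h6, nl_sum, ← mul_assoc (sw (Sum.inl c : D ⊕ Bool) (Sum.inr false)) (sw (Sum.inl g : D ⊕ Bool) (Sum.inl (r g))),
    nl_conj (sw (Sum.inl c : D ⊕ Bool) (Sum.inr false)) (Sum.inl g) (Sum.inl (r g)), e2]
  simp only [mul_assoc]

/-- a dead letter may be taken out of its word -/
theorem U_take {L : ℕ} {S : Sf} (h : U L S) : ∀ g, S.a g = g → U L (S.tk g) := by
  induction h with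
  | done S h0 =>
    intro g _
    exact U.done _ h0
  | glue S b hb hl _ ih =>
    intro g hg
    have h1 : g ≠ b := fun h' => hb (by rw [← h']; exact hg)
    have h2 : g ≠ S.a b := fun h' => by
      rw [h', S.aa] at hg
      exact hb hg.symm
    have hga : (S.glue b).a g = g := by
      show S.a (sw b (S.a b) g) = g
      rw [sw_of_ne h1 h2, hg]
    refine U.glue (S.tk g) b hb (nl_len hg hl) ?_
    have h3 := ih g hga
    have h4 : @HMul.hMul (Perm S.D) (Perm S.D) (Perm S.D) _ (sw g ((S.glue b).r g)) (S.glue b).r = (sw g (S.r g) * S.r) * sw b (S.a b) := by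
      show sw g (S.r (sw b (S.a b) g)) * (S.r * sw b (S.a b)) = (sw g (S.r g) * S.r) * sw b (S.a b)
      rw [sw_of_ne h1 h2, mul_assoc]
    have h5 : (S.tk g).glue b = (S.glue b).setr ((sw g (S.r g) * S.r) * sw b (S.a b)) := rfl
    rw [h5, ← h4]
    exact h3
  | dbl S e he _ ih =>
    intro g hg
    have h1 : g ≠ e := fun h' => he (by rw [← h']; exact hg)
    refine U.dbl (S.tk g) e he ?_
    have h3 := ih (Sum.inl g) (congrArg Sum.inl hg)
    exact (congrArg (fun ρ : Perm (S.D ⊕ Bool) => U L ((S.dbl e).setr ρ)) (nl_dblp S.r h1)).mp h3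
  | sub S b hb _ ih =>
    intro g hg
    have h1 : g ≠ b := fun h' => hb (by rw [← h']; exact hg)
    have h2 : g ≠ S.a b := fun h' => by
      rw [h', S.aa] at hg
      exact hb hg.symm
    refine U.sub (S.tk g) b hb ?_
    have h3 := ih (Sum.inl g) (congrArg Sum.inl hg)
    exact (congrArg (fun ρ : Perm (S.D ⊕ Bool) => U L ((S.sub b).setr ρ)) (nl_subp S.r h1 h2)).mp h3
  | vtx S p q hp hq hpq hv hl _ ih =>
    intro g hg
    have h1 : g ≠ p := fun h' => hp (by rw [← h']; exact hg)
    have h2 : g ≠ q := fun h' => hq (by rw [← h']; exact hg)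
    refine U.vtx (S.tk g) p q hp hq hpq ?_ (nl_len hg hl) ?_
    · have h3 := (nl_out (S.r * S.a) g (Ne.symm h1) (Ne.symm h2)).mpr hv
      have h4 : sw g ((S.r * S.a) g) * (S.r * S.a) = (sw g (S.r g) * S.r) * S.a := by
        rw [Perm.mul_apply, hg, mul_assoc]
      rw [h4] at h3
      exact h3
    · have h3 := ih g hg
      have h4 : sw g ((sw p q * S.r) g) * (sw p q * S.r) = sw p q * (sw g (S.r g) * S.r) := by
        rw [← mul_assoc (sw p q), nl_conj, sw_of_ne h1 h2, mul_assoc, Perm.mul_apply]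
      have h5 : (S.tk g).setr (sw p q * (sw g (S.r g) * S.r)) =
        (S.setr (sw p q * S.r)).setr (sw p q * (sw g (S.r g) * S.r)) := rfl
      show U L ((S.tk g).setr (sw p q * (sw g (S.r g) * S.r)))
      rw [h5, ← h4]
      exact h3
  | ghost S h hh hU ih =>
    intro g hg
    by_cases hgh : g = h
    · subst hgh; exact hU
    refine U.ghost (S.tk g) h hh ?_
    have h3 := ih g hg
    have h4 := nl_comm S.r g h
    show U L (S.setr (sw h ((sw g (S.r g) * S.r) h) * (sw g (S.r g) * S.r)))
    rw [h4]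
    exact h3

/-- taking a dead letter out does not change the next live letters -/
theorem NL.tk {S : Sf} {g : S.D} {d e : S.D} (h : NL S d e) (hd : S.a d ≠ d) (hg : S.a g = g) :
    NL (S.tk g) d e := by
  have key : (d ≠ g → NL (S.tk g) d e) ∧ (d = g → ∀ x, x ≠ g → S.r x = g → NL (S.tk g) x e) := by
    clear hd
    have hr1 : ∀ x : S.D, x ≠ g → S.r x ≠ g → (S.tk g).r x = S.r x := fun x h1 h2 => by
      show sw g (S.r g) (S.r x) = S.r x
      rw [sw_of_ne h2 (fun h' => h1 (S.r.injective h'))]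
    have hr2 : ∀ x : S.D, S.r x = g → (S.tk g).r x = S.r g := fun x h1 => by
      show sw g (S.r g) (S.r x) = S.r g
      rw [h1, sw_left]
    induction h with
    | one d h =>
      have h0 : S.r d ≠ g := fun h' => h (by rw [h']; exact hg)
      constructor
      · intro h1
        have h2 := NL.one (S := S.tk g) d
        rw [hr1 d h1 h0] at h2
        exact h2 h
      · rintro rfl x _ hx
        have h2 := NL.one (S := S.tk d) x
        rw [hr2 x hx] at h2
        exact h2 h
    | step d e h1 _ ih =>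
      constructor
      · intro h2
        by_cases h3 : S.r d = g
        · exact ih.2 h3 d h2 h3
        · have h4 := NL.step (S := S.tk g) d e
          rw [hr1 d h2 h3] at h4
          exact h4 h1 (ih.1 h3)
      · rintro rfl x hx hxd
        have h3 : S.r d ≠ d := fun h' => hx (S.r.injective (by rw [hxd, h']))
        have h4 := NL.step (S := S.tk d) x e
        rw [hr2 x hxd] at h4
        exact h4 h1 (ih.1 h3)
  exact key.1 (fun h' => hd (by rw [h']; exact hg))

private theorem nl_purge (n : ℕ) : ∀ S : Sf, Set.ncard {g | S.a g = g ∧ S.r g ≠ g} ≤ n →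
    ∃ r' : Perm S.D, (∀ d, S.a d = d → r' d = d) ∧
    (∀ d e, S.a d ≠ d → NL S d e → NL (S.setr r') d e) ∧ ∀ L, U L (S.setr r') ↔ U L S := by
  induction n with
  | zero =>
    intro S hn
    have h0 : {g | S.a g = g ∧ S.r g ≠ g} = (∅ : Set S.D) :=
      (Set.ncard_eq_zero (Set.toFinite _)).1 (Nat.le_zero.1 hn)
    refine ⟨S.r, ?_, fun d e _ h => h, fun L => Iff.rfl⟩
    intro d hd
    by_contra hc
    have : d ∈ (∅ : Set S.D) := h0 ▸ (show d ∈ {g | S.a g = g ∧ S.r g ≠ g} from ⟨hd, hc⟩)
    exact this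
  | succ n ih =>
    intro S hn
    by_cases hall : ∀ d, S.a d = d → S.r d = d
    · exact ⟨S.r, hall, fun d e _ h => h, fun L => Iff.rfl⟩
    push Not at hall
    obtain ⟨g, hg, hrg⟩ := hall
    have hr : ∀ e : S.D, (S.tk g).r e = sw g (S.r g) (S.r e) := fun e => rfl
    have hsub : {h : S.D | (S.tk g).a h = h ∧ (S.tk g).r h ≠ h} ⊂ {h : S.D | S.a h = h ∧ S.r h ≠ h} := by
      refine ⟨?_, ?_⟩
      · rintro h ⟨h1, h2⟩
        refine ⟨h1, fun hc => h2 ?_⟩
        rw [hr]
        have h3 : h ≠ g := by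
          rintro rfl
          exact hrg hc
        have h4 : h ≠ S.r g := by
          intro h5
          apply h3
          apply S.r.injective
          rw [hc]
          exact h5
        rw [hc, sw_of_ne h3 h4]
      · intro hc
        have h2 := hc (show g ∈ {h | S.a h = h ∧ S.r h ≠ h} from ⟨hg, hrg⟩)
        apply h2.2
        rw [hr, sw_right]
    have hlt := Set.ncard_lt_ncard hsub (Set.toFinite _)
    have hn1 : Set.ncard {h : S.D | (S.tk g).a h = h ∧ (S.tk g).r h ≠ h} < n + 1 := lt_of_lt_of_le hlt hn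
    obtain ⟨r', h1, h2, h3⟩ := ih (S.tk g) (Nat.lt_succ_iff.1 hn1)
    refine ⟨r', h1, ?_, fun L => ?_⟩
    · intro d e hd he
      exact h2 d e hd (he.tk hd hg)
    · exact (h3 L).trans ⟨fun h => U.ghost S g hg h, fun h => U_take h g hg⟩

/-- take all dead letters out of their words: equivalence -/
theorem purge_iff (S : Sf) : ∃ r' : Perm S.D, (∀ d, S.a d = d → r' d = d) ∧
    (∀ d e, S.a d ≠ d → NL S d e → r' d = e) ∧ ∀ L, U L (S.setr r') ↔ U L S := by
  obtain ⟨r', h1, h2, h3⟩ := nl_purge _ S le_rfl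
  refine ⟨r', h1, ?_, h3⟩
  intro d e hd he
  have h4 := h2 d e hd he
  have h5 : S.a (r' d) ≠ r' d := by
    intro h
    have h6 : r' d = d := r'.injective (h1 _ h)
    rw [h6] at h
    exact hd h
  exact (h4.uniq (NL.one (S := S.setr r') d h5)).symm

/-- **the core lemma**: `U` depends only on the live letters, their partners and the next live letters -/
theorem U_core {L : ℕ} {S T : Sf} (φ : S.D → T.D) (hinj : ∀ d e, S.a d ≠ d → S.a e ≠ e → φ d = φ e → d = e)
    (hsurj : ∀ x, T.a x ≠ x → ∃ d, S.a d ≠ d ∧ φ d = x) (ha : ∀ d, S.a d ≠ d → T.a (φ d) = φ (S.a d))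
    (hn : ∀ d e, S.a d ≠ d → NL S d e → NL T (φ d) (φ e)) (h : U L S) : U L T := by
  obtain ⟨r', h1, h2, h3⟩ := purge_iff S
  obtain ⟨t', k1, k2, k3⟩ := purge_iff T
  have hal : ∀ d, S.a (S.a d) ≠ S.a d ↔ S.a d ≠ d := fun d => by rw [S.aa]; exact ne_comm
  have hlive : ∀ d, S.a (r' d) ≠ r' d ↔ S.a d ≠ d := by
    intro d
    constructor
    · intro h4 h5
      rw [h1 d h5] at h4
      exact h4 h5
    · intro h4 h5
      have h6 : r' d = d := r'.injective (h1 _ h5)
      rw [h6] at h5
      exact h4 h5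
  have hφl : ∀ d, S.a d ≠ d → T.a (φ d) ≠ φ d := by
    intro d hd h4
    rw [ha d hd] at h4
    exact hd (hinj _ _ ((hal d).2 hd) hd h4)
  classical
  let C : Sf :=
    { D := {d : S.D // S.a d ≠ d}
      fD := Fintype.ofFinite _
      r := r'.subtypePerm (fun d => hlive d)
      a := S.a.subtypePerm (fun d => hal d)
      aa := fun d => Subtype.ext (S.aa d.1) }
  have hC : U L C := by
    refine U_emb L ((h3 L).2 h) C (fun d => d.1) (fun d e hde => Subtype.ext hde) (fun d => rfl) (fun d => rfl) ?_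
    intro e he
    by_contra hc
    exact he ⟨e, hc⟩ rfl
  refine (k3 L).1 (U_ext L hC (T.setr t') (fun d => φ d.1) ?_ ?_ ?_ ?_)
  · intro d e hde
    exact Subtype.ext (hinj _ _ d.2 e.2 hde)
  · intro d
    obtain ⟨e, he⟩ := NL.ex d.2
    show t' (φ d.1) = φ (r' d.1)
    rw [h2 d.1 e d.2 he]
    exact k2 _ _ (hφl _ d.2) (hn _ _ d.2 he)
  · intro d
    exact ha d.1 d.2
  · intro x hx
    by_contra hc
    obtain ⟨d, hd, hdx⟩ := hsurj x hc
    exact hx ⟨d, hd⟩ hdx

end Pool.Agent.GW
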