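import Pool.Agent.GW.GenDef
import Pool.Agent.GW.FRx
import Pool.Agent.GW.UEmb
import Pool.Agent.GW.UBas
import Pool.Agent.GW.NL

/-!
# GW/CoreW: the live core of a glued state

PROOF of `core_exists`.  `T` = the letters of `W` with `T.r` = the hole map `ρ` of `FR_exists S W` restricted to `W` (the live part of `S.holes W ρ`).
For `e ∈ W` the first letter of `W` after `e` in `glueSet S Wᶜ` is `ρ e` (`(r * beta Wᶜ) x = (r * a) x` for `x ∉ W`).  Take the dead letters out of their
words one after the other (`U.ghost`; `purge` only says that the cycles are the same, here the cyclic order of the live letters is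
needed: induction on the number of dead letters which are not fixed, first return maps), then `U_ext`.  Vertices: `T.r (T.a x)` is the
next letter of `W` after `j x` in its cycle of `r * a`, so `T.vx` is `S.vx` on `W`.
PROOF of `core_words`.  Every word of `T` contains a letter `x` whose vertex has a degree `≠ 2` or `j x ∈ N`: otherwise take the letter `x` of the word with
the largest `δ (j x)`, `y = T.r⁻¹ x`; its vertex is `{x, T.a y}`, `x ≠ T.a y`; all letters are tree letters; if `δ (j x) = 0` the next letter starts at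
depth `1`; otherwise the up-letter of the vertex is `j x` or `j (T.a y)` (`hup`), the other one leads to depth `δ + 1` (`uniq`), where `T.r x` or `y`
starts: contradiction.
-/

set_option autoImplicit false

namespace Pool.Agent.GW

open Equiv Pool.Agent.SWP

/-- `T` is the state of the letters of `W` after all other letters are glued -/
structure Core (S : Sf) (W : Set S.D) (T : Sf) (j : T.D → S.D) : Prop where
  closed : T.Closed
  inj : Function.Injective j
  rng : ∀ d, d ∈ W ↔ ∃ x, j x = d
  a : ∀ x, j (T.a x) = S.a (j x)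
  vx : ∀ x y, T.vx x y ↔ S.vx (j x) (j y)
  lab : ∀ f : S.D → S.Wd, (∀ d, f (S.r d) = f d) → (∀ d, d ∉ W → f (S.a d) = f d) → ∀ x, f (j (T.r x)) = f (j x)

/-- the cycles of a first return map -/
private theorem fr_same {S : Sf} {W : Set S.D} {T : Sf} {j : T.D → S.D} (hinj : Function.Injective j)
    (hst : ∀ x, ∃ k : ℕ, ((S.r * S.a) ^ (k + 1)) (j x) = j ((T.r * T.a) x) ∧
      ∀ i < k, ((S.r * S.a) ^ (i + 1)) (j x) ∉ W) (hW : ∀ x, j x ∈ W) (x y : T.D) :
    T.vx x y ↔ S.vx (j x) (j y) := by
  constructor
  · intro h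
    have hQ : ∀ z, S.vx (j x) (j ((T.r * T.a) z)) ↔ S.vx (j x) (j z) := by
      intro z
      obtain ⟨k, hk, _⟩ := hst z
      rw [← hk]
      unfold Sf.vx
      exact Perm.sameCycle_pow_right
    exact (iff_of_same (s := T.r * T.a) (Q := fun z => S.vx (j x) (j z)) hQ h).mp (Perm.SameCycle.refl _ _)
  · intro h
    have key : ∀ n : ℕ, ∀ x : T.D, ((S.r * S.a) ^ n) (j x) = j y → T.vx x y := by
      intro n
      induction n using Nat.strong_induction_on with
      | _ n ih =>
        intro x hx
        rcases Nat.eq_zero_or_pos n with h0 | hpos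
        · rw [h0, pow_zero, Perm.one_apply] at hx
          rw [hinj hx]
          exact Perm.SameCycle.refl _ _
        · obtain ⟨k, hk, hlt⟩ := hst x
          have hkn : k + 1 ≤ n := by
            by_contra hc
            push Not at hc
            have h1 := hlt (n - 1) (by omega)
            rw [Nat.sub_add_cancel hpos, hx] at h1
            exact h1 (hW y)
          have h2 : ((S.r * S.a) ^ (n - (k + 1))) (j ((T.r * T.a) x)) = j y := by
            rw [← hk, ← Perm.mul_apply, ← pow_add, Nat.sub_add_cancel hkn, hx]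
          have h3 := ih (n - (k + 1)) (by omega) _ h2
          exact Perm.sameCycle_apply_left.1 h3
    obtain ⟨n, hn⟩ := h.exists_nat_pow_eq
    exact key n x hn

theorem core_exists (S : Sf) (hS : S.Closed) (W : Set S.D) (hW : S.Cl W) (hWc : S.Cl Wᶜ) :
    ∃ (T : Sf) (j : T.D → S.D), Core S W T j ∧ ∀ L, U L T → U L (S.glueSet Wᶜ hWc) := by
  classical
  obtain ⟨ρ, hρ⟩ := FR_exists S W hW
  have hWa : ∀ d, S.a d ∈ W ↔ d ∈ W := fun d => ⟨fun h => by rw [← S.aa d]; exact hW _ h, hW d⟩
  have hWr : ∀ d, ρ d ∈ W ↔ d ∈ W := by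
    intro d
    refine ⟨fun h => ?_, hρ.mem d⟩
    by_contra hd
    rw [hρ.off d hd] at h
    exact hd h
  let T : Sf :=
    { D := {d : S.D // d ∈ W}
      fD := Fintype.ofFinite _
      r := ρ.subtypePerm (fun d => hWr d)
      a := S.a.subtypePerm (fun d => hWa d)
      aa := fun d => Subtype.ext (S.aa d.1) }
  let j : T.D → S.D := fun d => d.1
  have hinj : Function.Injective j := fun d e h => Subtype.ext h
  have hjr : ∀ x, j (T.r x) = ρ (j x) := fun x => rfl
  have hja : ∀ x, j (T.a x) = S.a (j x) := fun x => rfl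
  have hjW : ∀ x, j x ∈ W := fun x => x.2
  have hst : ∀ x, ∃ k : ℕ, ((S.r * S.a) ^ (k + 1)) (j x) = j ((T.r * T.a) x) ∧
      ∀ i < k, ((S.r * S.a) ^ (i + 1)) (j x) ∉ W := by
    intro x
    obtain ⟨k, hk, hlt⟩ := hρ.cor (S.a (j x)) (hW _ (hjW x))
    have h1 : ∀ i : ℕ, ((S.r * S.a) ^ (i + 1)) (j x) = ((S.r * S.a) ^ i) (S.r (S.a (j x))) := by
      intro i
      rw [pow_succ, Perm.mul_apply]
      rfl
    refine ⟨k, ?_, ?_⟩
    · rw [h1, hk, Perm.mul_apply, hjr, hja]
    · intro i hi
      rw [h1]
      exact (hlt i hi).1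
  refine ⟨T, j, ⟨?_, hinj, ?_, hja, ?_, ?_⟩, ?_⟩
  · intro x hx
    exact hS (j x) (congrArg j hx)
  · intro d
    constructor
    · intro hd
      exact ⟨⟨d, hd⟩, rfl⟩
    · rintro ⟨x, rfl⟩
      exact hjW x
  · exact fr_same hinj hst hjW
  · intro f hf1 hf2 x
    obtain ⟨k, hk, hlt⟩ := hρ.cor (j x) (hjW x)
    have h1 : ∀ i ≤ k, f (((S.r * S.a) ^ i) (S.r (j x))) = f (j x) := by
      intro i
      induction i with
      | zero =>
        intro _
        rw [pow_zero, Perm.one_apply]
        exact hf1 _
      | succ i ih =>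
        intro hi
        rw [pow_succ', Perm.mul_apply, Perm.mul_apply, hf1, hf2 _ (hlt i (by omega)).1]
        exact ih (by omega)
    rw [hjr, ← hk]
    exact h1 k le_rfl
  · intro L hT
    have hβ : ∀ d, d ∈ W → S.beta Wᶜ d = d := fun d hd => S.beta_notMem (fun h => h hd)
    have hβ' : ∀ d, d ∉ W → S.beta Wᶜ d = S.a d := fun d hd => S.beta_mem hWc hd
    have hGa : ∀ d, d ∈ W → (S.glueSet Wᶜ hWc).a d = S.a d := by
      intro d hd
      show S.a (S.beta Wᶜ d) = S.a d
      rw [hβ d hd]
    have hGa' : ∀ d, d ∉ W → (S.glueSet Wᶜ hWc).a d = d := by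
      intro d hd
      show S.a (S.beta Wᶜ d) = d
      rw [hβ' d hd, S.aa]
    have hGr : ∀ d, d ∈ W → (S.glueSet Wᶜ hWc).r d = S.r d := by
      intro d hd
      show S.r (S.beta Wᶜ d) = S.r d
      rw [hβ d hd]
    have hGr' : ∀ d, d ∉ W → (S.glueSet Wᶜ hWc).r d = (S.r * S.a) d := by
      intro d hd
      show S.r (S.beta Wᶜ d) = (S.r * S.a) d
      rw [hβ' d hd]
      rfl
    have hTlive : ∀ x, T.a x ≠ x := fun x hx => hS (j x) (congrArg j hx)
    refine U_core (S := T) (T := S.glueSet Wᶜ hWc) j (fun d e _ _ h => hinj h) ?_ ?_ ?_ hT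
    · intro x hx
      by_cases hxW : x ∈ W
      · exact ⟨⟨x, hxW⟩, hTlive _, rfl⟩
      · exact absurd (hGa' x hxW) hx
    · intro d _
      rw [hGa _ (hjW d)]
      exact (hja d).symm
    · intro d e _ hde
      have h1 : e = T.r d := (hde.uniq (NL.one (S := T) d (hTlive _)))
      rw [h1, hjr]
      obtain ⟨k, hk, hlt⟩ := hρ.cor (j d) (hjW d)
      have hρW : ρ (j d) ∈ W := hρ.mem _ (hjW d)
      -- descend
      have h2 : ∀ m, ∀ i, i + m = k → ∀ y, (S.glueSet Wᶜ hWc).r y = ((S.r * S.a) ^ i) (S.r (j d)) →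
          NL (S.glueSet Wᶜ hWc) y (ρ (j d)) := by
        intro m
        induction m with
        | zero =>
          intro i hi y hy
          have hi' : i = k := by omega
          rw [hi', hk] at hy
          rw [← hy]
          refine NL.one y ?_
          rw [hy, hGa _ hρW]
          exact hS _
        | succ m ih =>
          intro i hi y hy
          have h3 := (hlt i (by omega)).1
          rw [← hy] at h3
          refine NL.step y _ (hGa' _ h3) (ih (i + 1) (by omega) _ ?_)
          rw [hGr' _ h3, hy, pow_succ']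
          rfl
      exact h2 k 0 (by omega) (j d) (by rw [hGr _ (hjW d), pow_zero, Perm.one_apply])

theorem core_words (S : Sf) {N : Set S.D} {δ : S.D → ℕ} {ρ : ℕ} (hF : Fo S N δ ρ) {W : Set S.D} (hW : Wl S N δ W)
    {T : Sf} {j : T.D → S.D} (hc : Core S W T j) :
    Fintype.card T.Wd ≤ Set.ncard {x : T.D | Set.ncard {y | T.vx x y} ≠ 2} + (W ∩ N).ncard := by
  classical
  have hjW : ∀ x, j x ∈ W := fun x => (hc.rng _).2 ⟨x, rfl⟩
  have hNa : ∀ d, S.a d ∈ N → d ∈ N := fun d h => by rw [← S.aa d]; exact hF.cl _ h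
  -- depth is constant on the vertices
  have hδ : ∀ d e, S.vx d e → δ e = δ d := by
    intro d e h
    have hQ : ∀ z, (δ ((S.r * S.a) z) = δ d) ↔ (δ z = δ d) := fun z => by
      rw [show δ ((S.r * S.a) z) = δ z from hF.vtx z]
    exact (iff_of_same (s := S.r * S.a) (Q := fun z => δ z = δ d) hQ h).mp rfl
  have hkey : ∀ P : T.Wd, ∃ x, T.wd x = P ∧ (Set.ncard {y | T.vx x y} ≠ 2 ∨ j x ∈ N) := by
    intro P
    by_contra hcon
    push Not at hcon
    -- the letter with the largest depth
    obtain ⟨x0, hx0⟩ := T.wd_surj P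
    obtain ⟨x, hx, hmax⟩ := Finset.exists_max_image (Finset.univ.filter (fun x => T.wd x = P))
      (fun x => δ (j x)) ⟨x0, by simp [hx0]⟩
    rw [Finset.mem_filter] at hx
    have hxP := hx.2
    have hmax' : ∀ z, T.wd z = P → δ (j z) ≤ δ (j x) := by
      intro z hz
      exact hmax z (by simp [hz])
    obtain ⟨hd2, hxN⟩ := hcon x hxP
    set y := T.r⁻¹ x with hy
    have hry : T.r y = x := by rw [hy]; simp
    have hyP : T.wd y = P := by
      rw [← hxP, T.wd_eq, ← hry]
      exact Perm.sameCycle_apply_right.2 (Perm.SameCycle.refl _ _)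
    have hrP : T.wd (T.r x) = P := by
      rw [← hxP, T.wd_eq]
      exact Perm.sameCycle_apply_left.2 (Perm.SameCycle.refl _ _)
    obtain ⟨_, hyN⟩ := hcon y hyP
    have hstep : (T.r * T.a) (T.a y) = x := by
      rw [Perm.mul_apply, T.aa, hry]
    have hvxy : T.vx x (T.a y) := by
      have h1 : T.vx (T.a y) ((T.r * T.a) (T.a y)) :=
        Perm.sameCycle_apply_right.2 (Perm.SameCycle.refl _ _)
      rw [hstep] at h1
      exact h1.symm
    -- the vertex is {x, T.a y}
    have hne : x ≠ T.a y := by
      intro h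
      have h1 : (T.r * T.a) x = x := by
        conv_lhs => rw [h]
        exact hstep
      have h2 : {z | T.vx x z} = {x} := by
        ext z
        simp only [Set.mem_ofPred_eq, Set.mem_singleton_iff]
        constructor
        · intro hz
          have hQ : ∀ w, ((T.r * T.a) w = x) ↔ (w = x) := by
            intro w
            constructor
            · intro hw
              exact (T.r * T.a).injective (hw.trans h1.symm)
            · intro hw
              rw [hw, h1]
          exact (iff_of_same (s := T.r * T.a) (Q := fun w => w = x) hQ hz).mp rfl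
        · intro hz
          rw [hz]
          exact Perm.SameCycle.refl _ _
      rw [h2, Set.ncard_singleton] at hd2
      omega
    have hset : ({x, T.a y} : Set T.D) = {z | T.vx x z} := by
      refine Set.eq_of_subset_of_ncard_le ?_ ?_ (Set.toFinite _)
      · intro z hz
        rcases hz with rfl | hz
        · exact Perm.SameCycle.refl _ _
        · rw [Set.mem_singleton_iff] at hz
          rw [hz]
          exact hvxy
      · rw [hd2, Set.ncard_pair hne]
    have hδy : δ (S.a (j y)) = δ (j x) := by
      have h1 := (hc.vx x (T.a y)).1 hvxy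
      have h2 := hδ _ _ h1
      rw [hc.a] at h2
      exact h2
    have hδx : δ (j (T.r x)) = δ (S.a (j x)) := by
      have h1 : T.vx (T.a x) (T.r x) := by
        have h2 : T.vx (T.a x) ((T.r * T.a) (T.a x)) :=
          Perm.sameCycle_apply_right.2 (Perm.SameCycle.refl _ _)
        rw [Perm.mul_apply, T.aa] at h2
        exact h2
      have h2 := hδ _ _ ((hc.vx _ _).1 h1)
      rw [hc.a] at h2
      exact h2
    -- the letter x cannot lead up, the letter a y cannot lead up
    have hx2 : ¬ δ (S.a (j x)) = δ (j x) + 1 := by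
      intro h
      have h1 := hmax' _ hrP
      omega
    have hy2 : ¬ δ (j y) = δ (S.a (j y)) + 1 := by
      intro h
      have h1 := hmax' _ hyP
      omega
    have hxu : j x ∈ S.up N δ := by
      refine ⟨hxN, ?_⟩
      rcases hF.tree (j x) hxN with h | h
      · exact h
      · exact absurd h hx2
    have hyu : S.a (j y) ∈ S.up N δ := by
      have hyN' : S.a (j y) ∉ N := fun h => hyN (hNa _ h)
      refine ⟨hyN', ?_⟩
      rcases hF.tree (S.a (j y)) hyN' with h | h
      · exact h
      · rw [S.aa] at h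
        exact absurd h hy2
    have h1 := hF.uniq _ hxu _ hyu (by
      have h2 := (hc.vx x (T.a y)).1 hvxy
      rw [hc.a] at h2
      exact h2)
    rw [← hc.a] at h1
    exact hne (hc.inj h1)
  choose g hg1 hg2 using hkey
  have hginj : Function.Injective g := by
    intro P Q h
    rw [← hg1 P, ← hg1 Q, h]
  have h1 : Fintype.card T.Wd = (Set.range g).ncard := by
    rw [← Nat.card_eq_fintype_card, ← Set.ncard_univ, ← Set.image_univ,
      Set.ncard_image_of_injective _ hginj]
  have h2 : Set.range g ⊆ {x : T.D | Set.ncard {y | T.vx x y} ≠ 2} ∪ {x : T.D | j x ∈ N} := by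
    rintro _ ⟨P, rfl⟩
    rcases hg2 P with h | h
    · exact Or.inl h
    · exact Or.inr h
  have h3 : ({x : T.D | j x ∈ N}).ncard ≤ (W ∩ N).ncard := by
    have h4 : (j '' {x : T.D | j x ∈ N}).ncard = ({x : T.D | j x ∈ N}).ncard :=
      Set.ncard_image_of_injective _ hc.inj
    rw [← h4]
    refine Set.ncard_le_ncard ?_ (Set.toFinite _)
    rintro _ ⟨x, hx, rfl⟩
    exact ⟨hjW x, hx⟩
  rw [h1]
  refine (Set.ncard_le_ncard h2 (Set.toFinite _)).trans ?_
  refine (Set.ncard_union_le _ _).trans ?_
  omega

end Pool.Agent.GW
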