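import Pool.Agent.GW.DecompS

/-!
# GW/Marks: marks on the vertices with small distances

PROOF.  `Z = {d | degree of the vertex of d is not 2}`; start with `Z` and, for every word without a letter of `Z`, one letter of the word and its
vertex (such a word gets at most two letters in this way, because its partner word is the reversed word).  As long as there is
a mark `d` with `r^i d` not marked for `1 ≤ i ≤ δ`: mark the vertex of `x = r^δ d`; it has the two letters `x` and `x' = a (r^(δ-1) d)`.  In the word of `x` the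
`δ` letters before `x` are a complete block (first one marked, the others not, next one marked); as all vertices between have
degree 2, `r (a (r^i d)) = a (r^(i-1) d)`, so the `δ` letters starting with `x'` are a complete block in the word of `x'`.  Complete blocks are never
cut later (a mark is only set at distance exactly `δ` after the previous mark, and the mirror image of this).  Every new letter has
its own complete block in its word, so in a word `P` at most `pw P / δ` letters are added.  At the end between two marks there are less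
than `δ` letters.
-/

set_option autoImplicit false

namespace Pool.Agent.GW

open Equiv Pool.Agent.SWP

/-- a vertex of degree two -/
theorem marks_deg (T : Sf) {d : T.D} (h : Set.ncard {e | T.vx d e} = 2) :
    (∀ e, T.vx d e ↔ e = d ∨ e = T.r (T.a d)) ∧ T.r (T.a d) ≠ d ∧ T.r (T.a d) = T.a (T.r⁻¹ d) := by
  classical
  have h0 : ∀ n : ℕ, T.vx d (((T.r * T.a) ^ n) d) := fun n => ⟨n, by simp⟩
  have hd : T.vx d d := Perm.SameCycle.refl _ _
  have h1 : T.vx d (T.r (T.a d)) := by simpa using h0 1
  have hne : T.r (T.a d) ≠ d := by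
    intro he
    have h2 : ({e | T.vx d e} : Set T.D) = {d} := by
      ext e
      rw [Set.mem_ofPred_eq, Set.mem_singleton_iff]
      constructor
      · intro hh
        have h3 : (T.r * T.a) d = d := he
        exact ((Perm.SameCycle.eq_of_left hh h3)).symm
      · rintro rfl; exact hd
    rw [h2, Set.ncard_singleton] at h
    omega
  have hsub : ({d, T.r (T.a d)} : Set T.D) ⊆ {e | T.vx d e} := by
    rintro e (rfl | he)
    · exact hd
    · rw [Set.mem_singleton_iff] at he; subst he; exact h1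
  have heq : ({d, T.r (T.a d)} : Set T.D) = {e | T.vx d e} := by
    refine Set.eq_of_subset_of_ncard_le hsub ?_ (Set.toFinite _)
    rw [h, Set.ncard_pair hne.symm]
  have hiff : ∀ e, T.vx d e ↔ e = d ∨ e = T.r (T.a d) := by
    intro e
    have h2 : e ∈ ({d, T.r (T.a d)} : Set T.D) ↔ e ∈ ({e | T.vx d e} : Set T.D) := by rw [heq]
    simpa using h2.symm
  refine ⟨hiff, hne, ?_⟩
  have h2 : T.vx d (T.r (T.a (T.r (T.a d)))) := by simpa [pow_succ] using h0 2
  rcases (hiff _).1 h2 with h3 | h3
  · have h4 : T.a (T.r (T.a d)) = T.r⁻¹ d := by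
      rw [Perm.eq_inv_iff_eq]; exact h3
    rw [← h4, T.aa]
  · exact absurd (T.a.injective (T.r.injective h3)) hne

theorem marks (T : Sf) (hT : T.Closed) (δ : ℕ) (hδ : 1 ≤ δ) :
    ∃ Mk : Set T.D, (∀ d e, T.vx d e → (d ∈ Mk ↔ e ∈ Mk)) ∧ (∀ d, d ∉ Mk → Set.ncard {e | T.vx d e} = 2) ∧
      (∀ d, ∃ i < δ, (T.r⁻¹ ^ i) d ∈ Mk) ∧
      ∀ P : T.Wd, δ * Set.ncard {d | d ∈ Mk ∧ T.wd d = P} ≤
        δ * Set.ncard {d | Set.ncard {e | T.vx d e} ≠ 2 ∧ T.wd d = P} + 2 * T.pw P + 2 * δ := by
  classical
  set Z : Set T.D := {d | Set.ncard {e | T.vx d e} ≠ 2} with hZ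
  have vxr : ∀ d, T.vx d d := fun d => Perm.SameCycle.refl _ _
  have vxs : ∀ d e, T.vx d e → T.vx e d := fun d e h => Perm.SameCycle.symm h
  have vxt : ∀ d e f, T.vx d e → T.vx e f → T.vx d f := fun d e f h h' => Perm.SameCycle.trans h h'
  have vx1 : ∀ d, T.vx d (T.r (T.a d)) := fun d => ⟨1, by simp⟩
  have hinv : ∀ d, T.r⁻¹ (T.r d) = d := fun d => T.r.symm_apply_apply d
  have wdr : ∀ d, T.wd (T.r d) = T.wd d := fun d =>
    (T.wd_eq _ _).mpr (Perm.sameCycle_apply_left.mpr (Perm.SameCycle.refl _ _))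
  have wdn : ∀ (n : ℕ) d, T.wd ((T.r ^ n) d) = T.wd d := by
    intro n d
    exact (T.wd_eq _ _).mpr (Perm.sameCycle_pow_left.mpr (Perm.SameCycle.refl _ _))
  have hvxset : ∀ d e, T.vx d e → ({f | T.vx d f} : Set T.D) = {f | T.vx e f} := by
    intro d e h
    ext f
    exact ⟨fun h' => vxt _ _ _ (vxs _ _ h) h', fun h' => vxt _ _ _ h h'⟩
  have Zvx : ∀ d e, T.vx d e → (d ∈ Z ↔ e ∈ Z) := by
    intro d e h
    rw [hZ, Set.mem_ofPred_eq, Set.mem_ofPred_eq, hvxset d e h]
  -- the letters chosen in the words without a letter of Z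
  set fr : T.Wd → Prop := fun P => ∀ d, T.wd d = P → d ∉ Z with hfr
  set x0 : T.Wd → T.D := fun P => (T.wd_surj P).choose with hx0
  have hx0w : ∀ P, T.wd (x0 P) = P := fun P => (T.wd_surj P).choose_spec
  set M0 : Set T.D := Z ∪ {e | ∃ P, fr P ∧ T.vx (x0 P) e} with hM0
  have M0vx : ∀ d e, T.vx d e → (d ∈ M0 ↔ e ∈ M0) := by
    intro d e h
    rw [hM0, Set.mem_union, Set.mem_union, Zvx d e h]
    refine or_congr Iff.rfl ?_
    constructor
    · rintro ⟨P, h1, h2⟩; exact ⟨P, h1, vxt _ _ _ h2 h⟩
    · rintro ⟨P, h1, h2⟩; exact ⟨P, h1, vxt _ _ _ h2 (vxs _ _ h)⟩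
  have M0ne : ∀ P : T.Wd, ∃ d ∈ M0, T.wd d = P := by
    intro P
    by_cases h : fr P
    · exact ⟨x0 P, Or.inr ⟨P, h, vxr _⟩, hx0w P⟩
    · rw [hfr] at h
      push Not at h
      obtain ⟨d, h1, h2⟩ := h
      exact ⟨d, Or.inl h2, h1⟩
  -- partner word of a word without a letter of Z
  have par : ∀ P, fr P → ∀ x, T.wd x = P → ∀ e, T.wd e = T.wd (T.a x) → T.wd (T.a e) = P := by
    intro P hP x hx e he
    have hcl : ∀ f, T.wd (T.a f) = P → T.wd (T.a (T.r f)) = P := by
      intro f hf
      have h2 : Set.ncard {e | T.vx (T.a f) e} = 2 := by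
        by_contra hc
        exact hP (T.a f) hf hc
      have h3 := (marks_deg T h2).2.2
      rw [T.aa] at h3
      rw [h3, T.aa]
      have h4 := wdr (T.r⁻¹ (T.a f))
      rw [show T.r (T.r⁻¹ (T.a f)) = T.a f from T.r.apply_symm_apply _] at h4
      rw [← h4, hf]
    have hcn : ∀ (n : ℕ) f, T.wd (T.a f) = P → T.wd (T.a ((T.r ^ n) f)) = P := by
      intro n
      induction n with
      | zero => intro f hf; simpa using hf
      | succ n ih =>
        intro f hf
        rw [pow_succ', Perm.mul_apply]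
        exact hcl _ (ih f hf)
    have hs : T.r.SameCycle (T.a x) e := (T.wd_eq _ _).mp he.symm
    obtain ⟨n, hn⟩ := hs.exists_nat_pow_eq
    rw [← hn]
    exact hcn n _ (by rw [T.aa]; exact hx)
  have M0card : ∀ Q : T.Wd, Set.ncard {d | d ∈ M0 ∧ T.wd d = Q} ≤ Set.ncard {d | d ∈ Z ∧ T.wd d = Q} + 2 := by
    intro Q
    by_cases hex : ∃ P, fr P ∧ T.wd (T.r (T.a (x0 P))) = Q
    · obtain ⟨P1, hP1, hQ1⟩ := hex
      have hsub : ({d | d ∈ M0 ∧ T.wd d = Q} : Set T.D) ⊆ {d | d ∈ Z ∧ T.wd d = Q} ∪ {x0 Q, T.r (T.a (x0 P1))} := by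
        rintro d ⟨hd | ⟨P, hP, hd⟩, hdQ⟩
        · exact Or.inl ⟨hd, hdQ⟩
        · right
          have h2 : Set.ncard {e | T.vx (x0 P) e} = 2 := by
            by_contra hc
            exact hP (x0 P) (hx0w P) hc
          rcases ((marks_deg T h2).1 d).1 hd with h3 | h3
          · left
            rw [h3, hx0w] at hdQ
            rw [h3, hdQ]
          · right
            rw [Set.mem_singleton_iff, h3]
            have h4 : P = P1 := by
              rw [h3, wdr] at hdQ
              rw [wdr] at hQ1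
              have h5 := par P hP (x0 P) (hx0w P) (T.a (x0 P1)) (by rw [hQ1, hdQ])
              rw [T.aa, hx0w] at h5
              exact h5.symm
            rw [h4]
      refine (Set.ncard_le_ncard hsub (Set.toFinite _)).trans ((Set.ncard_union_le _ _).trans ?_)
      exact Nat.add_le_add_left (Set.ncard_insert_le _ _ |>.trans (by rw [Set.ncard_singleton])) _
    · have hsub : ({d | d ∈ M0 ∧ T.wd d = Q} : Set T.D) ⊆ {d | d ∈ Z ∧ T.wd d = Q} ∪ {x0 Q} := by
        rintro d ⟨hd | ⟨P, hP, hd⟩, hdQ⟩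
        · exact Or.inl ⟨hd, hdQ⟩
        · right
          have h2 : Set.ncard {e | T.vx (x0 P) e} = 2 := by
            by_contra hc
            exact hP (x0 P) (hx0w P) hc
          rcases ((marks_deg T h2).1 d).1 hd with h3 | h3
          · rw [h3, hx0w] at hdQ
            rw [Set.mem_singleton_iff, h3, hdQ]
          · rw [h3] at hdQ
            exact absurd ⟨P, hP, hdQ⟩ hex
      refine (Set.ncard_le_ncard hsub (Set.toFinite _)).trans ((Set.ncard_union_le _ _).trans ?_)
      rw [Set.ncard_singleton]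
      omega
  -- complete blocks
  set CB : Set T.D → Set T.D := fun M => {d | d ∈ M ∧ (∀ i, 0 < i → i < δ → (T.r ^ i) d ∉ M) ∧ (T.r ^ δ) d ∈ M} with hCB
  set QQ : Set T.D → Prop := fun M => (∀ d e, T.vx d e → (d ∈ M ↔ e ∈ M)) ∧ M0 ⊆ M ∧
    ∃ f : T.D → T.D, Set.InjOn f (M \ M0) ∧ ∀ m ∈ M \ M0, f m ∈ CB M ∧ T.wd (f m) = T.wd m with hQQ
  have hQ0 : QQ M0 := by
    refine ⟨M0vx, subset_rfl, id, ?_, ?_⟩
    · rw [Set.sdiff_self]; exact Set.injOn_empty _
    · rintro m ⟨h1, h2⟩; exact absurd h1 h2
  obtain ⟨M, hM, hmax⟩ := Set.exists_max_image {M | QQ M} Set.ncard (Set.toFinite _) ⟨M0, hQ0⟩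
  obtain ⟨Mvx, hM0M, f, hfi, hf⟩ := hM
  have hdeg : ∀ d, d ∉ M → Set.ncard {e | T.vx d e} = 2 := by
    intro d hd
    by_contra hc
    exact hd (hM0M (Or.inl hc))
  -- no long gap
  have hgap : ∀ d ∈ M, ∃ i, 0 < i ∧ i ≤ δ ∧ (T.r ^ i) d ∈ M := by
    intro d hd
    by_contra hcon
    push Not at hcon
    obtain ⟨e, rfl⟩ : ∃ e, δ = e + 1 := ⟨δ - 1, by omega⟩
    set x := (T.r ^ (e + 1)) d with hx
    set x' := T.r (T.a x) with hx'
    have hxM : x ∉ M := hcon (e + 1) (by omega) le_rfl
    obtain ⟨g1, g2, g3⟩ := marks_deg T (hdeg x hxM)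
    have hx'M : x' ∉ M := fun h => hxM ((Mvx x x' (vx1 x)).2 h)
    have hx'0 : x' = T.a ((T.r ^ e) d) := by
      rw [hx', g3, hx, pow_succ', Perm.mul_apply, hinv]
    -- the reversed block
    have hrev : ∀ j ≤ e, (T.r ^ j) x' = T.a ((T.r ^ (e - j)) d) := by
      intro j
      induction j with
      | zero => intro _; simpa using hx'0
      | succ j ih =>
        intro hj
        rw [pow_succ', Perm.mul_apply, ih (by omega)]
        have h1 : (T.r ^ (e - j)) d ∉ M := hcon (e - j) (by omega) (by omega)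
        rw [(marks_deg T (hdeg _ h1)).2.2]
        congr 1
        rw [Perm.inv_eq_iff_eq, ← Perm.mul_apply, ← pow_succ']
        congr 2
        omega
    have hrevM : ∀ j, 0 < j → j ≤ e → (T.r ^ j) x' ∉ M := by
      intro j h0 hj h
      have h1 : (T.r ^ (e - j + 1)) d ∉ M := hcon (e - j + 1) (by omega) (by omega)
      refine h1 ((Mvx _ _ (vx1 _)).2 ?_)
      rw [(marks_deg T (hdeg _ h1)).2.2, pow_succ', Perm.mul_apply, hinv, ← hrev j hj]
      exact h
    have hend : (T.r ^ (e + 1)) x' ∈ M := by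
      rw [pow_succ', Perm.mul_apply, hrev e le_rfl, Nat.sub_self, pow_zero, Perm.one_apply]
      exact (Mvx _ _ (vx1 d)).1 hd
    -- the new letter is not inside the old block
    have hpar : ∀ j, 0 < j → j ≤ e → (T.r ^ j) d ≠ x' := by
      intro j h0 hj hjx
      have h1 : ∀ i ≤ e, T.a ((T.r ^ (e - i)) d) = (T.r ^ (i + j)) d := by
        intro i hi
        rw [← hrev i hi, ← hjx, ← Perm.mul_apply, ← pow_add]
      rcases Nat.even_or_odd' (e - j) with ⟨i, hi | hi⟩
      · have h2 := h1 i (by omega)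
        rw [show e - i = i + j by omega] at h2
        exact hT _ h2
      · have h2 := h1 i (by omega)
        rw [show e - i = i + j + 1 by omega] at h2
        have h3 : (T.r ^ (i + j + 1)) d ∉ M := hcon _ (by omega) (by omega)
        refine (marks_deg T (hdeg _ h3)).2.1 ?_
        rw [h2, ← Perm.mul_apply, ← pow_succ']
    have hQ' : QQ (M ∪ {x, x'}) := by
      have hdCB : d ∈ CB (M ∪ {x, x'}) := by
        refine ⟨Or.inl hd, ?_, Or.inr (Or.inl rfl)⟩
        rintro i h0 hi (h | h | h)
        · exact hcon i h0 (by omega) h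
        · refine hcon (e + 1 - i) (by omega) (by omega) ?_
          have h2 : (T.r ^ i) ((T.r ^ (e + 1 - i)) d) = (T.r ^ i) d := by
            rw [← Perm.mul_apply, ← pow_add, show i + (e + 1 - i) = e + 1 by omega, h]
          rw [(T.r ^ i).injective h2]
          exact hd
        · exact hpar i h0 (by omega) h
      have hx'CB : x' ∈ CB (M ∪ {x, x'}) := by
        refine ⟨Or.inr (Or.inr rfl), ?_, Or.inl hend⟩
        rintro i h0 hi (h | h | h)
        · exact hrevM i h0 (by omega) h
        · refine hpar (e + 1 - i) (by omega) (by omega) ?_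
          refine (T.r ^ i).injective ?_
          rw [← Perm.mul_apply, ← pow_add, show i + (e + 1 - i) = e + 1 by omega]
          exact h.symm
        · have h : (T.r ^ i) x' = x' := h
          refine hrevM (e + 1 - i) (by omega) (by omega) ?_
          have h2 : (T.r ^ (e + 1 - i)) x' = (T.r ^ (e + 1)) x' := by
            conv_lhs => rw [← h]
            rw [← Perm.mul_apply, ← pow_add]
            congr 2
            omega
          rw [h2]
          exact hend
      have hCBsub : CB M ⊆ CB (M ∪ {x, x'}) := by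
        rintro c ⟨hc1, hc2, hc3⟩
        refine ⟨Or.inl hc1, ?_, Or.inl hc3⟩
        rintro i h0 hi (h | h | h)
        · exact hc2 i h0 hi h
        · refine hcon (e + 1 - i) (by omega) (by omega) ?_
          have h2 : (T.r ^ i) ((T.r ^ (e + 1 - i)) d) = (T.r ^ i) c := by
            rw [← Perm.mul_apply, ← pow_add, show i + (e + 1 - i) = e + 1 by omega, h]
          rw [(T.r ^ i).injective h2]
          exact hc1
        · have h : (T.r ^ i) c = x' := h
          refine hrevM (e + 1 - i) (by omega) (by omega) ?_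
          rw [← h, ← Perm.mul_apply, ← pow_add, show e + 1 - i + i = e + 1 by omega]
          exact hc3
      have hdn : d ∉ CB M := fun h => hxM h.2.2
      have hx'n : x' ∉ CB M := fun h => hx'M h.1
      have hdx' : d ≠ x' := fun h => hx'M (h ▸ hd)
      refine ⟨?_, hM0M.trans Set.subset_union_left, Function.update (Function.update f x d) x' x', ?_, ?_⟩
      · have hv : ∀ a, a ∈ ({x, x'} : Set T.D) ↔ T.vx x a := by
          intro a
          rw [g1 a]
          simp only [Set.mem_insert_iff, Set.mem_singleton_iff]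
          rfl
        intro a b hab
        rw [Set.mem_union, Set.mem_union, Mvx a b hab, hv, hv]
        exact or_congr Iff.rfl ⟨fun h => vxt _ _ _ h hab, fun h => vxt _ _ _ h (vxs _ _ hab)⟩
      · have hval : ∀ m ∈ (M ∪ {x, x'}) \ M0, (m ≠ x ∧ m ≠ x' ∧ Function.update (Function.update f x d) x' x' m = f m ∧
            f m ∈ CB M ∧ m ∈ M \ M0) ∨ (m = x ∧ Function.update (Function.update f x d) x' x' m = d) ∨
            (m = x' ∧ Function.update (Function.update f x d) x' x' m = x') := by
          rintro m ⟨hm1, hm2⟩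
          by_cases h1 : m = x'
          · right; right
            refine ⟨h1, ?_⟩
            rw [h1, Function.update_self]
          by_cases h2 : m = x
          · right; left
            refine ⟨h2, ?_⟩
            rw [Function.update_of_ne h1, h2, Function.update_self]
          · left
            have h3 : m ∈ M := by
              rcases hm1 with h | h | h
              · exact h
              · exact absurd h h2
              · exact absurd h h1
            refine ⟨h2, h1, ?_, (hf m ⟨h3, hm2⟩).1, h3, hm2⟩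
            rw [Function.update_of_ne h1, Function.update_of_ne h2]
        intro m hm m' hm' hmm
        rcases hval m hm with ⟨a1, a2, a3, a4, a5⟩ | ⟨a1, a3⟩ | ⟨a1, a3⟩ <;>
        rcases hval m' hm' with ⟨b1, b2, b3, b4, b5⟩ | ⟨b1, b3⟩ | ⟨b1, b3⟩
        · rw [a3, b3] at hmm
          exact hfi a5 b5 hmm
        · rw [a3, b3] at hmm
          exact absurd (hmm ▸ a4) hdn
        · rw [a3, b3] at hmm
          exact absurd (hmm ▸ a4) hx'n
        · rw [a3, b3] at hmm
          exact absurd (hmm ▸ b4) hdn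
        · rw [a1, b1]
        · rw [a3, b3] at hmm
          exact absurd hmm hdx'
        · rw [a3, b3] at hmm
          exact absurd (hmm ▸ b4) hx'n
        · rw [a3, b3] at hmm
          exact absurd hmm.symm hdx'
        · rw [a1, b1]
      · rintro m ⟨hm1, hm2⟩
        by_cases h1 : m = x'
        · rw [h1, Function.update_self]
          exact ⟨hx'CB, rfl⟩
        by_cases h2 : m = x
        · rw [Function.update_of_ne h1, h2, Function.update_self]
          exact ⟨hdCB, (wdn (e + 1) d).symm⟩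
        · have h3 : m ∈ M := by
            rcases hm1 with h | h | h
            · exact h
            · exact absurd h h2
            · exact absurd h h1
          rw [Function.update_of_ne h1, Function.update_of_ne h2]
          exact ⟨hCBsub (hf m ⟨h3, hm2⟩).1, (hf m ⟨h3, hm2⟩).2⟩
    have h1 := hmax _ hQ'
    have h2 : M.ncard < (M ∪ {x, x'}).ncard := by
      refine Set.ncard_lt_ncard ⟨Set.subset_union_left, fun h => hxM (h (Or.inr (Or.inl rfl)))⟩ (Set.toFinite _)
    omega
  refine ⟨M, Mvx, hdeg, ?_, ?_⟩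
  · intro d
    have hex : ∃ n : ℕ, (T.r⁻¹ ^ n) d ∈ M := by
      obtain ⟨e, he1, he2⟩ := M0ne (T.wd d)
      have hs : T.r.SameCycle d e := ((T.wd_eq _ _).mp he2).symm
      obtain ⟨n, hn⟩ := (Perm.sameCycle_inv.mpr hs).exists_nat_pow_eq
      exact ⟨n, by rw [hn]; exact hM0M he1⟩
    refine ⟨Nat.find hex, ?_, Nat.find_spec hex⟩
    by_contra hlt
    push Not at hlt
    set n := Nat.find hex with hn
    obtain ⟨i, h0, hi, him⟩ := hgap _ (Nat.find_spec hex)
    refine Nat.find_min hex (m := n - i) (by omega) ?_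
    have h1 : (T.r ^ i) ((T.r⁻¹ ^ n) d) = (T.r⁻¹ ^ (n - i)) d := by
      rw [← Perm.mul_apply]
      congr 1
      rw [show n = i + (n - i) by omega, pow_add, ← mul_assoc, Nat.add_sub_cancel_left, inv_pow, mul_inv_cancel, one_mul]
    rw [← h1]
    exact him
  · intro P
    have h1 : ({d | d ∈ M ∧ T.wd d = P} : Set T.D) ⊆ {d | d ∈ M0 ∧ T.wd d = P} ∪ {d | d ∈ M \ M0 ∧ T.wd d = P} := by
      rintro d ⟨hd1, hd2⟩
      by_cases h : d ∈ M0
      · exact Or.inl ⟨h, hd2⟩
      · exact Or.inr ⟨⟨hd1, h⟩, hd2⟩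
    have h2 : Set.ncard {d | d ∈ M \ M0 ∧ T.wd d = P} ≤ Set.ncard {d | d ∈ CB M ∧ T.wd d = P} := by
      refine Set.ncard_le_ncard_of_injOn f ?_ ?_ (Set.toFinite _)
      · rintro d ⟨hd1, hd2⟩
        exact ⟨(hf d hd1).1, by rw [(hf d hd1).2, hd2]⟩
      · intro a ha b hb hab
        exact hfi ha.1 hb.1 hab
    have h3 : δ * Set.ncard {d | d ∈ CB M ∧ T.wd d = P} ≤ T.pw P := by
      unfold Sf.pw
      have h4 : (({d | d ∈ CB M ∧ T.wd d = P} : Set T.D) ×ˢ (Set.Iio δ : Set ℕ)).ncard ≤ Set.ncard {d | T.wd d = P} := by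
        refine Set.ncard_le_ncard_of_injOn (fun q => (T.r ^ q.2) q.1) ?_ ?_ (Set.toFinite _)
        · rintro ⟨c, i⟩ ⟨hc, hi⟩
          change T.wd ((T.r ^ i) c) = P
          rw [wdn]
          exact hc.2
        · rintro ⟨c, i⟩ ⟨hc, hi⟩ ⟨c', i'⟩ ⟨hc', hi'⟩ heq
          have heq : (T.r ^ i) c = (T.r ^ i') c' := heq
          have hi : i < δ := hi
          have hi' : i' < δ := hi'
          have key : ∀ (c c' : T.D) (i i' : ℕ), c ∈ CB M → c' ∈ CB M → i < δ → i' < δ → (T.r ^ i) c = (T.r ^ i') c' →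
              i ≤ i' → c = c' ∧ i = i' := by
            intro c c' i i' hc hc' hi hi' heq hle
            have h5 : (T.r ^ i) ((T.r ^ (i' - i)) c') = (T.r ^ i) c := by
              rw [← Perm.mul_apply, ← pow_add, show i + (i' - i) = i' by omega, heq]
            have h6 := (T.r ^ i).injective h5
            rcases Nat.eq_zero_or_pos (i' - i) with h7 | h7
            · rw [h7, pow_zero, Perm.one_apply] at h6
              exact ⟨h6.symm, by omega⟩
            · exact absurd (h6 ▸ hc.1) (hc'.2.1 (i' - i) h7 (by omega))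
          rcases le_total i i' with hle | hle
          · obtain ⟨h5, h6⟩ := key c c' i i' hc.1 hc'.1 hi hi' heq hle
            rw [h5, h6]
          · obtain ⟨h5, h6⟩ := key c' c i' i hc'.1 hc.1 hi' hi heq.symm hle
            rw [h5, h6]
      rw [Set.ncard_prod] at h4
      have h5 : (Set.Iio δ : Set ℕ).ncard = δ := by
        rw [← Finset.coe_Iio, Set.ncard_coe_finset, Nat.card_Iio]
      rw [h5, mul_comm] at h4
      exact h4
    have h4 : Set.ncard {d | d ∈ M ∧ T.wd d = P} ≤ Set.ncard {d | d ∈ Z ∧ T.wd d = P} + 2 +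
        Set.ncard {d | d ∈ CB M ∧ T.wd d = P} :=
      (Set.ncard_le_ncard h1 (Set.toFinite _)).trans ((Set.ncard_union_le _ _).trans (Nat.add_le_add (M0card P) h2))
    calc δ * Set.ncard {d | d ∈ M ∧ T.wd d = P} ≤ δ * (Set.ncard {d | d ∈ Z ∧ T.wd d = P} + 2 +
        Set.ncard {d | d ∈ CB M ∧ T.wd d = P}) := Nat.mul_le_mul_left _ h4
      _ = δ * Set.ncard {d | d ∈ Z ∧ T.wd d = P} + δ * Set.ncard {d | d ∈ CB M ∧ T.wd d = P} + 2 * δ := by ring
      _ ≤ δ * Set.ncard {d | d ∈ Z ∧ T.wd d = P} + 2 * T.pw P + 2 * δ := by omega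

end Pool.Agent.GW
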