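import Pool.Agent.GW.WallsEx
import Pool.Agent.GW.CoreW
import Pool.Agent.GW.Marks
import Pool.Agent.GW.Coarse
import Pool.Agent.GW.Carve

/-!
# GW/CoarseSt: the coarse state of a system of walls

PROOF.  `core_exists` gives `T1`, `j`; `z P` = number of letters of the word `P` of `T1` whose vertex has a degree `≠ 2` (`Core.vx`, so this is the degree in `W`);
`∑ z = #{d ∈ W | dgv W d ≠ 2} ≤ 4 y`, `y = |W ∩ N|` (`walls_count`); number of words of `T1` at most `5 y` (`core_words`).  `marks` with `δ = dl`, `m P` = number of marked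
letters of `P`: `dl m ≤ dl z + 2 pw + 2 dl`.  `coarse`: `S2.card = ∑ m`, `S2.area = ∑ m^2`.  So `dl S2.card ≤ 4 dl y + 2 |W| + 10 dl y` and
`dl^2 S2.area ≤ 3 ∑ (dl^2 z^2 + 4 pw^2 + 4 dl^2) ≤ 3 (16 dl^2 y^2 + 4 ∑ pw^2 + 20 dl^2 y)`; by `Core.lab` with `f = lab ∘ wd` all letters of a word of `T1` have the same
label, so `∑ pw^2 ≤ ∑_t |{d ∈ W | lab (wd d) = t}|^2`.  `U_ex`, `U.iso`.
-/

set_option autoImplicit false

namespace Pool.Agent.GW

open Equiv Pool.Agent.SWP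

private theorem cs_fib {D V : Type} [Fintype D] [Fintype V] [DecidableEq V] (f : D → V) (p : D → Prop) :
    ∑ P : V, Set.ncard {d | p d ∧ f d = P} = Set.ncard {d | p d} := by
  classical
  have h1 : ∀ P : V, Set.ncard {d | p d ∧ f d = P} = ((Finset.univ.filter p).filter (fun d => f d = P)).card := by
    intro P
    rw [← Set.ncard_coe_finset]
    congr 1
    ext d
    simp
  have h2 : Set.ncard {d | p d} = (Finset.univ.filter p).card := by
    rw [← Set.ncard_coe_finset]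
    congr 1
    ext d
    simp
  rw [h2, Finset.card_eq_sum_card_fiberwise (f := f) (t := Finset.univ) (fun _ _ => Finset.mem_coe.mpr (Finset.mem_univ _))]
  exact Finset.sum_congr rfl fun P _ => h1 P

private theorem cs_sq {V : Type} [Fintype V] (f : V → ℕ) : ∑ P, f P ^ 2 ≤ (∑ P, f P) ^ 2 := by
  rw [sq, Finset.sum_mul]
  refine Finset.sum_le_sum fun P _ => ?_
  rw [sq]
  exact Nat.mul_le_mul_left _ (Finset.single_le_sum (f := f) (fun i _ => Nat.zero_le _) (Finset.mem_univ P))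

private theorem cs_grp {V T : Type} [Fintype V] [Fintype T] [DecidableEq T] (g : V → T) (f : V → ℕ) :
    ∑ P, f P ^ 2 ≤ ∑ t, (∑ P, if g P = t then f P else 0) ^ 2 := by
  classical
  have h1 : ∀ t : T, ∑ P, (if g P = t then f P ^ 2 else 0) ≤ (∑ P, if g P = t then f P else 0) ^ 2 := by
    intro t
    refine le_trans (le_of_eq ?_) (cs_sq (fun P => if g P = t then f P else 0))
    refine Finset.sum_congr rfl fun P _ => ?_
    by_cases h : g P = t
    · rw [if_pos h, if_pos h]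
    · rw [if_neg h, if_neg h]; norm_num
  refine le_trans (le_of_eq ?_) (Finset.sum_le_sum fun t _ => h1 t)
  rw [Finset.sum_comm]
  refine Finset.sum_congr rfl fun P _ => ?_
  rw [Finset.sum_ite_eq]
  simp

theorem coarse_state (T : Sf) (hT : T.Closed) {N : Set T.D} {δ : T.D → ℕ} {ρ : ℕ} (hF : Fo T N δ ρ) {W : Set T.D}
    (hW : Wl T N δ W) (lab : T.Wd → T.Wd) (hlab : ∀ d, d ∉ W → lab (T.wd (T.a d)) = lab (T.wd d)) (dl : ℕ)
    (hdl : 1 ≤ dl) :
    ∃ S2 : Sf, S2.Closed ∧ dl * S2.card ≤ 14 * (dl * (W ∩ N).ncard) + 2 * W.ncard ∧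
      dl ^ 2 * S2.area ≤ 108 * (dl ^ 2 * (W ∩ N).ncard ^ 2) +
        12 * ∑ t : T.Wd, (Set.ncard {d | d ∈ W ∧ lab (T.wd d) = t}) ^ 2 ∧
      ∀ L2, U L2 S2 → U (2 * dl * L2) (T.glueSet Wᶜ hW.clc) := by
  classical
  obtain ⟨T1, j, hc, hU1⟩ := core_exists T hT W hW.cl hW.clc
  have hwords := core_words T hF hW hc
  have hjW : ∀ x, j x ∈ W := fun x => (hc.rng _).mpr ⟨x, rfl⟩
  -- degrees
  have hdeg : ∀ x : T1.D, Set.ncard {y | T1.vx x y} = T.dgv W (j x) := by
    intro x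
    refine Set.ncard_congr (fun y _ => j y) ?_ ?_ ?_
    · intro y hy
      exact ⟨hjW y, (hc.vx x y).mp hy⟩
    · intro y y' _ _ h
      exact hc.inj h
    · rintro d ⟨h1, h2⟩
      obtain ⟨y, rfl⟩ := (hc.rng d).mp h1
      exact ⟨y, (hc.vx x y).mpr h2, rfl⟩
  set y : ℕ := (W ∩ N).ncard with hy
  have hZ : Set.ncard {x : T1.D | Set.ncard {e | T1.vx x e} ≠ 2} ≤ 4 * y := by
    refine le_trans (le_of_eq ?_) (walls_count T hT hF hW)
    refine Set.ncard_congr (fun x _ => j x) ?_ ?_ ?_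
    · intro x hx
      refine ⟨hjW x, ?_⟩
      rw [← hdeg]
      exact hx
    · intro x x' _ _ h
      exact hc.inj h
    · rintro d ⟨h1, h2⟩
      obtain ⟨x, rfl⟩ := (hc.rng d).mp h1
      refine ⟨x, ?_, rfl⟩
      rw [← hdeg] at h2
      exact h2
  have hwd5 : Fintype.card T1.Wd ≤ 5 * y := by omega
  obtain ⟨Mk, m1, m2, m3, m4⟩ := marks T1 hc.closed dl hdl
  obtain ⟨S2, k, hk, ha, hS2, hkl, hcard, harea, φ, hφ⟩ := coarse T1 hc.closed dl Mk m1 m2 m3
  -- numbers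
  set m : T1.Wd → ℕ := fun P => Set.ncard {d | d ∈ Mk ∧ T1.wd d = P} with hm
  set z : T1.Wd → ℕ := fun P => Set.ncard {d | Set.ncard {e | T1.vx d e} ≠ 2 ∧ T1.wd d = P} with hz
  have hsm : ∑ P, m P = S2.card := by
    rw [hcard, hm]
    exact cs_fib T1.wd (fun d => d ∈ Mk)
  have hsz : ∑ P, z P ≤ 4 * y := by
    refine le_trans (le_of_eq ?_) hZ
    rw [hz]
    exact cs_fib T1.wd (fun d => Set.ncard {e | T1.vx d e} ≠ 2)
  have hpwW : ∀ t : T.Wd → Prop, Set.ncard {x : T1.D | t (lab (T.wd (j x)))} = Set.ncard {d | d ∈ W ∧ t (lab (T.wd d))} := by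
    intro t
    refine Set.ncard_congr (fun x _ => j x) ?_ ?_ ?_
    · intro x hx
      exact ⟨hjW x, hx⟩
    · intro x x' _ _ h
      exact hc.inj h
    · rintro d ⟨h1, h2⟩
      obtain ⟨x, rfl⟩ := (hc.rng d).mp h1
      exact ⟨x, h2, rfl⟩
  have hpf : ∀ P, T1.pw P = Set.ncard {d : T1.D | True ∧ T1.wd d = P} := by
    intro P
    unfold Sf.pw
    congr 1
    ext d
    simp
  have hspw : ∑ P, T1.pw P = W.ncard := by
    have h1 := cs_fib T1.wd (fun _ => True)
    have h2 := hpwW (fun _ => True)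
    rw [Finset.sum_congr rfl fun P _ => hpf P, h1, h2]
    congr 1
    ext d
    simp
  have h4 : ∀ P, dl * m P ≤ dl * z P + 2 * T1.pw P + 2 * dl := m4
  have hcardle : dl * S2.card ≤ 14 * (dl * y) + 2 * W.ncard := by
    have h5 : ∑ P, dl * m P ≤ ∑ P, (dl * z P + 2 * T1.pw P + 2 * dl) := Finset.sum_le_sum fun P _ => h4 P
    rw [← Finset.mul_sum, hsm, Finset.sum_add_distrib, Finset.sum_add_distrib, ← Finset.mul_sum, ← Finset.mul_sum, hspw,
      Finset.sum_const, Finset.card_univ, smul_eq_mul] at h5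
    have h6 : dl * ∑ P, z P ≤ dl * (4 * y) := Nat.mul_le_mul_left _ hsz
    have h7 : Fintype.card T1.Wd * (2 * dl) ≤ 5 * y * (2 * dl) := Nat.mul_le_mul_right _ hwd5
    nlinarith
  -- labels
  have hwdr : ∀ d, T.wd (T.r d) = T.wd d := fun d =>
    (T.wd_eq _ _).mpr (Perm.sameCycle_apply_left.mpr (Perm.SameCycle.refl _ _))
  have hlab1 : ∀ x, lab (T.wd (j (T1.r x))) = lab (T.wd (j x)) :=
    hc.lab (fun d => lab (T.wd d)) (fun d => by rw [hwdr]) hlab
  have hlabn : ∀ (n : ℕ) x, lab (T.wd (j ((T1.r ^ n) x))) = lab (T.wd (j x)) := by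
    intro n
    induction n with
    | zero => intro x; simp
    | succ n ih =>
      intro x
      rw [pow_succ', Perm.mul_apply, hlab1, ih]
  have hlabw : ∀ x x', T1.wd x = T1.wd x' → lab (T.wd (j x)) = lab (T.wd (j x')) := by
    intro x x' h
    obtain ⟨n, hn⟩ := ((T1.wd_eq _ _).mp h).exists_nat_pow_eq
    rw [← hn, hlabn]
  choose rep hrep using T1.wd_surj
  set g : T1.Wd → T.Wd := fun P => lab (T.wd (j (rep P))) with hg
  have hgx : ∀ x, g (T1.wd x) = lab (T.wd (j x)) := fun x => hlabw _ _ (hrep _)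
  have hgrp : ∑ P, T1.pw P ^ 2 ≤ ∑ t : T.Wd, (Set.ncard {d | d ∈ W ∧ lab (T.wd d) = t}) ^ 2 := by
    refine le_trans (cs_grp g (fun P => T1.pw P)) (le_of_eq ?_)
    refine Finset.sum_congr rfl fun t _ => ?_
    congr 1
    rw [← hpwW (fun s => s = t), ← cs_fib T1.wd (fun x => lab (T.wd (j x)) = t)]
    refine Finset.sum_congr rfl fun P _ => ?_
    by_cases h : g P = t
    · rw [if_pos h]
      unfold Sf.pw
      congr 1
      ext x
      constructor
      · intro hx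
        refine ⟨?_, hx⟩
        rw [← hgx x]
        have hx' : T1.wd x = P := hx
        rw [hx', h]
      · rintro ⟨_, hx⟩
        exact hx
    · rw [if_neg h]
      symm
      rw [Set.ncard_eq_zero (Set.toFinite _)]
      ext x
      simp only [Set.mem_ofPred_eq, Set.mem_empty_iff_false, iff_false]
      rintro ⟨h1, h2⟩
      exact h (by rw [← h2, hgx, h1])
  have harea' : dl ^ 2 * S2.area ≤ 108 * (dl ^ 2 * y ^ 2) +
        12 * ∑ t : T.Wd, (Set.ncard {d | d ∈ W ∧ lab (T.wd d) = t}) ^ 2 := by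
    have h5 : ∀ P, dl ^ 2 * m P ^ 2 ≤ 3 * (dl ^ 2 * z P ^ 2) + 12 * T1.pw P ^ 2 + 12 * dl ^ 2 := by
      intro P
      have h6 := Nat.pow_le_pow_left (h4 P) 2
      have h7 : dl ^ 2 * m P ^ 2 = (dl * m P) ^ 2 := by ring
      rw [h7]
      refine le_trans h6 ?_
      have h8 : ∀ a b c : ℤ, (a + b + c) ^ 2 ≤ 3 * a ^ 2 + 3 * b ^ 2 + 3 * c ^ 2 := by
        intro a b c
        nlinarith [sq_nonneg (a - b), sq_nonneg (b - c), sq_nonneg (a - c)]
      have h9 := h8 (dl * z P) (2 * T1.pw P) (2 * dl)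
      have h10 : ((dl * z P + 2 * T1.pw P + 2 * dl : ℕ) : ℤ) ^ 2 ≤
          ((3 * (dl ^ 2 * z P ^ 2) + 12 * T1.pw P ^ 2 + 12 * dl ^ 2 : ℕ) : ℤ) := by
        push_cast
        nlinarith
      exact_mod_cast h10
    have h11 : dl ^ 2 * S2.area = ∑ P, dl ^ 2 * m P ^ 2 := by
      rw [harea, Finset.mul_sum]
    rw [h11]
    refine le_trans (Finset.sum_le_sum fun P _ => h5 P) ?_
    rw [Finset.sum_add_distrib, Finset.sum_add_distrib, ← Finset.mul_sum, ← Finset.mul_sum, ← Finset.mul_sum,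
      Finset.sum_const, Finset.card_univ, smul_eq_mul]
    have h12 : ∑ P, z P ^ 2 ≤ (4 * y) ^ 2 := le_trans (cs_sq z) (Nat.pow_le_pow_left hsz 2)
    have h13 : dl ^ 2 * ∑ P, z P ^ 2 ≤ dl ^ 2 * (4 * y) ^ 2 := Nat.mul_le_mul_left _ h12
    have h14 : Fintype.card T1.Wd * (12 * dl ^ 2) ≤ 5 * y * (12 * dl ^ 2) := Nat.mul_le_mul_right _ hwd5
    have h15 : y ≤ y ^ 2 := by
      rw [sq]
      rcases Nat.eq_zero_or_pos y with h | h
      · rw [h]; exact Nat.zero_le _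
      · exact Nat.le_mul_of_pos_left _ h
    have h16 : dl ^ 2 * y ≤ dl ^ 2 * y ^ 2 := Nat.mul_le_mul_left _ h15
    nlinarith
  refine ⟨S2, hS2, hcardle, harea', ?_⟩
  intro L2 hL2
  have hex := U_ex hL2 k hk ha hkl (fun d hd => absurd hd (hS2 d))
  exact hU1 _ (U.iso hex hφ)

end Pool.Agent.GW
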