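import Pool.Agent.GW.RungFR

/-!
# GW/LabCap: labels on the capped state

`T = (S.cov R.G R.K).capped R.E' hE' ρ'`; `base`: the letter of `S` over a letter of the cover; `bas`: over a letter of `T`.

PROOFS.  `lab_r`, `lab_a`: in the cover `r'` maps the place of `d` (`cp d` for `d ∈ G`, `inl d` otherwise) to the place of `r d`,
`inl d ↦ inl (N d)` or `pt d`, `pt d ↦ pt (P d)` or `inl d`; `N d` has the label of `d` by the fan `Cor (E ∪ G) d (N d)`; on the hats use
`FR_inv` for the cover and the set of the letters with a given label.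
-/

set_option autoImplicit false

namespace Pool.Agent.GW

open Equiv Pool.Agent.SWP

/-- the letter of `S` over a letter of the cover -/
def base {D : Type} : D ⊕ (D ⊕ D) → D
  | Sum.inl d => d
  | Sum.inr (Sum.inl d) => d
  | Sum.inr (Sum.inr d) => d

/-- the letter of `S` over a letter of the capped cover -/
def bas {D : Type} : (D ⊕ (D ⊕ D)) ⊕ (D ⊕ (D ⊕ D)) → D
  | Sum.inl e => base e
  | Sum.inr e => base e

theorem cor_lab (S : Sf) {Λ : Type} (lb : S.D → Λ) (hr : ∀ d, lb (S.r d) = lb d) (B : Set S.D)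
    (ha : ∀ d, d ∉ B → lb (S.a d) = lb d) {f g : S.D} (h : S.Cor B f g) : lb g = lb f := by
  obtain ⟨k, hk, hB⟩ := h
  have h1 : ∀ i ≤ k, lb (((S.r * S.a) ^ i) (S.r f)) = lb f := by
    intro i
    induction i with
    | zero => intro _; simpa using hr f
    | succ i ih =>
      intro hi
      rw [pow_succ', Perm.mul_apply, Perm.mul_apply, hr, ha _ (hB i (by omega)).1]
      exact ih (by omega)
  rw [← hk]
  exact h1 k le_rfl

theorem base_th {D : Type} (G : Set D) (x : D ⊕ (D ⊕ D)) : base (th G x) = base x := by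
  rcases x with d | d | d
  · by_cases h : d ∈ G <;> simp [th, h, base]
  · by_cases h : d ∈ G <;> simp [th, h, base]
  · rfl

theorem base_de {D : Type} (G : Set D) (x : D ⊕ (D ⊕ D)) : base (de G x) = base x := by
  rcases x with d | d | d
  · by_cases h : d ∈ G <;> simp [de, h, base]
  · rfl
  · by_cases h : d ∈ G <;> simp [de, h, base]

theorem lab_ta {D : Type} {Λ : Type} (lb : D → Λ) (K : Lk D) (hK : ∀ d e, K.N d = some e → lb e = lb d)
    (x : D ⊕ (D ⊕ D)) : lb (base (ta K x)) = lb (base x) := by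
  rcases x with d | d | d
  · rcases h : K.P d with _ | e
    · simp [ta, h]
    · have h1 := hK e d ((K.h e d).2 h)
      simp [ta, h, base, h1]
  · rfl
  · rcases h : K.N d with _ | e
    · simp [ta, h]
    · have h1 := hK d e h
      simp [ta, h, base, h1]

theorem lab_map {D : Type} {Λ : Type} (lb : D → Λ) (s : D → D) (hs : ∀ d, lb (s d) = lb d)
    (x : D ⊕ (D ⊕ D)) : lb (base (Sum.map s (id : D ⊕ D → D ⊕ D) x)) = lb (base x) := by
  rcases x with d | d | d
  · exact hs d
  · rfl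
  · rfl

theorem lab_rcov {D : Type} {Λ : Type} (lb : D → Λ) (G : Set D) (K : Lk D) (s : Perm D) (hs : ∀ d, lb (s d) = lb d)
    (hK : ∀ d e, K.N d = some e → lb e = lb d) (x : D ⊕ (D ⊕ D)) : lb (base (rcov G K s x)) = lb (base x) := by
  unfold rcov
  rw [lab_ta lb K hK, base_de, base_th, lab_map lb s hs, base_th]

theorem lab_ac {D : Type} {Λ : Type} (lb : D → Λ) (G E : Set D) (a : Perm D) (ha : ∀ d, d ∉ E → lb (a d) = lb d)
    (x : D ⊕ (D ⊕ D)) (hx : ∀ d, x = Sum.inl d → d ∉ E) : lb (base (ac G a x)) = lb (base x) := by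
  rcases x with d | d | d
  · exact ha d (hx d rfl)
  · by_cases h : d ∈ G <;> simp [ac, h, base]
  · by_cases h : d ∈ G <;> simp [ac, h, base]

theorem hat_base {D : Type} (E : Set (D ⊕ (D ⊕ D))) (a : Perm (D ⊕ (D ⊕ D))) {Λ : Type} (lb : D → Λ)
    (ha : ∀ x, x ∉ E → lb (base (a x)) = lb (base x)) (t : (D ⊕ (D ⊕ D)) ⊕ (D ⊕ (D ⊕ D))) :
    lb (bas (hatFun E a t)) = lb (bas t) := by
  rcases t with x | x
  · by_cases hx : x ∈ E
    · have h1 : hatFun E a (Sum.inl x) = Sum.inr x := by simp [hatFun, hx]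
      rw [h1]
      rfl
    · have h1 : hatFun E a (Sum.inl x) = Sum.inl (a x) := by simp [hatFun, hx]
      rw [h1]
      exact ha x hx
  · by_cases hx : x ∈ E
    · have h1 : hatFun E a (Sum.inr x) = Sum.inl x := by simp [hatFun, hx]
      rw [h1]
      rfl
    · have h1 : hatFun E a (Sum.inr x) = Sum.inr x := by simp [hatFun, hx]
      rw [h1]

section

variable (S : Sf) {Λ : Type} (lb : S.D → Λ) (hr : ∀ d, lb (S.r d) = lb d) (E : Set S.D) (hE : S.Cl E)
  (ha : ∀ d, d ∉ E → lb (S.a d) = lb d) (ρ : Perm S.D) (R : Rg S E ρ) (hE' : (S.cov R.G R.K).Cl R.E')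
  (ρ' : Perm (S.D ⊕ (S.D ⊕ S.D))) (hF : (S.cov R.G R.K).FR R.E' ρ')

include hr hE ha hF

theorem lab_r (t : ((S.cov R.G R.K).capped R.E' hE' ρ').D) :
    lb (bas (((S.cov R.G R.K).capped R.E' hE' ρ').r t)) = lb (bas t) := by
  have hN : ∀ d e, R.K.N d = some e → lb e = lb d := by
    intro d e h
    obtain ⟨_, _, h3⟩ := R.NG d e h
    exact cor_lab S lb hr _ (fun d hd => ha d (fun h' => hd (Or.inl h'))) h3
  have hr' : ∀ x : (S.cov R.G R.K).D, lb (base ((S.cov R.G R.K).r x)) = lb (base x) := by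
    intro x
    exact lab_rcov lb R.G R.K S.r hr hN x
  rcases t with x | x
  · exact hr' x
  · have ha' : ∀ x : (S.cov R.G R.K).D, x ∉ R.E' → lb (base ((S.cov R.G R.K).a x)) = lb (base x) := by
      intro x hx
      refine lab_ac lb R.G E S.a ha x ?_
      rintro d rfl
      exact hx
    have hρ : ∀ e : S.D ⊕ (S.D ⊕ S.D), lb (base (ρ' e)) = lb (base e) := by
      intro e
      by_cases he : e ∈ R.E'
      · exact cor_lab (S.cov R.G R.K) (fun x => lb (base x)) hr' R.E' ha' (hF.cor e he)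
      · have h1 : ρ' e = e := hF.off e he
        rw [h1]
    have h1 : ∀ y : S.D ⊕ (S.D ⊕ S.D), lb (base (ρ'.symm y)) = lb (base y) := by
      intro y
      have h2 := hρ (ρ'.symm y)
      rw [Equiv.apply_symm_apply] at h2
      exact h2.symm
    exact h1 x

theorem lab_a (t : ((S.cov R.G R.K).capped R.E' hE' ρ').D) :
    lb (bas (((S.cov R.G R.K).capped R.E' hE' ρ').a t)) = lb (bas t) := by
  refine hat_base R.E' (S.cov R.G R.K).a lb ?_ t
  intro x hx
  refine lab_ac lb R.G E S.a ha x ?_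
  rintro d rfl
  exact hx

end

end Pool.Agent.GW
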