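import Pool.Agent.GW.DcsDef
import Pool.Agent.GW.CapCond
import Pool.Agent.GW.LabCap

/-!
# GW/CompCond: conductance of the components of the capped state

PROOF.  `T` the capped state, `C` its live letters over the class `l` (a union of words and closed under the partner map by `lab_r`,
`lab_a`), `X ⊆ C` a union of words, `Y = C \ X`.  `X0 = {d | io d ∈ X}`, `Y0 = {d | io d ∈ Y}`: unions of words of `S`, disjoint, union = letters of
the words in `cl (u/ψ) c l`.  Both cases are alike; let `nuP X0 ≤ nuP Y0`.  Write `bd = #bd X`, `q`, `o` the numbers of `cap_cond`,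
`e0 = #(X0 ∩ E)`.  `Z = {e | inr e ∈ X}` is closed under `ρ'`, so `b q ≤ n o`, `q ≤ (α/16) o`, `α = κ ψ ≤ 1`.
`cap_cond`: `o ≤ 2 bd + e0 + q`, so `o ≤ (16/15) (2 bd + e0)`, `q ≤ (α/15) (2 bd + e0)`.  `Pc.hE`: `ψ (|X0| + κ e0) ≤ ψ nuP X0 ≤ cut X0 =
#{d ∈ X0, d ∉ E, a d ∉ X0} ≤ bd + q` (letters of `X0` which are not in `E` have partners in words of `cl (u/ψ) c l`; `p x - om x` = number of
letters of `x` in `E`).  So `ψ |X0| ≤ (17/15) bd`.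
`|X| ≤ |X0| + 2 bd + 3 q + o ≤ |X0| + 2 bd + 1.27 (2 bd + e0) ≤ 2.27 |X0| + 4.54 bd ≤ 8 bd / ψ` (`e0 ≤ |X0|`).
-/

set_option autoImplicit false

namespace Pool.Agent.GW

open Equiv Pool.Agent.SWP Finset

/-! ## numbers -/

private theorem cc_num {ψ κ X X0 bd q o e0 b n I : ℝ} (h0 : 0 < ψ) (h1 : ψ ≤ 1) (hκ : 0 < κ) (hκ1 : κ * ψ ≤ 1)
    (hb : 1 ≤ b) (hn : 16 * n ≤ κ * ψ * b) (hX0 : 0 ≤ X0) (hbd : 0 ≤ bd) (hq : 0 ≤ q) (ho : 0 ≤ o) (he0 : 0 ≤ e0)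
    (hgap : b * q ≤ n * o) (c1 : I ≤ bd + q) (c2 : o ≤ 2 * bd + e0 + q) (c3 : X ≤ X0 + 2 * bd + 3 * q + o)
    (heX : e0 ≤ X0) (hcut : ψ * (X0 + κ * e0) ≤ I) : ψ * X ≤ 8 * bd := by
  set α := κ * ψ with hα
  have hα0 : 0 < α := by positivity
  have g1 : b * (16 * q) ≤ b * (α * o) := by
    have g2 : 16 * n * o ≤ α * b * o := mul_le_mul_of_nonneg_right hn ho
    nlinarith
  have g3 : 16 * q ≤ α * o := le_of_mul_le_mul_left g1 (by linarith)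
  have g4 : α * o ≤ o := by nlinarith
  have g5 : o ≤ 16 / 15 * (2 * bd + e0) := by linarith
  have g6 : q ≤ α / 15 * (2 * bd + e0) := by
    have g7 : α * o ≤ α * (16 / 15 * (2 * bd + e0)) := mul_le_mul_of_nonneg_left g5 hα0.le
    linarith
  have g8 : ψ * X0 + α * e0 ≤ bd + q := by
    have : ψ * (X0 + κ * e0) = ψ * X0 + α * e0 := by rw [hα]; ring
    linarith
  have g9 : α * bd ≤ bd := by nlinarith
  have g10 : 0 ≤ α * e0 := by positivity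
  have g11 : ψ * X0 ≤ 17 / 15 * bd := by nlinarith
  have g12 : q ≤ 1 / 15 * (2 * bd + e0) := by linarith
  have g13 : X ≤ 34 / 15 * X0 + 68 / 15 * bd := by linarith
  have g14 : ψ * X ≤ ψ * (34 / 15 * X0 + 68 / 15 * bd) := mul_le_mul_of_nonneg_left g13 h0.le
  have g15 : ψ * bd ≤ bd := by nlinarith
  nlinarith

/-! ## the dual graph of a class -/

section Dual

variable (S : Sf) (W : Finset S.Wd) (A : Finset {x // x ∈ W})

/-- the words of `A` -/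
private def cA : Finset S.Wd := A.map (Function.Embedding.subtype _)

private theorem mem_cA {x : S.Wd} : x ∈ cA S W A ↔ ∃ h : x ∈ W, (⟨x, h⟩ : {x // x ∈ W}) ∈ A := by
  unfold cA
  rw [Finset.mem_map]
  constructor
  · rintro ⟨⟨y, hy⟩, h1, rfl⟩
    exact ⟨hy, h1⟩
  · rintro ⟨h, h1⟩
    exact ⟨⟨x, h⟩, h1, rfl⟩

private theorem cA_sub : cA S W A ⊆ W := by
  intro x hx
  exact ((mem_cA S W A).1 hx).1

private theorem cA_compl : cA S W Aᶜ = W \ cA S W A := by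
  ext x
  rw [Finset.mem_sdiff, mem_cA, mem_cA]
  constructor
  · rintro ⟨h, h1⟩
    refine ⟨h, ?_⟩
    rintro ⟨h', h2⟩
    exact (Finset.mem_compl.1 h1) h2
  · rintro ⟨h, h1⟩
    refine ⟨h, Finset.mem_compl.2 fun h2 => h1 ⟨h, h2⟩⟩

private theorem sum_cA (f : S.Wd → ℝ) : ∑ x ∈ A, f x.1 = ∑ x ∈ cA S W A, f x := by
  unfold cA
  rw [Finset.sum_map]
  rfl

private theorem cc_pw : ∑ x ∈ A, (S.pw x.1 : ℝ) = ((S.lets (cA S W A)).ncard : ℝ) := by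
  rw [S.DecompS_lets, sum_cA S W A (fun x => (S.pw x : ℝ))]

private theorem cc_om : ∑ x ∈ A, (S.gr W).om x =
    (Set.ncard {d | S.wd d ∈ cA S W A ∧ S.wd (S.a d) ∈ W} : ℝ) := by
  rw [← S.dual_ee]
  unfold WG.ee
  rw [← sum_cA S W A (fun x => ∑ y ∈ W, S.dual.w x y)]
  refine sum_congr rfl fun x _ => ?_
  unfold WG.om
  exact Finset.sum_coe_sort W (fun y => S.dual.w x.1 y)

private theorem cc_cut : (S.gr W).cut A =
    (Set.ncard {d | S.wd d ∈ cA S W A ∧ S.wd (S.a d) ∈ W \ cA S W A} : ℝ) := by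
  rw [← S.dual_ee]
  unfold WG.cut WG.ee
  rw [← sum_cA S W A (fun x => ∑ y ∈ W \ cA S W A, S.dual.w x y)]
  refine sum_congr rfl fun x _ => ?_
  rw [← cA_compl S W A, ← sum_cA S W Aᶜ (fun y => S.dual.w x.1 y)]
  rfl

private theorem cc_nuP {u κ : ℝ} (hu : 1 ≤ u) : ((S.lets (cA S W A)).ncard : ℝ) +
    κ * (((S.lets (cA S W A)).ncard : ℝ) - (Set.ncard {d | S.wd d ∈ cA S W A ∧ S.wd (S.a d) ∈ W} : ℝ)) ≤
    (S.gr W).nuP (fun x => S.pw x.1) u κ A := by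
  rw [← cc_om, ← cc_pw, ← sum_sub_distrib, mul_sum, ← sum_add_distrib]
  refine sum_le_sum fun x _ => ?_
  have h1 : 0 ≤ (S.pw x.1 : ℝ) ^ 2 / u := by positivity
  show (S.pw x.1 : ℝ) + κ * ((S.pw x.1 : ℝ) - (S.gr W).om x) ≤
    (S.pw x.1 : ℝ) + (S.pw x.1 : ℝ) ^ 2 / u + κ * ((S.pw x.1 : ℝ) - (S.gr W).om x)
  linarith

end Dual

private theorem nc_inr {D : Type} (X : Set (Six D)) (P : D ⊕ (D ⊕ D) → Prop) (Q : Six D → Prop)
    (h : ∀ e, Q (Sum.inr e) ↔ P e) (h' : ∀ e, ¬ Q (Sum.inl e)) :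
    Set.ncard {e | e ∈ X ∧ Q e} = Set.ncard {e | e ∈ {e | (Sum.inr e : Six D) ∈ X} ∧ P e} := by
  have hinj : Function.Injective (fun e : D ⊕ (D ⊕ D) => (Sum.inr e : Six D)) :=
    fun a b h => Sum.inr_injective h
  rw [← Set.ncard_image_of_injective _ hinj]
  congr 1
  ext e
  constructor
  · rintro ⟨h2, h3⟩
    rcases e with e | e
    · exact absurd h3 (h' e)
    · exact ⟨e, ⟨h2, (h e).1 h3⟩, rfl⟩
  · rintro ⟨e', ⟨h2, h3⟩, rfl⟩
    exact ⟨h2, (h e').2 h3⟩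

/-! ## the capped state -/

section Capped

variable {S : Sf} {E : Set S.D} {ρ : Perm S.D} (R : Rg S E ρ)
  (hE' : (S.cov R.G R.K).Cl R.E') (ρ' : Perm (S.D ⊕ (S.D ⊕ S.D)))

theorem bas_io (d : S.D) : bas (R.io d) = d := by
  by_cases h : d ∈ R.G
  · rw [R.io_pos h]; rfl
  · rw [R.io_neg h]; rfl

/-- places of old letters are alive -/
theorem io_live (hS : S.Closed) (d : S.D) : ((S.cov R.G R.K).capped R.E' hE' ρ').a (R.io d) ≠ R.io d := by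
  by_cases h : d ∈ R.G
  · rw [R.io_pos h]
    intro h1
    have h2 := (capped_a_inl_pos R hE' ρ' (show (Sum.inr (Sum.inl d) : S.D ⊕ (S.D ⊕ S.D)) ∈ R.E' from h)).symm.trans h1
    exact absurd h2 (by simp)
  · rw [R.io_neg h]
    by_cases hd : d ∈ E
    · intro h1
      have h2 := (capped_a_inl_pos R hE' ρ' (show (Sum.inl d : S.D ⊕ (S.D ⊕ S.D)) ∈ R.E' from hd)).symm.trans h1
      exact absurd h2 (by simp)
    · intro h1
      have h2 := (capped_a_inl_neg R hE' ρ' (show (Sum.inl d : S.D ⊕ (S.D ⊕ S.D)) ∉ R.E' from hd)).symm.trans h1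
      exact hS d (Sum.inl_injective (Sum.inl_injective h2))

/-- dead letters of the capped state are words of length one -/
theorem capped_dead (hS : S.Closed) (hF : (S.cov R.G R.K).FR R.E' ρ')
    (t : ((S.cov R.G R.K).capped R.E' hE' ρ').D)
    (ht : ((S.cov R.G R.K).capped R.E' hE' ρ').a t = t) : ((S.cov R.G R.K).capped R.E' hE' ρ').r t = t := by
  rcases t with z | z
  · by_cases hz : z ∈ R.E'
    · have h2 := (capped_a_inl_pos R hE' ρ' hz).symm.trans ht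
      exact absurd h2 (by simp)
    · have h2 := (capped_a_inl_neg R hE' ρ' hz).symm.trans ht
      have h3 : (S.cov R.G R.K).a z = z := Sum.inl_injective h2
      show Sum.inl ((S.cov R.G R.K).r z) = Sum.inl z
      congr 1
      rcases z with d | d | d
      · exact absurd (Sum.inl_injective h3) (hS d)
      · have hd : d ∉ R.G := hz
        rw [cov_r_apply]
        simp [th, de, ta, hd]
      · have hd : d ∉ R.G := hz
        rw [cov_r_apply]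
        simp [th, de, ta, hd, R.N_none hd]
  · by_cases hz : z ∈ R.E'
    · have h2 := (capped_a_inr_pos R hE' ρ' hz).symm.trans ht
      exact absurd h2 (by simp)
    · show Sum.inr (ρ'⁻¹ z) = Sum.inr z
      congr 1
      rw [Perm.inv_eq_iff_eq]
      exact (hF.off z hz).symm

end Capped

section Side

variable (S : Sf) (hS : S.Closed) {E : Set S.D} {c : S.Wd → S.Wd} {ψ u κ : ℝ} (hD : S.Dcs E c ψ u κ)
    (h0 : 0 < ψ) (h1 : ψ ≤ 1) (ρ : Perm S.D) (hρ : S.FR E ρ)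
    (R : Rg S E ρ) (hE' : (S.cov R.G R.K).Cl R.E') (ρ' : Perm (S.D ⊕ (S.D ⊕ S.D)))
    (hF : (S.cov R.G R.K).FR R.E' ρ') (b n : ℕ) (hb : 1 ≤ b) (hn : 16 * n ≤ κ * ψ * b)
    (hgap : ∀ Z : Set (S.D ⊕ (S.D ⊕ S.D)), (∀ e, ρ' e ∈ Z ↔ e ∈ Z) →
      b * Set.ncard {e | e ∈ Z ∧ ∃ d ∈ R.G, e = Sum.inr (Sum.inl d) ∨ e = Sum.inr (Sum.inr d)} ≤
      n * Set.ncard {e | e ∈ Z ∧ ∃ d ∈ E, e = Sum.inl d})
    (l : S.Wd)

include hS hD h0 h1 hρ hF hb hn hgap in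
private theorem cc_side (X : Set ((S.cov R.G R.K).capped R.E' hE' ρ').D)
    (hX : ((S.cov R.G R.K).capped R.E' hE' ρ').Inv X)
    (hXl : ∀ t ∈ X, ((S.cov R.G R.K).capped R.E' hE' ρ').a t ≠ t)
    (W : Finset S.Wd) (hW : ∀ x, x ∈ W ↔ (S.pw x : ℝ) ≤ u / ψ ∧ c x = l)
    (A : Finset {x // x ∈ W})
    (hA : ∀ d, R.io d ∈ X ↔ S.wd d ∈ cA S W A)
    (hcut : ψ * (S.gr W).nuP (fun x => S.pw x.1) u κ A ≤ (S.gr W).cut A) :
    ψ * (X.ncard : ℝ) ≤ 8 * ((((S.cov R.G R.K).capped R.E' hE' ρ').bd X).ncard : ℝ) := by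
  classical
  have hPc := hD.pc l
  obtain ⟨_, c1, c2, c3⟩ := cap_cond S hS E hD.cl ρ hρ R hE' ρ' hF X hX hXl
  -- the sets
  have hX0 : ({d | R.io d ∈ X} : Set S.D) = S.lets (cA S W A) := by
    ext d
    exact hA d
  have hsmall : ∀ d, S.wd d ∈ cA S W A → (S.pw (S.wd d) : ℝ) ≤ u / ψ ∧ c (S.wd d) = l := by
    intro d hd
    exact (hW _).1 (cA_sub S W A hd)
  have hEW : ∀ d, S.wd d ∈ cA S W A → (d ∉ E ↔ S.wd (S.a d) ∈ W) := by
    intro d hd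
    obtain ⟨h2, h3⟩ := hsmall d hd
    rw [hD.mem, hW]
    constructor
    · intro h4
      push Not at h4
      exact ⟨h4.2.1, by rw [← h4.2.2]; exact h3⟩
    · rintro ⟨h4, h5⟩
      push Not
      exact ⟨h2, h4, by rw [h3, h5]⟩
  have hI : ({d | R.io d ∈ X ∧ d ∉ E ∧ R.io (S.a d) ∉ X} : Set S.D) =
      {d | S.wd d ∈ cA S W A ∧ S.wd (S.a d) ∈ W \ cA S W A} := by
    ext d
    constructor
    · rintro ⟨h2, h3, h4⟩
      have h5 := (hA d).1 h2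
      exact ⟨h5, Finset.mem_sdiff.2 ⟨(hEW d h5).1 h3, fun h6 => h4 ((hA _).2 h6)⟩⟩
    · rintro ⟨h2, h3⟩
      rw [Finset.mem_sdiff] at h3
      exact ⟨(hA d).2 h2, (hEW d h2).2 h3.1, fun h6 => h3.2 ((hA _).1 h6)⟩
  have he0 : (Set.ncard {d | R.io d ∈ X ∧ d ∈ E} : ℝ) = ((S.lets (cA S W A)).ncard : ℝ) -
      (Set.ncard {d | S.wd d ∈ cA S W A ∧ S.wd (S.a d) ∈ W} : ℝ) := by
    have h2 : S.lets (cA S W A) = {d | R.io d ∈ X ∧ d ∈ E} ∪ {d | S.wd d ∈ cA S W A ∧ S.wd (S.a d) ∈ W} := by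
      ext d
      constructor
      · intro h3
        have h3' : S.wd d ∈ cA S W A := h3
        by_cases h4 : d ∈ E
        · exact Or.inl ⟨(hA d).2 h3', h4⟩
        · exact Or.inr ⟨h3', (hEW d h3').1 h4⟩
      · rintro (h3 | h3)
        · exact (hA d).1 h3.1
        · exact h3.1
    have h3 : Disjoint ({d | R.io d ∈ X ∧ d ∈ E} : Set S.D) {d | S.wd d ∈ cA S W A ∧ S.wd (S.a d) ∈ W} := by
      rw [Set.disjoint_left]
      rintro d ⟨h4, h5⟩ ⟨h6, h7⟩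
      exact (hEW d h6).2 h7 h5
    have h4 := Set.ncard_union_eq h3 (Set.toFinite _) (Set.toFinite _)
    rw [← h2] at h4
    rw [h4]
    push_cast
    ring
  -- the gap
  have hZ := hgap {e | (Sum.inr e : ((S.cov R.G R.K).capped R.E' hE' ρ').D) ∈ X} (by
    intro e
    have h2 := hX (Sum.inr (ρ' e))
    have h3 : ((S.cov R.G R.K).capped R.E' hE' ρ').r (Sum.inr (ρ' e)) = Sum.inr e := by
      exact congrArg Sum.inr (Equiv.symm_apply_apply ρ' e)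
    rw [h3] at h2
    exact h2.symm)
  have hq : Set.ncard {e | e ∈ X ∧ ∃ d ∈ R.G, e = Sum.inr (Sum.inr (Sum.inl d)) ∨ e = Sum.inr (Sum.inr (Sum.inr d))} =
      Set.ncard {e : S.D ⊕ (S.D ⊕ S.D) | e ∈ {e : S.D ⊕ (S.D ⊕ S.D) | (Sum.inr e : Six S.D) ∈ X} ∧
        ∃ d ∈ R.G, e = Sum.inr (Sum.inl d) ∨ e = Sum.inr (Sum.inr d)} :=
    nc_inr X (fun e => ∃ d ∈ R.G, e = Sum.inr (Sum.inl d) ∨ e = Sum.inr (Sum.inr d))
      (fun e => ∃ d ∈ R.G, e = Sum.inr (Sum.inr (Sum.inl d)) ∨ e = Sum.inr (Sum.inr (Sum.inr d)))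
      (fun e => by simp) (fun e => by simp)
  have ho : Set.ncard {e | e ∈ X ∧ ∃ d ∈ E, e = Sum.inr (Sum.inl d)} =
      Set.ncard {e : S.D ⊕ (S.D ⊕ S.D) | e ∈ {e : S.D ⊕ (S.D ⊕ S.D) | (Sum.inr e : Six S.D) ∈ X} ∧
        ∃ d ∈ E, e = Sum.inl d} :=
    nc_inr X (fun e => ∃ d ∈ E, e = Sum.inl d) (fun e => ∃ d ∈ E, e = Sum.inr (Sum.inl d))
      (fun e => by simp) (fun e => by simp)
  have hZ' : b * Set.ncard {e | e ∈ X ∧ ∃ d ∈ R.G, e = Sum.inr (Sum.inr (Sum.inl d)) ∨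
      e = Sum.inr (Sum.inr (Sum.inr d))} ≤ n * Set.ncard {e | e ∈ X ∧ ∃ d ∈ E, e = Sum.inr (Sum.inl d)} := by
    rw [hq, ho]
    exact hZ
  have hle : Set.ncard {d | R.io d ∈ X ∧ d ∈ E} ≤ Set.ncard {d | R.io d ∈ X} :=
    Set.ncard_le_ncard (fun d hd => hd.1) (Set.toFinite _)
  have hnu := cc_nuP S W A (κ := κ) hPc.hu
  rw [← he0, ← hX0] at hnu
  have hcut2 : ψ * ((Set.ncard {d | R.io d ∈ X} : ℝ) + κ * (Set.ncard {d | R.io d ∈ X ∧ d ∈ E} : ℝ)) ≤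
      (Set.ncard {d | R.io d ∈ X ∧ d ∉ E ∧ R.io (S.a d) ∉ X} : ℝ) := by
    rw [hI, ← cc_cut]
    exact le_trans (mul_le_mul_of_nonneg_left hnu h0.le) hcut
  exact cc_num (b := b) (n := n) h0 h1 hPc.hκ hPc.hκ1 (by exact_mod_cast hb) hn (Nat.cast_nonneg _) (Nat.cast_nonneg _)
    (Nat.cast_nonneg _) (Nat.cast_nonneg _) (Nat.cast_nonneg _) (by exact_mod_cast hZ') (by exact_mod_cast c1)
    (by exact_mod_cast c2) (by exact_mod_cast c3) (by exact_mod_cast hle) hcut2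

end Side

theorem comp_cond (S : Sf) (hS : S.Closed) {E : Set S.D} {c : S.Wd → S.Wd} {ψ u κ : ℝ} (hD : S.Dcs E c ψ u κ)
    (h0 : 0 < ψ) (h1 : ψ ≤ 1) (ρ : Perm S.D) (hρ : S.FR E ρ)
    (R : Rg S E ρ) (hE' : (S.cov R.G R.K).Cl R.E') (ρ' : Perm (S.D ⊕ (S.D ⊕ S.D)))
    (hF : (S.cov R.G R.K).FR R.E' ρ') (b n : ℕ) (hb : 1 ≤ b) (hn : 16 * n ≤ κ * ψ * b)
    (hgap : ∀ Z : Set (S.D ⊕ (S.D ⊕ S.D)), (∀ e, ρ' e ∈ Z ↔ e ∈ Z) →
      b * Set.ncard {e | e ∈ Z ∧ ∃ d ∈ R.G, e = Sum.inr (Sum.inl d) ∨ e = Sum.inr (Sum.inr d)} ≤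
      n * Set.ncard {e | e ∈ Z ∧ ∃ d ∈ E, e = Sum.inl d})
    (l : S.Wd) (X : Set ((S.cov R.G R.K).capped R.E' hE' ρ').D) (hX : ((S.cov R.G R.K).capped R.E' hE' ρ').Inv X)
    (hXl : X ⊆ {t | S.lbl (u / ψ) c (bas t) = Sum.inl l ∧ ((S.cov R.G R.K).capped R.E' hE' ρ').a t ≠ t}) :
    ψ * min (X.ncard : ℝ) (({t | S.lbl (u / ψ) c (bas t) = Sum.inl l ∧
      ((S.cov R.G R.K).capped R.E' hE' ρ').a t ≠ t} \ X : Set ((S.cov R.G R.K).capped R.E' hE' ρ').D).ncard : ℝ) ≤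
      8 * ((((S.cov R.G R.K).capped R.E' hE' ρ').bd X).ncard : ℝ) := by
  classical
  have hPc := hD.pc l
  have hWm : ∀ x, x ∈ S.cl (u / ψ) c l ↔ (S.pw x : ℝ) ≤ u / ψ ∧ c x = l := by
    intro x
    unfold Sf.cl
    simp
  let T : Sf := (S.cov R.G R.K).capped R.E' hE' ρ'
  let C : Set T.D := {t | S.lbl (u / ψ) c (bas t) = Sum.inl l ∧ T.a t ≠ t}
  change ψ * min (X.ncard : ℝ) ((C \ X : Set T.D).ncard : ℝ) ≤ 8 * ((T.bd X).ncard : ℝ)
  have hlabr : ∀ t : T.D, S.lbl (u / ψ) c (bas (T.r t)) = S.lbl (u / ψ) c (bas t) :=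
    lab_r S (S.lbl (u / ψ) c) (S.lbl_r _ _) E hD.cl (fun d hd => hD.lbl_a hd) ρ R hE' ρ' hF
  have hlaba : ∀ t : T.D, S.lbl (u / ψ) c (bas (T.a t)) = S.lbl (u / ψ) c (bas t) :=
    lab_a S (S.lbl (u / ψ) c) (S.lbl_r _ _) E hD.cl (fun d hd => hD.lbl_a hd) ρ R hE' ρ' hF
  have hdead : ∀ t : T.D, T.a t = t → T.r t = t := fun t ht => capped_dead R hE' ρ' hS hF t ht
  have hliver : ∀ t : T.D, T.a (T.r t) ≠ T.r t ↔ T.a t ≠ t := by
    intro t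
    constructor
    · intro h2 h3
      rw [hdead t h3] at h2
      exact h2 h3
    · intro h2 h3
      have h4 := hdead _ h3
      rw [T.r.injective h4] at h3
      exact h2 h3
  have hCr : T.Inv C := by
    intro t
    show (S.lbl (u / ψ) c (bas (T.r t)) = Sum.inl l ∧ T.a (T.r t) ≠ T.r t) ↔ _
    rw [hlabr, hliver]
    exact Iff.rfl
  have hCa : ∀ t ∈ C, T.a t ∈ C := by
    rintro t ⟨h2, h3⟩
    refine ⟨by rw [hlaba]; exact h2, ?_⟩
    rw [T.aa]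
    exact fun h4 => h3 h4.symm
  have hYr : T.Inv (C \ X) := by
    intro t
    rw [Set.mem_sdiff, Set.mem_sdiff, hCr t]
    exact and_congr_right fun _ => not_congr (hX t)
  have hXlive : ∀ t ∈ X, T.a t ≠ t := fun t ht => (hXl ht).2
  have hYlive : ∀ t ∈ C \ X, T.a t ≠ t := fun t ht => ht.1.2
  have hWl : ∀ d, S.wd d ∈ S.cl (u / ψ) c l ↔ S.lbl (u / ψ) c d = Sum.inl l := by
    intro d
    rw [S.lbl_inl, hWm]
  obtain ⟨hX0, _⟩ := cap_cond S hS E hD.cl ρ hρ R hE' ρ' hF X hX hXlive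
  -- the words of X
  set A : Finset {x // x ∈ S.cl (u / ψ) c l} := univ.filter fun x => ∃ d, S.wd d = x.1 ∧ R.io d ∈ X with hA
  have hAX : ∀ d, R.io d ∈ X ↔ S.wd d ∈ cA S (S.cl (u / ψ) c l) A := by
    intro d
    rw [mem_cA]
    constructor
    · intro h2
      have h3 : S.wd d ∈ S.cl (u / ψ) c l := by
        rw [hWl]
        have h4 := (hXl h2).1
        rw [bas_io] at h4
        exact h4
      exact ⟨h3, by rw [hA, mem_filter]; exact ⟨mem_univ _, d, rfl, h2⟩⟩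
    · rintro ⟨h3, h4⟩
      rw [hA, mem_filter] at h4
      obtain ⟨_, d', h5, h6⟩ := h4
      have h7 := (S.wd_eq d' d).1 h5
      exact mem_of_same (s := S.r) (Z := {d | R.io d ∈ X}) (fun e he => (hX0 e).2 he) h6 h7
  have hAY : ∀ d, R.io d ∈ C \ X ↔ S.wd d ∈ cA S (S.cl (u / ψ) c l) Aᶜ := by
    intro d
    rw [cA_compl, Finset.mem_sdiff, hWl]
    constructor
    · rintro ⟨⟨h2, _⟩, h3⟩
      rw [bas_io] at h2
      exact ⟨h2, fun h4 => h3 ((hAX d).2 h4)⟩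
    · rintro ⟨h2, h3⟩
      refine ⟨⟨?_, io_live R hE' ρ' hS d⟩, fun h4 => h3 ((hAX d).1 h4)⟩
      rw [bas_io]
      exact h2
  have hbd : (T.bd (C \ X)).ncard = (T.bd X).ncard := by
    have h2 : T.bd (C \ X) = T.a '' T.bd X := by
      ext t
      constructor
      · rintro ⟨h3, h4⟩
        refine ⟨T.a t, ⟨?_, ?_⟩, T.aa t⟩
        · by_contra h5
          exact h4 ⟨hCa t h3.1, h5⟩
        · rw [T.aa]
          exact h3.2
      · rintro ⟨s, ⟨h3, h4⟩, rfl⟩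
        refine ⟨⟨hCa s (hXl h3), h4⟩, ?_⟩
        rw [T.aa]
        exact fun h5 => h5.2 h3
    rw [h2, Set.ncard_image_of_injective _ T.a.injective]
  have hE := hPc.hE A
  rcases le_total ((S.gr (S.cl (u / ψ) c l)).nuP (fun x => S.pw x.1) u κ A)
    ((S.gr (S.cl (u / ψ) c l)).nuP (fun x => S.pw x.1) u κ Aᶜ) with h2 | h2
  · rw [min_eq_left h2] at hE
    have h3 := cc_side S hS hD h0 h1 ρ hρ R hE' ρ' hF b n hb hn hgap l X hX hXlive _ hWm A hAX hE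
    exact le_trans (mul_le_mul_of_nonneg_left (min_le_left _ _) h0.le) h3
  · rw [min_eq_right h2] at hE
    rw [← WG.cut_compl] at hE
    have h3 := cc_side S hS hD h0 h1 ρ hρ R hE' ρ' hF b n hb hn hgap l (C \ X) hYr hYlive _ hWm Aᶜ hAY hE
    rw [hbd] at h3
    exact le_trans (mul_le_mul_of_nonneg_left (min_le_right _ _) h0.le) h3

end Pool.Agent.GW
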