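import Pool.Agent.GW.Balls

/-!
# GW.Ldd: low diameter decomposition

PROOF.  Strong induction on `S ⊆ U` (statement with `S` instead of `U` for the partition and the balls inside `S`).  Take `x ∈ S`, balls
`B r = EB S m {x} r`, `W r = ∑_{s<r} ∑_{shell s} p`.  If `ee (B r) (S \ B r) > ε (W r + v0)` for all `r < R` then
`W (r+1) + v0 > (1 + ε)(W r + v0)`, so `W R + v0 > (1+ε)^R v0`, contradiction with `W R ≤ ∑_{S} p m` (`sum_shell`) and `hR`.  Take such an `r`,
make `B r` a class with label `x` (`x ∈ B r ⊆ EB U m {x} R` by `EB_mono`, `EB_mono_U`), its cost is `≤ ε (∑_{B r} p m + v0)`, continue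
with `S \ B r`.  The cost of the whole partition is counted twice (ordered pairs).
-/

set_option autoImplicit false

namespace Pool.Agent.GW

open Finset

namespace WG

variable {V : Type} [Fintype V] [DecidableEq V] (G : WG V)

/-- a ball whose boundary is small against the swept weight. -/
theorem ldd_ball (S : Finset V) (m p : V → ℕ) (hp : ∀ x, G.om x ≤ p x) {ε v0 : ℝ} (hε : 0 < ε) (hv0 : 0 < v0) {R : ℕ}
    (hR : ∑ x ∈ S, (p x : ℝ) * m x + v0 < (1 + ε) ^ R * v0) (A : Finset V) :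
    ∃ r < R, G.ee (G.EB S m A r) (S \ G.EB S m A r) ≤ ε * (∑ x ∈ G.EB S m A r, (p x : ℝ) * m x + v0) := by
  by_contra hcon
  push Not at hcon
  set W : ℕ → ℝ := fun r => ∑ s ∈ range r, ∑ x ∈ G.shell S m A s, (p x : ℝ) with hW
  have h1 : ∀ r ≤ R, (1 + ε) ^ r * v0 ≤ W r + v0 := by
    intro r
    induction r with
    | zero =>
      intro _
      simp [hW]
    | succ r ih =>
      intro hr
      have e1 : W (r + 1) = W r + ∑ x ∈ G.shell S m A r, (p x : ℝ) := sum_range_succ _ _
      have e2 := ih (by omega)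
      have e3 := hcon r (by omega)
      have e4 := G.cut_shell S m A r p hp
      have e5 : W r ≤ ∑ x ∈ G.EB S m A r, (p x : ℝ) * m x := G.sum_shell S m A r p
      have e6 : ε * (W r + v0) ≤ ε * (∑ x ∈ G.EB S m A r, (p x : ℝ) * m x + v0) :=
        mul_le_mul_of_nonneg_left (by linarith) hε.le
      rw [e1, pow_succ]
      calc (1 + ε) ^ r * (1 + ε) * v0 = (1 + ε) * ((1 + ε) ^ r * v0) := by ring
        _ ≤ (1 + ε) * (W r + v0) := mul_le_mul_of_nonneg_left e2 (by linarith)
        _ = W r + v0 + ε * (W r + v0) := by ring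
        _ ≤ _ := by linarith
  have h2 := h1 R le_rfl
  have h3 : W R ≤ ∑ x ∈ S, (p x : ℝ) * m x := by
    refine (G.sum_shell S m A R p).trans ?_
    exact sum_le_sum_of_subset_of_nonneg (G.EB_sub S m A R) fun x _ _ => by positivity
  linarith

theorem ldd_aux (m p : V → ℕ) (hp : ∀ x, G.om x ≤ p x) {ε v0 : ℝ} (hε : 0 < ε) (hv0 : 0 < v0) {R : ℕ} :
    ∀ (n : ℕ) (S : Finset V), S.card = n → ∑ x ∈ S, (p x : ℝ) * m x + v0 < (1 + ε) ^ R * v0 →
    ∃ c : V → V, (∀ x ∈ S, c x ∈ S ∧ c (c x) = c x ∧ x ∈ G.EB S m {c x} R) ∧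
      ∑ x ∈ S, ∑ y ∈ S.filter (fun y => c y ≠ c x), G.w x y ≤ 2 * ε * (∑ x ∈ S, (p x : ℝ) * m x + v0 * S.card) := by
  intro n
  induction n using Nat.strong_induction_on with
  | _ n ih =>
    intro S hn hR
    rcases S.eq_empty_or_nonempty with rfl | ⟨x0, hx0⟩
    · exact ⟨id, by simp, by simp⟩
    · obtain ⟨r, hr, hcut⟩ := G.ldd_ball S m p hp hε hv0 hR {x0}
      set B := G.EB S m {x0} r with hB
      have hBS : B ⊆ S := G.EB_sub S m {x0} r
      have hx0B : x0 ∈ B := G.sub_EB S m {x0} r (by simp [hx0])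
      have hcard : (S \ B).card + 1 ≤ S.card := by
        have : (S \ B).card < S.card := by
          refine card_lt_card ⟨sdiff_subset, fun h => ?_⟩
          exact (mem_sdiff.1 (h hx0)).2 hx0B
        omega
      have hsub : ∑ x ∈ S \ B, (p x : ℝ) * m x + ∑ x ∈ B, (p x : ℝ) * m x = ∑ x ∈ S, (p x : ℝ) * m x :=
        sum_sdiff hBS
      have hBnn : 0 ≤ ∑ x ∈ B, (p x : ℝ) * m x := sum_nonneg fun x _ => by positivity
      obtain ⟨c, hc1, hc2⟩ := ih (S \ B).card (by omega) (S \ B) rfl (by linarith)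
      have hcB : ∀ x ∈ S \ B, c x ∉ B := fun x hx => (mem_sdiff.1 (hc1 x hx).1).2
      refine ⟨fun x => if x ∈ B then x0 else c x, ?_, ?_⟩
      · intro x hx
        by_cases hxB : x ∈ B
        · simp only [hxB, if_true, hx0B]
          exact ⟨hx0, trivial, G.EB_mono S m {x0} hr.le hxB⟩
        · have hxS : x ∈ S \ B := mem_sdiff.2 ⟨hx, hxB⟩
          obtain ⟨h1, h2, h3⟩ := hc1 x hxS
          simp only [hxB, if_false, hcB x hxS]
          exact ⟨(mem_sdiff.1 h1).1, h2, G.EB_mono_U sdiff_subset m _ R h3⟩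
      · have key : ∑ x ∈ S, ∑ y ∈ S.filter (fun y => (if y ∈ B then x0 else c y) ≠ (if x ∈ B then x0 else c x)), G.w x y ≤
            G.ee B (S \ B) + (G.ee (S \ B) B + ∑ x ∈ S \ B, ∑ y ∈ (S \ B).filter (fun y => c y ≠ c x), G.w x y) := by
          rw [← sum_sdiff hBS, add_comm]
          refine add_le_add ?_ ?_
          · refine sum_le_sum fun x hx => ?_
            refine sum_le_sum_of_subset_of_nonneg ?_ fun y _ _ => G.nonneg x y
            intro y hy
            obtain ⟨h1, h2⟩ := mem_filter.1 hy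
            refine mem_sdiff.2 ⟨h1, fun h3 => h2 ?_⟩
            simp [hx, h3]
          · rw [ee, ← sum_add_distrib]
            refine sum_le_sum fun x hx => ?_
            have hdis : Disjoint B ((S \ B).filter (fun y => c y ≠ c x)) :=
              disjoint_left.2 fun y h1 h2 => (mem_sdiff.1 (mem_filter.1 h2).1).2 h1
            rw [← sum_union hdis]
            refine sum_le_sum_of_subset_of_nonneg ?_ fun y _ _ => G.nonneg x y
            intro y hy
            obtain ⟨h1, h2⟩ := mem_filter.1 hy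
            rw [mem_union]
            by_cases h3 : y ∈ B
            · exact Or.inl h3
            · right
              rw [if_neg h3, if_neg (mem_sdiff.1 hx).2] at h2
              exact mem_filter.2 ⟨mem_sdiff.2 ⟨h1, h3⟩, h2⟩
        refine key.trans ?_
        rw [G.ee_comm (S \ B) B]
        have e1 : ((S \ B).card : ℝ) + 1 ≤ S.card := by exact_mod_cast hcard
        have e2 : v0 * ((S \ B).card + 1) ≤ v0 * S.card := mul_le_mul_of_nonneg_left e1 hv0.le
        have e3 : 2 * ε * (∑ x ∈ B, (p x : ℝ) * m x + v0 + (∑ x ∈ S \ B, (p x : ℝ) * m x + v0 * (S \ B).card)) ≤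
            2 * ε * (∑ x ∈ S, (p x : ℝ) * m x + v0 * S.card) := by
          refine mul_le_mul_of_nonneg_left ?_ (by linarith)
          linarith
        linarith

theorem ldd (U : Finset V) (m p : V → ℕ) (hp : ∀ x, G.om x ≤ p x) {ε v0 : ℝ} (hε : 0 < ε) (hv0 : 0 < v0) {R : ℕ}
    (hR : ∑ x ∈ U, (p x : ℝ) * m x + v0 < (1 + ε) ^ R * v0) :
    ∃ c : V → V, (∀ x ∈ U, c x ∈ U ∧ c (c x) = c x ∧ x ∈ G.EB U m {c x} R) ∧
      ∑ x ∈ U, ∑ y ∈ U.filter (fun y => c y ≠ c x), G.w x y ≤ 2 * ε * (∑ x ∈ U, (p x : ℝ) * m x + v0 * U.card) :=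
  G.ldd_aux m p hp hε hv0 U.card U rfl hR

end WG

end Pool.Agent.GW
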