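import Pool.Agent.GW.Pc
import Pool.Agent.GW.Ldd

/-!
# GW.Core: a ball with more than half of the measure

`m x = p x + y x`, `U` = vertices of cost `≤ 2 u / ψ`.

PROOF.  Vertices `x ∉ U` have `y x > u/ψ ≥ p x`, so `∑_{x ∉ U} p x ≤ (ψ/u) Y ≤ ψ ν / 100` where `Y = ∑ p y`, `ν = nuP univ`, and
`nuP (Uᶜ) ≤ (3/ψ) ∑_{x ∉ U} p x ≤ 3 ν / 100` (`p^2/u ≤ p/ψ`, `κ ≤ 1/ψ`).  `ldd` with `v0 = u`, `ε = ψ/(20 u)`:
`∑_U p m ≤ u ν + Y`, `|U| ≤ ν`, `(1+ε)^R ≥ exp (ε R / 2) > 2 N + 2` for `R ≥ 200 (u/ψ) log N`.  Suppose every ball has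
`nuP ≤ ν/2`.  Then every class has `nuP ≤ ν/2`; the classes together have `nuP ≥ 0.97 ν`; so some union `X` of classes has
`ν/4 ≤ nuP X ≤ ν/2` and `ψ ν/4 ≤ cut X ≤ ee X (U \ X) + ∑_{x ∉ U} p x ≤ ε (u ν + Y + u ν) + ψ ν/100`: contradiction.
-/

set_option autoImplicit false

namespace Pool.Agent.GW

open Finset

namespace WG

variable {V : Type} [Fintype V] [DecidableEq V] (G : WG V)

/-- the set of the vertices of moderate cost. -/
theorem sum_out_le {p : V → ℕ} {ψ u κ : ℝ} (hP : G.Pc p ψ u κ) (y : V → ℕ) :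
    ∑ x ∈ (univ.filter (fun x => (p x : ℝ) + y x ≤ 2 * u / ψ))ᶜ, (p x : ℝ) ≤ ψ / u * ∑ x, (p x : ℝ) * y x := by
  have hu : 0 < u := by linarith [hP.hu]
  have hψ := hP.h0
  have h1 : ∑ x ∈ (univ.filter (fun x => (p x : ℝ) + y x ≤ 2 * u / ψ))ᶜ, (p x : ℝ) ≤
      ∑ x ∈ (univ.filter (fun x => (p x : ℝ) + y x ≤ 2 * u / ψ))ᶜ, ψ / u * ((p x : ℝ) * y x) := by
    refine sum_le_sum fun x hx => ?_
    rw [mem_compl, mem_filter] at hx
    have h2 : 2 * u / ψ < (p x : ℝ) + y x := by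
      by_contra h
      exact hx ⟨mem_univ x, not_lt.1 h⟩
    have h3 := hP.hpu x
    have h4 : 2 * u / ψ = u / ψ + u / ψ := by ring
    have h5 : u / ψ ≤ y x := by linarith
    have h6 : 1 ≤ ψ / u * (y x : ℝ) := by
      have : ψ / u * (u / ψ) = 1 := by field_simp
      calc (1 : ℝ) = ψ / u * (u / ψ) := this.symm
        _ ≤ ψ / u * (y x : ℝ) := mul_le_mul_of_nonneg_left h5 (by positivity)
    have h7 : (0 : ℝ) ≤ p x := Nat.cast_nonneg _
    nlinarith
  refine h1.trans ?_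
  rw [← mul_sum]
  refine mul_le_mul_of_nonneg_left ?_ (by positivity)
  exact sum_le_sum_of_subset_of_nonneg (subset_univ _) fun x _ _ => by positivity

theorem nuP_le_sum {p : V → ℕ} {ψ u κ : ℝ} (hP : G.Pc p ψ u κ) (X : Finset V) :
    G.nuP p u κ X ≤ 3 / ψ * ∑ x ∈ X, (p x : ℝ) := by
  have hu : 0 < u := by linarith [hP.hu]
  have hψ := hP.h0
  have hψ1 := hP.h1
  have h1 : (1 : ℝ) ≤ 1 / ψ := by
    rw [le_div_iff₀ hψ]
    linarith
  unfold nuP
  rw [mul_sum]
  refine sum_le_sum fun x _ => ?_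
  have hp0 : (0 : ℝ) ≤ p x := Nat.cast_nonneg _
  have h2 : (p x : ℝ) ≤ 1 / ψ * p x := by
    have := mul_le_mul_of_nonneg_right h1 hp0
    linarith
  have h3 : (p x : ℝ) ^ 2 / u ≤ 1 / ψ * p x := by
    rw [div_le_iff₀ hu]
    have h4 := mul_le_mul_of_nonneg_left (hP.hpu x) hp0
    calc (p x : ℝ) ^ 2 = p x * p x := by ring
      _ ≤ p x * (u / ψ) := h4
      _ = 1 / ψ * p x * u := by ring
  have h4 : κ * ((p x : ℝ) - G.om x) ≤ 1 / ψ * p x := by
    have h5 : κ ≤ 1 / ψ := by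
      rw [le_div_iff₀ hψ]
      exact hP.hκ1
    have h6 := G.om_nonneg x
    have h7 := hP.hp x
    calc κ * ((p x : ℝ) - G.om x) ≤ κ * p x := mul_le_mul_of_nonneg_left (by linarith) hP.hκ.le
      _ ≤ 1 / ψ * p x := mul_le_mul_of_nonneg_right h5 hp0
  have h5 : 3 / ψ * (p x : ℝ) = 1 / ψ * p x + 1 / ψ * p x + 1 / ψ * p x := by ring
  linarith

theorem sum_sq_le {p : V → ℕ} {ψ u κ : ℝ} (hP : G.Pc p ψ u κ) (X : Finset V) :
    ∑ x ∈ X, (p x : ℝ) ^ 2 ≤ u * G.nuP p u κ X := by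
  have hu : 0 < u := by linarith [hP.hu]
  unfold nuP
  rw [mul_sum]
  refine sum_le_sum fun x _ => ?_
  have h2 : 0 ≤ (p x : ℝ) - G.om x := by linarith [hP.hp x]
  have h3 := mul_nonneg hP.hκ.le h2
  have hp0 : (0 : ℝ) ≤ p x := Nat.cast_nonneg _
  have h4 : u * ((p x : ℝ) ^ 2 / u) = (p x : ℝ) ^ 2 := by field_simp
  nlinarith [mul_nonneg hu.le h3, mul_nonneg hu.le hp0]

theorem sum_p_le {p : V → ℕ} {ψ u κ : ℝ} (hP : G.Pc p ψ u κ) (X : Finset V) :
    ∑ x ∈ X, (p x : ℝ) ≤ G.nuP p u κ X := by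
  have hu : 0 < u := by linarith [hP.hu]
  unfold nuP
  refine sum_le_sum fun x _ => ?_
  have h2 : 0 ≤ (p x : ℝ) - G.om x := by linarith [hP.hp x]
  have h3 := mul_nonneg hP.hκ.le h2
  have hp0 : (0 : ℝ) ≤ (p x : ℝ) ^ 2 / u := by positivity
  linarith

theorem card_le_nuP {p : V → ℕ} {ψ u κ : ℝ} (hP : G.Pc p ψ u κ) (X : Finset V) :
    (X.card : ℝ) ≤ G.nuP p u κ X := by
  refine le_trans ?_ (G.sum_p_le hP X)
  rw [card_eq_sum_ones]
  push_cast
  exact sum_le_sum fun x _ => by exact_mod_cast hP.hp1 x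

/-- weight between a set and the vertices outside `U`. -/
theorem ee_out_le {p : V → ℕ} {ψ u κ : ℝ} (hP : G.Pc p ψ u κ) (X Y : Finset V) :
    G.ee X Y ≤ ∑ x ∈ Y, (p x : ℝ) := by
  rw [G.ee_comm]
  refine (G.ee_le_vol Y X).trans ?_
  exact sum_le_sum fun x _ => hP.hp x

theorem exp_half_le {ε : ℝ} (h0 : 0 ≤ ε) (h1 : ε ≤ 1) : Real.exp (ε / 2) ≤ 1 + ε := by
  have e1 := Real.one_sub_le_exp_neg (ε / 2)
  rw [Real.exp_neg] at e1
  have hp := Real.exp_pos (ε / 2)
  have e2 : Real.exp (ε / 2) * (1 - ε / 2) ≤ 1 := by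
    calc Real.exp (ε / 2) * (1 - ε / 2) ≤ Real.exp (ε / 2) * (Real.exp (ε / 2))⁻¹ :=
        mul_le_mul_of_nonneg_left e1 hp.le
      _ = 1 := mul_inv_cancel₀ hp.ne'
  have e3 : 1 ≤ (1 + ε) * (1 - ε / 2) := by nlinarith
  have e4 : 0 < 1 - ε / 2 := by linarith
  exact le_of_mul_le_mul_right (e2.trans e3) e4

theorem core [Nonempty V] {p : V → ℕ} {ψ u κ N : ℝ} (hP : G.Pc p ψ u κ) (hN : G.nuP p u κ univ ≤ N) (hN2 : 2 ≤ N)
    (y : V → ℕ) (hY : ∑ x, (p x : ℝ) * y x ≤ u * G.nuP p u κ univ / 100) {R : ℕ}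
    (hR : 200 * (u / ψ) * Real.log N ≤ R) :
    ∃ x0, x0 ∈ univ.filter (fun x => (p x : ℝ) + y x ≤ 2 * u / ψ) ∧
      G.nuP p u κ univ < 2 * G.nuP p u κ
        (G.EB (univ.filter fun x => (p x : ℝ) + y x ≤ 2 * u / ψ) (fun x => p x + y x) {x0} R) := by
  have hu1 := hP.hu
  have hu : 0 < u := by linarith
  have hψ := hP.h0
  have hψ1 := hP.h1
  set U : Finset V := univ.filter (fun x => (p x : ℝ) + y x ≤ 2 * u / ψ) with hU
  set ν := G.nuP p u κ univ with hν
  set Y := ∑ x, (p x : ℝ) * y x with hYdef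
  have hν0 : 0 < ν := by
    have h1 := G.card_le_nuP hP univ
    have h2 : (0 : ℝ) < (univ : Finset V).card := by exact_mod_cast card_pos.2 univ_nonempty
    linarith
  have hout : ∑ x ∈ Uᶜ, (p x : ℝ) ≤ ψ * ν / 100 := by
    refine (G.sum_out_le hP y).trans ?_
    calc ψ / u * Y ≤ ψ / u * (u * ν / 100) := mul_le_mul_of_nonneg_left hY (by positivity)
      _ = ψ * ν / 100 := by field_simp
  have hnout : G.nuP p u κ Uᶜ ≤ 3 * ν / 100 := by
    refine (G.nuP_le_sum hP _).trans ?_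
    calc 3 / ψ * ∑ x ∈ Uᶜ, (p x : ℝ) ≤ 3 / ψ * (ψ * ν / 100) := mul_le_mul_of_nonneg_left hout (by positivity)
      _ = 3 * ν / 100 := by field_simp
  have hUn := G.nuP_add_compl p u κ U
  by_contra hcon
  push Not at hcon
  -- the decomposition
  set ε : ℝ := ψ / (20 * u) with hε
  have hε0 : 0 < ε := by positivity
  have hε1 : ε ≤ 1 := by
    rw [hε, div_le_one (by positivity)]
    linarith
  have hpm : ∑ x ∈ U, (p x : ℝ) * ((p x + y x : ℕ) : ℝ) ≤ u * ν + u * ν / 100 := by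
    have e1 : ∑ x ∈ U, (p x : ℝ) * ((p x + y x : ℕ) : ℝ) = ∑ x ∈ U, (p x : ℝ) ^ 2 + ∑ x ∈ U, (p x : ℝ) * y x := by
      rw [← sum_add_distrib]
      refine sum_congr rfl fun x _ => ?_
      push_cast
      ring
    have e2 : ∑ x ∈ U, (p x : ℝ) * y x ≤ Y :=
      sum_le_sum_of_subset_of_nonneg (subset_univ _) fun x _ _ => by positivity
    have e3 := G.sum_sq_le hP U
    have e4 := mul_le_mul_of_nonneg_left (G.nuP_mono hP (subset_univ U)) hu.le
    rw [e1]
    linarith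
  have hpow : 16 * N ≤ (1 + ε) ^ R := by
    have e1 : Real.exp (ε / 2) ^ R ≤ (1 + ε) ^ R := pow_le_pow_left₀ (Real.exp_pos _).le (exp_half_le hε0.le hε1) _
    refine le_trans ?_ e1
    rw [← Real.exp_nat_mul]
    have hlog : 0 < Real.log N := Real.log_pos (by linarith)
    have e2 : 5 * Real.log N ≤ R * (ε / 2) := by
      have e3 : 200 * (u / ψ) * Real.log N * (ε / 2) ≤ R * (ε / 2) := mul_le_mul_of_nonneg_right hR (by positivity)
      have e4 : 200 * (u / ψ) * Real.log N * (ε / 2) = 5 * Real.log N := by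
        rw [hε]
        field_simp
        ring
      linarith
    have e3 : Real.exp (5 * Real.log N) ≤ Real.exp (R * (ε / 2)) := Real.exp_le_exp.2 e2
    refine le_trans ?_ e3
    have e4 : Real.exp (5 * Real.log N) = N ^ 5 := by
      rw [show (5 : ℝ) * Real.log N = ((5 : ℕ) : ℝ) * Real.log N by norm_num, Real.exp_nat_mul, Real.exp_log (by linarith)]
    rw [e4]
    have e5 : (2 : ℝ) ^ 4 ≤ N ^ 4 := pow_le_pow_left₀ (by norm_num) hN2 4
    calc 16 * N = 2 ^ 4 * N := by norm_num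
      _ ≤ N ^ 4 * N := mul_le_mul_of_nonneg_right e5 (by linarith)
      _ = N ^ 5 := by ring
  obtain ⟨c, hc1, hc2⟩ := G.ldd U (fun x => p x + y x) p hP.hp hε0 hu (R := R) (by
    have e1 : 16 * N * u ≤ (1 + ε) ^ R * u := mul_le_mul_of_nonneg_right hpow hu.le
    have e2 : u * ν ≤ u * N := mul_le_mul_of_nonneg_left hN hu.le
    have e3 : u * 2 ≤ u * N := mul_le_mul_of_nonneg_left hN2 hu.le
    have e4 : (∑ x ∈ U, (p x : ℝ) * ((fun x => p x + y x) x : ℕ)) = ∑ x ∈ U, (p x : ℝ) * ((p x + y x : ℕ) : ℝ) := rfl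
    rw [e4]
    have e5 : 0 < u * N := by positivity
    linarith)
  -- the family of unions of classes
  set f : Finset V → ℝ := fun T => G.nuP p u κ (U.filter fun x => c x ∈ T) with hf
  have hfadd : ∀ T : Finset V, ∀ z ∉ T, f (insert z T) = f T + f {z} := by
    intro T z hz
    simp only [hf]
    have e1 : U.filter (fun x => c x ∈ insert z T) = (U.filter fun x => c x ∈ T) ∪ (U.filter fun x => c x ∈ ({z} : Finset V)) := by
      ext x
      simp only [mem_filter, mem_union, mem_insert, mem_singleton]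
      tauto
    rw [e1]
    unfold nuP
    rw [sum_union]
    rw [disjoint_left]
    intro x h1 h2
    rw [mem_filter] at h1 h2
    have := mem_singleton.1 h2.2
    exact hz (this ▸ h1.2)
  have hfnn : ∀ T, 0 ≤ f T := fun T => G.nuP_nonneg hP _
  have hfz : ∀ z, f {z} ≤ ν / 2 := by
    intro z
    by_cases hne : (U.filter fun x => c x ∈ ({z} : Finset V)).Nonempty
    · obtain ⟨x, hx⟩ := hne
      obtain ⟨hxU, hxz⟩ := mem_filter.1 hx
      have hxz' := mem_singleton.1 hxz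
      have hzU : z ∈ U := hxz' ▸ (hc1 x hxU).1
      have h1 := hcon z hzU
      have h2 : G.nuP p u κ (U.filter fun x => c x ∈ ({z} : Finset V)) ≤ G.nuP p u κ (G.EB U (fun x => p x + y x) {z} R) := by
        refine G.nuP_mono hP fun a ha => ?_
        obtain ⟨haU, haz⟩ := mem_filter.1 ha
        have haz' := mem_singleton.1 haz
        have := (hc1 a haU).2.2
        rwa [haz'] at this
      simp only [hf]
      linarith
    · rw [not_nonempty_iff_eq_empty] at hne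
      simp only [hf, hne]
      have : G.nuP p u κ ∅ = 0 := sum_empty
      rw [this]
      linarith
  have hfall : f univ = G.nuP p u κ U := by
    simp only [hf]
    congr 1
    ext x
    simp
  obtain ⟨T, hT, hTmax⟩ : ∃ T ∈ (univ : Finset (Finset V)).filter (fun T => f T ≤ ν / 2),
      ∀ T' ∈ (univ : Finset (Finset V)).filter (fun T => f T ≤ ν / 2), f T' ≤ f T := by
    refine exists_max_image _ f ⟨∅, mem_filter.2 ⟨mem_univ _, ?_⟩⟩
    have : f ∅ = 0 := by
      simp [hf, nuP]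
    rw [this]
    linarith
  have hT1 : f T ≤ ν / 2 := (mem_filter.1 hT).2
  have hT2 : ν / 4 ≤ f T := by
    by_contra h4
    push Not at h4
    have h5 : ∃ z ∉ T, 0 < f {z} := by
      by_contra h6
      push Not at h6
      have h7 : ∀ S : Finset V, f (T ∪ S) ≤ f T := by
        intro S
        induction S using Finset.induction_on with
        | empty => simp
        | insert a S _ ih =>
          rw [union_insert]
          by_cases haTS : a ∈ T ∪ S
          · rw [insert_eq_self.2 haTS]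
            exact ih
          · rw [hfadd _ _ haTS]
            have := h6 a (fun h => haTS (mem_union_left _ h))
            linarith
      have h8 := h7 univ
      have h9 : T ∪ univ = univ := by
        ext
        simp
      rw [h9, hfall] at h8
      linarith
    obtain ⟨z, hz, hz0⟩ := h5
    have h6 : ν / 2 < f (insert z T) := by
      by_contra h7
      have h8 := hTmax (insert z T) (mem_filter.2 ⟨mem_univ _, not_lt.1 h7⟩)
      rw [hfadd T z hz] at h8
      linarith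
    have h7 := hTmax {z} (mem_filter.2 ⟨mem_univ _, hfz z⟩)
    rw [hfadd T z hz] at h6
    linarith
  set X := U.filter fun x => c x ∈ T with hX
  have hX1 : G.nuP p u κ X ≤ ν / 2 := hT1
  have hX2 : ν / 4 ≤ G.nuP p u κ X := hT2
  have hXc := G.nuP_add_compl p u κ X
  have hE := hP.hE X
  have hmin : G.nuP p u κ X ≤ min (G.nuP p u κ X) (G.nuP p u κ Xᶜ) := by
    refine le_min le_rfl ?_
    linarith
  have h1 : ψ * (ν / 4) ≤ G.cut X := by
    refine le_trans ?_ hE
    exact mul_le_mul_of_nonneg_left (hX2.trans hmin) hψ.le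
  have hcut : G.cut X = G.ee X (U \ X) + G.ee X Uᶜ := by
    unfold cut ee
    rw [← sum_add_distrib]
    refine sum_congr rfl fun x hx => ?_
    rw [← sum_union]
    · refine sum_congr ?_ fun _ _ => rfl
      ext a
      have hXU : X ⊆ U := filter_subset _ _
      simp only [mem_compl, mem_union, mem_sdiff]
      constructor
      · intro h
        by_cases haU : a ∈ U
        · exact Or.inl ⟨haU, h⟩
        · exact Or.inr haU
      · rintro (h | h)
        · exact h.2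
        · exact fun h' => h (hXU h')
    · rw [disjoint_left]
      intro a h1 h2
      exact (mem_compl.1 h2) (mem_sdiff.1 h1).1
  have h2 : G.ee X Uᶜ ≤ ψ * ν / 100 := (G.ee_out_le hP X Uᶜ).trans hout
  have h3 : G.ee X (U \ X) ≤ ∑ x ∈ U, ∑ y ∈ U.filter (fun y => c y ≠ c x), G.w x y := by
    unfold ee
    refine le_trans (sum_le_sum fun x hx => ?_) (sum_le_sum_of_subset_of_nonneg (filter_subset _ U)
      fun x _ _ => sum_nonneg fun y _ => G.nonneg x y)
    refine sum_le_sum_of_subset_of_nonneg ?_ fun y _ _ => G.nonneg x y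
    intro y hy
    obtain ⟨h4, h5⟩ := mem_sdiff.1 hy
    refine mem_filter.2 ⟨h4, fun h6 => h5 (mem_filter.2 ⟨h4, ?_⟩)⟩
    rw [h6]
    exact (mem_filter.1 hx).2
  have h4 : 2 * ε * (∑ x ∈ U, (p x : ℝ) * ((fun x => p x + y x) x : ℕ) + u * U.card) ≤ 201 / 1000 * (ψ * ν) := by
    have e1 : (U.card : ℝ) ≤ ν := (G.card_le_nuP hP U).trans (G.nuP_mono hP (subset_univ U))
    have e2 : u * U.card ≤ u * ν := mul_le_mul_of_nonneg_left e1 hu.le
    have e3 : ∑ x ∈ U, (p x : ℝ) * ((fun x => p x + y x) x : ℕ) + u * U.card ≤ 201 / 100 * (u * ν) := by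
      have e4 : (∑ x ∈ U, (p x : ℝ) * ((fun x => p x + y x) x : ℕ)) = ∑ x ∈ U, (p x : ℝ) * ((p x + y x : ℕ) : ℝ) := rfl
      rw [e4]
      linarith
    calc 2 * ε * (∑ x ∈ U, (p x : ℝ) * ((fun x => p x + y x) x : ℕ) + u * U.card) ≤ 2 * ε * (201 / 100 * (u * ν)) :=
        mul_le_mul_of_nonneg_left e3 (by positivity)
      _ = 201 / 1000 * (ψ * ν) := by
        rw [hε]
        field_simp
        ring
  have h5 : 0 < ψ * ν := mul_pos hψ hν0
  rw [hcut] at h1
  linarith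

end WG

end Pool.Agent.GW
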