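import Pool.Agent.GW.Cnd
import Pool.Agent.GW.Union

/-!
# GW/Parts (helper73): parts of a state which are unions of words and closed under the partner map

`part S A`: the state on the letters of `A`. `U_parts`: a state can be swept if all parts of a labelling can be swept;
`U_parts_live`: the same, dead letters are dropped.
-/

set_option autoImplicit false

namespace Pool.Agent.GW

open Equiv Pool.Agent.SWP

namespace Sf

/-- the state on the letters of `A` -/
noncomputable def part (S : Sf) (A : Set S.D) (hr : S.Inv A) (ha : ∀ d, S.a d ∈ A ↔ d ∈ A) : Sf where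
  D := {d // d ∈ A}
  fD := Fintype.ofFinite _
  r := S.r.subtypePerm hr
  a := S.a.subtypePerm ha
  aa := fun d => Subtype.ext (S.aa d)

theorem part_sub (S : Sf) (A : Set S.D) (hr : S.Inv A) (ha : ∀ d, S.a d ∈ A ↔ d ∈ A) :
    Sub (S.part A hr ha) S Subtype.val :=
  ⟨Subtype.val_injective, fun _ => rfl, fun _ => rfl⟩

theorem part_card (S : Sf) (A : Set S.D) (hr : S.Inv A) (ha : ∀ d, S.a d ∈ A ↔ d ∈ A) :
    (S.part A hr ha).card = A.ncard := by
  unfold card
  rw [← Nat.card_eq_fintype_card]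
  rfl

theorem part_len (S : Sf) (A : Set S.D) (hr : S.Inv A) (ha : ∀ d, S.a d ∈ A ↔ d ∈ A) (d : (S.part A hr ha).D) :
    (S.part A hr ha).len d = S.len d.1 := ((S.part_sub A hr ha).len d).symm

theorem part_closed (S : Sf) (A : Set S.D) (hr : S.Inv A) (ha : ∀ d, S.a d ∈ A ↔ d ∈ A)
    (h : ∀ d ∈ A, S.a d ≠ d) : (S.part A hr ha).Closed := by
  intro d hd
  exact h d.1 d.2 (congrArg Subtype.val hd)

theorem part_area (S : Sf) (A : Set S.D) (hr : S.Inv A) (ha : ∀ d, S.a d ∈ A ↔ d ∈ A) {g : ℕ}
    (h : ∀ d ∈ A, S.len d ≤ g) : (S.part A hr ha).area ≤ A.ncard * g := by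
  unfold area
  calc ∑ d, (S.part A hr ha).len d ≤ ∑ _d : (S.part A hr ha).D, g := by
        apply Finset.sum_le_sum
        intro d _
        rw [S.part_len]
        exact h d.1 d.2
    _ = A.ncard * g := by
        rw [Finset.sum_const, smul_eq_mul, Finset.card_univ]
        congr 1
        exact S.part_card A hr ha

/-- unions of words and boundaries of a part -/
theorem part_cond (S : Sf) (A : Set S.D) (hr : S.Inv A) (ha : ∀ d, S.a d ∈ A ↔ d ∈ A) {ψ : ℝ}
    (h : ∀ X : Set S.D, X ⊆ A → S.Inv X → ψ * min (X.ncard : ℝ) ((A \ X).ncard : ℝ) ≤ ((S.bd X).ncard : ℝ)) :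
    (S.part A hr ha).Cond ψ := by
  intro X hX
  have h1 : S.Inv (Subtype.val '' X) := by
    intro d
    constructor
    · rintro ⟨e, he, h2⟩
      have h3 : S.r d ∈ A := h2 ▸ e.2
      have h4 : d ∈ A := (hr d).1 h3
      refine ⟨⟨d, h4⟩, ?_, rfl⟩
      refine (hX ⟨d, h4⟩).1 ?_
      have h5 : (S.part A hr ha).r ⟨d, h4⟩ = e := Subtype.ext h2.symm
      rw [h5]; exact he
    · rintro ⟨e, he, rfl⟩
      exact ⟨(S.part A hr ha).r e, (hX e).2 he, rfl⟩
  have h2 := h (Subtype.val '' X) (by rintro _ ⟨e, _, rfl⟩; exact e.2) h1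
  have h3 : (Subtype.val '' X : Set S.D).ncard = X.ncard := Set.ncard_image_of_injective _ Subtype.val_injective
  have h4 : (A \ Subtype.val '' X : Set S.D) = Subtype.val '' (Xᶜ : Set {d // d ∈ A}) := by
    ext d
    constructor
    · rintro ⟨h5, h6⟩
      exact ⟨⟨d, h5⟩, fun h7 => h6 ⟨_, h7, rfl⟩, rfl⟩
    · rintro ⟨e, he, rfl⟩
      refine ⟨e.2, ?_⟩
      rintro ⟨e', he', h5⟩
      exact he (by rw [← Subtype.ext h5]; exact he')
  have h5 : (A \ Subtype.val '' X : Set S.D).ncard = (Xᶜ : Set {d // d ∈ A}).ncard := by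
    rw [h4]; exact Set.ncard_image_of_injective _ Subtype.val_injective
  have h6 : (S.bd (Subtype.val '' X)) = Subtype.val '' ((S.part A hr ha).bd X) := by
    ext d
    constructor
    · rintro ⟨⟨e, he, rfl⟩, h7⟩
      exact ⟨e, ⟨he, fun h8 => h7 ⟨_, h8, rfl⟩⟩, rfl⟩
    · rintro ⟨e, ⟨he, h7⟩, rfl⟩
      refine ⟨⟨e, he, rfl⟩, ?_⟩
      rintro ⟨e', he', h8⟩
      apply h7
      have : (S.part A hr ha).a e = e' := Subtype.ext h8.symm
      rw [this]; exact he'
  have h7 : (S.bd (Subtype.val '' X)).ncard = ((S.part A hr ha).bd X).ncard := by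
    rw [h6]; exact Set.ncard_image_of_injective _ Subtype.val_injective
  rw [h3, h5, h7] at h2
  exact h2

end Sf

theorem U_parts {L : ℕ} (S : Sf) {ι : Type} [Finite ι] (f : S.D → ι) (hr : ∀ d, f (S.r d) = f d)
    (ha : ∀ d, f (S.a d) = f d) (hl : ∀ d, S.len d ≤ L)
    (h : ∀ i, U L (S.part {d | f d = i} (fun d => by simp [hr]) (fun d => by simp [ha]))) : U L S := by
  classical
  have : Fintype ι := Fintype.ofFinite ι
  have key : ∀ s : Finset ι, U L (S.part {d | f d ∈ s} (fun d => by simp [hr]) (fun d => by simp [ha])) := by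
    intro s
    induction s using Finset.induction_on with
    | empty =>
      apply U.done
      rintro ⟨d, hd⟩
      simp at hd
    | insert i s hi ih =>
      refine U.split (S := S.part {d | f d = i} (fun d => by simp [hr]) (fun d => by simp [ha]))
        (T := S.part {d | f d ∈ s} (fun d => by simp [hr]) (fun d => by simp [ha]))
        (fun x => ⟨x.1, by
          have h1 : f x.1 = i := x.2
          show f x.1 ∈ insert i s
          rw [h1]; exact Finset.mem_insert_self i s⟩)
        (fun x => ⟨x.1, by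
          have h1 : f x.1 ∈ s := x.2
          exact Finset.mem_insert_of_mem h1⟩) ⟨?_, fun _ => rfl, fun _ => rfl⟩
        ⟨?_, fun _ => rfl, fun _ => rfl⟩ ?_ ?_ (h i) ih ?_
      · intro x y hxy
        exact Subtype.ext (congrArg (fun z : {d // f d ∈ insert i s} => z.1) hxy)
      · intro x y hxy
        exact Subtype.ext (congrArg (fun z : {d // f d ∈ insert i s} => z.1) hxy)
      · intro x y hxy
        have h1 : x.1 = y.1 := congrArg Subtype.val hxy
        have h2 : f x.1 = i := x.2
        have h3 : f y.1 ∈ s := y.2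
        rw [← h1, h2] at h3
        exact hi h3
      · intro d
        have h1 : f d.1 ∈ insert i s := d.2
        rcases Finset.mem_insert.1 h1 with h2 | h2
        · exact Or.inl ⟨⟨d.1, h2⟩, rfl⟩
        · exact Or.inr ⟨⟨d.1, h2⟩, rfl⟩
      · intro d
        rw [S.part_len]
        exact hl d.1
  have h1 := key Finset.univ
  refine U.iso h1 (φ := ⟨fun d => d.1, fun d => ⟨d, by simp⟩, fun d => rfl, fun d => rfl⟩) ⟨fun d => rfl, fun d => rfl⟩

/-- the same, dead letters are dropped -/
theorem U_parts_live {L : ℕ} (S : Sf) {ι : Type} [Finite ι] (f : S.D → ι) (hr : ∀ d, f (S.r d) = f d)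
    (ha : ∀ d, f (S.a d) = f d) (hdead : ∀ d, S.a d = d → S.r d = d) (hl : ∀ d, S.len d ≤ L)
    (hrl : ∀ i, S.Inv {d | f d = i ∧ S.a d ≠ d}) (hal : ∀ i d, S.a d ∈ {d | f d = i ∧ S.a d ≠ d} ↔ d ∈ {d | f d = i ∧ S.a d ≠ d})
    (h : ∀ i, U L (S.part {d | f d = i ∧ S.a d ≠ d} (hrl i) (hal i))) : U L S := by
  classical
  have hlive : ∀ d, S.a (S.r d) = S.r d ↔ S.a d = d := by
    intro d
    constructor
    · intro h1
      have h2 := hdead _ h1
      rw [S.r.injective h2] at h1
      exact h1
    · intro h1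
      rw [hdead d h1]; exact h1
  have hlive2 : ∀ d, S.a (S.a d) = S.a d ↔ S.a d = d := by
    intro d
    rw [S.aa]
    exact eq_comm
  refine U_parts S (fun d => if S.a d = d then none else some (f d)) ?_ ?_ hl ?_
  · intro d
    simp only [hlive, hr]
  · intro d
    simp only [hlive2, ha]
  · rintro (_ | i)
    · apply U.done
      rintro ⟨d, hd⟩
      apply Subtype.ext
      show S.a d = d
      by_contra h1
      simp [h1] at hd
    · have h2 : {d | (if S.a d = d then none else some (f d)) = some i} = {d | f d = i ∧ S.a d ≠ d} := by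
        ext d
        by_cases h1 : S.a d = d <;> simp [h1]
      have h3 := h i
      refine U.iso h3 (φ := ⟨fun d => ⟨d.1, by rw [h2]; exact d.2⟩, fun d => ⟨d.1, by rw [← h2]; exact d.2⟩,
        fun d => rfl, fun d => rfl⟩) ⟨fun d => rfl, fun d => rfl⟩

end Pool.Agent.GW
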