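import Pool.Agent.GW.GenDef
import Pool.Agent.GW.UEmb
import Pool.Agent.GW.Union
import Pool.Agent.GW.Parts
import Pool.Agent.SWP.Ar

/-!
# GW/Gen (helper48): the genus and the moves (MP_37d33d_gt, genus version, note 3943)

Auxiliary part (namespace `GenP`): `cy s` = the cycles of the permutation `s` as an equivalence relation, `ncl` = number of
classes, `ncy s = nc s` = number of cycles (fixed points included); `orb r a` = number of orbits of the group generated by
`r`, `a` = classes of `cy r ⊔ cy a`; `gn r a = 2 orb - (ncy (r * a) + ncy r + ncy a - |D|)`.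
* `ncl_sup_sw` : one more pair; `ncy_join`, `ncy_split` : multiplication by a transposition; `ncy_conj`, `ncy_mul_comm`;
* `gn_nonneg`, `gn_vtx`, `gn_glue`, `gn_dbl`, `gn_sub`, `gn_sum`, `gn_iso`.
Main part: `Sf.gen` (`gen_eq : S.gen = gn S.r S.a`): `gen_iso`, `gen_emb`, `gen_add`, `gen_dbl`, `gen_sub`, `gen_vtx`, `gen_glue`,
`gen_nonneg`, `gen_split`.
-/

set_option autoImplicit false

namespace Pool.Agent.GW.GenP

open Equiv Pool.Agent.SWP

section setoid

variable {D : Type}

/-- the cycles of a permutation -/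
abbrev cy (s : Perm D) : Setoid D := Perm.SameCycle.setoid s

/-- number of classes -/
noncomputable def ncl (s : Setoid D) : ℕ := Nat.card (Quotient s)

/-- number of cycles -/
noncomputable def ncy (s : Perm D) : ℕ := ncl (cy s)

theorem cy_iff {s : Perm D} {x y : D} : (cy s) x y ↔ s.SameCycle x y := Iff.rfl

theorem cy_le [Finite D] {s : Perm D} {t : Setoid D} (h : ∀ d, t d (s d)) : cy s ≤ t := fun x _ hxy =>
  mem_of_same (Z := {e | t x e}) (fun e he => t.trans he (h e)) (t.refl x) hxy

theorem cy_step (s : Perm D) (d : D) : (cy s) d (s d) :=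
  Perm.sameCycle_apply_right.2 (Perm.SameCycle.refl _ _)

theorem cy_mul_le [Finite D] (s t : Perm D) : cy (s * t) ≤ cy s ⊔ cy t := by
  refine cy_le fun d => ?_
  have h1 : (cy s ⊔ cy t) d (t d) := (le_sup_right : cy t ≤ cy s ⊔ cy t) (cy_step t d)
  have h2 : (cy s ⊔ cy t) (t d) (s (t d)) := (le_sup_left : cy s ≤ cy s ⊔ cy t) (cy_step s (t d))
  exact (cy s ⊔ cy t).trans h1 h2

theorem cy_sw (p q : D) : (cy (sw p q)) p q := by
  have := cy_step (sw p q) p
  rwa [sw_left] at this

theorem cy_sw_le [Finite D] {p q : D} {t : Setoid D} (h : t p q) : cy (sw p q) ≤ t := by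
  refine cy_le fun d => ?_
  by_cases h1 : d = p
  · rw [h1, sw_left]; exact h
  by_cases h2 : d = q
  · rw [h2, sw_right]; exact t.symm h
  rw [sw_of_ne h1 h2]

/-- one more pair -/
def mrg (s : Setoid D) (p q : D) : Setoid D where
  r x y := s x y ∨ ((s x p ∨ s x q) ∧ (s y p ∨ s y q))
  iseqv := by
    refine ⟨fun x => Or.inl (s.refl x), ?_, ?_⟩
    · rintro x y (h | h)
      · exact Or.inl (s.symm h)
      · exact Or.inr ⟨h.2, h.1⟩
    · rintro x y z (h | h) (h' | h')
      · exact Or.inl (s.trans h h')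
      · refine Or.inr ⟨?_, h'.2⟩
        rcases h'.1 with h1 | h1
        · exact Or.inl (s.trans h h1)
        · exact Or.inr (s.trans h h1)
      · refine Or.inr ⟨h.1, ?_⟩
        rcases h.2 with h1 | h1
        · exact Or.inl (s.trans (s.symm h') h1)
        · exact Or.inr (s.trans (s.symm h') h1)
      · exact Or.inr ⟨h.1, h'.2⟩

theorem mrg_iff {s : Setoid D} {p q x y : D} : (mrg s p q) x y ↔ s x y ∨ ((s x p ∨ s x q) ∧ (s y p ∨ s y q)) := Iff.rfl

theorem sup_sw [Finite D] (s : Setoid D) (p q : D) : s ⊔ cy (sw p q) = mrg s p q := by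
  apply le_antisymm
  · refine sup_le (fun x y h => Or.inl h) (cy_sw_le ?_)
    exact Or.inr ⟨Or.inl (s.refl p), Or.inr (s.refl q)⟩
  · intro x y h
    have hs : ∀ {x y}, s x y → (s ⊔ cy (sw p q)) x y := fun h => (le_sup_left : s ≤ s ⊔ cy (sw p q)) h
    have hp : (s ⊔ cy (sw p q)) p q := (le_sup_right : cy (sw p q) ≤ s ⊔ cy (sw p q)) (cy_sw p q)
    have hpq : ∀ {z}, (s z p ∨ s z q) → (s ⊔ cy (sw p q)) z p := by
      intro z hz
      rcases hz with hz | hz
      · exact hs hz
      · exact (s ⊔ cy (sw p q)).trans (hs hz) ((s ⊔ cy (sw p q)).symm hp)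
    rcases h with h | ⟨h1, h2⟩
    · exact hs h
    · exact (s ⊔ cy (sw p q)).trans (hpq h1) ((s ⊔ cy (sw p q)).symm (hpq h2))

theorem ncl_mrg [Finite D] {s : Setoid D} {p q : D} (h : ¬ s p q) : ncl s = ncl (mrg s p q) + 1 := by
  classical
  have hf : ∀ x y : D, s x y → (if s x q then none else some (Quotient.mk (mrg s p q) x)) =
      (if s y q then none else some (Quotient.mk (mrg s p q) y)) := by
    intro x y hxy
    by_cases h1 : s x q
    · rw [if_pos h1, if_pos (s.trans (s.symm hxy) h1)]
    · rw [if_neg h1, if_neg fun h2 => h1 (s.trans hxy h2)]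
      exact congrArg some (Quotient.sound (Or.inl hxy))
  set f : Quotient s → Option (Quotient (mrg s p q)) := fun c =>
    Quotient.liftOn c (fun x => if s x q then none else some (Quotient.mk (mrg s p q) x)) hf with hfd
  have hbij : Function.Bijective f := by
    constructor
    · intro c c' hc
      induction c using Quotient.inductionOn with
      | h x =>
        induction c' using Quotient.inductionOn with
        | h y =>
          have hc' : (if s x q then none else some (Quotient.mk (mrg s p q) x)) =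
            (if s y q then none else some (Quotient.mk (mrg s p q) y)) := hc
          by_cases h1 : s x q
          · by_cases h2 : s y q
            · exact Quotient.sound (s.trans h1 (s.symm h2))
            · rw [if_pos h1, if_neg h2] at hc'
              exact absurd hc' (by simp)
          · by_cases h2 : s y q
            · rw [if_neg h1, if_pos h2] at hc'
              exact absurd hc' (by simp)
            · rw [if_neg h1, if_neg h2] at hc'
              have h3 : (mrg s p q) x y := Quotient.exact (Option.some.inj hc')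
              refine Quotient.sound ?_
              rcases h3 with h3 | ⟨h3, h4⟩
              · exact h3
              · exact s.trans (h3.resolve_right h1) (s.symm (h4.resolve_right h2))
    · intro o
      rcases o with _ | c
      · refine ⟨Quotient.mk s q, ?_⟩
        show (if s q q then none else some (Quotient.mk (mrg s p q) q)) = none
        rw [if_pos (s.refl q)]
      · induction c using Quotient.inductionOn with
        | h x =>
          by_cases h1 : s x q
          · refine ⟨Quotient.mk s p, ?_⟩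
            show (if s p q then none else some (Quotient.mk (mrg s p q) p)) = _
            rw [if_neg h]
            exact congrArg some (Quotient.sound (Or.inr ⟨Or.inl (s.refl p), Or.inr h1⟩))
          · refine ⟨Quotient.mk s x, ?_⟩
            show (if s x q then none else some (Quotient.mk (mrg s p q) x)) = _
            rw [if_neg h1]
  unfold ncl
  rw [Nat.card_congr (Equiv.ofBijective f hbij), Finite.card_option]

/-- one more pair, different classes -/
theorem ncl_sup_sw [Finite D] {s : Setoid D} {p q : D} (h : ¬ s p q) : ncl s = ncl (s ⊔ cy (sw p q)) + 1 := by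
  rw [sup_sw]; exact ncl_mrg h

/-- one more pair, the same class -/
theorem sup_sw_same [Finite D] {s : Setoid D} {p q : D} (h : s p q) : s ⊔ cy (sw p q) = s :=
  sup_eq_left.2 (cy_sw_le h)

theorem ncl_le_sup_sw [Finite D] (s : Setoid D) (p q : D) :
    ncl (s ⊔ cy (sw p q)) ≤ ncl s ∧ ncl s ≤ ncl (s ⊔ cy (sw p q)) + 1 := by
  by_cases h : s p q
  · rw [sup_sw_same h]; omega
  · have := ncl_sup_sw h; omega

/-! ### multiplication by a transposition -/

theorem sw_mul_sw (p q : D) (s : Perm D) : sw p q * (sw p q * s) = s := by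
  ext d
  rw [Perm.mul_apply, Perm.mul_apply, sw_sq]

theorem cy_sw_mul [Finite D] (p q : D) (s : Perm D) : cy (sw p q * s) ⊔ cy (sw p q) = cy s ⊔ cy (sw p q) := by
  apply le_antisymm
  · refine sup_le ((cy_mul_le _ _).trans ?_) le_sup_right
    exact sup_le le_sup_right le_sup_left
  · refine sup_le ?_ le_sup_right
    have h1 := cy_mul_le (sw p q) (sw p q * s)
    rw [sw_mul_sw] at h1
    exact h1.trans (sup_le le_sup_right le_sup_left)

/-- letters of different cycles: joined -/
theorem same_join [Finite D] {s : Perm D} {p q : D} (h : ¬ s.SameCycle p q) : (sw p q * s).SameCycle p q := by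
  set t := sw p q * s with ht
  obtain ⟨n, hn, hn1⟩ : ∃ n : ℕ, 0 < n ∧ s ^ n = 1 := ⟨orderOf s, orderOf_pos s, pow_orderOf_eq_one s⟩
  have hne : ∀ k : ℕ, (s ^ k) p ≠ q := fun k hk => h ⟨(k : ℤ), by simpa using hk⟩
  have key : ∀ k : ℕ, t.SameCycle p q ∨ t.SameCycle p ((s ^ k) p) := by
    intro k
    induction k with
    | zero => exact Or.inr (Perm.SameCycle.refl _ _)
    | succ k ih =>
      rcases ih with ih | ih
      · exact Or.inl ih
      · by_cases h1 : s ((s ^ k) p) = p
        · left
          have h2 : t ((s ^ k) p) = q := by rw [ht, Perm.mul_apply, h1, sw_left]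
          rw [← h2]
          exact Perm.sameCycle_apply_right.2 ih
        · right
          have h3 : (s ^ (k + 1)) p = s ((s ^ k) p) := by rw [pow_succ', Perm.mul_apply]
          have h4 : s ((s ^ k) p) ≠ q := by rw [← h3]; exact hne (k + 1)
          have h2 : t ((s ^ k) p) = (s ^ (k + 1)) p := by rw [ht, Perm.mul_apply, sw_of_ne h1 h4, h3]
          rw [← h2]
          exact Perm.sameCycle_apply_right.2 ih
  obtain ⟨k, rfl⟩ : ∃ k, n = k + 1 := ⟨n - 1, by omega⟩
  rcases key k with h1 | h1
  · exact h1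
  · have h2 : s ((s ^ k) p) = p := by rw [← Perm.mul_apply, ← pow_succ', hn1]; rfl
    have h3 : t ((s ^ k) p) = q := by rw [ht, Perm.mul_apply, h2, sw_left]
    rw [← h3]
    exact Perm.sameCycle_apply_right.2 h1

/-- letters of one cycle: separated -/
theorem same_sep [Finite D] {s : Perm D} {p q : D} (hpq : p ≠ q) (hs : s.SameCycle p q) :
    ¬ (sw p q * s).SameCycle p q := by
  intro h
  exact arc_ne_right ((sw_same_left hpq hs q).1 h) rfl

theorem cy_join [Finite D] {s : Perm D} {p q : D} (h : ¬ s.SameCycle p q) : cy (sw p q * s) = cy s ⊔ cy (sw p q) := by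
  rw [← cy_sw_mul, sup_sw_same (s := cy (sw p q * s)) (same_join h)]

theorem ncy_join [Finite D] {s : Perm D} {p q : D} (h : ¬ s.SameCycle p q) : ncy (sw p q * s) + 1 = ncy s := by
  unfold ncy
  rw [cy_join h, ← ncl_sup_sw h]

theorem ncy_split [Finite D] {s : Perm D} {p q : D} (hpq : p ≠ q) (hs : s.SameCycle p q) :
    ncy (sw p q * s) = ncy s + 1 := by
  unfold ncy
  rw [ncl_sup_sw (s := cy (sw p q * s)) (same_sep hpq hs), cy_sw_mul, sup_sw_same (s := cy s) hs]

theorem ncl_congr {E : Type} {s : Setoid D} {t : Setoid E} (e : D ≃ E) (h : ∀ x y, s x y ↔ t (e x) (e y)) : ncl s = ncl t :=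
  Nat.card_congr (Quotient.congr e fun x y => h x y)

theorem same_conj {E : Type} (e : D ≃ E) {s : Perm D} {t : Perm E} (h : ∀ d, t (e d) = e (s d)) (x y : D) :
    s.SameCycle x y ↔ t.SameCycle (e x) (e y) := by
  have h1 : ∀ (n : ℕ) (d : D), (t ^ n) (e d) = e ((s ^ n) d) := by
    intro n
    induction n with
    | zero => intro d; rfl
    | succ n ih => intro d; rw [pow_succ', Perm.mul_apply, ih, h, ← Perm.mul_apply, ← pow_succ']
  have h2 : ∀ (n : ℕ) (d : D), (t ^ n).symm (e d) = e ((s ^ n).symm d) := by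
    intro n d
    rw [Equiv.symm_apply_eq, h1, Equiv.apply_symm_apply]
  constructor
  · rintro ⟨n, hn⟩
    refine ⟨n, ?_⟩
    rcases Int.eq_nat_or_neg n with ⟨m, rfl | rfl⟩
    · rw [zpow_natCast, h1]
      rw [zpow_natCast] at hn
      rw [hn]
    · rw [zpow_neg, zpow_natCast]
      rw [zpow_neg, zpow_natCast] at hn
      exact (h2 m x).trans (congrArg e hn)
  · rintro ⟨n, hn⟩
    refine ⟨n, e.injective ?_⟩
    rcases Int.eq_nat_or_neg n with ⟨m, rfl | rfl⟩
    · rw [zpow_natCast] at hn ⊢
      rw [← h1, hn]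
    · rw [zpow_neg, zpow_natCast] at hn ⊢
      exact (h2 m x).symm.trans hn

theorem ncy_congr {E : Type} (e : D ≃ E) {s : Perm D} {t : Perm E} (h : ∀ d, t (e d) = e (s d)) : ncy s = ncy t :=
  ncl_congr e fun x y => same_conj e h x y

theorem ncy_conj (t s : Perm D) : ncy (t * s * t⁻¹) = ncy s :=
  (ncy_congr t fun d => by
    show t (s (t⁻¹ (t d))) = t (s d)
    have h : t⁻¹ (t d) = d := t.symm_apply_apply d
    rw [h]).symm

theorem ncy_mul_comm (s t : Perm D) : ncy (s * t) = ncy (t * s) := by
  have h := ncy_conj t (s * t)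
  rw [← h]
  congr 1
  group

theorem sw_mul_self (p q : D) : sw p q * sw p q = 1 := by
  ext d
  rw [Perm.mul_apply, sw_sq]
  rfl

theorem mul_sw_same (s : Perm D) (p q : D) (x y : D) :
    (s * sw p q).SameCycle x y ↔ (sw p q * s).SameCycle (sw p q x) (sw p q y) := by
  refine same_conj (sw p q) (fun d => ?_) x y
  rw [Perm.mul_apply, Perm.mul_apply]

/-- the same on the right -/
theorem ncy_mul_sw (s : Perm D) (p q : D) : ncy (s * sw p q) = ncy (sw p q * s) := ncy_mul_comm _ _

theorem cy_mul_sw [Finite D] (p q : D) (s : Perm D) : cy (s * sw p q) ⊔ cy (sw p q) = cy s ⊔ cy (sw p q) := by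
  apply le_antisymm
  · exact sup_le (cy_mul_le _ _) le_sup_right
  · refine sup_le ?_ le_sup_right
    have h1 := cy_mul_le (s * sw p q) (sw p q)
    rw [mul_assoc, sw_mul_self, mul_one] at h1
    exact h1

end setoid

/-! ### the number `gn` -/

section gn

variable {D : Type}

/-- number of orbits of the group generated by `r`, `a` -/
noncomputable def orb (r a : Perm D) : ℕ := ncl (cy r ⊔ cy a)

/-- twice the genus -/
noncomputable def gn (r a : Perm D) : ℤ := 2 * (orb r a : ℤ) - ((ncy (r * a) : ℤ) + ncy r + ncy a - Nat.card D)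

theorem ncl_anti [Finite D] {s t : Setoid D} (h : s ≤ t) : ncl t ≤ ncl s :=
  Nat.card_le_card_of_surjective (Quotient.map' id fun _ _ hxy => h hxy) (by
    intro c
    induction c using Quotient.inductionOn with
    | h x => exact ⟨Quotient.mk s x, rfl⟩)

theorem ncl_le [Finite D] (s : Setoid D) : ncl s ≤ Nat.card D :=
  Nat.card_le_card_of_surjective (Quotient.mk s) (by
    intro c
    induction c using Quotient.inductionOn with
    | h x => exact ⟨x, rfl⟩)

theorem ncl_bot : ncl (⊥ : Setoid D) = Nat.card D := by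
  refine (Nat.card_congr (Equiv.ofBijective (Quotient.mk (⊥ : Setoid D)) ⟨fun x y h => ?_, fun c => ?_⟩)).symm
  · exact Quotient.exact h
  · induction c using Quotient.inductionOn with
    | h x => exact ⟨x, rfl⟩

theorem cy_one : cy (1 : Perm D) = ⊥ := by
  ext x y
  exact Perm.sameCycle_one

theorem ncy_one : ncy (1 : Perm D) = Nat.card D := by
  unfold ncy
  rw [cy_one, ncl_bot]

theorem ncy_le [Finite D] (s : Perm D) : ncy s ≤ Nat.card D := ncl_le _

theorem gn_one (r : Perm D) : gn r 1 = 0 := by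
  unfold gn orb
  rw [mul_one, ncy_one, cy_one, sup_bot_eq]
  unfold ncy
  ring

private theorem gn_aux [Finite D] : ∀ (m : ℕ) (a : Perm D), Nat.card D ≤ ncy a + m → ∀ r : Perm D, 0 ≤ gn r a := by
  intro m
  induction m with
  | zero =>
    intro a ha r
    by_cases h1 : a = 1
    · rw [h1, gn_one]
    · exfalso
      obtain ⟨p, hp⟩ : ∃ p, a p ≠ p := by
        by_contra hcon
        push Not at hcon
        exact h1 (Equiv.ext hcon)
      have h2 := ncy_split (s := a) (p := p) (q := a p) (fun h => hp h.symm) (cy_step a p)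
      have h3 := ncy_le (sw p (a p) * a)
      omega
  | succ m ih =>
    intro a ha r
    by_cases h1 : a = 1
    · rw [h1, gn_one]
    obtain ⟨p, hp⟩ : ∃ p, a p ≠ p := by
      by_contra hcon
      push Not at hcon
      exact h1 (Equiv.ext hcon)
    set q := a p with hq
    set b := sw p q * a with hb
    have hab : a = sw p q * b := by rw [hb, sw_mul_sw]
    have h2 : ncy b = ncy a + 1 := ncy_split (s := a) (p := p) (q := q) (fun h => hp h.symm) (cy_step a p)
    have h3 := ih b (by omega) r
    have e1 : ncy (r * a) = ncy (sw p q * (b * r)) := by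
      rw [ncy_mul_comm, hab, mul_assoc]
    have e2 : ncy (r * b) = ncy (b * r) := ncy_mul_comm _ _
    have e3 : cy r ⊔ cy a ≤ (cy r ⊔ cy b) ⊔ cy (sw p q) := by
      refine sup_le (le_sup_left.trans le_sup_left) ?_
      rw [hab]
      exact (cy_mul_le _ _).trans (sup_le le_sup_right (le_sup_right.trans le_sup_left))
    have e4 := ncl_anti e3
    unfold gn orb at h3 ⊢
    rw [e2] at h3
    rw [e1]
    by_cases h4 : (cy r ⊔ cy b) p q
    · rw [sup_sw_same h4] at e4
      have h5 : ncy (sw p q * (b * r)) ≤ ncy (b * r) + 1 := by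
        by_cases h6 : (b * r).SameCycle p q
        · exact (ncy_split (fun h => hp h.symm) h6).le
        · have := ncy_join h6; omega
      omega
    · have h5 : ¬ (b * r).SameCycle p q := by
        intro h6
        apply h4
        have h7 := cy_mul_le b r (show (cy (b * r)) p q from h6)
        rwa [sup_comm] at h7
      have h6 := ncy_join h5
      have h7 := ncl_sup_sw h4
      omega

/-- **the genus is not negative** -/
theorem gn_nonneg [Finite D] (r a : Perm D) : 0 ≤ gn r a :=
  gn_aux (Nat.card D) a (Nat.le_add_left _ _) r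

/-- splicing at a vertex -/
theorem gn_vtx [Finite D] {r a : Perm D} {p q : D} (hpq : p ≠ q) (hv : (r * a).SameCycle p q) :
    gn (sw p q * r) a ≤ gn r a := by
  have h1 : ncy (sw p q * r * a) = ncy (r * a) + 1 := by
    rw [mul_assoc]
    exact ncy_split hpq hv
  have h2 : (cy r ⊔ cy a) p q := cy_mul_le r a (show (cy (r * a)) p q from hv)
  have h3 : cy (sw p q * r) ⊔ cy a ⊔ cy (sw p q) = cy r ⊔ cy a := by
    rw [sup_right_comm, cy_sw_mul, sup_right_comm, sup_sw_same h2]
  unfold gn orb
  rw [h1]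
  by_cases h4 : r.SameCycle p q
  · have h5 := ncy_split hpq h4
    have h6 := (ncl_le_sup_sw (cy (sw p q * r) ⊔ cy a) p q).2
    rw [h3] at h6
    push_cast
    omega
  · have h5 := ncy_join h4
    have h6 : (cy (sw p q * r) ⊔ cy a) p q :=
      (le_sup_left : cy (sw p q * r) ≤ cy (sw p q * r) ⊔ cy a) (show (cy (sw p q * r)) p q from same_join h4)
    rw [sup_sw_same h6] at h3
    rw [h3]
    push_cast
    omega

/-- gluing a letter to its partner -/
theorem gn_glue [Finite D] {r a : Perm D} (ha : ∀ d, a (a d) = d) (b : D) :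
    gn (r * sw b (a b)) (a * sw b (a b)) ≤ gn r a := by
  by_cases hb : a b = b
  · rw [hb, sw_self, mul_one, mul_one]
  set c := a b with hc
  have hbc : b ≠ c := fun h => hb h.symm
  have hcomm : sw b c * a = a * sw b c := by
    ext d
    rw [Perm.mul_apply, Perm.mul_apply]
    by_cases h1 : d = b
    · rw [h1, ← hc, sw_right, sw_left, hc, ha]
    by_cases h2 : d = c
    · rw [h2, sw_right, hc, ha, ← hc, sw_left]
    · have h3 : a d ≠ b := fun h => h2 (by rw [hc, ← h, ha])
      have h4 : a d ≠ c := fun h => h1 (a.injective h)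
      rw [sw_of_ne h1 h2, sw_of_ne h3 h4]
  have h1 : r * sw b c * (a * sw b c) = r * a := by
    rw [← hcomm, mul_assoc, ← mul_assoc (sw b c) (sw b c) a, sw_mul_self, one_mul]
  have h2 : ncy (a * sw b c) = ncy a + 1 := by
    rw [ncy_mul_sw]
    exact ncy_split hbc (cy_step a b)
  have h3 : cy (r * sw b c) ⊔ cy (a * sw b c) ⊔ cy (sw b c) = cy r ⊔ cy a := by
    have h4 : (cy r ⊔ cy a) b c := (le_sup_right : cy a ≤ cy r ⊔ cy a) (cy_step a b)
    calc cy (r * sw b c) ⊔ cy (a * sw b c) ⊔ cy (sw b c)
        = (cy (r * sw b c) ⊔ cy (sw b c)) ⊔ (cy (a * sw b c) ⊔ cy (sw b c)) := sup_sup_distrib_right _ _ _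
      _ = (cy r ⊔ cy (sw b c)) ⊔ (cy a ⊔ cy (sw b c)) := by rw [cy_mul_sw, cy_mul_sw]
      _ = cy r ⊔ cy a ⊔ cy (sw b c) := (sup_sup_distrib_right _ _ _).symm
      _ = cy r ⊔ cy a := sup_sw_same h4
  unfold gn orb
  rw [h1, h2]
  by_cases h4 : r.SameCycle b c
  · have h5 : ncy (r * sw b c) = ncy r + 1 := by
      rw [ncy_mul_sw]
      exact ncy_split hbc h4
    have h6 := (ncl_le_sup_sw (cy (r * sw b c) ⊔ cy (a * sw b c)) b c).2
    rw [h3] at h6
    push_cast
    omega
  · have h5 : ncy (r * sw b c) + 1 = ncy r := by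
      rw [ncy_mul_sw]
      exact ncy_join h4
    have h7 : (r * sw b c).SameCycle b c := by
      rw [mul_sw_same, sw_left, sw_right]
      exact (same_join h4).symm
    have h6 : (cy (r * sw b c) ⊔ cy (a * sw b c)) b c :=
      (le_sup_left : cy (r * sw b c) ≤ cy (r * sw b c) ⊔ cy (a * sw b c)) h7
    rw [sup_sw_same h6] at h3
    rw [h3]
    push_cast
    omega

end gn

/-! ### sums -/

section sum

variable {D D' E : Type}

/-- the classes of a disjoint union -/
theorem ncl_sum [Finite D] [Finite D'] {s : Setoid D} {s' : Setoid D'} {t : Setoid E} {j : D → E} {k : D' → E}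
    (hj : ∀ x y, t (j x) (j y) ↔ s x y) (hk : ∀ x y, t (k x) (k y) ↔ s' x y) (hjk : ∀ x y, ¬ t (j x) (k y))
    (hc : ∀ e, (∃ x, j x = e) ∨ ∃ y, k y = e) : ncl t = ncl s + ncl s' := by
  classical
  set f : Quotient s ⊕ Quotient s' → Quotient t := fun c => Sum.elim
    (Quotient.map' j fun x y h => (hj x y).2 h) (Quotient.map' k fun x y h => (hk x y).2 h) c with hf
  have hb : Function.Bijective f := by
    constructor
    · rintro (c | c) (c' | c') h
      · induction c using Quotient.inductionOn with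
        | h x =>
          induction c' using Quotient.inductionOn with
          | h y =>
            have h1 : Quotient.mk t (j x) = Quotient.mk t (j y) := h
            exact congrArg Sum.inl (Quotient.sound ((hj x y).1 (Quotient.exact h1)))
      · induction c using Quotient.inductionOn with
        | h x =>
          induction c' using Quotient.inductionOn with
          | h y =>
            have h1 : Quotient.mk t (j x) = Quotient.mk t (k y) := h
            exact absurd (Quotient.exact h1) (hjk x y)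
      · induction c using Quotient.inductionOn with
        | h x =>
          induction c' using Quotient.inductionOn with
          | h y =>
            have h1 : Quotient.mk t (k x) = Quotient.mk t (j y) := h
            exact absurd (t.symm (Quotient.exact h1)) (hjk y x)
      · induction c using Quotient.inductionOn with
        | h x =>
          induction c' using Quotient.inductionOn with
          | h y =>
            have h1 : Quotient.mk t (k x) = Quotient.mk t (k y) := h
            exact congrArg Sum.inr (Quotient.sound ((hk x y).1 (Quotient.exact h1)))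
    · intro c
      induction c using Quotient.inductionOn with
      | h e =>
        rcases hc e with ⟨x, hx⟩ | ⟨y, hy⟩
        · exact ⟨Sum.inl (Quotient.mk s x), by rw [← hx]; rfl⟩
        · exact ⟨Sum.inr (Quotient.mk s' y), by rw [← hy]; rfl⟩
  unfold ncl
  rw [← Nat.card_congr (Equiv.ofBijective f hb), Nat.card_sum]

/-- a permutation on a closed part: same cycles -/
theorem same_inj {j : D → E} (hj : Function.Injective j) {s : Perm D} {t : Perm E} (h : ∀ d, t (j d) = j (s d)) (x y : D) :
    t.SameCycle (j x) (j y) ↔ s.SameCycle x y := by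
  have h1 : ∀ (n : ℕ) (d : D), (t ^ n) (j d) = j ((s ^ n) d) := by
    intro n
    induction n with
    | zero => intro d; rfl
    | succ n ih => intro d; rw [pow_succ', Perm.mul_apply, ih, h, ← Perm.mul_apply, ← pow_succ']
  have h2 : ∀ (n : ℕ) (d : D), (t ^ n).symm (j d) = j ((s ^ n).symm d) := by
    intro n d
    rw [Equiv.symm_apply_eq, h1, Equiv.apply_symm_apply]
  constructor
  · rintro ⟨n, hn⟩
    refine ⟨n, hj ?_⟩
    rcases Int.eq_nat_or_neg n with ⟨m, rfl | rfl⟩
    · rw [zpow_natCast] at hn ⊢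
      rw [← h1, hn]
    · rw [zpow_neg, zpow_natCast] at hn ⊢
      exact (h2 m x).symm.trans hn
  · rintro ⟨n, hn⟩
    refine ⟨n, ?_⟩
    rcases Int.eq_nat_or_neg n with ⟨m, rfl | rfl⟩
    · rw [zpow_natCast, h1]
      rw [zpow_natCast] at hn
      rw [hn]
    · rw [zpow_neg, zpow_natCast]
      rw [zpow_neg, zpow_natCast] at hn
      exact (h2 m x).trans (congrArg j hn)

/-- the range of a closed part is closed -/
theorem range_inv [Finite D] {j : D → E} {s : Perm D} {t : Perm E} (h : ∀ d, t (j d) = j (s d)) (e : E) :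
    (∃ x, j x = t e) ↔ ∃ x, j x = e := by
  constructor
  · rintro ⟨x, hx⟩
    refine ⟨s.symm x, t.injective ?_⟩
    rw [h, Equiv.apply_symm_apply, hx]
  · rintro ⟨x, rfl⟩
    exact ⟨s x, (h x).symm⟩

/-- the relation of a part inside the whole -/
private def psh (j : D → E) (hj : Function.Injective j) (u : Setoid D) : Setoid E where
  r e e' := (∀ x, j x = e → ∀ y, j y = e' → u x y) ∧ ((∃ x, j x = e) ↔ ∃ y, j y = e')
  iseqv := by
    refine ⟨fun e => ⟨fun x hx y hy => ?_, Iff.rfl⟩, ?_, ?_⟩
    · rw [hj (hx.trans hy.symm)]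
    · rintro e e' ⟨h1, h2⟩
      exact ⟨fun x hx y hy => u.symm (h1 y hy x hx), h2.symm⟩
    · rintro e e' e'' ⟨h1, h2⟩ ⟨h3, h4⟩
      refine ⟨fun x hx z hz => ?_, h2.trans h4⟩
      obtain ⟨y, hy⟩ := h2.1 ⟨x, hx⟩
      exact u.trans (h1 x hx y hy) (h3 y hy z hz)

private theorem cy_le_psh [Finite D] [Finite E] {j : D → E} (hj : Function.Injective j) {s : Perm D} {t : Perm E}
    (h : ∀ d, t (j d) = j (s d)) {u : Setoid D} (hu : cy s ≤ u) : cy t ≤ psh j hj u := by
  refine cy_le fun e => ⟨fun x hx y hy => ?_, (range_inv h e).symm⟩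
  have h1 : y = s x := by
    apply hj
    rw [hy, ← hx, h]
  rw [h1]
  exact hu (cy_step s x)

/-- orbits on a closed part -/
theorem orb_inj [Finite D] [Finite E] {j : D → E} (hj : Function.Injective j) {r a : Perm D} {r' a' : Perm E}
    (hr : ∀ d, r' (j d) = j (r d)) (ha : ∀ d, a' (j d) = j (a d)) (x y : D) :
    (cy r' ⊔ cy a') (j x) (j y) ↔ (cy r ⊔ cy a) x y := by
  constructor
  · intro h
    have h1 : cy r' ⊔ cy a' ≤ psh j hj (cy r ⊔ cy a) := sup_le (cy_le_psh hj hr le_sup_left) (cy_le_psh hj ha le_sup_right)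
    exact (h1 h).1 x rfl y rfl
  · intro h
    have h1 : cy r ⊔ cy a ≤ Setoid.comap j (cy r' ⊔ cy a') := by
      refine sup_le (cy_le fun d => ?_) (cy_le fun d => ?_)
      · show (cy r' ⊔ cy a') (j d) (j (r d))
        rw [← hr]
        exact (le_sup_left : cy r' ≤ cy r' ⊔ cy a') (cy_step r' (j d))
      · show (cy r' ⊔ cy a') (j d) (j (a d))
        rw [← ha]
        exact (le_sup_right : cy a' ≤ cy r' ⊔ cy a') (cy_step a' (j d))
    exact h1 h

/-- an orbit stays in a closed part -/
theorem orb_range [Finite D] [Finite E] {j : D → E} (hj : Function.Injective j) {r a : Perm D} {r' a' : Perm E}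
    (hr : ∀ d, r' (j d) = j (r d)) (ha : ∀ d, a' (j d) = j (a d)) {e e' : E} (h : (cy r' ⊔ cy a') e e') :
    (∃ x, j x = e) ↔ ∃ x, j x = e' := by
  have h1 : cy r' ⊔ cy a' ≤ psh j hj (cy r ⊔ cy a) := sup_le (cy_le_psh hj hr le_sup_left) (cy_le_psh hj ha le_sup_right)
  exact (h1 h).2

theorem cy_range [Finite D] [Finite E] {j : D → E} {s : Perm D} {t : Perm E} (h : ∀ d, t (j d) = j (s d)) {e e' : E}
    (he : t.SameCycle e e') (h1 : ∃ x, j x = e) : ∃ x, j x = e' :=
  mem_of_same (s := t) (Z := {e | ∃ x, j x = e}) (fun e he => (range_inv h e).2 he) h1 he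

/-- **the genus of a disjoint union** -/
theorem gn_sum [Finite D] [Finite D'] [Finite E] {j : D → E} {k : D' → E} (hj : Function.Injective j)
    (hk : Function.Injective k) (hjk : ∀ x y, j x ≠ k y) (hc : ∀ e, (∃ x, j x = e) ∨ ∃ y, k y = e) {r a : Perm D}
    {r' a' : Perm D'} {R A : Perm E} (hr : ∀ d, R (j d) = j (r d)) (ha : ∀ d, A (j d) = j (a d))
    (hr' : ∀ d, R (k d) = k (r' d)) (ha' : ∀ d, A (k d) = k (a' d)) : gn R A = gn r a + gn r' a' := by
  have hcy : ∀ {s : Perm D} {s' : Perm D'} {t : Perm E}, (∀ d, t (j d) = j (s d)) → (∀ d, t (k d) = k (s' d)) →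
      ncy t = ncy s + ncy s' := by
    intro s s' t h h'
    refine ncl_sum (j := j) (k := k) (fun x y => same_inj hj h x y) (fun x y => same_inj hk h' x y) (fun x y hxy => ?_) hc
    obtain ⟨z, hz⟩ := cy_range h hxy ⟨x, rfl⟩
    exact hjk z y hz
  have ho : orb R A = orb r a + orb r' a' := by
    refine ncl_sum (j := j) (k := k) (fun x y => orb_inj hj hr ha x y) (fun x y => orb_inj hk hr' ha' x y)
      (fun x y hxy => ?_) hc
    obtain ⟨z, hz⟩ := (orb_range hj hr ha hxy).1 ⟨x, rfl⟩
    exact hjk z y hz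
  have hcard : Nat.card E = Nat.card D + Nat.card D' := by
    rw [← Nat.card_sum]
    refine (Nat.card_congr (Equiv.ofBijective (Sum.elim j k) ⟨?_, ?_⟩)).symm
    · rintro (x | x) (y | y) h
      · exact congrArg Sum.inl (hj h)
      · exact absurd h (hjk x y)
      · exact absurd h.symm (hjk y x)
      · exact congrArg Sum.inr (hk h)
    · intro e
      rcases hc e with ⟨x, hx⟩ | ⟨y, hy⟩
      · exact ⟨Sum.inl x, hx⟩
      · exact ⟨Sum.inr y, hy⟩
  have h1 : ncy (R * A) = ncy (r * a) + ncy (r' * a') := by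
    refine hcy (fun d => ?_) (fun d => ?_)
    · rw [Perm.mul_apply, Perm.mul_apply, ha, hr]
    · rw [Perm.mul_apply, Perm.mul_apply, ha', hr']
  unfold gn
  rw [h1, ho, hcard, hcy hr hr', hcy ha ha']
  push_cast
  ring

theorem gn_iso {r a : Perm D} {R A : Perm E} (e : D ≃ E) (hr : ∀ d, R (e d) = e (r d)) (ha : ∀ d, A (e d) = e (a d)) [Finite D] :
    gn R A = gn r a := by
  have : Finite E := Finite.of_equiv D e
  have h1 : ncy (R * A) = ncy (r * a) := (ncy_congr e fun d => by rw [Perm.mul_apply, Perm.mul_apply, ha, hr]).symm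
  have h2 : orb R A = orb r a := (ncl_congr e fun x y => (orb_inj e.injective hr ha x y).symm).symm
  unfold gn
  rw [h1, h2, ← ncy_congr e hr, ← ncy_congr e ha, Nat.card_congr e]

end sum

/-! ### two new letters -/

section two

variable {D : Type} [Finite D]

/-- two isolated new letters -/
abbrev pb (s : Perm D) : Perm (D ⊕ Bool) := Equiv.sumCongr s (Equiv.refl Bool)

theorem pb_mul (s t : Perm D) : pb s * pb t = pb (s * t) := by
  ext x
  rcases x with x | x <;> rfl

theorem ncy_pb (s : Perm D) : ncy (pb s) = ncy s + 2 := by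
  have h1 : ncl (cy (pb s)) = ncl (cy s) + ncl (⊥ : Setoid Bool) := by
    refine ncl_sum (j := (Sum.inl : D → D ⊕ Bool)) (k := (Sum.inr : Bool → D ⊕ Bool))
      (fun x y => same_inj Sum.inl_injective (fun d => rfl) x y) (fun x y => ?_) (fun x y hxy => ?_) (fun e => ?_)
    · have h2 := same_inj (j := (Sum.inr : Bool → D ⊕ Bool)) Sum.inr_injective (s := 1) (t := pb s) (fun d => rfl) x y
      rw [cy_iff, h2]
      exact Perm.sameCycle_one
    · obtain ⟨z, hz⟩ := cy_range (j := (Sum.inl : D → D ⊕ Bool)) (s := s) (t := pb s) (fun d => rfl) hxy ⟨x, rfl⟩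
      exact absurd hz Sum.inl_ne_inr
    · rcases e with e | e
      · exact Or.inl ⟨e, rfl⟩
      · exact Or.inr ⟨e, rfl⟩
  rw [ncl_bot, Nat.card_eq_fintype_card, Fintype.card_bool] at h1
  exact h1

/-- the relation with two isolated new letters -/
theorem gn_pb (r a : Perm D) : gn (pb r) (pb a) = gn r a := by
  have h1 := gn_sum (j := (Sum.inl : D → D ⊕ Bool)) (k := (Sum.inr : Bool → D ⊕ Bool)) Sum.inl_injective
    Sum.inr_injective (fun _ _ => Sum.inl_ne_inr) (fun e => by
      rcases e with e | e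
      · exact Or.inl ⟨e, rfl⟩
      · exact Or.inr ⟨e, rfl⟩) (r := r) (a := a) (r' := 1) (a' := 1) (R := pb r) (A := pb a) (fun _ => rfl) (fun _ => rfl)
      (fun _ => rfl) (fun _ => rfl)
  rw [h1, gn_one, add_zero]

theorem orb_pb (r a : Perm D) : ncl (cy (pb r) ⊔ cy (pb a)) = ncl (cy r ⊔ cy a) + 2 := by
  have h1 := gn_pb r a
  unfold gn orb at h1
  rw [pb_mul, ncy_pb, ncy_pb, ncy_pb, Nat.card_sum, Nat.card_eq_fintype_card (α := Bool), Fintype.card_bool] at h1
  push_cast at h1
  omega

end two

/-! ### the digon and the subdivision -/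

section dbl

variable {D : Type}

theorem pb_not (s : Perm D) : Equiv.sumCongr s Equiv.boolNot = pb s * sw (Sum.inr true) (Sum.inr false) := by
  ext x
  rw [Perm.mul_apply]
  rcases x with x | x
  · rw [sw_of_ne Sum.inl_ne_inr Sum.inl_ne_inr]; rfl
  · cases x
    · rw [sw_right]; rfl
    · rw [sw_left]; rfl

theorem sw_conj (s : Perm D) (x y : D) : s * sw x y = sw (s x) (s y) * s := by
  ext d
  rw [Perm.mul_apply, Perm.mul_apply, sw_map s.injective]

theorem not_same_fix {s : Perm D} {x y : D} [Finite D] (h : s x = x) (hxy : x ≠ y) : ¬ s.SameCycle x y := fun h1 =>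
  hxy (mem_of_same (s := s) (Z := {e | e = x}) (fun e (he : e = x) => (congrArg s he).trans h) rfl h1).symm

variable [Finite D]

theorem ker_of {F : Type} (f : D → F) {s : Perm D} (h : ∀ d, f (s d) = f d) : cy s ≤ Setoid.ker f :=
  cy_le fun d => (h d).symm

/-- isolated letters and the letters `inl` -/
theorem pb_ker1 (r a : Perm D) (e : D) (b : Bool) : ¬ (cy (pb r) ⊔ cy (pb a)) (Sum.inl e) (Sum.inr b) := by
  intro h
  have h1 : ∀ s : Perm D, cy (pb s) ≤ Setoid.ker (Sum.elim (fun _ => none) some : D ⊕ Bool → Option Bool) := fun s =>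
    ker_of _ fun d => by rcases d with d | d <;> rfl
  have h2 : (none : Option Bool) = some b := (sup_le (h1 r) (h1 a)) h
  exact absurd h2 (by simp)

theorem pb_ker2 (r a : Perm D) (e : D) :
    ¬ (cy (pb r) ⊔ cy (pb a) ⊔ cy (sw (Sum.inl e) (Sum.inr false))) (Sum.inr true) (Sum.inr false) := by
  intro h
  have h1 : ∀ s : Perm D, cy (pb s) ≤ Setoid.ker (Sum.elim (fun _ => false) id : D ⊕ Bool → Bool) := fun s =>
    ker_of _ fun d => by rcases d with d | d <;> rfl
  have h3 : cy (sw (Sum.inl e) (Sum.inr false)) ≤ Setoid.ker (Sum.elim (fun _ => false) id : D ⊕ Bool → Bool) := cy_sw_le rfl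
  have h2 : true = false := (sup_le (sup_le (h1 r) (h1 a)) h3) h
  exact absurd h2 (by simp)

/-- **the digon: the genus** -/
theorem gn_dbl (r a : Perm D) (e : D) :
    gn (sw (Sum.inl e) (Sum.inr false) * pb r * sw (Sum.inr true) (Sum.inr false) * sw (Sum.inl e) (Sum.inr false))
      (pb a * sw (Sum.inr true) (Sum.inr false)) = gn r a := by
  set u : D ⊕ Bool := Sum.inl e with hu
  set t : D ⊕ Bool := Sum.inr true with ht
  set f : D ⊕ Bool := Sum.inr false with hf
  set w : D ⊕ Bool := Sum.inl (a.symm e) with hw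
  set P := pb r with hP
  set A := pb a with hA
  have htf : t ≠ f := by rw [ht, hf]; simp
  have huf : u ≠ f := Sum.inl_ne_inr
  have hut : u ≠ t := Sum.inl_ne_inr
  have hwt : w ≠ t := Sum.inl_ne_inr
  have hwf : w ≠ f := Sum.inl_ne_inr
  have hPt : P t = t := rfl
  have hPf : P f = f := rfl
  have hAt : A t = t := rfl
  have hAf : A f = f := rfl
  have hAw : A w = u := by
    rw [hw, hu, hA]
    exact congrArg Sum.inl (a.apply_symm_apply e)
  have n1 : ncy (sw u f * P * sw t f * sw u f) + 1 = ncy r + 2 := by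
    rw [ncy_mul_comm, mul_assoc (sw u f) P (sw t f), sw_mul_sw, ncy_mul_sw, ncy_join (not_same_fix hPt htf), ncy_pb]
  have n2 : ncy (A * sw t f) + 1 = ncy a + 2 := by
    rw [ncy_mul_sw, ncy_join (not_same_fix hAt htf), ncy_pb]
  have n3 : ncy (sw u f * P * sw t f * sw u f * (A * sw t f)) = ncy (r * a) := by
    have e1 : sw t f * sw u f * (A * sw t f) = A * sw w t := by
      have e2 : sw t f * sw u f = sw u t * sw t f := by
        rw [sw_conj (sw t f) u f, sw_of_ne hut huf, sw_right]
      have e3 : sw t f * A = A * sw t f := by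
        rw [sw_conj A t f, hAt, hAf]
      calc sw t f * sw u f * (A * sw t f) = sw u t * (sw t f * A) * sw t f := by rw [e2]; group
        _ = sw u t * A * (sw t f * sw t f) := by rw [e3]; group
        _ = sw u t * A := by rw [sw_mul_self, mul_one]
        _ = A * sw w t := by rw [sw_conj A w t, hAw, hAt]
    have e4 : sw u f * P * sw t f * sw u f * (A * sw t f) = sw u f * (P * A * sw w t) := by
      calc sw u f * P * sw t f * sw u f * (A * sw t f) = sw u f * P * (sw t f * sw u f * (A * sw t f)) := by group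
        _ = sw u f * (P * A * sw w t) := by rw [e1]; group
    have e5 : (P * A * sw w t) f = f := by
      rw [Perm.mul_apply, sw_of_ne hwf.symm htf.symm]; rfl
    have e6 : ¬ (P * A * sw w t).SameCycle u f := fun h => not_same_fix e5 huf.symm h.symm
    have e7 : (P * A) t = t := rfl
    have e8 : ¬ (P * A).SameCycle w t := fun h => not_same_fix e7 hwt.symm h.symm
    have e9 := ncy_join e6
    have e10 := ncy_join e8
    rw [← ncy_mul_sw, hP, hA, pb_mul, ncy_pb] at e10
    rw [hP, hA, pb_mul] at e9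
    rw [e4, hP, hA, pb_mul]
    omega
  have n4 : cy (sw u f * P * sw t f * sw u f) ⊔ cy (A * sw t f) = cy P ⊔ cy A ⊔ cy (sw u f) ⊔ cy (sw t f) := by
    apply le_antisymm
    · have l1 : cy (sw u f) ≤ cy P ⊔ cy A ⊔ cy (sw u f) ⊔ cy (sw t f) := le_sup_right.trans le_sup_left
      have l2 : cy (sw t f) ≤ cy P ⊔ cy A ⊔ cy (sw u f) ⊔ cy (sw t f) := le_sup_right
      have l3 : cy P ≤ cy P ⊔ cy A ⊔ cy (sw u f) ⊔ cy (sw t f) := (le_sup_left.trans le_sup_left).trans le_sup_left
      have l4 : cy A ≤ cy P ⊔ cy A ⊔ cy (sw u f) ⊔ cy (sw t f) := (le_sup_right.trans le_sup_left).trans le_sup_left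
      refine sup_le ?_ ((cy_mul_le _ _).trans (sup_le l4 l2))
      exact (cy_mul_le _ _).trans (sup_le ((cy_mul_le _ _).trans (sup_le ((cy_mul_le _ _).trans (sup_le l1 l3)) l2)) l1)
    · set R := sw u f * P * sw t f * sw u f with hR
      set B := A * sw t f with hB
      have k1 : cy (sw t f) ≤ cy R ⊔ cy B := by
        refine (cy_sw_le ?_).trans le_sup_right
        have h1 : B t = f := by rw [hB, Perm.mul_apply, sw_left, hAf]
        have h2 := cy_step B t
        rwa [h1] at h2
      have k2 : cy (sw u f) ≤ cy R ⊔ cy B := by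
        refine cy_sw_le ?_
        have h1 : R u = t := by
          rw [hR, Perm.mul_apply, Perm.mul_apply, Perm.mul_apply, sw_left, sw_right, hPt, sw_of_ne hut.symm htf]
        have h2 := cy_step R u
        rw [h1] at h2
        exact (cy R ⊔ cy B).trans ((le_sup_left : cy R ≤ cy R ⊔ cy B) h2) (k1 (cy_sw t f))
      have k3 : cy P ≤ cy R ⊔ cy B := by
        have h1 : P = sw u f * R * sw u f * sw t f := by
          have h2 : sw u f * R = P * sw t f * sw u f := by
            rw [hR, mul_assoc (sw u f * P), mul_assoc (sw u f), sw_mul_sw]; group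
          rw [h2, mul_assoc (P * sw t f), sw_mul_self, mul_one, mul_assoc, sw_mul_self, mul_one]
        rw [h1]
        exact (cy_mul_le _ _).trans (sup_le ((cy_mul_le _ _).trans (sup_le ((cy_mul_le _ _).trans
          (sup_le k2 le_sup_left)) k2)) k1)
      have k4 : cy A ≤ cy R ⊔ cy B := by
        have h1 : A = B * sw t f := by rw [hB, mul_assoc, sw_mul_self, mul_one]
        rw [h1]
        exact (cy_mul_le _ _).trans (sup_le le_sup_right k1)
      exact sup_le (sup_le (sup_le k3 k4) k2) k1
  have n5 := ncl_sup_sw (s := cy P ⊔ cy A) (p := u) (q := f) (pb_ker1 r a e false)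
  have n6 := ncl_sup_sw (s := cy P ⊔ cy A ⊔ cy (sw u f)) (p := t) (q := f) (pb_ker2 r a e)
  have n7 := orb_pb r a
  rw [← hP, ← hA] at n7
  unfold gn orb
  rw [n3, n4, Nat.card_sum, Nat.card_eq_fintype_card (α := Bool), Fintype.card_bool]
  push_cast
  omega

/-- **the subdivision: the genus** -/
theorem gn_sub (r a : Perm D) (b : D) (hb : a (a b) = b) :
    gn (sw (Sum.inl (a b)) (Sum.inr false) * pb r * sw (Sum.inl b) (Sum.inr true))
      (pb a * sw (Sum.inr true) (Sum.inr false)) = gn r a := by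
  set u : D ⊕ Bool := Sum.inl (a b) with hu
  set v : D ⊕ Bool := Sum.inl b with hv
  set t : D ⊕ Bool := Sum.inr true with ht
  set f : D ⊕ Bool := Sum.inr false with hf
  set P := pb r with hP
  set A := pb a with hA
  have htf : t ≠ f := by rw [ht, hf]; simp
  have huf : u ≠ f := Sum.inl_ne_inr
  have hut : u ≠ t := Sum.inl_ne_inr
  have hvt : v ≠ t := Sum.inl_ne_inr
  have hvf : v ≠ f := Sum.inl_ne_inr
  have hPt : P t = t := rfl
  have hPf : P f = f := rfl
  have hAt : A t = t := rfl
  have hAf : A f = f := rfl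
  have hAu : A u = v := congrArg Sum.inl hb
  have hAv : A v = u := rfl
  have n1 : ncy (sw u f * P * sw v t) = ncy r := by
    have e1 : ncy (sw u f * P * sw v t) = ncy (sw v t * (sw u f * P)) := ncy_mul_sw _ _ _
    have e2 : (sw u f * P) t = t := by rw [Perm.mul_apply, hPt, sw_of_ne hut.symm htf]
    have e3 : ¬ (sw u f * P).SameCycle v t := fun h => not_same_fix e2 hvt.symm h.symm
    have e4 : ¬ P.SameCycle u f := fun h => not_same_fix hPf huf.symm h.symm
    have e5 := ncy_join e3
    have e6 := ncy_join e4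
    rw [hP, ncy_pb] at e6
    rw [hP] at e5
    rw [e1, hP]
    omega
  have n2 : ncy (A * sw t f) + 1 = ncy a + 2 := by
    rw [ncy_mul_sw, ncy_join (not_same_fix hAt htf), ncy_pb]
  have n3 : ncy (sw u f * P * sw v t * (A * sw t f)) = ncy (r * a) + 1 := by
    have e1 : sw v t * (A * sw t f) = A * (sw u t * sw t f) := by
      have e2 : A * sw u t = sw v t * A := by rw [sw_conj A u t, hAu, hAt]
      rw [← mul_assoc, ← e2, mul_assoc]
    have e3 : sw u t * sw t f * sw u f = sw t f := by
      have e4 : sw t f * sw u f = sw u t * sw t f := by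
        rw [sw_conj (sw t f) u f, sw_of_ne hut huf, sw_right]
      rw [mul_assoc, e4, sw_mul_sw]
    have e4 : ncy (sw u f * P * sw v t * (A * sw t f)) = ncy (P * A * sw t f) := by
      rw [mul_assoc (sw u f * P), e1, mul_assoc (sw u f), ncy_mul_comm (sw u f)]
      congr 1
      calc P * (A * (sw u t * sw t f)) * sw u f = P * A * (sw u t * sw t f * sw u f) := by group
        _ = P * A * sw t f := by rw [e3]
    have e7 : (P * A) t = t := rfl
    have e10 := ncy_join (not_same_fix e7 htf)
    rw [← ncy_mul_sw, hP, hA, pb_mul, ncy_pb] at e10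
    rw [e4, hP, hA, pb_mul]
    omega
  have n4 : cy (sw u f * P * sw v t) ⊔ cy (A * sw t f) = cy P ⊔ cy A ⊔ cy (sw u f) ⊔ cy (sw t f) := by
    apply le_antisymm
    · have l1 : cy (sw u f) ≤ cy P ⊔ cy A ⊔ cy (sw u f) ⊔ cy (sw t f) := le_sup_right.trans le_sup_left
      have l2 : cy (sw t f) ≤ cy P ⊔ cy A ⊔ cy (sw u f) ⊔ cy (sw t f) := le_sup_right
      have l3 : cy P ≤ cy P ⊔ cy A ⊔ cy (sw u f) ⊔ cy (sw t f) := (le_sup_left.trans le_sup_left).trans le_sup_left
      have l4 : cy A ≤ cy P ⊔ cy A ⊔ cy (sw u f) ⊔ cy (sw t f) := (le_sup_right.trans le_sup_left).trans le_sup_left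
      have l5 : cy (sw v t) ≤ cy P ⊔ cy A ⊔ cy (sw u f) ⊔ cy (sw t f) := by
        refine cy_sw_le ?_
        have m1 : (cy A) v u := cy_step A v
        exact Setoid.trans' _ (l4 m1) (Setoid.trans' _ (l1 (cy_sw u f)) (Setoid.symm' _ (l2 (cy_sw t f))))
      refine sup_le ?_ ((cy_mul_le _ _).trans (sup_le l4 l2))
      exact (cy_mul_le _ _).trans (sup_le ((cy_mul_le _ _).trans (sup_le l1 l3)) l5)
    · set R := sw u f * P * sw v t with hR
      set B := A * sw t f with hB
      have k1 : cy (sw t f) ≤ cy R ⊔ cy B := by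
        refine (cy_sw_le ?_).trans le_sup_right
        have h1 : B t = f := by rw [hB, Perm.mul_apply, sw_left, hAf]
        have h2 := cy_step B t
        rwa [h1] at h2
      have k2 : cy (sw u f) ≤ cy R ⊔ cy B := by
        refine (cy_sw_le ?_).trans le_sup_left
        have h1 : R f = u := by
          rw [hR, Perm.mul_apply, Perm.mul_apply, sw_of_ne hvf.symm htf.symm, hPf, sw_right]
        have h2 := cy_step R f
        rw [h1] at h2
        exact Setoid.symm' _ h2
      have k5 : cy (sw v t) ≤ cy R ⊔ cy B := by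
        refine (cy_sw_le ?_).trans le_sup_left
        have h1 : R v = t := by
          rw [hR, Perm.mul_apply, Perm.mul_apply, sw_left, hPt, sw_of_ne hut.symm htf]
        have h2 := cy_step R v
        rwa [h1] at h2
      have k3 : cy P ≤ cy R ⊔ cy B := by
        have h1 : P = sw u f * R * sw v t := by
          rw [hR, mul_assoc (sw u f) P, sw_mul_sw, mul_assoc, sw_mul_self, mul_one]
        rw [h1]
        exact (cy_mul_le _ _).trans (sup_le ((cy_mul_le _ _).trans (sup_le k2 le_sup_left)) k5)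
      have k4 : cy A ≤ cy R ⊔ cy B := by
        have h1 : A = B * sw t f := by rw [hB, mul_assoc, sw_mul_self, mul_one]
        rw [h1]
        exact (cy_mul_le _ _).trans (sup_le le_sup_right k1)
      exact sup_le (sup_le (sup_le k3 k4) k2) k1
  have n5 := ncl_sup_sw (s := cy P ⊔ cy A) (p := u) (q := f) (pb_ker1 r a (a b) false)
  have n6 := ncl_sup_sw (s := cy P ⊔ cy A ⊔ cy (sw u f)) (p := t) (q := f) (pb_ker2 r a (a b))
  have n7 := orb_pb r a
  rw [← hP, ← hA] at n7
  unfold gn orb
  rw [n3, n4, n1, Nat.card_sum, Nat.card_eq_fintype_card (α := Bool), Fintype.card_bool]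
  push_cast
  omega

end dbl

end Pool.Agent.GW.GenP

namespace Pool.Agent.GW

open Equiv Pool.Agent.SWP GenP

theorem nc_eq {D : Type} (s : Perm D) : nc s = ncy s := rfl

theorem nc_sw_same {D : Type} [Finite D] (s : Perm D) {p q : D} (h : p ≠ q) (h1 : s.SameCycle p q) :
    nc (sw p q * s) = nc s + 1 := ncy_split h h1

theorem nc_sw_diff {D : Type} [Finite D] (s : Perm D) {p q : D} (h1 : ¬ s.SameCycle p q) :
    nc (sw p q * s) + 1 = nc s := ncy_join h1

theorem orb_eq (S : Sf) : S.orb = GenP.orb S.r S.a := by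
  unfold Sf.orb GenP.orb ncl
  set R : S.D → S.D → Prop := fun x y => y = S.r x ∨ y = S.a x with hR
  have h1 : cy S.r ⊔ cy S.a ≤ Setoid.ker (Quot.mk R) :=
    sup_le (cy_le fun d => Quot.sound (Or.inl rfl)) (cy_le fun d => Quot.sound (Or.inr rfl))
  set φ : Quot R → Quotient (cy S.r ⊔ cy S.a) := Quot.lift (fun x => Quotient.mk (cy S.r ⊔ cy S.a) x) (by
    rintro x y (h | h)
    · rw [h]; exact Quotient.sound ((le_sup_left : cy S.r ≤ cy S.r ⊔ cy S.a) (cy_step S.r x))
    · rw [h]; exact Quotient.sound ((le_sup_right : cy S.a ≤ cy S.r ⊔ cy S.a) (cy_step S.a x))) with hφ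
  refine Nat.card_congr (Equiv.ofBijective φ ⟨?_, ?_⟩)
  · intro c c' h
    induction c using Quot.inductionOn with
    | h x =>
      induction c' using Quot.inductionOn with
      | h y =>
        have h2 : (cy S.r ⊔ cy S.a) x y := Quotient.exact h
        exact h1 h2
  · intro c
    induction c using Quotient.inductionOn with
    | h x => exact ⟨Quot.mk R x, rfl⟩

theorem gen_eq (S : Sf) : S.gen = gn S.r S.a := by
  unfold Sf.gen gn
  rw [orb_eq, nc_eq, nc_eq, nc_eq, Sf.card, Nat.card_eq_fintype_card]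

theorem gen_iso {S T : Sf} (φ : S.D ≃ T.D) (h : Iso S T φ) : T.gen = S.gen := by
  rw [gen_eq, gen_eq]
  exact gn_iso φ h.r h.a

theorem gen_add (S T : Sf) : (S.add T).gen = S.gen + T.gen := by
  rw [gen_eq, gen_eq, gen_eq]
  refine gn_sum (j := (Sum.inl : S.D → S.D ⊕ T.D)) (k := (Sum.inr : T.D → S.D ⊕ T.D)) Sum.inl_injective
    Sum.inr_injective (fun _ _ => Sum.inl_ne_inr) (fun e => ?_) (add_inl S T).r (add_inl S T).a (add_inr S T).r (add_inr S T).a
  rcases e with e | e
  · exact Or.inl ⟨e, rfl⟩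
  · exact Or.inr ⟨e, rfl⟩

theorem gen_split (S : Sf) (A : Set S.D) (hr : S.Inv A) (ha : ∀ d, S.a d ∈ A ↔ d ∈ A) (hr' : S.Inv Aᶜ)
    (ha' : ∀ d, S.a d ∈ Aᶜ ↔ d ∈ Aᶜ) : (S.part A hr ha).gen + (S.part Aᶜ hr' ha').gen = S.gen := by
  rw [gen_eq, gen_eq, gen_eq]
  refine (gn_sum (j := (Subtype.val : {d // d ∈ A} → S.D)) (k := (Subtype.val : {d // d ∈ Aᶜ} → S.D)) Subtype.val_injective
    Subtype.val_injective (fun x y h => y.2 (h ▸ x.2)) (fun e => ?_) (S.part_sub A hr ha).r (S.part_sub A hr ha).a
    (S.part_sub Aᶜ hr' ha').r (S.part_sub Aᶜ hr' ha').a).symm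
  by_cases he : e ∈ A
  · exact Or.inl ⟨⟨e, he⟩, rfl⟩
  · exact Or.inr ⟨⟨e, he⟩, rfl⟩

theorem gen_emb {S T : Sf} (j : S.D → T.D) (h : Emb S T j) : T.gen = S.gen := by
  rw [gen_eq, gen_eq]
  set B : Set T.D := {e | ∀ d, j d ≠ e} with hB
  have hr : ∀ e, T.r e ∈ B ↔ e ∈ B := by
    intro e
    constructor
    · intro h1 d hd
      exact h1 (S.r d) (by rw [← h.r, hd])
    · intro h1 d hd
      obtain ⟨y, hy⟩ := (range_inv h.r e).1 ⟨d, hd⟩
      exact h1 y hy
  have h1 := gn_sum (j := j) (k := (Subtype.val : {e // e ∈ B} → T.D)) h.inj Subtype.val_injective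
    (fun x y hxy => y.2 x hxy) (fun e => ?_) (R := T.r) (A := T.a) (r := S.r) (a := S.a)
    (r' := T.r.subtypePerm hr) (a' := 1) h.r h.a (fun _ => rfl) (fun d => h.dead d.1 d.2)
  · rw [h1, gn_one, add_zero]
  · by_cases he : e ∈ B
    · exact Or.inr ⟨⟨e, he⟩, rfl⟩
    · rw [hB, Set.mem_ofPred_eq] at he
      push Not at he
      exact Or.inl he

theorem gen_dbl (S : Sf) (e : S.D) (h : S.a e ≠ e) : (S.dbl e).gen = S.gen := by
  rw [gen_eq, gen_eq]
  have h1 : (S.dbl e).a = pb S.a * sw (Sum.inr true) (Sum.inr false) := pb_not S.a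
  rw [h1]
  exact gn_dbl S.r S.a e

theorem gen_sub (S : Sf) (b : S.D) : (S.sub b).gen = S.gen := by
  rw [gen_eq, gen_eq]
  have h1 : (S.sub b).a = pb S.a * sw (Sum.inr true) (Sum.inr false) := pb_not S.a
  rw [h1]
  exact gn_sub S.r S.a b (S.aa b)

theorem gen_vtx (S : Sf) (p q : S.D) (h : p ≠ q) (hv : S.vx p q) : (S.setr (sw p q * S.r)).gen ≤ S.gen := by
  rw [gen_eq, gen_eq]
  exact gn_vtx h hv

theorem gen_glue (S : Sf) (b : S.D) (h : S.a b ≠ b) : (S.glue b).gen ≤ S.gen := by
  rw [gen_eq, gen_eq]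
  exact gn_glue S.aa b

theorem gen_nonneg (S : Sf) : 0 ≤ S.gen := by
  rw [gen_eq]
  exact gn_nonneg _ _

end Pool.Agent.GW
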