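import Pool.Agent.GW.Sector
import Pool.Agent.GW.Gen

/-!
# GW/Cotree: spanning tree of the words made of letters of `N`, counting

PROOF of `cotree_exists`.  `sector_out` with `W = ∅`: a union of words `M` with `a y ∈ M` for all `y ∈ N ∩ M` is closed under `a`, so it is empty or
everything (`Con`).  So every word is reached from the root word through letters of `N`; `h` = length of the shortest chain,
`e P` the last letter (its partner is in a word with smaller `h`).
`Ct.card`: the letters `e P`, `a (e P)` are pairwise different (`h` decreases).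
`forest_count`: number of up-letters = number of vertices of positive depth `≥ nc (r * a) - R0.card`; `|D| = |N| + 2 * #up`;
`nc a = |D| / 2`, `orb = 1` (or `0` if there is no letter), `nc r = card S.Wd`.
-/

set_option autoImplicit false

namespace Pool.Agent.GW

open Equiv Pool.Agent.SWP

/-- words reached in at most `n` steps -/
private def cotLv (S : Sf) (N : Set S.D) (root : S.Wd) : ℕ → Set S.Wd
  | 0 => {root}
  | n + 1 => cotLv S N root n ∪ {P | ∃ y ∈ N, S.wd y = P ∧ S.wd (S.a y) ∈ cotLv S N root n}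

private theorem wd_r (S : Sf) (d : S.D) : S.wd (S.r d) = S.wd d :=
  (S.wd_eq _ _).mpr (Perm.sameCycle_apply_left.mpr (Perm.SameCycle.refl _ _))

theorem cotree_exists (S : Sf) (hC : S.Con) {N : Set S.D} {δ : S.D → ℕ} {ρ : ℕ} (hF : Fo S N δ ρ)
    (root : S.Wd) : ∃ (e : S.Wd → S.D) (h : S.Wd → ℕ), Ct S N root e h := by
  classical
  set Lv := cotLv S N root with hLv
  have hW : Wl S N δ ∅ :=
    ⟨fun d hd => absurd hd (Set.notMem_empty d), fun y hy => absurd hy (Set.notMem_empty y),
      fun u _ hu => absurd hu (Set.notMem_empty u)⟩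
  set M : Set S.D := {d | ∃ n, S.wd d ∈ Lv n} with hM
  have hMi : S.Inv M := by
    intro d
    rw [hM, Set.mem_ofPred_eq, Set.mem_ofPred_eq, wd_r]
  have hMN : ∀ y ∈ N, y ∈ M → y ∉ (∅ : Set S.D) → S.a y ∈ M := by
    rintro y hy ⟨n, hn⟩ _
    refine ⟨n + 1, Or.inr ⟨S.a y, hF.cl y hy, rfl, ?_⟩⟩
    rw [S.aa]
    exact hn
  have hMa : ∀ d ∈ M, S.a d ∈ M := fun d hd => sector_out S hF hW M hMi hMN d hd (Set.notMem_empty d)
  have hall : ∀ P : S.Wd, ∃ n, P ∈ Lv n := by
    obtain ⟨d0, hd0⟩ := S.wd_surj root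
    rcases hC M hMi hMa with h0 | h1
    · exfalso
      have : d0 ∈ M := ⟨0, by rw [hd0]; exact rfl⟩
      rw [h0] at this
      exact this
    · intro P
      obtain ⟨d, hd⟩ := S.wd_surj P
      have : d ∈ M := by rw [h1]; exact Set.mem_univ d
      obtain ⟨n, hn⟩ := this
      exact ⟨n, by rw [← hd]; exact hn⟩
  set h : S.Wd → ℕ := fun P => Nat.find (hall P) with hh
  have key : ∀ P, P ≠ root → ∃ y ∈ N, S.wd y = P ∧ h (S.wd (S.a y)) < h P := by
    intro P hP
    have h1 : P ∈ Lv (h P) := Nat.find_spec (hall P)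
    rcases Nat.eq_zero_or_pos (h P) with h2 | h2
    · rw [h2] at h1
      exact absurd h1 hP
    · obtain ⟨m, hm⟩ := Nat.exists_eq_succ_of_ne_zero (Nat.pos_iff_ne_zero.1 h2)
      rw [hm] at h1
      rcases h1 with h1 | ⟨y, hy, hyP, hya⟩
      · have h3 : h P ≤ m := Nat.find_min' (hall P) h1
        omega
      · refine ⟨y, hy, hyP, ?_⟩
        have h3 : h (S.wd (S.a y)) ≤ m := Nat.find_min' (hall _) hya
        omega
  refine ⟨fun P => if hP : P = root then (S.wd_surj P).choose else (key P hP).choose, h, ?_, ?_, ?_⟩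
  · intro P hP
    show S.wd (dite _ _ _) = P
    rw [dif_neg hP]
    exact (key P hP).choose_spec.2.1
  · intro P hP
    show dite _ _ _ ∈ N
    rw [dif_neg hP]
    exact (key P hP).choose_spec.1
  · intro P hP
    show h (S.wd (S.a (dite _ _ _))) < h P
    rw [dif_neg hP]
    exact (key P hP).choose_spec.2.2

theorem Ct.card {S : Sf} {N : Set S.D} {root : S.Wd} {e : S.Wd → S.D} {h : S.Wd → ℕ} (hS : S.Closed) (hN : S.Cl N)
    (hT : Ct S N root e h) : hT.T ⊆ N ∧ S.Cl hT.T ∧ hT.T.ncard + 2 = 2 * Fintype.card S.Wd := by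
  classical
  refine ⟨?_, ?_, ?_⟩
  · rintro d ⟨P, hP, rfl | rfl⟩
    · exact hT.mem P hP
    · exact hN _ (hT.mem P hP)
  · rintro d ⟨P, hP, rfl | rfl⟩
    · exact ⟨P, hP, Or.inr rfl⟩
    · exact ⟨P, hP, Or.inl (S.aa _)⟩
  · set A : Set S.D := e '' {P | P ≠ root} with hA
    set B : Set S.D := (fun P => S.a (e P)) '' {P | P ≠ root} with hB
    have hTAB : hT.T = A ∪ B := by
      ext d
      constructor
      · rintro ⟨P, hP, rfl | rfl⟩
        · exact Or.inl ⟨P, hP, rfl⟩
        · exact Or.inr ⟨P, hP, rfl⟩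
      · rintro (⟨P, hP, rfl⟩ | ⟨P, hP, rfl⟩)
        · exact ⟨P, hP, Or.inl rfl⟩
        · exact ⟨P, hP, Or.inr rfl⟩
    have hinj : Set.InjOn e {P | P ≠ root} := by
      intro P hP Q hQ hPQ
      rw [← hT.wd P hP, ← hT.wd Q hQ, hPQ]
    have hinj' : Set.InjOn (fun P => S.a (e P)) {P | P ≠ root} := by
      intro P hP Q hQ hPQ
      exact hinj hP hQ (S.a.injective hPQ)
    have hdis : Disjoint A B := by
      rw [Set.disjoint_left]
      rintro d ⟨P, hP, hPd⟩ ⟨Q, hQ, hQd⟩
      have h1 : e P = S.a (e Q) := by rw [hPd]; exact hQd.symm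
      have h2 := hT.lt Q hQ
      rw [← h1, hT.wd P hP] at h2
      have h3 := hT.lt P hP
      rw [h1, S.aa, hT.wd Q hQ] at h3
      omega
    have hc1 : A.ncard = Set.ncard {P : S.Wd | P ≠ root} := Set.ncard_image_of_injOn hinj
    have hc2 : B.ncard = Set.ncard {P : S.Wd | P ≠ root} := Set.ncard_image_of_injOn hinj'
    have hc3 : Set.ncard {P : S.Wd | P ≠ root} + 1 = Fintype.card S.Wd := by
      have h1 : {P : S.Wd | P ≠ root} = (Set.univ \ {root}) := by
        ext P; simp
      rw [h1, Set.ncard_diff_singleton_add_one (Set.mem_univ root), Set.ncard_univ, Nat.card_eq_fintype_card]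
    rw [hTAB, Set.ncard_union_eq hdis (Set.toFinite _) (Set.toFinite _), hc1, hc2]
    omega

/-! ### counting -/

private theorem orb_one (S : Sf) (hC : S.Con) (hne : Nonempty S.D) : S.orb = 1 := by
  unfold Sf.orb
  rw [Nat.card_eq_one_iff_unique]
  refine ⟨⟨fun p q => ?_⟩, ⟨Quot.mk _ hne.some⟩⟩
  induction p using Quot.inductionOn with
  | h x =>
    induction q using Quot.inductionOn with
    | h y =>
      set A : Set S.D := {z | Quot.mk (fun x y : S.D => y = S.r x ∨ y = S.a x) x = Quot.mk _ z} with hA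
      have hi : S.Inv A := by
        intro z
        have h1 : Quot.mk (fun x y : S.D => y = S.r x ∨ y = S.a x) z = Quot.mk _ (S.r z) :=
          Quot.sound (Or.inl rfl)
        rw [hA, Set.mem_ofPred_eq, Set.mem_ofPred_eq, h1]
      have ha : ∀ z ∈ A, S.a z ∈ A := by
        intro z hz
        have h1 : Quot.mk (fun x y : S.D => y = S.r x ∨ y = S.a x) z = Quot.mk _ (S.a z) :=
          Quot.sound (Or.inr rfl)
        rw [hA, Set.mem_ofPred_eq] at hz ⊢
        rw [hz, h1]
      rcases hC A hi ha with h0 | h1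
      · exfalso
        have : x ∈ A := rfl
        rw [h0] at this
        exact this
      · have : y ∈ A := by rw [h1]; exact Set.mem_univ y
        exact this

private theorem sc_invol {D : Type} {a : Perm D} (haa : ∀ d, a (a d) = d) {x y : D} (h : a.SameCycle x y) :
    y = x ∨ y = a x := by
  obtain ⟨k, hk⟩ := h
  rcases Int.even_or_odd' k with ⟨m, hm | hm⟩
  · left
    have h2 : a ^ (2 : ℤ) = 1 := by
      ext d
      rw [show (2 : ℤ) = ((2 : ℕ) : ℤ) by norm_num, zpow_natCast, pow_two, Perm.mul_apply, haa, Perm.one_apply]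
    rw [hm, zpow_mul, h2, one_zpow, Perm.one_apply] at hk
    exact hk.symm
  · right
    have h2 : a ^ (2 : ℤ) = 1 := by
      ext d
      rw [show (2 : ℤ) = ((2 : ℕ) : ℤ) by norm_num, zpow_natCast, pow_two, Perm.mul_apply, haa, Perm.one_apply]
    rw [hm, zpow_add, zpow_mul, h2, one_zpow, one_mul, zpow_one] at hk
    exact hk.symm

private theorem nc_invol (S : Sf) (hS : S.Closed) : 2 * nc S.a = S.card := by
  classical
  unfold nc Sf.card
  haveI : Fintype (Quotient (Perm.SameCycle.setoid S.a)) :=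
    @Quotient.fintype _ _ _ (fun _ _ => Classical.propDecidable _)
  rw [Nat.card_eq_fintype_card]
  have h1 : Fintype.card S.D = ∑ c : Quotient (Perm.SameCycle.setoid S.a),
      (Finset.univ.filter fun d : S.D => Quotient.mk (Perm.SameCycle.setoid S.a) d = c).card := by
    rw [← Finset.card_univ]
    exact Finset.card_eq_sum_card_fiberwise (fun d _ => Finset.mem_univ _)
  have h2 : ∀ c : Quotient (Perm.SameCycle.setoid S.a),
      (Finset.univ.filter fun d : S.D => Quotient.mk (Perm.SameCycle.setoid S.a) d = c).card = 2 := by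
    intro c
    obtain ⟨x, rfl⟩ := Quotient.exists_rep c
    have h3 : (Finset.univ.filter fun d : S.D => Quotient.mk (Perm.SameCycle.setoid S.a) d = ⟦x⟧) = {x, S.a x} := by
      ext d
      rw [Finset.mem_filter, Finset.mem_insert, Finset.mem_singleton]
      constructor
      · rintro ⟨_, hd⟩
        have h4 : S.a.SameCycle d x := Quotient.exact hd
        exact sc_invol S.aa h4.symm
      · rintro (rfl | rfl)
        · exact ⟨Finset.mem_univ _, rfl⟩
        · refine ⟨Finset.mem_univ _, Quotient.sound ?_⟩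
          exact Perm.sameCycle_apply_left.mpr (Perm.SameCycle.refl _ _)
    rw [h3, Finset.card_pair fun h => hS x h.symm]
  rw [h1, Finset.sum_congr rfl (fun c _ => h2 c), Finset.sum_const, Finset.card_univ, smul_eq_mul, mul_comm]

theorem forest_count (S : Sf) (hS : S.Closed) (hC : S.Con) (hne : Nonempty S.D) {N : Set S.D} {δ : S.D → ℕ} {ρ : ℕ}
    (hF : Fo S N δ ρ) (R0 : Finset S.D) (hR : ∀ d, δ d = 0 → ∃ e ∈ R0, S.vx e d) :
    (N.ncard : ℤ) ≤ 2 * (S.gen - 2 + Fintype.card S.Wd + R0.card) := by
  classical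
  have hgen : S.gen = 2 - (nc (S.r * S.a) + nc S.r + nc S.a - S.card) := by
    unfold Sf.gen
    rw [orb_one S hC hne]
    norm_num
  have h1 := nc_invol S hS
  have h2 : nc S.r = Fintype.card S.Wd := by
    unfold nc
    exact Nat.card_eq_fintype_card (α := S.Wd)
  -- vertices
  set V := Quotient (Perm.SameCycle.setoid (S.r * S.a)) with hV
  haveI : Fintype V := @Quotient.fintype _ _ _ (fun _ _ => Classical.propDecidable _)
  have hVc : nc (S.r * S.a) = Fintype.card V := Nat.card_eq_fintype_card (α := V)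
  set q : S.D → V := fun d => Quotient.mk _ d with hq
  -- every vertex is a root vertex or has an up-letter
  have hcov : (Finset.univ : Finset V) ⊆ R0.image q ∪ ((S.up N δ).toFinset).image q := by
    intro v _
    obtain ⟨d, rfl⟩ := Quotient.exists_rep v
    rw [Finset.mem_union]
    rcases Nat.eq_zero_or_pos (δ d) with h0 | h0
    · obtain ⟨e, he, hed⟩ := hR d h0
      exact Or.inl (Finset.mem_image.2 ⟨e, he, Quotient.sound hed⟩)
    · obtain ⟨e, he, hed⟩ := hF.ex d h0
      exact Or.inr (Finset.mem_image.2 ⟨e, Set.mem_toFinset.2 he, Quotient.sound hed.symm⟩)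
  have h3 : Fintype.card V ≤ R0.card + (S.up N δ).ncard := by
    rw [← Finset.card_univ, Set.ncard_eq_toFinset_card']
    exact (Finset.card_le_card hcov).trans ((Finset.card_union_le _ _).trans
      (add_le_add Finset.card_image_le Finset.card_image_le))
  -- letters outside of `N`
  have h4 : N.ncard + 2 * (S.up N δ).ncard ≤ S.card := by
    have hd1 : Disjoint (S.up N δ) (S.a '' S.up N δ) := by
      rw [Set.disjoint_left]
      rintro d hd ⟨x, hx, hxd⟩
      have e1 := hd.2
      have e2 := hx.2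
      rw [← hxd, S.aa] at e1
      omega
    have hd2 : Disjoint N (S.up N δ ∪ S.a '' S.up N δ) := by
      rw [Set.disjoint_left]
      rintro d hd (h | ⟨x, hx, hxd⟩)
      · exact h.1 hd
      · refine hx.1 ?_
        have := hF.cl d hd
        rw [← hxd, S.aa] at this
        exact this
    have e1 : (S.a '' S.up N δ).ncard = (S.up N δ).ncard := Set.ncard_image_of_injective _ S.a.injective
    have e2 := Set.ncard_union_eq hd1 (Set.toFinite _) (Set.toFinite _)
    have e3 := Set.ncard_union_eq hd2 (Set.toFinite _) (Set.toFinite _)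
    have e4 : (N ∪ (S.up N δ ∪ S.a '' S.up N δ)).ncard ≤ S.card := by
      unfold Sf.card
      rw [← Nat.card_eq_fintype_card, ← Set.ncard_univ]
      exact Set.ncard_le_ncard (Set.subset_univ _) (Set.toFinite _)
    omega
  rw [hgen, ← h2, hVc]
  have h5 : (2 * nc S.a : ℤ) = S.card := by exact_mod_cast h1
  have h6 : (Fintype.card V : ℤ) ≤ R0.card + (S.up N δ).ncard := by exact_mod_cast h3
  have h7 : (N.ncard : ℤ) + 2 * (S.up N δ).ncard ≤ S.card := by exact_mod_cast h4
  linarith

end Pool.Agent.GW
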