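import Pool.Agent.GW.Cnd

/-!
# GW/CovDef (helper76): covers with prescribed joins, first return maps, caps: definitions

`cov S G K`: every letter `d ∈ G` is doubled: `inl d` keeps its partner, `cp d` replaces it in its old word, `pt d` is the
partner of `cp d`; the digons `(inl d, pt d)` are joined according to the partial successor map `K.N`:
`inl d → inl (K.N d)` and `pt (K.N d) → pt d`.
-/

set_option autoImplicit false

namespace Pool.Agent.GW

open Equiv Pool.Agent.SWP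

/-- an injective partial map (`N` = next, `P` = previous) -/
structure Lk (D : Type) where
  N : D → Option D
  P : D → Option D
  h : ∀ d e, N d = some e ↔ P e = some d

/-- swap of `inl d` and `inr (inl d)` for `d ∈ G` -/
noncomputable def th {D : Type} (G : Set D) : D ⊕ (D ⊕ D) → D ⊕ (D ⊕ D)
  | Sum.inl d => @ite _ (d ∈ G) (Classical.propDecidable _) (Sum.inr (Sum.inl d)) (Sum.inl d)
  | Sum.inr (Sum.inl d) => @ite _ (d ∈ G) (Classical.propDecidable _) (Sum.inl d) (Sum.inr (Sum.inl d))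
  | Sum.inr (Sum.inr d) => Sum.inr (Sum.inr d)

/-- swap of `inl d` and `inr (inr d)` for `d ∈ G` -/
noncomputable def de {D : Type} (G : Set D) : D ⊕ (D ⊕ D) → D ⊕ (D ⊕ D)
  | Sum.inl d => @ite _ (d ∈ G) (Classical.propDecidable _) (Sum.inr (Sum.inr d)) (Sum.inl d)
  | Sum.inr (Sum.inl d) => Sum.inr (Sum.inl d)
  | Sum.inr (Sum.inr d) => @ite _ (d ∈ G) (Classical.propDecidable _) (Sum.inl d) (Sum.inr (Sum.inr d))

/-- swap of `pt d` and `inl (N d)` -/
def ta {D : Type} (K : Lk D) : D ⊕ (D ⊕ D) → D ⊕ (D ⊕ D)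
  | Sum.inl d => (K.P d).elim (Sum.inl d) (fun e => Sum.inr (Sum.inr e))
  | Sum.inr (Sum.inl d) => Sum.inr (Sum.inl d)
  | Sum.inr (Sum.inr d) => (K.N d).elim (Sum.inr (Sum.inr d)) (fun e => Sum.inl e)

/-- the partner map of the cover -/
noncomputable def ac {D : Type} (G : Set D) (a : Perm D) : D ⊕ (D ⊕ D) → D ⊕ (D ⊕ D)
  | Sum.inl d => Sum.inl (a d)
  | Sum.inr (Sum.inl d) => @ite _ (d ∈ G) (Classical.propDecidable _) (Sum.inr (Sum.inr d)) (Sum.inr (Sum.inl d))
  | Sum.inr (Sum.inr d) => @ite _ (d ∈ G) (Classical.propDecidable _) (Sum.inr (Sum.inl d)) (Sum.inr (Sum.inr d))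

theorem th_inv {D : Type} (G : Set D) : Function.Involutive (th G) := by
  rintro (d | d | d)
  · by_cases h : d ∈ G <;> simp [th, h]
  · by_cases h : d ∈ G <;> simp [th, h]
  · rfl

theorem de_inv {D : Type} (G : Set D) : Function.Involutive (de G) := by
  rintro (d | d | d)
  · by_cases h : d ∈ G <;> simp [de, h]
  · rfl
  · by_cases h : d ∈ G <;> simp [de, h]

theorem ta_inv {D : Type} (K : Lk D) : Function.Involutive (ta K) := by
  rintro (d | d | d)
  · rcases h : K.P d with _ | e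
    · simp [ta, h]
    · simp [ta, h, (K.h e d).2 h]
  · rfl
  · rcases h : K.N d with _ | e
    · simp [ta, h]
    · simp [ta, h, (K.h d e).1 h]

theorem ac_inv {D : Type} (G : Set D) (a : Perm D) (ha : ∀ d, a (a d) = d) : Function.Involutive (ac G a) := by
  rintro (d | d | d)
  · simp [ac, ha]
  · by_cases h : d ∈ G <;> simp [ac, h]
  · by_cases h : d ∈ G <;> simp [ac, h]

namespace Sf

/-- the cover -/
noncomputable def cov (S : Sf) (G : Set S.D) (K : Lk S.D) : Sf where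
  D := S.D ⊕ (S.D ⊕ S.D)
  fD := inferInstance
  r := (ta_inv K).toPerm * (de_inv G).toPerm * (th_inv G).toPerm * Equiv.sumCongr S.r (Equiv.refl _) *
    (th_inv G).toPerm
  a := (ac_inv G S.a S.aa).toPerm
  aa := ac_inv G S.a S.aa

/-- rotation around the end vertex of the letter `f`: `g` is reached from `r f` by crossing letters which are not in `B`
and whose partners are not in `B` -/
def Cor (S : Sf) (B : Set S.D) (f g : S.D) : Prop :=
  ∃ k : ℕ, ((S.r * S.a) ^ k) (S.r f) = g ∧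
    ∀ i < k, ((S.r * S.a) ^ i) (S.r f) ∉ B ∧ S.a (((S.r * S.a) ^ i) (S.r f)) ∉ B

/-- `ρ` is the first return map of the hole cycles of `E` (the identity outside of `E`): after all letters outside of `E`
are glued, `ρ e` follows `e` -/
structure FR (S : Sf) (E : Set S.D) (ρ : Perm S.D) : Prop where
  off : ∀ d, d ∉ E → ρ d = d
  mem : ∀ e ∈ E, ρ e ∈ E
  cor : ∀ e ∈ E, S.Cor E e (ρ e)

/-- the closed state of the holes (letters outside of `E` are dead) -/
noncomputable def holes (S : Sf) (E : Set S.D) (ρ : Perm S.D) : Sf where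
  D := S.D
  fD := S.fD
  r := ρ
  a := S.a * S.beta Eᶜ
  aa := by
    intro d
    simp only [Perm.mul_apply]
    by_cases h : d ∈ Eᶜ ∧ S.a d ∈ Eᶜ
    · have h2 : S.a d ∈ Eᶜ ∧ S.a (S.a d) ∈ Eᶜ := ⟨h.2, by rw [S.aa]; exact h.1⟩
      have h1 : S.beta Eᶜ d = S.a d := S.betaFun_pos h
      rw [h1, S.aa, h1, S.aa]
    · have h1 : S.beta Eᶜ d = d := S.betaFun_neg h
      have h3 : ¬ (S.a d ∈ Eᶜ ∧ S.a (S.a d) ∈ Eᶜ) := fun h' => h ⟨by rw [← S.aa d]; exact h'.2, h'.1⟩
      have h4 : S.beta Eᶜ (S.a d) = S.a d := S.betaFun_neg h3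
      rw [h1, h4, S.aa]

end Sf

/-- partner map of the capped state -/
noncomputable def hatFun {D : Type} (E : Set D) (a : Perm D) : D ⊕ D → D ⊕ D
  | Sum.inl d => @ite _ (d ∈ E) (Classical.propDecidable _) (Sum.inr d) (Sum.inl (a d))
  | Sum.inr d => @ite _ (d ∈ E) (Classical.propDecidable _) (Sum.inl d) (Sum.inr d)

theorem hatFun_inv {D : Type} (E : Set D) (a : Perm D) (ha : ∀ d, a (a d) = d) (hE : ∀ d ∈ E, a d ∈ E) :
    Function.Involutive (hatFun E a) := by
  rintro (d | d)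
  · by_cases h : d ∈ E
    · simp [hatFun, h]
    · have h2 : a d ∉ E := fun h2 => h (by rw [← ha d]; exact hE _ h2)
      simp [hatFun, h, h2, ha]
  · by_cases h : d ∈ E <;> simp [hatFun, h]

/-- the capped state: a polygon (hat letters `inr e`) is glued into every hole of `E` -/
noncomputable def Sf.capped (S : Sf) (E : Set S.D) (hE : S.Cl E) (ρ : Perm S.D) : Sf where
  D := S.D ⊕ S.D
  fD := inferInstance
  r := Equiv.sumCongr S.r ρ⁻¹
  a := (hatFun_inv E S.a S.aa hE).toPerm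
  aa := hatFun_inv E S.a S.aa hE

/-- A system of rungs for the walls `E` with hole map `ρ`: `G` the letters of the rungs, `K` the successor map along the
rungs, `x i`, `y i` the hole letters at the beginning and at the end of the rung `i`, `f i`, `l i` its first and its last
letter. -/
structure Rg (S : Sf) (E : Set S.D) (ρ : Perm S.D) where
  G : Set S.D
  K : Lk S.D
  I : Type
  fI : Fintype I
  x : I → S.D
  y : I → S.D
  f : I → S.D
  l : I → S.D
  xE : ∀ i, x i ∈ E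
  yE : ∀ i, y i ∈ E
  xG : ∀ i, x i ∉ G
  yG : ∀ i, y i ∉ G
  live : ∀ d ∈ G, S.a d ≠ d
  NG : ∀ d e, K.N d = some e → d ∈ G ∧ e ∈ G ∧ S.Cor (E ∪ G) d e
  fG : ∀ i, f i ∈ G
  lG : ∀ i, l i ∈ G
  Pf : ∀ d ∈ G, K.P d = none ↔ ∃ i, d = f i
  Nl : ∀ d ∈ G, K.N d = none ↔ ∃ i, d = l i
  finj : Function.Injective f
  linj : Function.Injective l
  fl : ∀ i, Relation.ReflTransGen (fun d e => K.N d = some e) (f i) (l i)
  reach : ∀ d ∈ G, ∃ i, Relation.ReflTransGen (fun d e => K.N d = some e) (f i) d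
  xf : ∀ i, S.Cor (E ∪ G) (x i) (f i)
  ly : ∀ i, S.Cor (E ∪ G) (l i) (y i)
  xinj : Function.Injective x
  yinj : Function.Injective y
  xy : ∀ i j, ρ (x i) ≠ y j

/-- the new walls: the old ones and the two sides of the rungs -/
def Rg.E' {S : Sf} {E : Set S.D} {ρ : Perm S.D} (R : Rg S E ρ) : Set (S.D ⊕ (S.D ⊕ S.D))
  | Sum.inl d => d ∈ E
  | Sum.inr (Sum.inl d) => d ∈ R.G
  | Sum.inr (Sum.inr d) => d ∈ R.G

/-- letters of the rung `i` -/
def Rg.ch {S : Sf} {E : Set S.D} {ρ : Perm S.D} (R : Rg S E ρ) (i : R.I) : Set S.D :=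
  {d | Relation.ReflTransGen (fun d e => R.K.N d = some e) (R.f i) d}

/-- the values of the new hole map -/
structure Rg.Spec {S : Sf} {E : Set S.D} {ρ : Perm S.D} (R : Rg S E ρ) (ρ' : Perm (S.D ⊕ (S.D ⊕ S.D))) : Prop where
  old : ∀ d ∈ E, (∀ i, d ≠ R.x i) → (∀ i, ρ d ≠ R.y i) → ρ' (Sum.inl d) = Sum.inl (ρ d)
  atx : ∀ i, ρ' (Sum.inl (R.x i)) = Sum.inr (Sum.inl (R.f i))
  aty : ∀ d ∈ E, ∀ i, ρ d = R.y i → ρ' (Sum.inl d) = Sum.inr (Sum.inr (R.l i))
  cp : ∀ d e, R.K.N d = some e → ρ' (Sum.inr (Sum.inl d)) = Sum.inr (Sum.inl e)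
  cpl : ∀ i, ρ' (Sum.inr (Sum.inl (R.l i))) = Sum.inl (R.y i)
  pt : ∀ d e, R.K.N d = some e → ρ' (Sum.inr (Sum.inr e)) = Sum.inr (Sum.inr d)
  ptf : ∀ i, ρ' (Sum.inr (Sum.inr (R.f i))) = Sum.inl (ρ (R.x i))

end Pool.Agent.GW
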