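import Pool.Agent.GW.Cover
import Pool.Agent.GW.ArcL

/-!
# Computations in the doubled state
-/

set_option autoImplicit false

namespace Pool.Agent.GW

open Equiv Pool.Agent.SWP

section
variable {D : Type} {G J : Set D}

theorem cvN_inj {t u : D} (h : cvN G t = cvN G u) : t = u := by
  by_cases h1 : t ∈ G
  · rw [cvN_mem h1] at h
    by_cases h2 : u ∈ G
    · rw [cvN_mem h2] at h
      have := Sum.inr.inj h
      exact congrArg (fun z : G × Bool => (z.1 : D)) this
    · rw [cvN_notMem h2] at h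
      cases h
  · rw [cvN_notMem h1] at h
    by_cases h2 : u ∈ G
    · rw [cvN_mem h2] at h
      cases h
    · rw [cvN_notMem h2] at h
      exact Sum.inl.inj h

variable [Finite D] (r : Perm D)

theorem cvR_apply (c : D ⊕ (G × Bool)) : cvR r G J c = cvF r G J c := rfl

theorem cvR_out {t : D} (h : t ∉ G) : cvR r G J (Sum.inl t) = cvN G (r t) := dif_neg h

theorem cvR_join {t : D} (h : t ∈ G) (h1 : t ∈ J) (h2 : r t ∈ G) : cvR r G J (Sum.inl t) = Sum.inl (r t) :=
  (dif_pos h).trans (if_pos ⟨h1, h2⟩)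

theorem cvR_end {t : D} (h : t ∈ G) (h1 : ¬ (t ∈ J ∧ r t ∈ G)) :
    cvR r G J (Sum.inl t) = Sum.inr (⟨t, h⟩, true) :=
  (dif_pos h).trans (if_neg h1)

theorem cvR_false (x : G) : cvR r G J (Sum.inr (x, false)) = cvN G (r x) := rfl

theorem cvR_true_prev {x : G} (h : r.symm x ∈ G) (h1 : r.symm (x : D) ∈ J) :
    cvR r G J (Sum.inr (x, true)) = Sum.inr (⟨r.symm x, h⟩, true) := dif_pos ⟨h, h1⟩

theorem cvR_true_start {x : G} (h : ¬ (r.symm x ∈ G ∧ r.symm (x : D) ∈ J)) :
    cvR r G J (Sum.inr (x, true)) = Sum.inl (x : D) := dif_neg h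

/-- outer positions -/
theorem cvR_N (t : D) : cvR r G J (cvN G t) = cvN G (r t) := by
  by_cases h : t ∈ G
  · rw [cvN_mem h]; rfl
  · rw [cvN_notMem h, cvR_out r h]

end

section arcs
variable {D : Type} [Finite D] (r : Perm D) {G : Set D} {e f : D}

/-- the new word over an arc -/
def sideS (r : Perm D) (G : Set D) (x y : D) : Set (D ⊕ (G × Bool)) :=
  {c | (∃ t, c = Sum.inl t ∧ Arc r x y t) ∨ ∃ t : G, c = Sum.inr (t, true) ∧ Arc r x y t}

variable (hA : ∀ t, Arc r (r e) f t → t ∈ G) (he : e ∉ G) (hf : f ∉ G)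

include hA he hf in
theorem side_inv {c : D ⊕ (G × Bool)} (hc : c ∈ sideS r G (r e) f) : cvR r G Set.univ c ∈ sideS r G (r e) f := by
  rcases hc with ⟨t, rfl, ht⟩ | ⟨t, rfl, ht⟩
  · have htG := hA t ht
    rcases garc_next ht with h | h
    · rw [cvR_end r htG (fun h2 => hf (by rw [← h]; exact h2.2))]
      exact Or.inr ⟨⟨t, htG⟩, rfl, ht⟩
    · rw [cvR_join r htG (Set.mem_univ _) (hA _ h)]
      exact Or.inl ⟨r t, rfl, h⟩
  · rcases garc_prev ht with h | h
    · rw [cvR_true_start r (x := t) (fun h2 => he ?_)]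
      · exact Or.inl ⟨t, rfl, ht⟩
      · rw [h, Equiv.symm_apply_apply] at h2
        exact h2.1
    · rw [cvR_true_prev r (x := t) (hA _ h) (Set.mem_univ _)]
      exact Or.inr ⟨⟨r.symm t, hA _ h⟩, rfl, h⟩

include hA hf in
theorem side_up (hs : r.SameCycle e f) {t : D} (ht : Arc r (r e) f t) :
    (cvR r G Set.univ).SameCycle (Sum.inl t) (Sum.inr (⟨t, hA t ht⟩, true)) := by
  have key : ∀ n : ℕ, ∀ t, ∀ ht : Arc r (r e) f t, (r ^ n) t = f → (∀ m < n, (r ^ m) t ≠ f) →
      (cvR r G Set.univ).SameCycle (Sum.inl t) (Sum.inr (⟨t, hA t ht⟩, true)) := by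
    intro n
    induction n with
    | zero =>
      intro t ht h _
      exact absurd h (garc_ne ht)
    | succ n ih =>
      intro t ht h hm
      rcases garc_next ht with h3 | h3
      · have h4 := cvR_end r (J := Set.univ) (hA t ht) (fun h2 => hf (by rw [← h3]; exact h2.2))
        rw [← h4]
        exact Perm.sameCycle_apply_right.2 (Perm.SameCycle.refl _ _)
      · have h4 := cvR_join r (J := Set.univ) (hA t ht) (Set.mem_univ _) (hA _ h3)
        have h5 := ih (r t) h3 (by rw [← Perm.mul_apply, ← pow_succ]; exact h) (fun m hm' => by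
          have := hm (m + 1) (by omega)
          rw [pow_succ, Perm.mul_apply] at this
          exact this)
        have h6 : cvR r G Set.univ (Sum.inr (⟨r t, hA _ h3⟩, true)) = Sum.inr (⟨t, hA t ht⟩, true) := by
          have h7 := cvR_true_prev r (G := G) (J := Set.univ) (x := ⟨r t, hA _ h3⟩)
            (by simpa using hA t ht) (Set.mem_univ _)
          rw [h7]
          congr 2
          apply Subtype.ext
          simp
        have h8 : (cvR r G Set.univ).SameCycle (Sum.inl t) (Sum.inl (r t)) := by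
          rw [← h4]
          exact Perm.sameCycle_apply_right.2 (Perm.SameCycle.refl _ _)
        have h9 : (cvR r G Set.univ).SameCycle (Sum.inr (⟨r t, hA _ h3⟩, true)) (Sum.inr (⟨t, hA t ht⟩, true)) := by
          rw [← h6]
          exact Perm.sameCycle_apply_right.2 (Perm.SameCycle.refl _ _)
        exact (h8.trans h5).trans h9
  have hex : ∃ n : ℕ, (r ^ n) t = f :=
    ((garc_same' ht).symm.trans hs).exists_nat_pow_eq
  classical
  exact key (Nat.find hex) t ht (Nat.find_spec hex) (fun m hm => Nat.find_min hex hm)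

include hA he hf in
/-- the word over an arc is one cycle -/
theorem side_cycle (hs : r.SameCycle e f) {c : D ⊕ (G × Bool)} (hc : c ∈ sideS r G (r e) f) (c' : D ⊕ (G × Bool)) :
    (cvR r G Set.univ).SameCycle c c' ↔ c' ∈ sideS r G (r e) f := by
  have hinl : ∀ i : ℕ, ∀ t, (r ^ i) (r e) = t → (∀ i' ≤ i, (r ^ i') (r e) ≠ f) →
      (cvR r G Set.univ).SameCycle (Sum.inl (r e)) (Sum.inl t) := by
    intro i
    induction i with
    | zero =>
      intro t ht _
      rw [← ht]
      exact Perm.SameCycle.refl _ _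
    | succ i ih =>
      intro t ht h2
      have h3 := ih ((r ^ i) (r e)) rfl (fun i' hi' => h2 i' (by omega))
      have h4 : Arc r (r e) f ((r ^ i) (r e)) := ⟨i, rfl, fun i' hi' => h2 i' (by omega)⟩
      have h5 : Arc r (r e) f (r ((r ^ i) (r e))) := by
        refine ⟨i + 1, by rw [pow_succ', Perm.mul_apply], h2⟩
      have h6 := cvR_join r (J := Set.univ) (hA _ h4) (Set.mem_univ _) (hA _ h5)
      rw [← ht, pow_succ', Perm.mul_apply, ← h6]
      exact Perm.sameCycle_apply_right.2 h3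
  have base : ∀ c : D ⊕ (G × Bool), c ∈ sideS r G (r e) f →
      (cvR r G Set.univ).SameCycle (Sum.inl (r e)) c := by
    rintro c (⟨t, rfl, i, h1, h2⟩ | ⟨t, rfl, ht⟩)
    · exact hinl i t h1 h2
    · obtain ⟨i, h1, h2⟩ := ht
      exact (hinl i t h1 h2).trans (side_up r hA hf hs ⟨i, h1, h2⟩)
  constructor
  · intro h
    exact mem_of_same (fun d hd => side_inv r hA he hf hd) hc h
  · intro h
    exact (base c hc).symm.trans (base c' h)

end arcs

/-- a map which sends every step to a step or to nothing sends cycles into cycles -/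
theorem cyc_map {D D' : Type} [Finite D'] {r : Perm D} {r' : Perm D'} (κ : D' → D) (Z : Set D') (hZ : ∀ c ∈ Z, r' c ∈ Z)
    (h : ∀ c ∈ Z, r.SameCycle (κ c) (κ (r' c))) {c c' : D'} (hc : c ∈ Z) (hs : r'.SameCycle c c') :
    c' ∈ Z ∧ r.SameCycle (κ c) (κ c') := by
  have key : c' ∈ {z | z ∈ Z ∧ r.SameCycle (κ c) (κ z)} := by
    refine mem_of_same (s := r') ?_ (⟨hc, Perm.SameCycle.refl _ _⟩ : c ∈ {z | z ∈ Z ∧ r.SameCycle (κ c) (κ z)}) hs
    rintro z ⟨h1, h2⟩
    exact ⟨hZ z h1, h2.trans (h z h1)⟩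
  exact key

section vertices
variable (S : Sf) (G : Set S.D)

/-- old letter at the vertex of a letter of the doubled state -/
def cvK : S.D ⊕ (G × Bool) → S.D
  | Sum.inl t => t
  | Sum.inr (g, false) => g
  | Sum.inr (y, true) => S.r y

theorem cover_vx {c c' : (S.cover G Set.univ).D} (h : (S.cover G Set.univ).vx c c') :
    S.vx (cvK S G c) (cvK S G c') := by
  refine (cyc_map (r := S.r * S.a) (r' := (S.cover G Set.univ).r * (S.cover G Set.univ).a) (cvK S G) Set.univ
    (fun _ _ => Set.mem_univ _) ?_ (Set.mem_univ _) h).2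
  intro c _
  have hN : ∀ t, cvK S G (cvN G t) = t := by
    intro t
    by_cases ht : t ∈ G
    · rw [cvN_mem ht]; rfl
    · rw [cvN_notMem ht]; rfl
  have hstep : ∀ t, (S.r * S.a).SameCycle t (S.r (S.a t)) := by
    intro t
    rw [← Perm.mul_apply]
    exact Perm.sameCycle_apply_right.2 (Perm.SameCycle.refl _ _)
  rcases c with t | ⟨g, _ | _⟩
  · show (S.r * S.a).SameCycle t (cvK S G (cvR S.r G Set.univ (Sum.inl (S.a t))))
    by_cases h1 : S.a t ∈ G
    · by_cases h2 : S.r (S.a t) ∈ G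
      · rw [cvR_join S.r h1 (Set.mem_univ _) h2]
        exact hstep t
      · rw [cvR_end S.r h1 (fun h => h2 h.2)]
        exact hstep t
    · rw [cvR_out S.r h1, hN]
      exact hstep t
  · show (S.r * S.a).SameCycle (g : S.D) (cvK S G (cvR S.r G Set.univ (Sum.inr (g, true))))
    by_cases h1 : S.r.symm g ∈ G
    · rw [cvR_true_prev S.r h1 (Set.mem_univ _)]
      show (S.r * S.a).SameCycle (g : S.D) (S.r (S.r.symm g))
      rw [Equiv.apply_symm_apply]
    · rw [cvR_true_start S.r (fun h => h1 h.1)]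
      exact Perm.SameCycle.refl _ _
  · show (S.r * S.a).SameCycle (S.r g) (cvK S G (cvR S.r G Set.univ (Sum.inr (g, false))))
    rw [cvR_false, hN]

/-- inner corners of an arc get their own vertex -/
theorem cover_inner {g : S.D} (hg : g ∈ G) (h1 : S.r.symm g ∈ G) {c : (S.cover G Set.univ).D}
    (h : (S.cover G Set.univ).vx (Sum.inr (⟨g, hg⟩, false) : S.D ⊕ (G × Bool)) c) :
    c = (Sum.inr (⟨g, hg⟩, false) : S.D ⊕ (G × Bool)) ∨ c = (Sum.inr (⟨S.r.symm g, h1⟩, true) : S.D ⊕ (G × Bool)) := by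
  refine mem_of_same (s := (S.cover G Set.univ).r * (S.cover G Set.univ).a)
    (Z := {c | c = (Sum.inr (⟨g, hg⟩, false) : S.D ⊕ (G × Bool)) ∨
      c = (Sum.inr (⟨S.r.symm g, h1⟩, true) : S.D ⊕ (G × Bool))}) ?_ (Or.inl rfl) h
  rintro z (rfl | rfl)
  · right
    show cvR S.r G Set.univ (Sum.inr (⟨g, hg⟩, true)) = _
    rw [cvR_true_prev S.r (x := ⟨g, hg⟩) h1 (Set.mem_univ _)]
  · left
    show cvR S.r G Set.univ (Sum.inr (⟨S.r.symm g, h1⟩, false)) = _
    rw [cvR_false]
    show cvN G (S.r (S.r.symm g)) = _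
    rw [Equiv.apply_symm_apply, cvN_mem hg]

end vertices

end Pool.Agent.GW
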