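import Pool.Agent.GW.RungFR

/-!
# GW/CovLen: lengths and dead letters of the cover and of the capped state

PROOFS.  `cap_len`: `inl` maps the words of `S` to words of the capped state, `inr` the cycles of `ρ⁻¹`.  `cov_len`: the cover maps the place of
`d` (`cp d` for `d ∈ G`, `inl d` otherwise) to the place of `r d`; for `d ∈ G`: `inl d ↦ inl (N d)` or `pt d`, `pt d ↦ pt (P d)` or `inl d`.
-/

set_option autoImplicit false

namespace Pool.Agent.GW

open Equiv Pool.Agent.SWP

/-- a set which is mapped into itself contains the cycles of its elements -/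
theorem CovLen_mem {D : Type} [Finite D] (r : Perm D) (X : Set D) (h : ∀ d ∈ X, r d ∈ X) {d e : D} (hd : d ∈ X)
    (hs : r.SameCycle d e) : e ∈ X := by
  classical
  obtain ⟨n, hn⟩ := hs.exists_nat_pow_eq
  have key : ∀ n : ℕ, (r ^ n) d ∈ X := by
    intro n
    induction n with
    | zero => simpa using hd
    | succ n ih =>
      rw [pow_succ', Perm.mul_apply]
      exact h _ ih
  rw [← hn]
  exact key n

/-- an injective map which commutes with `r` maps cycles onto cycles -/
theorem CovLen_img {D D' : Type} [Finite D] [Finite D'] (r : Perm D) (r' : Perm D') (f : D → D')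
    (hf : Function.Injective f) (h : ∀ d, r' (f d) = f (r d)) (d : D) :
    {e | r'.SameCycle (f d) e} = f '' {e | r.SameCycle d e} := by
  have hpow : ∀ n : ℕ, (r' ^ n) (f d) = f ((r ^ n) d) := by
    intro n
    induction n with
    | zero => simp
    | succ n ih => rw [pow_succ', Perm.mul_apply, ih, h, pow_succ', Perm.mul_apply]
  ext e
  constructor
  · intro he
    obtain ⟨n, hn⟩ := (show r'.SameCycle (f d) e from he).exists_nat_pow_eq
    refine ⟨(r ^ n) d, ⟨(n : ℤ), by rw [zpow_natCast]⟩, ?_⟩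
    rw [← hpow, hn]
  · rintro ⟨x, hx, rfl⟩
    obtain ⟨n, hn⟩ := (show r.SameCycle d x from hx).exists_nat_pow_eq
    refine ⟨(n : ℤ), ?_⟩
    rw [zpow_natCast, hpow, hn]

/-- the length of the image of a word -/
theorem CovLen_len (S T : Sf) (f : S.D → T.D) (hf : Function.Injective f) (h : ∀ d, T.r (f d) = f (S.r d))
    (hl : ∀ d, T.a (f d) ≠ f d ↔ S.a d ≠ d) (d : S.D) : T.len (f d) = S.len d := by
  unfold Sf.len Sf.num Sf.word
  rw [CovLen_img S.r T.r f hf h d]
  have h1 : f '' {e | S.r.SameCycle d e} ∩ T.live = f '' ({e | S.r.SameCycle d e} ∩ S.live) := by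
    ext e
    constructor
    · rintro ⟨⟨x, hx, rfl⟩, hl2⟩
      exact ⟨x, ⟨hx, (hl x).mp hl2⟩, rfl⟩
    · rintro ⟨x, ⟨hx, hl2⟩, rfl⟩
      exact ⟨⟨x, hx, rfl⟩, (hl x).mpr hl2⟩
  rw [h1, Set.ncard_image_of_injective _ hf]

/-- a dead letter fixed by `r` has length `0` -/
theorem CovLen_zero (S : Sf) (d : S.D) (hr : S.r d = d) (ha : S.a d = d) : S.len d = 0 := by
  unfold Sf.len Sf.num Sf.word
  have h1 : {e | S.r.SameCycle d e} ∩ S.live = (∅ : Set S.D) := by
    ext e
    simp only [Set.mem_inter_iff, Set.mem_ofPred_eq, Set.mem_empty_iff_false, iff_false, not_and]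
    intro he hl
    have h2 : e ∈ ({d} : Set S.D) := CovLen_mem S.r {d} (fun x hx => by
      rw [Set.mem_singleton_iff] at hx ⊢; rw [hx, hr]) (Set.mem_singleton d) he
    rw [Set.mem_singleton_iff] at h2
    exact hl (by rw [h2]; exact ha)
  rw [h1, Set.ncard_empty]

theorem cap_len (S : Sf) (E : Set S.D) (hE : S.Cl E) (hlive : ∀ d ∈ E, S.a d ≠ d) (ρ : Perm S.D) (hρ : S.FR E ρ)
    (d : S.D) : (S.capped E hE ρ).len (Sum.inl d) = S.len d ∧ (S.capped E hE ρ).len (Sum.inr d) = (S.holes E ρ).len d := by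
  constructor
  · refine CovLen_len S (S.capped E hE ρ) Sum.inl Sum.inl_injective (fun e => rfl) (fun e => ?_) d
    have h0 : (S.capped E hE ρ).a (Sum.inl e) = hatFun E S.a (Sum.inl e) := rfl
    rw [h0]
    by_cases he : e ∈ E
    · have h1 := hlive e he
      simp [hatFun, he, h1]
    · have h1 : hatFun E S.a (Sum.inl e) = Sum.inl (S.a e) := by simp [hatFun, he]
      rw [h1]
      exact ⟨fun h h2 => h (by rw [h2]), fun h h2 => h (Sum.inl_injective h2)⟩
  · have h2 : (S.capped E hE ρ).len (Sum.inr d) =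
        (⟨S.D, S.fD, ρ⁻¹, (S.holes E ρ).a, (S.holes E ρ).aa⟩ : Sf).len d := by
      refine CovLen_len ⟨S.D, S.fD, ρ⁻¹, (S.holes E ρ).a, (S.holes E ρ).aa⟩ (S.capped E hE ρ) Sum.inr
        Sum.inr_injective (fun e => rfl) (fun e => ?_) d
      have h0 : (S.capped E hE ρ).a (Sum.inr e) = hatFun E S.a (Sum.inr e) := rfl
      have h3 : (⟨S.D, S.fD, ρ⁻¹, (S.holes E ρ).a, (S.holes E ρ).aa⟩ : Sf).a e = S.a (S.beta Eᶜ e) := rfl
      rw [h0]
      by_cases he : e ∈ E
      · have h1 := hlive e he
        have h4 : S.beta Eᶜ e = e := S.beta_notMem (fun h => h he)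
        have h5 : hatFun E S.a (Sum.inr e) = Sum.inl e := by simp [hatFun, he]
        rw [h5]
        constructor
        · intro _ h6
          rw [h3, h4] at h6
          exact h1 h6
        · intro _ h6
          exact Sum.inl_ne_inr h6
      · have h7 : S.a e ∉ E := fun h => he (by rw [← S.aa e]; exact hE _ h)
        have h4 : S.beta Eᶜ e = S.a e := S.betaFun_pos ⟨he, h7⟩
        have h5 : hatFun E S.a (Sum.inr e) = Sum.inr e := by simp [hatFun, he]
        rw [h5]
        constructor
        · intro h; exact absurd rfl h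
        · intro h
          rw [h3, h4, S.aa] at h
          exact absurd rfl h
    rw [h2]
    unfold Sf.len Sf.num
    congr 1
    have h3 : (⟨S.D, S.fD, ρ⁻¹, (S.holes E ρ).a, (S.holes E ρ).aa⟩ : Sf).word d = (S.holes E ρ).word d := by
      ext e
      show ρ⁻¹.SameCycle d e ↔ ρ.SameCycle d e
      exact Perm.sameCycle_inv
    rw [h3]
    rfl

/-- dead letters of the capped state are isolated -/
theorem cap_dead (S : Sf) (E : Set S.D) (hE : S.Cl E) (hlive : ∀ d ∈ E, S.a d ≠ d) (hd : ∀ d, S.a d = d → S.r d = d)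
    (ρ : Perm S.D) (hρ : S.FR E ρ) (t : (S.capped E hE ρ).D) (ht : (S.capped E hE ρ).a t = t) :
    (S.capped E hE ρ).r t = t := by
  rcases t with d | d
  · have h0 : hatFun E S.a (Sum.inl d) = Sum.inl d := ht
    by_cases he : d ∈ E
    · exfalso
      simp [hatFun, he] at h0
    · have h1 : S.a d = d := by simpa [hatFun, he] using h0
      show Sum.inl (S.r d) = Sum.inl d
      rw [hd d h1]
  · have h0 : hatFun E S.a (Sum.inr d) = Sum.inr d := ht
    by_cases he : d ∈ E
    · exfalso
      simp [hatFun, he] at h0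
    · show Sum.inr (ρ⁻¹ d) = Sum.inr d
      have h1 : ρ⁻¹ d = d := by
        rw [Perm.inv_eq_iff_eq]
        exact (hρ.off d he).symm
      rw [h1]

/-- dead letters of the cover are isolated -/
theorem CovLen_dead (S : Sf) (G : Set S.D) (K : Lk S.D) (hK : ∀ d e, K.N d = some e → d ∈ G ∧ e ∈ G) {d : S.D}
    (hd : d ∉ G) :
    ((S.cov G K).a (Sum.inr (Sum.inl d)) = Sum.inr (Sum.inl d) ∧ (S.cov G K).r (Sum.inr (Sum.inl d)) = Sum.inr (Sum.inl d)) ∧
    ((S.cov G K).a (Sum.inr (Sum.inr d)) = Sum.inr (Sum.inr d) ∧ (S.cov G K).r (Sum.inr (Sum.inr d)) = Sum.inr (Sum.inr d)) := by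
  have hN : K.N d = none := by
    rcases h : K.N d with _ | e
    · rfl
    · exact absurd (hK d e h).1 hd
  refine ⟨⟨?_, ?_⟩, ⟨?_, ?_⟩⟩
  · show ac G S.a (Sum.inr (Sum.inl d)) = _
    simp [ac, hd]
  · show rcov G K S.r (Sum.inr (Sum.inl d)) = _
    simp [rcov, th, de, ta, hd]
  · show ac G S.a (Sum.inr (Sum.inr d)) = _
    simp [ac, hd]
  · show rcov G K S.r (Sum.inr (Sum.inr d)) = _
    simp [rcov, th, de, ta, hd, hN]

/-- dead letters of the cover of a closed state are isolated, letters of `E'` are live -/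
theorem cov_live (S : Sf) (hS : S.Closed) (E : Set S.D) (ρ : Perm S.D) (R : Rg S E ρ) :
    (∀ e, (S.cov R.G R.K).a e = e → (S.cov R.G R.K).r e = e) ∧ (∀ e ∈ R.E', (S.cov R.G R.K).a e ≠ e) ∧
    (∀ e, (S.cov R.G R.K).a e ≠ e ↔ ∃ d, e = Sum.inl d ∨ (d ∈ R.G ∧ (e = Sum.inr (Sum.inl d) ∨ e = Sum.inr (Sum.inr d)))) := by
  have hK : ∀ d e, R.K.N d = some e → d ∈ R.G ∧ e ∈ R.G := fun d e h => ⟨(R.NG d e h).1, (R.NG d e h).2.1⟩
  have hinl : ∀ d, (S.cov R.G R.K).a (Sum.inl d) ≠ Sum.inl d := fun d h => hS d (Sum.inl_injective h)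
  have hcp : ∀ d ∈ R.G, (S.cov R.G R.K).a (Sum.inr (Sum.inl d)) ≠ Sum.inr (Sum.inl d) := fun d hd h => by
    rw [cov_a_cp S R.G R.K hd] at h
    exact Sum.inr_ne_inl (Sum.inr_injective h)
  have hpt : ∀ d ∈ R.G, (S.cov R.G R.K).a (Sum.inr (Sum.inr d)) ≠ Sum.inr (Sum.inr d) := fun d hd h => by
    rw [cov_a_pt S R.G R.K hd] at h
    exact Sum.inl_ne_inr (Sum.inr_injective h)
  refine ⟨?_, ?_, ?_⟩
  · rintro (d | d | d) h
    · exact absurd h (hinl d)
    · by_cases hd : d ∈ R.G
      · exact absurd h (hcp d hd)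
      · exact (CovLen_dead S R.G R.K hK hd).1.2
    · by_cases hd : d ∈ R.G
      · exact absurd h (hpt d hd)
      · exact (CovLen_dead S R.G R.K hK hd).2.2
  · rintro (d | d | d) h
    · exact hinl d
    · exact hcp d h
    · exact hpt d h
  · rintro (d | d | d)
    · exact ⟨fun _ => ⟨d, Or.inl rfl⟩, fun _ => hinl d⟩
    · constructor
      · intro h
        by_cases hd : d ∈ R.G
        · exact ⟨d, Or.inr ⟨hd, Or.inl rfl⟩⟩
        · exact absurd (CovLen_dead S R.G R.K hK hd).1.1 h
      · rintro ⟨d', h | ⟨hd, h | h⟩⟩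
        · exact absurd h Sum.inr_ne_inl
        · have h1 : d = d' := Sum.inl_injective (Sum.inr_injective h)
          rw [h1]
          exact hcp d' hd
        · exact absurd (Sum.inr_injective h) Sum.inl_ne_inr
    · constructor
      · intro h
        by_cases hd : d ∈ R.G
        · exact ⟨d, Or.inr ⟨hd, Or.inr rfl⟩⟩
        · exact absurd (CovLen_dead S R.G R.K hK hd).2.1 h
      · rintro ⟨d', h | ⟨hd, h | h⟩⟩
        · exact absurd h Sum.inr_ne_inl
        · exact absurd (Sum.inr_injective h) Sum.inr_ne_inl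
        · have h1 : d = d' := Sum.inr_injective (Sum.inr_injective h)
          rw [h1]
          exact hpt d' hd

/-- the lengths of the words of the cover -/
theorem cov_len (S : Sf) (G : Set S.D) (K : Lk S.D) (hlive : ∀ d ∈ G, S.a d ≠ d)
    (hK : ∀ d e, K.N d = some e → d ∈ G ∧ e ∈ G) :
    (∀ d, d ∉ G → (S.cov G K).len (Sum.inl d) = S.len d ∧ (S.cov G K).len (Sum.inr (Sum.inl d)) = 0 ∧
      (S.cov G K).len (Sum.inr (Sum.inr d)) = 0) ∧
    (∀ d ∈ G, (S.cov G K).len (Sum.inr (Sum.inl d)) = S.len d ∧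
      (S.cov G K).len (Sum.inl d) ≤ 2 * Set.ncard {e | Relation.EqvGen (fun x y => K.N x = some y) d e} ∧
      (S.cov G K).len (Sum.inr (Sum.inr d)) ≤ 2 * Set.ncard {e | Relation.EqvGen (fun x y => K.N x = some y) d e}) := by
  have hP : ∀ e, e ∉ G → K.P e = none := fun e he => by
    rcases h : K.P e with _ | d
    · rfl
    · exact absurd (hK d e ((K.h d e).mpr h)).2 he
  have hpl : ∀ d, (S.cov G K).len (th G (Sum.inl d)) = S.len d := by
    intro d
    refine CovLen_len S (S.cov G K) (fun d => th G (Sum.inl d))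
      (fun x y h => Sum.inl_injective ((th_inv G).injective h)) (fun e => ?_) (fun e => ?_) d
    · show rcov G K S.r (th G (Sum.inl e)) = th G (Sum.inl (S.r e))
      by_cases he : e ∈ G
      · rw [th_mem he]
        exact rcov_cp hP he
      · rw [th_not he]
        exact rcov_old hP he
    · show (S.cov G K).a (th G (Sum.inl e)) ≠ th G (Sum.inl e) ↔ S.a e ≠ e
      by_cases he : e ∈ G
      · rw [th_mem he, cov_a_cp S G K he]
        exact ⟨fun _ => hlive e he, fun _ h => Sum.inr_ne_inl (Sum.inr_injective h)⟩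
      · rw [th_not he]
        show Sum.inl (S.a e) ≠ Sum.inl e ↔ S.a e ≠ e
        exact ⟨fun h h2 => h (by rw [h2]), fun h h2 => h (Sum.inl_injective h2)⟩
  constructor
  · intro d hd
    have h1 := hpl d
    rw [th_not hd] at h1
    have h2 := CovLen_dead S G K hK hd
    exact ⟨h1, CovLen_zero _ _ h2.1.2 h2.1.1, CovLen_zero _ _ h2.2.2 h2.2.1⟩
  · intro d hd
    have h1 := hpl d
    rw [th_mem hd] at h1
    refine ⟨h1, ?_⟩
    have hclG : ∀ e, Relation.EqvGen (fun x y => K.N x = some y) d e → e ∈ G := by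
      have h2 : ∀ x y, Relation.EqvGen (fun x y => K.N x = some y) x y → (x ∈ G ↔ y ∈ G) := by
        intro x y h
        induction h with
        | rel x y h => exact ⟨fun _ => (hK x y h).2, fun _ => (hK x y h).1⟩
        | refl x => exact Iff.rfl
        | symm x y _ ih => exact ih.symm
        | trans x y z _ _ ih1 ih2 => exact ih1.trans ih2
      exact fun e he => (h2 d e he).mp hd
    have key : ∀ x : S.D ⊕ (S.D ⊕ S.D),
        x ∈ Sum.inl '' {e | Relation.EqvGen (fun x y => K.N x = some y) d e} ∪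
          (fun e => (Sum.inr (Sum.inr e) : S.D ⊕ (S.D ⊕ S.D))) '' {e | Relation.EqvGen (fun x y => K.N x = some y) d e} →
        (S.cov G K).len x ≤ 2 * Set.ncard {e | Relation.EqvGen (fun x y => K.N x = some y) d e} := by
      intro x hx
      have hstep : ∀ y ∈ Sum.inl '' {e | Relation.EqvGen (fun x y => K.N x = some y) d e} ∪
          (fun e => (Sum.inr (Sum.inr e) : S.D ⊕ (S.D ⊕ S.D))) '' {e | Relation.EqvGen (fun x y => K.N x = some y) d e},
          (S.cov G K).r y ∈ Sum.inl '' {e | Relation.EqvGen (fun x y => K.N x = some y) d e} ∪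
          (fun e => (Sum.inr (Sum.inr e) : S.D ⊕ (S.D ⊕ S.D))) '' {e | Relation.EqvGen (fun x y => K.N x = some y) d e} := by
        rintro y (⟨e, he, rfl⟩ | ⟨e, he, rfl⟩)
        · have h3 : (S.cov G K).r (Sum.inl e) = ta K (Sum.inr (Sum.inr e)) := rcov_inl (hclG e he)
          rw [h3]
          rcases hN : K.N e with _ | e'
          · rw [ta_pt_none hN]
            exact Or.inr ⟨e, he, rfl⟩
          · rw [ta_pt_some hN]
            exact Or.inl ⟨e', Relation.EqvGen.trans _ _ _ he (Relation.EqvGen.rel _ _ hN), rfl⟩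
        · have h3 : (S.cov G K).r (Sum.inr (Sum.inr e)) = ta K (Sum.inl e) := rcov_pt (s := S.r) (hclG e he)
          show (S.cov G K).r (Sum.inr (Sum.inr e)) ∈ _
          rw [h3]
          rcases hN : K.P e with _ | e'
          · rw [ta_inl_none hN]
            exact Or.inl ⟨e, he, rfl⟩
          · rw [ta_inl_some hN]
            exact Or.inr ⟨e', Relation.EqvGen.trans _ _ _ he
              (Relation.EqvGen.symm _ _ (Relation.EqvGen.rel _ _ ((K.h e' e).mpr hN))), rfl⟩
      have hsub : (S.cov G K).word x ∩ (S.cov G K).live ⊆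
          Sum.inl '' {e | Relation.EqvGen (fun x y => K.N x = some y) d e} ∪
          (fun e => (Sum.inr (Sum.inr e) : S.D ⊕ (S.D ⊕ S.D))) '' {e | Relation.EqvGen (fun x y => K.N x = some y) d e} :=
        fun y hy => CovLen_mem (S.cov G K).r _ hstep hx hy.1
      unfold Sf.len Sf.num
      refine (Set.ncard_le_ncard hsub (Set.toFinite _)).trans ((Set.ncard_union_le _ _).trans ?_)
      have h4 := Set.ncard_image_le (f := (Sum.inl : S.D → S.D ⊕ (S.D ⊕ S.D)))
        (Set.toFinite {e | Relation.EqvGen (fun x y => K.N x = some y) d e})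
      have h5 := Set.ncard_image_le (f := (fun e => (Sum.inr (Sum.inr e) : S.D ⊕ (S.D ⊕ S.D))))
        (Set.toFinite {e | Relation.EqvGen (fun x y => K.N x = some y) d e})
      exact (Nat.add_le_add h4 h5).trans (le_of_eq (two_mul _).symm)
    exact ⟨key _ (Or.inl ⟨d, Relation.EqvGen.refl d, rfl⟩), key _ (Or.inr ⟨d, Relation.EqvGen.refl d, rfl⟩)⟩

/-- the classes of the chains -/
theorem Rg.cls {S : Sf} {E : Set S.D} {ρ : Perm S.D} (R : Rg S E ρ) (d : S.D) (hd : d ∈ R.G) :
    ∃ i, d ∈ R.ch i ∧ {e | Relation.EqvGen (fun x y => R.K.N x = some y) d e} = R.ch i := by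
  obtain ⟨i, hi⟩ := R.reach d hd
  refine ⟨i, hi, ?_⟩
  have h2 : ∀ x y, Relation.EqvGen (fun x y => R.K.N x = some y) x y → (x ∈ R.ch i ↔ y ∈ R.ch i) := by
    intro x y h
    induction h with
    | rel x y h =>
      constructor
      · intro hx
        exact Relation.ReflTransGen.tail hx h
      · intro hy
        have hP := (R.K.h x y).mp h
        rcases Relation.ReflTransGen.cases_tail hy with h3 | ⟨z, hz, h3⟩
        · exfalso
          rw [h3] at hP
          have h4 := (R.Pf (R.f i) (R.fG i)).mpr ⟨i, rfl⟩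
          rw [h4] at hP
          exact absurd hP (by simp)
        · have h4 := (R.K.h z y).mp h3
          rw [hP] at h4
          have h5 : x = z := Option.some_injective _ h4
          rw [h5]
          exact hz
    | refl x => exact Iff.rfl
    | symm x y _ ih => exact ih.symm
    | trans x y z _ _ ih1 ih2 => exact ih1.trans ih2
  have h3 : ∀ e, Relation.ReflTransGen (fun x y => R.K.N x = some y) (R.f i) e →
      Relation.EqvGen (fun x y => R.K.N x = some y) (R.f i) e := by
    intro e he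
    induction he with
    | refl => exact Relation.EqvGen.refl _
    | tail _ h ih => exact Relation.EqvGen.trans _ _ _ ih (Relation.EqvGen.rel _ _ h)
  ext e
  constructor
  · intro he
    exact (h2 d e he).mp hi
  · intro he
    exact Relation.EqvGen.trans _ _ _ (Relation.EqvGen.symm _ _ (h3 d hi)) (h3 e he)

end Pool.Agent.GW
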