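import Pool.Agent.GW.Route

/-!
# Choice of a strand

`MK`: marked live outer letters. If the word of `z` has at least `6 m` marked letters there is a chain which respects the net from
a marked letter to a marked letter of this word, with at least `m` marked letters on both arcs, cheap for `ω`.

PROOF. Number the marked letters of the word in cyclic order; `W1` = the first `m`, `W2` = the numbers `2m+1 .. 3m`. Let
`f d = ω (hub (a d)) + s (hub (a d))`; `a x ∈ W1` with least `f`, `a y ∈ W2` with least `f` among the letters with `hub (a y) ≠ hub (a x)` (at least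
`m/2` of them because a hub has at most `4^b Th` fat letters). From the word of `x` go up by the up letters to a centre word `X`
(entry `e`); `I` = labels of the good neighbours `hub (a f)`, `f ∈ fr` in `X` with at least `K/4^(t+1)` fresh letters on both sides (at most
`2 K/4^(t+1)` fresh letters are bad on one side because the number of fresh letters before `f` determines `f`; `frU` makes `f ↦ hub (a f)`
injective; at most `R β` labels adjacent to the hub are forbidden). The same for `y`. `Fb` = labels which are absent or touched.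
`Leg g h h'`: for all fresh letters `f`, `f'` at `g` with `hub (a f) = h`, `hub (a f') = h'`: `f ≠ f'` and both arcs have at least `K/4` fresh
letters. `RouteOK` gives the labels; the letters between untouched present hubs are given by `frE`, `one`, `frU`.
-/

set_option autoImplicit false

namespace Pool.Agent.GW

open Equiv Pool.Agent.SWP

/-- every line has at most `β` labels which are absent or touched -/
def FewBad {R B : ℕ} (P : Par R B) (N : NetS R B) (β : ℕ) : Prop :=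
  ∀ (g : Lab R B) (i : Fin R),
    {v : Fin B | Function.update g i v ∉ P.pres ∨ N.t (Function.update g i v) ≠ 0}.ncard ≤ β

/-- bound for the number of letters of the words of a chain -/
def kap {R B : ℕ} (P : Par R B) (b : ℕ) : ℕ := 2 * 4 ^ b * P.Th + (2 * R + 3) * 4 ^ b * P.Th0

/-- cost of the letters of `A` -/
noncomputable def fsum {R B : ℕ} (N : NetS R B) (f : Lab R B → ℝ) (A : Set N.S.D) : ℝ :=
  ∑ d, Set.indicator A (fun d => f (N.hub (N.S.a d))) d

section pos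

variable {D : Type} [Finite D]

/-- least number of steps from `x` to `d` -/
private noncomputable def cc_ps (s : Perm D) (x d : D) : ℕ := sInf {i : ℕ | (s ^ i) x = d}

private theorem cc_ps_spec {s : Perm D} {x d : D} (h : s.SameCycle x d) : (s ^ cc_ps s x d) x = d := by
  obtain ⟨n, hn⟩ := h.exists_nat_pow_eq
  exact Nat.sInf_mem (s := {i : ℕ | (s ^ i) x = d}) ⟨n, hn⟩

omit [Finite D] in
private theorem cc_ps_le {s : Perm D} {x d : D} {i : ℕ} (h : (s ^ i) x = d) : cc_ps s x d ≤ i :=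
  Nat.sInf_le h

private theorem cc_ps_inj {s : Perm D} {x d e : D} (hd : s.SameCycle x d) (he : s.SameCycle x e)
    (h : cc_ps s x d = cc_ps s x e) : d = e := by
  rw [← cc_ps_spec hd, ← cc_ps_spec he, h]

omit [Finite D] in
private theorem cc_ps_self (s : Perm D) (x : D) : cc_ps s x x = 0 :=
  Nat.le_zero.1 (cc_ps_le (by simp))

omit [Finite D] in
private theorem cc_pow_add {s : Perm D} (m n : ℕ) (z : D) : (s ^ (m + n)) z = (s ^ m) ((s ^ n) z) := by
  rw [pow_add, Perm.mul_apply]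

private theorem cc_ps_dist {s : Perm D} {x c : D} (hc : s.SameCycle x c) {i j : ℕ} (hij : i < j)
    (hj : j ≤ cc_ps s x c) : (s ^ i) x ≠ (s ^ j) x := by
  intro h
  have h1 : (s ^ (cc_ps s x c - j + i)) x = c := by
    rw [cc_pow_add, h, ← cc_pow_add, Nat.sub_add_cancel hj]
    exact cc_ps_spec hc
  have := cc_ps_le h1
  omega

private theorem cc_arc1 {s : Perm D} {x d e c : D} (hd : s.SameCycle x d) (hc : s.SameCycle x c)
    (h1 : cc_ps s x d < cc_ps s x c) (h2 : cc_ps s x c < cc_ps s x e) : Arc s (s d) e c := by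
  have key : ∀ i, (s ^ i) (s d) = (s ^ (i + 1 + cc_ps s x d)) x := by
    intro i
    rw [cc_pow_add, cc_ps_spec hd, pow_succ, Perm.mul_apply]
  refine ⟨cc_ps s x c - cc_ps s x d - 1, ?_, ?_⟩
  · rw [key]
    rw [show cc_ps s x c - cc_ps s x d - 1 + 1 + cc_ps s x d = cc_ps s x c by omega]
    exact cc_ps_spec hc
  · intro i hi h
    rw [key] at h
    have := cc_ps_le h
    omega

private theorem cc_arc2 {s : Perm D} {x d e c : D} (hd : s.SameCycle x d) (he : s.SameCycle x e)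
    (hc : s.SameCycle x c) (h1 : cc_ps s x d < cc_ps s x e) (h2 : cc_ps s x e < cc_ps s x c) :
    Arc s (s e) d c := by
  have key : ∀ i, (s ^ i) (s e) = (s ^ (i + 1 + cc_ps s x e)) x := by
    intro i
    rw [cc_pow_add, cc_ps_spec he, pow_succ, Perm.mul_apply]
  refine ⟨cc_ps s x c - cc_ps s x e - 1, ?_, ?_⟩
  · rw [key]
    rw [show cc_ps s x c - cc_ps s x e - 1 + 1 + cc_ps s x e = cc_ps s x c by omega]
    exact cc_ps_spec hc
  · intro i hi h
    rw [key] at h
    have h3 := cc_ps_spec hd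
    rw [← h] at h3
    rw [h] at h3
    refine cc_ps_dist hc (i := cc_ps s x d) (j := i + 1 + cc_ps s x e) (by omega) (by omega) ?_
    rw [h3, h]

end pos

section rank

variable {D α : Type} [LinearOrder α]

open Classical in
/-- number of elements of `A` before `f` -/
private noncomputable def cc_rk (A : Finset D) (p : D → α) (f : D) : ℕ := (A.filter (fun d => p d < p f)).card

private theorem cc_rk_lt {A : Finset D} {p : D → α} {f f' : D} (hf : f ∈ A) (h : p f < p f') :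
    cc_rk A p f < cc_rk A p f' := by
  classical
  unfold cc_rk
  apply Finset.card_lt_card
  refine ⟨?_, ?_⟩
  · intro d hd
    rw [Finset.mem_filter] at hd ⊢
    exact ⟨hd.1, hd.2.trans h⟩
  · intro hc
    have h1 : f ∈ A.filter (fun d => p d < p f) := hc (Finset.mem_filter.2 ⟨hf, h⟩)
    exact lt_irrefl _ (Finset.mem_filter.1 h1).2

private theorem cc_rk_inj {A : Finset D} {p : D → α} (hp : Set.InjOn p A) : Set.InjOn (cc_rk A p) A := by
  intro f hf f' hf' h
  by_contra hne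
  rcases lt_trichotomy (p f) (p f') with h1 | h1 | h1
  · exact absurd h (cc_rk_lt hf h1).ne
  · exact hne (hp hf hf' h1)
  · exact absurd h (cc_rk_lt hf' h1).ne'

private theorem cc_rk_few {A : Finset D} {p : D → α} (hp : Set.InjOn p A) (q : ℕ) :
    {f | f ∈ A ∧ cc_rk A p f < q}.ncard ≤ q := by
  classical
  have h1 : {f | f ∈ A ∧ cc_rk A p f < q} = ↑(A.filter (fun f => cc_rk A p f < q)) := by
    ext f
    simp
  rw [h1, Set.ncard_coe_finset]
  have h2 : (A.filter (fun f => cc_rk A p f < q)).card ≤ (Finset.range q).card := by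
    refine Finset.card_le_card_of_injOn (cc_rk A p) ?_ ?_
    · intro f hf
      have := (Finset.mem_filter.1 hf).2
      exact Finset.mem_coe.2 (Finset.mem_range.2 this)
    · intro f hf f' hf' h
      exact cc_rk_inj hp (Finset.mem_filter.1 hf).1 (Finset.mem_filter.1 hf').1 h
  rwa [Finset.card_range] at h2

private theorem cc_rk_image {A : Finset D} {p : D → α} (hp : Set.InjOn p A) {i : ℕ} (hi : i < A.card) :
    ∃ f ∈ A, cc_rk A p f = i := by
  classical
  have h1 : A.image (cc_rk A p) ⊆ Finset.range A.card := by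
    intro j hj
    obtain ⟨f, hf, rfl⟩ := Finset.mem_image.1 hj
    rw [Finset.mem_range]
    unfold cc_rk
    apply Finset.card_lt_card
    refine ⟨Finset.filter_subset _ _, ?_⟩
    intro hc
    exact lt_irrefl _ (Finset.mem_filter.1 (hc hf)).2
  have h2 : A.image (cc_rk A p) = Finset.range A.card := by
    apply Finset.eq_of_subset_of_card_le h1
    rw [Finset.card_range, Finset.card_image_of_injOn (cc_rk_inj hp)]
  have h3 : i ∈ A.image (cc_rk A p) := by
    rw [h2]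
    exact Finset.mem_range.2 hi
  obtain ⟨f, hf, h⟩ := Finset.mem_image.1 h3
  exact ⟨f, hf, h⟩

open Classical in
private theorem cc_rk_Ico {A : Finset D} {p : D → α} (hp : Set.InjOn p A) {i j : ℕ} (hj : j ≤ A.card) :
    (A.filter (fun f => i ≤ cc_rk A p f ∧ cc_rk A p f < j)).card = j - i := by
  rw [← Nat.card_Ico i j]
  rw [← Finset.card_image_of_injOn (f := cc_rk A p) (s := A.filter (fun f => i ≤ cc_rk A p f ∧ cc_rk A p f < j))
    (fun f hf f' hf' h => cc_rk_inj hp (Finset.mem_filter.1 hf).1 (Finset.mem_filter.1 hf').1 h)]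
  congr 1
  ext k
  rw [Finset.mem_image, Finset.mem_Ico]
  constructor
  · rintro ⟨f, hf, rfl⟩
    exact (Finset.mem_filter.1 hf).2
  · rintro ⟨h1, h2⟩
    obtain ⟨f, hf, rfl⟩ := cc_rk_image hp (lt_of_lt_of_le h2 hj)
    exact ⟨f, Finset.mem_filter.2 ⟨hf, h1, h2⟩, rfl⟩

private theorem cc_lt_of_rk_lt {A : Finset D} {p : D → α} (hp : Set.InjOn p A) {f f' : D} (hf : f ∈ A) (hf' : f' ∈ A)
    (h : cc_rk A p f < cc_rk A p f') : p f < p f' := by
  rcases lt_trichotomy (p f) (p f') with h1 | h1 | h1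
  · exact h1
  · have := hp hf hf' h1
    subst this
    exact absurd h (lt_irrefl _)
  · exact absurd h (cc_rk_lt hf' h1).not_gt

end rank

/-- marks on the arcs between the first `m` marks and the marks `2m+1 .. 3m` -/
private theorem cc_marks {D : Type} [Fintype D] (r : Perm D) (MK : Set D) (z : D) (m : ℕ)
    (hz : 6 * m ≤ (MK ∩ {d | r.SameCycle z d}).ncard) :
    ∃ W1 W2 : Finset D, (∀ d ∈ W1, d ∈ MK ∧ r.SameCycle z d) ∧ (∀ d ∈ W2, d ∈ MK ∧ r.SameCycle z d) ∧
      Disjoint W1 W2 ∧ W1.card = m ∧ W2.card = m ∧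
      ∀ d ∈ W1, ∀ e ∈ W2, m ≤ {c | c ∈ MK ∧ Arc r (r d) e c}.ncard ∧ m ≤ {c | c ∈ MK ∧ Arc r (r e) d c}.ncard := by
  classical
  let A : Finset D := (MK ∩ {d | r.SameCycle z d}).toFinset
  have hA : ∀ d, d ∈ A ↔ d ∈ MK ∧ r.SameCycle z d := by
    intro d
    show d ∈ (MK ∩ {d | r.SameCycle z d}).toFinset ↔ _
    rw [Set.mem_toFinset]
    rfl
  have hAc : 6 * m ≤ A.card := by
    rw [Set.ncard_eq_toFinset_card'] at hz
    exact hz
  let p : D → ℕ := cc_ps r z
  have hp : Set.InjOn p A := by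
    intro d hd e he h
    exact cc_ps_inj ((hA d).1 hd).2 ((hA e).1 he).2 h
  let rk : D → ℕ := cc_rk A p
  refine ⟨A.filter (fun f => 0 ≤ cc_rk A p f ∧ cc_rk A p f < m),
    A.filter (fun f => 2 * m ≤ cc_rk A p f ∧ cc_rk A p f < 3 * m), ?_, ?_, ?_, ?_, ?_, ?_⟩
  · intro d hd
    exact (hA d).1 (Finset.mem_filter.1 hd).1
  · intro d hd
    exact (hA d).1 (Finset.mem_filter.1 hd).1
  · rw [Finset.disjoint_left]
    intro d hd hd2
    have h1 := (Finset.mem_filter.1 hd).2.2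
    have h2 := (Finset.mem_filter.1 hd2).2.1
    omega
  · rw [cc_rk_Ico hp (by omega)]
    omega
  · rw [cc_rk_Ico hp (by omega)]
    omega
  · intro d hd e he
    obtain ⟨hdA, _, hd1⟩ := Finset.mem_filter.1 hd
    obtain ⟨heA, he1, he2⟩ := Finset.mem_filter.1 he
    have hde : p d < p e := cc_lt_of_rk_lt hp hdA heA (by omega)
    constructor
    · have h1 : (A.filter (fun f => m ≤ cc_rk A p f ∧ cc_rk A p f < 2 * m)).card = m := by
        rw [cc_rk_Ico hp (by omega)]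
        omega
      rw [← h1, ← Set.ncard_coe_finset]
      refine Set.ncard_le_ncard ?_ (Set.toFinite _)
      intro c hc
      obtain ⟨hcA, hc1, hc2⟩ := Finset.mem_filter.1 (Finset.mem_coe.1 hc)
      have h2 : p d < p c := cc_lt_of_rk_lt hp hdA hcA (by omega)
      have h3 : p c < p e := cc_lt_of_rk_lt hp hcA heA (by omega)
      exact ⟨((hA c).1 hcA).1, cc_arc1 ((hA d).1 hdA).2 ((hA c).1 hcA).2 h2 h3⟩
    · have h1 : (A.filter (fun f => 3 * m ≤ cc_rk A p f ∧ cc_rk A p f < 4 * m)).card = m := by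
        rw [cc_rk_Ico hp (by omega)]
        omega
      rw [← h1, ← Set.ncard_coe_finset]
      refine Set.ncard_le_ncard ?_ (Set.toFinite _)
      intro c hc
      obtain ⟨hcA, hc1, hc2⟩ := Finset.mem_filter.1 (Finset.mem_coe.1 hc)
      have h2 : p e < p c := cc_lt_of_rk_lt hp heA hcA (by omega)
      exact ⟨((hA c).1 hcA).1, cc_arc2 ((hA d).1 hdA).2 ((hA e).1 heA).2 ((hA c).1 hcA).2 hde h2⟩

/-- few letters have less than `q` letters of `A` on one of the two sides -/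
private theorem cc_bad {D : Type} [Fintype D] (r : Perm D) (A : Set D) (e : D) (hA : ∀ d ∈ A, r.SameCycle e d)
    (he : e ∉ A) (q : ℕ) :
    {f | f ∈ A ∧ ¬ (q ≤ {c | c ∈ A ∧ Arc r (r e) f c}.ncard ∧ q ≤ {c | c ∈ A ∧ Arc r (r f) e c}.ncard)}.ncard
      ≤ 2 * q := by
  classical
  let B : Finset D := A.toFinset
  have hB : ∀ d, d ∈ B ↔ d ∈ A := fun d => Set.mem_toFinset
  let p : D → ℕ := cc_ps r e
  let p' : D → ℕᵒᵈ := fun d => OrderDual.toDual (cc_ps r e d)
  have hp : Set.InjOn p B := by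
    intro d hd f hf h
    exact cc_ps_inj (hA d ((hB d).1 hd)) (hA f ((hB f).1 hf)) h
  have hp' : Set.InjOn p' B := by
    intro d hd f hf h
    exact cc_ps_inj (hA d ((hB d).1 hd)) (hA f ((hB f).1 hf)) (OrderDual.toDual.injective h)
  have hpe : p e = 0 := cc_ps_self r e
  have hpos : ∀ d ∈ A, p e < p d := by
    intro d hd
    rw [hpe]
    rcases Nat.eq_zero_or_pos (p d) with h | h
    · exfalso
      apply he
      have : e = d := cc_ps_inj (Perm.SameCycle.refl _ _) (hA d hd) (by rw [show cc_ps r e d = 0 from h]; exact hpe)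
      rw [this]
      exact hd
    · exact h
  have h1 : {f | f ∈ A ∧ ¬ (q ≤ {c | c ∈ A ∧ Arc r (r e) f c}.ncard ∧ q ≤ {c | c ∈ A ∧ Arc r (r f) e c}.ncard)} ⊆
      {f | f ∈ B ∧ cc_rk B p f < q} ∪ {f | f ∈ B ∧ cc_rk B p' f < q} := by
    rintro f ⟨hf, hn⟩
    by_contra hc
    apply hn
    have hc1 : q ≤ cc_rk B p f := by
      by_contra h
      exact hc (Or.inl ⟨(hB f).2 hf, not_le.1 h⟩)
    have hc2 : q ≤ cc_rk B p' f := by
      by_contra h
      exact hc (Or.inr ⟨(hB f).2 hf, not_le.1 h⟩)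
    constructor
    · refine hc1.trans ?_
      unfold cc_rk
      rw [← Set.ncard_coe_finset]
      refine Set.ncard_le_ncard ?_ (Set.toFinite _)
      intro c hc
      obtain ⟨hcB, hc3⟩ := Finset.mem_filter.1 (Finset.mem_coe.1 hc)
      have hcA := (hB c).1 hcB
      exact ⟨hcA, cc_arc1 (Perm.SameCycle.refl _ _) (hA c hcA) (hpos c hcA) hc3⟩
    · refine hc2.trans ?_
      unfold cc_rk
      rw [← Set.ncard_coe_finset]
      refine Set.ncard_le_ncard ?_ (Set.toFinite _)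
      intro c hc
      obtain ⟨hcB, hc3⟩ := Finset.mem_filter.1 (Finset.mem_coe.1 hc)
      have hcA := (hB c).1 hcB
      exact ⟨hcA, cc_arc2 (Perm.SameCycle.refl _ _) (hA f hf) (hA c hcA) (hpos f hf) (OrderDual.toDual_lt_toDual.1 hc3)⟩
  refine (Set.ncard_le_ncard h1 (Set.toFinite _)).trans ((Set.ncard_union_le _ _).trans ?_)
  have h2 := cc_rk_few hp q
  have h3 := cc_rk_few hp' q
  omega


section net

variable {R B : ℕ} {P : Par R B} {N : NetS R B}

private theorem cc_word (hN : Ok P N) {d e : N.S.D} (hd : d ∈ N.F) (h : N.S.r.SameCycle d e) :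
    e ∈ N.F ∧ N.hub e = N.hub d ∧ N.lev e = N.lev d := by
  refine mem_of_same (s := N.S.r) (Z := {c | c ∈ N.F ∧ N.hub c = N.hub d ∧ N.lev c = N.lev d}) ?_
    ⟨hd, rfl, rfl⟩ h
  rintro c ⟨h1, h2, h3⟩
  exact ⟨(hN.fat.inv c).2 h1, (hN.hubr c h1).trans h2, (hN.levr c h1).trans h3⟩

/-- the partner is not fat or it is an up letter -/
private def cc_Q (N : NetS R B) (x : N.S.D) : Prop := N.S.a x ∈ N.F → N.S.a x ∈ N.up

private theorem cc_Q_up {u : N.S.D} (hu : u ∈ N.up) : cc_Q N (N.S.a u) := by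
  intro _
  rw [N.S.aa]
  exact hu

private theorem cc_Q_notup (hN : Ok P N) {x : N.S.D} (h : cc_Q N x) : x ∉ N.up := by
  intro hx
  obtain ⟨_, h2, _, h4⟩ := hN.upF x hx
  obtain ⟨_, _, _, h8⟩ := hN.upF _ (h h2)
  rw [N.S.aa] at h8
  omega

private theorem cc_Q_notfr (hN : Ok P N) {x : N.S.D} (h : cc_Q N x) : x ∉ N.fr := by
  intro hx
  obtain ⟨_, _, h3, _⟩ := hN.frF x hx
  obtain ⟨h5, h6, _, _⟩ := hN.frF _ h3
  obtain ⟨_, _, _, h8⟩ := hN.upF _ (h h5)
  omega

/-- the way from a letter `x` up to a centre word -/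
private structure cc_Cl (N : NetS R B) (x e : N.S.D) (lx : List (N.S.D × N.S.D)) : Prop where
  eF : e ∈ N.F
  eQ : cc_Q N e
  e0 : N.lev e = 0
  eh : N.hub e = N.hub x
  fat : ∀ p ∈ lx, p.1 ∈ N.F ∧ p.2 ∈ N.F
  same : ∀ p ∈ lx, N.S.r.SameCycle p.1 p.2
  ne : ∀ p ∈ lx, p.1 ≠ p.2
  up : ∀ p ∈ lx, p.2 ∈ N.up
  q : ∀ p ∈ lx, cc_Q N p.1
  lev : ∀ p ∈ lx, 0 < N.lev p.1
  hub : ∀ p ∈ lx, N.hub p.1 = N.hub x
  pw : lx.Pairwise (fun p q => N.lev q.1 < N.lev p.1)
  le : ∀ p ∈ lx, N.lev p.1 ≤ N.lev x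
  chain : ∀ f, List.IsChain (fun p q : N.S.D × N.S.D => N.S.a p.2 = q.1) (lx ++ [(e, f)])
  head : ∀ f, ∃ f', (lx ++ [(e, f)]).head? = some (x, f')

private theorem cc_climb (hN : Ok P N) (n : ℕ) : ∀ x : N.S.D, x ∈ N.F → cc_Q N x → N.lev x = n →
    ∃ e lx, cc_Cl N x e lx := by
  induction n with
  | zero =>
    intro x hx hQ hl
    refine ⟨x, [], hx, hQ, hl, rfl, ?_, ?_, ?_, ?_, ?_, ?_, ?_, List.Pairwise.nil, ?_, ?_, ?_⟩ <;> try simp
  | succ n ih =>
    intro x hx hQ hl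
    obtain ⟨u, hu, hxu⟩ := hN.upE x hx (by omega)
    obtain ⟨hu1, hu2, hu3, hu4⟩ := hN.upF u hu
    obtain ⟨_, hw2, hw3⟩ := cc_word hN hx hxu
    obtain ⟨e, lx, h⟩ := ih (N.S.a u) hu2 (cc_Q_up hu) (by omega)
    refine ⟨e, (x, u) :: lx, h.eF, h.eQ, h.e0, ?_, ?_, ?_, ?_, ?_, ?_, ?_, ?_, ?_, ?_, ?_, ?_⟩
    · rw [h.eh, hu3, hw2]
    · intro p hp
      rcases List.mem_cons.1 hp with rfl | hp
      · exact ⟨hx, hu1⟩
      · exact h.fat p hp
    · intro p hp
      rcases List.mem_cons.1 hp with rfl | hp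
      · exact hxu
      · exact h.same p hp
    · intro p hp
      rcases List.mem_cons.1 hp with rfl | hp
      · rintro (rfl : x = u)
        exact cc_Q_notup hN hQ hu
      · exact h.ne p hp
    · intro p hp
      rcases List.mem_cons.1 hp with rfl | hp
      · exact hu
      · exact h.up p hp
    · intro p hp
      rcases List.mem_cons.1 hp with rfl | hp
      · exact hQ
      · exact h.q p hp
    · intro p hp
      rcases List.mem_cons.1 hp with rfl | hp
      · show 0 < N.lev x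
        omega
      · exact h.lev p hp
    · intro p hp
      rcases List.mem_cons.1 hp with rfl | hp
      · rfl
      · rw [h.hub p hp, hu3, hw2]
    · rw [List.pairwise_cons]
      refine ⟨?_, h.pw⟩
      intro p hp
      have := h.le p hp
      show N.lev p.1 < N.lev x
      omega
    · intro p hp
      rcases List.mem_cons.1 hp with rfl | hp
      · exact le_rfl
      · have := h.le p hp
        omega
    · intro f
      obtain ⟨f', hf'⟩ := h.head f
      rw [List.cons_append, List.isChain_cons]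
      refine ⟨?_, h.chain f⟩
      intro q hq
      rw [hf'] at hq
      have h1 : (N.S.a u, f') = q := by simpa using hq
      rw [← h1]
    · intro f
      exact ⟨u, by simp⟩


private theorem cc_adj_ne {g h : Lab R B} (hgh : adj g h) : g ≠ h := by
  rintro rfl
  obtain ⟨i, hi, _⟩ := hgh
  exact hi rfl

private theorem cc_adj_symm {g h : Lab R B} (hgh : adj g h) : adj h g := by
  obtain ⟨i, hi, hi'⟩ := hgh
  exact ⟨i, fun h => hi h.symm, fun j hj => (hi' j hj).symm⟩

private theorem cc_adj_upd {g h : Lab R B} (hgh : adj g h) : ∃ i v, Function.update g i v = h := by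
  obtain ⟨i, hi, hi'⟩ := hgh
  refine ⟨i, h i, ?_⟩
  ext j
  by_cases hj : j = i
  · subst hj
    rw [Function.update_self]
  · rw [Function.update_of_ne hj, hi' j hj]

/-- few adjacent labels are in `Fb` -/
private theorem cc_fb (Fb : Set (Lab R B)) (β : ℕ)
    (h : ∀ (g : Lab R B) (i : Fin R), {v : Fin B | Function.update g i v ∈ Fb}.ncard ≤ β) (g : Lab R B) :
    {h | adj g h ∧ h ∈ Fb}.ncard ≤ R * β := by
  classical
  have h1 : {h | adj g h ∧ h ∈ Fb} ⊆ ⋃ i ∈ (Finset.univ : Finset (Fin R)),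
      (Function.update g i) '' {v : Fin B | Function.update g i v ∈ Fb} := by
    rintro h ⟨h1, h2⟩
    obtain ⟨i, v, rfl⟩ := cc_adj_upd h1
    simp only [Set.mem_iUnion]
    exact ⟨i, Finset.mem_univ _, v, h2, rfl⟩
  refine (Set.ncard_le_ncard h1 (Set.toFinite _)).trans ((Finset.set_ncard_biUnion_le _ _).trans ?_)
  refine (Finset.sum_le_card_nsmul _ _ β ?_).trans ?_
  · intro i _
    exact (Set.ncard_image_le (Set.toFinite _)).trans (h g i)
  · simp

/-- both arcs between `e` and `f` have many fresh letters -/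
private def cc_gd (P : Par R B) (N : NetS R B) (c : ℕ) (e f : N.S.D) : Prop :=
  P.K ≤ c * {d | d ∈ N.fr ∧ Arc N.S.r (N.S.r e) f d}.ncard ∧
    P.K ≤ c * {d | d ∈ N.fr ∧ Arc N.S.r (N.S.r f) e d}.ncard

private theorem cc_gd_symm {c : ℕ} {e f : N.S.D} (h : cc_gd P N c e f) : cc_gd P N c f e := ⟨h.2, h.1⟩

/-- few fresh letters of the word are not good -/
private theorem cc_few (P : Par R B) (N : NetS R B) (e : N.S.D) (c : ℕ) (hc : 0 < c) :
    c * {f | (f ∈ N.fr ∧ N.S.r.SameCycle e f ∧ f ≠ e) ∧ ¬ cc_gd P N c e f}.ncard ≤ 2 * P.K + 2 * c := by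
  let A : Set N.S.D := {f | f ∈ N.fr ∧ N.S.r.SameCycle e f ∧ f ≠ e}
  have h1 := cc_bad N.S.r A e (fun d hd => hd.2.1) (fun h => h.2.2 rfl) (P.K / c + 1)
  have h2 : {f | (f ∈ N.fr ∧ N.S.r.SameCycle e f ∧ f ≠ e) ∧ ¬ cc_gd P N c e f} ⊆
      {f | f ∈ A ∧ ¬ (P.K / c + 1 ≤ {d | d ∈ A ∧ Arc N.S.r (N.S.r e) f d}.ncard ∧
        P.K / c + 1 ≤ {d | d ∈ A ∧ Arc N.S.r (N.S.r f) e d}.ncard)} := by
    rintro f ⟨hf, hf2⟩
    refine ⟨hf, ?_⟩
    rintro ⟨h3, h4⟩
    apply hf2
    have hk : P.K ≤ c * (P.K / c + 1) := (Nat.lt_mul_div_succ _ hc).le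
    constructor
    · refine hk.trans (Nat.mul_le_mul_left _ (h3.trans (Set.ncard_le_ncard ?_ (Set.toFinite _))))
      rintro d ⟨hd, hd2⟩
      exact ⟨hd.1, hd2⟩
    · refine hk.trans (Nat.mul_le_mul_left _ (h4.trans (Set.ncard_le_ncard ?_ (Set.toFinite _))))
      rintro d ⟨hd, hd2⟩
      exact ⟨hd.1, hd2⟩
  have h3 := Nat.mul_le_mul_left c ((Set.ncard_le_ncard h2 (Set.toFinite _)).trans h1)
  refine h3.trans ?_
  have h4 : c * (P.K / c) ≤ P.K := Nat.mul_div_le _ _
  nlinarith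

/-- the fresh letters of a hub are determined by the labels of their partners -/
private theorem cc_frinj (hN : Ok P N) {A : Set N.S.D} {g : Lab R B} (hA : ∀ d ∈ A, d ∈ N.fr ∧ N.hub d = g) :
    Set.InjOn (fun f => N.hub (N.S.a f)) A := by
  intro d hd e he h
  exact hN.frU d (hA d hd).1 e (hA e he).1 ((hA d hd).2.trans (hA e he).2.symm) h

/-- many possible first hubs -/
private theorem cc_many (hN : Ok P N) (b β M : ℕ) (hb : ∀ g, N.t g ≤ b) (hM : M * 4 ^ (b + 1) ≤ P.K)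
    (hK : 4 ^ (b + 1) * (R * β + 6) ≤ P.K) (Fb : Set (Lab R B))
    (hFb : ∀ (g : Lab R B) (i : Fin R), {v : Fin B | Function.update g i v ∈ Fb}.ncard ≤ β)
    (e : N.S.D) (he : e ∈ N.F) (hefr : e ∉ N.fr) (he0 : N.lev e = 0) :
    M ≤ {g | ∃ f ∈ N.fr, N.S.r.SameCycle e f ∧ cc_gd P N (4 ^ (N.t (N.hub e) + 1)) e f ∧
      N.hub (N.S.a f) = g ∧ g ∉ Fb}.ncard := by
  set c : ℕ := 4 ^ (N.t (N.hub e) + 1) with hcd
  have hc : 0 < c := by positivity
  have hcb : c ≤ 4 ^ (b + 1) := Nat.pow_le_pow_right (by norm_num) (by have := hb (N.hub e); omega)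
  let A : Set N.S.D := {f | f ∈ N.fr ∧ N.S.r.SameCycle e f}
  have hA : ∀ d ∈ A, d ∈ N.fr ∧ N.hub d = N.hub e := fun d hd => ⟨hd.1, (cc_word hN he hd.2).2.1⟩
  have hinj := cc_frinj hN hA
  let G : Set N.S.D := {f | f ∈ A ∧ cc_gd P N c e f}
  let Bd : Set N.S.D := {f | (f ∈ N.fr ∧ N.S.r.SameCycle e f ∧ f ≠ e) ∧ ¬ cc_gd P N c e f}
  have h1 : c * Bd.ncard ≤ 2 * P.K + 2 * c := cc_few P N e c hc
  have h2 : A.ncard ≤ G.ncard + Bd.ncard := by
    refine (Set.ncard_le_ncard ?_ (Set.toFinite _)).trans (Set.ncard_union_le G Bd)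
    intro f hf
    by_cases h : cc_gd P N c e f
    · exact Or.inl ⟨hf, h⟩
    · refine Or.inr ⟨⟨hf.1, hf.2, ?_⟩, h⟩
      rintro rfl
      exact hefr hf.1
  have h3 : P.K ≤ 4 ^ N.t (N.hub e) * A.ncard := hN.cnt e he he0
  have h3' : 4 * P.K ≤ c * A.ncard := by
    rw [hcd, pow_succ]
    nlinarith
  have h4 : G.ncard = ((fun f => N.hub (N.S.a f)) '' G).ncard := by
    exact (Set.InjOn.ncard_image (hinj.mono fun f hf => hf.1)).symm
  have h5 : ((fun f => N.hub (N.S.a f)) '' G).ncard ≤ {g | ∃ f ∈ N.fr, N.S.r.SameCycle e f ∧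
      cc_gd P N c e f ∧ N.hub (N.S.a f) = g ∧ g ∉ Fb}.ncard + {h | adj (N.hub e) h ∧ h ∈ Fb}.ncard := by
    refine (Set.ncard_le_ncard ?_ (Set.toFinite _)).trans (Set.ncard_union_le _ _)
    rintro g ⟨f, hf, rfl⟩
    by_cases h : N.hub (N.S.a f) ∈ Fb
    · refine Or.inr ⟨?_, h⟩
      rw [← (hA f hf.1).2]
      exact (hN.frF f hf.1.1).2.2.2
    · exact Or.inl ⟨f, hf.1.1, hf.1.2, hf.2, rfl, h⟩
  have h6 := cc_fb Fb β hFb (N.hub e)
  have h7 : M * c ≤ P.K := (Nat.mul_le_mul_left _ hcb).trans hM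
  have h8 : c * (R * β + 6) ≤ P.K := (Nat.mul_le_mul_right _ hcb).trans hK
  by_contra hlt
  rw [not_le] at hlt
  have h9 : A.ncard + 1 ≤ M + R * β + Bd.ncard := by omega
  have h10 := Nat.mul_le_mul_left c h9
  nlinarith

/-- the turn is legal for all fresh letters -/
private def cc_Leg (P : Par R B) (N : NetS R B) (g h h' : Lab R B) : Prop :=
  ∀ f ∈ N.fr, ∀ f' ∈ N.fr, N.hub f = g → N.hub f' = g → N.hub (N.S.a f) = h → N.hub (N.S.a f') = h' →
    f ≠ f' ∧ cc_gd P N 4 f f'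

private theorem cc_Leg_symm {g h h' : Lab R B} (hl : cc_Leg P N g h h') : cc_Leg P N g h' h := by
  intro f hf f' hf' h1 h2 h3 h4
  obtain ⟨h5, h6⟩ := hl f' hf' f hf h2 h1 h4 h3
  exact ⟨h5.symm, cc_gd_symm h6⟩

private theorem cc_Leg_few (hN : Ok P N) (hK : 6 ≤ P.K) (g : Lab R B) (ht : N.t g = 0) (h : Lab R B)
    (i : Fin R) : {v : Fin B | ¬ cc_Leg P N g h (Function.update g i v)}.ncard ≤ P.K := by
  by_cases hex : ∃ f ∈ N.fr, N.hub f = g ∧ N.hub (N.S.a f) = h
  · obtain ⟨f, hf, hfg, hfh⟩ := hex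
    let Bd : Set N.S.D := {f' | (f' ∈ N.fr ∧ N.S.r.SameCycle f f' ∧ f' ≠ f) ∧ ¬ cc_gd P N 4 f f'}
    have h1 : 4 * Bd.ncard ≤ 2 * P.K + 2 * 4 := cc_few P N f 4 (by norm_num)
    have h2 : (Function.update g i) '' {v : Fin B | ¬ cc_Leg P N g h (Function.update g i v)} ⊆
        (fun f => N.hub (N.S.a f)) '' (insert f Bd) := by
      rintro _ ⟨v, hv, rfl⟩
      have hv' : ¬ cc_Leg P N g h (Function.update g i v) := hv
      unfold cc_Leg at hv'
      push Not at hv'
      obtain ⟨f1, hf1, f2, hf2, h3, h4, h5, h6, h7⟩ := hv'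
      have h8 : f1 = f := hN.frU f1 hf1 f hf (h3.trans hfg.symm) (h5.trans hfh.symm)
      subst h8
      refine ⟨f2, ?_, h6⟩
      by_cases h9 : f2 = f1
      · exact Or.inl h9
      · refine Or.inr ⟨⟨hf2, ?_, h9⟩, h7 fun h => h9 h.symm⟩
        obtain ⟨ha, hb, _, _⟩ := hN.frF f1 hf1
        obtain ⟨ha2, hb2, _, _⟩ := hN.frF f2 hf2
        exact hN.one f1 ha f2 ha2 (h3.trans h4.symm) (by rw [h3]; exact ht) hb hb2
    have h3 : {v : Fin B | ¬ cc_Leg P N g h (Function.update g i v)}.ncard =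
        ((Function.update g i) '' {v : Fin B | ¬ cc_Leg P N g h (Function.update g i v)}).ncard := by
      rw [Set.ncard_image_of_injective _ (Function.update_injective g i)]
    rw [h3]
    refine (Set.ncard_le_ncard h2 (Set.toFinite _)).trans ((Set.ncard_image_le (Set.toFinite _)).trans ?_)
    refine (Set.ncard_insert_le _ _).trans ?_
    omega
  · have h1 : {v : Fin B | ¬ cc_Leg P N g h (Function.update g i v)} = ∅ := by
      rw [Set.eq_empty_iff_forall_notMem]
      intro v hv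
      apply hv
      intro f hf f' _ h1 _ h3 _
      exact absurd ⟨f, hf, h1, h3⟩ hex
    rw [h1, Set.ncard_empty]
    exact Nat.zero_le _

/-- the part of the chain along the route -/
private structure cc_Rt (N : NetS R B) (Leg : Lab R B → Lab R B → Lab R B → Prop) (p : List (Lab R B))
    (φ ψ : N.S.D) (lr : List (N.S.D × N.S.D)) : Prop where
  hubs : lr.map (fun q => N.hub q.1) = p
  fr : ∀ q ∈ lr, q.1 ∈ N.fr ∧ q.2 ∈ N.fr
  hub2 : ∀ q ∈ lr, N.hub q.2 = N.hub q.1
  leg : ∀ q ∈ lr, Leg (N.hub q.1) (N.hub (N.S.a q.1)) (N.hub (N.S.a q.2))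
  chain : List.IsChain (fun p q : N.S.D × N.S.D => N.S.a p.2 = q.1) lr
  head : ∃ f', lr.head? = some (N.S.a φ, f')
  last : ∃ e', lr.getLast? = some (e', ψ)

private theorem cc_route (hN : Ok P N) (Leg : Lab R B → Lab R B → Lab R B → Prop) (j0 : Lab R B) (ψ : N.S.D)
    (hψ : ψ ∈ N.fr) (hψj : N.hub (N.S.a ψ) = j0) : ∀ (p : List (Lab R B)) (h0 : Lab R B) (φ : N.S.D),
    φ ∈ N.fr → N.hub φ = h0 → p.head? = some (N.hub (N.S.a φ)) → p.getLast? = some (N.hub ψ) → p.IsChain adj →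
    (∀ g ∈ p, g ∈ P.pres ∧ N.t g = 0) →
    (∀ l1 l2 h g h', h0 :: (p ++ [j0]) = l1 ++ ([h, g, h'] ++ l2) → Leg g h h') →
    ∃ lr, cc_Rt N Leg p φ ψ lr := by
  intro p
  induction p with
  | nil =>
    intro h0 φ _ _ h _ _ _ _
    simp at h
  | cons g p ih =>
    intro h0 φ hφ hφh hhead hlast hch hpres hL
    have hg : N.hub (N.S.a φ) = g := by
      have : g = N.hub (N.S.a φ) := by simpa using hhead
      exact this.symm
    obtain ⟨_, _, hφ3, _⟩ := hN.frF φ hφ
    match p, ih, hlast, hch, hpres, hL with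
    | [], _, hlast, hch, hpres, hL =>
      have hg2 : N.hub ψ = g := by
        have : g = N.hub ψ := by simpa using hlast
        exact this.symm
      refine ⟨[(N.S.a φ, ψ)], ?_, ?_, ?_, ?_, ?_, ?_, ?_⟩
      · simp [hg]
      · intro q hq
        rw [List.mem_singleton] at hq
        subst hq
        exact ⟨hφ3, hψ⟩
      · intro q hq
        rw [List.mem_singleton] at hq
        subst hq
        exact hg2.trans hg.symm
      · intro q hq
        rw [List.mem_singleton] at hq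
        subst hq
        show Leg (N.hub (N.S.a φ)) (N.hub (N.S.a (N.S.a φ))) (N.hub (N.S.a ψ))
        rw [N.S.aa, hφh, hg, hψj]
        exact hL [] [] h0 g j0 rfl
      · exact List.isChain_singleton _
      · exact ⟨ψ, rfl⟩
      · exact ⟨N.S.a φ, rfl⟩
    | g' :: p', ih, hlast, hch, hpres, hL =>
      rw [List.isChain_cons_cons] at hch
      obtain ⟨hadj, hch⟩ := hch
      obtain ⟨hp1, ht1⟩ := hpres g (by simp)
      obtain ⟨hp2, ht2⟩ := hpres g' (by simp)
      obtain ⟨φ1, hφ1, hφ1g, hφ1h⟩ := hN.frE g hp1 g' hp2 hadj ht1 ht2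
      obtain ⟨lr, h⟩ := ih g φ1 hφ1 hφ1g (by rw [hφ1h]; rfl) (by simpa using hlast) hch
        (fun x hx => hpres x (List.mem_cons_of_mem _ hx)) (by
          intro l1 l2 x y x' hl
          refine hL (h0 :: l1) l2 x y x' ?_
          exact congrArg (List.cons h0) hl)
      refine ⟨(N.S.a φ, φ1) :: lr, ?_, ?_, ?_, ?_, ?_, ?_, ?_⟩
      · rw [List.map_cons, h.hubs, hg]
      · intro q hq
        rcases List.mem_cons.1 hq with rfl | hq
        · exact ⟨hφ3, hφ1⟩
        · exact h.fr q hq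
      · intro q hq
        rcases List.mem_cons.1 hq with rfl | hq
        · exact hφ1g.trans hg.symm
        · exact h.hub2 q hq
      · intro q hq
        rcases List.mem_cons.1 hq with rfl | hq
        · show Leg (N.hub (N.S.a φ)) (N.hub (N.S.a (N.S.a φ))) (N.hub (N.S.a φ1))
          rw [N.S.aa, hφh, hg, hφ1h]
          exact hL [] (p' ++ [j0]) h0 g g' rfl
        · exact h.leg q hq
      · rw [List.isChain_cons]
        refine ⟨?_, h.chain⟩
        intro q hq
        obtain ⟨f', hf'⟩ := h.head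
        rw [hf'] at hq
        have h1 : (N.S.a φ1, f') = q := by simpa using hq
        rw [← h1]
      · exact ⟨φ1, rfl⟩
      · obtain ⟨e', he'⟩ := h.last
        refine ⟨e', ?_⟩
        rw [List.getLast?_cons, he']
        rfl


/-- one end of the chain: from the letter `x` to the fresh letter `f` of a centre -/
private structure cc_E (P : Par R B) (N : NetS R B) (x f : N.S.D) (L : List (N.S.D × N.S.D)) : Prop where
  fat : ∀ p ∈ L, p.1 ∈ N.F ∧ p.2 ∈ N.F
  same : ∀ p ∈ L, N.S.r.SameCycle p.1 p.2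
  ne : ∀ p ∈ L, p.1 ≠ p.2
  q : ∀ p ∈ L, cc_Q N p.1
  out : ∀ p ∈ L, p.2 ∈ N.up ∨ p.2 ∈ N.fr
  sat : ∀ p ∈ L, 0 < N.lev p.1 → p.2 ∈ N.up
  leg : ∀ p ∈ L, N.lev p.1 = 0 → cc_gd P N (4 ^ (N.t (N.hub p.1) + 1)) p.1 p.2
  hub : ∀ p ∈ L, N.hub p.1 = N.hub x
  pw : L.Pairwise (fun p q => ¬ N.S.r.SameCycle p.1 q.1)
  chain : List.IsChain (fun p q : N.S.D × N.S.D => N.S.a p.2 = q.1) L
  head : ∃ f', L.head? = some (x, f')
  last : ∃ e', L.getLast? = some (e', f)

private theorem cc_end (hN : Ok P N) {x e f : N.S.D} {lx : List (N.S.D × N.S.D)} (h : cc_Cl N x e lx)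
    (hf : f ∈ N.fr) (hef : N.S.r.SameCycle e f) (hg : cc_gd P N (4 ^ (N.t (N.hub e) + 1)) e f) :
    cc_E P N x f (lx ++ [(e, f)]) := by
  have hmem : ∀ p, p ∈ lx ++ [(e, f)] → p ∈ lx ∨ p = (e, f) := by
    intro p hp
    rcases List.mem_append.1 hp with hp | hp
    · exact Or.inl hp
    · exact Or.inr (List.mem_singleton.1 hp)
  refine ⟨?_, ?_, ?_, ?_, ?_, ?_, ?_, ?_, ?_, h.chain f, h.head f, ⟨e, by simp⟩⟩
  · intro p hp
    rcases hmem p hp with hp | rfl
    · exact h.fat p hp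
    · exact ⟨h.eF, (hN.frF f hf).1⟩
  · intro p hp
    rcases hmem p hp with hp | rfl
    · exact h.same p hp
    · exact hef
  · intro p hp
    rcases hmem p hp with hp | rfl
    · exact h.ne p hp
    · rintro (rfl : e = f)
      exact cc_Q_notfr hN h.eQ hf
  · intro p hp
    rcases hmem p hp with hp | rfl
    · exact h.q p hp
    · exact h.eQ
  · intro p hp
    rcases hmem p hp with hp | rfl
    · exact Or.inl (h.up p hp)
    · exact Or.inr hf
  · intro p hp h0
    rcases hmem p hp with hp | rfl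
    · exact h.up p hp
    · exact absurd h0 (by rw [h.e0]; exact lt_irrefl _)
  · intro p hp h0
    rcases hmem p hp with hp | rfl
    · exact absurd (h.lev p hp) (by rw [h0]; exact lt_irrefl _)
    · exact hg
  · intro p hp
    rcases hmem p hp with hp | rfl
    · exact h.hub p hp
    · exact h.eh
  · rw [List.pairwise_append]
    refine ⟨?_, List.pairwise_singleton _ _, ?_⟩
    · refine (List.Pairwise.and_mem.1 h.pw).imp ?_
      rintro p q ⟨hp, hq, hpq⟩ hs
      have := (cc_word hN (h.fat p hp).1 hs).2.2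
      omega
    · intro p hp q hq hs
      rw [List.mem_singleton] at hq
      subst hq
      have h1 := (cc_word hN (h.fat p hp).1 hs).2.2
      have h2 := h.lev p hp
      have h3 : N.lev e = 0 := h.e0
      have h4 : N.lev e = N.lev p.1 := h1
      omega

private theorem cc_ncl (c : ℕ) (A : Lab R B → Set N.S.D) (p : List (Lab R B)) (h : ∀ g, (A g).ncard ≤ c) :
    {d | ∃ g ∈ p, d ∈ A g}.ncard ≤ p.length * c := by
  induction p with
  | nil =>
    have h1 : {d : N.S.D | ∃ g ∈ ([] : List (Lab R B)), d ∈ A g} = ∅ := by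
      ext d
      simp
    rw [h1, Set.ncard_empty]
    exact Nat.zero_le _
  | cons g p ih =>
    have h1 : {d : N.S.D | ∃ g' ∈ g :: p, d ∈ A g'} ⊆ A g ∪ {d | ∃ g ∈ p, d ∈ A g} := by
      rintro d ⟨g', hg', hd⟩
      rcases List.mem_cons.1 hg' with rfl | hg'
      · exact Or.inl hd
      · exact Or.inr ⟨g', hg', hd⟩
    refine (Set.ncard_le_ncard h1 (Set.toFinite _)).trans ((Set.ncard_union_le _ _).trans ?_)
    rw [List.length_cons, Nat.succ_mul]
    have := h g
    omega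

/-- the whole chain from the two ends and the part along the route -/
private theorem cc_asm (hN : Ok P N) (b : ℕ) (hb : ∀ g, N.t g ≤ b) (x y f f' : N.S.D) (L1 L2 lr : List (N.S.D × N.S.D))
    (p : List (Lab R B)) (h1 : cc_E P N x f L1) (h2 : cc_E P N y f' L2)
    (hr : cc_Rt N (cc_Leg P N) p f (N.S.a f') lr) (hnd : (N.hub x :: (p ++ [N.hub y])).Nodup)
    (hp : p ≠ []) (hlen : p.length ≤ 2 * R + 3) (hpt : ∀ g ∈ p, N.t g = 0)
    (hax : N.S.a x ∉ N.F) (hay : N.S.a y ∉ N.F) (hout : N.S.r.SameCycle (N.S.a x) (N.S.a y)) :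
    ∃ l, LChn P N l x y ∧ {d | ∃ p ∈ l, N.S.r.SameCycle p.1 d}.ncard ≤ kap P b ∧
      ∀ g, (g ∈ N.hub x :: (p ++ [N.hub y])) ↔ ∃ p ∈ l, N.hub p.1 = g := by
  classical
  -- facts on hubs
  have hxp : N.hub x ∉ p := by
    intro h
    exact (List.nodup_cons.1 hnd).1 (List.mem_append_left _ h)
  have hxy : N.hub x ≠ N.hub y := by
    intro h
    exact (List.nodup_cons.1 hnd).1 (List.mem_append_right _ (by rw [h]; exact List.mem_singleton_self _))
  have hnd2 := (List.nodup_cons.1 hnd).2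
  have hpn : p.Nodup := (List.nodup_append.1 hnd2).1
  have hyp : N.hub y ∉ p := by
    intro h
    exact (List.nodup_append.1 hnd2).2.2 _ h _ (List.mem_singleton_self _) rfl
  have hlrp : ∀ q ∈ lr, N.hub q.1 ∈ p := by
    intro q hq
    rw [← hr.hubs]
    exact List.mem_map.2 ⟨q, hq, rfl⟩
  have hlr0 : ∀ q ∈ lr, N.lev q.1 = 0 := fun q hq => (hN.frF _ (hr.fr q hq).1).2.1
  have hlrF : ∀ q ∈ lr, q.1 ∈ N.F ∧ q.2 ∈ N.F := fun q hq =>
    ⟨(hN.frF _ (hr.fr q hq).1).1, (hN.frF _ (hr.fr q hq).2).1⟩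
  have hlrS : ∀ q ∈ lr, N.S.r.SameCycle q.1 q.2 := by
    intro q hq
    exact hN.one q.1 (hlrF q hq).1 q.2 (hlrF q hq).2 (hr.hub2 q hq).symm (hpt _ (hlrp q hq)) (hlr0 q hq)
      (hN.frF _ (hr.fr q hq).2).2.1
  have hlrL : ∀ q ∈ lr, q.1 ≠ q.2 ∧ cc_gd P N 4 q.1 q.2 := by
    intro q hq
    exact hr.leg q hq q.1 (hr.fr q hq).1 q.2 (hr.fr q hq).2 rfl (hr.hub2 q hq) rfl rfl
  have h2w : ∀ q ∈ L2, N.hub q.2 = N.hub q.1 ∧ N.lev q.2 = N.lev q.1 := fun q hq =>
    (cc_word hN (h2.fat q hq).1 (h2.same q hq)).2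
  have hmem : ∀ q, q ∈ L1 ++ (lr ++ L2.reverse.map Prod.swap) → q ∈ L1 ∨ q ∈ lr ∨ ∃ c ∈ L2, c.swap = q := by
    intro q hq
    rcases List.mem_append.1 hq with hq | hq
    · exact Or.inl hq
    · rcases List.mem_append.1 hq with hq | hq
      · exact Or.inr (Or.inl hq)
      · obtain ⟨c, hc, rfl⟩ := List.mem_map.1 hq
        exact Or.inr (Or.inr ⟨c, List.mem_reverse.1 hc, rfl⟩)
  have hlrne : lr ≠ [] := by
    rintro rfl
    exact hp (by rw [← hr.hubs]; rfl)
  obtain ⟨xf, hxf⟩ := h1.head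
  obtain ⟨e1, he1⟩ := h1.last
  obtain ⟨yf, hyf⟩ := h2.head
  obtain ⟨e2, he2⟩ := h2.last
  obtain ⟨r1, hr1⟩ := hr.head
  obtain ⟨r2, hr2⟩ := hr.last
  refine ⟨L1 ++ (lr ++ L2.reverse.map Prod.swap), ⟨⟨?_, ?_, ?_, ?_, ?_, ?_, ?_, ?_, hax, hay, hout⟩,
    ?_, ?_, ?_, ?_⟩, ?_, ?_⟩
  · -- two
    have ha : 1 ≤ L1.length := by
      rcases L1 with _ | ⟨c, L⟩
      · simp at hxf
      · simp
    have hb : 1 ≤ lr.length := List.length_pos_iff.2 hlrne
    rw [List.length_append, List.length_append]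
    omega
  · -- fat
    intro q hq
    rcases hmem q hq with hq | hq | ⟨c, hc, rfl⟩
    · exact h1.fat q hq
    · exact hlrF q hq
    · exact (h2.fat c hc).symm
  · -- same
    intro q hq
    rcases hmem q hq with hq | hq | ⟨c, hc, rfl⟩
    · exact h1.same q hq
    · exact hlrS q hq
    · exact (h2.same c hc).symm
  · -- ne
    intro q hq
    rcases hmem q hq with hq | hq | ⟨c, hc, rfl⟩
    · exact h1.ne q hq
    · exact (hlrL q hq).1
    · exact (h2.ne c hc).symm
  · -- dist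
    rw [List.pairwise_append, List.pairwise_append]
    refine ⟨h1.pw, ⟨?_, ?_, ?_⟩, ?_⟩
    · have h3 : (lr.map (fun q => N.hub q.1)).Pairwise (· ≠ ·) := by
        rw [hr.hubs]
        exact hpn
      rw [List.pairwise_map] at h3
      refine (List.Pairwise.and_mem.1 h3).imp ?_
      rintro q q' ⟨hq, _, hqq⟩ hs
      exact hqq (cc_word hN (hlrF q hq).1 hs).2.1.symm
    · rw [List.pairwise_map, List.pairwise_reverse]
      refine (List.Pairwise.and_mem.1 h2.pw).imp ?_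
      rintro q q' ⟨hq, hq', hqq⟩ hs
      apply hqq
      have hs' : N.S.r.SameCycle q'.2 q.2 := hs
      exact (h2.same q hq).trans (hs'.symm.trans (h2.same q' hq').symm)
    · intro q hq q' hq' hs
      obtain ⟨c, hc, rfl⟩ := List.mem_map.1 hq'
      have hc' := List.mem_reverse.1 hc
      have h3 := (cc_word hN (hlrF q hq).1 hs).2.1
      apply hyp
      rw [← h2.hub c hc', ← (h2w c hc').1]
      have h4 : N.hub c.2 = N.hub q.1 := h3
      rw [h4]
      exact hlrp q hq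
    · intro q hq q' hq' hs
      have h3 := (cc_word hN (h1.fat q hq).1 hs).2.1
      rw [h1.hub q hq] at h3
      rcases List.mem_append.1 hq' with hq' | hq'
      · apply hxp
        rw [← h3]
        exact hlrp q' hq'
      · obtain ⟨c, hc, rfl⟩ := List.mem_map.1 hq'
        have hc' := List.mem_reverse.1 hc
        apply hxy
        rw [← h3, ← h2.hub c hc', ← (h2w c hc').1]
        rfl
  · -- chain
    rw [List.isChain_append, List.isChain_append]
    refine ⟨h1.chain, ⟨hr.chain, ?_, ?_⟩, ?_⟩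
    · rw [List.isChain_map, List.isChain_reverse]
      refine h2.chain.imp ?_
      intro q q' hqq
      show N.S.a q'.1 = q.2
      rw [← hqq, N.S.aa]
    · intro q hq q' hq'
      rw [hr2] at hq
      rw [List.head?_map, List.head?_reverse, he2] at hq'
      have h3 : (r2, N.S.a f') = q := by simpa using hq
      have h4 : (f', e2) = q' := by simpa using hq'
      rw [← h3, ← h4]
      exact N.S.aa f'
    · intro q hq q' hq'
      rw [he1] at hq
      rw [List.head?_append, hr1] at hq'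
      have h3 : (e1, f) = q := by simpa using hq
      have h4 : (N.S.a f, r1) = q' := by simpa using hq'
      rw [← h3, ← h4]
  · -- hx
    refine ⟨xf, ?_⟩
    rw [List.head?_append, hxf]
    rfl
  · -- hy
    refine ⟨yf, ?_⟩
    rw [List.getLast?_append, List.getLast?_append, List.getLast?_map, List.getLast?_reverse, hyf]
    rfl
  · -- sat
    intro q hq h0
    rcases hmem q hq with hq | hq | ⟨c, hc, rfl⟩
    · exact Or.inr (h1.sat q hq h0)
    · exact absurd h0 (by rw [hlr0 q hq]; exact lt_irrefl _)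
    · refine Or.inl (h2.sat c hc ?_)
      rw [← (h2w c hc).2]
      exact h0
  · -- cross
    intro q hq q' hq' hqq
    have hq'F : q'.1 ∈ N.F := by
      rcases hmem q' hq' with hq' | hq' | ⟨c, hc, rfl⟩
      · exact (h1.fat q' hq').1
      · exact (hlrF q' hq').1
      · exact (h2.fat c hc).2
    rcases hmem q hq with hq | hq | ⟨c, hc, rfl⟩
    · rcases h1.out q hq with h | h
      · exact Or.inl h
      · exact Or.inr (Or.inr h)
    · exact Or.inr (Or.inr (hr.fr q hq).2)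
    · have h3 : N.S.a c.1 = q'.1 := hqq
      refine Or.inr (Or.inl ?_)
      rw [← h3]
      exact h2.q c hc (by rw [h3]; exact hq'F)
  · -- legA
    intro q hq h0
    rcases hmem q hq with hq | hq | ⟨c, hc, rfl⟩
    · exact (h1.leg q hq h0).1
    · have h3 := (hlrL q hq).2.1
      rw [hpt _ (hlrp q hq)]
      exact h3
    · have h4 : N.lev c.1 = 0 := by
        rw [← (h2w c hc).2]
        exact h0
      have h3 := (h2.leg c hc h4).2
      show P.K ≤ 4 ^ (N.t (N.hub c.2) + 1) * _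
      rw [(h2w c hc).1]
      exact h3
  · -- legB
    intro q hq h0
    rcases hmem q hq with hq | hq | ⟨c, hc, rfl⟩
    · exact (h1.leg q hq h0).2
    · have h3 := (hlrL q hq).2.2
      rw [hpt _ (hlrp q hq)]
      exact h3
    · have h4 : N.lev c.1 = 0 := by
        rw [← (h2w c hc).2]
        exact h0
      have h3 := (h2.leg c hc h4).1
      show P.K ≤ 4 ^ (N.t (N.hub c.2) + 1) * _
      rw [(h2w c hc).1]
      exact h3
  · -- number of letters
    have h3 : {d | ∃ p ∈ L1 ++ (lr ++ L2.reverse.map Prod.swap), N.S.r.SameCycle p.1 d} ⊆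
        ({d | d ∈ N.F ∧ N.hub d = N.hub x} ∪ {d | d ∈ N.F ∧ N.hub d = N.hub y}) ∪
          {d | ∃ g ∈ p, d ∈ {d | N.t g = 0 ∧ d ∈ N.F ∧ N.hub d = g ∧ N.lev d = 0}} := by
      rintro d ⟨q, hq, hs⟩
      rcases hmem q hq with hq | hq | ⟨c, hc, rfl⟩
      · obtain ⟨h4, h5, _⟩ := cc_word hN (h1.fat q hq).1 hs
        exact Or.inl (Or.inl ⟨h4, h5.trans (h1.hub q hq)⟩)
      · obtain ⟨h4, h5, h6⟩ := cc_word hN (hlrF q hq).1 hs
        exact Or.inr ⟨N.hub q.1, hlrp q hq, hpt _ (hlrp q hq), h4, h5, h6.trans (hlr0 q hq)⟩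
      · obtain ⟨h4, h5, _⟩ := cc_word hN (h2.fat c hc).1 ((h2.same c hc).trans hs)
        exact Or.inl (Or.inr ⟨h4, h5.trans (h2.hub c hc)⟩)
    have hT : ∀ g, {d | d ∈ N.F ∧ N.hub d = g}.ncard ≤ 4 ^ b * P.Th := fun g =>
      (hN.cT g).trans (Nat.mul_le_mul_right _ (Nat.pow_le_pow_right (by norm_num) (hb g)))
    have hT0 : ∀ g, {d | N.t g = 0 ∧ d ∈ N.F ∧ N.hub d = g ∧ N.lev d = 0}.ncard ≤ 4 ^ b * P.Th0 := by
      intro g
      refine (Set.ncard_le_ncard (t := {d | d ∈ N.F ∧ N.hub d = g ∧ N.lev d = 0}) ?_ (Set.toFinite _)).trans ?_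
      · rintro d ⟨_, h4⟩
        exact h4
      · exact (hN.c0 g).trans (Nat.mul_le_mul_right _ (Nat.pow_le_pow_right (by norm_num) (hb g)))
    have h4 := cc_ncl (4 ^ b * P.Th0) (fun g => {d | N.t g = 0 ∧ d ∈ N.F ∧ N.hub d = g ∧ N.lev d = 0}) p hT0
    refine (Set.ncard_le_ncard h3 (Set.toFinite _)).trans ((Set.ncard_union_le _ _).trans ?_)
    have h5 := Set.ncard_union_le {d | d ∈ N.F ∧ N.hub d = N.hub x} {d | d ∈ N.F ∧ N.hub d = N.hub y}
    have h6 := hT (N.hub x)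
    have h7 := hT (N.hub y)
    have h8 : p.length * (4 ^ b * P.Th0) ≤ (2 * R + 3) * (4 ^ b * P.Th0) := Nat.mul_le_mul_right _ hlen
    unfold kap
    have h9 := h4.trans h8
    calc _ ≤ (4 ^ b * P.Th + 4 ^ b * P.Th) + (2 * R + 3) * (4 ^ b * P.Th0) :=
          Nat.add_le_add (h5.trans (Nat.add_le_add h6 h7)) h9
      _ = _ := by ring
  · -- hubs
    intro g
    constructor
    · intro hg
      rcases List.mem_cons.1 hg with rfl | hg
      · refine ⟨(x, xf), ?_, rfl⟩
        exact List.mem_append_left _ (List.mem_of_mem_head? hxf)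
      · rcases List.mem_append.1 hg with hg | hg
        · rw [← hr.hubs] at hg
          obtain ⟨q, hq, hqg⟩ := List.mem_map.1 hg
          exact ⟨q, List.mem_append_right _ (List.mem_append_left _ hq), hqg⟩
        · rw [List.mem_singleton] at hg
          subst hg
          have h3 : (y, yf) ∈ L2 := List.mem_of_mem_head? hyf
          refine ⟨(yf, y), List.mem_append_right _ (List.mem_append_right _
            (List.mem_map.2 ⟨(y, yf), List.mem_reverse.2 h3, rfl⟩)), ?_⟩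
          exact (h2w _ h3).1
    · rintro ⟨q, hq, rfl⟩
      rcases hmem q hq with hq | hq | ⟨c, hc, rfl⟩
      · rw [h1.hub q hq]
        exact List.mem_cons_self
      · exact List.mem_cons_of_mem _ (List.mem_append_left _ (hlrp q hq))
      · refine List.mem_cons_of_mem _ (List.mem_append_right _ (List.mem_singleton.2 ?_))
        exact (h2w c hc).1.trans (h2.hub c hc)

end net

theorem cutChain {R B : ℕ} (hR : 2 ≤ R) (P : Par R B) (N : NetS R B) (hN : Ok P N) (b β M : ℕ)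
    (hb : ∀ g, N.t g ≤ b) (hβ : FewBad P N β) (hM : M * 4 ^ (b + 1) ≤ P.K) (hK : 4 ^ (b + 1) * (R * β + 6) ≤ P.K)
    (hB : 64 * (R + 3) ^ 2 * (β + P.K + 10) ≤ B) (ω s : Lab R B → ℝ) (hω : ∀ g, 0 ≤ ω g) (hs : ∀ g, 0 ≤ s g)
    (hr : RouteOK M ω s) (MK : Set N.S.D) (hMK : ∀ d ∈ MK, d ∉ N.F ∧ N.S.a d ≠ d) (z : N.S.D) (m : ℕ)
    (hz : 6 * m ≤ (MK ∩ N.S.word z).ncard) (hm : 2 * 4 ^ b * P.Th + 1 ≤ m) :
    ∃ (x y : N.S.D) (l : List (N.S.D × N.S.D)), LChn P N l x y ∧ N.S.a x ∈ MK ∧ N.S.a y ∈ MK ∧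
      N.S.r.SameCycle z (N.S.a x) ∧
      m ≤ {d | d ∈ MK ∧ Arc N.S.r (N.S.r (N.S.a x)) (N.S.a y) d}.ncard ∧
      m ≤ {d | d ∈ MK ∧ Arc N.S.r (N.S.r (N.S.a y)) (N.S.a x) d}.ncard ∧
      {d | ∃ p ∈ l, N.S.r.SameCycle p.1 d}.ncard ≤ kap P b ∧
      ∃ T : Finset (Lab R B), (∀ g, g ∈ T ↔ ∃ p ∈ l, N.hub p.1 = g) ∧ T.card ≤ 2 * R + 5 ∧
        ∑ g ∈ T, ω g ≤ 4 / m * fsum N (fun g => ω g + s g) (MK ∩ N.S.word z) := by
  classical
  have hm1 : 1 ≤ m := by omega
  obtain ⟨W1, W2, hW1, hW2, hdis, hc1, hc2, harc⟩ := cc_marks N.S.r MK z m hz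
  let f : N.S.D → ℝ := fun d => ω (N.hub (N.S.a d)) + s (N.hub (N.S.a d))
  have hf0 : ∀ d, 0 ≤ f d := fun d => add_nonneg (hω _) (hs _)
  have hW1ne : W1.Nonempty := Finset.card_pos.1 (by omega)
  obtain ⟨d1, hd1, hmin1⟩ := Finset.exists_min_image W1 f hW1ne
  let W3 : Finset N.S.D := W2.filter (fun d => N.hub (N.S.a d) ≠ N.hub (N.S.a d1))
  have hW3 : m < 2 * W3.card := by
    have h1 : W2.card = W3.card + (W2.filter (fun d => ¬ (N.hub (N.S.a d) ≠ N.hub (N.S.a d1)))).card :=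
      (Finset.card_filter_add_card_filter_not _).symm
    have h2 : (W2.filter (fun d => ¬ (N.hub (N.S.a d) ≠ N.hub (N.S.a d1)))).card ≤ 4 ^ b * P.Th := by
      have h3 : ((W2.filter (fun d => ¬ (N.hub (N.S.a d) ≠ N.hub (N.S.a d1)))).image N.S.a).card ≤
          {d | d ∈ N.F ∧ N.hub d = N.hub (N.S.a d1)}.ncard := by
        rw [← Set.ncard_coe_finset]
        refine Set.ncard_le_ncard ?_ (Set.toFinite _)
        intro c hc
        obtain ⟨d, hd, rfl⟩ := Finset.mem_image.1 (Finset.mem_coe.1 hc)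
        obtain ⟨hd2, hd3⟩ := Finset.mem_filter.1 hd
        obtain ⟨hM1, hM2⟩ := hMK d (hW2 d hd2).1
        exact ⟨hN.fat.out d hM1 hM2, not_not.1 hd3⟩
      rw [Finset.card_image_of_injective _ N.S.a.injective] at h3
      refine h3.trans ((hN.cT _).trans ?_)
      exact Nat.mul_le_mul_right _ (Nat.pow_le_pow_right (by norm_num) (hb _))
    have h4 : 2 * 4 ^ b * P.Th = 2 * (4 ^ b * P.Th) := by ring
    omega
  have hW3ne : W3.Nonempty := Finset.card_pos.1 (by omega)
  obtain ⟨d2, hd2, hmin2⟩ := Finset.exists_min_image W3 f hW3ne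
  obtain ⟨hd2W, hd2h⟩ := Finset.mem_filter.1 hd2
  obtain ⟨hM11, hM12⟩ := hMK d1 (hW1 d1 hd1).1
  obtain ⟨hM21, hM22⟩ := hMK d2 (hW2 d2 hd2W).1
  have hxF : N.S.a d1 ∈ N.F := hN.fat.out d1 hM11 hM12
  have hyF : N.S.a d2 ∈ N.F := hN.fat.out d2 hM21 hM22
  have hxa : N.S.a (N.S.a d1) = d1 := N.S.aa d1
  have hya : N.S.a (N.S.a d2) = d2 := N.S.aa d2
  obtain ⟨e, lx, hlx⟩ := cc_climb hN _ (N.S.a d1) hxF (fun h => absurd h (by rw [hxa]; exact hM11)) rfl
  obtain ⟨e', ly, hly⟩ := cc_climb hN _ (N.S.a d2) hyF (fun h => absurd h (by rw [hya]; exact hM21)) rfl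
  let Fb : Set (Lab R B) := {g | g ∉ P.pres ∨ N.t g ≠ 0}
  have hFb : ∀ (g : Lab R B) (i : Fin R), {v : Fin B | Function.update g i v ∈ Fb}.ncard ≤ β := hβ
  have hI := cc_many hN b β M hb hM hK Fb hFb e hlx.eF (cc_Q_notfr hN hlx.eQ) hlx.e0
  have hJ := cc_many hN b β M hb hM hK Fb hFb e' hly.eF (cc_Q_notfr hN hly.eQ) hly.e0
  have hK6 : 6 ≤ P.K := by
    have h1 : 0 < 4 ^ (b + 1) := by positivity
    exact (show 6 ≤ R * β + 6 by omega).trans ((Nat.le_mul_of_pos_left _ h1).trans hK)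
  have hadj : ∀ (e0 x0 : N.S.D), e0 ∈ N.F → N.hub e0 = N.hub x0 → ∀ g, (∃ f ∈ N.fr, N.S.r.SameCycle e0 f ∧
      cc_gd P N (4 ^ (N.t (N.hub e0) + 1)) e0 f ∧ N.hub (N.S.a f) = g ∧ g ∉ Fb) → adj (N.hub x0) g ∧ g ∉ Fb := by
    rintro e0 x0 he0 hx0 g ⟨f, hf, hs, _, hfg, hg⟩
    refine ⟨?_, hg⟩
    have h1 := (hN.frF f hf).2.2.2
    rw [(cc_word hN he0 hs).2.1, hx0, hfg] at h1
    exact h1
  obtain ⟨p, hp, hlen, hch, hnd, hpFb, ⟨g1, hg1, hhead⟩, ⟨g2, hg2, hlast⟩, hL, hcost⟩ :=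
    hr Fb β P.K (cc_Leg P N) (N.hub (N.S.a d1)) (N.hub (N.S.a d2)) _ _
    (le_trans (Nat.mul_le_mul_left _ (by omega)) hB) hFb (fun g h h' => cc_Leg_symm)
    (fun g hg h _ i => cc_Leg_few hN hK6 g (by
      by_contra hc
      exact hg (Or.inr hc)) h i)
    (Ne.symm hd2h) (fun g hg => hadj e (N.S.a d1) hlx.eF hlx.eh g hg)
    (fun g hg => hadj e' (N.S.a d2) hly.eF hly.eh g hg) hI hJ
  obtain ⟨φ, hφ, hφs, hφg, hφh, _⟩ := hg1
  obtain ⟨φ', hφ', hφs', hφg', hφh', _⟩ := hg2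
  have hφ3 := (hN.frF φ' hφ').2.2.1
  have hφx : N.hub φ = N.hub (N.S.a d1) := (cc_word hN hlx.eF hφs).2.1.trans hlx.eh
  have hφy : N.hub φ' = N.hub (N.S.a d2) := (cc_word hN hly.eF hφs').2.1.trans hly.eh
  have hpres : ∀ g ∈ p, g ∈ P.pres ∧ N.t g = 0 := by
    intro g hg
    have h1 := hpFb g hg
    constructor
    · by_contra hc
      exact h1 (Or.inl hc)
    · by_contra hc
      exact h1 (Or.inr hc)
  have hchp : p.IsChain adj := by
    have h1 := (List.isChain_cons.1 hch).2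
    exact (List.isChain_append.1 h1).1
  obtain ⟨lr, hlr⟩ := cc_route hN (cc_Leg P N) (N.hub (N.S.a d2)) (N.S.a φ') hφ3 (by rw [N.S.aa]; exact hφy) p
    (N.hub (N.S.a d1)) φ hφ hφx (by rw [hφh]; exact hhead) (by rw [hφh']; exact hlast) hchp hpres hL
  have hE1 := cc_end hN hlx hφ hφs hφg
  have hE2 := cc_end hN hly hφ' hφs' hφg'
  have hout : N.S.r.SameCycle (N.S.a (N.S.a d1)) (N.S.a (N.S.a d2)) := by
    rw [hxa, hya]
    exact (hW1 d1 hd1).2.symm.trans (hW2 d2 hd2W).2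
  obtain ⟨l, hl, hlk, hlh⟩ := cc_asm hN b hb (N.S.a d1) (N.S.a d2) φ φ' _ _ lr p hE1 hE2 hlr hnd hp hlen
    (fun g hg => (hpres g hg).2) (by rw [hxa]; exact hM11) (by rw [hya]; exact hM21) hout
  refine ⟨N.S.a d1, N.S.a d2, l, hl, ?_, ?_, ?_, ?_, ?_, hlk, (N.hub (N.S.a d1) :: (p ++ [N.hub (N.S.a d2)])).toFinset,
    ?_, ?_, ?_⟩
  · rw [hxa]
    exact (hW1 d1 hd1).1
  · rw [hya]
    exact (hW2 d2 hd2W).1
  · rw [hxa]
    exact (hW1 d1 hd1).2
  · rw [hxa, hya]
    exact (harc d1 hd1 d2 hd2W).1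
  · rw [hxa, hya]
    exact (harc d1 hd1 d2 hd2W).2
  · intro g
    rw [List.mem_toFinset]
    exact hlh g
  · refine (List.toFinset_card_le _).trans ?_
    rw [List.length_cons, List.length_append, List.length_singleton]
    omega
  · have h1 : ∑ g ∈ (N.hub (N.S.a d1) :: (p ++ [N.hub (N.S.a d2)])).toFinset, ω g =
        ω (N.hub (N.S.a d1)) + ((p.map ω).sum + ω (N.hub (N.S.a d2))) := by
      rw [List.sum_toFinset ω hnd]
      simp
    rw [h1]
    set Φ : ℝ := fsum N (fun g => ω g + s g) (MK ∩ N.S.word z) with hΦ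
    have hsub : ∀ W : Finset N.S.D, (∀ d ∈ W, d ∈ MK ∧ N.S.r.SameCycle z d) → ∑ d ∈ W, f d ≤ Φ := by
      intro W hW
      rw [hΦ]
      unfold fsum
      calc ∑ d ∈ W, f d = ∑ d ∈ W, Set.indicator (MK ∩ N.S.word z)
            (fun d => (fun g => ω g + s g) (N.hub (N.S.a d))) d := by
            refine Finset.sum_congr rfl fun d hd => ?_
            rw [Set.indicator_of_mem (show d ∈ MK ∩ N.S.word z from hW d hd)]
        _ ≤ _ := by
            refine Finset.sum_le_sum_of_subset_of_nonneg (Finset.subset_univ _) fun d _ _ => ?_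
            exact Set.indicator_nonneg (fun c _ => hf0 c) d
    have hm0 : (0 : ℝ) < m := by exact_mod_cast hm1
    have hs1 : (m : ℝ) * f d1 ≤ Φ := by
      refine le_trans ?_ (hsub W1 hW1)
      have h2 := Finset.card_nsmul_le_sum W1 f (f d1) hmin1
      rw [hc1, nsmul_eq_mul] at h2
      exact h2
    have hs2 : (m : ℝ) * f d2 ≤ 2 * Φ := by
      have h2 := Finset.card_nsmul_le_sum W3 f (f d2) hmin2
      rw [nsmul_eq_mul] at h2
      have h3 := h2.trans (hsub W3 fun d hd => hW2 d (Finset.mem_filter.1 hd).1)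
      have h4 : (m : ℝ) ≤ 2 * W3.card := by exact_mod_cast hW3.le
      have h5 := hf0 d2
      nlinarith
    have hΦ0 : 0 ≤ Φ := le_trans (mul_nonneg hm0.le (hf0 d1)) hs1
    have h2 : f d1 + f d2 ≤ 4 / m * Φ := by
      rw [div_mul_eq_mul_div, le_div_iff₀ hm0]
      nlinarith
    have h3 : f d1 = ω (N.hub (N.S.a d1)) + s (N.hub (N.S.a d1)) := rfl
    have h4 : f d2 = ω (N.hub (N.S.a d2)) + s (N.hub (N.S.a d2)) := rfl
    linarith

end Pool.Agent.GW
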