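import Pool.Agent.GW.GenCov
import Pool.Agent.GW.Parts
import Pool.Agent.GW.FRx
import Pool.Agent.GW.DecompS
import Pool.Agent.GW.CovLen

/-!
# GW/CutOff: cut off a set of words with a short boundary

PROOF.  `E = bd (lets B) ∪ a '' bd (lets B)` (the letters which cross between `B` and its complement), `ρ` from `FR_exists`.  `FR_inv`: `ρ` maps the letters of `B`
to letters of `B`.  `U_cap` with `E`, `ρ`: the holes state has at most `2 b ≤ L` letters in total, so it is swept; in `S.capped E hE ρ` no letter of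
`lets B` (or of the caps with letters in `lets B`) has its partner outside: `S1`, `S2` are the two parts without the dead letters
(`U_parts_live` with `f` = in `B` or not).  The words of `S1` are the words of `B` and the caps (`b` letters in total), so
`area ≤ ∑ pw^2 + b^2`.  Genus: `gen_cap`, `gen_nonneg` (holes), `gen_split` (and dead letters do not change `gen`: `gen_emb`).
-/

set_option autoImplicit false

namespace Pool.Agent.GW

open Equiv Pool.Agent.SWP

section

variable (S : Sf) (M : Set S.D)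

/-- the letters which cross between `M` and its complement -/
def cross : Set S.D := {d | ¬ (d ∈ M ↔ S.a d ∈ M)}

theorem cross_cl : S.Cl (cross S M) := by
  intro d hd h
  apply hd
  rw [S.aa] at h
  exact h.symm

theorem cross_in : cross S M ∩ M = S.bd M := by
  ext d
  constructor
  · rintro ⟨h1, h2⟩
    exact ⟨h2, fun h => h1 ⟨fun _ => h, fun _ => h2⟩⟩
  · rintro ⟨h1, h2⟩
    exact ⟨fun h => h2 (h.1 h1), h1⟩

theorem cross_out : cross S M ∩ Mᶜ = S.a '' (S.bd M) := by
  ext d
  constructor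
  · rintro ⟨h1, h2⟩
    refine ⟨S.a d, ⟨?_, ?_⟩, S.aa d⟩
    · by_contra h
      exact h1 ⟨fun h' => absurd h' h2, fun h' => absurd h' h⟩
    · rw [S.aa]; exact h2
  · rintro ⟨e, ⟨h1, h2⟩, rfl⟩
    refine ⟨fun h => ?_, h2⟩
    rw [S.aa] at h
    exact h2 (h.2 h1)

theorem cross_in_card : (cross S M ∩ M).ncard = (S.bd M).ncard := by rw [cross_in]

theorem cross_out_card : (cross S M ∩ Mᶜ).ncard = (S.bd M).ncard := by
  rw [cross_out]
  exact Set.ncard_image_of_injective _ S.a.injective

theorem cross_card : (cross S M).ncard = 2 * (S.bd M).ncard := by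
  have h : cross S M = (cross S M ∩ M) ∪ (cross S M ∩ Mᶜ) := by
    rw [← Set.inter_union_distrib_left, Set.union_compl_self, Set.inter_univ]
  rw [h, Set.ncard_union_eq ?_ (Set.toFinite _) (Set.toFinite _), cross_in_card, cross_out_card]
  · ring
  · rw [Set.disjoint_left]
    rintro d ⟨_, h1⟩ ⟨_, h2⟩
    exact h2 h1

end

section

variable (S : Sf) (hS : S.Closed) (M : Set S.D) (hM : S.Inv M) (ρ : Perm S.D) (hρ : S.FR (cross S M) ρ)

include hM hρ in
theorem cross_rho (d : S.D) : ρ d ∈ M ↔ d ∈ M := by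
  refine FR_inv S (cross S M) (cross_cl S M) ρ hρ M hM ?_ d
  intro d hd h
  by_contra h1
  exact h (fun h2 => h1 (h2.1 hd))

include hρ in
theorem holes_len_le (d : S.D) : (S.holes (cross S M) ρ).len d ≤ 2 * (S.bd M).ncard := by
  by_cases hd : d ∈ cross S M
  · have h1 : ∀ e ∈ cross S M, (S.holes (cross S M) ρ).r e ∈ cross S M := fun e he => hρ.mem e he
    refine (len_le_num (S.holes (cross S M) ρ) h1 hd).trans ?_
    refine (num_le_ncard (S.holes (cross S M) ρ) (cross S M)).trans ?_
    exact (cross_card S M).le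
  · have h1 : ∀ e ∈ ({d} : Set S.D), (S.holes (cross S M) ρ).r e ∈ ({d} : Set S.D) := by
      intro e he
      rw [Set.mem_singleton_iff] at he
      subst he
      exact hρ.off e hd
    refine (len_le_num (S.holes (cross S M) ρ) h1 rfl).trans ?_
    have h2 : (({d} : Set S.D) ∩ (S.holes (cross S M) ρ).live) = ∅ := by
      ext e
      simp only [Set.mem_inter_iff, Set.mem_singleton_iff, Set.mem_empty_iff_false, iff_false, not_and]
      rintro rfl h
      exact h (holes_a_neg S (cross S M) (cross_cl S M) ρ hd)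
    have h3 : (S.holes (cross S M) ρ).num ({d} : Set S.D) = 0 := by
      unfold Sf.num
      exact (congrArg Set.ncard h2).trans (Set.ncard_empty _)
    rw [h3]
    exact Nat.zero_le _

include hS in
theorem holes_dead (d : S.D) (h : (S.holes (cross S M) ρ).a d = d) : d ∉ cross S M := by
  intro hd
  rw [holes_a_pos S (cross S M) ρ hd] at h
  exact hS d h

include hS hρ in
theorem holes_U (L : ℕ) (hb : 4 * (S.bd M).ncard ≤ L) : U L (S.holes (cross S M) ρ) := by
  have hlive : ∀ d, (S.holes (cross S M) ρ).a d ≠ d ↔ d ∈ cross S M := by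
    intro d
    constructor
    · intro h
      by_contra h1
      exact h (holes_a_neg S (cross S M) (cross_cl S M) ρ h1)
    · intro h h1
      exact holes_dead S hS M ρ d h1 h
  have hset : ∀ i : Unit, ({d | () = i ∧ (S.holes (cross S M) ρ).a d ≠ d} : Set S.D) = cross S M := by
    intro i
    ext d
    constructor
    · rintro ⟨_, h⟩
      exact (hlive d).1 h
    · intro h
      exact ⟨rfl, (hlive d).2 h⟩
  have hmem : ∀ d, ρ d ∈ cross S M ↔ d ∈ cross S M := by
    intro d
    constructor
    · intro h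
      by_contra h1
      rw [hρ.off d h1] at h
      exact h1 h
    · exact hρ.mem d
  have hrl : ∀ i : Unit, (S.holes (cross S M) ρ).Inv {d | () = i ∧ (S.holes (cross S M) ρ).a d ≠ d} := by
    intro i d
    exact and_congr_right (fun _ => (hlive (ρ d)).trans ((hmem d).trans (hlive d).symm))
  have hal : ∀ (i : Unit) d, (S.holes (cross S M) ρ).a d ∈ ({d | () = i ∧ (S.holes (cross S M) ρ).a d ≠ d} : Set S.D) ↔
      d ∈ ({d | () = i ∧ (S.holes (cross S M) ρ).a d ≠ d} : Set S.D) := by
    intro i d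
    constructor
    · rintro ⟨_, h⟩
      refine ⟨rfl, fun h1 => h ?_⟩
      rw [h1]
      exact h1
    · rintro ⟨_, h⟩
      refine ⟨rfl, fun h1 => h ?_⟩
      rw [(S.holes (cross S M) ρ).aa] at h1
      exact h1.symm
  refine U_parts_live (ι := Unit) (S.holes (cross S M) ρ) (fun _ => ()) (fun _ => rfl) (fun _ => rfl) ?_ ?_ hrl hal ?_
  · intro d h
    exact hρ.off d (holes_dead S hS M ρ d h)
  · intro d
    exact (holes_len_le S M ρ hρ d).trans (by omega)
  · intro i
    apply U_of_card
    rw [Sf.part_card]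
    have h1 := congrArg Set.ncard (hset i)
    refine (le_of_eq h1).trans ?_
    rw [cross_card]
    omega

/-- the underlying letter -/
def ul (x : S.D ⊕ S.D) : S.D := x.elim id id

variable (b : Prop)

/-- the letters of one side which are alive in the capped state -/
def sideL : Set (S.capped (cross S M) (cross_cl S M) ρ).D :=
  {x | (ul S x ∈ M ↔ b) ∧ (S.capped (cross S M) (cross_cl S M) ρ).a x ≠ x}

theorem cp_a_inl_pos {d : S.D} (h : d ∈ cross S M) :
    (S.capped (cross S M) (cross_cl S M) ρ).a (Sum.inl d) = Sum.inr d := by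
  have h0 : (S.capped (cross S M) (cross_cl S M) ρ).a (Sum.inl d) = hatFun (cross S M) S.a (Sum.inl d) := rfl
  rw [h0]; simp [hatFun, h]

theorem cp_a_inl_neg {d : S.D} (h : d ∉ cross S M) :
    (S.capped (cross S M) (cross_cl S M) ρ).a (Sum.inl d) = Sum.inl (S.a d) := by
  have h0 : (S.capped (cross S M) (cross_cl S M) ρ).a (Sum.inl d) = hatFun (cross S M) S.a (Sum.inl d) := rfl
  rw [h0]; simp [hatFun, h]

theorem cp_a_inr_pos {d : S.D} (h : d ∈ cross S M) :
    (S.capped (cross S M) (cross_cl S M) ρ).a (Sum.inr d) = Sum.inl d := by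
  have h0 : (S.capped (cross S M) (cross_cl S M) ρ).a (Sum.inr d) = hatFun (cross S M) S.a (Sum.inr d) := rfl
  rw [h0]; simp [hatFun, h]

theorem cp_a_inr_neg {d : S.D} (h : d ∉ cross S M) :
    (S.capped (cross S M) (cross_cl S M) ρ).a (Sum.inr d) = Sum.inr d := by
  have h0 : (S.capped (cross S M) (cross_cl S M) ρ).a (Sum.inr d) = hatFun (cross S M) S.a (Sum.inr d) := rfl
  rw [h0]; simp [hatFun, h]

include hS in
theorem cp_dead (x : (S.capped (cross S M) (cross_cl S M) ρ).D)
    (h : (S.capped (cross S M) (cross_cl S M) ρ).a x = x) : ∃ d, d ∉ cross S M ∧ x = Sum.inr d := by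
  rcases x with d | d
  · by_cases hd : d ∈ cross S M
    · have h1 := (cp_a_inl_pos S M ρ hd).symm.trans h
      exact absurd h1 Sum.inr_ne_inl
    · have h1 := (cp_a_inl_neg S M ρ hd).symm.trans h
      exact absurd (Sum.inl_injective h1) (hS d)
  · by_cases hd : d ∈ cross S M
    · have h1 := (cp_a_inr_pos S M ρ hd).symm.trans h
      exact absurd h1 Sum.inl_ne_inr
    · exact ⟨d, hd, rfl⟩

include hS hρ in
theorem cp_dead_r (x : (S.capped (cross S M) (cross_cl S M) ρ).D)
    (h : (S.capped (cross S M) (cross_cl S M) ρ).a x = x) : (S.capped (cross S M) (cross_cl S M) ρ).r x = x := by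
  obtain ⟨d, hd, rfl⟩ := cp_dead S hS M ρ x h
  have h1 : ρ⁻¹ d = d := by
    rw [Perm.inv_eq_iff_eq]
    exact (hρ.off d hd).symm
  exact congrArg Sum.inr h1

include hM hρ in
theorem ul_r (x : (S.capped (cross S M) (cross_cl S M) ρ).D) :
    ul S ((S.capped (cross S M) (cross_cl S M) ρ).r x) ∈ M ↔ ul S x ∈ M := by
  rcases x with d | d
  · exact hM d
  · have h1 := cross_rho S M hM ρ hρ (ρ⁻¹ d)
    have h2 : ρ (ρ⁻¹ d) = d := by simp
    rw [h2] at h1
    exact h1.symm

theorem ul_a (x : (S.capped (cross S M) (cross_cl S M) ρ).D) :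
    ul S ((S.capped (cross S M) (cross_cl S M) ρ).a x) ∈ M ↔ ul S x ∈ M := by
  rcases x with d | d
  · by_cases hd : d ∈ cross S M
    · have h1 := congrArg (ul S) (cp_a_inl_pos S M ρ hd)
      rw [h1]
      exact Iff.rfl
    · have h1 := congrArg (ul S) (cp_a_inl_neg S M ρ hd)
      rw [h1]
      by_contra h
      exact hd (fun h2 => h h2.symm)
  · by_cases hd : d ∈ cross S M
    · have h1 := congrArg (ul S) (cp_a_inr_pos S M ρ hd)
      rw [h1]
      exact Iff.rfl
    · have h1 := congrArg (ul S) (cp_a_inr_neg S M ρ hd)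
      rw [h1]

include hS hρ in
theorem cp_live_r (x : (S.capped (cross S M) (cross_cl S M) ρ).D) :
    (S.capped (cross S M) (cross_cl S M) ρ).a ((S.capped (cross S M) (cross_cl S M) ρ).r x) ≠
      (S.capped (cross S M) (cross_cl S M) ρ).r x ↔ (S.capped (cross S M) (cross_cl S M) ρ).a x ≠ x := by
  constructor
  · intro h h1
    rw [cp_dead_r S hS M ρ hρ x h1] at h
    exact h h1
  · intro h h1
    have h2 := cp_dead_r S hS M ρ hρ _ h1
    have h3 := (S.capped (cross S M) (cross_cl S M) ρ).r.injective h2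
    rw [h3] at h1
    exact h h1

theorem cp_live_a (x : (S.capped (cross S M) (cross_cl S M) ρ).D) :
    (S.capped (cross S M) (cross_cl S M) ρ).a ((S.capped (cross S M) (cross_cl S M) ρ).a x) ≠
      (S.capped (cross S M) (cross_cl S M) ρ).a x ↔ (S.capped (cross S M) (cross_cl S M) ρ).a x ≠ x := by
  rw [(S.capped (cross S M) (cross_cl S M) ρ).aa]
  exact ⟨fun h h1 => h h1.symm, fun h h1 => h h1.symm⟩

include hS hM hρ in
theorem sideL_inv : (S.capped (cross S M) (cross_cl S M) ρ).Inv (sideL S M ρ b) := by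
  intro x
  unfold sideL
  rw [Set.mem_ofPred_eq, Set.mem_ofPred_eq, ul_r S M hM ρ hρ x, cp_live_r S hS M ρ hρ x]

theorem sideL_a (x : (S.capped (cross S M) (cross_cl S M) ρ).D) :
    (S.capped (cross S M) (cross_cl S M) ρ).a x ∈ sideL S M ρ b ↔ x ∈ sideL S M ρ b := by
  unfold sideL
  rw [Set.mem_ofPred_eq, Set.mem_ofPred_eq, ul_a S M ρ x, cp_live_a S M ρ x]

/-- one side of the capped state, without the dead letters -/
noncomputable def cutSide : Sf :=
  (S.capped (cross S M) (cross_cl S M) ρ).part (sideL S M ρ b) (sideL_inv S hS M hM ρ hρ b) (sideL_a S M ρ b)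

theorem cutSide_closed : (cutSide S hS M hM ρ hρ b).Closed :=
  Sf.part_closed _ _ _ _ (fun _ h => h.2)

include hM hρ in
/-- the lengths of the words of the caps of one side -/
theorem side_holes (d : S.D) (hd : d ∈ cross S M) (hb : d ∈ M ↔ b) :
    (S.holes (cross S M) ρ).len d ≤ (S.bd M).ncard := by
  have h1 : ∀ e ∈ ({e | e ∈ cross S M ∧ (e ∈ M ↔ b)} : Set S.D), (S.holes (cross S M) ρ).r e ∈
      ({e | e ∈ cross S M ∧ (e ∈ M ↔ b)} : Set S.D) := by
    rintro e ⟨h2, h3⟩
    exact ⟨hρ.mem e h2, (cross_rho S M hM ρ hρ e).trans h3⟩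
  refine (len_le_num (S.holes (cross S M) ρ) h1 ⟨hd, hb⟩).trans ?_
  refine (num_le_ncard (S.holes (cross S M) ρ) _).trans ?_
  by_cases hbt : b
  · have h2 : ({e | e ∈ cross S M ∧ (e ∈ M ↔ b)} : Set S.D) = cross S M ∩ M := by
      ext e
      simp [hbt]
    exact (le_of_eq (congrArg Set.ncard h2)).trans (cross_in_card S M).le
  · have h2 : ({e | e ∈ cross S M ∧ (e ∈ M ↔ b)} : Set S.D) = cross S M ∩ Mᶜ := by
      ext e
      simp [hbt]
    exact (le_of_eq (congrArg Set.ncard h2)).trans (cross_out_card S M).le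

theorem side_num : ({e | e ∈ cross S M ∧ (e ∈ M ↔ b)} : Set S.D).ncard = (S.bd M).ncard := by
  by_cases hbt : b
  · have h2 : ({e | e ∈ cross S M ∧ (e ∈ M ↔ b)} : Set S.D) = cross S M ∩ M := by
      ext e
      simp [hbt]
    rw [h2, cross_in_card S M]
  · have h2 : ({e | e ∈ cross S M ∧ (e ∈ M ↔ b)} : Set S.D) = cross S M ∩ Mᶜ := by
      ext e
      simp [hbt]
    rw [h2, cross_out_card S M]

open Classical in
theorem part_area_eq (T : Sf) (A : Set T.D) (hr : T.Inv A) (ha : ∀ d, T.a d ∈ A ↔ d ∈ A) :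
    (T.part A hr ha).area = ∑ x, if x ∈ A then T.len x else 0 := by
  unfold Sf.area
  rw [← Finset.sum_filter]
  refine Finset.sum_bij (fun (x : (T.part A hr ha).D) _ => (x.1 : T.D)) ?_ ?_ ?_ ?_
  · intro x _
    exact Finset.mem_filter.2 ⟨Finset.mem_univ _, x.2⟩
  · intro x _ y _ hxy
    exact Subtype.ext hxy
  · intro y hy
    exact ⟨⟨y, (Finset.mem_filter.1 hy).2⟩, Finset.mem_univ _, rfl⟩
  · intro x _
    exact Sf.part_len _ _ _ _ x

open Classical in
theorem cutSide_area : (cutSide S hS M hM ρ hρ b).area ≤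
    ∑ d ∈ Finset.univ.filter (fun d => (d ∈ M ↔ b)), S.len d + (S.bd M).ncard ^ 2 := by
  have hlive : ∀ d ∈ cross S M, S.a d ≠ d := fun d _ => hS d
  let g : S.D ⊕ S.D → ℕ := fun x => if x ∈ sideL S M ρ b then (S.capped (cross S M) (cross_cl S M) ρ).len x else 0
  have h0 : (cutSide S hS M hM ρ hρ b).area = ∑ x, g x := part_area_eq _ _ _ _
  rw [h0, Fintype.sum_sum_type]
  refine Nat.add_le_add ?_ ?_
  · rw [Finset.sum_filter]
    refine Finset.sum_le_sum (fun d _ => ?_)
    by_cases h1 : (Sum.inl d : S.D ⊕ S.D) ∈ sideL S M ρ b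
    · have h2 : (d ∈ M ↔ b) := h1.1
      have h3 : g (Sum.inl d) = (S.capped (cross S M) (cross_cl S M) ρ).len (Sum.inl d) := if_pos h1
      rw [h3, if_pos h2]
      exact (cap_len S (cross S M) (cross_cl S M) hlive ρ hρ d).1.le
    · have h3 : g (Sum.inl d) = 0 := if_neg h1
      rw [h3]
      exact Nat.zero_le _
  · calc ∑ d, g (Sum.inr d) ≤ ∑ d, (if d ∈ cross S M ∧ (d ∈ M ↔ b) then (S.bd M).ncard else 0) := by
          refine Finset.sum_le_sum (fun d _ => ?_)
          by_cases h1 : (Sum.inr d : S.D ⊕ S.D) ∈ sideL S M ρ b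
          · have h2 : (d ∈ M ↔ b) := h1.1
            have h4 : d ∈ cross S M := by
              by_contra h4
              exact h1.2 (cp_a_inr_neg S M ρ h4)
            have h3 : g (Sum.inr d) = (S.capped (cross S M) (cross_cl S M) ρ).len (Sum.inr d) := if_pos h1
            rw [h3, if_pos ⟨h4, h2⟩]
            exact ((cap_len S (cross S M) (cross_cl S M) hlive ρ hρ d).2.le).trans
              (side_holes S M hM ρ hρ b d h4 h2)
          · have h3 : g (Sum.inr d) = 0 := if_neg h1
            rw [h3]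
            exact Nat.zero_le _
      _ = (S.bd M).ncard ^ 2 := by
          rw [← Finset.sum_filter, Finset.sum_const, smul_eq_mul, sq]
          congr 1
          rw [← side_num S M b, Set.ncard_eq_toFinset_card']
          congr 1
          ext d
          simp

end

open Classical in
theorem lets_sum (S : Sf) (hS : S.Closed) (B : Finset S.Wd) :
    ∑ d ∈ Finset.univ.filter (fun d => S.wd d ∈ B), S.len d = ∑ P ∈ B, S.pw P ^ 2 := by
  have hlen : ∀ d, S.len d = S.pw (S.wd d) := by
    intro d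
    unfold Sf.len Sf.num Sf.pw
    congr 1
    ext e
    constructor
    · rintro ⟨h1, _⟩
      exact ((S.wd_eq e d).2 h1.symm)
    · intro h1
      exact ⟨((S.wd_eq e d).1 h1).symm, hS e⟩
  have h1 : ∀ d ∈ Finset.univ.filter (fun d => S.wd d ∈ B), S.wd d ∈ B := fun d hd => (Finset.mem_filter.1 hd).2
  rw [← Finset.sum_fiberwise_of_maps_to h1]
  refine Finset.sum_congr rfl (fun P hP => ?_)
  have h2 : ∀ d ∈ Finset.filter (fun d => S.wd d = P) (Finset.univ.filter (fun d => S.wd d ∈ B)),
      S.len d = S.pw P := by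
    intro d hd
    rw [hlen, (Finset.mem_filter.1 hd).2]
  rw [Finset.sum_congr rfl h2, Finset.sum_const, smul_eq_mul, sq]
  congr 1
  unfold Sf.pw
  rw [Set.ncard_eq_toFinset_card']
  congr 1
  ext d
  simp only [Finset.mem_filter, Finset.mem_univ, true_and, Set.mem_toFinset, Set.mem_ofPred_eq]
  constructor
  · rintro ⟨_, h⟩
    exact h
  · intro h
    exact ⟨by rw [h]; exact hP, h⟩

theorem cut_off (L : ℕ) (S : Sf) (hS : S.Closed) (B : Finset S.Wd) (hL : ∀ d, S.len d ≤ L)
    (hb : 4 * (S.bd (S.lets B)).ncard ≤ L) :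
    ∃ S1 S2 : Sf, S1.Closed ∧ S2.Closed ∧ S1.gen + S2.gen ≤ S.gen ∧
      S1.area ≤ ∑ P ∈ B, S.pw P ^ 2 + (S.bd (S.lets B)).ncard ^ 2 ∧
      S2.area ≤ ∑ P ∈ Bᶜ, S.pw P ^ 2 + (S.bd (S.lets B)).ncard ^ 2 ∧ (U L S1 → U L S2 → U L S) := by
  classical
  obtain ⟨ρ, hρ⟩ := FR_exists S (cross S (S.lets B)) (cross_cl S (S.lets B))
  have hM : S.Inv (S.lets B) := S.lets_inv B
  have hlive : ∀ d ∈ cross S (S.lets B), S.a d ≠ d := fun d _ => hS d
  refine ⟨cutSide S hS (S.lets B) hM ρ hρ True, cutSide S hS (S.lets B) hM ρ hρ False,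
    cutSide_closed S hS _ hM ρ hρ True, cutSide_closed S hS _ hM ρ hρ False, ?_, ?_, ?_, ?_⟩
  · -- genus
    have h1 := gen_cap S (cross S (S.lets B)) (cross_cl S (S.lets B)) hlive ρ hρ
    have h2 := gen_nonneg (S.holes (cross S (S.lets B)) ρ)
    have hr1 := sideL_inv S hS (S.lets B) hM ρ hρ True
    have ha1 := sideL_a S (S.lets B) ρ True
    have hr2 : (S.capped (cross S (S.lets B)) (cross_cl S (S.lets B)) ρ).Inv (sideL S (S.lets B) ρ True)ᶜ :=
      fun d => not_congr (hr1 d)
    have ha2 : ∀ d, (S.capped (cross S (S.lets B)) (cross_cl S (S.lets B)) ρ).a d ∈ (sideL S (S.lets B) ρ True)ᶜ ↔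
        d ∈ (sideL S (S.lets B) ρ True)ᶜ := fun d => not_congr (ha1 d)
    have h3 := gen_split (S.capped (cross S (S.lets B)) (cross_cl S (S.lets B)) ρ) (sideL S (S.lets B) ρ True)
      hr1 ha1 hr2 ha2
    have hsub : ∀ x ∈ sideL S (S.lets B) ρ False, x ∈ (sideL S (S.lets B) ρ True)ᶜ := by
      rintro x ⟨h4, _⟩ ⟨h5, _⟩
      exact h4.1 (h5.2 trivial)
    have h4 : Emb (cutSide S hS (S.lets B) hM ρ hρ False)
        ((S.capped (cross S (S.lets B)) (cross_cl S (S.lets B)) ρ).part (sideL S (S.lets B) ρ True)ᶜ hr2 ha2)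
        (fun x => ⟨x.1, hsub x.1 x.2⟩) := by
      refine ⟨⟨?_, fun _ => rfl, fun _ => rfl⟩, ?_⟩
      · intro x y hxy
        exact Subtype.ext (congrArg (fun z => z.1) hxy)
      · intro e he
        apply Subtype.ext
        show (S.capped (cross S (S.lets B)) (cross_cl S (S.lets B)) ρ).a e.1 = e.1
        by_contra h5
        by_cases h6 : ul S e.1 ∈ S.lets B
        · exact e.2 ⟨⟨fun _ => trivial, fun _ => h6⟩, h5⟩
        · exact he ⟨e.1, ⟨⟨fun h7 => h6 h7, fun h7 => h7.elim⟩, h5⟩⟩ rfl
    have h5 := gen_emb _ h4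
    have h6 : (cutSide S hS (S.lets B) hM ρ hρ True).gen +
        ((S.capped (cross S (S.lets B)) (cross_cl S (S.lets B)) ρ).part (sideL S (S.lets B) ρ True)ᶜ hr2 ha2).gen =
        (S.capped (cross S (S.lets B)) (cross_cl S (S.lets B)) ρ).gen := h3
    rw [h5] at h6
    linarith
  · have h1 := cutSide_area S hS (S.lets B) hM ρ hρ True
    refine h1.trans (le_of_eq ?_)
    congr 1
    rw [← lets_sum S hS B]
    refine Finset.sum_congr ?_ (fun _ _ => rfl)
    ext d
    simp [Sf.lets]
  · have h1 := cutSide_area S hS (S.lets B) hM ρ hρ False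
    refine h1.trans (le_of_eq ?_)
    congr 1
    rw [← lets_sum S hS Bᶜ]
    refine Finset.sum_congr ?_ (fun _ _ => rfl)
    ext d
    simp [Sf.lets]
  · intro h1 h2
    have hcl : ∀ d, (S.holes (cross S (S.lets B)) ρ).len d ≤ 2 * (S.bd (S.lets B)).ncard :=
      holes_len_le S (S.lets B) ρ hρ
    refine U_cap L S (cross S (S.lets B)) (cross_cl S (S.lets B)) hlive ρ hρ hL ?_ ?_ ?_
    · intro d
      have := hcl d
      omega
    · have hset : ∀ i : Bool, ({x | decide (ul S x ∈ S.lets B) = i ∧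
          (S.capped (cross S (S.lets B)) (cross_cl S (S.lets B)) ρ).a x ≠ x} :
          Set (S.capped (cross S (S.lets B)) (cross_cl S (S.lets B)) ρ).D) = sideL S (S.lets B) ρ (i = true) := by
        intro i
        ext x
        cases i
        · simp [sideL]
        · simp [sideL]
      have hrl : ∀ i : Bool, (S.capped (cross S (S.lets B)) (cross_cl S (S.lets B)) ρ).Inv
          {x | decide (ul S x ∈ S.lets B) = i ∧
          (S.capped (cross S (S.lets B)) (cross_cl S (S.lets B)) ρ).a x ≠ x} := by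
        intro i
        rw [hset i]
        exact sideL_inv S hS (S.lets B) hM ρ hρ (i = true)
      have hal : ∀ (i : Bool) x, (S.capped (cross S (S.lets B)) (cross_cl S (S.lets B)) ρ).a x ∈
          ({x | decide (ul S x ∈ S.lets B) = i ∧
          (S.capped (cross S (S.lets B)) (cross_cl S (S.lets B)) ρ).a x ≠ x} :
          Set (S.capped (cross S (S.lets B)) (cross_cl S (S.lets B)) ρ).D) ↔
          x ∈ ({x | decide (ul S x ∈ S.lets B) = i ∧
          (S.capped (cross S (S.lets B)) (cross_cl S (S.lets B)) ρ).a x ≠ x} :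
          Set (S.capped (cross S (S.lets B)) (cross_cl S (S.lets B)) ρ).D) := by
        intro i
        rw [hset i]
        exact sideL_a S (S.lets B) ρ (i = true)
      refine U_parts_live (S.capped (cross S (S.lets B)) (cross_cl S (S.lets B)) ρ)
        (fun x => decide (ul S x ∈ S.lets B)) ?_ ?_ (cp_dead_r S hS (S.lets B) ρ hρ) ?_ hrl hal ?_
      · intro x
        exact decide_eq_decide.2 (ul_r S (S.lets B) hM ρ hρ x)
      · intro x
        exact decide_eq_decide.2 (ul_a S (S.lets B) ρ x)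
      · rintro (d | d)
        · exact ((cap_len S (cross S (S.lets B)) (cross_cl S (S.lets B)) hlive ρ hρ d).1.le).trans (hL d)
        · refine ((cap_len S (cross S (S.lets B)) (cross_cl S (S.lets B)) hlive ρ hρ d).2.le).trans ?_
          have := hcl d
          omega
      · intro i
        cases i
        · have hf : ∀ x, x ∈ sideL S (S.lets B) ρ False ↔ x ∈ ({x | decide (ul S x ∈ S.lets B) = false ∧
              (S.capped (cross S (S.lets B)) (cross_cl S (S.lets B)) ρ).a x ≠ x} :
              Set (S.capped (cross S (S.lets B)) (cross_cl S (S.lets B)) ρ).D) := by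
            intro x
            simp [sideL]
          exact U.iso h2 (φ := ⟨fun x => ⟨x.1, (hf x.1).1 x.2⟩, fun x => ⟨x.1, (hf x.1).2 x.2⟩,
            fun _ => rfl, fun _ => rfl⟩) ⟨fun _ => rfl, fun _ => rfl⟩
        · have hf : ∀ x, x ∈ sideL S (S.lets B) ρ True ↔ x ∈ ({x | decide (ul S x ∈ S.lets B) = true ∧
              (S.capped (cross S (S.lets B)) (cross_cl S (S.lets B)) ρ).a x ≠ x} :
              Set (S.capped (cross S (S.lets B)) (cross_cl S (S.lets B)) ρ).D) := by
            intro x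
            simp [sideL]
          exact U.iso h1 (φ := ⟨fun x => ⟨x.1, (hf x.1).1 x.2⟩, fun x => ⟨x.1, (hf x.1).2 x.2⟩,
            fun _ => rfl, fun _ => rfl⟩) ⟨fun _ => rfl, fun _ => rfl⟩
    · exact holes_U S hS (S.lets B) ρ hρ L hb

end Pool.Agent.GW
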