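import Pool.Agent.GW.DecompS

/-!
# GW/DcsDef (helper76): decomposition of a closed state into pieces (definitions)

`Dcs S E c ψ u κ`: the output of `decompS` (walls `E`, classes `c` of the small words); `lbl`: label of a letter: the class of its word if the
word is small, the word itself if it is big.
-/

set_option autoImplicit false

namespace Pool.Agent.GW

open Equiv Pool.Agent.SWP Finset

namespace Sf

/-- the output of `decompS` -/
structure Dcs (S : Sf) (E : Set S.D) (c : S.Wd → S.Wd) (ψ u κ : ℝ) : Prop where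
  cl : S.Cl E
  mem : ∀ d, d ∈ E ↔ u / ψ < S.pw (S.wd d) ∨ u / ψ < S.pw (S.wd (S.a d)) ∨ c (S.wd d) ≠ c (S.wd (S.a d))
  pc : ∀ i, (S.gr (S.cl (u / ψ) c i)).Pc (fun x => S.pw x) ψ u κ

/-- label of a letter -/
noncomputable def lbl (S : Sf) (M : ℝ) (c : S.Wd → S.Wd) (d : S.D) : S.Wd ⊕ S.Wd :=
  @ite _ ((S.pw (S.wd d) : ℝ) ≤ M) (Classical.propDecidable _) (Sum.inl (c (S.wd d))) (Sum.inr (S.wd d))

theorem lbl_inl (S : Sf) (M : ℝ) (c : S.Wd → S.Wd) (d : S.D) (i : S.Wd) :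
    S.lbl M c d = Sum.inl i ↔ (S.pw (S.wd d) : ℝ) ≤ M ∧ c (S.wd d) = i := by
  unfold lbl
  split_ifs with h
  · simp [h]
  · simp [h]

theorem lbl_inr (S : Sf) (M : ℝ) (c : S.Wd → S.Wd) (d : S.D) (P : S.Wd) :
    S.lbl M c d = Sum.inr P ↔ M < S.pw (S.wd d) ∧ S.wd d = P := by
  unfold lbl
  split_ifs with h
  · simp [h]
  · simp [not_le.mp h]

theorem lbl_r (S : Sf) (M : ℝ) (c : S.Wd → S.Wd) (d : S.D) : S.lbl M c (S.r d) = S.lbl M c d := by
  have : S.wd (S.r d) = S.wd d := (S.wd_eq _ _).mpr (Perm.sameCycle_apply_left.mpr (Perm.SameCycle.refl _ _))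
  unfold lbl
  rw [this]

theorem Dcs.lbl_a {S : Sf} {E : Set S.D} {c : S.Wd → S.Wd} {ψ u κ : ℝ} (h : S.Dcs E c ψ u κ) {d : S.D} (hd : d ∉ E) :
    S.lbl (u / ψ) c (S.a d) = S.lbl (u / ψ) c d := by
  rw [h.mem] at hd
  push Not at hd
  unfold lbl
  rw [if_pos hd.1, if_pos hd.2.1, hd.2.2]

end Sf

end Pool.Agent.GW
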