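import Mathlib

/-!
# GW.Graph: finite weighted graphs (definitions, MP_37d33d_gt)

`w x y = w y x ≥ 0` (loops allowed), `om x = ∑_y w x y`, `vol X`, `ee X Y`, `cut X` (weight between `X` and its complement),
`Cond ψ`: conductance at least `ψ`, `Adj`, `Conn X`: `X` is nonempty and connected, `pi`, `ker`, `kerN`: stationary
distribution, lazy walk, `t` steps of the lazy walk.
-/

set_option autoImplicit false

namespace Pool.Agent.GW

open Finset

/-- finite weighted graph; loops are allowed. -/
structure WG (V : Type) where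
  w : V → V → ℝ
  symm : ∀ x y, w x y = w y x
  nonneg : ∀ x y, 0 ≤ w x y

namespace WG

section

variable {V : Type} (G : WG V)

/-- adjacency. -/
def Adj (x y : V) : Prop := x ≠ y ∧ 0 < G.w x y

/-- `X` is nonempty and connected. -/
def Conn (X : Finset V) : Prop :=
  X.Nonempty ∧ ∀ x ∈ X, ∀ y ∈ X, Relation.ReflTransGen (fun a b => G.Adj a b ∧ b ∈ X) x y

/-- weight of the edges between two sets. -/
noncomputable def ee (X Y : Finset V) : ℝ := ∑ x ∈ X, ∑ y ∈ Y, G.w x y

theorem Adj.symm {G : WG V} {x y : V} (h : G.Adj x y) : G.Adj y x := ⟨h.1.symm, by rw [G.symm]; exact h.2⟩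

theorem ee_nonneg (X Y : Finset V) : 0 ≤ G.ee X Y := sum_nonneg fun x _ => sum_nonneg fun y _ => G.nonneg x y

theorem ee_comm (X Y : Finset V) : G.ee X Y = G.ee Y X := by
  unfold ee
  rw [sum_comm]
  exact sum_congr rfl fun y _ => sum_congr rfl fun x _ => G.symm x y

end

section

variable {V : Type} [Fintype V] (G : WG V)

/-- weight of a vertex. -/
noncomputable def om (x : V) : ℝ := ∑ y, G.w x y

/-- weight of a set. -/
noncomputable def vol (X : Finset V) : ℝ := ∑ x ∈ X, G.om x

theorem om_nonneg (x : V) : 0 ≤ G.om x := sum_nonneg fun y _ => G.nonneg x y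

theorem vol_nonneg (X : Finset V) : 0 ≤ G.vol X := sum_nonneg fun x _ => G.om_nonneg x

theorem ee_le_vol (X Y : Finset V) : G.ee X Y ≤ G.vol X :=
  sum_le_sum fun x _ => sum_le_sum_of_subset_of_nonneg (subset_univ Y) fun y _ _ => G.nonneg x y

/-- the stationary distribution. -/
noncomputable def pi (x : V) : ℝ := G.om x / G.vol univ

end

variable {V : Type} [Fintype V] [DecidableEq V] (G : WG V)

/-- weight of the boundary. -/
noncomputable def cut (X : Finset V) : ℝ := G.ee X Xᶜ

/-- conductance at least `ψ`. -/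
def Cond (ψ : ℝ) : Prop := ∀ X : Finset V, 2 * G.vol X ≤ G.vol univ → ψ * G.vol X ≤ G.cut X

/-- one step of the lazy walk. -/
noncomputable def ker (x y : V) : ℝ := (if x = y then 1 / 2 else 0) + G.w x y / (2 * G.om x)

/-- `t` steps of the lazy walk. -/
noncomputable def kerN : ℕ → V → V → ℝ
  | 0, x, y => if x = y then 1 else 0
  | t + 1, x, y => ∑ z, G.ker x z * kerN t z y

theorem cut_nonneg (X : Finset V) : 0 ≤ G.cut X := G.ee_nonneg _ _

theorem cut_compl (X : Finset V) : G.cut Xᶜ = G.cut X := by
  unfold cut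
  rw [compl_compl, G.ee_comm]

theorem vol_add_compl (X : Finset V) : G.vol X + G.vol Xᶜ = G.vol univ := by
  unfold vol
  exact sum_add_sum_compl X _

end WG

end Pool.Agent.GW
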