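import Pool.Agent.GW.Cnd
import Pool.Agent.GW.Graph

/-!
# GW/Dual (helper73): the dual graph of a state

Vertices: the words (cycles of `r`); weight of a pair of words: number of letters of the first one whose partner is in
the second one.
-/

set_option autoImplicit false

namespace Pool.Agent.GW

open Equiv Pool.Agent.SWP

namespace Sf

/-- the set of words -/
def Wd (S : Sf) : Type := Quotient (Perm.SameCycle.setoid S.r)

noncomputable instance (S : Sf) : Fintype S.Wd := @Quotient.fintype _ _ _ (fun _ _ => Classical.propDecidable _)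

noncomputable instance (S : Sf) : DecidableEq S.Wd := Classical.decEq _

/-- the word of a letter -/
def wd (S : Sf) (d : S.D) : S.Wd := Quotient.mk (Perm.SameCycle.setoid S.r) d

theorem wd_eq (S : Sf) (d e : S.D) : S.wd d = S.wd e ↔ S.r.SameCycle d e := Quotient.eq

theorem wd_surj (S : Sf) (P : S.Wd) : ∃ d, S.wd d = P := Quotient.exists_rep P

/-- the letters of a set of words -/
def lets (S : Sf) (X : Finset S.Wd) : Set S.D := {d | S.wd d ∈ X}

theorem lets_inv (S : Sf) (X : Finset S.Wd) : S.Inv (S.lets X) := by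
  intro d
  have : S.wd (S.r d) = S.wd d := (S.wd_eq _ _).mpr (Perm.sameCycle_apply_left.mpr (Perm.SameCycle.refl _ _))
  unfold lets
  rw [Set.mem_ofPred_eq, Set.mem_ofPred_eq, this]

/-- the dual graph -/
noncomputable def dual (S : Sf) : WG S.Wd where
  w P Q := (Set.ncard {d : S.D | S.wd d = P ∧ S.wd (S.a d) = Q} : ℝ)
  symm P Q := by
    congr 1
    refine Set.ncard_congr (fun d _ => S.a d) ?_ ?_ ?_
    · rintro d ⟨h1, h2⟩
      exact ⟨h2, by rw [S.aa]; exact h1⟩
    · intro d e _ _ h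
      exact S.a.injective h
    · rintro d ⟨h1, h2⟩
      exact ⟨S.a d, ⟨h2, by rw [S.aa]; exact h1⟩, S.aa d⟩
  nonneg P Q := by positivity

theorem ncard_sum {D V : Type} [Fintype D] [DecidableEq V] (f : D → V) (A : Set D) (X : Finset V)
    (h : ∀ d ∈ A, f d ∈ X) : (A.ncard : ℝ) = ∑ P ∈ X, (Set.ncard {d | d ∈ A ∧ f d = P} : ℝ) := by
  classical
  have h1 : A.toFinset.card = ∑ P ∈ X, (A.toFinset.filter (fun d => f d = P)).card :=
    Finset.card_eq_sum_card_fiberwise (fun d hd => h d (by simpa using hd))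
  rw [Set.ncard_eq_toFinset_card' A, h1]
  push_cast
  refine Finset.sum_congr rfl (fun P _ => ?_)
  congr 1
  rw [Set.ncard_eq_toFinset_card']
  congr 1
  ext d
  simp

theorem dual_ee (S : Sf) (X Y : Finset S.Wd) :
    S.dual.ee X Y = (Set.ncard {d | S.wd d ∈ X ∧ S.wd (S.a d) ∈ Y} : ℝ) := by
  unfold WG.ee
  rw [ncard_sum S.wd {d | S.wd d ∈ X ∧ S.wd (S.a d) ∈ Y} X (fun d hd => hd.1)]
  refine Finset.sum_congr rfl (fun P hP => ?_)
  rw [ncard_sum (fun d => S.wd (S.a d)) {d | d ∈ {d | S.wd d ∈ X ∧ S.wd (S.a d) ∈ Y} ∧ S.wd d = P} Y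
    (fun d hd => hd.1.2)]
  refine Finset.sum_congr rfl (fun Q hQ => ?_)
  show (Set.ncard _ : ℝ) = _
  congr 2
  ext d
  simp only [Set.mem_ofPred_eq]
  constructor
  · rintro ⟨h1, h2⟩
    exact ⟨⟨⟨by rw [h1]; exact hP, by rw [h2]; exact hQ⟩, h1⟩, h2⟩
  · rintro ⟨⟨_, h1⟩, h2⟩
    exact ⟨h1, h2⟩

theorem dual_om (S : Sf) (P : S.Wd) : S.dual.om P = (Set.ncard {d | S.wd d = P} : ℝ) := by
  have h := S.dual_ee {P} Finset.univ
  unfold WG.ee at h
  rw [Finset.sum_singleton] at h
  unfold WG.om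
  rw [h]
  congr 2
  ext d
  simp

theorem dual_vol (S : Sf) (X : Finset S.Wd) : S.dual.vol X = ((S.lets X).ncard : ℝ) := by
  unfold WG.vol
  rw [ncard_sum S.wd (S.lets X) X (fun d hd => hd)]
  refine Finset.sum_congr rfl (fun P hP => ?_)
  rw [S.dual_om]
  congr 2
  ext d
  simp only [Set.mem_ofPred_eq, lets]
  constructor
  · intro h; exact ⟨by rw [h]; exact hP, h⟩
  · rintro ⟨_, h⟩; exact h

theorem dual_cut (S : Sf) (X : Finset S.Wd) : S.dual.cut X = ((S.bd (S.lets X)).ncard : ℝ) := by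
  unfold WG.cut
  rw [S.dual_ee]
  congr 2
  ext d
  simp [bd, lets]

theorem lets_compl (S : Sf) (X : Finset S.Wd) : S.lets Xᶜ = (S.lets X)ᶜ := by
  ext d; simp [lets]

theorem dual_vol_univ (S : Sf) : S.dual.vol Finset.univ = (S.card : ℝ) := by
  rw [S.dual_vol]
  unfold Sf.card
  congr 1
  rw [← Nat.card_eq_fintype_card, ← Set.ncard_univ]
  congr 1
  ext d; simp [lets]

/-- conductance of the state gives conductance of the dual graph -/
theorem dual_cond (S : Sf) (ψ : ℝ) (hψ : 0 ≤ ψ) (h : S.Cond ψ) : S.dual.Cond ψ := by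
  intro X hX
  have h1 := h (S.lets X) (S.lets_inv X)
  rw [S.dual_cut, S.dual_vol]
  refine le_trans ?_ h1
  apply mul_le_mul_of_nonneg_left _ hψ
  apply le_min le_rfl
  have h2 := WG.vol_add_compl S.dual X
  rw [S.dual_vol, S.dual_vol, S.lets_compl] at h2
  rw [S.dual_vol] at hX
  linarith

/-- every union of words comes from a set of words -/
theorem exists_lets (S : Sf) (A : Set S.D) (hA : S.Inv A) : ∃ X : Finset S.Wd, S.lets X = A := by
  classical
  refine ⟨Finset.univ.filter (fun P => ∃ d ∈ A, S.wd d = P), ?_⟩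
  ext d
  simp only [lets, Set.mem_ofPred_eq, Finset.mem_filter, Finset.mem_univ, true_and]
  constructor
  · rintro ⟨e, he, h⟩
    rw [S.wd_eq] at h
    obtain ⟨k, hk⟩ := h
    rw [← hk]
    have hpow : ∀ n : ℕ, ∀ x, ((S.r ^ n) x ∈ A ↔ x ∈ A) := by
      intro n
      induction n with
      | zero => intro x; simp
      | succ n ih =>
        intro x
        rw [pow_succ', Perm.mul_apply, hA, ih]
    cases k with
    | ofNat n => simpa using (hpow n e).mpr he
    | negSucc n =>
      have h2 := hpow (n + 1) ((S.r ^ (Int.negSucc n)) e)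
      rw [← Perm.mul_apply, ← zpow_natCast, ← zpow_add] at h2
      have h3 : ((n + 1 : ℕ) : ℤ) + Int.negSucc n = 0 := by omega
      rw [h3, zpow_zero, Perm.one_apply] at h2
      exact h2.mp he
  · intro hd
    exact ⟨d, hd, rfl⟩

/-- conductance of the dual graph gives conductance of the state -/
theorem cond_of_dual (S : Sf) (ψ : ℝ) (h : S.dual.Cond ψ) : S.Cond ψ := by
  intro A hA
  obtain ⟨X, rfl⟩ := S.exists_lets A hA
  have hc : S.dual.vol X + S.dual.vol Xᶜ = S.dual.vol Finset.univ := WG.vol_add_compl S.dual X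
  rcases le_total (S.dual.vol X) (S.dual.vol Xᶜ) with hle | hle
  · have h1 := h X (by linarith)
    rw [← S.lets_compl, ← S.dual_vol, ← S.dual_vol, ← S.dual_cut, min_eq_left hle]
    exact h1
  · have h1 := h Xᶜ (by linarith)
    rw [WG.cut_compl] at h1
    rw [← S.lets_compl, ← S.dual_vol, ← S.dual_vol, ← S.dual_cut, min_eq_right hle]
    exact h1

end Sf

end Pool.Agent.GW
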