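import Pool.Agent.GW.BadPairs

/-!
# GW.Dyadic: the sum of the costs of the cheapest rungs

PROOF.  `l = 10^3 (u/ψ) log N`, `ν = nuP univ`.  For `τ > 0` apply `bad_pairs` to `y' x = ⌊(l/τ) y x⌋₊`: `∑ p y' ≤ l/τ`.  A rung `γ` with
`∑_{γ} (p + y') ≤ l` has `∑_γ y ≤ ∑_γ (y' + 1) τ/l ≤ τ` (as `1 ≤ p`).  So for `τ ≥ τ0 = 100 l/(u ν)` at most `4 l/(κ b u τ)` indices have
cost `c i > τ`, where `c i` = infimum of the costs; every index has a rung (`y = 0`) and its cost is at most `∑ y ≤ 1`.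
`∑ c i ≤ |ι| τ0 + ∑_{j<J} 2^(j+1) τ0 #{c i > 2^j τ0} ≤ |ι| τ0 + 8 J l/(κ b u)`, `J = ⌈log2 (1/τ0)⌉₊ ≤ 6 log N`, `|ι| ≤ ν/(κ b)`
(walls `∑ (p - om) ≤ ν/κ`, blocks disjoint of size `≥ b`).  Total at most `10^6 (log N)^2/(κ ψ b)`.
-/

set_option autoImplicit false

namespace Pool.Agent.GW

open Finset

namespace WG

variable {V : Type} [Fintype V] [DecidableEq V] (G : WG V)

/-- dyadic decomposition of one number -/
private theorem Dyadic_min {τ0 : ℝ} (h0 : 0 < τ0) (c : ℝ) (J : ℕ) :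
    min c (2 ^ J * τ0) ≤ τ0 + ∑ j ∈ range J, 2 ^ (j + 1) * τ0 * (if 2 ^ j * τ0 < c then 1 else 0) := by
  induction J with
  | zero =>
    rw [pow_zero, one_mul, Finset.sum_range_zero, add_zero]
    exact min_le_right _ _
  | succ J ih =>
    rw [Finset.sum_range_succ]
    have hs : 0 ≤ ∑ j ∈ range J, 2 ^ (j + 1) * τ0 * (if 2 ^ j * τ0 < c then (1 : ℝ) else 0) := by
      refine Finset.sum_nonneg (fun j _ => ?_)
      have h1 : (0 : ℝ) < 2 ^ (j + 1) * τ0 := by positivity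
      split_ifs
      · linarith
      · linarith
    by_cases h : 2 ^ J * τ0 < c
    · rw [if_pos h, mul_one]
      have h1 : min c (2 ^ (J + 1) * τ0) ≤ 2 ^ (J + 1) * τ0 := min_le_right _ _
      linarith
    · rw [if_neg h, mul_zero]
      have h2 : c ≤ 2 ^ J * τ0 := not_lt.mp h
      rw [min_eq_left h2] at ih
      have h1 : min c (2 ^ (J + 1) * τ0) ≤ c := min_le_left _ _
      linarith

theorem dyadic [Nonempty V] {ι : Type} [Fintype ι] {p : V → ℕ} {blk : Bool → ι → V → ℝ} {ψ u κ b N : ℝ}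
    (hP : G.Pc p ψ u κ) (hB : G.Blocks p blk b) (hN : G.nuP p u κ univ ≤ N) (hN2 : 2 ≤ N) (hb : 1 ≤ κ * ψ * b)
    (y : V → ℝ) (hy : ∀ x, 0 ≤ y x) (hy1 : ∑ x, (p x : ℝ) * y x ≤ 1) :
    ∃ γ : ι → List V, (∀ i, G.IsRung p blk (10 ^ 3 * (u / ψ) * Real.log N) i (γ i)) ∧
      ∑ i, ((γ i).map y).sum ≤ 10 ^ 6 * Real.log N ^ 2 / (κ * ψ * b) := by
  classical
  have hbp := G.bad_pairs hP hB hN hN2 hb
  set l := 10 ^ 3 * (u / ψ) * Real.log N with hl
  set ν := G.nuP p u κ univ with hν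
  have hψ := hP.h0
  have hψ1 := hP.h1
  have hu : 0 < u := by linarith [hP.hu]
  have hκ := hP.hκ
  have hkp : 0 < κ * ψ := mul_pos hκ hψ
  have hb0 : 0 < b := by
    by_contra h
    push Not at h
    have : κ * ψ * b ≤ 0 := mul_nonpos_of_nonneg_of_nonpos hkp.le h
    linarith
  have hlog2 : (0.69 : ℝ) < Real.log 2 := by
    have := Real.log_two_gt_d9
    linarith
  have hlogN : Real.log 2 ≤ Real.log N := Real.log_le_log (by norm_num) hN2
  have hL0 : 0 < Real.log N := by linarith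
  have hl0 : 0 < l := by rw [hl]; positivity
  have hN0 : 0 < N := by linarith
  -- each term of the measure
  have hterm : ∀ x, (p x : ℝ) ≤ (p x : ℝ) + (p x : ℝ) ^ 2 / u + κ * (p x - G.om x) ∧
      κ * ((p x : ℝ) - G.om x) ≤ (p x : ℝ) + (p x : ℝ) ^ 2 / u + κ * (p x - G.om x) := by
    intro x
    have h1 : 0 ≤ (p x : ℝ) - G.om x := by linarith [hP.hp x]
    have h2 : 0 ≤ (p x : ℝ) ^ 2 / u := by positivity
    have h3 : 0 ≤ κ * ((p x : ℝ) - G.om x) := mul_nonneg hκ.le h1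
    have h4 : (0 : ℝ) ≤ p x := Nat.cast_nonneg _
    constructor <;> linarith
  have hν1 : 1 ≤ ν := by
    obtain ⟨x0⟩ := ‹Nonempty V›
    have h1 : (1 : ℝ) ≤ p x0 := by exact_mod_cast hP.hp1 x0
    have h2 := Finset.single_le_sum (f := fun x => (p x : ℝ) + (p x : ℝ) ^ 2 / u + κ * (p x - G.om x))
      (fun x _ => (Nat.cast_nonneg (α := ℝ) (p x)).trans (hterm x).1) (Finset.mem_univ x0)
    have h3 := (hterm x0).1
    have h4 : ν = ∑ x, ((p x : ℝ) + (p x : ℝ) ^ 2 / u + κ * (p x - G.om x)) := rfl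
    linarith
  have hν0 : 0 < ν := by linarith
  -- number of indices
  have hwall : κ * ∑ x, ((p x : ℝ) - G.om x) ≤ ν := by
    rw [Finset.mul_sum]
    exact Finset.sum_le_sum (fun x _ => (hterm x).2)
  have hcardι : 2 * (Fintype.card ι : ℝ) * b ≤ ∑ x, ((p x : ℝ) - G.om x) := by
    have h1 : ∑ x, ∑ β, ∑ i, blk β i x ≤ ∑ x, ((p x : ℝ) - G.om x) := Finset.sum_le_sum (fun x _ => hB.disj x)
    have h2 : ∑ x, ∑ β, ∑ i, blk β i x = ∑ β, ∑ i, ∑ x, blk β i x := by
      rw [Finset.sum_comm]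
      exact Finset.sum_congr rfl (fun β _ => Finset.sum_comm)
    have h3 : ∑ _β : Bool, ∑ _i : ι, b ≤ ∑ β, ∑ i, ∑ x, blk β i x :=
      Finset.sum_le_sum (fun β _ => Finset.sum_le_sum (fun i _ => hB.size β i))
    have h4 : ∑ _β : Bool, ∑ _i : ι, b = 2 * (Fintype.card ι : ℝ) * b := by
      rw [Fintype.sum_bool, Finset.sum_const, nsmul_eq_mul, Finset.card_univ]; ring
    linarith
  -- every index has a rung
  have hall : ∀ i, ∃ γ : List V, G.IsRung p blk l i γ := by
    intro i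
    by_contra hcon
    have h1 := hbp (fun _ => 0) (by
      simp only [Nat.cast_zero, mul_zero, Finset.sum_const_zero]
      positivity)
    simp only [Nat.cast_zero, mul_zero, Finset.sum_const_zero] at h1
    have h2 : 0 < κ * b * u := by positivity
    have h3 : i ∈ univ.filter fun i => ¬ ∃ γ : List V, G.IsRung p blk l i γ ∧
        ((γ.map fun x => p x + 0).sum : ℝ) ≤ l := by
      rw [Finset.mem_filter]
      refine ⟨Finset.mem_univ _, ?_⟩
      rintro ⟨γ, hγ, _⟩
      exact hcon ⟨γ, hγ⟩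
    have h4 : 0 < (univ.filter fun i => ¬ ∃ γ : List V, G.IsRung p blk l i γ ∧
        ((γ.map fun x => p x + 0).sum : ℝ) ≤ l).card := Finset.card_pos.mpr ⟨i, h3⟩
    have h5 : (1 : ℝ) ≤ ((univ.filter fun i => ¬ ∃ γ : List V, G.IsRung p blk l i γ ∧
        ((γ.map fun x => p x + 0).sum : ℝ) ≤ l).card : ℝ) := by exact_mod_cast h4
    have h6 := mul_le_mul_of_nonneg_right h5 h2.le
    rw [one_mul] at h6
    have h7 := h6.trans (le_trans (le_of_eq (by congr!)) h1)
    linarith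
  have hmin : ∀ i, ∃ γ : List V, G.IsRung p blk l i γ ∧
      ∀ γ' : List V, G.IsRung p blk l i γ' → (γ.map y).sum ≤ (γ'.map y).sum := by
    intro i
    have hfin : {γ : List V | G.IsRung p blk l i γ}.Finite :=
      (Set.finite_coe_iff.mp (inferInstanceAs (Finite {γ : List V // γ.Nodup}))).subset (fun γ hγ => hγ.nodup)
    obtain ⟨γ, hγ, h⟩ := Set.exists_min_image {γ : List V | G.IsRung p blk l i γ} (fun γ => (γ.map y).sum) hfin
      (hall i)
    exact ⟨γ, hγ, fun γ' hγ' => h γ' hγ'⟩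
  choose γ hγ hγm using hmin
  refine ⟨γ, hγ, ?_⟩
  set c : ι → ℝ := fun i => ((γ i).map y).sum with hc
  -- costs are at most one
  have hc1 : ∀ i, c i ≤ 1 := by
    intro i
    have h1 : c i = ∑ x ∈ (γ i).toFinset, y x := (List.sum_toFinset y (hγ i).nodup).symm
    have h2 : ∑ x ∈ (γ i).toFinset, y x ≤ ∑ x, y x :=
      Finset.sum_le_sum_of_subset_of_nonneg (Finset.subset_univ _) (fun x _ _ => hy x)
    have h3 : ∑ x, y x ≤ ∑ x, (p x : ℝ) * y x := by
      refine Finset.sum_le_sum (fun x _ => ?_)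
      have h4 : (1 : ℝ) ≤ p x := by exact_mod_cast hP.hp1 x
      have := mul_le_mul_of_nonneg_right h4 (hy x)
      linarith
    linarith
  set τ0 := 100 * l / (u * ν) with hτ0
  have hτ00 : 0 < τ0 := by rw [hτ0]; positivity
  -- few expensive indices
  have hcount : ∀ τ, τ0 ≤ τ → ((univ.filter fun i => τ < c i).card : ℝ) * (κ * b * u) ≤ 4 * (l / τ) := by
    intro τ hτ
    have hτp : 0 < τ := lt_of_lt_of_le hτ00 hτ
    set y' : V → ℕ := fun x => ⌊l / τ * y x⌋₊ with hy'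
    have hlt : 0 < l / τ := div_pos hl0 hτp
    have h1 : ∑ x, (p x : ℝ) * y' x ≤ l / τ := by
      have h2 : ∑ x, (p x : ℝ) * y' x ≤ ∑ x, l / τ * ((p x : ℝ) * y x) := by
        refine Finset.sum_le_sum (fun x _ => ?_)
        have h3 : ((y' x : ℕ) : ℝ) ≤ l / τ * y x := Nat.floor_le (mul_nonneg hlt.le (hy x))
        have := mul_le_mul_of_nonneg_left h3 (Nat.cast_nonneg (α := ℝ) (p x))
        linarith
      rw [← Finset.mul_sum] at h2
      have h4 := mul_le_mul_of_nonneg_left hy1 hlt.le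
      linarith
    have h5 : l / τ ≤ u * ν / 100 := by
      rw [div_le_iff₀ hτp]
      have h6 : τ0 * (u * ν) = 100 * l := by
        rw [hτ0]; field_simp
      have h7 := mul_le_mul_of_nonneg_right hτ (mul_pos hu hν0).le
      linarith
    have h8 := hbp y' (h1.trans h5)
    refine le_trans ?_ (h8.trans (by linarith))
    refine mul_le_mul_of_nonneg_right ?_ (by positivity)
    refine Nat.cast_le.mpr (Finset.card_le_card ?_)
    intro i hi
    rw [Finset.mem_filter] at hi ⊢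
    refine ⟨hi.1, ?_⟩
    rintro ⟨γ', hγ', hs⟩
    have h9 : c i ≤ (γ'.map y).sum := hγm i γ' hγ'
    have h10 : (γ'.map y).sum ≤ (γ'.map fun x => τ / l * (((p x + y' x : ℕ)) : ℝ)).sum := by
      refine List.sum_le_sum (fun x _ => ?_)
      have h11 : l / τ * y x < (y' x : ℝ) + 1 := Nat.lt_floor_add_one _
      have h12 : (1 : ℝ) ≤ p x := by exact_mod_cast hP.hp1 x
      have h13 : l / τ * y x ≤ (((p x + y' x : ℕ)) : ℝ) := by push_cast; linarith
      have h14 : 0 ≤ τ / l := (div_pos hτp hl0).le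
      have h15 := mul_le_mul_of_nonneg_left h13 h14
      have h16 : τ / l * (l / τ * y x) = y x := by field_simp
      linarith
    have h17 : (γ'.map fun x => τ / l * (((p x + y' x : ℕ)) : ℝ)).sum =
        τ / l * (((γ'.map fun x => p x + y' x).sum : ℕ) : ℝ) := by
      rw [List.sum_map_mul_left]
      congr 1
      rw [Nat.cast_list_sum, List.map_map]
      rfl
    have h18 : τ / l * (((γ'.map fun x => p x + y' x).sum : ℕ) : ℝ) ≤ τ / l * l := by
      refine mul_le_mul_of_nonneg_left ?_ (div_pos hτp hl0).le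
      exact hs
    have h19 : τ / l * l = τ := by field_simp
    have h20 : c i ≤ τ := by linarith
    exact absurd hi.2 (not_lt.mpr h20)
  -- dyadic sum
  set J := ⌈Real.log N / Real.log 2⌉₊ with hJ
  have hJ1 : (J : ℝ) ≤ Real.log N / Real.log 2 + 1 := (Nat.ceil_lt_add_one (by positivity)).le
  have hJ2 : N ≤ 2 ^ J := by
    have h1 : Real.log N / Real.log 2 ≤ J := Nat.le_ceil _
    have h2 : Real.log N ≤ J * Real.log 2 := by
      rwa [div_le_iff₀ (by linarith)] at h1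
    have h3 : Real.log (2 ^ J) = J * Real.log 2 := Real.log_pow _ _
    rw [← h3] at h2
    exact (Real.log_le_log_iff hN0 (by positivity)).mp h2
  have hτN : 1 ≤ N * τ0 := by
    have h1 : N * τ0 = 10 ^ 5 * Real.log N * (N / (ψ * ν)) := by
      rw [hτ0, hl]; field_simp; ring
    have h2 : 1 ≤ N / (ψ * ν) := by
      rw [le_div_iff₀ (mul_pos hψ hν0)]
      nlinarith
    rw [h1]
    nlinarith
  have hbig : ∀ i, c i ≤ 2 ^ J * τ0 := by
    intro i
    have h1 : N * τ0 ≤ 2 ^ J * τ0 := mul_le_mul_of_nonneg_right hJ2 hτ00.le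
    linarith [hc1 i]
  have hsum : ∑ i, c i ≤ (Fintype.card ι : ℝ) * τ0 + J * (8 * l / (κ * b * u)) := by
    have h1 : ∀ i, c i ≤ τ0 + ∑ j ∈ range J, 2 ^ (j + 1) * τ0 * (if 2 ^ j * τ0 < c i then 1 else 0) := by
      intro i
      have := Dyadic_min hτ00 (c i) J
      rwa [min_eq_left (hbig i)] at this
    refine (Finset.sum_le_sum (fun i _ => h1 i)).trans ?_
    rw [Finset.sum_add_distrib, Finset.sum_const, nsmul_eq_mul, Finset.card_univ]
    refine add_le_add le_rfl ?_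
    rw [Finset.sum_comm]
    have h2 : ∀ j ∈ range J, ∑ i, 2 ^ (j + 1) * τ0 * (if 2 ^ j * τ0 < c i then (1 : ℝ) else 0) ≤
        8 * l / (κ * b * u) := by
      intro j _
      rw [← Finset.mul_sum, Finset.sum_boole]
      have hpj : (1 : ℝ) ≤ 2 ^ j := one_le_pow₀ (by norm_num)
      have h3 := hcount (2 ^ j * τ0) (by nlinarith)
      have h4 : 0 < κ * b * u := by positivity
      rw [le_div_iff₀ h4]
      have h5 : 4 * (l / (2 ^ j * τ0)) * (2 ^ (j + 1) * τ0) = 8 * l := by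
        rw [pow_succ]; field_simp; ring
      have h6 : (0 : ℝ) ≤ 2 ^ (j + 1) * τ0 := by positivity
      have h7 := mul_le_mul_of_nonneg_right h3 h6
      rw [h5] at h7
      linarith
    refine (Finset.sum_le_sum h2).trans (le_of_eq ?_)
    rw [Finset.sum_const, Finset.card_range, nsmul_eq_mul]
  refine hsum.trans ?_
  -- numbers
  set T := 1 / (κ * ψ * b) with hT
  have hT0 : 0 < T := by rw [hT]; positivity
  have e1 : 8 * l / (κ * b * u) = 8 * 10 ^ 3 * Real.log N * T := by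
    rw [hl, hT]; field_simp
  have e2 : (Fintype.card ι : ℝ) * τ0 ≤ 50 * 10 ^ 3 * Real.log N * T := by
    have h1 : κ * (2 * (Fintype.card ι : ℝ) * b) ≤ ν := (mul_le_mul_of_nonneg_left hcardι hκ.le).trans hwall
    have h2 : 50 * 10 ^ 3 * Real.log N * T = ν / (2 * κ * b) * τ0 := by
      rw [hτ0, hl, hT]; field_simp; ring
    rw [h2]
    refine mul_le_mul_of_nonneg_right ?_ hτ00.le
    rw [le_div_iff₀ (by positivity)]
    linarith
  have e3 : 10 ^ 6 * Real.log N ^ 2 / (κ * ψ * b) = 10 ^ 6 * Real.log N ^ 2 * T := by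
    rw [hT]; ring
  rw [e1, e3]
  have e4 : Real.log N / Real.log 2 ≤ 1.45 * Real.log N := by
    rw [div_le_iff₀ (by linarith)]
    nlinarith
  have e5 : (J : ℝ) ≤ 1.45 * Real.log N + 1 := by linarith
  have e6 : (1 : ℝ) ≤ 1.45 * Real.log N := by linarith
  have e7 : (J : ℝ) ≤ 2.9 * Real.log N := by linarith
  have e8 : (J : ℝ) * (8 * 10 ^ 3 * Real.log N * T) ≤ 2.9 * Real.log N * (8 * 10 ^ 3 * Real.log N * T) :=
    mul_le_mul_of_nonneg_right e7 (by positivity)
  have e9 : 50 * 10 ^ 3 * Real.log N * T ≤ 50 * 10 ^ 3 * Real.log N * T * (1.45 * Real.log N) := by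
    have : 0 ≤ 50 * 10 ^ 3 * Real.log N * T := by positivity
    nlinarith
  have e10 : 0 ≤ Real.log N ^ 2 * T := by positivity
  nlinarith [e2, e8, e9, e10]

end WG

end Pool.Agent.GW
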