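import Pool.Agent.GW.StageStart

/-!
# The dynamic part: from a net to a sweep

PROOF of `dyn`. Induction on `R`. `sched` (with the numbers of `NumD`, which cover all `R ≤ r`), then `absorb` (at most three times) to
reach depth 0; fat words have at most `4^b Th ≤ m` letters (`cT`). If `R = 2` at most `2 B^2 4^b Th0 ≤ L` live letters are left (`c0` and
ports): `glue_all_U`. If `R = R' + 1`, `R' ≥ 2`: `stageStart` and the induction hypothesis.
-/

set_option autoImplicit false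

namespace Pool.Agent.GW

open Equiv Pool.Agent.SWP

/-- numerical conditions for a network with `r` digits; `W0` bounds the number of outer letters at the start of a stage,
`β1` the number of absent labels per line at the start. -/
structure NumD (r B b β1 K M Th0 Th m W0 W Q T L : ℕ) (B0 : ℝ) : Prop where
  r2 : 2 ≤ r
  M2 : 3 ≤ M
  hM : M * 4 ^ (b + 1) ≤ K
  hK : 4 ^ (b + 1) * (r * (β1 + r * b + b + 512 * (2 * r + 5)) + 6) ≤ K
  hB : 64 * (r + 3) ^ 2 * (β1 + r * b + b + 512 * (2 * r + 5) + K + 10) ≤ B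
  hB0 : 1 ≤ B0
  hb : 512 ≤ b
  hBb : 12 * (B : ℝ) ^ r < B0 ^ (b - 511)
  hm : 512 * (2 * 4 ^ b * Th + (2 * r + 3) * 4 ^ b * Th0) + 1 ≤ m
  hW0 : B ^ r * 4 ^ b * Th0 ≤ W0
  hW : W0 + T * (1024 * (2 * 4 ^ b * Th + (2 * r + 3) * 4 ^ b * Th0)) ≤ W
  hQ : W < 8 * m * Q
  hT : (Q : ℝ) ^ 2 * (2 * Real.log W + 3) ≤ T
  hδ : (T : ℝ) * (4096 * 4 ^ b * Th * (1 + 40 * (r : ℝ) ^ 2 * B / M) * B0 ^ (512 * (2 * r + 5) + 1) * r * B) ≤ Q * m
  hTh : (r * B + 1) ^ 3 * 4 ^ b * Th0 ≤ Th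
  hL : 220 * m ≤ L
  hL2 : 2 * B ^ 2 * 4 ^ b * Th0 ≤ L

private theorem dy_len {R B : ℕ} (P : Par R B) (N : NetS R B) (hN : Ok P N) (b : ℕ) (hb : ∀ g, N.t g ≤ b)
    {d : N.S.D} (hd : d ∈ N.F) : N.S.len d ≤ 4 ^ b * P.Th := by
  have h1 : N.S.len d ≤ N.S.num {e | e ∈ N.F ∧ N.hub e = N.hub d} := by
    refine len_le_num N.S ?_ (show d ∈ {e | e ∈ N.F ∧ N.hub e = N.hub d} from ⟨hd, rfl⟩)
    intro e he
    refine ⟨(hN.fat.inv e).mpr he.1, ?_⟩
    rw [hN.hubr e he.1]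
    exact he.2
  have h2 := num_le_ncard N.S {e | e ∈ N.F ∧ N.hub e = N.hub d}
  have h3 := hN.cT (N.hub d)
  have h4 : 4 ^ N.t (N.hub d) * P.Th ≤ 4 ^ b * P.Th :=
    Nat.mul_le_mul_right _ (Nat.pow_le_pow_right (by norm_num) (hb _))
  omega

private theorem dy_abs {R B : ℕ} (m L : ℕ) (hL : 24 * m ≤ L) : ∀ (k : ℕ) (P : Par R B) (N : NetS R B), Ok P N →
    P.dep = k → prs N.S N.F = ∅ → (∀ d, d ∉ N.F → N.S.len d ≤ 8 * m) → (∀ d ∈ N.F, N.S.len d ≤ 8 * m) →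
    ∃ N' : NetS R B, Ok ⟨P.pres, P.K, P.Th0, P.Th, 0⟩ N' ∧ (U L N'.S → U L N.S) ∧
      (∀ d, d ∉ N'.F → N'.S.len d ≤ 8 * m) ∧ N'.t = N.t := by
  intro k
  induction k with
  | zero =>
    intro P N hN hk _ hl _
    refine ⟨N, ?_, fun h => h, hl, rfl⟩
    have : (⟨P.pres, P.K, P.Th0, P.Th, 0⟩ : Par R B) = P := by
      rw [← hk]
    rw [this]
    exact hN
  | succ k ih =>
    intro P N hN hk hp hl hF
    obtain ⟨N1, h1, h2, h3, h4, h5, h6⟩ := absorb P N hN k hk hp m hl hF L hL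
    obtain ⟨N2, g1, g2, g3, g4⟩ := ih ⟨P.pres, P.K, P.Th0, P.Th, k⟩ N1 h1 rfl h3 h4 h5
    exact ⟨N2, g1, fun h => h2 (g2 h), g3, g4.trans h6⟩

private theorem dy_fat {R B : ℕ} (P : Par R B) (N : NetS R B) (hN : Ok P N) (hdep : P.dep = 0) (b : ℕ)
    (hb : ∀ g, N.t g ≤ b) : N.F.ncard ≤ B ^ R * (4 ^ b * P.Th0) := by
  classical
  have h1 : N.F.toFinset.card = ∑ g : Lab R B, (N.F.toFinset.filter (fun d => N.hub d = g)).card :=
    Finset.card_eq_sum_card_fiberwise (fun d _ => Finset.mem_univ _)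
  have h2 : ∀ g ∈ (Finset.univ : Finset (Lab R B)),
      (N.F.toFinset.filter (fun d => N.hub d = g)).card ≤ 4 ^ b * P.Th0 := by
    intro g _
    have h3 := hN.c0 g
    have h4 : {d | d ∈ N.F ∧ N.hub d = g ∧ N.lev d = 0} =
        ((N.F.toFinset.filter (fun d => N.hub d = g) : Finset N.S.D) : Set N.S.D) := by
      ext d
      simp only [Set.mem_ofPred_eq, Finset.coe_filter, Set.mem_toFinset]
      constructor
      · rintro ⟨h5, h6, _⟩
        exact ⟨h5, h6⟩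
      · rintro ⟨h5, h6⟩
        have h7 := hN.levd d h5
        exact ⟨h5, h6, by omega⟩
    rw [h4, Set.ncard_coe_finset] at h3
    have h4 : 4 ^ N.t g * P.Th0 ≤ 4 ^ b * P.Th0 :=
      Nat.mul_le_mul_right _ (Nat.pow_le_pow_right (by norm_num) (hb _))
    omega
  rw [Set.ncard_eq_toFinset_card', h1]
  have h3 := Finset.sum_le_card_nsmul _ _ _ h2
  have h4 : (Finset.univ : Finset (Lab R B)).card = B ^ R := by
    rw [Finset.card_univ]; simp
  rw [h4, smul_eq_mul] at h3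
  exact h3

private theorem dy_num {R B : ℕ} (P : Par R B) (N : NetS R B) (hN : Ok P N) : N.S.num Set.univ ≤ 2 * N.F.ncard := by
  have h1 : (Set.univ : Set N.S.D) ∩ N.S.live ⊆ N.F ∪ N.S.a ⁻¹' N.F := by
    rintro d ⟨_, hd⟩
    by_cases h : d ∈ N.F
    · exact Or.inl h
    · exact Or.inr (hN.fat.out d h hd)
  have h2 : (N.S.a ⁻¹' N.F).ncard ≤ N.F.ncard := by
    refine Set.ncard_le_ncard_of_injOn N.S.a (fun d hd => hd) (fun x _ y _ h => N.S.a.injective h) (Set.toFinite _)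
  have h3 : N.S.num Set.univ ≤ (N.F ∪ N.S.a ⁻¹' N.F).ncard := Set.ncard_le_ncard h1 (Set.toFinite _)
  have h4 := Set.ncard_union_le N.F (N.S.a ⁻¹' N.F)
  omega

private theorem dy_mul5 {c t t' a a' x x' p p' q : ℝ} (hc : 0 ≤ c) (ht : 0 ≤ t) (htt : t ≤ t') (ha : 0 ≤ a)
    (haa : a ≤ a') (hx : 0 ≤ x) (hxx : x ≤ x') (hp : 0 ≤ p) (hpp : p ≤ p') (hq : 0 ≤ q) :
    c * t * a * x * p * q ≤ c * t' * a' * x' * p' * q := by
  have h1 : c * t ≤ c * t' := mul_le_mul_of_nonneg_left htt hc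
  have h2 : 0 ≤ c * t := mul_nonneg hc ht
  have h3 : c * t * a ≤ c * t' * a' := mul_le_mul h1 haa ha (h2.trans h1)
  have h4 : 0 ≤ c * t * a := mul_nonneg h2 ha
  have h5 : c * t * a * x ≤ c * t' * a' * x' := mul_le_mul h3 hxx hx (h4.trans h3)
  have h6 : 0 ≤ c * t * a * x := mul_nonneg h4 hx
  have h7 : c * t * a * x * p ≤ c * t' * a' * x' * p' := mul_le_mul h5 hpp hp (h6.trans h5)
  exact mul_le_mul_of_nonneg_right h7 hq

/-- one stage -/
private theorem dy_stage {r B b β1 K M Th0 Th m W0 W Q T L : ℕ} {B0 : ℝ}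
    (hn : NumD r B b β1 K M Th0 Th m W0 W Q T L B0) (R : ℕ) (hR : 2 ≤ R) (hRr : R ≤ r) (P : Par R B) (N : NetS R B)
    (hN : Ok P N) (hPK : P.K = K) (hP0 : P.Th0 = Th0) (hPT : P.Th ≤ Th) (ht : ∀ g, N.t g = 0)
    (hβ : ∀ (g : Lab R B) (i : Fin R), {v : Fin B | Function.update g i v ∉ P.pres}.ncard ≤ β1 + (r - R) * b)
    (hl : ∀ d, d ∉ N.F → N.S.len d ≤ 8 * m) (hW0 : N.S.num N.Fᶜ ≤ W0) :
    ∃ N' : NetS R B, Ok ⟨P.pres, K, Th0, P.Th, 0⟩ N' ∧ (U L N'.S → U L N.S) ∧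
      (∀ d, N'.S.len d ≤ 8 * m) ∧ (∀ g, N'.t g ≤ b) ∧
      FewBad ⟨P.pres, K, Th0, P.Th, 0⟩ N' (β1 + (r - R) * b + b) := by
  have hβ0 : β1 + (r - R) * b ≤ β1 + r * b :=
    Nat.add_le_add_left (Nat.mul_le_mul_right _ (Nat.sub_le _ _)) _
  have hB1 : 1 ≤ B := by
    have h1 := hn.hB
    have h2 : 0 < 64 * (r + 3) ^ 2 * (β1 + r * b + b + 512 * (2 * r + 5) + K + 10) := by positivity
    omega
  have hkap : kap P b ≤ 2 * 4 ^ b * Th + (2 * r + 3) * 4 ^ b * Th0 := by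
    unfold kap
    rw [hP0]
    gcongr
  have hK' : 4 ^ (b + 1) * (R * (β1 + (r - R) * b + b + 512 * (2 * R + 5)) + 6) ≤ P.K := by
    rw [hPK]
    refine le_trans ?_ hn.hK
    gcongr
  have hB' : 64 * (R + 3) ^ 2 * (β1 + (r - R) * b + b + 512 * (2 * R + 5) + P.K + 10) ≤ B := by
    rw [hPK]
    refine le_trans ?_ hn.hB
    gcongr
  have hBR : (1 : ℝ) ≤ B := by exact_mod_cast hB1
  have hBb' : 12 * (B : ℝ) ^ R < B0 ^ (b - 511) := by
    refine lt_of_le_of_lt ?_ hn.hBb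
    have : (B : ℝ) ^ R ≤ (B : ℝ) ^ r := pow_le_pow_right₀ hBR hRr
    linarith
  have hm1 : 512 * kap P b + 1 ≤ m := by
    have := hn.hm
    omega
  have hΘ : 2 * 4 ^ b * P.Th + 1 ≤ m := by
    have h1 : 2 * 4 ^ b * P.Th ≤ kap P b := by unfold kap; omega
    omega
  have hW' : N.S.num N.Fᶜ + T * (1024 * kap P b) ≤ W := by
    have h1 := hn.hW
    have h2 : T * (1024 * kap P b) ≤ T * (1024 * (2 * 4 ^ b * Th + (2 * r + 3) * 4 ^ b * Th0)) :=
      Nat.mul_le_mul_left _ (Nat.mul_le_mul_left _ hkap)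
    omega
  have hQm : (0 : ℝ) < Q * m := by
    have h1 := hn.hQ
    have hm0 : 0 < m := by omega
    have hQ0 : 0 < Q := by
      rcases Nat.eq_zero_or_pos Q with h | h
      · rw [h] at h1; omega
      · exact h
    have h2 : 0 < Q * m := Nat.mul_pos hQ0 hm0
    exact_mod_cast h2
  have hB00 : 0 ≤ B0 := le_trans zero_le_one hn.hB0
  have hδ' : (T : ℝ) * del P b M m Q B0 ≤ 1 := by
    unfold del
    rw [← mul_div_assoc, div_le_one hQm]
    refine le_trans ?_ hn.hδ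
    have e1 : B0 ^ (512 * (2 * R + 5) + 1) ≤ B0 ^ (512 * (2 * r + 5) + 1) :=
      pow_le_pow_right₀ hn.hB0 (by omega)
    have e2 : (P.Th : ℝ) ≤ Th := by exact_mod_cast hPT
    have e3 : (R : ℝ) ≤ r := by exact_mod_cast hRr
    have e4 : 0 ≤ B0 ^ (512 * (2 * R + 5) + 1) := pow_nonneg hB00 _
    have e5 : (0 : ℝ) ≤ 4096 * 4 ^ b := mul_nonneg (by norm_num) (pow_nonneg (by norm_num) b)
    have e6 : 1 + 40 * (R : ℝ) ^ 2 * B / M ≤ 1 + 40 * (r : ℝ) ^ 2 * B / M := by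
      have h1 : (R : ℝ) ^ 2 ≤ (r : ℝ) ^ 2 := pow_le_pow_left₀ (Nat.cast_nonneg _) e3 2
      have h2 : 40 * (R : ℝ) ^ 2 * B ≤ 40 * (r : ℝ) ^ 2 * B :=
        mul_le_mul_of_nonneg_right (by linarith) (Nat.cast_nonneg _)
      have h3 := div_le_div_of_nonneg_right h2 (Nat.cast_nonneg M)
      linarith
    have e8 : (0 : ℝ) ≤ P.Th := Nat.cast_nonneg _
    have e9 : (0 : ℝ) ≤ R := Nat.cast_nonneg _
    have e10 : (0 : ℝ) ≤ B := Nat.cast_nonneg _
    have e7 : 0 ≤ 1 + 40 * (R : ℝ) ^ 2 * B / M :=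
      add_nonneg zero_le_one (div_nonneg (mul_nonneg (mul_nonneg (by norm_num) (sq_nonneg _)) e10)
        (Nat.cast_nonneg _))
    refine mul_le_mul_of_nonneg_left ?_ (Nat.cast_nonneg T)
    exact dy_mul5 e5 e8 e2 e7 e6 e4 e1 e9 e3 e10
  have hL220 := hn.hL
  obtain ⟨N1, h1, h2, h3, h4, h5, h6⟩ := sched hR P N hN b (β1 + (r - R) * b) M ht hβ hn.M2 (by rw [hPK]; exact hn.hM)
    hK' hB' B0 hn.hB0 hn.hb hBb' m W Q T hm1 hΘ hl hW' hn.hQ hn.hT hδ' L hL220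
  have hF1 : ∀ d ∈ N1.F, N1.S.len d ≤ 8 * m := by
    intro d hd
    have h7 := dy_len P N1 h1 b h5 hd
    have h8 : 2 * 4 ^ b * P.Th = 2 * (4 ^ b * P.Th) := by ring
    omega
  obtain ⟨N2, g1, g2, g3, g4⟩ := dy_abs m L (by omega) P.dep P N1 h1 rfl h4 h3 hF1
  rw [hPK, hP0] at g1
  have g5 : ∀ g, N2.t g ≤ b := fun g => by rw [g4]; exact h5 g
  refine ⟨N2, g1, fun h => h2 (g2 h), ?_, g5, ?_⟩
  · intro d
    by_cases hd : d ∈ N2.F
    · have h7 : N2.S.len d ≤ 4 ^ b * P.Th := dy_len _ N2 g1 b g5 hd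
      have h8 : 2 * 4 ^ b * P.Th = 2 * (4 ^ b * P.Th) := by ring
      omega
    · exact g3 d hd
  intro g i
  have h7 := h6 g i
  simp only [g4]
  exact h7

theorem dyn {r B b β1 K M Th0 Th m W0 W Q T L : ℕ} {B0 : ℝ} (hn : NumD r B b β1 K M Th0 Th m W0 W Q T L B0) :
    ∀ R, 2 ≤ R → R ≤ r → ∀ (P : Par R B) (N : NetS R B), Ok P N → P.K = K → P.Th0 = Th0 → P.Th ≤ Th → P.dep ≤ 3 →
      (∀ g, N.t g = 0) → (∀ (g : Lab R B) (i : Fin R), {v : Fin B | Function.update g i v ∉ P.pres}.ncard ≤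
        β1 + (r - R) * b) → (∀ d, d ∉ N.F → N.S.len d ≤ 8 * m) → N.S.num N.Fᶜ ≤ W0 → U L N.S := by
  intro R hR
  induction R, hR using Nat.le_induction with
  | base =>
    intro hRr P N hN hPK hP0 hPT _ ht hβ hl hW0
    obtain ⟨N', h1, h2, h3, h4, h5⟩ := dy_stage hn 2 le_rfl hRr P N hN hPK hP0 hPT ht hβ hl hW0
    refine h2 (glue_all_U L N'.S ?_)
    have h6 := dy_num _ N' h1
    have h7 := dy_fat _ N' h1 rfl b h4
    have h8 := hn.hL2
    have h9 : 2 * (B ^ 2 * (4 ^ b * Th0)) = 2 * B ^ 2 * 4 ^ b * Th0 := by ring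
    have h7' : N'.F.ncard ≤ B ^ 2 * (4 ^ b * Th0) := h7
    omega
  | succ R hR ih =>
    intro hRr P N hN hPK hP0 hPT _ ht hβ hl hW0
    obtain ⟨N1, h1, h2, h3, h4, h5⟩ := dy_stage hn (R + 1) (by omega) hRr P N hN hPK hP0 hPT ht hβ hl hW0
    set β := β1 + (r - (R + 1)) * b + b with hβd
    have hβe : β = β1 + (r - R) * b := by
      have : r - R = (r - (R + 1)) + 1 := by omega
      rw [hβd, this]; ring
    have hβ0 : β ≤ β1 + r * b + b := by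
      rw [hβd]
      have := Nat.mul_le_mul_right b (Nat.sub_le r (R + 1))
      omega
    have hBig : β + K + 10 ≤ B ∧ 2 * β + 10 ≤ B := by
      have h6 := hn.hB
      have h7 : 64 ≤ 64 * (r + 3) ^ 2 := Nat.le_mul_of_pos_right _ (by positivity)
      have h8 : 64 * (β1 + r * b + b + 512 * (2 * r + 5) + K + 10) ≤
          64 * (r + 3) ^ 2 * (β1 + r * b + b + 512 * (2 * r + 5) + K + 10) := Nat.mul_le_mul_right _ h7
      omega
    have hKb : 4 ^ b * ((R + 1) * β) < K := by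
      have h6 := hn.hK
      have h7 : (R + 1) * β ≤ r * (β1 + r * b + b + 512 * (2 * r + 5)) :=
        Nat.mul_le_mul hRr (by omega)
      have h8 : 4 ^ b * ((R + 1) * β) < 4 ^ (b + 1) * (r * (β1 + r * b + b + 512 * (2 * r + 5)) + 6) := by
        have h9 : 4 ^ b * ((R + 1) * β) ≤ 4 ^ b * (r * (β1 + r * b + b + 512 * (2 * r + 5)) + 6) :=
          Nat.mul_le_mul_left _ (h7.trans (Nat.le_add_right _ _))
        have h10 : 0 < 4 ^ b * (r * (β1 + r * b + b + 512 * (2 * r + 5)) + 6) := by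
          exact Nat.mul_pos (pow_pos (by norm_num) b) (Nat.lt_of_lt_of_le (by norm_num : 0 < 6) (Nat.le_add_left _ _))
        have h11 : 4 ^ (b + 1) * (r * (β1 + r * b + b + 512 * (2 * r + 5)) + 6)
            = 4 * (4 ^ b * (r * (β1 + r * b + b + 512 * (2 * r + 5)) + 6)) := by
          rw [pow_succ, mul_comm (4 ^ b) 4, mul_assoc]
        omega
      omega
    have hKR : K + R * β ≤ R * (B - 1) := by
      obtain ⟨c, hc⟩ : ∃ c, B - 1 = β + K + c := ⟨B - 1 - β - K, by omega⟩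
      rw [hc]
      have h6 : K ≤ R * K := Nat.le_mul_of_pos_left _ (by omega)
      have h7 : R * (β + K + c) = R * β + R * K + R * c := by ring
      have h8 := Nat.zero_le (R * c)
      omega
    have hm1 : 1 ≤ m := by have := hn.hm; omega
    have hL16 : 16 * m ≤ L := by have := hn.hL; omega
    obtain ⟨pres', N', g1, g2, g3, g4, g5, g6⟩ := stageStart (by omega) ⟨P.pres, K, Th0, P.Th, 0⟩ N1 h1 rfl b β h4 h5
      (by omega) hKb K hKR m hm1 h3 L hL16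
    refine h2 (g3 (ih (by omega) _ N' g1 rfl rfl ?_ le_rfl g2 ?_ g5 ?_))
    · refine le_trans ?_ hn.hTh
      show ((R + 1) * B + 1) ^ 3 * 4 ^ b * Th0 ≤ (r * B + 1) ^ 3 * 4 ^ b * Th0
      gcongr
    · rw [← hβe]
      exact g4
    · refine le_trans g6 (le_trans ?_ hn.hW0)
      have hB1 : 1 ≤ B := by omega
      show B ^ (R + 1) * 4 ^ b * Th0 ≤ B ^ r * 4 ^ b * Th0
      gcongr

end Pool.Agent.GW
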