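import Pool.Agent.GW.Graph

/-!
# GW.EmbDet: from half walks to connected sets (deterministic part of GW.Embed)

`γ i j` is the half walk of the pair `i ~ j` at `i`: it starts in `c i` and ends in the same vertex as `γ j i`.  For one of the
two halves only the part before the first meeting with the other half is taken.
-/

set_option autoImplicit false
set_option linter.unusedSectionVars false

namespace Pool.Agent.GW

open Finset

namespace WG

variable {V : Type} [Fintype V] [DecidableEq V] (G : WG V)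

/-- the part of the half walk which is used. -/
private def dd {ι : Type} (r : ι → ℕ) {t : ℕ} (γ : ι → ι → Fin (t + 1) → V) (i j : ι) (s : Fin (t + 1)) : Prop :=
  r j < r i → ∀ s', s' ≤ s → ∀ u, γ i j s' ≠ γ j i u

open Classical in
private noncomputable def cs {ι : Type} (P : ι → ι → Prop) (r : ι → ℕ) {t : ℕ} (γ : ι → ι → Fin (t + 1) → V) (i : ι) : Finset V :=
  univ.filter fun v => ∃ j s, P i j ∧ γ i j s = v ∧ dd r γ i j s

open Classical in
private theorem mem_cs {ι : Type} (P : ι → ι → Prop) (r : ι → ℕ) {t : ℕ} (γ : ι → ι → Fin (t + 1) → V) (i : ι) (v : V) :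
    v ∈ cs P r γ i ↔ ∃ j s, P i j ∧ γ i j s = v ∧ dd r γ i j s := by
  unfold cs
  rw [mem_filter]
  exact ⟨fun h => h.2, fun h => ⟨mem_univ v, h⟩⟩

private theorem dd_mono {ι : Type} (r : ι → ℕ) {t : ℕ} (γ : ι → ι → Fin (t + 1) → V) (i j : ι) {s s' : Fin (t + 1)} (h : s' ≤ s)
    (hd : dd r γ i j s) : dd r γ i j s' := fun h1 s'' h2 u => hd h1 s'' (h2.trans h) u

private theorem reach {ι : Type} (P : ι → ι → Prop) (r : ι → ℕ) {t : ℕ} (γ : ι → ι → Fin (t + 1) → V)
    (hst : ∀ i j, P i j → ∀ s : Fin t, γ i j s.castSucc = γ i j s.succ ∨ G.Adj (γ i j s.castSucc) (γ i j s.succ))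
    (i j : ι) (hP : P i j) : ∀ s : Fin (t + 1), dd r γ i j s →
      Relation.ReflTransGen (fun a b => G.Adj a b ∧ b ∈ cs P r γ i) (γ i j 0) (γ i j s) ∧
      Relation.ReflTransGen (fun a b => G.Adj a b ∧ b ∈ cs P r γ i) (γ i j s) (γ i j 0) := by
  intro s
  induction s using Fin.induction with
  | zero => exact fun _ => ⟨Relation.ReflTransGen.refl, Relation.ReflTransGen.refl⟩
  | succ s ih =>
    intro hd
    have hd' : dd r γ i j s.castSucc := dd_mono r γ i j (Fin.castSucc_lt_succ).le hd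
    obtain ⟨h1, h2⟩ := ih hd'
    rcases hst i j hP s with h | h
    · rw [← h]
      exact ⟨h1, h2⟩
    · refine ⟨h1.tail ⟨h, (mem_cs P r γ i _).2 ⟨j, s.succ, hP, rfl, hd⟩⟩, ?_⟩
      exact Relation.ReflTransGen.head ⟨h.symm, (mem_cs P r γ i _).2 ⟨j, s.castSucc, hP, rfl, hd'⟩⟩ h2

private theorem adj_case {ι : Type} (P : ι → ι → Prop) (hsym : ∀ i j, P i j → P j i) (r : ι → ℕ) {t : ℕ}
    (γ : ι → ι → Fin (t + 1) → V) (he : ∀ i j, P i j → γ i j (Fin.last t) = γ j i (Fin.last t))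
    (hst : ∀ i j, P i j → ∀ s : Fin t, γ i j s.castSucc = γ i j s.succ ∨ G.Adj (γ i j s.castSucc) (γ i j s.succ))
    (h0 : ∀ i j, P i j → ∀ u, γ i j 0 ≠ γ j i u) (i j : ι) (hP : P i j) (hr : r j < r i) :
    ∃ x y, x ∈ cs P r γ i ∧ y ∈ cs P r γ j ∧ G.Adj x y := by
  classical
  have hex : (univ.filter fun s : Fin (t + 1) => ∃ u, γ i j s = γ j i u).Nonempty :=
    ⟨Fin.last t, mem_filter.2 ⟨mem_univ _, Fin.last t, he i j hP⟩⟩
  set τ := (univ.filter fun s : Fin (t + 1) => ∃ u, γ i j s = γ j i u).min' hex with hτ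
  have hm : τ ∈ univ.filter fun s : Fin (t + 1) => ∃ u, γ i j s = γ j i u := min'_mem _ hex
  obtain ⟨u, hu⟩ := (mem_filter.1 hm).2
  have hmin : ∀ s, s < τ → ∀ u, γ i j s ≠ γ j i u := fun s hs u hu =>
    absurd (min'_le _ s (mem_filter.2 ⟨mem_univ s, u, hu⟩)) (not_le.2 hs)
  have hne : τ ≠ 0 := fun h => h0 i j hP u (by rw [← h]; exact hu)
  obtain ⟨s, hs⟩ := Fin.exists_succ_eq.2 hne
  have hlt : s.castSucc < τ := by rw [← hs]; exact Fin.castSucc_lt_succ
  have hadj : G.Adj (γ i j s.castSucc) (γ i j s.succ) := by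
    rcases hst i j hP s with h | h
    · exact absurd (h.trans (by rw [hs]; exact hu)) (hmin _ hlt u)
    · exact h
  refine ⟨γ i j s.castSucc, γ i j s.succ, ?_, ?_, hadj⟩
  · refine (mem_cs P r γ i _).2 ⟨j, s.castSucc, hP, rfl, fun _ s' hs' u => hmin s' (lt_of_le_of_lt hs' hlt) u⟩
  · refine (mem_cs P r γ j _).2 ⟨i, u, hsym i j hP, ?_, fun h => absurd h (not_lt.2 hr.le)⟩
    rw [hs]
    exact hu.symm

open Classical in
theorem cutting {ι : Type} [Fintype ι] [DecidableEq ι] (P : ι → ι → Prop) (hsym : ∀ i j, P i j → P j i)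
    (hirr : ∀ i, ¬ P i i) {deg : ℕ} (hlow : ∀ i, ∃ j, P i j) (hdeg : ∀ i, (univ.filter fun j => P i j).card ≤ deg)
    (Z : V → ι) {t : ℕ} (c : ι → V) (hc : ∀ i, Z (c i) = i) (γ : ι → ι → Fin (t + 1) → V)
    (hs : ∀ i j, P i j → γ i j 0 = c i) (he : ∀ i j, P i j → γ i j (Fin.last t) = γ j i (Fin.last t))
    (hst : ∀ i j, P i j → ∀ s : Fin t, γ i j s.castSucc = γ i j s.succ ∨ G.Adj (γ i j s.castSucc) (γ i j s.succ))
    (hA : ∀ i j k l, P i j → P k l → i ≠ k → s(i, j) ≠ s(k, l) → ∀ s s', γ i j s ≠ γ k l s')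
    (hB : ∀ i j, P i j → ∀ s, γ i j s ≠ c j) :
    ∃ C : V → Option ι,
      (∀ i, G.Conn (univ.filter fun v => C v = some i)) ∧
      (∀ i, (univ.filter fun v => C v = some i).card ≤ deg * (t + 1)) ∧
      (∀ i, ∃ v, C v = some i ∧ Z v = i) ∧
      ∀ i j, P i j → ∃ x y, C x = some i ∧ C y = some j ∧ G.Adj x y := by
  obtain ⟨r, hr⟩ : ∃ r : ι → ℕ, Function.Injective r :=
    ⟨fun i => (Fintype.equivFin ι i : ℕ), fun i j h => (Fintype.equivFin ι).injective (Fin.ext h)⟩
  have h0 : ∀ i j, P i j → ∀ u, γ i j 0 ≠ γ j i u := fun i j hP u h => by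
    rw [hs i j hP] at h
    exact hB j i (hsym i j hP) u h.symm
  have hdisj : ∀ i k v, v ∈ cs P r γ i → v ∈ cs P r γ k → i = k := by
    intro i k v hi hk
    by_contra hne
    obtain ⟨j, s, hP, h1, h2⟩ := (mem_cs P r γ i v).1 hi
    obtain ⟨l, s', hP', h1', h2'⟩ := (mem_cs P r γ k v).1 hk
    by_cases hq : s(i, j) = s(k, l)
    · rw [Sym2.eq_iff] at hq
      rcases hq with ⟨hq, _⟩ | ⟨hq, hq'⟩
      · exact hne hq
      · subst hq
        subst hq'
        rcases lt_trichotomy (r j) (r i) with h | h | h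
        · exact h2 h s le_rfl s' (h1.trans h1'.symm)
        · exact hne (hr h).symm
        · exact h2' h s' le_rfl s (h1'.trans h1.symm)
    · exact hA i j k l hP hP' hne hq s s' (h1.trans h1'.symm)
  have hcm : ∀ i, c i ∈ cs P r γ i := by
    intro i
    obtain ⟨j, hP⟩ := hlow i
    refine (mem_cs P r γ i _).2 ⟨j, 0, hP, hs i j hP, fun _ s' hs' u => ?_⟩
    have : s' = 0 := le_antisymm hs' (Fin.zero_le _)
    rw [this]
    exact h0 i j hP u
  obtain ⟨C, hC⟩ : ∃ C : V → Option ι, ∀ v i, C v = some i ↔ v ∈ cs P r γ i := by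
    refine ⟨fun v => if h : ∃ i, v ∈ cs P r γ i then some h.choose else none, fun v i => ?_⟩
    by_cases h : ∃ i, v ∈ cs P r γ i
    · simp only [dif_pos h, Option.some.injEq]
      constructor
      · intro h1
        rw [← h1]
        exact h.choose_spec
      · intro h1
        exact hdisj _ _ v h.choose_spec h1
    · simp only [dif_neg h]
      constructor
      · intro h1
        exact absurd h1 (by simp)
      · intro h1
        exact absurd ⟨i, h1⟩ h
  have hfil : ∀ i, (univ.filter fun v => C v = some i) = cs P r γ i := fun i => by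
    ext v
    rw [mem_filter]
    exact ⟨fun h => (hC v i).1 h.2, fun h => ⟨mem_univ v, (hC v i).2 h⟩⟩
  refine ⟨C, fun i => ?_, fun i => ?_, fun i => ⟨c i, (hC _ _).2 (hcm i), hc i⟩, fun i j hP => ?_⟩
  · rw [hfil i]
    refine ⟨⟨c i, hcm i⟩, fun x hx y hy => ?_⟩
    obtain ⟨j, s, hP, h1, h2⟩ := (mem_cs P r γ i x).1 hx
    obtain ⟨j', s', hP', h1', h2'⟩ := (mem_cs P r γ i y).1 hy
    have a := (G.reach P r γ hst i j hP s h2).2
    have b := (G.reach P r γ hst i j' hP' s' h2').1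
    rw [h1, hs i j hP] at a
    rw [h1', hs i j' hP'] at b
    exact a.trans b
  · rw [hfil i]
    have hsub : cs P r γ i ⊆ (univ.filter fun j => P i j).biUnion fun j => univ.image (γ i j) := by
      intro v hv
      obtain ⟨j, s, hP, h1, _⟩ := (mem_cs P r γ i v).1 hv
      exact mem_biUnion.2 ⟨j, mem_filter.2 ⟨mem_univ j, hP⟩, mem_image.2 ⟨s, mem_univ s, h1⟩⟩
    refine (card_le_card hsub).trans (card_biUnion_le.trans ?_)
    calc ∑ j ∈ univ.filter (fun j => P i j), (univ.image (γ i j)).card ≤ ∑ _j ∈ univ.filter (fun j => P i j), (t + 1) :=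
          sum_le_sum fun j _ => card_image_le.trans (by simp)
      _ = (univ.filter fun j => P i j).card * (t + 1) := by rw [sum_const, smul_eq_mul]
      _ ≤ deg * (t + 1) := Nat.mul_le_mul_right _ (hdeg i)
  · rcases lt_trichotomy (r j) (r i) with h | h | h
    · obtain ⟨x, y, hx, hy, hxy⟩ := G.adj_case P hsym r γ he hst h0 i j hP h
      exact ⟨x, y, (hC x i).2 hx, (hC y j).2 hy, hxy⟩
    · exact absurd (hr h ▸ hP) (hirr i)
    · obtain ⟨x, y, hx, hy, hxy⟩ := G.adj_case P hsym r γ he hst h0 j i (hsym i j hP) h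
      exact ⟨y, x, (hC y i).2 hy, (hC x j).2 hx, hxy.symm⟩

end WG

end Pool.Agent.GW
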