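import Mathlib

/-!
# GW.WLll: the local lemma by counting (Rosenfeld), product weights

Independent variables `x v`, `v ∈ X`, with values in `Ω` and law `w v`; `Ex w f` is the expectation of `f`, `Pr w A` the probability
of `A`.  `indep`: functions of different variables are independent.  `marg`: expectation of a product of functions of one variable
each.  `wlll`: if `∑_{e, v ∈ sup e} 2 ^ (|sup e| - 1) Pr (Bad e) ≤ 1 / 2` for all `v` then no bad event occurs for some values
of positive weight.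
-/

set_option autoImplicit false
set_option linter.unusedSectionVars false

namespace Pool.Agent.GW.WLll

open Finset

section

variable {X Ω : Type} [Fintype X] [DecidableEq X] [Fintype Ω] [DecidableEq Ω]

/-- product weight -/
noncomputable def W (w : X → Ω → ℝ) (x : X → Ω) : ℝ := ∏ v, w v (x v)

/-- expectation -/
noncomputable def Ex (w : X → Ω → ℝ) (f : (X → Ω) → ℝ) : ℝ := ∑ x, W w x * f x

open Classical in
/-- indicator -/
noncomputable def ind (A : Prop) : ℝ := if A then 1 else 0

/-- probability -/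
noncomputable def Pr (w : X → Ω → ℝ) (A : (X → Ω) → Prop) : ℝ := Ex w fun x => ind (A x)

theorem ind_nonneg (A : Prop) : 0 ≤ ind A := by unfold ind; split_ifs <;> norm_num

theorem ind_le_one (A : Prop) : ind A ≤ 1 := by unfold ind; split_ifs <;> norm_num

theorem ind_true {A : Prop} (h : A) : ind A = 1 := if_pos h

theorem ind_false {A : Prop} (h : ¬ A) : ind A = 0 := if_neg h

theorem ind_congr {A B : Prop} (h : A ↔ B) : ind A = ind B := by rw [propext h]

theorem ind_mono {A B : Prop} (h : A → B) : ind A ≤ ind B := by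
  by_cases hA : A
  · rw [ind_true hA, ind_true (h hA)]
  · rw [ind_false hA]
    exact ind_nonneg B

theorem ind_and (A B : Prop) : ind (A ∧ B) = ind A * ind B := by
  by_cases hA : A <;> by_cases hB : B <;> simp [ind, hA, hB]

theorem W_nonneg {w : X → Ω → ℝ} (hw : ∀ v a, 0 ≤ w v a) (x : X → Ω) : 0 ≤ W w x := prod_nonneg fun v _ => hw v _

theorem Ex_nonneg {w : X → Ω → ℝ} (hw : ∀ v a, 0 ≤ w v a) {f : (X → Ω) → ℝ} (hf : ∀ x, 0 ≤ f x) : 0 ≤ Ex w f :=
  sum_nonneg fun x _ => mul_nonneg (W_nonneg hw x) (hf x)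

theorem Ex_mono {w : X → Ω → ℝ} (hw : ∀ v a, 0 ≤ w v a) {f g : (X → Ω) → ℝ} (h : ∀ x, f x ≤ g x) : Ex w f ≤ Ex w g :=
  sum_le_sum fun x _ => mul_le_mul_of_nonneg_left (h x) (W_nonneg hw x)

theorem Ex_add (w : X → Ω → ℝ) (f g : (X → Ω) → ℝ) : Ex w (fun x => f x + g x) = Ex w f + Ex w g := by
  unfold Ex
  rw [← sum_add_distrib]
  exact sum_congr rfl fun x _ => mul_add _ _ _

theorem Ex_sum {J : Type} (s : Finset J) (w : X → Ω → ℝ) (f : J → (X → Ω) → ℝ) :
    Ex w (fun x => ∑ j ∈ s, f j x) = ∑ j ∈ s, Ex w (f j) := by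
  unfold Ex
  rw [sum_comm]
  exact sum_congr rfl fun x _ => mul_sum _ _ _

theorem Ex_mul_left (w : X → Ω → ℝ) (c : ℝ) (f : (X → Ω) → ℝ) : Ex w (fun x => c * f x) = c * Ex w f := by
  unfold Ex
  rw [mul_sum]
  exact sum_congr rfl fun x _ => by ring

/-- expectation of a product of functions of one variable each. -/
theorem marg (w : X → Ω → ℝ) (g : X → Ω → ℝ) : Ex w (fun x => ∏ v, g v (x v)) = ∏ v, ∑ a, w v a * g v a := by
  unfold Ex W
  rw [prod_univ_sum, Fintype.piFinset_univ]
  exact sum_congr rfl fun x _ => by rw [← prod_mul_distrib]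

theorem Ex_one {w : X → Ω → ℝ} (h1 : ∀ v, ∑ a, w v a = 1) : Ex w (fun _ => 1) = 1 := by
  have h := marg w fun _ _ => 1
  simp only [prod_const_one, mul_one] at h
  rw [h]
  exact prod_eq_one fun v _ => h1 v

/-- one variable. -/
theorem marg_one {w : X → Ω → ℝ} (h1 : ∀ v, ∑ a, w v a = 1) (u : X) (g : Ω → ℝ) :
    Ex w (fun x => g (x u)) = ∑ a, w u a * g a := by
  have h := marg w fun v a => if v = u then g a else 1
  have e1 : (fun x : X → Ω => ∏ v, (if v = u then g (x v) else 1)) = fun x => g (x u) := by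
    funext x
    rw [prod_eq_single u]
    · rw [if_pos rfl]
    · intro v _ hv
      rw [if_neg hv]
    · intro hu
      exact absurd (mem_univ u) hu
  rw [e1] at h
  rw [h, prod_eq_single u]
  · simp
  · intro v _ hv
    simp only [if_neg hv, mul_one]
    exact h1 v
  · intro hu
    exact absurd (mem_univ u) hu

open Classical in
private noncomputable def mx (T : Finset X) (x y : X → Ω) : X → Ω := fun v => if v ∈ T then x v else y v

private theorem mx_inv (T : Finset X) (x y : X → Ω) : mx T (mx T x y) (mx T y x) = x := by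
  funext v
  unfold mx
  by_cases h : v ∈ T <;> simp [h]

private theorem mx_W (w : X → Ω → ℝ) (T : Finset X) (x y : X → Ω) : W w (mx T x y) * W w (mx T y x) = W w x * W w y := by
  unfold W
  rw [← prod_mul_distrib, ← prod_mul_distrib]
  refine prod_congr rfl fun v _ => ?_
  unfold mx
  by_cases h : v ∈ T
  · simp only [if_pos h]
  · simp only [if_neg h]
    exact mul_comm _ _

theorem indep {w : X → Ω → ℝ} (h1 : ∀ v, ∑ a, w v a = 1) (T : Finset X) (f g : (X → Ω) → ℝ)
    (hf : ∀ x y, (∀ v ∈ T, x v = y v) → f x = f y) (hg : ∀ x y, (∀ v, v ∉ T → x v = y v) → g x = g y) :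
    Ex w (fun x => f x * g x) = Ex w f * Ex w g := by
  have e0 : Ex w (fun x => f x * g x) = Ex w (fun x => f x * g x) * Ex w (fun _ => 1) := by rw [Ex_one h1, mul_one]
  rw [e0]
  unfold Ex
  rw [sum_mul_sum, sum_mul_sum, ← Fintype.sum_prod_type', ← Fintype.sum_prod_type']
  symm
  refine Fintype.sum_equiv ⟨fun z : (X → Ω) × (X → Ω) => (mx T z.1 z.2, mx T z.2 z.1), fun z => (mx T z.1 z.2, mx T z.2 z.1),
    fun z => Prod.ext (mx_inv T z.1 z.2) (mx_inv T z.2 z.1), fun z => Prod.ext (mx_inv T z.1 z.2) (mx_inv T z.2 z.1)⟩ _ _ ?_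
  rintro ⟨x, y⟩
  have hf' : f (mx T x y) = f x := hf _ _ fun v hv => by simp [mx, hv]
  have hg' : g (mx T x y) = g y := hg _ _ fun v hv => by simp [mx, hv]
  show W w x * f x * (W w y * g y) = W w (mx T x y) * (f (mx T x y) * g (mx T x y)) * (W w (mx T y x) * 1)
  rw [hf', hg']
  have := mx_W w T x y
  calc W w x * f x * (W w y * g y) = (W w x * W w y) * (f x * g y) := by ring
    _ = (W w (mx T x y) * W w (mx T y x)) * (f x * g y) := by rw [this]
    _ = _ := by ring

end

section

variable {X Ω I : Type} [Fintype X] [DecidableEq X] [Fintype Ω] [DecidableEq Ω] [Fintype I]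

/-- weight of the good choices for the events with support in `S` -/
private noncomputable def GG (w : X → Ω → ℝ) (sup : I → Finset X) (Bad : I → (X → Ω) → Prop) (S : Finset X) : ℝ :=
  Pr w fun x => ∀ e, sup e ⊆ S → ¬ Bad e x

private theorem GG_dep (sup : I → Finset X) (Bad : I → (X → Ω) → Prop)
    (hdep : ∀ e x y, (∀ v ∈ sup e, x v = y v) → Bad e x → Bad e y) (S T : Finset X)
    (hST : ∀ v ∈ S, v ∉ T) (x y : X → Ω) (h : ∀ v, v ∉ T → x v = y v)
    (hx : ∀ e, sup e ⊆ S → ¬ Bad e x) : ∀ e, sup e ⊆ S → ¬ Bad e y := fun e he hb =>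
  hx e he (hdep e y x (fun v hv => (h v (hST v (he hv))).symm) hb)

private theorem GG_down (w : X → Ω → ℝ) (sup : I → Finset X) (Bad : I → (X → Ω) → Prop)
    (m : ℕ) (ih : ∀ S : Finset X, S.card < m → ∀ v, v ∉ S → GG w sup Bad S ≤ 2 * GG w sup Bad (insert v S)) :
    ∀ R S : Finset X, R ⊆ S → S.card ≤ m → GG w sup Bad (S \ R) ≤ 2 ^ R.card * GG w sup Bad S := by
  intro R
  induction R using Finset.induction_on with
  | empty =>
    intro S _ _
    simp
  | insert r R hr hR =>
    intro S hRS hS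
    have hrS : r ∈ S := hRS (Finset.mem_insert_self r R)
    have e1 : insert r (S \ insert r R) = S \ R := by
      ext v
      simp only [Finset.mem_insert, Finset.mem_sdiff]
      constructor
      · rintro (rfl | ⟨h1, h2⟩)
        · exact ⟨hrS, hr⟩
        · exact ⟨h1, fun h => h2 (Or.inr h)⟩
      · rintro ⟨h1, h2⟩
        by_cases h : v = r
        · exact Or.inl h
        · exact Or.inr ⟨h1, fun h3 => h3.elim h h2⟩
    have hn : r ∉ S \ insert r R := by simp
    have hc : (S \ insert r R).card < m := by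
      refine lt_of_lt_of_le (Finset.card_lt_card ?_) hS
      refine Finset.ssubset_iff_subset_ne.2 ⟨Finset.sdiff_subset, fun h => ?_⟩
      rw [h] at hn
      exact hn hrS
    have h1 := ih _ hc r hn
    rw [e1] at h1
    have h2 := hR S (fun v hv => hRS (Finset.mem_insert_of_mem hv)) hS
    rw [Finset.card_insert_of_notMem hr, pow_succ']
    calc GG w sup Bad (S \ insert r R)
        ≤ 2 * GG w sup Bad (S \ R) := h1
      _ ≤ 2 * (2 ^ R.card * GG w sup Bad S) := by linarith
      _ = 2 * 2 ^ R.card * GG w sup Bad S := by ring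

open Classical in
private theorem GG_step (w : X → Ω → ℝ) (hw : ∀ v a, 0 ≤ w v a) (h1 : ∀ v, ∑ a, w v a = 1) (sup : I → Finset X)
    (Bad : I → (X → Ω) → Prop)
    (hdep : ∀ e x y, (∀ v ∈ sup e, x v = y v) → Bad e x → Bad e y)
    (hE : ∀ v, ∑ e ∈ univ.filter (fun e => v ∈ sup e), (2 : ℝ) ^ ((sup e).card - 1) * Pr w (Bad e) ≤ 1 / 2) :
    ∀ m : ℕ, ∀ S : Finset X, S.card < m → ∀ v, v ∉ S → GG w sup Bad S ≤ 2 * GG w sup Bad (insert v S) := by
  intro m
  induction m with
  | zero =>
    intro S hS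
    exact absurd hS (Nat.not_lt_zero _)
  | succ m ih =>
    intro S hS v hv
    have hSm : S.card ≤ m := Nat.lt_succ_iff.1 hS
    have hG : 0 ≤ GG w sup Bad S := Ex_nonneg hw fun x => ind_nonneg _
    have hsplit : GG w sup Bad S ≤ GG w sup Bad (insert v S) +
        ∑ e ∈ univ.filter (fun e => v ∈ sup e), Ex w (fun x => ind (Bad e x) * ind (∀ e', sup e' ⊆ S \ sup e → ¬ Bad e' x)) := by
      unfold GG Pr
      rw [← Ex_sum, ← Ex_add]
      refine Ex_mono hw fun x => ?_
      have hn : 0 ≤ ∑ e ∈ univ.filter (fun e => v ∈ sup e), ind (Bad e x) * ind (∀ e', sup e' ⊆ S \ sup e → ¬ Bad e' x) :=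
        sum_nonneg fun e _ => mul_nonneg (ind_nonneg _) (ind_nonneg _)
      by_cases hx : ∀ e, sup e ⊆ S → ¬ Bad e x
      · by_cases h : ∀ e, sup e ⊆ insert v S → ¬ Bad e x
        · rw [ind_true hx, ind_true h]
          linarith
        · push Not at h
          obtain ⟨e, he, hb⟩ := h
          have hve : v ∈ sup e := by
            by_contra hve
            refine hx e (fun w hw => ?_) hb
            rcases Finset.mem_insert.1 (he hw) with h1 | h1
            · exact absurd (h1 ▸ hw) hve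
            · exact h1
          have h3 : ind (Bad e x) * ind (∀ e', sup e' ⊆ S \ sup e → ¬ Bad e' x) = 1 := by
            rw [ind_true hb, ind_true (fun e' he' => hx e' (he'.trans Finset.sdiff_subset)), mul_one]
          have h4 : ind (Bad e x) * ind (∀ e', sup e' ⊆ S \ sup e → ¬ Bad e' x) ≤
              ∑ e ∈ univ.filter (fun e => v ∈ sup e), ind (Bad e x) * ind (∀ e', sup e' ⊆ S \ sup e → ¬ Bad e' x) :=
            single_le_sum (f := fun e => ind (Bad e x) * ind (∀ e', sup e' ⊆ S \ sup e → ¬ Bad e' x))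
              (fun e _ => mul_nonneg (ind_nonneg _) (ind_nonneg _)) (mem_filter.2 ⟨mem_univ e, hve⟩)
          have h5 := ind_nonneg (∀ e, sup e ⊆ insert v S → ¬ Bad e x)
          rw [ind_true hx]
          linarith
      · rw [ind_false hx]
        have h5 := ind_nonneg (∀ e, sup e ⊆ insert v S → ¬ Bad e x)
        linarith
    have hterm : ∀ e ∈ univ.filter (fun e => v ∈ sup e),
        Ex w (fun x => ind (Bad e x) * ind (∀ e', sup e' ⊆ S \ sup e → ¬ Bad e' x)) ≤
          GG w sup Bad S * ((2 : ℝ) ^ ((sup e).card - 1) * Pr w (Bad e)) := by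
      intro e he
      have hve : v ∈ sup e := (Finset.mem_filter.1 he).2
      rw [indep h1 (sup e) (fun x => ind (Bad e x)) (fun x => ind (∀ e', sup e' ⊆ S \ sup e → ¬ Bad e' x))
        (fun x y hxy => ind_congr ⟨hdep e x y hxy, hdep e y x fun v hv => (hxy v hv).symm⟩)
        (fun x y hxy => ind_congr
          ⟨GG_dep sup Bad hdep (S \ sup e) (sup e) (fun v hv => (Finset.mem_sdiff.1 hv).2) x y hxy,
            GG_dep sup Bad hdep (S \ sup e) (sup e) (fun v hv => (Finset.mem_sdiff.1 hv).2) y x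
              (fun v hv => (hxy v hv).symm)⟩)]
      have hd := GG_down w sup Bad m ih (S ∩ sup e) S Finset.inter_subset_left hSm
      have e2 : S \ (S ∩ sup e) = S \ sup e := by
        ext w
        simp only [Finset.mem_sdiff, Finset.mem_inter]
        tauto
      rw [e2] at hd
      have hc : (S ∩ sup e).card ≤ (sup e).card - 1 := by
        have : (S ∩ sup e) ⊆ (sup e).erase v := by
          intro w hw
          rw [Finset.mem_inter] at hw
          exact Finset.mem_erase.2 ⟨fun h => hv (h ▸ hw.1), hw.2⟩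
        refine (Finset.card_le_card this).trans ?_
        rw [Finset.card_erase_of_mem hve]
      have hpow : (2 : ℝ) ^ (S ∩ sup e).card ≤ 2 ^ ((sup e).card - 1) :=
        pow_le_pow_right₀ (by norm_num) hc
      have hB : 0 ≤ Pr w (Bad e) := Ex_nonneg hw fun x => ind_nonneg _
      calc Ex w (fun x => ind (Bad e x)) * Ex w (fun x => ind (∀ e', sup e' ⊆ S \ sup e → ¬ Bad e' x))
          = Pr w (Bad e) * GG w sup Bad (S \ sup e) := rfl
        _ ≤ Pr w (Bad e) * (2 ^ (S ∩ sup e).card * GG w sup Bad S) := mul_le_mul_of_nonneg_left hd hB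
        _ ≤ Pr w (Bad e) * (2 ^ ((sup e).card - 1) * GG w sup Bad S) :=
          mul_le_mul_of_nonneg_left (mul_le_mul_of_nonneg_right hpow hG) hB
        _ = _ := by ring
    have hsum : ∑ e ∈ univ.filter (fun e => v ∈ sup e),
        Ex w (fun x => ind (Bad e x) * ind (∀ e', sup e' ⊆ S \ sup e → ¬ Bad e' x)) ≤ GG w sup Bad S * (1 / 2) := by
      refine (Finset.sum_le_sum hterm).trans ?_
      rw [← Finset.mul_sum]
      exact mul_le_mul_of_nonneg_left (hE v) hG
    linarith

open Classical in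
/-- the local lemma. -/
theorem wlll (w : X → Ω → ℝ) (hw : ∀ v a, 0 ≤ w v a) (h1 : ∀ v, ∑ a, w v a = 1) (sup : I → Finset X)
    (hsup : ∀ e, (sup e).Nonempty) (Bad : I → (X → Ω) → Prop)
    (hdep : ∀ e x y, (∀ v ∈ sup e, x v = y v) → Bad e x → Bad e y)
    (hE : ∀ v, ∑ e ∈ univ.filter (fun e => v ∈ sup e), (2 : ℝ) ^ ((sup e).card - 1) * Pr w (Bad e) ≤ 1 / 2) :
    ∃ x : X → Ω, (∀ v, w v (x v) ≠ 0) ∧ ∀ e, ¬ Bad e x := by
  have h := GG_down w sup Bad (univ : Finset X).card
    (fun S hS v hv => GG_step w hw h1 sup Bad hdep hE _ S hS v hv) univ univ (Finset.Subset.refl _) le_rfl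
  rw [Finset.sdiff_self] at h
  have h0 : GG w sup Bad ∅ = 1 := by
    unfold GG Pr
    rw [← Ex_one h1]
    congr 1
    funext x
    refine ind_true fun e he => ?_
    exact absurd (Finset.subset_empty.1 he) (hsup e).ne_empty
  rw [h0] at h
  by_contra hcon
  push Not at hcon
  have h2 : GG w sup Bad univ = 0 := by
    unfold GG Pr Ex
    refine sum_eq_zero fun x _ => ?_
    by_cases hx : ∀ v, w v (x v) ≠ 0
    · obtain ⟨e, he⟩ := hcon x hx
      have h3 : ¬ ∀ e, sup e ⊆ univ → ¬ Bad e x := fun hh => hh e (Finset.subset_univ _) he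
      show W w x * ind (∀ e, sup e ⊆ univ → ¬ Bad e x) = 0
      rw [ind_false h3, mul_zero]
    · push Not at hx
      obtain ⟨v, hv⟩ := hx
      have : W w x = 0 := prod_eq_zero (mem_univ v) hv
      rw [this, zero_mul]
  rw [h2, mul_zero] at h
  linarith

end

end Pool.Agent.GW.WLll
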