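import Pool.Agent.GW.Graph
import Pool.Agent.GW.WLll
import Pool.Agent.GW.EmbDet

/-!
# GW.Embed: disjoint connected sets realising a pattern

The walk law `μ` is the output of `walk_law`.

PROOF.  Independent variables: `c_i ∈ V` with law `om / vol (Z_i)` on `Z_i = {v | Z v = i}` (`pz`), and for every unordered pair `e` of
indices a table `y_e : V → walk` with law `∑_z pi z ∏_a μ a z (y a)` (`qq`); the half walk of the ordered pair `(i, j)` is
`y_{ij} c_i` (`hw`), so the two half walks of `e` end in the same vertex.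
`LL i s v` = probability that a half walk of `i` is in `v` at time `s`: `∑_v LL i s v = 1` and `∑_i LL i s v ≤ 2 M / H`.
BAD EVENTS (indexed by two ordered pairs `(i,j)`, `(k,l)` of the pattern with `i ≠ k`): if the unordered pairs are different, that the
half walks meet (probability at most `∑_{s,s'} ∑_v LL i s v LL k s' v`), otherwise (`k = j`) that `c_j` lies on the half walk
`(i,j)` (probability at most `(t+1) M/H`).  `WLll.wlll` applies.  The deterministic end is `cutting` of `EmbDet`.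
(The hypothesis `Nonempty V` is needed.)
-/

set_option autoImplicit false
set_option linter.unusedSectionVars false

namespace Pool.Agent.GW

open Finset WLll

namespace WG

variable {V : Type} [Fintype V] [DecidableEq V] (G : WG V)

section

variable {ι : Type} [Fintype ι] [DecidableEq ι] (Z : V → ι) {t : ℕ} (μ : V → V → (Fin (t + 1) → V) → ℝ)

/-- law of the start. -/
private noncomputable def pz (i : ι) (a : V) : ℝ := ind (Z a = i) * (G.om a / G.vol (univ.filter fun v => Z v = i))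

/-- law of a table of walks with a common end. -/
private noncomputable def qq (y : V → Fin (t + 1) → V) : ℝ := ∑ z, G.pi z * W (fun b => μ b z) y

/-- the walk from `a` is in `v` at time `s`. -/
private noncomputable def QQ (a : V) (s : Fin (t + 1)) (v : V) : ℝ := ∑ y, G.qq μ y * ind (y a s = v)

/-- a half walk of `i` is in `v` at time `s`. -/
private noncomputable def LL (i : ι) (s : Fin (t + 1)) (v : V) : ℝ := ∑ a, G.pz Z i a * G.QQ μ a s v

/-- first component of the law. -/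
private noncomputable def av : ι ⊕ Sym2 ι → V → ℝ := Sum.elim (fun i => G.pz Z i) fun _ => G.pi

/-- the law of the variables. -/
private noncomputable def ww (u : ι ⊕ Sym2 ι) (ω : V × (V → Fin (t + 1) → V)) : ℝ := G.av Z u ω.1 * G.qq μ ω.2

/-- the half walk. -/
private def hw (x : ι ⊕ Sym2 ι → V × (V → Fin (t + 1) → V)) (i j : ι) (s : Fin (t + 1)) : V :=
  (x (Sum.inr s(i, j))).2 (x (Sum.inl i)).1 s

private theorem sum_ind (v : V) (f : V → ℝ) : ∑ a, ind (a = v) * f a = f v := by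
  rw [sum_eq_single v]
  · rw [ind_true rfl, one_mul]
  · intro a _ ha
    rw [ind_false ha, zero_mul]
  · intro h
    exact absurd (mem_univ v) h

private theorem sum_ind' (v : V) : ∑ a, ind (v = a) = 1 := by
  rw [sum_eq_single v]
  · rw [ind_true rfl]
  · intro a _ ha
    rw [ind_false (fun h => ha h.symm)]
  · intro h
    exact absurd (mem_univ v) h

private theorem pz_nonneg (i : ι) (a : V) : 0 ≤ G.pz Z i a :=
  mul_nonneg (ind_nonneg _) (div_nonneg (G.om_nonneg a) (G.vol_nonneg _))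

private theorem pz_sum (i : ι) (h : 0 < G.vol (univ.filter fun v => Z v = i)) : ∑ a, G.pz Z i a = 1 := by
  unfold pz
  have e : ∀ a, ind (Z a = i) * (G.om a / G.vol (univ.filter fun v => Z v = i)) =
      (if Z a = i then G.om a else 0) / G.vol (univ.filter fun v => Z v = i) := fun a => by
    by_cases h : Z a = i
    · rw [ind_true h, if_pos h, one_mul]
    · rw [ind_false h, if_neg h, zero_mul, zero_div]
  rw [sum_congr rfl fun a _ => e a, ← sum_div, ← sum_filter]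
  exact div_self h.ne'

private theorem pi_nonneg (a : V) : 0 ≤ G.pi a := div_nonneg (G.om_nonneg a) (G.vol_nonneg _)

private theorem pi_sum (h : 0 < G.vol univ) : ∑ a, G.pi a = 1 := by
  unfold pi
  rw [← sum_div]
  exact div_self h.ne'

private theorem qq_nonneg (h0 : ∀ x z γ, 0 ≤ μ x z γ) (y : V → Fin (t + 1) → V) : 0 ≤ G.qq μ y :=
  sum_nonneg fun z _ => mul_nonneg (G.pi_nonneg z) (W_nonneg (fun b a => h0 b z a) y)

private theorem qq_sum_mul (h1 : ∀ x z, ∑ γ, μ x z γ = 1) (a : V) (g : (Fin (t + 1) → V) → ℝ) :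
    ∑ y, G.qq μ y * g (y a) = ∑ z, G.pi z * ∑ γ, μ a z γ * g γ := by
  unfold qq
  have e : ∀ y : V → Fin (t + 1) → V, (∑ z, G.pi z * W (fun b => μ b z) y) * g (y a) =
      ∑ z, G.pi z * (W (fun b => μ b z) y * g (y a)) := fun y => by
    rw [sum_mul]
    exact sum_congr rfl fun z _ => by ring
  rw [sum_congr rfl fun y _ => e y, sum_comm]
  refine sum_congr rfl fun z _ => ?_
  rw [← mul_sum]
  congr 1
  exact marg_one (w := fun b => μ b z) (fun b => h1 b z) a g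

private theorem qq_sum [Nonempty V] (h1 : ∀ x z, ∑ γ, μ x z γ = 1) (hv : 0 < G.vol univ) : ∑ y, G.qq μ y = 1 := by
  obtain ⟨a⟩ : Nonempty V := inferInstance
  have h := G.qq_sum_mul μ h1 a fun _ => 1
  simp only [mul_one] at h
  rw [h, sum_congr rfl fun z _ => by rw [h1 a z, mul_one]]
  exact G.pi_sum hv

private theorem QQ_nonneg (h0 : ∀ x z γ, 0 ≤ μ x z γ) (a : V) (s : Fin (t + 1)) (v : V) : 0 ≤ G.QQ μ a s v :=
  sum_nonneg fun y _ => mul_nonneg (G.qq_nonneg μ h0 y) (ind_nonneg _)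

private theorem QQ_sum [Nonempty V] (h1 : ∀ x z, ∑ γ, μ x z γ = 1) (hv : 0 < G.vol univ) (a : V) (s : Fin (t + 1)) :
    ∑ v, G.QQ μ a s v = 1 := by
  unfold QQ
  rw [sum_comm]
  have e : ∀ y : V → Fin (t + 1) → V, ∑ v, G.qq μ y * ind (y a s = v) = G.qq μ y := fun y => by
    rw [← mul_sum, sum_ind', mul_one]
  rw [sum_congr rfl fun y _ => e y]
  exact G.qq_sum μ h1 hv

open Classical in
private theorem QQ_eq (h1 : ∀ x z, ∑ γ, μ x z γ = 1) (a : V) (s : Fin (t + 1)) (v : V) :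
    G.QQ μ a s v = ∑ z, G.pi z * ∑ γ ∈ univ.filter (fun γ : Fin (t + 1) → V => γ s = v), μ a z γ := by
  unfold QQ
  rw [G.qq_sum_mul μ h1 a fun γ => ind (γ s = v)]
  refine sum_congr rfl fun z _ => ?_
  congr 1
  rw [sum_filter]
  refine sum_congr rfl fun γ _ => ?_
  by_cases h : γ s = v
  · rw [ind_true h, if_pos h, mul_one]
  · rw [ind_false h, if_neg h, mul_zero]

private theorem LL_nonneg (h0 : ∀ x z γ, 0 ≤ μ x z γ) (i : ι) (s : Fin (t + 1)) (v : V) : 0 ≤ G.LL Z μ i s v :=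
  sum_nonneg fun a _ => mul_nonneg (G.pz_nonneg Z i a) (G.QQ_nonneg μ h0 a s v)

private theorem LL_sum [Nonempty V] (h1 : ∀ x z, ∑ γ, μ x z γ = 1) (hv : 0 < G.vol univ) (i : ι)
    (hi : 0 < G.vol (univ.filter fun v => Z v = i)) (s : Fin (t + 1)) : ∑ v, G.LL Z μ i s v = 1 := by
  unfold LL
  rw [sum_comm]
  rw [sum_congr rfl fun a _ => by rw [← mul_sum, G.QQ_sum μ h1 hv a s, mul_one]]
  exact G.pz_sum Z i hi

private theorem pz_col {H : ℝ} (hH : 0 < H) (hZ : ∀ i, H ≤ G.vol (univ.filter fun v => Z v = i)) (a : V) :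
    ∑ i, G.pz Z i a ≤ G.om a / H := by
  rw [sum_eq_single (Z a)]
  · unfold pz
    rw [ind_true rfl, one_mul]
    exact div_le_div_of_nonneg_left (G.om_nonneg a) hH (hZ _)
  · intro i _ hi
    unfold pz
    rw [ind_false (fun h => hi h.symm), zero_mul]
  · intro h
    exact absurd (mem_univ _) h

open Classical in
private theorem LL_col {H M : ℝ} (hH : 0 < H) (hZ : ∀ i, H ≤ G.vol (univ.filter fun v => Z v = i))
    (hM : ∀ v, G.om v ≤ M) (hv : 0 < G.vol univ) (h0 : ∀ x z γ, 0 ≤ μ x z γ) (h1 : ∀ x z, ∑ γ, μ x z γ = 1)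
    (h3 : ∀ (s : Fin (t + 1)) (v : V),
        ∑ x, ∑ z, G.pi x * G.pi z * ∑ γ ∈ univ.filter (fun γ => γ s = v), μ x z γ ≤ 2 * G.pi v) (s : Fin (t + 1)) (v : V) :
    ∑ i, G.LL Z μ i s v ≤ 2 * M / H := by
  unfold LL
  rw [sum_comm]
  have e1 : ∀ a, ∑ i, G.pz Z i a * G.QQ μ a s v ≤ G.vol univ / H * (G.pi a * G.QQ μ a s v) := fun a => by
    rw [← sum_mul]
    have h := mul_le_mul_of_nonneg_right (G.pz_col Z hH hZ a) (G.QQ_nonneg μ h0 a s v)
    refine h.trans (le_of_eq ?_)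
    unfold pi
    field_simp
  refine (sum_le_sum fun a _ => e1 a).trans ?_
  rw [← mul_sum]
  have e2 : ∑ a, G.pi a * G.QQ μ a s v =
      ∑ x, ∑ z, G.pi x * G.pi z * ∑ γ ∈ univ.filter (fun γ : Fin (t + 1) → V => γ s = v), μ x z γ := by
    refine sum_congr rfl fun a _ => ?_
    rw [G.QQ_eq μ h1 a s v, mul_sum]
    exact sum_congr rfl fun z _ => by ring
  rw [e2]
  refine (mul_le_mul_of_nonneg_left (h3 s v) (div_nonneg hv.le hH.le)).trans ?_
  have e3 : G.vol univ / H * (2 * G.pi v) = 2 * G.om v / H := by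
    unfold pi
    field_simp
  rw [e3]
  exact div_le_div_of_nonneg_right (by linarith [hM v]) hH.le

private theorem pz_le {H M : ℝ} (hH : 0 < H) (hZ : ∀ i, H ≤ G.vol (univ.filter fun v => Z v = i))
    (hM : ∀ v, G.om v ≤ M) (i : ι) (a : V) : G.pz Z i a ≤ M / H := by
  have h1 : G.om a / G.vol (univ.filter fun v => Z v = i) ≤ M / H :=
    div_le_div₀ ((G.om_nonneg a).trans (hM a)) (hM a) hH (hZ i)
  have h2 : 0 ≤ G.om a / G.vol (univ.filter fun v => Z v = i) := div_nonneg (G.om_nonneg a) (G.vol_nonneg _)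
  unfold pz
  calc ind (Z a = i) * (G.om a / G.vol (univ.filter fun v => Z v = i))
      ≤ 1 * (G.om a / G.vol (univ.filter fun v => Z v = i)) := mul_le_mul_of_nonneg_right (ind_le_one _) h2
    _ ≤ M / H := by rw [one_mul]; exact h1

private theorem av_nonneg (u : ι ⊕ Sym2 ι) (a : V) : 0 ≤ G.av Z u a := by
  rcases u with i | e
  · exact G.pz_nonneg Z i a
  · exact G.pi_nonneg a

private theorem av_sum (hv : 0 < G.vol univ) (hi : ∀ i, 0 < G.vol (univ.filter fun v => Z v = i)) (u : ι ⊕ Sym2 ι) :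
    ∑ a, G.av Z u a = 1 := by
  rcases u with i | e
  · exact G.pz_sum Z i (hi i)
  · exact G.pi_sum hv

private theorem ww_nonneg (h0 : ∀ x z γ, 0 ≤ μ x z γ) (u : ι ⊕ Sym2 ι) (ω : V × (V → Fin (t + 1) → V)) : 0 ≤ G.ww Z μ u ω :=
  mul_nonneg (G.av_nonneg Z u _) (G.qq_nonneg μ h0 _)

private theorem ww_mul (u : ι ⊕ Sym2 ι) (f : V → ℝ) (g : (V → Fin (t + 1) → V) → ℝ) :
    ∑ ω, G.ww Z μ u ω * (f ω.1 * g ω.2) = (∑ a, G.av Z u a * f a) * ∑ y, G.qq μ y * g y := by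
  rw [sum_mul_sum, ← Fintype.sum_prod_type']
  refine sum_congr rfl fun ω _ => ?_
  unfold ww
  ring

private theorem ww_sum [Nonempty V] (h1 : ∀ x z, ∑ γ, μ x z γ = 1) (hv : 0 < G.vol univ)
    (hi : ∀ i, 0 < G.vol (univ.filter fun v => Z v = i)) (u : ι ⊕ Sym2 ι) : ∑ ω, G.ww Z μ u ω = 1 := by
  have h := G.ww_mul Z μ u (fun _ => 1) fun _ => 1
  simp only [mul_one] at h
  rw [h, G.av_sum Z hv hi u, G.qq_sum μ h1 hv, mul_one]

private theorem Pr_c [Nonempty V] (h1 : ∀ x z, ∑ γ, μ x z γ = 1) (hv : 0 < G.vol univ)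
    (hi : ∀ i, 0 < G.vol (univ.filter fun v => Z v = i)) (i : ι) (v : V) :
    Pr (G.ww Z μ) (fun x => (x (Sum.inl i)).1 = v) = G.pz Z i v := by
  unfold Pr
  rw [marg_one (G.ww_sum Z μ h1 hv hi) (Sum.inl i) fun ω => ind (ω.1 = v)]
  have h := G.ww_mul Z μ (Sum.inl i) (fun a => ind (a = v)) fun _ => 1
  simp only [mul_one] at h
  rw [h, G.qq_sum μ h1 hv, mul_one]
  show ∑ a, G.pz Z i a * ind (a = v) = _
  rw [sum_congr rfl fun a _ => mul_comm _ _]
  exact sum_ind v _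

private theorem Pr_y [Nonempty V] (h1 : ∀ x z, ∑ γ, μ x z γ = 1) (hv : 0 < G.vol univ)
    (hi : ∀ i, 0 < G.vol (univ.filter fun v => Z v = i)) (e : Sym2 ι) (a : V) (s : Fin (t + 1)) (v : V) :
    Pr (G.ww Z μ) (fun x => (x (Sum.inr e)).2 a s = v) = G.QQ μ a s v := by
  unfold Pr
  rw [marg_one (G.ww_sum Z μ h1 hv hi) (Sum.inr e) fun ω => ind (ω.2 a s = v)]
  have h := G.ww_mul Z μ (Sum.inr e) (fun _ => 1) fun y => ind (y a s = v)
  simp only [mul_one, one_mul] at h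
  rw [h, G.av_sum Z hv hi, one_mul]
  rfl

private theorem Pr_hw [Nonempty V] (h1 : ∀ x z, ∑ γ, μ x z γ = 1) (hv : 0 < G.vol univ)
    (hi : ∀ i, 0 < G.vol (univ.filter fun v => Z v = i)) (i j : ι) (s : Fin (t + 1)) (v : V) :
    Pr (G.ww Z μ) (fun x => hw x i j s = v) = G.LL Z μ i s v := by
  have e1 : Pr (G.ww Z μ) (fun x => hw x i j s = v) =
      Ex (G.ww Z μ) fun x => ∑ a, ind ((x (Sum.inl i)).1 = a) * ind ((x (Sum.inr s(i, j))).2 a s = v) := by
    unfold Pr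
    congr 1
    funext x
    rw [sum_congr rfl fun a _ => by rw [ind_congr (show (x (Sum.inl i)).1 = a ↔ a = (x (Sum.inl i)).1 from eq_comm)],
      sum_ind]
    rfl
  rw [e1, Ex_sum]
  unfold LL
  refine sum_congr rfl fun a _ => ?_
  rw [indep (G.ww_sum Z μ h1 hv hi) {Sum.inl i}
    (fun x : ι ⊕ Sym2 ι → V × (V → Fin (t + 1) → V) => ind ((x (Sum.inl i)).1 = a))
    (fun x => ind ((x (Sum.inr s(i, j))).2 a s = v))
    (fun x y h => by rw [h _ (mem_singleton_self _)])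
    (fun x y h => by rw [h (Sum.inr s(i, j)) (by simp)])]
  congr 1
  · exact G.Pr_c Z μ h1 hv hi i a
  · exact G.Pr_y Z μ h1 hv hi s(i, j) a s v

/-- two different half walks meet. -/
private theorem Pr_meet [Nonempty V] (h0 : ∀ x z γ, 0 ≤ μ x z γ) (h1 : ∀ x z, ∑ γ, μ x z γ = 1) (hv : 0 < G.vol univ)
    (hi : ∀ i, 0 < G.vol (univ.filter fun v => Z v = i)) (i j k l : ι) (hik : i ≠ k) (he : s(i, j) ≠ s(k, l)) :
    Pr (G.ww Z μ) (fun x => ∃ s s', hw x i j s = hw x k l s') ≤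
      ∑ s, ∑ s', ∑ v, G.LL Z μ i s v * G.LL Z μ k s' v := by
  have e1 : ∀ (s s' : Fin (t + 1)) (v : V), G.LL Z μ i s v * G.LL Z μ k s' v =
      Ex (G.ww Z μ) fun x => ind (hw x i j s = v) * ind (hw x k l s' = v) := by
    intro s s' v
    rw [indep (G.ww_sum Z μ h1 hv hi) {Sum.inl i, Sum.inr s(i, j)}
      (fun x : ι ⊕ Sym2 ι → V × (V → Fin (t + 1) → V) => ind (hw x i j s = v)) (fun x => ind (hw x k l s' = v))
      (fun x y h => by
        unfold hw
        rw [h (Sum.inl i) (by simp), h (Sum.inr s(i, j)) (by simp)])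
      (fun x y h => by
        unfold hw
        rw [h (Sum.inl k) (by simpa using hik.symm), h (Sum.inr s(k, l)) (by
          intro hm
          simp only [mem_insert, reduceCtorEq, mem_singleton, Sum.inr.injEq, false_or] at hm
          exact he hm.symm)])]
    rw [← G.Pr_hw Z μ h1 hv hi i j s v, ← G.Pr_hw Z μ h1 hv hi k l s' v]
    rfl
  have e2 : ∑ s, ∑ s', ∑ v, G.LL Z μ i s v * G.LL Z μ k s' v =
      Ex (G.ww Z μ) fun x => ∑ s, ∑ s', ∑ v, ind (hw x i j s = v) * ind (hw x k l s' = v) := by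
    rw [Ex_sum]
    refine sum_congr rfl fun s _ => ?_
    rw [Ex_sum]
    refine sum_congr rfl fun s' _ => ?_
    rw [Ex_sum]
    exact sum_congr rfl fun v _ => e1 s s' v
  rw [e2]
  refine Ex_mono (G.ww_nonneg Z μ h0) fun x => ?_
  have hn : ∀ s s', 0 ≤ ∑ v, ind (hw x i j s = v) * ind (hw x k l s' = v) := fun s s' =>
    sum_nonneg fun v _ => mul_nonneg (ind_nonneg _) (ind_nonneg _)
  by_cases h : ∃ s s', hw x i j s = hw x k l s'
  · rw [ind_true h]
    obtain ⟨s, s', h⟩ := h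
    calc (1 : ℝ) = ind (hw x i j s = hw x k l s') * ind (hw x k l s' = hw x k l s') := by
          rw [ind_true h, ind_true rfl, mul_one]
      _ ≤ ∑ v, ind (hw x i j s = v) * ind (hw x k l s' = v) :=
          single_le_sum (f := fun v => ind (hw x i j s = v) * ind (hw x k l s' = v))
            (fun v _ => mul_nonneg (ind_nonneg _) (ind_nonneg _)) (mem_univ (hw x k l s'))
      _ ≤ ∑ s', ∑ v, ind (hw x i j s = v) * ind (hw x k l s' = v) :=
          single_le_sum (f := fun s' => ∑ v, ind (hw x i j s = v) * ind (hw x k l s' = v))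
            (fun s' _ => hn s s') (mem_univ s')
      _ ≤ _ := single_le_sum (f := fun s => ∑ s', ∑ v, ind (hw x i j s = v) * ind (hw x k l s' = v))
            (fun s _ => sum_nonneg fun s' _ => hn s s') (mem_univ s)
  · rw [ind_false h]
    exact sum_nonneg fun s _ => sum_nonneg fun s' _ => hn s s'

/-- the half walk of `i` meets the start of `k`. -/
private theorem Pr_hit [Nonempty V] {H M : ℝ} (hH : 0 < H) (hZ : ∀ i, H ≤ G.vol (univ.filter fun v => Z v = i))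
    (hM : ∀ v, G.om v ≤ M) (h0 : ∀ x z γ, 0 ≤ μ x z γ) (h1 : ∀ x z, ∑ γ, μ x z γ = 1) (hv : 0 < G.vol univ)
    (i j k : ι) (hik : i ≠ k) :
    Pr (G.ww Z μ) (fun x => ∃ s, hw x i j s = (x (Sum.inl k)).1) ≤ (t + 1) * (M / H) := by
  have hi : ∀ i, 0 < G.vol (univ.filter fun v => Z v = i) := fun i => lt_of_lt_of_le hH (hZ i)
  have e1 : ∀ (s : Fin (t + 1)) (v : V), G.LL Z μ i s v * G.pz Z k v =
      Ex (G.ww Z μ) fun x => ind (hw x i j s = v) * ind ((x (Sum.inl k)).1 = v) := by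
    intro s v
    rw [indep (G.ww_sum Z μ h1 hv hi) {Sum.inl i, Sum.inr s(i, j)}
      (fun x : ι ⊕ Sym2 ι → V × (V → Fin (t + 1) → V) => ind (hw x i j s = v)) (fun x => ind ((x (Sum.inl k)).1 = v))
      (fun x y h => by
        unfold hw
        rw [h (Sum.inl i) (by simp), h (Sum.inr s(i, j)) (by simp)])
      (fun x y h => by
        rw [h (Sum.inl k) (by simpa using hik.symm)])]
    rw [← G.Pr_hw Z μ h1 hv hi i j s v, ← G.Pr_c Z μ h1 hv hi k v]
    rfl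
  have e2 : ∑ s, ∑ v, G.LL Z μ i s v * G.pz Z k v =
      Ex (G.ww Z μ) fun x => ∑ s, ∑ v, ind (hw x i j s = v) * ind ((x (Sum.inl k)).1 = v) := by
    rw [Ex_sum]
    refine sum_congr rfl fun s _ => ?_
    rw [Ex_sum]
    exact sum_congr rfl fun v _ => e1 s v
  have e3 : ∑ s, ∑ v, G.LL Z μ i s v * G.pz Z k v ≤ (t + 1) * (M / H) := by
    have e4 : ∀ s : Fin (t + 1), ∑ v, G.LL Z μ i s v * G.pz Z k v ≤ M / H := fun s => by
      calc ∑ v, G.LL Z μ i s v * G.pz Z k v ≤ ∑ v, G.LL Z μ i s v * (M / H) :=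
            sum_le_sum fun v _ => mul_le_mul_of_nonneg_left (G.pz_le Z hH hZ hM k v) (G.LL_nonneg Z μ h0 i s v)
        _ = M / H := by rw [← sum_mul, G.LL_sum Z μ h1 hv i (hi i) s, one_mul]
    refine (sum_le_sum fun s _ => e4 s).trans (le_of_eq ?_)
    rw [sum_const, card_univ, Fintype.card_fin, nsmul_eq_mul]
    push_cast
    ring
  refine le_trans ?_ e3
  rw [e2]
  refine Ex_mono (G.ww_nonneg Z μ h0) fun x => ?_
  have hn : ∀ s, 0 ≤ ∑ v, ind (hw x i j s = v) * ind ((x (Sum.inl k)).1 = v) := fun s =>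
    sum_nonneg fun v _ => mul_nonneg (ind_nonneg _) (ind_nonneg _)
  by_cases h : ∃ s, hw x i j s = (x (Sum.inl k)).1
  · rw [ind_true h]
    obtain ⟨s, h⟩ := h
    calc (1 : ℝ) = ind (hw x i j s = (x (Sum.inl k)).1) * ind ((x (Sum.inl k)).1 = (x (Sum.inl k)).1) := by
          rw [ind_true h, ind_true rfl, mul_one]
      _ ≤ ∑ v, ind (hw x i j s = v) * ind ((x (Sum.inl k)).1 = v) :=
          single_le_sum (f := fun v => ind (hw x i j s = v) * ind ((x (Sum.inl k)).1 = v))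
            (fun v _ => mul_nonneg (ind_nonneg _) (ind_nonneg _)) (mem_univ (x (Sum.inl k)).1)
      _ ≤ _ := single_le_sum (f := fun s => ∑ v, ind (hw x i j s = v) * ind ((x (Sum.inl k)).1 = v))
            (fun s _ => hn s) (mem_univ s)
  · rw [ind_false h]
    exact sum_nonneg fun s _ => hn s

/-- sum of the meeting bounds. -/
private theorem A_sum [Nonempty V] {H M : ℝ} (hH : 0 < H) (hZ : ∀ i, H ≤ G.vol (univ.filter fun v => Z v = i))
    (hcol : ∀ (s : Fin (t + 1)) (v : V), ∑ i, G.LL Z μ i s v ≤ 2 * M / H) (h0 : ∀ x z γ, 0 ≤ μ x z γ)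
    (h1 : ∀ x z, ∑ γ, μ x z γ = 1) (hv : 0 < G.vol univ) (i : ι) :
    ∑ k, ∑ s, ∑ s', ∑ v, G.LL Z μ i s v * G.LL Z μ k s' v ≤ (t + 1) ^ 2 * (2 * M / H) := by
  have hi : ∀ i, 0 < G.vol (univ.filter fun v => Z v = i) := fun i => lt_of_lt_of_le hH (hZ i)
  have e1 : ∀ s s' : Fin (t + 1), ∑ k, ∑ v, G.LL Z μ i s v * G.LL Z μ k s' v ≤ 2 * M / H := fun s s' => by
    rw [sum_comm]
    calc ∑ v, ∑ k, G.LL Z μ i s v * G.LL Z μ k s' v ≤ ∑ v, G.LL Z μ i s v * (2 * M / H) :=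
          sum_le_sum fun v _ => by
            rw [← mul_sum]
            exact mul_le_mul_of_nonneg_left (hcol s' v) (G.LL_nonneg Z μ h0 i s v)
      _ = 2 * M / H := by rw [← sum_mul, G.LL_sum Z μ h1 hv i (hi i) s, one_mul]
  rw [sum_comm]
  have e2 : ∀ s : Fin (t + 1), ∑ k, ∑ s', ∑ v, G.LL Z μ i s v * G.LL Z μ k s' v ≤ (t + 1) * (2 * M / H) := fun s => by
    rw [sum_comm]
    refine (sum_le_sum fun s' _ => e1 s s').trans (le_of_eq ?_)
    rw [sum_const, card_univ, Fintype.card_fin, nsmul_eq_mul]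
    push_cast
    ring
  refine (sum_le_sum fun s _ => e2 s).trans (le_of_eq ?_)
  rw [sum_const, card_univ, Fintype.card_fin, nsmul_eq_mul]
  push_cast
  ring

end

section

variable {ι : Type} [Fintype ι] [DecidableEq ι]

/-- the support of an event. -/
private def sp (e : (ι × ι) × (ι × ι)) : Finset (ι ⊕ Sym2 ι) :=
  {Sum.inl e.1.1, Sum.inr s(e.1.1, e.1.2), Sum.inl e.2.1, Sum.inr s(e.2.1, e.2.2)}

private noncomputable def tc (P : ι → ι → Prop) (u : ι ⊕ Sym2 ι) (h : ι × ι) : ℝ :=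
  ind (P h.1 h.2 ∧ (u = Sum.inl h.1 ∨ u = Sum.inr s(h.1, h.2)))

private theorem sum_ind_eq {α : Type} [Fintype α] [DecidableEq α] (v : α) : ∑ a : α, ind (a = v) = 1 := by
  rw [sum_eq_single v]
  · rw [ind_true rfl]
  · intro a _ ha
    rw [ind_false ha]
  · intro h
    exact absurd (mem_univ v) h

open Classical in
private theorem sum_ind_filter {α : Type} [Fintype α] (Q : α → Prop) : ∑ a : α, ind (Q a) = ((univ.filter fun a => Q a).card : ℝ) := by
  rw [← sum_boole]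
  exact sum_congr rfl fun a _ => by
    by_cases h : Q a
    · rw [ind_true h, if_pos h]
    · rw [ind_false h, if_neg h]

open Classical in
private theorem tc_sum (P : ι → ι → Prop) {deg : ℕ} (h1 : 1 ≤ deg)
    (hdeg : ∀ i, (univ.filter fun j => P i j).card ≤ deg) (u : ι ⊕ Sym2 ι) : ∑ h, tc P u h ≤ 2 * deg := by
  have hd : (1 : ℝ) ≤ deg := by exact_mod_cast h1
  rcases u with a | e
  · rw [Fintype.sum_prod_type, sum_eq_single a]
    · have e1 : ∀ j, tc P (Sum.inl a : ι ⊕ Sym2 ι) (a, j) = ind (P a j) := fun j => ind_congr (by simp)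
      rw [sum_congr rfl fun j _ => e1 j, sum_ind_filter]
      have : ((univ.filter fun j => P a j).card : ℝ) ≤ deg := by exact_mod_cast hdeg a
      linarith
    · intro i _ hi
      refine sum_eq_zero fun j _ => ind_false ?_
      rintro ⟨_, h | h⟩
      · exact hi (Sum.inl_injective h).symm
      · exact absurd h (by simp)
    · intro h
      exact absurd (mem_univ a) h
  · induction e using Sym2.ind with
    | _ a b =>
    have e1 : ∀ h : ι × ι, tc P (Sum.inr s(a, b) : ι ⊕ Sym2 ι) h ≤ ind (h = (a, b)) + ind (h = (b, a)) := by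
      intro h
      by_cases hq : P h.1 h.2 ∧ ((Sum.inr s(a, b) : ι ⊕ Sym2 ι) = Sum.inl h.1 ∨
          (Sum.inr s(a, b) : ι ⊕ Sym2 ι) = Sum.inr s(h.1, h.2))
      · have h2 := hq.2
        have e : tc P (Sum.inr s(a, b) : ι ⊕ Sym2 ι) h = 1 := ind_true hq
        rw [e]
        rcases h2 with h2 | h2
        · exact absurd h2 (by simp)
        · have h3 : s(a, b) = s(h.1, h.2) := Sum.inr_injective h2
          rw [Sym2.eq_iff] at h3
          rcases h3 with ⟨h3, h4⟩ | ⟨h3, h4⟩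
          · rw [ind_true (show h = (a, b) from Prod.ext h3.symm h4.symm)]
            linarith [ind_nonneg (h = (b, a))]
          · rw [ind_true (show h = (b, a) from Prod.ext h4.symm h3.symm)]
            linarith [ind_nonneg (h = (a, b))]
      · have e : tc P (Sum.inr s(a, b) : ι ⊕ Sym2 ι) h = 0 := ind_false hq
        rw [e]
        exact add_nonneg (ind_nonneg _) (ind_nonneg _)
    refine (sum_le_sum fun h _ => e1 h).trans ?_
    rw [sum_add_distrib, sum_ind_eq, sum_ind_eq]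
    linarith

open Classical in
private theorem row_sum (P : ι → ι → Prop) {deg : ℕ} (hdeg : ∀ i, (univ.filter fun j => P i j).card ≤ deg)
    (A : ι → ι → ℝ) (hA0 : ∀ i k, 0 ≤ A i k) {α β : ℝ} (hα : ∀ i, ∑ k, A i k ≤ α) (hβ : 0 ≤ β) (h : ι × ι) :
    ∑ h' : ι × ι, ind (P h'.1 h'.2) * (A h.1 h'.1 + ind (h' = h.swap) * β) ≤ deg * α + β := by
  have e1 : ∀ h' : ι × ι, ind (P h'.1 h'.2) * (A h.1 h'.1 + ind (h' = h.swap) * β) ≤
      ind (P h'.1 h'.2) * A h.1 h'.1 + ind (h' = h.swap) * β := fun h' => by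
    have h2 : 0 ≤ ind (h' = h.swap) * β := mul_nonneg (ind_nonneg _) hβ
    have h3 := mul_le_mul_of_nonneg_right (ind_le_one (P h'.1 h'.2)) h2
    rw [mul_add]
    linarith
  refine (sum_le_sum fun h' _ => e1 h').trans ?_
  rw [sum_add_distrib, ← sum_mul, sum_ind_eq, one_mul]
  have e2 : ∑ h' : ι × ι, ind (P h'.1 h'.2) * A h.1 h'.1 ≤ deg * α := by
    rw [Fintype.sum_prod_type]
    calc ∑ k, ∑ l, ind (P k l) * A h.1 k ≤ ∑ k, (deg : ℝ) * A h.1 k := sum_le_sum fun k _ => by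
          rw [← sum_mul, sum_ind_filter]
          exact mul_le_mul_of_nonneg_right (by exact_mod_cast hdeg k) (hA0 _ _)
      _ = deg * ∑ k, A h.1 k := by rw [mul_sum]
      _ ≤ deg * α := mul_le_mul_of_nonneg_left (hα _) (Nat.cast_nonneg _)
  linarith

open Classical in
private theorem cnt (P : ι → ι → Prop) {deg : ℕ} (h1 : 1 ≤ deg)
    (hdeg : ∀ i, (univ.filter fun j => P i j).card ≤ deg)
    (A : ι → ι → ℝ) (hA0 : ∀ i k, 0 ≤ A i k) (hAs : ∀ i k, A i k = A k i) {α β : ℝ} (hα : ∀ i, ∑ k, A i k ≤ α) (hα0 : 0 ≤ α)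
    (hβ : 0 ≤ β) (p : (ι × ι) × (ι × ι) → ℝ) (hp0 : ∀ e, 0 ≤ p e)
    (hp : ∀ e, p e ≤ ind (P e.1.1 e.1.2) * ind (P e.2.1 e.2.2) * (A e.1.1 e.2.1 + ind (e.2 = e.1.swap) * β))
    (u : ι ⊕ Sym2 ι) :
    ∑ e ∈ univ.filter (fun e => u ∈ sp e), (2 : ℝ) ^ ((sp e).card - 1) * p e ≤ 8 * (2 * (2 * deg * (deg * α + β))) := by
  have hpow : ∀ e : (ι × ι) × (ι × ι), (2 : ℝ) ^ ((sp e).card - 1) ≤ 8 := fun e => by
    have hc : (sp e).card ≤ 4 := card_le_four
    calc (2 : ℝ) ^ ((sp e).card - 1) ≤ 2 ^ 3 := pow_le_pow_right₀ (by norm_num) (by omega)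
      _ = 8 := by norm_num
  have hB : ∀ e : (ι × ι) × (ι × ι), 0 ≤ A e.1.1 e.2.1 + ind (e.2 = e.1.swap) * β := fun e =>
    add_nonneg (hA0 _ _) (mul_nonneg (ind_nonneg _) hβ)
  have hterm : ∀ e : (ι × ι) × (ι × ι), u ∈ sp e → p e ≤ tc P u e.1 *
      (ind (P e.2.1 e.2.2) * (A e.1.1 e.2.1 + ind (e.2 = e.1.swap) * β)) + tc P u e.2 *
      (ind (P e.1.1 e.1.2) * (A e.1.1 e.2.1 + ind (e.2 = e.1.swap) * β)) := by
    intro e he
    refine (hp e).trans ?_
    have hm : (u = Sum.inl e.1.1 ∨ u = Sum.inr s(e.1.1, e.1.2)) ∨ (u = Sum.inl e.2.1 ∨ u = Sum.inr s(e.2.1, e.2.2)) := by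
      unfold sp at he
      simp only [mem_insert, mem_singleton] at he
      tauto
    have n1 : 0 ≤ tc P u e.1 * (ind (P e.2.1 e.2.2) * (A e.1.1 e.2.1 + ind (e.2 = e.1.swap) * β)) :=
      mul_nonneg (ind_nonneg _) (mul_nonneg (ind_nonneg _) (hB e))
    have n2 : 0 ≤ tc P u e.2 * (ind (P e.1.1 e.1.2) * (A e.1.1 e.2.1 + ind (e.2 = e.1.swap) * β)) :=
      mul_nonneg (ind_nonneg _) (mul_nonneg (ind_nonneg _) (hB e))
    rcases hm with hm | hm
    · have e1 : tc P u e.1 = ind (P e.1.1 e.1.2) := ind_congr ⟨fun h => h.1, fun h => ⟨h, hm⟩⟩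
      have : ind (P e.1.1 e.1.2) * ind (P e.2.1 e.2.2) * (A e.1.1 e.2.1 + ind (e.2 = e.1.swap) * β) =
          tc P u e.1 * (ind (P e.2.1 e.2.2) * (A e.1.1 e.2.1 + ind (e.2 = e.1.swap) * β)) := by
        rw [e1]
        ring
      rw [this]
      linarith
    · have e1 : tc P u e.2 = ind (P e.2.1 e.2.2) := ind_congr ⟨fun h => h.1, fun h => ⟨h, hm⟩⟩
      have : ind (P e.1.1 e.1.2) * ind (P e.2.1 e.2.2) * (A e.1.1 e.2.1 + ind (e.2 = e.1.swap) * β) =
          tc P u e.2 * (ind (P e.1.1 e.1.2) * (A e.1.1 e.2.1 + ind (e.2 = e.1.swap) * β)) := by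
        rw [e1]
        ring
      rw [this]
      linarith
  have hn : ∀ e : (ι × ι) × (ι × ι), 0 ≤ tc P u e.1 *
      (ind (P e.2.1 e.2.2) * (A e.1.1 e.2.1 + ind (e.2 = e.1.swap) * β)) + tc P u e.2 *
      (ind (P e.1.1 e.1.2) * (A e.1.1 e.2.1 + ind (e.2 = e.1.swap) * β)) := fun e =>
    add_nonneg (mul_nonneg (ind_nonneg _) (mul_nonneg (ind_nonneg _) (hB e)))
      (mul_nonneg (ind_nonneg _) (mul_nonneg (ind_nonneg _) (hB e)))
  have s1 : ∑ e ∈ univ.filter (fun e => u ∈ sp e), (2 : ℝ) ^ ((sp e).card - 1) * p e ≤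
      ∑ e : (ι × ι) × (ι × ι), 8 * (tc P u e.1 *
      (ind (P e.2.1 e.2.2) * (A e.1.1 e.2.1 + ind (e.2 = e.1.swap) * β)) + tc P u e.2 *
      (ind (P e.1.1 e.1.2) * (A e.1.1 e.2.1 + ind (e.2 = e.1.swap) * β))) := by
    refine (sum_le_sum fun e he => ?_).trans
      (sum_le_sum_of_subset_of_nonneg (filter_subset _ _) fun e _ _ => mul_nonneg (by norm_num) (hn e))
    exact mul_le_mul (hpow e) (hterm e (mem_filter.1 he).2) (hp0 e) (by norm_num)
  refine s1.trans ?_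
  rw [← mul_sum]
  refine mul_le_mul_of_nonneg_left ?_ (by norm_num)
  rw [sum_add_distrib]
  have hR : 0 ≤ (deg : ℝ) * α + β := add_nonneg (mul_nonneg (Nat.cast_nonneg _) hα0) hβ
  have hT := tc_sum P h1 hdeg u
  have s2 : ∑ e : (ι × ι) × (ι × ι), tc P u e.1 *
      (ind (P e.2.1 e.2.2) * (A e.1.1 e.2.1 + ind (e.2 = e.1.swap) * β)) ≤ 2 * deg * (deg * α + β) := by
    rw [Fintype.sum_prod_type]
    calc ∑ h : ι × ι, ∑ h' : ι × ι, tc P u h * (ind (P h'.1 h'.2) * (A h.1 h'.1 + ind (h' = h.swap) * β))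
        ≤ ∑ h : ι × ι, tc P u h * (deg * α + β) := sum_le_sum fun h _ => by
          rw [← mul_sum]
          exact mul_le_mul_of_nonneg_left (row_sum P hdeg A hA0 hα hβ h) (ind_nonneg _)
      _ = (∑ h : ι × ι, tc P u h) * (deg * α + β) := by rw [sum_mul]
      _ ≤ _ := mul_le_mul_of_nonneg_right hT hR
  have s3 : ∑ e : (ι × ι) × (ι × ι), tc P u e.2 *
      (ind (P e.1.1 e.1.2) * (A e.1.1 e.2.1 + ind (e.2 = e.1.swap) * β)) ≤ 2 * deg * (deg * α + β) := by
    rw [Fintype.sum_prod_type_right]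
    calc ∑ h' : ι × ι, ∑ h : ι × ι, tc P u h' * (ind (P h.1 h.2) * (A h.1 h'.1 + ind (h' = h.swap) * β))
        = ∑ h' : ι × ι, ∑ h : ι × ι, tc P u h' * (ind (P h.1 h.2) * (A h'.1 h.1 + ind (h = h'.swap) * β)) := by
          refine sum_congr rfl fun h' _ => sum_congr rfl fun h _ => ?_
          rw [hAs h.1 h'.1, ind_congr (show h' = h.swap ↔ h = h'.swap from
            ⟨fun e => by rw [e, Prod.swap_swap], fun e => by rw [e, Prod.swap_swap]⟩)]
      _ ≤ ∑ h' : ι × ι, tc P u h' * (deg * α + β) := sum_le_sum fun h' _ => by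
          rw [← mul_sum]
          exact mul_le_mul_of_nonneg_left (row_sum P hdeg A hA0 hα hβ h') (ind_nonneg _)
      _ = (∑ h' : ι × ι, tc P u h') * (deg * α + β) := by rw [sum_mul]
      _ ≤ _ := mul_le_mul_of_nonneg_right hT hR
  linarith

end

open Classical in
theorem embed [Nonempty V] {ι : Type} [Fintype ι] [DecidableEq ι] (P : ι → ι → Prop) (hsym : ∀ i j, P i j → P j i)
    (hirr : ∀ i, ¬ P i i) {deg : ℕ} (hlow : ∀ i, ∃ j, P i j) (hdeg : ∀ i, (univ.filter fun j => P i j).card ≤ deg)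
    (Z : V → ι) {H M : ℝ} (hM : ∀ v, G.om v ≤ M) (hpos : ∀ v, 0 < G.om v)
    (hZ : ∀ i, H ≤ G.vol (univ.filter fun v => Z v = i)) {t : ℕ}
    (hH : 10 ^ 4 * (deg : ℝ) ^ 2 * (t + 1) ^ 2 * M ≤ H)
    (μ : V → V → (Fin (t + 1) → V) → ℝ) (h0 : ∀ x z γ, 0 ≤ μ x z γ) (h1 : ∀ x z, ∑ γ, μ x z γ = 1)
    (h2 : ∀ x z γ, μ x z γ ≠ 0 → γ 0 = x ∧ γ (Fin.last t) = z ∧
        ∀ i : Fin t, γ i.castSucc = γ i.succ ∨ G.Adj (γ i.castSucc) (γ i.succ))
    (h3 : ∀ (s : Fin (t + 1)) (v : V),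
        ∑ x, ∑ z, G.pi x * G.pi z * ∑ γ ∈ univ.filter (fun γ => γ s = v), μ x z γ ≤ 2 * G.pi v) :
    ∃ C : V → Option ι,
      (∀ i, G.Conn (univ.filter fun v => C v = some i)) ∧
      (∀ i, (univ.filter fun v => C v = some i).card ≤ deg * (t + 1)) ∧
      (∀ i, ∃ v, C v = some i ∧ Z v = i) ∧
      ∀ i j, P i j → ∃ x y, C x = some i ∧ C y = some j ∧ G.Adj x y := by
  rcases isEmpty_or_nonempty ι with hι | ⟨⟨i0⟩⟩
  · exact ⟨fun _ => none, fun i => (hι.false i).elim, fun i => (hι.false i).elim, fun i => (hι.false i).elim,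
      fun i => (hι.false i).elim⟩
  obtain ⟨v0⟩ : Nonempty V := inferInstance
  have hM0 : 0 < M := lt_of_lt_of_le (hpos v0) (hM v0)
  have hd1 : 1 ≤ deg := by
    obtain ⟨j, hj⟩ := hlow i0
    exact le_trans (card_pos.2 ⟨j, mem_filter.2 ⟨mem_univ j, hj⟩⟩) (hdeg i0)
  have hdR : (1 : ℝ) ≤ deg := by exact_mod_cast hd1
  have htR : (1 : ℝ) ≤ (t : ℝ) + 1 := by linarith [(Nat.cast_nonneg t : (0 : ℝ) ≤ t)]
  have hH0 : 0 < H := lt_of_lt_of_le (by positivity) hH
  have hi : ∀ i, 0 < G.vol (univ.filter fun v => Z v = i) := fun i => lt_of_lt_of_le hH0 (hZ i)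
  have hv : 0 < G.vol univ := sum_pos (fun v _ => hpos v) ⟨v0, mem_univ v0⟩
  have hMH : 0 ≤ M / H := div_nonneg hM0.le hH0.le
  have hcol := G.LL_col Z μ hH0 hZ hM hv h0 h1 h3
  have hβ : 0 ≤ ((t : ℝ) + 1) * (M / H) := mul_nonneg (by linarith) hMH
  obtain ⟨A, hA⟩ : ∃ A : ι → ι → ℝ, ∀ i k, A i k = ∑ s, ∑ s', ∑ v, G.LL Z μ i s v * G.LL Z μ k s' v :=
    ⟨_, fun _ _ => rfl⟩
  have hA0 : ∀ i k, 0 ≤ A i k := fun i k => by
    rw [hA]
    exact sum_nonneg fun s _ => sum_nonneg fun s' _ => sum_nonneg fun v _ =>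
      mul_nonneg (G.LL_nonneg Z μ h0 i s v) (G.LL_nonneg Z μ h0 k s' v)
  have hAs : ∀ i k, A i k = A k i := fun i k => by
    rw [hA, hA, sum_comm]
    exact sum_congr rfl fun s _ => sum_congr rfl fun s' _ => sum_congr rfl fun v _ => mul_comm _ _
  have hα : ∀ i, ∑ k, A i k ≤ ((t : ℝ) + 1) ^ 2 * (2 * M / H) := fun i => by
    rw [sum_congr rfl fun k _ => hA i k]
    exact G.A_sum Z μ hH0 hZ hcol h0 h1 hv i
  have hα0 : 0 ≤ ((t : ℝ) + 1) ^ 2 * (2 * M / H) :=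
    mul_nonneg (by positivity) (div_nonneg (by linarith) hH0.le)
  obtain ⟨Bad, hBad⟩ : ∃ Bad : (ι × ι) × (ι × ι) → (ι ⊕ Sym2 ι → V × (V → Fin (t + 1) → V)) → Prop,
      ∀ e x, Bad e x ↔ P e.1.1 e.1.2 ∧ P e.2.1 e.2.2 ∧ e.1.1 ≠ e.2.1 ∧
        ((s(e.1.1, e.1.2) ≠ s(e.2.1, e.2.2) ∧ ∃ s s', hw x e.1.1 e.1.2 s = hw x e.2.1 e.2.2 s') ∨
          (s(e.1.1, e.1.2) = s(e.2.1, e.2.2) ∧ ∃ s, hw x e.1.1 e.1.2 s = (x (Sum.inl e.2.1)).1)) :=
    ⟨_, fun _ _ => Iff.rfl⟩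
  have hdep : ∀ e x y, (∀ v ∈ sp e, x v = y v) → Bad e x → Bad e y := by
    intro e x y hxy hb
    rw [hBad] at hb ⊢
    have a1 := hxy (Sum.inl e.1.1) (by simp [sp])
    have a2 := hxy (Sum.inr s(e.1.1, e.1.2)) (by simp [sp])
    have a3 := hxy (Sum.inl e.2.1) (by simp [sp])
    have a4 := hxy (Sum.inr s(e.2.1, e.2.2)) (by simp [sp])
    unfold hw at hb ⊢
    rw [a1, a2, a3, a4] at hb
    exact hb
  have hPr : ∀ e, Pr (G.ww Z μ) (Bad e) ≤ ind (P e.1.1 e.1.2) * ind (P e.2.1 e.2.2) *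
      (A e.1.1 e.2.1 + ind (e.2 = e.1.swap) * (((t : ℝ) + 1) * (M / H))) := by
    rintro ⟨⟨i, j⟩, k, l⟩
    show Pr (G.ww Z μ) (Bad ((i, j), k, l)) ≤ ind (P i j) * ind (P k l) *
      (A i k + ind ((k, l) = (j, i)) * (((t : ℝ) + 1) * (M / H)))
    have hz : ∀ B : (ι ⊕ Sym2 ι → V × (V → Fin (t + 1) → V)) → Prop, (∀ x, ¬ B x) → Pr (G.ww Z μ) B = 0 := fun B hB =>
      sum_eq_zero fun x _ => by
        show W (G.ww Z μ) x * ind (B x) = 0
        rw [ind_false (hB x), mul_zero]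
    have hR : 0 ≤ ind (P i j) * ind (P k l) *
        (A i k + ind ((k, l) = (j, i)) * (((t : ℝ) + 1) * (M / H))) :=
      mul_nonneg (mul_nonneg (ind_nonneg _) (ind_nonneg _)) (add_nonneg (hA0 _ _) (mul_nonneg (ind_nonneg _) hβ))
    by_cases c1 : P i j
    swap
    · rw [hz _ fun x hb => c1 ((hBad _ _).1 hb).1]
      exact hR
    by_cases c2 : P k l
    swap
    · rw [hz _ fun x hb => c2 ((hBad _ _).1 hb).2.1]
      exact hR
    by_cases c3 : i = k
    · rw [hz _ fun x hb => ((hBad _ _).1 hb).2.2.1 c3]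
      exact hR
    rw [ind_true c1, ind_true c2, one_mul, one_mul]
    by_cases c4 : s(i, j) = s(k, l)
    · have c5 : (k, l) = (j, i) := by
        rw [Sym2.eq_iff] at c4
        rcases c4 with ⟨h, _⟩ | ⟨h, h'⟩
        · exact absurd h c3
        · rw [h, h']
      rw [ind_true c5, one_mul]
      have e1 : Pr (G.ww Z μ) (Bad ((i, j), k, l)) ≤ Pr (G.ww Z μ) (fun x => ∃ s, hw x i j s = (x (Sum.inl k)).1) :=
        Ex_mono (G.ww_nonneg Z μ h0) fun x => ind_mono fun hb => by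
          rcases ((hBad _ _).1 hb).2.2.2 with h | h
          · exact absurd c4 h.1
          · exact h.2
      have e2 := G.Pr_hit Z μ hH0 hZ hM h0 h1 hv i j k c3
      linarith [hA0 i k]
    · have e1 : Pr (G.ww Z μ) (Bad ((i, j), k, l)) ≤ Pr (G.ww Z μ) (fun x => ∃ s s', hw x i j s = hw x k l s') :=
        Ex_mono (G.ww_nonneg Z μ h0) fun x => ind_mono fun hb => by
          rcases ((hBad _ _).1 hb).2.2.2 with h | h
          · exact h.2
          · exact absurd h.1 c4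
      have e2 := G.Pr_meet Z μ h0 h1 hv hi i j k l c3 c4
      have e3 : 0 ≤ ind ((k, l) = (j, i)) * (((t : ℝ) + 1) * (M / H)) := mul_nonneg (ind_nonneg _) hβ
      rw [← hA] at e2
      linarith
  have hE : ∀ u, ∑ e ∈ univ.filter (fun e : (ι × ι) × (ι × ι) => u ∈ sp e),
      (2 : ℝ) ^ ((sp e).card - 1) * Pr (G.ww Z μ) (Bad e) ≤ 1 / 2 := by
    intro u
    refine (cnt P hd1 hdeg A hA0 hAs hα hα0 hβ (fun e => Pr (G.ww Z μ) (Bad e))
      (fun e => Ex_nonneg (G.ww_nonneg Z μ h0) fun x => ind_nonneg _) hPr u).trans ?_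
    have hMH2 : (deg : ℝ) ^ 2 * ((t : ℝ) + 1) ^ 2 * (M / H) ≤ 1 / 10 ^ 4 := by
      rw [le_div_iff₀ (by norm_num : (0 : ℝ) < 10 ^ 4), ← mul_div_assoc, div_mul_eq_mul_div, div_le_one hH0]
      linarith
    have e1 : (deg : ℝ) * ((t : ℝ) + 1) ≤ (deg : ℝ) ^ 2 * ((t : ℝ) + 1) ^ 2 := by
      have : (1 : ℝ) ≤ deg * ((t : ℝ) + 1) := one_le_mul_of_one_le_of_one_le hdR htR
      nlinarith
    have e2 := mul_le_mul_of_nonneg_right e1 hMH
    have e3 : 8 * (2 * (2 * (deg : ℝ) * (deg * (((t : ℝ) + 1) ^ 2 * (2 * M / H)) + ((t : ℝ) + 1) * (M / H)))) =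
        64 * ((deg : ℝ) ^ 2 * ((t : ℝ) + 1) ^ 2 * (M / H)) + 32 * ((deg : ℝ) * ((t : ℝ) + 1) * (M / H)) := by
      ring
    rw [e3]
    linarith
  obtain ⟨x, hx, hgood⟩ := wlll (G.ww Z μ) (G.ww_nonneg Z μ h0) (G.ww_sum Z μ h1 hv hi) sp
    (fun e => ⟨Sum.inl e.1.1, by simp [sp]⟩) Bad hdep hE
  have hcZ : ∀ i, Z (x (Sum.inl i)).1 = i := by
    intro i
    by_contra hne
    refine hx (Sum.inl i) ?_
    show G.pz Z i (x (Sum.inl i)).1 * _ = 0
    unfold pz
    rw [ind_false hne, zero_mul, zero_mul]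
  have hy : ∀ e : Sym2 ι, ∃ z, ∀ a, μ a z ((x (Sum.inr e)).2 a) ≠ 0 := by
    intro e
    have hq : G.qq μ (x (Sum.inr e)).2 ≠ 0 := fun h => hx (Sum.inr e) (by
      show _ * G.qq μ (x (Sum.inr e)).2 = 0
      rw [h, mul_zero])
    obtain ⟨z, _, hz⟩ := exists_ne_zero_of_sum_ne_zero hq
    exact ⟨z, fun a ha => hz (by
      have : W (fun b => μ b z) (x (Sum.inr e)).2 = 0 := prod_eq_zero (mem_univ a) ha
      rw [this, mul_zero])⟩
  refine G.cutting P hsym hirr hlow hdeg Z (fun i => (x (Sum.inl i)).1) hcZ (fun i j => hw x i j) ?_ ?_ ?_ ?_ ?_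
  · intro i j _
    obtain ⟨z, hz⟩ := hy s(i, j)
    exact (h2 _ _ _ (hz (x (Sum.inl i)).1)).1
  · intro i j _
    obtain ⟨z, hz⟩ := hy s(i, j)
    have a1 := (h2 _ _ _ (hz (x (Sum.inl i)).1)).2.1
    have a2 := (h2 _ _ _ (hz (x (Sum.inl j)).1)).2.1
    show (x (Sum.inr s(i, j))).2 (x (Sum.inl i)).1 (Fin.last t) = (x (Sum.inr s(j, i))).2 (x (Sum.inl j)).1 (Fin.last t)
    rw [Sym2.eq_swap (a := j) (b := i), a1, a2]
  · intro i j _
    obtain ⟨z, hz⟩ := hy s(i, j)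
    exact (h2 _ _ _ (hz (x (Sum.inl i)).1)).2.2
  · intro i j k l hij hkl hik hne s s' h
    exact hgood ((i, j), k, l) ((hBad _ _).2 ⟨hij, hkl, hik, Or.inl ⟨hne, s, s', h⟩⟩)
  · intro i j hij s h
    have hne : i ≠ j := fun h' => hirr i (by rw [← h'] at hij; exact hij)
    exact hgood ((i, j), j, i) ((hBad _ _).2 ⟨hij, hsym i j hij, hne, Or.inr ⟨Sym2.eq_swap, s, h⟩⟩)

end WG

end Pool.Agent.GW
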