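import Pool.Agent.GW.ExU

/-!
# GW/Ex: expansion of a state, every letter `d` is replaced by a block of `k d` letters

PROOF of `U_ex`.  First `U_len`: induction on `U` (`dbl`, `sub` do not make words shorter and keep a live letter; `ghost` keeps lengths).
`U_ex`: induction on `U L S` for all `k` with `k d = 1` for dead `d`.  `done`: clear.  `glue b`: `glueSet_U` for the block of all letters of the two words
(at most `2 δ L` live letters) glues the pairs of the blocks `b`, `a b`; in the result `(b, 0)` and `(a b, 0)` are in the words as dead letters and the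
other letters of the two blocks are dead and form cycles of their own: `U_ext` from `ex (S.glue b) k'`, `k' b = k' (a b) = 1`.
`dbl e`: `cover_U` with `G` = the block of `e`, all joins inside the block; isomorphic to `ex (S.dbl e) k'` (new letters `k e`).  `sub b`: the move `sub` of the
last letter of the block of `b` (new letters `k' = 1`).  `vtx p q`: the move `vtx` with `(p, 0)`, `(q, 0)`.  `ghost g`: the move `ghost` for `(g, 0)`.
-/

set_option autoImplicit false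

namespace Pool.Agent.GW

open Equiv Pool.Agent.SWP

/-- equality of letters of the expansion -/
theorem ex_eq {D : Type} {k : D → ℕ} {d e : D} {i j : ℕ} (hd : d = e) (hi : i = j) (h : i < k d) (h' : j < k e) :
    (⟨d, ⟨i, h⟩⟩ : Σ d : D, Fin (k d)) = ⟨e, ⟨j, h'⟩⟩ := by
  subst hd; subst hi; rfl

section
variable {D : Type} (r : Perm D) (k : D → ℕ) (hk : ∀ d, 0 < k d)

/-- next letter in the expansion -/
def exF (x : Σ d : D, Fin (k d)) : Σ d : D, Fin (k d) :=
  if h : x.2.1 + 1 < k x.1 then ⟨x.1, ⟨x.2.1 + 1, h⟩⟩ else ⟨r x.1, ⟨0, hk _⟩⟩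

/-- previous letter in the expansion -/
def exG (x : Σ d : D, Fin (k d)) : Σ d : D, Fin (k d) :=
  if x.2.1 = 0 then ⟨r.symm x.1, ⟨k (r.symm x.1) - 1, Nat.sub_lt (hk _) Nat.one_pos⟩⟩
  else ⟨x.1, ⟨x.2.1 - 1, lt_of_le_of_lt (Nat.sub_le _ _) x.2.2⟩⟩

theorem exF_lt {d : D} {i : ℕ} (hi : i < k d) (h : i + 1 < k d) : exF r k hk ⟨d, ⟨i, hi⟩⟩ = ⟨d, ⟨i + 1, h⟩⟩ := by
  unfold exF; rw [dif_pos h]

theorem exF_last {d : D} {i : ℕ} (hi : i < k d) (h : ¬ i + 1 < k d) :
    exF r k hk ⟨d, ⟨i, hi⟩⟩ = ⟨r d, ⟨0, hk _⟩⟩ := by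
  unfold exF; rw [dif_neg h]

theorem exG_zero {d : D} (hi : 0 < k d) :
    exG r k hk ⟨d, ⟨0, hi⟩⟩ = ⟨r.symm d, ⟨k (r.symm d) - 1, Nat.sub_lt (hk _) Nat.one_pos⟩⟩ := by
  unfold exG; rw [if_pos rfl]

theorem exG_pos {d : D} {i : ℕ} (hi : i < k d) (h : i ≠ 0) :
    exG r k hk ⟨d, ⟨i, hi⟩⟩ = ⟨d, ⟨i - 1, lt_of_le_of_lt (Nat.sub_le _ _) hi⟩⟩ := by
  unfold exG; rw [if_neg h]

theorem exG_exF (x : Σ d : D, Fin (k d)) : exG r k hk (exF r k hk x) = x := by
  obtain ⟨d, i, hi⟩ := x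
  by_cases h : i + 1 < k d
  · rw [exF_lt r k hk hi h, exG_pos r k hk h (by omega)]
    exact ex_eq rfl (by omega) _ _
  · rw [exF_last r k hk hi h, exG_zero]
    refine ex_eq (r.symm_apply_apply d) ?_ _ _
    rw [r.symm_apply_apply]; omega

theorem exF_exG (x : Σ d : D, Fin (k d)) : exF r k hk (exG r k hk x) = x := by
  obtain ⟨d, i, hi⟩ := x
  by_cases h : i = 0
  · subst h
    rw [exG_zero, exF_last]
    · exact ex_eq (r.apply_symm_apply d) rfl _ _
    · have := hk (r.symm d); omega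
  · rw [exG_pos r k hk hi h, exF_lt r k hk _ (by omega)]
    exact ex_eq rfl (by omega) _ _

/-- the permutation `r` of the expansion -/
def exR : Perm (Σ d : D, Fin (k d)) where
  toFun := exF r k hk
  invFun := exG r k hk
  left_inv := exG_exF r k hk
  right_inv := exF_exG r k hk

end

/-- partner map of the expansion: the blocks of `d` and `a d` are glued in reversed order -/
noncomputable def exA (S : Sf) (k : S.D → ℕ) (ha : ∀ d, k (S.a d) = k d) (x : Σ d : S.D, Fin (k d)) :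
    Σ d : S.D, Fin (k d) :=
  @ite _ (S.a x.1 = x.1) (Classical.propDecidable _) x
    ⟨S.a x.1, ⟨k x.1 - 1 - x.2.1, by have := x.2.2; rw [ha]; omega⟩⟩

theorem exA_dead (S : Sf) (k : S.D → ℕ) (ha : ∀ d, k (S.a d) = k d) (x : Σ d : S.D, Fin (k d)) (h : S.a x.1 = x.1) :
    exA S k ha x = x := by
  unfold exA; rw [if_pos h]

theorem exA_live (S : Sf) (k : S.D → ℕ) (ha : ∀ d, k (S.a d) = k d) (d : S.D) (i : ℕ) (hi : i < k d) (h : S.a d ≠ d) :
    exA S k ha ⟨d, ⟨i, hi⟩⟩ = ⟨S.a d, ⟨k d - 1 - i, by rw [ha]; omega⟩⟩ := by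
  unfold exA; rw [if_neg h]

theorem exA_inv (S : Sf) (k : S.D → ℕ) (ha : ∀ d, k (S.a d) = k d) : Function.Involutive (exA S k ha) := by
  rintro ⟨d, i, hi⟩
  by_cases h : S.a d = d
  · have h1 := exA_dead S k ha ⟨d, ⟨i, hi⟩⟩ h
    rw [h1, h1]
  · have h2 : S.a (S.a d) ≠ S.a d := by rw [S.aa]; exact fun h' => h h'.symm
    rw [exA_live S k ha d i hi h, exA_live S k ha _ _ _ h2]
    refine ex_eq (S.aa d) ?_ _ _
    rw [ha]; omega

/-- the expansion -/
noncomputable def ex (S : Sf) (k : S.D → ℕ) (hk : ∀ d, 0 < k d) (ha : ∀ d, k (S.a d) = k d) : Sf where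
  D := Σ d : S.D, Fin (k d)
  fD := inferInstance
  r := exR S.r k hk
  a := (exA_inv S k ha).toPerm
  aa := exA_inv S k ha

theorem U_len {L : ℕ} {S : Sf} (h : U L S) : (∀ d, S.a d = d) ∨ ∀ d, S.len d ≤ L :=
  Or.inr (U_len_le h)

theorem U_ex {L δ : ℕ} {S : Sf} (h : U L S) : ∀ (k : S.D → ℕ) (hk : ∀ d, 0 < k d) (ha : ∀ d, k (S.a d) = k d),
    (∀ d, k d ≤ δ) → (∀ d, S.a d = d → k d = 1) → U (2 * δ * L) (ex S k hk ha) := by
  intro k hk ha hδ hdead
  have hj : ∀ (d : S.D) (i : ℕ), i < k d → ∀ h0, (⟨d, ⟨min i (k d - 1), h0⟩⟩ : Σ d : S.D, Fin (k d)) =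
      if h : i < k d then ⟨d, ⟨i, h⟩⟩ else ⟨d, ⟨0, hk d⟩⟩ := by
    intro d i hi h0
    rw [dif_pos hi]
    exact ex_eq rfl (by omega) _ _
  refine U_exp h δ (T := ex S k hk ha) (k := k)
    (j := fun d i => if h : i < k d then ⟨d, ⟨i, h⟩⟩ else ⟨d, ⟨0, hk d⟩⟩) ⟨hk, ha, hdead, ?_, ?_, ?_, ?_, ?_⟩ hδ
  · intro d i e l hi hl heq
    rw [dif_pos hi, dif_pos hl] at heq
    cases heq
    exact ⟨rfl, rfl⟩
  · intro d i hi
    rw [dif_pos (by omega : i < k d), dif_pos hi]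
    exact exF_lt S.r k hk _ hi
  · intro d
    have := hk d
    rw [dif_pos (by omega : k d - 1 < k d), dif_pos (hk _)]
    exact exF_last S.r k hk _ (by omega)
  · intro d i hi
    have hka := ha d
    rw [dif_pos hi, dif_pos (by omega : k d - 1 - i < k (S.a d))]
    by_cases hd : S.a d = d
    · have h1 := hdead d hd
      have h2 : exA S k ha ⟨d, ⟨i, hi⟩⟩ = ⟨d, ⟨i, hi⟩⟩ := exA_dead S k ha _ hd
      show exA S k ha ⟨d, ⟨i, hi⟩⟩ = _
      rw [h2]
      exact ex_eq hd.symm (by omega) _ _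
    · exact exA_live S k ha d i hi hd
  · rintro ⟨d, i, hi⟩ he
    exact absurd (dif_pos hi) (he d i hi)

end Pool.Agent.GW
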