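import Pool.Agent.GW.UBas
import Pool.Agent.GW.Cover

/-!
# GW/ExDef (helper92): expansions, first return, lengths of the words (MP_37d33d_gt, genus version)

* `Exp S T k j`: `T` is the state `S` in which every letter `d` is replaced by the block `j d 0, .., j d (k d - 1)`
  (together with words of dead letters).
* `U_len_le`: all words of a state with `U L` have at most `L` live letters.
* `Nxr S d e`: `e` is reached from `d` under `r`, all letters in between are dead.
* `purge_nx`: `purge` with the first return map.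
-/

set_option autoImplicit false

namespace Pool.Agent.GW

open Equiv Pool.Agent.SWP

/-- the permutations `R`, `A` are `r`, `a` with every letter `d` replaced by a block of `k d` letters; the other letters
are dead -/
structure ExpP {D E : Type} (r a : Perm D) (R A : Perm E) (k : D → ℕ) (j : D → ℕ → E) : Prop where
  pos : ∀ d, 0 < k d
  ka : ∀ d, k (a d) = k d
  dead : ∀ d, a d = d → k d = 1
  inj : ∀ d i e l, i < k d → l < k e → j d i = j e l → d = e ∧ i = l
  rn : ∀ d i, i + 1 < k d → R (j d i) = j d (i + 1)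
  rl : ∀ d, R (j d (k d - 1)) = j (r d) 0
  a : ∀ d i, i < k d → A (j d i) = j (a d) (k d - 1 - i)
  out : ∀ e, (∀ d i, i < k d → j d i ≠ e) → A e = e

/-- `T` is `S` with every letter `d` replaced by a block of `k d` letters; the other letters of `T` are dead. -/
def Exp (S T : Sf) (k : S.D → ℕ) (j : S.D → ℕ → T.D) : Prop := ExpP S.r S.a T.r T.a k j

/-! ## lengths -/

/-- an injection of the letters which respects words and live letters -/
theorem len_le_of_map {S T : Sf} (f : S.D → T.D) (hf : Function.Injective f)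
    (hr : ∀ d, S.a d ≠ d → ∀ e, S.a e ≠ e → S.r.SameCycle d e → T.r.SameCycle (f d) (f e))
    (ha : ∀ d, S.a d ≠ d → T.a (f d) ≠ f d) {L : ℕ} (hL : ∀ d, T.len d ≤ L) (d : S.D) : S.len d ≤ L := by
  by_cases hex : ∃ e, S.r.SameCycle d e ∧ S.a e ≠ e
  · obtain ⟨e, hde, he⟩ := hex
    have h1 : S.len d = S.len e := len_same S hde
    rw [h1]
    refine le_trans ?_ (hL (f e))
    unfold Sf.len Sf.num
    rw [← Set.ncard_image_of_injective _ hf]
    refine Set.ncard_le_ncard ?_ (Set.toFinite _)
    rintro _ ⟨x, ⟨hx1, hx2⟩, rfl⟩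
    exact ⟨hr e he x hx2 hx1, ha x hx2⟩
  · have h0 : S.len d = 0 := by
      unfold Sf.len Sf.num
      rw [Set.ncard_eq_zero (Set.toFinite _)]
      ext e
      refine ⟨fun h => hex ⟨e, h.1, h.2⟩, fun h => h.elim⟩
    omega

theorem sameCycle_map {α β : Type} {s : Perm α} {t : Perm β} {f : α → β} (h : ∀ d, t.SameCycle (f d) (f (s d)))
    [Finite α] {x y : α} (hxy : s.SameCycle x y) : t.SameCycle (f x) (f y) := by
  refine mem_of_same (s := s) (Z := {z | t.SameCycle (f x) (f z)}) (fun z hz => ?_) (Perm.SameCycle.refl _ _) hxy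
  exact Perm.SameCycle.trans hz (h z)

/-- position of a letter after doubling `e` -/
noncomputable def exP {D : Type} (e x : D) : D ⊕ Bool := open Classical in if x = e then Sum.inr false else Sum.inl x

theorem exP_self {D : Type} (e : D) : exP e e = Sum.inr false := by unfold exP; rw [if_pos rfl]

theorem exP_ne {D : Type} {e x : D} (h : x ≠ e) : exP e x = Sum.inl x := by unfold exP; rw [if_neg h]

theorem exP_inj {D : Type} (e : D) : Function.Injective (exP e) := by
  intro x y hxy
  by_cases hx : x = e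
  · by_cases hy : y = e
    · rw [hx, hy]
    · rw [hx, exP_self, exP_ne hy] at hxy
      exact absurd hxy (by simp)
  · by_cases hy : y = e
    · rw [hy, exP_self, exP_ne hx] at hxy
      exact absurd hxy (by simp)
    · rw [exP_ne hx, exP_ne hy] at hxy
      exact Sum.inl_injective hxy

theorem sw_exP {D : Type} (e x : D) : sw (Sum.inl e) (Sum.inr false) (Sum.inl x : D ⊕ Bool) = exP e x := by
  by_cases h3 : x = e
  · rw [h3, sw_left, exP_self]
  · rw [exP_ne h3, sw_of_ne (by simpa using h3) (by simp)]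

theorem dbl_exP (S : Sf) (e x : S.D) : (S.dbl e).r (exP e x) = exP e (S.r x) := by
  show (sw (Sum.inl e) (Sum.inr false) * Equiv.sumCongr S.r (Equiv.refl Bool) * sw (Sum.inr true) (Sum.inr false)
    * sw (Sum.inl e) (Sum.inr false) : Perm (S.D ⊕ Bool)) (exP e x) = _
  have h1 : sw (Sum.inl e) (Sum.inr false) (exP e x) = (Sum.inl x : S.D ⊕ Bool) := by
    rw [← sw_exP]
    unfold sw
    exact @Equiv.swap_apply_self _ (Classical.decEq _) _ _ _
  have h2 : sw (Sum.inr true) (Sum.inr false) (Sum.inl x : S.D ⊕ Bool) = Sum.inl x :=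
    sw_of_ne (by simp) (by simp)
  simp only [Perm.mul_apply]
  rw [h1, h2]
  exact sw_exP e (S.r x)

theorem sub_last (S : Sf) (b y : S.D) :
    (S.sub b).r.SameCycle (sw (Sum.inl (S.a b)) (Sum.inr false) (Sum.inl y : S.D ⊕ Bool)) (Sum.inl y : S.D ⊕ Bool) := by
  by_cases hy : y = S.a b
  · subst hy
    rw [sw_left]
    have : (S.sub b).r (Sum.inr false : S.D ⊕ Bool) = (Sum.inl (S.a b) : S.D ⊕ Bool) := by
      show sw (Sum.inl (S.a b)) (Sum.inr false)
          (Equiv.sumCongr S.r (Equiv.refl Bool) (sw (Sum.inl b) (Sum.inr true) (Sum.inr false))) = _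
      have h0 : sw (Sum.inl b) (Sum.inr true) (Sum.inr false : S.D ⊕ Bool) = Sum.inr false :=
        sw_of_ne (by simp) (by simp)
      rw [h0]
      show sw (Sum.inl (S.a b)) (Sum.inr false) (Sum.inr false : S.D ⊕ Bool) = _
      rw [sw_right]
    have h1 : (S.sub b).r.SameCycle (Sum.inr false : S.D ⊕ Bool) ((S.sub b).r (Sum.inr false : S.D ⊕ Bool)) :=
      Perm.sameCycle_apply_right.2 (Perm.SameCycle.refl _ _)
    rw [this] at h1
    exact h1
  · rw [sw_of_ne (by simpa using hy) (by simp)]

theorem sub_step (S : Sf) (b z : S.D) :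
    (S.sub b).r.SameCycle (Sum.inl z : S.D ⊕ Bool) (Sum.inl (S.r z) : S.D ⊕ Bool) := by
  have e1 : ∀ z : S.D ⊕ Bool, (S.sub b).r z = sw (Sum.inl (S.a b)) (Sum.inr false)
      (Equiv.sumCongr S.r (Equiv.refl Bool) (sw (Sum.inl b) (Sum.inr true) z)) := fun _ => rfl
  have e0 : ∀ z : S.D ⊕ Bool, (S.sub b).r.SameCycle z ((S.sub b).r z) := fun z =>
    Perm.sameCycle_apply_right.2 (Perm.SameCycle.refl _ _)
  by_cases hz : z = b
  · have h1 : (S.sub b).r (Sum.inl z : S.D ⊕ Bool) = (Sum.inr true : S.D ⊕ Bool) := by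
      rw [e1, hz, sw_left]
      show sw (Sum.inl (S.a b)) (Sum.inr false) (Sum.inr true : S.D ⊕ Bool) = _
      rw [sw_of_ne (by simp) (by simp)]
    have h2 : (S.sub b).r (Sum.inr true : S.D ⊕ Bool) =
        sw (Sum.inl (S.a b)) (Sum.inr false) (Sum.inl (S.r z) : S.D ⊕ Bool) := by
      rw [e1, sw_right, hz]
      rfl
    have h3 := e0 (Sum.inl z)
    rw [h1] at h3
    have h4 := e0 (Sum.inr true)
    rw [h2] at h4
    exact (h3.trans h4).trans (sub_last S b _)
  · have h2 : (S.sub b).r (Sum.inl z : S.D ⊕ Bool) =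
        sw (Sum.inl (S.a b)) (Sum.inr false) (Sum.inl (S.r z) : S.D ⊕ Bool) := by
      have h0 : sw (Sum.inl b) (Sum.inr true) (Sum.inl z : S.D ⊕ Bool) = Sum.inl z :=
        sw_of_ne (by simpa using hz) (by simp)
      rw [e1, h0]
      rfl
    have h4 := e0 (Sum.inl z)
    rw [h2] at h4
    exact h4.trans (sub_last S b _)

/-- all words of a state with `U L` have at most `L` live letters -/
theorem U_len_le {L : ℕ} {S : Sf} (h : U L S) : ∀ d, S.len d ≤ L := by
  induction h with
  | done S h0 => intro d; rw [len_dead h0]; exact Nat.zero_le _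
  | glue S b hb hl _ ih => exact hl
  | dbl S e he _ ih =>
    refine len_le_of_map (T := S.dbl e) (exP e) (exP_inj e) ?_ ?_ ih
    · intro x _ y _ hxy
      refine sameCycle_map (s := S.r) (t := (S.dbl e).r) (f := exP e) (fun z => ?_) hxy
      have h6 : (S.dbl e).r.SameCycle (exP e z) ((S.dbl e).r (exP e z)) :=
        Perm.sameCycle_apply_right.2 (Perm.SameCycle.refl _ _)
      rw [dbl_exP] at h6
      exact h6
    · intro x hx
      by_cases h1 : x = e
      · rw [h1, exP_self]
        show (Sum.inr (!false) : S.D ⊕ Bool) ≠ Sum.inr false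
        simp
      · rw [exP_ne h1]
        show (Sum.inl (S.a x) : S.D ⊕ Bool) ≠ Sum.inl x
        simpa using hx
  | sub S b hb _ ih =>
    refine len_le_of_map (T := S.sub b) Sum.inl Sum.inl_injective ?_ ?_ ih
    · intro x _ y _ hxy
      exact sameCycle_map (s := S.r) (t := (S.sub b).r) (f := Sum.inl) (fun z => sub_step S b z) hxy
    · intro x hx
      show (Sum.inl (S.a x) : S.D ⊕ Bool) ≠ Sum.inl x
      simpa using hx
  | vtx S p q hp hq hpq hc hl _ ih => exact hl
  | ghost S g hg _ ih =>
    by_cases hrg : S.r g = g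
    · have h1 : S.setr (sw g (S.r g) * S.r) = S := by
        have h2 : sw g (S.r g) * S.r = S.r := by
          ext x
          rw [Perm.mul_apply, hrg]
          by_cases hx : S.r x = g
          · rw [hx, sw_left]
          · rw [sw_of_ne hx hx]
        unfold Sf.setr
        rw [h2]
      rw [h1] at ih
      exact ih
    refine len_le_of_map (S := S) (T := S.setr (sw g (S.r g) * S.r)) id Function.injective_id ?_ ?_ ih
    · intro x hx y hy hxy
      have hxg : x ≠ g := fun h => hx (by rw [h]; exact hg)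
      have hyg : y ≠ g := fun h => hy (by rw [h]; exact hg)
      classical
      -- map g to r g
      have h5 := sameCycle_map (s := S.r) (t := sw g (S.r g) * S.r) (f := fun z => if z = g then S.r g else z)
        (fun z => ?_) hxy
      · simp only [hxg, hyg, if_false] at h5
        exact h5
      · have e1 : (sw g (S.r g) * S.r) g = g := by rw [Perm.mul_apply, sw_right]
        by_cases hz : z = g
        · subst hz
          simp only [if_true, hrg, if_false]
          exact Perm.SameCycle.refl _ _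
        · simp only [if_neg hz]
          by_cases hz2 : S.r z = g
          · rw [if_pos hz2]
            have : (sw g (S.r g) * S.r) z = S.r g := by rw [Perm.mul_apply, hz2, sw_left]
            have h6 : (sw g (S.r g) * S.r).SameCycle z ((sw g (S.r g) * S.r) z) :=
              Perm.sameCycle_apply_right.2 (Perm.SameCycle.refl _ _)
            rw [this] at h6
            exact h6
          · rw [if_neg hz2]
            have : (sw g (S.r g) * S.r) z = S.r z := by
              rw [Perm.mul_apply, sw_of_ne hz2 (fun h => hz (S.r.injective h))]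
            have h6 : (sw g (S.r g) * S.r).SameCycle z ((sw g (S.r g) * S.r) z) :=
              Perm.sameCycle_apply_right.2 (Perm.SameCycle.refl _ _)
            rw [this] at h6
            exact h6
    · intro x hx
      exact hx

/-! ## first return -/

/-- `e` is reached from `d` under `r`, all letters in between are dead -/
inductive Nxr (S : Sf) (d : S.D) : S.D → Prop
  | one : Nxr S d (S.r d)
  | step (f : S.D) : Nxr S d f → S.a f = f → Nxr S d (S.r f)

theorem Nxr.exists_pow {S : Sf} {d e : S.D} (h : Nxr S d e) :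
    ∃ n : ℕ, (S.r ^ (n + 1)) d = e ∧ ∀ i < n, S.a ((S.r ^ (i + 1)) d) = (S.r ^ (i + 1)) d := by
  induction h with
  | one => exact ⟨0, by simp, fun i hi => absurd hi (Nat.not_lt_zero _)⟩
  | step f _ hf ih =>
    obtain ⟨n, h1, h2⟩ := ih
    refine ⟨n + 1, ?_, ?_⟩
    · rw [pow_succ', Perm.mul_apply, h1]
    · intro i hi
      rcases Nat.lt_succ_iff_lt_or_eq.1 hi with h3 | h3
      · exact h2 i h3
      · rw [h3, h1, hf]

theorem Nxr.unique {S : Sf} {d e e' : S.D} (h : Nxr S d e) (h' : Nxr S d e') (he : S.a e ≠ e) (he' : S.a e' ≠ e') :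
    e = e' := by
  obtain ⟨n, h1, h2⟩ := h.exists_pow
  obtain ⟨m, h3, h4⟩ := h'.exists_pow
  rcases lt_trichotomy n m with hlt | heq | hlt
  · exfalso
    apply he
    have := h4 n hlt
    rw [h1] at this
    exact this
  · rw [← h1, ← h3, heq]
  · exfalso
    apply he'
    have := h2 m hlt
    rw [h3] at this
    exact this

theorem Nxr.of_ghost {S : Sf} {g : S.D} {d : (S.setr (sw g (S.r g) * S.r)).D} (hg : S.a g = g) (hdg : d ≠ g)
    {e : (S.setr (sw g (S.r g) * S.r)).D} (h : Nxr (S.setr (sw g (S.r g) * S.r)) d e) : Nxr S d e := by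
  have hr : ∀ e : S.D, (S.setr (sw g (S.r g) * S.r)).r e = sw g (S.r g) (S.r e) := fun e => rfl
  induction h with
  | one =>
    rw [hr]
    by_cases h5 : S.r d = g
    · rw [h5, sw_left]
      refine Nxr.step g ?_ hg
      have h6 : Nxr S d (S.r d) := Nxr.one
      rw [h5] at h6
      exact h6
    · rw [sw_of_ne h5 (fun h => hdg (S.r.injective h))]
      exact Nxr.one
  | step f _ hf ih' =>
    rw [hr]
    by_cases h6 : f = g
    · rw [h6, sw_right]
      rw [h6] at ih'
      exact ih'
    by_cases h5 : S.r f = g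
    · rw [h5, sw_left]
      refine Nxr.step g ?_ hg
      have h7 : Nxr S d (S.r f) := Nxr.step (S := S) (d := d) f ih' hf
      rw [h5] at h7
      exact h7
    · rw [sw_of_ne h5 (fun h => h6 (S.r.injective h))]
      exact Nxr.step (S := S) (d := d) f ih' hf

private theorem ex_purge (n : ℕ) : ∀ S : Sf, Set.ncard {g | S.a g = g ∧ S.r g ≠ g} ≤ n →
    ∃ r' : Perm S.D, (∀ d, S.a d = d → r' d = d) ∧ (∀ d, S.a d ≠ d → Nxr S d (r' d)) ∧
      ∀ L, U L (S.setr r') → U L S := by
  induction n with
  | zero =>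
    intro S hn
    have h0 : {g | S.a g = g ∧ S.r g ≠ g} = (∅ : Set S.D) :=
      (Set.ncard_eq_zero (Set.toFinite _)).1 (Nat.le_zero.1 hn)
    refine ⟨S.r, ?_, fun d _ => Nxr.one, fun L h => h⟩
    intro d hd
    by_contra hc
    have : d ∈ (∅ : Set S.D) := h0 ▸ (show d ∈ {g | S.a g = g ∧ S.r g ≠ g} from ⟨hd, hc⟩)
    exact this
  | succ n ih =>
    intro S hn
    by_cases hall : ∀ d, S.a d = d → S.r d = d
    · exact ⟨S.r, hall, fun d _ => Nxr.one, fun L h => h⟩
    push Not at hall
    obtain ⟨g, hg, hrg⟩ := hall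
    have hr : ∀ e : S.D, (S.setr (sw g (S.r g) * S.r)).r e = sw g (S.r g) (S.r e) := fun e => rfl
    have hsub : {h : S.D | (S.setr (sw g (S.r g) * S.r)).a h = h ∧ (S.setr (sw g (S.r g) * S.r)).r h ≠ h} ⊂
        {h : S.D | S.a h = h ∧ S.r h ≠ h} := by
      refine ⟨?_, ?_⟩
      · rintro h ⟨h1, h2⟩
        refine ⟨h1, fun hc => h2 ?_⟩
        rw [hr]
        have h3 : h ≠ g := by
          rintro rfl
          exact hrg hc
        have h4 : h ≠ S.r g := by
          intro h5
          apply h3
          apply S.r.injective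
          rw [hc]
          exact h5
        rw [hc, sw_of_ne h3 h4]
      · intro hc
        have h2 := hc (show g ∈ {h | S.a h = h ∧ S.r h ≠ h} from ⟨hg, hrg⟩)
        apply h2.2
        rw [hr, sw_right]
    have hlt := Set.ncard_lt_ncard hsub (Set.toFinite _)
    have hn1 : Set.ncard {h : S.D | (S.setr (sw g (S.r g) * S.r)).a h = h ∧
        (S.setr (sw g (S.r g) * S.r)).r h ≠ h} < n + 1 := lt_of_lt_of_le hlt hn
    obtain ⟨r', h1, h2, h3⟩ := ih (S.setr (sw g (S.r g) * S.r)) (Nat.lt_succ_iff.1 hn1)
    refine ⟨r', h1, ?_, fun L h => U.ghost S g hg (h3 L h)⟩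
    intro d hd
    have h4 := h2 d hd
    have hdg : d ≠ g := fun h => hd (by rw [h]; exact hg)
    exact Nxr.of_ghost hg hdg h4

/-- take all dead letters out of their words, with the first return map -/
theorem purge_nx (S : Sf) : ∃ r' : Perm S.D, (∀ d, S.a d = d → r' d = d) ∧ (∀ d, S.a d ≠ d → Nxr S d (r' d)) ∧
    ∀ L, U L (S.setr r') → U L S :=
  ex_purge _ S le_rfl

end Pool.Agent.GW
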