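import Pool.Agent.GW.ExDef

/-!
# GW/ExU (helper92): the expansion lemma (MP_37d33d_gt, genus version)

`U_exp`: if every letter of `S` is replaced by a block of at most `δ` letters, then `U L S` gives `U (2 δ L)` of the
expanded state. Induction on `U L S`: `glue` is `glueSet` of two blocks, `dbl` is the cover of a block, `sub` is `sub` of
the last letter of a block, `vtx` and `ghost` act on the first letters.
-/

set_option autoImplicit false

namespace Pool.Agent.GW

open Equiv Pool.Agent.SWP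

section

variable {D E : Type} {r a : Perm D} {R A : Perm E} {k : D → ℕ} {j : D → ℕ → E}

theorem ExpP.deadT (h : ExpP r a R A k j) {d : D} (hd : a d = d) {i : ℕ} (hi : i < k d) : A (j d i) = j d i := by
  have h1 := h.dead d hd
  have h2 : i = 0 := by omega
  subst h2
  rw [h.a d 0 hi, hd, h1]

theorem ExpP.liveT (h : ExpP r a R A k j) {d : D} (hd : a d ≠ d) {i : ℕ} (hi : i < k d) : A (j d i) ≠ j d i := by
  rw [h.a d i hi]
  intro hc
  have hk := h.ka d
  exact hd (h.inj _ _ _ _ (by omega) hi hc).1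

theorem ExpP.r_mem (h : ExpP r a R A k j) {d : D} {i : ℕ} (hi : i < k d) :
    ∃ d', r.SameCycle d d' ∧ ∃ l < k d', R (j d i) = j d' l := by
  by_cases h1 : i + 1 < k d
  · exact ⟨d, Perm.SameCycle.refl _ _, i + 1, h1, h.rn d i h1⟩
  · have h2 : i = k d - 1 := by omega
    refine ⟨r d, ?_, 0, h.pos _, ?_⟩
    · exact Perm.sameCycle_apply_right.2 (Perm.SameCycle.refl _ _)
    · rw [h2, h.rl]

theorem ExpP.same (h : ExpP r a R A k j) (d : D) : ∀ i, i < k d → R.SameCycle (j d 0) (j d i) := by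
  intro i
  induction i with
  | zero => intro _; exact Perm.SameCycle.refl _ _
  | succ i ih =>
    intro hi
    refine (ih (by omega)).trans ?_
    rw [← h.rn d i hi]
    exact Perm.sameCycle_apply_right.2 (Perm.SameCycle.refl _ _)

theorem ExpP.j0_inj (h : ExpP r a R A k j) : Function.Injective (fun d => j d 0) :=
  fun d e hde => (h.inj d 0 e 0 (h.pos d) (h.pos e) hde).1

theorem ExpP.ra0 (h : ExpP r a R A k j) (d : D) : R (A (j d 0)) = j (r (a d)) 0 := by
  rw [h.a d 0 (h.pos d)]
  have hk := h.ka d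
  have h1 : k d - 1 - 0 = k (a d) - 1 := by omega
  rw [h1, h.rl]

/-! ## glue -/

/-- block lengths after gluing `b` -/
noncomputable def exK (a : Perm D) (b : D) (k : D → ℕ) (d : D) : ℕ :=
  open Classical in if d = b ∨ d = a b then 1 else k d

theorem exK_pos (a : Perm D) {b : D} (k : D → ℕ) {d : D} (h : d = b ∨ d = a b) : exK a b k d = 1 := by
  unfold exK; rw [if_pos h]

theorem exK_neg (a : Perm D) {b : D} (k : D → ℕ) {d : D} (h : ¬(d = b ∨ d = a b)) : exK a b k d = k d := by
  unfold exK; rw [if_neg h]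

/-- the letters of the blocks of `b` and its partner -/
def exY (a : Perm D) (k : D → ℕ) (j : D → ℕ → E) (b : D) : Set E :=
  {x | ∃ d, (d = b ∨ d = a b) ∧ ∃ i < k d, x = j d i}

theorem ExpP.Cl (h : ExpP r a R A k j) (haa : ∀ d, a (a d) = d) (b : D) :
    ∀ x ∈ exY a k j b, A x ∈ exY a k j b := by
  rintro x ⟨d, hd, i, hi, rfl⟩
  have hk := h.ka d
  refine ⟨a d, ?_, k d - 1 - i, by omega, h.a d i hi⟩
  rcases hd with hd | hd
  · exact Or.inr (by rw [hd])
  · exact Or.inl (by rw [hd, haa])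

theorem ExpP.glue (h : ExpP r a R A k j) (haa : ∀ d, a (a d) = d) (hAA : ∀ x, A (A x) = x) (b : D) (β : Perm E)
    (hβ1 : ∀ x ∈ exY a k j b, β x = A x) (hβ2 : ∀ x, x ∉ exY a k j b → β x = x) :
    ExpP (r * sw b (a b)) (a * sw b (a b)) (R * β) (A * β) (exK a b k) j := by
  have hY : ∀ {d : D} {i : ℕ}, (d = b ∨ d = a b) → i < k d → j d i ∈ exY a k j b :=
    fun hd hi => ⟨_, hd, _, hi, rfl⟩
  have hnY : ∀ {d : D} {i : ℕ}, ¬(d = b ∨ d = a b) → i < k d → j d i ∉ exY a k j b := by
    rintro d i hd hi ⟨e, he, l, hl, heq⟩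
    have := (h.inj _ _ _ _ hi hl heq).1
    rw [this] at hd
    exact hd he
  have hle : ∀ d, exK a b k d ≤ k d := by
    intro d
    by_cases hd : d = b ∨ d = a b
    · rw [exK_pos _ _ hd]; exact h.pos d
    · rw [exK_neg _ _ hd]
  have hab : ∀ {d : D}, (d = b ∨ d = a b) → (a * sw b (a b)) d = d := by
    rintro d (hd | hd)
    · rw [hd, Perm.mul_apply, sw_left, haa]
    · rw [hd, Perm.mul_apply, sw_right]
  have hsn : ∀ {d : D}, ¬(d = b ∨ d = a b) → sw b (a b) d = d :=
    fun hd => sw_of_ne (fun hc => hd (Or.inl hc)) (fun hc => hd (Or.inr hc))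
  have han : ∀ {d : D}, ¬(d = b ∨ d = a b) → (a * sw b (a b)) d = a d := by
    intro d hd
    rw [Perm.mul_apply, hsn hd]
  have hrn : ∀ {d : D}, ¬(d = b ∨ d = a b) → (r * sw b (a b)) d = r d := by
    intro d hd
    rw [Perm.mul_apply, hsn hd]
  refine ⟨?_, ?_, ?_, ?_, ?_, ?_, ?_, ?_⟩
  · intro d
    by_cases hd : d = b ∨ d = a b
    · rw [exK_pos _ _ hd]; exact Nat.one_pos
    · rw [exK_neg _ _ hd]; exact h.pos d
  · intro d
    by_cases hd : d = b ∨ d = a b
    · rw [hab hd]
    · rw [han hd, exK_neg _ _ hd]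
      have hd2 : ¬(a d = b ∨ a d = a b) := by
        rintro (h1 | h1)
        · exact hd (Or.inr (by rw [← h1, haa]))
        · exact hd (Or.inl (a.injective h1))
      rw [exK_neg _ _ hd2, h.ka]
  · intro d hd'
    by_cases hd : d = b ∨ d = a b
    · rw [exK_pos _ _ hd]
    · rw [exK_neg _ _ hd]
      rw [han hd] at hd'
      exact h.dead d hd'
  · exact fun d i e l hi hl heq => h.inj d i e l (lt_of_lt_of_le hi (hle d)) (lt_of_lt_of_le hl (hle e)) heq
  · intro d i hi
    by_cases hd : d = b ∨ d = a b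
    · rw [exK_pos _ _ hd] at hi; omega
    · rw [exK_neg _ _ hd] at hi
      rw [Perm.mul_apply, hβ2 _ (hnY hd (by omega))]
      exact h.rn d i hi
  · intro d
    by_cases hd : d = b ∨ d = a b
    · have h0 : exK a b k d - 1 = 0 := by rw [exK_pos _ _ hd]
      rw [h0, Perm.mul_apply, hβ1 _ (hY hd (h.pos d)), h.ra0]
      rcases hd with hd | hd
      · rw [hd, Perm.mul_apply, sw_left]
      · rw [hd, haa, Perm.mul_apply, sw_right]
    · rw [exK_neg _ _ hd, Perm.mul_apply, hβ2 _ (hnY hd (by have := h.pos d; omega)), h.rl, hrn hd]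
  · intro d i hi
    by_cases hd : d = b ∨ d = a b
    · have h2 := exK_pos a k hd
      rw [h2] at hi
      have h1 : i = 0 := by omega
      subst h1
      rw [hab hd, Perm.mul_apply, hβ1 _ (hY hd (h.pos d)), hAA, h2]
    · rw [exK_neg _ _ hd] at hi ⊢
      rw [Perm.mul_apply, hβ2 _ (hnY hd hi), han hd]
      exact h.a d i hi
  · intro e he
    by_cases heY : e ∈ exY a k j b
    · rw [Perm.mul_apply, hβ1 _ heY, hAA]
    · rw [Perm.mul_apply, hβ2 _ heY]
      refine h.out e (fun d i hi heq => ?_)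
      by_cases hd : d = b ∨ d = a b
      · exact heY (by rw [← heq]; exact hY hd hi)
      · exact he d i (by rw [exK_neg _ _ hd]; exact hi) heq

/-! ## dbl -/

/-- the letters of the block of `e` -/
def exBl (k : D → ℕ) (j : D → ℕ → E) (e : D) : Set E := {x | ∃ i < k e, x = j e i}

/-- the letters of the block of `e` except for the last one -/
def exJ (k : D → ℕ) (j : D → ℕ → E) (e : D) : Set E := {x | ∃ i, i + 1 < k e ∧ x = j e i}

/-- a letter of the block, as an element of the block -/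
def exg (k : D → ℕ) (j : D → ℕ → E) (e : D) (he : 0 < k e) (i : ℕ) : exBl k j e :=
  ⟨j e (min i (k e - 1)), min i (k e - 1), by omega, rfl⟩

theorem exg_val {e : D} (he : 0 < k e) {i : ℕ} (hi : i < k e) : (exg k j e he i : E) = j e i := by
  show j e (min i (k e - 1)) = j e i
  rw [Nat.min_eq_left (by omega)]

/-- the blocks after doubling `e` -/
def exDj (k : D → ℕ) (j : D → ℕ → E) (e : D) (he : 0 < k e) : D ⊕ Bool → ℕ → E ⊕ (exBl k j e × Bool)
  | Sum.inl d, i => Sum.inl (j d i)
  | Sum.inr true, i => Sum.inr (exg k j e he (k e - 1 - i), true)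
  | Sum.inr false, i => Sum.inr (exg k j e he i, false)

/-- block lengths after doubling `e` -/
def exDk (k : D → ℕ) (e : D) : D ⊕ Bool → ℕ
  | Sum.inl d => k d
  | Sum.inr _ => k e

/-- the next letter after doubling `e` -/
noncomputable def dbR (r : Perm D) (e : D) : Perm (D ⊕ Bool) :=
  sw (Sum.inl e) (Sum.inr false) * Equiv.sumCongr r (Equiv.refl Bool) * sw (Sum.inr true) (Sum.inr false)
    * sw (Sum.inl e) (Sum.inr false)

theorem dbR_true (r : Perm D) (e : D) : dbR r e (Sum.inr true) = Sum.inl e := by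
  unfold dbR
  have h1 : sw (Sum.inl e) (Sum.inr false) (Sum.inr true : D ⊕ Bool) = Sum.inr true :=
    sw_of_ne (by simp) (by simp)
  simp only [Perm.mul_apply]
  rw [h1, sw_left]
  show sw (Sum.inl e) (Sum.inr false) (Sum.inr false : D ⊕ Bool) = _
  rw [sw_right]

theorem dbR_inl (r : Perm D) (e : D) : dbR r e (Sum.inl e) = Sum.inr true := by
  unfold dbR
  have h1 : sw (Sum.inl e) (Sum.inr false) (Sum.inl e : D ⊕ Bool) = Sum.inr false := sw_left _ _
  have h2 : sw (Sum.inr true) (Sum.inr false) (Sum.inr false : D ⊕ Bool) = Sum.inr true := sw_right _ _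
  simp only [Perm.mul_apply]
  rw [h1, h2]
  show sw (Sum.inl e) (Sum.inr false) (Sum.inr true : D ⊕ Bool) = _
  rw [sw_of_ne (by simp) (by simp)]

theorem dbR_exP (r : Perm D) (e x : D) : dbR r e (exP e x) = exP e (r x) := by
  unfold dbR
  have h1 : sw (Sum.inl e) (Sum.inr false) (exP e x) = (Sum.inl x : D ⊕ Bool) := by
    rw [← sw_exP]
    unfold sw
    exact @Equiv.swap_apply_self _ (Classical.decEq _) _ _ _
  have h2 : sw (Sum.inr true) (Sum.inr false) (Sum.inl x : D ⊕ Bool) = Sum.inl x :=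
    sw_of_ne (by simp) (by simp)
  simp only [Perm.mul_apply]
  rw [h1, h2]
  exact sw_exP e (r x)

theorem dbR_ne (r : Perm D) {e x : D} (h : x ≠ e) : dbR r e (Sum.inl x) = exP e (r x) := by
  rw [← exP_ne h, dbR_exP]

theorem dbR_false (r : Perm D) (e : D) : dbR r e (Sum.inr false) = exP e (r e) := by
  rw [← exP_self e, dbR_exP]

theorem ExpP.dbl [Finite E] (h : ExpP r a R A k j) (e : D) (hae : a e ≠ e) :
    ExpP (dbR r e) (Equiv.sumCongr a Equiv.boolNot) (cvR R (exBl k j e) (exJ k j e))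
      (Equiv.sumCongr A (Equiv.prodCongr (Equiv.refl (exBl k j e)) Equiv.boolNot)) (exDk k e)
      (exDj k j e (h.pos e)) := by
  have hpe := h.pos e
  have hG : ∀ {i : ℕ}, i < k e → j e i ∈ exBl k j e := fun hi => ⟨_, hi, rfl⟩
  have hnG : ∀ {d : D} {i : ℕ}, d ≠ e → i < k d → j d i ∉ exBl k j e := by
    rintro d i hd hi ⟨l, hl, heq⟩
    exact hd (h.inj _ _ _ _ hi hl heq).1
  have hJ : ∀ {i : ℕ}, i + 1 < k e → j e i ∈ exJ k j e := fun hi => ⟨_, hi, rfl⟩
  have hnJ : j e (k e - 1) ∉ exJ k j e := by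
    rintro ⟨l, hl, heq⟩
    have := (h.inj _ _ _ _ (by omega) (by omega) heq).2
    omega
  have hgv : ∀ {i : ℕ} (hi : i < k e), exg k j e hpe i = ⟨j e i, hG hi⟩ := by
    intro i hi
    exact Subtype.ext (exg_val hpe hi)
  have hcN : ∀ d : D, cvN (exBl k j e) (j d 0) = exDj k j e hpe (exP e d) 0 := by
    intro d
    by_cases hd : d = e
    · rw [hd, exP_self, cvN_mem (hG hpe)]
      show _ = Sum.inr (exg k j e hpe 0, false)
      rw [hgv hpe]
    · rw [exP_ne hd, cvN_notMem (hnG hd (h.pos d))]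
      rfl
  have hval : ∀ z, cvR R (exBl k j e) (exJ k j e) z = cvF R (exBl k j e) (exJ k j e) z := fun z => rfl
  refine ⟨?_, ?_, ?_, ?_, ?_, ?_, ?_, ?_⟩
  · rintro (d | c)
    · exact h.pos d
    · exact hpe
  · rintro (d | c)
    · exact h.ka d
    · rfl
  · rintro (d | c) hc
    · exact h.dead d (Sum.inl_injective hc)
    · cases c <;> simp at hc
  · rintro (d | c) i (d' | c') l hi hl heq
    · have h1 := h.inj d i d' l hi hl (Sum.inl_injective heq)
      exact ⟨by rw [h1.1], h1.2⟩
    · cases c' <;> cases heq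
    · cases c <;> cases heq
    · have hi' : i < k e := hi
      have hl' : l < k e := hl
      cases c <;> cases c'
      · have h1 : exg k j e hpe i = exg k j e hpe l := (Prod.ext_iff.1 (Sum.inr_injective heq)).1
        rw [hgv hi', hgv hl'] at h1
        exact ⟨rfl, (h.inj _ _ _ _ hi' hl' (congrArg Subtype.val h1)).2⟩
      · exact absurd (Prod.ext_iff.1 (Sum.inr_injective heq)).2 (by simp)
      · exact absurd (Prod.ext_iff.1 (Sum.inr_injective heq)).2 (by simp)
      · have h1 : exg k j e hpe (k e - 1 - i) = exg k j e hpe (k e - 1 - l) :=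
          (Prod.ext_iff.1 (Sum.inr_injective heq)).1
        rw [hgv (by omega), hgv (by omega)] at h1
        have h2 := (h.inj _ _ _ _ (by omega) (by omega) (congrArg Subtype.val h1)).2
        exact ⟨rfl, by omega⟩
  · rintro (d | c) i hi
    · have hi' : i + 1 < k d := hi
      rw [hval]
      show cvF R (exBl k j e) (exJ k j e) (Sum.inl (j d i)) = Sum.inl (j d (i + 1))
      by_cases hd : d = e
      · subst hd
        rw [cvF_inl_join R (hG (by omega)) ⟨hJ hi', by rw [h.rn _ _ hi']; exact hG hi'⟩, h.rn _ _ hi']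
      · rw [cvF_inl_notMem R _ (hnG hd (by omega)), h.rn _ _ hi', cvN_notMem (hnG hd hi')]
    · have hi' : i + 1 < k e := hi
      cases c
      · rw [hval]
        show cvF R (exBl k j e) (exJ k j e) (Sum.inr (exg k j e hpe i, false)) = Sum.inr (exg k j e hpe (i + 1), false)
        rw [cvF_false, hgv (by omega : i < k e), hgv hi']
        show cvN (exBl k j e) (R (j e i)) = _
        rw [h.rn _ _ hi', cvN_mem (hG hi')]
      · rw [hval]
        show cvF R (exBl k j e) (exJ k j e) (Sum.inr (exg k j e hpe (k e - 1 - i), true)) =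
          Sum.inr (exg k j e hpe (k e - 1 - (i + 1)), true)
        have e1 : k e - 1 - i = (k e - 1 - (i + 1)) + 1 := by omega
        have e2 : R.symm (j e (k e - 1 - i)) = j e (k e - 1 - (i + 1)) := by
          rw [Equiv.symm_apply_eq, h.rn _ _ (by omega), ← e1]
        have e3 : (exg k j e hpe (k e - 1 - i) : E) = j e (k e - 1 - i) := exg_val hpe (by omega)
        have e4 : R.symm (exg k j e hpe (k e - 1 - i) : E) ∈ exBl k j e ∧
            R.symm (exg k j e hpe (k e - 1 - i) : E) ∈ exJ k j e := by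
          rw [e3, e2]
          exact ⟨hG (by omega), hJ (by omega)⟩
        rw [cvF_true_join R e4]
        congr 2
        apply Subtype.ext
        show R.symm (exg k j e hpe (k e - 1 - i) : E) = (exg k j e hpe (k e - 1 - (i + 1)) : E)
        rw [e3, e2, exg_val hpe (by omega)]
  · rintro (d | c)
    · rw [hval]
      show cvF R (exBl k j e) (exJ k j e) (Sum.inl (j d (k d - 1))) = _
      by_cases hd : d = e
      · subst hd
        rw [dbR_inl, cvF_inl_end R (hG (by omega)) (fun hc => hnJ hc.1)]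
        show _ = Sum.inr (exg k j d hpe (k d - 1 - 0), true)
        rw [hgv (by omega)]
        rfl
      · rw [dbR_ne r hd, cvF_inl_notMem R _ (hnG hd (by have := h.pos d; omega)), h.rl]
        exact hcN _
    · cases c
      · rw [hval, dbR_false]
        show cvF R (exBl k j e) (exJ k j e) (Sum.inr (exg k j e hpe (k e - 1), false)) = _
        rw [cvF_false, exg_val hpe (by omega), h.rl]
        exact hcN _
      · rw [hval, dbR_true]
        show cvF R (exBl k j e) (exJ k j e) (Sum.inr (exg k j e hpe (k e - 1 - (k e - 1)), true)) = Sum.inl (j e 0)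
        have e0 : k e - 1 - (k e - 1) = 0 := by omega
        have e3 : (exg k j e hpe 0 : E) = j e 0 := exg_val hpe hpe
        have e4 : ¬(R.symm (exg k j e hpe 0 : E) ∈ exBl k j e ∧ R.symm (exg k j e hpe 0 : E) ∈ exJ k j e) := by
          rw [e3]
          rintro ⟨_, l, hl, heq⟩
          rw [Equiv.symm_apply_eq, h.rn _ _ hl] at heq
          have := (h.inj _ _ _ _ hpe hl heq).2
          omega
        rw [e0, cvF_true_end R e4, e3]
  · rintro (d | c) i hi
    · have h1 := h.a d i hi
      show (Sum.inl (A (j d i)) : E ⊕ (exBl k j e × Bool)) = Sum.inl (j (a d) (k d - 1 - i))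
      rw [h1]
    · have hi' : i < k e := hi
      cases c
      · show (Sum.inr (exg k j e hpe i, !false) : E ⊕ (exBl k j e × Bool)) =
          Sum.inr (exg k j e hpe (k e - 1 - (k e - 1 - i)), true)
        have e1 : k e - 1 - (k e - 1 - i) = i := by omega
        rw [e1]
        rfl
      · rfl
  · rintro (t | ⟨⟨x, l, hl, rfl⟩, c⟩) hout
    · have h1 := h.out t (fun d i hi heq => hout (Sum.inl d) i hi (by rw [← heq]; rfl))
      show (Sum.inl (A t) : E ⊕ (exBl k j e × Bool)) = Sum.inl t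
      rw [h1]
    · exfalso
      cases c
      · refine hout (Sum.inr false) l hl ?_
        show (Sum.inr (exg k j e hpe l, false) : E ⊕ (exBl k j e × Bool)) = _
        rw [hgv hl]
      · refine hout (Sum.inr true) (k e - 1 - l) (by show k e - 1 - l < k e; omega) ?_
        show (Sum.inr (exg k j e hpe (k e - 1 - (k e - 1 - l)), true) : E ⊕ (exBl k j e × Bool)) = _
        have e1 : k e - 1 - (k e - 1 - l) = l := by omega
        rw [e1, hgv hl]

/-! ## sub -/

/-- the blocks after subdividing -/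
def exSj (j : D → ℕ → E) : D ⊕ Bool → ℕ → E ⊕ Bool
  | Sum.inl d, i => Sum.inl (j d i)
  | Sum.inr c, _ => Sum.inr c

/-- block lengths after subdividing -/
def exSk (k : D → ℕ) : D ⊕ Bool → ℕ
  | Sum.inl d => k d
  | Sum.inr _ => 1

theorem ExpP.sub (h : ExpP r a R A k j) (b : D) :
    ExpP (sw (Sum.inl (a b)) (Sum.inr false) * Equiv.sumCongr r (Equiv.refl Bool) * sw (Sum.inl b) (Sum.inr true))
      (Equiv.sumCongr a Equiv.boolNot)
      (sw (Sum.inl (A (j b (k b - 1)))) (Sum.inr false) * Equiv.sumCongr R (Equiv.refl Bool) *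
        sw (Sum.inl (j b (k b - 1))) (Sum.inr true))
      (Equiv.sumCongr A Equiv.boolNot) (exSk k) (exSj j) := by
  have hb := h.pos b
  have e0 : A (j b (k b - 1)) = j (a b) 0 := by
    rw [h.a _ _ (by omega)]
    congr 1
    omega
  have hinj : ∀ (z : D ⊕ Bool) (i : ℕ) (z' : D ⊕ Bool) (l : ℕ), i < exSk k z → l < exSk k z' →
      exSj j z i = exSj j z' l → z = z' ∧ i = l := by
    rintro (d | c) i (d' | c') l hi hl heq
    · have h1 := h.inj d i d' l hi hl (Sum.inl_injective heq)
      exact ⟨by rw [h1.1], h1.2⟩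
    · cases heq
    · cases heq
    · have h1 : c = c' := Sum.inr_injective heq
      have hi' : i < 1 := hi
      have hl' : l < 1 := hl
      exact ⟨by rw [h1], by omega⟩
  have hpos : ∀ z : D ⊕ Bool, 0 < exSk k z := by
    rintro (d | c)
    · exact h.pos d
    · exact Nat.one_pos
  have hf0 : Function.Injective (fun z : D ⊕ Bool => exSj j z 0) :=
    fun z z' hz => (hinj z 0 z' 0 (hpos z) (hpos z') hz).1
  have hf1 : Function.Injective (fun z : D ⊕ Bool => exSj j z (exSk k z - 1)) :=
    fun z z' hz => (hinj z _ z' _ (by have := hpos z; omega) (by have := hpos z'; omega) hz).1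
  rw [e0]
  refine ⟨hpos, ?_, ?_, hinj, ?_, ?_, ?_, ?_⟩
  · rintro (d | c)
    · exact h.ka d
    · rfl
  · rintro (d | c) hc
    · exact h.dead d (Sum.inl_injective hc)
    · rfl
  · rintro (d | c) i hi
    · have hi' : i + 1 < k d := hi
      have h1 : sw (Sum.inl (j b (k b - 1))) (Sum.inr true) (Sum.inl (j d i) : E ⊕ Bool) = Sum.inl (j d i) := by
        refine sw_of_ne (fun hc => ?_) (by simp)
        have h2 := h.inj _ _ _ _ (by omega) (by omega) (Sum.inl_injective hc)
        obtain ⟨h3, h4⟩ := h2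
        subst h3
        omega
      have h2 : sw (Sum.inl (j (a b) 0)) (Sum.inr false) (Sum.inl (j d (i + 1)) : E ⊕ Bool) = Sum.inl (j d (i + 1)) := by
        refine sw_of_ne (fun hc => ?_) (by simp)
        have h2 := h.inj _ _ _ _ hi' (h.pos _) (Sum.inl_injective hc)
        omega
      simp only [Perm.mul_apply]
      show sw (Sum.inl (j (a b) 0)) (Sum.inr false) (Equiv.sumCongr R (Equiv.refl Bool)
        (sw (Sum.inl (j b (k b - 1))) (Sum.inr true) (Sum.inl (j d i)))) = Sum.inl (j d (i + 1))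
      rw [h1]
      show sw (Sum.inl (j (a b) 0)) (Sum.inr false) (Sum.inl (R (j d i)) : E ⊕ Bool) = Sum.inl (j d (i + 1))
      rw [h.rn _ _ hi', h2]
    · have hi' : i + 1 < 1 := hi
      omega
  · intro z
    have h1 := sw_map hf1 (Sum.inl b) (Sum.inr true) z
    have h2 : ∀ z : D ⊕ Bool, Equiv.sumCongr R (Equiv.refl Bool) (exSj j z (exSk k z - 1)) =
        exSj j (Equiv.sumCongr r (Equiv.refl Bool) z) 0 := by
      rintro (d | c)
      · show (Sum.inl (R (j d (k d - 1))) : E ⊕ Bool) = Sum.inl (j (r d) 0)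
        rw [h.rl]
      · rfl
    have h3 := sw_map hf0 (Sum.inl (a b)) (Sum.inr false)
      (Equiv.sumCongr r (Equiv.refl Bool) (sw (Sum.inl b) (Sum.inr true) z))
    simp only [Perm.mul_apply]
    have h1' : sw (Sum.inl (j b (k b - 1))) (Sum.inr true) (exSj j z (exSk k z - 1)) =
        exSj j (sw (Sum.inl b) (Sum.inr true) z) (exSk k (sw (Sum.inl b) (Sum.inr true) z) - 1) := h1
    rw [h1', h2]
    exact h3
  · rintro (d | c) i hi
    · have h1 := h.a d i hi
      show (Sum.inl (A (j d i)) : E ⊕ Bool) = Sum.inl (j (a d) (k d - 1 - i))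
      rw [h1]
    · rfl
  · rintro (t | c) hout
    · have h1 := h.out t (fun d i hi heq => hout (Sum.inl d) i hi (by rw [← heq]; rfl))
      show (Sum.inl (A t) : E ⊕ Bool) = Sum.inl t
      rw [h1]
    · exact absurd rfl (hout (Sum.inr c) 0 Nat.one_pos)

/-! ## vtx and ghost -/

theorem ExpP.swl (h : ExpP r a R A k j) (p q : D) : ExpP (sw p q * r) a (sw (j p 0) (j q 0) * R) A k j := by
  refine ⟨h.pos, h.ka, h.dead, h.inj, ?_, ?_, h.a, h.out⟩
  · intro d i hi
    rw [Perm.mul_apply, h.rn d i hi]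
    refine sw_of_ne (fun hc => ?_) (fun hc => ?_)
    · have := (h.inj _ _ _ _ hi (h.pos _) hc).2
      omega
    · have := (h.inj _ _ _ _ hi (h.pos _) hc).2
      omega
  · intro d
    rw [Perm.mul_apply, h.rl, Perm.mul_apply]
    exact sw_map h.j0_inj p q (r d)

end

/-! ## lengths -/

section

variable {S T : Sf} {k : S.D → ℕ} {j : S.D → ℕ → T.D}

theorem Exp.len_le (h : Exp S T k j) {δ L : ℕ} (hδ : ∀ d, k d ≤ δ) (hL : ∀ d, S.len d ≤ L) (e : T.D) :
    T.len e ≤ δ * L := by
  by_cases he : ∃ d, ∃ i < k d, e = j d i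
  · obtain ⟨d, i, hi, rfl⟩ := he
    have hZ : ∀ x ∈ {x : T.D | ∃ d' ∈ S.word d, ∃ l < k d', x = j d' l},
        T.r x ∈ {x : T.D | ∃ d' ∈ S.word d, ∃ l < k d', x = j d' l} := by
      rintro x ⟨d', hd', l, hl, rfl⟩
      obtain ⟨d2, h2, l2, hl2, h3⟩ := h.r_mem hl
      exact ⟨d2, Perm.SameCycle.trans hd' h2, l2, hl2, h3⟩
    have hsub : T.word (j d i) ∩ T.live ⊆
        (fun p : S.D × ℕ => j p.1 p.2) '' ((S.word d ∩ S.live) ×ˢ (↑(Finset.range δ) : Set ℕ)) := by
      rintro x ⟨hx1, hx2⟩
      have h1 : x ∈ {x : T.D | ∃ d' ∈ S.word d, ∃ l < k d', x = j d' l} :=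
        mem_of_same hZ ⟨d, Perm.SameCycle.refl _ _, i, hi, rfl⟩ hx1
      obtain ⟨d', hd', l, hl, rfl⟩ := h1
      refine ⟨(d', l), ⟨⟨hd', fun hc => hx2 (h.deadT hc hl)⟩, ?_⟩, rfl⟩
      have := hδ d'
      simp only [Finset.coe_range, Set.mem_Iio]
      omega
    have hfin : ((S.word d ∩ S.live) ×ˢ (↑(Finset.range δ) : Set ℕ)).Finite :=
      Set.Finite.prod (Set.toFinite _) (Finset.finite_toSet _)
    have h1 := Set.ncard_le_ncard hsub (Set.Finite.image _ hfin)
    have h2 := Set.ncard_image_le (f := fun p : S.D × ℕ => j p.1 p.2) hfin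
    have h3 : ((S.word d ∩ S.live) ×ˢ (↑(Finset.range δ) : Set ℕ)).ncard = S.len d * δ := by
      rw [Set.ncard_prod, Set.ncard_coe_finset, Finset.card_range]
      rfl
    have h4 : T.len (j d i) = (T.word (j d i) ∩ T.live).ncard := rfl
    rw [h4]
    have h5 : S.len d * δ ≤ δ * L := by
      rw [mul_comm]
      exact Nat.mul_le_mul_left _ (hL d)
    omega
  · have h0 : T.len e = 0 := by
      unfold Sf.len Sf.num
      rw [Set.ncard_eq_zero (Set.toFinite _)]
      ext x
      refine ⟨fun hx => ?_, fun hx => hx.elim⟩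
      obtain ⟨hx1, hx2⟩ := hx
      exfalso
      apply hx2
      refine h.out x (fun d i hi hc => he ?_)
      have hZ : ∀ x ∈ {x : T.D | ∃ d', ∃ l < k d', x = j d' l},
          T.r x ∈ {x : T.D | ∃ d', ∃ l < k d', x = j d' l} := by
        rintro x ⟨d', l, hl, rfl⟩
        obtain ⟨d2, _, l2, hl2, h3⟩ := h.r_mem hl
        exact ⟨d2, l2, hl2, h3⟩
      have hx1' : T.r.SameCycle e x := hx1
      exact mem_of_same hZ (show x ∈ {x : T.D | ∃ d', ∃ l < k d', x = j d' l} from ⟨d, i, hi, hc.symm⟩) hx1'.symm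
    rw [h0]
    exact Nat.zero_le _

end

theorem exY_glue {S T : Sf} {k : S.D → ℕ} {j : S.D → ℕ → T.D} (h : Exp S T k j) {δ L : ℕ} (hδ : ∀ d, k d ≤ δ)
    (hL : ∀ d, S.len d ≤ L) (b : S.D) (hY : T.Cl (exY S.a k j b))
    (hU : U (2 * δ * L) (T.glueSet (exY S.a k j b) hY)) : U (2 * δ * L) T := by
  have hlen := h.len_le hδ hL
  refine glueSet_U (2 * δ * L) T (exY S.a k j b) (T.word (j b 0) ∪ T.word (j (S.a b) 0)) hY ?_ ?_ ?_ ?_ hU
  · rintro x ⟨d, hd, i, hi, rfl⟩
    rcases hd with hd | hd
    · subst hd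
      exact Or.inl (h.same _ i hi)
    · subst hd
      exact Or.inr (h.same _ i hi)
  · intro x
    constructor
    · rintro (hx | hx)
      · exact Or.inl (Perm.sameCycle_apply_right.1 hx)
      · exact Or.inr (Perm.sameCycle_apply_right.1 hx)
    · rintro (hx | hx)
      · exact Or.inl (Perm.sameCycle_apply_right.2 hx)
      · exact Or.inr (Perm.sameCycle_apply_right.2 hx)
  · have h1 := num_union_le T (T.word (j b 0)) (T.word (j (S.a b) 0))
    have h2 := hlen (j b 0)
    have h3 := hlen (j (S.a b) 0)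
    have h4 : 2 * δ * L = δ * L + δ * L := by ring
    have h5 : T.len (j b 0) = T.num (T.word (j b 0)) := rfl
    have h6 : T.len (j (S.a b) 0) = T.num (T.word (j (S.a b) 0)) := rfl
    omega
  · intro x
    have h2 := hlen x
    have h4 : 2 * δ * L = δ * L + δ * L := by ring
    omega

/-- **expansion lemma** -/
theorem U_exp {L : ℕ} {S : Sf} (hU : U L S) (δ : ℕ) : ∀ {T : Sf} {k : S.D → ℕ} {j : S.D → ℕ → T.D}, Exp S T k j →
    (∀ d, k d ≤ δ) → U (2 * δ * L) T := by
  have h2L : δ * L ≤ 2 * δ * L := by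
    have h4 : 2 * δ * L = δ * L + δ * L := by ring
    omega
  induction hU with
  | done S h0 =>
    intro T k j h hδ
    refine U.done T (fun e => ?_)
    by_cases he : ∃ d, ∃ i < k d, j d i = e
    · obtain ⟨d, i, hi, rfl⟩ := he
      exact h.deadT (h0 d) hi
    · exact h.out e (fun d i hi heq => he ⟨d, i, hi, heq⟩)
  | glue S b hb hl _ ih =>
    intro T k j h hδ
    have hY : T.Cl (exY S.a k j b) := ExpP.Cl h S.aa b
    refine exY_glue h hδ hl b hY (ih (k := exK S.a b k) (j := j) ?_ ?_)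
    · exact ExpP.glue h S.aa T.aa b (T.beta (exY S.a k j b)) (fun x hx => T.beta_mem hY hx)
        (fun x hx => T.beta_notMem hx)
    · refine fun (d : S.D) => ?_
      show exK S.a b k d ≤ δ
      by_cases hd : d = b ∨ d = S.a b
      · rw [exK_pos _ _ hd]
        have h1 := h.pos d
        have h2 := hδ d
        omega
      · rw [exK_neg _ _ hd]
        exact hδ d
  | dbl S e he hU' ih =>
    intro T k j h hδ
    have hlS : ∀ d, S.len d ≤ L := U_len_le (U.dbl S e he hU')
    have hlen := h.len_le hδ hlS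
    have hGl : ∀ x ∈ exBl k j e, T.a x ≠ x := by
      rintro x ⟨i, hi, rfl⟩
      exact h.liveT he hi
    refine cover_U (2 * δ * L) T (exBl k j e) (exJ k j e) hGl (fun d => ?_)
      (ih (T := T.cover (exBl k j e) (exJ k j e)) (k := exDk k e) (j := exDj k j e (h.pos e)) ?_ ?_)
    · have h2 := hlen d
      have h4 : 2 * δ * L = δ * L + δ * L := by ring
      omega
    · exact ExpP.dbl h e he
    · rintro (d | c)
      · exact hδ d
      · exact hδ e
  | sub S b hb _ ih =>
    intro T k j h hδ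
    have hk := h.pos b
    refine U.sub T (j b (k b - 1)) (h.liveT hb (by omega)) (ih (k := exSk k) (j := exSj j) ?_ ?_)
    · exact ExpP.sub h b
    · rintro (d | c)
      · exact hδ d
      · have h2 := hδ b
        show 1 ≤ δ
        omega
  | vtx S p q hp hq hpq hc hl _ ih =>
    intro T k j h hδ
    have hlen := h.len_le hδ hl
    refine U.vtx T (j p 0) (j q 0) (h.liveT hp (h.pos p)) (h.liveT hq (h.pos q))
      (fun hc => hpq (h.j0_inj hc)) ?_ (fun x => (hlen x).trans h2L)
      (ih (T := T.setr (sw (j p 0) (j q 0) * T.r)) (k := k) (j := j) ?_ hδ)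
    · refine (same_map' (s := S.r * S.a) (t := T.r * T.a) h.j0_inj (fun d => ?_) p q).2 hc
      exact h.ra0 d
    · exact ExpP.swl h p q
  | ghost S g hg _ ih =>
    intro T k j h hδ
    have h1 : k g = 1 := h.dead g hg
    have h2 : T.r (j g 0) = j (S.r g) 0 := by
      have h3 := h.rl g
      rw [h1] at h3
      exact h3
    refine U.ghost T (j g 0) (h.deadT hg (h.pos g)) ?_
    rw [h2]
    exact ih (T := T.setr (sw (j g 0) (j (S.r g) 0) * T.r)) (k := k) (j := j) (ExpP.swl h g (S.r g)) hδ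

/-- expansion lemma for states with dead letters in the words: the live letters of `T` are the letters `j d i` (`i < k d`),
`d` a letter of the closed state `S`; in the words of `T` (dead letters omitted) `j d i` is followed by `j d (i + 1)` and
the last letter of the block of `d` by the first letter of the block of `S.r d`. -/
theorem U_exp_nx {L : ℕ} {S : Sf} (hU : U L S) (hS : ∀ d, S.a d ≠ d) (δ : ℕ) (T : Sf) (k : S.D → ℕ)
    (j : S.D → ℕ → T.D) (hpos : ∀ d, 0 < k d) (hδ : ∀ d, k d ≤ δ) (hka : ∀ d, k (S.a d) = k d)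
    (hinj : ∀ d i e l, i < k d → l < k e → j d i = j e l → d = e ∧ i = l)
    (ha : ∀ d i, i < k d → T.a (j d i) = j (S.a d) (k d - 1 - i))
    (hrn : ∀ d i, i + 1 < k d → Nxr T (j d i) (j d (i + 1)))
    (hrl : ∀ d, Nxr T (j d (k d - 1)) (j (S.r d) 0))
    (hout : ∀ e, T.a e ≠ e → ∃ d, ∃ i < k d, j d i = e) : U (2 * δ * L) T := by
  obtain ⟨r', h1, h2, h3⟩ := purge_nx T
  apply h3
  have hlive : ∀ d i, i < k d → T.a (j d i) ≠ j d i := by
    intro d i hi hc
    rw [ha d i hi] at hc
    have hk := hka d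
    exact hS d (hinj _ _ _ _ (by omega) hi hc).1
  have hr'live : ∀ x, T.a x ≠ x → T.a (r' x) ≠ r' x := by
    intro x hx hc
    have h4 : r' (r' x) = r' x := h1 _ hc
    have h5 : r' x = x := r'.injective h4
    rw [h5] at hc
    exact hx hc
  refine U_exp hU δ (T := T.setr r') (k := k) (j := j) ⟨hpos, hka, fun d hd => absurd hd (hS d), hinj, ?_, ?_, ha, ?_⟩ hδ
  · intro d i hi
    exact (h2 _ (hlive d i (by omega))).unique (hrn d i hi) (hr'live _ (hlive d i (by omega))) (hlive d (i + 1) hi)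
  · intro d
    have hk := hpos d
    exact (h2 _ (hlive d _ (by omega))).unique (hrl d) (hr'live _ (hlive d _ (by omega))) (hlive _ 0 (hpos _))
  · intro e he
    by_contra hc
    obtain ⟨d, i, hi, h4⟩ := hout e hc
    exact he d i hi h4

end Pool.Agent.GW
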