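import Pool.Agent.GW.StrG

/-!
# The strand theorem (see FatDef for the definitions)
-/

set_option autoImplicit false

namespace Pool.Agent.GW

open Equiv Pool.Agent.SWP

theorem SLk.out {S : Sf} {F : Set S.D} (hF : Fat S F) {l : List (S.D × S.D)} {x y : S.D} (h : SLk S F l x y) :
    StrandOut S F l x y (st3 S l x y) (stF S F l x y) (fun d => (Sum.inl (Sum.inl d) : stD2 S l x y)) (stP S l x y)
      (stS S l x y) (stZf S l x y) (stZe S l x y) (stC S l x y) where
  fat := h.fat3 hF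
  inj := fun _ _ h1 => Sum.inl.inj (Sum.inl.inj h1)
  pj := fun _ => rfl
  jF := by
    intro d
    refine SLk.inl_F.trans ?_
    constructor
    · rintro ⟨h1, h2⟩
      exact ⟨h1, fun h3 => h2 ((h.cutF h1).1 h3)⟩
    · rintro ⟨h1, h2⟩
      exact ⟨h1, fun h3 => h2 ((h.cutF h1).2 h3)⟩
  ja := by
    intro d hd
    rw [sa3_not S l x y (h.old_notY hd), a2_old]
  jd := fun d hd => sa3_mem S l x y hd
  piF := by
    intro c hc
    rcases h.F_cases hc with ⟨d, rfl, h1, _⟩ | ⟨t, rfl, h1⟩ | ⟨g, rfl⟩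
    · exact h1
    · exact h.WF hF h1.1
    · exact h.WF hF g.2.1
  pir := fun c hc => (h.rF hF hc).2
  off := by
    intro d hd h1
    refine h.r3old hF ?_ ?_
    · rintro ⟨p, hp, h2⟩
      exact h1 p hp h2
    · intro h2
      obtain ⟨p, hp, h3⟩ := h.KW ((h.cutF hd).1 h2)
      exact h1 p hp h3
  newF := fun c hc hn => h.newF hc hn
  newa := fun c hc hn d => h.newa hF hc hn d
  sdF := fun p hp b c hc => h.S_F hF hp b hc
  sdc := fun p hp c hc hs => h.S_cov hp hc hs
  sds := fun p hp b c hc c' => h.S_cyc hF hp b hc c'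
  sdd := fun p hp c hc => h.S_dis hp hc
  sdA := fun p hp d hd => Or.inl ⟨_, rfl, h.A_old hp true hd⟩
  sdB := fun p hp d hd => Or.inl ⟨_, rfl, h.A_old hp false hd⟩
  sdp := fun p hp b => h.sdp hF hp b
  zf1 := fun p hp hy b => h.zf1 hp hy b
  ze1 := fun p hp hx b => h.ze1 hp hx b
  zz := fun p hp q hq h1 b => h.zz hp hq h1 b
  res := fun c hc h1 h2 => h.res hF hc h1 h2
  num := fun p hp => h.num hp
  outr := by
    intro d hd h1
    refine h.r3old hF (fun h2 => hd (h.WF hF h2)) ?_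
    intro h2
    rcases (h.cutO hd).1 h2 with h3 | h3
    · exact h1 (by rw [h3])
    · exact h1 (by rw [h3]; exact h.outer)
  Cinv := fun b c hc => h.Cinv hF b hc
  CF := fun b c hc => h.CF hF b hc
  Cdis := fun c hc => h.Cdis hF hc
  Ccov := fun c hc => h.Ccov hF hc
  CA := fun d hd hc => h.CAB hF true hd hc
  CB := fun d hd hc => h.CAB hF false hd hc
  newO := h.newO
  prs := h.prs3 hF

/-- STRAND. The length bound `M` must allow the outer word and all words of the chain. -/
theorem strand (S : Sf) (F : Set S.D) (hF : Fat S F) (l : List (S.D × S.D)) (x y : S.D) (h : Chn S F l x y) (L : ℕ)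
    (hL : ∀ d, 6 * S.len d ≤ L)
    (hM : S.len (S.a x) + 3 * {d | ∃ p ∈ l, S.r.SameCycle p.1 d}.ncard ≤ L) :
    ∃ (S' : Sf) (F' : Set S'.D) (j : S.D → S'.D) (π : S'.D → S.D) (sd : S.D × S.D → Bool → Set S'.D)
      (zf ze : S.D × S.D → Bool → S'.D) (C : Bool → Set S'.D),
      StrandOut S F l x y S' F' j π sd zf ze C ∧ (U L S' → U L S) :=
  ⟨st3 S l x y, stF S F l x y, _, stP S l x y, stS S l x y, stZf S l x y, stZe S l x y, stC S l x y, h.lk.out hF,
    h.lk.U3 hF L hL hM⟩

end Pool.Agent.GW
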