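import Pool.Agent.GW.UBas
import Pool.Agent.GW.Union

/-!
# Subdividing a set of letters (explicit state)

`msub Q`: for every `q ∈ Q` the new letter `(q,true)` comes directly after `q`, its partner `(q,false)` directly before `a q`.
PROOF of `msub_U`: induction on `Q.ncard`; for `Q = Q0 ∪ {b}` the state `(msub Q0).sub (inl b)` is isomorphic to `msub Q`.
-/

set_option autoImplicit false

namespace Pool.Agent.GW

open Equiv Pool.Agent.SWP

section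
variable {D : Type}

/-- the first letter at the position of `t` -/
noncomputable def msN (a : Perm D) (Q : Set D) (t : D) : D ⊕ (Q × Bool) :=
  open Classical in if h : a t ∈ Q then Sum.inr (⟨a t, h⟩, false) else Sum.inl t

noncomputable def msF (r a : Perm D) (Q : Set D) : D ⊕ (Q × Bool) → D ⊕ (Q × Bool)
  | Sum.inl t => open Classical in if h : t ∈ Q then Sum.inr (⟨t, h⟩, true) else msN a Q (r t)
  | Sum.inr (q, true) => msN a Q (r q)
  | Sum.inr (q, false) => Sum.inl (a q)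

theorem msN_mem (a : Perm D) (Q : Set D) {t : D} (h : a t ∈ Q) : msN a Q t = Sum.inr (⟨a t, h⟩, false) := by
  unfold msN; rw [dif_pos h]

theorem msN_notMem (a : Perm D) (Q : Set D) {t : D} (h : a t ∉ Q) : msN a Q t = Sum.inl t := by
  unfold msN; rw [dif_neg h]

theorem msF_mem (r a : Perm D) (Q : Set D) {t : D} (h : t ∈ Q) : msF r a Q (Sum.inl t) = Sum.inr (⟨t, h⟩, true) := by
  simp only [msF]; rw [dif_pos h]

theorem msF_notMem (r a : Perm D) (Q : Set D) {t : D} (h : t ∉ Q) : msF r a Q (Sum.inl t) = msN a Q (r t) := by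
  simp only [msF]; rw [dif_neg h]

theorem msN_inj (a : Perm D) (Q : Set D) : Function.Injective (msN a Q) := by
  intro s t h
  by_cases hs : a s ∈ Q
  · by_cases ht : a t ∈ Q
    · rw [msN_mem a Q hs, msN_mem a Q ht] at h
      simp only [Sum.inr.injEq, Prod.mk.injEq, Subtype.mk.injEq, and_true] at h
      exact a.injective h
    · rw [msN_mem a Q hs, msN_notMem a Q ht] at h; cases h
  · by_cases ht : a t ∈ Q
    · rw [msN_notMem a Q hs, msN_mem a Q ht] at h; cases h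
    · rw [msN_notMem a Q hs, msN_notMem a Q ht] at h
      exact Sum.inl.inj h

theorem msN_ne_true (a : Perm D) (Q : Set D) (t : D) (q : Q) : msN a Q t ≠ Sum.inr (q, true) := by
  intro h
  by_cases ht : a t ∈ Q
  · rw [msN_mem a Q ht] at h; simp at h
  · rw [msN_notMem a Q ht] at h; cases h

theorem msN_ne_inl (a : Perm D) (ha : ∀ d, a (a d) = d) (Q : Set D) (t : D) (q : Q) :
    msN a Q t ≠ Sum.inl (a q) := by
  intro h
  by_cases ht : a t ∈ Q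
  · rw [msN_mem a Q ht] at h; cases h
  · rw [msN_notMem a Q ht] at h
    have h1 : t = a q := Sum.inl.inj h
    exact ht (by rw [h1, ha]; exact q.2)

theorem msF_inj (r a : Perm D) (ha : ∀ d, a (a d) = d) (Q : Set D) : Function.Injective (msF r a Q) := by
  have key : ∀ x : D ⊕ (Q × Bool), (∃ q : Q, x = Sum.inl (q : D) ∧ msF r a Q x = Sum.inr (q, true)) ∨
      (∃ q : Q, x = Sum.inr (q, false) ∧ msF r a Q x = Sum.inl (a q)) ∨
      (∃ t : D, (x = Sum.inl t ∧ t ∉ Q ∨ ∃ h : t ∈ Q, x = Sum.inr (⟨t, h⟩, true)) ∧ msF r a Q x = msN a Q (r t)) := by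
    rintro (t | ⟨q, c⟩)
    · by_cases ht : t ∈ Q
      · exact Or.inl ⟨⟨t, ht⟩, rfl, msF_mem r a Q ht⟩
      · exact Or.inr (Or.inr ⟨t, Or.inl ⟨rfl, ht⟩, msF_notMem r a Q ht⟩)
    · cases c
      · exact Or.inr (Or.inl ⟨q, rfl, rfl⟩)
      · exact Or.inr (Or.inr ⟨q, Or.inr ⟨q.2, rfl⟩, rfl⟩)
  intro x y hxy
  rcases key x with ⟨q, hx, hx'⟩ | ⟨q, hx, hx'⟩ | ⟨t, hx, hx'⟩ <;>
    rcases key y with ⟨p, hy, hy'⟩ | ⟨p, hy, hy'⟩ | ⟨s, hy, hy'⟩ <;> rw [hx', hy'] at hxy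
  · simp only [Sum.inr.injEq, Prod.mk.injEq, and_true] at hxy
    rw [hx, hy, hxy]
  · cases hxy
  · exact absurd hxy.symm (msN_ne_true a Q _ q)
  · cases hxy
  · have h1 : q = p := Subtype.ext (a.injective (Sum.inl.inj hxy))
    rw [hx, hy, h1]
  · exact absurd hxy.symm (msN_ne_inl a ha Q _ q)
  · exact absurd hxy (msN_ne_true a Q _ p)
  · exact absurd hxy (msN_ne_inl a ha Q _ p)
  · have h1 : t = s := r.injective (msN_inj a Q hxy)
    subst h1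
    rcases hx with ⟨hx, h2⟩ | ⟨h2, hx⟩ <;> rcases hy with ⟨hy, h3⟩ | ⟨h3, hy⟩
    · rw [hx, hy]
    · exact absurd h3 h2
    · exact absurd h2 h3
    · rw [hx, hy]

noncomputable def msR [Finite D] (r a : Perm D) (ha : ∀ d, a (a d) = d) (Q : Set D) : Perm (D ⊕ (Q × Bool)) :=
  Equiv.ofBijective (msF r a Q) (Finite.injective_iff_bijective.1 (msF_inj r a ha Q))

theorem msR_apply [Finite D] (r a : Perm D) (ha : ∀ d, a (a d) = d) (Q : Set D) (x : D ⊕ (Q × Bool)) :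
    msR r a ha Q x = msF r a Q x := rfl

end

/-- subdivide all letters of `Q` -/
noncomputable def Sf.msub (S : Sf) (Q : Set S.D) : Sf where
  D := S.D ⊕ (Q × Bool)
  fD := Fintype.ofFinite _
  r := msR S.r S.a S.aa Q
  a := Equiv.sumCongr S.a (Equiv.prodCongr (Equiv.refl Q) Equiv.boolNot)
  aa := by
    rintro (d | ⟨d, c⟩)
    · simp [S.aa]
    · cases c <;> simp

/-- the letters of `msub Q` and of `(msub Q0).sub (inl b)` -/
noncomputable def msG {D : Type} (Q Q0 : Set D) (b : D) (h0 : ∀ q, q ∈ Q0 ↔ q ∈ Q ∧ q ≠ b) :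
    D ⊕ (Q × Bool) → (D ⊕ (Q0 × Bool)) ⊕ Bool
  | Sum.inl d => Sum.inl (Sum.inl d)
  | Sum.inr (q, c) => open Classical in
      if h : (q : D) = b then Sum.inr c else Sum.inl (Sum.inr (⟨q, (h0 q).2 ⟨q.2, h⟩⟩, c))

def msH {D : Type} (Q Q0 : Set D) (b : D) (hb : b ∈ Q) (h0 : ∀ q, q ∈ Q0 ↔ q ∈ Q ∧ q ≠ b) :
    (D ⊕ (Q0 × Bool)) ⊕ Bool → D ⊕ (Q × Bool)
  | Sum.inl (Sum.inl d) => Sum.inl d
  | Sum.inl (Sum.inr (q, c)) => Sum.inr (⟨q, ((h0 q).1 q.2).1⟩, c)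
  | Sum.inr c => Sum.inr (⟨b, hb⟩, c)

theorem msG_b {D : Type} (Q Q0 : Set D) (b : D) (h0 : ∀ q, q ∈ Q0 ↔ q ∈ Q ∧ q ≠ b) (q : Q) (h : (q : D) = b)
    (c : Bool) : msG Q Q0 b h0 (Sum.inr (q, c)) = Sum.inr c := by
  simp only [msG]; rw [dif_pos h]

theorem msG_q {D : Type} (Q Q0 : Set D) (b : D) (h0 : ∀ q, q ∈ Q0 ↔ q ∈ Q ∧ q ≠ b) (q : Q) (h : (q : D) ≠ b)
    (c : Bool) : msG Q Q0 b h0 (Sum.inr (q, c)) = Sum.inl (Sum.inr (⟨q, (h0 q).2 ⟨q.2, h⟩⟩, c)) := by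
  simp only [msG]; rw [dif_neg h]

noncomputable def msE {D : Type} (Q Q0 : Set D) (b : D) (hb : b ∈ Q) (h0 : ∀ q, q ∈ Q0 ↔ q ∈ Q ∧ q ≠ b) :
    D ⊕ (Q × Bool) ≃ (D ⊕ (Q0 × Bool)) ⊕ Bool where
  toFun := msG Q Q0 b h0
  invFun := msH Q Q0 b hb h0
  left_inv := by
    rintro (d | ⟨⟨q, hq⟩, c⟩)
    · rfl
    · by_cases h : q = b
      · subst h
        rw [msG_b Q Q0 q h0 ⟨q, hq⟩ rfl c]; rfl
      · rw [msG_q Q Q0 b h0 ⟨q, hq⟩ h c]; rfl
  right_inv := by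
    rintro ((d | ⟨⟨q, hq⟩, c⟩) | c)
    · rfl
    · have h : q ≠ b := ((h0 q).1 hq).2
      exact msG_q Q Q0 b h0 ⟨q, ((h0 q).1 hq).1⟩ h c
    · exact msG_b Q Q0 b h0 ⟨b, hb⟩ rfl c

section
variable {D : Type} (Q Q0 : Set D) (b : D) (hb : b ∈ Q) (h0 : ∀ q, q ∈ Q0 ↔ q ∈ Q ∧ q ≠ b)

theorem msE_inl (d : D) : msE Q Q0 b hb h0 (Sum.inl d) = Sum.inl (Sum.inl d) := rfl

theorem msE_b (q : Q) (h : (q : D) = b) (c : Bool) : msE Q Q0 b hb h0 (Sum.inr (q, c)) = Sum.inr c := by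
  exact msG_b Q Q0 b h0 q h c

theorem msE_q (q : Q) (h : (q : D) ≠ b) (c : Bool) :
    msE Q Q0 b hb h0 (Sum.inr (q, c)) = Sum.inl (Sum.inr (⟨q, (h0 q).2 ⟨q.2, h⟩⟩, c)) := by
  exact msG_q Q Q0 b h0 q h c

theorem msE_msN (a : Perm D) (ha : ∀ d, a (a d) = d) (t : D) :
    msE Q Q0 b hb h0 (msN a Q t) =
      sw (Sum.inl (Sum.inl (a b))) (Sum.inr false) (Sum.inl (msN a Q0 t)) := by
  by_cases ht : a t ∈ Q
  · rw [msN_mem a Q ht]
    by_cases h1 : a t = b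
    · rw [msE_b _ _ _ _ _ _ h1]
      have h2 : a t ∉ Q0 := fun h => ((h0 _).1 h).2 h1
      rw [msN_notMem a Q0 h2]
      have h3 : t = a b := by rw [← h1, ha]
      rw [← h3, sw_left]
    · rw [msE_q _ _ _ _ _ _ h1]
      have h2 : a t ∈ Q0 := (h0 _).2 ⟨ht, h1⟩
      rw [msN_mem a Q0 h2, sw_of_ne (by simp) (by simp)]
  · have h2 : a t ∉ Q0 := fun h => ht ((h0 _).1 h).1
    have h3 : t ≠ a b := fun h => ht (by rw [h, ha]; exact hb)
    rw [msN_notMem a Q ht, msN_notMem a Q0 h2, sw_of_ne (by simpa using h3) (by simp)]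
    rfl

end

/-- the permutation of `(msub Q0).sub (inl b)` -/
noncomputable def msT {D : Type} [Finite D] (r a : Perm D) (ha : ∀ d, a (a d) = d) (Q0 : Set D) (b : D) :
    Perm ((D ⊕ (Q0 × Bool)) ⊕ Bool) :=
  sw (Sum.inl (Sum.inl (a b))) (Sum.inr false) * Equiv.sumCongr (msR r a ha Q0) (Equiv.refl Bool) *
      sw (Sum.inl (Sum.inl b)) (Sum.inr true)

theorem msE_perm {D : Type} [Finite D] (r a : Perm D) (ha : ∀ d, a (a d) = d) (Q Q0 : Set D) (b : D) (hb : b ∈ Q)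
    (h0 : ∀ q, q ∈ Q0 ↔ q ∈ Q ∧ q ≠ b) (x : D ⊕ (Q × Bool)) :
    msT r a ha Q0 b (msE Q Q0 b hb h0 x) = msE Q Q0 b hb h0 (msF r a Q x) := by
  have hb0 : b ∉ Q0 := fun h => ((h0 b).1 h).2 rfl
  have hP : ∀ x : D ⊕ (Q0 × Bool), x ≠ Sum.inl b →
      msT r a ha Q0 b (Sum.inl x) =
        sw (Sum.inl (Sum.inl (a b))) (Sum.inr false) (Sum.inl (msF r a Q0 x)) := by
    intro x hx
    have h1 : sw (Sum.inl (Sum.inl b)) (Sum.inr true) (Sum.inl x : (D ⊕ (Q0 × Bool)) ⊕ Bool) = Sum.inl x :=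
      sw_of_ne (by simpa using hx) (by simp)
    rw [msT, Perm.mul_apply, Perm.mul_apply, h1]
    rfl
  have hT : msT r a ha Q0 b (Sum.inr true) =
      sw (Sum.inl (Sum.inl (a b))) (Sum.inr false) (Sum.inl (msF r a Q0 (Sum.inl b))) := by
    rw [msT, Perm.mul_apply, Perm.mul_apply, sw_right]
    rfl
  have hF : msT r a ha Q0 b (Sum.inr false) = Sum.inl (Sum.inl (a b)) := by
    have h1 : sw (Sum.inl (Sum.inl b)) (Sum.inr true) (Sum.inr false : (D ⊕ (Q0 × Bool)) ⊕ Bool) = Sum.inr false :=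
      sw_of_ne (by simp) (by simp)
    rw [msT, Perm.mul_apply, Perm.mul_apply, h1]
    exact sw_right _ _
  have hB : msT r a ha Q0 b (Sum.inl (Sum.inl b)) = Sum.inr true := by
    rw [msT, Perm.mul_apply, Perm.mul_apply, sw_left]
    exact sw_of_ne (by simp) (by simp)
  rcases x with t | ⟨q, c⟩
  · rw [msE_inl]
    by_cases ht : t ∈ Q
    · rw [msF_mem _ _ _ ht]
      by_cases h1 : t = b
      · rw [show (Sum.inl (Sum.inl t) : (D ⊕ (Q0 × Bool)) ⊕ Bool) = Sum.inl (Sum.inl b) by rw [h1], hB]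
        exact (msE_b Q Q0 b hb h0 ⟨t, ht⟩ h1 true).symm
      · rw [hP _ (by simpa using h1), msF_mem _ _ _ ((h0 t).2 ⟨ht, h1⟩), msE_q _ _ _ _ _ _ h1,
          sw_of_ne (by simp) (by simp)]
    · have h1 : t ≠ b := fun h => ht (h ▸ hb)
      have h2 : t ∉ Q0 := fun h => ht ((h0 t).1 h).1
      rw [msF_notMem _ _ _ ht, hP _ (by simpa using h1), msF_notMem _ _ _ h2, msE_msN _ _ _ _ _ _ ha]
  · cases c
    · change _ = msE Q Q0 b hb h0 (Sum.inl (a q))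
      rw [msE_inl]
      by_cases h1 : (q : D) = b
      · rw [msE_b _ _ _ _ _ _ h1, hF, h1]
      · rw [msE_q _ _ _ _ _ _ h1, hP _ (by simp)]
        change sw (Sum.inl (Sum.inl (a b))) (Sum.inr false) (Sum.inl (Sum.inl (a q))) = _
        rw [sw_of_ne (by simpa using h1) (by simp)]
    · change _ = msE Q Q0 b hb h0 (msN a Q (r q))
      rw [msE_msN _ _ _ _ _ _ ha]
      by_cases h1 : (q : D) = b
      · rw [msE_b _ _ _ _ _ _ h1, hT, msF_notMem _ _ _ hb0, h1]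
      · rw [msE_q _ _ _ _ _ _ h1, hP _ (by simp)]
        rfl

theorem msE_inv {D : Type} (a : Perm D) (Q Q0 : Set D) (b : D) (hb : b ∈ Q)
    (h0 : ∀ q, q ∈ Q0 ↔ q ∈ Q ∧ q ≠ b) (x : D ⊕ (Q × Bool)) :
    Equiv.sumCongr (Equiv.sumCongr a (Equiv.prodCongr (Equiv.refl Q0) Equiv.boolNot)) Equiv.boolNot
      (msE Q Q0 b hb h0 x) =
      msE Q Q0 b hb h0 (Equiv.sumCongr a (Equiv.prodCongr (Equiv.refl Q) Equiv.boolNot) x) := by
  rcases x with t | ⟨q, c⟩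
  · rfl
  · change _ = msE Q Q0 b hb h0 (Sum.inr (q, Equiv.boolNot c))
    by_cases h1 : (q : D) = b
    · rw [msE_b _ _ _ _ _ _ h1, msE_b _ _ _ _ _ _ h1]
      rfl
    · rw [msE_q _ _ _ _ _ _ h1, msE_q _ _ _ _ _ _ h1]
      rfl

theorem msub_iso (S : Sf) (Q Q0 : Set S.D) (b : S.D) (hb : b ∈ Q) (h0 : ∀ q, q ∈ Q0 ↔ q ∈ Q ∧ q ≠ b) :
    Iso (S.msub Q) ((S.msub Q0).sub (Sum.inl b)) (msE Q Q0 b hb h0) where
  r := fun d => msE_perm S.r S.a S.aa Q Q0 b hb h0 d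
  a := fun d => msE_inv S.a Q Q0 b hb h0 d

theorem msub_empty_iso (S : Sf) : Iso (S.msub ∅) S (Equiv.sumEmpty S.D ((∅ : Set S.D) × Bool)) where
  r := by
    rintro (t | ⟨⟨q, hq⟩, c⟩)
    · change S.r t = Equiv.sumEmpty S.D ((∅ : Set S.D) × Bool) (msF S.r S.a ∅ (Sum.inl t))
      rw [msF_notMem _ _ _ (Set.notMem_empty t), msN_notMem _ _ (Set.notMem_empty _)]
      rfl
    · exact absurd hq (Set.notMem_empty q)
  a := by
    rintro (t | ⟨⟨q, hq⟩, c⟩)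
    · rfl
    · exact absurd hq (Set.notMem_empty q)

theorem msub_U (L : ℕ) (S : Sf) (Q : Set S.D) (hQ : ∀ x ∈ Q, S.a x ≠ x) (h : U L (S.msub Q)) : U L S := by
  have key : ∀ (n : ℕ) (Q : Set S.D), Q.ncard = n → (∀ x ∈ Q, S.a x ≠ x) → U L (S.msub Q) → U L S := by
    intro n
    induction n with
    | zero =>
      intro Q hn _ hU
      have h1 : Q = ∅ := (Set.ncard_eq_zero (Set.toFinite _)).1 hn
      subst h1
      exact hU.iso (msub_empty_iso S)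
    | succ n ih =>
      intro Q hn hQ hU
      have hne : Q.Nonempty := by
        rw [← Set.ncard_pos (Set.toFinite _)]; omega
      obtain ⟨b, hb⟩ := hne
      have h0 : ∀ q, q ∈ Q \ {b} ↔ q ∈ Q ∧ q ≠ b := fun q => by simp
      have h1 : (Q \ {b}).ncard = n := by
        have := Set.ncard_sdiff_singleton_add_one hb (Set.toFinite _)
        omega
      refine ih (Q \ {b}) h1 (fun x hx => hQ x hx.1) ?_
      refine U.sub (S.msub (Q \ {b})) (Sum.inl b) ?_ (hU.iso (msub_iso S Q (Q \ {b}) b hb h0))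
      intro h2
      exact hQ b hb (Sum.inl.inj h2)
  exact key _ Q rfl hQ h

end Pool.Agent.GW
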