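import Pool.Agent.GW.Cover
import Pool.Agent.GW.Msub

/-!
# Fat words, strands: definitions and interface

State `S` with a set `F` of FAT letters (a union of words, all letters live). All other letters are OUTER letters; the
partner of a live outer letter is fat (a PORT). Fat letters with fat partner are RESERVED. `prs`: pairs of different
live outer letters at the same vertex (open corners).

A CHAIN is a list of pairs `(e, f)` (entry, exit) of letters of pairwise different fat words, the partner of the exit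
`f` is the entry of the next pair. A STRAND along a chain from the port `x` (first entry) to the port `y` (last exit), where the
outer letters `a x`, `a y` lie in one word: `Cr` = entries and exits except `x`, `y` (crossing letters), `C` = all entries and
exits. The new state is
  `((S.msub Cr).cover G univ).glueSet Y`, `G` = all letters of the words of the chain (with the letters added by `msub`) which are
  not (images of) letters of `C`, `Y` = images of the letters `d` with `d ∈ C` or `a d ∈ C`.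
For a word `(e, A, f, B)` of the chain: with the subdivision letters `A`, `B` become `zA`, `zB` (extended arcs), the word becomes
the two words `(zA, copies)`, `(zB, copies)` [the sides `sd (e,f) true`, `sd (e,f) false`] and the strip word `(e, zA', f, zB')`; the
strips are glued at the crossing letters and at `x`, `y` to the outer word.
-/

set_option autoImplicit false

namespace Pool.Agent.GW

open Equiv Pool.Agent.SWP

structure Fat (S : Sf) (F : Set S.D) : Prop where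
  inv : S.Inv F
  live : ∀ d ∈ F, S.a d ≠ d
  out : ∀ d, d ∉ F → S.a d ≠ d → S.a d ∈ F

/-- open corners: ordered pairs of different live outer letters at the same vertex -/
def prs (S : Sf) (F : Set S.D) : Set (S.D × S.D) :=
  {p | p.1 ∉ F ∧ p.2 ∉ F ∧ S.a p.1 ≠ p.1 ∧ S.a p.2 ≠ p.2 ∧ p.1 ≠ p.2 ∧ S.vx p.1 p.2}

/-- chains of fat words -/
structure Chn (S : Sf) (F : Set S.D) (l : List (S.D × S.D)) (x y : S.D) : Prop where
  two : 2 ≤ l.length
  fat : ∀ p ∈ l, p.1 ∈ F ∧ p.2 ∈ F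
  same : ∀ p ∈ l, S.r.SameCycle p.1 p.2
  ne : ∀ p ∈ l, p.1 ≠ p.2
  dist : l.Pairwise (fun p q => ¬ S.r.SameCycle p.1 q.1)
  chain : l.IsChain (fun p q => S.a p.2 = q.1)
  hx : ∃ f, l.head? = some (x, f)
  hy : ∃ e, l.getLast? = some (e, y)
  ax : S.a x ∉ F
  ay : S.a y ∉ F
  outer : S.r.SameCycle (S.a x) (S.a y)

/-- the letter `d` is an entry or an exit of the chain or the partner of one -/
def Cut (S : Sf) (l : List (S.D × S.D)) (d : S.D) : Prop :=
  ∃ p ∈ l, d = p.1 ∨ d = p.2 ∨ S.a d = p.1 ∨ S.a d = p.2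

/-- result of a strand: new state, new fat letters, inclusion `j`, projection `π`, sides `sd`, the subdivision letters
`zf p b` (next to the exit of `p`) and `ze p b` (next to the entry of `p`) on the side `b`, outer parts `C`. -/
structure StrandOut (S : Sf) (F : Set S.D) (l : List (S.D × S.D)) (x y : S.D) (S' : Sf) (F' : Set S'.D)
    (j : S.D → S'.D) (π : S'.D → S.D) (sd : S.D × S.D → Bool → Set S'.D) (zf ze : S.D × S.D → Bool → S'.D)
    (C : Bool → Set S'.D) : Prop where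
  fat : Fat S' F'
  inj : Function.Injective j
  pj : ∀ d, π (j d) = d
  jF : ∀ d, j d ∈ F' ↔ d ∈ F ∧ ¬ Cut S l d
  ja : ∀ d, ¬ Cut S l d → S'.a (j d) = j (S.a d)
  jd : ∀ d, Cut S l d → S'.a (j d) = j d
  piF : ∀ c ∈ F', π c ∈ F
  pir : ∀ c ∈ F', S.r.SameCycle (π c) (π (S'.r c))
  off : ∀ d ∈ F, (∀ p ∈ l, ¬ S.r.SameCycle p.1 d) → S'.r (j d) = j (S.r d)
  newF : ∀ c ∈ F', (∀ d, j d ≠ c) → ∃ p ∈ l, S.r.SameCycle p.1 (π c)
  newa : ∀ c ∈ F', (∀ d, j d ≠ c) → ∀ d, S'.a c ≠ j d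
  sdF : ∀ p ∈ l, ∀ b, ∀ c ∈ sd p b, c ∈ F' ∧ S.r.SameCycle p.1 (π c)
  sdc : ∀ p ∈ l, ∀ c ∈ F', S.r.SameCycle p.1 (π c) → ∃ b, c ∈ sd p b
  sds : ∀ p ∈ l, ∀ b, ∀ c ∈ sd p b, ∀ c', S'.r.SameCycle c c' ↔ c' ∈ sd p b
  sdd : ∀ p ∈ l, ∀ c ∈ sd p true, c ∉ sd p false
  sdA : ∀ p ∈ l, ∀ d, Arc S.r (S.r p.1) p.2 d → j d ∈ sd p true
  sdB : ∀ p ∈ l, ∀ d, Arc S.r (S.r p.2) p.1 d → j d ∈ sd p false
  sdp : ∀ p ∈ l, ∀ b, ∃ c ∈ sd p b, S'.a c ∉ F'
  zf1 : ∀ p ∈ l, p.2 ≠ y → ∀ b, zf p b ∈ sd p b ∧ ∀ d, j d ≠ zf p b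
  ze1 : ∀ p ∈ l, p.1 ≠ x → ∀ b, ze p b ∈ sd p b ∧ ∀ d, j d ≠ ze p b
  zz : ∀ p ∈ l, ∀ q ∈ l, S.a p.2 = q.1 → ∀ b, S'.a (zf p b) = ze q b
  res : ∀ c ∈ F', S'.a c ∈ F' → (∀ d, j d ≠ c) → ∃ p ∈ l, ∃ b, (p.2 ≠ y ∧ c = zf p b) ∨ (p.1 ≠ x ∧ c = ze p b)
  num : ∀ p ∈ l, {c | c ∈ F' ∧ S.r.SameCycle p.1 (π c)}.ncard ≤ 4 * (S.word p.1).ncard
  outr : ∀ d, d ∉ F → ¬ S.r.SameCycle (S.a x) d → S'.r (j d) = j (S.r d)
  Cinv : ∀ b, ∀ c ∈ C b, S'.r c ∈ C b
  CF : ∀ b, ∀ c ∈ C b, c ∉ F'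
  Cdis : ∀ c ∈ C true, c ∉ C false
  Ccov : ∀ c, c ∉ F' → (∃ d, c = j d ∧ d ∉ F ∧ ¬ S.r.SameCycle (S.a x) d) ∨ c ∈ C true ∨ c ∈ C false
  CA : ∀ d, d ∉ F → ¬ Cut S l d → (j d ∈ C true ↔ Arc S.r (S.r (S.a y)) (S.a x) d)
  CB : ∀ d, d ∉ F → ¬ Cut S l d → (j d ∈ C false ↔ Arc S.r (S.r (S.a x)) (S.a y) d)
  newO : {c | c ∉ F' ∧ ∀ d, j d ≠ c}.ncard ≤ 2 * {d | ∃ p ∈ l, S.r.SameCycle p.1 d}.ncard
  prs : (prs S' F').ncard ≤ (prs S F).ncard

end Pool.Agent.GW
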