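import Pool.Agent.GW.Top
import Pool.Agent.GW.Dual

/-!
# GW/Fin (helper73): final theorems from T1 and T2
-/

set_option autoImplicit false

namespace Pool.Agent.GW

open Equiv Pool.Agent.SWP

theorem glueAll_mono {L L' : ℝ} (h : L ≤ L') {S : St} (hS : GlueAll L S) : GlueAll L' S := by
  induction hS with
  | nil S hd => exact GlueAll.nil S hd
  | cons S b hb hl _ ih => exact GlueAll.cons S b hb (fun d => (hl d).trans h) ih

theorem sweep_mono {L L' : ℝ} (h : L ≤ L') {S : St} (hS : Sweep L S) : Sweep L' S := by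
  obtain ⟨T, h1, h2⟩ := hS
  exact ⟨T, h1, glueAll_mono h h2⟩

/-- from `U` to `Sweep` -/
theorem sweep_of_U (S : St) (h1 : ∀ d, S.w d ≤ 1) (L : ℕ) (hL : 2 ≤ L) (h : U L (forget S)) : Sweep (L : ℝ) S := by
  refine sweep_of_SW L (by positivity) S (SW_of_U h S h1 rfl) (fun d => ?_)
  have h2 := h1 d
  have h3 : (2 : ℝ) ≤ L := by exact_mod_cast hL
  linarith

/-- the length of a word is the number of its letters if all lengths are one -/
theorem len_forget_eq (S : St) (ha : ∀ d, S.a d ≠ d) (h1 : ∀ d, S.w d = 1) (d : S.D) :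
    ((forget S).len d : ℝ) = S.len d := by
  classical
  unfold St.len cyc Sf.len Sf.num
  have h : ∀ e : S.D, Set.indicator {e | S.r.SameCycle d e} S.w e =
      if e ∈ Finset.univ.filter (fun e => S.r.SameCycle d e) then 1 else 0 := by
    intro e
    by_cases he : S.r.SameCycle d e
    · rw [Set.indicator_of_mem (show e ∈ {e | S.r.SameCycle d e} from he), h1, if_pos (by simp [he])]
    · rw [Set.indicator_of_notMem (show e ∉ {e | S.r.SameCycle d e} from he), if_neg (by simp [he])]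
  rw [Finset.sum_congr rfl (fun e _ => h e), Finset.sum_ite_mem, Finset.univ_inter, Finset.sum_const, nsmul_eq_mul,
    mul_one]
  have h2 : ((forget S).word d ∩ (forget S).live : Set S.D) =
      ((Finset.univ.filter (fun e => S.r.SameCycle d e) : Finset S.D) : Set S.D) := by
    ext e
    simp only [Finset.coe_filter, Finset.mem_univ, true_and]
    constructor
    · rintro ⟨h3, _⟩; exact h3
    · intro h3; exact ⟨h3, ha e⟩
  change ((Set.ncard ((forget S).word d ∩ (forget S).live : Set S.D) : ℕ) : ℝ) = _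
  rw [h2, Set.ncard_coe_finset]

/-- **final theorem for polygons with unit sides** -/
theorem polygons_of (h1 : T1) (h2 : T2) : ∀ ε : ℝ, 0 < ε → ∃ C : ℝ, 0 < C ∧ ∀ S : St, (∀ d, S.a d ≠ d) →
    (∀ d, S.w d = 1) → Sweep (C * S.total ^ ε * Real.sqrt (∑ d, S.len d)) S := by
  intro ε hε
  obtain ⟨C, hC, H⟩ := main_of h1 h2 ε hε
  refine ⟨C + 2, by linarith, fun S ha hw => ?_⟩
  by_cases hD : IsEmpty S.D
  · exact ⟨S, Relation.ReflTransGen.refl, GlueAll.nil S (fun d => hD.elim d)⟩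
  rw [not_isEmpty_iff] at hD
  obtain ⟨d0⟩ := hD
  have hcl : (forget S).Closed := ha
  have ht : S.total = ((forget S).card : ℝ) := by
    unfold St.total Sf.card
    simp only [hw]
    rw [Finset.sum_const, nsmul_eq_mul, mul_one, Finset.card_univ]
    rfl
  have har : ∑ d, S.len d = ((forget S).area : ℝ) := by
    unfold Sf.area
    push_cast
    exact Finset.sum_congr rfl (fun d _ => (len_forget_eq S ha hw d).symm)
  have hc1 : (1 : ℝ) ≤ (forget S).card := by
    have : 0 < (forget S).card := Fintype.card_pos_iff.mpr ⟨d0⟩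
    exact_mod_cast this
  have hA1 : (1 : ℝ) ≤ (forget S).area := hc1.trans (by exact_mod_cast card_le_area _ hcl)
  have hsA : 1 ≤ Real.sqrt (forget S).area := by
    rw [show (1 : ℝ) = Real.sqrt 1 from Real.sqrt_one.symm]; exact Real.sqrt_le_sqrt hA1
  have hpow : (1 : ℝ) ≤ ((forget S).card : ℝ) ^ ε := Real.one_le_rpow hc1 hε.le
  have hx : 1 ≤ ((forget S).card : ℝ) ^ ε * Real.sqrt (forget S).area := one_le_mul_of_one_le_of_one_le hpow hsA
  rw [ht, har]
  set x : ℝ := ((forget S).card : ℝ) ^ ε * Real.sqrt (forget S).area with hxd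
  obtain ⟨hL1, hL2⟩ : C * x ≤ ⌈C * x⌉₊ ∧ (⌈C * x⌉₊ : ℝ) < C * x + 1 :=
    ⟨Nat.le_ceil _, Nat.ceil_lt_add_one (by positivity)⟩
  have hU : U (⌈C * x⌉₊ + 1) (forget S) := by
    apply H (forget S) (⌈C * x⌉₊ + 1) hcl
    rw [mul_assoc]
    push_cast
    linarith
  have hL3 : 2 ≤ ⌈C * x⌉₊ + 1 := by
    have : 0 < ⌈C * x⌉₊ := Nat.ceil_pos.mpr (by positivity)
    omega
  have h5 := sweep_of_U S (fun d => (hw d).le) _ hL3 hU
  refine sweep_mono ?_ h5
  push_cast
  rw [mul_assoc]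
  nlinarith

theorem tri_fst {n : ℕ} (s : Perm (Fin n × ZMod 3)) (hs : ∀ d, (s d).1 = d.1) {d e : Fin n × ZMod 3}
    (h : s.SameCycle d e) : e.1 = d.1 := by
  obtain ⟨k, rfl⟩ := h
  have hp : ∀ (m : ℕ) (x : Fin n × ZMod 3), ((s ^ m) x).1 = x.1 := by
    intro m
    induction m with
    | zero => intro x; rfl
    | succ m ih => intro x; rw [pow_succ, Perm.mul_apply, ih, hs]
  cases k with
  | ofNat m => exact hp m d
  | negSucc m =>
    have h3 := hp (m + 1) ((s ^ (Int.negSucc m)) d)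
    rw [← Perm.mul_apply, ← zpow_natCast, ← zpow_add] at h3
    have h4 : ((m + 1 : ℕ) : ℤ) + Int.negSucc m = 0 := by omega
    rw [h4, zpow_zero, Perm.one_apply] at h3
    exact h3.symm

theorem tri_cyc {n : ℕ} (s : Perm (Fin n × ZMod 3)) (hs : ∀ d, (s d).1 = d.1) (d : Fin n × ZMod 3) :
    cyc s (fun _ => (1 : ℝ)) d ≤ 3 := by
  unfold cyc
  calc ∑ e : Fin n × ZMod 3, Set.indicator {e | s.SameCycle d e} (fun _ => (1 : ℝ)) e
      ≤ ∑ e : Fin n × ZMod 3, (if e.1 = d.1 then (1 : ℝ) else 0) := by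
        refine Finset.sum_le_sum (fun e _ => ?_)
        by_cases he : s.SameCycle d e
        · rw [Set.indicator_of_mem (show e ∈ {e | s.SameCycle d e} from he), if_pos (tri_fst s hs he)]
        · rw [Set.indicator_of_notMem (show e ∉ {e | s.SameCycle d e} from he)]
          split_ifs <;> norm_num
    _ = 3 := by
        rw [Fintype.sum_prod_type]
        rw [Finset.sum_eq_single d.1]
        · simp [ZMod.card]
        · intro b _ hb
          exact Finset.sum_eq_zero fun x _ => if_neg hb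
        · intro hb
          exact absurd (Finset.mem_univ _) hb

/-- words of `tri` have length 3 -/
theorem tri_len (n : ℕ) (α : Perm (Fin n × ZMod 3)) (h : ∀ d, α (α d) = d) (h' : ∀ d, α d ≠ d)
    (d : Fin n × ZMod 3) : (tri n α h h').len d ≤ 3 :=
  tri_cyc (n := n) (Equiv.prodCongr (Equiv.refl (Fin n)) (Equiv.addRight (1 : ZMod 3))) (fun _ => rfl) d

/-- **final theorem for triangles** -/
theorem triangles_of (h1 : T1) (h2 : T2) : ∀ ε : ℝ, 0 < ε → ∃ N : ℕ, ∀ n : ℕ, N ≤ n →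
    ∀ (α : Perm (Fin n × ZMod 3)) (h : ∀ d, α (α d) = d) (h' : ∀ d, α d ≠ d),
      Sweep ((n : ℝ) ^ (1 / 2 + ε)) (tri n α h h') := by
  intro ε hε
  obtain ⟨C, hC, H⟩ := polygons_of h1 h2 (ε / 2) (by linarith)
  set C' : ℝ := C * 3 ^ (ε / 2) * 3 with hC'
  have hC'0 : 0 < C' := by positivity
  obtain ⟨N, hN⟩ := exists_nat_ge (max 1 (C' ^ (2 / ε)))
  refine ⟨N, fun n hn α h h' => ?_⟩
  have hnN : max 1 (C' ^ (2 / ε)) ≤ (n : ℝ) := hN.trans (by exact_mod_cast hn)
  have hn1 : (1 : ℝ) ≤ n := (le_max_left _ _).trans hnN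
  have hn0 : (0 : ℝ) < n := by linarith
  have hn2 : C' ^ (2 / ε) ≤ (n : ℝ) := (le_max_right _ _).trans hnN
  have h3 := H (tri n α h h') h' (fun d => rfl)
  refine sweep_mono ?_ h3
  have htot : (tri n α h h').total = 3 * n := by
    unfold St.total
    show (∑ _d : Fin n × ZMod 3, (1 : ℝ)) = 3 * n
    rw [Finset.sum_const, Finset.card_univ, Fintype.card_prod, ZMod.card, Fintype.card_fin]
    simp [mul_comm]
  have hA : ∑ d, (tri n α h h').len d ≤ 9 * n := by
    calc ∑ d, (tri n α h h').len d ≤ ∑ _d : Fin n × ZMod 3, (3 : ℝ) :=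
          Finset.sum_le_sum (fun d _ => tri_len n α h h' d)
      _ = 9 * n := by
          rw [Finset.sum_const, Finset.card_univ, Fintype.card_prod, ZMod.card, Fintype.card_fin]
          simp; ring
  have hs : Real.sqrt (∑ d, (tri n α h h').len d) ≤ 3 * (n : ℝ) ^ ((1 : ℝ) / 2) := by
    calc Real.sqrt (∑ d, (tri n α h h').len d) ≤ Real.sqrt (9 * n) := Real.sqrt_le_sqrt hA
      _ = 3 * (n : ℝ) ^ ((1 : ℝ) / 2) := by
          rw [Real.sqrt_mul (by norm_num), show (9 : ℝ) = 3 ^ 2 by norm_num, Real.sqrt_sq (by norm_num),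
            Real.sqrt_eq_rpow]
  rw [htot, Real.mul_rpow (by norm_num) hn0.le]
  have h4 : C' ≤ (n : ℝ) ^ (ε / 2) := by
    have h5 : (C' ^ (2 / ε)) ^ (ε / 2) = C' := by
      rw [← Real.rpow_mul hC'0.le]
      have : 2 / ε * (ε / 2) = 1 := by field_simp
      rw [this, Real.rpow_one]
    rw [← h5]
    exact Real.rpow_le_rpow (by positivity) hn2 (by positivity)
  calc C * (3 ^ (ε / 2) * (n : ℝ) ^ (ε / 2)) * Real.sqrt (∑ d, (tri n α h h').len d)
      ≤ C * (3 ^ (ε / 2) * (n : ℝ) ^ (ε / 2)) * (3 * (n : ℝ) ^ ((1 : ℝ) / 2)) :=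
        mul_le_mul_of_nonneg_left hs (by positivity)
    _ = C' * ((n : ℝ) ^ (ε / 2) * (n : ℝ) ^ ((1 : ℝ) / 2)) := by rw [hC']; ring
    _ ≤ (n : ℝ) ^ (ε / 2) * ((n : ℝ) ^ (ε / 2) * (n : ℝ) ^ ((1 : ℝ) / 2)) :=
        mul_le_mul_of_nonneg_right h4 (by positivity)
    _ = (n : ℝ) ^ (1 / 2 + ε) := by
        rw [← Real.rpow_add hn0, ← Real.rpow_add hn0]; congr 1; ring

/-- conductance of the dual graph of a triangulation: number of sides between two sets of triangles -/
def TriCond (n : ℕ) (α : Perm (Fin n × ZMod 3)) (ψ : ℝ) : Prop :=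
  ∀ X : Finset (Fin n), ψ * min (X.card : ℝ) (Xᶜ.card : ℝ) ≤ (Set.ncard {d | d.1 ∈ X ∧ (α d).1 ∉ X} : ℝ)

end Pool.Agent.GW
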