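import Pool.Agent.GW.Fin

/-!
# GW/FinE (helper73): triangulated surfaces whose dual graph has large conductance (from T1 alone)
-/

set_option autoImplicit false

namespace Pool.Agent.GW

open Equiv Pool.Agent.SWP

/-- the purely combinatorial part of `tri_cond` -/
theorem tri_cond_aux (n : ℕ) (r α : Perm (Fin n × ZMod 3)) (hr0 : ∀ (i : Fin n) (k : ZMod 3), r (i, k) = (i, k + 1))
    (ψ : ℝ) (hc : TriCond n α ψ) (A : Set (Fin n × ZMod 3)) (hA : ∀ d, r d ∈ A ↔ d ∈ A) :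
    ψ / 3 * min (A.ncard : ℝ) (Aᶜ.ncard : ℝ) ≤ (Set.ncard {d | d ∈ A ∧ α d ∉ A} : ℝ) := by
  classical
  have hr : ∀ (i : Fin n) (k : ZMod 3), ((i, k) : Fin n × ZMod 3) ∈ A ↔ (i, 0) ∈ A := by
    have h1 : ∀ (i : Fin n) (k : ZMod 3), ((i, k + 1) : Fin n × ZMod 3) ∈ A ↔ (i, k) ∈ A := fun i k => by
      rw [← hr0]; exact hA (i, k)
    have h2 : ∀ (i : Fin n) (m : ℕ), ((i, (m : ZMod 3)) : Fin n × ZMod 3) ∈ A ↔ (i, 0) ∈ A := by
      intro i m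
      induction m with
      | zero => simp
      | succ m ih => rw [Nat.cast_succ, h1, ih]
    intro i k
    have h3 := h2 i k.val
    rwa [ZMod.natCast_zmod_val] at h3
  set X : Finset (Fin n) := Finset.univ.filter (fun i => ((i, 0) : Fin n × ZMod 3) ∈ A) with hX
  have hAX : ∀ d : Fin n × ZMod 3, d ∈ A ↔ d.1 ∈ X := by
    rintro ⟨i, k⟩
    rw [hr i k, hX]
    simp
  have hcard : ∀ Y : Finset (Fin n), (Set.ncard {d : Fin n × ZMod 3 | d.1 ∈ Y} : ℝ) = 3 * Y.card := by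
    intro Y
    have h1 : ({d : Fin n × ZMod 3 | d.1 ∈ Y}) = ((Y ×ˢ (Finset.univ : Finset (ZMod 3)) : Finset _) : Set _) := by
      ext d; simp
    rw [h1, Set.ncard_coe_finset, Finset.card_product, Finset.card_univ, ZMod.card]
    push_cast; ring
  have e1 : A = {d : Fin n × ZMod 3 | d.1 ∈ X} := Set.ext hAX
  have e2 : Aᶜ = {d : Fin n × ZMod 3 | d.1 ∈ Xᶜ} := by
    ext d
    rw [Set.mem_compl_iff, hAX d]
    exact Finset.mem_compl.symm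
  have h1 : (A.ncard : ℝ) = 3 * X.card := by rw [← hcard X, ← e1]
  have h2 : (Aᶜ.ncard : ℝ) = 3 * Xᶜ.card := by rw [← hcard Xᶜ, ← e2]
  have e3 : {d | d ∈ A ∧ α d ∉ A} = {d | d.1 ∈ X ∧ (α d).1 ∉ X} := by
    ext d
    change (d ∈ A ∧ α d ∉ A) ↔ (d.1 ∈ X ∧ (α d).1 ∉ X)
    rw [hAX d, hAX (α d)]
  rw [h1, h2, e3]
  refine le_trans (le_of_eq ?_) (hc X)
  rw [← mul_min_of_nonneg _ _ (by norm_num : (0 : ℝ) ≤ 3)]
  ring

theorem tri_cond (n : ℕ) (α : Perm (Fin n × ZMod 3)) (h : ∀ d, α (α d) = d) (h' : ∀ d, α d ≠ d) (ψ : ℝ)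
    (hc : TriCond n α ψ) : (forget (tri n α h h')).Cond (ψ / 3) := fun A hA =>
  tri_cond_aux n (Equiv.prodCongr (Equiv.refl (Fin n)) (Equiv.addRight (1 : ZMod 3))) α (fun _ _ => rfl) ψ hc A hA

theorem tri_cyc' {n : ℕ} (α : Perm (Fin n × ZMod 3)) (h : ∀ d, α (α d) = d) (h' : ∀ d, α d ≠ d)
    (d : Fin n × ZMod 3) : (forget (tri n α h h')).len d ≤ 3 := by
  have h1 := len_forget_eq (tri n α h h') h' (fun _ => rfl) d
  have h2 := tri_len n α h h' d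
  rw [← h1] at h2
  exact_mod_cast h2

/-- **expander surfaces** (from T1) -/
theorem expanders_of (h1 : T1) : ∀ ε : ℝ, 0 < ε → ∃ δ : ℝ, 0 < δ ∧ ∃ N : ℕ, ∀ n : ℕ, N ≤ n →
    ∀ (α : Perm (Fin n × ZMod 3)) (h : ∀ d, α (α d) = d) (h' : ∀ d, α d ≠ d), TriCond n α ((n : ℝ) ^ (-δ)) →
      Sweep ((n : ℝ) ^ (1 / 2 + ε)) (tri n α h h') := by
  intro ε hε
  obtain ⟨C, m, hC, H⟩ := h1 (ε / 4) (by linarith)
  set δ : ℝ := ε / (4 * ((m : ℝ) + 1)) with hδ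
  have hm : (0 : ℝ) < (m : ℝ) + 1 := by positivity
  have hδ0 : 0 < δ := by positivity
  have hδm : δ * m ≤ ε / 4 := by
    have : δ * (4 * ((m : ℝ) + 1)) = ε := by rw [hδ]; field_simp
    nlinarith
  set C' : ℝ := C * 3 ^ m * 3 ^ (ε / 4) * 3 + 3 with hC'
  have hC'0 : 0 < C' := by positivity
  obtain ⟨N, hN⟩ := exists_nat_ge (max 1 (C' ^ (4 / ε)))
  refine ⟨δ, hδ0, N, fun n hn α h h' hc => ?_⟩
  have hnN : max 1 (C' ^ (4 / ε)) ≤ (n : ℝ) := hN.trans (by exact_mod_cast hn)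
  have hn1 : (1 : ℝ) ≤ n := (le_max_left _ _).trans hnN
  have hn0 : (0 : ℝ) < n := by linarith
  have hn2 : C' ^ (4 / ε) ≤ (n : ℝ) := (le_max_right _ _).trans hnN
  have h4 : C' ≤ (n : ℝ) ^ (ε / 4) := by
    have h5 : (C' ^ (4 / ε)) ^ (ε / 4) = C' := by
      rw [← Real.rpow_mul hC'0.le]
      have : 4 / ε * (ε / 4) = 1 := by field_simp
      rw [this, Real.rpow_one]
    rw [← h5]
    exact Real.rpow_le_rpow (by positivity) hn2 (by positivity)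
  set ψ : ℝ := (n : ℝ) ^ (-δ) with hψ
  have hψ0 : 0 < ψ := by positivity
  have hψ1 : ψ ≤ 1 := Real.rpow_le_one_of_one_le_of_nonpos hn1 (by linarith)
  set S := forget (tri n α h h') with hS
  have hcardS : (S.card : ℝ) = 3 * n := by
    have : S.card = Fintype.card (Fin n × ZMod 3) := rfl
    rw [this, Fintype.card_prod, ZMod.card, Fintype.card_fin]
    push_cast; ring
  set x : ℝ := C * (1 / (ψ / 3)) ^ m * (S.card : ℝ) ^ (ε / 4) * Real.sqrt ((S.card : ℝ) * (3 : ℕ)) with hx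
  have hx0 : 0 ≤ x := by positivity
  have hU : U (⌈x⌉₊ + 1) S := by
    refine H S (ψ / 3) 3 (⌈x⌉₊ + 1) h' (by positivity) (by linarith) (tri_cond n α h h' ψ hc)
      (tri_cyc' α h h') ?_
    push_cast
    have := Nat.le_ceil x
    push_cast at hx
    rw [← hx]
    linarith
  have hn12 : (1 : ℝ) ≤ (n : ℝ) ^ ((1 : ℝ) / 2) := Real.one_le_rpow hn1 (by norm_num)
  have hxle : x ≤ (C * 3 ^ m * 3 ^ (ε / 4) * 3) * ((n : ℝ) ^ (ε / 4) * (n : ℝ) ^ (ε / 4) * (n : ℝ) ^ ((1 : ℝ) / 2)) := by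
    have e1 : (1 / (ψ / 3)) ^ m ≤ 3 ^ m * (n : ℝ) ^ (ε / 4) := by
      have h6 : 1 / (ψ / 3) = 3 * (n : ℝ) ^ δ := by
        rw [hψ, Real.rpow_neg hn0.le]; field_simp
      rw [h6, mul_pow]
      apply mul_le_mul_of_nonneg_left _ (by positivity)
      rw [← Real.rpow_natCast, ← Real.rpow_mul hn0.le]
      exact Real.rpow_le_rpow_of_exponent_le hn1 hδm
    have e2 : (S.card : ℝ) ^ (ε / 4) = 3 ^ (ε / 4) * (n : ℝ) ^ (ε / 4) := by
      rw [hcardS, Real.mul_rpow (by norm_num) hn0.le]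
    have e3 : Real.sqrt ((S.card : ℝ) * (3 : ℕ)) = 3 * (n : ℝ) ^ ((1 : ℝ) / 2) := by
      rw [hcardS]
      have : (3 * (n : ℝ) * (3 : ℕ)) = 3 ^ 2 * n := by push_cast; ring
      rw [this, Real.sqrt_mul (by norm_num), Real.sqrt_sq (by norm_num), Real.sqrt_eq_rpow]
    rw [hx, e2, e3]
    calc C * (1 / (ψ / 3)) ^ m * (3 ^ (ε / 4) * (n : ℝ) ^ (ε / 4)) * (3 * (n : ℝ) ^ ((1 : ℝ) / 2))
        ≤ C * (3 ^ m * (n : ℝ) ^ (ε / 4)) * (3 ^ (ε / 4) * (n : ℝ) ^ (ε / 4)) * (3 * (n : ℝ) ^ ((1 : ℝ) / 2)) := by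
          apply mul_le_mul_of_nonneg_right _ (by positivity)
          apply mul_le_mul_of_nonneg_right _ (by positivity)
          exact mul_le_mul_of_nonneg_left e1 (by linarith)
      _ = _ := by ring
  have hfin : (((⌈x⌉₊ + 1 : ℕ)) : ℝ) ≤ (n : ℝ) ^ (1 / 2 + ε) := by
    have h7 : (⌈x⌉₊ : ℝ) < x + 1 := Nat.ceil_lt_add_one hx0
    push_cast
    set y : ℝ := (n : ℝ) ^ (ε / 4) * (n : ℝ) ^ (ε / 4) * (n : ℝ) ^ ((1 : ℝ) / 2) with hy
    have hy1 : 1 ≤ y := by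
      have h8 : (1 : ℝ) ≤ (n : ℝ) ^ (ε / 4) := Real.one_le_rpow hn1 (by linarith)
      exact one_le_mul_of_one_le_of_one_le (one_le_mul_of_one_le_of_one_le h8 h8) hn12
    calc (⌈x⌉₊ : ℝ) + 1 ≤ (C * 3 ^ m * 3 ^ (ε / 4) * 3) * y + 3 * y := by linarith
      _ = C' * y := by rw [hC']; ring
      _ ≤ (n : ℝ) ^ (ε / 4) * y := mul_le_mul_of_nonneg_right h4 (by linarith)
      _ = (n : ℝ) ^ (ε / 4 + (ε / 4 + ε / 4 + 1 / 2)) := by
          rw [hy, ← Real.rpow_add hn0, ← Real.rpow_add hn0, ← Real.rpow_add hn0]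
      _ ≤ (n : ℝ) ^ (1 / 2 + ε) := Real.rpow_le_rpow_of_exponent_le hn1 (by linarith)
  have hL2 : 2 ≤ ⌈x⌉₊ + 1 := by
    have h9 : 0 < x := by
      rw [hx, hcardS]
      have : (0 : ℝ) < 3 * n := by positivity
      have h10 : 0 < Real.sqrt (3 * (n : ℝ) * (3 : ℕ)) := Real.sqrt_pos.mpr (by positivity)
      positivity
    have : 0 < ⌈x⌉₊ := Nat.ceil_pos.mpr h9
    omega
  exact sweep_mono hfin (sweep_of_U (tri n α h h') (fun _ => le_rfl) _ hL2 hU)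

end Pool.Agent.GW
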