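import Pool.Agent.GW.RefR
import Pool.Agent.GW.Gen

/-!
# GW/SubdAll: subdivide all sides until they are short

PROOF.  `q S d = max 1 ⌈S.w d / η⌉₊`.  While there is a side with `η < S.w b`: `cutS S b η`.  Then `⌈(w b - η) / η⌉ = ⌈w b / η⌉ - 1 ≥ 1`, the new letters have `q = 1`: the
number `∑_{e in the word of d} q e` of a word does not change (the word of `b` gets a new letter after `b`, the word of `a b` a new letter before
`a b`), so `∑_d q d * cyc S.r q d` (sum over all words of (number)^2) does not change; `∑ (q d - 1)` decreases.  `gen` does not change (`gen_sub`;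
`forget (cutS S b x) = (forget S).sub b`).  At the end all lengths are at most `η`, `q = 1`, so `∑_d q d * cyc S.r q d = (forget S).area`.
At the start `q d ≤ S.w d / η + 1 = qn η S d`.
-/

set_option autoImplicit false

namespace Pool.Agent.GW

open Equiv Pool.Agent.SWP

private noncomputable def saQ (η w : ℝ) : ℕ := max 1 ⌈w / η⌉₊

private theorem saQ_one {η w : ℝ} (hη : 0 < η) (h : w ≤ η) : saQ η w = 1 := by
  unfold saQ
  refine max_eq_left ?_
  rw [Nat.ceil_le, Nat.cast_one, div_le_one hη]
  exact h

private theorem saQ_step {η w : ℝ} (hη : 0 < η) (h : η < w) : saQ η (w - η) + 1 = saQ η w := by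
  unfold saQ
  have h1 : 0 < w / η - 1 := by
    rw [sub_pos, one_lt_div hη]
    exact h
  have h2 : w / η = (w - η) / η + 1 := by
    rw [sub_div, div_self hη.ne']
    ring
  have h3 : 0 < (w - η) / η := div_pos (sub_pos.2 h) hη
  have h4 : 1 ≤ ⌈(w - η) / η⌉₊ := Nat.one_le_iff_ne_zero.2 (by
    intro h5
    rw [Nat.ceil_eq_zero] at h5
    linarith)
  rw [h2, Nat.ceil_add_one h3.le]
  omega

private theorem saQ_le {η w : ℝ} (hη : 0 < η) (h : 0 ≤ w) : (saQ η w : ℝ) ≤ w / η + 1 := by
  unfold saQ
  have h1 : 0 ≤ w / η := div_nonneg h hη.le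
  have h2 := Nat.ceil_lt_add_one h1
  rw [Nat.cast_max, Nat.cast_one]
  exact max_le (by linarith) h2.le

private theorem sa_ss {D : Type} [Fintype D] (s : Perm D) (u v : D → ℝ) :
    ∑ d, u d * cyc s v d = ∑ d, v d * cyc s u d := by
  unfold cyc
  simp only [Finset.mul_sum]
  rw [Finset.sum_comm]
  refine Finset.sum_congr rfl (fun d _ => Finset.sum_congr rfl (fun e _ => ?_))
  by_cases h : s.SameCycle e d
  · rw [Set.indicator_of_mem (show d ∈ {x | s.SameCycle e x} from h),
      Set.indicator_of_mem (show e ∈ {x | s.SameCycle d x} from h.symm), mul_comm]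
  · rw [Set.indicator_of_notMem (show d ∉ {x | s.SameCycle e x} from h),
      Set.indicator_of_notMem (show e ∉ {x | s.SameCycle d x} from fun h' => h (Perm.SameCycle.symm h')), mul_zero, mul_zero]

private theorem sa_pot {D : Type} [Fintype D] (s : Perm D) (u v : D → ℝ) (h : ∀ d, cyc s u d = cyc s v d) :
    pot s u = pot s v := by
  unfold pot
  calc ∑ d, u d * cyc s u d = ∑ d, u d * cyc s v d := Finset.sum_congr rfl (fun d _ => by rw [h])
    _ = ∑ d, v d * cyc s u d := sa_ss s u v
    _ = ∑ d, v d * cyc s v d := Finset.sum_congr rfl (fun d _ => by rw [h])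

private theorem sa_add {D : Type} [Fintype D] (s : Perm D) (u v : D → ℝ) (d : D) :
    cyc s (fun t => u t + v t) d = cyc s u d + cyc s v d := by
  unfold cyc
  rw [← Finset.sum_add_distrib]
  refine Finset.sum_congr rfl (fun e _ => ?_)
  by_cases h : s.SameCycle d e
  · rw [Set.indicator_of_mem (show e ∈ {x | s.SameCycle d x} from h), Set.indicator_of_mem (show e ∈ {x | s.SameCycle d x} from h),
      Set.indicator_of_mem (show e ∈ {x | s.SameCycle d x} from h)]
  · rw [Set.indicator_of_notMem (show e ∉ {x | s.SameCycle d x} from h),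
      Set.indicator_of_notMem (show e ∉ {x | s.SameCycle d x} from h),
      Set.indicator_of_notMem (show e ∉ {x | s.SameCycle d x} from h), add_zero]

private theorem sa_single {D : Type} [Fintype D] (s : Perm D) (c : ℝ) (x d : D) :
    cyc s (Set.indicator {x} (fun _ => c)) d = Set.indicator {e | s.SameCycle e x} (fun _ => c) d := by
  unfold cyc
  rw [Finset.sum_eq_single x]
  · by_cases h : s.SameCycle d x
    · rw [Set.indicator_of_mem (show x ∈ {e | s.SameCycle d e} from h), Set.indicator_of_mem (Set.mem_singleton x),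
        Set.indicator_of_mem (show d ∈ {e | s.SameCycle e x} from h)]
    · rw [Set.indicator_of_notMem (show x ∉ {e | s.SameCycle d e} from h),
        Set.indicator_of_notMem (show d ∉ {e | s.SameCycle e x} from h)]
  · intro e _ he
    have h1 : Set.indicator ({x} : Set D) (fun _ => c) e = 0 := Set.indicator_of_notMem (by simpa using he) _
    by_cases h : s.SameCycle d e
    · rw [Set.indicator_of_mem (show e ∈ {e | s.SameCycle d e} from h), h1]
    · rw [Set.indicator_of_notMem (show e ∉ {e | s.SameCycle d e} from h)]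
  · intro h
    exact absurd (Finset.mem_univ _) h

private theorem sa_shift {D : Type} [Fintype D] (s : Perm D) (u : D → ℝ) (b d : D) :
    cyc s (fun t => u t + (Set.indicator {s b} (fun _ => (1 : ℝ)) t + Set.indicator {b} (fun _ => (-1 : ℝ)) t)) d =
      cyc s u d := by
  rw [sa_add s u (fun t => Set.indicator {s b} (fun _ => (1 : ℝ)) t + Set.indicator {b} (fun _ => (-1 : ℝ)) t),
    sa_add s (Set.indicator {s b} (fun _ => (1 : ℝ))) (Set.indicator {b} (fun _ => (-1 : ℝ))), sa_single, sa_single]
  by_cases h : s.SameCycle d b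
  · rw [Set.indicator_of_mem (show d ∈ {e | s.SameCycle e (s b)} from Perm.sameCycle_apply_right.2 h),
      Set.indicator_of_mem (show d ∈ {e | s.SameCycle e b} from h)]
    ring
  · rw [Set.indicator_of_notMem (show d ∉ {e | s.SameCycle e (s b)} from fun h' => h (Perm.sameCycle_apply_right.1 h')),
      Set.indicator_of_notMem (show d ∉ {e | s.SameCycle e b} from h)]
    ring

private theorem sa_push {D : Type} [Fintype D] (q1 : D → ℝ) (x y t : D) :
    push (Sum.elim id (fun c => if c = true then x else y) : D ⊕ Bool → D) (Sum.elim q1 (fun _ => 1)) t =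
      q1 t + (Set.indicator {x} (fun _ => (1 : ℝ)) t + Set.indicator {y} (fun _ => (1 : ℝ)) t) := by
  classical
  unfold push
  rw [Fintype.sum_sum_type, Fintype.sum_bool, Finset.sum_eq_single t]
  · have e1 : Set.indicator {e : D ⊕ Bool | Sum.elim id (fun c => if c = true then x else y) e = t}
        (Sum.elim q1 (fun _ => (1 : ℝ))) (Sum.inl t) = q1 t := Set.indicator_of_mem (show (Sum.inl t : D ⊕ Bool) ∈
          {e : D ⊕ Bool | Sum.elim id (fun c => if c = true then x else y) e = t} from rfl) _
    have e2 : ∀ c : Bool, Set.indicator {e : D ⊕ Bool | Sum.elim id (fun c => if c = true then x else y) e = t}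
        (Sum.elim q1 (fun _ => (1 : ℝ))) (Sum.inr c) =
        Set.indicator {if c = true then x else y} (fun _ => (1 : ℝ)) t := by
      intro c
      by_cases h : (if c = true then x else y) = t
      · rw [Set.indicator_of_mem (show (Sum.inr c : D ⊕ Bool) ∈
          {e : D ⊕ Bool | Sum.elim id (fun c => if c = true then x else y) e = t} from h),
          Set.indicator_of_mem (show t ∈ ({if c = true then x else y} : Set D) from h.symm)]
        rfl
      · rw [Set.indicator_of_notMem (show (Sum.inr c : D ⊕ Bool) ∉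
          {e : D ⊕ Bool | Sum.elim id (fun c => if c = true then x else y) e = t} from h),
          Set.indicator_of_notMem (show t ∉ ({if c = true then x else y} : Set D) from fun h' => h h'.symm)]
    rw [e1, e2 true, e2 false]
    simp
  · intro e _ he
    refine Set.indicator_of_notMem (s := {e : D ⊕ Bool | Sum.elim id (fun c => if c = true then x else y) e = t}) ?_ _
    exact fun h => he h
  · intro h
    exact absurd (Finset.mem_univ _) h

private theorem sa_area (S : St) : ((forget S).area : ℝ) ≤ pot S.r (fun _ => 1) := by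
  classical
  unfold Sf.area pot
  rw [Nat.cast_sum]
  refine Finset.sum_le_sum (fun d _ => ?_)
  rw [one_mul]
  unfold cyc Sf.len Sf.num
  have h1 : ∑ e, Set.indicator {e | S.r.SameCycle d e} (fun _ => (1 : ℝ)) e =
      ((Finset.univ.filter (fun e => S.r.SameCycle d e)).card : ℝ) := by
    rw [Finset.card_eq_sum_ones, Nat.cast_sum, Finset.sum_filter]
    refine Finset.sum_congr rfl (fun e _ => ?_)
    by_cases h : S.r.SameCycle d e
    · rw [Set.indicator_of_mem (show e ∈ {e | S.r.SameCycle d e} from h), if_pos h, Nat.cast_one]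
    · rw [Set.indicator_of_notMem (show e ∉ {e | S.r.SameCycle d e} from h), if_neg h]
  rw [h1]
  have h2 : Set.ncard ((forget S).word d ∩ (forget S).live) ≤ (Finset.univ.filter (fun e => S.r.SameCycle d e)).card := by
    rw [← Set.ncard_coe_finset]
    refine Set.ncard_le_ncard ?_ (Set.toFinite _)
    rintro e ⟨h, _⟩
    rw [Finset.coe_filter]
    exact ⟨Finset.mem_univ _, h⟩
  exact_mod_cast h2

private theorem sa_w (S : St) (b : S.D) (x : ℝ) (h0 : 0 ≤ x) (h1 : x ≤ S.w b) (d : S.D) :
    (cutS S b x h0 h1).w (Sum.inl d) = S.w d - Set.indicator {d | d = b ∨ d = S.a b} (fun _ => x) d := rfl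

private theorem sa_main (η : ℝ) (hη : 0 < η) (n : ℕ) : ∀ (S : St), (∀ d, S.a d ≠ d) →
    ∑ d, (saQ η (S.w d) - 1) ≤ n → ∃ T : St, Relation.ReflTransGen RefR S T ∧ (∀ d, T.a d ≠ d) ∧ (∀ d, T.w d ≤ η) ∧
      (forget T).gen = (forget S).gen ∧ ((forget T).area : ℝ) ≤ pot S.r (fun d => (saQ η (S.w d) : ℝ)) := by
  classical
  have hdone : ∀ (S : St), (∀ d, S.a d ≠ d) → (∀ d, S.w d ≤ η) →
      ∃ T : St, Relation.ReflTransGen RefR S T ∧ (∀ d, T.a d ≠ d) ∧ (∀ d, T.w d ≤ η) ∧
      (forget T).gen = (forget S).gen ∧ ((forget T).area : ℝ) ≤ pot S.r (fun d => (saQ η (S.w d) : ℝ)) := by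
    intro S hS hw
    refine ⟨S, Relation.ReflTransGen.refl, hS, hw, rfl, ?_⟩
    have h1 : (fun d => (saQ η (S.w d) : ℝ)) = fun _ => 1 := by
      funext d
      rw [saQ_one hη (hw d), Nat.cast_one]
    rw [h1]
    exact sa_area S
  induction n with
  | zero =>
    intro S hS hn
    by_cases hw : ∀ d, S.w d ≤ η
    · exact hdone S hS hw
    exfalso
    push Not at hw
    obtain ⟨b, hb⟩ := hw
    have h1 := saQ_step hη hb
    have h2 : 1 ≤ saQ η (S.w b - η) := le_max_left _ _
    have h3 : saQ η (S.w b) - 1 ≤ ∑ d, (saQ η (S.w d) - 1) :=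
      Finset.single_le_sum (f := fun d => saQ η (S.w d) - 1) (fun _ _ => Nat.zero_le _) (Finset.mem_univ b)
    omega
  | succ n ih =>
    intro S hS hn
    by_cases hw : ∀ d, S.w d ≤ η
    · exact hdone S hS hw
    push Not at hw
    obtain ⟨b, hb⟩ := hw
    have hbb : b ≠ S.a b := fun h => hS b h.symm
    have hwab : S.w (S.a b) = S.w b := S.wa b
    set T := cutS S b η hη.le hb.le with hT
    have hTq : ∀ d : S.D, saQ η (T.w (Sum.inl d)) + (if d = b ∨ d = S.a b then 1 else 0) = saQ η (S.w d) := by
      intro d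
      show saQ η (S.w d - Set.indicator {d | d = b ∨ d = S.a b} (fun _ => η) d) + _ = _
      by_cases h : d = b ∨ d = S.a b
      · rw [if_pos h, Set.indicator_of_mem (show d ∈ {d | d = b ∨ d = S.a b} from h)]
        refine saQ_step hη ?_
        rcases h with h | h
        · rw [h]; exact hb
        · rw [h, hwab]; exact hb
      · rw [if_neg h, Set.indicator_of_notMem (show d ∉ {d | d = b ∨ d = S.a b} from h), sub_zero, add_zero]
    have hTr : ∀ c : Bool, saQ η (T.w (Sum.inr c)) = 1 := fun c => saQ_one hη le_rfl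
    have hTcl : ∀ d, T.a d ≠ d := by
      rintro (d | d)
      · intro h
        exact hS d (Sum.inl_injective h)
      · cases d
        · intro h
          exact absurd (Sum.inr_injective h) (by decide)
        · intro h
          exact absurd (Sum.inr_injective h) (by decide)
    have hsum : ∑ d : S.D, (saQ η (T.w (Sum.inl d)) - 1) < ∑ d, (saQ η (S.w d) - 1) := by
      refine Finset.sum_lt_sum (fun d _ => ?_) ⟨b, Finset.mem_univ _, ?_⟩
      · have := hTq d
        omega
      · have h1 := hTq b
        rw [if_pos (Or.inl rfl)] at h1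
        have h2 : 1 ≤ saQ η (T.w (Sum.inl b)) := le_max_left _ _
        omega
    have hn1 : ∑ d, (saQ η (T.w d) - 1) ≤ n := by
      have h1 : ∑ d, (saQ η (T.w d) - 1) = ∑ d : S.D, (saQ η (T.w (Sum.inl d)) - 1) := by
        have h2 := Fintype.sum_sum_type (fun d : S.D ⊕ Bool => saQ η (T.w d) - 1)
        refine h2.trans ?_
        rw [Fintype.sum_bool, hTr, hTr]
        omega
      omega
    obtain ⟨R, h1, h2, h3, h4, h5⟩ := ih T hTcl hn1
    refine ⟨R, Relation.ReflTransGen.head (RefR.cut S b η hη.le hb.le (hS b)) h1, h2, h3, ?_, ?_⟩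
    · rw [h4]
      exact gen_sub (forget S) b
    · refine h5.trans (le_of_eq ?_)
      have htr := subR_trace S.r b (S.a b)
      have e1 : pot T.r (fun d => (saQ η (T.w d) : ℝ)) = pot (subR S.r b (S.a b))
          (Sum.elim (fun d : S.D => (saQ η (T.w (Sum.inl d)) : ℝ)) (fun _ => (1 : ℝ))) := by
        have h6 : (fun d : S.D ⊕ Bool => (saQ η (T.w d) : ℝ)) =
            Sum.elim (fun d : S.D => (saQ η (T.w (Sum.inl d)) : ℝ)) (fun _ => (1 : ℝ)) := by
          funext d
          rcases d with d | d
          · rfl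
          · show (saQ η (T.w (Sum.inr d)) : ℝ) = 1
            rw [hTr, Nat.cast_one]
        rw [← h6]
        rfl
      rw [e1, htr.pot_push]
      refine sa_pot _ _ _ (fun d => ?_)
      have e2 : push (Sum.elim id (fun c => if c = true then S.r b else S.a b) : S.D ⊕ Bool → S.D)
          (Sum.elim (fun d : S.D => (saQ η (T.w (Sum.inl d)) : ℝ)) (fun _ => (1 : ℝ))) =
          fun t => (saQ η (S.w t) : ℝ) + (Set.indicator {S.r b} (fun _ => (1 : ℝ)) t +
            Set.indicator {b} (fun _ => (-1 : ℝ)) t) := by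
        funext t
        rw [sa_push]
        have h6 : (saQ η (T.w (Sum.inl t)) : ℝ) + (if t = b ∨ t = S.a b then 1 else 0) = saQ η (S.w t) := by
          rw [← hTq t, Nat.cast_add]
          congr 1
          split_ifs <;> simp
        have h7 : (if t = b ∨ t = S.a b then (1 : ℝ) else 0) =
            Set.indicator {S.a b} (fun _ => (1 : ℝ)) t - Set.indicator {b} (fun _ => (-1 : ℝ)) t := by
          by_cases h8 : t = b
          · rw [if_pos (Or.inl h8), Set.indicator_of_mem (show t ∈ ({b} : Set S.D) from h8),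
              Set.indicator_of_notMem (show t ∉ ({S.a b} : Set S.D) from fun h9 => hbb (h8.symm.trans h9))]
            ring
          · by_cases h9 : t = S.a b
            · rw [if_pos (Or.inr h9), Set.indicator_of_mem (show t ∈ ({S.a b} : Set S.D) from h9),
                Set.indicator_of_notMem (show t ∉ ({b} : Set S.D) from h8)]
              ring
            · rw [if_neg (fun h => h.elim h8 h9), Set.indicator_of_notMem (show t ∉ ({S.a b} : Set S.D) from h9),
                Set.indicator_of_notMem (show t ∉ ({b} : Set S.D) from h8)]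
              ring
        rw [← h6, h7]
        ring
      rw [e2]
      exact sa_shift S.r _ b d

private theorem sa_mono {D : Type} [Fintype D] (s : Perm D) {u v : D → ℝ} (h0 : ∀ d, 0 ≤ u d) (h : ∀ d, u d ≤ v d) :
    pot s u ≤ ∑ d, v d * cyc s v d := by
  unfold pot
  refine Finset.sum_le_sum (fun d _ => ?_)
  have h1 : cyc s u d ≤ cyc s v d := by
    unfold cyc
    refine Finset.sum_le_sum (fun e _ => ?_)
    exact Set.indicator_le_indicator (h e)
  have h2 : 0 ≤ cyc s u d := by
    unfold cyc
    exact Finset.sum_nonneg (fun e _ => Set.indicator_nonneg (fun e _ => h0 e) e)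
  exact mul_le_mul (h d) h1 h2 ((h0 d).trans (h d))

theorem subd_all (S : St) (hS : ∀ d, S.a d ≠ d) (η : ℝ) (hη : 0 < η) :
    ∃ T : St, Relation.ReflTransGen RefR S T ∧ (∀ d, T.a d ≠ d) ∧ (∀ d, T.w d ≤ η) ∧
      (forget T).gen = (forget S).gen ∧ ((forget T).area : ℝ) ≤ ∑ d, qn η S d * cyc S.r (qn η S) d := by
  obtain ⟨T, h1, h2, h3, h4, h5⟩ := sa_main η hη _ S hS le_rfl
  refine ⟨T, h1, h2, h3, h4, h5.trans ?_⟩
  exact sa_mono S.r (fun d => Nat.cast_nonneg _) (fun d => saQ_le hη (S.wnn d))

end Pool.Agent.GW
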