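import Pool.Agent.GW.Induct
import Pool.Agent.GW.SubdAll

/-!
# GW/FinG (helper73): the final theorems of the genus version
-/

set_option autoImplicit false

namespace Pool.Agent.GW

open Equiv Pool.Agent.SWP

theorem len_forget_eta (S : St) {η : ℝ} (h0 : 0 ≤ η) (h1 : ∀ d, S.w d ≤ η) (d : S.D) :
    S.len d ≤ η * ((forget S).len d : ℝ) := by
  classical
  unfold St.len cyc Sf.len
  have h : ∀ e : S.D, Set.indicator {e | S.r.SameCycle d e} S.w e ≤
      if e ∈ Finset.univ.filter (fun e => S.r.SameCycle d e ∧ S.a e ≠ e) then η else 0 := by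
    intro e
    by_cases he : S.r.SameCycle d e
    · rw [Set.indicator_of_mem (show e ∈ {e | S.r.SameCycle d e} from he)]
      by_cases ha : S.a e = e
      · rw [S.w0 e ha]; split_ifs
        · exact h0
        · exact le_rfl
      · rw [if_pos (by simp [he, ha])]; exact h1 e
    · rw [Set.indicator_of_notMem (show e ∉ {e | S.r.SameCycle d e} from he)]
      split_ifs
      · exact h0
      · exact le_rfl
  refine (Finset.sum_le_sum (fun e _ => h e)).trans ?_
  rw [Finset.sum_ite_mem, Finset.univ_inter, Finset.sum_const, nsmul_eq_mul]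
  have h2 : ({e | S.r.SameCycle d e ∧ S.a e ≠ e} : Set S.D) =
      ((Finset.univ.filter (fun e => S.r.SameCycle d e ∧ S.a e ≠ e) : Finset S.D) : Set S.D) := by
    ext e; simp
  change _ ≤ η * ((Set.ncard ({e | S.r.SameCycle d e ∧ S.a e ≠ e} : Set S.D) : ℕ) : ℝ)
  rw [h2, Set.ncard_coe_finset, mul_comm]

theorem ind_le_eta {D : Type} (w : D → ℝ) {η : ℝ} (h0 : 0 ≤ η) (h1 : ∀ d, w d ≤ η) (X : Set D) (d : D) :
    Set.indicator X w d ≤ η := by
  by_cases hd : d ∈ X
  · rw [Set.indicator_of_mem hd]; exact h1 d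
  · rw [Set.indicator_of_notMem hd]; exact h0

/-- the bridge for lengths at most `η` -/
theorem SW_of_U_eta {L : ℕ} {C : Sf} (h : U L C) : ∀ (S : St) (η : ℝ), 0 ≤ η → (∀ d, S.w d ≤ η) → forget S = C →
    SW (η * (L : ℝ)) S := by
  have hle : ∀ (S : St) (η : ℝ), 0 ≤ η → (∀ d, S.w d ≤ η) → (∀ d, (forget S).len d ≤ L) → ∀ d, S.len d ≤ η * (L : ℝ) := by
    intro S η h0 h1 h2 d
    refine (len_forget_eta S h0 h1 d).trans (mul_le_mul_of_nonneg_left ?_ h0)
    exact_mod_cast h2 d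
  induction h with
  | done C hd =>
    rintro S η h0 h1 rfl
    exact SW.done S hd
  | glue C b hb hl _ ih =>
    rintro S η h0 h1 rfl
    exact SW.glue S b hb (hle S η h0 h1 hl) (ih (S.glue b) η h0 (fun d => ind_le_eta S.w h0 h1 _ d) rfl)
  | dbl C e he _ ih =>
    rintro S η h0 h1 rfl
    refine SW.dbl S e he (ih (S.dbl e) η h0 ?_ rfl)
    rintro (d | d)
    · exact h1 d
    · exact h1 e
  | sub C b hb _ ih =>
    rintro S η h0 h1 rfl
    refine SW.sub S b hb (ih (S.sub b) η h0 ?_ rfl)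
    rintro (d | d)
    · exact h1 d
    · exact h0
  | vtx C p q hp hq hpq hc hl _ ih =>
    rintro S η h0 h1 rfl
    exact SW.vtx S p q hp hq hpq hc (hle S η h0 h1 hl) (ih (S.vtx p q) η h0 h1 rfl)
  | ghost C g hg _ ih =>
    rintro S η h0 h1 rfl
    exact SW.ghost S g hg (ih (S.ghost g) η h0 h1 rfl)

theorem sweep_of_U_eta (S : St) (η : ℝ) (h0 : 0 ≤ η) (h1 : ∀ d, S.w d ≤ η) (L : ℕ) (hL : 2 ≤ L) (h : U L (forget S)) :
    Sweep (η * L) S := by
  refine sweep_of_SW (η * L) (by positivity) S (SW_of_U_eta h S η h0 h1 rfl) (fun d => ?_)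
  have h2 := h1 d
  have h3 : (2 : ℝ) ≤ L := by exact_mod_cast hL
  nlinarith

theorem SweepR.of_sweep {L : ℝ} {S : St} (h : Sweep L S) : SweepR L S := by
  obtain ⟨T, h1, h2⟩ := h
  refine ⟨T, ?_, h2⟩
  exact Relation.ReflTransGen.mono (fun A B hAB => RefR.ref A B hAB) _ _ h1

theorem SweepR.steps {L : ℝ} {S T : St} (h : Relation.ReflTransGen RefR S T) (h' : SweepR L T) : SweepR L S := by
  obtain ⟨T', h1, h2⟩ := h'
  exact ⟨T', h.trans h1, h2⟩

theorem SweepR.mono {L L' : ℝ} (h : L ≤ L') {S : St} (hS : SweepR L S) : SweepR L' S := by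
  obtain ⟨T, h1, h2⟩ := hS
  exact ⟨T, h1, glueAll_mono h h2⟩

theorem cyc_mono {D : Type} [Fintype D] (s : Perm D) {u v : D → ℝ} (h : ∀ d, u d ≤ v d) (d : D) :
    cyc s u d ≤ cyc s v d := by
  unfold cyc
  refine Finset.sum_le_sum (fun e _ => ?_)
  exact Set.indicator_le_indicator (h e)

theorem cyc_add {D : Type} [Fintype D] (s : Perm D) (u v : D → ℝ) (d : D) :
    cyc s (fun e => u e + v e) d = cyc s u d + cyc s v d := by
  unfold cyc
  rw [← Finset.sum_add_distrib]
  refine Finset.sum_congr rfl (fun e _ => ?_)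
  exact congrFun (Set.indicator_add _ _ _) e

theorem cyc_smul {D : Type} [Fintype D] (s : Perm D) (c : ℝ) (u : D → ℝ) (d : D) :
    cyc s (fun e => c * u e) d = c * cyc s u d := by
  unfold cyc
  rw [Finset.mul_sum]
  refine Finset.sum_congr rfl (fun e _ => ?_)
  by_cases h : e ∈ {e | s.SameCycle d e}
  · rw [Set.indicator_of_mem h, Set.indicator_of_mem h]
  · rw [Set.indicator_of_notMem h, Set.indicator_of_notMem h, mul_zero]

theorem cyc_nonneg {D : Type} [Fintype D] (s : Perm D) {u : D → ℝ} (h : ∀ d, 0 ≤ u d) (d : D) : 0 ≤ cyc s u d := by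
  unfold cyc
  exact Finset.sum_nonneg (fun e _ => Set.indicator_nonneg (fun e _ => h e) e)

/-- the number of letters on the scale `η` is close to the length divided by `η` -/
theorem qn_bound (S : St) (η : ℝ) (h0 : 0 < η) (h1 : η ≤ 1) :
    η ^ 2 * ∑ d, qn η S d * cyc S.r (qn η S) d ≤ ∑ d, S.w d * S.len d +
      η * ∑ d, (S.w d * cyc S.r (fun _ => (1 : ℝ)) d + S.len d + cyc S.r (fun _ => (1 : ℝ)) d) := by
  rw [Finset.mul_sum, Finset.mul_sum, ← Finset.sum_add_distrib]
  refine Finset.sum_le_sum (fun d _ => ?_)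
  have h2 : cyc S.r (qn η S) d = S.len d / η + cyc S.r (fun _ => (1 : ℝ)) d := by
    have h3 : (qn η S) = fun e => η⁻¹ * S.w e + (fun _ => (1 : ℝ)) e := by
      funext e; unfold qn; rw [div_eq_inv_mul]
    rw [h3, cyc_add, cyc_smul]
    unfold St.len
    rw [div_eq_inv_mul]
  rw [h2]
  unfold qn
  set c := cyc S.r (fun _ => (1 : ℝ)) d with hc
  have hc0 : 0 ≤ c := cyc_nonneg S.r (fun _ => zero_le_one) d
  have e1 : η ^ 2 * ((S.w d / η + 1) * (S.len d / η + c)) = (S.w d + η) * (S.len d + η * c) := by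
    field_simp
  rw [e1]
  nlinarith [mul_nonneg (mul_nonneg h0.le hc0) (sub_nonneg.2 h1)]

theorem w_le_len (S : St) (d : S.D) : S.w d ≤ S.len d := by
  unfold St.len cyc
  have h : S.w d = Set.indicator {e | S.r.SameCycle d e} S.w d := by
    rw [Set.indicator_of_mem]
    exact Equiv.Perm.SameCycle.refl S.r d
  rw [h]
  exact Finset.single_le_sum (f := fun e => Set.indicator {e | S.r.SameCycle d e} S.w e)
    (fun e _ => Set.indicator_nonneg (fun e _ => S.wnn e) e) (Finset.mem_univ d)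

/-- **genus version, real side lengths** -/
theorem genus_polygons : ∀ ε : ℝ, 0 < ε → ∃ C : ℝ, 0 < C ∧ ∀ (S : St) (g : ℕ), (∀ d, S.a d ≠ d) →
    (forget S).gen ≤ 2 * g → SweepR (C * ((g : ℝ) + 1) ^ ε * Real.sqrt (∑ d, S.w d * S.len d)) S := by
  intro ε hε
  obtain ⟨C, hC, H⟩ := genus_U ε hε
  refine ⟨2 * C * 2 ^ ε + 1, by positivity, fun S g ha hg => ?_⟩
  set A : ℝ := ∑ d, S.w d * S.len d with hA
  have hlen0 : ∀ d, 0 ≤ S.len d := fun d => cyc_nonneg S.r S.wnn d
  have hA0 : 0 ≤ A := Finset.sum_nonneg (fun d _ => mul_nonneg (S.wnn d) (hlen0 d))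
  have hg1 : (1 : ℝ) ≤ ((g : ℝ) + 1) ^ ε := Real.one_le_rpow (by linarith [Nat.cast_nonneg (α := ℝ) g]) hε.le
  -- the general step
  have key : ∀ (T : St), (∀ d, T.a d ≠ d) → (forget T).gen = (forget S).gen → ∃ L : ℕ, 2 ≤ L ∧ U L (forget T) ∧
      (L : ℝ) ≤ C * 2 ^ ε * ((g : ℝ) + 1) ^ ε * Real.sqrt (forget T).area + 3 := by
    intro T hT hTg
    refine ⟨⌈C * ((2 * g + 2 : ℕ) : ℝ) ^ ε * Real.sqrt (forget T).area⌉₊ + 2, by omega, ?_, ?_⟩
    · refine H (forget T) (2 * g + 2) _ hT (by rw [hTg]; push_cast; linarith) (by omega) ?_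
      push_cast
      have := Nat.le_ceil (C * (((2 * g + 2 : ℕ) : ℝ)) ^ ε * Real.sqrt (forget T).area)
      push_cast at this
      linarith
    · have h1 : (((2 * g + 2 : ℕ)) : ℝ) ^ ε = 2 ^ ε * ((g : ℝ) + 1) ^ ε := by
        rw [← Real.mul_rpow (by norm_num) (by positivity)]
        congr 1
        push_cast
        ring
      have h2 := Nat.ceil_lt_add_one (show 0 ≤ C * ((2 * g + 2 : ℕ) : ℝ) ^ ε * Real.sqrt (forget T).area by positivity)
      rw [h1] at h2 ⊢
      push_cast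
      nlinarith
  by_cases hA1 : A = 0
  · have hw : ∀ d, S.w d = 0 := by
      intro d
      have h1 : S.w d * S.len d ≤ A :=
        Finset.single_le_sum (f := fun d => S.w d * S.len d) (fun e _ => mul_nonneg (S.wnn e) (hlen0 e)) (Finset.mem_univ d)
      have h2 := w_le_len S d
      have h3 := S.wnn d
      have h4 : S.w d * S.w d ≤ 0 := by
        refine le_trans (mul_le_mul_of_nonneg_left h2 h3) ?_
        rw [← hA1]; exact h1
      nlinarith
    obtain ⟨L, hL, hU, _⟩ := key S ha rfl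
    have h1 := sweep_of_U_eta S 0 le_rfl (fun d => (hw d).le) L hL hU
    refine SweepR.mono ?_ (SweepR.of_sweep h1)
    rw [zero_mul]
    positivity
  · have hApos : 0 < A := lt_of_le_of_ne hA0 (Ne.symm hA1)
    set M : ℝ := ∑ d, (S.w d * cyc S.r (fun _ => (1 : ℝ)) d + S.len d + cyc S.r (fun _ => (1 : ℝ)) d) with hM
    have hM0 : 0 ≤ M := Finset.sum_nonneg (fun d _ => by
      have h1 := S.wnn d
      have h2 := cyc_nonneg S.r (u := fun _ => (1 : ℝ)) (fun _ => zero_le_one) d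
      have h3 := hlen0 d
      positivity)
    have hsA : 0 < Real.sqrt A := Real.sqrt_pos.2 hApos
    obtain ⟨η, hη0, hη1, hηM, hηA⟩ : ∃ η : ℝ, 0 < η ∧ η ≤ 1 ∧ η * M ≤ 3 * A ∧ 3 * η ≤ Real.sqrt A := by
      refine ⟨min (min 1 (3 * A / (M + 1))) (Real.sqrt A / 3), ?_, ?_, ?_, ?_⟩
      · apply lt_min (lt_min one_pos (by positivity)) (by positivity)
      · exact le_trans (min_le_left _ _) (min_le_left _ _)
      · calc min (min 1 (3 * A / (M + 1))) (Real.sqrt A / 3) * M ≤ 3 * A / (M + 1) * M :=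
              mul_le_mul_of_nonneg_right (le_trans (min_le_left _ _) (min_le_right _ _)) hM0
          _ ≤ 3 * A / (M + 1) * (M + 1) := by
              apply mul_le_mul_of_nonneg_left (by linarith) (by positivity)
          _ = 3 * A := by field_simp
      · have := min_le_right (min 1 (3 * A / (M + 1))) (Real.sqrt A / 3)
        linarith
    obtain ⟨T, hST, hT, hTw, hTg, hTa⟩ := subd_all S ha η hη0
    obtain ⟨L, hL, hU, hLb⟩ := key T hT hTg
    have h1 := sweep_of_U_eta T η hη0.le hTw L hL hU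
    refine SweepR.mono ?_ (SweepR.steps hST (SweepR.of_sweep h1))
    have h2 := qn_bound S η hη0 hη1
    have h3 : η ^ 2 * ((forget T).area : ℝ) ≤ 4 * A := by
      calc η ^ 2 * ((forget T).area : ℝ) ≤ η ^ 2 * ∑ d, qn η S d * cyc S.r (qn η S) d :=
            mul_le_mul_of_nonneg_left hTa (by positivity)
        _ ≤ A + η * M := h2
        _ ≤ 4 * A := by linarith
    have h4 : η * Real.sqrt (forget T).area ≤ 2 * Real.sqrt A := by
      have h5 : η * Real.sqrt (forget T).area = Real.sqrt (η ^ 2 * ((forget T).area : ℝ)) := by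
        rw [Real.sqrt_mul (by positivity), Real.sqrt_sq hη0.le]
      rw [h5]
      calc Real.sqrt (η ^ 2 * ((forget T).area : ℝ)) ≤ Real.sqrt (4 * A) := Real.sqrt_le_sqrt h3
        _ = 2 * Real.sqrt A := by
            rw [Real.sqrt_mul (by norm_num), show (4 : ℝ) = 2 ^ 2 by norm_num, Real.sqrt_sq (by norm_num)]
    set G : ℝ := ((g : ℝ) + 1) ^ ε with hG
    calc η * (L : ℝ) ≤ η * (C * 2 ^ ε * G * Real.sqrt (forget T).area + 3) := mul_le_mul_of_nonneg_left hLb hη0.le
      _ = C * 2 ^ ε * G * (η * Real.sqrt (forget T).area) + 3 * η := by ring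
      _ ≤ C * 2 ^ ε * G * (2 * Real.sqrt A) + Real.sqrt A := by
          apply add_le_add _ hηA
          exact mul_le_mul_of_nonneg_left h4 (by positivity)
      _ ≤ (2 * C * 2 ^ ε + 1) * G * Real.sqrt A := by
          nlinarith

end Pool.Agent.GW
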