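import Pool.Agent.GW.Gen
import Pool.Agent.GW.CovU
import Pool.Agent.GW.Cap

/-!
# GW/GenCov: the genus does not grow when a surface is cut and capped

PROOF.  Repeat the proof of `U_cov` (CovU.lean) for the genus instead of `U L`: it only uses the moves
`dbl` (`gen_dbl`), `vtx` (`gen_vtx`) and embeddings (`gen_emb`).  `gen_cap`: as in Cap.lean the cover with `G = E`,
`K` = the hole map is the disjoint union of `capped` and `holes` (`gen_add`, `gen_iso`).
-/

set_option autoImplicit false

namespace Pool.Agent.GW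

open Equiv Pool.Agent.SWP

namespace CovG

open CovU

variable (S : Sf)

theorem dbl_step (G : Set S.D) (e : S.D) (he : e ∉ G) (hl : S.a e ≠ e) :
    (S.cov (insert e G) (K0 S.D)).gen = (S.cov G (K0 S.D)).gen := by
  rw [← gen_dbl (S.cov G (K0 S.D)) (Sum.inl e) (fun h' => hl (Sum.inl_injective h'))]
  exact (gen_emb (S := S.cov (insert e G) (K0 S.D)) (T := (S.cov G (K0 S.D)).dbl (Sum.inl e)) (jj S e)
    ⟨⟨jj_inj S e, jj_r S G e he, jj_a S G e he⟩, jj_dead S G e he⟩).symm

theorem dbl_all (G : Set S.D) (hlive : ∀ d ∈ G, S.a d ≠ d) : (S.cov G (K0 S.D)).gen = S.gen := by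
  have key : ∀ F : Set S.D, F ⊆ G → (S.cov F (K0 S.D)).gen = S.gen := by
    intro F
    induction F, Set.toFinite F using Set.Finite.induction_on with
    | empty =>
      intro _
      refine gen_emb (S := S) (T := S.cov ∅ (K0 S.D)) Sum.inl ⟨⟨Sum.inl_injective, ?_, fun _ => rfl⟩, ?_⟩
      · intro d
        have h1 := r_pl S (K0_G (D := S.D) ∅) d
        rw [pl_notMem (Set.notMem_empty _), pl_notMem (Set.notMem_empty _)] at h1
        exact h1
      · rintro (d | d | d) hd
        · exact absurd rfl (hd d)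
        · exact a_cp_not S (Set.notMem_empty _)
        · exact a_pt_not S (Set.notMem_empty _)
    | @insert e F he _ ih =>
      intro hF
      exact (dbl_step S F e he (hlive e (hF (Set.mem_insert _ _)))).trans
        (ih (fun d hd => hF (Set.mem_insert_of_mem _ hd)))
  exact key G subset_rfl

theorem join_step (G : Set S.D) (K : Lk S.D) (J : Set S.D)
    (hK : ∀ d e, K.N d = some e → d ∈ G ∧ e ∈ G ∧ S.Cor G d e) (d : S.D) (hd : d ∉ J) :
    (S.cov G (res K (insert d J))).gen ≤ (S.cov G (res K J)).gen := by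
  rcases hN : K.N d with _ | e
  · rw [res_none K J d hN]
  have hG : ∀ d e, K.N d = some e → d ∈ G ∧ e ∈ G := fun d e h => ⟨(hK d e h).1, (hK d e h).2.1⟩
  obtain ⟨hdG, heG, hc⟩ := hK d e hN
  have hP0 : (res K J).P e = none := by
    rcases h1 : (res K J).P e with _ | y
    · rfl
    · have h2 := res_P_some K h1
      rw [(K.h d e).1 hN] at h2
      obtain rfl := Option.some_injective _ h2
      have h3 := ((res K J).h d e).2 h1
      rw [res_N_not K hd] at h3
      exact absurd h3 (by simp)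
  have hr : (S.cov G (res K (insert d J))).r =
      sw (Sum.inr (Sum.inr d) : S.D ⊕ (S.D ⊕ S.D)) (Sum.inl e) * R S G (res K J) := by
    ext x
    exact ta_insert K J d e hd hN _
  have he : (S.cov G (res K J)).setr (sw (Sum.inr (Sum.inr d) : S.D ⊕ (S.D ⊕ S.D)) (Sum.inl e) * R S G (res K J)) =
      S.cov G (res K (insert d J)) := by
    rw [← hr]
    rfl
  rw [← he]
  exact gen_vtx (S.cov G (res K J)) (Sum.inr (Sum.inr d)) (Sum.inl e) Sum.inr_ne_inl
    (cov_vx S G K J hG d e hdG heG hP0 hc)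

end CovG

theorem gen_cov (S : Sf) (G : Set S.D) (K : Lk S.D) (hlive : ∀ d ∈ G, S.a d ≠ d)
    (hK : ∀ d e, K.N d = some e → d ∈ G ∧ e ∈ G ∧ S.Cor G d e) : (S.cov G K).gen ≤ S.gen := by
  have key : ∀ J : Set S.D, (S.cov G (CovU.res K J)).gen ≤ (S.cov G (CovU.res K ∅)).gen := by
    intro J
    induction J, Set.toFinite J using Set.Finite.induction_on with
    | empty => exact le_rfl
    | @insert d J hd _ ih => exact (CovG.join_step S G K J hK d hd).trans ih
  have h1 := key Set.univ
  rw [CovU.res_univ, CovU.res_empty, CovG.dbl_all S G hlive] at h1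
  exact h1

theorem gen_cap (S : Sf) (E : Set S.D) (hE : S.Cl E) (hlive : ∀ d ∈ E, S.a d ≠ d) (ρ : Perm S.D) (hρ : S.FR E ρ) :
    (S.capped E hE ρ).gen + (S.holes E ρ).gen ≤ S.gen := by
  rw [← gen_add, gen_iso _ (cap_iso S E hE ρ hρ.off hρ.mem)]
  refine gen_cov S E (capK E ρ hρ.off hρ.mem) hlive ?_
  intro d e h
  by_cases hd : d ∈ E
  · have h3 : (capK E ρ hρ.off hρ.mem).N d = some (ρ d) := capN_pos hd
    rw [h3] at h
    have h4 : ρ d = e := Option.some.inj h
    rw [← h4]
    exact ⟨hd, hρ.mem d hd, hρ.cor d hd⟩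
  · have h3 : (capK E ρ hρ.off hρ.mem).N d = none := capN_neg hd
    rw [h3] at h
    exact absurd h (by simp)

end Pool.Agent.GW
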