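import Pool.Agent.GW.Cnd
import Pool.Agent.GW.Dual
import Pool.Agent.GW.CovDef

/-!
# GW/GenDef (helper73): genus, forests in the vertex graph, live letters (definitions of the genus version)

`nc s`: number of cycles of a permutation; `orb`: number of connected components; `gen`: twice the genus (summed over the
components) of the surface, `2 orb - (vertices + words + cycles of a - letters)`.
`Fo S N δ ρ`: a spanning forest of the vertex graph. `N` is the set of the letters which are not in the forest, `δ d` is the
depth of the vertex at which the letter `d` starts (`d`, `e` start at the same vertex if `vx d e`), `d` is an up-letter if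
`d ∉ N` and `δ d = δ (a d) + 1`.
`liv W M`: live letters of the set `M` (union of words) if the letters of `W` are never glued (walls) and everything
else inside of `M` is glued.
-/

set_option autoImplicit false

namespace Pool.Agent.GW

open Equiv Pool.Agent.SWP

/-- number of cycles (fixed points included) -/
noncomputable def nc {D : Type} (s : Perm D) : ℕ := Nat.card (Quotient (Perm.SameCycle.setoid s))

namespace Sf

/-- number of components -/
noncomputable def orb (S : Sf) : ℕ := Nat.card (Quot (fun x y : S.D => y = S.r x ∨ y = S.a x))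

/-- twice the genus -/
noncomputable def gen (S : Sf) : ℤ := 2 * S.orb - (nc (S.r * S.a) + nc S.r + nc S.a - S.card)

/-- connected -/
def Con (S : Sf) : Prop := ∀ A : Set S.D, S.Inv A → (∀ d ∈ A, S.a d ∈ A) → A = ∅ ∨ A = Set.univ

/-- up-letters of a forest -/
def up (S : Sf) (N : Set S.D) (δ : S.D → ℕ) : Set S.D := {d | d ∉ N ∧ δ d = δ (S.a d) + 1}

/-- live letters of `M`, walls `W` -/
def liv (S : Sf) (W M : Set S.D) : Set S.D := {d | d ∈ M ∧ (d ∈ W ∨ S.a d ∉ M)}

/-- number of letters of `W` which start at the vertex of `d` -/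
noncomputable def dgv (S : Sf) (W : Set S.D) (d : S.D) : ℕ := Set.ncard {e | e ∈ W ∧ S.vx d e}

end Sf

/-- spanning forest of the vertex graph, depth at most `ρ` -/
structure Fo (S : Sf) (N : Set S.D) (δ : S.D → ℕ) (ρ : ℕ) : Prop where
  cl : S.Cl N
  vtx : ∀ d, δ (S.r (S.a d)) = δ d
  le : ∀ d, δ d ≤ ρ
  tree : ∀ d, d ∉ N → δ d = δ (S.a d) + 1 ∨ δ (S.a d) = δ d + 1
  ex : ∀ d, 0 < δ d → ∃ e ∈ S.up N δ, S.vx d e
  uniq : ∀ d ∈ S.up N δ, ∀ e ∈ S.up N δ, S.vx d e → d = e

/-- walls: closed under `a`; if a letter of `W` starts at a vertex then the up-letter of this vertex is in `W`, and there is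
another letter of `W` at this vertex -/
structure Wl (S : Sf) (N : Set S.D) (δ : S.D → ℕ) (W : Set S.D) : Prop where
  cl : S.Cl W
  hup : ∀ y ∈ W, ∀ u ∈ S.up N δ, S.vx y u → u ∈ W
  two : ∀ u ∈ S.up N δ, u ∈ W → ∃ d ∈ W, d ≠ u ∧ S.vx u d

/-- rooted spanning tree of the dual graph made of letters of `N`: `e P` is a letter of the word `P` (not the root), its
partner lies in the parent word -/
structure Ct (S : Sf) (N : Set S.D) (root : S.Wd) (e : S.Wd → S.D) (h : S.Wd → ℕ) : Prop where
  wd : ∀ P, P ≠ root → S.wd (e P) = P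
  mem : ∀ P, P ≠ root → e P ∈ N
  lt : ∀ P, P ≠ root → h (S.wd (S.a (e P))) < h P

/-- letters of the cotree -/
def Ct.T {S : Sf} {N : Set S.D} {root : S.Wd} {e : S.Wd → S.D} {h : S.Wd → ℕ} (_ : Ct S N root e h) : Set S.D :=
  {d | ∃ P, P ≠ root ∧ (d = e P ∨ d = S.a (e P))}

end Pool.Agent.GW
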