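import Pool.Agent.GW.FinG

/-!
# GW/GenSt (helper73): final statements with the Euler characteristic
-/

set_option autoImplicit false

namespace Pool.Agent.GW

open Equiv Pool.Agent.SWP

theorem pair_same {D : Type} (a : Perm D) (aa : ∀ d, a (a d) = d) {x y : D} (h : a.SameCycle x y) : y = x ∨ y = a x := by
  obtain ⟨k, rfl⟩ := h
  have h2 : a ^ 2 = 1 := by
    ext d
    rw [pow_two, Perm.mul_apply, aa, Perm.one_apply]
  rcases Int.even_or_odd k with ⟨m, rfl⟩ | ⟨m, rfl⟩
  · left
    rw [← two_mul, zpow_mul, zpow_ofNat, h2, one_zpow, Perm.one_apply]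
  · right
    rw [zpow_add, zpow_mul, zpow_ofNat, h2, one_zpow, one_mul, zpow_one]

theorem nc_pairs {D : Type} [Fintype D] (a : Perm D) (aa : ∀ d, a (a d) = d) (ha : ∀ d, a d ≠ d) :
    2 * nc a = Fintype.card D := by
  classical
  unfold nc
  have : Fintype (Quotient (Perm.SameCycle.setoid a)) :=
    @Quotient.fintype _ _ _ (fun _ _ => Classical.propDecidable _)
  rw [Nat.card_eq_fintype_card]
  have h1 : Fintype.card D = ∑ c : Quotient (Perm.SameCycle.setoid a),
      (Finset.univ.filter fun d : D => Quotient.mk (Perm.SameCycle.setoid a) d = c).card := by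
    rw [← Finset.card_univ]
    exact Finset.card_eq_sum_card_fiberwise (fun d _ => Finset.mem_univ _)
  have h2 : ∀ c : Quotient (Perm.SameCycle.setoid a),
      (Finset.univ.filter fun d : D => Quotient.mk (Perm.SameCycle.setoid a) d = c).card = 2 := by
    intro c
    obtain ⟨x, rfl⟩ := Quotient.exists_rep c
    have h3 : (Finset.univ.filter fun d : D => Quotient.mk (Perm.SameCycle.setoid a) d = ⟦x⟧) = {x, a x} := by
      ext d
      rw [Finset.mem_filter, Finset.mem_insert, Finset.mem_singleton]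
      constructor
      · rintro ⟨_, hd⟩
        have h4 : a.SameCycle d x := Quotient.exact hd
        exact pair_same a aa h4.symm
      · rintro (rfl | rfl)
        · exact ⟨Finset.mem_univ _, rfl⟩
        · refine ⟨Finset.mem_univ _, Quotient.sound ?_⟩
          exact Perm.sameCycle_apply_left.mpr (Perm.SameCycle.refl _ _)
    rw [h3, Finset.card_pair fun h => ha x h.symm]
  rw [h1, Finset.sum_congr rfl (fun c _ => h2 c), Finset.sum_const, Finset.card_univ, smul_eq_mul, mul_comm]

/-- for closed states `gen` is twice the number of components minus the Euler characteristic -/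
theorem gen_chi (S : St) (ha : ∀ d, S.a d ≠ d) : (forget S).gen = 2 * comps S - chi S := by
  have h1 := nc_pairs S.a S.aa ha
  have h2 : (forget S).gen = 2 * comps S - (nc (S.r * S.a) + nc S.r + nc S.a - Fintype.card S.D) := rfl
  have h4 : chi S = nc (S.r * S.a) - nc S.a + nc S.r := rfl
  rw [h2, h4]
  have h3 : ((Fintype.card S.D : ℕ) : ℤ) = 2 * nc S.a := by exact_mod_cast h1.symm
  rw [h3]
  ring

/-- **final theorem**: polygons with real side lengths -/
theorem genus_final : ∀ ε : ℝ, 0 < ε → ∃ C : ℝ, 0 < C ∧ ∀ (S : St) (g : ℕ), (∀ d, S.a d ≠ d) →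
    2 * (comps S : ℤ) - chi S ≤ 2 * g → SweepR (C * ((g : ℝ) + 1) ^ ε * Real.sqrt (∑ d, S.w d * S.len d)) S := by
  intro ε hε
  obtain ⟨C, hC, H⟩ := genus_polygons ε hε
  refine ⟨C, hC, fun S g ha hg => H S g ha ?_⟩
  rw [gen_chi S ha]
  exact hg

/-- **final theorem**: `n` unit triangles, total genus `g` -/
theorem genus_triangles : ∀ ε : ℝ, 0 < ε → ∃ C : ℝ, 0 < C ∧ ∀ (n g : ℕ) (α : Perm (Fin n × ZMod 3))
    (h : ∀ d, α (α d) = d) (h' : ∀ d, α d ≠ d),
      2 * (comps (tri n α h h') : ℤ) - chi (tri n α h h') ≤ 2 * g →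
      SweepR (C * ((g : ℝ) + 1) ^ ε * Real.sqrt n) (tri n α h h') := by
  intro ε hε
  obtain ⟨C, hC, H⟩ := genus_final ε hε
  refine ⟨3 * C, by positivity, fun n g α h h' hg => ?_⟩
  refine SweepR.mono ?_ (H (tri n α h h') g h' hg)
  have hA : ∑ d, (tri n α h h').w d * (tri n α h h').len d ≤ 9 * n := by
    calc ∑ d, (tri n α h h').w d * (tri n α h h').len d ≤ ∑ _d : Fin n × ZMod 3, (3 : ℝ) := by
          refine Finset.sum_le_sum (fun d _ => ?_)
          have h1 : (tri n α h h').w d = 1 := rfl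
          rw [h1, one_mul]
          exact tri_len n α h h' d
      _ = 9 * n := by
          rw [Finset.sum_const, Finset.card_univ, Fintype.card_prod, ZMod.card, Fintype.card_fin]
          simp; ring
  have hs : Real.sqrt (∑ d, (tri n α h h').w d * (tri n α h h').len d) ≤ 3 * Real.sqrt n := by
    calc Real.sqrt (∑ d, (tri n α h h').w d * (tri n α h h').len d) ≤ Real.sqrt (9 * n) := Real.sqrt_le_sqrt hA
      _ = 3 * Real.sqrt n := by
          rw [Real.sqrt_mul (by norm_num), show (9 : ℝ) = 3 ^ 2 by norm_num, Real.sqrt_sq (by norm_num)]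
  calc C * ((g : ℝ) + 1) ^ ε * Real.sqrt (∑ d, (tri n α h h').w d * (tri n α h h').len d)
      ≤ C * ((g : ℝ) + 1) ^ ε * (3 * Real.sqrt n) := mul_le_mul_of_nonneg_left hs (by positivity)
    _ = 3 * C * ((g : ℝ) + 1) ^ ε * Real.sqrt n := by ring

end Pool.Agent.GW
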