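import Pool.Agent.GW.T2Comb

/-!
# GW/T2Fin (helper73): the numeric half of T2
-/

set_option autoImplicit false

namespace Pool.Agent.GW

open Equiv Pool.Agent.SWP Finset

/-- area and squares of the numbers of letters of the words -/
theorem sum_pw_sq (S : Sf) (hS : S.Closed) : ∑ x : S.Wd, (S.pw x : ℝ) ^ 2 = S.area := by
  classical
  have hlen : ∀ d, S.len d = S.pw (S.wd d) := by
    intro d
    unfold Sf.len Sf.num Sf.pw
    congr 1
    ext e
    constructor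
    · rintro ⟨h1, _⟩
      exact ((S.wd_eq e d).2 h1.symm)
    · intro h1
      exact ⟨((S.wd_eq e d).1 h1).symm, hS e⟩
  have h1 : (S.area : ℝ) = ∑ x : S.Wd, ∑ d ∈ univ.filter (fun d => S.wd d = x), (S.pw (S.wd d) : ℝ) := by
    unfold Sf.area
    push_cast
    rw [Finset.sum_fiberwise]
    exact Finset.sum_congr rfl fun d _ => by rw [hlen]
  rw [h1]
  refine Finset.sum_congr rfl fun x _ => ?_
  have h2 : ∀ d ∈ univ.filter (fun d => S.wd d = x), (S.pw (S.wd d) : ℝ) = S.pw x := by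
    intro d hd
    rw [(Finset.mem_filter.1 hd).2]
  rw [Finset.sum_congr rfl h2, Finset.sum_const, nsmul_eq_mul, sq]
  congr 1
  unfold Sf.pw
  rw [Set.ncard_eq_toFinset_card']
  congr 2
  ext d
  simp

theorem cond_mono (S : Sf) {ψ φ : ℝ} (h : φ ≤ ψ) (hC : S.Cond ψ) : S.Cond φ := by
  intro X hX
  refine le_trans ?_ (hC X hX)
  exact mul_le_mul_of_nonneg_right h (le_min (by positivity) (by positivity))

/-- numbers -/
theorem t2_num {x l κψ lN : ℝ} (hx : 1 ≤ x) (hl : l = 2 * lN) (hl1 : 1 ≤ l) (hk : 1 / (80 * lN) ≤ κψ) {lN' : ℝ} (h0 : 0 ≤ lN')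
    (hN' : lN' ≤ 3 * lN) {b n : ℕ} (hb : b = ⌈10 ^ 14 * x * l ^ 4⌉₊) (hn : n = ⌈10 ^ 3 * x * lN'⌉₊) :
    x ≤ b ∧ 10 ^ 10 * x * lN' ^ 3 ≤ κψ * b ∧ 10 ^ 3 * x * lN' ≤ n ∧ (16 * n : ℝ) ≤ κψ * b ∧
      (10 * b + 2 * n : ℝ) ≤ 3 * 10 ^ 15 * x * l ^ 4 := by
  have hl2 : 1 ≤ l ^ 2 := one_le_pow₀ hl1
  have hl3 : 1 ≤ l ^ 3 := one_le_pow₀ hl1
  have hl4 : 1 ≤ l ^ 4 := one_le_pow₀ hl1
  have hx0 : 0 < x := by linarith
  have hl0 : 0 < l := by linarith
  have hb1 : 10 ^ 14 * x * l ^ 4 ≤ b := by rw [hb]; exact Nat.le_ceil _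
  have hb2 : (b : ℝ) ≤ 10 ^ 14 * x * l ^ 4 + 1 := by
    rw [hb]; exact (Nat.ceil_lt_add_one (by positivity)).le
  have hn1 : 10 ^ 3 * x * lN' ≤ n := by rw [hn]; exact Nat.le_ceil _
  have hn2 : (n : ℝ) ≤ 10 ^ 3 * x * lN' + 1 := by
    rw [hn]; exact (Nat.ceil_lt_add_one (by positivity)).le
  have hlN : lN' ≤ 3 / 2 * l := by rw [hl]; linarith
  have hn3 : (n : ℝ) ≤ 3 * 10 ^ 3 * x * l := by
    have h1 : 10 ^ 3 * x * lN' ≤ 10 ^ 3 * x * (3 / 2 * l) := mul_le_mul_of_nonneg_left hlN (by positivity)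
    have h2 : 1 ≤ x * l := one_le_mul_of_one_le_of_one_le hx hl1
    nlinarith
  have hk2 : 1 / (40 * l) ≤ κψ := by
    refine le_trans (le_of_eq ?_) hk
    rw [hl]; ring_nf
  have hkb : 10 ^ 14 / 40 * x * l ^ 3 ≤ κψ * b := by
    calc 10 ^ 14 / 40 * x * l ^ 3 = 1 / (40 * l) * (10 ^ 14 * x * l ^ 4) := by
          field_simp
      _ ≤ κψ * b := mul_le_mul hk2 hb1 (by positivity) (le_trans (by positivity) hk2)
  have hll4 : l ≤ l ^ 4 := by
    calc l = l ^ 1 := (pow_one l).symm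
      _ ≤ l ^ 4 := pow_le_pow_right₀ hl1 (by norm_num)
  have hll3 : l ≤ l ^ 3 := by
    calc l = l ^ 1 := (pow_one l).symm
      _ ≤ l ^ 3 := pow_le_pow_right₀ hl1 (by norm_num)
  refine ⟨?_, ?_, hn1, ?_, ?_⟩
  · refine le_trans ?_ hb1
    have h1 : x * 1 ≤ x * l ^ 4 := mul_le_mul_of_nonneg_left hl4 hx0.le
    nlinarith
  · refine le_trans ?_ hkb
    have h1 : lN' ^ 3 ≤ (3 / 2 * l) ^ 3 := pow_le_pow_left₀ h0 hlN 3
    have h2 : 10 ^ 10 * x * lN' ^ 3 ≤ 10 ^ 10 * x * (3 / 2 * l) ^ 3 := mul_le_mul_of_nonneg_left h1 (by positivity)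
    refine le_trans h2 ?_
    have h3 : 0 ≤ x * l ^ 3 := by positivity
    nlinarith
  · refine le_trans (mul_le_mul_of_nonneg_left hn3 (by norm_num)) (le_trans ?_ hkb)
    have h3 : x * l ≤ x * l ^ 3 := mul_le_mul_of_nonneg_left hll3 hx0.le
    have h4 : 0 ≤ x * l ^ 3 := by positivity
    nlinarith
  · have h3 : x * l ≤ x * l ^ 4 := mul_le_mul_of_nonneg_left hll4 hx0.le
    have h4 : 1 ≤ x * l ^ 4 := one_le_mul_of_one_le_of_one_le hx hl4
    nlinarith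

/-- **statement T2** -/
theorem t2 : T2 := by
  refine ⟨10 ^ 20, 5, by norm_num, ?_⟩
  intro S N ψ L hS hcN hN2 h0 h1 hψN hlen HX HR hL
  by_cases hc0 : S.card = 0
  · exact U_of_card L S (by omega)
  have hc1 : 1 ≤ S.card := Nat.one_le_iff_ne_zero.mpr hc0
  have hc : (0 : ℝ) < S.card := by exact_mod_cast hc1
  have hA1 : (S.card : ℝ) ≤ S.area := by exact_mod_cast card_le_area S hS
  have hA0 : (0 : ℝ) < S.area := by linarith
  have hN2r : (2 : ℝ) ≤ N := by exact_mod_cast hN2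
  have hlN : 1 / 2 ≤ Real.log N := by
    have h2 : Real.log 2 ≤ Real.log N := Real.log_le_log (by norm_num) hN2r
    linarith [Real.log_two_gt_d9]
  obtain ⟨l, hl⟩ : ∃ l : ℝ, l = 2 * Real.log N := ⟨_, rfl⟩
  have hl1 : 1 ≤ l := by rw [hl]; linarith
  have hl0 : 0 < l := by linarith
  have hlog : Real.log N = l / 2 := by rw [hl]; ring
  obtain ⟨K, hK⟩ : ∃ K : ℝ, K = 10 ^ 20 * Real.log N ^ 5 := ⟨_, rfl⟩
  have hK2 : K = 10 ^ 20 / 32 * l ^ 5 := by rw [hK, hlog]; ring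
  rw [← hK] at HR hL
  have hK3 : 3 * 10 ^ 18 * l ^ 5 ≤ K := by
    rw [hK2]
    have : 0 ≤ l ^ 5 := by positivity
    nlinarith
  have hl5 : 1 ≤ l ^ 5 := one_le_pow₀ hl1
  have hll5 : l ^ 4 ≤ l ^ 5 := pow_le_pow_right₀ hl1 (by norm_num)
  have hl15 : l ≤ l ^ 5 := by
    calc l = l ^ 1 := (pow_one l).symm
      _ ≤ l ^ 5 := pow_le_pow_right₀ hl1 (by norm_num)
  have hK1 : 1 ≤ K := by nlinarith
  by_cases hψK : 1 ≤ ψ * K
  · refine HR S hS ?_ ?_
    · exact le_mul_of_one_le_left hc.le hψK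
    · exact le_mul_of_one_le_left hA0.le hK1
  push Not at hψK
  obtain ⟨u, hu⟩ : ∃ u : ℝ, u = S.area / S.card := ⟨_, rfl⟩
  have hu1 : 1 ≤ u := by rw [hu, le_div_iff₀ hc]; linarith
  have huc : u * S.card = S.area := by rw [hu]; field_simp
  have hA : ∑ x : S.Wd, (S.pw x : ℝ) ^ 2 ≤ u * S.card := by rw [sum_pw_sq S hS, huc]
  obtain ⟨E, c, κ, hE1, hE2, hE3, hκ, hPc⟩ := S.decompS hcN hN2 h0 h1 hψN hu1 hA
  have hD : S.Dcs E c ψ u κ := ⟨hE1, hE2, hPc⟩
  have hne : Nonempty S.D := by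
    rw [← Fintype.card_pos_iff]
    exact hc1
  obtain ⟨d0⟩ := hne
  have hκ1 : κ * ψ ≤ 1 := (hPc (S.wd d0)).hκ1
  have hx1 : 1 ≤ u / ψ := by
    rw [le_div_iff₀ h0]; linarith
  have hx0 : 0 < u / ψ := by linarith
  have hnu := nu_le S hD hcN hN2 h0 hψN hu1 hA
  have hN' : (2 : ℝ) ≤ 2 * (N : ℝ) ^ 2 := by nlinarith
  have hlog' : Real.log (2 * (N : ℝ) ^ 2) ≤ 3 * Real.log N := by
    have h3 : (0 : ℝ) < N := by linarith
    have h2 : Real.log (2 * (N : ℝ) ^ 2) = Real.log 2 + 2 * Real.log N := by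
      rw [Real.log_mul (by norm_num) (by positivity), Real.log_pow]; push_cast; ring
    have h4 : Real.log 2 ≤ Real.log N := Real.log_le_log (by norm_num) hN2r
    linarith
  have hlog0 : 0 ≤ Real.log (2 * (N : ℝ) ^ 2) := Real.log_nonneg (by linarith)
  obtain ⟨b, hb⟩ : ∃ b : ℕ, b = ⌈10 ^ 14 * (u / ψ) * l ^ 4⌉₊ := ⟨_, rfl⟩
  obtain ⟨n, hn⟩ : ∃ n : ℕ, n = ⌈10 ^ 3 * (u / ψ) * Real.log (2 * (N : ℝ) ^ 2)⌉₊ := ⟨_, rfl⟩
  obtain ⟨q1, q2, q3, q4, q5⟩ := t2_num hx1 hl hl1 hκ hlog0 hlog' hb hn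
  have hb1 : 1 ≤ b := by
    have : (1 : ℝ) ≤ b := hx1.trans q1
    exact_mod_cast this
  have hx : u / ψ * (ψ * S.card) = S.area := by rw [← huc]; field_simp
  refine t2_comb S hS hD h0 h1 hu1 hκ1 hnu hN' L b n hb1 q1 q2 q3 q4 hlen ?_ ?_ ?_
  · have h2 : K * (u / ψ) ≤ L := by
      have h3 : K * (u / ψ) * (ψ * S.card) ≤ L * (ψ * S.card) := by
        calc K * (u / ψ) * (ψ * S.card) = K * S.area := by rw [mul_assoc, hx]
          _ ≤ ψ * S.card * L := hL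
          _ = L * (ψ * S.card) := by ring
      exact le_of_mul_le_mul_right h3 (by positivity)
    have h4 : (2 * (10 * b + 2 * n) : ℝ) ≤ L := by
      refine le_trans ?_ h2
      have h5 : (2 * (10 * b + 2 * n) : ℝ) ≤ 6 * 10 ^ 15 * (u / ψ) * l ^ 4 := by linarith
      refine le_trans h5 ?_
      have h6 : 6 * 10 ^ 15 * l ^ 4 ≤ K := by
        refine le_trans ?_ hK3
        nlinarith
      calc 6 * 10 ^ 15 * (u / ψ) * l ^ 4 = 6 * 10 ^ 15 * l ^ 4 * (u / ψ) := by ring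
        _ ≤ K * (u / ψ) := mul_le_mul_of_nonneg_right h6 hx0.le
    exact_mod_cast h4
  · intro X hX hXc hXn hXl
    refine HX X hX (cond_mono X ?_ hXc) ?_ ?_
    · apply div_le_div_of_nonneg_left h0.le (by norm_num) (by norm_num)
    · have h2 : (X.card : ℝ) ≤ 6 * S.card := by exact_mod_cast hXn
      nlinarith
    · intro d
      have h2 : (X.len d : ℝ) ≤ 10 * b + 2 * n := by exact_mod_cast hXl d
      rw [← hK]
      calc ψ * S.card * X.len d ≤ ψ * S.card * (3 * 10 ^ 15 * (u / ψ) * l ^ 4) :=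
            mul_le_mul_of_nonneg_left (h2.trans q5) (by positivity)
        _ = 3 * 10 ^ 15 * l ^ 4 * (u / ψ * (ψ * S.card)) := by ring
        _ = 3 * 10 ^ 15 * l ^ 4 * S.area := by rw [hx]
        _ ≤ K * S.area := by
            apply mul_le_mul_of_nonneg_right _ hA0.le
            refine le_trans ?_ hK3
            nlinarith
  · intro R hR hRc hRa
    have hE4 : (E.ncard : ℝ) ≤ 50 * ψ * l * S.card := by
      refine le_trans hE3 (le_of_eq ?_)
      rw [hlog]; ring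
    refine HR R hR ?_ ?_
    · have h2 : (R.card : ℝ) ≤ 3 * E.ncard := by exact_mod_cast hRc
      calc (R.card : ℝ) ≤ 3 * (50 * ψ * l * S.card) := by linarith
        _ = 150 * l * (ψ * S.card) := by ring
        _ ≤ K * (ψ * S.card) := by
            apply mul_le_mul_of_nonneg_right _ (by positivity)
            refine le_trans ?_ hK3
            nlinarith
        _ = ψ * K * S.card := by ring
    · have h2 : (R.area : ℝ) ≤ 3 * E.ncard * (10 * b + 2 * n) + 2 * S.area := by exact_mod_cast hRa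
      have h3 : (3 * E.ncard : ℝ) * (10 * b + 2 * n) ≤
          3 * (50 * ψ * l * S.card) * (3 * 10 ^ 15 * (u / ψ) * l ^ 4) := by
        apply mul_le_mul _ q5 (by positivity) (by positivity)
        linarith
      have h4 : 3 * (50 * ψ * l * S.card) * (3 * 10 ^ 15 * (u / ψ) * l ^ 4) = 45 * 10 ^ 16 * l ^ 5 * S.area := by
        calc 3 * (50 * ψ * l * S.card) * (3 * 10 ^ 15 * (u / ψ) * l ^ 4)
            = 45 * 10 ^ 16 * l ^ 5 * (u / ψ * (ψ * S.card)) := by ring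
          _ = 45 * 10 ^ 16 * l ^ 5 * S.area := by rw [hx]
      calc (R.area : ℝ) ≤ 45 * 10 ^ 16 * l ^ 5 * S.area + 2 * S.area := by linarith
        _ = (45 * 10 ^ 16 * l ^ 5 + 2) * S.area := by ring
        _ ≤ K * S.area := by
            apply mul_le_mul_of_nonneg_right _ hA0.le
            refine le_trans ?_ hK3
            nlinarith

end Pool.Agent.GW
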