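import Pool.Agent.GW.T1Fin
import Pool.Agent.GW.T2Fin
import Pool.Agent.GW.Fin

/-!
# GW/Main (helper73): the main theorems without hypotheses
-/

set_option autoImplicit false

namespace Pool.Agent.GW

open Equiv Pool.Agent.SWP

/-- closed states: words of length at most `C * card ^ ε * area ^ (1/2)` suffice -/
theorem main_U : ∀ ε : ℝ, 0 < ε → ∃ C : ℝ, 1 ≤ C ∧ ∀ (S : Sf) (L : ℕ), S.Closed →
    C * (S.card : ℝ) ^ ε * Real.sqrt S.area ≤ L → U L S := main_of t1 t2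

/-- polygons with unit sides -/
theorem polygons : ∀ ε : ℝ, 0 < ε → ∃ C : ℝ, 0 < C ∧ ∀ S : St, (∀ d, S.a d ≠ d) →
    (∀ d, S.w d = 1) → Sweep (C * S.total ^ ε * Real.sqrt (∑ d, S.len d)) S := polygons_of t1 t2

/-- triangles with unit sides -/
theorem triangles : ∀ ε : ℝ, 0 < ε → ∃ N : ℕ, ∀ n : ℕ, N ≤ n →
    ∀ (α : Perm (Fin n × ZMod 3)) (h : ∀ d, α (α d) = d) (h' : ∀ d, α d ≠ d),
      Sweep ((n : ℝ) ^ (1 / 2 + ε)) (tri n α h h') := triangles_of t1 t2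

end Pool.Agent.GW
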