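import Pool.Agent.GW.RegFin
import Pool.Agent.GW.CutOff
import Pool.Agent.GW.Main

/-!
# GW/Induct (helper73): the genus version of the main theorem

`genus_U`: a closed state whose (total) genus number `gen` is at most `G - 2` is swept with words of length at most
`C * G ^ ε * √area`, whatever the number of letters.  Induction on the area: few letters (`main_U`), not connected (`U_parts`), a
ball with small area and short boundary (`cut_off`), or regular (`reg_U`).
-/

set_option autoImplicit false

namespace Pool.Agent.GW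

open Equiv Pool.Agent.SWP

/-- the sum of the squares of the lengths of the words is the area -/
theorem sum_pw_sq' (S : Sf) (hS : S.Closed) : ∑ x : S.Wd, S.pw x ^ 2 = S.area := by
  have h := sum_pw_sq S hS
  exact_mod_cast h

theorem part_area_sum (S : Sf) (A : Set S.D) (hr : S.Inv A) (ha : ∀ d, S.a d ∈ A ↔ d ∈ A) :
    (S.part A hr ha).area = ∑ d ∈ (Set.toFinite A).toFinset, S.len d := by
  classical
  unfold Sf.area
  have h1 : ∀ d : (S.part A hr ha).D, (S.part A hr ha).len d = S.len d.1 := fun d => S.part_len A hr ha d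
  rw [Finset.sum_congr rfl (fun d _ => h1 d)]
  refine Finset.sum_bij (fun d _ => d.1) ?_ ?_ ?_ ?_
  · intro d _
    rw [Set.Finite.mem_toFinset]
    exact d.2
  · intro d _ e _ h
    exact Subtype.ext h
  · intro d hd
    rw [Set.Finite.mem_toFinset] at hd
    exact ⟨⟨d, hd⟩, Finset.mem_univ _, rfl⟩
  · intro d _
    rfl

theorem area_split (S : Sf) (A : Set S.D) (hr : S.Inv A) (ha : ∀ d, S.a d ∈ A ↔ d ∈ A) (hr' : S.Inv Aᶜ)
    (ha' : ∀ d, S.a d ∈ Aᶜ ↔ d ∈ Aᶜ) : (S.part A hr ha).area + (S.part Aᶜ hr' ha').area = S.area := by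
  classical
  rw [part_area_sum, part_area_sum]
  unfold Sf.area
  rw [← Finset.sum_filter_add_sum_filter_not Finset.univ (fun d => d ∈ A)]
  congr 1
  · refine Finset.sum_congr ?_ (fun _ _ => rfl)
    ext d
    rw [Set.Finite.mem_toFinset, Finset.mem_filter]
    exact ⟨fun h => ⟨Finset.mem_univ _, h⟩, fun h => h.2⟩
  · refine Finset.sum_congr ?_ (fun _ _ => rfl)
    ext d
    rw [Set.Finite.mem_toFinset, Finset.mem_filter]
    exact ⟨fun h => ⟨Finset.mem_univ _, h⟩, fun h => h.2⟩

theorem closed_len_pos (S : Sf) (hS : S.Closed) (d : S.D) : 1 ≤ S.len d := by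
  unfold Sf.len Sf.num
  refine (Set.ncard_pos (Set.toFinite _)).2 ⟨d, ?_, hS d⟩
  exact Perm.SameCycle.refl _ _

theorem area_pos_of (S : Sf) (hS : S.Closed) (d : S.D) : 1 ≤ S.area :=
  le_trans (closed_len_pos S hS d)
    (Finset.single_le_sum (f := fun e => S.len e) (fun _ _ => Nat.zero_le _) (Finset.mem_univ d))

theorem genus_U : ∀ ε : ℝ, 0 < ε → ∃ C : ℝ, 1 ≤ C ∧ ∀ (S : Sf) (G L : ℕ), S.Closed → S.gen + 2 ≤ G → 2 ≤ G →
    C * (G : ℝ) ^ ε * Real.sqrt S.area ≤ L → U L S := by
  intro ε hε
  obtain ⟨C1, hC1, h1⟩ := main_U (ε / 4) (by positivity)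
  obtain ⟨C2, hC2, h2⟩ := reg_U ε hε
  refine ⟨max (max C1 C2) 2, le_trans hC1 (le_trans (le_max_left _ _) (le_max_left _ _)), ?_⟩
  set C : ℝ := max (max C1 C2) 2 with hC
  have hCC1 : C1 ≤ C := le_trans (le_max_left _ _) (le_max_left _ _)
  have hCC2 : C2 ≤ C := le_trans (le_max_right _ _) (le_max_left _ _)
  have hCtwo : (2 : ℝ) ≤ C := le_max_right _ _
  have hC0 : (0 : ℝ) ≤ C := by linarith
  suffices key : ∀ n : ℕ, ∀ (S : Sf) (G L : ℕ), S.area ≤ n → S.Closed → S.gen + 2 ≤ G → 2 ≤ G →
      C * (G : ℝ) ^ ε * Real.sqrt S.area ≤ L → U L S from fun S G L => key S.area S G L le_rfl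
  intro n
  induction n using Nat.strong_induction_on with
  | _ n ih =>
    intro S G L hn hS hg hG hL
    have hG1 : (1 : ℝ) ≤ (G : ℝ) := by exact_mod_cast (by omega : 1 ≤ G)
    have hGe : (1 : ℝ) ≤ (G : ℝ) ^ ε := Real.one_le_rpow hG1 hε.le
    have hsq : 2 * Real.sqrt S.area ≤ L := by
      refine le_trans ?_ hL
      apply mul_le_mul_of_nonneg_right _ (Real.sqrt_nonneg _)
      nlinarith
    have hlen : ∀ d, S.len d ≤ L := by
      intro d
      have h3 : ((S.len d : ℝ)) ≤ Real.sqrt S.area := by
        apply Real.le_sqrt_of_sq_le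
        exact_mod_cast len_sq_le_area S d
      have h4 : (S.len d : ℝ) ≤ L := by
        have := Real.sqrt_nonneg (S.area : ℝ)
        linarith
      exact_mod_cast h4
    -- smaller states with at most the same genus
    have hsmall : ∀ T : Sf, T.Closed → T.gen ≤ S.gen → T.area < S.area → U L T := by
      intro T hT hTg hTa
      refine ih T.area (by omega) T G L le_rfl hT (by linarith) hG ?_
      refine le_trans ?_ hL
      apply mul_le_mul_of_nonneg_left
      · apply Real.sqrt_le_sqrt
        exact_mod_cast hTa.le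
      · positivity
    by_cases hA : G ^ 4 ≤ S.area
    · have hApos : 0 < S.area := lt_of_lt_of_le (by positivity) hA
      have hne : Nonempty S.D := by
        by_contra hne
        have : S.area = 0 := by
          unfold Sf.area
          have : IsEmpty S.D := not_nonempty_iff.1 hne
          simp
        omega
      by_cases hCon : S.Con
      · by_cases hreg : ∀ (P : S.Wd) (r : ℕ), 2 * G * ∑ Q ∈ S.dual.EB Finset.univ S.pw {P} r, S.pw Q ^ 2 ≤ S.area →
            ∑ Q ∈ S.dual.EB Finset.univ S.pw {P} r, S.pw Q ^ 2 <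
              2 * (S.bd (S.lets (S.dual.EB Finset.univ S.pw {P} r))).ncard ^ 2
        · refine h2 S G L hS hCon hne hg hG hA hreg (le_trans ?_ hL)
          apply mul_le_mul_of_nonneg_right _ (Real.sqrt_nonneg _)
          apply mul_le_mul_of_nonneg_right hCC2
          positivity
        · push Not at hreg
          obtain ⟨P, r, h3, h4⟩ := hreg
          set B := S.dual.EB Finset.univ S.pw {P} r with hB
          set b := (S.bd (S.lets B)).ncard with hb
          have hPB : P ∈ B := S.dual.mem_EB.2 (WG.Rch.base (Finset.mem_singleton_self P) (Finset.mem_univ P))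
          have hBpos : 1 ≤ ∑ Q ∈ B, S.pw Q ^ 2 := by
            calc 1 ≤ S.pw P ^ 2 := Nat.one_le_pow _ _ (S.DecompS_pos P)
              _ ≤ _ := Finset.single_le_sum (f := fun Q => S.pw Q ^ 2) (fun _ _ => Nat.zero_le _) hPB
          have h5 : 4 * ∑ Q ∈ B, S.pw Q ^ 2 ≤ S.area := by
            refine le_trans (Nat.mul_le_mul_right _ ?_) h3
            omega
          have h6 : 4 * b ≤ L := by
            have h7 : (b : ℝ) ^ 2 * 8 ≤ S.area := by
              have : b ^ 2 * 8 ≤ S.area := by omega
              exact_mod_cast this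
            have h8 : (4 * b : ℝ) ≤ 2 * Real.sqrt S.area := by
              have h9 : (2 * b : ℝ) ≤ Real.sqrt S.area := by
                apply Real.le_sqrt_of_sq_le
                nlinarith [sq_nonneg (b : ℝ)]
              linarith
            have h10 : ((4 * b : ℕ) : ℝ) ≤ L := by push_cast; linarith
            exact_mod_cast h10
          obtain ⟨S1, S2, c1, c2, cg, ca1, ca2, cU⟩ := cut_off L S hS B hlen h6
          have g1 := gen_nonneg S1
          have g2 := gen_nonneg S2
          have hsum : ∑ Q ∈ B, S.pw Q ^ 2 + ∑ Q ∈ Bᶜ, S.pw Q ^ 2 = S.area := by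
            rw [← sum_pw_sq' S hS]
            exact Finset.sum_add_sum_compl B _
          rw [← hb] at ca1 ca2
          refine cU (hsmall S1 c1 (by linarith) ?_) (hsmall S2 c2 (by linarith) ?_)
          · omega
          · omega
      · unfold Sf.Con at hCon
        push Not at hCon
        obtain ⟨A, hA1, hA2, hA3, hA4⟩ := hCon
        have ha : ∀ d, S.a d ∈ A ↔ d ∈ A := fun d => ⟨fun h => by rw [← S.aa d]; exact hA2 _ h, hA2 d⟩
        have hr' : S.Inv Aᶜ := fun d => not_congr (hA1 d)
        have ha' : ∀ d, S.a d ∈ Aᶜ ↔ d ∈ Aᶜ := fun d => not_congr (ha d)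
        have hs := area_split S A hA1 ha hr' ha'
        have hgs := gen_split S A hA1 ha hr' ha'
        have g1 := gen_nonneg (S.part A hA1 ha)
        have g2 := gen_nonneg (S.part Aᶜ hr' ha')
        have c1 : (S.part A hA1 ha).Closed := S.part_closed A hA1 ha (fun d _ => hS d)
        have c2 : (S.part Aᶜ hr' ha').Closed := S.part_closed Aᶜ hr' ha' (fun d _ => hS d)
        have hne1 : 1 ≤ (S.part A hA1 ha).area := by
          obtain ⟨d, hd⟩ := hA3
          exact area_pos_of _ c1 ⟨d, hd⟩
        have hne2 : 1 ≤ (S.part Aᶜ hr' ha').area := by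
          obtain ⟨d, hd⟩ := (Set.ne_univ_iff_exists_notMem A).1 hA4
          exact area_pos_of _ c2 ⟨d, hd⟩
        have u1 := hsmall _ c1 (by linarith) (by omega)
        have u2 := hsmall _ c2 (by linarith) (by omega)
        classical
        refine U_parts S (fun d => decide (d ∈ A)) ?_ ?_ hlen ?_
        · intro d
          exact decide_eq_decide.2 (hA1 d)
        · intro d
          exact decide_eq_decide.2 (ha d)
        · intro i
          cases i with
          | true =>
            refine U_iso (S := S.part A hA1 ha) (Equiv.subtypeEquivRight (fun d => by simp)) ⟨?_, ?_⟩ u1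
            · intro d; rfl
            · intro d; rfl
          | false =>
            refine U_iso (S := S.part Aᶜ hr' ha') (Equiv.subtypeEquivRight (fun d => by simp)) ⟨?_, ?_⟩ u2
            · intro d; rfl
            · intro d; rfl
    · refine h1 S L hS (le_trans ?_ hL)
      apply mul_le_mul_of_nonneg_right _ (Real.sqrt_nonneg _)
      have h3 : (S.card : ℝ) ≤ (G : ℝ) ^ (4 : ℝ) := by
        have h4 : S.card ≤ G ^ 4 := le_trans (card_le_area S hS) (by omega)
        have h5 : ((S.card : ℕ) : ℝ) ≤ ((G ^ 4 : ℕ) : ℝ) := by exact_mod_cast h4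
        refine le_trans h5 (le_of_eq ?_)
        push_cast
        norm_cast
      have h6 : (S.card : ℝ) ^ (ε / 4) ≤ (G : ℝ) ^ ε := by
        calc (S.card : ℝ) ^ (ε / 4) ≤ ((G : ℝ) ^ (4 : ℝ)) ^ (ε / 4) :=
              Real.rpow_le_rpow (by positivity) h3 (by positivity)
          _ = (G : ℝ) ^ ε := by
              rw [← Real.rpow_mul (by positivity)]
              congr 1
              ring
      calc C1 * (S.card : ℝ) ^ (ε / 4) ≤ C * (G : ℝ) ^ ε := by
            apply mul_le_mul hCC1 h6 (by positivity) hC0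

end Pool.Agent.GW
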