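import Pool.Agent.GW.InitSt

/-!
# The first fat state: fat words, outer words, counting
-/

set_option autoImplicit false

namespace Pool.Agent.GW

open Equiv Pool.Agent.SWP

/-- `G`: one letter of every live pair, `Q`: at most one letter of a live pair, dead letters are fixed -/
structure IsH {D : Type} (r a : Perm D) (Q G : Set D) : Prop where
  ha : ∀ d, a (a d) = d
  dead : ∀ d, a d = d → r d = d
  G1 : ∀ d ∈ G, a d ≠ d
  G2 : ∀ d, a d ≠ d → (d ∉ G ↔ a d ∈ G)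
  Q1 : ∀ q ∈ Q, a q ≠ q
  Q2 : ∀ q ∈ Q, a q ∉ Q

namespace IsH

variable {D : Type} [Finite D] {r a : Perm D} {Q G : Set D}

omit [Finite D] in
theorem live_r (h : IsH r a Q G) {d : D} (hd : a d ≠ d) : a (r d) ≠ r d :=
  fun h1 => hd (by
    have h2 := r.injective (h.dead _ h1)
    rw [h2] at h1; exact h1)

omit [Finite D] in
theorem live_a (h : IsH r a Q G) {d : D} (hd : a d ≠ d) : a (a d) ≠ a d := by
  rw [h.ha]; exact fun h1 => hd h1.symm

omit [Finite D] in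
theorem G3 (h : IsH r a Q G) {d : D} (hd : d ∈ G) : a d ∉ G := fun h1 =>
  (h.G2 d (h.G1 d hd)).2 h1 hd

theorem P_S (h : IsH r a Q G) {t : D} (ht : a t ≠ t) : isS r a h.ha Q G (isP Q G t) ∈ isF a Q G := by
  by_cases h1 : t ∈ Q
  · rw [isS_P_mem r a h.ha Q G h1]; exact Or.inr ⟨_, _, rfl⟩
  · rw [isS_P_notMem r a h.ha Q G h1]; exact N_isF a Q G (h.live_r ht)

omit [Finite D] in
theorem P_isF {t : D} (ht : a t ≠ t) : isP Q G t ∈ isF a Q G := Or.inl ⟨t, ht, rfl⟩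

omit [Finite D] in
theorem R_isF (q : Q) (b : Bool) : isR Q G q b ∈ isF a Q G := Or.inr ⟨q, b, rfl⟩

theorem dead_S (h : IsH r a Q G) {t : D} (ht : t ∉ G) (h1 : a t = t) :
    isS r a h.ha Q G (Sum.inl (Sum.inl t)) = Sum.inl (Sum.inl t) := by
  have h2 : t ∉ Q := fun h2 => h.Q1 t h2 h1
  rw [← isP_notMem Q G ht, isS_P_notMem r a h.ha Q G h2, h.dead t h1, isN_notMem a Q G (by rw [h1]; exact h2)]

theorem F_S (h : IsH r a Q G) {x : isT Q G} (hx : x ∈ isF a Q G) : isS r a h.ha Q G x ∈ isF a Q G := by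
  rcases hx with ⟨t, ht, rfl⟩ | ⟨q, b, rfl⟩
  · exact h.P_S ht
  · cases b
    · rw [isS_Rf]; exact P_isF (h.live_a (h.Q1 q q.2))
    · rw [isS_Rt]; exact N_isF a Q G (h.live_r (h.Q1 q q.2))

theorem F_inv (h : IsH r a Q G) (x : isT Q G) : isS r a h.ha Q G x ∈ isF a Q G ↔ x ∈ isF a Q G := by
  refine ⟨fun h1 => ?_, h.F_S⟩
  rcases isCases a Q G x with ⟨t, rfl, ht⟩ | ⟨q, b, rfl⟩ | ⟨t, ht, rfl⟩ | ⟨t, ht, rfl⟩ | ⟨t, ht, h2, rfl⟩
  · exact P_isF (ht.elim id (h.G1 t))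
  · exact R_isF q b
  · rw [isS_G _ _ _ _ _ ht] at h1; exact absurd h1 (O_notF a Q G ht)
  · rw [isS_O _ _ _ _ _ ht] at h1; exact absurd h1 (G_notF a Q G ht)
  · rw [h.dead_S ht h2] at h1; exact h1

omit [Finite D] in
theorem F_live (h : IsH r a Q G) {x : isT Q G} (hx : x ∈ isF a Q G) : isA a Q G x ≠ x := by
  rcases hx with ⟨t, ht, rfl⟩ | ⟨q, b, rfl⟩
  · by_cases h1 : t ∈ G
    · rw [isA_P_mem a Q G h1]; exact (isP_ne_O Q G t t h1).symm
    · rw [isA_P_notMem a Q G h1]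
      have h2 : a t ∈ G := (h.G2 t ht).1 h1
      exact (isP_ne_inl Q G t _ h2).symm
  · rw [isA_R]
    intro h1
    have := (isR_inj Q G h1).2
    cases b <;> simp at this

omit [Finite D] in
theorem F_out (h : IsH r a Q G) {x : isT Q G} (hx : x ∉ isF a Q G) (hl : isA a Q G x ≠ x) :
    isA a Q G x ∈ isF a Q G := by
  rcases isCases a Q G x with ⟨t, rfl, ht⟩ | ⟨q, b, rfl⟩ | ⟨t, ht, rfl⟩ | ⟨t, ht, rfl⟩ | ⟨t, ht, h2, rfl⟩
  · exact absurd (P_isF (ht.elim id (h.G1 t))) hx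
  · exact absurd (R_isF q b) hx
  · rw [isA_inl, ← isP_notMem Q G (h.G3 ht)]
    exact P_isF (h.live_a (h.G1 t ht))
  · rw [isA_O a Q G ht]; exact P_isF (h.G1 t ht)
  · rw [isA_inl, h2] at hl; exact absurd rfl hl

omit [Finite D] in
theorem P_out (h : IsH r a Q G) {t : D} (ht : a t ≠ t) : isA a Q G (isP Q G t) ∉ isF a Q G := by
  by_cases h1 : t ∈ G
  · rw [isA_P_mem a Q G h1]; exact O_notF a Q G h1
  · rw [isA_P_notMem a Q G h1]; exact G_notF a Q G ((h.G2 t ht).1 h1)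

omit [Finite D] in
theorem F_res (h : IsH r a Q G) {x : isT Q G} (hx : x ∈ isF a Q G) (h1 : isA a Q G x ∈ isF a Q G) :
    ∃ q b, x = isR Q G q b := by
  rcases hx with ⟨t, ht, rfl⟩ | h2
  · exact absurd h1 (h.P_out ht)
  · exact h2

omit [Finite D] in
theorem pi_live (h : IsH r a Q G) {x : isT Q G} (hx : x ∈ isF a Q G) : a (isPi a Q G x) ≠ isPi a Q G x := by
  rcases hx with ⟨t, ht, rfl⟩ | ⟨q, b, rfl⟩
  · rw [isPi_P]; exact ht
  · cases b
    · rw [isPi_Rf]; exact h.live_a (h.Q1 q q.2)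
    · rw [isPi_Rt]; exact h.Q1 q q.2

theorem same_N (h : IsH r a Q G) (t : D) : (isS r a h.ha Q G).SameCycle (isN a Q G t) (isP Q G t) := by
  by_cases h1 : a t ∈ Q
  · rw [isN_mem a Q G h1]
    have h2 := isS_Rf r a h.ha Q G ⟨a t, h1⟩
    rw [h.ha] at h2
    rw [← h2]
    exact (Perm.sameCycle_apply_right).2 (Perm.SameCycle.refl _ _)
  · rw [isN_notMem a Q G h1]

theorem same_step (h : IsH r a Q G) (t : D) : (isS r a h.ha Q G).SameCycle (isP Q G t) (isP Q G (r t)) := by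
  refine Perm.SameCycle.trans ?_ (h.same_N (r t))
  by_cases h1 : t ∈ Q
  · have h2 := isS_P_mem r a h.ha Q G h1
    have h3 := isS_Rt r a h.ha Q G ⟨t, h1⟩
    rw [← h2] at h3
    change _ = isN a Q G (r t) at h3
    rw [← h3]
    exact (Perm.sameCycle_apply_right).2 ((Perm.sameCycle_apply_right).2 (Perm.SameCycle.refl _ _))
  · rw [← isS_P_notMem r a h.ha Q G h1]
    exact (Perm.sameCycle_apply_right).2 (Perm.SameCycle.refl _ _)

theorem same_old (h : IsH r a Q G) {s t : D} (hst : r.SameCycle s t) :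
    (isS r a h.ha Q G).SameCycle (isP Q G s) (isP Q G t) := by
  obtain ⟨n, rfl⟩ := hst.exists_nat_pow_eq
  clear hst
  induction n with
  | zero => exact Perm.SameCycle.refl _ _
  | succ n ih =>
    rw [pow_succ', Perm.mul_apply]
    exact ih.trans (h.same_step _)

theorem same_pi (h : IsH r a Q G) {x : isT Q G} (hx : x ∈ isF a Q G) :
    (isS r a h.ha Q G).SameCycle x (isP Q G (isPi a Q G x)) := by
  rcases hx with ⟨t, ht, rfl⟩ | ⟨q, b, rfl⟩
  · rw [isPi_P]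
  · cases b
    · rw [isPi_Rf, ← isS_Rf r a h.ha Q G q]
      exact (Perm.sameCycle_apply_right).2 (Perm.SameCycle.refl _ _)
    · rw [isPi_Rt]
      have h2 := isS_P_mem r a h.ha Q G q.2
      refine Perm.SameCycle.symm ?_
      change (isS r a h.ha Q G).SameCycle (isP Q G q) (isR Q G ⟨q, q.2⟩ true)
      rw [← h2]
      exact (Perm.sameCycle_apply_right).2 (Perm.SameCycle.refl _ _)

theorem same (h : IsH r a Q G) {x y : isT Q G} (hx : x ∈ isF a Q G) (hy : y ∈ isF a Q G)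
    (hxy : r.SameCycle (isPi a Q G x) (isPi a Q G y)) : (isS r a h.ha Q G).SameCycle x y :=
  (h.same_pi hx).trans ((h.same_old hxy).trans (h.same_pi hy).symm)

theorem port (h : IsH r a Q G) {x : isT Q G} (hx : x ∈ isF a Q G) :
    ∃ y, (isS r a h.ha Q G).SameCycle x y ∧ isA a Q G y ∉ isF a Q G :=
  ⟨_, h.same_pi hx, h.P_out (h.pi_live hx)⟩

theorem pi_S {κ : Type} (h : IsH r a Q G) (c : D → κ) (hc : ∀ d, c (r d) = c d) (x : isT Q G) :
    c (isPi a Q G (isS r a h.ha Q G x)) = c (isPi a Q G x) := by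
  rcases isCases a Q G x with ⟨t, rfl, -⟩ | ⟨q, b, rfl⟩ | ⟨t, ht, rfl⟩ | ⟨t, ht, rfl⟩ | ⟨t, ht, h2, rfl⟩
  · rw [isPi_P]
    by_cases h1 : t ∈ Q
    · rw [isS_P_mem r a h.ha Q G h1]; rfl
    · rw [isS_P_notMem r a h.ha Q G h1, isPi_N a Q G h.ha]; exact hc t
  · cases b
    · rw [isS_Rf, isPi_P]; rfl
    · rw [isS_Rt, isPi_N a Q G h.ha]; exact hc q
  · rw [isS_G _ _ _ _ _ ht]; rfl
  · rw [isS_O _ _ _ _ _ ht]; rfl
  · rw [h.dead_S ht h2]

theorem same_c {κ : Type} (h : IsH r a Q G) (c : D → κ) (hc : ∀ d, c (r d) = c d) {x y : isT Q G}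
    (hxy : (isS r a h.ha Q G).SameCycle x y) : c (isPi a Q G x) = c (isPi a Q G y) := by
  obtain ⟨n, rfl⟩ := hxy.exists_nat_pow_eq
  clear hxy
  induction n with
  | zero => rfl
  | succ n ih =>
    rw [pow_succ', Perm.mul_apply, h.pi_S c hc]
    exact ih

/-- number of letters of `msub` with old letter in `A` -/
theorem countM (h : IsH r a Q G) (A : Set D) : {x : D ⊕ (Q × Bool) | msPi a Q x ∈ A}.ncard ≤ 2 * A.ncard := by
  have h1 : (A ×ˢ (Set.univ : Set Bool)).ncard = A.ncard * 2 := by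
    rw [Set.ncard_prod, Set.ncard_univ, Nat.card_eq_fintype_card, Fintype.card_bool]
  rw [mul_comm, ← h1]
  refine Set.ncard_le_ncard_of_injOn (fun x => (msPi a Q x, x.isLeft)) ?_ ?_ (Set.toFinite _)
  · intro x hx
    exact ⟨hx, Set.mem_univ _⟩
  · rintro (s | ⟨q, b⟩) - (t | ⟨p, c⟩) - hst
    · have := congrArg Prod.fst hst
      exact congrArg Sum.inl this
    · have := congrArg Prod.snd hst; cases this
    · have := congrArg Prod.snd hst; cases this
    · have h2 : msPi a Q (Sum.inr (q, b)) = msPi a Q (Sum.inr (p, c)) := congrArg Prod.fst hst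
      cases b <;> cases c
      · have h3 : a q = a p := h2
        rw [Subtype.ext (a.injective h3)]
      · have h3 : a q = (p : D) := h2
        exact absurd (h3 ▸ p.2) (h.Q2 q q.2)
      · have h3 : (q : D) = a p := h2
        exact absurd (h3 ▸ q.2) (h.Q2 p p.2)
      · have h3 : (q : D) = p := h2
        rw [Subtype.ext h3]

/-- number of fat letters with old letter in `A` -/
theorem countF (h : IsH r a Q G) (A : Set D) : {x | x ∈ isF a Q G ∧ isPi a Q G x ∈ A}.ncard ≤ 2 * A.ncard := by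
  refine le_trans ?_ (h.countM A)
  have key : ∀ x ∈ isF a Q G, ∃ y : D ⊕ (Q × Bool), x = cvN (isG Q G) y := by
    rintro x (⟨t, -, rfl⟩ | ⟨q, b, rfl⟩)
    · exact ⟨Sum.inl t, rfl⟩
    · exact ⟨Sum.inr (q, b), (isCn _ (inr_isG _)).symm⟩
  have hsub : {x | x ∈ isF a Q G ∧ isPi a Q G x ∈ A} ⊆
      cvN (isG Q G) '' {x : D ⊕ (Q × Bool) | msPi a Q x ∈ A} := by
    rintro x ⟨hx, hA⟩
    obtain ⟨y, rfl⟩ := key x hx
    exact ⟨y, by rw [isPi_cvN] at hA; exact hA, rfl⟩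
  exact (Set.ncard_le_ncard hsub (Set.toFinite _)).trans (Set.ncard_image_le (Set.toFinite _))

/-- the outer letters -/
theorem countO [Fintype D] (h : IsH r a Q G) :
    {x | x ∉ isF a Q G ∧ isA a Q G x ≠ x}.ncard ≤ Fintype.card D := by
  rw [← Nat.card_eq_fintype_card, ← Set.ncard_univ]
  refine Set.ncard_le_ncard_of_injOn (fun x => if x.isLeft then isPi a Q G x else a (isPi a Q G x))
    (fun _ _ => Set.mem_univ _) ?_ (Set.toFinite _)
  have key : ∀ x, x ∉ isF a Q G ∧ isA a Q G x ≠ x →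
      (∃ t, t ∈ G ∧ x = Sum.inl (Sum.inl t)) ∨ (∃ t, ∃ ht : t ∈ G, x = isO Q G t ht) := by
    rintro x ⟨hx, hl⟩
    rcases isCases a Q G x with ⟨t, rfl, ht⟩ | ⟨q, b, rfl⟩ | h1 | h1 | ⟨t, ht, h2, rfl⟩
    · exact absurd (P_isF (ht.elim id (h.G1 t))) hx
    · exact absurd (R_isF q b) hx
    · exact Or.inl h1
    · exact Or.inr h1
    · rw [isA_inl, h2] at hl; exact absurd rfl hl
  intro x hx y hy hxy
  rcases key x hx with ⟨s, hs, rfl⟩ | ⟨s, hs, rfl⟩ <;> rcases key y hy with ⟨t, ht, rfl⟩ | ⟨t, ht, rfl⟩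
  · have h1 : s = t := hxy
    rw [h1]
  · have h1 : s = a t := hxy
    exact absurd (h1 ▸ hs) (h.G3 ht)
  · have h1 : a s = t := hxy
    exact absurd (h1 ▸ ht) (h.G3 hs)
  · have h1 : a s = a t := hxy
    have h2 := a.injective h1
    subst h2; rfl

/-- the word of an outer letter -/
theorem wordO (h : IsH r a Q G) {x : isT Q G} (hx : x ∉ isF a Q G) :
    ∃ B : Set (isT Q G), x ∈ B ∧ (∀ y ∈ B, isS r a h.ha Q G y ∈ B) ∧ B.ncard ≤ 2 := by
  have key : ∀ t, ∀ ht : t ∈ G, (∀ y ∈ ({Sum.inl (Sum.inl t), isO Q G t ht} : Set (isT Q G)),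
      isS r a h.ha Q G y ∈ ({Sum.inl (Sum.inl t), isO Q G t ht} : Set (isT Q G))) := by
    intro t ht y hy
    rcases hy with rfl | hy
    · rw [isS_G _ _ _ _ _ ht]; exact Or.inr rfl
    · rw [Set.mem_singleton_iff] at hy
      subst hy
      rw [isS_O _ _ _ _ _ ht]; exact Or.inl rfl
  rcases isCases a Q G x with ⟨t, rfl, ht⟩ | ⟨q, b, rfl⟩ | ⟨t, ht, rfl⟩ | ⟨t, ht, rfl⟩ | ⟨t, ht, h2, rfl⟩
  · exact absurd (P_isF (ht.elim id (h.G1 t))) hx
  · exact absurd (R_isF q b) hx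
  · exact ⟨_, Or.inl rfl, key t ht, Set.ncard_insert_le _ _ |>.trans (by simp)⟩
  · exact ⟨_, Or.inr rfl, key t ht, Set.ncard_insert_le _ _ |>.trans (by simp)⟩
  · refine ⟨{Sum.inl (Sum.inl t)}, rfl, ?_, by simp⟩
    intro y hy
    rw [Set.mem_singleton_iff] at hy
    subst hy
    rw [h.dead_S ht h2]
    exact rfl

end IsH

end Pool.Agent.GW
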