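import Pool.Agent.GW.Net
import Pool.Agent.GW.InitFat

/-!
# From a partition into cells to the first net: everything after the merging of the cells

`Cells`: see Init. `init_of`: the state `(r1, a1)` in which the live letters of a cell form one word is turned into a net.
-/

set_option autoImplicit false

namespace Pool.Agent.GW

open Equiv Pool.Agent.SWP

structure Cells {R B : ℕ} (S : Sf) (pres : Set (Lab R B)) (hub : S.D → Lab R B) (lev c : S.D → ℕ) (Th0 Th : ℕ) : Prop where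
  live : ∀ d, S.a d ≠ d
  cr : ∀ d, c (S.r d) = c d
  hubc : ∀ d e, c d = c e → hub d = hub e ∧ lev d = lev e
  conn : ∀ d e, c d = c e → Relation.ReflTransGen (fun x y => c y = c x ∧ (y = S.r x ∨ y = S.a x)) d e
  lev3 : ∀ d, lev d ≤ 3
  root : ∀ d e, lev d = 0 → lev e = 0 → hub d = hub e → c d = c e
  att : ∀ d, 0 < lev d → ∃ e, c e = c d ∧ hub (S.a e) = hub d ∧ lev (S.a e) + 1 = lev d
  link : ∀ g ∈ pres, ∀ h ∈ pres, adj g h → ∃ d, lev d = 0 ∧ hub d = g ∧ lev (S.a d) = 0 ∧ hub (S.a d) = h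
  hubp : ∀ d, hub d ∈ pres
  b0 : ∀ g, {d | hub d = g ∧ lev d = 0}.ncard ≤ Th0
  bT : ∀ g, {d | hub d = g}.ncard ≤ Th

theorem adj_ne {R B : ℕ} {g h : Lab R B} (hg : adj g h) : g ≠ h := by
  rintro rfl
  obtain ⟨i, hi, -⟩ := hg
  exact hi rfl

private theorem adj_symm {R B : ℕ} {g h : Lab R B} (hg : adj g h) : adj h g := by
  obtain ⟨i, hi, h2⟩ := hg
  exact ⟨i, hi.symm, fun j hj => (h2 j hj).symm⟩

/-- number of present neighbours of a label -/
theorem nbr_card {R B : ℕ} (pres : Set (Lab R B)) (β : ℕ)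
    (hβ : ∀ (g : Lab R B) (i : Fin R), {v : Fin B | Function.update g i v ∉ pres}.ncard ≤ β) (g : Lab R B) :
    R * (B - 1) ≤ {h | h ∈ pres ∧ adj g h}.ncard + R * β := by
  classical
  set T : Finset (Fin R × Fin B) := Finset.univ.filter (fun p => p.2 ≠ g p.1 ∧ Function.update g p.1 p.2 ∈ pres) with hT
  have h1 : R * (B - 1) ≤ T.card + R * β := by
    have h2 : T.card = ∑ i : Fin R, (Finset.univ.filter (fun v : Fin B => v ≠ g i ∧ Function.update g i v ∈ pres)).card := by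
      rw [hT, Finset.card_filter, Fintype.sum_prod_type]
      refine Finset.sum_congr rfl (fun i _ => ?_)
      rw [Finset.card_filter]
    have h3 : ∀ i : Fin R, B - 1 ≤ (Finset.univ.filter (fun v : Fin B => v ≠ g i ∧ Function.update g i v ∈ pres)).card + β := by
      intro i
      have h4 : (Finset.univ.filter (fun v : Fin B => v ≠ g i)).card = B - 1 := by
        rw [Finset.filter_ne', Finset.card_erase_of_mem (Finset.mem_univ _), Finset.card_univ, Fintype.card_fin]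
      have h5 : (Finset.univ.filter (fun v : Fin B => Function.update g i v ∉ pres)).card ≤ β := by
        refine le_trans (le_of_eq ?_) (hβ g i)
        rw [← Set.ncard_coe_finset]
        congr 1
        ext v; simp
      rw [← h4]
      refine (Finset.card_le_card (t := (Finset.univ.filter (fun v : Fin B => v ≠ g i ∧ Function.update g i v ∈ pres)) ∪
        (Finset.univ.filter (fun v : Fin B => Function.update g i v ∉ pres))) ?_).trans
        ((Finset.card_union_le _ _).trans (Nat.add_le_add_left h5 _))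
      intro v hv
      simp only [Finset.mem_filter, Finset.mem_univ, true_and, Finset.mem_union] at hv ⊢
      tauto
    have h6 : ∑ _i : Fin R, (B - 1) ≤ ∑ i : Fin R,
        ((Finset.univ.filter (fun v : Fin B => v ≠ g i ∧ Function.update g i v ∈ pres)).card + β) :=
      Finset.sum_le_sum (fun i _ => h3 i)
    rw [Finset.sum_add_distrib, ← h2] at h6
    simpa using h6
  have h7 : T.card ≤ {h | h ∈ pres ∧ adj g h}.ncard := by
    rw [← Set.ncard_coe_finset]
    refine Set.ncard_le_ncard_of_injOn (fun p => Function.update g p.1 p.2) ?_ ?_ (Set.toFinite _)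
    · rintro ⟨i, v⟩ hp
      have hp' : v ≠ g i ∧ Function.update g i v ∈ pres := by simpa [hT] using hp
      refine ⟨hp'.2, i, ?_, fun j hj => ?_⟩
      · rw [Function.update_self]; exact hp'.1.symm
      · rw [Function.update_of_ne hj]
    · rintro ⟨i, v⟩ hp ⟨j, w⟩ hq hpq
      have hp' : v ≠ g i ∧ Function.update g i v ∈ pres := by simpa [hT] using hp
      have h8 : Function.update g i v = Function.update g j w := hpq
      have hij : i = j := by
        by_contra hij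
        have h9 := congrFun h8 i
        rw [Function.update_self, Function.update_of_ne hij] at h9
        exact hp'.1 h9
      subst hij
      have h9 := congrFun h8 i
      rw [Function.update_self, Function.update_self] at h9
      rw [h9]
  omega

theorem init_of {R B : ℕ} (S : Sf) (pres : Set (Lab R B)) (hub : S.D → Lab R B) (lev c : S.D → ℕ)
    (Th0 Th β K : ℕ) (h : Cells S pres hub lev c Th0 Th)
    (hβ : ∀ (g : Lab R B) (i : Fin R), {v : Fin B | Function.update g i v ∉ pres}.ncard ≤ β)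
    (hK : K + R * β ≤ R * (B - 1)) (L : ℕ) (hL : 8 * Th ≤ L)
    (r1 a1 : Perm S.D) (haa : ∀ d, a1 (a1 d) = d) (hcr : ∀ d, c (S.a d) ≠ c d → a1 d = S.a d)
    (hsame : ∀ d e, a1 d ≠ d → a1 e ≠ e → (r1.SameCycle d e ↔ c d = c e)) (hdead : ∀ d, a1 d = d → r1 d = d)
    (hU : U L ⟨S.D, S.fD, r1, a1, haa⟩ → U L S) :
    ∃ N : NetS R B, Ok ⟨pres, K, 2 * Th0, 2 * Th, 3⟩ N ∧ (∀ g, N.t g = 0) ∧ (U L N.S → U L S) ∧
      (∀ d, d ∉ N.F → N.S.len d ≤ 2) ∧ N.S.num N.Fᶜ ≤ Fintype.card S.D := by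
  classical
  -- orders
  have hζ := Fintype.equivFin S.D
  have hν := Fintype.equivFin (Lab R B)
  -- attach letters
  have hpk : ∀ i : {i : ℕ // ∃ d, c d = i ∧ 0 < lev d}, ∃ u, c u = i ∧ hub (S.a u) = hub u ∧ lev (S.a u) + 1 = lev u := by
    rintro ⟨i, d, hd, hl⟩
    obtain ⟨e, h1, h2, h3⟩ := h.att d hl
    obtain ⟨h4, h5⟩ := h.hubc e d h1
    exact ⟨e, h1.trans hd, h2.trans h4.symm, h3.trans h5.symm⟩
  choose pk pk1 pk2 pk3 using hpk
  have hlk : ∀ p : {p : Lab R B × Lab R B // p.1 ∈ pres ∧ p.2 ∈ pres ∧ adj p.1 p.2 ∧ hν p.1 < hν p.2},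
      ∃ d, lev d = 0 ∧ hub d = p.1.1 ∧ lev (S.a d) = 0 ∧ hub (S.a d) = p.1.2 := by
    rintro ⟨⟨g, g'⟩, h1, h2, h3, -⟩
    exact h.link g h1 g' h2 h3
  choose lk lk1 lk2 lk3 lk4 using hlk
  set Q : Set S.D := Set.range pk ∪ Set.range lk with hQ
  set G : Set S.D := {d | hζ d < hζ (a1 d)} with hG
  have pkQ : ∀ i, pk i ∈ Q := fun i => Or.inl ⟨i, rfl⟩
  have lkQ : ∀ p, lk p ∈ Q := fun p => Or.inr ⟨p, rfl⟩
  have pkc : ∀ i, c (S.a (pk i)) ≠ c (pk i) := fun i hc => by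
    have h1 := (h.hubc _ _ hc).2
    have h2 := pk3 i
    omega
  have lkc : ∀ p, c (S.a (lk p)) ≠ c (lk p) := fun p hc => by
    have h1 := (h.hubc _ _ hc).1
    rw [lk4, lk2] at h1
    exact adj_ne p.2.2.2.1 h1.symm
  have Qc : ∀ q ∈ Q, c (S.a q) ≠ c q := by
    rintro q (⟨i, rfl⟩ | ⟨p, rfl⟩)
    · exact pkc i
    · exact lkc p
  have Qa : ∀ q ∈ Q, a1 q = S.a q := fun q hq => hcr q (Qc q hq)
  have pka : ∀ i, a1 (pk i) = S.a (pk i) := fun i => Qa _ (pkQ i)
  have lka : ∀ p, a1 (lk p) = S.a (lk p) := fun p => Qa _ (lkQ p)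
  have H : IsH r1 a1 Q G := by
    refine ⟨haa, hdead, ?_, ?_, ?_, ?_⟩
    · intro d hd h1
      have h2 : hζ d < hζ (a1 d) := hd
      rw [h1] at h2
      exact lt_irrefl _ h2
    · intro d hd
      have h1 : hζ (a1 d) ≠ hζ d := fun h1 => hd (hζ.injective h1)
      change ¬ (hζ d < hζ (a1 d)) ↔ hζ (a1 d) < hζ (a1 (a1 d))
      rw [haa, not_lt]
      exact ⟨fun h2 => lt_of_le_of_ne h2 h1, le_of_lt⟩
    · intro q hq
      rw [Qa q hq]; exact h.live q
    · intro q hq hq2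
      rw [Qa q hq] at hq2
      rcases hq with ⟨i, rfl⟩ | ⟨p, rfl⟩ <;> rcases hq2 with ⟨j, hj⟩ | ⟨p', hj⟩
      · have h1 := pk3 i
        have h2 := pk3 j
        rw [hj, S.aa] at h2
        omega
      · have h1 := lk3 p'
        have h2 := pk3 i
        rw [hj, S.aa] at h1
        omega
      · have h1 := lk3 p
        have h2 := pk3 j
        rw [hj] at h2
        omega
      · have h1 := lk2 p'
        have h2 := lk4 p'
        rw [hj, lk4] at h1
        rw [hj, S.aa, lk2] at h2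
        have h3 := p.2.2.2.2
        have h4 := p'.2.2.2.2
        rw [← h1, ← h2] at h4
        exact lt_asymm h3 h4
  -- the classes
  have hc1 : ∀ d, c (r1 d) = c d := by
    intro d
    by_cases hd : a1 d = d
    · rw [hdead d hd]
    · exact ((hsame d (r1 d) hd (H.live_r hd)).1 ((Perm.sameCycle_apply_right).2 (Perm.SameCycle.refl _ _))).symm
  have hhub : ∀ d, hub (r1 d) = hub d := fun d => (h.hubc _ _ (hc1 d)).1
  have hlev : ∀ d, lev (r1 d) = lev d := fun d => (h.hubc _ _ (hc1 d)).2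
  have hsm : ∀ x ∈ isF a1 Q G, ∀ y ∈ isF a1 Q G, c (isPi a1 Q G x) = c (isPi a1 Q G y) →
      (isS r1 a1 haa Q G).SameCycle x y := fun x hx y hy hxy =>
    H.same hx hy ((hsame _ _ (H.pi_live hx) (H.pi_live hy)).2 hxy)
  have hPf : ∀ q : Q, hub (isPi a1 Q G (isR Q G q false)) = hub (S.a q) ∧
      lev (isPi a1 Q G (isR Q G q false)) = lev (S.a q) := fun q => by
    rw [isPi_Rf, Qa q q.2]; exact ⟨rfl, rfl⟩
  set up : Set (isT Q G) := {x | ∃ i, x = isR Q G ⟨pk i, pkQ i⟩ true} with hup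
  set fr : Set (isT Q G) := {x | ∃ p b, x = isR Q G ⟨lk p, lkQ p⟩ b} with hfr
  have hfrh : ∀ p b, hub (isPi a1 Q G (isR Q G ⟨lk p, lkQ p⟩ b)) = (if b then p.1.1 else p.1.2) ∧
      lev (isPi a1 Q G (isR Q G ⟨lk p, lkQ p⟩ b)) = 0 := by
    intro p b
    cases b
    · rw [(hPf _).1, (hPf _).2]
      exact ⟨lk4 p, lk3 p⟩
    · exact ⟨lk2 p, lk1 p⟩
  have hfrE : ∀ g ∈ pres, ∀ g' ∈ pres, adj g g' → ∃ x ∈ fr, hub (isPi a1 Q G x) = g ∧
      hub (isPi a1 Q G (isA a1 Q G x)) = g' := by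
    intro g hg g' hg' hgg
    rcases lt_or_gt_of_ne (fun h1 => adj_ne hgg (hν.injective h1)) with h1 | h1
    · refine ⟨_, ⟨⟨(g, g'), hg, hg', hgg, h1⟩, true, rfl⟩, ?_, ?_⟩
      · rw [(hfrh _ _).1]; rfl
      · rw [isA_R, (hfrh _ _).1]; rfl
    · refine ⟨_, ⟨⟨(g', g), hg', hg, adj_symm hgg, h1⟩, false, rfl⟩, ?_, ?_⟩
      · rw [(hfrh _ _).1]; rfl
      · rw [isA_R, (hfrh _ _).1]; rfl
  have hfrF : ∀ x ∈ fr, x ∈ isF a1 Q G ∧ lev (isPi a1 Q G x) = 0 := by
    rintro x ⟨p, b, rfl⟩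
    exact ⟨IsH.R_isF _ _, (hfrh p b).2⟩
  have hone : ∀ x ∈ isF a1 Q G, ∀ y ∈ isF a1 Q G, hub (isPi a1 Q G x) = hub (isPi a1 Q G y) →
      lev (isPi a1 Q G x) = 0 → lev (isPi a1 Q G y) = 0 → (isS r1 a1 haa Q G).SameCycle x y :=
    fun x hx y hy hxy h1 h2 => hsm x hx y hy (h.root _ _ h1 h2 hxy)
  refine ⟨⟨(Sf.msub ⟨S.D, S.fD, r1, a1, haa⟩ Q).cover (isG Q G) ∅, isF a1 Q G, fun x => hub (isPi a1 Q G x),
    fun x => lev (isPi a1 Q G x), fr, up, fun _ => 0⟩, ?_, fun _ => rfl, ?_, ?_, ?_⟩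
  · refine ⟨⟨fun x => H.F_inv x, fun x hx => H.F_live hx, fun x hx hl => H.F_out hx hl⟩,
      fun x _ => H.pi_S hub hhub x, fun x _ => H.pi_S lev hlev x, fun x _ => h.hubp _, fun x _ => h.lev3 _,
      fun x hx => H.port hx, ?_, ?_, ?_, ?_, ?_, ?_, fun g hg g' hg' hgg _ _ => hfrE g hg g' hg' hgg,
      fun x hx y hy hxy _ h1 h2 => hone x hx y hy hxy h1 h2, ?_, ?_, ?_⟩
    · -- upF
      rintro x ⟨i, rfl⟩
      refine ⟨IsH.R_isF _ _, IsH.R_isF _ _, ?_, ?_⟩
      · change hub (isPi a1 Q G (isR Q G ⟨pk i, pkQ i⟩ false)) = hub (pk i)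
        rw [(hPf _).1]; exact pk2 i
      · change lev (isPi a1 Q G (isR Q G ⟨pk i, pkQ i⟩ false)) + 1 = lev (pk i)
        rw [(hPf _).2]; exact pk3 i
    · -- upE
      intro x hx hl
      refine ⟨_, ⟨⟨c (isPi a1 Q G x), isPi a1 Q G x, rfl, hl⟩, rfl⟩, hsm x hx _ (IsH.R_isF _ _) ?_⟩
      exact (pk1 ⟨c (isPi a1 Q G x), isPi a1 Q G x, rfl, hl⟩).symm
    · -- upU
      rintro x ⟨i, rfl⟩ y ⟨j, rfl⟩ hxy
      have h1 := H.same_c c hc1 hxy
      have h2 : c (pk i) = c (pk j) := h1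
      rw [pk1, pk1] at h2
      have h3 : i = j := Subtype.ext h2
      rw [h3]
    · -- resv
      intro x hx hax hl
      obtain ⟨q, b, rfl⟩ := H.F_res hx hax
      have hl' : 0 < lev (isPi a1 Q G (isR Q G q b)) := hl
      obtain ⟨q, hq⟩ := q
      rcases hq with ⟨i, rfl⟩ | ⟨p, rfl⟩
      · cases b
        · right; exact ⟨i, rfl⟩
        · left; exact ⟨i, rfl⟩
      · exfalso
        rw [(hfrh p b).2] at hl'
        exact lt_irrefl _ hl'
    · -- frF
      rintro x ⟨p, b, rfl⟩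
      refine ⟨IsH.R_isF _ _, (hfrh p b).2, ⟨p, !b, rfl⟩, ?_⟩
      change adj (hub (isPi a1 Q G (isR Q G ⟨lk p, lkQ p⟩ b))) (hub (isPi a1 Q G (isR Q G ⟨lk p, lkQ p⟩ (!b))))
      rw [(hfrh p b).1, (hfrh p (!b)).1]
      cases b
      · exact adj_symm p.2.2.2.1
      · exact p.2.2.2.1
    · -- frU
      rintro x ⟨p, b, rfl⟩ y ⟨p', b', rfl⟩ h1 h2
      have h1' : hub (isPi a1 Q G (isR Q G ⟨lk p, lkQ p⟩ b)) = hub (isPi a1 Q G (isR Q G ⟨lk p', lkQ p'⟩ b')) := h1
      have h2' : hub (isPi a1 Q G (isR Q G ⟨lk p, lkQ p⟩ (!b))) = hub (isPi a1 Q G (isR Q G ⟨lk p', lkQ p'⟩ (!b'))) := h2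
      rw [(hfrh _ _).1, (hfrh _ _).1] at h1' h2'
      have h3 := p.2.2.2.2
      have h4 := p'.2.2.2.2
      have h5 : b = b' ∧ p = p' := by
        cases b <;> cases b'
        · exact ⟨rfl, Subtype.ext (Prod.ext h2' h1')⟩
        · exfalso
          have h6 : p.1.2 = p'.1.1 := h1'
          have h7 : p.1.1 = p'.1.2 := h2'
          rw [h6, h7] at h3
          exact lt_asymm h3 h4
        · exfalso
          have h6 : p.1.1 = p'.1.2 := h1'
          have h7 : p.1.2 = p'.1.1 := h2'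
          rw [h6, h7] at h3
          exact lt_asymm h3 h4
        · exact ⟨rfl, Subtype.ext (Prod.ext h1' h2')⟩
      obtain ⟨rfl, rfl⟩ := h5
      rfl
    · -- cnt
      intro x hx hl
      have hl' : lev (isPi a1 Q G x) = 0 := hl
      change K ≤ 4 ^ 0 * {e | e ∈ fr ∧ (isS r1 a1 haa Q G).SameCycle x e}.ncard
      rw [pow_zero, one_mul]
      have h1 := nbr_card pres β hβ (hub (isPi a1 Q G x))
      have h2 : {g | g ∈ pres ∧ adj (hub (isPi a1 Q G x)) g}.ncard ≤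
          {e | e ∈ fr ∧ (isS r1 a1 haa Q G).SameCycle x e}.ncard := by
        have h3 : ∀ g ∈ {g | g ∈ pres ∧ adj (hub (isPi a1 Q G x)) g},
            ∃ e, (e ∈ fr ∧ (isS r1 a1 haa Q G).SameCycle x e) ∧ hub (isPi a1 Q G (isA a1 Q G e)) = g := by
          rintro g ⟨hg, hga⟩
          obtain ⟨e, he, h4, h5⟩ := hfrE _ (h.hubp (isPi a1 Q G x)) g hg hga
          exact ⟨e, ⟨he, hone x hx e (hfrF e he).1 h4.symm hl' (hfrF e he).2⟩, h5⟩
        have : Nonempty (isT Q G) := ⟨x⟩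
        choose! f hf1 hf2 using h3
        refine Set.ncard_le_ncard_of_injOn f (fun g hg => hf1 g hg) ?_ (Set.toFinite _)
        intro g hg g' hg' hgg
        rw [← hf2 g hg, ← hf2 g' hg', hgg]
      omega
    · -- c0
      intro g
      change {x | x ∈ isF a1 Q G ∧ hub (isPi a1 Q G x) = g ∧ lev (isPi a1 Q G x) = 0}.ncard ≤ 4 ^ 0 * (2 * Th0)
      rw [pow_zero, one_mul]
      exact (H.countF {d | hub d = g ∧ lev d = 0}).trans (Nat.mul_le_mul_left 2 (h.b0 g))
    · -- cT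
      intro g
      change {x | x ∈ isF a1 Q G ∧ hub (isPi a1 Q G x) = g}.ncard ≤ 4 ^ 0 * (2 * Th)
      rw [pow_zero, one_mul]
      exact (H.countF {d | hub d = g}).trans (Nat.mul_le_mul_left 2 (h.bT g))
  · -- sweep
    intro hN
    refine hU (msub_U L _ Q H.Q1 (cover_U L _ (isG Q G) ∅ ?_ ?_ hN))
    · rintro x ⟨d, hd, rfl⟩ h1
      exact H.G1 d hd (Sum.inl.inj h1)
    · intro x
      have h1 : (Sf.msub ⟨S.D, S.fD, r1, a1, haa⟩ Q).len x ≤
          (Sf.msub ⟨S.D, S.fD, r1, a1, haa⟩ Q).num {y : S.D ⊕ (Q × Bool) | c (msPi a1 Q y) = c (msPi a1 Q x)} := by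
        refine len_le_num _ ?_ rfl
        intro y hy
        exact (msPi_F a1 Q r1 haa c hc1 y).trans hy
      have h2 := (h1.trans (num_le_ncard _ _)).trans (H.countM {d | c d = c (msPi a1 Q x)})
      have h3 : {d | c d = c (msPi a1 Q x)}.ncard ≤ Th :=
        (Set.ncard_le_ncard (fun d hd => (h.hubc _ _ hd).1) (Set.toFinite _)).trans (h.bT (hub (msPi a1 Q x)))
      omega
  · -- outer words
    intro x hx
    obtain ⟨W, h1, h2, h3⟩ := H.wordO hx
    exact ((len_le_num _ h2 h1).trans (num_le_ncard _ _)).trans h3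
  · -- number of outer letters
    exact H.countO

end Pool.Agent.GW
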