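import Pool.Agent.GW.Merge
import Pool.Agent.GW.InitB

/-!
# From a partition into cells to the first net

`Cells` (in InitB): all letters live; `c` = cell of a letter (a union of words, connected), `hub`, `lev` constant on cells; one cell of level 0
(centre) for every present label; every cell of level `k > 0` has a letter whose partner is in a cell of the same hub of level
`k - 1`; for adjacent present labels there is a letter from centre to centre.

`merge` (in Merge): every cell becomes one word. `init_of` (in InitB): chosen attach and link letters are subdivided, all pairs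
are doubled.
-/

set_option autoImplicit false

namespace Pool.Agent.GW

open Equiv Pool.Agent.SWP

theorem init {R B : ℕ} (_hR : 1 ≤ R) (S : Sf) (pres : Set (Lab R B)) (hub : S.D → Lab R B) (lev c : S.D → ℕ)
    (Th0 Th β K : ℕ) (h : Cells S pres hub lev c Th0 Th)
    (hβ : ∀ (g : Lab R B) (i : Fin R), {v : Fin B | Function.update g i v ∉ pres}.ncard ≤ β)
    (hK : K + R * β ≤ R * (B - 1)) (_hK1 : 1 ≤ K) (L : ℕ) (hL : 8 * Th ≤ L) :
    ∃ N : NetS R B, Ok ⟨pres, K, 2 * Th0, 2 * Th, 3⟩ N ∧ (∀ g, N.t g = 0) ∧ (U L N.S → U L S) ∧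
      (∀ d, d ∉ N.F → N.S.len d ≤ 2) ∧ N.S.num N.Fᶜ ≤ Fintype.card S.D := by
  have hc : ∀ i, {d | c d = i}.ncard ≤ L := by
    intro i
    by_cases hi : ∃ e, c e = i
    · obtain ⟨e, rfl⟩ := hi
      have h3 : {d | c d = c e}.ncard ≤ Th :=
        (Set.ncard_le_ncard (fun d hd => (h.hubc _ _ hd).1) (Set.toFinite _)).trans (h.bT (hub e))
      omega
    · have h1 : {d | c d = i} = ∅ := by
        ext d
        simp only [Set.mem_ofPred_eq, Set.mem_empty_iff_false, iff_false]
        exact fun h1 => hi ⟨d, h1⟩
      rw [h1, Set.ncard_empty]; exact Nat.zero_le _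
  obtain ⟨r1, a1, haa, -, h2, h3, h4, h5⟩ := merge S h.live c h.cr h.conn L hc
  exact init_of S pres hub lev c Th0 Th β K h hβ hK L hL r1 a1 haa h2 h3 h4 h5

end Pool.Agent.GW
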