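import Pool.Agent.GW.Cover
import Pool.Agent.GW.Msub

/-!
# The first fat state: `(msub Q).cover G ∅` on plain types

`isP t`: the letter at the position of the old letter `t`; `isR q b`: the new reserved letters; `isS`, `isA`: next letter and
partner; `isPi`: the old letter which belongs to a letter; `isF`: the fat letters.
-/

set_option autoImplicit false

namespace Pool.Agent.GW

open Equiv Pool.Agent.SWP

section
variable {D : Type}

theorem isCm {E : Type} (G : Set E) {t : E} (h : t ∈ G) : cvN G t = Sum.inr (⟨t, h⟩, false) := by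
  unfold cvN; rw [dif_pos h]

theorem isCn {E : Type} (G : Set E) {t : E} (h : t ∉ G) : cvN G t = Sum.inl t := by
  unfold cvN; rw [dif_neg h]

/-- the old letters of `G` -/
def isG (Q G : Set D) : Set (D ⊕ (Q × Bool)) := {x | ∃ d ∈ G, x = Sum.inl d}

theorem inl_isG {Q G : Set D} {t : D} : (Sum.inl t : D ⊕ (Q × Bool)) ∈ isG Q G ↔ t ∈ G := by
  constructor
  · rintro ⟨d, hd, h⟩
    rw [Sum.inl.inj h]; exact hd
  · intro h; exact ⟨t, h, rfl⟩

theorem inr_isG {Q G : Set D} (y : Q × Bool) : (Sum.inr y : D ⊕ (Q × Bool)) ∉ isG Q G := by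
  rintro ⟨d, _, h⟩
  cases h

/-- letters of the new state -/
abbrev isT (Q G : Set D) : Type := (D ⊕ (Q × Bool)) ⊕ (isG Q G × Bool)

/-- the letter at the position of the old letter `t` -/
noncomputable def isP (Q G : Set D) (t : D) : isT Q G := cvN (isG Q G) (Sum.inl t)

/-- reserved letters -/
def isR (Q G : Set D) (q : Q) (b : Bool) : isT Q G := Sum.inl (Sum.inr (q, b))

/-- outer partner of the position of `t` -/
def isO (Q G : Set D) (t : D) (h : t ∈ G) : isT Q G := Sum.inr (⟨Sum.inl t, inl_isG.2 h⟩, true)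

theorem isP_mem (Q G : Set D) {t : D} (h : t ∈ G) : isP Q G t = Sum.inr (⟨Sum.inl t, inl_isG.2 h⟩, false) :=
  isCm _ _

theorem isP_notMem (Q G : Set D) {t : D} (h : t ∉ G) : isP Q G t = Sum.inl (Sum.inl t) :=
  isCn _ (fun h' => h (inl_isG.1 h'))

/-- beginning of the position of `t` -/
noncomputable def isN (a : Perm D) (Q G : Set D) (t : D) : isT Q G := cvN (isG Q G) (msN a Q t)

theorem isN_mem (a : Perm D) (Q G : Set D) {t : D} (h : a t ∈ Q) : isN a Q G t = isR Q G ⟨a t, h⟩ false := by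
  unfold isN; rw [msN_mem a Q h]; exact isCn _ (inr_isG _)

theorem isN_notMem (a : Perm D) (Q G : Set D) {t : D} (h : a t ∉ Q) : isN a Q G t = isP Q G t := by
  unfold isN; rw [msN_notMem a Q h]; rfl

variable [Finite D]

/-- next letter -/
noncomputable def isS (r a : Perm D) (ha : ∀ d, a (a d) = d) (Q G : Set D) : Perm (isT Q G) :=
  cvR (msR r a ha Q) (isG Q G) ∅

/-- partner -/
def isA (a : Perm D) (Q G : Set D) : Perm (isT Q G) :=
  Equiv.sumCongr (Equiv.sumCongr a (Equiv.prodCongr (Equiv.refl Q) Equiv.boolNot))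
    (Equiv.prodCongr (Equiv.refl (isG Q G)) Equiv.boolNot)

variable (r a : Perm D) (ha : ∀ d, a (a d) = d) (Q G : Set D)

theorem isS_cvN (x : D ⊕ (Q × Bool)) : isS r a ha Q G (cvN (isG Q G) x) = cvN (isG Q G) (msF r a Q x) := by
  change cvF (msR r a ha Q) (isG Q G) ∅ _ = _
  by_cases h : x ∈ isG Q G
  · rw [isCm _ h]; rfl
  · rw [isCn _ h]
    simp only [cvF]
    rw [dif_neg h]; rfl

theorem isS_P_mem {t : D} (h : t ∈ Q) : isS r a ha Q G (isP Q G t) = isR Q G ⟨t, h⟩ true := by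
  unfold isP; rw [isS_cvN, msF_mem r a Q h]; exact isCn _ (inr_isG _)

theorem isS_P_notMem {t : D} (h : t ∉ Q) : isS r a ha Q G (isP Q G t) = isN a Q G (r t) := by
  unfold isP; rw [isS_cvN, msF_notMem r a Q h]; rfl

theorem isS_Rt (q : Q) : isS r a ha Q G (isR Q G q true) = isN a Q G (r q) := by
  have h : isR Q G q true = cvN (isG Q G) (Sum.inr (q, true)) := (isCn _ (inr_isG _)).symm
  rw [h, isS_cvN]; rfl

theorem isS_Rf (q : Q) : isS r a ha Q G (isR Q G q false) = isP Q G (a q) := by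
  have h : isR Q G q false = cvN (isG Q G) (Sum.inr (q, false)) := (isCn _ (inr_isG _)).symm
  rw [h, isS_cvN]; rfl

theorem isS_G {t : D} (h : t ∈ G) : isS r a ha Q G (Sum.inl (Sum.inl t)) = isO Q G t h := by
  change cvF (msR r a ha Q) (isG Q G) ∅ (Sum.inl (Sum.inl t)) = _
  simp only [cvF]
  rw [dif_pos (inl_isG.2 h), if_neg (fun h' => Set.notMem_empty _ h'.1)]
  rfl

theorem isS_O {t : D} (h : t ∈ G) : isS r a ha Q G (isO Q G t h) = Sum.inl (Sum.inl t) := by
  change cvF (msR r a ha Q) (isG Q G) ∅ (Sum.inr (⟨Sum.inl t, inl_isG.2 h⟩, true)) = _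
  simp only [cvF]
  rw [dif_neg (fun h' => Set.notMem_empty _ h'.2)]

omit [Finite D] in
theorem isA_R (q : Q) (b : Bool) : isA a Q G (isR Q G q b) = isR Q G q (!b) := rfl

omit [Finite D] in
theorem isA_P_mem {t : D} (h : t ∈ G) : isA a Q G (isP Q G t) = isO Q G t h := by
  rw [isP_mem Q G h]; rfl

omit [Finite D] in
theorem isA_P_notMem {t : D} (h : t ∉ G) : isA a Q G (isP Q G t) = Sum.inl (Sum.inl (a t)) := by
  rw [isP_notMem Q G h]; rfl

omit [Finite D] in
theorem isA_O {t : D} (h : t ∈ G) : isA a Q G (isO Q G t h) = isP Q G t := by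
  rw [isP_mem Q G h]; rfl

omit [Finite D] in
theorem isA_inl (t : D) : isA a Q G (Sum.inl (Sum.inl t)) = Sum.inl (Sum.inl (a t)) := rfl

end

section
variable {D : Type} (a : Perm D) (Q G : Set D)

/-- the old letter of a letter of `msub` -/
def msPi : D ⊕ (Q × Bool) → D
  | Sum.inl t => t
  | Sum.inr (q, true) => q
  | Sum.inr (q, false) => a q

/-- the old letter of a letter -/
def isPi : isT Q G → D
  | Sum.inl x => msPi a Q x
  | Sum.inr (x, _) => msPi a Q x

theorem isPi_cvN (x : D ⊕ (Q × Bool)) : isPi a Q G (cvN (isG Q G) x) = msPi a Q x := by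
  by_cases h : x ∈ isG Q G
  · rw [isCm _ h]; rfl
  · rw [isCn _ h]; rfl

theorem msPi_msN (ha : ∀ d, a (a d) = d) (t : D) : msPi a Q (msN a Q t) = t := by
  by_cases h : a t ∈ Q
  · rw [msN_mem a Q h]; exact ha t
  · rw [msN_notMem a Q h]; rfl

theorem isPi_P (t : D) : isPi a Q G (isP Q G t) = t := isPi_cvN a Q G _

theorem isPi_N (ha : ∀ d, a (a d) = d) (t : D) : isPi a Q G (isN a Q G t) = t := by
  unfold isN; rw [isPi_cvN, msPi_msN a Q ha]

theorem isPi_Rt (q : Q) : isPi a Q G (isR Q G q true) = q := rfl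

theorem isPi_Rf (q : Q) : isPi a Q G (isR Q G q false) = a q := rfl

theorem isPi_O {t : D} (h : t ∈ G) : isPi a Q G (isO Q G t h) = t := rfl

/-- the class of the old letter is kept -/
theorem msPi_F {κ : Type} (r : Perm D) (ha : ∀ d, a (a d) = d) (c : D → κ) (hc : ∀ d, c (r d) = c d)
    (x : D ⊕ (Q × Bool)) : c (msPi a Q (msF r a Q x)) = c (msPi a Q x) := by
  rcases x with t | ⟨q, b⟩
  · by_cases h : t ∈ Q
    · rw [msF_mem r a Q h]; rfl
    · rw [msF_notMem r a Q h, msPi_msN a Q ha]; exact hc t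
  · cases b
    · rfl
    · change c (msPi a Q (msN a Q (r q))) = _
      rw [msPi_msN a Q ha]; exact hc q

/-- the letters of the new state -/
theorem isCases (x : isT Q G) : (∃ t, x = isP Q G t ∧ (a t ≠ t ∨ t ∈ G)) ∨ (∃ q b, x = isR Q G q b) ∨
    (∃ t, t ∈ G ∧ x = Sum.inl (Sum.inl t)) ∨ (∃ t, ∃ h : t ∈ G, x = isO Q G t h) ∨
    (∃ t, t ∉ G ∧ a t = t ∧ x = Sum.inl (Sum.inl t)) := by
  rcases x with (t | ⟨q, b⟩) | ⟨⟨y, t, ht, rfl⟩, b⟩
  · by_cases h : t ∈ G
    · exact Or.inr (Or.inr (Or.inl ⟨t, h, rfl⟩))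
    · by_cases h1 : a t = t
      · exact Or.inr (Or.inr (Or.inr (Or.inr ⟨t, h, h1, rfl⟩)))
      · exact Or.inl ⟨t, (isP_notMem Q G h).symm, Or.inl h1⟩
  · exact Or.inr (Or.inl ⟨q, b, rfl⟩)
  · cases b
    · exact Or.inl ⟨t, (isP_mem Q G ht).symm, Or.inr ht⟩
    · exact Or.inr (Or.inr (Or.inr (Or.inl ⟨t, ht, rfl⟩)))

/-- fat letters -/
def isF : Set (isT Q G) := {x | (∃ t, a t ≠ t ∧ x = isP Q G t) ∨ ∃ q b, x = isR Q G q b}

theorem isP_inj {s t : D} (h : isP Q G s = isP Q G t) : s = t := by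
  have := congrArg (isPi (Equiv.refl D) Q G) h
  rwa [isPi_P, isPi_P] at this

theorem isP_ne_R (t : D) (q : Q) (b : Bool) : isP Q G t ≠ isR Q G q b := by
  intro h
  by_cases ht : t ∈ G
  · rw [isP_mem Q G ht] at h; cases h
  · rw [isP_notMem Q G ht] at h; cases h

theorem isP_ne_O (t s : D) (hs : s ∈ G) : isP Q G t ≠ isO Q G s hs := by
  intro h
  by_cases ht : t ∈ G
  · rw [isP_mem Q G ht] at h
    simp [isO] at h
  · rw [isP_notMem Q G ht] at h; cases h

theorem isP_ne_inl (t s : D) (hs : s ∈ G) : isP Q G t ≠ Sum.inl (Sum.inl s) := by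
  intro h
  by_cases ht : t ∈ G
  · rw [isP_mem Q G ht] at h; cases h
  · rw [isP_notMem Q G ht] at h
    have : t = s := Sum.inl.inj (Sum.inl.inj h)
    exact ht (this ▸ hs)

theorem isR_inj {q p : Q} {b c : Bool} (h : isR Q G q b = isR Q G p c) : q = p ∧ b = c := by
  have h1 := Sum.inr.inj (Sum.inl.inj h)
  exact ⟨congrArg Prod.fst h1, congrArg Prod.snd h1⟩

theorem G_notF {t : D} (h : t ∈ G) : (Sum.inl (Sum.inl t) : isT Q G) ∉ isF a Q G := by
  rintro (⟨s, _, hs⟩ | ⟨q, b, hs⟩)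
  · exact isP_ne_inl Q G s t h hs.symm
  · cases hs

theorem O_notF {t : D} (h : t ∈ G) : isO Q G t h ∉ isF a Q G := by
  rintro (⟨s, _, hs⟩ | ⟨q, b, hs⟩)
  · exact isP_ne_O Q G s t h hs.symm
  · cases hs

theorem dead_notF {t : D} (h : t ∉ G) (h1 : a t = t) : (Sum.inl (Sum.inl t) : isT Q G) ∉ isF a Q G := by
  rintro (⟨s, h2, hs⟩ | ⟨q, b, hs⟩)
  · rw [← isP_notMem Q G h] at hs
    exact h2 (by rw [← isP_inj Q G hs]; exact h1)
  · cases hs

theorem N_isF {t : D} (h : a t ≠ t) : isN a Q G t ∈ isF a Q G := by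
  by_cases h1 : a t ∈ Q
  · rw [isN_mem a Q G h1]; exact Or.inr ⟨_, _, rfl⟩
  · rw [isN_notMem a Q G h1]; exact Or.inl ⟨t, h, rfl⟩

end

end Pool.Agent.GW
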