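import Pool.Agent.GW.FRx

/-!
# GW/RungFR (helper61): the hole map after rungs are inserted (MP_37d33d_gt)

`RN S B k u v`: the rotation `r a` leads in `k` steps from `u` to `v` and crosses only letters which are not in `B` and
whose partners are not in `B`. The values of the new hole map are computed by following the rotation in the cover: it is
the old rotation, the fans of the corners of the rungs are skipped.
-/

set_option autoImplicit false

namespace Pool.Agent.GW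

open Equiv Pool.Agent.SWP

/-- the rotation from `u` to `v` in `k` steps -/
inductive RN (S : Sf) (B : Set S.D) : ℕ → S.D → S.D → Prop
  | refl (u : S.D) : RN S B 0 u u
  | step (k : ℕ) (u v : S.D) : u ∉ B → S.a u ∉ B → RN S B k (S.r (S.a u)) v → RN S B (k + 1) u v

section

variable {S : Sf} {B : Set S.D}

theorem RN.of_pow : ∀ (k : ℕ) (u v : S.D), ((S.r * S.a) ^ k) u = v →
    (∀ i < k, ((S.r * S.a) ^ i) u ∉ B ∧ S.a (((S.r * S.a) ^ i) u) ∉ B) → RN S B k u v := by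
  intro k
  induction k with
  | zero =>
    intro u v h _
    have h1 : u = v := by simpa using h
    rw [h1]
    exact RN.refl v
  | succ k ih =>
    intro u v h h'
    have h0 := h' 0 (Nat.succ_pos k)
    have e0 : ((S.r * S.a) ^ 0) u = u := by simp
    rw [e0] at h0
    have e1 : ∀ i : ℕ, ((S.r * S.a) ^ i) (S.r (S.a u)) = ((S.r * S.a) ^ (i + 1)) u := by
      intro i
      rw [pow_succ, Perm.mul_apply, Perm.mul_apply]
    refine RN.step k u v h0.1 h0.2 (ih _ _ ?_ ?_)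
    · rw [e1]
      exact h
    · intro i hi
      rw [e1]
      exact h' (i + 1) (Nat.succ_lt_succ hi)

theorem RN.to_pow {k : ℕ} {u v : S.D} (h : RN S B k u v) : ((S.r * S.a) ^ k) u = v ∧
    ∀ i < k, ((S.r * S.a) ^ i) u ∉ B ∧ S.a (((S.r * S.a) ^ i) u) ∉ B := by
  induction h with
  | refl u => exact ⟨by simp, fun i hi => absurd hi (Nat.not_lt_zero i)⟩
  | step k u v h1 h2 _ ih =>
    have e1 : ∀ i : ℕ, ((S.r * S.a) ^ i) (S.r (S.a u)) = ((S.r * S.a) ^ (i + 1)) u := by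
      intro i
      rw [pow_succ, Perm.mul_apply, Perm.mul_apply]
    refine ⟨?_, ?_⟩
    · rw [← e1]
      exact ih.1
    · intro i hi
      rcases i with _ | i
      · have e0 : ((S.r * S.a) ^ 0) u = u := by simp
        rw [e0]
        exact ⟨h1, h2⟩
      · rw [← e1]
        exact ih.2 i (Nat.lt_of_succ_lt_succ hi)

theorem cor_iff {f g : S.D} : S.Cor B f g ↔ ∃ k, RN S B k (S.r f) g := by
  constructor
  · rintro ⟨k, h1, h2⟩
    exact ⟨k, RN.of_pow k _ _ h1 h2⟩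
  · rintro ⟨k, h⟩
    exact ⟨k, h.to_pow.1, h.to_pow.2⟩

theorem RN.zero {u v : S.D} (h : RN S B 0 u v) : u = v := by
  cases h
  rfl

theorem RN.succ {k : ℕ} {u v : S.D} (h : RN S B (k + 1) u v) :
    u ∉ B ∧ S.a u ∉ B ∧ RN S B k (S.r (S.a u)) v := by
  cases h with
  | step _ _ _ h1 h2 h3 => exact ⟨h1, h2, h3⟩

theorem RN.last : ∀ (k : ℕ) (u v : S.D), RN S B (k + 1) u v →
    ∃ w, RN S B k u w ∧ w ∉ B ∧ S.a w ∉ B ∧ S.r (S.a w) = v := by
  intro k
  induction k with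
  | zero =>
    intro u v h
    obtain ⟨h1, h2, h3⟩ := h.succ
    exact ⟨u, RN.refl u, h1, h2, h3.zero⟩
  | succ k ih =>
    intro u v h
    obtain ⟨h1, h2, h3⟩ := h.succ
    obtain ⟨w, hw, h4⟩ := ih _ _ h3
    exact ⟨w, RN.step k u w h1 h2 hw, h4⟩

theorem RN.uniq : ∀ (k l : ℕ) (u v w : S.D), RN S B k u v → v ∈ B → RN S B l u w → w ∈ B → v = w := by
  intro k
  induction k with
  | zero =>
    intro l u v w h hv h' hw
    have h0 := h.zero
    rcases l with _ | l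
    · rw [← h0, ← h'.zero]
    · rw [h0] at h'
      exact absurd hv h'.succ.1
  | succ k ih =>
    intro l u v w h hv h' hw
    rcases l with _ | l
    · have h0 := h'.zero
      rw [h0] at h
      exact absurd hw h.succ.1
    · exact ih l _ v w h.succ.2.2 hv h'.succ.2.2 hw

/-- two rotations with the same start: the one which avoids less can be continued from the end of the other one -/
theorem RN.cmp {E : Set S.D} (hEB : E ⊆ B) : ∀ (m : ℕ) (u e : S.D) (k : ℕ) (h : S.D), RN S B m u e → RN S E k u h →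
    h ∈ E → ∃ k' ≤ k, RN S E k' e h := by
  intro m
  induction m with
  | zero =>
    intro u e k h h1 h2 _
    rw [h1.zero] at h2
    exact ⟨k, le_refl k, h2⟩
  | succ m ih =>
    intro u e k h h1 h2 hh
    obtain ⟨h3, _, h5⟩ := h1.succ
    rcases k with _ | k
    · rw [h2.zero] at h3
      exact absurd (hEB hh) h3
    · obtain ⟨k', hk, h6⟩ := ih _ e k h h5 h2.succ.2.2 hh
      exact ⟨k', le_trans hk (Nat.le_succ k), h6⟩

end

section cover

variable {D : Type} {G : Set D}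

theorem th_mem {d : D} (h : d ∈ G) : th G (Sum.inl d) = Sum.inr (Sum.inl d) := by simp [th, h]

theorem th_not {d : D} (h : d ∉ G) : th G (Sum.inl d) = Sum.inl d := by simp [th, h]

/-- next letter in the cover -/
noncomputable def rcov (G : Set D) (K : Lk D) (s : Perm D) (x : D ⊕ (D ⊕ D)) : D ⊕ (D ⊕ D) :=
  ta K (de G (th G (Sum.map s id (th G x))))

variable {K : Lk D} {s : Perm D}

theorem rcov_old (hP : ∀ e, e ∉ G → K.P e = none) {d : D} (h : d ∉ G) :
    rcov G K s (Sum.inl d) = th G (Sum.inl (s d)) := by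
  unfold rcov
  rw [th_not h]
  have h0 : Sum.map s (id : D ⊕ D → D ⊕ D) (Sum.inl d) = Sum.inl (s d) := rfl
  rw [h0]
  by_cases h1 : s d ∈ G
  · rw [th_mem h1]
    rfl
  · rw [th_not h1]
    have h2 : de G (Sum.inl (s d)) = Sum.inl (s d) := by simp [de, h1]
    rw [h2]
    simp [ta, hP _ h1]

theorem rcov_cp (hP : ∀ e, e ∉ G → K.P e = none) {d : D} (h : d ∈ G) :
    rcov G K s (Sum.inr (Sum.inl d)) = th G (Sum.inl (s d)) := by
  unfold rcov
  have h3 : th G (Sum.inr (Sum.inl d)) = Sum.inl d := by simp [th, h]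
  rw [h3]
  have h0 : Sum.map s (id : D ⊕ D → D ⊕ D) (Sum.inl d) = Sum.inl (s d) := rfl
  rw [h0]
  by_cases h1 : s d ∈ G
  · rw [th_mem h1]
    rfl
  · rw [th_not h1]
    have h2 : de G (Sum.inl (s d)) = Sum.inl (s d) := by simp [de, h1]
    rw [h2]
    simp [ta, hP _ h1]

theorem rcov_inl {d : D} (h : d ∈ G) : rcov G K s (Sum.inl d) = ta K (Sum.inr (Sum.inr d)) := by
  unfold rcov
  rw [th_mem h]
  have h0 : Sum.map s (id : D ⊕ D → D ⊕ D) (Sum.inr (Sum.inl d)) = Sum.inr (Sum.inl d) := rfl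
  rw [h0]
  have h3 : th G (Sum.inr (Sum.inl d)) = Sum.inl d := by simp [th, h]
  rw [h3]
  have h4 : de G (Sum.inl d) = Sum.inr (Sum.inr d) := by simp [de, h]
  rw [h4]

theorem rcov_pt {d : D} (h : d ∈ G) : rcov G K s (Sum.inr (Sum.inr d)) = ta K (Sum.inl d) := by
  unfold rcov
  have h5 : th G (Sum.inr (Sum.inr d)) = Sum.inr (Sum.inr d) := rfl
  rw [h5]
  have h0 : Sum.map s (id : D ⊕ D → D ⊕ D) (Sum.inr (Sum.inr d)) = Sum.inr (Sum.inr d) := rfl
  rw [h0, h5]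
  have h4 : de G (Sum.inr (Sum.inr d)) = Sum.inl d := by simp [de, h]
  rw [h4]

theorem ta_pt_some {d e : D} (h : K.N d = some e) : ta K (Sum.inr (Sum.inr d)) = Sum.inl e := by simp [ta, h]

theorem ta_pt_none {d : D} (h : K.N d = none) : ta K (Sum.inr (Sum.inr d)) = Sum.inr (Sum.inr d) := by simp [ta, h]

theorem ta_inl_some {d e : D} (h : K.P d = some e) : ta K (Sum.inl d) = Sum.inr (Sum.inr e) := by simp [ta, h]

theorem ta_inl_none {d : D} (h : K.P d = none) : ta K (Sum.inl d) = Sum.inl d := by simp [ta, h]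

end cover

theorem cov_r (S : Sf) (G : Set S.D) (K : Lk S.D) (x : S.D ⊕ (S.D ⊕ S.D)) :
    (S.cov G K).r x = rcov G K S.r x := rfl

theorem cov_a_cp (S : Sf) (G : Set S.D) (K : Lk S.D) {d : S.D} (h : d ∈ G) :
    (S.cov G K).a (Sum.inr (Sum.inl d)) = Sum.inr (Sum.inr d) := by
  have h1 : ac G S.a (Sum.inr (Sum.inl d)) = Sum.inr (Sum.inr d) := by simp [ac, h]
  exact h1

theorem cov_a_pt (S : Sf) (G : Set S.D) (K : Lk S.D) {d : S.D} (h : d ∈ G) :
    (S.cov G K).a (Sum.inr (Sum.inr d)) = Sum.inr (Sum.inl d) := by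
  have h1 : ac G S.a (Sum.inr (Sum.inr d)) = Sum.inr (Sum.inl d) := by simp [ac, h]
  exact h1

section rungs

variable {S : Sf} {E : Set S.D} {ρ : Perm S.D} (R : Rg S E ρ)

theorem Rg.P_none {e : S.D} (h : e ∉ R.G) : R.K.P e = none := by
  rcases h1 : R.K.P e with _ | d
  · rfl
  · exact absurd (R.NG d e ((R.K.h d e).mpr h1)).2.1 h

/-- `z` is strictly inside of a fan -/
def Rg.Bad (z : S.D) : Prop :=
  z ∉ E ∪ R.G ∧ ∃ b k, (b ∈ R.G ∨ ∃ i, b = R.x i) ∧ RN S (E ∪ R.G) k (S.r b) z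

/-- `z` is not strictly inside of a fan and not the last letter of the fan of a last letter -/
def Rg.Good (z : S.D) : Prop := (∀ j, z ≠ R.y j) ∧ ¬ R.Bad z

theorem Rg.fanEnd {g : S.D} (hg : g ∈ R.G ∨ ∃ j, g = R.y j) :
    ∃ b k, (b ∈ R.G ∨ ∃ i, b = R.x i) ∧ RN S (E ∪ R.G) k (S.r b) g := by
  rcases hg with hg | ⟨j, hj⟩
  · rcases h1 : R.K.P g with _ | d
    · obtain ⟨i, hi⟩ := (R.Pf g hg).mp h1
      obtain ⟨k, hk⟩ := cor_iff.mp (R.xf i)
      refine ⟨R.x i, k, Or.inr ⟨i, rfl⟩, ?_⟩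
      rw [hi]
      exact hk
    · have h2 := (R.K.h d g).mpr h1
      obtain ⟨h3, _, h4⟩ := R.NG d g h2
      obtain ⟨k, hk⟩ := cor_iff.mp h4
      exact ⟨d, k, Or.inl h3, hk⟩
  · obtain ⟨k, hk⟩ := cor_iff.mp (R.ly j)
    refine ⟨R.l j, k, Or.inl (R.lG j), ?_⟩
    rw [hj]
    exact hk

theorem Rg.good_G {g : S.D} (hg : g ∈ R.G) : R.Good g := by
  refine ⟨fun j hj => R.yG j (hj ▸ hg), fun h => h.1 (Or.inr hg)⟩

theorem Rg.good_of_not {u : S.D}
    (h : ¬ ∃ b k, (b ∈ R.G ∨ ∃ i, b = R.x i) ∧ RN S (E ∪ R.G) k (S.r b) u) : u ∉ R.G ∧ R.Good u := by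
  refine ⟨fun h1 => h (R.fanEnd (Or.inl h1)), fun j hj => h (R.fanEnd (Or.inr ⟨j, hj⟩)), fun h1 => h h1.2⟩

theorem Rg.good_next (hE : S.Cl E) {z : S.D} (hz : z ∉ E) (haz : S.a z ∉ R.G) (hg : R.Good z) :
    S.r (S.a z) ∉ R.G ∧ R.Good (S.r (S.a z)) := by
  refine R.good_of_not ?_
  rintro ⟨b, k, hb, hk⟩
  rcases k with _ | k
  · have h1 : b = S.a z := S.r.injective hk.zero
    rcases hb with hb | ⟨i, hi⟩
    · exact haz (h1 ▸ hb)
    · refine hz ?_
      have h2 : S.a z ∈ E := by rw [← h1, hi]; exact R.xE i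
      have h3 := hE _ h2
      rwa [S.aa] at h3
  · obtain ⟨w, hw1, hw2, _, hw4⟩ := RN.last k _ _ hk
    have h1 : w = z := S.a.injective (S.r.injective hw4)
    rw [h1] at hw1 hw2
    exact hg.2 ⟨hw2, b, k, hb, hw1⟩

theorem Rg.good_start {d : S.D} (hd : d ∈ E) (hG : d ∉ R.G) (hx : ∀ i, d ≠ R.x i) :
    S.r d ∉ R.G ∧ R.Good (S.r d) := by
  refine R.good_of_not ?_
  rintro ⟨b, k, hb, hk⟩
  rcases k with _ | k
  · have h1 : b = d := S.r.injective hk.zero
    rcases hb with hb | ⟨i, hi⟩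
    · exact hG (h1 ▸ hb)
    · exact hx i (h1 ▸ hi)
  · obtain ⟨w, _, _, hw3, hw4⟩ := RN.last k _ _ hk
    have h1 : S.a w = d := S.r.injective hw4
    rw [h1] at hw3
    exact hw3 (Or.inl hd)

/-- rotation in the cover -/
def Rg.Rc (x y : S.D ⊕ (S.D ⊕ S.D)) : Prop := ∃ k, RN (S.cov R.G R.K) R.E' k x y

theorem Rg.rc_refl (x : S.D ⊕ (S.D ⊕ S.D)) : R.Rc x x := ⟨0, RN.refl (S := S.cov R.G R.K) (B := R.E') x⟩

theorem Rg.rc_step (hE : S.Cl E) {z : S.D} {y : S.D ⊕ (S.D ⊕ S.D)} (hz : z ∉ E)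
    (h : R.Rc (rcov R.G R.K S.r (Sum.inl (S.a z))) y) : R.Rc (Sum.inl z) y := by
  obtain ⟨k, hk⟩ := h
  refine ⟨k + 1, RN.step k _ _ hz ?_ hk⟩
  intro h1
  have h2 : S.a z ∈ E := h1
  have h3 := hE _ h2
  rw [S.aa] at h3
  exact hz h3

/-- a fan of the old surface is a fan of the cover -/
theorem Rg.fan (hE : S.Cl E) : ∀ (k : ℕ) (z g : S.D), RN S (E ∪ R.G) k z g →
    R.Rc (th R.G (Sum.inl z)) (th R.G (Sum.inl g)) := by
  intro k
  induction k with
  | zero =>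
    intro z g h
    rw [h.zero]
    exact R.rc_refl _
  | succ k ih =>
    intro z g h
    obtain ⟨h1, h2, h3⟩ := h.succ
    have h4 := ih _ _ h3
    rw [th_not (fun h => h1 (Or.inr h))]
    refine R.rc_step hE (fun h => h1 (Or.inl h)) ?_
    rw [rcov_old (fun e he => R.P_none he) (fun h => h2 (Or.inr h))]
    exact h4

/-- the rotation in the cover from a good letter to the next letter of the holes -/
theorem Rg.walk (hE : S.Cl E) : ∀ (n k : ℕ) (z h : S.D), k ≤ n → RN S E k z h → h ∈ E → R.Good z →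
    ((∀ j, h ≠ R.y j) → R.Rc (Sum.inl z) (Sum.inl h)) ∧
      ∀ j, h = R.y j → R.Rc (Sum.inl z) (Sum.inr (Sum.inr (R.l j))) := by
  intro n
  induction n with
  | zero =>
    intro k z h hk hz hh hg
    have hk0 : k = 0 := Nat.le_zero.mp hk
    rw [hk0] at hz
    have h0 := hz.zero
    rw [← h0]
    exact ⟨fun _ => R.rc_refl _, fun j hj => absurd hj (hg.1 j)⟩
  | succ n ih =>
    intro k z h hk hz hh hg
    rcases k with _ | k
    · have h0 := hz.zero
      rw [← h0]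
      exact ⟨fun _ => R.rc_refl _, fun j hj => absurd hj (hg.1 j)⟩
    obtain ⟨h1, _, h3⟩ := hz.succ
    have hkn : k ≤ n := Nat.le_of_succ_le_succ hk
    by_cases haz : S.a z ∈ R.G
    · rcases hN : R.K.N (S.a z) with _ | e
      · obtain ⟨j, hj⟩ := (R.Nl _ haz).mp hN
        obtain ⟨m, hm⟩ := cor_iff.mp (R.ly j)
        rw [← hj] at hm
        obtain ⟨k', _, h6⟩ := RN.cmp (B := E ∪ R.G) (fun x hx => Or.inl hx) m _ _ k h hm h3 hh
        have h7 : h = R.y j := by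
          rcases k' with _ | k'
          · exact h6.zero.symm
          · exact absurd (R.yE j) h6.succ.1
        refine ⟨fun h8 => absurd h7 (h8 j), fun j' hj' => ?_⟩
        have h9 : j = j' := R.yinj (h7.symm.trans hj')
        rw [← h9, ← hj]
        refine R.rc_step hE h1 ?_
        rw [rcov_inl haz, ta_pt_none hN]
        exact R.rc_refl _
      · obtain ⟨_, he, hc⟩ := R.NG _ _ hN
        obtain ⟨m, hm⟩ := cor_iff.mp hc
        obtain ⟨k', hk', h6⟩ := RN.cmp (B := E ∪ R.G) (fun x hx => Or.inl hx) m _ _ k h hm h3 hh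
        have h7 := ih k' e h (le_trans hk' hkn) h6 hh (R.good_G he)
        refine ⟨fun h8 => R.rc_step hE h1 ?_, fun j hj => R.rc_step hE h1 ?_⟩
        · rw [rcov_inl haz, ta_pt_some hN]
          exact h7.1 h8
        · rw [rcov_inl haz, ta_pt_some hN]
          exact h7.2 j hj
    · obtain ⟨h4, h5⟩ := R.good_next hE h1 haz hg
      have h7 := ih k _ h hkn h3 hh h5
      refine ⟨fun h8 => R.rc_step hE h1 ?_, fun j hj => R.rc_step hE h1 ?_⟩
      · rw [rcov_old (fun e he => R.P_none he) haz, th_not h4]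
        exact h7.1 h8
      · rw [rcov_old (fun e he => R.P_none he) haz, th_not h4]
        exact h7.2 j hj

theorem Rg.cl (hE : S.Cl E) : (S.cov R.G R.K).Cl R.E' := by
  rintro (d | d | d) h
  · exact hE d h
  · have h1 : d ∈ R.G := h
    have h2 := cov_a_cp S R.G R.K h1
    rw [h2]
    exact h1
  · have h1 : d ∈ R.G := h
    have h2 := cov_a_pt S R.G R.K h1
    rw [h2]
    exact h1

end rungs

/-- the hole map after the rungs are inserted -/
theorem rung_FR (S : Sf) (E : Set S.D) (hE : S.Cl E) (hliveE : ∀ d ∈ E, S.a d ≠ d) (ρ : Perm S.D) (hρ : S.FR E ρ)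
    (R : Rg S E ρ) :
    (S.cov R.G R.K).Cl R.E' ∧ ∃ ρ' : Perm (S.D ⊕ (S.D ⊕ S.D)), (S.cov R.G R.K).FR R.E' ρ' ∧ R.Spec ρ' := by
  refine ⟨R.cl hE, ?_⟩
  obtain ⟨ρ', hF⟩ := FR_exists (S.cov R.G R.K) R.E' (R.cl hE)
  refine ⟨ρ', hF, ?_⟩
  have hP : ∀ e, e ∉ R.G → R.K.P e = none := fun e he => R.P_none he
  -- uniqueness
  have key : ∀ x g : S.D ⊕ (S.D ⊕ S.D), x ∈ R.E' → g ∈ R.E' → R.Rc (rcov R.G R.K S.r x) g → ρ' x = g := by
    intro x g hx hg h
    obtain ⟨k, hk⟩ := cor_iff.mp (hF.cor x hx)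
    obtain ⟨l, hl⟩ := h
    exact RN.uniq k l _ _ _ hk (hF.mem x hx) hl hg
  -- the rotation from a letter of the holes
  have hold : ∀ d ∈ E, (∀ i, d ≠ R.x i) → ((∀ j, ρ d ≠ R.y j) → R.Rc (rcov R.G R.K S.r (Sum.inl d)) (Sum.inl (ρ d))) ∧
      ∀ j, ρ d = R.y j → R.Rc (rcov R.G R.K S.r (Sum.inl d)) (Sum.inr (Sum.inr (R.l j))) := by
    intro d hd hx
    obtain ⟨k, hk⟩ := cor_iff.mp (hρ.cor d hd)
    by_cases hG : d ∈ R.G
    · rcases hN : R.K.N d with _ | e
      · obtain ⟨j, hj⟩ := (R.Nl _ hG).mp hN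
        obtain ⟨m, hm⟩ := cor_iff.mp (R.ly j)
        rw [← hj] at hm
        obtain ⟨k', _, h6⟩ := RN.cmp (B := E ∪ R.G) (fun x hx => Or.inl hx) m _ _ k _ hm hk (hρ.mem d hd)
        have h7 : ρ d = R.y j := by
          rcases k' with _ | k'
          · exact h6.zero.symm
          · exact absurd (R.yE j) h6.succ.1
        refine ⟨fun h8 => absurd h7 (h8 j), fun j' hj' => ?_⟩
        have h9 : j = j' := R.yinj (h7.symm.trans hj')
        rw [← h9, ← hj, rcov_inl hG, ta_pt_none hN]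
        exact R.rc_refl _
      · obtain ⟨_, he, hc⟩ := R.NG _ _ hN
        obtain ⟨m, hm⟩ := cor_iff.mp hc
        obtain ⟨k', _, h6⟩ := RN.cmp (B := E ∪ R.G) (fun x hx => Or.inl hx) m _ _ k _ hm hk (hρ.mem d hd)
        have h7 := R.walk hE k' k' e _ (le_refl _) h6 (hρ.mem d hd) (R.good_G he)
        rw [rcov_inl hG, ta_pt_some hN]
        exact h7
    · obtain ⟨h4, h5⟩ := R.good_start hd hG hx
      rw [rcov_old hP hG, th_not h4]
      exact R.walk hE k k _ _ (le_refl _) hk (hρ.mem d hd) h5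
  refine ⟨?_, ?_, ?_, ?_, ?_, ?_, ?_⟩
  · intro d hd hx hy
    exact key _ _ hd (hρ.mem d hd) ((hold d hd hx).1 hy)
  · intro i
    refine key _ _ (R.xE i) (R.fG i) ?_
    rw [rcov_old hP (R.xG i)]
    obtain ⟨k, hk⟩ := cor_iff.mp (R.xf i)
    have h1 := R.fan hE k _ _ hk
    rw [th_mem (R.fG i)] at h1
    exact h1
  · intro d hd i hi
    have hx : ∀ j, d ≠ R.x j := by
      intro j hj
      rw [hj] at hi
      exact R.xy j i hi
    exact key _ _ hd (R.lG i) ((hold d hd hx).2 i hi)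
  · intro d e hN
    obtain ⟨hd, he, hc⟩ := R.NG _ _ hN
    refine key _ _ hd he ?_
    rw [rcov_cp hP hd]
    obtain ⟨k, hk⟩ := cor_iff.mp hc
    have h1 := R.fan hE k _ _ hk
    rw [th_mem he] at h1
    exact h1
  · intro i
    refine key _ _ (R.lG i) (R.yE i) ?_
    rw [rcov_cp hP (R.lG i)]
    obtain ⟨k, hk⟩ := cor_iff.mp (R.ly i)
    have h1 := R.fan hE k _ _ hk
    rw [th_not (R.yG i)] at h1
    exact h1
  · intro d e hN
    obtain ⟨hd, he, _⟩ := R.NG _ _ hN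
    refine key _ _ he hd ?_
    rw [rcov_pt he, ta_inl_some ((R.K.h d e).mp hN)]
    exact R.rc_refl _
  · intro i
    refine key _ _ (R.fG i) (hρ.mem _ (R.xE i)) ?_
    rw [rcov_pt (R.fG i), ta_inl_none ((R.Pf _ (R.fG i)).mpr ⟨i, rfl⟩)]
    obtain ⟨k, hk⟩ := cor_iff.mp (hρ.cor _ (R.xE i))
    obtain ⟨m, hm⟩ := cor_iff.mp (R.xf i)
    obtain ⟨k', _, h6⟩ := RN.cmp (B := E ∪ R.G) (fun x hx => Or.inl hx) m _ _ k _ hm hk (hρ.mem _ (R.xE i))
    exact (R.walk hE k' k' _ _ (le_refl _) h6 (hρ.mem _ (R.xE i)) (R.good_G (R.fG i))).1 (fun j => R.xy i j)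

end Pool.Agent.GW
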