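import Pool.Agent.GW.LadDef
import Pool.Agent.GW.RungFR

/-!
# GW/Lad2 (helper81): lengths of the holes after nested rungs are inserted (local form)

`ladder_loc` (compare GW/Ladder.lean): label of `inl d` (`d ∈ E`): hole number and set of the enclosing rungs; of the cp chain `i`: label of
`x i`; of the pt chain `i`: label of `x i` with `i` added. The label is invariant under `ρ'`.

`ladder_gap`: `A i` = the letters `y i, ρ (y i), …, ρ^(b-1) (y i)`, `B i` = the letters `ρ (x i), …, ρ^b (x i)`; these sets are pairwise disjoint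
and have `b` letters; a union of words with a letter of the cp chain (of the pt chain) `i` contains `A i` (`B i`).
-/

set_option autoImplicit false
set_option linter.unusedVariables false

namespace Pool.Agent.GW

open Equiv Pool.Agent.SWP

/-- a chain ends at `f j` only if it is the chain of `j` -/
private theorem Lad2_f {S : Sf} {E : Set S.D} {ρ : Perm S.D} (R : Rg S E ρ) {i j : R.I} (h : R.f j ∈ R.ch i) :
    i = j := by
  have h1 : R.K.P (R.f j) = none := (R.Pf _ (R.fG j)).2 ⟨j, rfl⟩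
  rcases Relation.ReflTransGen.cases_tail h with h2 | ⟨c, _, h3⟩
  · exact (R.finj h2).symm
  · have h4 := (R.K.h _ _).1 h3
    rw [h1] at h4
    cases h4

/-- the chains are disjoint -/
private theorem Lad2_uniq {S : Sf} {E : Set S.D} {ρ : Perm S.D} (R : Rg S E ρ) {i j : R.I} {d : S.D}
    (hi : d ∈ R.ch i) (hj : d ∈ R.ch j) : i = j := by
  induction hi with
  | refl => exact (Lad2_f R hj).symm
  | tail h1 h2 ih =>
    rename_i b c
    refine ih ?_
    rcases Relation.ReflTransGen.cases_tail hj with h3 | ⟨b', h4, h5⟩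
    · have h6 := (R.K.h _ _).1 h2
      rw [h3] at h6
      have h1 : R.K.P (R.f j) = none := (R.Pf _ (R.fG j)).2 ⟨j, rfl⟩
      rw [h1] at h6
      cases h6
    · have h6 := (R.K.h _ _).1 h2
      have h7 := (R.K.h _ _).1 h5
      rw [h6] at h7
      rw [Option.some.inj h7]
      exact h4

/-- labels -/
private def Lad2_Lb {S : Sf} {E : Set S.D} {ρ : Perm S.D} (R : Rg S E ρ) (H pos : S.D → ℕ) (h : ℕ)
    (T : Set R.I) : Set (S.D ⊕ (S.D ⊕ S.D))
  | Sum.inl d => d ∈ E ∧ H d = h ∧ ∀ j, enc H pos R.x R.y j d ↔ j ∈ T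
  | Sum.inr (Sum.inl d) => ∃ i, d ∈ R.ch i ∧ H (R.x i) = h ∧ ∀ j, enc H pos R.x R.y j (R.x i) ↔ j ∈ T
  | Sum.inr (Sum.inr d) => ∃ i, d ∈ R.ch i ∧ H (R.x i) = h ∧ ∀ j, (enc H pos R.x R.y j (R.x i) ∨ j = i) ↔ j ∈ T

private theorem Lad2_inv (S : Sf) (E : Set S.D) (ρ : Perm S.D) (hρ : S.FR E ρ)
    (R : Rg S E ρ) (ρ' : Perm (S.D ⊕ (S.D ⊕ S.D))) (hsp : R.Spec ρ')
    (H pos : S.D → ℕ)
    (hH : ∀ d ∈ E, H (ρ d) = H d) (hp : ∀ d ∈ E, pos (ρ d) = pos d + 1 ∨ pos (ρ d) = 0)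
    (hinj : ∀ d ∈ E, ∀ e ∈ E, H d = H e → pos d = pos e → d = e)
    (hmax : ∀ d ∈ E, pos (ρ d) = 0 → ∀ e ∈ E, H e = H d → pos e ≤ pos d)
    (hxy : ∀ i, H (R.y i) = H (R.x i) ∧ pos (R.x i) < pos (R.y i))
    (hnest : ∀ i j, i ≠ j → H (R.x i) = H (R.x j) → (pos (R.x i) < pos (R.x j) ∧ pos (R.y j) < pos (R.y i)) ∨
      (pos (R.x j) < pos (R.x i) ∧ pos (R.y i) < pos (R.y j))) (h : ℕ) (T : Set R.I) :
    ∀ c ∈ Lad2_Lb R H pos h T, ρ' c ∈ Lad2_Lb R H pos h T := by
  -- the letter after `x i`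
  have hx1 : ∀ i, pos (ρ (R.x i)) = pos (R.x i) + 1 := by
    intro i
    rcases hp _ (R.xE i) with h1 | h1
    · exact h1
    · have h2 := hmax _ (R.xE i) h1 _ (R.yE i) (hxy i).1
      have h3 := (hxy i).2
      omega
  have hx2 : ∀ i, pos (ρ (R.x i)) ≠ pos (R.y i) := by
    intro i h1
    refine R.xy i i (hinj _ (hρ.mem _ (R.xE i)) _ (R.yE i) ?_ h1)
    rw [hH _ (R.xE i), (hxy i).1]
  rintro (d | d | d) hd
  · obtain ⟨hdE, hdh, hdT⟩ := hd
    by_cases h1 : ∃ i, d = R.x i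
    · obtain ⟨i, rfl⟩ := h1
      rw [hsp.atx i]
      exact ⟨i, Relation.ReflTransGen.refl, hdh, hdT⟩
    push Not at h1
    by_cases h2 : ∃ i, ρ d = R.y i
    · obtain ⟨i, hi⟩ := h2
      rw [hsp.aty d hdE i hi]
      have h3 : H d = H (R.x i) := by rw [← hH d hdE, hi, (hxy i).1]
      have h4 : pos (R.y i) = pos d + 1 := by
        rcases hp d hdE with h5 | h5
        · rw [← hi, h5]
        · have := (hxy i).2
          rw [hi] at h5
          omega
      have h5 : pos (R.x i) ≠ pos d := fun h6 => h1 i (hinj _ hdE _ (R.xE i) h3 h6.symm)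
      refine ⟨i, R.fl i, by rw [← h3, hdh], fun j => ?_⟩
      rw [← hdT j]
      by_cases hji : j = i
      · subst hji
        refine ⟨fun _ => ⟨h3.symm, ?_, ?_⟩, fun _ => Or.inr rfl⟩
        · have := (hxy j).2
          omega
        · omega
      · simp only [hji, or_false]
        unfold enc
        rw [h3]
        constructor
        · rintro ⟨e1, e2, e3⟩
          refine ⟨e1, ?_, ?_⟩
          · have := (hxy i).2
            omega
          · rcases hnest j i hji e1 with h6 | h6 <;> omega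
        · rintro ⟨e1, e2, e3⟩
          have := (hxy i).2
          refine ⟨e1, ?_, ?_⟩
          · rcases hnest j i hji e1 with h6 | h6 <;> omega
          · rcases hnest j i hji e1 with h6 | h6 <;> omega
    push Not at h2
    rw [hsp.old d hdE h1 h2]
    refine ⟨hρ.mem d hdE, by rw [hH d hdE, hdh], fun j => ?_⟩
    rw [← hdT j]
    unfold enc
    rw [hH d hdE]
    rcases hp d hdE with h3 | h3
    · rw [h3]
      constructor
      · rintro ⟨e1, e2, e3⟩
        refine ⟨e1, ?_, by omega⟩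
        have h5 : pos (R.x j) ≠ pos d := fun h6 => h1 j (hinj _ hdE _ (R.xE j) e1.symm h6.symm)
        omega
      · rintro ⟨e1, e2, e3⟩
        refine ⟨e1, by omega, ?_⟩
        have h5 : pos d + 1 ≠ pos (R.y j) := fun h6 => h2 j (hinj _ (hρ.mem d hdE) _ (R.yE j)
          (by rw [hH d hdE, (hxy j).1, e1]) (by rw [h3, h6]))
        omega
    · rw [h3]
      constructor
      · rintro ⟨_, e2, _⟩
        omega
      · rintro ⟨e1, e2, e3⟩
        have h5 := hmax d hdE h3 _ (R.yE j) (by rw [(hxy j).1, e1])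
        omega
  · obtain ⟨i, hi, hih, hiT⟩ := hd
    rcases h1 : R.K.N d with _ | e
    · have hdG : d ∈ R.G := by
        rcases Relation.ReflTransGen.cases_tail hi with h2 | ⟨b, _, h3⟩
        · rw [h2]
          exact R.fG i
        · exact (R.NG _ _ h3).2.1
      obtain ⟨j, rfl⟩ := (R.Nl d hdG).1 h1
      have hij : i = j := Lad2_uniq R hi (R.fl j)
      subst hij
      rw [hsp.cpl i]
      refine ⟨R.yE i, by rw [(hxy i).1, hih], fun j => ?_⟩
      rw [← hiT j]
      unfold enc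
      rw [(hxy i).1]
      have h3 := (hxy i).2
      by_cases hji : j = i
      · subst hji
        constructor
        · rintro ⟨_, e2, e3⟩
          omega
        · rintro ⟨_, e2, e3⟩
          omega
      · constructor
        · rintro ⟨e1, e2, e3⟩
          refine ⟨e1, ?_, ?_⟩
          · rcases hnest j i hji e1 with h6 | h6 <;> omega
          · rcases hnest j i hji e1 with h6 | h6 <;> omega
        · rintro ⟨e1, e2, e3⟩
          refine ⟨e1, ?_, ?_⟩
          · rcases hnest j i hji e1 with h6 | h6 <;> omega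
          · rcases hnest j i hji e1 with h6 | h6 <;> omega
    · rw [hsp.cp d e h1]
      exact ⟨i, Relation.ReflTransGen.tail hi h1, hih, hiT⟩
  · obtain ⟨i, hi, hih, hiT⟩ := hd
    rcases Relation.ReflTransGen.cases_tail hi with h2 | ⟨b, h2, h3⟩
    · subst h2
      rw [hsp.ptf i]
      refine ⟨hρ.mem _ (R.xE i), by rw [hH _ (R.xE i), hih], fun j => ?_⟩
      rw [← hiT j]
      unfold enc
      rw [hH _ (R.xE i), hx1 i]
      have h3 := (hxy i).2
      have h4 := hx2 i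
      rw [hx1 i] at h4
      by_cases hji : j = i
      · subst hji
        constructor
        · intro _
          exact Or.inr rfl
        · intro _
          refine ⟨rfl, by omega, by omega⟩
      · simp only [hji, or_false]
        constructor
        · rintro ⟨e1, e2, e3⟩
          refine ⟨e1, ?_, ?_⟩
          · rcases hnest j i hji e1 with h6 | h6 <;> omega
          · rcases hnest j i hji e1 with h6 | h6 <;> omega
        · rintro ⟨e1, e2, e3⟩
          refine ⟨e1, by omega, ?_⟩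
          rcases hnest j i hji e1 with h6 | h6 <;> omega
    · rw [hsp.pt b d h3]
      exact ⟨i, h2, hih, hiT⟩

private theorem Lad2_count (S : Sf) (E : Set S.D) (ρ : Perm S.D) (R : Rg S E ρ)
    (H pos : S.D → ℕ) (g n : ℕ → ℕ)
    (hxy : ∀ i, H (R.y i) = H (R.x i) ∧ pos (R.x i) < pos (R.y i))
    (hnest : ∀ i j, i ≠ j → H (R.x i) = H (R.x j) → (pos (R.x i) < pos (R.x j) ∧ pos (R.y j) < pos (R.y i)) ∨
      (pos (R.x j) < pos (R.x i) ∧ pos (R.y i) < pos (R.y j)))
    (hcell : ∀ d ∈ E, Set.ncard {e | e ∈ E ∧ H e = H d ∧ ∀ i, enc H pos R.x R.y i e ↔ enc H pos R.x R.y i d} ≤ g (H d))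
    (hch : ∀ i, (R.ch i).ncard ≤ n (H (R.x i))) (h : ℕ) (T : Set R.I) : (Lad2_Lb R H pos h T).ncard ≤ g h + 2 * n h := by
  have hA : {d | d ∈ E ∧ H d = h ∧ ∀ j, enc H pos R.x R.y j d ↔ j ∈ T}.ncard ≤ g h := by
    by_cases h1 : ∃ d, d ∈ E ∧ H d = h ∧ ∀ j, enc H pos R.x R.y j d ↔ j ∈ T
    · obtain ⟨d, hd1, hd2, hd3⟩ := h1
      refine (Set.ncard_le_ncard ?_ (Set.toFinite _)).trans ((hcell d hd1).trans (le_of_eq (by rw [hd2])))
      rintro e ⟨he1, he2, he3⟩
      exact ⟨he1, he2.trans hd2.symm, fun i => (he3 i).trans (hd3 i).symm⟩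
    · have h2 : {d | d ∈ E ∧ H d = h ∧ ∀ j, enc H pos R.x R.y j d ↔ j ∈ T} = ∅ := by
        ext d
        constructor
        · intro hd
          exact absurd ⟨d, hd⟩ h1
        · intro hd
          exact absurd hd (Set.notMem_empty _)
      rw [h2, Set.ncard_empty]
      exact Nat.zero_le _
  have hB : {d | ∃ i, d ∈ R.ch i ∧ H (R.x i) = h ∧ ∀ j, enc H pos R.x R.y j (R.x i) ↔ j ∈ T}.ncard ≤ n h := by
    by_cases h1 : ∃ i, H (R.x i) = h ∧ ∀ j, enc H pos R.x R.y j (R.x i) ↔ j ∈ T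
    · obtain ⟨i, hi1, hi2⟩ := h1
      refine (Set.ncard_le_ncard ?_ (Set.toFinite _)).trans ((hch i).trans (le_of_eq (by rw [hi1])))
      rintro d ⟨j, hj0, hj1, hj2⟩
      by_cases hij : i = j
      · rw [hij]
        exact hj0
      · exfalso
        have h3 := (hxy i).2
        have h4 := (hxy j).2
        rcases hnest i j hij (hi1.trans hj1.symm) with h5 | h5
        · have h6 : enc H pos R.x R.y i (R.x j) := ⟨hi1.trans hj1.symm, by omega, by omega⟩
          have h7 := (hi2 i).2 ((hj2 i).1 h6)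
          have h8 := h7.2.1
          omega
        · have h6 : enc H pos R.x R.y j (R.x i) := ⟨hj1.trans hi1.symm, by omega, by omega⟩
          have h7 := (hj2 j).2 ((hi2 j).1 h6)
          have h8 := h7.2.1
          omega
    · have h2 : {d | ∃ i, d ∈ R.ch i ∧ H (R.x i) = h ∧ ∀ j, enc H pos R.x R.y j (R.x i) ↔ j ∈ T} = ∅ := by
        ext d
        constructor
        · rintro ⟨i, _, hi⟩
          exact absurd ⟨i, hi⟩ h1
        · intro hd
          exact absurd hd (Set.notMem_empty _)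
      rw [h2, Set.ncard_empty]
      exact Nat.zero_le _
  have hC : {d | ∃ i, d ∈ R.ch i ∧ H (R.x i) = h ∧ ∀ j, (enc H pos R.x R.y j (R.x i) ∨ j = i) ↔ j ∈ T}.ncard ≤ n h := by
    by_cases h1 : ∃ i, H (R.x i) = h ∧ ∀ j, (enc H pos R.x R.y j (R.x i) ∨ j = i) ↔ j ∈ T
    · obtain ⟨i, hi1, hi2⟩ := h1
      refine (Set.ncard_le_ncard ?_ (Set.toFinite _)).trans ((hch i).trans (le_of_eq (by rw [hi1])))
      rintro d ⟨j, hj0, hj1, hj2⟩
      by_cases hij : i = j
      · rw [hij]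
        exact hj0
      · exfalso
        have h3 := (hxy i).2
        have h4 := (hxy j).2
        rcases hnest i j hij (hi1.trans hj1.symm) with h5 | h5
        · rcases (hi2 j).2 ((hj2 j).1 (Or.inr rfl)) with h7 | h7
          · have h8 := h7.2.1
            omega
          · exact hij h7.symm
        · rcases (hj2 i).2 ((hi2 i).1 (Or.inr rfl)) with h7 | h7
          · have h8 := h7.2.1
            omega
          · exact hij h7
    · have h2 : {d | ∃ i, d ∈ R.ch i ∧ H (R.x i) = h ∧ ∀ j, (enc H pos R.x R.y j (R.x i) ∨ j = i) ↔ j ∈ T} = ∅ := by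
        ext d
        constructor
        · rintro ⟨i, _, hi⟩
          exact absurd ⟨i, hi⟩ h1
        · intro hd
          exact absurd hd (Set.notMem_empty _)
      rw [h2, Set.ncard_empty]
      exact Nat.zero_le _
  have hsub : Lad2_Lb R H pos h T ⊆
      (fun d : S.D => (Sum.inl d : S.D ⊕ (S.D ⊕ S.D))) '' {d | d ∈ E ∧ H d = h ∧ ∀ j, enc H pos R.x R.y j d ↔ j ∈ T} ∪
      ((fun d : S.D => (Sum.inr (Sum.inl d) : S.D ⊕ (S.D ⊕ S.D))) ''
        {d | ∃ i, d ∈ R.ch i ∧ H (R.x i) = h ∧ ∀ j, enc H pos R.x R.y j (R.x i) ↔ j ∈ T} ∪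
      (fun d : S.D => (Sum.inr (Sum.inr d) : S.D ⊕ (S.D ⊕ S.D))) ''
        {d | ∃ i, d ∈ R.ch i ∧ H (R.x i) = h ∧ ∀ j, (enc H pos R.x R.y j (R.x i) ∨ j = i) ↔ j ∈ T}) := by
    rintro (d | d | d) hd
    · exact Or.inl ⟨d, hd, rfl⟩
    · exact Or.inr (Or.inl ⟨d, hd, rfl⟩)
    · exact Or.inr (Or.inr ⟨d, hd, rfl⟩)
  have h1 := Set.ncard_le_ncard hsub (Set.toFinite _)
  have h2 := h1.trans (Set.ncard_union_le _ _)
  have h3 := Set.ncard_union_le ((fun d : S.D => (Sum.inr (Sum.inl d) : S.D ⊕ (S.D ⊕ S.D))) ''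
        {d | ∃ i, d ∈ R.ch i ∧ H (R.x i) = h ∧ ∀ j, enc H pos R.x R.y j (R.x i) ↔ j ∈ T})
      ((fun d : S.D => (Sum.inr (Sum.inr d) : S.D ⊕ (S.D ⊕ S.D))) ''
        {d | ∃ i, d ∈ R.ch i ∧ H (R.x i) = h ∧ ∀ j, (enc H pos R.x R.y j (R.x i) ∨ j = i) ↔ j ∈ T})
  have h4 := Set.ncard_image_le (f := fun d : S.D => (Sum.inl d : S.D ⊕ (S.D ⊕ S.D)))
    (s := {d | d ∈ E ∧ H d = h ∧ ∀ j, enc H pos R.x R.y j d ↔ j ∈ T}) (Set.toFinite _)
  have h5 := Set.ncard_image_le (f := fun d : S.D => (Sum.inr (Sum.inl d) : S.D ⊕ (S.D ⊕ S.D)))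
    (s := {d | ∃ i, d ∈ R.ch i ∧ H (R.x i) = h ∧ ∀ j, enc H pos R.x R.y j (R.x i) ↔ j ∈ T}) (Set.toFinite _)
  have h6 := Set.ncard_image_le (f := fun d : S.D => (Sum.inr (Sum.inr d) : S.D ⊕ (S.D ⊕ S.D)))
    (s := {d | ∃ i, d ∈ R.ch i ∧ H (R.x i) = h ∧ ∀ j, (enc H pos R.x R.y j (R.x i) ∨ j = i) ↔ j ∈ T}) (Set.toFinite _)
  omega

private theorem Lad2_pos {S : Sf} {E : Set S.D} {ρ : Perm S.D} (hρ : S.FR E ρ) {H pos : S.D → ℕ} (hH : Hn E ρ H pos)
    {d : S.D} (hd : d ∈ E) : ∀ m : ℕ, (∃ e ∈ E, H e = H d ∧ pos d + m ≤ pos e) →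
      (ρ ^ m) d ∈ E ∧ H ((ρ ^ m) d) = H d ∧ pos ((ρ ^ m) d) = pos d + m := by
  intro m
  induction m with
  | zero => exact fun _ => ⟨hd, rfl, rfl⟩
  | succ m ih =>
    rintro ⟨e, he, he1, he2⟩
    obtain ⟨h1, h2, h3⟩ := ih ⟨e, he, he1, by omega⟩
    have h4 : (ρ ^ (m + 1)) d = ρ ((ρ ^ m) d) := by rw [pow_succ', Perm.mul_apply]
    rw [h4]
    have h5 : H (ρ ((ρ ^ m) d)) = H d := by
      rw [← h2]
      exact (hH.hH _ (hρ.mem _ h1) _ h1).2 (Perm.sameCycle_apply_left.2 (Perm.SameCycle.refl _ _))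
    refine ⟨hρ.mem _ h1, h5, ?_⟩
    rcases hH.hp _ h1 with h6 | h6
    · rw [h6, h3]
      omega
    · have h7 := hH.hmax _ h1 h6 e he (he1.trans h2.symm)
      omega

private theorem Lad2_dead (S : Sf) (E : Set S.D) (hE : S.Cl E) (ρ : Perm S.D)
    (R : Rg S E ρ) (ρ' : Perm (S.D ⊕ (S.D ⊕ S.D))) (hF : (S.cov R.G R.K).FR R.E' ρ') (e : S.D ⊕ (S.D ⊕ S.D))
    (he : e ∉ R.E') : ((S.cov R.G R.K).holes R.E' ρ').len e = 0 := by
  have hfin : Finite (S.D ⊕ (S.D ⊕ S.D)) := Finite.of_fintype _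
  have h1 : ρ' e = e := hF.off e he
  have h2 : ((S.cov R.G R.K).holes R.E' ρ').word e ∩ ((S.cov R.G R.K).holes R.E' ρ').live = ∅ := by
    ext c
    constructor
    · rintro ⟨hc1, hc2⟩
      have hc3 : c ∈ ({e} : Set (S.D ⊕ (S.D ⊕ S.D))) :=
        mem_of_same (s := ρ') (Z := {e}) (fun x hx => by
          rw [Set.mem_singleton_iff] at hx ⊢
          rw [hx, h1]) rfl hc1
      have hc4 : c = e := hc3
      rw [hc4] at hc2
      exfalso
      apply hc2
      -- partner outside of the walls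
      have h3 : (S.cov R.G R.K).a e ∉ R.E' := by
        intro h4
        apply he
        rcases e with d | d | d
        · have h5 := hE _ (show S.a d ∈ E from h4)
          rw [S.aa] at h5
          exact h5
        · by_contra h6
          have h7 : (S.cov R.G R.K).a (Sum.inr (Sum.inl d)) = Sum.inr (Sum.inl d) := by
            show ac R.G S.a (Sum.inr (Sum.inl d)) = _
            simp only [ac]
            rw [if_neg (show d ∉ R.G from h6)]
          rw [h7] at h4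
          exact h6 h4
        · by_contra h6
          have h7 : (S.cov R.G R.K).a (Sum.inr (Sum.inr d)) = Sum.inr (Sum.inr d) := by
            show ac R.G S.a (Sum.inr (Sum.inr d)) = _
            simp only [ac]
            rw [if_neg (show d ∉ R.G from h6)]
          rw [h7] at h4
          exact h6 h4
      show (S.cov R.G R.K).a ((S.cov R.G R.K).beta R.E'ᶜ e) = e
      have h5 : (S.cov R.G R.K).beta R.E'ᶜ e = (S.cov R.G R.K).a e :=
        (S.cov R.G R.K).betaFun_pos ⟨he, h3⟩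
      rw [h5, (S.cov R.G R.K).aa]
    · intro hc
      exact absurd hc (Set.notMem_empty _)
  have h3 : ((S.cov R.G R.K).holes R.E' ρ').len e = 0 := by
    unfold Sf.len Sf.num
    rw [h2, Set.ncard_empty]
  exact h3

/-- the lengths of the holes after nested rungs are inserted: `g h` bounds the number of old letters of a cell of the hole
`h`, `n h` the number of letters of a rung of the hole `h` -/
theorem ladder_loc (S : Sf) (E : Set S.D) (hE : S.Cl E) (hliveE : ∀ d ∈ E, S.a d ≠ d) (ρ : Perm S.D) (hρ : S.FR E ρ)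
    (R : Rg S E ρ) (ρ' : Perm (S.D ⊕ (S.D ⊕ S.D))) (hF : (S.cov R.G R.K).FR R.E' ρ') (hsp : R.Spec ρ')
    (H pos : S.D → ℕ) (hH : Hn E ρ H pos) (b : ℕ) (hb : 1 ≤ b) (hS : Sel E H pos b R.x R.y) (g n : ℕ → ℕ)
    (hcell : ∀ d ∈ E, Set.ncard {e | e ∈ E ∧ H e = H d ∧ ∀ i, enc H pos R.x R.y i e ↔ enc H pos R.x R.y i d} ≤ g (H d))
    (hch : ∀ i, (R.ch i).ncard ≤ n (H (R.x i))) :
    (∀ d ∈ E, ((S.cov R.G R.K).holes R.E' ρ').len (Sum.inl d) ≤ g (H d) + 2 * n (H d)) ∧
    (∀ i, ∀ d ∈ R.ch i,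
      ((S.cov R.G R.K).holes R.E' ρ').len (Sum.inr (Sum.inl d)) ≤ g (H (R.x i)) + 2 * n (H (R.x i)) ∧
      ((S.cov R.G R.K).holes R.E' ρ').len (Sum.inr (Sum.inr d)) ≤ g (H (R.x i)) + 2 * n (H (R.x i))) ∧
    (∀ e, e ∉ R.E' → ((S.cov R.G R.K).holes R.E' ρ').len e = 0) := by
  have hfin : Finite (S.D ⊕ (S.D ⊕ S.D)) := Finite.of_fintype _
  have hxy : ∀ i, H (R.y i) = H (R.x i) ∧ pos (R.x i) < pos (R.y i) := by
    intro i
    have h1 := hS.gxy i i (hS.hxy i).symm
    exact ⟨hS.hxy i, by omega⟩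
  have hH' : ∀ d ∈ E, H (ρ d) = H d := fun d hd =>
    (hH.hH _ (hρ.mem _ hd) _ hd).2 (Perm.sameCycle_apply_left.2 (Perm.SameCycle.refl _ _))
  have key : ∀ (h : ℕ) (T : Set R.I) (e : S.D ⊕ (S.D ⊕ S.D)), e ∈ Lad2_Lb R H pos h T →
      ((S.cov R.G R.K).holes R.E' ρ').len e ≤ g h + 2 * n h := by
    intro h T e hT
    refine le_trans (Set.ncard_le_ncard ?_ (Set.toFinite _)) (Lad2_count S E ρ R H pos g n hxy hS.hnest hcell hch h T)
    rintro c ⟨hc, _⟩
    exact mem_of_same (Lad2_inv S E ρ hρ R ρ' hsp H pos hH' hH.hp hH.hinj hH.hmax hxy hS.hnest h T) hT hc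
  refine ⟨fun d hd => ?_, fun i d hd => ⟨?_, ?_⟩, fun e he => Lad2_dead S E hE ρ R ρ' hF e he⟩
  · exact key (H d) {j | enc H pos R.x R.y j d} _ ⟨hd, rfl, fun j => Iff.rfl⟩
  · exact key (H (R.x i)) {j | enc H pos R.x R.y j (R.x i)} _ ⟨i, hd, rfl, fun j => Iff.rfl⟩
  · exact key (H (R.x i)) {j | enc H pos R.x R.y j (R.x i) ∨ j = i} _ ⟨i, hd, rfl, fun j => Iff.rfl⟩

/-- every side of a rung is followed by `b` old letters -/
theorem ladder_gap (S : Sf) (E : Set S.D) (ρ : Perm S.D) (hρ : S.FR E ρ)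
    (R : Rg S E ρ) (ρ' : Perm (S.D ⊕ (S.D ⊕ S.D))) (hsp : R.Spec ρ')
    (H pos : S.D → ℕ) (hH : Hn E ρ H pos) (b n : ℕ) (hb : 1 ≤ b) (hS : Sel E H pos b R.x R.y)
    (hch : ∀ i, (R.ch i).ncard ≤ n) (Z : Set (S.D ⊕ (S.D ⊕ S.D))) (hZ : ∀ e, ρ' e ∈ Z ↔ e ∈ Z) :
    b * Set.ncard {e | e ∈ Z ∧ ∃ d ∈ R.G, e = Sum.inr (Sum.inl d) ∨ e = Sum.inr (Sum.inr d)} ≤
      n * Set.ncard {e | e ∈ Z ∧ ∃ d ∈ E, e = Sum.inl d} := by
  classical
  let _ := R.fI
  -- positions after `y i` and after `x i`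
  have hy : ∀ i, ∀ m ≤ b, (ρ ^ m) (R.y i) ∈ E ∧ H ((ρ ^ m) (R.y i)) = H (R.y i) ∧
      pos ((ρ ^ m) (R.y i)) = pos (R.y i) + m := by
    intro i m hm
    obtain ⟨e, he1, he2, he3⟩ := hS.gend i
    exact Lad2_pos hρ hH (R.yE i) m ⟨e, he1, he2, by omega⟩
  have hx : ∀ i, ∀ m ≤ b, (ρ ^ m) (R.x i) ∈ E ∧ H ((ρ ^ m) (R.x i)) = H (R.x i) ∧
      pos ((ρ ^ m) (R.x i)) = pos (R.x i) + m := by
    intro i m hm
    have h1 := hS.gxy i i (hS.hxy i).symm
    exact Lad2_pos hρ hH (R.xE i) m ⟨R.y i, R.yE i, hS.hxy i, by omega⟩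
  -- chains in `Z`
  have hcp : ∀ i d, d ∈ R.ch i → (Sum.inr (Sum.inl d) ∈ Z ↔ Sum.inr (Sum.inl (R.f i)) ∈ Z) := by
    intro i d hd
    induction hd with
    | refl => exact Iff.rfl
    | tail h1 h2 ih =>
      rw [← hsp.cp _ _ h2, hZ]
      exact ih
  have hpt : ∀ i d, d ∈ R.ch i → (Sum.inr (Sum.inr d) ∈ Z ↔ Sum.inr (Sum.inr (R.f i)) ∈ Z) := by
    intro i d hd
    induction hd with
    | refl => exact Iff.rfl
    | tail h1 h2 ih =>
      rw [← ih, ← hsp.pt _ _ h2, hZ]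
  have hA : ∀ i d, d ∈ R.ch i → Sum.inr (Sum.inl d) ∈ Z → ∀ j < b, Sum.inl ((ρ ^ j) (R.y i)) ∈ Z := by
    intro i d hd hdZ j
    induction j with
    | zero =>
      intro _
      have h1 : Sum.inr (Sum.inl (R.l i)) ∈ Z := (hcp i _ (R.fl i)).2 ((hcp i d hd).1 hdZ)
      have h2 := (hZ _).2 h1
      rw [hsp.cpl i] at h2
      exact h2
    | succ j ih =>
      intro hj
      have h1 := (hZ _).2 (ih (by omega))
      obtain ⟨p1, p2, p3⟩ := hy i j (by omega)
      obtain ⟨q1, q2, q3⟩ := hy i (j + 1) (by omega)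
      have h4 : (ρ ^ (j + 1)) (R.y i) = ρ ((ρ ^ j) (R.y i)) := by rw [pow_succ', Perm.mul_apply]
      rw [h4] at q1 q2 q3 ⊢
      rw [hsp.old _ p1 ?_ ?_] at h1
      · exact h1
      · intro k hk
        have h5 : H (R.x k) = H (R.y i) := by rw [← hk, p2]
        have h6 := hS.gxy k i h5
        have h7 : pos (R.x k) = pos (R.y i) + j := by rw [← hk, p3]
        omega
      · intro k hk
        have h5 : H (R.y i) = H (R.y k) := by rw [← hk, q2]
        have h7 : pos (R.y k) = pos (R.y i) + (j + 1) := by rw [← hk, q3]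
        have h6 := hS.gy i k h5 (by omega)
        omega
  have hB : ∀ i d, d ∈ R.ch i → Sum.inr (Sum.inr d) ∈ Z → ∀ j < b, Sum.inl ((ρ ^ (j + 1)) (R.x i)) ∈ Z := by
    intro i d hd hdZ j
    induction j with
    | zero =>
      intro _
      have h1 : Sum.inr (Sum.inr (R.f i)) ∈ Z := (hpt i d hd).1 hdZ
      have h2 := (hZ _).2 h1
      rw [hsp.ptf i] at h2
      rw [zero_add, pow_one]
      exact h2
    | succ j ih =>
      intro hj
      have h1 := (hZ _).2 (ih (by omega))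
      obtain ⟨p1, p2, p3⟩ := hx i (j + 1) (by omega)
      obtain ⟨q1, q2, q3⟩ := hx i (j + 1 + 1) (by omega)
      have h4 : (ρ ^ (j + 1 + 1)) (R.x i) = ρ ((ρ ^ (j + 1)) (R.x i)) := by rw [pow_succ' ρ (j + 1), Perm.mul_apply]
      rw [h4] at q1 q2 q3 ⊢
      rw [hsp.old _ p1 ?_ ?_] at h1
      · exact h1
      · intro k hk
        have h5 : H (R.x i) = H (R.x k) := by rw [← hk, p2]
        have h7 : pos (R.x k) = pos (R.x i) + (j + 1) := by rw [← hk, p3]
        have h6 := hS.gx i k h5 (by omega)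
        omega
      · intro k hk
        have h5 : H (R.x i) = H (R.y k) := by rw [← hk, q2]
        have h7 : pos (R.y k) = pos (R.x i) + (j + 1 + 1) := by rw [← hk, q3]
        have h6 := hS.gxy i k h5
        omega
  -- the index sets
  set Ic : Finset R.I := Finset.univ.filter fun i => ∃ d ∈ R.ch i, Sum.inr (Sum.inl d) ∈ Z with hIc
  set Ip : Finset R.I := Finset.univ.filter fun i => ∃ d ∈ R.ch i, Sum.inr (Sum.inr d) ∈ Z with hIp
  have hcount : Set.ncard {e | e ∈ Z ∧ ∃ d ∈ R.G, e = Sum.inr (Sum.inl d) ∨ e = Sum.inr (Sum.inr d)} ≤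
      (Ic.card + Ip.card) * n := by
    have h1 : {e | e ∈ Z ∧ ∃ d ∈ R.G, e = Sum.inr (Sum.inl d) ∨ e = Sum.inr (Sum.inr d)} ⊆
        ((Ic.biUnion fun i => (R.ch i).toFinset.image fun d => (Sum.inr (Sum.inl d) : S.D ⊕ (S.D ⊕ S.D))) ∪
          (Ip.biUnion fun i => (R.ch i).toFinset.image fun d => (Sum.inr (Sum.inr d) : S.D ⊕ (S.D ⊕ S.D))) :
          Finset (S.D ⊕ (S.D ⊕ S.D))) := by
      rintro e ⟨he, d, hd, hed⟩
      obtain ⟨i, hi⟩ := R.reach d hd
      rw [Finset.mem_coe, Finset.mem_union, Finset.mem_biUnion, Finset.mem_biUnion]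
      rcases hed with rfl | rfl
      · left
        exact ⟨i, Finset.mem_filter.2 ⟨Finset.mem_univ _, d, hi, he⟩,
          Finset.mem_image.2 ⟨d, Set.mem_toFinset.2 hi, rfl⟩⟩
      · right
        exact ⟨i, Finset.mem_filter.2 ⟨Finset.mem_univ _, d, hi, he⟩,
          Finset.mem_image.2 ⟨d, Set.mem_toFinset.2 hi, rfl⟩⟩
    have h2 := Set.ncard_le_ncard h1 (Set.toFinite _)
    rw [Set.ncard_coe_finset] at h2
    refine h2.trans ((Finset.card_union_le _ _).trans ?_)
    rw [add_mul]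
    refine add_le_add (Finset.card_biUnion_le_card_mul _ _ _ fun i _ => ?_)
      (Finset.card_biUnion_le_card_mul _ _ _ fun i _ => ?_)
    · refine Finset.card_image_le.trans ?_
      rw [← Set.ncard_eq_toFinset_card']
      exact hch i
    · refine Finset.card_image_le.trans ?_
      rw [← Set.ncard_eq_toFinset_card']
      exact hch i
  have hold : (Ic.card + Ip.card) * b ≤ Set.ncard {e | e ∈ Z ∧ ∃ d ∈ E, e = Sum.inl d} := by
    set OA : Finset S.D := (Ic ×ˢ Finset.range b).image fun p => (ρ ^ p.2) (R.y p.1) with hOA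
    set OB : Finset S.D := (Ip ×ˢ Finset.range b).image fun p => (ρ ^ (p.2 + 1)) (R.x p.1) with hOB
    have hOAc : OA.card = Ic.card * b := by
      rw [hOA, Finset.card_image_of_injOn, Finset.card_product, Finset.card_range]
      rintro ⟨i, j⟩ hij ⟨k, l⟩ hkl h
      have hj : j < b := Finset.mem_range.1 (Finset.mem_product.1 hij).2
      have hl : l < b := Finset.mem_range.1 (Finset.mem_product.1 hkl).2
      have h' : (ρ ^ j) (R.y i) = (ρ ^ l) (R.y k) := h
      obtain ⟨p1, p2, p3⟩ := hy i j hj.le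
      obtain ⟨q1, q2, q3⟩ := hy k l hl.le
      rw [h', q2] at p2
      rw [h', q3] at p3
      have h5 : pos (R.y i) = pos (R.y k) := by
        rcases lt_trichotomy (pos (R.y i)) (pos (R.y k)) with h6 | h6 | h6
        · have := hS.gy i k p2.symm h6
          omega
        · exact h6
        · have := hS.gy k i p2 h6
          omega
      have h6 : R.y i = R.y k := hH.hinj _ (R.yE i) _ (R.yE k) p2.symm h5
      have h7 := R.yinj h6
      have h8 : j = l := by omega
      rw [h7, h8]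
    have hOBc : OB.card = Ip.card * b := by
      rw [hOB, Finset.card_image_of_injOn, Finset.card_product, Finset.card_range]
      rintro ⟨i, j⟩ hij ⟨k, l⟩ hkl h
      have hj : j < b := Finset.mem_range.1 (Finset.mem_product.1 hij).2
      have hl : l < b := Finset.mem_range.1 (Finset.mem_product.1 hkl).2
      have h' : (ρ ^ (j + 1)) (R.x i) = (ρ ^ (l + 1)) (R.x k) := h
      obtain ⟨p1, p2, p3⟩ := hx i (j + 1) hj
      obtain ⟨q1, q2, q3⟩ := hx k (l + 1) hl
      rw [h', q2] at p2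
      rw [h', q3] at p3
      have h5 : pos (R.x i) = pos (R.x k) := by
        rcases lt_trichotomy (pos (R.x i)) (pos (R.x k)) with h6 | h6 | h6
        · have := hS.gx i k p2.symm h6
          omega
        · exact h6
        · have := hS.gx k i p2 h6
          omega
      have h6 : R.x i = R.x k := hH.hinj _ (R.xE i) _ (R.xE k) p2.symm h5
      have h7 := R.xinj h6
      have h8 : j = l := by omega
      rw [h7, h8]
    have hdis : Disjoint OA OB := by
      rw [Finset.disjoint_left]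
      intro c hc1 hc2
      rw [hOA, Finset.mem_image] at hc1
      rw [hOB, Finset.mem_image] at hc2
      obtain ⟨⟨i, j⟩, hij, h1⟩ := hc1
      obtain ⟨⟨k, l⟩, hkl, h2⟩ := hc2
      have hj : j < b := Finset.mem_range.1 (Finset.mem_product.1 hij).2
      have hl : l < b := Finset.mem_range.1 (Finset.mem_product.1 hkl).2
      obtain ⟨p1, p2, p3⟩ := hy i j hj.le
      obtain ⟨q1, q2, q3⟩ := hx k (l + 1) hl
      have h' : (ρ ^ j) (R.y i) = (ρ ^ (l + 1)) (R.x k) := h1.trans h2.symm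
      rw [h', q2] at p2
      rw [h', q3] at p3
      have := hS.gxy k i p2
      omega
    rw [add_mul, ← hOAc, ← hOBc, ← Finset.card_union_of_disjoint hdis, ← Set.ncard_coe_finset,
      ← Set.ncard_image_of_injective (f := fun d : S.D => (Sum.inl d : S.D ⊕ (S.D ⊕ S.D))) _ Sum.inl_injective]
    refine Set.ncard_le_ncard ?_ (Set.toFinite _)
    rintro _ ⟨c, hc, rfl⟩
    rw [Finset.mem_coe, Finset.mem_union] at hc
    rcases hc with hc | hc
    · rw [hOA, Finset.mem_image] at hc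
      obtain ⟨⟨i, j⟩, hij, rfl⟩ := hc
      have hj : j < b := Finset.mem_range.1 (Finset.mem_product.1 hij).2
      obtain ⟨d, hd, hdZ⟩ := (Finset.mem_filter.1 (Finset.mem_product.1 hij).1).2
      exact ⟨hA i d hd hdZ j hj, _, (hy i j hj.le).1, rfl⟩
    · rw [hOB, Finset.mem_image] at hc
      obtain ⟨⟨i, j⟩, hij, rfl⟩ := hc
      have hj : j < b := Finset.mem_range.1 (Finset.mem_product.1 hij).2
      obtain ⟨d, hd, hdZ⟩ := (Finset.mem_filter.1 (Finset.mem_product.1 hij).1).2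
      exact ⟨hB i d hd hdZ j hj, _, (hx i (j + 1) hj).1, rfl⟩
  calc b * Set.ncard {e | e ∈ Z ∧ ∃ d ∈ R.G, e = Sum.inr (Sum.inl d) ∨ e = Sum.inr (Sum.inr d)}
      ≤ b * ((Ic.card + Ip.card) * n) := Nat.mul_le_mul_left _ hcount
    _ = n * ((Ic.card + Ip.card) * b) := by ring
    _ ≤ n * Set.ncard {e | e ∈ Z ∧ ∃ d ∈ E, e = Sum.inl d} := Nat.mul_le_mul_left _ hold

end Pool.Agent.GW
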