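import Pool.Agent.GW.CovDef

/-!
# GW/LadDef (helper76): numbering of holes, nested rungs (definitions)

`H d`: number of the hole of `d`, `pos d`: position of `d` in its hole; `enc x y i d`: the rung from `x i` to `y i`
encloses `d`; `Sel b x y`: the rungs are nested, two ends in the same hole have distance more than `b`.
-/

set_option autoImplicit false

namespace Pool.Agent.GW

open Equiv Pool.Agent.SWP

/-- numbering of the holes and of the letters of every hole -/
structure Hn {D : Type} (E : Set D) (ρ : Perm D) (H pos : D → ℕ) : Prop where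
  hH : ∀ d ∈ E, ∀ e ∈ E, H d = H e ↔ ρ.SameCycle d e
  hp : ∀ d ∈ E, pos (ρ d) = pos d + 1 ∨ pos (ρ d) = 0
  hinj : ∀ d ∈ E, ∀ e ∈ E, H d = H e → pos d = pos e → d = e
  hmax : ∀ d ∈ E, pos (ρ d) = 0 → ∀ e ∈ E, H e = H d → pos e ≤ pos d

/-- the rung `i` encloses the hole letter `d` -/
def enc {D I : Type} (H pos : D → ℕ) (x y : I → D) (i : I) (d : D) : Prop :=
  H (x i) = H d ∧ pos (x i) < pos d ∧ pos d < pos (y i)

/-- nested rungs, the distance of two ends in a hole is more than `b` -/
structure Sel {D I : Type} (E : Set D) (H pos : D → ℕ) (b : ℕ) (x y : I → D) : Prop where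
  xE : ∀ i, x i ∈ E
  yE : ∀ i, y i ∈ E
  hxy : ∀ i, H (y i) = H (x i)
  hnest : ∀ i j, i ≠ j → H (x i) = H (x j) → (pos (x i) < pos (x j) ∧ pos (y j) < pos (y i)) ∨
    (pos (x j) < pos (x i) ∧ pos (y i) < pos (y j))
  gx : ∀ i j, H (x i) = H (x j) → pos (x i) < pos (x j) → pos (x i) + b < pos (x j)
  gy : ∀ i j, H (y i) = H (y j) → pos (y i) < pos (y j) → pos (y i) + b < pos (y j)
  gxy : ∀ i j, H (x i) = H (y j) → pos (x i) + b < pos (y j)
  gend : ∀ i, ∃ e ∈ E, H e = H (y i) ∧ pos (y i) + b ≤ pos e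

theorem Sel.comp {D I J : Type} {E : Set D} {H pos : D → ℕ} {b : ℕ} {x y : I → D} (h : Sel E H pos b x y) (φ : J ≃ I) :
    Sel E H pos b (fun j => x (φ j)) (fun j => y (φ j)) where
  xE := fun i => h.xE _
  yE := fun i => h.yE _
  hxy := fun i => h.hxy _
  hnest := fun i j hij => h.hnest _ _ (fun h' => hij (φ.injective h'))
  gx := fun i j => h.gx _ _
  gy := fun i j => h.gy _ _
  gxy := fun i j => h.gxy _ _
  gend := fun i => h.gend _

end Pool.Agent.GW
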