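import Pool.Agent.GW.CovDef

/-!
# GW/Ladder (helper81): the holes after nested rungs are inserted

The label of a wall letter = number of its hole and set of the rungs which enclose it; the two sides of a rung get the labels of the two
cells on its sides. The label is invariant under the new hole map; at most one rung has its outer side (its inner side) in a
given cell.
-/

set_option autoImplicit false
set_option linter.unusedVariables false

namespace Pool.Agent.GW

open Equiv Pool.Agent.SWP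

/-- the rung `i` encloses the hole letter `d` (`H` number of the hole, `pos` position in the hole) -/
def Rg.enc {S : Sf} {E : Set S.D} {ρ : Perm S.D} (R : Rg S E ρ) (H pos : S.D → ℕ) (i : R.I) (d : S.D) : Prop :=
  H (R.x i) = H d ∧ pos (R.x i) < pos d ∧ pos d < pos (R.y i)

private theorem Ladder_same {D : Type} [Finite D] {s : Perm D} {Z : Set D} (hZ : ∀ x ∈ Z, s x ∈ Z) {d e : D}
    (hd : d ∈ Z) (h : s.SameCycle d e) : e ∈ Z :=
  mem_of_same hZ hd h

/-- a chain ends at `f j` only if it is the chain of `j` -/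
private theorem Ladder_f {S : Sf} {E : Set S.D} {ρ : Perm S.D} (R : Rg S E ρ) {i j : R.I} (h : R.f j ∈ R.ch i) :
    i = j := by
  have h1 : R.K.P (R.f j) = none := (R.Pf _ (R.fG j)).2 ⟨j, rfl⟩
  rcases Relation.ReflTransGen.cases_tail h with h2 | ⟨c, _, h3⟩
  · exact (R.finj h2).symm
  · have h4 := (R.K.h _ _).1 h3
    rw [h1] at h4
    cases h4

/-- the chains are disjoint -/
private theorem Ladder_uniq {S : Sf} {E : Set S.D} {ρ : Perm S.D} (R : Rg S E ρ) {i j : R.I} {d : S.D}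
    (hi : d ∈ R.ch i) (hj : d ∈ R.ch j) : i = j := by
  induction hi with
  | refl => exact (Ladder_f R hj).symm
  | tail h1 h2 ih =>
    rename_i b c
    refine ih ?_
    rcases Relation.ReflTransGen.cases_tail hj with h3 | ⟨b', h4, h5⟩
    · have h6 := (R.K.h _ _).1 h2
      rw [h3] at h6
      have h1 : R.K.P (R.f j) = none := (R.Pf _ (R.fG j)).2 ⟨j, rfl⟩
      rw [h1] at h6
      cases h6
    · have h6 := (R.K.h _ _).1 h2
      have h7 := (R.K.h _ _).1 h5
      rw [h6] at h7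
      rw [Option.some.inj h7]
      exact h4

/-- labels -/
private def Ladder_Lb {S : Sf} {E : Set S.D} {ρ : Perm S.D} (R : Rg S E ρ) (H pos : S.D → ℕ) (h : ℕ)
    (T : Set R.I) : Set (S.D ⊕ (S.D ⊕ S.D))
  | Sum.inl d => d ∈ E ∧ H d = h ∧ ∀ j, R.enc H pos j d ↔ j ∈ T
  | Sum.inr (Sum.inl d) => ∃ i, d ∈ R.ch i ∧ H (R.x i) = h ∧ ∀ j, R.enc H pos j (R.x i) ↔ j ∈ T
  | Sum.inr (Sum.inr d) => ∃ i, d ∈ R.ch i ∧ H (R.x i) = h ∧ ∀ j, (R.enc H pos j (R.x i) ∨ j = i) ↔ j ∈ T

private theorem Ladder_inv (S : Sf) (E : Set S.D) (ρ : Perm S.D) (hρ : S.FR E ρ)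
    (R : Rg S E ρ) (ρ' : Perm (S.D ⊕ (S.D ⊕ S.D))) (hsp : R.Spec ρ')
    (H pos : S.D → ℕ)
    (hH : ∀ d ∈ E, H (ρ d) = H d) (hp : ∀ d ∈ E, pos (ρ d) = pos d + 1 ∨ pos (ρ d) = 0)
    (hinj : ∀ d ∈ E, ∀ e ∈ E, H d = H e → pos d = pos e → d = e)
    (hmax : ∀ d ∈ E, pos (ρ d) = 0 → ∀ e ∈ E, H e = H d → pos e ≤ pos d)
    (hxy : ∀ i, H (R.y i) = H (R.x i) ∧ pos (R.x i) < pos (R.y i))
    (hnest : ∀ i j, i ≠ j → H (R.x i) = H (R.x j) → (pos (R.x i) < pos (R.x j) ∧ pos (R.y j) < pos (R.y i)) ∨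
      (pos (R.x j) < pos (R.x i) ∧ pos (R.y i) < pos (R.y j))) (h : ℕ) (T : Set R.I) :
    ∀ c ∈ Ladder_Lb R H pos h T, ρ' c ∈ Ladder_Lb R H pos h T := by
  -- the letter after `x i`
  have hx1 : ∀ i, pos (ρ (R.x i)) = pos (R.x i) + 1 := by
    intro i
    rcases hp _ (R.xE i) with h1 | h1
    · exact h1
    · have h2 := hmax _ (R.xE i) h1 _ (R.yE i) (hxy i).1
      have h3 := (hxy i).2
      omega
  have hx2 : ∀ i, pos (ρ (R.x i)) ≠ pos (R.y i) := by
    intro i h1
    refine R.xy i i (hinj _ (hρ.mem _ (R.xE i)) _ (R.yE i) ?_ h1)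
    rw [hH _ (R.xE i), (hxy i).1]
  rintro (d | d | d) hd
  · obtain ⟨hdE, hdh, hdT⟩ := hd
    by_cases h1 : ∃ i, d = R.x i
    · obtain ⟨i, rfl⟩ := h1
      rw [hsp.atx i]
      exact ⟨i, Relation.ReflTransGen.refl, hdh, hdT⟩
    push Not at h1
    by_cases h2 : ∃ i, ρ d = R.y i
    · obtain ⟨i, hi⟩ := h2
      rw [hsp.aty d hdE i hi]
      have h3 : H d = H (R.x i) := by rw [← hH d hdE, hi, (hxy i).1]
      have h4 : pos (R.y i) = pos d + 1 := by
        rcases hp d hdE with h5 | h5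
        · rw [← hi, h5]
        · have := (hxy i).2
          rw [hi] at h5
          omega
      have h5 : pos (R.x i) ≠ pos d := fun h6 => h1 i (hinj _ hdE _ (R.xE i) h3 h6.symm)
      refine ⟨i, R.fl i, by rw [← h3, hdh], fun j => ?_⟩
      rw [← hdT j]
      by_cases hji : j = i
      · subst hji
        refine ⟨fun _ => ⟨h3.symm, ?_, ?_⟩, fun _ => Or.inr rfl⟩
        · have := (hxy j).2
          omega
        · omega
      · simp only [hji, or_false]
        unfold Rg.enc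
        rw [h3]
        constructor
        · rintro ⟨e1, e2, e3⟩
          refine ⟨e1, ?_, ?_⟩
          · have := (hxy i).2
            omega
          · rcases hnest j i hji e1 with h6 | h6 <;> omega
        · rintro ⟨e1, e2, e3⟩
          have := (hxy i).2
          refine ⟨e1, ?_, ?_⟩
          · rcases hnest j i hji e1 with h6 | h6 <;> omega
          · rcases hnest j i hji e1 with h6 | h6 <;> omega
    push Not at h2
    rw [hsp.old d hdE h1 h2]
    refine ⟨hρ.mem d hdE, by rw [hH d hdE, hdh], fun j => ?_⟩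
    rw [← hdT j]
    unfold Rg.enc
    rw [hH d hdE]
    rcases hp d hdE with h3 | h3
    · rw [h3]
      constructor
      · rintro ⟨e1, e2, e3⟩
        refine ⟨e1, ?_, by omega⟩
        have h5 : pos (R.x j) ≠ pos d := fun h6 => h1 j (hinj _ hdE _ (R.xE j) e1.symm h6.symm)
        omega
      · rintro ⟨e1, e2, e3⟩
        refine ⟨e1, by omega, ?_⟩
        have h5 : pos d + 1 ≠ pos (R.y j) := fun h6 => h2 j (hinj _ (hρ.mem d hdE) _ (R.yE j)
          (by rw [hH d hdE, (hxy j).1, e1]) (by rw [h3, h6]))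
        omega
    · rw [h3]
      constructor
      · rintro ⟨_, e2, _⟩
        omega
      · rintro ⟨e1, e2, e3⟩
        have h5 := hmax d hdE h3 _ (R.yE j) (by rw [(hxy j).1, e1])
        omega
  · obtain ⟨i, hi, hih, hiT⟩ := hd
    rcases h1 : R.K.N d with _ | e
    · have hdG : d ∈ R.G := by
        rcases Relation.ReflTransGen.cases_tail hi with h2 | ⟨b, _, h3⟩
        · rw [h2]
          exact R.fG i
        · exact (R.NG _ _ h3).2.1
      obtain ⟨j, rfl⟩ := (R.Nl d hdG).1 h1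
      have hij : i = j := Ladder_uniq R hi (R.fl j)
      subst hij
      rw [hsp.cpl i]
      refine ⟨R.yE i, by rw [(hxy i).1, hih], fun j => ?_⟩
      rw [← hiT j]
      unfold Rg.enc
      rw [(hxy i).1]
      have h3 := (hxy i).2
      by_cases hji : j = i
      · subst hji
        constructor
        · rintro ⟨_, e2, e3⟩
          omega
        · rintro ⟨_, e2, e3⟩
          omega
      · constructor
        · rintro ⟨e1, e2, e3⟩
          refine ⟨e1, ?_, ?_⟩
          · rcases hnest j i hji e1 with h6 | h6 <;> omega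
          · rcases hnest j i hji e1 with h6 | h6 <;> omega
        · rintro ⟨e1, e2, e3⟩
          refine ⟨e1, ?_, ?_⟩
          · rcases hnest j i hji e1 with h6 | h6 <;> omega
          · rcases hnest j i hji e1 with h6 | h6 <;> omega
    · rw [hsp.cp d e h1]
      exact ⟨i, Relation.ReflTransGen.tail hi h1, hih, hiT⟩
  · obtain ⟨i, hi, hih, hiT⟩ := hd
    rcases Relation.ReflTransGen.cases_tail hi with h2 | ⟨b, h2, h3⟩
    · subst h2
      rw [hsp.ptf i]
      refine ⟨hρ.mem _ (R.xE i), by rw [hH _ (R.xE i), hih], fun j => ?_⟩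
      rw [← hiT j]
      unfold Rg.enc
      rw [hH _ (R.xE i), hx1 i]
      have h3 := (hxy i).2
      have h4 := hx2 i
      rw [hx1 i] at h4
      by_cases hji : j = i
      · subst hji
        constructor
        · intro _
          exact Or.inr rfl
        · intro _
          refine ⟨rfl, by omega, by omega⟩
      · simp only [hji, or_false]
        constructor
        · rintro ⟨e1, e2, e3⟩
          refine ⟨e1, ?_, ?_⟩
          · rcases hnest j i hji e1 with h6 | h6 <;> omega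
          · rcases hnest j i hji e1 with h6 | h6 <;> omega
        · rintro ⟨e1, e2, e3⟩
          refine ⟨e1, by omega, ?_⟩
          rcases hnest j i hji e1 with h6 | h6 <;> omega
    · rw [hsp.pt b d h3]
      exact ⟨i, h2, hih, hiT⟩

private theorem Ladder_count (S : Sf) (E : Set S.D) (ρ : Perm S.D) (R : Rg S E ρ)
    (H pos : S.D → ℕ) (g n : ℕ)
    (hxy : ∀ i, H (R.y i) = H (R.x i) ∧ pos (R.x i) < pos (R.y i))
    (hnest : ∀ i j, i ≠ j → H (R.x i) = H (R.x j) → (pos (R.x i) < pos (R.x j) ∧ pos (R.y j) < pos (R.y i)) ∨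
      (pos (R.x j) < pos (R.x i) ∧ pos (R.y i) < pos (R.y j)))
    (hcell : ∀ d ∈ E, Set.ncard {e | e ∈ E ∧ H e = H d ∧ ∀ i, R.enc H pos i e ↔ R.enc H pos i d} ≤ g)
    (hch : ∀ i, (R.ch i).ncard ≤ n) (h : ℕ) (T : Set R.I) : (Ladder_Lb R H pos h T).ncard ≤ g + 2 * n := by
  have hA : {d | d ∈ E ∧ H d = h ∧ ∀ j, R.enc H pos j d ↔ j ∈ T}.ncard ≤ g := by
    by_cases h1 : ∃ d, d ∈ E ∧ H d = h ∧ ∀ j, R.enc H pos j d ↔ j ∈ T
    · obtain ⟨d, hd1, hd2, hd3⟩ := h1
      refine (Set.ncard_le_ncard ?_ (Set.toFinite _)).trans (hcell d hd1)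
      rintro e ⟨he1, he2, he3⟩
      exact ⟨he1, he2.trans hd2.symm, fun i => (he3 i).trans (hd3 i).symm⟩
    · have h2 : {d | d ∈ E ∧ H d = h ∧ ∀ j, R.enc H pos j d ↔ j ∈ T} = ∅ := by
        ext d
        constructor
        · intro hd
          exact absurd ⟨d, hd⟩ h1
        · intro hd
          exact absurd hd (Set.notMem_empty _)
      rw [h2, Set.ncard_empty]
      exact Nat.zero_le _
  have hB : {d | ∃ i, d ∈ R.ch i ∧ H (R.x i) = h ∧ ∀ j, R.enc H pos j (R.x i) ↔ j ∈ T}.ncard ≤ n := by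
    by_cases h1 : ∃ i, H (R.x i) = h ∧ ∀ j, R.enc H pos j (R.x i) ↔ j ∈ T
    · obtain ⟨i, hi1, hi2⟩ := h1
      refine (Set.ncard_le_ncard ?_ (Set.toFinite _)).trans (hch i)
      rintro d ⟨j, hj0, hj1, hj2⟩
      by_cases hij : i = j
      · rw [hij]
        exact hj0
      · exfalso
        have h3 := (hxy i).2
        have h4 := (hxy j).2
        rcases hnest i j hij (hi1.trans hj1.symm) with h5 | h5
        · have h6 : R.enc H pos i (R.x j) := ⟨hi1.trans hj1.symm, by omega, by omega⟩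
          have h7 := (hi2 i).2 ((hj2 i).1 h6)
          have h8 := h7.2.1
          omega
        · have h6 : R.enc H pos j (R.x i) := ⟨hj1.trans hi1.symm, by omega, by omega⟩
          have h7 := (hj2 j).2 ((hi2 j).1 h6)
          have h8 := h7.2.1
          omega
    · have h2 : {d | ∃ i, d ∈ R.ch i ∧ H (R.x i) = h ∧ ∀ j, R.enc H pos j (R.x i) ↔ j ∈ T} = ∅ := by
        ext d
        constructor
        · rintro ⟨i, _, hi⟩
          exact absurd ⟨i, hi⟩ h1
        · intro hd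
          exact absurd hd (Set.notMem_empty _)
      rw [h2, Set.ncard_empty]
      exact Nat.zero_le _
  have hC : {d | ∃ i, d ∈ R.ch i ∧ H (R.x i) = h ∧ ∀ j, (R.enc H pos j (R.x i) ∨ j = i) ↔ j ∈ T}.ncard ≤ n := by
    by_cases h1 : ∃ i, H (R.x i) = h ∧ ∀ j, (R.enc H pos j (R.x i) ∨ j = i) ↔ j ∈ T
    · obtain ⟨i, hi1, hi2⟩ := h1
      refine (Set.ncard_le_ncard ?_ (Set.toFinite _)).trans (hch i)
      rintro d ⟨j, hj0, hj1, hj2⟩
      by_cases hij : i = j
      · rw [hij]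
        exact hj0
      · exfalso
        have h3 := (hxy i).2
        have h4 := (hxy j).2
        rcases hnest i j hij (hi1.trans hj1.symm) with h5 | h5
        · rcases (hi2 j).2 ((hj2 j).1 (Or.inr rfl)) with h7 | h7
          · have h8 := h7.2.1
            omega
          · exact hij h7.symm
        · rcases (hj2 i).2 ((hi2 i).1 (Or.inr rfl)) with h7 | h7
          · have h8 := h7.2.1
            omega
          · exact hij h7
    · have h2 : {d | ∃ i, d ∈ R.ch i ∧ H (R.x i) = h ∧ ∀ j, (R.enc H pos j (R.x i) ∨ j = i) ↔ j ∈ T} = ∅ := by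
        ext d
        constructor
        · rintro ⟨i, _, hi⟩
          exact absurd ⟨i, hi⟩ h1
        · intro hd
          exact absurd hd (Set.notMem_empty _)
      rw [h2, Set.ncard_empty]
      exact Nat.zero_le _
  have hsub : Ladder_Lb R H pos h T ⊆
      (fun d : S.D => (Sum.inl d : S.D ⊕ (S.D ⊕ S.D))) '' {d | d ∈ E ∧ H d = h ∧ ∀ j, R.enc H pos j d ↔ j ∈ T} ∪
      ((fun d : S.D => (Sum.inr (Sum.inl d) : S.D ⊕ (S.D ⊕ S.D))) ''
        {d | ∃ i, d ∈ R.ch i ∧ H (R.x i) = h ∧ ∀ j, R.enc H pos j (R.x i) ↔ j ∈ T} ∪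
      (fun d : S.D => (Sum.inr (Sum.inr d) : S.D ⊕ (S.D ⊕ S.D))) ''
        {d | ∃ i, d ∈ R.ch i ∧ H (R.x i) = h ∧ ∀ j, (R.enc H pos j (R.x i) ∨ j = i) ↔ j ∈ T}) := by
    rintro (d | d | d) hd
    · exact Or.inl ⟨d, hd, rfl⟩
    · exact Or.inr (Or.inl ⟨d, hd, rfl⟩)
    · exact Or.inr (Or.inr ⟨d, hd, rfl⟩)
  have h1 := Set.ncard_le_ncard hsub (Set.toFinite _)
  have h2 := h1.trans (Set.ncard_union_le _ _)
  have h3 := Set.ncard_union_le ((fun d : S.D => (Sum.inr (Sum.inl d) : S.D ⊕ (S.D ⊕ S.D))) ''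
        {d | ∃ i, d ∈ R.ch i ∧ H (R.x i) = h ∧ ∀ j, R.enc H pos j (R.x i) ↔ j ∈ T})
      ((fun d : S.D => (Sum.inr (Sum.inr d) : S.D ⊕ (S.D ⊕ S.D))) ''
        {d | ∃ i, d ∈ R.ch i ∧ H (R.x i) = h ∧ ∀ j, (R.enc H pos j (R.x i) ∨ j = i) ↔ j ∈ T})
  have h4 := Set.ncard_image_le (f := fun d : S.D => (Sum.inl d : S.D ⊕ (S.D ⊕ S.D)))
    (s := {d | d ∈ E ∧ H d = h ∧ ∀ j, R.enc H pos j d ↔ j ∈ T}) (Set.toFinite _)
  have h5 := Set.ncard_image_le (f := fun d : S.D => (Sum.inr (Sum.inl d) : S.D ⊕ (S.D ⊕ S.D)))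
    (s := {d | ∃ i, d ∈ R.ch i ∧ H (R.x i) = h ∧ ∀ j, R.enc H pos j (R.x i) ↔ j ∈ T}) (Set.toFinite _)
  have h6 := Set.ncard_image_le (f := fun d : S.D => (Sum.inr (Sum.inr d) : S.D ⊕ (S.D ⊕ S.D)))
    (s := {d | ∃ i, d ∈ R.ch i ∧ H (R.x i) = h ∧ ∀ j, (R.enc H pos j (R.x i) ∨ j = i) ↔ j ∈ T}) (Set.toFinite _)
  omega

/-- the lengths of the holes after nested rungs are inserted: `g` bounds the number of old letters of a cell, `n` the
number of letters of a rung -/
theorem ladder_len (S : Sf) (E : Set S.D) (hE : S.Cl E) (hliveE : ∀ d ∈ E, S.a d ≠ d) (ρ : Perm S.D) (hρ : S.FR E ρ)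
    (R : Rg S E ρ) (ρ' : Perm (S.D ⊕ (S.D ⊕ S.D))) (hF : (S.cov R.G R.K).FR R.E' ρ') (hsp : R.Spec ρ')
    (H pos : S.D → ℕ) (g n : ℕ)
    (hH : ∀ d ∈ E, H (ρ d) = H d) (hp : ∀ d ∈ E, pos (ρ d) = pos d + 1 ∨ pos (ρ d) = 0)
    (hinj : ∀ d ∈ E, ∀ e ∈ E, H d = H e → pos d = pos e → d = e)
    (hmax : ∀ d ∈ E, pos (ρ d) = 0 → ∀ e ∈ E, H e = H d → pos e ≤ pos d)
    (hxy : ∀ i, H (R.y i) = H (R.x i) ∧ pos (R.x i) < pos (R.y i))
    (hnest : ∀ i j, i ≠ j → H (R.x i) = H (R.x j) → (pos (R.x i) < pos (R.x j) ∧ pos (R.y j) < pos (R.y i)) ∨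
      (pos (R.x j) < pos (R.x i) ∧ pos (R.y i) < pos (R.y j)))
    (hcell : ∀ d ∈ E, Set.ncard {e | e ∈ E ∧ H e = H d ∧ ∀ i, R.enc H pos i e ↔ R.enc H pos i d} ≤ g)
    (hch : ∀ i, (R.ch i).ncard ≤ n) (e : S.D ⊕ (S.D ⊕ S.D)) :
    ((S.cov R.G R.K).holes R.E' ρ').len e ≤ g + 2 * n := by
  have hfin : Finite (S.D ⊕ (S.D ⊕ S.D)) := Finite.of_fintype _
  by_cases he : e ∈ R.E'
  · -- a label of `e`
    have hlab : ∃ (h : ℕ) (T : Set R.I), e ∈ Ladder_Lb R H pos h T := by
      rcases e with d | d | d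
      · exact ⟨H d, {j | R.enc H pos j d}, he, rfl, fun j => Iff.rfl⟩
      · obtain ⟨i, hi⟩ := R.reach d he
        exact ⟨H (R.x i), {j | R.enc H pos j (R.x i)}, i, hi, rfl, fun j => Iff.rfl⟩
      · obtain ⟨i, hi⟩ := R.reach d he
        exact ⟨H (R.x i), {j | R.enc H pos j (R.x i) ∨ j = i}, i, hi, rfl, fun j => Iff.rfl⟩
    obtain ⟨h, T, hT⟩ := hlab
    refine le_trans (Set.ncard_le_ncard ?_ (Set.toFinite _)) (Ladder_count S E ρ R H pos g n hxy hnest hcell hch h T)
    rintro c ⟨hc, _⟩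
    exact Ladder_same (Ladder_inv S E ρ hρ R ρ' hsp H pos hH hp hinj hmax hxy hnest h T) hT hc
  · -- `e` is dead and alone in its word
    have h1 : ρ' e = e := hF.off e he
    have h2 : ((S.cov R.G R.K).holes R.E' ρ').word e ∩ ((S.cov R.G R.K).holes R.E' ρ').live = ∅ := by
      ext c
      constructor
      · rintro ⟨hc1, hc2⟩
        have hc3 : c ∈ ({e} : Set (S.D ⊕ (S.D ⊕ S.D))) :=
          Ladder_same (s := ρ') (Z := {e}) (fun x hx => by
            rw [Set.mem_singleton_iff] at hx ⊢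
            rw [hx, h1]) rfl hc1
        have hc4 : c = e := hc3
        rw [hc4] at hc2
        exfalso
        apply hc2
        -- partner outside of the walls
        have h3 : (S.cov R.G R.K).a e ∉ R.E' := by
          intro h4
          apply he
          rcases e with d | d | d
          · have h5 := hE _ (show S.a d ∈ E from h4)
            rw [S.aa] at h5
            exact h5
          · by_contra h6
            have h7 : (S.cov R.G R.K).a (Sum.inr (Sum.inl d)) = Sum.inr (Sum.inl d) := by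
              show ac R.G S.a (Sum.inr (Sum.inl d)) = _
              simp only [ac]
              rw [if_neg (show d ∉ R.G from h6)]
            rw [h7] at h4
            exact h6 h4
          · by_contra h6
            have h7 : (S.cov R.G R.K).a (Sum.inr (Sum.inr d)) = Sum.inr (Sum.inr d) := by
              show ac R.G S.a (Sum.inr (Sum.inr d)) = _
              simp only [ac]
              rw [if_neg (show d ∉ R.G from h6)]
            rw [h7] at h4
            exact h6 h4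
        show (S.cov R.G R.K).a ((S.cov R.G R.K).beta R.E'ᶜ e) = e
        have h5 : (S.cov R.G R.K).beta R.E'ᶜ e = (S.cov R.G R.K).a e :=
          (S.cov R.G R.K).betaFun_pos ⟨he, h3⟩
        rw [h5, (S.cov R.G R.K).aa]
      · intro hc
        exact absurd hc (Set.notMem_empty _)
    have h3 : ((S.cov R.G R.K).holes R.E' ρ').len e = 0 := by
      unfold Sf.len Sf.num
      rw [h2, Set.ncard_empty]
    rw [h3]
    exact Nat.zero_le _

end Pool.Agent.GW
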