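import Pool.Agent.GW.Mix

/-!
# GW.Law: walks with prescribed ends

PROOF.  `μ x z γ` = product of the kernels along `γ` divided by `kerN t x z` if `γ 0 = x`, `γ t = z`, else `0`.  The sum of the
products over `γ` with `γ 0 = x`, `γ s = v`, `γ t = z` is `kerN s x v * kerN (t - s) v z`; by `mixing` the left side of the last
claim is at most `2 ∑_{x,z} pi x * kerN s x v * kerN (t-s) v z = 2 ∑_x pi x * kerN s x v = 2 pi v` (stationarity).
-/

set_option autoImplicit false

namespace Pool.Agent.GW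

open Finset

namespace WG

variable {V : Type} [Fintype V] [DecidableEq V] (G : WG V)

/-- product of the kernels along a walk -/
private noncomputable def lw_pr (t : ℕ) (γ : Fin (t + 1) → V) : ℝ := ∏ i : Fin t, G.ker (γ i.castSucc) (γ i.succ)

private theorem lw_pr_cons (t : ℕ) (y : V) (γ : Fin (t + 1) → V) :
    G.lw_pr (t + 1) (Fin.cons y γ : Fin (t + 2) → V) = G.ker y (γ 0) * G.lw_pr t γ := by
  unfold lw_pr
  rw [Fin.prod_univ_succ]
  have h1 : ∀ i : Fin t, (Fin.cons y γ : Fin (t + 2) → V) (Fin.succ i).castSucc = γ i.castSucc := by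
    intro i
    rw [← Fin.succ_castSucc, Fin.cons_succ]
  simp only [h1, Fin.cons_succ]
  rfl

omit [DecidableEq V] in
private theorem lw_sum (t : ℕ) (f : (Fin (t + 2) → V) → ℝ) :
    ∑ γ, f γ = ∑ y, ∑ γ : Fin (t + 1) → V, f (Fin.cons y γ : Fin (t + 2) → V) := by
  rw [← Fintype.sum_prod_type' (f := fun (y : V) (γ : Fin (t + 1) → V) => f (Fin.cons y γ : Fin (t + 2) → V))]
  exact (Fintype.sum_equiv (Fin.consEquiv (fun _ => V)) _ _ (fun _ => rfl)).symm

private theorem lw_step (t : ℕ) (x : V) (h : (Fin (t + 1) → V) → ℝ) :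
    ∑ γ : Fin (t + 2) → V, (if γ 0 = x then G.lw_pr (t + 1) γ * h (fun i => γ i.succ) else 0) =
      ∑ w, G.ker x w * ∑ γ : Fin (t + 1) → V, (if γ 0 = w then G.lw_pr t γ * h γ else 0) := by
  rw [lw_sum]
  have h1 : ∀ y, ∑ γ : Fin (t + 1) → V, (if (Fin.cons y γ : Fin (t + 2) → V) 0 = x then
      G.lw_pr (t + 1) (Fin.cons y γ : Fin (t + 2) → V) *
        h (fun i => (Fin.cons y γ : Fin (t + 2) → V) i.succ) else 0) =
      if y = x then ∑ γ : Fin (t + 1) → V, G.ker x (γ 0) * G.lw_pr t γ * h γ else 0 := by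
    intro y
    by_cases hy : y = x
    · rw [if_pos hy]
      refine sum_congr rfl fun γ _ => ?_
      rw [lw_pr_cons, Fin.cons_zero, if_pos hy, hy]
      simp only [Fin.cons_succ]
    · rw [if_neg hy]
      refine sum_eq_zero fun γ _ => ?_
      rw [Fin.cons_zero, if_neg hy]
  rw [sum_congr rfl fun y _ => h1 y, sum_ite_eq' univ x, if_pos (mem_univ x)]
  have h2 : ∀ w, G.ker x w * ∑ γ : Fin (t + 1) → V, (if γ 0 = w then G.lw_pr t γ * h γ else 0) =
      ∑ γ : Fin (t + 1) → V, (if γ 0 = w then G.ker x (γ 0) * G.lw_pr t γ * h γ else 0) := by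
    intro w
    rw [mul_sum]
    refine sum_congr rfl fun γ _ => ?_
    by_cases hw : γ 0 = w
    · rw [if_pos hw, if_pos hw, hw, mul_assoc]
    · rw [if_neg hw, if_neg hw, mul_zero]
  rw [sum_congr rfl fun w _ => h2 w, sum_comm]
  refine sum_congr rfl fun γ _ => ?_
  rw [sum_ite_eq, if_pos (mem_univ _)]

private theorem lw_A : ∀ (t : ℕ) (x z : V),
    ∑ γ : Fin (t + 1) → V, (if γ 0 = x then G.lw_pr t γ * (if γ (Fin.last t) = z then 1 else 0) else 0) =
      G.kerN t x z := by
  intro t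
  induction t with
  | zero =>
    intro x z
    have h1 : ∑ γ : Fin (0 + 1) → V, (if γ 0 = x then G.lw_pr 0 γ * (if γ (Fin.last 0) = z then 1 else 0) else 0)
        = ∑ y : V, (if y = x then (if y = z then (1 : ℝ) else 0) else 0) := by
      refine Fintype.sum_equiv (Equiv.funUnique (Fin 1) V) _ _ (fun γ => ?_)
      have h2 : G.lw_pr 0 γ = 1 := by unfold lw_pr; simp
      rw [h2, one_mul]
      rfl
    rw [h1, sum_ite_eq' univ x, if_pos (mem_univ x), kerN_zero]
  | succ t ih =>
    intro x z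
    have h := G.lw_step t x (fun γ => if γ (Fin.last t) = z then 1 else 0)
    simp only [Fin.succ_last] at h
    rw [h, kerN_succ]
    exact sum_congr rfl fun w _ => by rw [ih w z]

private theorem lw_B : ∀ (t : ℕ) (s : Fin (t + 1)) (x v z : V),
    ∑ γ : Fin (t + 1) → V, (if γ 0 = x then
      G.lw_pr t γ * (if γ s = v ∧ γ (Fin.last t) = z then 1 else 0) else 0) =
      G.kerN s x v * G.kerN (t - s) v z := by
  intro t
  induction t with
  | zero =>
    intro s x v z
    have hs : s = 0 := Fin.fin_one_eq_zero s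
    subst hs
    by_cases hxv : x = v
    · subst hxv
      have h := G.lw_A 0 x z
      have e : G.kerN ((0 : Fin (0 + 1)) : ℕ) x x = 1 := by
        show G.kerN 0 x x = 1
        rw [kerN_zero, if_pos rfl]
      rw [e, one_mul]
      show _ = G.kerN 0 x z
      rw [← h]
      refine sum_congr rfl fun γ _ => ?_
      by_cases h0 : γ 0 = x
      · simp only [h0, if_true, true_and]
      · rw [if_neg h0, if_neg h0]
    · have e : G.kerN ((0 : Fin (0 + 1)) : ℕ) x v = 0 := by
        show G.kerN 0 x v = 0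
        rw [kerN_zero, if_neg hxv]
      rw [e, zero_mul]
      refine sum_eq_zero fun γ _ => ?_
      by_cases h0 : γ 0 = x
      · have h1 : ¬ (γ 0 = v ∧ γ (Fin.last 0) = z) := fun h => hxv (h0.symm.trans h.1)
        rw [if_pos h0, if_neg h1, mul_zero]
      · rw [if_neg h0]
  | succ t ih =>
    intro s x v z
    refine Fin.cases ?_ (fun s' => ?_) s
    · by_cases hxv : x = v
      · subst hxv
        have h := G.lw_A (t + 1) x z
        have e : G.kerN ((0 : Fin (t + 1 + 1)) : ℕ) x x = 1 := by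
          show G.kerN 0 x x = 1
          rw [kerN_zero, if_pos rfl]
        rw [e, one_mul]
        show _ = G.kerN (t + 1) x z
        rw [← h]
        refine sum_congr rfl fun γ _ => ?_
        by_cases h0 : γ 0 = x
        · simp only [h0, if_true, true_and]
        · rw [if_neg h0, if_neg h0]
      · have e : G.kerN ((0 : Fin (t + 1 + 1)) : ℕ) x v = 0 := by
          show G.kerN 0 x v = 0
          rw [kerN_zero, if_neg hxv]
        rw [e, zero_mul]
        refine sum_eq_zero fun γ _ => ?_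
        by_cases h0 : γ 0 = x
        · have h1 : ¬ (γ 0 = v ∧ γ (Fin.last (t + 1)) = z) := fun h => hxv (h0.symm.trans h.1)
          rw [if_pos h0, if_neg h1, mul_zero]
        · rw [if_neg h0]
    · have h := G.lw_step t x (fun γ => if γ s' = v ∧ γ (Fin.last t) = z then 1 else 0)
      simp only [Fin.succ_last] at h
      rw [h]
      have e1 : ((s'.succ : Fin (t + 1 + 1)) : ℕ) = (s' : ℕ) + 1 := Fin.val_succ s'
      have e2 : t + 1 - ((s' : ℕ) + 1) = t - (s' : ℕ) := by omega
      rw [e1, e2, kerN_succ, sum_mul]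
      refine sum_congr rfl fun w _ => ?_
      rw [ih s' w v z, mul_assoc]

open Classical in
theorem walk_law {ψ : ℝ} (h0 : 0 < ψ) (h1 : ψ ≤ 1) (hC : G.Cond ψ) (hom : ∀ x, 1 ≤ G.om x) {t : ℕ}
    (ht : 8 * Real.log (2 * G.vol univ) ≤ ψ ^ 2 * t) :
    ∃ μ : V → V → (Fin (t + 1) → V) → ℝ,
      (∀ x z γ, 0 ≤ μ x z γ) ∧ (∀ x z, ∑ γ, μ x z γ = 1) ∧
      (∀ x z γ, μ x z γ ≠ 0 → γ 0 = x ∧ γ (Fin.last t) = z ∧
        ∀ i : Fin t, γ i.castSucc = γ i.succ ∨ G.Adj (γ i.castSucc) (γ i.succ)) ∧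
      ∀ (s : Fin (t + 1)) (v : V),
        ∑ x, ∑ z, G.pi x * G.pi z * ∑ γ ∈ univ.filter (fun γ => γ s = v), μ x z γ ≤ 2 * G.pi v := by
  have homp : ∀ x, 0 < G.om x := fun x => lt_of_lt_of_le one_pos (hom x)
  have hlow : ∀ x z, G.pi z / 2 ≤ G.kerN t x z := fun x z => G.mix_low hom h0.le h1 hC ht x z
  have hpi : ∀ z, 0 < G.pi z := by
    intro z
    refine div_pos (homp z) ?_
    exact lt_of_lt_of_le (homp z) (single_le_sum (f := fun x => G.om x) (fun x _ => G.om_nonneg x) (mem_univ z))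
  have hker : ∀ x z, 0 < G.kerN t x z := fun x z => lt_of_lt_of_le (by have := hpi z; linarith) (hlow x z)
  have hpr : ∀ γ, 0 ≤ G.lw_pr t γ := fun γ => prod_nonneg fun i _ => G.ker_nonneg _ _
  have hform : ∀ (x z : V) (γ : Fin (t + 1) → V),
      (if γ 0 = x ∧ γ (Fin.last t) = z then G.lw_pr t γ / G.kerN t x z else 0) =
        (if γ 0 = x then G.lw_pr t γ * (if γ (Fin.last t) = z then 1 else 0) else 0) / G.kerN t x z := by
    intro x z γ
    by_cases h2 : γ 0 = x <;> by_cases h3 : γ (Fin.last t) = z <;> simp [h2, h3]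
  refine ⟨fun x z γ => if γ 0 = x ∧ γ (Fin.last t) = z then G.lw_pr t γ / G.kerN t x z else 0, ?_, ?_, ?_, ?_⟩
  · intro x z γ
    show 0 ≤ (if γ 0 = x ∧ γ (Fin.last t) = z then G.lw_pr t γ / G.kerN t x z else 0)
    split_ifs
    · exact div_nonneg (hpr γ) (hker x z).le
    · exact le_rfl
  · intro x z
    show ∑ γ : Fin (t + 1) → V, (if γ 0 = x ∧ γ (Fin.last t) = z then G.lw_pr t γ / G.kerN t x z else 0) = 1
    rw [sum_congr rfl fun γ _ => hform x z γ, ← sum_div]
    have h2 := G.lw_A t x z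
    have h3 : ∑ γ : Fin (t + 1) → V, (if γ 0 = x then G.lw_pr t γ * (if γ (Fin.last t) = z then 1 else 0) else 0) =
      G.kerN t x z := by
      rw [← h2]
    rw [h3]
    exact div_self (hker x z).ne'
  · intro x z γ hγ
    have hγ' : (if γ 0 = x ∧ γ (Fin.last t) = z then G.lw_pr t γ / G.kerN t x z else 0) ≠ 0 := hγ
    have h2 : γ 0 = x ∧ γ (Fin.last t) = z := by
      by_contra hc
      exact hγ' (if_neg hc)
    rw [if_pos h2] at hγ'
    have h3 : G.lw_pr t γ ≠ 0 := fun h => hγ' (by rw [h, zero_div])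
    refine ⟨h2.1, h2.2, fun i => ?_⟩
    by_cases he : γ i.castSucc = γ i.succ
    · exact Or.inl he
    · right
      refine ⟨he, ?_⟩
      have h4 : G.ker (γ i.castSucc) (γ i.succ) ≠ 0 := by
        intro h5
        exact h3 (prod_eq_zero (mem_univ i) h5)
      unfold ker at h4
      rw [if_neg he, zero_add] at h4
      have h5 : G.w (γ i.castSucc) (γ i.succ) ≠ 0 := fun h => h4 (by rw [h, zero_div])
      exact lt_of_le_of_ne (G.nonneg _ _) h5.symm
  · intro s v
    have h2 : ∀ x z, ∑ γ ∈ univ.filter (fun γ : Fin (t + 1) → V => γ s = v),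
        (if γ 0 = x ∧ γ (Fin.last t) = z then G.lw_pr t γ / G.kerN t x z else 0) =
        G.kerN s x v * G.kerN (t - s) v z / G.kerN t x z := by
      intro x z
      rw [← G.lw_B t s x v z, sum_div, sum_filter]
      refine sum_congr rfl fun γ _ => ?_
      by_cases h3 : γ s = v <;> by_cases h4 : γ 0 = x <;> by_cases h5 : γ (Fin.last t) = z <;>
        simp [h3, h4, h5]
    have h3 : ∀ x z, G.pi x * G.pi z * ∑ γ ∈ univ.filter (fun γ : Fin (t + 1) → V => γ s = v),
        (if γ 0 = x ∧ γ (Fin.last t) = z then G.lw_pr t γ / G.kerN t x z else 0) ≤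
        2 * (G.pi x * G.kerN s x v) * G.kerN (t - s) v z := by
      intro x z
      rw [h2]
      have h4 : G.pi z / G.kerN t x z ≤ 2 := by
        rw [div_le_iff₀ (hker x z)]
        have := hlow x z
        linarith
      have h5 : 0 ≤ G.pi x * (G.kerN s x v * G.kerN (t - s) v z) :=
        mul_nonneg (G.pi_nonneg x) (mul_nonneg (G.kerN_nonneg _ _ _) (G.kerN_nonneg _ _ _))
      calc G.pi x * G.pi z * (G.kerN s x v * G.kerN (t - s) v z / G.kerN t x z)
          = (G.pi z / G.kerN t x z) * (G.pi x * (G.kerN s x v * G.kerN (t - s) v z)) := by ring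
        _ ≤ 2 * (G.pi x * (G.kerN s x v * G.kerN (t - s) v z)) := mul_le_mul_of_nonneg_right h4 h5
        _ = 2 * (G.pi x * G.kerN s x v) * G.kerN (t - s) v z := by ring
    refine (sum_le_sum fun x _ => sum_le_sum fun z _ => h3 x z).trans (le_of_eq ?_)
    have h4 : ∀ x, ∑ z, 2 * (G.pi x * G.kerN s x v) * G.kerN (t - s) v z = 2 * (G.pi x * G.kerN s x v) := by
      intro x
      rw [← mul_sum, G.kerN_sum homp, mul_one]
    rw [sum_congr rfl fun x _ => h4 x, ← mul_sum, G.pi_stat homp]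

end WG

end Pool.Agent.GW
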