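import Pool.Agent.GW.Dual

/-!
# GW/LayDef (helper90): the layered surface: definitions (MP_37d33d_gt, assembly of T1)

`S` closed, `pos d` = position of the letter `d` in its word (`Pos`). `S.lay pos K`: letters `(d, i)`, `i = 0, .., 2 K`. The letters
`(d, 2 K)` form the core words (copies of the words of `S`). For `l < K` the letters `(d, 2 l)`, `(d, 2 l + 1)` form the words of layer `l`: for
every block `x_1 .. x_k` of consecutive letters with the same value of `pos / 2 ^ l` one word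
`(x_1, 2 l) .. (x_k, 2 l) (x_k, 2 l + 1) .. (x_1, 2 l + 1)`. Partners: `(d, 0)` and `(a d, 0)`; `(d, 2 l + 1)` and `(d, 2 l + 2)`.
`S.lay pos 0` is `S`, `S.lay pos (K + 1)` is the cover of `S.lay pos K` at its core letters, joined inside the blocks of layer `K`.
-/

set_option autoImplicit false

namespace Pool.Agent.GW

open Equiv Pool.Agent.SWP

/-- positions of the letters in their words; `b d` is the first letter of the word of `d` -/
structure Pos (S : Sf) (pos : S.D → ℕ) (b : S.D → S.D) : Prop where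
  same : ∀ d, S.r.SameCycle (b d) d
  const : ∀ d e, S.r.SameCycle d e → b d = b e
  pw : ∀ d, (S.r ^ pos d) (b d) = d
  lt : ∀ d, pos d < (S.word d).ncard
  idx : ∀ d k, k < (S.word d).ncard → pos ((S.r ^ k) (b d)) = k

section

variable {D : Type}

/-- `d` and `r d` are joined in layer `l` -/
def jn (r : Perm D) (pos : D → ℕ) (l : ℕ) (d : D) : Prop := pos (r d) = pos d + 1 ∧ pos (r d) / 2 ^ l = pos d / 2 ^ l

open Classical in
/-- next letter -/
noncomputable def layF (r : Perm D) (pos : D → ℕ) (K : ℕ) (c : D × Fin (2 * K + 1)) : D × Fin (2 * K + 1) :=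
  if h : (c.2 : ℕ) = 2 * K then (r c.1, c.2)
  else if h2 : (c.2 : ℕ) % 2 = 0 then
    (if jn r pos (c.2 / 2) c.1 then (r c.1, c.2) else (c.1, ⟨c.2 + 1, by have := c.2.isLt; omega⟩))
  else (if jn r pos (c.2 / 2) (r.symm c.1) then (r.symm c.1, c.2) else (c.1, ⟨c.2 - 1, by have := c.2.isLt; omega⟩))

open Classical in
/-- previous letter -/
noncomputable def layG (r : Perm D) (pos : D → ℕ) (K : ℕ) (c : D × Fin (2 * K + 1)) : D × Fin (2 * K + 1) :=
  if h : (c.2 : ℕ) = 2 * K then (r.symm c.1, c.2)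
  else if h2 : (c.2 : ℕ) % 2 = 0 then
    (if jn r pos (c.2 / 2) (r.symm c.1) then (r.symm c.1, c.2)
      else (c.1, ⟨c.2 + 1, by have := c.2.isLt; omega⟩))
  else (if jn r pos (c.2 / 2) c.1 then (r c.1, c.2) else (c.1, ⟨c.2 - 1, by have := c.2.isLt; omega⟩))

theorem layF_core (r : Perm D) (pos : D → ℕ) (K : ℕ) (d : D) (i : Fin (2 * K + 1)) (h : (i : ℕ) = 2 * K) :
    layF r pos K (d, i) = (r d, i) := by
  simp only [layF, h, dif_pos]

theorem layF_even_join (r : Perm D) (pos : D → ℕ) (K : ℕ) (d : D) (i : Fin (2 * K + 1)) (h : (i : ℕ) ≠ 2 * K)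
    (h2 : (i : ℕ) % 2 = 0) (hj : jn r pos (i / 2) d) : layF r pos K (d, i) = (r d, i) := by
  simp only [layF, dif_neg h, dif_pos h2, if_pos hj]

theorem layF_even_end (r : Perm D) (pos : D → ℕ) (K : ℕ) (d : D) (i i' : Fin (2 * K + 1)) (h : (i : ℕ) ≠ 2 * K)
    (h2 : (i : ℕ) % 2 = 0) (hj : ¬ jn r pos (i / 2) d) (hi : (i' : ℕ) = i + 1) : layF r pos K (d, i) = (d, i') := by
  simp only [layF, dif_neg h, dif_pos h2, if_neg hj]
  congr 1
  exact Fin.ext hi.symm

theorem layF_odd_join (r : Perm D) (pos : D → ℕ) (K : ℕ) (d : D) (i : Fin (2 * K + 1))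
    (h2 : (i : ℕ) % 2 = 1) (hj : jn r pos (i / 2) (r.symm d)) : layF r pos K (d, i) = (r.symm d, i) := by
  have h : (i : ℕ) ≠ 2 * K := by omega
  have h3 : ¬ (i : ℕ) % 2 = 0 := by omega
  simp only [layF, dif_neg h, dif_neg h3, if_pos hj]

theorem layF_odd_end (r : Perm D) (pos : D → ℕ) (K : ℕ) (d : D) (i i' : Fin (2 * K + 1))
    (h2 : (i : ℕ) % 2 = 1) (hj : ¬ jn r pos (i / 2) (r.symm d)) (hi : (i' : ℕ) + 1 = i) :
    layF r pos K (d, i) = (d, i') := by
  have h : (i : ℕ) ≠ 2 * K := by omega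
  have h3 : ¬ (i : ℕ) % 2 = 0 := by omega
  simp only [layF, dif_neg h, dif_neg h3, if_neg hj]
  congr 1
  exact Fin.ext (show (i : ℕ) - 1 = i' by omega)

theorem layG_core (r : Perm D) (pos : D → ℕ) (K : ℕ) (d : D) (i : Fin (2 * K + 1)) (h : (i : ℕ) = 2 * K) :
    layG r pos K (d, i) = (r.symm d, i) := by
  simp only [layG, h, dif_pos]

theorem layG_even_join (r : Perm D) (pos : D → ℕ) (K : ℕ) (d : D) (i : Fin (2 * K + 1)) (h : (i : ℕ) ≠ 2 * K)
    (h2 : (i : ℕ) % 2 = 0) (hj : jn r pos (i / 2) (r.symm d)) : layG r pos K (d, i) = (r.symm d, i) := by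
  simp only [layG, dif_neg h, dif_pos h2, if_pos hj]

theorem layG_even_end (r : Perm D) (pos : D → ℕ) (K : ℕ) (d : D) (i i' : Fin (2 * K + 1)) (h : (i : ℕ) ≠ 2 * K)
    (h2 : (i : ℕ) % 2 = 0) (hj : ¬ jn r pos (i / 2) (r.symm d)) (hi : (i' : ℕ) = i + 1) :
    layG r pos K (d, i) = (d, i') := by
  simp only [layG, dif_neg h, dif_pos h2, if_neg hj]
  congr 1
  exact Fin.ext hi.symm

theorem layG_odd_join (r : Perm D) (pos : D → ℕ) (K : ℕ) (d : D) (i : Fin (2 * K + 1))
    (h2 : (i : ℕ) % 2 = 1) (hj : jn r pos (i / 2) d) : layG r pos K (d, i) = (r d, i) := by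
  have h : (i : ℕ) ≠ 2 * K := by omega
  have h3 : ¬ (i : ℕ) % 2 = 0 := by omega
  simp only [layG, dif_neg h, dif_neg h3, if_pos hj]

theorem layG_odd_end (r : Perm D) (pos : D → ℕ) (K : ℕ) (d : D) (i i' : Fin (2 * K + 1))
    (h2 : (i : ℕ) % 2 = 1) (hj : ¬ jn r pos (i / 2) d) (hi : (i' : ℕ) + 1 = i) :
    layG r pos K (d, i) = (d, i') := by
  have h : (i : ℕ) ≠ 2 * K := by omega
  have h3 : ¬ (i : ℕ) % 2 = 0 := by omega
  simp only [layG, dif_neg h, dif_neg h3, if_neg hj]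
  congr 1
  exact Fin.ext (show (i : ℕ) - 1 = i' by omega)

theorem layG_layF (r : Perm D) (pos : D → ℕ) (K : ℕ) (c : D × Fin (2 * K + 1)) :
    layG r pos K (layF r pos K c) = c := by
  obtain ⟨d, i⟩ := c
  by_cases h : (i : ℕ) = 2 * K
  · rw [layF_core r pos K d i h, layG_core r pos K _ i h, Equiv.symm_apply_apply]
  · have hlt := i.isLt
    by_cases h2 : (i : ℕ) % 2 = 0
    · by_cases hj : jn r pos (i / 2) d
      · rw [layF_even_join r pos K d i h h2 hj,
          layG_even_join r pos K _ i h h2 (by rw [Equiv.symm_apply_apply]; exact hj), Equiv.symm_apply_apply]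
      · rw [layF_even_end r pos K d i ⟨i + 1, by omega⟩ h h2 hj rfl]
        refine layG_odd_end r pos K d _ i (show ((i : ℕ) + 1) % 2 = 1 by omega) ?_ rfl
        show ¬ jn r pos (((i : ℕ) + 1) / 2) d
        have h5 : ((i : ℕ) + 1) / 2 = i / 2 := by omega
        rw [h5]; exact hj
    · have h2' : (i : ℕ) % 2 = 1 := by omega
      by_cases hj : jn r pos (i / 2) (r.symm d)
      · rw [layF_odd_join r pos K d i h2' hj, layG_odd_join r pos K _ i h2' hj, Equiv.apply_symm_apply]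
      · have h6 : (i : ℕ) - 1 + 1 = i := by omega
        rw [layF_odd_end r pos K d i ⟨i - 1, by omega⟩ h2' hj h6]
        refine layG_even_end r pos K d _ i (show ((i : ℕ) - 1) ≠ 2 * K by omega)
          (show ((i : ℕ) - 1) % 2 = 0 by omega) ?_ h6.symm
        show ¬ jn r pos (((i : ℕ) - 1) / 2) (r.symm d)
        have h5 : ((i : ℕ) - 1) / 2 = i / 2 := by omega
        rw [h5]; exact hj

/-- partner -/
def layA (a : Perm D) (K : ℕ) (c : D × Fin (2 * K + 1)) : D × Fin (2 * K + 1) :=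
  if (c.2 : ℕ) = 0 then (a c.1, c.2)
  else if h2 : (c.2 : ℕ) % 2 = 1 then (c.1, ⟨c.2 + 1, by have := c.2.isLt; omega⟩)
  else (c.1, ⟨c.2 - 1, by have := c.2.isLt; omega⟩)

theorem layA_zero (a : Perm D) (K : ℕ) (d : D) (i : Fin (2 * K + 1)) (h : (i : ℕ) = 0) :
    layA a K (d, i) = (a d, i) := by
  simp only [layA, h, if_true]

theorem layA_odd (a : Perm D) (K : ℕ) (d : D) (i i' : Fin (2 * K + 1)) (h : (i : ℕ) % 2 = 1)
    (hi : (i' : ℕ) = i + 1) : layA a K (d, i) = (d, i') := by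
  have h0 : (i : ℕ) ≠ 0 := by omega
  simp only [layA, if_neg h0, dif_pos h]
  congr 1
  exact Fin.ext hi.symm

theorem layA_even (a : Perm D) (K : ℕ) (d : D) (i i' : Fin (2 * K + 1)) (h : (i : ℕ) % 2 = 0)
    (hi : (i' : ℕ) + 1 = i) : layA a K (d, i) = (d, i') := by
  have h0 : (i : ℕ) ≠ 0 := by omega
  have h1 : ¬ (i : ℕ) % 2 = 1 := by omega
  simp only [layA, if_neg h0, dif_neg h1]
  congr 1
  exact Fin.ext (show (i : ℕ) - 1 = i' by omega)

theorem layA_inv (a : Perm D) (ha : ∀ d, a (a d) = d) (K : ℕ) : Function.Involutive (layA a K) := by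
  rintro ⟨d, i⟩
  have hlt := i.isLt
  by_cases h : (i : ℕ) = 0
  · rw [layA_zero a K d i h, layA_zero a K _ i h, ha]
  · by_cases h2 : (i : ℕ) % 2 = 1
    · rw [layA_odd a K d i ⟨i + 1, by omega⟩ h2 rfl]
      exact layA_even a K d _ i (show ((i : ℕ) + 1) % 2 = 0 by omega) rfl
    · have h2' : (i : ℕ) % 2 = 0 := by omega
      have h6 : (i : ℕ) - 1 + 1 = i := by omega
      rw [layA_even a K d i ⟨i - 1, by omega⟩ h2' h6]
      exact layA_odd a K d _ i (show ((i : ℕ) - 1) % 2 = 1 by omega) h6.symm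

end

/-- the layered surface -/
noncomputable def Sf.lay (S : Sf) (pos : S.D → ℕ) (K : ℕ) : Sf where
  D := S.D × Fin (2 * K + 1)
  fD := inferInstance
  r := Equiv.ofBijective (layF S.r pos K)
    (Finite.injective_iff_bijective.1 (Function.LeftInverse.injective (layG_layF S.r pos K)))
  a := (layA_inv S.a S.aa K).toPerm
  aa := layA_inv S.a S.aa K

theorem lay_r (S : Sf) (pos : S.D → ℕ) (K : ℕ) (c : S.D × Fin (2 * K + 1)) :
    (S.lay pos K).r c = layF S.r pos K c := rfl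

theorem lay_a (S : Sf) (pos : S.D → ℕ) (K : ℕ) (c : S.D × Fin (2 * K + 1)) :
    (S.lay pos K).a c = layA S.a K c := rfl

/-- the node of layer `l` which carries the copies of the letter `d`; `l = K`: the core -/
noncomputable def Sf.nd (S : Sf) (pos : S.D → ℕ) (K : ℕ) (d : S.D) (l : ℕ) : (S.lay pos K).Wd :=
  (S.lay pos K).wd ((d, ⟨min (2 * l) (2 * K), by omega⟩) : S.D × Fin (2 * K + 1))

end Pool.Agent.GW
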