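import Pool.Agent.GW.LayW

/-!
# GW/LayDual: the dual graph of the layered surface (row 405, T1FIN)

PROOF. `lay_dual`: count the letters `(d, i)` of `S.lay pos K` by `i`: `i = 0` gives the first term, `i = 2 l + 1` (partner `(d, 2 l + 2)`) and
`i = 2 l + 2` (partner `(d, 2 l + 1)`) the two terms of `l` (`wd_lay`).
`lay_deg`: a node of layer `l < K` has at most one neighbour in layer `l + 1` (the block of layer `l + 1` is determined by the block of
layer `l`; for `l + 1 = K` it is the core), and for `l > 0` at most two neighbours in layer `l - 1` (two blocks of layer `l - 1`), for `l = 0` only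
one letter: the neighbour `nd (a d) 0`. The core has at most two blocks of layer `K - 1` because all positions are `< 2 ^ K`; for `K = 0` its
word has one letter.
-/

set_option autoImplicit false

namespace Pool.Agent.GW

open Equiv Pool.Agent.SWP

variable {S : Sf} {pos : S.D → ℕ} {b : S.D → S.D}

theorem LayDual_range (G : ℕ → ℝ) (K : ℕ) : ∑ i ∈ Finset.range (2 * K + 1), G i =
    G 0 + ∑ l ∈ Finset.range K, (G (2 * l + 1) + G (2 * l + 2)) := by
  induction K with
  | zero => simp
  | succ K ih =>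
    rw [show 2 * (K + 1) + 1 = (2 * K + 1) + 1 + 1 by ring, Finset.sum_range_succ, Finset.sum_range_succ, ih,
      Finset.sum_range_succ]
    ring

theorem LayDual_nc {Z : Type} [Fintype Z] (p : Z → Prop) [DecidablePred p] :
    Set.ncard {z | p z} = (Finset.univ.filter p).card := by
  rw [← Set.ncard_coe_finset]
  congr 1
  ext z
  simp

/-- the node of the partner of `(d, i)` -/
noncomputable def LayDual_p (S : Sf) (pos : S.D → ℕ) (K : ℕ) (d : S.D) (i : ℕ) : (S.lay pos K).Wd :=
  if i = 0 then S.nd pos K (S.a d) 0 else if i % 2 = 1 then S.nd pos K d ((i + 1) / 2) else S.nd pos K d ((i - 1) / 2)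

theorem LayDual_a (hp : Pos S pos b) (K : ℕ) (d : S.D) (i : Fin (2 * K + 1)) :
    (S.lay pos K).wd ((S.lay pos K).a (d, i)) = LayDual_p S pos K d i := by
  have hlt := i.isLt
  unfold LayDual_p
  split_ifs with h1 h2
  · have e1 : (S.lay pos K).a (d, i) = (S.a d, i) := layA_zero S.a K d i h1
    rw [e1, wd_lay hp]
    show S.nd pos K (S.a d) ((i : ℕ) / 2) = _
    rw [h1]
  · have e1 : (S.lay pos K).a (d, i) = (d, (⟨i + 1, by omega⟩ : Fin (2 * K + 1))) := layA_odd S.a K d i _ h2 rfl
    rw [e1, wd_lay hp]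
  · have e1 : (S.lay pos K).a (d, i) = (d, (⟨i - 1, by omega⟩ : Fin (2 * K + 1))) :=
      layA_even S.a K d i _ (by omega) (by show (i : ℕ) - 1 + 1 = i; omega)
    rw [e1, wd_lay hp]

open Classical in
theorem lay_dual (hp : Pos S pos b) (K : ℕ) (x y : (S.lay pos K).Wd) :
    (S.lay pos K).dual.w x y =
      (Finset.univ.filter fun d => S.nd pos K d 0 = x ∧ S.nd pos K (S.a d) 0 = y).card +
      ∑ l ∈ Finset.range K,
        (((Finset.univ.filter fun d => S.nd pos K d l = x ∧ S.nd pos K d (l + 1) = y).card : ℝ) +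
          (Finset.univ.filter fun d => S.nd pos K d l = y ∧ S.nd pos K d (l + 1) = x).card) := by
  have h0 : (S.lay pos K).dual.w x y =
      ∑ c : S.D × Fin (2 * K + 1), if S.nd pos K c.1 ((c.2 : ℕ) / 2) = x ∧ LayDual_p S pos K c.1 c.2 = y then (1 : ℝ) else 0 := by
    rw [Finset.sum_boole]
    have h1 : ∀ c : S.D × Fin (2 * K + 1), ((S.lay pos K).wd c = x ∧ (S.lay pos K).wd ((S.lay pos K).a c) = y) ↔
        (S.nd pos K c.1 ((c.2 : ℕ) / 2) = x ∧ LayDual_p S pos K c.1 c.2 = y) := by
      rintro ⟨d, i⟩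
      rw [LayDual_a hp, wd_lay hp]
    rw [← LayDual_nc]
    have h2 : (Set.ncard {c : S.D × Fin (2 * K + 1) | (S.lay pos K).wd c = x ∧ (S.lay pos K).wd ((S.lay pos K).a c) = y}) =
        Set.ncard {c : S.D × Fin (2 * K + 1) | S.nd pos K c.1 ((c.2 : ℕ) / 2) = x ∧ LayDual_p S pos K c.1 c.2 = y} := by
      congr 1
      exact Set.ext h1
    exact congrArg (Nat.cast (R := ℝ)) h2
  set G : ℕ → ℝ := fun i => ∑ d : S.D, if S.nd pos K d (i / 2) = x ∧ LayDual_p S pos K d i = y then (1 : ℝ) else 0 with hG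
  have h1 : (S.lay pos K).dual.w x y = ∑ i ∈ Finset.range (2 * K + 1), G i := by
    rw [h0, Fintype.sum_prod_type, Finset.sum_comm, Finset.sum_range]
  rw [h1, LayDual_range]
  congr 1
  · simp only [hG]
    rw [Finset.sum_boole]
    simp [LayDual_p]
  · refine Finset.sum_congr rfl fun l _ => ?_
    congr 1
    · simp only [hG]
      rw [Finset.sum_boole]
      have e1 : (2 * l + 1) / 2 = l := by omega
      have e2 : ∀ d, LayDual_p S pos K d (2 * l + 1) = S.nd pos K d (l + 1) := by
        intro d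
        unfold LayDual_p
        rw [if_neg (by omega), if_pos (by omega), show (2 * l + 1 + 1) / 2 = l + 1 by omega]
      simp only [e1, e2]
    · simp only [hG]
      rw [Finset.sum_boole]
      have e1 : (2 * l + 2) / 2 = l + 1 := by omega
      have e2 : ∀ d, LayDual_p S pos K d (2 * l + 2) = S.nd pos K d l := by
        intro d
        unfold LayDual_p
        rw [if_neg (by omega), if_neg (by omega), show (2 * l + 2 - 1) / 2 = l by omega]
      simp only [e1, e2]
      congr 2
      ext d
      simp [and_comm]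

open Classical in
theorem lay_deg (hp : Pos S pos b) (K : ℕ) (hK : ∀ d, (S.word d).ncard ≤ 2 ^ K) (x : (S.lay pos K).Wd) :
    (Finset.univ.filter fun y => (S.lay pos K).dual.Adj x y).card ≤ 3 := by
  obtain ⟨⟨d0, i0⟩, hc⟩ := (S.lay pos K).wd_surj x
  rw [wd_lay hp] at hc
  have hlt := i0.isLt
  set j : ℕ := (i0 : ℕ) / 2 with hj
  have hjK : j ≤ K := by omega
  have hc' : S.nd pos K d0 j = x := hc
  -- letters in the same node
  have key : ∀ d, S.nd pos K d j = S.nd pos K d0 j → S.wd d = S.wd d0 ∧ pos d / 2 ^ j = pos d0 / 2 ^ j := by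
    intro d hd
    rcases Nat.lt_or_ge j K with h | h
    · exact (nd_blk hp K j h d d0).1 hd
    · have hjK' : j = K := le_antisymm hjK h
      rw [hjK'] at hd ⊢
      refine ⟨(nd_core K d d0).1 hd, ?_⟩
      rw [Nat.div_eq_of_lt (lt_of_lt_of_le (hp.lt d) (hK d)), Nat.div_eq_of_lt (lt_of_lt_of_le (hp.lt d0) (hK d0))]
  set g : ℕ → (S.lay pos K).Wd := fun n =>
    if h : ∃ d, S.wd d = S.wd d0 ∧ pos d / 2 ^ (j - 1) = n then S.nd pos K h.choose (j - 1) else x with hg
  have hsub : (Finset.univ.filter fun y => (S.lay pos K).dual.Adj x y) ⊆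
      {S.nd pos K d0 (j + 1), (if j = 0 then S.nd pos K (S.a d0) 0 else g (2 * (pos d0 / 2 ^ j))),
        g (2 * (pos d0 / 2 ^ j) + 1)} := by
    intro y hy
    have hy2 : (0 : ℝ) < (S.lay pos K).dual.w x y := (Finset.mem_filter.1 hy).2.2
    have hne : (0 : ℝ) < ((Set.ncard {c : (S.lay pos K).D | (S.lay pos K).wd c = x ∧
        (S.lay pos K).wd ((S.lay pos K).a c) = y} : ℕ) : ℝ) := hy2
    rw [Nat.cast_pos, Set.ncard_pos (Set.toFinite _)] at hne
    obtain ⟨⟨d, i⟩, h1, h2⟩ := hne
    rw [wd_lay hp] at h1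
    rw [LayDual_a hp] at h2
    have h1' : S.nd pos K d ((i : ℕ) / 2) = x := h1
    have hi := i.isLt
    have hij : (i : ℕ) / 2 = j := nd_layer K (by omega) hjK (h1'.trans hc'.symm)
    rw [hij] at h1'
    obtain ⟨hw, hq⟩ := key d (h1'.trans hc'.symm)
    have hcyc : S.r.SameCycle d d0 := (S.wd_eq _ _).1 hw
    simp only [Finset.mem_insert, Finset.mem_singleton]
    unfold LayDual_p at h2
    split_ifs at h2 with h3 h4
    · -- the outer letter of layer 0
      have hj0 : j = 0 := by omega
      right; left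
      rw [if_pos hj0, ← h2]
      have : d = d0 := by
        rw [hj0] at hq
        simp only [pow_zero, Nat.div_one] at hq
        exact hp.inj hcyc hq
      rw [this]
    · -- inner letter
      left
      rw [← h2, show ((i : ℕ) + 1) / 2 = j + 1 by omega]
      rcases Nat.lt_or_ge (j + 1) K with h | h
      · rw [nd_blk hp K (j + 1) h]
        refine ⟨hw, ?_⟩
        rw [pow_succ, ← Nat.div_div_eq_div_mul, ← Nat.div_div_eq_div_mul, hq]
      · have : j + 1 = K := by omega
        rw [this, nd_core]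
        exact hw
    · -- outer letter, layer at least one
      have hj1 : 1 ≤ j := by omega
      rw [show ((i : ℕ) - 1) / 2 = j - 1 by omega] at h2
      have hex : ∃ e, S.wd e = S.wd d0 ∧ pos e / 2 ^ (j - 1) = pos d / 2 ^ (j - 1) := ⟨d, hw, rfl⟩
      have hgv : g (pos d / 2 ^ (j - 1)) = y := by
        simp only [hg]
        rw [dif_pos hex, ← h2, nd_blk hp K (j - 1) (by omega)]
        exact ⟨hex.choose_spec.1.trans hw.symm, hex.choose_spec.2⟩
      have h5 : pos d / 2 ^ j = pos d / 2 ^ (j - 1) / 2 := by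
        rw [Nat.div_div_eq_div_mul, ← pow_succ, Nat.sub_add_cancel hj1]
      have h6 : pos d / 2 ^ (j - 1) = 2 * (pos d0 / 2 ^ j) ∨ pos d / 2 ^ (j - 1) = 2 * (pos d0 / 2 ^ j) + 1 := by
        rw [← hq, h5]
        omega
      rcases h6 with h6 | h6
      · right; left
        rw [if_neg (by omega), ← h6, hgv]
      · right; right
        rw [← h6, hgv]
  refine (Finset.card_le_card hsub).trans ?_
  exact Finset.card_le_three

end Pool.Agent.GW
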