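import Pool.Agent.GW.LayDef
import Pool.Agent.GW.Cover

/-!
# GW/LayU: the layered surface and `U` (row 403, T1FIN)

PROOF. `S.lay pos 0` is isomorphic to `S` (`U_iso`, `(d, 0) ↦ d`). Step: let `T = S.lay pos K`, `G` = the core letters
`{(d, i) | i = 2 K}`, `J` = `{(d, i) | i = 2 K ∧ jn S.r pos K d}`. Then `T.cover G J` is isomorphic to `S.lay pos (K + 1)` by
`inl (d, i) ↦ (d, i)`, `inr ((d, 2 K), true) ↦ (d, 2 K + 1)`, `inr ((d, 2 K), false) ↦ (d, 2 K + 2)` (use `cvF_..` of Cover.lean and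
`layF_..`, `layA_..` of LayDef.lean; `G` is a union of words of `T`). `cover_U` gives `U L (T.cover G J) → U L T`; `T` is closed.
-/

set_option autoImplicit false

namespace Pool.Agent.GW

open Equiv Pool.Agent.SWP

theorem lay_closed (S : Sf) (hS : S.Closed) (pos : S.D → ℕ) (K : ℕ) : (S.lay pos K).Closed := by
  rintro ⟨d, i⟩
  rw [lay_a]
  by_cases h : (i : ℕ) = 0
  · rw [layA_zero S.a K d i h]
    intro hc
    exact hS d (Prod.ext_iff.1 hc).1
  · have hlt := i.isLt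
    by_cases h2 : (i : ℕ) % 2 = 1
    · rw [layA_odd S.a K d i ⟨i + 1, by omega⟩ h2 rfl]
      intro hc
      have h3 := congrArg Fin.val (Prod.ext_iff.1 hc).2
      simp at h3
    · have h2' : (i : ℕ) % 2 = 0 := by omega
      rw [layA_even S.a K d i ⟨i - 1, by omega⟩ h2' (show (i : ℕ) - 1 + 1 = i by omega)]
      intro hc
      have h3 : (i : ℕ) - 1 = i := congrArg Fin.val (Prod.ext_iff.1 hc).2
      omega

theorem lay_card (S : Sf) (pos : S.D → ℕ) (K : ℕ) : (S.lay pos K).card = (2 * K + 1) * S.card := by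
  show Fintype.card (S.D × Fin (2 * K + 1)) = (2 * K + 1) * Fintype.card S.D
  rw [Fintype.card_prod, Fintype.card_fin, Nat.mul_comm]

section
variable {D : Type}

/-- the core letters -/
private def lyG (D : Type) (K : ℕ) : Set (D × Fin (2 * K + 1)) := {c | (c.2 : ℕ) = 2 * K}

/-- the joined core letters -/
private def lyJ (r : Perm D) (pos : D → ℕ) (K : ℕ) : Set (D × Fin (2 * K + 1)) :=
  {c | (c.2 : ℕ) = 2 * K ∧ jn r pos K c.1}

private def lyP (K : ℕ) : (D × Fin (2 * K + 1)) ⊕ (lyG D K × Bool) → D × Fin (2 * (K + 1) + 1)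
  | Sum.inl c => (c.1, ⟨c.2, by have := c.2.isLt; omega⟩)
  | Sum.inr (x, true) => (x.1.1, ⟨2 * K + 1, by omega⟩)
  | Sum.inr (x, false) => (x.1.1, ⟨2 * K + 2, by omega⟩)

private theorem lyP_inl (K : ℕ) (d : D) (i : Fin (2 * K + 1)) (i' : Fin (2 * (K + 1) + 1)) (h : (i' : ℕ) = i) :
    lyP K (Sum.inl (d, i)) = (d, i') := by
  show (d, _) = (d, i')
  congr 1
  exact Fin.ext h.symm

private theorem lyP_true (K : ℕ) (x : lyG D K) (d : D) (hx : x.1.1 = d)
    (i' : Fin (2 * (K + 1) + 1)) (h : (i' : ℕ) = 2 * K + 1) :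
    lyP K (Sum.inr (x, true)) = (d, i') := by
  subst hx
  show (x.1.1, _) = (x.1.1, i')
  congr 1
  exact Fin.ext h.symm

private theorem lyP_false (K : ℕ) (x : lyG D K) (d : D) (hx : x.1.1 = d)
    (i' : Fin (2 * (K + 1) + 1)) (h : (i' : ℕ) = 2 * K + 2) :
    lyP K (Sum.inr (x, false)) = (d, i') := by
  subst hx
  show (x.1.1, _) = (x.1.1, i')
  congr 1
  exact Fin.ext h.symm

open Classical in
private noncomputable def lyQ (K : ℕ) (c : D × Fin (2 * (K + 1) + 1)) : (D × Fin (2 * K + 1)) ⊕ (lyG D K × Bool) :=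
  if h : (c.2 : ℕ) ≤ 2 * K then Sum.inl (c.1, ⟨c.2, by omega⟩)
  else Sum.inr (⟨(c.1, ⟨2 * K, by omega⟩), rfl⟩, decide ((c.2 : ℕ) = 2 * K + 1))

private theorem lyQ_lyP (K : ℕ) (z : (D × Fin (2 * K + 1)) ⊕ (lyG D K × Bool)) :
    lyQ K (lyP K z) = z := by
  rcases z with ⟨d, i⟩ | ⟨⟨⟨d, i⟩, hx⟩, b⟩
  · have hlt := i.isLt
    rw [lyP_inl K d i ⟨i, by omega⟩ rfl]
    unfold lyQ
    rw [dif_pos (show (i : ℕ) ≤ 2 * K by omega)]
  · have hi : (i : ℕ) = 2 * K := hx
    have key : (⟨(d, ⟨2 * K, by omega⟩), rfl⟩ : lyG D K) = ⟨(d, i), hx⟩ :=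
      Subtype.ext (Prod.ext rfl (Fin.ext hi.symm))
    cases b
    · rw [lyP_false K _ d rfl ⟨2 * K + 2, by omega⟩ rfl]
      unfold lyQ
      rw [dif_neg (show ¬ (2 * K + 2 ≤ 2 * K) by omega)]
      have h2 : decide ((2 * K + 2 : ℕ) = 2 * K + 1) = false := by simp
      show Sum.inr (_, decide ((2 * K + 2 : ℕ) = 2 * K + 1)) = _
      rw [h2, key]
    · rw [lyP_true K _ d rfl ⟨2 * K + 1, by omega⟩ rfl]
      unfold lyQ
      rw [dif_neg (show ¬ (2 * K + 1 ≤ 2 * K) by omega)]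
      have h2 : decide ((2 * K + 1 : ℕ) = 2 * K + 1) = true := by simp
      show Sum.inr (_, decide ((2 * K + 1 : ℕ) = 2 * K + 1)) = _
      rw [h2, key]

private theorem lyP_lyQ (K : ℕ) (c : D × Fin (2 * (K + 1) + 1)) : lyP K (lyQ K c) = c := by
  obtain ⟨d, i⟩ := c
  have hlt := i.isLt
  by_cases h : (i : ℕ) ≤ 2 * K
  · unfold lyQ
    rw [dif_pos h]
    exact lyP_inl K d _ i rfl
  · unfold lyQ
    rw [dif_neg h]
    by_cases h1 : (i : ℕ) = 2 * K + 1
    · show lyP K (Sum.inr (_, decide ((i : ℕ) = 2 * K + 1))) = _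
      rw [decide_eq_true h1]
      exact lyP_true K _ d rfl i h1
    · show lyP K (Sum.inr (_, decide ((i : ℕ) = 2 * K + 1))) = _
      rw [decide_eq_false h1]
      exact lyP_false K _ d rfl i (by omega)

private noncomputable def lyE (D : Type) (K : ℕ) :
    (D × Fin (2 * K + 1)) ⊕ (lyG D K × Bool) ≃ D × Fin (2 * (K + 1) + 1) where
  toFun := lyP K
  invFun := lyQ K
  left_inv := lyQ_lyP K
  right_inv := lyP_lyQ K

private theorem lyP_r (r : Perm D) (pos : D → ℕ) (K : ℕ) (R : Perm (D × Fin (2 * K + 1)))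
    (hR : ∀ c, R c = layF r pos K c) (z : (D × Fin (2 * K + 1)) ⊕ (lyG D K × Bool)) :
    layF r pos (K + 1) (lyP K z) = lyP K (cvF R (lyG D K) (lyJ r pos K) z) := by
  rcases z with ⟨d, i⟩ | ⟨⟨⟨d, i⟩, hx⟩, b⟩
  · have hlt := i.isLt
    rw [lyP_inl K d i ⟨i, by omega⟩ rfl]
    by_cases h : (i : ℕ) = 2 * K
    · have hG : (d, i) ∈ lyG D K := h
      have hr : R (d, i) = (r d, i) := by rw [hR]; exact layF_core r pos K d i h
      have hG2 : R (d, i) ∈ lyG D K := by
        rw [hr]; exact h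
      have hdiv : (i : ℕ) / 2 = K := by omega
      by_cases hj : jn r pos K d
      · have hJ : (d, i) ∈ lyJ r pos K := ⟨h, hj⟩
        rw [cvF_inl_join _ hG ⟨hJ, hG2⟩, hr, lyP_inl K (r d) i ⟨i, by omega⟩ rfl]
        exact layF_even_join r pos (K + 1) d ⟨i, by omega⟩ (show (i : ℕ) ≠ 2 * (K + 1) by omega)
          (show (i : ℕ) % 2 = 0 by omega) (show jn r pos ((i : ℕ) / 2) d by rw [hdiv]; exact hj)
      · have hJ : (d, i) ∉ lyJ r pos K := fun hc => hj hc.2
        rw [cvF_inl_end _ hG (fun hc => hJ hc.1)]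
        rw [lyP_true K ⟨(d, i), hG⟩ d rfl ⟨i + 1, by omega⟩ (show (i : ℕ) + 1 = 2 * K + 1 by omega)]
        exact layF_even_end r pos (K + 1) d ⟨i, by omega⟩ ⟨i + 1, by omega⟩
          (show (i : ℕ) ≠ 2 * (K + 1) by omega) (show (i : ℕ) % 2 = 0 by omega)
          (show ¬ jn r pos ((i : ℕ) / 2) d by rw [hdiv]; exact hj) rfl
    · have hG : (d, i) ∉ lyG D K := h
      rw [cvF_inl_notMem _ _ hG]
      by_cases h2 : (i : ℕ) % 2 = 0
      · by_cases hj : jn r pos (i / 2) d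
        · have hr : R (d, i) = (r d, i) := by rw [hR]; exact layF_even_join r pos K d i h h2 hj
          have hG2 : R (d, i) ∉ lyG D K := by
            rw [hr]; exact h
          rw [cvN_notMem hG2, hr, lyP_inl K (r d) i ⟨i, by omega⟩ rfl]
          exact layF_even_join r pos (K + 1) d ⟨i, by omega⟩ (show (i : ℕ) ≠ 2 * (K + 1) by omega) h2 hj
        · have hr : R (d, i) = (d, ⟨i + 1, by omega⟩) := by
            rw [hR]; exact layF_even_end r pos K d i _ h h2 hj rfl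
          have hG2 : R (d, i) ∉ lyG D K := by
            rw [hr]
            show ¬ ((i : ℕ) + 1 = 2 * K)
            omega
          rw [cvN_notMem hG2, hr, lyP_inl K d ⟨i + 1, by omega⟩ ⟨i + 1, by omega⟩ rfl]
          exact layF_even_end r pos (K + 1) d ⟨i, by omega⟩ ⟨i + 1, by omega⟩
            (show (i : ℕ) ≠ 2 * (K + 1) by omega) h2 hj rfl
      · have h2' : (i : ℕ) % 2 = 1 := by omega
        by_cases hj : jn r pos (i / 2) (r.symm d)
        · have hr : R (d, i) = (r.symm d, i) := by rw [hR]; exact layF_odd_join r pos K d i h2' hj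
          have hG2 : R (d, i) ∉ lyG D K := by
            rw [hr]; exact h
          rw [cvN_notMem hG2, hr, lyP_inl K (r.symm d) i ⟨i, by omega⟩ rfl]
          exact layF_odd_join r pos (K + 1) d ⟨i, by omega⟩ h2' hj
        · have h6 : (i : ℕ) - 1 + 1 = i := by omega
          have hr : R (d, i) = (d, ⟨i - 1, by omega⟩) := by
            rw [hR]; exact layF_odd_end r pos K d i _ h2' hj h6
          have hG2 : R (d, i) ∉ lyG D K := by
            rw [hr]
            show ¬ ((i : ℕ) - 1 = 2 * K)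
            omega
          rw [cvN_notMem hG2, hr, lyP_inl K d ⟨i - 1, by omega⟩ ⟨i - 1, by omega⟩ rfl]
          exact layF_odd_end r pos (K + 1) d ⟨i, by omega⟩ ⟨i - 1, by omega⟩ h2' hj h6
  · have hi : (i : ℕ) = 2 * K := hx
    have hdiv : (2 * K + 1) / 2 = K := by omega
    cases b
    · rw [cvF_false]
      have hr : R (d, i) = (r d, i) := by rw [hR]; exact layF_core r pos K d i hi
      have hG2 : (r d, i) ∈ lyG D K := hi
      show layF r pos (K + 1) (lyP K (Sum.inr (⟨(d, i), hx⟩, false))) = lyP K (cvN (lyG D K) (R (d, i)))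
      rw [hr, cvN_mem hG2, lyP_false K ⟨(d, i), hx⟩ d rfl ⟨2 * K + 2, by omega⟩ rfl,
        lyP_false K ⟨_, hG2⟩ (r d) rfl ⟨2 * K + 2, by omega⟩ rfl]
      exact layF_core r pos (K + 1) d ⟨2 * K + 2, by omega⟩ (show 2 * K + 2 = 2 * (K + 1) by omega)
    · have hrs : R.symm (d, i) = (r.symm d, i) := by
        rw [Equiv.symm_apply_eq, hR, layF_core r pos K _ i hi, Equiv.apply_symm_apply]
      rw [lyP_true K ⟨(d, i), hx⟩ d rfl ⟨2 * K + 1, by omega⟩ rfl]
      by_cases hj : jn r pos K (r.symm d)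
      · have hGJ : R.symm (((⟨(d, i), hx⟩ : lyG D K)) : D × Fin (2 * K + 1)) ∈ lyG D K ∧
            R.symm (((⟨(d, i), hx⟩ : lyG D K)) : D × Fin (2 * K + 1)) ∈ lyJ r pos K := by
          show R.symm (d, i) ∈ lyG D K ∧ R.symm (d, i) ∈ lyJ r pos K
          rw [hrs]
          exact ⟨hi, hi, hj⟩
        rw [cvF_true_join _ hGJ]
        rw [lyP_true K _ (r.symm d) (congrArg Prod.fst hrs) ⟨2 * K + 1, by omega⟩ rfl]
        exact layF_odd_join r pos (K + 1) d ⟨2 * K + 1, by omega⟩ (show (2 * K + 1) % 2 = 1 by omega)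
          (show jn r pos ((2 * K + 1) / 2) (r.symm d) by rw [hdiv]; exact hj)
      · have hGJ : ¬ (R.symm (((⟨(d, i), hx⟩ : lyG D K)) : D × Fin (2 * K + 1)) ∈ lyG D K ∧
            R.symm (((⟨(d, i), hx⟩ : lyG D K)) : D × Fin (2 * K + 1)) ∈ lyJ r pos K) := by
          show ¬ (R.symm (d, i) ∈ lyG D K ∧ R.symm (d, i) ∈ lyJ r pos K)
          rw [hrs]
          exact fun hc => hj hc.2.2
        rw [cvF_true_end _ hGJ]
        show layF r pos (K + 1) (d, ⟨2 * K + 1, _⟩) = lyP K (Sum.inl (d, i))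
        rw [lyP_inl K d i ⟨2 * K, by omega⟩ hi.symm]
        exact layF_odd_end r pos (K + 1) d ⟨2 * K + 1, by omega⟩ ⟨2 * K, by omega⟩
          (show (2 * K + 1) % 2 = 1 by omega)
          (show ¬ jn r pos ((2 * K + 1) / 2) (r.symm d) by rw [hdiv]; exact hj) rfl

private theorem lyP_a_inl (a : Perm D) (K : ℕ) (c : D × Fin (2 * K + 1)) :
    layA a (K + 1) (lyP K (Sum.inl c)) = lyP K (Sum.inl (layA a K c)) := by
  obtain ⟨d, i⟩ := c
  have hlt := i.isLt
  rw [lyP_inl K d i ⟨i, by omega⟩ rfl]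
  by_cases h : (i : ℕ) = 0
  · rw [layA_zero a K d i h, lyP_inl K (a d) i ⟨i, by omega⟩ rfl]
    exact layA_zero a (K + 1) d ⟨i, by omega⟩ h
  · by_cases h2 : (i : ℕ) % 2 = 1
    · rw [layA_odd a K d i ⟨i + 1, by omega⟩ h2 rfl,
        lyP_inl K d ⟨i + 1, by omega⟩ ⟨i + 1, by omega⟩ rfl]
      exact layA_odd a (K + 1) d ⟨i, by omega⟩ ⟨i + 1, by omega⟩ h2 rfl
    · have h2' : (i : ℕ) % 2 = 0 := by omega
      have h6 : (i : ℕ) - 1 + 1 = i := by omega
      rw [layA_even a K d i ⟨i - 1, by omega⟩ h2' h6,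
        lyP_inl K d ⟨i - 1, by omega⟩ ⟨i - 1, by omega⟩ rfl]
      exact layA_even a (K + 1) d ⟨i, by omega⟩ ⟨i - 1, by omega⟩ h2' h6

private theorem lyP_a_inr (a : Perm D) (K : ℕ) (x : lyG D K) (b : Bool) :
    layA a (K + 1) (lyP K (Sum.inr (x, b))) = lyP K (Sum.inr (x, !b)) := by
  cases b
  · show _ = lyP K (Sum.inr (x, true))
    rw [lyP_false K x x.1.1 rfl ⟨2 * K + 2, by omega⟩ rfl,
      lyP_true K x x.1.1 rfl ⟨2 * K + 1, by omega⟩ rfl]
    exact layA_even a (K + 1) _ ⟨2 * K + 2, by omega⟩ ⟨2 * K + 1, by omega⟩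
      (show (2 * K + 2) % 2 = 0 by omega) rfl
  · show _ = lyP K (Sum.inr (x, false))
    rw [lyP_false K x x.1.1 rfl ⟨2 * K + 2, by omega⟩ rfl,
      lyP_true K x x.1.1 rfl ⟨2 * K + 1, by omega⟩ rfl]
    exact layA_odd a (K + 1) _ ⟨2 * K + 1, by omega⟩ ⟨2 * K + 2, by omega⟩
      (show (2 * K + 1) % 2 = 1 by omega) rfl

end

/-- one layer more is a cover -/
private theorem lay_step (S : Sf) (pos : S.D → ℕ) (K : ℕ) :
    Iso (S.lay pos (K + 1)) ((S.lay pos K).cover (lyG S.D K) (lyJ S.r pos K)) (lyE S.D K).symm where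
  r := by
    intro c
    refine (Equiv.eq_symm_apply (lyE S.D K)).2 ?_
    have h1 := lyP_r S.r pos K (S.lay pos K).r (fun c => rfl) (lyQ K c)
    rw [lyP_lyQ] at h1
    exact h1.symm
  a := by
    intro c
    refine (Equiv.eq_symm_apply (lyE S.D K)).2 ?_
    have key : ∀ z : (S.D × Fin (2 * K + 1)) ⊕ (lyG S.D K × Bool),
        lyP K (((S.lay pos K).cover (lyG S.D K) (lyJ S.r pos K)).a z) = layA S.a (K + 1) (lyP K z) := by
      rintro (z | ⟨x, b⟩)
      · exact (lyP_a_inl S.a K z).symm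
      · exact (lyP_a_inr S.a K x b).symm
    have h1 := key (lyQ K c)
    rw [lyP_lyQ] at h1
    exact h1

theorem lay_U (S : Sf) (hS : S.Closed) (pos : S.D → ℕ) (L : ℕ) : ∀ K : ℕ,
    (∀ k < K, ∀ c, 2 * (S.lay pos k).len c ≤ L) → U L (S.lay pos K) → U L S := by
  intro K
  induction K with
  | zero =>
    intro _ h
    let φ : (S.lay pos 0).D ≃ S.D :=
      { toFun := fun c => (c : S.D × Fin (2 * 0 + 1)).1
        invFun := fun d => ((d, ⟨0, by omega⟩) : S.D × Fin (2 * 0 + 1))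
        left_inv := by
          rintro ⟨d, i⟩
          have hi : i = ⟨0, by omega⟩ := Fin.ext (by have := i.isLt; omega)
          rw [hi]
        right_inv := fun d => rfl }
    refine U_iso φ ⟨?_, ?_⟩ h
    · rintro ⟨d, i⟩
      have hi : (i : ℕ) = 2 * 0 := by have := i.isLt; omega
      show S.r d = (layF S.r pos 0 (d, i)).1
      rw [layF_core S.r pos 0 d i hi]
    · rintro ⟨d, i⟩
      have hi : (i : ℕ) = 0 := by have := i.isLt; omega
      show S.a d = (layA S.a 0 (d, i)).1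
      rw [layA_zero S.a 0 d i hi]
  | succ K ih =>
    intro hL h
    refine ih (fun k hk => hL k (by omega)) ?_
    refine cover_U L (S.lay pos K) (lyG S.D K) (lyJ S.r pos K) (fun x _ => lay_closed S hS pos K x)
      (hL K (by omega)) ?_
    exact U_iso (lyE S.D K).symm (lay_step S pos K) h

end Pool.Agent.GW
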