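import Pool.Agent.GW.Graph

/-!
# GW.NormCond: conductance of the layered surface

`D`: letters of the closed surface, `τ d` its polygon, `a` the partner.  Layers `0, …, K`; `nd d l` is the node (thin polygon) of layer `l` which
carries the copies of the letter `d`; `nd d K` is the core (the original polygon, `hK`).  Weights of the new graph `G'`: for every
`d` one letter between `nd d 0` and `nd (a d) 0`, for every `l < K` one letter between `nd d l` and `nd d (l+1)` (both orders).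

PROOF.  `x l d` = `nd d l ∈ X`, `S = ∑_{l<K} #{d | x l d ≠ x (l+1) d} ≤ cut' X`.  `XX = {v | core of v in X}`: if `τ d ∈ XX`, `τ (a d) ∉ XX` then
`x 0 d ≠ x K d` or `x 0 (a d) ≠ x K (a d)` or (`x 0 d`, `¬ x 0 (a d)`): `cut XX ≤ 2 S + cut' X ≤ 3 cut' X`.
`vol' X ≤ 2 ∑_{l ≤ K} #{d | x l d} ≤ 2 (K+1) (vol XX + S)`, the same for complements.  If `2 vol XX ≤ vol univ` then
`vol' X ≤ 2 (K+1) (3/ψ + 1) cut' X`; otherwise `vol' X ≤ vol' Xᶜ ≤ 2 (K+1)(3/ψ + 1) cut' X`.
-/

set_option autoImplicit false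

namespace Pool.Agent.GW

open Finset

namespace WG

/-- indicator of a finite set -/
noncomputable def ncI {M : Type} [DecidableEq M] (X : Finset M) (z : M) : ℝ := if z ∈ X then 1 else 0

theorem ncI_nonneg {M : Type} [DecidableEq M] (X : Finset M) (z : M) : 0 ≤ ncI X z := by
  unfold ncI; split_ifs <;> norm_num

theorem ncI_le {M : Type} [DecidableEq M] (X : Finset M) (z : M) : ncI X z ≤ 1 := by
  unfold ncI; split_ifs <;> norm_num

theorem ncI_compl {M : Type} [Fintype M] [DecidableEq M] (X : Finset M) (z : M) : ncI Xᶜ z = 1 - ncI X z := by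
  unfold ncI
  by_cases h : z ∈ X
  · simp [h]
  · simp [h]

theorem ncI_univ {M : Type} [Fintype M] [DecidableEq M] (z : M) : ncI (univ : Finset M) z = 1 := by
  simp [ncI]

theorem ncI_abs {M : Type} [DecidableEq M] (X : Finset M) (z t : M) :
    |ncI X z - ncI X t| = ncI X z * (1 - ncI X t) + (1 - ncI X z) * ncI X t := by
  unfold ncI
  split_ifs <;> norm_num

theorem ncSum {D M : Type} [Fintype D] [DecidableEq M] (f g : D → M) (X Y : Finset M) :
    ∑ x ∈ X, ∑ y ∈ Y, ((univ.filter fun d => f d = x ∧ g d = y).card : ℝ) = ∑ d, ncI X (f d) * ncI Y (g d) := by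
  have h1 : ∀ x y, ((univ.filter fun d => f d = x ∧ g d = y).card : ℝ) =
      ∑ d, (if f d = x then (1 : ℝ) else 0) * (if g d = y then 1 else 0) := by
    intro x y
    rw [Finset.card_filter]
    push_cast
    refine sum_congr rfl fun d _ => ?_
    by_cases h : f d = x <;> by_cases h' : g d = y <;> simp [h, h']
  calc ∑ x ∈ X, ∑ y ∈ Y, ((univ.filter fun d => f d = x ∧ g d = y).card : ℝ)
      = ∑ x ∈ X, ∑ y ∈ Y, ∑ d, (if f d = x then (1 : ℝ) else 0) * (if g d = y then 1 else 0) :=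
        sum_congr rfl fun x _ => sum_congr rfl fun y _ => h1 x y
    _ = ∑ x ∈ X, ∑ d, ∑ y ∈ Y, (if f d = x then (1 : ℝ) else 0) * (if g d = y then 1 else 0) :=
        sum_congr rfl fun x _ => sum_comm
    _ = ∑ d, ∑ x ∈ X, ∑ y ∈ Y, (if f d = x then (1 : ℝ) else 0) * (if g d = y then 1 else 0) := sum_comm
    _ = ∑ d, ncI X (f d) * ncI Y (g d) := by
        refine sum_congr rfl fun d _ => ?_
        rw [← sum_mul_sum]
        unfold ncI
        rw [sum_ite_eq, sum_ite_eq]

theorem ncTele (u : ℕ → ℝ) (K : ℕ) : ∀ l ≤ K, |u l - u K| ≤ ∑ m ∈ range K, |u m - u (m + 1)| := by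
  induction K with
  | zero =>
    intro l hl
    rw [Nat.le_zero.1 hl]
    simp
  | succ K ih =>
    intro l hl
    rw [sum_range_succ]
    rcases Nat.lt_or_ge K l with h | h
    · have : l = K + 1 := by omega
      subst this
      rw [sub_self, abs_zero]
      exact add_nonneg (sum_nonneg fun _ _ => abs_nonneg _) (abs_nonneg _)
    · have h1 := ih l h
      have h2 := abs_sub_le (u l) (u K) (u (K + 1))
      linarith

theorem ncLip {e f e' f' : ℝ} (he : 0 ≤ e) (he1 : e ≤ 1) (hf' : 0 ≤ f') (hf1 : f' ≤ 1) :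
    e * (1 - f) ≤ e' * (1 - f') + |e' - e| + |f' - f| := by
  have h1 : e * (f' - f) ≤ |f' - f| := by
    calc e * (f' - f) ≤ e * |f' - f| := mul_le_mul_of_nonneg_left (le_abs_self _) he
      _ ≤ 1 * |f' - f| := mul_le_mul_of_nonneg_right he1 (abs_nonneg _)
      _ = |f' - f| := one_mul _
  have h2 : (e - e') * (1 - f') ≤ |e' - e| := by
    calc (e - e') * (1 - f') ≤ |e' - e| * (1 - f') := by
          refine mul_le_mul_of_nonneg_right ?_ (by linarith)
          rw [abs_sub_comm]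
          exact le_abs_self _
      _ ≤ |e' - e| * 1 := mul_le_mul_of_nonneg_left (by linarith) (abs_nonneg _)
      _ = |e' - e| := mul_one _
  nlinarith

open Classical in
theorem norm_cond {D V N : Type} [Fintype D] [Fintype V] [DecidableEq V] [Fintype N] [DecidableEq N] (K : ℕ) (τ : D → V)
    (a : D → D) (ha : ∀ d, a (a d) = d) (nd : D → ℕ → N) (hK : ∀ d e, nd d K = nd e K ↔ τ d = τ e)
    (G : WG V) (hG : ∀ x y, G.w x y = (univ.filter fun d => τ d = x ∧ τ (a d) = y).card)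
    (G' : WG N) (hG' : ∀ x y, G'.w x y = (univ.filter fun d => nd d 0 = x ∧ nd (a d) 0 = y).card +
      ∑ l ∈ range K, (((univ.filter fun d => nd d l = x ∧ nd d (l + 1) = y).card : ℝ) +
        (univ.filter fun d => nd d l = y ∧ nd d (l + 1) = x).card))
    {ψ : ℝ} (h0 : 0 < ψ) (h1 : ψ ≤ 1) (hC : G.Cond ψ) : G'.Cond (ψ / (8 * (K + 1))) := by
  have hGee : ∀ X Y, G.ee X Y = ∑ d, ncI X (τ d) * ncI Y (τ (a d)) := by
    intro X Y
    unfold ee
    rw [← ncSum τ (fun d => τ (a d)) X Y]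
    exact sum_congr rfl fun x _ => sum_congr rfl fun y _ => hG x y
  have hGee' : ∀ X Y, G'.ee X Y = ∑ d, ncI X (nd d 0) * ncI Y (nd (a d) 0) +
      ∑ l ∈ range K, (∑ d, ncI X (nd d l) * ncI Y (nd d (l + 1)) + ∑ d, ncI Y (nd d l) * ncI X (nd d (l + 1))) := by
    intro X Y
    unfold ee
    have e1 := ncSum (fun d => nd d 0) (fun d => nd (a d) 0) X Y
    have e2 : ∀ l, ∑ d, ncI X (nd d l) * ncI Y (nd d (l + 1)) =
        ∑ x ∈ X, ∑ y ∈ Y, ((univ.filter fun d => nd d l = x ∧ nd d (l + 1) = y).card : ℝ) := fun l =>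
      (ncSum (fun d => nd d l) (fun d => nd d (l + 1)) X Y).symm
    have e3 : ∀ l, ∑ d, ncI Y (nd d l) * ncI X (nd d (l + 1)) =
        ∑ x ∈ X, ∑ y ∈ Y, ((univ.filter fun d => nd d l = y ∧ nd d (l + 1) = x).card : ℝ) := by
      intro l
      rw [← ncSum (fun d => nd d l) (fun d => nd d (l + 1)) Y X]
      exact sum_comm
    rw [← e1]
    simp only [e2, e3]
    rw [← sum_add_distrib.symm]
    simp only [← sum_add_distrib]
    rw [sum_comm (s := range K), ← sum_add_distrib]
    refine sum_congr rfl fun x _ => ?_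
    rw [sum_comm (s := range K), ← sum_add_distrib]
    exact sum_congr rfl fun y _ => hG' x y
  have hvol : ∀ X, G.vol X = ∑ d, ncI X (τ d) := by
    intro X
    have : G.vol X = G.ee X univ := rfl
    rw [this, hGee]
    exact sum_congr rfl fun d _ => by rw [ncI_univ, mul_one]
  have hvol' : ∀ X, G'.vol X = ∑ d, ncI X (nd d 0) +
      ∑ l ∈ range K, (∑ d, ncI X (nd d l) + ∑ d, ncI X (nd d (l + 1))) := by
    intro X
    have : G'.vol X = G'.ee X univ := rfl
    rw [this, hGee']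
    simp only [ncI_univ, mul_one, one_mul]
  -- the total variation along the layers
  set S : Finset N → ℝ := fun X => ∑ l ∈ range K, ∑ d, |ncI X (nd d l) - ncI X (nd d (l + 1))| with hS
  have hSc : ∀ X, S Xᶜ = S X := by
    intro X
    simp only [hS, ncI_compl]
    refine sum_congr rfl fun l _ => sum_congr rfl fun d _ => ?_
    rw [show (1 - ncI X (nd d l)) - (1 - ncI X (nd d (l + 1))) = ncI X (nd d (l + 1)) - ncI X (nd d l) by ring, abs_sub_comm]
  have hS0 : ∀ X, 0 ≤ S X := fun X => sum_nonneg fun _ _ => sum_nonneg fun _ _ => abs_nonneg _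
  have hcut' : ∀ X, G'.cut X = ∑ d, ncI X (nd d 0) * (1 - ncI X (nd (a d) 0)) + S X := by
    intro X
    have : G'.cut X = G'.ee X Xᶜ := rfl
    rw [this, hGee']
    simp only [ncI_compl, hS]
    congr 1
    refine sum_congr rfl fun l _ => ?_
    rw [← sum_add_distrib]
    exact sum_congr rfl fun d _ => (ncI_abs X _ _).symm
  have hlay : ∀ X, ∀ l ≤ K, ∑ d, |ncI X (nd d l) - ncI X (nd d K)| ≤ S X := by
    intro X l hl
    calc ∑ d, |ncI X (nd d l) - ncI X (nd d K)|
        ≤ ∑ d, ∑ m ∈ range K, |ncI X (nd d m) - ncI X (nd d (m + 1))| :=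
          sum_le_sum fun d _ => ncTele (fun m => ncI X (nd d m)) K l hl
      _ = S X := sum_comm
  have hp : ∀ X, ∀ l ≤ K, ∑ d, ncI X (nd d l) ≤ ∑ d, ncI X (nd d K) + S X := by
    intro X l hl
    have h2 := hlay X l hl
    have h3 : ∑ d, ncI X (nd d l) ≤ ∑ d, (ncI X (nd d K) + |ncI X (nd d l) - ncI X (nd d K)|) := by
      refine sum_le_sum fun d _ => ?_
      have := le_abs_self (ncI X (nd d l) - ncI X (nd d K))
      linarith
    rw [sum_add_distrib] at h3
    linarith
  have hvle : ∀ X, G'.vol X ≤ 2 * (K + 1) * (∑ d, ncI X (nd d K) + S X) := by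
    intro X
    have hnn : 0 ≤ ∑ d, ncI X (nd d K) + S X := add_nonneg (sum_nonneg fun _ _ => ncI_nonneg _ _) (hS0 X)
    rw [hvol']
    have h2 : ∑ l ∈ range K, (∑ d, ncI X (nd d l) + ∑ d, ncI X (nd d (l + 1))) ≤
        ∑ l ∈ range K, 2 * (∑ d, ncI X (nd d K) + S X) := by
      refine sum_le_sum fun l hl => ?_
      have hl' := mem_range.1 hl
      have h3 := hp X l hl'.le
      have h4 := hp X (l + 1) hl'
      linarith
    rw [sum_const, card_range, nsmul_eq_mul] at h2
    have h3 := hp X 0 (Nat.zero_le _)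
    nlinarith
  -- the set of polygons
  set XX : Finset N → Finset V := fun X => univ.filter fun v => ∃ d, τ d = v ∧ nd d K ∈ X with hXX
  have hmem : ∀ X d, ncI (XX X) (τ d) = ncI X (nd d K) := by
    intro X d
    have : τ d ∈ XX X ↔ nd d K ∈ X := by
      simp only [hXX, mem_filter, mem_univ, true_and]
      constructor
      · rintro ⟨e, he, he2⟩
        rw [(hK d e).2 he.symm]
        exact he2
      · intro h
        exact ⟨d, rfl, h⟩
    unfold ncI
    by_cases h : nd d K ∈ X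
    · rw [if_pos h, if_pos (this.2 h)]
    · rw [if_neg h, if_neg (fun h' => h (this.1 h'))]
  have hcutXX : ∀ X, G.cut (XX X) ≤ 2 * G'.cut X := by
    intro X
    have e1 : G.cut (XX X) = ∑ d, ncI X (nd d K) * (1 - ncI X (nd (a d) K)) := by
      have : G.cut (XX X) = G.ee (XX X) (XX X)ᶜ := rfl
      rw [this, hGee]
      exact sum_congr rfl fun d _ => by rw [ncI_compl, hmem, hmem]
    have e2 : ∑ d, |ncI X (nd (a d) 0) - ncI X (nd (a d) K)| = ∑ d, |ncI X (nd d 0) - ncI X (nd d K)| :=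
      Equiv.sum_comp (Function.Involutive.toPerm a ha) (fun d => |ncI X (nd d 0) - ncI X (nd d K)|)
    have e3 := hlay X 0 (Nat.zero_le _)
    have e4 : ∑ d, ncI X (nd d K) * (1 - ncI X (nd (a d) K)) ≤
        ∑ d, (ncI X (nd d 0) * (1 - ncI X (nd (a d) 0)) + |ncI X (nd d 0) - ncI X (nd d K)| +
          |ncI X (nd (a d) 0) - ncI X (nd (a d) K)|) :=
      sum_le_sum fun d _ => ncLip (ncI_nonneg _ _) (ncI_le _ _) (ncI_nonneg _ _) (ncI_le _ _)
    rw [sum_add_distrib, sum_add_distrib, e2] at e4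
    have e5 : 0 ≤ ∑ d, ncI X (nd d 0) * (1 - ncI X (nd (a d) 0)) :=
      sum_nonneg fun d _ => mul_nonneg (ncI_nonneg _ _) (by linarith [ncI_le X (nd (a d) 0)])
    rw [e1, hcut']
    linarith
  have hvolXX : ∀ X, G.vol (XX X) = ∑ d, ncI X (nd d K) := by
    intro X
    rw [hvol]
    exact sum_congr rfl fun d _ => hmem X d
  have hvolXXc : ∀ X, G.vol (XX X)ᶜ = ∑ d, ncI Xᶜ (nd d K) := by
    intro X
    rw [hvol]
    exact sum_congr rfl fun d _ => by rw [ncI_compl, ncI_compl, hmem]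
  have hSle : ∀ X, S X ≤ G'.cut X := by
    intro X
    rw [hcut']
    have e5 : 0 ≤ ∑ d, ncI X (nd d 0) * (1 - ncI X (nd (a d) 0)) :=
      sum_nonneg fun d _ => mul_nonneg (ncI_nonneg _ _) (by linarith [ncI_le X (nd (a d) 0)])
    linarith
  have fin : ∀ X, ∀ v c : ℝ, G'.vol X ≤ 2 * (K + 1) * (v + c) → ψ * v ≤ 2 * c → 0 ≤ c →
      ψ / (8 * (K + 1)) * G'.vol X ≤ c := by
    intro X v c hv hc hc0
    have hK1 : (0 : ℝ) < 8 * (K + 1) := by positivity
    rw [div_mul_eq_mul_div, div_le_iff₀ hK1]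
    have e1 : ψ * G'.vol X ≤ ψ * (2 * (K + 1) * (v + c)) := mul_le_mul_of_nonneg_left hv h0.le
    have e2 : ψ * (2 * (K + 1) * (v + c)) = 2 * (K + 1) * (ψ * v + ψ * c) := by ring
    have e3 : ψ * c ≤ c := by nlinarith
    have e4 : 2 * ((K : ℝ) + 1) * (ψ * v + ψ * c) ≤ 2 * (K + 1) * (3 * c) :=
      mul_le_mul_of_nonneg_left (by linarith) (by positivity)
    have e5 : (0 : ℝ) ≤ K * c := mul_nonneg (Nat.cast_nonneg _) hc0
    nlinarith
  intro X hX
  by_cases hb : 2 * G.vol (XX X) ≤ G.vol univ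
  · have h2 := hC _ hb
    refine fin X (G.vol (XX X)) (G'.cut X) ?_ (h2.trans (hcutXX X)) (G'.cut_nonneg X)
    refine (hvle X).trans (mul_le_mul_of_nonneg_left ?_ (by positivity))
    rw [hvolXX]
    linarith [hSle X]
  · push Not at hb
    have h3 := G.vol_add_compl (XX X)
    have h4 := G'.vol_add_compl X
    have h2 := hC (XX X)ᶜ (by linarith)
    rw [G.cut_compl] at h2
    have h5 : G'.vol X ≤ G'.vol Xᶜ := by linarith
    refine fin X (G.vol (XX X)ᶜ) (G'.cut X) (h5.trans ?_) (h2.trans (hcutXX X)) (G'.cut_nonneg X)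
    refine (hvle Xᶜ).trans (mul_le_mul_of_nonneg_left ?_ (by positivity))
    rw [hvolXXc, hSc]
    linarith [hSle X]

end WG

end Pool.Agent.GW
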