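import Pool.Agent.GW.LayDual
import Pool.Agent.GW.LayU
import Pool.Agent.GW.NormCond

/-!
# GW/LayForm: normal form (row 406, T1FIN)

PROOF. `pos_exists`, `S' = S.lay pos K`; `lay_U` with `lay_len` (`2 * (2 u) ≤ L`); `lay_dual`, `nd_core` and `norm_cond` with `τ = S.wd`, `a = S.a`,
`nd = S.nd pos K`, `G = S.dual`, `G' = S'.dual`, `dual_cond`; `lay_deg` (`ncard (word d) = len d ≤ u` because `S` is closed).
-/

set_option autoImplicit false

namespace Pool.Agent.GW

open Equiv Pool.Agent.SWP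

open Classical in
theorem norm_form (S : Sf) (hS : S.Closed) {ψ : ℝ} (h0 : 0 < ψ) (h1 : ψ ≤ 1) (hC : S.Cond ψ) (u K L : ℕ)
    (hu : ∀ d, S.len d ≤ u) (hK : u ≤ 2 ^ K) (hL : 4 * u ≤ L) :
    ∃ S' : Sf, S'.Closed ∧ S'.card = (2 * K + 1) * S.card ∧ (∀ d, S'.len d ≤ 2 * u) ∧
      S'.dual.Cond (ψ / (8 * (K + 1))) ∧ (∀ P, (Finset.univ.filter fun Q => S'.dual.Adj P Q).card ≤ 3) ∧
      (U L S' → U L S) := by
  obtain ⟨pos, b, hp⟩ := pos_exists S
  have hlen : ∀ d, (S.word d).ncard ≤ 2 ^ K := by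
    intro d
    refine le_trans (le_of_eq ?_) ((hu d).trans hK)
    unfold Sf.len Sf.num
    congr 1
    ext e
    constructor
    · intro he
      exact ⟨he, hS e⟩
    · intro he
      exact he.1
  refine ⟨S.lay pos K, lay_closed S hS pos K, lay_card S pos K, fun d => lay_len hp hS K u hu d, ?_,
    fun P => lay_deg hp K hlen P, ?_⟩
  · refine WG.norm_cond K S.wd S.a S.aa (fun d l => S.nd pos K d l) (fun d e => nd_core K d e) S.dual ?_
      (S.lay pos K).dual (fun x y => lay_dual hp K x y) h0 h1 (S.dual_cond ψ h0.le hC)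
    intro x y
    show ((Set.ncard {d : S.D | S.wd d = x ∧ S.wd (S.a d) = y} : ℕ) : ℝ) = _
    rw [LayDual_nc]
  · refine lay_U S hS pos L K fun k _ c => ?_
    have := lay_len hp hS k u hu c
    omega

end Pool.Agent.GW
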