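import Pool.Agent.GW.LayPos

/-!
# GW/LayW: the words of the layered surface (row 404, T1FIN; statements helper90, proofs helper81)

PROOF. `lay_layer`, first half of `lay_blk`: the maps `c ↦ c.2 / 2`, `c ↦ S.wd c.1`, `c ↦ pos c.1 / 2 ^ l` (on layer `l`) do not change under `r`
(`SWP.iff_of_same`). Second half: `(d, 2 l) → (r d, 2 l)` if `d`, `r d` are joined, use `Pos.run`, `Pos.reach`; `(d, 2 l)` and
`(d, 2 l + 1)` are in one word (last letter of the block). Length: the word of `(d, 2 l)` is contained in `{(e, 2 l), (e, 2 l + 1) | e ∈ word d}`.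
-/

set_option autoImplicit false
set_option linter.unusedVariables false

namespace Pool.Agent.GW

open Equiv Pool.Agent.SWP

variable {S : Sf} {pos : S.D → ℕ} {b : S.D → S.D}

/-- what one step does -/
private theorem LayW_step (K : ℕ) (c : S.D × Fin (2 * K + 1)) :
    ((layF S.r pos K c).2 : ℕ) / 2 = (c.2 : ℕ) / 2 ∧ S.r.SameCycle c.1 (layF S.r pos K c).1 ∧
      ((c.2 : ℕ) < 2 * K → pos (layF S.r pos K c).1 / 2 ^ ((c.2 : ℕ) / 2) = pos c.1 / 2 ^ ((c.2 : ℕ) / 2)) := by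
  obtain ⟨d, i⟩ := c
  have hlt := i.isLt
  by_cases h : (i : ℕ) = 2 * K
  · rw [layF_core S.r pos K d i h]
    exact ⟨rfl, Perm.sameCycle_apply_right.2 (Perm.SameCycle.refl _ _), fun h' => absurd h (Nat.ne_of_lt h')⟩
  · by_cases h2 : (i : ℕ) % 2 = 0
    · by_cases hj : jn S.r pos (i / 2) d
      · rw [layF_even_join S.r pos K d i h h2 hj]
        exact ⟨rfl, Perm.sameCycle_apply_right.2 (Perm.SameCycle.refl _ _), fun _ => hj.2⟩
      · rw [layF_even_end S.r pos K d i ⟨i + 1, by omega⟩ h h2 hj rfl]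
        refine ⟨?_, Perm.SameCycle.refl _ _, fun _ => rfl⟩
        show ((i : ℕ) + 1) / 2 = i / 2
        omega
    · have h2' : (i : ℕ) % 2 = 1 := by omega
      by_cases hj : jn S.r pos (i / 2) (S.r.symm d)
      · rw [layF_odd_join S.r pos K d i h2' hj]
        refine ⟨rfl, ?_, fun _ => ?_⟩
        · have h3 : S.r.SameCycle (S.r.symm d) (S.r (S.r.symm d)) :=
            Perm.sameCycle_apply_right.2 (Perm.SameCycle.refl _ _)
          rw [Equiv.apply_symm_apply] at h3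
          exact h3.symm
        · have h3 := hj.2
          rw [Equiv.apply_symm_apply] at h3
          exact h3.symm
      · have h6 : (i : ℕ) - 1 + 1 = i := by omega
        rw [layF_odd_end S.r pos K d i ⟨i - 1, by omega⟩ h2' hj h6]
        refine ⟨?_, Perm.SameCycle.refl _ _, fun _ => rfl⟩
        show ((i : ℕ) - 1) / 2 = i / 2
        omega

private theorem LayW_same (K : ℕ) {c c' : S.D × Fin (2 * K + 1)} (h : (S.lay pos K).r.SameCycle c c') :
    (c'.2 : ℕ) / 2 = (c.2 : ℕ) / 2 ∧ S.r.SameCycle c.1 c'.1 ∧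
      ((c.2 : ℕ) / 2 < K → pos c'.1 / 2 ^ ((c.2 : ℕ) / 2) = pos c.1 / 2 ^ ((c.2 : ℕ) / 2)) := by
  have hfin : Finite (S.D × Fin (2 * K + 1)) := Finite.of_fintype _
  refine mem_of_same (s := (S.lay pos K).r) (Z := {x : S.D × Fin (2 * K + 1) | (x.2 : ℕ) / 2 = (c.2 : ℕ) / 2 ∧
    S.r.SameCycle c.1 x.1 ∧ ((c.2 : ℕ) / 2 < K → pos x.1 / 2 ^ ((c.2 : ℕ) / 2) = pos c.1 / 2 ^ ((c.2 : ℕ) / 2))}) ?_
    ⟨rfl, Perm.SameCycle.refl _ _, fun _ => rfl⟩ h
  rintro x ⟨h1, h2, h3⟩
  obtain ⟨g1, g2, g3⟩ := LayW_step (pos := pos) K x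
  refine ⟨g1.trans h1, h2.trans g2, fun hK => ?_⟩
  rw [← h3 hK, ← h1]
  exact g3 (by omega)

theorem lay_layer (K : ℕ) {c c' : S.D × Fin (2 * K + 1)} (h : (S.lay pos K).r.SameCycle c c') :
    (c.2 : ℕ) / 2 = (c'.2 : ℕ) / 2 :=
  (LayW_same K h).1.symm

theorem lay_core (K : ℕ) {c c' : S.D × Fin (2 * K + 1)} (h : (c.2 : ℕ) = 2 * K) (h' : (c'.2 : ℕ) = 2 * K) :
    (S.lay pos K).r.SameCycle c c' ↔ S.r.SameCycle c.1 c'.1 := by
  refine ⟨fun h1 => (LayW_same K h1).2.1, fun h1 => ?_⟩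
  obtain ⟨n, hn⟩ := h1.exists_nat_pow_eq
  have h2 : ∀ n : ℕ, ((S.lay pos K).r ^ n) c = ((S.r ^ n) c.1, c.2) := by
    intro n
    induction n with
    | zero => rfl
    | succ n ih =>
      rw [pow_succ', Perm.mul_apply, ih, lay_r, layF_core S.r pos K _ c.2 h, pow_succ', Perm.mul_apply]
  refine ⟨(n : ℤ), ?_⟩
  rw [zpow_natCast, h2 n, hn]
  exact Prod.ext rfl (Fin.ext (h.trans h'.symm))

/-- `(d, 2 l)` and `(d, 2 l + 1)` are in one word -/
private theorem LayW_turn (hp : Pos S pos b) (K l : ℕ) (hl : l < K) : ∀ (n : ℕ) (d : S.D),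
    (S.word d).ncard ≤ pos d + n → (S.lay pos K).r.SameCycle ((d, ⟨2 * l, by omega⟩) : S.D × Fin (2 * K + 1))
      ((d, ⟨2 * l + 1, by omega⟩) : S.D × Fin (2 * K + 1)) := by
  intro n
  induction n with
  | zero =>
    intro d h
    have := hp.lt d
    omega
  | succ n ih =>
    intro d h
    have e1 : 2 * l / 2 = l := by omega
    have e2 : (2 * l + 1) / 2 = l := by omega
    by_cases hj : jn S.r pos l d
    · have h1 : (S.lay pos K).r ((d, ⟨2 * l, by omega⟩) : S.D × Fin (2 * K + 1)) = (S.r d, ⟨2 * l, by omega⟩) := by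
        rw [lay_r]
        refine layF_even_join S.r pos K d _ (show 2 * l ≠ 2 * K by omega) (show 2 * l % 2 = 0 by omega) ?_
        show jn S.r pos (2 * l / 2) d
        rw [e1]
        exact hj
      have h2 : (S.lay pos K).r ((S.r d, ⟨2 * l + 1, by omega⟩) : S.D × Fin (2 * K + 1)) =
          (d, ⟨2 * l + 1, by omega⟩) := by
        rw [lay_r]
        refine (layF_odd_join S.r pos K (S.r d) _ (show (2 * l + 1) % 2 = 1 by omega) ?_).trans ?_
        · show jn S.r pos ((2 * l + 1) / 2) (S.r.symm (S.r d))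
          rw [e2, Equiv.symm_apply_apply]
          exact hj
        · rw [Equiv.symm_apply_apply]
      have h3 : (S.word (S.r d)).ncard ≤ pos (S.r d) + n := by
        have h4 : S.word (S.r d) = S.word d := by
          ext x
          exact Perm.sameCycle_apply_left
        rw [h4, hj.1]
        omega
      have h5 := ih (S.r d) h3
      rw [← h1] at h5
      have h6 := Perm.sameCycle_apply_left.1 h5
      refine h6.trans ?_
      rw [← h2]
      exact Perm.sameCycle_apply_right.2 (Perm.SameCycle.refl _ _)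
    · have h1 : (S.lay pos K).r ((d, ⟨2 * l, by omega⟩) : S.D × Fin (2 * K + 1)) = (d, ⟨2 * l + 1, by omega⟩) := by
        rw [lay_r]
        refine layF_even_end S.r pos K d _ _ (show 2 * l ≠ 2 * K by omega) (show 2 * l % 2 = 0 by omega) ?_ rfl
        show ¬ jn S.r pos (2 * l / 2) d
        rw [e1]
        exact hj
      rw [← h1]
      exact Perm.sameCycle_apply_right.2 (Perm.SameCycle.refl _ _)

/-- the even letters of a block are in one word -/
private theorem LayW_run (hp : Pos S pos b) (K l : ℕ) (hl : l < K) {d e : S.D} (hde : S.r.SameCycle d e)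
    (hb : pos d / 2 ^ l = pos e / 2 ^ l) (hle : pos d ≤ pos e) :
    (S.lay pos K).r.SameCycle ((d, ⟨2 * l, by omega⟩) : S.D × Fin (2 * K + 1)) (e, ⟨2 * l, by omega⟩) := by
  have h1 : ∀ i : ℕ, pos d + i ≤ pos e → (S.lay pos K).r.SameCycle
      ((d, ⟨2 * l, by omega⟩) : S.D × Fin (2 * K + 1)) ((S.r ^ i) d, ⟨2 * l, by omega⟩) := by
    intro i
    induction i with
    | zero => exact fun _ => Perm.SameCycle.refl _ _
    | succ i ih =>
      intro hi
      refine (ih (by omega)).trans ?_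
      have hj := hp.run l hde hb (i := i) (by omega)
      have h2 : (S.lay pos K).r (((S.r ^ i) d, ⟨2 * l, by omega⟩) : S.D × Fin (2 * K + 1)) =
          ((S.r ^ (i + 1)) d, ⟨2 * l, by omega⟩) := by
        rw [lay_r, pow_succ', Perm.mul_apply]
        refine layF_even_join S.r pos K _ _ (show 2 * l ≠ 2 * K by omega) (show 2 * l % 2 = 0 by omega) ?_
        show jn S.r pos (2 * l / 2) ((S.r ^ i) d)
        rw [show 2 * l / 2 = l by omega]
        exact hj
      rw [← h2]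
      exact Perm.sameCycle_apply_right.2 (Perm.SameCycle.refl _ _)
  have h2 := h1 (pos e - pos d) (by omega)
  rw [hp.reach hde hle] at h2
  exact h2

/-- every letter of layer `l` is in the word of its even copy -/
private theorem LayW_even (hp : Pos S pos b) (K l : ℕ) (hl : l < K) {c : S.D × Fin (2 * K + 1)}
    (h : (c.2 : ℕ) / 2 = l) :
    (S.lay pos K).r.SameCycle c ((c.1, ⟨2 * l, by omega⟩) : S.D × Fin (2 * K + 1)) := by
  rcases Nat.mod_two_eq_zero_or_one c.2 with h1 | h1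
  · have h2 : c = (c.1, ⟨2 * l, by omega⟩) := Prod.ext rfl (Fin.ext (show (c.2 : ℕ) = 2 * l by omega))
    have h3 : (S.lay pos K).r.SameCycle ((c.1, ⟨2 * l, by omega⟩) : S.D × Fin (2 * K + 1)) (c.1, ⟨2 * l, by omega⟩) :=
      Perm.SameCycle.refl _ _
    exact h2 ▸ h3
  · have h2 : c = (c.1, ⟨2 * l + 1, by omega⟩) := Prod.ext rfl (Fin.ext (show (c.2 : ℕ) = 2 * l + 1 by omega))
    have h3 := (LayW_turn hp K l hl (S.word c.1).ncard c.1 (by omega)).symm
    rw [← h2] at h3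
    exact h3

theorem lay_blk (hp : Pos S pos b) (K l : ℕ) (hl : l < K) {c c' : S.D × Fin (2 * K + 1)} (h : (c.2 : ℕ) / 2 = l)
    (h' : (c'.2 : ℕ) / 2 = l) :
    (S.lay pos K).r.SameCycle c c' ↔ S.r.SameCycle c.1 c'.1 ∧ pos c.1 / 2 ^ l = pos c'.1 / 2 ^ l := by
  constructor
  · intro h1
    obtain ⟨_, g2, g3⟩ := LayW_same K h1
    refine ⟨g2, ?_⟩
    rw [h] at g3
    exact (g3 hl).symm
  · rintro ⟨h1, h2⟩
    refine (LayW_even hp K l hl h).trans (Perm.SameCycle.trans ?_ (LayW_even hp K l hl h').symm)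
    rcases le_total (pos c.1) (pos c'.1) with h3 | h3
    · exact LayW_run hp K l hl h1 h2 h3
    · exact (LayW_run hp K l hl h1.symm h2.symm h3).symm

theorem lay_len (hp : Pos S pos b) (hS : S.Closed) (K u : ℕ) (hu : ∀ d, S.len d ≤ u) (c : (S.lay pos K).D) :
    (S.lay pos K).len c ≤ 2 * u := by
  obtain ⟨d, i⟩ : S.D × Fin (2 * K + 1) := c
  have hlt := i.isLt
  have h1 : (S.lay pos K).word ((d, i) : S.D × Fin (2 * K + 1)) ⊆
      (fun e : S.D => ((e, ⟨2 * ((i : ℕ) / 2), by omega⟩) : S.D × Fin (2 * K + 1))) '' S.word d ∪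
      (fun e : S.D => ((e, ⟨min (2 * ((i : ℕ) / 2) + 1) (2 * K), by omega⟩) : S.D × Fin (2 * K + 1))) '' S.word d := by
    rintro ⟨e, j⟩ he
    obtain ⟨g1, g2, _⟩ := LayW_same K he
    have g1' : (j : ℕ) / 2 = i / 2 := g1
    have hj := j.isLt
    rcases Nat.mod_two_eq_zero_or_one j with h2 | h2
    · exact Or.inl ⟨e, g2, Prod.ext rfl (Fin.ext (show 2 * ((i : ℕ) / 2) = j by omega))⟩
    · exact Or.inr ⟨e, g2, Prod.ext rfl (Fin.ext (show min (2 * ((i : ℕ) / 2) + 1) (2 * K) = j by omega))⟩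
  have h2 : (S.word d).ncard ≤ u := by
    have h3 : S.word d ∩ S.live = S.word d := by
      ext x
      exact ⟨fun h => h.1, fun h => ⟨h, hS x⟩⟩
    have h4 := hu d
    unfold Sf.len Sf.num at h4
    rw [h3] at h4
    exact h4
  have h3 : (S.lay pos K).len ((d, i) : S.D × Fin (2 * K + 1)) ≤
      ((S.lay pos K).word ((d, i) : S.D × Fin (2 * K + 1))).ncard :=
    Set.ncard_le_ncard Set.inter_subset_left (Set.toFinite _)
  have h4 := Set.ncard_le_ncard h1 (Set.toFinite _)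
  have h5 := Set.ncard_union_le
    ((fun e : S.D => ((e, ⟨2 * ((i : ℕ) / 2), by omega⟩) : S.D × Fin (2 * K + 1))) '' S.word d)
    ((fun e : S.D => ((e, ⟨min (2 * ((i : ℕ) / 2) + 1) (2 * K), by omega⟩) : S.D × Fin (2 * K + 1))) '' S.word d)
  have h6 := Set.ncard_image_le (f := fun e : S.D => ((e, ⟨2 * ((i : ℕ) / 2), by omega⟩) : S.D × Fin (2 * K + 1)))
    (s := S.word d) (Set.toFinite _)
  have h7 := Set.ncard_image_le
    (f := fun e : S.D => ((e, ⟨min (2 * ((i : ℕ) / 2) + 1) (2 * K), by omega⟩) : S.D × Fin (2 * K + 1)))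
    (s := S.word d) (Set.toFinite _)
  exact h3.trans (h4.trans (h5.trans (by omega)))

/-! The same in terms of the nodes. -/

theorem wd_lay (hp : Pos S pos b) (K : ℕ) (c : S.D × Fin (2 * K + 1)) :
    (S.lay pos K).wd c = S.nd pos K c.1 ((c.2 : ℕ) / 2) := by
  have hlt := c.2.isLt
  unfold Sf.nd
  rw [Sf.wd_eq]
  by_cases h : (c.2 : ℕ) = 2 * K
  · rw [lay_core K h (show min (2 * ((c.2 : ℕ) / 2)) (2 * K) = 2 * K by omega)]
  · exact (lay_blk hp K ((c.2 : ℕ) / 2) (by omega) rfl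
      (show min (2 * ((c.2 : ℕ) / 2)) (2 * K) / 2 = (c.2 : ℕ) / 2 by omega)).2 ⟨Perm.SameCycle.refl _ _, rfl⟩

theorem nd_core (K : ℕ) (d e : S.D) : S.nd pos K d K = S.nd pos K e K ↔ S.wd d = S.wd e := by
  unfold Sf.nd
  rw [Sf.wd_eq, Sf.wd_eq]
  exact lay_core K (show min (2 * K) (2 * K) = 2 * K by omega) (show min (2 * K) (2 * K) = 2 * K by omega)

theorem nd_blk (hp : Pos S pos b) (K l : ℕ) (hl : l < K) (d e : S.D) :
    S.nd pos K d l = S.nd pos K e l ↔ S.wd d = S.wd e ∧ pos d / 2 ^ l = pos e / 2 ^ l := by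
  unfold Sf.nd
  rw [Sf.wd_eq, Sf.wd_eq]
  exact lay_blk hp K l hl (show min (2 * l) (2 * K) / 2 = l by omega) (show min (2 * l) (2 * K) / 2 = l by omega)

theorem nd_layer (K : ℕ) {l l' : ℕ} (hl : l ≤ K) (hl' : l' ≤ K) {d e : S.D} (h : S.nd pos K d l = S.nd pos K e l') :
    l = l' := by
  unfold Sf.nd at h
  rw [Sf.wd_eq] at h
  have h1 : min (2 * l) (2 * K) / 2 = min (2 * l') (2 * K) / 2 := lay_layer K h
  omega

end Pool.Agent.GW
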