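import Mathlib

/-!
# GW.LllW: the local lemma for independent variables with arbitrary laws

Variables `x v ∈ Ω v`, `v ∈ V`, independent, with laws `q v`; `WW q x = ∏ q v (x v)`, `PR q A` the probability of `A`.
`lll_w`: the local lemma (same proof as FHA.Lll).  `WW_marg`: expectation of a function of some of the variables.
-/

set_option autoImplicit false

namespace Pool.Agent.GW.LllW

open Finset

variable {V I : Type} {Ω : V → Type} [Fintype V] [DecidableEq V] [∀ v, Fintype (Ω v)] [Fintype I]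

/-- weight of a choice. -/
noncomputable def WW (q : ∀ v, Ω v → ℝ) (x : ∀ v, Ω v) : ℝ := ∏ v, q v (x v)

open Classical in
/-- probability of a property. -/
noncomputable def PR (q : ∀ v, Ω v → ℝ) (A : (∀ v, Ω v) → Prop) : ℝ :=
  ∑ x ∈ univ.filter (fun x => A x), WW q x

omit [DecidableEq V] [∀ v, Fintype (Ω v)] in
theorem WW_nonneg {q : ∀ v, Ω v → ℝ} (h0 : ∀ v a, 0 ≤ q v a) (x : ∀ v, Ω v) : 0 ≤ WW q x :=
  prod_nonneg fun v _ => h0 v (x v)

theorem WW_sum {q : ∀ v, Ω v → ℝ} (h1 : ∀ v, ∑ a, q v a = 1) : ∑ x, WW q x = 1 := by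
  classical
  unfold WW
  have h := Finset.prod_univ_sum (fun v => (univ : Finset (Ω v))) q
  rw [Fintype.piFinset_univ] at h
  rw [← h]
  exact prod_eq_one fun v _ => h1 v

theorem PR_nonneg {q : ∀ v, Ω v → ℝ} (h0 : ∀ v a, 0 ≤ q v a) (A : (∀ v, Ω v) → Prop) : 0 ≤ PR q A :=
  sum_nonneg fun x _ => WW_nonneg h0 x

theorem PR_mono {q : ∀ v, Ω v → ℝ} (h0 : ∀ v a, 0 ≤ q v a) {A B : (∀ v, Ω v) → Prop}
    (h : ∀ x, A x → B x) : PR q A ≤ PR q B := by
  classical
  refine sum_le_sum_of_subset_of_nonneg (fun x hx => ?_) fun x _ _ => WW_nonneg h0 x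
  rw [mem_filter] at hx ⊢
  exact ⟨hx.1, h x hx.2⟩

theorem PR_exists {q : ∀ v, Ω v → ℝ} (h0 : ∀ v a, 0 ≤ q v a) {β : Type} (s : Finset β) (B : β → (∀ v, Ω v) → Prop)
    {A : (∀ v, Ω v) → Prop} (h : ∀ x, A x → ∃ b ∈ s, B b x) : PR q A ≤ ∑ b ∈ s, PR q (B b) := by
  classical
  unfold PR
  simp only [sum_filter]
  rw [sum_comm]
  refine sum_le_sum fun x _ => ?_
  by_cases hA : A x
  · rw [if_pos hA]
    obtain ⟨b, hb, hB⟩ := h x hA
    have h2 := single_le_sum (f := fun b => if B b x then WW q x else 0)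
      (fun b _ => by split_ifs; exacts [WW_nonneg h0 x, le_rfl]) hb
    simp only [if_pos hB] at h2
    exact h2
  · rw [if_neg hA]
    exact sum_nonneg fun b _ => by split_ifs; exacts [WW_nonneg h0 x, le_rfl]

theorem PR_congr (q : ∀ v, Ω v → ℝ) {A B : (∀ v, Ω v) → Prop} (h : ∀ x, A x ↔ B x) : PR q A = PR q B := by
  have : A = B := funext fun x => propext (h x)
  rw [this]

theorem PR_one {q : ∀ v, Ω v → ℝ} (h1 : ∀ v, ∑ a, q v a = 1) {A : (∀ v, Ω v) → Prop} (h : ∀ x, A x) : PR q A = 1 := by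
  classical
  unfold PR
  rw [filter_true_of_mem fun x _ => h x, WW_sum h1]

theorem PR_zero {q : ∀ v, Ω v → ℝ} {A : (∀ v, Ω v) → Prop} (h : ∀ x, A x → WW q x = 0) : PR q A = 0 := by
  classical
  unfold PR
  exact sum_eq_zero fun x hx => h x (mem_filter.1 hx).2

theorem PR_eq (q : ∀ v, Ω v → ℝ) (A : (∀ v, Ω v) → Prop) [DecidablePred A] :
    PR q A = ∑ x, WW q x * (if A x then (1 : ℝ) else 0) := by
  unfold PR
  rw [sum_filter]
  refine sum_congr rfl fun x _ => ?_
  by_cases h : A x
  · simp [h]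
  · simp [h]

open Classical in
private noncomputable def mix (T : Finset V) (x y : ∀ v, Ω v) : ∀ v, Ω v :=
  fun v => if v ∈ T then x v else y v

omit [Fintype V] [∀ v, Fintype (Ω v)] in
private theorem mix_inv (T : Finset V) (x y : ∀ v, Ω v) : mix T (mix T x y) (mix T y x) = x := by
  funext v
  unfold mix
  by_cases h : v ∈ T <;> simp [h]

omit [∀ v, Fintype (Ω v)] in
private theorem mix_W (q : ∀ v, Ω v → ℝ) (T : Finset V) (x y : ∀ v, Ω v) :
    WW q (mix T x y) * WW q (mix T y x) = WW q x * WW q y := by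
  unfold WW
  rw [← prod_mul_distrib, ← prod_mul_distrib]
  refine prod_congr rfl fun v _ => ?_
  unfold mix
  by_cases h : v ∈ T
  · simp [h]
  · simp [h, mul_comm]

open Classical in
/-- independence. -/
theorem indep {q : ∀ v, Ω v → ℝ} (h1 : ∀ v, ∑ a, q v a = 1) (T : Finset V) (f : (∀ v, Ω v) → ℝ)
    (hfT : ∀ x y, (∀ v ∈ T, x v = y v) → f x = f y) (A : (∀ v, Ω v) → Prop)
    (hA : ∀ x y, (∀ v, v ∉ T → x v = y v) → A x → A y) :
    ∑ x ∈ univ.filter (fun x => A x), WW q x * f x = PR q A * ∑ x, WW q x * f x := by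
  have e1 : ∑ x ∈ univ.filter (fun x => A x), WW q x * f x =
      ∑ z ∈ (univ : Finset ((∀ v, Ω v) × (∀ v, Ω v))), (if A z.1 then WW q z.1 * WW q z.2 * f z.1 else 0) := by
    rw [← univ_product_univ, sum_product, sum_filter]
    refine sum_congr rfl fun x _ => ?_
    by_cases h : A x
    · rw [if_pos h]
      show _ = ∑ y, if A x then WW q x * WW q y * f x else 0
      simp only [if_pos h]
      have : ∀ y, WW q x * WW q y * f x = (WW q x * f x) * WW q y := fun y => by ring
      rw [sum_congr rfl fun y _ => this y, ← mul_sum, WW_sum h1, mul_one]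
    · rw [if_neg h]
      show _ = ∑ y, if A x then WW q x * WW q y * f x else 0
      simp only [if_neg h]
      simp
  have e2 : PR q A * ∑ x, WW q x * f x =
      ∑ z ∈ (univ : Finset ((∀ v, Ω v) × (∀ v, Ω v))), (if A z.2 then WW q z.1 * WW q z.2 * f z.1 else 0) := by
    rw [← univ_product_univ, sum_product, mul_sum]
    refine sum_congr rfl fun x _ => ?_
    show _ = ∑ y, if A y then WW q x * WW q y * f x else 0
    rw [← sum_filter]
    have : ∀ y, WW q x * WW q y * f x = WW q y * (WW q x * f x) := fun y => by ring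
    rw [sum_congr rfl fun y _ => this y, ← sum_mul]
    rfl
  rw [e1, e2]
  refine sum_nbij' (fun z => (mix T z.1 z.2, mix T z.2 z.1)) (fun z => (mix T z.1 z.2, mix T z.2 z.1)) ?_ ?_ ?_ ?_ ?_
  · intro z _
    exact mem_univ _
  · intro z _
    exact mem_univ _
  · rintro ⟨x, y⟩ _
    exact Prod.ext (mix_inv T x y) (mix_inv T y x)
  · rintro ⟨x, y⟩ _
    exact Prod.ext (mix_inv T x y) (mix_inv T y x)
  · rintro ⟨x, y⟩ _
    have hf' : f (mix T x y) = f x := hfT _ _ fun v hv => by simp [mix, hv]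
    have h2 : A x ↔ A (mix T y x) :=
      ⟨hA _ _ fun v hv => by simp [mix, hv], hA _ _ fun v hv => by simp [mix, hv]⟩
    show (if A x then WW q x * WW q y * f x else 0) =
      if A (mix T y x) then WW q (mix T x y) * WW q (mix T y x) * f (mix T x y) else 0
    rw [hf', mix_W]
    by_cases h : A x
    · rw [if_pos h, if_pos (h2.1 h)]
    · rw [if_neg h, if_neg (fun h3 => h (h2.2 h3))]

/-- probability of being good for the events with support in `S` -/
private noncomputable def GG (q : ∀ v, Ω v → ℝ) (sup : I → Finset V) (Bad : I → (∀ v, Ω v) → Prop) (S : Finset V) : ℝ :=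
  PR q fun x => ∀ e, sup e ⊆ S → ¬ Bad e x

omit [Fintype V] [DecidableEq V] [∀ v, Fintype (Ω v)] [Fintype I] in
private theorem dep (sup : I → Finset V) (Bad : I → (∀ v, Ω v) → Prop)
    (hdep : ∀ e x y, (∀ v ∈ sup e, x v = y v) → Bad e x → Bad e y) (S T : Finset V)
    (hST : ∀ v ∈ S, v ∉ T) (x y : ∀ v, Ω v) (h : ∀ v, v ∉ T → x v = y v)
    (hx : ∀ e, sup e ⊆ S → ¬ Bad e x) : ∀ e, sup e ⊆ S → ¬ Bad e y := fun e he hb =>
  hx e he (hdep e y x (fun v hv => (h v (hST v (he hv))).symm) hb)

omit [Fintype I] in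
private theorem down (q : ∀ v, Ω v → ℝ) (sup : I → Finset V) (Bad : I → (∀ v, Ω v) → Prop)
    (m : ℕ) (ih : ∀ S : Finset V, S.card < m → ∀ v, v ∉ S → GG q sup Bad S ≤ 2 * GG q sup Bad (insert v S)) :
    ∀ R S : Finset V, R ⊆ S → S.card ≤ m → GG q sup Bad (S \ R) ≤ 2 ^ R.card * GG q sup Bad S := by
  intro R
  induction R using Finset.induction_on with
  | empty =>
    intro S _ _
    simp
  | insert r R hr hR =>
    intro S hRS hS
    have hrS : r ∈ S := hRS (Finset.mem_insert_self r R)
    have e1 : insert r (S \ insert r R) = S \ R := by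
      ext v
      simp only [Finset.mem_insert, Finset.mem_sdiff]
      constructor
      · rintro (rfl | ⟨h1, h2⟩)
        · exact ⟨hrS, hr⟩
        · exact ⟨h1, fun h => h2 (Or.inr h)⟩
      · rintro ⟨h1, h2⟩
        by_cases h : v = r
        · exact Or.inl h
        · exact Or.inr ⟨h1, fun h3 => h3.elim h h2⟩
    have hn : r ∉ S \ insert r R := by simp
    have hc : (S \ insert r R).card < m := by
      refine lt_of_lt_of_le (Finset.card_lt_card ?_) hS
      refine Finset.ssubset_iff_subset_ne.2 ⟨Finset.sdiff_subset, fun h => ?_⟩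
      rw [h] at hn
      exact hn hrS
    have h1 := ih _ hc r hn
    rw [e1] at h1
    have h2 := hR S (fun v hv => hRS (Finset.mem_insert_of_mem hv)) hS
    rw [Finset.card_insert_of_notMem hr, pow_succ']
    calc GG q sup Bad (S \ insert r R)
        ≤ 2 * GG q sup Bad (S \ R) := h1
      _ ≤ 2 * (2 ^ R.card * GG q sup Bad S) := by linarith
      _ = 2 * 2 ^ R.card * GG q sup Bad S := by ring

open Classical in
private theorem step {q : ∀ v, Ω v → ℝ} (h0 : ∀ v a, 0 ≤ q v a) (h1 : ∀ v, ∑ a, q v a = 1) (sup : I → Finset V)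
    (Bad : I → (∀ v, Ω v) → Prop)
    (hdep : ∀ e x y, (∀ v ∈ sup e, x v = y v) → Bad e x → Bad e y)
    (hE : ∀ v, ∑ e ∈ univ.filter (fun e => v ∈ sup e), (2 : ℝ) ^ ((sup e).card - 1) * PR q (Bad e) ≤ 1 / 2) :
    ∀ m : ℕ, ∀ S : Finset V, S.card < m → ∀ v, v ∉ S → GG q sup Bad S ≤ 2 * GG q sup Bad (insert v S) := by
  intro m
  induction m with
  | zero =>
    intro S hS
    exact absurd hS (Nat.not_lt_zero _)
  | succ m ih =>
    intro S hS v hv
    have hSm : S.card ≤ m := Nat.lt_succ_iff.1 hS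
    have hcard : GG q sup Bad S ≤ GG q sup Bad (insert v S) +
        ∑ e ∈ univ.filter (fun e => v ∈ sup e), PR q (fun x => (∀ e', sup e' ⊆ S \ sup e → ¬ Bad e' x) ∧ Bad e x) := by
      have h := PR_exists h0 (insert none ((univ.filter (fun e => v ∈ sup e)).image some) : Finset (Option I))
        (fun o x => match o with
          | none => ∀ e, sup e ⊆ insert v S → ¬ Bad e x
          | some e => (∀ e', sup e' ⊆ S \ sup e → ¬ Bad e' x) ∧ Bad e x)
        (A := fun x => ∀ e, sup e ⊆ S → ¬ Bad e x) (fun x hx => by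
          by_cases h : ∀ e, sup e ⊆ insert v S → ¬ Bad e x
          · exact ⟨none, mem_insert_self _ _, h⟩
          · push Not at h
            obtain ⟨e, he, hb⟩ := h
            have hve : v ∈ sup e := by
              by_contra hve
              refine hx e (fun w hw => ?_) hb
              rcases Finset.mem_insert.1 (he hw) with h1 | h1
              · exact absurd (h1 ▸ hw) hve
              · exact h1
            exact ⟨some e, mem_insert_of_mem (mem_image.2 ⟨e, mem_filter.2 ⟨mem_univ e, hve⟩, rfl⟩),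
              fun e' he' => hx e' (he'.trans Finset.sdiff_subset), hb⟩)
      rw [sum_insert (by simp), sum_image (fun a _ b _ h => Option.some.inj h)] at h
      exact h
    have hterm : ∀ e ∈ univ.filter (fun e => v ∈ sup e),
        PR q (fun x => (∀ e', sup e' ⊆ S \ sup e → ¬ Bad e' x) ∧ Bad e x) ≤
          GG q sup Bad S * ((2 : ℝ) ^ ((sup e).card - 1) * PR q (Bad e)) := by
      intro e he
      have hve : v ∈ sup e := (Finset.mem_filter.1 he).2
      obtain ⟨A, hAd⟩ : ∃ A : (∀ v, Ω v) → Prop, ∀ x, A x ↔ ∀ e', sup e' ⊆ S \ sup e → ¬ Bad e' x :=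
        ⟨_, fun x => Iff.rfl⟩
      obtain ⟨g, hg⟩ : ∃ g : (∀ v, Ω v) → ℝ, ∀ x, g x = if Bad e x then (1 : ℝ) else 0 := ⟨_, fun x => rfl⟩
      have hi := indep h1 (sup e) g
        (fun x y hxy => by
          have h1 : Bad e x ↔ Bad e y :=
            ⟨hdep e x y hxy, hdep e y x fun v hv => (hxy v hv).symm⟩
          rw [hg, hg]
          by_cases h : Bad e x
          · rw [if_pos h, if_pos (h1.1 h)]
          · rw [if_neg h, if_neg (fun h2 => h (h1.2 h2))]) A
        (fun x y hxy hx => (hAd y).2 (dep sup Bad hdep (S \ sup e) (sup e)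
          (fun v hv => (Finset.mem_sdiff.1 hv).2) x y hxy ((hAd x).1 hx)))
      have c3 : PR q A = GG q sup Bad (S \ sup e) := PR_congr q hAd
      have c2 : ∑ x, WW q x * g x = PR q (Bad e) := by
        rw [PR_eq]
        exact sum_congr rfl fun x _ => by rw [hg]
      have c1 : ∑ x ∈ univ.filter (fun x => A x), WW q x * g x =
          PR q (fun x => (∀ e', sup e' ⊆ S \ sup e → ¬ Bad e' x) ∧ Bad e x) := by
        unfold PR
        rw [sum_filter, sum_filter]
        refine sum_congr rfl fun x _ => ?_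
        by_cases h : A x
        · rw [if_pos h, hg]
          by_cases h3 : Bad e x
          · rw [if_pos h3, if_pos ⟨(hAd x).1 h, h3⟩, mul_one]
          · rw [if_neg h3, if_neg (fun hh => h3 hh.2), mul_zero]
        · rw [if_neg h, if_neg (fun hh => h ((hAd x).2 hh.1))]
      rw [c1, c2, c3] at hi
      rw [hi]
      have hd := down q sup Bad m ih (S ∩ sup e) S Finset.inter_subset_left hSm
      have e2 : S \ (S ∩ sup e) = S \ sup e := by
        ext w
        simp only [Finset.mem_sdiff, Finset.mem_inter]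
        tauto
      rw [e2] at hd
      have hc : (S ∩ sup e).card ≤ (sup e).card - 1 := by
        have : (S ∩ sup e) ⊆ (sup e).erase v := by
          intro w hw
          rw [Finset.mem_inter] at hw
          exact Finset.mem_erase.2 ⟨fun h => hv (h ▸ hw.1), hw.2⟩
        refine (Finset.card_le_card this).trans ?_
        rw [Finset.card_erase_of_mem hve]
      have hpow : (2 : ℝ) ^ (S ∩ sup e).card ≤ 2 ^ ((sup e).card - 1) :=
        pow_le_pow_right₀ (by norm_num) hc
      have hG : (0 : ℝ) ≤ GG q sup Bad S := PR_nonneg h0 _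
      have hB : (0 : ℝ) ≤ PR q (Bad e) := PR_nonneg h0 _
      calc GG q sup Bad (S \ sup e) * PR q (Bad e)
          ≤ (2 ^ (S ∩ sup e).card * GG q sup Bad S) * PR q (Bad e) := mul_le_mul_of_nonneg_right hd hB
        _ ≤ (2 ^ ((sup e).card - 1) * GG q sup Bad S) * PR q (Bad e) :=
          mul_le_mul_of_nonneg_right (mul_le_mul_of_nonneg_right hpow hG) hB
        _ = _ := by ring
    have hG : (0 : ℝ) ≤ GG q sup Bad S := PR_nonneg h0 _
    have hsum : ∑ e ∈ univ.filter (fun e => v ∈ sup e),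
        PR q (fun x => (∀ e', sup e' ⊆ S \ sup e → ¬ Bad e' x) ∧ Bad e x) ≤ GG q sup Bad S * (1 / 2) := by
      refine (Finset.sum_le_sum hterm).trans ?_
      rw [← Finset.mul_sum]
      exact mul_le_mul_of_nonneg_left (hE v) hG
    linarith

open Classical in
/-- the local lemma for independent variables with laws `q v`. -/
theorem lll_w {q : ∀ v, Ω v → ℝ} (h0 : ∀ v a, 0 ≤ q v a) (h1 : ∀ v, ∑ a, q v a = 1) (sup : I → Finset V)
    (hsup : ∀ e, (sup e).Nonempty) (Bad : I → (∀ v, Ω v) → Prop)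
    (hdep : ∀ e x y, (∀ v ∈ sup e, x v = y v) → Bad e x → Bad e y)
    (hE : ∀ v, ∑ e ∈ univ.filter (fun e => v ∈ sup e), (2 : ℝ) ^ ((sup e).card - 1) * PR q (Bad e) ≤ 1 / 2) :
    ∃ x : ∀ v, Ω v, (∀ v, q v (x v) ≠ 0) ∧ ∀ e, ¬ Bad e x := by
  have h := down q sup Bad (univ : Finset V).card
    (fun S hS v hv => step h0 h1 sup Bad hdep hE _ S hS v hv) univ univ (Finset.Subset.refl _) le_rfl
  rw [Finset.sdiff_self] at h
  have h2 : GG q sup Bad ∅ = 1 := PR_one h1 fun x e he =>
    absurd (Finset.subset_empty.1 he) (hsup e).ne_empty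
  rw [h2] at h
  by_contra hcon
  push Not at hcon
  have h3 : GG q sup Bad univ = 0 := by
    refine PR_zero fun x hx => ?_
    unfold WW
    by_contra h4
    have h5 : ∀ v, q v (x v) ≠ 0 := fun v h6 => h4 (prod_eq_zero (mem_univ v) h6)
    obtain ⟨e, he⟩ := hcon x h5
    exact hx e (subset_univ _) he
  rw [h3] at h
  norm_num at h

/-- expectation of a function of some of the variables. -/
theorem WW_marg {q : ∀ v, Ω v → ℝ} (h1 : ∀ v, ∑ a, q v a = 1) {J : Type} [Fintype J] [DecidableEq J] (σ : J → V)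
    (hσ : Function.Injective σ) (f : (∀ j, Ω (σ j)) → ℝ) :
    ∑ x, WW q x * f (fun j => x (σ j)) = ∑ y : ∀ j, Ω (σ j), (∏ j, q (σ j) (y j)) * f y := by
  classical
  have e1 : ∀ x : (∀ v, Ω v), WW q x * f (fun j => x (σ j)) =
      ∑ y : ∀ j, Ω (σ j), if (fun j => x (σ j)) = y then WW q x * f y else 0 := by
    intro x
    rw [Finset.sum_ite_eq]
    simp
  rw [sum_congr rfl fun x _ => e1 x, sum_comm]
  refine sum_congr rfl fun y _ => ?_
  have e2 : ∀ x : (∀ v, Ω v), (if (fun j => x (σ j)) = y then WW q x * f y else 0) =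
      (if (fun j => x (σ j)) = y then WW q x else 0) * f y := by
    intro x
    split_ifs
    · rfl
    · simp
  rw [sum_congr rfl fun x _ => e2 x, ← sum_mul]
  congr 1
  rw [← sum_filter]
  have e3 : (univ.filter fun x : (∀ v, Ω v) => (fun j => x (σ j)) = y) =
      Fintype.piFinset fun v => univ.filter fun a : Ω v => ∀ j, ∀ h : σ j = v, h ▸ y j = a := by
    ext x
    rw [mem_filter, Fintype.mem_piFinset]
    constructor
    · rintro ⟨_, h⟩ v
      rw [mem_filter]
      refine ⟨mem_univ _, ?_⟩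
      rintro j rfl
      exact (congrFun h j).symm
    · intro h
      refine ⟨mem_univ _, ?_⟩
      funext j
      have h2 := h (σ j)
      rw [mem_filter] at h2
      exact (h2.2 j rfl).symm
  rw [e3]
  unfold WW
  rw [← Finset.prod_univ_sum]
  have e4 : ∏ j, q (σ j) (y j) = ∏ v ∈ univ.image σ,
      ∑ a ∈ univ.filter (fun a : Ω v => ∀ j, ∀ h : σ j = v, h ▸ y j = a), q v a := by
    rw [prod_image (fun a _ b _ h => hσ h)]
    refine prod_congr rfl fun j _ => ?_
    have e5 : (univ.filter fun a : Ω (σ j) => ∀ i, ∀ h : σ i = σ j, h ▸ y i = a) = {y j} := by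
      ext a
      rw [mem_filter, mem_singleton]
      constructor
      · rintro ⟨_, h⟩
        exact (h j rfl).symm
      · rintro rfl
        refine ⟨mem_univ _, fun i h => ?_⟩
        have := hσ h
        subst this
        rfl
    rw [e5, sum_singleton]
  rw [e4]
  symm
  refine prod_subset (subset_univ _) fun v _ hv => ?_
  have e6 : (univ.filter fun a : Ω v => ∀ j, ∀ h : σ j = v, h ▸ y j = a) = univ := by
    refine filter_true_of_mem fun a _ j h => ?_
    exact absurd (mem_image.2 ⟨j, mem_univ j, h⟩) hv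
  rw [e6, h1]

/-- a function of two different variables. -/
theorem WW_two {q : ∀ v, Ω v → ℝ} (h1 : ∀ v, ∑ a, q v a = 1) {v w : V} (hvw : v ≠ w) (f : Ω v → Ω w → ℝ) :
    ∑ x, WW q x * f (x v) (x w) = ∑ a, ∑ b, q v a * q w b * f a b := by
  classical
  have e1 : ∀ x : (∀ u, Ω u), WW q x * f (x v) (x w) =
      ∑ a, ∑ b, if x v = a ∧ x w = b then WW q x * f a b else 0 := by
    intro x
    rw [sum_eq_single (x v), sum_eq_single (x w)]
    · simp
    · intro b _ hb
      simp [Ne.symm hb]
    · intro h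
      exact absurd (mem_univ _) h
    · intro a _ ha
      refine sum_eq_zero fun b _ => ?_
      simp [Ne.symm ha]
    · intro h
      exact absurd (mem_univ _) h
  rw [sum_congr rfl fun x _ => e1 x, sum_comm]
  refine sum_congr rfl fun a _ => ?_
  rw [sum_comm]
  refine sum_congr rfl fun b _ => ?_
  have e2 : ∀ x : (∀ u, Ω u), (if x v = a ∧ x w = b then WW q x * f a b else 0) =
      (if x v = a ∧ x w = b then WW q x else 0) * f a b := by
    intro x
    split_ifs
    · rfl
    · simp
  rw [sum_congr rfl fun x _ => e2 x, ← sum_mul]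
  congr 1
  rw [← sum_filter]
  have e3 : (univ.filter fun x : (∀ u, Ω u) => x v = a ∧ x w = b) =
      Fintype.piFinset fun u => univ.filter fun c : Ω u => (∀ h : v = u, h ▸ a = c) ∧ ∀ h : w = u, h ▸ b = c := by
    ext x
    rw [mem_filter, Fintype.mem_piFinset]
    constructor
    · rintro ⟨_, h2, h3⟩ u
      rw [mem_filter]
      refine ⟨mem_univ _, ?_, ?_⟩
      · rintro rfl
        exact h2.symm
      · rintro rfl
        exact h3.symm
    · intro h
      have h2 := h v
      have h3 := h w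
      rw [mem_filter] at h2 h3
      exact ⟨mem_univ _, (h2.2.1 rfl).symm, (h3.2.2 rfl).symm⟩
  rw [e3]
  unfold WW
  rw [← Finset.prod_univ_sum]
  rw [← mul_prod_erase univ _ (mem_univ v), ← mul_prod_erase _ _ (mem_erase.2 ⟨hvw.symm, mem_univ w⟩)]
  have e4 : (univ.filter fun c : Ω v => (∀ h : v = v, h ▸ a = c) ∧ ∀ h : w = v, h ▸ b = c) = {a} := by
    ext c
    rw [mem_filter, mem_singleton]
    constructor
    · rintro ⟨_, h, _⟩
      exact (h rfl).symm
    · rintro rfl
      exact ⟨mem_univ _, fun _ => rfl, fun h => absurd h.symm hvw⟩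
  have e5 : (univ.filter fun c : Ω w => (∀ h : v = w, h ▸ a = c) ∧ ∀ h : w = w, h ▸ b = c) = {b} := by
    ext c
    rw [mem_filter, mem_singleton]
    constructor
    · rintro ⟨_, _, h⟩
      exact (h rfl).symm
    · rintro rfl
      exact ⟨mem_univ _, fun h => absurd h hvw, fun _ => rfl⟩
  rw [e4, e5, sum_singleton, sum_singleton, prod_eq_one, mul_one]
  intro u hu
  rw [mem_erase, mem_erase] at hu
  have e6 : (univ.filter fun c : Ω u => (∀ h : v = u, h ▸ a = c) ∧ ∀ h : w = u, h ▸ b = c) = univ :=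
    filter_true_of_mem fun c _ => ⟨fun h => absurd h.symm hu.2.1, fun h => absurd h.symm hu.1⟩
  rw [e6, h1]

end Pool.Agent.GW.LllW
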