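import Pool.Agent.GW.OnceA

/-!
# Cutting all long words of a union (`cutOnce`; `loop` is in LoopB.lean)

`cutOnce` = `cutChain` + `strand` + `netStrand`. New marks: images of the old marks without `a x`, `a y`. The sum of squares
`Phi = ∑_(d ∈ MK) (number of marks in the word of d)` drops by at least `2 m^2` (the word with `n` marks becomes two words with
`n1 + n2 = n - 2`, `n1, n2 ≥ m`), so at most `(32 m)^2 / (2 m^2) = 512` cuts.

`loop`: apply `cutOnce` as long as some word has at least `6 m` marks; invariant after `c` cuts: every outer word has at most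
`8 m` letters and no mark, or at most (number of its marks) + `2 c kap` letters; `t ≤ t0 + c`; every line has at most `β0 + c (2R+5)` bad labels;
`∑ marks f` does not increase. With `ω = omg B0 c1 N0` a strand which touches the hubs `T` raises `Ups` by at most `∑_(g ∈ T) ω g`,
as long as at most 512 strands (each touching at most `2R+5` hubs) have been used: `B0^(t g + 1) ≤ B0^(t0 g + 512)`, and for a newly
touched `g` every neighbour `h` has `nb h` raised, `B0^(nb h) ≤ B0^(nb0 h + 512 (2R+5))`.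
-/

set_option autoImplicit false

namespace Pool.Agent.GW

open Equiv Pool.Agent.SWP

/-- number of touched neighbours -/
noncomputable def nb {R B : ℕ} (t : Lab R B → ℕ) (g : Lab R B) : ℕ := {h | adj g h ∧ t h ≠ 0}.ncard

/-- potential of the touches -/
noncomputable def Ups {R B : ℕ} (B0 : ℝ) (t : Lab R B → ℕ) : ℝ := ∑ g, (B0 ^ t g + B0 ^ nb t g)

/-- weights for the next step -/
noncomputable def omg {R B : ℕ} (B0 : ℝ) (c1 : ℕ) (t : Lab R B → ℕ) (g : Lab R B) : ℝ :=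
  B0 ^ c1 * (B0 ^ t g + ∑ h, Set.indicator {h | adj g h} (fun h => B0 ^ nb t h) h)

/-- sum of the squares of the numbers of marks of the words -/
noncomputable def Phi {R B : ℕ} (N : NetS R B) (MK : Set N.S.D) : ℕ :=
  ∑ᶠ d ∈ MK, (MK ∩ N.S.word d).ncard

open Classical in
/-- one strand -/
theorem cutOnce {R B : ℕ} (hR : 2 ≤ R) (P : Par R B) (N : NetS R B) (hN : Ok P N) (b β M : ℕ)
    (hb : ∀ g, N.t g ≤ b) (hβ : FewBad P N β) (hM : M * 4 ^ (b + 1) ≤ P.K) (hK : 4 ^ (b + 1) * (R * β + 6) ≤ P.K)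
    (hB : 64 * (R + 3) ^ 2 * (β + P.K + 10) ≤ B) (ω s : Lab R B → ℝ) (hω : ∀ g, 0 ≤ ω g) (hs : ∀ g, 0 ≤ s g)
    (hr : RouteOK M ω s) (MK : Set N.S.D) (hMK : ∀ d ∈ MK, d ∉ N.F ∧ N.S.a d ≠ d) (z : N.S.D) (m : ℕ)
    (hz : 6 * m ≤ (MK ∩ N.S.word z).ncard) (hm : 2 * 4 ^ b * P.Th + 1 ≤ m) (L : ℕ)
    (hL : ∀ d, 6 * N.S.len d ≤ L) (hL2 : 6 * kap P b ≤ L) :
    ∃ (N' : NetS R B) (MK' : Set N'.S.D) (T : Finset (Lab R B)), Ok P N' ∧ (U L N'.S → U L N.S) ∧
      (∀ g, N'.t g = if g ∈ T then N.t g + 1 else N.t g) ∧ T.card ≤ 2 * R + 5 ∧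
      (∑ g ∈ T, ω g ≤ 4 / m * fsum N (fun g => ω g + s g) (MK ∩ N.S.word z)) ∧
      (prs N'.S N'.F).ncard ≤ (prs N.S N.F).ncard ∧ N'.S.num N'.Fᶜ ≤ N.S.num N.Fᶜ + 2 * kap P b ∧
      (∀ d ∈ MK', d ∉ N'.F ∧ N'.S.a d ≠ d) ∧ MK'.ncard ≤ MK.ncard ∧
      (∀ f : Lab R B → ℝ, (∀ g, 0 ≤ f g) → fsum N' f MK' ≤ fsum N f MK) ∧
      Phi N' MK' + 2 * m ^ 2 ≤ Phi N MK ∧
      ∀ n c : ℕ, (∀ d, d ∉ N.F → (N.S.len d ≤ n ∧ MK ∩ N.S.word d = ∅) ∨
          N.S.len d ≤ (MK ∩ N.S.word d).ncard + c) →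
        ∀ d, d ∉ N'.F → (N'.S.len d ≤ n ∧ MK' ∩ N'.S.word d = ∅) ∨
          N'.S.len d ≤ (MK' ∩ N'.S.word d).ncard + c + 2 * kap P b := by
  obtain ⟨x, y, l, hLC, hax, hay, hzc, hA1, hA2, hkap, T, hT, hTc, hTω⟩ :=
    cutChain hR P N hN b β M hb hβ hM hK hB ω s hω hs hr MK hMK z m hz hm
  have h := hLC.chn
  have hF := hN.fat
  obtain ⟨S', F', j, π, sd, zf, ze, C, hS, hU⟩ := strand N.S N.F hF l x y h L hL (by
    have h1 := hL (N.S.a x)
    omega)
  obtain ⟨fr', up', hOk⟩ := netStrand P N hN l x y hLC S' F' j π sd zf ze C hS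
  have hxF : N.S.a x ∉ N.F := (hMK _ hax).1
  have hyF : N.S.a y ∉ N.F := (hMK _ hay).1
  have hne := chn_ne' h
  have hMF : ∀ d ∈ MK, d ∉ N.F := fun d hd => (hMK d hd).1
  have hfin : ∀ A : Set N.S.D, A.Finite := fun A => Set.toFinite A
  have hfin' : ∀ A : Set S'.D, A.Finite := fun A => Set.toFinite A
  -- marks of the new net
  have hm1 : ∀ d ∈ MK \ {N.S.a x, N.S.a y}, ¬ Cut N.S l d := fun d hd =>
    ncut_of h (hMF d hd.1) (fun hc => hd.2 (Or.inl hc)) (fun hc => hd.2 (Or.inr hc))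
  -- the two arcs
  set A1 : Set N.S.D := {d | d ∈ MK ∧ Arc N.S.r (N.S.r (N.S.a x)) (N.S.a y) d} with hA1d
  set A2 : Set N.S.D := {d | d ∈ MK ∧ Arc N.S.r (N.S.r (N.S.a y)) (N.S.a x) d} with hA2d
  set M0 : Set N.S.D := {d | d ∈ MK ∧ ¬ N.S.r.SameCycle (N.S.a x) d} with hM0d
  have ht1 : ∀ d, Arc N.S.r (N.S.r (N.S.a x)) (N.S.a y) d ↔ Arc N.S.r (N.S.a x) (N.S.a y) d ∧ d ≠ N.S.a x :=
    fun d => arc_tail hne h.outer
  have ht2 : ∀ d, Arc N.S.r (N.S.r (N.S.a y)) (N.S.a x) d ↔ Arc N.S.r (N.S.a y) (N.S.a x) d ∧ d ≠ N.S.a y :=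
    fun d => arc_tail hne.symm h.outer.symm
  have hw1 : ∀ d, Arc N.S.r (N.S.r (N.S.a x)) (N.S.a y) d → N.S.r.SameCycle (N.S.a x) d :=
    fun d hd => arc_same ((ht1 d).1 hd).1
  have hw2 : ∀ d, Arc N.S.r (N.S.r (N.S.a y)) (N.S.a x) d → N.S.r.SameCycle (N.S.a x) d :=
    fun d hd => h.outer.trans (arc_same ((ht2 d).1 hd).1)
  have hdis : Disjoint A1 A2 := by
    rw [Set.disjoint_left]
    intro d h1 h2
    exact arc_disj h.outer ((ht1 d).1 h1.2).1 ((ht2 d).1 h2.2).1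
  have hd1 : Disjoint M0 A1 := by
    rw [Set.disjoint_left]
    intro d h1 h2
    exact h1.2 (hw1 d h2.2)
  have hd2 : Disjoint M0 A2 := by
    rw [Set.disjoint_left]
    intro d h1 h2
    exact h1.2 (hw2 d h2.2)
  have hcov : MK \ {N.S.a x, N.S.a y} = M0 ∪ (A1 ∪ A2) := by
    ext d
    constructor
    · rintro ⟨h1, h2⟩
      by_cases h3 : N.S.r.SameCycle (N.S.a x) d
      · right
        rcases (arc_split hne h.outer d).1 h3 with h4 | h4
        · left
          exact ⟨h1, (ht1 d).2 ⟨h4, fun hc => h2 (Or.inl hc)⟩⟩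
        · right
          exact ⟨h1, (ht2 d).2 ⟨h4, fun hc => h2 (Or.inr hc)⟩⟩
      · left
        exact ⟨h1, h3⟩
    · rintro (h1 | h1 | h1)
      · refine ⟨h1.1, ?_⟩
        rintro (hc | hc)
        · subst hc
          exact h1.2 (Perm.SameCycle.refl _ _)
        · have hc' : d = N.S.a y := hc
          subst hc'
          exact h1.2 h.outer
      · refine ⟨h1.1, ?_⟩
        rintro (hc | hc)
        · exact ((ht1 d).1 h1.2).2 hc
        · exact arc_ne_right h1.2 hc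
      · refine ⟨h1.1, ?_⟩
        rintro (hc | hc)
        · exact arc_ne_right h1.2 hc
        · exact ((ht2 d).1 h1.2).2 hc
  refine ⟨⟨S', F', fun c => N.hub (π c), fun c => N.lev (π c), fr', up',
      fun g => if ∃ p ∈ l, N.hub p.1 = g then N.t g + 1 else N.t g⟩,
    j '' (MK \ {N.S.a x, N.S.a y}), T, hOk, hU, ?_, hTc, hTω, hS.prs, num_strand hS _ hkap, ?_, ?_, ?_, ?_, ?_⟩
  · intro g
    show (if ∃ p ∈ l, N.hub p.1 = g then N.t g + 1 else N.t g) = _
    by_cases hg : g ∈ T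
    · rw [if_pos hg, if_pos ((hT g).1 hg)]
    · rw [if_neg hg, if_neg (fun hc => hg ((hT g).2 hc))]
  · rintro c ⟨d, hd, rfl⟩
    exact ⟨j_out hS (hMF d hd.1), (j_live hS (hm1 d hd)).2 (hMK d hd.1).2⟩
  · exact (Set.ncard_image_le (hfin _)).trans (Set.ncard_le_ncard Set.sdiff_subset (hfin _))
  · intro f hf
    show ∑ c, Set.indicator (j '' (MK \ {N.S.a x, N.S.a y})) (fun c => f (N.hub (π (S'.a c)))) c ≤ _
    rw [sum_ind_image hS.inj]
    unfold fsum
    apply Finset.sum_le_sum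
    intro d _
    by_cases hd : d ∈ MK \ {N.S.a x, N.S.a y}
    · rw [Set.indicator_of_mem hd, Set.indicator_of_mem hd.1, hS.ja d (hm1 d hd), hS.pj]
    · rw [Set.indicator_of_notMem hd]
      exact Set.indicator_nonneg (fun d _ => hf _) _
  · -- potential
    have hAB1 : ∀ d ∈ A1, (j '' (MK \ {N.S.a x, N.S.a y}) ∩ S'.word (j d)).ncard ≤ A1.ncard := by
      intro d hd
      have hc : ¬ Cut N.S l d := hm1 d (hcov ▸ Or.inr (Or.inl hd))
      have h1 : j d ∈ C false := (hS.CB d (hMF d hd.1) hc).2 hd.2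
      have h2 := part_marks hS h MK hMF false {d | Arc N.S.r (N.S.r (N.S.a x)) (N.S.a y) d} hS.CB h1
      refine (Set.ncard_le_ncard h2 (hfin' _)).trans ?_
      exact Set.ncard_image_le (hfin _)
    have hAB2 : ∀ d ∈ A2, (j '' (MK \ {N.S.a x, N.S.a y}) ∩ S'.word (j d)).ncard ≤ A2.ncard := by
      intro d hd
      have hc : ¬ Cut N.S l d := hm1 d (hcov ▸ Or.inr (Or.inr hd))
      have h1 : j d ∈ C true := (hS.CA d (hMF d hd.1) hc).2 hd.2
      have h2 := part_marks hS h MK hMF true {d | Arc N.S.r (N.S.r (N.S.a y)) (N.S.a x) d} hS.CA h1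
      refine (Set.ncard_le_ncard h2 (hfin' _)).trans ?_
      exact Set.ncard_image_le (hfin _)
    have hk0 : ∀ d ∈ M0, (j '' (MK \ {N.S.a x, N.S.a y}) ∩ S'.word (j d)).ncard = (MK ∩ N.S.word d).ncard := by
      intro d hd
      rw [off_marks hF h hS MK (hMF d hd.1) hd.2, Set.ncard_image_of_injective _ hS.inj]
    have hW : MK \ M0 = MK ∩ N.S.word (N.S.a x) := by
      ext d
      constructor
      · rintro ⟨h1, h2⟩
        refine ⟨h1, ?_⟩
        by_contra hc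
        exact h2 ⟨h1, hc⟩
      · rintro ⟨h1, h2⟩
        exact ⟨h1, fun hc => hc.2 h2⟩
    have hkn : ∀ d ∈ MK, d ∉ M0 → (MK ∩ N.S.word d).ncard = (MK ∩ N.S.word (N.S.a x)).ncard := by
      intro d hd hd0
      have h1 : d ∈ MK ∩ N.S.word (N.S.a x) := hW ▸ ⟨hd, hd0⟩
      have h2 : N.S.word d = N.S.word (N.S.a x) := by
        ext e
        exact ⟨fun h3 => h1.2.trans h3, fun h3 => h1.2.symm.trans h3⟩
      rw [h2]
    have hsq := sq_split hS.inj MK M0 A1 A2 (fun d => (MK ∩ N.S.word d).ncard)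
      (fun c => (j '' (MK \ {N.S.a x, N.S.a y}) ∩ S'.word c).ncard) (MK ∩ N.S.word (N.S.a x)).ncard A1.ncard
      A2.ncard (fun d hd => hd.1) hd1 hd2 hdis _ hcov hk0 hkn hAB1 hAB2 (by rw [hW]) rfl rfl
    have hn : A1.ncard + A2.ncard + 2 ≤ (MK ∩ N.S.word (N.S.a x)).ncard := by
      have h1 : (A1 ∪ A2).ncard = A1.ncard + A2.ncard := Set.ncard_union_eq hdis (hfin _) (hfin _)
      have h2 : ({N.S.a x, N.S.a y} : Set N.S.D).ncard = 2 := Set.ncard_pair hne
      have h3 : ((A1 ∪ A2) ∪ {N.S.a x, N.S.a y}).ncard = (A1 ∪ A2).ncard + ({N.S.a x, N.S.a y} : Set N.S.D).ncard := by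
        apply Set.ncard_union_eq _ (hfin _) (hfin _)
        rw [Set.disjoint_left]
        intro d h4 h5
        have h6 : d ∈ MK \ {N.S.a x, N.S.a y} := hcov ▸ Or.inr h4
        exact h6.2 h5
      have h4 : (A1 ∪ A2) ∪ {N.S.a x, N.S.a y} ⊆ MK ∩ N.S.word (N.S.a x) := by
        rintro d ((h5 | h5) | (h5 | h5))
        · exact ⟨h5.1, hw1 d h5.2⟩
        · exact ⟨h5.1, hw2 d h5.2⟩
        · subst h5
          exact ⟨hax, Perm.SameCycle.refl _ _⟩
        · have h6 : d = N.S.a y := h5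
          subst h6
          exact ⟨hay, h.outer⟩
      have h5 := Set.ncard_le_ncard h4 (hfin _)
      omega
    show (∑ᶠ c ∈ j '' (MK \ {N.S.a x, N.S.a y}), (j '' (MK \ {N.S.a x, N.S.a y}) ∩ S'.word c).ncard) + 2 * m ^ 2 ≤
      ∑ᶠ d ∈ MK, (MK ∩ N.S.word d).ncard
    have hsq2 : (∑ᶠ c ∈ j '' (MK \ {N.S.a x, N.S.a y}), (j '' (MK \ {N.S.a x, N.S.a y}) ∩ S'.word c).ncard) +
      (MK ∩ N.S.word (N.S.a x)).ncard * (MK ∩ N.S.word (N.S.a x)).ncard ≤
      (∑ᶠ d ∈ MK, (MK ∩ N.S.word d).ncard) + A1.ncard * A1.ncard + A2.ncard * A2.ncard := hsq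
    have h1 : (A1.ncard + A2.ncard) * (A1.ncard + A2.ncard) ≤
        (MK ∩ N.S.word (N.S.a x)).ncard * (MK ∩ N.S.word (N.S.a x)).ncard :=
      Nat.mul_le_mul (by omega) (by omega)
    have h2 : m * m ≤ A1.ncard * A2.ncard := Nat.mul_le_mul hA1 hA2
    nlinarith [hsq2, h1, h2]
  · intro n c hyp
    have hcx : N.S.len (N.S.a x) ≤ (MK ∩ N.S.word (N.S.a x)).ncard + c := by
      rcases hyp _ hxF with h1 | h1
      · exfalso
        have h2 : N.S.a x ∈ MK ∩ N.S.word (N.S.a x) := ⟨hax, Perm.SameCycle.refl _ _⟩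
        rw [h1.2] at h2
        exact h2
      · exact h1
    intro e he
    have he' : e ∉ F' := he
    show (S'.len e ≤ n ∧ j '' (MK \ {N.S.a x, N.S.a y}) ∩ S'.word e = ∅) ∨
      S'.len e ≤ (j '' (MK \ {N.S.a x, N.S.a y}) ∩ S'.word e).ncard + c + 2 * kap P b
    rcases hS.Ccov e he' with ⟨d, rfl, hd, hn⟩ | h1 | h1
    · rw [off_len hF h hS hd hn, off_marks hF h hS MK hd hn, Set.ncard_image_of_injective _ hS.inj]
      rcases hyp d hd with h2 | h2
      · left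
        rw [h2.2]
        exact ⟨h2.1, Set.image_empty j⟩
      · right
        omega
    · right
      exact part_len hS h MK hMK true (kap P b) c hkap hcx _ hS.CA hw2 h1
    · right
      exact part_len hS h MK hMK false (kap P b) c hkap hcx _ hS.CB hw1 h1

end Pool.Agent.GW
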