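import Pool.Agent.GW.Loop

/-!
# GW/LoopB: all long words of the union are cut (proof of `loop`)
-/

set_option autoImplicit false

namespace Pool.Agent.GW

open Equiv Pool.Agent.SWP

theorem Phi_le {R B : ℕ} (N : NetS R B) (MK : Set N.S.D) : Phi N MK ≤ MK.ncard * MK.ncard := by
  unfold Phi
  rw [finsum_mem_eq_finite_toFinset_sum _ (Set.toFinite MK)]
  have h1 := Finset.sum_le_card_nsmul (Set.toFinite MK).toFinset (fun d => (MK ∩ N.S.word d).ncard) MK.ncard
    (fun d _ => Set.ncard_le_ncard Set.inter_subset_left (Set.toFinite MK))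
  rw [← Set.ncard_eq_toFinset_card MK (Set.toFinite MK), nsmul_eq_mul] at h1
  exact_mod_cast h1

theorem adj_symm' {R B : ℕ} {g h : Lab R B} (a : adj g h) : adj h g := by
  obtain ⟨i, h1, h2⟩ := a
  exact ⟨i, fun h3 => h1 h3.symm, fun i' hi' => (h2 i' hi').symm⟩

theorem omg_nonneg {R B : ℕ} {B0 : ℝ} (hB0 : 1 ≤ B0) (c1 : ℕ) (t : Lab R B → ℕ) (g : Lab R B) :
    0 ≤ omg B0 c1 t g := by
  have h0 : 0 ≤ B0 := by linarith
  unfold omg
  apply mul_nonneg (pow_nonneg h0 _)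
  apply add_nonneg (pow_nonneg h0 _)
  apply Finset.sum_nonneg
  intro h _
  exact Set.indicator_nonneg (fun h _ => pow_nonneg h0 _) h

open Classical in
theorem Ups_step {R B : ℕ} {B0 : ℝ} (hB0 : 1 ≤ B0) (t0 t t' : Lab R B → ℕ) (T : Finset (Lab R B)) (c e q c1 : ℕ)
    (h1 : ∀ g, t g ≤ t0 g + c) (hD : {g | t g ≠ t0 g}.ncard ≤ e)
    (ht' : ∀ g, t' g = if g ∈ T then t g + 1 else t g) (hT : T.card ≤ q) (hc : c + 1 ≤ c1) (he : e + q ≤ c1) :
    Ups B0 t' ≤ Ups B0 t + ∑ g ∈ T, omg B0 c1 t0 g := by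
  have h0 : 0 ≤ B0 := by linarith
  have hpt : ∀ g, B0 ^ t' g + B0 ^ nb t' g ≤ (B0 ^ t g + B0 ^ nb t g) +
      ((if g ∈ T then B0 ^ c1 * B0 ^ t0 g else 0) +
        ∑ h ∈ T, Set.indicator {g | adj h g} (fun g => B0 ^ c1 * B0 ^ nb t0 g) g) := by
    intro g
    have hA : B0 ^ t' g ≤ B0 ^ t g + (if g ∈ T then B0 ^ c1 * B0 ^ t0 g else 0) := by
      rw [ht' g]
      by_cases hg : g ∈ T
      · rw [if_pos hg, if_pos hg, ← pow_add]
        have h2 : B0 ^ (t g + 1) ≤ B0 ^ (c1 + t0 g) := pow_le_pow_right₀ hB0 (by have := h1 g; omega)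
        have h3 : 0 ≤ B0 ^ t g := pow_nonneg h0 _
        linarith
      · rw [if_neg hg, if_neg hg, add_zero]
    have hBp : B0 ^ nb t' g ≤ B0 ^ nb t g +
        ∑ h ∈ T, Set.indicator {g | adj h g} (fun g => B0 ^ c1 * B0 ^ nb t0 g) g := by
      have hnn : ∀ h ∈ T, 0 ≤ Set.indicator {g | adj h g} (fun g => B0 ^ c1 * B0 ^ nb t0 g) g := by
        intro h _
        exact Set.indicator_nonneg (fun g _ => mul_nonneg (pow_nonneg h0 _) (pow_nonneg h0 _)) g
      by_cases hex : ∃ h ∈ T, adj g h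
      · obtain ⟨h, hh, hadj⟩ := hex
        have h2 : B0 ^ c1 * B0 ^ nb t0 g ≤
            ∑ h ∈ T, Set.indicator {g | adj h g} (fun g => B0 ^ c1 * B0 ^ nb t0 g) g := by
          have h3 := Finset.single_le_sum hnn hh
          rw [Set.indicator_of_mem (show g ∈ {g | adj h g} from adj_symm' hadj)] at h3
          exact h3
        have h4 : nb t' g ≤ nb t0 g + (e + q) := by
          unfold nb
          have h5 : {h | adj g h ∧ t' h ≠ 0} ⊆ {h | adj g h ∧ t0 h ≠ 0} ∪ ({g | t g ≠ t0 g} ∪ (T : Set (Lab R B))) := by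
            intro x hx
            by_cases hx0 : t0 x = 0
            · right
              by_cases hxt : t x = t0 x
              · right
                by_contra hxT
                have := hx.2
                rw [ht' x, if_neg (by simpa using hxT)] at this
                omega
              · left; exact hxt
            · left; exact ⟨hx.1, hx0⟩
          refine (Set.ncard_le_ncard h5 (Set.toFinite _)).trans ((Set.ncard_union_le _ _).trans ?_)
          refine Nat.add_le_add_left ((Set.ncard_union_le _ _).trans ?_) _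
          rw [Set.ncard_coe_finset]
          exact Nat.add_le_add hD hT
        have h6 : B0 ^ nb t' g ≤ B0 ^ (c1 + nb t0 g) := pow_le_pow_right₀ hB0 (by omega)
        rw [pow_add] at h6
        have h7 : 0 ≤ B0 ^ nb t g := pow_nonneg h0 _
        linarith
      · push Not at hex
        have h2 : nb t' g = nb t g := by
          unfold nb
          congr 1
          ext x
          simp only [Set.mem_ofPred_eq]
          constructor
          · rintro ⟨ha, hx⟩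
            refine ⟨ha, ?_⟩
            rwa [ht' x, if_neg (fun hxT => hex x hxT ha)] at hx
          · rintro ⟨ha, hx⟩
            refine ⟨ha, ?_⟩
            rwa [ht' x, if_neg (fun hxT => hex x hxT ha)]
        rw [h2]
        have h3 := Finset.sum_nonneg hnn
        linarith
    linarith
  have hsum : Ups B0 t' ≤ Ups B0 t + (∑ g, (if g ∈ T then B0 ^ c1 * B0 ^ t0 g else 0) +
      ∑ g, ∑ h ∈ T, Set.indicator {g | adj h g} (fun g => B0 ^ c1 * B0 ^ nb t0 g) g) := by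
    unfold Ups
    rw [← Finset.sum_add_distrib, ← Finset.sum_add_distrib]
    exact Finset.sum_le_sum (fun g _ => hpt g)
  refine hsum.trans (le_of_eq ?_)
  congr 1
  rw [Finset.sum_comm]
  have h8 : ∑ g ∈ T, omg B0 c1 t0 g = ∑ g ∈ T, B0 ^ c1 * B0 ^ t0 g +
      ∑ g ∈ T, ∑ h, Set.indicator {g' | adj g g'} (fun g' => B0 ^ c1 * B0 ^ nb t0 g') h := by
    rw [← Finset.sum_add_distrib]
    refine Finset.sum_congr rfl (fun g _ => ?_)
    unfold omg
    rw [mul_add, Finset.mul_sum]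
    congr 1
    refine Finset.sum_congr rfl (fun h _ => ?_)
    by_cases hh : adj g h
    · rw [Set.indicator_of_mem (show h ∈ {h | adj g h} from hh),
        Set.indicator_of_mem (show h ∈ {g' | adj g g'} from hh)]
    · rw [Set.indicator_of_notMem (show h ∉ {h | adj g h} from hh),
        Set.indicator_of_notMem (show h ∉ {g' | adj g g'} from hh), mul_zero]
  rw [h8]
  congr 1
  rw [← Finset.sum_filter]
  congr 1
  ext g; simp

/-- a fat word is short -/
theorem fat_len {R B : ℕ} {P : Par R B} {N : NetS R B} (hN : Ok P N) {b : ℕ} (hb : ∀ g, N.t g ≤ b) {d : N.S.D}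
    (hd : d ∈ N.F) : N.S.len d ≤ 4 ^ b * P.Th := by
  have hpow : ∀ (k : ℕ), (N.S.r ^ k) d ∈ N.F ∧ N.hub ((N.S.r ^ k) d) = N.hub d := by
    intro k
    induction k with
    | zero => exact ⟨hd, rfl⟩
    | succ k ih =>
      rw [pow_succ', Perm.mul_apply]
      exact ⟨(hN.fat.inv _).2 ih.1, (hN.hubr _ ih.1).trans ih.2⟩
  have hsub : N.S.word d ∩ N.S.live ⊆ {e | e ∈ N.F ∧ N.hub e = N.hub d} := by
    rintro e ⟨he, _⟩
    obtain ⟨k, hk⟩ := (show N.S.r.SameCycle d e from he).exists_pow_eq''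
    obtain ⟨hk1, hk2, hk3⟩ := hk
    rw [← hk3]
    exact hpow _
  refine (Set.ncard_le_ncard hsub (Set.toFinite _)).trans ((hN.cT (N.hub d)).trans ?_)
  exact Nat.mul_le_mul_right _ (Nat.pow_le_pow_right (by norm_num) (hb _))

/-- state after `c` cuts -/
structure LInv {R B : ℕ} (P : Par R B) (N : NetS R B) (MK : Set N.S.D) (B0 : ℝ) (s : Lab R B → ℝ) (m b L c : ℕ)
    (N' : NetS R B) (MK' : Set N'.S.D) : Prop where
  ok : Ok P N'
  u : U L N'.S → U L N.S
  prs : (prs N'.S N'.F).ncard ≤ (prs N.S N.F).ncard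
  num : N'.S.num N'.Fᶜ ≤ N.S.num N.Fᶜ + c * (2 * kap P b)
  mkl : ∀ d ∈ MK', d ∉ N'.F ∧ N'.S.a d ≠ d
  card : MK'.ncard ≤ MK.ncard
  fs : ∀ f : Lab R B → ℝ, (∀ g, 0 ≤ f g) → fsum N' f MK' ≤ fsum N f MK
  phi : Phi N' MK' + c * (2 * m ^ 2) ≤ Phi N MK
  len : ∀ d, d ∉ N'.F → (N'.S.len d ≤ 8 * m ∧ MK' ∩ N'.S.word d = ∅) ∨
    N'.S.len d ≤ (MK' ∩ N'.S.word d).ncard + c * (2 * kap P b)
  t1 : ∀ g, N'.t g ≤ N.t g + c
  tD : {g | N'.t g ≠ N.t g}.ncard ≤ c * (2 * R + 5)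
  ups : Ups B0 N'.t ≤ Ups B0 N.t +
    c * (4 / m * fsum N (fun g => omg B0 (512 * (2 * R + 5) + 1) N.t g + s g) MK)

theorem fsum_mono {R B : ℕ} (N : NetS R B) (f : Lab R B → ℝ) (hf : ∀ g, 0 ≤ f g) {A A' : Set N.S.D} (h : A ⊆ A') :
    fsum N f A ≤ fsum N f A' := by
  unfold fsum
  refine Finset.sum_le_sum (fun d _ => ?_)
  exact Set.indicator_le_indicator_of_subset h (fun d => hf _) d

theorem fewBad_step {R B : ℕ} {P : Par R B} {N N' : NetS R B} {β e : ℕ} (hβ : FewBad P N β)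
    (hD : {g | N'.t g ≠ N.t g}.ncard ≤ e) : FewBad P N' (β + e) := by
  intro g i
  have h1 : {v : Fin B | Function.update g i v ∉ P.pres ∨ N'.t (Function.update g i v) ≠ 0} ⊆
      {v : Fin B | Function.update g i v ∉ P.pres ∨ N.t (Function.update g i v) ≠ 0} ∪
      {v : Fin B | N'.t (Function.update g i v) ≠ N.t (Function.update g i v)} := by
    rintro v (hv | hv)
    · exact Or.inl (Or.inl hv)
    · by_cases h2 : N'.t (Function.update g i v) = N.t (Function.update g i v)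
      · exact Or.inl (Or.inr (by rwa [h2] at hv))
      · exact Or.inr h2
  refine (Set.ncard_le_ncard h1 (Set.toFinite _)).trans ((Set.ncard_union_le _ _).trans ?_)
  refine Nat.add_le_add (hβ g i) (le_trans ?_ hD)
  refine Set.ncard_le_ncard_of_injOn (fun v => Function.update g i v) (fun v hv => hv) ?_ (Set.toFinite _)
  intro v _ w _ hvw
  exact Function.update_injective g i hvw

theorem FewBad.mono {R B : ℕ} {P : Par R B} {N : NetS R B} {β β' : ℕ} (hβ : FewBad P N β) (h : β ≤ β') :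
    FewBad P N β' := fun g i => (hβ g i).trans h

theorem LInv.step {R B : ℕ} (hR : 2 ≤ R) (P : Par R B) (N : NetS R B) (b β M : ℕ)
    (hb : ∀ g, N.t g + 512 ≤ b) (hβ : FewBad P N β) (hM : M * 4 ^ (b + 1) ≤ P.K)
    (hK : 4 ^ (b + 1) * (R * (β + 512 * (2 * R + 5)) + 6) ≤ P.K)
    (hB : 64 * (R + 3) ^ 2 * (β + 512 * (2 * R + 5) + P.K + 10) ≤ B)
    (B0 : ℝ) (hB0 : 1 ≤ B0) (s : Lab R B → ℝ) (hs : ∀ g, 0 ≤ s g)
    (hr : RouteOK M (omg B0 (512 * (2 * R + 5) + 1) N.t) s) (MK : Set N.S.D)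
    (m : ℕ) (hn : MK.ncard ≤ 32 * m) (hm : 512 * kap P b + 1 ≤ m) (hΘ : 2 * 4 ^ b * P.Th + 1 ≤ m)
    (L : ℕ) (hL : 220 * m ≤ L) (c : ℕ) (hc : c ≤ 512) (N' : NetS R B) (MK' : Set N'.S.D)
    (h : LInv P N MK B0 s m b L c N' MK') (z : N'.S.D) (hz : 6 * m ≤ (MK' ∩ N'.S.word z).ncard) :
    ∃ (N'' : NetS R B) (MK'' : Set N''.S.D), c + 1 ≤ 512 ∧ LInv P N MK B0 s m b L (c + 1) N'' MK'' := by
  have hm1 : 1 ≤ m := by omega
  have hω : ∀ g, 0 ≤ omg B0 (512 * (2 * R + 5) + 1) N.t g := omg_nonneg hB0 _ _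
  have hcq : c * (2 * R + 5) ≤ 512 * (2 * R + 5) := Nat.mul_le_mul_right _ hc
  have hb' : ∀ g, N'.t g ≤ b := fun g => by have := h.t1 g; have := hb g; omega
  have hβ' : FewBad P N' (β + 512 * (2 * R + 5)) :=
    (fewBad_step hβ h.tD).mono (Nat.add_le_add_left hcq _)
  have hkc : c * (2 * kap P b) ≤ 2 * m := by
    calc c * (2 * kap P b) ≤ 512 * (2 * kap P b) := Nat.mul_le_mul_right _ hc
      _ ≤ 2 * m := by omega
  have hlen : ∀ d, 6 * N'.S.len d ≤ L := by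
    intro d
    by_cases hd : d ∈ N'.F
    · have h1 := fat_len h.ok hb' hd
      have h2 : 2 * 4 ^ b * P.Th = 2 * (4 ^ b * P.Th) := by ring
      omega
    · rcases h.len d hd with ⟨h1, _⟩ | h1
      · omega
      · have h2 : (MK' ∩ N'.S.word d).ncard ≤ 32 * m :=
          (Set.ncard_le_ncard Set.inter_subset_left (Set.toFinite _)).trans (h.card.trans hn)
        omega
  obtain ⟨N2, MK2, T, hok, hu, ht, hT, hcost, hprs, hnum, hmk, hcard, hfs, hphi, hlen2⟩ :=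
    cutOnce hR P N' h.ok b (β + 512 * (2 * R + 5)) M hb' hβ' hM hK hB (omg B0 (512 * (2 * R + 5) + 1) N.t) s hω hs hr
      MK' h.mkl z m hz hΘ L hlen (by omega)
  have hphi0 : Phi N MK ≤ 1024 * m ^ 2 := by
    refine (Phi_le N MK).trans ?_
    calc MK.ncard * MK.ncard ≤ (32 * m) * (32 * m) := Nat.mul_le_mul hn hn
      _ = 1024 * m ^ 2 := by ring
  have hphi2 : Phi N2 MK2 + (c + 1) * (2 * m ^ 2) ≤ Phi N MK := by
    have := h.phi
    have e1 : (c + 1) * (2 * m ^ 2) = c * (2 * m ^ 2) + 2 * m ^ 2 := by ring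
    rw [e1]; omega
  have hc1 : c + 1 ≤ 512 := by
    have h1 : (c + 1) * (2 * m ^ 2) ≤ 512 * (2 * m ^ 2) := by
      calc (c + 1) * (2 * m ^ 2) ≤ Phi N MK := by omega
        _ ≤ 1024 * m ^ 2 := hphi0
        _ = 512 * (2 * m ^ 2) := by ring
    exact Nat.le_of_mul_le_mul_right h1 (by positivity)
  refine ⟨N2, MK2, hc1, ?_⟩
  have hfnn : ∀ g, 0 ≤ (fun g => omg B0 (512 * (2 * R + 5) + 1) N.t g + s g) g := fun g => add_nonneg (hω g) (hs g)
  have hcost2 : ∑ g ∈ T, omg B0 (512 * (2 * R + 5) + 1) N.t g ≤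
      4 / m * fsum N (fun g => omg B0 (512 * (2 * R + 5) + 1) N.t g + s g) MK := by
    refine hcost.trans ?_
    apply mul_le_mul_of_nonneg_left _ (by positivity)
    exact (fsum_mono N' _ hfnn Set.inter_subset_left).trans (h.fs _ hfnn)
  refine ⟨hok, fun h1 => h.u (hu h1), hprs.trans h.prs, ?_, hmk, hcard.trans h.card,
    fun f hf => (hfs f hf).trans (h.fs f hf), hphi2, ?_, ?_, ?_, ?_⟩
  · have := h.num
    have e1 : (c + 1) * (2 * kap P b) = c * (2 * kap P b) + 2 * kap P b := by ring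
    rw [e1]; omega
  · intro d hd
    have h1 := hlen2 (8 * m) (c * (2 * kap P b)) h.len d hd
    have e1 : (c + 1) * (2 * kap P b) = c * (2 * kap P b) + 2 * kap P b := by ring
    rw [e1, ← add_assoc]
    exact h1
  · intro g
    rw [ht g]
    have := h.t1 g
    split_ifs <;> omega
  · have h1 : {g | N2.t g ≠ N.t g} ⊆ {g | N'.t g ≠ N.t g} ∪ (T : Set (Lab R B)) := by
      intro g hg
      by_cases hgT : g ∈ T
      · exact Or.inr hgT
      · left
        have h2 : N2.t g ≠ N.t g := hg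
        rw [ht g, if_neg hgT] at h2
        exact h2
    refine (Set.ncard_le_ncard h1 (Set.toFinite _)).trans ((Set.ncard_union_le _ _).trans ?_)
    rw [Set.ncard_coe_finset]
    have e1 : (c + 1) * (2 * R + 5) = c * (2 * R + 5) + (2 * R + 5) := by ring
    rw [e1]
    exact Nat.add_le_add h.tD hT
  · have h1 : Ups B0 N2.t ≤ Ups B0 N'.t + ∑ g ∈ T, omg B0 (512 * (2 * R + 5) + 1) N.t g := by
      refine Ups_step hB0 N.t N'.t N2.t T c (c * (2 * R + 5)) (2 * R + 5) (512 * (2 * R + 5) + 1) h.t1 h.tD ?_ hT ?_ ?_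
      · intro g
        rw [ht g]
      · omega
      · have e1 : c * (2 * R + 5) + (2 * R + 5) = (c + 1) * (2 * R + 5) := by ring
        rw [e1]
        have := Nat.mul_le_mul_right (2 * R + 5) hc1
        omega
    have h2 := h.ups
    push_cast
    linarith

theorem loop_go {R B : ℕ} (hR : 2 ≤ R) (P : Par R B) (N : NetS R B) (b β M : ℕ)
    (hb : ∀ g, N.t g + 512 ≤ b) (hβ : FewBad P N β) (hM : M * 4 ^ (b + 1) ≤ P.K)
    (hK : 4 ^ (b + 1) * (R * (β + 512 * (2 * R + 5)) + 6) ≤ P.K)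
    (hB : 64 * (R + 3) ^ 2 * (β + 512 * (2 * R + 5) + P.K + 10) ≤ B)
    (B0 : ℝ) (hB0 : 1 ≤ B0) (s : Lab R B → ℝ) (hs : ∀ g, 0 ≤ s g)
    (hr : RouteOK M (omg B0 (512 * (2 * R + 5) + 1) N.t) s) (MK : Set N.S.D)
    (m : ℕ) (hn : MK.ncard ≤ 32 * m) (hm : 512 * kap P b + 1 ≤ m) (hΘ : 2 * 4 ^ b * P.Th + 1 ≤ m)
    (L : ℕ) (hL : 220 * m ≤ L) : ∀ k c : ℕ, c + k = 512 → ∀ (N' : NetS R B) (MK' : Set N'.S.D),
      LInv P N MK B0 s m b L c N' MK' →
    ∃ (N' : NetS R B) (MK' : Set N'.S.D) (c : ℕ), c ≤ 512 ∧ LInv P N MK B0 s m b L c N' MK' ∧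
      ∀ z, (MK' ∩ N'.S.word z).ncard < 6 * m := by
  intro k
  induction k with
  | zero =>
    intro c hc N' MK' h
    by_cases hz : ∃ z, 6 * m ≤ (MK' ∩ N'.S.word z).ncard
    · obtain ⟨z, hz⟩ := hz
      obtain ⟨_, _, hc1, _⟩ := LInv.step hR P N b β M hb hβ hM hK hB B0 hB0 s hs hr MK m hn hm hΘ L hL c (by omega)
        N' MK' h z hz
      omega
    · push Not at hz
      exact ⟨N', MK', c, by omega, h, hz⟩
  | succ k ih =>
    intro c hc N' MK' h
    by_cases hz : ∃ z, 6 * m ≤ (MK' ∩ N'.S.word z).ncard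
    · obtain ⟨z, hz⟩ := hz
      obtain ⟨N2, MK2, hc1, h2⟩ := LInv.step hR P N b β M hb hβ hM hK hB B0 hB0 s hs hr MK m hn hm hΘ L hL c (by omega)
        N' MK' h z hz
      exact ih (c + 1) (by omega) N2 MK2 h2
    · push Not at hz
      exact ⟨N', MK', c, by omega, h, hz⟩

/-- all long words of the union are cut -/
theorem loop {R B : ℕ} (hR : 2 ≤ R) (P : Par R B) (N : NetS R B) (hN : Ok P N) (b β M : ℕ)
    (hb : ∀ g, N.t g + 512 ≤ b) (hβ : FewBad P N β) (hM : M * 4 ^ (b + 1) ≤ P.K)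
    (hK : 4 ^ (b + 1) * (R * (β + 512 * (2 * R + 5)) + 6) ≤ P.K)
    (hB : 64 * (R + 3) ^ 2 * (β + 512 * (2 * R + 5) + P.K + 10) ≤ B)
    (B0 : ℝ) (hB0 : 1 ≤ B0) (s : Lab R B → ℝ) (hs : ∀ g, 0 ≤ s g)
    (hr : RouteOK M (omg B0 (512 * (2 * R + 5) + 1) N.t) s) (MK : Set N.S.D) (hMK : ∀ d ∈ MK, d ∉ N.F ∧ N.S.a d ≠ d)
    (m : ℕ) (hn : MK.ncard ≤ 32 * m) (hm : 512 * kap P b + 1 ≤ m) (hΘ : 2 * 4 ^ b * P.Th + 1 ≤ m)
    (hl : ∀ d, d ∉ N.F → (N.S.len d ≤ 8 * m ∧ MK ∩ N.S.word d = ∅) ∨ N.S.len d ≤ (MK ∩ N.S.word d).ncard)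
    (L : ℕ) (hL : 220 * m ≤ L) :
    ∃ N' : NetS R B, Ok P N' ∧ (U L N'.S → U L N.S) ∧ (∀ d, d ∉ N'.F → N'.S.len d ≤ 8 * m) ∧
      (prs N'.S N'.F).ncard ≤ (prs N.S N.F).ncard ∧ N'.S.num N'.Fᶜ ≤ N.S.num N.Fᶜ + 1024 * kap P b ∧
      Ups B0 N'.t ≤ Ups B0 N.t +
        2048 / m * fsum N (fun g => omg B0 (512 * (2 * R + 5) + 1) N.t g + s g) MK := by
  have h0 : LInv P N MK B0 s m b L 0 N MK := by
    refine ⟨hN, fun h => h, le_rfl, by omega, hMK, le_rfl, fun f _ => le_rfl, by omega, ?_, fun g => by omega, ?_, ?_⟩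
    · intro d hd
      rcases hl d hd with h1 | h1
      · exact Or.inl h1
      · right; omega
    · have h1 : {g | N.t g ≠ N.t g} = (∅ : Set (Lab R B)) := by ext g; simp
      rw [h1, Set.ncard_empty]; omega
    · simp
  obtain ⟨N', MK', c, hc, h, hz⟩ := loop_go hR P N b β M hb hβ hM hK hB B0 hB0 s hs hr MK m hn hm hΘ L hL 512 0 (by omega)
    N MK h0
  have hkc : c * (2 * kap P b) ≤ 1024 * kap P b := by
    calc c * (2 * kap P b) ≤ 512 * (2 * kap P b) := Nat.mul_le_mul_right _ hc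
      _ = 1024 * kap P b := by ring
  refine ⟨N', h.ok, h.u, ?_, h.prs, h.num.trans (by omega), h.ups.trans ?_⟩
  · intro d hd
    rcases h.len d hd with h1 | h1
    · exact h1.1
    · have := hz d
      omega
  · have hω : ∀ g, 0 ≤ omg B0 (512 * (2 * R + 5) + 1) N.t g := omg_nonneg hB0 _ _
    have h1 : 0 ≤ 4 / (m : ℝ) * fsum N (fun g => omg B0 (512 * (2 * R + 5) + 1) N.t g + s g) MK := by
      apply mul_nonneg (by positivity)
      unfold fsum
      apply Finset.sum_nonneg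
      intro d _
      exact Set.indicator_nonneg (fun d _ => add_nonneg (hω _) (hs _)) d
    have h2 : (c : ℝ) ≤ 512 := by exact_mod_cast hc
    have h3 : (c : ℝ) * (4 / m * fsum N (fun g => omg B0 (512 * (2 * R + 5) + 1) N.t g + s g) MK) ≤
        512 * (4 / m * fsum N (fun g => omg B0 (512 * (2 * R + 5) + 1) N.t g + s g) MK) :=
      mul_le_mul_of_nonneg_right h2 h1
    have h4 : 512 * (4 / (m : ℝ) * fsum N (fun g => omg B0 (512 * (2 * R + 5) + 1) N.t g + s g) MK) =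
        2048 / m * fsum N (fun g => omg B0 (512 * (2 * R + 5) + 1) N.t g + s g) MK := by ring
    linarith

end Pool.Agent.GW
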