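import Pool.Agent.GW.UBas

/-!
# Gluing the words of every cell together

`merge`: as long as some cell has two words there is (connectivity) a letter `d` with `a d` in another word of the same cell; glue
it (the two words are merged, the word has at most as many letters as the cell). At the end `purge`.
-/

set_option autoImplicit false

namespace Pool.Agent.GW

open Equiv Pool.Agent.SWP

/-- multiplying by the swap of two letters in different cycles: the two letters are now in one cycle -/
private theorem Merge_join {D : Type} [Finite D] (s : Perm D) (p q : D) (h : ¬ s.SameCycle p q) :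
    (s * sw p q).SameCycle p q := by
  classical
  have := Fintype.ofFinite D
  set t := s * sw p q with ht
  have hne : ∀ k : ℕ, (s ^ k) q ≠ p := by
    intro k hk
    exact h (Perm.SameCycle.symm ⟨(k : ℤ), by simpa using hk⟩)
  have hp : t p = s q := by rw [ht, Perm.mul_apply, sw_left]
  have key : ∀ k : ℕ, t.SameCycle p q ∨ t.SameCycle p ((s ^ (k + 1)) q) := by
    intro k
    induction k with
    | zero =>
      right
      rw [zero_add, pow_one, ← hp]
      exact Perm.sameCycle_apply_right.2 (Perm.SameCycle.refl _ _)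
    | succ k ih =>
      rcases ih with ih | ih
      · exact Or.inl ih
      · by_cases hq : (s ^ (k + 1)) q = q
        · rw [hq] at ih; exact Or.inl ih
        · right
          have h1 : t ((s ^ (k + 1)) q) = (s ^ (k + 1 + 1)) q := by
            rw [ht, Perm.mul_apply, sw_of_ne (hne _) hq, ← Perm.mul_apply, ← pow_succ']
          rw [← h1]
          exact Perm.sameCycle_apply_right.2 ih
  obtain ⟨n, hn, hn1⟩ : ∃ n : ℕ, 0 < n ∧ s ^ n = 1 := ⟨orderOf s, orderOf_pos s, pow_orderOf_eq_one s⟩
  obtain ⟨k, rfl⟩ : ∃ k, n = k + 1 := ⟨n - 1, by omega⟩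
  rcases key k with h1 | h1
  · exact h1
  · rw [hn1] at h1; simpa using h1

/-- old cycles stay together -/
private theorem Merge_old {D : Type} [Finite D] (s : Perm D) (p q : D) (h : ¬ s.SameCycle p q) {x y : D}
    (hxy : s.SameCycle x y) : (s * sw p q).SameCycle x y := by
  have hj := Merge_join s p q h
  set t := s * sw p q with ht
  have hp : t p = s q := by rw [ht, Perm.mul_apply, sw_left]
  have hq : t q = s p := by rw [ht, Perm.mul_apply, sw_right]
  have hstep : ∀ z, t.SameCycle z (s z) := by
    intro z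
    by_cases h1 : z = p
    · subst h1
      rw [← hq]
      exact Perm.sameCycle_apply_right.2 hj
    · by_cases h2 : z = q
      · subst h2
        rw [← hp]
        exact Perm.sameCycle_apply_right.2 hj.symm
      · have h3 : t z = s z := by rw [ht, Perm.mul_apply, sw_of_ne h1 h2]
        rw [← h3]
        exact Perm.sameCycle_apply_right.2 (Perm.SameCycle.refl _ _)
  refine mem_of_same (s := s) (Z := {d | t.SameCycle x d}) ?_ (Perm.SameCycle.refl _ _) hxy
  intro d hd
  exact Perm.SameCycle.trans hd (hstep d)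

/-- the invariant of the merging process -/
private structure Merge_MI (S : Sf) (c : S.D → ℕ) (r a : Perm S.D) : Prop where
  live : ∀ d, a d ≠ d → a d = S.a d
  out : ∀ d, c (S.a d) ≠ c d → a d = S.a d
  cr : ∀ d, c (r d) = c d
  old : ∀ x y, S.r.SameCycle x y → r.SameCycle x y
  gl : ∀ d, a d ≠ S.a d → r.SameCycle d (S.a d)

private theorem Merge_len {S : Sf} {c : S.D → ℕ} {r a : Perm S.D} (haa : ∀ d, a (a d) = d) (h : Merge_MI S c r a)
    {L : ℕ} (hL : ∀ i, {d | c d = i}.ncard ≤ L) (d : S.D) : Sf.len ⟨S.D, S.fD, r, a, haa⟩ d ≤ L := by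
  refine le_trans ?_ (hL (c d))
  refine Set.ncard_le_ncard ?_ (Set.toFinite _)
  rintro e ⟨he, _⟩
  exact mem_of_same (s := r) (Z := {e | c e = c d}) (fun x hx => (h.cr x).trans hx) rfl he

private theorem Merge_loop (S : Sf) (c : S.D → ℕ) (L : ℕ) (hL : ∀ i, {d | c d = i}.ncard ≤ L) :
    ∀ (n : ℕ) (r a : Perm S.D) (haa : ∀ d, a (a d) = d), Merge_MI S c r a → {d | a d ≠ d}.ncard ≤ n →
    ∃ (r1 a1 : Perm S.D) (haa1 : ∀ d, a1 (a1 d) = d), Merge_MI S c r1 a1 ∧
      (∀ d, a1 d ≠ d → c (a1 d) = c d → r1.SameCycle d (a1 d)) ∧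
      (U L ⟨S.D, S.fD, r1, a1, haa1⟩ → U L ⟨S.D, S.fD, r, a, haa⟩) := by
  intro n
  induction n with
  | zero =>
    intro r a haa hI hn
    refine ⟨r, a, haa, hI, ?_, fun h => h⟩
    intro d hd _
    have h0 : {d | a d ≠ d} = (∅ : Set S.D) := by
      rw [← Set.ncard_eq_zero (Set.toFinite _)]; omega
    have : d ∈ {d | a d ≠ d} := hd
    rw [h0] at this
    exact absurd this (Set.notMem_empty d)
  | succ n ih =>
    intro r a haa hI hn
    by_cases hex : ∃ b, a b ≠ b ∧ c (a b) = c b ∧ ¬ r.SameCycle b (a b)
    · obtain ⟨b, hb, hcb, hnb⟩ := hex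
      have hSb : a b = S.a b := hI.live b hb
      have hI' : Merge_MI S c (r * sw b (a b)) (a * sw b (a b)) := by
        constructor
        · intro d hd
          rw [Perm.mul_apply] at hd ⊢
          by_cases h1 : d = b
          · rw [h1, sw_left, haa] at hd; exact absurd rfl hd
          by_cases h2 : d = a b
          · rw [h2, sw_right] at hd; exact absurd rfl hd
          rw [sw_of_ne h1 h2] at hd ⊢
          exact hI.live d hd
        · intro d hd
          rw [Perm.mul_apply]
          by_cases h1 : d = b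
          · rw [h1, ← hSb] at hd; exact absurd hcb hd
          by_cases h2 : d = a b
          · rw [h2, hSb, S.aa, ← hSb] at hd; exact absurd hcb.symm hd
          rw [sw_of_ne h1 h2]
          exact hI.out d hd
        · intro d
          rw [Perm.mul_apply]
          by_cases h1 : d = b
          · rw [h1, sw_left, hI.cr, hcb]
          by_cases h2 : d = a b
          · rw [h2, sw_right, hI.cr, hcb]
          rw [sw_of_ne h1 h2]
          exact hI.cr d
        · intro x y hxy
          exact Merge_old r b (a b) hnb (hI.old x y hxy)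
        · intro d hd
          rw [Perm.mul_apply] at hd
          by_cases h1 : d = b
          · rw [h1, ← hSb]
            exact Merge_join r b (a b) hnb
          by_cases h2 : d = a b
          · rw [h2, hSb, S.aa, ← hSb]
            exact (Merge_join r b (a b) hnb).symm
          rw [sw_of_ne h1 h2] at hd
          exact Merge_old r b (a b) hnb (hI.gl d hd)
      have hcard : {d | (a * sw b (a b)) d ≠ d}.ncard ≤ n := by
        have hsub : {d | (a * sw b (a b)) d ≠ d} ⊆ {d | a d ≠ d} \ {b} := by
          intro d hd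
          have hd' : (a * sw b (a b)) d ≠ d := hd
          rw [Perm.mul_apply] at hd'
          by_cases h1 : d = b
          · rw [h1, sw_left, haa] at hd'; exact absurd rfl hd'
          by_cases h2 : d = a b
          · rw [h2, sw_right] at hd'; exact absurd rfl hd'
          rw [sw_of_ne h1 h2] at hd'
          exact ⟨hd', h1⟩
        have h1 : ({d | a d ≠ d} \ {b} : Set S.D).ncard + 1 = {d | a d ≠ d}.ncard :=
          Set.ncard_sdiff_singleton_add_one (show b ∈ {d | a d ≠ d} from hb) (Set.toFinite _)
        have h2 := Set.ncard_le_ncard hsub (Set.toFinite _)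
        omega
      obtain ⟨r1, a1, haa1, k1, k2, k3⟩ := ih (r * sw b (a b)) (a * sw b (a b)) (Sf.sw_aa a haa b) hI' hcard
      refine ⟨r1, a1, haa1, k1, k2, fun h => ?_⟩
      exact U.glue ⟨S.D, S.fD, r, a, haa⟩ b hb (Merge_len haa hI hL) (k3 h)
    · push Not at hex
      exact ⟨r, a, haa, hI, fun d h1 h2 => hex d h1 h2, fun h => h⟩

theorem merge (S : Sf) (hlive : ∀ d, S.a d ≠ d) (c : S.D → ℕ) (hcr : ∀ d, c (S.r d) = c d)
    (conn : ∀ d e, c d = c e → Relation.ReflTransGen (fun x y => c y = c x ∧ (y = S.r x ∨ y = S.a x)) d e)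
    (L : ℕ) (hL : ∀ i, {d | c d = i}.ncard ≤ L) :
    ∃ (r1 a1 : Perm S.D) (haa : ∀ d, a1 (a1 d) = d), (∀ d, a1 d ≠ d → a1 d = S.a d) ∧
      (∀ d, c (S.a d) ≠ c d → a1 d = S.a d) ∧
      (∀ d e, a1 d ≠ d → a1 e ≠ e → (r1.SameCycle d e ↔ c d = c e)) ∧ (∀ d, a1 d = d → r1 d = d) ∧
      (U L ⟨S.D, S.fD, r1, a1, haa⟩ → U L S) := by
  have h0 : Merge_MI S c S.r S.a :=
    ⟨fun _ _ => rfl, fun _ _ => rfl, hcr, fun _ _ h => h, fun d hd => absurd rfl hd⟩
  obtain ⟨r, a, haa, hI, hfin, hU⟩ := Merge_loop S c L hL _ S.r S.a S.aa h0 le_rfl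
  obtain ⟨r', p1, p2, p3⟩ := purge ⟨S.D, S.fD, r, a, haa⟩
  have hcell : ∀ d e, c d = c e → r.SameCycle d e := by
    intro d e hde
    have h1 := conn d e hde
    clear hde
    induction h1 with
    | refl => exact Perm.SameCycle.refl _ _
    | tail _ hxy ih =>
      rename_i x y _
      obtain ⟨hc, hy | hy⟩ := hxy
      · refine ih.trans (hI.old _ _ ?_)
        rw [hy]
        exact Perm.sameCycle_apply_right.2 (Perm.SameCycle.refl _ _)
      · refine ih.trans ?_
        rw [hy]
        by_cases h2 : a x = S.a x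
        · rw [← h2]
          refine hfin x ?_ ?_
          · rw [h2]; exact hlive x
          · rw [h2, ← hy]; exact hc
        · exact hI.gl x h2
  refine ⟨r', a, haa, hI.live, hI.out, ?_, p1, fun h => hU (p3 L h)⟩
  intro d e hd he
  rw [p2 d e hd he]
  constructor
  · intro h
    exact (mem_of_same (s := r) (Z := {e | c e = c d}) (fun x hx => (hI.cr x).trans hx) rfl h).symm
  · exact hcell d e

end Pool.Agent.GW
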