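import Mathlib

/-!
# GW.Minimax: von Neumann's theorem for choices with small load

`a i s x ≥ 0`: use of the vertex `x` by the option `s` of `i`.

PROOF.  `Sion.exists_isSaddlePointOn` (Mathlib/Topology/Sion.lean) on `X = ∏_i stdSimplex` (functions `μ : ι → S → ℝ` with `μ i ∈ stdSimplex` and
`μ i s = 0` for `s ∉ Γ i`: compact, convex, nonempty) and `Y = {y | 0 ≤ y, ∑ p x y x = 1}` (compact because `p x > 0`, convex,
nonempty if `V` is nonempty), `f μ y = ∑_i ∑_s μ i s ∑_x a i s x y x` (bilinear, continuous).  At the saddle point `(μ, y)`: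
`f μ y' ≤ f μ y ≤ f μ' y` for all `y'`, `μ'`; take `μ'` concentrated on the options given by `h` for `y`: `f μ y ≤ K`; take
`y' = δ_x / p x`: `∑_i ∑_s μ i s a i s x ≤ K p x`.
-/

set_option autoImplicit false

namespace Pool.Agent.GW

open Finset

theorem minimax_load {ι S V : Type} [Fintype ι] [Fintype S] [Fintype V] [DecidableEq V] (Γ : ι → Finset S)
    (hΓ : ∀ i, (Γ i).Nonempty) (a : ι → S → V → ℝ) (p : V → ℝ) (hp : ∀ x, 0 < p x) {K : ℝ} (hK : 0 ≤ K)
    (h : ∀ y : V → ℝ, (∀ x, 0 ≤ y x) → ∑ x, p x * y x = 1 →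
      ∃ c : ι → S, (∀ i, c i ∈ Γ i) ∧ ∑ i, ∑ x, a i (c i) x * y x ≤ K) :
    ∃ μ : ι → S → ℝ, (∀ i s, 0 ≤ μ i s) ∧ (∀ i s, s ∉ Γ i → μ i s = 0) ∧ (∀ i, ∑ s, μ i s = 1) ∧
      ∀ x, ∑ i, ∑ s, μ i s * a i s x ≤ K * p x := by
  classical
  choose s0 hs0 using hΓ
  -- point masses
  have hpm : ∀ c : ι → S, (∀ i, c i ∈ Γ i) → (fun i s => if s = c i then (1 : ℝ) else 0) ∈
      {μ : ι → S → ℝ | (∀ i s, 0 ≤ μ i s) ∧ (∀ i s, s ∉ Γ i → μ i s = 0) ∧ (∀ i, ∑ s, μ i s = 1)} := by
    intro c hc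
    refine ⟨fun i s => by dsimp only; split_ifs <;> norm_num, fun i s hs => ?_, fun i => by simp⟩
    have hne : s ≠ c i := fun e => hs (e ▸ hc i)
    simp [hne]
  rcases isEmpty_or_nonempty V with hV | hV
  · obtain ⟨h1, h2, h3⟩ := hpm s0 hs0
    exact ⟨_, h1, h2, h3, fun x => hV.elim x⟩
  set X : Set (ι → S → ℝ) :=
    {μ | (∀ i s, 0 ≤ μ i s) ∧ (∀ i s, s ∉ Γ i → μ i s = 0) ∧ (∀ i, ∑ s, μ i s = 1)} with hX
  set Y : Set (V → ℝ) := {y | (∀ x, 0 ≤ y x) ∧ ∑ x, p x * y x = 1} with hY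
  set f : (ι → S → ℝ) → (V → ℝ) → ℝ := fun μ y => ∑ i, ∑ s, ∑ x, μ i s * (a i s x * y x) with hf
  have hXc : IsCompact X := by
    have hclosed : IsClosed X := by
      have e1 : X = (⋂ i, ⋂ s, {μ : ι → S → ℝ | 0 ≤ μ i s}) ∩
          ((⋂ i, ⋂ s, ⋂ (_ : s ∉ Γ i), {μ : ι → S → ℝ | μ i s = 0}) ∩
            ⋂ i, {μ : ι → S → ℝ | ∑ s, μ i s = 1}) := by
        ext μ; simp [hX]
      rw [e1]
      refine IsClosed.inter ?_ (IsClosed.inter ?_ ?_)
      · exact isClosed_iInter fun i => isClosed_iInter fun s => isClosed_le (by fun_prop) (by fun_prop)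
      · exact isClosed_iInter fun i => isClosed_iInter fun s => isClosed_iInter fun _ =>
          isClosed_eq (by fun_prop) (by fun_prop)
      · exact isClosed_iInter fun i => isClosed_eq (by fun_prop) (by fun_prop)
    have hsub : X ⊆ Set.pi Set.univ fun _ : ι => Set.pi Set.univ fun _ : S => Set.Icc (0 : ℝ) 1 := by
      intro μ hμ i _ s _
      refine ⟨hμ.1 i s, ?_⟩
      rw [← hμ.2.2 i]
      exact Finset.single_le_sum (f := fun s => μ i s) (fun s _ => hμ.1 i s) (Finset.mem_univ s)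
    exact (isCompact_univ_pi fun _ => isCompact_univ_pi fun _ => isCompact_Icc).of_isClosed_subset
      hclosed hsub
  have hYc : IsCompact Y := by
    have hclosed : IsClosed Y := by
      have e1 : Y = (⋂ x, {y : V → ℝ | 0 ≤ y x}) ∩ {y : V → ℝ | ∑ x, p x * y x = 1} := by
        ext y; simp [hY]
      rw [e1]
      refine IsClosed.inter ?_ ?_
      · exact isClosed_iInter fun x => isClosed_le (by fun_prop) (by fun_prop)
      · exact isClosed_eq (by fun_prop) (by fun_prop)
    have hsub : Y ⊆ Set.pi Set.univ fun x : V => Set.Icc (0 : ℝ) (1 / p x) := by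
      intro y hy x _
      refine ⟨hy.1 x, ?_⟩
      rw [le_div_iff₀ (hp x), mul_comm, ← hy.2]
      exact Finset.single_le_sum (f := fun x => p x * y x)
        (fun x _ => mul_nonneg (hp x).le (hy.1 x)) (Finset.mem_univ x)
    exact (isCompact_univ_pi fun _ => isCompact_Icc).of_isClosed_subset hclosed hsub
  have hXconv : Convex ℝ X := by
    intro μ hμ ν hν b c hb hc hbc
    refine ⟨fun i s => ?_, fun i s hs => ?_, fun i => ?_⟩
    · simp only [Pi.add_apply, Pi.smul_apply, smul_eq_mul]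
      exact add_nonneg (mul_nonneg hb (hμ.1 i s)) (mul_nonneg hc (hν.1 i s))
    · simp only [Pi.add_apply, Pi.smul_apply, smul_eq_mul, hμ.2.1 i s hs, hν.2.1 i s hs]
      ring
    · simp only [Pi.add_apply, Pi.smul_apply, smul_eq_mul, Finset.sum_add_distrib, ← Finset.mul_sum,
        hμ.2.2 i, hν.2.2 i]
      linarith
  have hYconv : Convex ℝ Y := by
    intro y hy z hz b c hb hc hbc
    refine ⟨fun x => ?_, ?_⟩
    · simp only [Pi.add_apply, Pi.smul_apply, smul_eq_mul]
      exact add_nonneg (mul_nonneg hb (hy.1 x)) (mul_nonneg hc (hz.1 x))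
    · have e : ∑ x, p x * (b • y + c • z) x = b * ∑ x, p x * y x + c * ∑ x, p x * z x := by
        rw [Finset.mul_sum, Finset.mul_sum, ← Finset.sum_add_distrib]
        refine Finset.sum_congr rfl fun x _ => ?_
        simp only [Pi.add_apply, Pi.smul_apply, smul_eq_mul]
        ring
      rw [e, hy.2, hz.2]
      linarith
  have hXne : X.Nonempty := ⟨_, hpm s0 hs0⟩
  have hYne : Y.Nonempty := by
    obtain ⟨x0⟩ := hV
    refine ⟨fun x => if x = x0 then 1 / p x0 else 0, fun x => ?_, ?_⟩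
    · have := (hp x0).le
      dsimp only
      split_ifs
      · positivity
      · exact le_rfl
    · simp only [mul_ite, mul_zero, Finset.sum_ite_eq', Finset.mem_univ, if_true]
      field_simp [(hp x0).ne']
  have hfadd1 : ∀ (b c : ℝ) (μ ν : ι → S → ℝ) (y : V → ℝ),
      f (b • μ + c • ν) y = b * f μ y + c * f ν y := by
    intro b c μ ν y
    simp only [hf, Finset.mul_sum, ← Finset.sum_add_distrib]
    refine Finset.sum_congr rfl fun i _ => Finset.sum_congr rfl fun s _ => Finset.sum_congr rfl fun x _ => ?_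
    simp only [Pi.add_apply, Pi.smul_apply, smul_eq_mul]
    ring
  have hfadd2 : ∀ (b c : ℝ) (μ : ι → S → ℝ) (y z : V → ℝ),
      f μ (b • y + c • z) = b * f μ y + c * f μ z := by
    intro b c μ y z
    simp only [hf, Finset.mul_sum, ← Finset.sum_add_distrib]
    refine Finset.sum_congr rfl fun i _ => Finset.sum_congr rfl fun s _ => Finset.sum_congr rfl fun x _ => ?_
    simp only [Pi.add_apply, Pi.smul_apply, smul_eq_mul]
    ring
  have hc1 : ∀ y, Continuous fun μ => f μ y := by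
    intro y; simp only [hf]; fun_prop
  have hc2 : ∀ μ, Continuous fun y => f μ y := by
    intro μ; simp only [hf]; fun_prop
  have hq1 : ∀ y ∈ Y, QuasiconvexOn ℝ X fun μ => f μ y := by
    intro y _
    refine ConvexOn.quasiconvexOn ⟨hXconv, fun μ _ ν _ b c _ _ _ => ?_⟩
    simp only [smul_eq_mul]
    exact (hfadd1 b c μ ν y).le
  have hq2 : ∀ μ ∈ X, QuasiconcaveOn ℝ Y fun y => f μ y := by
    intro μ _
    refine ConcaveOn.quasiconcaveOn ⟨hYconv, fun y _ z _ b c _ _ _ => ?_⟩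
    simp only [smul_eq_mul]
    exact (hfadd2 b c μ y z).ge
  obtain ⟨μ, hμ, y, hy, hsad⟩ := Sion.exists_isSaddlePointOn (f := f) hXne hXconv hXc
    (fun y _ => (hc1 y).lowerSemicontinuous.lowerSemicontinuousOn X) hq1 hYconv hYne hYc
    (fun μ _ => (hc2 μ).upperSemicontinuous.upperSemicontinuousOn Y) hq2
  obtain ⟨c, hc, hle⟩ := h y hy.1 hy.2
  have h1 : f (fun i s => if s = c i then (1 : ℝ) else 0) y ≤ K := by
    refine le_trans (le_of_eq ?_) hle
    simp only [hf, ite_mul, one_mul, zero_mul]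
    refine Finset.sum_congr rfl fun i _ => ?_
    rw [Finset.sum_eq_single (c i)]
    · simp
    · intro b _ hb; simp [hb]
    · simp
  refine ⟨μ, hμ.1, hμ.2.1, hμ.2.2, fun x0 => ?_⟩
  have hyx : (fun x => if x = x0 then 1 / p x0 else 0) ∈ Y := by
    refine ⟨fun x => ?_, ?_⟩
    · have := (hp x0).le
      dsimp only
      split_ifs
      · positivity
      · exact le_rfl
    · simp only [mul_ite, mul_zero, Finset.sum_ite_eq', Finset.mem_univ, if_true]
      field_simp [(hp x0).ne']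
  have h2 := hsad _ (hpm c hc) _ hyx
  have h3 : f μ (fun x => if x = x0 then 1 / p x0 else 0) = (∑ i, ∑ s, μ i s * a i s x0) / p x0 := by
    simp only [hf, mul_ite, mul_zero, Finset.sum_ite_eq', Finset.mem_univ, if_true]
    rw [Finset.sum_div]
    refine Finset.sum_congr rfl fun i _ => ?_
    rw [Finset.sum_div]
    refine Finset.sum_congr rfl fun s _ => ?_
    ring
  rw [h3] at h2
  have h4 := h2.trans h1
  rwa [div_le_iff₀ (hp x0)] at h4

end Pool.Agent.GW
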