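import Pool.Agent.GW.Graph

/-!
# GW/Mix (helper3): Cheeger inequality and mixing of the lazy walk of a weighted graph

First for a kernel `c : V → V → ℝ` (namespace `Mx`), at the end for `WG` (namespace `WG`: `ker_sum`, `kerN_add`, `kerN_rev`,
`cheeger`, `contr`, `mix`, `mix_low`, `mix_up`, ..).

`c : V → V → ℝ` symmetric and nonnegative (loops allowed), `om c x = ∑ y, c x y` the weight of a vertex, `Wt c` the
total weight, `cutw c X` the weight of the edges which leave `X`.  `Cond ψ c`: every `X` satisfies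
`ψ * min (weight X) (weight Xᶜ) ≤ cutw c X`.  `lz c` is the kernel of the lazy walk, `Pn c t` its `t`-th power.

* `cheeger` : `ψ ^ 2 * ∑ x, om c x * (f x - mean) ^ 2 ≤ ∑ x, ∑ y, c x y * (f x - f y) ^ 2`.
* `contr` : `f` of mean zero, then `∑ om (P f) ^ 2 ≤ (1 - ψ ^ 2 / 4) * ∑ om f ^ 2`.
* `mix` : `(Pn c t x z / om c z - 1 / Wt c) ^ 2 ≤ (1 - ψ ^ 2 / 4) ^ t / (om c x * om c z)`.
* `mix_low` : `om c z / (2 * Wt c) ≤ Pn c t x z` as soon as `8 * log (2 * Wt c) ≤ ψ ^ 2 * t` and all weights are `≥ 1`.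
* `mix_up` : then also `Pn c t x z ≤ 2 * om c z / Wt c`.
-/

set_option autoImplicit false

namespace Pool.Agent.GW

open Finset

namespace Mx

section

variable {V : Type} [Fintype V]

/-- the weight of a vertex -/
def om (c : V → V → ℝ) (x : V) : ℝ := ∑ y, c x y

/-- the total weight -/
def Wt (c : V → V → ℝ) : ℝ := ∑ x, om c x

variable [DecidableEq V]

/-- the weight of the edges which leave `X` -/
def cutw (c : V → V → ℝ) (X : Finset V) : ℝ := ∑ x ∈ X, ∑ y ∈ Xᶜ, c x y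

/-- conductance at least `ψ` (with respect to the weights `om c`) -/
def CondW (ψ : ℝ) (c : V → V → ℝ) : Prop :=
  ∀ X : Finset V, ψ * min (∑ x ∈ X, om c x) (∑ x ∈ Xᶜ, om c x) ≤ cutw c X

/-- the lazy walk -/
noncomputable def lz (c : V → V → ℝ) (x y : V) : ℝ := (if x = y then 1 / 2 else 0) + c x y / (2 * om c x)

/-- `t` steps of the lazy walk -/
noncomputable def Pn (c : V → V → ℝ) : ℕ → V → V → ℝ
  | 0 => fun x y => if x = y then 1 else 0
  | t + 1 => fun x y => ∑ z, lz c x z * Pn c t z y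

private theorem Mix_coarea (c : V → V → ℝ) (hc0 : ∀ x y, 0 ≤ c x y) (hcs : ∀ x y, c x y = c y x) {ψ : ℝ} :
    ∀ n : ℕ, ∀ F : V → ℝ, (∀ x, 0 ≤ F x) → (univ.filter fun x => 0 < F x).card = n →
      (∀ X : Finset V, X ⊆ univ.filter (fun x => 0 < F x) → ψ * ∑ x ∈ X, om c x ≤ cutw c X) →
      2 * ψ * ∑ x, om c x * F x ≤ ∑ x, ∑ y, c x y * |F x - F y| := by
  intro n
  induction n using Nat.strong_induction_on with
  | _ n ih =>
    intro F hF hn hX
    set S : Finset V := univ.filter fun x => 0 < F x with hS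
    rcases S.eq_empty_or_nonempty with h0 | hne
    · have hz : ∀ x, F x = 0 := by
        intro x
        by_contra hx
        have : x ∈ S := by
          rw [hS, mem_filter]
          exact ⟨mem_univ _, lt_of_le_of_ne (hF x) (Ne.symm hx)⟩
        rw [h0] at this
        exact absurd this (notMem_empty _)
      simp [hz]
    · obtain ⟨x0, hx0, hmin⟩ := S.exists_min_image F hne
      set ep : ℝ := F x0 with hep
      have hep0 : 0 < ep := by
        rw [hS, mem_filter] at hx0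
        exact hx0.2
      let F' : V → ℝ := fun x => if x ∈ S then F x - ep else 0
      have hF'in : ∀ x ∈ S, F' x = F x - ep := fun x hx => if_pos hx
      have hF'out : ∀ x, x ∉ S → F' x = 0 := fun x hx => if_neg hx
      have hFout : ∀ x, x ∉ S → F x = 0 := by
        intro x hx
        by_contra h
        exact hx (by rw [hS, mem_filter]; exact ⟨mem_univ _, lt_of_le_of_ne (hF x) (Ne.symm h)⟩)
      have hF'0 : ∀ x, 0 ≤ F' x := by
        intro x
        by_cases hx : x ∈ S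
        · rw [hF'in x hx, sub_nonneg]; exact hmin x hx
        · rw [hF'out x hx]
      have hsub : (univ.filter fun x => 0 < F' x) ⊂ S := by
        refine (Finset.ssubset_iff_of_subset ?_).2 ⟨x0, hx0, ?_⟩
        · intro x hx
          rw [mem_filter] at hx
          by_contra h
          rw [hF'out x h] at hx
          exact lt_irrefl _ hx.2
        · rw [mem_filter, hF'in x0 hx0]
          simp [hep]
      have hih := ih _ (by rw [← hn]; exact card_lt_card hsub) F' hF'0 rfl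
        (fun X hXs => hX X (hXs.trans hsub.subset))
      -- pointwise identity
      have hpt : ∀ x y, |F x - F y| = |F' x - F' y| + ep * ((if x ∈ S ∧ y ∉ S then 1 else 0)
          + (if y ∈ S ∧ x ∉ S then 1 else 0)) := by
        intro x y
        by_cases hx : x ∈ S <;> by_cases hy : y ∈ S
        · rw [hF'in x hx, hF'in y hy]
          simp [hx, hy]
        · rw [hF'in x hx, hF'out y hy, hFout y hy]
          have h1 : ep ≤ F x := hmin x hx
          simp only [hx, hy, not_false_eq_true, and_self, if_true, not_true_eq_false, and_false, if_false, false_and]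
          rw [abs_of_nonneg (by linarith), abs_of_nonneg (by linarith)]
          ring
        · rw [hF'in y hy, hF'out x hx, hFout x hx]
          have h1 : ep ≤ F y := hmin y hy
          simp only [hx, hy, not_false_eq_true, and_self, if_true, not_true_eq_false, and_false, if_false, false_and]
          rw [abs_of_nonpos (by linarith), abs_of_nonpos (by linarith)]
          ring
        · rw [hF'out x hx, hF'out y hy, hFout x hx, hFout y hy]
          simp [hx, hy]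
      have hcut1 : ∑ x, ∑ y, c x y * (if x ∈ S ∧ y ∉ S then (1 : ℝ) else 0) = cutw c S := by
        unfold cutw
        rw [← Finset.sum_subset (subset_univ S)]
        · refine sum_congr rfl fun x hx => ?_
          rw [← Finset.sum_subset (subset_univ Sᶜ)]
          · refine sum_congr rfl fun y hy => ?_
            rw [mem_compl] at hy
            rw [if_pos ⟨hx, hy⟩, mul_one]
          · intro y _ hy
            rw [mem_compl, not_not] at hy
            rw [if_neg (fun h => h.2 hy), mul_zero]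
        · intro x _ hx
          refine sum_eq_zero fun y _ => ?_
          rw [if_neg (fun h => hx h.1), mul_zero]
      have hcut2 : ∑ x, ∑ y, c x y * (if y ∈ S ∧ x ∉ S then (1 : ℝ) else 0) = cutw c S := by
        rw [sum_comm, ← hcut1]
        refine sum_congr rfl fun x _ => sum_congr rfl fun y _ => ?_
        rw [hcs y x]
      have hsum : ∑ x, ∑ y, c x y * |F x - F y| = ∑ x, ∑ y, c x y * |F' x - F' y| + 2 * ep * cutw c S := by
        have h1 : ∀ x y, c x y * |F x - F y| = c x y * |F' x - F' y|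
            + (ep * (c x y * (if x ∈ S ∧ y ∉ S then (1 : ℝ) else 0))
            + ep * (c x y * (if y ∈ S ∧ x ∉ S then (1 : ℝ) else 0))) := by
          intro x y
          rw [hpt x y]; ring
        simp_rw [h1, sum_add_distrib, ← mul_sum]
        rw [hcut1, hcut2]; ring
      have hlin : ∑ x, om c x * F x = ∑ x, om c x * F' x + ep * ∑ x ∈ S, om c x := by
        have h1 : ∀ x, om c x * F x = om c x * F' x + (if x ∈ S then ep * om c x else 0) := by
          intro x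
          by_cases hx : x ∈ S
          · rw [hF'in x hx, if_pos hx]; ring
          · rw [hF'out x hx, hFout x hx, if_neg hx]; ring
        rw [sum_congr rfl fun x _ => h1 x, sum_add_distrib, sum_ite_mem, univ_inter, ← mul_sum]
      have hS1 := hX S (Subset.refl _)
      rw [hsum, hlin]
      nlinarith

/-- sum of the squares of a function supported on a set whose subsets are small -/
private theorem Mix_half (c : V → V → ℝ) (hc0 : ∀ x y, 0 ≤ c x y) (hcs : ∀ x y, c x y = c y x) {ψ : ℝ} (hψ : 0 ≤ ψ)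
    (g : V → ℝ) (hg : ∀ x, 0 ≤ g x)
    (hX : ∀ X : Finset V, X ⊆ univ.filter (fun x => 0 < g x) → ψ * ∑ x ∈ X, om c x ≤ cutw c X) :
    ψ ^ 2 * ∑ x, om c x * g x ^ 2 ≤ ∑ x, ∑ y, c x y * (g x - g y) ^ 2 := by
  have hom0 : ∀ x, 0 ≤ om c x := fun x => sum_nonneg fun y _ => hc0 x y
  have h1 := Mix_coarea c hc0 hcs (ψ := ψ) _ (fun x => g x ^ 2) (fun x => by positivity) rfl (by
    intro X hXs
    refine hX X (hXs.trans ?_)
    intro x hx
    rw [mem_filter] at hx ⊢
    refine ⟨mem_univ _, ?_⟩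
    rcases lt_or_eq_of_le (hg x) with h | h
    · exact h
    · have := hx.2
      rw [← h] at this
      norm_num at this)
  set A : ℝ := ∑ x, om c x * g x ^ 2 with hA
  have hA0 : 0 ≤ A := sum_nonneg fun x _ => mul_nonneg (hom0 x) (by positivity)
  set E : ℝ := ∑ x, ∑ y, c x y * (g x - g y) ^ 2 with hE
  have hE0 : 0 ≤ E := sum_nonneg fun x _ => sum_nonneg fun y _ => mul_nonneg (hc0 x y) (by positivity)
  set G : ℝ := ∑ x, ∑ y, c x y * (g x + g y) ^ 2 with hG
  -- `G ≤ 4 A`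
  have hsw : ∑ x, ∑ y, c x y * g y ^ 2 = A := by
    rw [sum_comm, hA]
    refine sum_congr rfl fun y _ => ?_
    rw [om, sum_mul]
    exact sum_congr rfl fun x _ => by rw [hcs x y]
  have hsw2 : ∑ x, ∑ y, c x y * g x ^ 2 = A := by
    rw [hA]
    exact sum_congr rfl fun x _ => by rw [om, sum_mul]
  have hG4 : G ≤ 4 * A := by
    have : ∀ x y, c x y * (g x + g y) ^ 2 ≤ 2 * (c x y * g x ^ 2) + 2 * (c x y * g y ^ 2) := by
      intro x y
      nlinarith [hc0 x y, mul_nonneg (hc0 x y) (sq_nonneg (g x - g y))]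
    calc G ≤ ∑ x, ∑ y, (2 * (c x y * g x ^ 2) + 2 * (c x y * g y ^ 2)) :=
          sum_le_sum fun x _ => sum_le_sum fun y _ => this x y
      _ = 2 * ∑ x, ∑ y, c x y * g x ^ 2 + 2 * ∑ x, ∑ y, c x y * g y ^ 2 := by
          simp_rw [sum_add_distrib, ← mul_sum]
      _ = 4 * A := by rw [hsw, hsw2]; ring
  -- Cauchy-Schwarz
  have hCS : (∑ x, ∑ y, c x y * |g x ^ 2 - g y ^ 2|) ^ 2 ≤ E * G := by
    have h2 := Finset.sum_mul_sq_le_sq_mul_sq (univ : Finset (V × V))
      (fun p => Real.sqrt (c p.1 p.2) * |g p.1 - g p.2|) (fun p => Real.sqrt (c p.1 p.2) * |g p.1 + g p.2|)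
    have e1 : ∑ p : V × V, (Real.sqrt (c p.1 p.2) * |g p.1 - g p.2|) * (Real.sqrt (c p.1 p.2) * |g p.1 + g p.2|)
        = ∑ x, ∑ y, c x y * |g x ^ 2 - g y ^ 2| := by
      rw [Fintype.sum_prod_type]
      refine sum_congr rfl fun x _ => sum_congr rfl fun y _ => ?_
      have h3 : Real.sqrt (c x y) * Real.sqrt (c x y) = c x y := Real.mul_self_sqrt (hc0 x y)
      have h4 : g x ^ 2 - g y ^ 2 = (g x - g y) * (g x + g y) := by ring
      rw [h4, abs_mul]
      calc _ = (Real.sqrt (c x y) * Real.sqrt (c x y)) * (|g x - g y| * |g x + g y|) := by ring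
        _ = _ := by rw [h3]
    have e2 : ∑ p : V × V, (Real.sqrt (c p.1 p.2) * |g p.1 - g p.2|) ^ 2 = E := by
      rw [Fintype.sum_prod_type]
      refine sum_congr rfl fun x _ => sum_congr rfl fun y _ => ?_
      rw [mul_pow, Real.sq_sqrt (hc0 x y), sq_abs]
    have e3 : ∑ p : V × V, (Real.sqrt (c p.1 p.2) * |g p.1 + g p.2|) ^ 2 = G := by
      rw [Fintype.sum_prod_type]
      refine sum_congr rfl fun x _ => sum_congr rfl fun y _ => ?_
      rw [mul_pow, Real.sq_sqrt (hc0 x y), sq_abs]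
    rw [e1, e2, e3] at h2
    exact h2
  have h5 : (2 * ψ * A) ^ 2 ≤ E * (4 * A) := by
    have h6 : 0 ≤ 2 * ψ * A := by positivity
    calc (2 * ψ * A) ^ 2 ≤ (∑ x, ∑ y, c x y * |g x ^ 2 - g y ^ 2|) ^ 2 := pow_le_pow_left₀ h6 h1 2
      _ ≤ E * G := hCS
      _ ≤ E * (4 * A) := mul_le_mul_of_nonneg_left hG4 hE0
  rcases eq_or_lt_of_le hA0 with h0 | h0
  · rw [← h0, mul_zero]; exact hE0
  · have h7 : A * (ψ ^ 2 * A) ≤ A * E := by nlinarith
    exact le_of_mul_le_mul_left h7 h0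

/-- a median -/
private theorem Mix_median (w : V → ℝ) (hw : ∀ x, 0 ≤ w x) [Nonempty V] (f : V → ℝ) :
    ∃ m : ℝ, (∑ x ∈ univ.filter (fun x => m < f x), w x) ≤ (∑ x, w x) / 2 ∧
      (∑ x ∈ univ.filter (fun x => f x < m), w x) ≤ (∑ x, w x) / 2 := by
  classical
  set W : ℝ := ∑ x, w x with hW
  have hW0 : 0 ≤ W := sum_nonneg fun x _ => hw x
  let G : Finset V := univ.filter fun x => (∑ y ∈ univ.filter (fun y => f x < f y), w y) ≤ W / 2
  have hGne : G.Nonempty := by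
    obtain ⟨x, -, hx⟩ := exists_max_image (univ : Finset V) f univ_nonempty
    refine ⟨x, ?_⟩
    rw [mem_filter]
    refine ⟨mem_univ _, ?_⟩
    rw [filter_false_of_mem, sum_empty]
    · linarith
    · intro y _
      exact not_lt.2 (hx y (mem_univ _))
  obtain ⟨x, hxG, hmin⟩ := G.exists_min_image f hGne
  refine ⟨f x, (mem_filter.1 hxG).2, ?_⟩
  by_contra hcon
  push Not at hcon
  have hne : (univ.filter fun y => f y < f x).Nonempty := by
    by_contra h
    rw [not_nonempty_iff_eq_empty] at h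
    rw [h, sum_empty] at hcon
    linarith
  obtain ⟨y, hy, hmax⟩ := (univ.filter fun y => f y < f x).exists_max_image f hne
  have hy2 : f y < f x := (mem_filter.1 hy).2
  have hyG : y ∈ G := by
    rw [mem_filter]
    refine ⟨mem_univ _, ?_⟩
    have h1 : (univ.filter fun z => f y < f z) ⊆ univ.filter fun z => ¬ f z < f x := by
      intro z hz
      rw [mem_filter] at hz ⊢
      refine ⟨mem_univ _, fun h => ?_⟩
      have := hmax z (mem_filter.2 ⟨mem_univ _, h⟩)
      exact absurd hz.2 (not_lt.2 this)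
    have h2 := sum_filter_add_sum_filter_not (univ : Finset V) (fun z => f z < f x) w
    have h3 : ∑ z ∈ univ.filter (fun z => f y < f z), w z ≤ ∑ z ∈ univ.filter (fun z => ¬ f z < f x), w z :=
      sum_le_sum_of_subset_of_nonneg h1 fun z _ _ => hw z
    rw [← hW] at h2
    linarith
  exact absurd (hmin y hyG) (not_le.2 hy2)

/-- **CHEEGER**: the Dirichlet form bounds the variance -/
theorem cheeger_m (c : V → V → ℝ) (hc0 : ∀ x y, 0 ≤ c x y) (hcs : ∀ x y, c x y = c y x) {ψ : ℝ} (hψ : 0 ≤ ψ)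
    (hC : CondW ψ c) (f : V → ℝ) :
    ∃ m : ℝ, ψ ^ 2 * ∑ x, om c x * (f x - m) ^ 2 ≤ ∑ x, ∑ y, c x y * (f x - f y) ^ 2 := by
  classical
  rcases isEmpty_or_nonempty V with hV | hV
  · exact ⟨0, by simp⟩
  have hom0 : ∀ x, 0 ≤ om c x := fun x => sum_nonneg fun y _ => hc0 x y
  obtain ⟨m, hm1, hm2⟩ := Mix_median (om c) hom0 f
  refine ⟨m, ?_⟩
  set W : ℝ := ∑ x, om c x with hW
  have hsmall : ∀ X : Finset V, (∑ x ∈ X, om c x) ≤ W / 2 → ψ * ∑ x ∈ X, om c x ≤ cutw c X := by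
    intro X hX
    have h1 := hC X
    have h2 : ∑ x ∈ X, om c x + ∑ x ∈ Xᶜ, om c x = W := by rw [hW, sum_add_sum_compl]
    rw [min_eq_left (by linarith)] at h1
    exact h1
  let g : V → ℝ := fun x => max (f x - m) 0
  let h : V → ℝ := fun x => max (m - f x) 0
  have hg := Mix_half c hc0 hcs hψ g (fun x => le_max_right _ _) (by
    intro X hXs
    refine hsmall X ((sum_le_sum_of_subset_of_nonneg (hXs.trans ?_) fun x _ _ => hom0 x).trans hm1)
    intro x hx
    rw [mem_filter] at hx ⊢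
    refine ⟨mem_univ _, ?_⟩
    have h1 : 0 < max (f x - m) 0 := hx.2
    rcases lt_max_iff.1 h1 with h2 | h2
    · linarith
    · exact absurd h2 (lt_irrefl _))
  have hh := Mix_half c hc0 hcs hψ h (fun x => le_max_right _ _) (by
    intro X hXs
    refine hsmall X ((sum_le_sum_of_subset_of_nonneg (hXs.trans ?_) fun x _ _ => hom0 x).trans hm2)
    intro x hx
    rw [mem_filter] at hx ⊢
    refine ⟨mem_univ _, ?_⟩
    have h1 : 0 < max (m - f x) 0 := hx.2
    rcases lt_max_iff.1 h1 with h2 | h2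
    · linarith
    · exact absurd h2 (lt_irrefl _))
  have hsq : ∀ x, (f x - m) ^ 2 = g x ^ 2 + h x ^ 2 := by
    intro x
    show (f x - m) ^ 2 = (max (f x - m) 0) ^ 2 + (max (m - f x) 0) ^ 2
    rcases le_total (f x) m with h1 | h1
    · rw [max_eq_right (by linarith), max_eq_left (by linarith)]; ring
    · rw [max_eq_left (by linarith), max_eq_right (by linarith)]; ring
  have hgh : ∀ x, f x - m = g x - h x ∧ g x * h x = 0 ∧ 0 ≤ g x ∧ 0 ≤ h x := by
    intro x
    show f x - m = max (f x - m) 0 - max (m - f x) 0 ∧ max (f x - m) 0 * max (m - f x) 0 = 0 ∧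
      0 ≤ max (f x - m) 0 ∧ 0 ≤ max (m - f x) 0
    rcases le_total (f x) m with h1 | h1
    · rw [max_eq_right (by linarith), max_eq_left (by linarith)]
      exact ⟨by ring, by ring, le_refl _, by linarith⟩
    · rw [max_eq_left (by linarith), max_eq_right (by linarith)]
      exact ⟨by ring, by ring, by linarith, le_refl _⟩
  have hpt : ∀ x y, c x y * (g x - g y) ^ 2 + c x y * (h x - h y) ^ 2 ≤ c x y * (f x - f y) ^ 2 := by
    intro x y
    obtain ⟨a1, a2, a3, a4⟩ := hgh x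
    obtain ⟨b1, b2, b3, b4⟩ := hgh y
    have h1 : f x - f y = (g x - g y) - (h x - h y) := by linarith
    have h2 : (g x - g y) * (h x - h y) ≤ 0 := by nlinarith [mul_nonneg a3 b4, mul_nonneg a4 b3]
    rw [h1]
    nlinarith [mul_nonneg (hc0 x y) (neg_nonneg.2 h2)]
  calc ψ ^ 2 * ∑ x, om c x * (f x - m) ^ 2
      = ψ ^ 2 * ∑ x, om c x * g x ^ 2 + ψ ^ 2 * ∑ x, om c x * h x ^ 2 := by
        rw [← mul_add, ← sum_add_distrib]
        congr 1
        exact sum_congr rfl fun x _ => by rw [hsq x]; ring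
    _ ≤ ∑ x, ∑ y, c x y * (g x - g y) ^ 2 + ∑ x, ∑ y, c x y * (h x - h y) ^ 2 := add_le_add hg hh
    _ = ∑ x, ∑ y, (c x y * (g x - g y) ^ 2 + c x y * (h x - h y) ^ 2) := by simp_rw [sum_add_distrib]
    _ ≤ ∑ x, ∑ y, c x y * (f x - f y) ^ 2 := sum_le_sum fun x _ => sum_le_sum fun y _ => hpt x y

/-- **CHEEGER** for functions of mean zero -/
theorem cheeger (c : V → V → ℝ) (hc0 : ∀ x y, 0 ≤ c x y) (hcs : ∀ x y, c x y = c y x) {ψ : ℝ} (hψ : 0 ≤ ψ)
    (hC : CondW ψ c) (f : V → ℝ) (hf : ∑ x, om c x * f x = 0) :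
    ψ ^ 2 * ∑ x, om c x * f x ^ 2 ≤ ∑ x, ∑ y, c x y * (f x - f y) ^ 2 := by
  obtain ⟨m, hm⟩ := cheeger_m c hc0 hcs hψ hC f
  have hom0 : ∀ x, 0 ≤ om c x := fun x => sum_nonneg fun y _ => hc0 x y
  have h1 : ∑ x, om c x * (f x - m) ^ 2 = ∑ x, om c x * f x ^ 2 + m ^ 2 * ∑ x, om c x := by
    have : ∀ x, om c x * (f x - m) ^ 2 = om c x * f x ^ 2 + m ^ 2 * om c x - 2 * m * (om c x * f x) := fun x => by ring
    rw [sum_congr rfl fun x _ => this x, sum_sub_distrib, sum_add_distrib, ← mul_sum, ← mul_sum, hf]; ring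
  have h2 : 0 ≤ m ^ 2 * ∑ x, om c x := mul_nonneg (sq_nonneg m) (sum_nonneg fun x _ => hom0 x)
  have h3 : ψ ^ 2 * ∑ x, om c x * f x ^ 2 ≤ ψ ^ 2 * ∑ x, om c x * (f x - m) ^ 2 := by
    rw [h1]; exact mul_le_mul_of_nonneg_left (by linarith) (sq_nonneg ψ)
  exact h3.trans hm

/-- the lazy walk as an operator -/
noncomputable def Pop (c : V → V → ℝ) (f : V → ℝ) (x : V) : ℝ := ∑ y, lz c x y * f y

theorem Pop_eq (c : V → V → ℝ) (f : V → ℝ) (x : V) :
    Pop c f x = f x / 2 + (∑ y, c x y * f y) / (2 * om c x) := by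
  unfold Pop lz
  have : ∀ y, ((if x = y then 1 / 2 else 0) + c x y / (2 * om c x)) * f y
      = (if x = y then f y / 2 else 0) + c x y * f y / (2 * om c x) := by
    intro y
    split_ifs <;> ring
  rw [sum_congr rfl fun y _ => this y, sum_add_distrib, sum_ite_eq, if_pos (mem_univ _), ← sum_div]

theorem lz_nonneg (c : V → V → ℝ) (hc0 : ∀ x y, 0 ≤ c x y) (x y : V) : 0 ≤ lz c x y := by
  have h : 0 ≤ om c x := sum_nonneg fun y _ => hc0 x y
  unfold lz
  have h1 : 0 ≤ c x y / (2 * om c x) := div_nonneg (hc0 x y) (by linarith)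
  split_ifs <;> linarith

theorem lz_sum (c : V → V → ℝ) (hom : ∀ x, 0 < om c x) (x : V) : ∑ y, lz c x y = 1 := by
  have h := Pop_eq c (fun _ => 1) x
  unfold Pop at h
  simp only [mul_one] at h
  rw [h]
  have h1 : (∑ y, c x y) = om c x := rfl
  rw [h1]
  have := (hom x).ne'
  field_simp
  norm_num

theorem lz_rev (c : V → V → ℝ) (hcs : ∀ x y, c x y = c y x) (hom : ∀ x, 0 < om c x) (x y : V) :
    om c x * lz c x y = om c y * lz c y x := by
  unfold lz
  have hx := (hom x).ne'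
  have hy := (hom y).ne'
  by_cases h : x = y
  · subst h; rfl
  · rw [if_neg h, if_neg (Ne.symm h), hcs x y]
    field_simp
    ring

theorem Pn_zero (c : V → V → ℝ) (x y : V) : Pn c 0 x y = if x = y then 1 else 0 := rfl

theorem Pn_succ (c : V → V → ℝ) (t : ℕ) (x y : V) : Pn c (t + 1) x y = ∑ z, lz c x z * Pn c t z y := rfl

theorem Pn_nonneg (c : V → V → ℝ) (hc0 : ∀ x y, 0 ≤ c x y) : ∀ (t : ℕ) (x y : V), 0 ≤ Pn c t x y
  | 0, x, y => by rw [Pn_zero]; split_ifs <;> norm_num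
  | t + 1, x, y => by
      rw [Pn_succ]
      exact sum_nonneg fun z _ => mul_nonneg (lz_nonneg c hc0 x z) (Pn_nonneg c hc0 t z y)

theorem Pn_sum (c : V → V → ℝ) (hom : ∀ x, 0 < om c x) : ∀ (t : ℕ) (x : V), ∑ y, Pn c t x y = 1
  | 0, x => by simp [Pn_zero]
  | t + 1, x => by
      simp_rw [Pn_succ]
      rw [sum_comm]
      have : ∀ z, ∑ y, lz c x z * Pn c t z y = lz c x z := by
        intro z
        rw [← mul_sum, Pn_sum c hom t z, mul_one]
      rw [sum_congr rfl fun z _ => this z, lz_sum c hom x]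

theorem Pn_add (c : V → V → ℝ) : ∀ (s t : ℕ) (x y : V), Pn c (s + t) x y = ∑ z, Pn c s x z * Pn c t z y
  | 0, t, x, y => by
      simp [Pn_zero]
  | s + 1, t, x, y => by
      rw [show s + 1 + t = (s + t) + 1 from by ring, Pn_succ]
      simp_rw [Pn_succ, sum_mul, Pn_add c s t]
      rw [sum_comm]
      refine sum_congr rfl fun z _ => ?_
      rw [mul_sum]
      exact sum_congr rfl fun u _ => by ring

theorem Pn_one (c : V → V → ℝ) (x y : V) : Pn c 1 x y = lz c x y := by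
  rw [show (1 : ℕ) = 0 + 1 from rfl, Pn_succ]
  simp [Pn_zero]

theorem Pn_succ' (c : V → V → ℝ) (t : ℕ) (x y : V) : Pn c (t + 1) x y = ∑ z, Pn c t x z * lz c z y := by
  rw [Pn_add c t 1 x y]
  simp_rw [Pn_one]

theorem Pn_rev (c : V → V → ℝ) (hcs : ∀ x y, c x y = c y x) (hom : ∀ x, 0 < om c x) :
    ∀ (t : ℕ) (x y : V), om c x * Pn c t x y = om c y * Pn c t y x
  | 0, x, y => by
      by_cases h : x = y
      · subst h; rfl
      · simp [Pn_zero, h, Ne.symm h]
  | t + 1, x, y => by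
      rw [Pn_succ, Pn_succ', mul_sum, mul_sum]
      refine sum_congr rfl fun z _ => ?_
      have h1 := lz_rev c hcs hom x z
      have h2 := Pn_rev c hcs hom t z y
      calc om c x * (lz c x z * Pn c t z y) = (om c x * lz c x z) * Pn c t z y := by ring
        _ = lz c z x * (om c z * Pn c t z y) := by rw [h1]; ring
        _ = om c y * (Pn c t y z * lz c z x) := by rw [h2]; ring

/-- the measure `om` is stationary -/
theorem Pn_stat (c : V → V → ℝ) (hcs : ∀ x y, c x y = c y x) (hom : ∀ x, 0 < om c x) (t : ℕ) (y : V) :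
    ∑ x, om c x * Pn c t x y = om c y := by
  rw [sum_congr rfl fun x _ => Pn_rev c hcs hom t x y, ← mul_sum, Pn_sum c hom, mul_one]

theorem Pn_le_one (c : V → V → ℝ) (hc0 : ∀ x y, 0 ≤ c x y) (hom : ∀ x, 0 < om c x) (t : ℕ) (x y : V) :
    Pn c t x y ≤ 1 := by
  rw [← Pn_sum c hom t x]
  exact single_le_sum (f := fun y => Pn c t x y) (fun z _ => Pn_nonneg c hc0 t x z) (mem_univ y)

/-- **CONTRACTION** -/
theorem contr (c : V → V → ℝ) (hc0 : ∀ x y, 0 ≤ c x y) (hcs : ∀ x y, c x y = c y x) (hom : ∀ x, 0 < om c x) {ψ : ℝ}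
    (hψ : 0 ≤ ψ) (hC : CondW ψ c) (f : V → ℝ) (hf : ∑ x, om c x * f x = 0) :
    ∑ x, om c x * Pop c f x ^ 2 ≤ (1 - ψ ^ 2 / 4) * ∑ x, om c x * f x ^ 2 := by
  have hch := cheeger c hc0 hcs hψ hC f hf
  set N : ℝ := ∑ x, om c x * f x ^ 2 with hN
  set I : ℝ := ∑ x, ∑ y, c x y * (f x * f y) with hI
  have hsw2 : ∑ x, ∑ y, c x y * f x ^ 2 = N := by
    rw [hN]
    exact sum_congr rfl fun x _ => by rw [om, sum_mul]
  have hsw : ∑ x, ∑ y, c x y * f y ^ 2 = N := by
    rw [sum_comm, hN]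
    refine sum_congr rfl fun y _ => ?_
    rw [om, sum_mul]
    exact sum_congr rfl fun x _ => by rw [hcs x y]
  have hE : ∑ x, ∑ y, c x y * (f x - f y) ^ 2 = 2 * N - 2 * I := by
    have : ∀ x y, c x y * (f x - f y) ^ 2 = c x y * f x ^ 2 + c x y * f y ^ 2 - 2 * (c x y * (f x * f y)) :=
      fun x y => by ring
    simp_rw [this, sum_sub_distrib, sum_add_distrib, ← mul_sum]
    rw [hsw, hsw2]; ring
  have hpt : ∀ x, om c x * Pop c f x ^ 2 ≤ om c x * f x ^ 2 / 4 + (∑ y, c x y * (f x * f y)) / 2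
      + (∑ y, c x y * f y ^ 2) / 4 := by
    intro x
    rw [Pop_eq]
    set s : ℝ := ∑ y, c x y * f y with hs
    have hox := hom x
    have hcs2 : s ^ 2 ≤ om c x * ∑ y, c x y * f y ^ 2 := by
      have h2 := Finset.sum_mul_sq_le_sq_mul_sq (univ : Finset V) (fun y => Real.sqrt (c x y))
        (fun y => Real.sqrt (c x y) * f y)
      have e1 : ∑ y, Real.sqrt (c x y) * (Real.sqrt (c x y) * f y) = s := by
        refine sum_congr rfl fun y _ => ?_
        rw [← mul_assoc, Real.mul_self_sqrt (hc0 x y)]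
      have e2 : ∑ y, Real.sqrt (c x y) ^ 2 = om c x :=
        sum_congr rfl fun y _ => Real.sq_sqrt (hc0 x y)
      have e3 : ∑ y, (Real.sqrt (c x y) * f y) ^ 2 = ∑ y, c x y * f y ^ 2 :=
        sum_congr rfl fun y _ => by rw [mul_pow, Real.sq_sqrt (hc0 x y)]
      rw [e1, e2, e3] at h2
      exact h2
    have h3 : ∑ y, c x y * (f x * f y) = f x * s := by
      rw [hs, mul_sum]
      exact sum_congr rfl fun y _ => by ring
    rw [h3]
    have h4 : om c x * (f x / 2 + s / (2 * om c x)) ^ 2 = om c x * f x ^ 2 / 4 + f x * s / 2 + s ^ 2 / (4 * om c x) := by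
      have := hox.ne'
      field_simp
      ring
    rw [h4]
    have h5 : s ^ 2 / (4 * om c x) ≤ (∑ y, c x y * f y ^ 2) / 4 := by
      rw [div_le_div_iff₀ (by positivity) (by norm_num)]
      nlinarith
    linarith
  have hsum : ∑ x, om c x * Pop c f x ^ 2 ≤ N / 4 + I / 2 + N / 4 := by
    calc _ ≤ ∑ x, (om c x * f x ^ 2 / 4 + (∑ y, c x y * (f x * f y)) / 2 + (∑ y, c x y * f y ^ 2) / 4) :=
          sum_le_sum fun x _ => hpt x
      _ = N / 4 + I / 2 + N / 4 := by
          rw [sum_add_distrib, sum_add_distrib, ← sum_div, ← sum_div, ← sum_div, hsw]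
  rw [hE] at hch
  nlinarith

/-- deviation of the `t` step law -/
noncomputable def dev (c : V → V → ℝ) (t : ℕ) (z x : V) : ℝ := Pn c t x z / om c z - 1 / Wt c

theorem Wt_pos (c : V → V → ℝ) (hom : ∀ x, 0 < om c x) (x : V) : 0 < Wt c :=
  sum_pos (fun y _ => hom y) ⟨x, mem_univ x⟩

theorem dev_mean (c : V → V → ℝ) (hcs : ∀ x y, c x y = c y x) (hom : ∀ x, 0 < om c x) (t : ℕ) (z : V) :
    ∑ x, om c x * dev c t z x = 0 := by
  have hW := (Wt_pos c hom z).ne'
  have hz := (hom z).ne'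
  unfold dev
  have : ∀ x, om c x * (Pn c t x z / om c z - 1 / Wt c) = (om c x * Pn c t x z) / om c z - om c x / Wt c :=
    fun x => by ring
  rw [sum_congr rfl fun x _ => this x, sum_sub_distrib, ← sum_div, ← sum_div, Pn_stat c hcs hom t z]
  have h1 : ∑ x, om c x = Wt c := rfl
  rw [h1, div_self hz, div_self hW, sub_self]

theorem dev_succ (c : V → V → ℝ) (hom : ∀ x, 0 < om c x) (t : ℕ) (z x : V) :
    dev c (t + 1) z x = Pop c (dev c t z) x := by
  unfold Pop dev
  have : ∀ y, lz c x y * (Pn c t y z / om c z - 1 / Wt c) = (lz c x y * Pn c t y z) / om c z - lz c x y / Wt c :=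
    fun y => by ring
  rw [sum_congr rfl fun y _ => this y, sum_sub_distrib, ← sum_div, ← sum_div, ← Pn_succ, lz_sum c hom x]

theorem dev_norm (c : V → V → ℝ) (hc0 : ∀ x y, 0 ≤ c x y) (hcs : ∀ x y, c x y = c y x) (hom : ∀ x, 0 < om c x) {ψ : ℝ}
    (hψ : 0 ≤ ψ) (hψ1 : ψ ≤ 1) (hC : CondW ψ c) (z : V) :
    ∀ t : ℕ, ∑ x, om c x * dev c t z x ^ 2 ≤ (1 - ψ ^ 2 / 4) ^ t / om c z
  | 0 => by
      have hW := Wt_pos c hom z
      have hz := hom z
      have h1 : ∀ x, om c x * dev c 0 z x ^ 2 = (if x = z then om c x * (1 / om c z ^ 2 - 2 / (om c z * Wt c)) else 0)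
          + om c x * (1 / Wt c ^ 2) := by
        intro x
        unfold dev
        rw [Pn_zero]
        split_ifs with h
        · have := hz.ne'
          have := hW.ne'
          field_simp
          ring
        · ring
      rw [sum_congr rfl fun x _ => h1 x, sum_add_distrib, sum_ite_eq', if_pos (mem_univ _), ← sum_mul, pow_zero]
      have h2 : ∑ x, om c x = Wt c := rfl
      rw [h2]
      have h3 : om c z * (1 / om c z ^ 2 - 2 / (om c z * Wt c)) + Wt c * (1 / Wt c ^ 2) = 1 / om c z - 1 / Wt c := by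
        have := hz.ne'
        have := hW.ne'
        field_simp
        ring
      rw [h3]
      have : 0 < 1 / Wt c := by positivity
      linarith
  | t + 1 => by
      have ih := dev_norm c hc0 hcs hom hψ hψ1 hC z t
      have h1 := contr c hc0 hcs hom hψ hC (dev c t z) (dev_mean c hcs hom t z)
      have h2 : ∀ x, dev c (t + 1) z x = Pop c (dev c t z) x := dev_succ c hom t z
      rw [sum_congr rfl fun x _ => by rw [h2 x]]
      have h3 : 0 ≤ 1 - ψ ^ 2 / 4 := by nlinarith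
      calc _ ≤ (1 - ψ ^ 2 / 4) * ∑ x, om c x * dev c t z x ^ 2 := h1
        _ ≤ (1 - ψ ^ 2 / 4) * ((1 - ψ ^ 2 / 4) ^ t / om c z) := mul_le_mul_of_nonneg_left ih h3
        _ = (1 - ψ ^ 2 / 4) ^ (t + 1) / om c z := by ring

/-- **MIXING** -/
theorem mix (c : V → V → ℝ) (hc0 : ∀ x y, 0 ≤ c x y) (hcs : ∀ x y, c x y = c y x) (hom : ∀ x, 0 < om c x) {ψ : ℝ}
    (hψ : 0 ≤ ψ) (hψ1 : ψ ≤ 1) (hC : CondW ψ c) (n : ℕ) (x z : V) :
    (Pn c n x z / om c z - 1 / Wt c) ^ 2 ≤ (1 - ψ ^ 2 / 4) ^ n / (om c x * om c z) := by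
  obtain ⟨s, t, rfl⟩ : ∃ s t, n = s + t := ⟨0, n, (zero_add n).symm⟩
  have hx := hom x
  have hz := hom z
  have h1 : dev c (s + t) z x = ∑ y, om c y * (dev c s x y * dev c t z y) := by
    have e1 : ∑ y, om c y * (dev c s x y * dev c t z y) = ∑ y, om c y * (Pn c s y x / om c x * dev c t z y)
        - (1 / Wt c) * ∑ y, om c y * dev c t z y := by
      rw [mul_sum, ← sum_sub_distrib]
      refine sum_congr rfl fun y _ => ?_
      show om c y * ((Pn c s y x / om c x - 1 / Wt c) * dev c t z y) = _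
      ring
    rw [e1, dev_mean c hcs hom t z, mul_zero, sub_zero]
    have e2 : ∀ y, om c y * (Pn c s y x / om c x * dev c t z y) = Pn c s x y * dev c t z y := by
      intro y
      have h2 := Pn_rev c hcs hom s y x
      have : om c y * (Pn c s y x / om c x * dev c t z y) = (om c y * Pn c s y x) / om c x * dev c t z y := by ring
      rw [this, h2, mul_div_cancel_left₀ _ hx.ne']
    rw [sum_congr rfl fun y _ => e2 y]
    unfold dev
    have e3 : ∀ y, Pn c s x y * (Pn c t y z / om c z - 1 / Wt c) = (Pn c s x y * Pn c t y z) / om c z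
        - Pn c s x y / Wt c := fun y => by ring
    rw [sum_congr rfl fun y _ => e3 y, sum_sub_distrib, ← sum_div, ← sum_div, ← Pn_add, Pn_sum c hom s x]
  have h2 : dev c (s + t) z x ^ 2 ≤ (∑ y, om c y * dev c s x y ^ 2) * ∑ y, om c y * dev c t z y ^ 2 := by
    have h3 := Finset.sum_mul_sq_le_sq_mul_sq (univ : Finset V) (fun y => Real.sqrt (om c y) * dev c s x y)
      (fun y => Real.sqrt (om c y) * dev c t z y)
    have e1 : ∑ y, Real.sqrt (om c y) * dev c s x y * (Real.sqrt (om c y) * dev c t z y) = dev c (s + t) z x := by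
      rw [h1]
      refine sum_congr rfl fun y _ => ?_
      have := Real.mul_self_sqrt (hom y).le
      calc _ = (Real.sqrt (om c y) * Real.sqrt (om c y)) * (dev c s x y * dev c t z y) := by ring
        _ = _ := by rw [this]
    have e2 : ∀ (k : ℕ) (v : V), ∑ y, (Real.sqrt (om c y) * dev c k v y) ^ 2 = ∑ y, om c y * dev c k v y ^ 2 := by
      intro k v
      exact sum_congr rfl fun y _ => by rw [mul_pow, Real.sq_sqrt (hom y).le]
    rw [e1, e2, e2] at h3
    exact h3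
  have h4 := dev_norm c hc0 hcs hom hψ hψ1 hC x s
  have h5 := dev_norm c hc0 hcs hom hψ hψ1 hC z t
  have h6 : 0 ≤ 1 - ψ ^ 2 / 4 := by nlinarith
  have h7 : 0 ≤ ∑ y, om c y * dev c t z y ^ 2 := sum_nonneg fun y _ => mul_nonneg (hom y).le (sq_nonneg _)
  calc (Pn c (s + t) x z / om c z - 1 / Wt c) ^ 2 = dev c (s + t) z x ^ 2 := rfl
    _ ≤ (∑ y, om c y * dev c s x y ^ 2) * ∑ y, om c y * dev c t z y ^ 2 := h2
    _ ≤ ((1 - ψ ^ 2 / 4) ^ s / om c x) * ((1 - ψ ^ 2 / 4) ^ t / om c z) :=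
        mul_le_mul h4 h5 h7 (by positivity)
    _ = (1 - ψ ^ 2 / 4) ^ (s + t) / (om c x * om c z) := by
        rw [pow_add]
        have := hx.ne'
        have := hz.ne'
        field_simp

/-- **MIXING TIME** -/
theorem mix_abs (c : V → V → ℝ) (hc0 : ∀ x y, 0 ≤ c x y) (hcs : ∀ x y, c x y = c y x) (hom : ∀ x, 1 ≤ om c x) {ψ : ℝ}
    (hψ : 0 ≤ ψ) (hψ1 : ψ ≤ 1) (hC : CondW ψ c) {n : ℕ} (hn : 8 * Real.log (2 * Wt c) ≤ ψ ^ 2 * n) (x z : V) :
    |Pn c n x z / om c z - 1 / Wt c| ≤ 1 / (2 * Wt c) := by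
  have hom0 : ∀ x, 0 < om c x := fun x => by linarith [hom x]
  have hW := Wt_pos c hom0 x
  have h1 := mix c hc0 hcs hom0 hψ hψ1 hC n x z
  have h2 : (1 - ψ ^ 2 / 4) ^ n ≤ (1 / (2 * Wt c)) ^ 2 := by
    have h3 : (1 - ψ ^ 2 / 4) ≤ Real.exp (-(ψ ^ 2 / 4)) := by
      have := Real.add_one_le_exp (-(ψ ^ 2 / 4))
      linarith
    have h4 : 0 ≤ 1 - ψ ^ 2 / 4 := by nlinarith
    calc (1 - ψ ^ 2 / 4) ^ n ≤ Real.exp (-(ψ ^ 2 / 4)) ^ n := pow_le_pow_left₀ h4 h3 n
      _ = Real.exp (-(ψ ^ 2 * n / 4)) := by rw [← Real.exp_nat_mul]; congr 1; ring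
      _ ≤ Real.exp (-(2 * Real.log (2 * Wt c))) := Real.exp_le_exp.2 (by linarith)
      _ = (1 / (2 * Wt c)) ^ 2 := by
          rw [show -(2 * Real.log (2 * Wt c)) = (2 : ℕ) * (-Real.log (2 * Wt c)) from by push_cast; ring,
            Real.exp_nat_mul, Real.exp_neg, Real.exp_log (by positivity), one_div]
  have h5 : (1 - ψ ^ 2 / 4) ^ n / (om c x * om c z) ≤ (1 / (2 * Wt c)) ^ 2 := by
    have h6 : 1 ≤ om c x * om c z := by nlinarith [hom x, hom z]
    have h7 : 0 ≤ (1 - ψ ^ 2 / 4) ^ n := by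
      have h4 : 0 ≤ 1 - ψ ^ 2 / 4 := by nlinarith
      positivity
    calc (1 - ψ ^ 2 / 4) ^ n / (om c x * om c z) ≤ (1 - ψ ^ 2 / 4) ^ n := div_le_self h7 h6
      _ ≤ _ := h2
  exact abs_le_of_sq_le_sq (h1.trans h5) (by positivity)

/-- lower bound after the mixing time -/
theorem mix_low (c : V → V → ℝ) (hc0 : ∀ x y, 0 ≤ c x y) (hcs : ∀ x y, c x y = c y x) (hom : ∀ x, 1 ≤ om c x) {ψ : ℝ}
    (hψ : 0 ≤ ψ) (hψ1 : ψ ≤ 1) (hC : CondW ψ c) {n : ℕ} (hn : 8 * Real.log (2 * Wt c) ≤ ψ ^ 2 * n) (x z : V) :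
    om c z / (2 * Wt c) ≤ Pn c n x z := by
  have hom0 : ∀ x, 0 < om c x := fun x => by linarith [hom x]
  have hW := Wt_pos c hom0 x
  have h := (abs_le.1 (mix_abs c hc0 hcs hom hψ hψ1 hC hn x z)).1
  have h1 : 1 / Wt c - 1 / (2 * Wt c) ≤ Pn c n x z / om c z := by linarith
  have h2 : 1 / Wt c - 1 / (2 * Wt c) = 1 / (2 * Wt c) := by
    have := hW.ne'
    field_simp
    norm_num
  rw [h2, le_div_iff₀ (hom0 z)] at h1
  calc om c z / (2 * Wt c) = 1 / (2 * Wt c) * om c z := by ring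
    _ ≤ _ := h1

/-- upper bound after the mixing time -/
theorem mix_up (c : V → V → ℝ) (hc0 : ∀ x y, 0 ≤ c x y) (hcs : ∀ x y, c x y = c y x) (hom : ∀ x, 1 ≤ om c x) {ψ : ℝ}
    (hψ : 0 ≤ ψ) (hψ1 : ψ ≤ 1) (hC : CondW ψ c) {n : ℕ} (hn : 8 * Real.log (2 * Wt c) ≤ ψ ^ 2 * n) (x z : V) :
    Pn c n x z ≤ 2 * om c z / Wt c := by
  have hom0 : ∀ x, 0 < om c x := fun x => by linarith [hom x]
  have hW := Wt_pos c hom0 x
  have h := (abs_le.1 (mix_abs c hc0 hcs hom hψ hψ1 hC hn x z)).2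
  have h2 : 1 / (2 * Wt c) ≤ 1 / Wt c := by
    apply one_div_le_one_div_of_le hW
    linarith
  have h1 : Pn c n x z / om c z ≤ 2 / Wt c := by
    have : 2 / Wt c = 1 / Wt c + 1 / Wt c := by ring
    linarith
  rw [div_le_iff₀ (hom0 z)] at h1
  calc Pn c n x z ≤ 2 / Wt c * om c z := h1
    _ = _ := by ring

end

end Mx

namespace WG

variable {V : Type} [Fintype V] [DecidableEq V] (G : WG V)

theorem ker_eq (x y : V) : G.ker x y = Mx.lz G.w x y := rfl

theorem kerN_eq : ∀ (t : ℕ) (x y : V), G.kerN t x y = Mx.Pn G.w t x y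
  | 0, x, y => rfl
  | t + 1, x, y => by
      show ∑ z, G.ker x z * G.kerN t z y = ∑ z, Mx.lz G.w x z * Mx.Pn G.w t z y
      exact sum_congr rfl fun z _ => by rw [kerN_eq t z y]; rfl

theorem condW {ψ : ℝ} (hψ : 0 ≤ ψ) (hC : G.Cond ψ) : Mx.CondW ψ G.w := by
  intro X
  have h := G.vol_add_compl X
  rcases le_total (2 * G.vol X) (G.vol univ) with h1 | h1
  · have h2 := hC X h1
    exact (mul_le_mul_of_nonneg_left (min_le_left _ _) hψ).trans h2
  · have h2 := hC Xᶜ (by linarith)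
    rw [G.cut_compl] at h2
    exact (mul_le_mul_of_nonneg_left (min_le_right _ _) hψ).trans h2

theorem ker_nonneg (x y : V) : 0 ≤ G.ker x y := Mx.lz_nonneg G.w G.nonneg x y

theorem ker_sum (hom : ∀ x, 0 < G.om x) (x : V) : ∑ y, G.ker x y = 1 := Mx.lz_sum G.w hom x

theorem ker_rev (hom : ∀ x, 0 < G.om x) (x y : V) : G.om x * G.ker x y = G.om y * G.ker y x :=
  Mx.lz_rev G.w G.symm hom x y

theorem kerN_zero (x y : V) : G.kerN 0 x y = if x = y then 1 else 0 := rfl

theorem kerN_succ (t : ℕ) (x y : V) : G.kerN (t + 1) x y = ∑ z, G.ker x z * G.kerN t z y := rfl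

theorem kerN_nonneg (t : ℕ) (x y : V) : 0 ≤ G.kerN t x y := by
  rw [kerN_eq]; exact Mx.Pn_nonneg G.w G.nonneg t x y

theorem kerN_sum (hom : ∀ x, 0 < G.om x) (t : ℕ) (x : V) : ∑ y, G.kerN t x y = 1 := by
  simp_rw [kerN_eq]; exact Mx.Pn_sum G.w hom t x

theorem kerN_add (s t : ℕ) (x y : V) : G.kerN (s + t) x y = ∑ z, G.kerN s x z * G.kerN t z y := by
  simp_rw [kerN_eq]; exact Mx.Pn_add G.w s t x y

theorem kerN_one (x y : V) : G.kerN 1 x y = G.ker x y := by
  rw [kerN_eq]; exact Mx.Pn_one G.w x y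

theorem kerN_succ' (t : ℕ) (x y : V) : G.kerN (t + 1) x y = ∑ z, G.kerN t x z * G.ker z y := by
  simp_rw [kerN_eq]; exact Mx.Pn_succ' G.w t x y

theorem kerN_rev (hom : ∀ x, 0 < G.om x) (t : ℕ) (x y : V) : G.om x * G.kerN t x y = G.om y * G.kerN t y x := by
  simp_rw [kerN_eq]; exact Mx.Pn_rev G.w G.symm hom t x y

theorem kerN_stat (hom : ∀ x, 0 < G.om x) (t : ℕ) (y : V) : ∑ x, G.om x * G.kerN t x y = G.om y := by
  simp_rw [kerN_eq]; exact Mx.Pn_stat G.w G.symm hom t y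

theorem kerN_le_one (hom : ∀ x, 0 < G.om x) (t : ℕ) (x y : V) : G.kerN t x y ≤ 1 := by
  rw [kerN_eq]; exact Mx.Pn_le_one G.w G.nonneg hom t x y

/-- the stationary distribution is stationary -/
theorem pi_stat (hom : ∀ x, 0 < G.om x) (t : ℕ) (y : V) : ∑ x, G.pi x * G.kerN t x y = G.pi y := by
  unfold pi
  have : ∀ x, G.om x / G.vol univ * G.kerN t x y = (G.om x * G.kerN t x y) / G.vol univ := fun x => by ring
  rw [sum_congr rfl fun x _ => this x, ← sum_div, G.kerN_stat hom]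

theorem pi_nonneg (x : V) : 0 ≤ G.pi x := div_nonneg (G.om_nonneg x) (G.vol_nonneg _)

theorem pi_sum (hV : 0 < G.vol univ) : ∑ x, G.pi x = 1 := by
  unfold pi
  rw [← sum_div]
  exact div_self hV.ne'

/-- **CHEEGER** for functions of mean zero -/
theorem cheeger {ψ : ℝ} (hψ : 0 ≤ ψ) (hC : G.Cond ψ) (f : V → ℝ) (hf : ∑ x, G.om x * f x = 0) :
    ψ ^ 2 * ∑ x, G.om x * f x ^ 2 ≤ ∑ x, ∑ y, G.w x y * (f x - f y) ^ 2 :=
  Mx.cheeger G.w G.nonneg G.symm hψ (G.condW hψ hC) f hf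

/-- **CONTRACTION** of the lazy walk on functions of mean zero -/
theorem contr (hom : ∀ x, 0 < G.om x) {ψ : ℝ} (hψ : 0 ≤ ψ) (hC : G.Cond ψ) (f : V → ℝ) (hf : ∑ x, G.om x * f x = 0) :
    ∑ x, G.om x * (∑ y, G.ker x y * f y) ^ 2 ≤ (1 - ψ ^ 2 / 4) * ∑ x, G.om x * f x ^ 2 :=
  Mx.contr G.w G.nonneg G.symm hom hψ (G.condW hψ hC) f hf

/-- **MIXING** -/
theorem mix (hom : ∀ x, 0 < G.om x) {ψ : ℝ} (hψ : 0 ≤ ψ) (hψ1 : ψ ≤ 1) (hC : G.Cond ψ) (n : ℕ) (x z : V) :
    (G.kerN n x z / G.om z - 1 / G.vol univ) ^ 2 ≤ (1 - ψ ^ 2 / 4) ^ n / (G.om x * G.om z) := by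
  rw [kerN_eq]; exact Mx.mix G.w G.nonneg G.symm hom hψ hψ1 (G.condW hψ hC) n x z

/-- **MIXING TIME** -/
theorem mix_abs (hom : ∀ x, 1 ≤ G.om x) {ψ : ℝ} (hψ : 0 ≤ ψ) (hψ1 : ψ ≤ 1) (hC : G.Cond ψ) {n : ℕ}
    (hn : 8 * Real.log (2 * G.vol univ) ≤ ψ ^ 2 * n) (x z : V) :
    |G.kerN n x z / G.om z - 1 / G.vol univ| ≤ 1 / (2 * G.vol univ) := by
  rw [kerN_eq]; exact Mx.mix_abs G.w G.nonneg G.symm hom hψ hψ1 (G.condW hψ hC) hn x z

/-- lower bound after the mixing time -/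
theorem mix_low (hom : ∀ x, 1 ≤ G.om x) {ψ : ℝ} (hψ : 0 ≤ ψ) (hψ1 : ψ ≤ 1) (hC : G.Cond ψ) {n : ℕ}
    (hn : 8 * Real.log (2 * G.vol univ) ≤ ψ ^ 2 * n) (x z : V) : G.pi z / 2 ≤ G.kerN n x z := by
  have h := Mx.mix_low G.w G.nonneg G.symm hom hψ hψ1 (G.condW hψ hC) hn x z
  rw [kerN_eq]
  refine le_trans (le_of_eq ?_) h
  show G.om z / G.vol univ / 2 = G.om z / (2 * G.vol univ)
  rw [div_div, mul_comm]

/-- upper bound after the mixing time -/
theorem mix_up (hom : ∀ x, 1 ≤ G.om x) {ψ : ℝ} (hψ : 0 ≤ ψ) (hψ1 : ψ ≤ 1) (hC : G.Cond ψ) {n : ℕ}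
    (hn : 8 * Real.log (2 * G.vol univ) ≤ ψ ^ 2 * n) (x z : V) : G.kerN n x z ≤ 2 * G.pi z := by
  have h := Mx.mix_up G.w G.nonneg G.symm hom hψ hψ1 (G.condW hψ hC) hn x z
  rw [kerN_eq]
  refine h.trans (le_of_eq ?_)
  show 2 * G.om z / G.vol univ = 2 * (G.om z / G.vol univ)
  ring

end WG

end Pool.Agent.GW
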