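import Pool.Agent.GW.Graph

/-!
# GW.MixC: conductance, Cheeger inequality and mixing of the lazy walk on a weighted graph

`c x y = c y x >= 0` edge weights on a finite type, `om c x = sum_y c x y`, `tw c = sum_x om c x`,
`Cond c psi` : every `S` with `2 om(S) <= tw` has `psi om(S) <= c(S, complement)`.
* `cheeger` : `psi^2 sum om (f - m)^2 <= sum_(x,y) c x y (f x - f y)^2`, `m` the `om`-mean of `f`;
* `lz c x y` lazy walk, `Pt c n` its powers: stochastic, reversible, semigroup;
* `mix_abs`, `mix` : after `2n` steps with `n >= (4/psi^2) log (2 W)` every transition probability is between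
  `om z / (2W)` and `3 om z / (2W)`, and the same at all later times;
* the same statements for `G : WG V` at the end of the file.
-/

set_option autoImplicit false
set_option linter.unusedSectionVars false

namespace Pool.Agent.GW.MixC

open Finset

variable {V : Type*} [Fintype V] [DecidableEq V]

noncomputable section

/-- weight of a vertex -/
def om (c : V → V → ℝ) (x : V) : ℝ := ∑ y, c x y

/-- total weight -/
def tw (c : V → V → ℝ) : ℝ := ∑ x, om c x

/-- conductance at least `psi` -/
def Cond (c : V → V → ℝ) (psi : ℝ) : Prop :=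
  ∀ S : Finset V, 2 * ∑ x ∈ S, om c x ≤ tw c → psi * ∑ x ∈ S, om c x ≤ ∑ x ∈ S, ∑ y ∈ Sᶜ, c x y

/-- one step of the lazy walk -/
def lz (c : V → V → ℝ) (x y : V) : ℝ := (if x = y then 1 / 2 else 0) + c x y / (2 * om c x)

/-- `n` steps of the lazy walk -/
def Pt (c : V → V → ℝ) : ℕ → V → V → ℝ
  | 0, x, z => if x = z then 1 else 0
  | n + 1, x, z => ∑ y, lz c x y * Pt c n y z

end

variable {c : V → V → ℝ}

theorem om_nonneg (h0 : ∀ x y, 0 ≤ c x y) (x : V) : 0 ≤ om c x :=
  Finset.sum_nonneg (fun y _ => h0 x y)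

theorem tw_nonneg (h0 : ∀ x y, 0 ≤ c x y) : 0 ≤ tw c :=
  Finset.sum_nonneg (fun x _ => om_nonneg h0 x)

theorem om_le_tw (h0 : ∀ x y, 0 ≤ c x y) (x : V) : om c x ≤ tw c :=
  Finset.single_le_sum (f := fun x => om c x) (fun y _ => om_nonneg h0 y) (Finset.mem_univ x)

/-- sums over pairs of a function of the second point -/
theorem sum_snd (hs : ∀ x y, c x y = c y x) (f : V → ℝ) : ∑ x, ∑ y, c x y * f y = ∑ x, om c x * f x := by
  rw [Finset.sum_comm]
  refine Finset.sum_congr rfl (fun y _ => ?_)
  unfold om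
  rw [Finset.sum_mul]
  exact Finset.sum_congr rfl (fun x _ => by rw [hs x y])

theorem sum_fst (f : V → ℝ) : ∑ x, ∑ y, c x y * f x = ∑ x, om c x * f x := by
  refine Finset.sum_congr rfl (fun x _ => ?_)
  unfold om
  rw [Finset.sum_mul]

/-! ## Cheeger -/

/-- co-area inequality -/
theorem coarea (hs : ∀ x y, c x y = c y x) (h0 : ∀ x y, 0 ≤ c x y) {psi : ℝ} (hc : Cond c psi) :
    ∀ (n : ℕ) (h : V → ℝ), (∀ x, 0 ≤ h x) → (Finset.univ.filter (fun x => h x ≠ 0)).card = n →
      2 * ∑ x ∈ Finset.univ.filter (fun x => h x ≠ 0), om c x ≤ tw c →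
      2 * psi * ∑ x, om c x * h x ≤ ∑ x, ∑ y, c x y * |h x - h y| := by
  intro n
  induction n using Nat.strong_induction_on with
  | _ n ih =>
    intro h hh hn hw
    set S := Finset.univ.filter (fun x => h x ≠ 0) with hS
    rcases S.eq_empty_or_nonempty with he | hne
    · have h1 : ∀ x, h x = 0 := by
        intro x
        by_contra hx
        have : x ∈ S := by rw [hS]; simp [hx]
        rw [he] at this
        exact absurd this (Finset.notMem_empty x)
      simp [h1]
    · obtain ⟨x0, hx0, hmin⟩ := Finset.exists_min_image S h hne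
      set m := h x0 with hm
      have hm0 : 0 < m := lt_of_le_of_ne (hh x0) (by
        have := (Finset.mem_filter.mp hx0).2
        exact fun h' => this h'.symm)
      -- the reduced function
      set g : V → ℝ := fun x => if x ∈ S then h x - m else 0 with hg
      have hgn : ∀ x, 0 ≤ g x := by
        intro x
        simp only [hg]
        split_ifs with hx
        · linarith [hmin x hx]
        · exact le_rfl
      have hsub : Finset.univ.filter (fun x => g x ≠ 0) ⊆ S.erase x0 := by
        intro x hx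
        have hx1 := (Finset.mem_filter.mp hx).2
        simp only [hg] at hx1
        rw [Finset.mem_erase]
        constructor
        · rintro rfl
          rw [if_pos hx0] at hx1
          exact hx1 (sub_self _)
        · by_contra hx2
          rw [if_neg hx2] at hx1
          exact hx1 rfl
      have hcard : (Finset.univ.filter (fun x => g x ≠ 0)).card < n := by
        refine lt_of_le_of_lt (Finset.card_le_card hsub) ?_
        rw [← hn]
        exact Finset.card_erase_lt_of_mem hx0
      have hgw : 2 * ∑ x ∈ Finset.univ.filter (fun x => g x ≠ 0), om c x ≤ tw c := by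
        refine le_trans ?_ hw
        have := Finset.sum_le_sum_of_subset_of_nonneg (f := fun x => om c x)
          (hsub.trans (Finset.erase_subset _ _)) (fun x _ _ => om_nonneg h0 x)
        linarith
      have h1 := ih _ hcard g hgn rfl hgw
      -- decomposition of both sides
      have hval : ∀ x, h x = g x + m * (if x ∈ S then 1 else 0) := by
        intro x
        simp only [hg]
        by_cases hx : x ∈ S
        · simp only [hx, if_true]; ring
        · simp only [hx, if_false]
          have : h x = 0 := by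
            by_contra hx2
            exact hx (by rw [hS]; simp [hx2])
          rw [this]; ring
      have e1 : ∑ x, om c x * h x = ∑ x, om c x * g x + m * ∑ x ∈ S, om c x := by
        rw [Finset.mul_sum, ← Finset.sum_filter_add_sum_filter_not Finset.univ (fun x => x ∈ S) (fun x => om c x * h x),
          ← Finset.sum_filter_add_sum_filter_not Finset.univ (fun x => x ∈ S) (fun x => om c x * g x)]
        have f1 : Finset.univ.filter (fun x => x ∈ S) = S := by ext x; simp
        rw [f1]
        have g1 : ∑ x ∈ S, om c x * h x = ∑ x ∈ S, om c x * g x + ∑ x ∈ S, m * om c x := by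
          rw [← Finset.sum_add_distrib]
          refine Finset.sum_congr rfl (fun x hx => ?_)
          rw [hval x, if_pos hx]; ring
        have g2 : ∑ x ∈ Finset.univ.filter (fun x => x ∉ S), om c x * h x =
            ∑ x ∈ Finset.univ.filter (fun x => x ∉ S), om c x * g x := by
          refine Finset.sum_congr rfl (fun x hx => ?_)
          rw [hval x, if_neg (Finset.mem_filter.mp hx).2]; ring
        rw [g1, g2]; ring
      have e2 : ∀ x y, c x y * |h x - h y| = c x y * |g x - g y| +
          m * ((if x ∈ S then (if y ∈ S then 0 else c x y) else 0) +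
            (if y ∈ S then (if x ∈ S then 0 else c x y) else 0)) := by
        intro x y
        rw [hval x, hval y]
        have gx := hgn x
        have gy := hgn y
        by_cases hx : x ∈ S <;> by_cases hy : y ∈ S
        · simp only [hx, hy, if_true]
          have : g x + m * 1 - (g y + m * 1) = g x - g y := by ring
          rw [this]; ring
        · have g0 : g y = 0 := by simp only [hg, hy, if_false]
          simp only [hx, hy, if_true, if_false]
          rw [g0, abs_of_nonneg (by nlinarith), abs_of_nonneg (by linarith)]; ring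
        · have g0 : g x = 0 := by simp only [hg, hx, if_false]
          simp only [hx, hy, if_true, if_false]
          rw [g0, abs_of_nonpos (by nlinarith), abs_of_nonpos (by linarith)]; ring
        · simp only [hx, hy, if_false]
          have : g x + m * 0 - (g y + m * 0) = g x - g y := by ring
          rw [this]; ring
      have e3 : ∑ x, ∑ y, c x y * |h x - h y| = ∑ x, ∑ y, c x y * |g x - g y| +
          m * (2 * ∑ x ∈ S, ∑ y ∈ Sᶜ, c x y) := by
        simp only [e2]
        simp only [Finset.sum_add_distrib, ← Finset.mul_sum]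
        congr 1
        congr 1
        have k1 : ∑ x, ∑ y, (if x ∈ S then (if y ∈ S then 0 else c x y) else 0) = ∑ x ∈ S, ∑ y ∈ Sᶜ, c x y := by
          rw [← Finset.sum_filter_add_sum_filter_not Finset.univ (fun x => x ∈ S)]
          have f1 : Finset.univ.filter (fun x => x ∈ S) = S := by ext x; simp
          rw [f1]
          have z1 : ∑ x ∈ Finset.univ.filter (fun x => x ∉ S),
              ∑ y, (if x ∈ S then (if y ∈ S then 0 else c x y) else 0) = 0 := by
            refine Finset.sum_eq_zero (fun x hx => Finset.sum_eq_zero (fun y _ => ?_))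
            rw [if_neg (Finset.mem_filter.mp hx).2]
          rw [z1, add_zero]
          refine Finset.sum_congr rfl (fun x hx => ?_)
          rw [← Finset.sum_filter_add_sum_filter_not Finset.univ (fun y => y ∈ S)]
          have z2 : ∑ y ∈ Finset.univ.filter (fun y => y ∈ S),
              (if x ∈ S then (if y ∈ S then 0 else c x y) else 0) = 0 := by
            refine Finset.sum_eq_zero (fun y hy => ?_)
            rw [if_pos hx, if_pos (Finset.mem_filter.mp hy).2]
          rw [z2, zero_add]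
          have f2 : Finset.univ.filter (fun y => y ∉ S) = Sᶜ := by ext y; simp
          rw [f2]
          refine Finset.sum_congr rfl (fun y hy => ?_)
          rw [if_pos hx, if_neg (Finset.mem_compl.mp hy)]
        have k2 : ∑ x, ∑ y, (if y ∈ S then (if x ∈ S then 0 else c x y) else 0) = ∑ x ∈ S, ∑ y ∈ Sᶜ, c x y := by
          rw [Finset.sum_comm, ← k1]
          refine Finset.sum_congr rfl (fun x _ => Finset.sum_congr rfl (fun y _ => ?_))
          rw [hs x y]
        rw [k1, k2]; ring
      have h2 := hc S hw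
      rw [e1, e3]
      have h3 := mul_le_mul_of_nonneg_left h2 hm0.le
      nlinarith [h1, h3]

/-- Cheeger for a nonnegative function with small support -/
theorem cheeger_pos (hs : ∀ x y, c x y = c y x) (h0 : ∀ x y, 0 ≤ c x y) {psi : ℝ} (hp : 0 ≤ psi)
    (hc : Cond c psi) {f : V → ℝ} (hf : ∀ x, 0 ≤ f x)
    (hw : 2 * ∑ x ∈ Finset.univ.filter (fun x => f x ≠ 0), om c x ≤ tw c) :
    psi ^ 2 * ∑ x, om c x * f x ^ 2 ≤ ∑ x, ∑ y, c x y * (f x - f y) ^ 2 := by
  set A := ∑ x, om c x * f x ^ 2 with hA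
  set D := ∑ x, ∑ y, c x y * (f x - f y) ^ 2 with hD
  have hA0 : 0 ≤ A := Finset.sum_nonneg (fun x _ => mul_nonneg (om_nonneg h0 x) (sq_nonneg _))
  have hD0 : 0 ≤ D :=
    Finset.sum_nonneg (fun x _ => Finset.sum_nonneg (fun y _ => mul_nonneg (h0 x y) (sq_nonneg _)))
  have h1 := coarea hs h0 hc _ (fun x => f x ^ 2) (fun x => sq_nonneg _) rfl (by
    refine le_trans (le_of_eq ?_) hw
    congr 2
    ext x
    simp)
  have h2 : ∑ x, ∑ y, c x y * |f x ^ 2 - f y ^ 2| ≤ Real.sqrt (D * (4 * A)) := by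
    refine Real.le_sqrt_of_sq_le ?_
    have cs := Finset.sum_mul_sq_le_sq_mul_sq (Finset.univ : Finset (V × V))
      (fun p => Real.sqrt (c p.1 p.2) * |f p.1 - f p.2|) (fun p => Real.sqrt (c p.1 p.2) * (f p.1 + f p.2))
    have e1 : ∑ p : V × V, Real.sqrt (c p.1 p.2) * |f p.1 - f p.2| * (Real.sqrt (c p.1 p.2) * (f p.1 + f p.2)) =
        ∑ x, ∑ y, c x y * |f x ^ 2 - f y ^ 2| := by
      rw [← Fintype.sum_prod_type' (f := fun x y => c x y * |f x ^ 2 - f y ^ 2|)]
      refine Finset.sum_congr rfl (fun p _ => ?_)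
      have hq := Real.mul_self_sqrt (h0 p.1 p.2)
      have ha : |f p.1 ^ 2 - f p.2 ^ 2| = |f p.1 - f p.2| * (f p.1 + f p.2) := by
        have : f p.1 ^ 2 - f p.2 ^ 2 = (f p.1 - f p.2) * (f p.1 + f p.2) := by ring
        rw [this, abs_mul, abs_of_nonneg (add_nonneg (hf p.1) (hf p.2))]
      rw [ha]
      calc _ = (Real.sqrt (c p.1 p.2) * Real.sqrt (c p.1 p.2)) * (|f p.1 - f p.2| * (f p.1 + f p.2)) := by ring
        _ = _ := by rw [hq]
    have e2 : ∑ p : V × V, (Real.sqrt (c p.1 p.2) * |f p.1 - f p.2|) ^ 2 = D := by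
      rw [hD, ← Fintype.sum_prod_type' (f := fun x y => c x y * (f x - f y) ^ 2)]
      refine Finset.sum_congr rfl (fun p _ => ?_)
      rw [mul_pow, Real.sq_sqrt (h0 p.1 p.2), sq_abs]
    have e3 : ∑ p : V × V, (Real.sqrt (c p.1 p.2) * (f p.1 + f p.2)) ^ 2 ≤ 4 * A := by
      have e4 : ∑ p : V × V, (Real.sqrt (c p.1 p.2) * (f p.1 + f p.2)) ^ 2 =
          ∑ x, ∑ y, c x y * (f x + f y) ^ 2 := by
        rw [← Fintype.sum_prod_type' (f := fun x y => c x y * (f x + f y) ^ 2)]
        refine Finset.sum_congr rfl (fun p _ => ?_)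
        rw [mul_pow, Real.sq_sqrt (h0 p.1 p.2)]
      rw [e4]
      have e5 : ∑ x, ∑ y, c x y * (f x + f y) ^ 2 ≤ ∑ x, ∑ y, (2 * (c x y * f x ^ 2) + 2 * (c x y * f y ^ 2)) := by
        refine Finset.sum_le_sum (fun x _ => Finset.sum_le_sum (fun y _ => ?_))
        have := mul_nonneg (h0 x y) (sq_nonneg (f x - f y))
        nlinarith
      refine e5.trans (le_of_eq ?_)
      simp only [Finset.sum_add_distrib, ← Finset.mul_sum]
      rw [sum_snd hs (fun y => f y ^ 2), sum_fst (fun x => f x ^ 2)]
      ring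
    rw [e1, e2] at cs
    exact cs.trans (mul_le_mul_of_nonneg_left e3 hD0)
  have h3 : 2 * psi * A ≤ Real.sqrt (D * (4 * A)) := h1.trans h2
  have h4 : (2 * psi * A) ^ 2 ≤ D * (4 * A) := by
    have h5 : 0 ≤ 2 * psi * A := mul_nonneg (by linarith) hA0
    calc _ ≤ (Real.sqrt (D * (4 * A))) ^ 2 := pow_le_pow_left₀ h5 h3 2
      _ = _ := Real.sq_sqrt (mul_nonneg hD0 (by linarith))
  rcases eq_or_lt_of_le hA0 with h6 | h6
  · rw [← h6, mul_zero]; exact hD0
  · have h7 : (psi ^ 2 * A) * (4 * A) ≤ D * (4 * A) := by nlinarith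
    exact le_of_mul_le_mul_right h7 (by linarith)

/-- a median -/
theorem exists_median (h0 : ∀ x y, 0 ≤ c x y) (f : V → ℝ) :
    ∃ m, 2 * ∑ x ∈ Finset.univ.filter (fun x => m < f x), om c x ≤ tw c ∧
      2 * ∑ x ∈ Finset.univ.filter (fun x => f x < m), om c x ≤ tw c := by
  classical
  rcases isEmpty_or_nonempty V with hV | hV
  · refine ⟨0, ?_, ?_⟩ <;> simp [tw]
  set T := (Finset.univ.image f).filter (fun t => tw c ≤ 2 * ∑ x ∈ Finset.univ.filter (fun x => f x ≤ t), om c x)
    with hT
  have hTne : T.Nonempty := by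
    obtain ⟨x1, _, hx1⟩ := Finset.exists_max_image (Finset.univ : Finset V) f Finset.univ_nonempty
    refine ⟨f x1, ?_⟩
    rw [hT, Finset.mem_filter]
    refine ⟨Finset.mem_image_of_mem f (Finset.mem_univ _), ?_⟩
    have : Finset.univ.filter (fun x => f x ≤ f x1) = Finset.univ := by
      ext x; simp [hx1 x (Finset.mem_univ x)]
    rw [this]
    have := tw_nonneg h0
    unfold tw at this ⊢
    linarith
  obtain ⟨m, hm, hmin⟩ := Finset.exists_min_image T id hTne
  simp only [id] at hmin
  refine ⟨m, ?_, ?_⟩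
  · have h1 := (Finset.mem_filter.mp hm).2
    have h2 := Finset.sum_filter_add_sum_filter_not Finset.univ (fun x => f x ≤ m) (fun x => om c x)
    have h3 : Finset.univ.filter (fun x => ¬ f x ≤ m) = Finset.univ.filter (fun x => m < f x) := by
      ext x; simp
    rw [h3] at h2
    have h4 : ∑ x, om c x = tw c := rfl
    linarith
  · by_contra hcon
    push Not at hcon
    have hne : (Finset.univ.filter (fun x => f x < m)).Nonempty := by
      by_contra he
      rw [Finset.not_nonempty_iff_eq_empty] at he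
      rw [he] at hcon
      simp only [Finset.sum_empty, mul_zero] at hcon
      linarith [tw_nonneg h0]
    obtain ⟨x1, hx1, hmax⟩ := Finset.exists_max_image _ f hne
    have hlt := (Finset.mem_filter.mp hx1).2
    have hmem : f x1 ∈ T := by
      rw [hT, Finset.mem_filter]
      refine ⟨Finset.mem_image_of_mem f (Finset.mem_univ _), ?_⟩
      refine hcon.le.trans ?_
      have hsub : Finset.univ.filter (fun x => f x < m) ⊆ Finset.univ.filter (fun x => f x ≤ f x1) := by
        intro x hx
        rw [Finset.mem_filter]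
        exact ⟨Finset.mem_univ _, hmax x hx⟩
      have := Finset.sum_le_sum_of_subset_of_nonneg (f := fun x => om c x) hsub (fun x _ _ => om_nonneg h0 x)
      linarith
    linarith [hmin _ hmem]

/-- Cheeger inequality around a median -/
theorem cheeger_med (hs : ∀ x y, c x y = c y x) (h0 : ∀ x y, 0 ≤ c x y) {psi : ℝ} (hp : 0 ≤ psi)
    (hc : Cond c psi) (f : V → ℝ) :
    ∃ m, psi ^ 2 * ∑ x, om c x * (f x - m) ^ 2 ≤ ∑ x, ∑ y, c x y * (f x - f y) ^ 2 := by
  obtain ⟨m, h1, h2⟩ := exists_median h0 f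
  refine ⟨m, ?_⟩
  have a1 := cheeger_pos hs h0 hp hc (f := fun x => max (f x - m) 0) (fun x => le_max_right _ _) (by
    refine le_trans (le_of_eq ?_) h1
    congr 2
    ext x
    simp only [Finset.mem_filter, Finset.mem_univ, true_and, ne_eq, max_eq_right_iff, not_le]
    exact sub_pos)
  have a2 := cheeger_pos hs h0 hp hc (f := fun x => max (m - f x) 0) (fun x => le_max_right _ _) (by
    refine le_trans (le_of_eq ?_) h2
    congr 2
    ext x
    simp only [Finset.mem_filter, Finset.mem_univ, true_and, ne_eq, max_eq_right_iff, not_le]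
    exact sub_pos)
  have e1 : ∀ t : ℝ, (t - m) ^ 2 = max (t - m) 0 ^ 2 + max (m - t) 0 ^ 2 := by
    intro t
    rcases le_total t m with h | h
    · rw [max_eq_right (by linarith), max_eq_left (by linarith)]; ring
    · rw [max_eq_left (by linarith), max_eq_right (by linarith)]; ring
  have e2 : ∀ s t : ℝ, (max (s - m) 0 - max (t - m) 0) ^ 2 + (max (m - s) 0 - max (m - t) 0) ^ 2 ≤ (s - t) ^ 2 := by
    intro s t
    rcases le_total s m with h | h <;> rcases le_total t m with h' | h'
    · rw [max_eq_right (by linarith), max_eq_right (by linarith), max_eq_left (by linarith),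
        max_eq_left (by linarith)]
      nlinarith
    · rw [max_eq_right (by linarith), max_eq_left (by linarith), max_eq_left (by linarith),
        max_eq_right (by linarith)]
      nlinarith [mul_nonneg (sub_nonneg.mpr h) (sub_nonneg.mpr h')]
    · rw [max_eq_left (by linarith), max_eq_right (by linarith), max_eq_right (by linarith),
        max_eq_left (by linarith)]
      nlinarith [mul_nonneg (sub_nonneg.mpr h) (sub_nonneg.mpr h')]
    · rw [max_eq_left (by linarith), max_eq_left (by linarith), max_eq_right (by linarith),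
        max_eq_right (by linarith)]
      nlinarith
  have s1 : ∑ x, om c x * (f x - m) ^ 2 = ∑ x, om c x * max (f x - m) 0 ^ 2 + ∑ x, om c x * max (m - f x) 0 ^ 2 := by
    rw [← Finset.sum_add_distrib]
    exact Finset.sum_congr rfl (fun x _ => by rw [e1]; ring)
  have s2 : ∑ x, ∑ y, c x y * (max (f x - m) 0 - max (f y - m) 0) ^ 2 +
      ∑ x, ∑ y, c x y * (max (m - f x) 0 - max (m - f y) 0) ^ 2 ≤ ∑ x, ∑ y, c x y * (f x - f y) ^ 2 := by
    rw [← Finset.sum_add_distrib]
    refine Finset.sum_le_sum (fun x _ => ?_)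
    rw [← Finset.sum_add_distrib]
    refine Finset.sum_le_sum (fun y _ => ?_)
    have := mul_le_mul_of_nonneg_left (e2 (f x) (f y)) (h0 x y)
    linarith
  rw [s1, mul_add]
  linarith

/-- Cheeger inequality around the mean -/
theorem cheeger (hs : ∀ x y, c x y = c y x) (h0 : ∀ x y, 0 ≤ c x y) {psi : ℝ} (hp : 0 ≤ psi)
    (hc : Cond c psi) {f : V → ℝ} {m : ℝ} (hm : ∑ x, om c x * (f x - m) = 0) :
    psi ^ 2 * ∑ x, om c x * (f x - m) ^ 2 ≤ ∑ x, ∑ y, c x y * (f x - f y) ^ 2 := by
  obtain ⟨m', h1⟩ := cheeger_med hs h0 hp hc f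
  refine le_trans (mul_le_mul_of_nonneg_left ?_ (sq_nonneg psi)) h1
  have e : ∑ x, om c x * (f x - m') ^ 2 = ∑ x, om c x * (f x - m) ^ 2 +
      2 * (m - m') * ∑ x, om c x * (f x - m) + (m - m') ^ 2 * tw c := by
    unfold tw
    rw [Finset.mul_sum, Finset.mul_sum, ← Finset.sum_add_distrib, ← Finset.sum_add_distrib]
    exact Finset.sum_congr rfl (fun x _ => by ring)
  rw [e, hm]
  have := mul_nonneg (sq_nonneg (m - m')) (tw_nonneg h0)
  linarith

/-! ## the lazy walk -/

theorem lz_nonneg (h0 : ∀ x y, 0 ≤ c x y) (x y : V) : 0 ≤ lz c x y := by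
  unfold lz
  have := div_nonneg (h0 x y) (mul_nonneg (by norm_num : (0:ℝ) ≤ 2) (om_nonneg h0 x))
  split_ifs <;> linarith

theorem sum_lz (hom : ∀ x, 0 < om c x) (x : V) : ∑ y, lz c x y = 1 := by
  unfold lz
  rw [Finset.sum_add_distrib, Finset.sum_ite_eq, if_pos (Finset.mem_univ x), ← Finset.sum_div]
  have h1 : ∑ y, c x y = om c x := rfl
  have h2 := (hom x).ne'
  rw [h1]
  field_simp
  norm_num

theorem lz_rev (hs : ∀ x y, c x y = c y x) (hom : ∀ x, 0 < om c x) (x y : V) :
    om c x * lz c x y = om c y * lz c y x := by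
  unfold lz
  have h1 := (hom x).ne'
  have h2 := (hom y).ne'
  rw [mul_add, mul_add]
  have e1 : om c x * (c x y / (2 * om c x)) = c x y / 2 := by field_simp
  have e2 : om c y * (c y x / (2 * om c y)) = c y x / 2 := by field_simp
  rw [e1, e2, hs x y]
  congr 1
  by_cases h : x = y
  · subst h; rfl
  · rw [if_neg h, if_neg (fun h' => h h'.symm), mul_zero, mul_zero]

theorem Pt_nonneg (h0 : ∀ x y, 0 ≤ c x y) (n : ℕ) (x z : V) : 0 ≤ Pt c n x z := by
  induction n generalizing x with
  | zero => simp only [Pt]; split_ifs <;> norm_num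
  | succ n ih => simp only [Pt]; exact Finset.sum_nonneg (fun y _ => mul_nonneg (lz_nonneg h0 x y) (ih y))

theorem sum_Pt (hom : ∀ x, 0 < om c x) (n : ℕ) (x : V) : ∑ z, Pt c n x z = 1 := by
  induction n generalizing x with
  | zero => simp [Pt]
  | succ n ih =>
    simp only [Pt]
    rw [Finset.sum_comm]
    simp only [← Finset.mul_sum, ih, mul_one]
    exact sum_lz hom x

theorem Pt_one (x z : V) : Pt c 1 x z = lz c x z := by
  simp only [Pt]
  rw [Finset.sum_eq_single z]
  · simp
  · intro y _ hy; rw [if_neg hy, mul_zero]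
  · intro h; exact absurd (Finset.mem_univ z) h

/-- semigroup -/
theorem Pt_add (m n : ℕ) (x z : V) : Pt c (m + n) x z = ∑ y, Pt c m x y * Pt c n y z := by
  induction m generalizing x with
  | zero =>
    rw [Nat.zero_add, Finset.sum_eq_single x]
    · simp [Pt]
    · intro y _ hy; simp only [Pt]; rw [if_neg (fun h => hy h.symm), zero_mul]
    · intro h; exact absurd (Finset.mem_univ x) h
  | succ m ih =>
    rw [Nat.succ_add]
    simp only [Pt]
    simp only [ih, Finset.mul_sum, Finset.sum_mul]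
    rw [Finset.sum_comm]
    exact Finset.sum_congr rfl (fun y _ => Finset.sum_congr rfl (fun u _ => by ring))

theorem Pt_succ' (n : ℕ) (x z : V) : Pt c (n + 1) x z = ∑ y, Pt c n x y * lz c y z := by
  rw [Pt_add]
  exact Finset.sum_congr rfl (fun y _ => by rw [Pt_one])

/-- reversibility -/
theorem Pt_rev (hs : ∀ x y, c x y = c y x) (hom : ∀ x, 0 < om c x) (n : ℕ) (x z : V) :
    om c x * Pt c n x z = om c z * Pt c n z x := by
  induction n generalizing x z with
  | zero =>
    simp only [Pt]
    by_cases h : x = z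
    · subst h; rfl
    · rw [if_neg h, if_neg (fun h' => h h'.symm), mul_zero, mul_zero]
  | succ n ih =>
    rw [Pt_succ' n z x]
    simp only [Pt]
    rw [Finset.mul_sum, Finset.mul_sum]
    refine Finset.sum_congr rfl (fun y _ => ?_)
    have h1 := lz_rev hs hom x y
    have h2 := ih y z
    calc om c x * (lz c x y * Pt c n y z) = (om c x * lz c x y) * Pt c n y z := by ring
      _ = (om c y * lz c y x) * Pt c n y z := by rw [h1]
      _ = (om c y * Pt c n y z) * lz c y x := by ring
      _ = (om c z * Pt c n z y) * lz c y x := by rw [h2]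
      _ = _ := by ring

/-- stationarity -/
theorem Pt_stat (hs : ∀ x y, c x y = c y x) (hom : ∀ x, 0 < om c x) (n : ℕ) (z : V) :
    ∑ x, om c x * Pt c n x z = om c z := by
  simp only [fun x => Pt_rev hs hom n x z]
  rw [← Finset.mul_sum, sum_Pt hom, mul_one]

/-- contraction of one step on functions of mean zero -/
theorem contract (hs : ∀ x y, c x y = c y x) (h0 : ∀ x y, 0 ≤ c x y) (hom : ∀ x, 0 < om c x) {psi : ℝ}
    (hp : 0 ≤ psi) (hc : Cond c psi) {f : V → ℝ} (hf : ∑ x, om c x * f x = 0) :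
    ∑ x, om c x * (∑ y, lz c x y * f y) ^ 2 ≤ (1 - psi ^ 2 / 4) * ∑ x, om c x * f x ^ 2 := by
  set A := ∑ x, om c x * f x ^ 2 with hA
  set D := ∑ x, ∑ y, c x y * (f x - f y) ^ 2 with hD
  set g : V → ℝ := fun x => (∑ y, c x y * f y) / om c x with hg
  have hPf : ∀ x, ∑ y, lz c x y * f y = (f x + g x) / 2 := by
    intro x
    have h1 := (hom x).ne'
    have h2 : ∑ y, lz c x y * f y = ∑ y, (if x = y then f y / 2 else 0) + ∑ y, c x y * f y / (2 * om c x) := by
      rw [← Finset.sum_add_distrib]
      refine Finset.sum_congr rfl (fun y _ => ?_)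
      unfold lz
      by_cases h : x = y
      · rw [if_pos h, if_pos h]; ring
      · rw [if_neg h, if_neg h]; ring
    rw [h2, Finset.sum_ite_eq, if_pos (Finset.mem_univ x), ← Finset.sum_div]
    simp only [hg]
    field_simp
  have hG : ∑ x, om c x * g x ^ 2 ≤ A := by
    have h1 : ∀ x, om c x * g x ^ 2 ≤ ∑ y, c x y * f y ^ 2 := by
      intro x
      have h2 := hom x
      have cs := Finset.sum_mul_sq_le_sq_mul_sq (Finset.univ : Finset V)
        (fun y => Real.sqrt (c x y)) (fun y => Real.sqrt (c x y) * f y)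
      have e1 : ∑ y, Real.sqrt (c x y) * (Real.sqrt (c x y) * f y) = ∑ y, c x y * f y := by
        refine Finset.sum_congr rfl (fun y _ => ?_)
        rw [← mul_assoc, Real.mul_self_sqrt (h0 x y)]
      have e2 : ∑ y, Real.sqrt (c x y) ^ 2 = om c x := by
        unfold om
        exact Finset.sum_congr rfl (fun y _ => Real.sq_sqrt (h0 x y))
      have e3 : ∑ y, (Real.sqrt (c x y) * f y) ^ 2 = ∑ y, c x y * f y ^ 2 := by
        refine Finset.sum_congr rfl (fun y _ => ?_)
        rw [mul_pow, Real.sq_sqrt (h0 x y)]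
      rw [e1, e2, e3] at cs
      simp only [hg]
      have e4 : om c x * ((∑ y, c x y * f y) / om c x) ^ 2 = (∑ y, c x y * f y) ^ 2 / om c x := by
        field_simp
      rw [e4, div_le_iff₀ h2]
      linarith
    refine (Finset.sum_le_sum (fun x _ => h1 x)).trans (le_of_eq ?_)
    rw [sum_snd hs (fun y => f y ^ 2)]
  have hfg : ∑ x, om c x * (f x * g x) = A - D / 2 := by
    have h1 : ∑ x, om c x * (f x * g x) = ∑ x, ∑ y, c x y * (f x * f y) := by
      refine Finset.sum_congr rfl (fun x _ => ?_)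
      have h2 := (hom x).ne'
      simp only [hg]
      have e : om c x * (f x * ((∑ y, c x y * f y) / om c x)) = f x * ∑ y, c x y * f y := by field_simp
      rw [e, Finset.mul_sum]
      exact Finset.sum_congr rfl (fun y _ => by ring)
    have h3 : D = 2 * A - 2 * ∑ x, ∑ y, c x y * (f x * f y) := by
      have h4 : D = ∑ x, ∑ y, (c x y * f x ^ 2 + c x y * f y ^ 2 - 2 * (c x y * (f x * f y))) := by
        rw [hD]
        exact Finset.sum_congr rfl (fun x _ => Finset.sum_congr rfl (fun y _ => by ring))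
      rw [h4]
      simp only [Finset.sum_sub_distrib, Finset.sum_add_distrib, ← Finset.mul_sum]
      rw [sum_snd hs (fun y => f y ^ 2), sum_fst (fun x => f x ^ 2)]
      ring
    rw [h1]; linarith
  have hch := cheeger hs h0 hp hc (f := f) (m := 0) (by simpa using hf)
  simp only [sub_zero] at hch
  have e5 : ∑ x, om c x * (∑ y, lz c x y * f y) ^ 2 =
      (A + 2 * ∑ x, om c x * (f x * g x) + ∑ x, om c x * g x ^ 2) / 4 := by
    rw [hA, Finset.mul_sum, ← Finset.sum_add_distrib, ← Finset.sum_add_distrib, Finset.sum_div]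
    refine Finset.sum_congr rfl (fun x _ => ?_)
    rw [hPf x]; ring
  rw [e5, hfg]
  have : psi ^ 2 * A ≤ D := hch
  nlinarith

/-- the deviation from equilibrium, seen from the target `z` -/
noncomputable def dev (c : V → V → ℝ) (n : ℕ) (z y : V) : ℝ := Pt c n y z * tw c / om c z - 1

theorem dev_succ (hom : ∀ x, 0 < om c x) (n : ℕ) (z x : V) :
    dev c (n + 1) z x = ∑ y, lz c x y * dev c n z y := by
  unfold dev
  simp only [mul_sub, Finset.sum_sub_distrib, mul_one]
  rw [sum_lz hom x]
  congr 1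
  simp only [Pt]
  rw [Finset.sum_mul, Finset.sum_div]
  exact Finset.sum_congr rfl (fun y _ => by ring)

theorem dev_mean (hs : ∀ x y, c x y = c y x) (hom : ∀ x, 0 < om c x) (n : ℕ) (z : V) :
    ∑ y, om c y * dev c n z y = 0 := by
  unfold dev
  have h1 := Pt_stat hs hom n z
  have h2 := (hom z).ne'
  have h3 : ∑ y, om c y * (Pt c n y z * tw c / om c z - 1) =
      (∑ y, om c y * Pt c n y z) * (tw c / om c z) - tw c := by
    rw [Finset.sum_mul]
    unfold tw
    rw [← Finset.sum_sub_distrib]
    exact Finset.sum_congr rfl (fun y _ => by ring)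
  rw [h3, h1]
  field_simp
  ring

theorem dev_sq (hs : ∀ x y, c x y = c y x) (h0 : ∀ x y, 0 ≤ c x y) (hom : ∀ x, 0 < om c x) {psi : ℝ}
    (hp : 0 ≤ psi) (hp1 : psi ≤ 1) (hc : Cond c psi) (n : ℕ) (z : V) :
    ∑ y, om c y * dev c n z y ^ 2 ≤ (1 - psi ^ 2 / 4) ^ n * (tw c ^ 2 / om c z) := by
  have hb : 0 ≤ 1 - psi ^ 2 / 4 := by nlinarith
  induction n with
  | zero =>
    rw [pow_zero, one_mul]
    have h1 := dev_mean hs hom 0 z
    have h2 := (hom z).ne'
    have h3 : ∑ y, om c y * dev c 0 z y ^ 2 =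
        ∑ y, (if y = z then om c y * (tw c / om c z) * dev c 0 z y else 0) - ∑ y, om c y * dev c 0 z y := by
      rw [← Finset.sum_sub_distrib]
      refine Finset.sum_congr rfl (fun y _ => ?_)
      by_cases h : y = z
      · rw [if_pos h]
        unfold dev
        simp only [Pt]
        rw [if_pos h]; ring
      · rw [if_neg h]
        unfold dev
        simp only [Pt]
        rw [if_neg h]; ring
    rw [h3, h1, sub_zero, Finset.sum_ite_eq', if_pos (Finset.mem_univ z)]
    unfold dev
    simp only [Pt, if_true]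
    have e : om c z * (tw c / om c z) * (1 * tw c / om c z - 1) = tw c ^ 2 / om c z - tw c := by
      field_simp
    rw [e]
    linarith [tw_nonneg h0]
  | succ n ih =>
    have h1 := contract hs h0 hom hp hc (dev_mean hs hom n z)
    have h2 : ∑ y, om c y * dev c (n + 1) z y ^ 2 = ∑ x, om c x * (∑ y, lz c x y * dev c n z y) ^ 2 :=
      Finset.sum_congr rfl (fun x _ => by rw [dev_succ hom n z x])
    rw [h2]
    refine h1.trans ?_
    rw [pow_succ' (1 - psi ^ 2 / 4) n, mul_assoc]
    exact mul_le_mul_of_nonneg_left ih hb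

/-- mixing at even times -/
theorem mix_abs (hs : ∀ x y, c x y = c y x) (h0 : ∀ x y, 0 ≤ c x y) (hom : ∀ x, 0 < om c x) {psi : ℝ}
    (hp : 0 ≤ psi) (hp1 : psi ≤ 1) (hc : Cond c psi) (n : ℕ) (x z : V) :
    |Pt c (2 * n) x z * tw c / om c z - 1| ≤ (1 - psi ^ 2 / 4) ^ n * (tw c / Real.sqrt (om c x * om c z)) := by
  have hb : 0 ≤ 1 - psi ^ 2 / 4 := by nlinarith
  have hW : 0 < tw c := lt_of_lt_of_le (hom x) (om_le_tw h0 x)
  have hx := hom x
  have hz := hom z
  -- the inner product
  have h1 : ∑ y, om c y * (dev c n x y * dev c n z y) = tw c * (Pt c (2 * n) x z * tw c / om c z - 1) := by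
    have e1 : Pt c (2 * n) x z = ∑ y, Pt c n x y * Pt c n y z := by rw [two_mul, Pt_add]
    have e2 : ∀ y, Pt c n x y = om c y * Pt c n y x / om c x := by
      intro y
      rw [eq_div_iff hx.ne', ← Pt_rev hs hom n x y]; ring
    have e3 : ∑ y, om c y * (dev c n x y * dev c n z y) =
        (∑ y, om c y * Pt c n y x / om c x * Pt c n y z) * (tw c ^ 2 / om c z) -
        (∑ y, om c y * dev c n x y) - (∑ y, om c y * Pt c n y z) * (tw c / om c z) := by
      rw [Finset.sum_mul, Finset.sum_mul, ← Finset.sum_sub_distrib, ← Finset.sum_sub_distrib]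
      refine Finset.sum_congr rfl (fun y _ => ?_)
      unfold dev
      field_simp
      ring
    rw [e3, dev_mean hs hom n x, Pt_stat hs hom n z, e1]
    simp only [e2]
    field_simp
    ring
  -- Cauchy-Schwarz
  have h2 : (∑ y, om c y * (dev c n x y * dev c n z y)) ^ 2 ≤
      (∑ y, om c y * dev c n x y ^ 2) * (∑ y, om c y * dev c n z y ^ 2) := by
    have cs := Finset.sum_mul_sq_le_sq_mul_sq (Finset.univ : Finset V)
      (fun y => Real.sqrt (om c y) * dev c n x y) (fun y => Real.sqrt (om c y) * dev c n z y)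
    have e1 : ∑ y, Real.sqrt (om c y) * dev c n x y * (Real.sqrt (om c y) * dev c n z y) =
        ∑ y, om c y * (dev c n x y * dev c n z y) := by
      refine Finset.sum_congr rfl (fun y _ => ?_)
      have := Real.mul_self_sqrt (om_nonneg h0 y)
      calc _ = (Real.sqrt (om c y) * Real.sqrt (om c y)) * (dev c n x y * dev c n z y) := by ring
        _ = _ := by rw [this]
    have e2 : ∀ u : V → ℝ, ∑ y, (Real.sqrt (om c y) * u y) ^ 2 = ∑ y, om c y * u y ^ 2 := by
      intro u
      refine Finset.sum_congr rfl (fun y _ => ?_)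
      rw [mul_pow, Real.sq_sqrt (om_nonneg h0 y)]
    rw [e1, e2, e2] at cs
    exact cs
  have h3 := dev_sq hs h0 hom hp hp1 hc n x
  have h4 := dev_sq hs h0 hom hp hp1 hc n z
  have hpn : 0 ≤ (1 - psi ^ 2 / 4) ^ n := pow_nonneg hb n
  have h5 : (tw c * (Pt c (2 * n) x z * tw c / om c z - 1)) ^ 2 ≤
      ((1 - psi ^ 2 / 4) ^ n * (tw c ^ 2 / om c x)) * ((1 - psi ^ 2 / 4) ^ n * (tw c ^ 2 / om c z)) := by
    rw [← h1]
    refine h2.trans (mul_le_mul h3 h4 (Finset.sum_nonneg (fun y _ => mul_nonneg (om_nonneg h0 y) (sq_nonneg _))) ?_)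
    positivity
  have h6 : ((1 - psi ^ 2 / 4) ^ n * (tw c ^ 2 / om c x)) * ((1 - psi ^ 2 / 4) ^ n * (tw c ^ 2 / om c z)) =
      (tw c * ((1 - psi ^ 2 / 4) ^ n * (tw c / Real.sqrt (om c x * om c z)))) ^ 2 := by
    have hq : Real.sqrt (om c x * om c z) ^ 2 = om c x * om c z := Real.sq_sqrt (mul_pos hx hz).le
    have hq0 : 0 < Real.sqrt (om c x * om c z) := Real.sqrt_pos.mpr (mul_pos hx hz)
    rw [mul_pow, mul_pow, div_pow, hq]
    field_simp
  rw [h6] at h5
  have hr : 0 ≤ (1 - psi ^ 2 / 4) ^ n * (tw c / Real.sqrt (om c x * om c z)) :=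
    mul_nonneg hpn (div_nonneg hW.le (Real.sqrt_nonneg _))
  have h7 := abs_le_of_sq_le_sq h5 (mul_nonneg hW.le hr)
  rw [abs_mul, abs_of_pos hW] at h7
  exact le_of_mul_le_mul_left h7 hW

/-- one more step keeps two sided bounds -/
theorem Pt_step_bd (h0 : ∀ x y, 0 ≤ c x y) (hom : ∀ x, 0 < om c x) {n : ℕ} {z : V} {a b : ℝ}
    (h : ∀ x, a ≤ Pt c n x z ∧ Pt c n x z ≤ b) (x : V) : a ≤ Pt c (n + 1) x z ∧ Pt c (n + 1) x z ≤ b := by
  simp only [Pt]
  have h1 := sum_lz hom x
  constructor
  · calc a = ∑ y, lz c x y * a := by rw [← Finset.sum_mul, h1, one_mul]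
      _ ≤ _ := Finset.sum_le_sum (fun y _ => mul_le_mul_of_nonneg_left (h y).1 (lz_nonneg h0 x y))
  · calc _ ≤ ∑ y, lz c x y * b :=
        Finset.sum_le_sum (fun y _ => mul_le_mul_of_nonneg_left (h y).2 (lz_nonneg h0 x y))
      _ = b := by rw [← Finset.sum_mul, h1, one_mul]

/-- MIXING: all transition probabilities from time `2n` on, `n >= (4/psi^2) log (2W)` -/
theorem mix (hs : ∀ x y, c x y = c y x) (h0 : ∀ x y, 0 ≤ c x y) (hom : ∀ x, 1 ≤ om c x) {psi : ℝ}
    (hp : 0 < psi) (hp1 : psi ≤ 1) (hc : Cond c psi) {n : ℕ} (hn : 4 / psi ^ 2 * Real.log (2 * tw c) ≤ n)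
    {t : ℕ} (ht : 2 * n ≤ t) (x z : V) :
    om c z / (2 * tw c) ≤ Pt c t x z ∧ Pt c t x z ≤ 3 * om c z / (2 * tw c) := by
  have hom' : ∀ x, 0 < om c x := fun x => lt_of_lt_of_le one_pos (hom x)
  have hz := hom' z
  have hW : 0 < tw c := lt_of_lt_of_le (hom' x) (om_le_tw h0 x)
  have hb : 0 ≤ 1 - psi ^ 2 / 4 := by nlinarith
  have hpow : (1 - psi ^ 2 / 4) ^ n * tw c ≤ 1 / 2 := by
    have h1 : (1 - psi ^ 2 / 4) ^ n ≤ Real.exp (-(psi ^ 2 / 4)) ^ n := by
      refine pow_le_pow_left₀ hb ?_ n
      have := Real.add_one_le_exp (-(psi ^ 2 / 4))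
      linarith
    have h2 : Real.exp (-(psi ^ 2 / 4)) ^ n = Real.exp (-(n * (psi ^ 2 / 4))) := by
      rw [← Real.exp_nat_mul]; congr 1; ring
    have h3 : Real.log (2 * tw c) ≤ n * (psi ^ 2 / 4) := by
      have h4 : 0 < psi ^ 2 / 4 := by positivity
      have h5 := mul_le_mul_of_nonneg_right hn h4.le
      have h6 : 4 / psi ^ 2 * Real.log (2 * tw c) * (psi ^ 2 / 4) = Real.log (2 * tw c) := by
        field_simp
      linarith
    have h7 : Real.exp (-(n * (psi ^ 2 / 4))) ≤ 1 / (2 * tw c) := by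
      have h8 : Real.exp (-(n * (psi ^ 2 / 4))) ≤ Real.exp (-Real.log (2 * tw c)) :=
        Real.exp_le_exp.mpr (by linarith)
      rw [Real.exp_neg (Real.log (2 * tw c)), Real.exp_log (by linarith)] at h8
      rw [one_div]; exact h8
    have h9 : (1 - psi ^ 2 / 4) ^ n ≤ 1 / (2 * tw c) := by
      rw [h2] at h1; exact h1.trans h7
    have h10 := mul_le_mul_of_nonneg_right h9 hW.le
    have h11 : 1 / (2 * tw c) * tw c = 1 / 2 := by field_simp
    linarith
  have base : ∀ y, om c z / (2 * tw c) ≤ Pt c (2 * n) y z ∧ Pt c (2 * n) y z ≤ 3 * om c z / (2 * tw c) := by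
    intro y
    have h1 := mix_abs hs h0 hom' hp.le hp1 hc n y z
    have hq : 1 ≤ Real.sqrt (om c y * om c z) := by
      rw [← Real.sqrt_one]
      exact Real.sqrt_le_sqrt (by nlinarith [hom y, hom z])
    have h2 : tw c / Real.sqrt (om c y * om c z) ≤ tw c := div_le_self hW.le hq
    have h3 := mul_le_mul_of_nonneg_left h2 (pow_nonneg hb n)
    have h4 : |Pt c (2 * n) y z * tw c / om c z - 1| ≤ 1 / 2 := h1.trans (h3.trans hpow)
    obtain ⟨h5, h6⟩ := abs_le.mp h4
    have e1 : Pt c (2 * n) y z = (Pt c (2 * n) y z * tw c / om c z) * (om c z / tw c) := by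
      field_simp
    have h7 : 0 < om c z / tw c := div_pos hz hW
    constructor
    · rw [e1]
      have : om c z / (2 * tw c) = 1 / 2 * (om c z / tw c) := by field_simp
      rw [this]
      exact mul_le_mul_of_nonneg_right (by linarith) h7.le
    · rw [e1]
      have : 3 * om c z / (2 * tw c) = 3 / 2 * (om c z / tw c) := by field_simp
      rw [this]
      exact mul_le_mul_of_nonneg_right (by linarith) h7.le
  induction t, ht using Nat.le_induction generalizing x with
  | base => exact base x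
  | succ t _ ih => exact Pt_step_bd h0 hom' (fun y => ih y) x

end Pool.Agent.GW.MixC

namespace Pool.Agent.GW.MixC.G

open Finset

variable {V : Type} [Fintype V] [DecidableEq V] (G : WG V)

theorem kerN_eq (t : ℕ) (x z : V) : G.kerN t x z = MixC.Pt G.w t x z := by
  induction t generalizing x with
  | zero => rfl
  | succ t ih =>
    simp only [WG.kerN, MixC.Pt]
    exact Finset.sum_congr rfl (fun y _ => by rw [ih y]; rfl)

theorem condC {psi : ℝ} (h : G.Cond psi) : MixC.Cond G.w psi := fun S hS => h S hS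

/-- Cheeger inequality around the mean -/
theorem cheeger {psi : ℝ} (hp : 0 ≤ psi) (hc : G.Cond psi) {f : V → ℝ} {m : ℝ}
    (hm : ∑ x, G.om x * (f x - m) = 0) :
    psi ^ 2 * ∑ x, G.om x * (f x - m) ^ 2 ≤ ∑ x, ∑ y, G.w x y * (f x - f y) ^ 2 :=
  MixC.cheeger G.symm G.nonneg hp (condC G hc) hm

theorem ker_nonneg (x y : V) : 0 ≤ G.ker x y := MixC.lz_nonneg G.nonneg x y

theorem sum_ker (hom : ∀ x, 0 < G.om x) (x : V) : ∑ y, G.ker x y = 1 := MixC.sum_lz hom x

theorem ker_rev (hom : ∀ x, 0 < G.om x) (x y : V) : G.om x * G.ker x y = G.om y * G.ker y x :=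
  MixC.lz_rev G.symm hom x y

theorem kerN_nonneg (t : ℕ) (x z : V) : 0 ≤ G.kerN t x z := by
  rw [kerN_eq G]; exact MixC.Pt_nonneg G.nonneg t x z

theorem sum_kerN (hom : ∀ x, 0 < G.om x) (t : ℕ) (x : V) : ∑ z, G.kerN t x z = 1 := by
  simp only [kerN_eq G]; exact MixC.sum_Pt hom t x

/-- semigroup -/
theorem kerN_add (s t : ℕ) (x z : V) : G.kerN (s + t) x z = ∑ y, G.kerN s x y * G.kerN t y z := by
  simp only [kerN_eq G]; exact MixC.Pt_add s t x z

/-- reversibility -/
theorem kerN_rev (hom : ∀ x, 0 < G.om x) (t : ℕ) (x z : V) : G.om x * G.kerN t x z = G.om z * G.kerN t z x := by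
  simp only [kerN_eq G]; exact MixC.Pt_rev G.symm hom t x z

/-- stationarity -/
theorem kerN_stat (hom : ∀ x, 0 < G.om x) (t : ℕ) (z : V) : ∑ x, G.om x * G.kerN t x z = G.om z := by
  simp only [kerN_eq G]; exact MixC.Pt_stat G.symm hom t z

/-- mixing at even times -/
theorem kerN_mix_abs (hom : ∀ x, 0 < G.om x) {psi : ℝ} (hp : 0 ≤ psi) (hp1 : psi ≤ 1) (hc : G.Cond psi)
    (n : ℕ) (x z : V) :
    |G.kerN (2 * n) x z * G.vol univ / G.om z - 1| ≤
      (1 - psi ^ 2 / 4) ^ n * (G.vol univ / Real.sqrt (G.om x * G.om z)) := by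
  rw [kerN_eq G]; exact MixC.mix_abs G.symm G.nonneg hom hp hp1 (condC G hc) n x z

/-- MIXING: all transition probabilities from time `2n` on, `n >= (4/psi^2) log (2W)` -/
theorem kerN_mix (hom : ∀ x, 1 ≤ G.om x) {psi : ℝ} (hp : 0 < psi) (hp1 : psi ≤ 1) (hc : G.Cond psi) {n : ℕ}
    (hn : 4 / psi ^ 2 * Real.log (2 * G.vol univ) ≤ n) {t : ℕ} (ht : 2 * n ≤ t) (x z : V) :
    G.om z / (2 * G.vol univ) ≤ G.kerN t x z ∧ G.kerN t x z ≤ 3 * G.om z / (2 * G.vol univ) := by
  rw [kerN_eq G]; exact MixC.mix G.symm G.nonneg hom hp hp1 (condC G hc) hn ht x z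

end Pool.Agent.GW.MixC.G
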