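import Pool.Agent.GW.Msub
import Pool.Agent.GW.CovL

/-!
# Computations in the subdivided state
-/

set_option autoImplicit false

namespace Pool.Agent.GW

open Equiv Pool.Agent.SWP

/-- closed under `r` implies invariant -/
theorem inv_fwd (S : Sf) {B : Set S.D} (h : ∀ d ∈ B, S.r d ∈ B) : S.Inv B := by
  intro d
  constructor
  · intro hd
    exact mem_of_same (s := S.r) h hd (Perm.sameCycle_apply_left.2 (Perm.SameCycle.refl _ _))
  · exact h d

theorem garc_last {D : Type} [Finite D] {r : Perm D} {e f t : D} (hs : r.SameCycle e f) (hne : e ≠ f) (ht : r t = f)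
    (h : t ≠ e) : Arc r (r e) f t := by
  by_cases hf : t = f
  · exfalso
    have h1 : r f = f := by rw [← hf, ht, hf]
    have h2 : e ∈ ({f} : Set D) := by
      refine mem_of_same (s := r) ?_ (Set.mem_singleton f) hs.symm
      rintro d hd
      rw [Set.mem_singleton_iff] at hd ⊢
      rw [hd, h1]
    exact hne h2
  · have h3 : r.SameCycle e t := by
      rw [← ht] at hs
      exact Perm.sameCycle_apply_right.1 hs
    rcases garc_cover hs h3 h hf with h4 | h4
    · exact h4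
    · exfalso
      rcases garc_next h4 with h5 | h5
      · exact hne (h5 ▸ ht)
      · rw [ht] at h5
        exact garc_not_start hs.symm h5

section
variable (S : Sf) (Q : Set S.D)

/-- the old letter at the position of a letter -/
def msP : S.D ⊕ (Q × Bool) → S.D
  | Sum.inl d => d
  | Sum.inr (q, true) => q
  | Sum.inr (q, false) => S.a q

theorem msR_in {t : S.D} (h : t ∈ Q) : (S.msub Q).r (Sum.inl t : S.D ⊕ (Q × Bool)) = (Sum.inr (⟨t, h⟩, true) : S.D ⊕ (Q × Bool)) :=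
  msF_mem S.r S.a Q h

theorem msR_out {t : S.D} (h : t ∉ Q) : (S.msub Q).r (Sum.inl t : S.D ⊕ (Q × Bool)) = msN S.a Q (S.r t) :=
  msF_notMem S.r S.a Q h

theorem msR_true (q : Q) : (S.msub Q).r (Sum.inr (q, true) : S.D ⊕ (Q × Bool)) = msN S.a Q (S.r q) := rfl

theorem msR_false (q : Q) : (S.msub Q).r (Sum.inr (q, false) : S.D ⊕ (Q × Bool)) = (Sum.inl (S.a q) : S.D ⊕ (Q × Bool)) := rfl

theorem msP_N (t : S.D) : msP S Q (msN S.a Q t) = t := by
  by_cases h : S.a t ∈ Q
  · rw [msN_mem S.a Q h]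
    exact S.aa t
  · rw [msN_notMem S.a Q h]
    rfl

/-- every step stays at a position or goes to the first letter of the next position -/
theorem msR_cases (c : S.D ⊕ (Q × Bool)) :
    msP S Q ((S.msub Q).r c) = msP S Q c ∨ (S.msub Q).r c = msN S.a Q (S.r (msP S Q c)) := by
  rcases c with t | ⟨q, _ | _⟩
  · by_cases h : t ∈ Q
    · left
      rw [msR_in S Q h]
      rfl
    · right
      rw [msR_out S Q h]
      rfl
  · left
    rw [msR_false]
    rfl
  · right
    rw [msR_true]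
    rfl

theorem msP_step (c : S.D ⊕ (Q × Bool)) : S.r.SameCycle (msP S Q c) (msP S Q ((S.msub Q).r c)) := by
  rcases msR_cases S Q c with h | h
  · rw [h]
  · rw [h, msP_N]
    exact Perm.sameCycle_apply_right.2 (Perm.SameCycle.refl _ _)

theorem msP_same {c c' : S.D ⊕ (Q × Bool)} (h : (S.msub Q).r.SameCycle c c') :
    S.r.SameCycle (msP S Q c) (msP S Q c') :=
  (cyc_map (r := S.r) (r' := (S.msub Q).r) (msP S Q) Set.univ (fun _ _ => Set.mem_univ _)
    (fun c _ => msP_step S Q c) (Set.mem_univ c) h).2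

theorem ms_step1 (c : (S.msub Q).D) : (S.msub Q).r.SameCycle c ((S.msub Q).r c) :=
  Perm.sameCycle_apply_right.2 (Perm.SameCycle.refl _ _)

theorem msN_inl (t : S.D) : (S.msub Q).r.SameCycle (msN S.a Q t) (Sum.inl t : S.D ⊕ (Q × Bool)) := by
  by_cases h : S.a t ∈ Q
  · rw [msN_mem S.a Q h]
    have h1 := ms_step1 S Q (Sum.inr (⟨S.a t, h⟩, false) : S.D ⊕ (Q × Bool))
    rw [msR_false] at h1
    have h2 : (Sum.inl (S.a (S.a t)) : S.D ⊕ (Q × Bool)) = Sum.inl t := by rw [S.aa]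
    rw [h2] at h1
    exact h1
  · rw [msN_notMem S.a Q h]

theorem ms_inl (c : S.D ⊕ (Q × Bool)) : (S.msub Q).r.SameCycle c (Sum.inl (msP S Q c) : S.D ⊕ (Q × Bool)) := by
  rcases c with t | ⟨q, _ | _⟩
  · exact Perm.SameCycle.refl _ _
  · have h1 := ms_step1 S Q (Sum.inr (q, false) : S.D ⊕ (Q × Bool))
    rw [msR_false] at h1
    exact h1
  · have h1 := ms_step1 S Q (Sum.inl (q : S.D) : S.D ⊕ (Q × Bool))
    rw [msR_in S Q q.2] at h1
    exact h1.symm

theorem ms_next (t : S.D) : (S.msub Q).r.SameCycle (Sum.inl t : S.D ⊕ (Q × Bool)) (Sum.inl (S.r t) : S.D ⊕ (Q × Bool)) := by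
  by_cases h : t ∈ Q
  · have h1 := ms_step1 S Q (Sum.inl t : S.D ⊕ (Q × Bool))
    rw [msR_in S Q h] at h1
    have h2 := ms_step1 S Q (Sum.inr (⟨t, h⟩, true) : S.D ⊕ (Q × Bool))
    rw [msR_true] at h2
    exact (h1.trans h2).trans (msN_inl S Q _)
  · have h1 := ms_step1 S Q (Sum.inl t : S.D ⊕ (Q × Bool))
    rw [msR_out S Q h] at h1
    exact h1.trans (msN_inl S Q _)

theorem ms_same {c c' : S.D ⊕ (Q × Bool)} :
    (S.msub Q).r.SameCycle c c' ↔ S.r.SameCycle (msP S Q c) (msP S Q c') := by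
  refine ⟨msP_same S Q, fun h => ?_⟩
  have key : msP S Q c' ∈ {z | (S.msub Q).r.SameCycle (Sum.inl (msP S Q c) : S.D ⊕ (Q × Bool)) (Sum.inl z : S.D ⊕ (Q × Bool))} := by
    refine mem_of_same (s := S.r) ?_ (Perm.SameCycle.refl _ _ : msP S Q c ∈ _) h
    intro z hz
    exact Perm.SameCycle.trans hz (ms_next S Q z)
  exact ((ms_inl S Q c).trans key).trans (ms_inl S Q c').symm

/-- arcs project to arcs -/
theorem ms_arc {e f : S.D} {t : S.D ⊕ (Q × Bool)}
    (h : Arc (S.msub Q).r ((S.msub Q).r (Sum.inl e : S.D ⊕ (Q × Bool))) (Sum.inl f : S.D ⊕ (Q × Bool)) t) :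
    (∃ he : e ∈ Q, t = Sum.inr (⟨e, he⟩, true)) ∨ (∃ hf : S.a f ∈ Q, t = Sum.inr (⟨S.a f, hf⟩, false)) ∨
      Arc S.r (S.r e) f (msP S Q t) := by
  have hN : ∀ z : S.D, S.r z = f ∨ Arc S.r (S.r e) f (S.r z) → msN S.a Q (S.r z) ≠ Sum.inl f →
      (∃ hf : S.a f ∈ Q, msN S.a Q (S.r z) = Sum.inr (⟨S.a f, hf⟩, false)) ∨
        Arc S.r (S.r e) f (msP S Q (msN S.a Q (S.r z))) := by
    rintro z (hz | hz) hne
    · left
      rw [hz] at hne ⊢
      by_cases h1 : S.a f ∈ Q
      · exact ⟨h1, msN_mem S.a Q h1⟩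
      · exact absurd (msN_notMem S.a Q h1) hne
    · right
      rw [msP_N]
      exact hz
  have hstart : S.r e = f ∨ Arc S.r (S.r e) f (S.r e) := by
    by_cases h1 : S.r e = f
    · exact Or.inl h1
    · exact Or.inr (garc_start h1)
  obtain ⟨i, h1, h2⟩ := h
  induction i generalizing t with
  | zero =>
    have h3 : (S.msub Q).r (Sum.inl e : S.D ⊕ (Q × Bool)) = t := h1
    have h4 : t ≠ Sum.inl f := by
      rw [← h1]
      exact h2 0 le_rfl
    by_cases he : e ∈ Q
    · left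
      refine ⟨he, ?_⟩
      rw [← h3, msR_in S Q he]
    · right
      rw [msR_out S Q he] at h3
      rw [← h3] at h4 ⊢
      exact hN e hstart h4
  | succ i ih =>
    have h4 : t ≠ Sum.inl f := by
      rw [← h1]
      exact h2 (i + 1) le_rfl
    have h3 := ih (t := ((S.msub Q).r ^ i) ((S.msub Q).r (Sum.inl e : S.D ⊕ (Q × Bool)))) rfl
      (fun i' hi' => h2 i' (by omega))
    have h5 : (S.msub Q).r (((S.msub Q).r ^ i) ((S.msub Q).r (Sum.inl e : S.D ⊕ (Q × Bool)))) = t := by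
      rw [← h1, pow_succ', Perm.mul_apply]
    rcases h3 with ⟨he, h3⟩ | ⟨hf, h3⟩ | h3
    · rw [h3, msR_true] at h5
      right
      rw [← h5] at h4 ⊢
      exact hN e hstart h4
    · rw [h3, msR_false] at h5
      exfalso
      apply h4
      rw [← h5]
      show (Sum.inl (S.a (S.a f)) : S.D ⊕ (Q × Bool)) = Sum.inl f
      rw [S.aa]
    · right
      rcases msR_cases S Q (((S.msub Q).r ^ i) ((S.msub Q).r (Sum.inl e : S.D ⊕ (Q × Bool)))) with h6 | h6
      · rw [h5] at h6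
        right
        rw [h6]
        exact h3
      · rw [h5] at h6
        rw [h6] at h4 ⊢
        exact hN _ (garc_next h3) h4

/-- vertices of letters whose partner is not subdivided -/
theorem ms_vx {d d' : S.D} (hd : S.a d ∉ Q)
    (h : (S.msub Q).vx (Sum.inl d : S.D ⊕ (Q × Bool)) (Sum.inl d' : S.D ⊕ (Q × Bool))) : S.vx d d' := by
  have key := cyc_map (r := S.r * S.a) (r' := (S.msub Q).r * (S.msub Q).a) (msP S Q)
    {c | (∃ t, S.a t ∉ Q ∧ c = Sum.inl t) ∨ ∃ q, c = Sum.inr (q, false)} ?_ ?_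
    (c := (Sum.inl d : S.D ⊕ (Q × Bool))) (c' := (Sum.inl d' : S.D ⊕ (Q × Bool))) (Or.inl ⟨d, hd, rfl⟩) h
  · exact key.2
  · have hN : ∀ z, (∃ t, S.a t ∉ Q ∧ msN S.a Q z = Sum.inl t) ∨ ∃ q, msN S.a Q z = Sum.inr (q, false) := by
      intro z
      by_cases hz : S.a z ∈ Q
      · right
        exact ⟨_, msN_mem S.a Q hz⟩
      · left
        exact ⟨z, hz, msN_notMem S.a Q hz⟩
    rintro c (⟨t, ht, rfl⟩ | ⟨q, rfl⟩)
    · show _ ∨ _
      have h1 : ((S.msub Q).r * (S.msub Q).a) (Sum.inl t : S.D ⊕ (Q × Bool)) = msN S.a Q (S.r (S.a t)) := msR_out S Q ht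
      rw [h1]
      exact hN _
    · have h1 : ((S.msub Q).r * (S.msub Q).a) (Sum.inr (q, false) : S.D ⊕ (Q × Bool)) = msN S.a Q (S.r q) := msR_true S Q q
      show _ ∨ _
      rw [h1]
      exact hN _
  · have hstep : ∀ t, (S.r * S.a).SameCycle t (S.r (S.a t)) := by
      intro t
      rw [← Perm.mul_apply]
      exact Perm.sameCycle_apply_right.2 (Perm.SameCycle.refl _ _)
    rintro c (⟨t, ht, rfl⟩ | ⟨q, rfl⟩)
    · have h1 : ((S.msub Q).r * (S.msub Q).a) (Sum.inl t : S.D ⊕ (Q × Bool)) = msN S.a Q (S.r (S.a t)) := msR_out S Q ht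
      rw [h1, msP_N]
      exact hstep t
    · have h1 : ((S.msub Q).r * (S.msub Q).a) (Sum.inr (q, false) : S.D ⊕ (Q × Bool)) = msN S.a Q (S.r q) := msR_true S Q q
      rw [h1, msP_N]
      have h2 := hstep (S.a q)
      rw [S.aa] at h2
      exact h2

end

end Pool.Agent.GW
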