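import Pool.Agent.GW.Fat

/-!
# Nets: fat words organised in hubs

Labels `Lab R B`: words of `R` digits in `Fin B`; `adj`: exactly one digit differs. A net is a fat state together with:
`hub` and `lev` (constant on fat words; level 0 = centre words, words of level > 0 = satellites), `fr` = fresh link letters
(between centre words of adjacent hubs), `up` = up letters (every satellite word has exactly one, its partner is in a word of
the same hub one level lower), `t g` = number of strands which touched the hub `g`.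

`netStrand`: for the new net take `hub ∘ π`, `lev ∘ π`, `fr' = images of uncut fresh letters`, `up' = images of uncut up letters,
zf p b for p.2 ∈ up, ze p b for p.1 ∈ up`, and `t + 1` on the hubs of the chain.
-/

set_option autoImplicit false

namespace Pool.Agent.GW

open Equiv Pool.Agent.SWP

/-- labels -/
abbrev Lab (R B : ℕ) := Fin R → Fin B

/-- the labels differ in exactly one digit -/
def adj {R B : ℕ} (g h : Lab R B) : Prop := ∃ i, g i ≠ h i ∧ ∀ i', i' ≠ i → g i' = h i'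

structure NetS (R B : ℕ) where
  S : Sf
  F : Set S.D
  hub : S.D → Lab R B
  lev : S.D → ℕ
  fr : Set S.D
  up : Set S.D
  t : Lab R B → ℕ

/-- parameters: hubs which are present, `K` links, size bounds of centres (`Th0`) and of hubs (`Th`), depth -/
structure Par (R B : ℕ) where
  pres : Set (Lab R B)
  K : ℕ
  Th0 : ℕ
  Th : ℕ
  dep : ℕ

structure Ok {R B : ℕ} (P : Par R B) (N : NetS R B) : Prop where
  fat : Fat N.S N.F
  hubr : ∀ d ∈ N.F, N.hub (N.S.r d) = N.hub d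
  levr : ∀ d ∈ N.F, N.lev (N.S.r d) = N.lev d
  hubp : ∀ d ∈ N.F, N.hub d ∈ P.pres
  levd : ∀ d ∈ N.F, N.lev d ≤ P.dep
  port : ∀ d ∈ N.F, ∃ e, N.S.r.SameCycle d e ∧ N.S.a e ∉ N.F
  upF : ∀ u ∈ N.up, u ∈ N.F ∧ N.S.a u ∈ N.F ∧ N.hub (N.S.a u) = N.hub u ∧ N.lev (N.S.a u) + 1 = N.lev u
  upE : ∀ d ∈ N.F, 0 < N.lev d → ∃ u ∈ N.up, N.S.r.SameCycle d u
  upU : ∀ u ∈ N.up, ∀ v ∈ N.up, N.S.r.SameCycle u v → u = v
  resv : ∀ d ∈ N.F, N.S.a d ∈ N.F → 0 < N.lev d → d ∈ N.up ∨ N.S.a d ∈ N.up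
  frF : ∀ d ∈ N.fr, d ∈ N.F ∧ N.lev d = 0 ∧ N.S.a d ∈ N.fr ∧ adj (N.hub d) (N.hub (N.S.a d))
  frU : ∀ d ∈ N.fr, ∀ e ∈ N.fr, N.hub d = N.hub e → N.hub (N.S.a d) = N.hub (N.S.a e) → d = e
  frE : ∀ g ∈ P.pres, ∀ h ∈ P.pres, adj g h → N.t g = 0 → N.t h = 0 →
    ∃ d ∈ N.fr, N.hub d = g ∧ N.hub (N.S.a d) = h
  one : ∀ d ∈ N.F, ∀ e ∈ N.F, N.hub d = N.hub e → N.t (N.hub d) = 0 → N.lev d = 0 → N.lev e = 0 →
    N.S.r.SameCycle d e
  cnt : ∀ d ∈ N.F, N.lev d = 0 → P.K ≤ 4 ^ N.t (N.hub d) * {e | e ∈ N.fr ∧ N.S.r.SameCycle d e}.ncard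
  c0 : ∀ g, {d | d ∈ N.F ∧ N.hub d = g ∧ N.lev d = 0}.ncard ≤ 4 ^ N.t g * P.Th0
  cT : ∀ g, {d | d ∈ N.F ∧ N.hub d = g}.ncard ≤ 4 ^ N.t g * P.Th

/-- chains which respect the net -/
structure LChn {R B : ℕ} (P : Par R B) (N : NetS R B) (l : List (N.S.D × N.S.D)) (x y : N.S.D) : Prop where
  chn : Chn N.S N.F l x y
  sat : ∀ p ∈ l, 0 < N.lev p.1 → p.1 ∈ N.up ∨ p.2 ∈ N.up
  cross : ∀ p ∈ l, ∀ q ∈ l, N.S.a p.2 = q.1 → p.2 ∈ N.up ∨ q.1 ∈ N.up ∨ p.2 ∈ N.fr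
  legA : ∀ p ∈ l, N.lev p.1 = 0 →
    P.K ≤ 4 ^ (N.t (N.hub p.1) + 1) * {e | e ∈ N.fr ∧ Arc N.S.r (N.S.r p.1) p.2 e}.ncard
  legB : ∀ p ∈ l, N.lev p.1 = 0 →
    P.K ≤ 4 ^ (N.t (N.hub p.1) + 1) * {e | e ∈ N.fr ∧ Arc N.S.r (N.S.r p.2) p.1 e}.ncard

theorem chain_succ {α : Type*} {Q : α → α → Prop} {z : α} : ∀ {l : List α}, l.IsChain Q → l.getLast? = some z →
    ∀ p ∈ l, p ≠ z → ∃ q ∈ l, Q p q
  | [], _, _, p, hp, _ => absurd hp (List.not_mem_nil)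
  | [a], _, h2, p, hp, hz => by
    rw [List.mem_singleton] at hp
    simp only [List.getLast?_singleton, Option.some.injEq] at h2
    exact absurd (hp.trans h2) hz
  | a :: b :: t, h1, h2, p, hp, hz => by
    rw [List.isChain_cons_cons] at h1
    rcases List.mem_cons.1 hp with h | h
    · exact ⟨b, by simp, h ▸ h1.1⟩
    · rw [List.getLast?_cons_cons] at h2
      obtain ⟨q, hq, hq2⟩ := chain_succ h1.2 h2 p h hz
      exact ⟨q, List.mem_cons_of_mem _ hq, hq2⟩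

theorem chain_pred {α : Type*} {Q : α → α → Prop} : ∀ {l : List α} {z : α}, l.IsChain Q → l.head? = some z →
    ∀ p ∈ l, p ≠ z → ∃ q ∈ l, Q q p
  | [], _, _, _, p, hp, _ => absurd hp (List.not_mem_nil)
  | [a], _, _, h2, p, hp, hz => by
    rw [List.mem_singleton] at hp
    simp only [List.head?_cons, Option.some.injEq] at h2
    exact absurd (hp.trans h2) hz
  | a :: b :: t, z, h1, h2, p, hp, hz => by
    rw [List.isChain_cons_cons] at h1
    simp only [List.head?_cons, Option.some.injEq] at h2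
    rcases List.mem_cons.1 hp with h | h
    · exact absurd (h.trans h2) hz
    · by_cases hb : p = b
      · exact ⟨a, by simp, hb ▸ h1.1⟩
      · obtain ⟨q, hq, hq2⟩ := chain_pred h1.2 (show (b :: t).head? = some b by simp) p h hb
        exact ⟨q, List.mem_cons_of_mem _ hq, hq2⟩

theorem Ok.same {R B : ℕ} {P : Par R B} {N : NetS R B} (hN : Ok P N) {d e : N.S.D} (hd : d ∈ N.F)
    (h : N.S.r.SameCycle d e) : e ∈ N.F ∧ N.hub e = N.hub d ∧ N.lev e = N.lev d := by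
  refine mem_of_same (Z := {e | e ∈ N.F ∧ N.hub e = N.hub d ∧ N.lev e = N.lev d}) ?_ ⟨hd, rfl, rfl⟩ h
  rintro e ⟨he, h1, h2⟩
  exact ⟨(hN.fat.inv e).2 he, (hN.hubr e he).trans h1, (hN.levr e he).trans h2⟩

/-- letter of a word of the chain -/
def CW (S : Sf) (l : List (S.D × S.D)) (d : S.D) : Prop := ∃ p ∈ l, S.r.SameCycle p.1 d

theorem CW.same {S : Sf} {l : List (S.D × S.D)} {d e : S.D} (h : CW S l d) (h2 : S.r.SameCycle d e) : CW S l e := by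
  obtain ⟨p, hp, h3⟩ := h
  exact ⟨p, hp, h3.trans h2⟩

section strandFacts

variable {S : Sf} {F : Set S.D} {l : List (S.D × S.D)} {x y : S.D}

theorem Chn.succ (h : Chn S F l x y) {p : S.D × S.D} (hp : p ∈ l) (h2 : p.2 ≠ y) :
    ∃ q ∈ l, S.a p.2 = q.1 ∧ q.1 ≠ x := by
  obtain ⟨e, he⟩ := h.hy
  obtain ⟨q, hq, hq2⟩ := chain_succ h.chain he p hp (fun hc => h2 (by rw [hc]))
  refine ⟨q, hq, hq2, fun hc => h.ax ?_⟩
  rw [← hc, ← hq2, S.aa]
  exact (h.fat p hp).2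

theorem Chn.pred (h : Chn S F l x y) {p : S.D × S.D} (hp : p ∈ l) (h2 : p.1 ≠ x) :
    ∃ q ∈ l, S.a q.2 = p.1 ∧ q.2 ≠ y := by
  obtain ⟨f, hf⟩ := h.hx
  obtain ⟨q, hq, hq2⟩ := chain_pred h.chain hf p hp (fun hc => h2 (by rw [hc]))
  refine ⟨q, hq, hq2, fun hc => h.ay ?_⟩
  rw [← hc, hq2]
  exact (h.fat p hp).1

theorem Chn.uniq (h : Chn S F l x y) {p q : S.D × S.D} (hp : p ∈ l) (hq : q ∈ l) (h2 : S.r.SameCycle p.1 q.1) :
    p = q := by
  by_contra hne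
  have : Std.Symm (fun p q : S.D × S.D => ¬ S.r.SameCycle p.1 q.1) := ⟨fun a b hab hba => hab hba.symm⟩
  exact h.dist.forall hp hq hne h2

theorem Chn.cutA (h : Chn S F l x y) {d : S.D} (hd : d ∈ F) (hc : Cut S l d) :
    ∃ p ∈ l, d = p.1 ∨ d = p.2 := by
  obtain ⟨p, hp, h1 | h1 | h1 | h1⟩ := hc
  · exact ⟨p, hp, Or.inl h1⟩
  · exact ⟨p, hp, Or.inr h1⟩
  · have hx : p.1 ≠ x := by
      intro hx
      apply h.ax
      rw [← hx, ← h1, S.aa]
      exact hd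
    obtain ⟨q, hq, hq2, _⟩ := h.pred hp hx
    refine ⟨q, hq, Or.inr ?_⟩
    rw [← S.aa d, h1, ← hq2, S.aa]
  · have hy : p.2 ≠ y := by
      intro hy
      apply h.ay
      rw [← hy, ← h1, S.aa]
      exact hd
    obtain ⟨q, hq, hq2, _⟩ := h.succ hp hy
    refine ⟨q, hq, Or.inl ?_⟩
    rw [← hq2, ← h1, S.aa]

theorem Chn.notCut (h : Chn S F l x y) {d : S.D} (hd : d ∈ F) (hc : ¬ CW S l d) : ¬ Cut S l d := by
  intro h2
  obtain ⟨p, hp, h3 | h3⟩ := h.cutA hd h2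
  · exact hc ⟨p, hp, by rw [h3]⟩
  · exact hc ⟨p, hp, by rw [h3]; exact h.same p hp⟩

theorem cut_a {d : S.D} (h : ¬ Cut S l d) : ¬ Cut S l (S.a d) := by
  rintro ⟨p, hp, h1⟩
  apply h
  refine ⟨p, hp, ?_⟩
  rw [S.aa] at h1
  tauto

variable {S' : Sf} {F' : Set S'.D} {j : S.D → S'.D} {π : S'.D → S.D}
  {sd : S.D × S.D → Bool → Set S'.D} {zf ze : S.D × S.D → Bool → S'.D} {C : Bool → Set S'.D}

theorem StrandOut.old (hS : StrandOut S F l x y S' F' j π sd zf ze C) (hF : Fat S F) {d e : S.D} (hd : d ∈ F)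
    (hc : ¬ CW S l d) (h : S.r.SameCycle d e) : e ∈ F ∧ ¬ CW S l e ∧ S'.r.SameCycle (j d) (j e) := by
  refine mem_of_same (Z := {e | e ∈ F ∧ ¬ CW S l e ∧ S'.r.SameCycle (j d) (j e)}) ?_ ⟨hd, hc, Perm.SameCycle.refl _ _⟩ h
  rintro e ⟨he, h1, h2⟩
  refine ⟨(hF.inv e).2 he, fun h3 => h1 (h3.same ?_), ?_⟩
  · exact (Perm.sameCycle_apply_left.2 (Perm.SameCycle.refl _ _))
  · rw [← hS.off e he (fun p hp hpe => h1 ⟨p, hp, hpe⟩)]
    exact Perm.sameCycle_apply_right.2 h2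

theorem StrandOut.img (hS : StrandOut S F l x y S' F' j π sd zf ze C) {c : S'.D} (hc : c ∈ F')
    (h : ¬ CW S l (π c)) : c = j (π c) ∧ π c ∈ F ∧ ¬ Cut S l (π c) := by
  have : ∃ d, j d = c := by
    by_contra hn
    push Not at hn
    obtain ⟨p, hp, hp2⟩ := hS.newF c hc hn
    exact h ⟨p, hp, hp2⟩
  obtain ⟨d, rfl⟩ := this
  rw [hS.pj]
  exact ⟨rfl, (hS.jF d).1 hc⟩

theorem StrandOut.pis (hS : StrandOut S F l x y S' F' j π sd zf ze C) {c c' : S'.D} (hc : c ∈ F')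
    (h : S'.r.SameCycle c c') : c' ∈ F' ∧ S.r.SameCycle (π c) (π c') := by
  refine mem_of_same (Z := {c' | c' ∈ F' ∧ S.r.SameCycle (π c) (π c')}) ?_ ⟨hc, Perm.SameCycle.refl _ _⟩ h
  rintro e ⟨he, h1⟩
  exact ⟨(hS.fat.inv e).2 he, h1.trans (hS.pir e he)⟩

theorem StrandOut.count0 (hS : StrandOut S F l x y S' F' j π sd zf ze C) (A : Set S.D) (hA : ∀ d ∈ A, ¬ CW S l d) :
    {c | c ∈ F' ∧ π c ∈ A}.ncard ≤ A.ncard := by
  refine le_trans (Set.ncard_le_ncard (t := j '' A) ?_ (Set.toFinite _)) (Set.ncard_image_le (Set.toFinite _))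
  rintro c ⟨hc, h2⟩
  exact ⟨π c, h2, (hS.img hc (hA _ h2)).1.symm⟩

open Classical in
theorem StrandOut.count (hS : StrandOut S F l x y S' F' j π sd zf ze C) (h : Chn S F l x y) (A : Set S.D)
    (hA : ∀ d ∈ A, ∀ e, S.r.SameCycle d e → e ∈ A) :
    {c | c ∈ F' ∧ π c ∈ A}.ncard ≤ 4 * A.ncard := by
  set T : Finset (S.D × S.D) := l.toFinset.filter (fun p => p.1 ∈ A) with hT
  set W : S.D × S.D → Finset S.D := fun p => Finset.univ.filter (fun e => S.r.SameCycle p.1 e) with hW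
  set V : Finset S.D := T.biUnion W with hV
  have hVA : ∀ d ∈ V, d ∈ A := by
    intro d hd
    rw [hV, Finset.mem_biUnion] at hd
    obtain ⟨p, hp, hp2⟩ := hd
    rw [hT, Finset.mem_filter] at hp
    rw [hW, Finset.mem_filter] at hp2
    exact hA _ hp.2 _ hp2.2
  have hVc : V.card = ∑ p ∈ T, (W p).card := by
    refine Finset.card_biUnion ?_
    intro p hp q hq hpq
    show Disjoint (W p) (W q)
    rw [Finset.disjoint_left]
    intro e he he2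
    simp only [hW, Finset.mem_filter] at he he2
    rw [Finset.mem_coe, hT, Finset.mem_filter, List.mem_toFinset] at hp hq
    exact hpq (h.uniq hp.1 hq.1 (he.2.trans he2.2.symm))
  have hcov : {c | c ∈ F' ∧ π c ∈ A} ⊆
      ↑(T.biUnion (fun p => (Set.toFinite {c | c ∈ F' ∧ S.r.SameCycle p.1 (π c)}).toFinset)) ∪ j '' (A \ ↑V) := by
    rintro c ⟨hc, h2⟩
    by_cases h3 : CW S l (π c)
    · left
      obtain ⟨p, hp, hp2⟩ := h3
      rw [Finset.mem_coe, Finset.mem_biUnion]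
      refine ⟨p, ?_, ?_⟩
      · rw [hT, Finset.mem_filter, List.mem_toFinset]
        exact ⟨hp, hA _ h2 _ hp2.symm⟩
      · rw [Set.Finite.mem_toFinset]
        exact ⟨hc, hp2⟩
    · right
      refine ⟨π c, ⟨h2, ?_⟩, (hS.img hc h3).1.symm⟩
      intro h4
      rw [Finset.mem_coe, hV, Finset.mem_biUnion] at h4
      obtain ⟨p, hp, hp2⟩ := h4
      rw [hT, Finset.mem_filter, List.mem_toFinset] at hp
      rw [hW, Finset.mem_filter] at hp2
      exact h3 ⟨p, hp.1, hp2.2⟩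
  have h1 : {c | c ∈ F' ∧ π c ∈ A}.ncard ≤
      (T.biUnion (fun p => (Set.toFinite {c | c ∈ F' ∧ S.r.SameCycle p.1 (π c)}).toFinset)).card + (A \ ↑V).ncard := by
    refine (Set.ncard_le_ncard hcov (Set.toFinite _)).trans ((Set.ncard_union_le _ _).trans ?_)
    rw [Set.ncard_coe_finset]
    exact Nat.add_le_add_left (Set.ncard_image_le (Set.toFinite _)) _
  have h2 : (T.biUnion (fun p => (Set.toFinite {c | c ∈ F' ∧ S.r.SameCycle p.1 (π c)}).toFinset)).card ≤ 4 * V.card := by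
    rw [hVc, Finset.mul_sum]
    refine Finset.card_biUnion_le.trans (Finset.sum_le_sum ?_)
    intro p hp
    rw [hT, Finset.mem_filter, List.mem_toFinset] at hp
    have h3 := hS.num p hp.1
    rw [Set.ncard_eq_toFinset_card _ (Set.toFinite _)] at h3
    refine h3.trans (Nat.mul_le_mul_left 4 ?_)
    rw [← Set.ncard_coe_finset]
    refine Set.ncard_le_ncard ?_ (Set.toFinite _)
    intro e he
    rw [Finset.mem_coe, hW, Finset.mem_filter]
    exact ⟨Finset.mem_univ _, he⟩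
  have h4 : (A \ ↑V).ncard + V.card = A.ncard := by
    rw [← Set.ncard_coe_finset V]
    exact Set.ncard_sdiff_add_ncard_of_subset (fun d hd => hVA d (Finset.mem_coe.1 hd)) (Set.toFinite _)
  omega

end strandFacts

open Classical in
/-- a strand along a chain which respects the net gives a net -/
theorem netStrand {R B : ℕ} (P : Par R B) (N : NetS R B) (hN : Ok P N) (l : List (N.S.D × N.S.D)) (x y : N.S.D)
    (h : LChn P N l x y) (S' : Sf) (F' : Set S'.D) (j : N.S.D → S'.D) (π : S'.D → N.S.D)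
    (sd : N.S.D × N.S.D → Bool → Set S'.D) (zf ze : N.S.D × N.S.D → Bool → S'.D) (C : Bool → Set S'.D)
    (hS : StrandOut N.S N.F l x y S' F' j π sd zf ze C) :
    ∃ fr' up' : Set S'.D, Ok P ⟨S', F', fun c => N.hub (π c), fun c => N.lev (π c), fr', up',
      fun g => if ∃ p ∈ l, N.hub p.1 = g then N.t g + 1 else N.t g⟩ := by
  have hc := h.chn
  have hF := hN.fat
  -- hubs and levels of the words of the chain
  have hl2 : ∀ p ∈ l, N.hub p.2 = N.hub p.1 ∧ N.lev p.2 = N.lev p.1 := fun p hp =>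
    (hN.same (hc.fat p hp).1 (hc.same p hp)).2
  have hCWhub : ∀ d, d ∈ N.F → ∀ p ∈ l, N.S.r.SameCycle p.1 d → N.hub d = N.hub p.1 ∧ N.lev d = N.lev p.1 :=
    fun d _ p hp hpd => (hN.same (hc.fat p hp).1 hpd).2
  have ht0 : ∀ g, (if ∃ p ∈ l, N.hub p.1 = g then N.t g + 1 else N.t g) = 0 → (∀ p ∈ l, N.hub p.1 ≠ g) ∧ N.t g = 0 := by
    intro g hg
    split_ifs at hg with h1
    push Not at h1
    exact ⟨h1, hg⟩
  have htle : ∀ g, N.t g ≤ if ∃ p ∈ l, N.hub p.1 = g then N.t g + 1 else N.t g := by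
    intro g
    split_ifs <;> omega
  have huntou : ∀ d ∈ N.F, (∀ p ∈ l, N.hub p.1 ≠ N.hub d) → ¬ CW N.S l d := by
    rintro d hd h1 ⟨p, hp, hp2⟩
    exact h1 p hp (hCWhub d hd p hp hp2).1.symm
  set fr' : Set S'.D := {c | ∃ d ∈ N.fr, ¬ Cut N.S l d ∧ c = j d} with hfr'
  set up' : Set S'.D := {c | (∃ d ∈ N.up, ¬ Cut N.S l d ∧ c = j d) ∨
    (∃ p ∈ l, ∃ b, p.2 ≠ y ∧ p.2 ∈ N.up ∧ c = zf p b) ∨ (∃ p ∈ l, ∃ b, p.1 ≠ x ∧ p.1 ∈ N.up ∧ c = ze p b)} with hup'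
  -- the new letters
  have hzf : ∀ p ∈ l, p.2 ≠ y → ∀ b, zf p b ∈ F' ∧ N.S.r.SameCycle p.1 (π (zf p b)) := fun p hp hp2 b =>
    hS.sdF p hp b _ (hS.zf1 p hp hp2 b).1
  have hze : ∀ p ∈ l, p.1 ≠ x → ∀ b, ze p b ∈ F' ∧ N.S.r.SameCycle p.1 (π (ze p b)) := fun p hp hp2 b =>
    hS.sdF p hp b _ (hS.ze1 p hp hp2 b).1
  have hazf : ∀ p ∈ l, p.2 ≠ y → ∃ q ∈ l, N.S.a p.2 = q.1 ∧ q.1 ≠ x ∧ ∀ b, S'.a (zf p b) = ze q b := by
    intro p hp hp2
    obtain ⟨q, hq, h1, h2⟩ := hc.succ hp hp2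
    exact ⟨q, hq, h1, h2, hS.zz p hp q hq h1⟩
  have haze : ∀ p ∈ l, p.1 ≠ x → ∃ q ∈ l, N.S.a q.2 = p.1 ∧ q.2 ≠ y ∧ ∀ b, S'.a (ze p b) = zf q b := by
    intro p hp hp2
    obtain ⟨q, hq, h1, h2⟩ := hc.pred hp hp2
    refine ⟨q, hq, h1, h2, fun b => ?_⟩
    rw [← hS.zz q hq p hp h1 b, S'.aa]
  have hupy : ∀ p ∈ l, p.2 ∈ N.up → p.2 ≠ y := by
    intro p hp h1 h2
    exact hc.ay (h2 ▸ (hN.upF _ h1).2.1)
  have hupx : ∀ p ∈ l, p.1 ∈ N.up → p.1 ≠ x := by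
    intro p hp h1 h2
    exact hc.ax (h2 ▸ (hN.upF _ h1).2.1)
  -- letters of a side
  have hside : ∀ p ∈ l, ∀ c ∈ F', N.S.r.SameCycle p.1 (π c) → ∃ b, c ∈ sd p b ∧ ∀ c' ∈ sd p b, S'.r.SameCycle c c' := by
    intro p hp c hcF h1
    obtain ⟨b, hb⟩ := hS.sdc p hp c hcF h1
    exact ⟨b, hb, fun c' hc' => (hS.sds p hp b c hb c').2 hc'⟩
  refine ⟨fr', up', ?_⟩
  constructor
  · exact hS.fat
  · intro c hcF
    exact (hN.same (hS.piF c hcF) (hS.pir c hcF)).2.1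
  · intro c hcF
    exact (hN.same (hS.piF c hcF) (hS.pir c hcF)).2.2
  · intro c hcF
    exact hN.hubp _ (hS.piF c hcF)
  · intro c hcF
    exact hN.levd _ (hS.piF c hcF)
  · -- port
    intro c hcF
    by_cases h1 : CW N.S l (π c)
    · obtain ⟨p, hp, hp2⟩ := h1
      obtain ⟨b, _, hb2⟩ := hside p hp c hcF hp2
      obtain ⟨c', hc', hc2⟩ := hS.sdp p hp b
      exact ⟨c', hb2 c' hc', hc2⟩
    · obtain ⟨h2, h3, h4⟩ := hS.img hcF h1
      obtain ⟨e, he, he2⟩ := hN.port _ h3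
      obtain ⟨h5, h6, h7⟩ := hS.old hF h3 h1 he
      refine ⟨j e, ?_, ?_⟩
      · rw [← h2] at h7
        exact h7
      · show S'.a (j e) ∉ F'
        rw [hS.ja e (hc.notCut h5 h6), hS.jF]
        exact fun hh => he2 hh.1
  · -- upF
    rintro u (⟨d, hd, hd2, rfl⟩ | ⟨p, hp, b, hp2, hp3, rfl⟩ | ⟨p, hp, b, hp2, hp3, rfl⟩)
    · obtain ⟨h1, h2, h3, h4⟩ := hN.upF d hd
      show j d ∈ F' ∧ S'.a (j d) ∈ F' ∧ N.hub (π (S'.a (j d))) = N.hub (π (j d)) ∧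
        N.lev (π (S'.a (j d))) + 1 = N.lev (π (j d))
      rw [hS.ja d hd2, hS.pj, hS.pj, hS.jF, hS.jF]
      exact ⟨⟨h1, hd2⟩, ⟨h2, cut_a hd2⟩, h3, h4⟩
    · obtain ⟨h1, h2, h3, h4⟩ := hN.upF _ hp3
      obtain ⟨q, hq, hq2, hq3, hq4⟩ := hazf p hp hp2
      show zf p b ∈ F' ∧ S'.a (zf p b) ∈ F' ∧ N.hub (π (S'.a (zf p b))) = N.hub (π (zf p b)) ∧
        N.lev (π (S'.a (zf p b))) + 1 = N.lev (π (zf p b))
      rw [hq4]
      obtain ⟨g1, g2⟩ := hzf p hp hp2 b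
      obtain ⟨g3, g4⟩ := hze q hq hq3 b
      obtain ⟨g5, g6⟩ := hCWhub _ (hS.piF _ g1) p hp g2
      obtain ⟨g7, g8⟩ := hCWhub _ (hS.piF _ g3) q hq g4
      refine ⟨g1, g3, ?_, ?_⟩
      · rw [g5, g7, ← hq2, h3, (hl2 p hp).1]
      · rw [g6, g8, ← hq2, h4, (hl2 p hp).2]
    · obtain ⟨h1, h2, h3, h4⟩ := hN.upF _ hp3
      obtain ⟨q, hq, hq2, hq3, hq4⟩ := haze p hp hp2
      show ze p b ∈ F' ∧ S'.a (ze p b) ∈ F' ∧ N.hub (π (S'.a (ze p b))) = N.hub (π (ze p b)) ∧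
        N.lev (π (S'.a (ze p b))) + 1 = N.lev (π (ze p b))
      rw [hq4]
      obtain ⟨g1, g2⟩ := hze p hp hp2 b
      obtain ⟨g3, g4⟩ := hzf q hq hq3 b
      obtain ⟨g5, g6⟩ := hCWhub _ (hS.piF _ g1) p hp g2
      obtain ⟨g7, g8⟩ := hCWhub _ (hS.piF _ g3) q hq g4
      have hq5 : N.S.a p.1 = q.2 := by rw [← hq2, N.S.aa]
      rw [hq5] at h3 h4
      refine ⟨g1, g3, ?_, ?_⟩
      · rw [g5, g7, ← (hl2 q hq).1, h3]
      · rw [g6, g8, ← (hl2 q hq).2, h4]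
  · -- upE
    intro c hcF hlev
    by_cases h1 : CW N.S l (π c)
    · obtain ⟨p, hp, hp2⟩ := h1
      obtain ⟨b, _, hb2⟩ := hside p hp c hcF hp2
      have h3 : 0 < N.lev p.1 := by
        rw [← (hCWhub _ (hS.piF c hcF) p hp hp2).2]
        exact hlev
      rcases h.sat p hp h3 with h4 | h4
      · refine ⟨ze p b, Or.inr (Or.inr ⟨p, hp, b, hupx p hp h4, h4, rfl⟩), ?_⟩
        exact hb2 _ (hS.ze1 p hp (hupx p hp h4) b).1
      · refine ⟨zf p b, Or.inr (Or.inl ⟨p, hp, b, hupy p hp h4, h4, rfl⟩), ?_⟩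
        exact hb2 _ (hS.zf1 p hp (hupy p hp h4) b).1
    · obtain ⟨h2, h3, h4⟩ := hS.img hcF h1
      obtain ⟨u, hu, hu2⟩ := hN.upE _ h3 hlev
      obtain ⟨h5, h6, h7⟩ := hS.old hF h3 h1 hu2
      refine ⟨j u, Or.inl ⟨u, hu, hc.notCut h5 h6, rfl⟩, ?_⟩
      rw [← h2] at h7
      exact h7
  · -- upU
    have key1 : ∀ d ∈ N.up, ¬ Cut N.S l d → ∀ p ∈ l, ∀ e, (e = p.1 ∨ e = p.2) → e ∈ N.up →
        N.S.r.SameCycle d e → False := by
      intro d hd hd2 p hp e he he2 hde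
      have := hN.upU d hd e he2 hde
      apply hd2
      rcases he with he | he
      · exact ⟨p, hp, Or.inl (this.trans he)⟩
      · exact ⟨p, hp, Or.inr (Or.inl (this.trans he))⟩
    have key2 : ∀ p ∈ l, ∀ q ∈ l, ∀ c c', c ∈ F' → N.S.r.SameCycle p.1 (π c) → N.S.r.SameCycle q.1 (π c') →
        S'.r.SameCycle c c' → p = q := by
      intro p hp q hq c c' hcF h1 h2 h3
      exact hc.uniq hp hq (h1.trans ((hS.pis hcF h3).2.trans h2.symm))
    have key3 : ∀ p ∈ l, ∀ b b' c c', c ∈ sd p b → c' ∈ sd p b' → S'.r.SameCycle c c' → b = b' := by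
      intro p hp b b' c c' h1 h2 h3
      have h4 := (hS.sds p hp b c h1 c').1 h3
      by_contra hne
      cases b <;> cases b'
      · exact hne rfl
      · exact hS.sdd p hp c' h2 h4
      · exact hS.sdd p hp c' h4 h2
      · exact hne rfl
    rintro u (⟨d, hd, hd2, rfl⟩ | ⟨p, hp, b, hp2, hp3, rfl⟩ | ⟨p, hp, b, hp2, hp3, rfl⟩)
      v (⟨e, he, he2, rfl⟩ | ⟨q, hq, b', hq2, hq3, rfl⟩ | ⟨q, hq, b', hq2, hq3, rfl⟩) huv
    · have h1 := (hS.pis ((hS.jF d).2 ⟨(hN.upF d hd).1, hd2⟩) huv).2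
      rw [hS.pj, hS.pj] at h1
      rw [hN.upU d hd e he h1]
    · exfalso
      have h1 := (hS.pis ((hS.jF d).2 ⟨(hN.upF d hd).1, hd2⟩) huv).2
      rw [hS.pj] at h1
      exact key1 d hd hd2 q hq q.2 (Or.inr rfl) hq3
        (h1.trans ((hzf q hq hq2 b').2.symm.trans (hc.same q hq)))
    · exfalso
      have h1 := (hS.pis ((hS.jF d).2 ⟨(hN.upF d hd).1, hd2⟩) huv).2
      rw [hS.pj] at h1
      exact key1 d hd hd2 q hq q.1 (Or.inl rfl) hq3 (h1.trans (hze q hq hq2 b').2.symm)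
    · exfalso
      have h1 := (hS.pis (hzf p hp hp2 b).1 huv).2
      rw [hS.pj] at h1
      exact key1 e he he2 p hp p.2 (Or.inr rfl) hp3
        (h1.symm.trans ((hzf p hp hp2 b).2.symm.trans (hc.same p hp)))
    · have hpq := key2 p hp q hq _ _ (hzf p hp hp2 b).1 (hzf p hp hp2 b).2 (hzf q hq hq2 b').2 huv
      subst hpq
      rw [key3 p hp b b' _ _ (hS.zf1 p hp hp2 b).1 (hS.zf1 p hp hp2 b').1 huv]
    · exfalso
      have hpq := key2 p hp q hq _ _ (hzf p hp hp2 b).1 (hzf p hp hp2 b).2 (hze q hq hq2 b').2 huv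
      subst hpq
      exact hc.ne p hp (hN.upU _ hq3 _ hp3 (hc.same p hp))
    · exfalso
      have h1 := (hS.pis (hze p hp hp2 b).1 huv).2
      rw [hS.pj] at h1
      exact key1 e he he2 p hp p.1 (Or.inl rfl) hp3 (h1.symm.trans (hze p hp hp2 b).2.symm)
    · exfalso
      have hpq := key2 p hp q hq _ _ (hze p hp hp2 b).1 (hze p hp hp2 b).2 (hzf q hq hq2 b').2 huv
      subst hpq
      exact hc.ne p hp (hN.upU _ hp3 _ hq3 (hc.same p hp))
    · have hpq := key2 p hp q hq _ _ (hze p hp hp2 b).1 (hze p hp hp2 b).2 (hze q hq hq2 b').2 huv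
      subst hpq
      rw [key3 p hp b b' _ _ (hS.ze1 p hp hp2 b).1 (hS.ze1 p hp hp2 b').1 huv]
  · -- resv
    intro c hcF haF hlev
    by_cases h1 : ∃ d, j d = c
    · obtain ⟨d, rfl⟩ := h1
      obtain ⟨h2, h3⟩ := (hS.jF d).1 hcF
      have haF2 : S'.a (j d) ∈ F' := haF
      rw [hS.ja d h3, hS.jF] at haF2
      have hlev2 : 0 < N.lev (π (j d)) := hlev
      rw [hS.pj] at hlev2
      rcases hN.resv d h2 haF2.1 hlev2 with h4 | h4
      · exact Or.inl (Or.inl ⟨d, h4, h3, rfl⟩)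
      · refine Or.inr (Or.inl ⟨N.S.a d, h4, cut_a h3, hS.ja d h3⟩)
    · push Not at h1
      obtain ⟨p, hp, b, ⟨hp2, rfl⟩ | ⟨hp2, rfl⟩⟩ := hS.res c hcF haF h1
      · obtain ⟨q, hq, hq2, hq3, hq4⟩ := hazf p hp hp2
        obtain ⟨g1, g2⟩ := hzf p hp hp2 b
        have g6 := (hCWhub _ (hS.piF _ g1) p hp g2).2
        have hl3 : 0 < N.lev p.2 := by
          rw [(hl2 p hp).2, ← g6]
          exact hlev
        rcases hN.resv p.2 (hc.fat p hp).2 (by rw [hq2]; exact (hc.fat q hq).1) hl3 with h4 | h4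
        · exact Or.inl (Or.inr (Or.inl ⟨p, hp, b, hp2, h4, rfl⟩))
        · right
          show S'.a (zf p b) ∈ up'
          rw [hq4]
          rw [hq2] at h4
          exact Or.inr (Or.inr ⟨q, hq, b, hq3, h4, rfl⟩)
      · obtain ⟨q, hq, hq2, hq3, hq4⟩ := haze p hp hp2
        obtain ⟨g1, g2⟩ := hze p hp hp2 b
        have g6 := (hCWhub _ (hS.piF _ g1) p hp g2).2
        have hl3 : 0 < N.lev p.1 := by
          rw [← g6]
          exact hlev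
        have hq5 : N.S.a p.1 = q.2 := by rw [← hq2, N.S.aa]
        rcases hN.resv p.1 (hc.fat p hp).1 (by rw [hq5]; exact (hc.fat q hq).2) hl3 with h4 | h4
        · exact Or.inl (Or.inr (Or.inr ⟨p, hp, b, hp2, h4, rfl⟩))
        · right
          show S'.a (ze p b) ∈ up'
          rw [hq4]
          rw [hq5] at h4
          exact Or.inr (Or.inl ⟨q, hq, b, hq3, h4, rfl⟩)
  · -- frF
    rintro c ⟨d, hd, hd2, rfl⟩
    obtain ⟨h1, h2, h3, h4⟩ := hN.frF d hd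
    show j d ∈ F' ∧ N.lev (π (j d)) = 0 ∧ S'.a (j d) ∈ fr' ∧ adj (N.hub (π (j d))) (N.hub (π (S'.a (j d))))
    rw [hS.ja d hd2, hS.pj, hS.pj, hS.jF]
    exact ⟨⟨h1, hd2⟩, h2, ⟨N.S.a d, h3, cut_a hd2, rfl⟩, h4⟩
  · -- frU
    rintro c ⟨d, hd, hd2, rfl⟩ c' ⟨e, he, he2, rfl⟩ h1 h2
    have h1' : N.hub (π (j d)) = N.hub (π (j e)) := h1
    have h2' : N.hub (π (S'.a (j d))) = N.hub (π (S'.a (j e))) := h2
    rw [hS.pj, hS.pj] at h1'
    rw [hS.ja d hd2, hS.ja e he2, hS.pj, hS.pj] at h2'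
    rw [hN.frU d hd e he h1' h2']
  · -- frE
    intro g hg k hk hgk htg htk
    obtain ⟨g1, g2⟩ := ht0 g htg
    obtain ⟨k1, k2⟩ := ht0 k htk
    obtain ⟨d, hd, hd2, hd3⟩ := hN.frE g hg k hk hgk g2 k2
    have hd4 : ¬ Cut N.S l d := by
      intro hcut
      have hdF := (hN.frF d hd).1
      obtain ⟨p, hp, h1⟩ := hc.cutA hdF hcut
      apply g1 p hp
      rcases h1 with h1 | h1
      · rw [← h1, hd2]
      · rw [← (hl2 p hp).1, ← h1, hd2]
    refine ⟨j d, ⟨d, hd, hd4, rfl⟩, ?_, ?_⟩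
    · show N.hub (π (j d)) = g
      rw [hS.pj, hd2]
    · show N.hub (π (S'.a (j d))) = k
      rw [hS.ja d hd4, hS.pj, hd3]
  · -- one
    intro c hcF e heF h1 h2 h3 h4
    obtain ⟨g1, g2⟩ := ht0 _ h2
    have h1' : N.hub (π c) = N.hub (π e) := h1
    have hcw : ¬ CW N.S l (π c) := huntou _ (hS.piF c hcF) g1
    have hew : ¬ CW N.S l (π e) := huntou _ (hS.piF e heF) (by rw [← h1']; exact g1)
    obtain ⟨k1, k2, k3⟩ := hS.img hcF hcw
    obtain ⟨k4, k5, k6⟩ := hS.img heF hew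
    have h5 := hN.one _ k2 _ k5 h1' g2 h3 h4
    have h6 := (hS.old hF k2 hcw h5).2.2
    rw [← k1, ← k4] at h6
    exact h6
  · -- cnt
    intro c hcF hlev
    show P.K ≤ 4 ^ (if ∃ p ∈ l, N.hub p.1 = N.hub (π c) then N.t (N.hub (π c)) + 1 else N.t (N.hub (π c))) *
      {e | e ∈ fr' ∧ S'.r.SameCycle c e}.ncard
    by_cases h1 : CW N.S l (π c)
    · obtain ⟨p, hp, hp2⟩ := h1
      obtain ⟨hh1, hh2⟩ := hCWhub _ (hS.piF c hcF) p hp hp2
      have hlp : N.lev p.1 = 0 := by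
        rw [← hh2]
        exact hlev
      rw [if_pos ⟨p, hp, hh1.symm⟩, hh1]
      obtain ⟨b, _, hb2⟩ := hside p hp c hcF hp2
      have hAr : ∀ e f : N.S.D, N.S.r.SameCycle e f → e ≠ f → (e = p.1 ∧ f = p.2 ∨ e = p.2 ∧ f = p.1) →
          ∀ d ∈ N.fr, Arc N.S.r (N.S.r e) f d → ¬ Cut N.S l d ∧ N.S.r.SameCycle p.1 d := by
        intro e f hef hne hpp d hd hd2
        have h2 : N.S.r.SameCycle (N.S.r e) f := Perm.sameCycle_apply_left.2 hef
        have h3 : d ≠ f := arc_ne_right hd2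
        have h4 : d ≠ e := by
          intro h5
          exact arc_step_ne h2 hd2 (by rw [h5])
        have h5 : N.S.r.SameCycle p.1 d := by
          have h6 : N.S.r.SameCycle e d := Perm.sameCycle_apply_left.1 (arc_same hd2)
          rcases hpp with ⟨rfl, _⟩ | ⟨rfl, _⟩
          · exact h6
          · exact (hc.same p hp).trans h6
        refine ⟨fun hcut => ?_, h5⟩
        obtain ⟨q, hq, hq2⟩ := hc.cutA (hN.frF d hd).1 hcut
        have hpq : p = q := by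
          apply hc.uniq hp hq
          rcases hq2 with hq2 | hq2
          · rw [← hq2]
            exact h5
          · exact (hq2 ▸ h5 : N.S.r.SameCycle p.1 q.2).trans (hc.same q hq).symm
        subst hpq
        rcases hpp with ⟨rfl, rfl⟩ | ⟨rfl, rfl⟩ <;> rcases hq2 with hq2 | hq2 <;> contradiction
      cases b
      · refine (h.legB p hp hlp).trans (Nat.mul_le_mul_left _ ?_)
        refine le_trans ?_ (Set.ncard_le_ncard (s := j '' {e | e ∈ N.fr ∧ Arc N.S.r (N.S.r p.2) p.1 e}) ?_ (Set.toFinite _))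
        · rw [Set.ncard_image_of_injective _ hS.inj]
        · rintro _ ⟨d, ⟨hd, hd2⟩, rfl⟩
          have h3 := (hAr p.2 p.1 (hc.same p hp).symm (hc.ne p hp).symm (Or.inr ⟨rfl, rfl⟩) d hd hd2).1
          exact ⟨⟨d, hd, h3, rfl⟩, hb2 _ (hS.sdB p hp d hd2)⟩
      · refine (h.legA p hp hlp).trans (Nat.mul_le_mul_left _ ?_)
        refine le_trans ?_ (Set.ncard_le_ncard (s := j '' {e | e ∈ N.fr ∧ Arc N.S.r (N.S.r p.1) p.2 e}) ?_ (Set.toFinite _))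
        · rw [Set.ncard_image_of_injective _ hS.inj]
        · rintro _ ⟨d, ⟨hd, hd2⟩, rfl⟩
          have h3 := (hAr p.1 p.2 (hc.same p hp) (hc.ne p hp) (Or.inl ⟨rfl, rfl⟩) d hd hd2).1
          exact ⟨⟨d, hd, h3, rfl⟩, hb2 _ (hS.sdA p hp d hd2)⟩
    · obtain ⟨h2, h3, h4⟩ := hS.img hcF h1
      refine (hN.cnt _ h3 hlev).trans ?_
      refine Nat.mul_le_mul (Nat.pow_le_pow_right (by norm_num) (htle _)) ?_
      refine le_trans ?_ (Set.ncard_le_ncard (s := j '' {e | e ∈ N.fr ∧ N.S.r.SameCycle (π c) e}) ?_ (Set.toFinite _))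
      · rw [Set.ncard_image_of_injective _ hS.inj]
      · rintro _ ⟨d, ⟨hd, hd2⟩, rfl⟩
        obtain ⟨h5, h6, h7⟩ := hS.old hF h3 h1 hd2
        rw [← h2] at h7
        exact ⟨⟨d, hd, hc.notCut h5 h6, rfl⟩, h7⟩
  · -- c0
    intro g
    show {d | d ∈ F' ∧ N.hub (π d) = g ∧ N.lev (π d) = 0}.ncard ≤
      4 ^ (if ∃ p ∈ l, N.hub p.1 = g then N.t g + 1 else N.t g) * P.Th0
    have h1 : {d | d ∈ F' ∧ N.hub (π d) = g ∧ N.lev (π d) = 0} =
        {c | c ∈ F' ∧ π c ∈ {d | d ∈ N.F ∧ N.hub d = g ∧ N.lev d = 0}} := by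
      ext c
      exact ⟨fun hh => ⟨hh.1, hS.piF c hh.1, hh.2⟩, fun hh => ⟨hh.1, hh.2.2⟩⟩
    rw [h1]
    split_ifs with h2
    · refine (hS.count hc _ ?_).trans ?_
      · rintro d ⟨hd, hd2, hd3⟩ e hde
        obtain ⟨k1, k2, k3⟩ := hN.same hd hde
        exact ⟨k1, k2.trans hd2, k3.trans hd3⟩
      · calc 4 * {d | d ∈ N.F ∧ N.hub d = g ∧ N.lev d = 0}.ncard ≤ 4 * (4 ^ N.t g * P.Th0) :=
              Nat.mul_le_mul_left _ (hN.c0 g)
          _ = 4 ^ (N.t g + 1) * P.Th0 := by ring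
    · push Not at h2
      refine (hS.count0 _ ?_).trans (hN.c0 g)
      rintro d ⟨hd, hd2, _⟩
      exact huntou d hd (by rw [hd2]; exact h2)
  · -- cT
    intro g
    show {d | d ∈ F' ∧ N.hub (π d) = g}.ncard ≤
      4 ^ (if ∃ p ∈ l, N.hub p.1 = g then N.t g + 1 else N.t g) * P.Th
    have h1 : {d | d ∈ F' ∧ N.hub (π d) = g} = {c | c ∈ F' ∧ π c ∈ {d | d ∈ N.F ∧ N.hub d = g}} := by
      ext c
      exact ⟨fun hh => ⟨hh.1, hS.piF c hh.1, hh.2⟩, fun hh => ⟨hh.1, hh.2.2⟩⟩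
    rw [h1]
    split_ifs with h2
    · refine (hS.count hc _ ?_).trans ?_
      · rintro d ⟨hd, hd2⟩ e hde
        obtain ⟨k1, k2, k3⟩ := hN.same hd hde
        exact ⟨k1, k2.trans hd2⟩
      · calc 4 * {d | d ∈ N.F ∧ N.hub d = g}.ncard ≤ 4 * (4 ^ N.t g * P.Th) :=
              Nat.mul_le_mul_left _ (hN.cT g)
          _ = 4 ^ (N.t g + 1) * P.Th := by ring
    · push Not at h2
      refine (hS.count0 _ ?_).trans (hN.cT g)
      rintro d ⟨hd, hd2⟩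
      exact huntou d hd (by rw [hd2]; exact h2)

end Pool.Agent.GW
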