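import Pool.Agent.GW.Graph

/-!
# GW.NetA: from disjoint connected sets to centres and satellites

`C v = some i`: `v` lies in the connected set `i`; `Z v`: the piece of `v`; `lab i`: the hub of `i`, `rep h`: the main set of the
hub `h`.  `lk v`: hub of `v` if `v` lies in one of the sets.  Vertices which lie in no set are divided into the components of
`{v | C v = none, Z v = i}`.
-/

set_option autoImplicit false

namespace Pool.Agent.GW

open Finset

namespace WG

section

variable {V : Type} (G : WG V)

/-- step between free vertices of one piece. -/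
def Tst {ι : Type} (Z : V → ι) (C : V → Option ι) (u v : V) : Prop :=
  G.Adj u v ∧ C u = none ∧ C v = none ∧ Z u = Z v

theorem Tst_symm {ι : Type} (Z : V → ι) (C : V → Option ι) {u v : V} (h : G.Tst Z C u v) : G.Tst Z C v u :=
  ⟨h.1.symm, h.2.2.1, h.2.1, h.2.2.2.symm⟩

theorem Tst_rev {ι : Type} (Z : V → ι) (C : V → Option ι) {u v : V} (h : Relation.ReflTransGen (G.Tst Z C) u v) :
    Relation.ReflTransGen (G.Tst Z C) v u := by
  induction h with
  | refl => exact Relation.ReflTransGen.refl
  | tail _ h2 ih => exact Relation.ReflTransGen.head (G.Tst_symm Z C h2) ih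

theorem Tst_Z {ι : Type} (Z : V → ι) (C : V → Option ι) {u v : V} (h : Relation.ReflTransGen (G.Tst Z C) u v) :
    Z u = Z v := by
  induction h with
  | refl => rfl
  | tail _ h2 ih => exact ih.trans h2.2.2.2

theorem Tst_C {ι : Type} (Z : V → ι) (C : V → Option ι) {u v : V} (h : Relation.ReflTransGen (G.Tst Z C) u v)
    (hu : C u = none) : C v = none := by
  cases h with
  | refl => exact hu
  | tail _ h2 => exact h2.2.2.1

/-- the classes. -/
def netS {ι F : Type} (Z : V → ι) (C : V → Option ι) (lab : ι → F) : Setoid V where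
  r a b := (C a).map lab = (C b).map lab ∧ ((C a).map lab = none → Relation.ReflTransGen (G.Tst Z C) a b)
  iseqv := by
    refine ⟨fun a => ⟨rfl, fun _ => Relation.ReflTransGen.refl⟩, ?_, ?_⟩
    · rintro a b ⟨h1, h2⟩
      exact ⟨h1.symm, fun h => G.Tst_rev Z C (h2 (h1.trans h))⟩
    · rintro a b c ⟨h1, h2⟩ ⟨h3, h4⟩
      exact ⟨h1.trans h3, fun h => (h2 h).trans (h4 (h1.symm.trans h))⟩

end

variable {V : Type} [Fintype V] [DecidableEq V] (G : WG V)

theorem Conn.mono_rel {X : Finset V} {R : V → V → Prop} (hX : X.Nonempty)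
    (hR : ∀ x y, x ∈ X → R x y → G.Adj x y ∧ y ∈ X)
    (h : ∀ x ∈ X, ∀ y ∈ X, Relation.ReflTransGen R x y) : G.Conn X := by
  refine ⟨hX, fun x hx y hy => ?_⟩
  have h1 := h x hx y hy
  suffices hs : ∀ z, Relation.ReflTransGen R x z → Relation.ReflTransGen (fun a b => G.Adj a b ∧ b ∈ X) x z ∧ z ∈ X from
    (hs y h1).1
  intro z hz
  induction hz with
  | refl => exact ⟨Relation.ReflTransGen.refl, hx⟩
  | tail _ h3 ih => exact ⟨ih.1.tail (hR _ _ ih.2 h3), (hR _ _ ih.2 h3).2⟩

open Classical in
/-- the union of the connected sets of one hub is connected. -/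
theorem conn_hub {ι F : Type} [DecidableEq ι] [DecidableEq F] (C : V → Option ι) (lab : ι → F) (rep : F → ι) (hlr : ∀ h, lab (rep h) = h)
    (hC : ∀ i, G.Conn (univ.filter fun v => C v = some i))
    (hadj : ∀ i, i ≠ rep (lab i) → ∃ x y, C x = some i ∧ C y = some (rep (lab i)) ∧ G.Adj x y) (h : F) :
    G.Conn (univ.filter fun v => (C v).map lab = some h) := by
  set X := univ.filter fun v => (C v).map lab = some h with hX
  have hsub : ∀ i, lab i = h → ∀ v, C v = some i → v ∈ X := by
    intro i hi v hv
    rw [hX, mem_filter]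
    exact ⟨mem_univ v, by rw [hv, Option.map_some, hi]⟩
  have hin : ∀ i, lab i = h → ∀ x y, C x = some i → C y = some i →
      Relation.ReflTransGen (fun a b => G.Adj a b ∧ b ∈ X) x y := by
    intro i hi x y hx hy
    have h1 := (hC i).2 x (by simp [hx]) y (by simp [hy])
    exact Relation.ReflTransGen.mono (fun a b hab => ⟨hab.1, hsub i hi b (mem_filter.1 hab.2).2⟩) x y h1
  obtain ⟨v0, hv0⟩ := (hC (rep h)).1
  have hv0' : C v0 = some (rep h) := (mem_filter.1 hv0).2
  have hto : ∀ x ∈ X, Relation.ReflTransGen (fun a b => G.Adj a b ∧ b ∈ X) x v0 ∧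
      Relation.ReflTransGen (fun a b => G.Adj a b ∧ b ∈ X) v0 x := by
    intro x hx
    have hx' := (mem_filter.1 hx).2
    rcases hCx : C x with _ | i
    · rw [hCx] at hx'
      simp at hx'
    · rw [hCx, Option.map_some, Option.some.injEq] at hx'
      by_cases hi : i = rep (lab i)
      · have hi2 : C x = some (rep h) := by rw [hCx, hi, hx']
        exact ⟨hin (rep h) (hlr h) x v0 hi2 hv0', hin (rep h) (hlr h) v0 x hv0' hi2⟩
      · obtain ⟨a, b, ha, hb, hab⟩ := hadj i hi
        rw [hx'] at hb
        have haX := hsub i hx' a ha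
        have hbX := hsub (rep h) (hlr h) b hb
        refine ⟨((hin i hx' x a hCx ha).tail ⟨hab, hbX⟩).trans (hin (rep h) (hlr h) b v0 hb hv0'), ?_⟩
        exact ((hin (rep h) (hlr h) v0 b hv0' hb).tail ⟨hab.symm, haX⟩).trans (hin i hx' a x ha hCx)
  refine ⟨⟨v0, hsub _ (hlr h) v0 hv0'⟩, fun x hx y hy => (hto x hx).1.trans (hto y hy).2⟩

open Classical in
/-- a free vertex is connected within its piece to a vertex of some set. -/
theorem free_exit {ι : Type} [DecidableEq ι] (Z : V → ι) (C : V → Option ι) (hZ : ∀ i, G.Conn (univ.filter fun v => Z v = i))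
    (hCZ : ∀ i, ∃ v, C v = some i ∧ Z v = i) {v : V} (hv : C v = none) :
    ∃ x y j, Relation.ReflTransGen (G.Tst Z C) v x ∧ G.Adj x y ∧ C y = some j ∧ Z y = Z v := by
  obtain ⟨z, hz, hzZ⟩ := hCZ (Z v)
  have h1 := (hZ (Z v)).2 v (by simp) z (by simp [hzZ])
  have key : ∀ w, Relation.ReflTransGen (fun a b => G.Adj a b ∧ b ∈ univ.filter fun u => Z u = Z v) v w →
      (∃ x y j, Relation.ReflTransGen (G.Tst Z C) v x ∧ G.Adj x y ∧ C y = some j ∧ Z y = Z v) ∨
        Relation.ReflTransGen (G.Tst Z C) v w := by
    intro w hw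
    induction hw with
    | refl => exact Or.inr Relation.ReflTransGen.refl
    | @tail a b _ h3 ih =>
      rcases ih with ih | ih
      · exact Or.inl ih
      · have hb : Z b = Z v := (mem_filter.1 h3.2).2
        rcases hCb : C b with _ | j
        · right
          refine ih.tail ⟨h3.1, G.Tst_C Z C ih hv, hCb, ?_⟩
          rw [hb, G.Tst_Z Z C ih]
        · exact Or.inl ⟨a, b, j, ih, h3.1, hCb, hb⟩
  rcases key z h1 with h2 | h2
  · exact h2
  · have := G.Tst_C Z C h2 hv
    rw [hz] at this
    exact absurd this (by simp)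

open Classical in
theorem net_asm {ι F : Type} [Fintype ι] [DecidableEq ι] [DecidableEq F] (Z : V → ι) (C : V → Option ι) (lab : ι → F) (rep : F → ι)
    (hlr : ∀ h, lab (rep h) = h)
    (hZ : ∀ i, G.Conn (univ.filter fun v => Z v = i)) {W : ℝ} (hW : ∀ i, G.vol (univ.filter fun v => Z v = i) ≤ W)
    (hC : ∀ i, G.Conn (univ.filter fun v => C v = some i)) {q D : ℕ}
    (hD : ∀ i, (univ.filter fun v => C v = some i).card ≤ D) (hq : ∀ h, (univ.filter fun i => lab i = h).card ≤ q)
    (hCZ : ∀ i, ∃ v, C v = some i ∧ Z v = i)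
    (hadj : ∀ i, i ≠ rep (lab i) → ∃ x y, C x = some i ∧ C y = some (rep (lab i)) ∧ G.Adj x y) :
    ∃ (κ : Type) (_ : Fintype κ) (cls : V → κ) (hub : κ → F) (cen : F → κ),
      (∀ h, hub (cen h) = h) ∧
      (∀ k, G.Conn (univ.filter fun v => cls v = k)) ∧
      (∀ k, k ≠ cen (hub k) → ∃ x y, cls x = k ∧ cls y = cen (hub k) ∧ G.Adj x y) ∧
      (∀ h, G.vol (univ.filter fun v => hub (cls v) = h) ≤ q * D * W) ∧
      (∀ h, (univ.filter fun v => cls v = cen h).card ≤ q * D) ∧
      ∀ v i, C v = some i → cls v = cen (lab i) := by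
  have hex : ∀ h, ∃ v, C v = some (rep h) := fun h => (hCZ (rep h)).imp fun v hv => hv.1
  choose vr hvr using hex
  have hg : ∀ v, ∃ h, C v = none → ∃ x y j, Relation.ReflTransGen (G.Tst Z C) v x ∧ G.Adj x y ∧ C y = some j ∧ Z y = Z v ∧
      lab j = h := by
    intro v
    by_cases hv : C v = none
    · obtain ⟨x, y, j, h1, h2, h3, h4⟩ := G.free_exit Z C hZ hCZ hv
      exact ⟨lab j, fun _ => ⟨x, y, j, h1, h2, h3, h4, rfl⟩⟩
    · obtain ⟨j, hj⟩ := Option.ne_none_iff_exists'.1 hv
      exact ⟨lab j, fun h => absurd h hv⟩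
  choose g hg using hg
  set S := G.netS Z C lab with hS
  have hSr : ∀ a b, S.r a b ↔ ((C a).map lab = (C b).map lab ∧
      ((C a).map lab = none → Relation.ReflTransGen (G.Tst Z C) a b)) := fun a b => Iff.rfl
  set hub : Quotient S → F := fun k => ((C k.out).map lab).getD (g k.out) with hhub
  set cls : V → Quotient S := fun v => Quotient.mk S v with hcls
  set cen : F → Quotient S := fun h => cls (vr h) with hcen
  have hcl : ∀ a b, cls a = cls b ↔ ((C a).map lab = (C b).map lab ∧
      ((C a).map lab = none → Relation.ReflTransGen (G.Tst Z C) a b)) := by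
    intro a b
    rw [hcls]
    exact Quotient.eq (r := S)
  have hout : ∀ k : Quotient S, cls k.out = k := fun k => Quotient.out_eq k
  have hvr' : ∀ h, (C (vr h)).map lab = some h := by
    intro h
    rw [hvr, Option.map_some, hlr]
  have hkey : ∀ v h, (C v).map lab = some h → cls v = cen h := by
    intro v h hv
    rw [hcen]
    refine (hcl v (vr h)).2 ⟨by rw [hv, hvr'], fun h0 => ?_⟩
    rw [hv] at h0
    exact absurd h0 (by simp)
  have hmapn : ∀ v, (C v).map lab = none ↔ C v = none := fun v => Option.map_eq_none_iff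
  have hXc : ∀ h, (univ.filter fun v => (C v).map lab = some h).card ≤ q * D := by
    intro h
    have h1 : (univ.filter fun v => (C v).map lab = some h) ⊆
        (univ.filter fun i => lab i = h).biUnion fun i => univ.filter fun v => C v = some i := by
      intro v hv
      have hv' := (mem_filter.1 hv).2
      rcases hCv : C v with _ | i
      · rw [hCv] at hv'
        simp at hv'
      · rw [hCv, Option.map_some, Option.some.injEq] at hv'
        rw [mem_biUnion]
        exact ⟨i, by simp [hv'], by simp [hCv]⟩
    refine (card_le_card h1).trans (card_biUnion_le.trans ?_)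
    refine (sum_le_sum fun i _ => hD i).trans ?_
    rw [sum_const, smul_eq_mul]
    exact Nat.mul_le_mul_right D (hq h)
  refine ⟨Quotient S, Fintype.ofFinite _, cls, hub, cen, ?_, ?_, ?_, ?_, ?_, ?_⟩
  · intro h
    have h1 := (hcl (cen h).out (vr h)).1 (hout (cen h))
    simp only [hhub]
    rw [h1.1, hvr']
    rfl
  · intro k
    rcases hk : (C k.out).map lab with _ | h
    · have hset : ∀ inst : DecidablePred fun v => cls v = k, (@Finset.filter V (fun v => cls v = k) inst univ) =
          univ.filter fun v => Relation.ReflTransGen (G.Tst Z C) k.out v := by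
        intro inst
        ext v
        rw [mem_filter, mem_filter]
        refine and_congr_right fun _ => ?_
        constructor
        · intro hv
          have h1 := (hcl k.out v).1 ((hout k).trans hv.symm)
          exact h1.2 hk
        · intro hv
          have h2 : C v = none := G.Tst_C Z C hv ((hmapn _).1 hk)
          rw [← hout k]
          refine (hcl v k.out).2 ⟨?_, fun _ => G.Tst_rev Z C hv⟩
          rw [hk, (hmapn v).2 h2]
      rw [hset]
      refine Conn.mono_rel G (R := G.Tst Z C) ⟨k.out, by simp [Relation.ReflTransGen.refl]⟩ ?_ ?_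
      · intro x y hx hxy
        exact ⟨hxy.1, mem_filter.2 ⟨mem_univ _, (mem_filter.1 hx).2.tail hxy⟩⟩
      · intro x hx y hy
        exact (G.Tst_rev Z C (mem_filter.1 hx).2).trans (mem_filter.1 hy).2
    · have hset : ∀ inst : DecidablePred fun v => cls v = k, (@Finset.filter V (fun v => cls v = k) inst univ) =
          univ.filter fun v => (C v).map lab = some h := by
        intro inst
        ext v
        rw [mem_filter, mem_filter]
        refine and_congr_right fun _ => ?_
        constructor
        · intro hv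
          have h1 := (hcl k.out v).1 ((hout k).trans hv.symm)
          rw [← h1.1, hk]
        · intro hv
          rw [← hout k, hkey v h hv, hkey k.out h hk]
      rw [hset]
      exact G.conn_hub C lab rep hlr hC hadj h
  · intro k hk
    rcases hk2 : (C k.out).map lab with _ | h
    · have hhk : hub k = g k.out := by
        simp only [hhub]
        rw [hk2]
        rfl
      obtain ⟨x, y, j, h1, h2, h3, h4, h5⟩ := hg k.out ((hmapn _).1 hk2)
      refine ⟨x, y, ?_, ?_, h2⟩
      · have h6 : C x = none := G.Tst_C Z C h1 ((hmapn _).1 hk2)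
        rw [← hout k]
        refine (hcl x k.out).2 ⟨?_, fun _ => G.Tst_rev Z C h1⟩
        rw [hk2, (hmapn x).2 h6]
      · rw [hhk]
        refine hkey y _ ?_
        rw [h3, Option.map_some, h5]
    · exfalso
      apply hk
      have hhk : hub k = h := by
        simp only [hhub]
        rw [hk2]
        rfl
      rw [hhk, ← hkey k.out h hk2, hout]
  · intro h
    -- the centre
    set X := univ.filter fun v => (C v).map lab = some h with hX
    have hXcard : X.card ≤ q * D := hXc h
    have hy : ∀ v, hub (cls v) = h → ∃ y ∈ X, Z y = Z v := by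
      intro v hv
      have h1 := (hcl (cls v).out v).1 (hout (cls v))
      rcases ho : (C (cls v).out).map lab with _ | h'
      · have hhk : hub (cls v) = g (cls v).out := by
          simp only [hhub]
          rw [ho]
          rfl
        obtain ⟨x, y, j, h3, h4, h5, h6, h7⟩ := hg (cls v).out ((hmapn _).1 ho)
        refine ⟨y, mem_filter.2 ⟨mem_univ _, ?_⟩, ?_⟩
        · rw [h5, Option.map_some, h7, ← hhk, hv]
        · rw [h6, G.Tst_Z Z C (h1.2 ho)]
      · have hhk : hub (cls v) = h' := by
          simp only [hhub]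
          rw [ho]
          rfl
        refine ⟨v, mem_filter.2 ⟨mem_univ _, ?_⟩, rfl⟩
        rw [← h1.1, ho, ← hhk, hv]
    have hW0 : 0 ≤ W := (G.vol_nonneg _).trans (hW (Z (vr h)))
    calc G.vol (univ.filter fun v => hub (cls v) = h)
        ≤ ∑ v ∈ univ.filter (fun v => hub (cls v) = h), ∑ y ∈ X, if Z v = Z y then G.om v else 0 := by
          unfold vol
          refine sum_le_sum fun v hv => ?_
          obtain ⟨y, hyX, hyZ⟩ := hy v (mem_filter.1 hv).2
          have h2 : ∀ y ∈ X, 0 ≤ if Z v = Z y then G.om v else 0 := by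
            intro y _
            split_ifs
            · exact G.om_nonneg v
            · exact le_rfl
          refine le_trans ?_ (single_le_sum h2 hyX)
          rw [if_pos hyZ.symm]
      _ = ∑ y ∈ X, ∑ v ∈ univ.filter (fun v => hub (cls v) = h), if Z v = Z y then G.om v else 0 := sum_comm
      _ ≤ ∑ y ∈ X, W := by
          refine sum_le_sum fun y _ => ?_
          refine le_trans ?_ (hW (Z y))
          unfold vol
          rw [← sum_filter]
          refine sum_le_sum_of_subset_of_nonneg ?_ fun v _ _ => G.om_nonneg v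
          intro v hv
          exact mem_filter.2 ⟨mem_univ _, (mem_filter.1 hv).2⟩
      _ = X.card * W := by rw [sum_const, nsmul_eq_mul]
      _ ≤ q * D * W := by
          refine mul_le_mul_of_nonneg_right ?_ hW0
          exact_mod_cast hXcard
  · intro h
    refine le_trans (card_le_card ?_) (hXc h)
    intro v hv
    have hv2 : cls v = cen h := by simpa using hv
    have h1 := (hcl v (vr h)).1 hv2
    exact mem_filter.2 ⟨mem_univ _, by rw [h1.1, hvr']⟩
  · intro v i hv
    exact hkey v _ (by rw [hv, Option.map_some])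

end WG

end Pool.Agent.GW
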