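import Pool.Agent.GW.Dual
import Pool.Agent.GW.InitB

/-!
# GW/NetCells (helper81): the cells of the network of the dual graph
-/

set_option autoImplicit false

namespace Pool.Agent.GW

open Equiv Pool.Agent.SWP

/-- two letters of one word are joined by steps of `r` -/
theorem steps_of_same (S : Sf) {d e : S.D} (h : S.r.SameCycle d e) :
    Relation.ReflTransGen (fun x y => y = S.r x) d e := by
  obtain ⟨n, hn⟩ := h.exists_nat_pow_eq
  subst hn
  induction n with
  | zero => exact Relation.ReflTransGen.refl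
  | succ n ih =>
    refine Relation.ReflTransGen.tail (ih ⟨n, rfl⟩) ?_
    rw [pow_succ', Perm.mul_apply]

/-- an edge of the dual graph is given by a letter -/
theorem dual_adj (S : Sf) {P Q : S.Wd} (h : S.dual.Adj P Q) : ∃ d, S.wd d = P ∧ S.wd (S.a d) = Q := by
  have h1 : (0 : ℝ) < (Set.ncard {d : S.D | S.wd d = P ∧ S.wd (S.a d) = Q} : ℝ) := h.2
  have h2 : 0 < Set.ncard {d : S.D | S.wd d = P ∧ S.wd (S.a d) = Q} := by exact_mod_cast h1
  obtain ⟨d, hd⟩ := (Set.ncard_pos (Set.toFinite _)).1 h2
  exact ⟨d, hd⟩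

theorem wd_r (S : Sf) (d : S.D) : S.wd (S.r d) = S.wd d :=
  (S.wd_eq _ _).2 (Perm.sameCycle_apply_left.2 (Perm.SameCycle.refl _ _))

/-- connected sets of words give connected sets of letters -/
theorem conn_letters (S : Sf) (X : Finset S.Wd) (hX : S.dual.Conn X) {d e : S.D} (hd : S.wd d ∈ X) (he : S.wd e ∈ X) :
    Relation.ReflTransGen (fun x y => S.wd y ∈ X ∧ (y = S.r x ∨ y = S.a x)) d e := by
  have key : ∀ (P Q : S.Wd), Relation.ReflTransGen (fun a b => S.dual.Adj a b ∧ b ∈ X) P Q → P ∈ X →
      ∀ d e, S.wd d = P → S.wd e = Q →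
        Relation.ReflTransGen (fun x y => S.wd y ∈ X ∧ (y = S.r x ∨ y = S.a x)) d e := by
    intro P Q h hP
    have hword : ∀ (T : S.Wd), T ∈ X → ∀ d e, S.wd d = T → S.wd e = T →
        Relation.ReflTransGen (fun x y => S.wd y ∈ X ∧ (y = S.r x ∨ y = S.a x)) d e := by
      intro T hT d e hd he
      have h1 := steps_of_same S ((S.wd_eq d e).1 (hd.trans he.symm))
      clear he
      induction h1 with
      | refl => exact Relation.ReflTransGen.refl
      | tail h2 h3 ih =>
        rename_i b c
        refine Relation.ReflTransGen.tail ih ⟨?_, Or.inl h3⟩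
        have h4 : S.wd c = T := by
          rw [h3, wd_r]
          have : ∀ b, Relation.ReflTransGen (fun x y => y = S.r x) d b → S.wd b = T := by
            intro b hb
            induction hb with
            | refl => exact hd
            | tail _ h5 ih2 => rw [h5, wd_r]; exact ih2
          exact this b h2
        rw [h4]
        exact hT
    induction h with
    | refl => exact fun d e hd he => hword P hP d e hd he
    | tail h1 h2 ih =>
      rename_i T Q
      intro d e hd he
      obtain ⟨f, hf1, hf2⟩ := dual_adj S h2.1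
      refine (ih d f hd hf1).trans ?_
      refine Relation.ReflTransGen.head ⟨by rw [hf2]; exact h2.2, Or.inr rfl⟩ ?_
      exact hword Q h2.2 (S.a f) e hf2 he
  exact key _ _ (hX.2 _ hd _ he) hd d e rfl rfl

open Classical in
/-- the cells of a network of the dual graph -/
theorem cells_of_net {r B : ℕ} (S : Sf) (hS : S.Closed) {κ : Type} [Fintype κ] (cls : S.Wd → κ)
    (hub : κ → (Fin r → Fin B)) (cen : (Fin r → Fin B) → κ)
    (hconn : ∀ k, S.dual.Conn (Finset.univ.filter fun v => cls v = k))
    (hadj : ∀ k, k ≠ cen (hub k) → ∃ x y, cls x = k ∧ cls y = cen (hub k) ∧ S.dual.Adj x y)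
    (hc : ∀ h, hub (cen h) = h) (Th0 Th : ℕ)
    (hT : ∀ h, S.dual.vol (Finset.univ.filter fun v => hub (cls v) = h) ≤ Th)
    (hT0 : ∀ h, S.dual.vol (Finset.univ.filter fun v => cls v = cen h) ≤ Th0)
    (hl : ∀ h h' : Fin r → Fin B, (Finset.univ.filter fun i => h i ≠ h' i).card = 1 →
      ∃ x y, cls x = cen h ∧ cls y = cen h' ∧ S.dual.Adj x y) :
    Cells (R := r) (B := B) S Set.univ (fun d => hub (cls (S.wd d)))
      (fun d => if cls (S.wd d) = cen (hub (cls (S.wd d))) then 0 else 1)
      (fun d => (Fintype.equivFin κ (cls (S.wd d)) : ℕ)) Th0 Th := by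
  have hinj : ∀ d e, (Fintype.equivFin κ (cls (S.wd d)) : ℕ) = (Fintype.equivFin κ (cls (S.wd e)) : ℕ) →
      cls (S.wd d) = cls (S.wd e) := fun d e h => (Fintype.equivFin κ).injective (Fin.ext h)
  refine ⟨hS, ?_, ?_, ?_, ?_, ?_, ?_, ?_, fun _ => Set.mem_univ _, ?_, ?_⟩
  · intro d
    simp only [wd_r]
  · intro d e h
    have h1 := hinj d e h
    simp only [h1, and_self]
  · intro d e h
    have h1 := hinj d e h
    have h2 := conn_letters S (Finset.univ.filter fun v => cls v = cls (S.wd d)) (hconn _)
      (Finset.mem_filter.2 ⟨Finset.mem_univ _, rfl⟩) (Finset.mem_filter.2 ⟨Finset.mem_univ _, h1.symm⟩)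
    have h3 : ∀ x, Relation.ReflTransGen (fun x y => S.wd y ∈ (Finset.univ.filter fun v => cls v = cls (S.wd d)) ∧
        (y = S.r x ∨ y = S.a x)) d x → cls (S.wd x) = cls (S.wd d) ∧
        Relation.ReflTransGen (fun x y => (Fintype.equivFin κ (cls (S.wd y)) : ℕ) =
          (Fintype.equivFin κ (cls (S.wd x)) : ℕ) ∧ (y = S.r x ∨ y = S.a x)) d x := by
      intro x hx
      induction hx with
      | refl => exact ⟨rfl, Relation.ReflTransGen.refl⟩
      | tail _ h4 ih =>
        obtain ⟨h5, h6⟩ := h4
        have h7 := (Finset.mem_filter.1 h5).2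
        refine ⟨h7, Relation.ReflTransGen.tail ih.2 ⟨?_, h6⟩⟩
        rw [h7, ih.1]
    exact (h3 e h2).2
  · intro d
    split_ifs <;> omega
  · intro d e hd he h
    have hd1 : cls (S.wd d) = cen (hub (cls (S.wd d))) := by
      by_contra h1
      simp only [if_neg h1] at hd
      omega
    have he1 : cls (S.wd e) = cen (hub (cls (S.wd e))) := by
      by_contra h1
      simp only [if_neg h1] at he
      omega
    have h2 : cls (S.wd d) = cls (S.wd e) := by
      rw [hd1, he1]
      exact congrArg cen h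
    rw [h2]
  · intro d hd
    have h1 : cls (S.wd d) ≠ cen (hub (cls (S.wd d))) := by
      intro h1
      simp only [if_pos h1] at hd
      omega
    obtain ⟨x, y, hx, hy, hxy⟩ := hadj _ h1
    obtain ⟨e, he1, he2⟩ := dual_adj S hxy
    refine ⟨e, ?_, ?_, ?_⟩
    · rw [he1, hx]
    · rw [he2, hy, hc]
    · rw [if_neg h1, he2, hy, hc, if_pos rfl]
  · intro g _ h _ hgh
    have h1 : (Finset.univ.filter fun i => g i ≠ h i).card = 1 := by
      obtain ⟨i, hi1, hi2⟩ := hgh
      rw [Finset.card_eq_one]
      refine ⟨i, ?_⟩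
      ext j
      simp only [Finset.mem_filter, Finset.mem_univ, true_and, Finset.mem_singleton]
      constructor
      · intro hj
        by_contra hji
        exact hj (hi2 j hji)
      · rintro rfl
        exact hi1
    obtain ⟨x, y, hx, hy, hxy⟩ := hl g h h1
    obtain ⟨d, hd1, hd2⟩ := dual_adj S hxy
    refine ⟨d, ?_, ?_, ?_, ?_⟩
    · rw [hd1, hx, hc, if_pos rfl]
    · rw [hd1, hx, hc]
    · rw [hd2, hy, hc, if_pos rfl]
    · rw [hd2, hy, hc]
  · intro g
    have h1 := hT0 g
    rw [S.dual_vol] at h1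
    have h2 : {d | hub (cls (S.wd d)) = g ∧ (if cls (S.wd d) = cen (hub (cls (S.wd d))) then 0 else 1) = 0} =
        S.lets (Finset.univ.filter fun v => cls v = cen g) := by
      ext d
      simp only [Sf.lets, Set.mem_ofPred_eq, Finset.mem_filter, Finset.mem_univ, true_and]
      constructor
      · rintro ⟨h3, h4⟩
        by_contra h5
        rw [h3] at h4
        rw [if_neg h5] at h4
        omega
      · intro h3
        rw [h3, hc, if_pos rfl]
        exact ⟨rfl, rfl⟩
    rw [h2]
    exact_mod_cast h1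
  · intro g
    have h1 := hT g
    rw [S.dual_vol] at h1
    have h2 : {d | hub (cls (S.wd d)) = g} = S.lets (Finset.univ.filter fun v => hub (cls v) = g) := by
      ext d
      simp only [Sf.lets, Set.mem_ofPred_eq, Finset.mem_filter, Finset.mem_univ, true_and]
    rw [h2]
    exact_mod_cast h1

end Pool.Agent.GW
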