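import Mathlib

/-!
# Partition of a connected set into connected pieces of comparable weight

No trees: the connected set `S` of least cardinality such that its complement in `U` is
connected and its weight is at least `H` has weight at most `u + (d - 1) H`.
-/

namespace Pool.Agent.GW

open Finset

variable {V : Type*} [DecidableEq V]

/-- one step inside `U` -/
def StepIn (E : V → V → Prop) (U : Finset V) (a b : V) : Prop := E a b ∧ a ∈ U ∧ b ∈ U

/-- `U` is connected inside itself with respect to the relation `E` -/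
def Conn (E : V → V → Prop) (U : Finset V) : Prop :=
  ∀ x ∈ U, ∀ y ∈ U, Relation.ReflTransGen (StepIn E U) x y

theorem stepIn_mono {E : V → V → Prop} {S U : Finset V} (h : S ⊆ U) {a b : V}
    (hab : StepIn E S a b) : StepIn E U a b :=
  ⟨hab.1, h hab.2.1, h hab.2.2⟩

theorem rtg_mono {E : V → V → Prop} {S U : Finset V} (h : S ⊆ U) {a b : V}
    (hab : Relation.ReflTransGen (StepIn E S) a b) :
    Relation.ReflTransGen (StepIn E U) a b := by
  induction hab with
  | refl => exact Relation.ReflTransGen.refl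
  | tail _ hbc ih => exact ih.tail (stepIn_mono h hbc)

theorem rtg_symm {E : V → V → Prop} (hE : ∀ a b, E a b → E b a) {U : Finset V} {a b : V}
    (hab : Relation.ReflTransGen (StepIn E U) a b) :
    Relation.ReflTransGen (StepIn E U) b a := by
  induction hab with
  | refl => exact Relation.ReflTransGen.refl
  | tail _ hbc ih =>
    exact Relation.ReflTransGen.head ⟨hE _ _ hbc.1, hbc.2.2, hbc.2.1⟩ ih

/-- connected as soon as everything reaches one point -/
theorem conn_of_hub {E : V → V → Prop} (hE : ∀ a b, E a b → E b a) {U : Finset V} (x : V)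
    (h : ∀ a ∈ U, Relation.ReflTransGen (StepIn E U) a x) : Conn E U := by
  intro a ha b hb
  exact (h a ha).trans (rtg_symm hE (h b hb))

theorem conn_empty (E : V → V → Prop) : Conn E (∅ : Finset V) := by
  intro x hx
  simp at hx

theorem conn_singleton (E : V → V → Prop) (x : V) : Conn E ({x} : Finset V) := by
  intro a ha b hb
  rw [Finset.mem_singleton] at ha hb
  subst ha; subst hb
  exact Relation.ReflTransGen.refl

/-- a path from inside `S` to outside `S` uses an edge leaving `S` -/
theorem exists_exit {E : V → V → Prop} {U S : Finset V} {a b : V}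
    (hab : Relation.ReflTransGen (StepIn E U) a b) (ha : a ∈ S) (hb : b ∉ S) :
    ∃ x ∈ S, ∃ y, y ∉ S ∧ StepIn E U x y := by
  induction hab with
  | refl => exact absurd ha hb
  | @tail c d _ hcd ih =>
    by_cases hc : c ∈ S
    · exact ⟨c, hc, d, hb, hcd⟩
    · exact ih hc

open Classical in
/-- the component of `z` in `S` -/
noncomputable def comp (E : V → V → Prop) (S : Finset V) (z : V) : Finset V :=
  S.filter fun c => Relation.ReflTransGen (StepIn E S) c z

theorem sum_biUnion_le' {ι : Type*} [DecidableEq ι] (w : V → ℝ) (hw : ∀ x, 0 ≤ w x) (N : Finset ι)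
    (t : ι → Finset V) : ∑ z ∈ N.biUnion t, w z ≤ ∑ y ∈ N, ∑ z ∈ t y, w z := by
  induction N using Finset.induction_on with
  | empty => simp
  | insert a s ha ih =>
    rw [Finset.biUnion_insert, Finset.sum_insert ha]
    have h1 := Finset.sum_union_inter (s₁ := t a) (s₂ := s.biUnion t) (f := w)
    have h2 : 0 ≤ ∑ z ∈ t a ∩ s.biUnion t, w z := Finset.sum_nonneg fun z _ => hw z
    linarith

theorem mem_comp {E : V → V → Prop} {S : Finset V} {z c : V} :
    c ∈ comp E S z ↔ c ∈ S ∧ Relation.ReflTransGen (StepIn E S) c z := by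
  classical
  unfold comp
  simp only [Finset.mem_filter]

theorem comp_subset (E : V → V → Prop) (S : Finset V) (z : V) : comp E S z ⊆ S := by
  intro c hc
  exact (mem_comp.1 hc).1

theorem self_mem_comp {E : V → V → Prop} {S : Finset V} {z : V} (hz : z ∈ S) :
    z ∈ comp E S z := mem_comp.2 ⟨hz, Relation.ReflTransGen.refl⟩

/-- closed under steps of `S` (backwards) -/
theorem comp_closed {E : V → V → Prop} {S : Finset V} {z a b : V} (hb : b ∈ comp E S z)
    (hab : StepIn E S a b) : a ∈ comp E S z := by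
  rw [mem_comp] at hb ⊢
  exact ⟨hab.2.1, Relation.ReflTransGen.head hab hb.2⟩

theorem conn_comp {E : V → V → Prop} (hE : ∀ a b, E a b → E b a) (S : Finset V) (z : V) :
    Conn E (comp E S z) := by
  apply conn_of_hub hE z
  intro a ha
  have h1 := (mem_comp.1 ha).2
  induction h1 using Relation.ReflTransGen.head_induction_on with
  | refl => exact Relation.ReflTransGen.refl
  | @head a c hac hcz ih =>
    have hc : c ∈ comp E S z := mem_comp.2 ⟨hac.2.2, hcz⟩
    exact Relation.ReflTransGen.head ⟨hac.1, ha, hc⟩ (ih hc)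

section Pieces

variable {E : V → V → Prop} (hE : ∀ a b, E a b → E b a)

include hE in
/-- removing a component of `S - x` leaves `U` connected -/
theorem conn_sdiff_comp {U S : Finset V} (hSU : S ⊆ U) (hS : Conn E S) (hUS : Conn E (U \ S))
    {x : V} (hx : x ∈ S) (hxy : (U \ S).Nonempty → ∃ y ∈ U \ S, E x y) (z : V) :
    Conn E (U \ comp E (S.erase x) z) := by
  set C := comp E (S.erase x) z with hC
  have hCS : C ⊆ S.erase x := comp_subset _ _ _
  have hxC : x ∉ C := fun h => by
    have := hCS h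
    simp at this
  have hxU : x ∈ U \ C := Finset.mem_sdiff.2 ⟨hSU hx, hxC⟩
  apply conn_of_hub hE x
  intro a ha
  rw [Finset.mem_sdiff] at ha
  by_cases haS : a ∈ S
  · have h1 := hS a haS x hx
    have haC := ha.2
    clear ha
    induction h1 using Relation.ReflTransGen.head_induction_on with
    | refl => exact Relation.ReflTransGen.refl
    | @head a c hac hcx ih =>
      by_cases hax : a = x
      · subst hax; exact Relation.ReflTransGen.refl
      · by_cases hcx' : c = x
        · subst hcx'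
          exact Relation.ReflTransGen.single
            ⟨hac.1, Finset.mem_sdiff.2 ⟨hSU haS, haC⟩, hxU⟩
        · have hcC : c ∉ C := by
            intro hcC
            apply haC
            exact comp_closed hcC ⟨hac.1, Finset.mem_erase.2 ⟨hax, haS⟩,
              Finset.mem_erase.2 ⟨hcx', hac.2.2⟩⟩
          exact Relation.ReflTransGen.head
            ⟨hac.1, Finset.mem_sdiff.2 ⟨hSU haS, haC⟩,
              Finset.mem_sdiff.2 ⟨hSU hac.2.2, hcC⟩⟩ (ih hac.2.2 hcC)
  · have haUS : a ∈ U \ S := Finset.mem_sdiff.2 ⟨ha.1, haS⟩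
    obtain ⟨y, hy, hxy'⟩ := hxy ⟨a, haUS⟩
    have h1 := hUS a haUS y hy
    have hsub : U \ S ⊆ U \ C := by
      intro b hb
      rw [Finset.mem_sdiff] at hb ⊢
      refine ⟨hb.1, fun h => hb.2 ?_⟩
      exact Finset.mem_of_mem_erase (hCS h)
    exact (rtg_mono hsub h1).tail ⟨hE _ _ hxy', hsub hy, hxU⟩

/-- every point of `S - x` lies in the component of a neighbour of `x` -/
theorem mem_comp_nbr {S : Finset V} (hS : Conn E S) {x : V} (hx : x ∈ S) {z : V}
    (hz : z ∈ S.erase x) : ∃ y ∈ S.erase x, E y x ∧ z ∈ comp E (S.erase x) y := by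
  have hz' := Finset.mem_erase.1 hz
  have h1 := hS z hz'.2 x hx
  clear hz'
  induction h1 using Relation.ReflTransGen.head_induction_on with
  | refl => simp at hz
  | @head a c hac hcx ih =>
    by_cases hcx' : c = x
    · subst hcx'
      exact ⟨a, hz, hac.1, self_mem_comp hz⟩
    · have hc : c ∈ S.erase x := Finset.mem_erase.2 ⟨hcx', hac.2.2⟩
      obtain ⟨y, hy, hyx, hcy⟩ := ih hc
      exact ⟨y, hy, hyx, comp_closed hcy ⟨hac.1, hz, hc⟩⟩

open Classical in
include hE in
/-- the minimal connected piece -/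
theorem exists_piece {U : Finset V} (hU : Conn E U) (w : V → ℝ) (hw : ∀ x, 0 ≤ w x)
    {d : ℕ} (hd : ∀ x ∈ U, (U.filter fun y => E x y ∧ y ≠ x).card ≤ d) {H u : ℝ}
    (hH : 0 < H) (hu : ∀ x ∈ U, w x ≤ u) (hHU : H ≤ ∑ x ∈ U, w x) :
    ∃ S ⊆ U, S.Nonempty ∧ Conn E S ∧ Conn E (U \ S) ∧ H ≤ ∑ x ∈ S, w x ∧
      ((U \ S).Nonempty → ∑ x ∈ S, w x ≤ u + ((d : ℝ) - 1) * H) ∧
      ∑ x ∈ S, w x ≤ u + d * H := by
  -- the family of candidates
  set F := U.powerset.filter fun S => Conn E S ∧ Conn E (U \ S) ∧ H ≤ ∑ x ∈ S, w x with hF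
  have hFne : F.Nonempty := by
    refine ⟨U, ?_⟩
    rw [hF, Finset.mem_filter]
    refine ⟨Finset.mem_powerset_self U, hU, ?_, hHU⟩
    rw [Finset.sdiff_self]
    exact conn_empty E
  obtain ⟨S, hSF, hmin⟩ := Finset.exists_min_image F Finset.card hFne
  rw [hF, Finset.mem_filter, Finset.mem_powerset] at hSF
  obtain ⟨hSU, hS, hUS, hHS⟩ := hSF
  have hSne : S.Nonempty := by
    rw [Finset.nonempty_iff_ne_empty]
    intro h
    rw [h, Finset.sum_empty] at hHS
    linarith
  -- the cut vertex
  obtain ⟨x, hx, hxy⟩ : ∃ x ∈ S, (U \ S).Nonempty → ∃ y ∈ U \ S, E x y := by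
    by_cases hne : (U \ S).Nonempty
    · obtain ⟨b, hb⟩ := hne
      obtain ⟨a, ha⟩ := hSne
      rw [Finset.mem_sdiff] at hb
      obtain ⟨x, hx, y, hy, hxy⟩ := exists_exit (hU a (hSU ha) b hb.1) ha hb.2
      exact ⟨x, hx, fun _ => ⟨y, Finset.mem_sdiff.2 ⟨hxy.2.2, hy⟩, hxy.1⟩⟩
    · obtain ⟨a, ha⟩ := hSne
      exact ⟨a, ha, fun h => absurd h hne⟩
  -- components are light
  have hlight : ∀ y ∈ S.erase x, ∑ c ∈ comp E (S.erase x) y, w c ≤ H := by
    intro y hy
    by_contra hcon
    push Not at hcon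
    have hmem : comp E (S.erase x) y ∈ F := by
      rw [hF, Finset.mem_filter, Finset.mem_powerset]
      refine ⟨?_, conn_comp hE _ _, conn_sdiff_comp hE hSU hS hUS hx hxy y, hcon.le⟩
      intro c hc
      exact hSU (Finset.mem_of_mem_erase (comp_subset _ _ _ hc))
    have h1 := hmin _ hmem
    have h2 : (comp E (S.erase x) y).card ≤ (S.erase x).card :=
      Finset.card_le_card (comp_subset _ _ _)
    have h3 := Finset.card_erase_lt_of_mem hx
    omega
  -- the neighbours of x in S
  set N := (S.erase x).filter fun y => E y x with hN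
  have hcover : S.erase x ⊆ N.biUnion fun y => comp E (S.erase x) y := by
    intro z hz
    obtain ⟨y, hy, hyx, hzy⟩ := mem_comp_nbr hS hx hz
    rw [Finset.mem_biUnion]
    exact ⟨y, Finset.mem_filter.2 ⟨hy, hyx⟩, hzy⟩
  have hsum : ∑ z ∈ S, w z ≤ u + N.card * H := by
    have h1 : ∑ z ∈ S, w z = w x + ∑ z ∈ S.erase x, w z := by
      rw [Finset.add_sum_erase S w hx]
    have h2 : ∑ z ∈ S.erase x, w z ≤ ∑ y ∈ N, ∑ z ∈ comp E (S.erase x) y, w z := by
      refine le_trans (Finset.sum_le_sum_of_subset_of_nonneg hcover fun z _ _ => hw z) ?_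
      exact sum_biUnion_le' w hw N _
    have h3 : ∑ y ∈ N, ∑ z ∈ comp E (S.erase x) y, w z ≤ ∑ _y ∈ N, H :=
      Finset.sum_le_sum fun y hy => hlight y (Finset.mem_filter.1 hy).1
    rw [Finset.sum_const, nsmul_eq_mul] at h3
    have h4 := hu x (hSU hx)
    linarith
  have hNd : N.card ≤ d := by
    refine le_trans (Finset.card_le_card ?_) (hd x (hSU hx))
    intro y hy
    rw [hN, Finset.mem_filter, Finset.mem_erase] at hy
    rw [Finset.mem_filter]
    exact ⟨hSU hy.1.2, hE _ _ hy.2, hy.1.1⟩
  refine ⟨S, hSU, hSne, hS, hUS, hHS, ?_, ?_⟩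
  · intro hne
    obtain ⟨y, hy, hxy'⟩ := hxy hne
    have hN1 : N.card + 1 ≤ d := by
      have h5 : insert y N ⊆ U.filter fun y => E x y ∧ y ≠ x := by
        intro t ht
        rw [Finset.mem_insert] at ht
        rw [Finset.mem_filter]
        rcases ht with rfl | ht
        · rw [Finset.mem_sdiff] at hy
          exact ⟨hy.1, hxy', fun h => hy.2 (h ▸ hx)⟩
        · rw [hN, Finset.mem_filter, Finset.mem_erase] at ht
          exact ⟨hSU ht.1.2, hE _ _ ht.2, ht.1.1⟩
      have h6 : y ∉ N := by
        intro h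
        rw [hN, Finset.mem_filter, Finset.mem_erase] at h
        exact (Finset.mem_sdiff.1 hy).2 h.1.2
      have h7 := Finset.card_le_card h5
      rw [Finset.card_insert_of_notMem h6] at h7
      exact h7.trans (hd x (hSU hx))
    have h8 : (N.card : ℝ) ≤ d - 1 := by
      have : ((N.card + 1 : ℕ) : ℝ) ≤ d := by exact_mod_cast hN1
      push_cast at this
      linarith
    have h9 : (N.card : ℝ) * H ≤ (d - 1) * H := mul_le_mul_of_nonneg_right h8 hH.le
    linarith
  · have h8 : (N.card : ℝ) ≤ d := by exact_mod_cast hNd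
    have h9 : (N.card : ℝ) * H ≤ d * H := mul_le_mul_of_nonneg_right h8 hH.le
    linarith

include hE in
/-- partition of a connected set into connected pieces of comparable weight -/
theorem part_aux (w : V → ℝ) (hw : ∀ x, 0 ≤ w x) {d : ℕ} {H : ℝ} (hH : 0 < H) (n : ℕ) :
    ∀ U : Finset V, U.card ≤ n → Conn E U → (∀ x ∈ U, w x ≤ H) →
      (∀ x ∈ U, ∀ N : Finset V, (∀ y ∈ N, y ∈ U ∧ E x y ∧ y ≠ x) → N.card ≤ d) → H ≤ ∑ x ∈ U, w x →
      ∃ (m : ℕ) (Z : V → Fin m), ∀ i : Fin m, ∃ P : Finset V, (∀ v, v ∈ P ↔ v ∈ U ∧ Z v = i) ∧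
        P.Nonempty ∧ Conn E P ∧ H ≤ ∑ x ∈ P, w x ∧ ∑ x ∈ P, w x ≤ (d + 1) * H := by
  classical
  induction n with
  | zero =>
    intro U hc _ _ _ hHU
    have : U = ∅ := by
      rw [← Finset.card_eq_zero]; omega
    rw [this, Finset.sum_empty] at hHU
    linarith
  | succ n ih =>
    intro U hc hU hu hd hHU
    have hUne : U.Nonempty := by
      rw [Finset.nonempty_iff_ne_empty]
      intro h
      rw [h, Finset.sum_empty] at hHU
      linarith
    by_cases hbig : ∑ x ∈ U, w x ≤ (d + 1) * H
    · refine ⟨1, fun _ => 0, fun i => ⟨U, ?_, hUne, hU, hHU, hbig⟩⟩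
      intro v
      exact ⟨fun h => ⟨h, Subsingleton.elim _ _⟩, fun h => h.1⟩
    · push Not at hbig
      obtain ⟨S, hSU, hSne, hS, hUS, hHS, hS1, hS2⟩ := exists_piece hE hU w hw (d := d)
        (fun x hx => hd x hx _ fun y hy => by
          rw [Finset.mem_filter] at hy
          exact ⟨hy.1, hy.2.1, hy.2.2⟩) hH hu hHU
      have hsum : ∑ x ∈ U \ S, w x + ∑ x ∈ S, w x = ∑ x ∈ U, w x := Finset.sum_sdiff hSU
      have hne : (U \ S).Nonempty := by
        rw [Finset.nonempty_iff_ne_empty]
        intro h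
        rw [h, Finset.sum_empty] at hsum
        linarith
      have h1 := hS1 hne
      have hcard : (U \ S).card ≤ n := by
        have h2 := Finset.card_sdiff_add_card_eq_card hSU
        have h3 := hSne.card_pos
        omega
      obtain ⟨m, Z, hZ⟩ := ih (U \ S) hcard hUS (fun x hx => hu x (Finset.mem_sdiff.1 hx).1)
        (fun x hx N hN => hd x (Finset.mem_sdiff.1 hx).1 N fun y hy =>
          ⟨(Finset.mem_sdiff.1 (hN y hy).1).1, (hN y hy).2⟩) (by linarith)
      refine ⟨m + 1, fun v => if v ∈ S then Fin.last m else (Z v).castSucc, fun i => ?_⟩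
      induction i using Fin.lastCases with
      | last =>
        refine ⟨S, ?_, hSne, hS, hHS, by linarith⟩
        intro v
        by_cases hv : v ∈ S
        · simp [hv, hSU hv]
        · simp [hv, Fin.castSucc_ne_last]
      | cast i =>
        obtain ⟨P, hP, hPne, hPC, hPH, hPH2⟩ := hZ i
        refine ⟨P, ?_, hPne, hPC, hPH, hPH2⟩
        intro v
        rw [hP v, Finset.mem_sdiff]
        by_cases hv : v ∈ S
        · simp [hv, Fin.castSucc_ne_last, (Fin.castSucc_ne_last i).symm]
        · simp [hv]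

end Pieces

end Pool.Agent.GW
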