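import Pool.Agent.GW.Graph
import Pool.Agent.GW.Part

/-!
# GW.TreePart: connected pieces of comparable weight

PROOF (no trees, see `GW/Part`). Let `S` be the connected set of least cardinality with connected complement and weight
`≥ H`, `x ∈ S` a vertex with a neighbour outside of `S`. For every component `C` of `S - x` the complement of `C` is
connected, so `C` has weight `≤ H`; there are at most two components, so `S` has weight `≤ 3 H`. Cut `S` off and repeat.
-/

set_option autoImplicit false

namespace Pool.Agent.GW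

open Finset

namespace WG

variable {V : Type} [Fintype V] [DecidableEq V] (G : WG V)

open Classical in
theorem tree_part (f : V → ℝ) {H M : ℝ} (hf : ∀ v, 0 ≤ f v) (hM : ∀ v, f v ≤ M) (hMH : M ≤ H) (hH0 : 0 < H)
    (hconn : G.Conn univ) (hdeg : ∀ v, (univ.filter fun y => G.Adj v y).card ≤ 3) (hH : H ≤ ∑ v, f v) :
    ∃ (m : ℕ) (Z : V → Fin m), ∀ i, G.Conn (univ.filter fun v => Z v = i) ∧
      H ≤ ∑ v ∈ univ.filter (fun v => Z v = i), f v ∧ ∑ v ∈ univ.filter (fun v => Z v = i), f v ≤ 4 * H := by
  have hE : ∀ a b, G.Adj a b → G.Adj b a := fun a b h => h.symm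
  have hU : Pool.Agent.GW.Conn G.Adj (univ : Finset V) := by
    intro x hx y hy
    have h1 := hconn.2 x hx y hy
    induction h1 with
    | refl => exact Relation.ReflTransGen.refl
    | @tail b c _ hbc ih => exact (ih (mem_univ _)).tail ⟨hbc.1, mem_univ _, mem_univ _⟩
  obtain ⟨m, Z, hZ⟩ := part_aux hE f hf (d := 3) hH0 (Finset.card (univ : Finset V)) univ le_rfl hU
    (fun x _ => (hM x).trans hMH)
    (fun x _ N hN => le_trans (Finset.card_le_card fun y hy => by
      rw [Finset.mem_filter]
      exact ⟨mem_univ _, (hN y hy).2.1⟩) (hdeg x)) hH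
  refine ⟨m, Z, fun i => ?_⟩
  obtain ⟨P, hP, hPne, hPC, hPH, hPH2⟩ := hZ i
  have hPe : (univ.filter fun v => Z v = i) = P := by
    ext v
    rw [hP v, Finset.mem_filter]
  rw [hPe]
  refine ⟨⟨hPne, ?_⟩, hPH, ?_⟩
  · intro x hx y hy
    have h1 := hPC x hx y hy
    clear hy
    induction h1 with
    | refl => exact Relation.ReflTransGen.refl
    | tail _ hbc ih => exact ih.tail ⟨hbc.1, hbc.2.2⟩
  · norm_num at hPH2
    linarith

end WG

end Pool.Agent.GW
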