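import Pool.Agent.GW.NetA
import Pool.Agent.GW.Law
import Pool.Agent.GW.Embed
import Pool.Agent.GW.TreePart

/-!
# GW.NetG: the Hamming network in a weighted graph of large conductance (final statement for the dynamic part)

`cls v`: class of the vertex `v`; every class is connected.  Hubs are the words `h : Fin r → Fin B`; `cen h` is the centre of the
hub `h`, all other classes are satellites, `hub k` is the hub of the class `k`, every satellite is adjacent to its centre.

PROOF (from `Mix`, `Law`, `Embed`, `TreePart`).  `tree_part` with `f = om`: pieces `Z_i`, `i : Fin m`, of weight in `[H, 4H]`.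
`B` = largest natural number with `B ^ r ≤ m` (so `m < (B+1)^r ≤ 2^r B^r`), `lab i` = the word of the digits of `i mod B^r`,
`rep h` = the index `< B^r` with label `h`.  Pattern: `rep h ~ rep h'` at Hamming distance `1`, and `i ~ rep (lab i)` for `i ≥ B^r`.
Degrees `≤ deg = r B + 2^r`.  (If `B = 1` and `m = 1` the pattern is empty: one hub, its centre is one vertex.)
`embed` gives `C`.  Centre of `h`: all `v` with `C v = some i`, `lab i = h` (connected through the pairs `i ~ rep h`); it has at most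
`2^r deg (t+1)` vertices.  Satellites: connected components of `{v | Z v = k, C v = none}`; `Z_k` is connected and contains a vertex
of some centre, so the component is adjacent to a vertex `y` of a centre with `Z y = k`: attach it there.  The weight attached to
`h` is at most `4 H` times the number of vertices of the centre.
-/

set_option autoImplicit false

namespace Pool.Agent.GW

open Finset

namespace WG

variable {V : Type} [Fintype V] [DecidableEq V] (G : WG V)

/-- large conductance implies connectedness. -/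
theorem conn_of_cond [Nonempty V] {ψ : ℝ} (h0 : 0 < ψ) (hC : G.Cond ψ) (hom : ∀ x, 1 ≤ G.om x) : G.Conn univ := by
  classical
  refine ⟨univ_nonempty, fun x _ y _ => ?_⟩
  set X : Finset V := univ.filter fun z => Relation.ReflTransGen (fun a b => G.Adj a b ∧ b ∈ (univ : Finset V)) x z with hX
  have hxX : x ∈ X := mem_filter.2 ⟨mem_univ x, Relation.ReflTransGen.refl⟩
  by_contra hy
  have hyX : y ∈ Xᶜ := by
    rw [mem_compl, hX, mem_filter]
    exact fun h => hy h.2
  have hcut : G.cut X = 0 := by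
    unfold cut ee
    refine sum_eq_zero fun a ha => sum_eq_zero fun b hb => ?_
    by_contra hw
    have hab : G.Adj a b := by
      refine ⟨?_, lt_of_le_of_ne (G.nonneg a b) (Ne.symm hw)⟩
      rintro rfl
      exact (mem_compl.1 hb) ha
    exact (mem_compl.1 hb) (mem_filter.2 ⟨mem_univ b, (mem_filter.1 ha).2.tail ⟨hab, mem_univ b⟩⟩)
  have hpos : ∀ Y : Finset V, ∀ z ∈ Y, 0 < G.vol Y := by
    intro Y z hz
    have h1 : G.om z ≤ G.vol Y := single_le_sum (fun w _ => G.om_nonneg w) hz
    linarith [hom z]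
  have h1 := hpos X x hxX
  have h2 := hpos Xᶜ y hyX
  have h3 := G.vol_add_compl X
  rcases le_total (G.vol X) (G.vol Xᶜ) with h4 | h4
  · have h5 := hC X (by linarith)
    rw [hcut] at h5
    have := mul_pos h0 h1
    linarith
  · have h5 := hC Xᶜ (by linarith)
    rw [G.cut_compl, hcut] at h5
    have := mul_pos h0 h2
    linarith

open Classical in
theorem net [Nonempty V] {r : ℕ} (hr : 1 ≤ r) {ψ M H : ℝ} (h0 : 0 < ψ) (h1 : ψ ≤ 1) (hC : G.Cond ψ)
    (hom : ∀ x, 1 ≤ G.om x)
    (hM : ∀ x, G.om x ≤ M) (hdeg : ∀ v, (univ.filter fun y => G.Adj v y).card ≤ 3) {t : ℕ}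
    (ht : 8 * Real.log (2 * G.vol univ) ≤ ψ ^ 2 * t)
    (hH : 10 ^ 4 * (r * G.vol univ ^ (1 / (r : ℝ)) + 2 ^ r) ^ 2 * (t + 1) ^ 2 * M ≤ H) (hHW : H ≤ G.vol univ) :
    ∃ (B : ℕ) (κ : Type) (_ : Fintype κ) (_ : DecidableEq κ) (cls : V → κ) (hub : κ → (Fin r → Fin B))
      (cen : (Fin r → Fin B) → κ),
      1 ≤ B ∧ H * (B : ℝ) ^ r ≤ G.vol univ ∧ G.vol univ ≤ 4 * H * ((B : ℝ) + 1) ^ r ∧
      (∀ h, hub (cen h) = h) ∧
      (∀ k, G.Conn (univ.filter fun v => cls v = k)) ∧
      (∀ k, k ≠ cen (hub k) → ∃ x y, cls x = k ∧ cls y = cen (hub k) ∧ G.Adj x y) ∧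
      (∀ h, G.vol (univ.filter fun v => hub (cls v) = h) ≤ 5 * 2 ^ r * (r * B + 2 ^ r) * (t + 1) * H) ∧
      (∀ h, G.vol (univ.filter fun v => cls v = cen h) ≤ 2 ^ r * (r * B + 2 ^ r) * (t + 1) * M) ∧
      ∀ h h' : Fin r → Fin B, (univ.filter fun i => h i ≠ h' i).card = 1 →
        ∃ x y, cls x = cen h ∧ cls y = cen h' ∧ G.Adj x y := by
  have v0 : V := Classical.arbitrary V
  have hM1 : 1 ≤ M := (hom v0).trans (hM v0)
  have hr0 : r ≠ 0 := by omega
  have hvol0 : 0 ≤ G.vol univ := G.vol_nonneg _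
  set Q : ℝ := r * G.vol univ ^ (1 / (r : ℝ)) + 2 ^ r with hQ
  have hQ1 : 1 ≤ Q := by
    have e1 : (0 : ℝ) ≤ r * G.vol univ ^ (1 / (r : ℝ)) := by positivity
    have e2 : (1 : ℝ) ≤ 2 ^ r := one_le_pow₀ (by norm_num)
    linarith
  have hMH : M ≤ H := by
    refine le_trans ?_ hH
    have e1 : (1 : ℝ) ≤ Q ^ 2 := one_le_pow₀ hQ1
    have e2 : (1 : ℝ) ≤ ((t : ℝ) + 1) ^ 2 := one_le_pow₀ (by linarith [Nat.cast_nonneg (α := ℝ) t])
    have e3 : (1 : ℝ) ≤ 10 ^ 4 * Q ^ 2 * ((t : ℝ) + 1) ^ 2 := by nlinarith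
    nlinarith
  have hH1 : 1 ≤ H := hM1.trans hMH
  have hconn : G.Conn univ := G.conn_of_cond h0 hC hom
  obtain ⟨m, Z, hZ⟩ := G.tree_part G.om G.om_nonneg hM hMH (by linarith) hconn hdeg hHW
  have hm1 : 1 ≤ m := Nat.one_le_iff_ne_zero.2 (by
    rintro rfl
    exact (Z v0).elim0)
  have hZ1 : ∀ i, G.Conn (univ.filter fun v => Z v = i) := fun i => (hZ i).1
  have hZ2 : ∀ i, H ≤ G.vol (univ.filter fun v => Z v = i) := fun i => (hZ i).2.1
  have hZ3 : ∀ i, G.vol (univ.filter fun v => Z v = i) ≤ 4 * H := fun i => (hZ i).2.2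
  have hsum : ∑ i, G.vol (univ.filter fun v => Z v = i) = G.vol univ := by
    unfold vol
    exact sum_fiberwise univ Z G.om
  have hmH : (m : ℝ) * H ≤ G.vol univ := by
    rw [← hsum]
    calc (m : ℝ) * H = ∑ _i : Fin m, H := by rw [sum_const, nsmul_eq_mul, card_univ, Fintype.card_fin]
      _ ≤ _ := sum_le_sum fun i _ => hZ2 i
  have hmH' : G.vol univ ≤ 4 * H * m := by
    rw [← hsum]
    calc ∑ i, G.vol (univ.filter fun v => Z v = i) ≤ ∑ _i : Fin m, 4 * H := sum_le_sum fun i _ => hZ3 i
      _ = 4 * H * m := by rw [sum_const, nsmul_eq_mul, card_univ, Fintype.card_fin]; ring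
  -- the number of digits
  set B : ℕ := Nat.findGreatest (fun b => b ^ r ≤ m) m with hB
  have hB1 : 1 ≤ B := Nat.le_findGreatest hm1 (by simpa using hm1)
  have hBm : B ^ r ≤ m := Nat.findGreatest_spec (P := fun b => b ^ r ≤ m) hm1 (by simpa using hm1)
  have hBm' : m < (B + 1) ^ r := by
    by_contra h
    push Not at h
    have h2 : B + 1 ≤ (B + 1) ^ r := Nat.le_self_pow hr0 _
    have h3 : B + 1 ≤ B := Nat.le_findGreatest (P := fun b => b ^ r ≤ m) (h2.trans h) h
    omega
  have hm2 : m ≤ 2 ^ r * B ^ r := by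
    refine hBm'.le.trans ?_
    rw [← mul_pow]
    exact Nat.pow_le_pow_left (by omega) r
  have hBr : (B : ℝ) ≤ G.vol univ ^ (1 / (r : ℝ)) := by
    have e1 : ((B : ℝ) ^ r) ^ ((r : ℝ)⁻¹) = B := Real.pow_rpow_inv_natCast (Nat.cast_nonneg B) hr0
    rw [one_div, ← e1]
    refine Real.rpow_le_rpow (by positivity) ?_ (by positivity)
    have e2 : (B : ℝ) ^ r ≤ m := by exact_mod_cast hBm
    have e3 : (m : ℝ) * 1 ≤ m * H := mul_le_mul_of_nonneg_left hH1 (Nat.cast_nonneg m)
    linarith
  have hineq1 : H * (B : ℝ) ^ r ≤ G.vol univ := by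
    have e2 : (B : ℝ) ^ r ≤ m := by exact_mod_cast hBm
    have e3 : H * (B : ℝ) ^ r ≤ H * m := mul_le_mul_of_nonneg_left e2 (by linarith)
    linarith
  have hineq2 : G.vol univ ≤ 4 * H * ((B : ℝ) + 1) ^ r := by
    have e2 : (m : ℝ) ≤ ((B : ℝ) + 1) ^ r := by exact_mod_cast hBm'.le
    have e3 : 4 * H * (m : ℝ) ≤ 4 * H * ((B : ℝ) + 1) ^ r := mul_le_mul_of_nonneg_left e2 (by linarith)
    linarith
  -- labels
  have hcard : Fintype.card (Fin r → Fin B) = B ^ r := by simp
  set e : (Fin r → Fin B) ≃ Fin (B ^ r) := Fintype.equivFinOfCardEq hcard with he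
  have hBpos : 0 < B ^ r := Nat.pow_pos hB1
  set rep : (Fin r → Fin B) → Fin m := fun h => ⟨(e h).val, lt_of_lt_of_le (e h).2 hBm⟩ with hrep
  set lab : Fin m → (Fin r → Fin B) := fun i => e.symm ⟨i.val % B ^ r, Nat.mod_lt _ hBpos⟩ with hlab
  have hlr : ∀ h, lab (rep h) = h := by
    intro h
    simp only [hlab, hrep]
    rw [Equiv.symm_apply_eq]
    apply Fin.ext
    exact Nat.mod_eq_of_lt (e h).2
  have hfib : ∀ h, (univ.filter fun i => lab i = h).card ≤ 2 ^ r := by
    intro h
    rw [← card_range (2 ^ r)]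
    refine card_le_card_of_injOn (fun i => i.val / B ^ r) ?_ ?_
    · intro i _
      rw [mem_coe, mem_range]
      refine Nat.div_lt_of_lt_mul ?_
      have := i.2
      rw [mul_comm]
      omega
    · intro i hi j hj hij
      have h2 : lab i = lab j := (mem_filter.1 hi).2.trans (mem_filter.1 hj).2.symm
      have h3 := e.symm.injective h2
      have h4 : i.val % B ^ r = j.val % B ^ r := congrArg Fin.val h3
      apply Fin.ext
      have h5 : i.val / B ^ r = j.val / B ^ r := hij
      rw [← Nat.div_add_mod i.val (B ^ r), ← Nat.div_add_mod j.val (B ^ r), h4, h5]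
  -- the pattern
  set P : Fin m → Fin m → Prop := fun i j => i ≠ j ∧
    ((i = rep (lab i) ∧ j = rep (lab j) ∧ (univ.filter fun c => lab i c ≠ lab j c).card = 1) ∨
      (lab i = lab j ∧ (i = rep (lab i) ∨ j = rep (lab j)))) with hP
  have hsym : ∀ i j, P i j → P j i := by
    rintro i j ⟨h2, h3⟩
    refine ⟨h2.symm, ?_⟩
    rcases h3 with ⟨h4, h5, h6⟩ | ⟨h4, h5⟩
    · left
      refine ⟨h5, h4, ?_⟩
      rw [← h6]
      congr 1
      ext c
      simp [ne_comm]
    · exact Or.inr ⟨h4.symm, h5.symm⟩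
  have hirr : ∀ i, ¬ P i i := fun i h => h.1 rfl
  have hPrep : ∀ i, i ≠ rep (lab i) → P i (rep (lab i)) := by
    intro i hi
    exact ⟨hi, Or.inr ⟨(hlr _).symm, Or.inr (by rw [hlr])⟩⟩
  have hPham : ∀ h h' : Fin r → Fin B, (univ.filter fun i => h i ≠ h' i).card = 1 → P (rep h) (rep h') := by
    intro h h' hh
    refine ⟨?_, Or.inl ⟨by rw [hlr], by rw [hlr], by rw [hlr, hlr]; exact hh⟩⟩
    intro h2
    have h3 : h = h' := by rw [← hlr h, h2, hlr]
    rw [h3] at hh
    simp at hh
  have hlow : ¬ (B = 1 ∧ m = 1) → ∀ i, ∃ j, P i j := by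
    intro hone i
    by_cases hi : i = rep (lab i)
    · by_cases hB2 : B = 1
      · have hm3 : m ≠ 1 := fun h => hone ⟨hB2, h⟩
        have hnt : Nontrivial (Fin m) := Fin.nontrivial_iff_two_le.2 (by omega)
        obtain ⟨j, hj⟩ := exists_ne i
        refine ⟨j, hj.symm, Or.inr ⟨?_, Or.inl hi⟩⟩
        funext c
        apply Fin.ext
        have h2 := (lab i c).2
        have h3 := (lab j c).2
        omega
      · have hnt : Nontrivial (Fin B) := Fin.nontrivial_iff_two_le.2 (by omega)
        obtain ⟨b, hb⟩ := exists_ne (lab i ⟨0, hr⟩)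
        refine ⟨rep (Function.update (lab i) ⟨0, hr⟩ b), ?_⟩
        have h2 := hPham (lab i) (Function.update (lab i) ⟨0, hr⟩ b) (by
          rw [card_eq_one]
          refine ⟨⟨0, hr⟩, ?_⟩
          ext c
          rw [mem_filter, mem_singleton]
          constructor
          · rintro ⟨_, h3⟩
            by_contra h4
            exact h3 (by rw [Function.update_of_ne h4])
          · rintro rfl
            refine ⟨mem_univ _, ?_⟩
            rw [Function.update_self]
            exact hb.symm)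
        rwa [← hi] at h2
    · exact ⟨_, hPrep i hi⟩
  have hPdeg : ∀ i, (univ.filter fun j => P i j).card ≤ r * B + 2 ^ r := by
    intro i
    have h2 : (univ.filter fun j => P i j) ⊆
        ((univ : Finset (Fin r × Fin B)).image fun c => rep (Function.update (lab i) c.1 c.2)) ∪
          univ.filter fun j => lab j = lab i := by
      intro j hj
      obtain ⟨h3, h4⟩ := (mem_filter.1 hj).2
      rw [mem_union]
      rcases h4 with ⟨_, h5, h6⟩ | ⟨h5, _⟩
      · left
        obtain ⟨c, hc⟩ := card_eq_one.1 h6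
        rw [mem_image]
        refine ⟨(c, lab j c), mem_univ _, ?_⟩
        have h7 : Function.update (lab i) c (lab j c) = lab j := by
          funext d
          by_cases hd : d = c
          · rw [hd, Function.update_self]
          · rw [Function.update_of_ne hd]
            by_contra h8
            have h9 : d ∈ (univ.filter fun c => lab i c ≠ lab j c) := mem_filter.2 ⟨mem_univ _, h8⟩
            rw [hc, mem_singleton] at h9
            exact hd h9
        show rep (Function.update (lab i) c (lab j c)) = j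
        rw [h7]
        exact h5.symm
      · right
        exact mem_filter.2 ⟨mem_univ _, h5.symm⟩
    refine (card_le_card h2).trans ((card_union_le _ _).trans ?_)
    refine Nat.add_le_add ?_ (hfib _)
    refine card_image_le.trans ?_
    rw [card_univ, Fintype.card_prod, Fintype.card_fin, Fintype.card_fin]
  obtain ⟨μ, hμ0, hμ1, hμ2, hμ3⟩ := G.walk_law h0 h1 hC hom ht
  have hdegH : 10 ^ 4 * (((r * B + 2 ^ r : ℕ) : ℝ)) ^ 2 * (t + 1) ^ 2 * M ≤ H := by
    refine le_trans ?_ hH
    have e1 : ((r * B + 2 ^ r : ℕ) : ℝ) ≤ Q := by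
      push_cast
      rw [hQ]
      have := mul_le_mul_of_nonneg_left hBr (Nat.cast_nonneg (α := ℝ) r)
      linarith
    have e2 : (((r * B + 2 ^ r : ℕ) : ℝ)) ^ 2 ≤ Q ^ 2 := pow_le_pow_left₀ (Nat.cast_nonneg _) e1 2
    have e3 : 0 ≤ M := by linarith
    gcongr
  obtain ⟨C, hC1, hC2, hC3, hC4⟩ : ∃ C : V → Option (Fin m),
      (∀ i, G.Conn (univ.filter fun v => C v = some i)) ∧
      (∀ i, (univ.filter fun v => C v = some i).card ≤ (r * B + 2 ^ r) * (t + 1)) ∧
      (∀ i, ∃ v, C v = some i ∧ Z v = i) ∧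
      ∀ i j, P i j → ∃ x y, C x = some i ∧ C y = some j ∧ G.Adj x y := by
    by_cases hone : B = 1 ∧ m = 1
    · -- one vertex is the centre
      have hsub : Subsingleton (Fin m) := by
        rw [hone.2]
        infer_instance
      have hset : ∀ i, (univ.filter fun v => (if v = v0 then some (Z v0) else none) = some i) = {v0} := by
        intro i
        ext v
        rw [mem_filter, mem_singleton]
        constructor
        · rintro ⟨_, hv⟩
          by_contra h
          rw [if_neg h] at hv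
          exact absurd hv (by simp)
        · rintro rfl
          exact ⟨mem_univ _, by rw [if_pos rfl]; exact congrArg some (Subsingleton.elim _ _)⟩
      refine ⟨fun v => if v = v0 then some (Z v0) else none, ?_, ?_, ?_, ?_⟩
      · intro i
        rw [hset]
        refine ⟨singleton_nonempty _, fun x hx y hy => ?_⟩
        rw [mem_singleton.1 hx, mem_singleton.1 hy]
      · intro i
        rw [hset, card_singleton]
        have : 0 < 2 ^ r := Nat.pow_pos (by norm_num)
        exact Nat.mul_pos (by omega) (by omega)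
      · intro i
        exact ⟨v0, (if_pos rfl).trans (congrArg some (Subsingleton.elim _ _)), Subsingleton.elim _ _⟩
      · intro i j hij
        exact absurd (Subsingleton.elim i j) hij.1
    · exact G.embed P hsym hirr (hlow hone) (fun i => by convert hPdeg i) Z hM (fun v => by linarith [hom v]) hZ2 hdegH
        μ hμ0 hμ1 hμ2 hμ3
  obtain ⟨κ, hfκ, cls, hub, cen, k1, k2, k3, k4, k6, k5⟩ := G.net_asm Z C lab rep hlr hZ1 hZ3 hC1 hC2 hfib hC3
    (fun i hi => by
      obtain ⟨x, y, hx, hy, hxy⟩ := hC4 i (rep (lab i)) (hPrep i hi)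
      exact ⟨x, y, hx, hy, hxy⟩)
  refine ⟨B, κ, hfκ, Classical.decEq κ, cls, hub, cen, hB1, hineq1, hineq2, k1, ?_, k3, ?_, ?_, ?_⟩
  · intro k
    convert k2 k
  · intro h
    refine le_trans (le_of_eq ?_) ((k4 h).trans ?_)
    · congr
    · push_cast
      have e0 : (0 : ℝ) ≤ 2 ^ r * ((r : ℝ) * B + 2 ^ r) * ((t : ℝ) + 1) * H := by positivity
      nlinarith
  · intro h
    have e1 : G.vol (univ.filter fun v => cls v = cen h) ≤ ((univ.filter fun v => cls v = cen h).card : ℝ) * M := by
      unfold vol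
      rw [← nsmul_eq_mul, ← sum_const]
      exact sum_le_sum fun v _ => hM v
    have e2 : ((univ.filter fun v => cls v = cen h).card : ℝ) ≤ 2 ^ r * ((r : ℝ) * B + 2 ^ r) * ((t : ℝ) + 1) := by
      have e3 := k6 h
      have e4 : (univ.filter fun v => cls v = cen h).card ≤ 2 ^ r * ((r * B + 2 ^ r) * (t + 1)) := by
        convert e3
      have e5 : ((univ.filter fun v => cls v = cen h).card : ℝ) ≤ ((2 ^ r * ((r * B + 2 ^ r) * (t + 1)) : ℕ) : ℝ) := by
        exact_mod_cast e4
      push_cast at e5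
      linarith
    have e6 : 0 ≤ M := by linarith
    have e7 := mul_le_mul_of_nonneg_right e2 e6
    refine le_trans (le_of_eq ?_) (e1.trans e7)
    congr
  · intro h h' hh
    obtain ⟨x, y, hx, hy, hxy⟩ := hC4 (rep h) (rep h') (hPham h h' hh)
    refine ⟨x, y, ?_, ?_, hxy⟩
    · rw [k5 x _ hx, hlr]
    · rw [k5 y _ hy, hlr]

end WG

end Pool.Agent.GW
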