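import Mathlib

/-!
# GW/NumA (helper90): numbers of T1, elementary steps (MP_37d33d_gt)
-/

set_option autoImplicit false

namespace Pool.Agent.GW

private theorem na_aux {B q p s r : ℕ} (hq : 2 ≤ q) (hp : 1 ≤ p) (hB : q * (2 * p * (r * s + s + 10)) ≤ B) :
    ∃ K M : ℕ, 3 ≤ M ∧ M * p ≤ K ∧ p * (r * s + 6) ≤ K ∧ q * (s + K + 10) ≤ 2 * B ∧ 1 ≤ K ∧ K + 1 ≤ B ∧
      B ≤ 8 * q * p * M := by
  have h3 : 3 ≤ B / q / p := by
    rw [Nat.le_div_iff_mul_le (by omega), Nat.le_div_iff_mul_le (by omega)]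
    refine le_trans ?_ hB
    have h1 : 3 ≤ 2 * (r * s + s + 10) := by omega
    calc 3 * p * q ≤ 2 * (r * s + s + 10) * p * q := Nat.mul_le_mul_right _ (Nat.mul_le_mul_right _ h1)
      _ = q * (2 * p * (r * s + s + 10)) := by ring
  have h4 : p * (r * s + 6) ≤ B / q := by
    rw [Nat.le_div_iff_mul_le (by omega)]
    refine le_trans ?_ hB
    have h1 : r * s + 6 ≤ 2 * (r * s + s + 10) := by omega
    calc p * (r * s + 6) * q ≤ p * (2 * (r * s + s + 10)) * q :=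
          Nat.mul_le_mul_right _ (Nat.mul_le_mul_left _ h1)
      _ = q * (2 * p * (r * s + s + 10)) := by ring
  have h5 : q * (s + 10) ≤ B := by
    refine le_trans ?_ hB
    refine Nat.mul_le_mul_left _ ?_
    have h1 : s + 10 ≤ 2 * (r * s + s + 10) := by omega
    calc s + 10 ≤ 1 * (2 * (r * s + s + 10)) := by omega
      _ ≤ p * (2 * (r * s + s + 10)) := Nat.mul_le_mul_right _ hp
      _ = 2 * p * (r * s + s + 10) := by ring
  have h6 : q * (B / q) ≤ B := Nat.mul_div_le _ _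
  have hB1 : q ≤ B := le_trans (Nat.le_mul_of_pos_right _ (by omega)) h5
  refine ⟨B / q, B / q / p, h3, Nat.div_mul_le_self _ _, h4, ?_, ?_, ?_, ?_⟩
  · have h7 : q * (s + B / q + 10) = q * (s + 10) + q * (B / q) := by ring
    omega
  · exact (Nat.le_div_iff_mul_le (by omega)).mpr (by omega)
  · have : B / q < B := Nat.div_lt_self (by omega) (by omega)
    omega
  · have h1 : B < q * (B / q + 1) := by
      have := Nat.lt_mul_div_succ B (show 0 < q by omega)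
      simpa [Nat.succ_eq_add_one] using this
    have h2 : B / q < p * (B / q / p + 1) := by
      have := Nat.lt_mul_div_succ (B / q) (show 0 < p by omega)
      simpa [Nat.succ_eq_add_one] using this
    have h7 : B / q + 1 ≤ 2 * p * (B / q / p) := by
      have h8 : p * (B / q / p + 1) ≤ p * (2 * (B / q / p)) := Nat.mul_le_mul_left _ (by omega)
      have h9 : p * (2 * (B / q / p)) = 2 * p * (B / q / p) := by ring
      omega
    have h8 : q * (B / q + 1) ≤ q * (2 * p * (B / q / p)) := Nat.mul_le_mul_left _ h7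
    have h9 : 8 * q * p * (B / q / p) = 4 * (q * (2 * p * (B / q / p))) := by ring
    omega

/-- choice of the number of links -/
theorem na_links {r b B : ℕ} (hB : 128 * (r + 3) ^ 2 * (2 * 4 ^ (b + 1) * (r * (r * b + b + 512 * (2 * r + 5)) +
      (r * b + b + 512 * (2 * r + 5)) + 10)) ≤ B) :
    ∃ K M : ℕ, 3 ≤ M ∧ M * 4 ^ (b + 1) ≤ K ∧ 4 ^ (b + 1) * (r * (r * b + b + 512 * (2 * r + 5)) + 6) ≤ K ∧
      64 * (r + 3) ^ 2 * (r * b + b + 512 * (2 * r + 5) + K + 10) ≤ B ∧ 1 ≤ K ∧ K + 1 ≤ B ∧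
      B ≤ 1024 * (r + 3) ^ 2 * 4 ^ (b + 1) * M := by
  have h128 : 2 ≤ 128 * (r + 3) ^ 2 := le_trans (by norm_num) (Nat.le_mul_of_pos_right 128 (by positivity))
  obtain ⟨K, M, h1, h2, h3, h4, h5, h6, h7⟩ := na_aux h128 (Nat.one_le_pow _ _ (by norm_num)) hB
  refine ⟨K, M, h1, h2, h3, ?_, h5, h6, ?_⟩
  · have e : 128 * (r + 3) ^ 2 * (r * b + b + 512 * (2 * r + 5) + K + 10) =
        2 * (64 * (r + 3) ^ 2 * (r * b + b + 512 * (2 * r + 5) + K + 10)) := by ring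
    rw [e] at h4
    exact Nat.le_of_mul_le_mul_left h4 (by norm_num)
  · have e : 8 * (128 * (r + 3) ^ 2) * 4 ^ (b + 1) * M = 1024 * (r + 3) ^ 2 * 4 ^ (b + 1) * M := by ring
    rw [← e]
    exact h7

/-- choice of `m, W, Q, T` -/
theorem na_time {W0 κ : ℕ} {X l : ℝ} (hX : 1 ≤ X) (hl : 1 ≤ l) (hκ : 1024 * (κ : ℝ) ≤ X)
    (hlog : 2 * Real.log (2 * W0 + 8 * (Real.sqrt (W0 * l * X) + 8 * l * X)) + 4 ≤ l) :
    ∃ m W Q T : ℕ, 512 * κ + 1 ≤ m ∧ W0 + T * (1024 * κ) ≤ W ∧ W < 8 * m * Q ∧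
      (Q : ℝ) ^ 2 * (2 * Real.log W + 3) ≤ T ∧ (T : ℝ) * X ≤ Q * m ∧
      (m : ℝ) ≤ Real.sqrt (W0 * l * X) + 8 * l * X := by
  set s : ℝ := Real.sqrt (W0 * l * X) with hs
  have hs0 : 0 ≤ s := Real.sqrt_nonneg _
  have hW00 : (0 : ℝ) ≤ W0 := Nat.cast_nonneg _
  have hlX : 1 ≤ l * X := one_le_mul_of_one_le_of_one_le hl hX
  have hss : s ^ 2 = W0 * l * X := Real.sq_sqrt (by positivity)
  obtain ⟨m1, hm1, hm1'⟩ : ∃ m1 : ℕ, s ≤ m1 ∧ (m1 : ℝ) < s + 1 := ⟨⌈s⌉₊, Nat.le_ceil _, Nat.ceil_lt_add_one hs0⟩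
  obtain ⟨m2, hm2, hm2'⟩ : ∃ m2 : ℕ, 4 * l * X ≤ m2 ∧ (m2 : ℝ) < 4 * l * X + 1 :=
    ⟨⌈4 * l * X⌉₊, Nat.le_ceil _, Nat.ceil_lt_add_one (by positivity)⟩
  set m : ℕ := m1 + m2 + (512 * κ + 1) with hm
  have hmR : (m : ℝ) = m1 + m2 + (512 * κ + 1) := by rw [hm]; push_cast; ring
  have hms : s ≤ m := by
    rw [hmR]
    have : (0 : ℝ) ≤ m2 := Nat.cast_nonneg _
    have : (0 : ℝ) ≤ κ := Nat.cast_nonneg _
    linarith
  have hm4 : 4 * (l * X) ≤ m := by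
    rw [hmR]
    have : (0 : ℝ) ≤ m1 := Nat.cast_nonneg _
    have : (0 : ℝ) ≤ κ := Nat.cast_nonneg _
    nlinarith
  have hmle : (m : ℝ) ≤ s + 8 * l * X := by
    rw [hmR]
    nlinarith
  have hmpos : (0 : ℝ) < m := by linarith
  set W : ℕ := 2 * W0 + 8 * m with hW
  have hWR : (W : ℝ) = 2 * W0 + 8 * m := by rw [hW]; push_cast; ring
  have hm0 : 0 < m := by rw [hm]; omega
  have hW1 : (1 : ℝ) ≤ W := by
    have : 1 ≤ W := by rw [hW]; omega
    exact_mod_cast this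
  have hlogW : 2 * Real.log W + 4 ≤ l := by
    refine le_trans ?_ hlog
    have : Real.log W ≤ Real.log (2 * W0 + 8 * (s + 8 * l * X)) := by
      apply Real.log_le_log (by linarith)
      rw [hWR]; linarith
    linarith
  set Q : ℕ := W / (8 * m) + 1 with hQ
  have hQW : W < 8 * m * Q := by
    have := Nat.lt_mul_div_succ W (show 0 < 8 * m by omega)
    simpa [hQ, Nat.succ_eq_add_one] using this
  have hQ1 : (1 : ℝ) ≤ Q := by
    have : 1 ≤ Q := by rw [hQ]; exact Nat.le_add_left 1 _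
    exact_mod_cast this
  have hQm : (Q : ℝ) * m ≤ W0 / 4 + 2 * m := by
    have h1 : 8 * m * (W / (8 * m)) ≤ W := Nat.mul_div_le _ _
    have h2 : (8 : ℝ) * m * ((W / (8 * m) : ℕ) : ℝ) ≤ W := by exact_mod_cast h1
    have h3 : (Q : ℝ) = ((W / (8 * m) : ℕ) : ℝ) + 1 := by rw [hQ]; push_cast; ring
    rw [h3]
    rw [hWR] at h2
    nlinarith
  set T : ℕ := ⌈(Q : ℝ) ^ 2 * (2 * Real.log W + 3)⌉₊ with hT
  have hlogn : 0 ≤ Real.log W := Real.log_nonneg hW1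
  have hT1 : (Q : ℝ) ^ 2 * (2 * Real.log W + 3) ≤ T := Nat.le_ceil _
  have hT2 : (T : ℝ) ≤ Q ^ 2 * l := by
    have h1 : (T : ℝ) < (Q : ℝ) ^ 2 * (2 * Real.log W + 3) + 1 := Nat.ceil_lt_add_one (by positivity)
    have h2 : (1 : ℝ) ≤ (Q : ℝ) ^ 2 := one_le_pow₀ hQ1
    have h3 : (Q : ℝ) ^ 2 * (2 * Real.log W + 4) ≤ Q ^ 2 * l := mul_le_mul_of_nonneg_left hlogW (by positivity)
    nlinarith
  -- T X ≤ Q m
  have hkey : (Q : ℝ) * (l * X) ≤ m := by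
    -- Q m (l X) ≤ (W0/4 + 2 m) l X ≤ m^2
    have h1 : (Q : ℝ) * m * (l * X) ≤ (W0 / 4 + 2 * m) * (l * X) :=
      mul_le_mul_of_nonneg_right hQm (by linarith)
    have h2 : (W0 : ℝ) * (l * X) ≤ m ^ 2 := by
      have : (W0 : ℝ) * (l * X) = s ^ 2 := by rw [hss]; ring
      rw [this]
      exact pow_le_pow_left₀ hs0 hms 2
    have h3 : (W0 / 4 + 2 * m) * (l * X) ≤ m ^ 2 := by nlinarith
    have h4 : m * ((Q : ℝ) * (l * X)) ≤ m * m := by nlinarith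
    exact le_of_mul_le_mul_left h4 hmpos
  have hTX : (T : ℝ) * X ≤ Q * m := by
    calc (T : ℝ) * X ≤ (Q ^ 2 * l) * X := mul_le_mul_of_nonneg_right hT2 (by linarith)
      _ = Q * (Q * (l * X)) := by ring
      _ ≤ Q * m := mul_le_mul_of_nonneg_left hkey (by linarith)
  refine ⟨m, W, Q, T, by rw [hm]; omega, ?_, hQW, hT1, hTX, hmle⟩
  have h1 : (T : ℝ) * (1024 * κ) ≤ Q * m := by
    refine le_trans ?_ hTX
    exact mul_le_mul_of_nonneg_left hκ (Nat.cast_nonneg _)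
  have h2 : (W0 : ℝ) + T * (1024 * κ) ≤ W := by
    rw [hWR]; nlinarith
  exact_mod_cast h2

end Pool.Agent.GW
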