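import Pool.Agent.GW.NumA
import Pool.Agent.GW.Dyn

/-!
# GW/NumB (helper90): numbers of T1, the structure `NumD` from a few inequalities (MP_37d33d_gt)
-/

set_option autoImplicit false

namespace Pool.Agent.GW

/-- cost factor -/
noncomputable def nbX (r b B Th' : ℕ) (a : ℝ) : ℝ :=
  4096 * 4 ^ b * ((r * B + 1) ^ 3 * 4 ^ b * (2 * Th')) * (1 + 40 * (r : ℝ) ^ 2 * (1024 * (r + 3) ^ 2 * 4 ^ (b + 1))) *
    a * r * B

/-- letters at the start of a stage -/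
def nbW (r b B Th' n' : ℕ) : ℕ := n' + B ^ r * 4 ^ b * (2 * Th')

theorem nb_core {r b p B n' Th' L : ℕ} {a : ℝ} (hr : 2 ≤ r) (hp : 1 ≤ p) (hb : b = 511 + p * (512 * (2 * r + 5) + 1))
    (hB : 128 * (r + 3) ^ 2 * (2 * 4 ^ (b + 1) * (r * (r * b + b + 512 * (2 * r + 5)) +
      (r * b + b + 512 * (2 * r + 5)) + 10)) ≤ B)
    (hBr : B ^ r ≤ n') (hap : 12 * (n' : ℝ) < a ^ p) (ha : 2 * (r : ℝ) + 5 ≤ a) (hTh : 1 ≤ Th')
    (hlog : 2 * Real.log (2 * (nbW r b B Th' n' : ℕ) + 8 * (Real.sqrt ((nbW r b B Th' n' : ℕ) * a ^ 2 * nbX r b B Th' a) +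
      8 * a ^ 2 * nbX r b B Th' a)) + 4 ≤ a ^ 2)
    (hL : 220 * (Real.sqrt ((nbW r b B Th' n' : ℕ) * a ^ 2 * nbX r b B Th' a) + 8 * a ^ 2 * nbX r b B Th' a) ≤ L) :
    ∃ (K M m W Q T : ℕ) (B0 : ℝ), 1 ≤ K ∧ K + 1 ≤ B ∧ 1 ≤ m ∧ 8 * Th' ≤ L ∧
      NumD r B b 0 K M (2 * Th') ((r * B + 1) ^ 3 * 4 ^ b * (2 * Th')) m (nbW r b B Th' n') W Q T L B0 := by
  obtain ⟨K, M, h1, h2, h3, h4, h5, h6, h7⟩ := na_links hB
  clear hB
  have h34 := And.intro h3 (And.intro h4 h2)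
  clear h3 h4 h2
  have hMR : (0 : ℝ) < M := by
    have : 0 < M := by omega
    exact_mod_cast this
  have hBM : (B : ℝ) / M ≤ 1024 * (r + 3) ^ 2 * 4 ^ (b + 1) := by
    rw [div_le_iff₀ hMR]
    exact_mod_cast h7
  clear h7
  obtain ⟨e0, he0⟩ : ∃ e0 : ℕ, e0 = 512 * (2 * r + 5) + 1 := ⟨_, rfl⟩
  rw [← he0] at hb
  have hr0 : (0 : ℝ) ≤ r := Nat.cast_nonneg _
  have ha1 : 1 ≤ a := by linarith
  have ha0 : 0 < a := by linarith
  have hB1 : 1 ≤ B := by omega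
  have hBR : (1 : ℝ) ≤ B := by exact_mod_cast hB1
  have hrR : (2 : ℝ) ≤ r := by exact_mod_cast hr
  have hTR : (1 : ℝ) ≤ Th' := by exact_mod_cast hTh
  set X : ℝ := nbX r b B Th' a with hX
  set Th : ℕ := (r * B + 1) ^ 3 * 4 ^ b * (2 * Th') with hThd
  have hThR : (Th : ℝ) = (r * B + 1) ^ 3 * 4 ^ b * (2 * Th') := by rw [hThd]; push_cast; ring
  have h4b : (1 : ℝ) ≤ 4 ^ b := one_le_pow₀ (by norm_num)
  have hTh1 : (1 : ℝ) ≤ Th := by
    have : 1 ≤ Th := by rw [hThd]; exact Nat.mul_pos (by positivity) (by omega)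
    exact_mod_cast this
  set C1 : ℝ := 1 + 40 * (r : ℝ) ^ 2 * (1024 * (r + 3) ^ 2 * 4 ^ (b + 1)) with hC1
  have hC11 : 1 ≤ C1 := by
    rw [hC1]
    have : 0 ≤ 40 * (r : ℝ) ^ 2 * (1024 * (r + 3) ^ 2 * 4 ^ (b + 1)) := by positivity
    linarith
  have hXe : X = 4096 * 4 ^ b * Th * C1 * a * r * B := by
    rw [hX, nbX, hThR]
  -- X is large
  have hXbig : 4096 * 4 ^ b * Th * a ≤ X := by
    rw [hXe]
    have g1 : 0 ≤ 4096 * 4 ^ b * (Th : ℝ) * a := by positivity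
    have g2 : 1 ≤ C1 * r * B := by
      have : 1 ≤ C1 * r := by nlinarith
      nlinarith
    calc 4096 * 4 ^ b * (Th : ℝ) * a = 4096 * 4 ^ b * (Th : ℝ) * a * 1 := by ring
      _ ≤ 4096 * 4 ^ b * (Th : ℝ) * a * (C1 * r * B) := mul_le_mul_of_nonneg_left g2 g1
      _ = 4096 * 4 ^ b * Th * C1 * a * r * B := by ring
  have hX1 : 1 ≤ X := by
    refine le_trans ?_ hXbig
    have g1 : (1 : ℝ) ≤ 4 ^ b * Th := one_le_mul_of_one_le_of_one_le h4b hTh1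
    have g2 : (1 : ℝ) ≤ 4 ^ b * Th * a := one_le_mul_of_one_le_of_one_le g1 ha1
    nlinarith
  have hThle : 2 * Th' ≤ Th := by
    rw [hThd]
    exact Nat.le_mul_of_pos_left _ (by positivity)
  set κ : ℕ := 2 * 4 ^ b * Th + (2 * r + 3) * 4 ^ b * (2 * Th') with hκ
  have hκle : (κ : ℝ) ≤ (2 * r + 5) * (4 ^ b * Th) := by
    have g1 : κ ≤ (2 * r + 5) * (4 ^ b * Th) := by
      rw [hκ]
      have g2 : (2 * r + 3) * 4 ^ b * (2 * Th') ≤ (2 * r + 3) * 4 ^ b * Th := Nat.mul_le_mul_left _ hThle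
      have g3 : (2 * r + 5) * (4 ^ b * Th) = 2 * 4 ^ b * Th + (2 * r + 3) * 4 ^ b * Th := by ring
      omega
    exact_mod_cast g1
  have hκX : 1024 * (κ : ℝ) ≤ X := by
    refine le_trans ?_ hXbig
    have g1 : (0 : ℝ) ≤ 4 ^ b * Th := by positivity
    have g2 : (2 * (r : ℝ) + 5) * (4 ^ b * Th) ≤ a * (4 ^ b * Th) := mul_le_mul_of_nonneg_right ha g1
    nlinarith
  obtain ⟨m, W, Q, T, t1, t2, t3, t4, t5, t6⟩ := na_time (W0 := nbW r b B Th' n') (κ := κ) hX1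
    (show (1 : ℝ) ≤ a ^ 2 from one_le_pow₀ ha1) hκX hlog
  have hm1 : 1 ≤ m := by omega
  have t12 := And.intro t1 (And.intro t2 t3)
  clear t1 t2 t3
  -- B0
  set B0 : ℝ := a ^ (1 / (e0 : ℝ)) with hB0
  have he0p : 0 < e0 := by rw [he0]; exact Nat.succ_pos _
  have he0R : (0 : ℝ) < e0 := by exact_mod_cast he0p
  have hB0e : B0 ^ e0 = a := by
    rw [hB0, ← Real.rpow_natCast, ← Real.rpow_mul ha0.le, one_div, inv_mul_cancel₀ he0R.ne', Real.rpow_one]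
  have hB01 : 1 ≤ B0 := Real.one_le_rpow ha1 (by positivity)
  have hL0 : 220 * (m : ℝ) ≤ L := by
    refine le_trans ?_ hL
    exact mul_le_mul_of_nonneg_left t6 (by norm_num)
  have hXL : 8 * X ≤ L := by
    refine le_trans ?_ hL
    have g1 : X ≤ a ^ 2 * X := le_mul_of_one_le_left (by linarith) (one_le_pow₀ ha1)
    have g2 := Real.sqrt_nonneg ((nbW r b B Th' n' : ℕ) * a ^ 2 * X)
    nlinarith
  refine ⟨K, M, m, W, Q, T, B0, h5, h6, hm1, ?_, ?_⟩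
  · have g1 : (8 : ℝ) * Th' ≤ L := by
      have g2 : (2 * Th' : ℝ) ≤ Th := by exact_mod_cast hThle
      have g3 : (Th : ℝ) ≤ X := by
        refine le_trans ?_ hXbig
        have g4 : (1 : ℝ) ≤ 4096 * 4 ^ b * a := by nlinarith [one_le_mul_of_one_le_of_one_le h4b ha1]
        calc (Th : ℝ) = Th * 1 := by ring
          _ ≤ Th * (4096 * 4 ^ b * a) := mul_le_mul_of_nonneg_left g4 (by linarith)
          _ = 4096 * 4 ^ b * Th * a := by ring
      linarith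
    exact_mod_cast g1
  · refine ⟨hr, h1, h34.2.2, ?_, ?_, hB01, ?_, ?_, ?_, ?_, ?_, t12.2.2, ?_, ?_, le_rfl, ?_, ?_⟩
    · rw [Nat.zero_add]; exact h34.1
    · rw [Nat.zero_add]; exact h34.2.1
    · have : 1 ≤ p * e0 := Nat.mul_pos hp he0p
      omega
    · have g1 : b - 511 = e0 * p := by rw [hb, Nat.add_sub_cancel_left, mul_comm]
      rw [g1, pow_mul, hB0e]
      refine lt_of_le_of_lt ?_ hap
      have : (B : ℝ) ^ r ≤ n' := by exact_mod_cast hBr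
      linarith
    · exact t12.1
    · show B ^ r * 4 ^ b * (2 * Th') ≤ nbW r b B Th' n'
      unfold nbW; omega
    · exact t12.2.1
    · exact t4
    · refine le_trans ?_ t5
      refine mul_le_mul_of_nonneg_left ?_ (Nat.cast_nonneg T)
      rw [hXe]
      have g1 : 1 + 40 * (r : ℝ) ^ 2 * B / M ≤ C1 := by
        rw [hC1]
        have g2 := hBM
        have g3 : 40 * (r : ℝ) ^ 2 * B / M = 40 * (r : ℝ) ^ 2 * (B / M) := by ring
        rw [g3]
        have g4 : 40 * (r : ℝ) ^ 2 * (B / M) ≤ 40 * (r : ℝ) ^ 2 * (1024 * (r + 3) ^ 2 * 4 ^ (b + 1)) :=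
          mul_le_mul_of_nonneg_left g2 (by positivity)
        linarith
      have g5 : B0 ^ (512 * (2 * r + 5) + 1) = a := by rw [← he0]; exact hB0e
      rw [g5]
      have g6 : 4096 * 4 ^ b * (Th : ℝ) * (1 + 40 * (r : ℝ) ^ 2 * B / M) ≤ 4096 * 4 ^ b * (Th : ℝ) * C1 :=
        mul_le_mul_of_nonneg_left g1 (by positivity)
      have g7 : (0 : ℝ) ≤ a * r * B := by positivity
      calc 4096 * 4 ^ b * (Th : ℝ) * (1 + 40 * (r : ℝ) ^ 2 * B / M) * a * r * B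
          = (4096 * 4 ^ b * (Th : ℝ) * (1 + 40 * (r : ℝ) ^ 2 * B / M)) * (a * r * B) := by ring
        _ ≤ (4096 * 4 ^ b * (Th : ℝ) * C1) * (a * r * B) := mul_le_mul_of_nonneg_right g6 g7
        _ = 4096 * 4 ^ b * (Th : ℝ) * C1 * a * r * B := by ring
    · have : (220 * m : ℝ) ≤ L := hL0
      exact_mod_cast this
    · -- 2 B^2 4^b Th0 ≤ L
      have g1 : (2 * B ^ 2 * 4 ^ b * (2 * Th') : ℝ) ≤ L := by
        refine le_trans ?_ hXL
        have g2 : (B : ℝ) ^ 2 ≤ (r * B + 1) ^ 3 := by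
          have g3 : (B : ℝ) ≤ r * B + 1 := by nlinarith
          have g4 : (1 : ℝ) ≤ r * B + 1 := by nlinarith
          calc (B : ℝ) ^ 2 ≤ (r * B + 1) ^ 2 := pow_le_pow_left₀ (by linarith) g3 2
            _ ≤ (r * B + 1) ^ 3 := pow_le_pow_right₀ g4 (by norm_num)
        have g5 : (B : ℝ) ^ 2 * 4 ^ b * (2 * Th') ≤ Th := by
          rw [hThR]
          refine mul_le_mul_of_nonneg_right ?_ (by positivity)
          exact mul_le_mul_of_nonneg_right g2 (by positivity)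
        have g6 : (Th : ℝ) ≤ X := by
          refine le_trans ?_ hXbig
          have g4 : (1 : ℝ) ≤ 4096 * 4 ^ b * a := by nlinarith [one_le_mul_of_one_le_of_one_le h4b ha1]
          calc (Th : ℝ) = Th * 1 := by ring
            _ ≤ Th * (4096 * 4 ^ b * a) := mul_le_mul_of_nonneg_left g4 (by linarith)
            _ = 4096 * 4 ^ b * Th * a := by ring
        nlinarith
      exact_mod_cast g1

end Pool.Agent.GW
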