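import Pool.Agent.GW.NumB

/-!
# GW/NumC (helper90): numbers of T1, everything in powers of one large number `a` (MP_37d33d_gt)
-/

set_option autoImplicit false

namespace Pool.Agent.GW

/-- the least admissible `B` -/
def ncB (r b : ℕ) : ℕ := 128 * (r + 3) ^ 2 * (2 * 4 ^ (b + 1) * (r * (r * b + b + 512 * (2 * r + 5)) +
      (r * b + b + 512 * (2 * r + 5)) + 10))

/-- the constant in `nbX` -/
noncomputable def ncX (r b : ℕ) : ℝ := 4096 * 4 ^ b * ((r + 1) ^ 3 * 4 ^ b * 2) *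
  (1 + 40 * (r : ℝ) ^ 2 * (1024 * (r + 3) ^ 2 * 4 ^ (b + 1))) * r

private theorem nc_X {r b B Th' : ℕ} {a u : ℝ} (ha1 : 1 ≤ a) (hcX : ncX r b ≤ a) (hB1 : 1 ≤ (B : ℝ)) (hBa : (B : ℝ) ≤ a)
    (hT : (Th' : ℝ) ≤ a ^ 24 * u) (hu : 0 ≤ u) : nbX r b B Th' a ≤ a ^ 30 * u := by
  have ha0 : 0 ≤ a := by linarith
  have hr0 : (0 : ℝ) ≤ r := Nat.cast_nonneg _
  have h1 : ((r : ℝ) * B + 1) ^ 3 ≤ (r + 1) ^ 3 * a ^ 3 := by
    rw [← mul_pow]
    refine pow_le_pow_left₀ (by positivity) ?_ 3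
    nlinarith
  have h0 : (0 : ℝ) ≤ 4096 * 4 ^ b * (4 ^ b * 2) * (1 + 40 * (r : ℝ) ^ 2 * (1024 * (r + 3) ^ 2 * 4 ^ (b + 1))) * r := by
    positivity
  have e1 : nbX r b B Th' a = (4096 * 4 ^ b * (4 ^ b * 2) * (1 + 40 * (r : ℝ) ^ 2 * (1024 * (r + 3) ^ 2 * 4 ^ (b + 1))) * r)
      * (((r : ℝ) * B + 1) ^ 3 * (Th' * (a * B))) := by
    unfold nbX; ring
  have h2 : (Th' : ℝ) * (a * B) ≤ (a ^ 24 * u) * (a * a) :=
    mul_le_mul hT (mul_le_mul_of_nonneg_left hBa ha0) (by positivity) (by positivity)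
  have h3 : ((r : ℝ) * B + 1) ^ 3 * (Th' * (a * B)) ≤ ((r + 1) ^ 3 * a ^ 3) * ((a ^ 24 * u) * (a * a)) :=
    mul_le_mul h1 h2 (by positivity) (by positivity)
  rw [e1]
  refine (mul_le_mul_of_nonneg_left h3 h0).trans ?_
  have e2 : (4096 * 4 ^ b * (4 ^ b * 2) * (1 + 40 * (r : ℝ) ^ 2 * (1024 * (r + 3) ^ 2 * 4 ^ (b + 1))) * r) *
      (((r + 1) ^ 3 * a ^ 3) * ((a ^ 24 * u) * (a * a))) = ncX r b * (a ^ 29 * u) := by
    unfold ncX; ring
  rw [e2]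
  calc ncX r b * (a ^ 29 * u) ≤ a * (a ^ 29 * u) := mul_le_mul_of_nonneg_right hcX (by positivity)
    _ = a ^ 30 * u := by ring

theorem nc_main {r b p : ℕ} (hr : 2 ≤ r) (hp : 1 ≤ p) (hb : b = 511 + p * (512 * (2 * r + 5) + 1))
    {n' u B L : ℕ} {a t1 H : ℝ} (ha : 220 ≤ a) (har : 2 * (r : ℝ) + 5 ≤ a) (hc5 : 5 * 2 ^ r * ((r : ℝ) + 2 ^ r) ≤ a)
    (h4b : 2 * (4 : ℝ) ^ b ≤ a) (hcX : ncX r b ≤ a) (hu : 1 ≤ u) (hun : u ≤ n') (ht : 1 ≤ t1) (hta : t1 ≤ a ^ 6)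
    (hH : 1 ≤ H) (hHa : H ≤ a ^ 15 * u) (hlogn : Real.log n' ≤ a) (hap : 12 * (n' : ℝ) < a ^ p)
    (hB : ncB r b ≤ B) (hBa : (B : ℝ) ≤ a) (hHB : H * (B : ℝ) ^ r ≤ n')
    (hL : a ^ 35 * Real.sqrt ((n' : ℝ) * u) ≤ L) :
    ∃ (Th' K M m W Q T : ℕ) (B0 : ℝ), 5 * 2 ^ r * (r * B + 2 ^ r) * t1 * H ≤ Th' ∧ 1 ≤ K ∧ K + 1 ≤ B ∧ 1 ≤ m ∧
      8 * Th' ≤ L ∧
      NumD r B b 0 K M (2 * Th') ((r * B + 1) ^ 3 * 4 ^ b * (2 * Th')) m (nbW r b B Th' n') W Q T L B0 := by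
  have ha1 : 1 ≤ a := by linarith
  have ha0 : 0 < a := by linarith
  have hr0 : (0 : ℝ) ≤ r := Nat.cast_nonneg _
  have hB1 : 1 ≤ B := by
    refine le_trans ?_ hB
    unfold ncB
    exact Nat.mul_pos (by positivity) (Nat.mul_pos (by positivity) (Nat.succ_pos _))
  have hBR : (1 : ℝ) ≤ B := by exact_mod_cast hB1
  have huR : (1 : ℝ) ≤ u := by exact_mod_cast hu
  have hunR : (u : ℝ) ≤ n' := by exact_mod_cast hun
  have hn1 : (1 : ℝ) ≤ n' := by linarith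
  have hBr0 : (0 : ℝ) ≤ (B : ℝ) ^ r := by positivity
  have hBrR : (B : ℝ) ^ r ≤ n' := by
    calc (B : ℝ) ^ r = 1 * (B : ℝ) ^ r := (one_mul _).symm
      _ ≤ H * (B : ℝ) ^ r := mul_le_mul_of_nonneg_right hH hBr0
      _ ≤ n' := hHB
  have hBr : B ^ r ≤ n' := by exact_mod_cast hBrR
  -- Th'
  set Y : ℝ := 5 * 2 ^ r * (r * B + 2 ^ r) * t1 * H with hY
  have hY1 : 1 ≤ Y := by
    have g1 : (1 : ℝ) ≤ 2 ^ r := one_le_pow₀ (by norm_num)
    have g2 : (1 : ℝ) ≤ r * B + 2 ^ r := by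
      have : (0 : ℝ) ≤ r * B := by positivity
      linarith
    have g3 : (1 : ℝ) ≤ 5 * 2 ^ r := by linarith
    exact one_le_mul_of_one_le_of_one_le (one_le_mul_of_one_le_of_one_le
      (one_le_mul_of_one_le_of_one_le g3 g2) ht) hH
  have hYle : Y ≤ a ^ 8 * H := by
    have g1 : (r : ℝ) * B + 2 ^ r ≤ (r + 2 ^ r) * B := by
      have : (0 : ℝ) ≤ 2 ^ r := by positivity
      nlinarith
    have g2 : 5 * 2 ^ r * ((r : ℝ) * B + 2 ^ r) ≤ a * a := by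
      calc 5 * 2 ^ r * ((r : ℝ) * B + 2 ^ r) ≤ 5 * 2 ^ r * ((r + 2 ^ r) * B) :=
            mul_le_mul_of_nonneg_left g1 (by positivity)
        _ = (5 * 2 ^ r * ((r : ℝ) + 2 ^ r)) * B := by ring
        _ ≤ a * a := mul_le_mul hc5 hBa (by linarith) ha0.le
    have g3 : 5 * 2 ^ r * ((r : ℝ) * B + 2 ^ r) * t1 ≤ a * a * a ^ 6 :=
      mul_le_mul g2 hta (by linarith) (by positivity)
    rw [hY]
    calc 5 * 2 ^ r * ((r : ℝ) * B + 2 ^ r) * t1 * H ≤ a * a * a ^ 6 * H :=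
          mul_le_mul_of_nonneg_right g3 (by linarith)
      _ = a ^ 8 * H := by ring
  obtain ⟨Th', hTh1, hTh2⟩ : ∃ Th' : ℕ, Y ≤ Th' ∧ (Th' : ℝ) < Y + 1 :=
    ⟨⌈Y⌉₊, Nat.le_ceil _, Nat.ceil_lt_add_one (by linarith)⟩
  have hThpos : 1 ≤ Th' := by
    have : (1 : ℝ) ≤ Th' := hY1.trans hTh1
    exact_mod_cast this
  have hTh9 : (Th' : ℝ) ≤ a ^ 9 * H := by
    have g1 : (Th' : ℝ) ≤ 2 * Y := by linarith
    have g2 : 0 ≤ a ^ 8 * H := by positivity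
    calc (Th' : ℝ) ≤ 2 * Y := g1
      _ ≤ 2 * (a ^ 8 * H) := by linarith
      _ ≤ a * (a ^ 8 * H) := by nlinarith
      _ = a ^ 9 * H := by ring
  have hThu : (Th' : ℝ) ≤ a ^ 24 * u := by
    calc (Th' : ℝ) ≤ a ^ 9 * H := hTh9
      _ ≤ a ^ 9 * (a ^ 15 * u) := mul_le_mul_of_nonneg_left hHa (by positivity)
      _ = a ^ 24 * u := by ring
  have hX := nc_X ha1 hcX hBR hBa hThu (by linarith)
  have hX0 : 0 ≤ nbX r b B Th' a := by unfold nbX; positivity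
  set X := nbX r b B Th' a with hXd
  -- W0
  have hWR : ((nbW r b B Th' n' : ℕ) : ℝ) = n' + (B : ℝ) ^ r * 4 ^ b * (2 * Th') := by
    unfold nbW; push_cast; ring
  have hW : ((nbW r b B Th' n' : ℕ) : ℝ) ≤ a ^ 11 * n' := by
    rw [hWR]
    have g1 : (B : ℝ) ^ r * Th' ≤ a ^ 9 * n' := by
      calc (B : ℝ) ^ r * Th' ≤ (B : ℝ) ^ r * (a ^ 9 * H) := mul_le_mul_of_nonneg_left hTh9 hBr0
        _ = a ^ 9 * (H * (B : ℝ) ^ r) := by ring
        _ ≤ a ^ 9 * n' := mul_le_mul_of_nonneg_left hHB (by positivity)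
    have g2 : (B : ℝ) ^ r * 4 ^ b * (2 * Th') ≤ a * (a ^ 9 * n') := by
      calc (B : ℝ) ^ r * 4 ^ b * (2 * Th') = (2 * 4 ^ b) * ((B : ℝ) ^ r * Th') := by ring
        _ ≤ a * (a ^ 9 * n') := mul_le_mul h4b g1 (by positivity) ha0.le
    have g3 : (n' : ℝ) ≤ a ^ 10 * n' := le_mul_of_one_le_left (by linarith) (one_le_pow₀ ha1)
    have g4 : a * (a ^ 9 * n') = a ^ 10 * n' := by ring
    have g5 : 2 * (a ^ 10 * n') ≤ a * (a ^ 10 * n') := mul_le_mul_of_nonneg_right (by linarith) (by positivity)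
    have g6 : a * (a ^ 10 * n') = a ^ 11 * n' := by ring
    linarith
  set W0R : ℝ := ((nbW r b B Th' n' : ℕ) : ℝ) with hW0R
  have hW00 : 0 ≤ W0R := Nat.cast_nonneg _
  -- square root
  have hsq : Real.sqrt (W0R * a ^ 2 * X) ≤ a ^ 22 * Real.sqrt ((n' : ℝ) * u) := by
    have g1 : W0R * a ^ 2 * X ≤ (a ^ 22) ^ 2 * ((n' : ℝ) * u) := by
      calc W0R * a ^ 2 * X ≤ (a ^ 11 * n') * a ^ 2 * (a ^ 30 * u) :=
            mul_le_mul (mul_le_mul_of_nonneg_right hW (by positivity)) hX hX0 (by positivity)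
        _ = a ^ 43 * ((n' : ℝ) * u) := by ring
        _ ≤ a ^ 44 * ((n' : ℝ) * u) :=
            mul_le_mul_of_nonneg_right (pow_le_pow_right₀ ha1 (by norm_num)) (by positivity)
        _ = (a ^ 22) ^ 2 * ((n' : ℝ) * u) := by ring
    calc Real.sqrt (W0R * a ^ 2 * X) ≤ Real.sqrt ((a ^ 22) ^ 2 * ((n' : ℝ) * u)) := Real.sqrt_le_sqrt g1
      _ = a ^ 22 * Real.sqrt ((n' : ℝ) * u) := by
          rw [Real.sqrt_mul (by positivity), Real.sqrt_sq (by positivity)]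
  set S : ℝ := Real.sqrt ((n' : ℝ) * u) with hS
  have hS0 : 0 ≤ S := Real.sqrt_nonneg _
  have huS : (u : ℝ) ≤ S := by
    rw [hS]
    apply Real.le_sqrt_of_sq_le
    nlinarith
  have hSn : S ≤ n' := by
    rw [hS]
    apply Real.sqrt_le_iff.mpr
    constructor
    · linarith
    · nlinarith
  have h8 : 8 * a ^ 2 * X ≤ a ^ 33 * S := by
    calc 8 * a ^ 2 * X ≤ 8 * a ^ 2 * (a ^ 30 * u) := mul_le_mul_of_nonneg_left hX (by positivity)
      _ = 8 * (a ^ 32 * u) := by ring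
      _ ≤ a * (a ^ 32 * u) := mul_le_mul_of_nonneg_right (by linarith) (by positivity)
      _ = a ^ 33 * u := by ring
      _ ≤ a ^ 33 * S := mul_le_mul_of_nonneg_left huS (by positivity)
  have hsum : Real.sqrt (W0R * a ^ 2 * X) + 8 * a ^ 2 * X ≤ a ^ 34 * S := by
    have g1 : a ^ 22 * S ≤ a ^ 33 * S := mul_le_mul_of_nonneg_right (pow_le_pow_right₀ ha1 (by norm_num)) hS0
    have g2 : 2 * (a ^ 33 * S) ≤ a * (a ^ 33 * S) := mul_le_mul_of_nonneg_right (by linarith) (by positivity)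
    have g3 : a * (a ^ 33 * S) = a ^ 34 * S := by ring
    linarith
  have hLL : 220 * (Real.sqrt (W0R * a ^ 2 * X) + 8 * a ^ 2 * X) ≤ L := by
    refine le_trans ?_ hL
    calc 220 * (Real.sqrt (W0R * a ^ 2 * X) + 8 * a ^ 2 * X) ≤ 220 * (a ^ 34 * S) :=
          mul_le_mul_of_nonneg_left hsum (by norm_num)
      _ ≤ a * (a ^ 34 * S) := mul_le_mul_of_nonneg_right ha (by positivity)
      _ = a ^ 35 * S := by ring
  have hlog : 2 * Real.log (2 * W0R + 8 * (Real.sqrt (W0R * a ^ 2 * X) + 8 * a ^ 2 * X)) + 4 ≤ a ^ 2 := by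
    have hpos : 0 < 2 * W0R + 8 * (Real.sqrt (W0R * a ^ 2 * X) + 8 * a ^ 2 * X) := by
      have g0 : (n' : ℝ) ≤ W0R := by
        rw [hWR]
        have : (0 : ℝ) ≤ (B : ℝ) ^ r * 4 ^ b * (2 * Th') := by positivity
        linarith
      have g1 := Real.sqrt_nonneg (W0R * a ^ 2 * X)
      have g2 : 0 ≤ 8 * a ^ 2 * X := by positivity
      linarith
    have g1 : 2 * W0R + 8 * (Real.sqrt (W0R * a ^ 2 * X) + 8 * a ^ 2 * X) ≤ a ^ 36 * n' := by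
      have g2 : 2 * W0R ≤ a * (a ^ 11 * n') := by
        have : 2 * W0R ≤ 2 * (a ^ 11 * n') := by linarith
        have : 2 * (a ^ 11 * n') ≤ a * (a ^ 11 * n') := mul_le_mul_of_nonneg_right (by linarith) (by positivity)
        linarith
      have g3 : a * (a ^ 11 * n') ≤ a ^ 35 * n' := by
        calc a * (a ^ 11 * n') = a ^ 12 * n' := by ring
          _ ≤ a ^ 35 * n' := mul_le_mul_of_nonneg_right (pow_le_pow_right₀ ha1 (by norm_num)) (by positivity)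
      have g4 : 8 * (a ^ 34 * S) ≤ a * (a ^ 34 * n') :=
        mul_le_mul (by linarith) (mul_le_mul_of_nonneg_left hSn (by positivity)) (by positivity) ha0.le
      have g5 : a * (a ^ 34 * n') = a ^ 35 * n' := by ring
      have g6 : 2 * (a ^ 35 * n') ≤ a * (a ^ 35 * n') := mul_le_mul_of_nonneg_right (by linarith) (by positivity)
      have g7 : a * (a ^ 35 * n') = a ^ 36 * n' := by ring
      linarith
    have g2 : Real.log (2 * W0R + 8 * (Real.sqrt (W0R * a ^ 2 * X) + 8 * a ^ 2 * X)) ≤ 36 * a + a := by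
      refine (Real.log_le_log hpos g1).trans ?_
      rw [Real.log_mul (by positivity) (by positivity), Real.log_pow]
      have g3 : Real.log a ≤ a := (Real.log_le_sub_one_of_pos ha0).trans (by linarith)
      have : ((36 : ℕ) : ℝ) * Real.log a ≤ 36 * a := by
        push_cast
        linarith
      linarith
    nlinarith
  obtain ⟨K, M, m, W, Q, T, B0, k1, k2, k3, k4, k5⟩ := nb_core hr hp hb hB hBr hap har hThpos hlog hLL
  exact ⟨Th', K, M, m, W, Q, T, B0, hTh1, k1, k2, k3, k4, k5⟩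

end Pool.Agent.GW
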