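import Pool.Agent.GW.NumC

/-!
# GW/NumF (helper90): numbers of T1, final form (MP_37d33d_gt)

`n` letters, words of length at most `u`, `K'` layers, `n' = (2 K' + 1) n` letters of the normal form.
-/

set_option autoImplicit false

namespace Pool.Agent.GW

private theorem nf_n {n u K' : ℕ} {δ : ℝ} (hδ : 0 < δ) (hn : 1 ≤ n) (hun : u ≤ n) (hK : 2 ^ K' ≤ 2 * u) :
    (2 * (K' : ℝ) + 1 ≤ (3 + 4 / δ) * (n : ℝ) ^ δ) ∧ ((2 * (K' : ℝ) + 1) * n ≤ 7 * (n : ℝ) ^ 2) ∧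
      Real.log n ≤ (n : ℝ) ^ δ / δ := by
  have hnR : (1 : ℝ) ≤ n := by exact_mod_cast hn
  have hn0 : (0 : ℝ) < n := by linarith
  have hlog : Real.log n ≤ (n : ℝ) ^ δ / δ := Real.log_le_rpow_div hn0.le hδ
  have hlog0 : 0 ≤ Real.log n := Real.log_nonneg hnR
  have h2 : (2 : ℝ) ^ K' ≤ 2 * n := by
    have h3 : 2 ^ K' ≤ 2 * n := hK.trans (by omega)
    exact_mod_cast h3
  have h3 : (K' : ℝ) * Real.log 2 ≤ Real.log 2 + Real.log n := by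
    rw [← Real.log_pow, ← Real.log_mul (by norm_num) hn0.ne']
    exact Real.log_le_log (by positivity) h2
  have h4 : (1 : ℝ) / 2 ≤ Real.log 2 := by have := Real.log_two_gt_d9; linarith
  have h5 : (K' : ℝ) ≤ 1 + 2 * Real.log n := by
    have h6 : ((K' : ℝ) - 1) * Real.log 2 ≤ Real.log n := by linarith
    by_contra hc
    push Not at hc
    have h7 : 2 * Real.log n * Real.log 2 < ((K' : ℝ) - 1) * Real.log 2 :=
      mul_lt_mul_of_pos_right (by linarith) (by linarith)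
    nlinarith
  have hnδ : 1 ≤ (n : ℝ) ^ δ := Real.one_le_rpow hnR hδ.le
  refine ⟨?_, ?_, hlog⟩
  · have h6 : (3 + 4 / δ) * (n : ℝ) ^ δ = 3 * (n : ℝ) ^ δ + 4 * ((n : ℝ) ^ δ / δ) := by ring
    rw [h6]
    linarith
  · have h6 : Real.log n ≤ n := (Real.log_le_sub_one_of_pos hn0).trans (by linarith)
    have h7 : 2 * (K' : ℝ) + 1 ≤ 7 * n := by linarith
    nlinarith

theorem nums (ε : ℝ) (hε : 0 < ε) : ∃ (r b : ℕ) (C : ℝ), 2 ≤ r ∧ 1 ≤ C ∧ ∀ (n u K' n' L : ℕ) (ψ : ℝ), 1 ≤ u → u ≤ n →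
    2 ^ K' ≤ 2 * u → n' = (2 * K' + 1) * n → 0 < ψ → ψ ≤ 1 →
    C * (1 / ψ) ^ 36 * (n : ℝ) ^ ε * Real.sqrt ((n : ℝ) * u) ≤ L →
    4 * u ≤ L ∧ (n ≤ L ∨ ∃ (t : ℕ) (H : ℝ),
      8 * Real.log (2 * n') ≤ (ψ / (8 * (K' + 1))) ^ 2 * t ∧
      10 ^ 4 * (r * (n' : ℝ) ^ (1 / (r : ℝ)) + 2 ^ r) ^ 2 * (t + 1) ^ 2 * (2 * u) ≤ H ∧ H ≤ n' ∧
      ∀ B : ℕ, 1 ≤ B → H * (B : ℝ) ^ r ≤ n' → (n' : ℝ) ≤ 4 * H * ((B : ℝ) + 1) ^ r →
        n ≤ L ∨ ∃ (Th' K M m W Q T : ℕ) (B0 : ℝ), 5 * 2 ^ r * (r * B + 2 ^ r) * (t + 1) * H ≤ Th' ∧ 1 ≤ K ∧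
          K + 1 ≤ B ∧ 1 ≤ m ∧ 8 * Th' ≤ L ∧
          NumD r B b 0 K M (2 * Th') ((r * B + 1) ^ 3 * 4 ^ b * (2 * Th')) m (nbW r b B Th' n') W Q T L B0) := by
  set δ : ℝ := ε / 64 with hδd
  have hδ : 0 < δ := by rw [hδd]; linarith
  obtain ⟨r, hr2, hrδ⟩ : ∃ r : ℕ, 2 ≤ r ∧ 2 / δ ≤ r :=
    ⟨max 2 ⌈2 / δ⌉₊, le_max_left _ _, (Nat.le_ceil _).trans (by exact_mod_cast le_max_right _ _)⟩
  obtain ⟨p, hp1, hpδ⟩ : ∃ p : ℕ, 1 ≤ p ∧ 2 / δ ≤ p :=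
    ⟨⌈2 / δ⌉₊ + 1, Nat.le_add_left 1 _, (Nat.le_ceil _).trans (by push_cast; linarith)⟩
  obtain ⟨b, hb⟩ : ∃ b : ℕ, b = 511 + p * (512 * (2 * r + 5) + 1) := ⟨_, rfl⟩
  have hr0 : (0 : ℝ) < r := by
    have : 0 < r := by omega
    exact_mod_cast this
  obtain ⟨A, hA600, hA1, hA2, hA3, hA4, hA5, hA6, hA7, hA8⟩ : ∃ A : ℝ, 600 ≤ A ∧ 2 * (r : ℝ) + 5 ≤ A ∧
      5 * 2 ^ r * ((r : ℝ) + 2 ^ r) ≤ A ∧ 2 * (4 : ℝ) ^ b ≤ A ∧ ncX r b ≤ A ∧ 3 + 4 / δ ≤ A ∧ 13 + 2 / δ ≤ A ∧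
      2 * 10 ^ 4 * ((r : ℝ) + 2 ^ r) ^ 2 ≤ A ∧ 4 * (ncB r b : ℝ) ^ r ≤ A := by
    have hX : 0 ≤ ncX r b := by unfold ncX; positivity
    have q1 : (0 : ℝ) ≤ 2 * (r : ℝ) + 5 := by positivity
    have q2 : (0 : ℝ) ≤ 5 * 2 ^ r * ((r : ℝ) + 2 ^ r) := by positivity
    have q3 : (0 : ℝ) ≤ 2 * (4 : ℝ) ^ b := by positivity
    have q4 : 0 ≤ 3 + 4 / δ := by positivity
    have q5 : 0 ≤ 13 + 2 / δ := by positivity
    have q6 : (0 : ℝ) ≤ 2 * 10 ^ 4 * ((r : ℝ) + 2 ^ r) ^ 2 := by positivity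
    have q7 : (0 : ℝ) ≤ 4 * (ncB r b : ℝ) ^ r := by positivity
    refine ⟨600 + (2 * (r : ℝ) + 5) + 5 * 2 ^ r * ((r : ℝ) + 2 ^ r) + 2 * (4 : ℝ) ^ b + ncX r b + (3 + 4 / δ) +
      (13 + 2 / δ) + 2 * 10 ^ 4 * ((r : ℝ) + 2 ^ r) ^ 2 + 4 * (ncB r b : ℝ) ^ r, ?_, ?_, ?_, ?_, ?_, ?_, ?_, ?_, ?_⟩ <;>
      linarith
  have hA0 : 0 < A := by linarith
  refine ⟨r, b, A ^ 36, hr2, one_le_pow₀ (by linarith), ?_⟩
  intro n u K' n' L ψ hu hun hK hn' hψ0 hψ1 hL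
  have hn1 : 1 ≤ n := hu.trans hun
  have hnR : (1 : ℝ) ≤ n := by exact_mod_cast hn1
  have hn0 : (0 : ℝ) < n := by linarith
  have huR : (1 : ℝ) ≤ u := by exact_mod_cast hu
  have hunR : (u : ℝ) ≤ n := by exact_mod_cast hun
  obtain ⟨f1, f2, f3⟩ := nf_n hδ hn1 hun hK
  have hn'R : (n' : ℝ) = (2 * (K' : ℝ) + 1) * n := by rw [hn']; push_cast; ring
  have hnδ : 1 ≤ (n : ℝ) ^ δ := Real.one_le_rpow hnR hδ.le
  have hψi : 1 ≤ 1 / ψ := by rw [le_div_iff₀ hψ0]; linarith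
  set a : ℝ := A * (n : ℝ) ^ δ * (1 / ψ) with had
  have haAn : A * (n : ℝ) ^ δ ≤ a := by
    rw [had]; exact le_mul_of_one_le_right (by positivity) hψi
  have haA : A ≤ a := (le_mul_of_one_le_right hA0.le hnδ).trans haAn
  have ha600 : 600 ≤ a := by linarith
  have ha0 : 0 < a := by linarith
  have ha1 : 1 ≤ a := by linarith
  have haψ : 1 / ψ ≤ a := by
    rw [had]
    refine le_mul_of_one_le_left (by positivity) ?_
    exact one_le_mul_of_one_le_of_one_le (by linarith) hnδ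
  have hK0 : (0 : ℝ) ≤ K' := Nat.cast_nonneg _
  have haK : 2 * (K' : ℝ) + 1 ≤ a := by
    refine f1.trans ((mul_le_mul_of_nonneg_right hA5 (by linarith)).trans haAn)
  have hn'n : (n : ℝ) ≤ n' := by
    rw [hn'R]; exact le_mul_of_one_le_left hn0.le (by linarith)
  have hn'7 : (n' : ℝ) ≤ 7 * (n : ℝ) ^ 2 := by rw [hn'R]; exact f2
  have hn'1 : (1 : ℝ) ≤ n' := by linarith
  have hn'an : (n' : ℝ) ≤ a * n := by
    rw [hn'R]; exact mul_le_mul_of_nonneg_right haK hn0.le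
  have hlog2 : Real.log (2 * n') ≤ a := by
    have g1 : Real.log (2 * n') ≤ Real.log (14 * (n : ℝ) ^ 2) :=
      Real.log_le_log (by linarith) (by linarith)
    have g2 : Real.log (14 * (n : ℝ) ^ 2) = Real.log 14 + 2 * Real.log n := by
      rw [Real.log_mul (by norm_num) (by positivity), Real.log_pow]
      push_cast
      ring
    have g3 : Real.log 14 ≤ 13 := by
      have := Real.log_le_sub_one_of_pos (show (0 : ℝ) < 14 by norm_num)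
      linarith
    have g4 : 13 + 2 * Real.log n ≤ (13 + 2 / δ) * (n : ℝ) ^ δ := by
      have : (13 + 2 / δ) * (n : ℝ) ^ δ = 13 * (n : ℝ) ^ δ + 2 * ((n : ℝ) ^ δ / δ) := by ring
      rw [this]; linarith
    have g5 : (13 + 2 / δ) * (n : ℝ) ^ δ ≤ a := (mul_le_mul_of_nonneg_right hA6 (by linarith)).trans haAn
    linarith
  have hlogn' : Real.log n' ≤ a := by
    refine le_trans (Real.log_le_log (by linarith) (by linarith)) hlog2
  have hroot : (n' : ℝ) ^ (1 / (r : ℝ)) ≤ a := by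
    have g1 : (n' : ℝ) ^ (1 / (r : ℝ)) ≤ (7 * (n : ℝ) ^ 2) ^ (1 / (r : ℝ)) :=
      Real.rpow_le_rpow (by linarith) hn'7 (by positivity)
    have g2 : (7 * (n : ℝ) ^ 2) ^ (1 / (r : ℝ)) = (7 : ℝ) ^ (1 / (r : ℝ)) * (n : ℝ) ^ (2 / (r : ℝ)) := by
      rw [Real.mul_rpow (by norm_num) (by positivity), ← Real.rpow_natCast (n : ℝ) 2, ← Real.rpow_mul hn0.le]
      congr 2
      push_cast
      ring
    have hr2R : (2 : ℝ) ≤ r := by exact_mod_cast hr2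
    have g3 : (7 : ℝ) ^ (1 / (r : ℝ)) ≤ 7 := by
      calc (7 : ℝ) ^ (1 / (r : ℝ)) ≤ (7 : ℝ) ^ (1 : ℝ) := by
            apply Real.rpow_le_rpow_of_exponent_le (by norm_num)
            rw [div_le_one hr0]; linarith
        _ = 7 := Real.rpow_one 7
    have g4 : (n : ℝ) ^ (2 / (r : ℝ)) ≤ (n : ℝ) ^ δ := by
      apply Real.rpow_le_rpow_of_exponent_le hnR
      rw [div_le_iff₀ hr0]
      rw [div_le_iff₀ hδ] at hrδ
      linarith
    rw [g2] at g1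
    refine g1.trans (le_trans ?_ haAn)
    exact mul_le_mul (g3.trans (by linarith)) g4 (by positivity) hA0.le
  have hap : 12 * (n' : ℝ) < a ^ p := by
    have g1 : A * (n : ℝ) ^ 2 ≤ (A * (n : ℝ) ^ δ) ^ p := by
      rw [mul_pow, ← Real.rpow_natCast ((n : ℝ) ^ δ) p, ← Real.rpow_mul hn0.le]
      have g2 : A ≤ A ^ p := le_self_pow₀ (by linarith) (by omega)
      have g3 : (n : ℝ) ^ 2 ≤ (n : ℝ) ^ (δ * p) := by
        rw [← Real.rpow_natCast (n : ℝ) 2]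
        apply Real.rpow_le_rpow_of_exponent_le hnR
        rw [div_le_iff₀ hδ] at hpδ
        push_cast
        linarith
      exact mul_le_mul g2 g3 (by positivity) (by positivity)
    have g2 : (A * (n : ℝ) ^ δ) ^ p ≤ a ^ p := pow_le_pow_left₀ (by positivity) haAn p
    have g3 : (0 : ℝ) < (n : ℝ) ^ 2 := by positivity
    nlinarith
  set S : ℝ := Real.sqrt ((n : ℝ) * u) with hS
  have hS0 : 0 ≤ S := Real.sqrt_nonneg _
  have huS : (u : ℝ) ≤ S := by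
    rw [hS]
    apply Real.le_sqrt_of_sq_le
    nlinarith
  have hLa : a ^ 36 * S ≤ L := by
    refine le_trans ?_ hL
    have g1 : a ^ 36 ≤ A ^ 36 * (1 / ψ) ^ 36 * (n : ℝ) ^ ε := by
      have g2 : a ^ 36 = A ^ 36 * (1 / ψ) ^ 36 * ((n : ℝ) ^ δ) ^ 36 := by rw [had]; ring
      rw [g2]
      refine mul_le_mul_of_nonneg_left ?_ (by positivity)
      rw [← Real.rpow_natCast ((n : ℝ) ^ δ) 36, ← Real.rpow_mul hn0.le]
      apply Real.rpow_le_rpow_of_exponent_le hnR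
      rw [hδd]
      push_cast
      linarith
    exact mul_le_mul_of_nonneg_right g1 hS0
  have ha36 : (600 : ℝ) ≤ a ^ 36 := by
    calc (600 : ℝ) ≤ a := ha600
      _ ≤ a ^ 36 := le_self_pow₀ ha1 (by norm_num)
  refine ⟨?_, ?_⟩
  · have : (4 * u : ℝ) ≤ L := by
      refine le_trans ?_ hLa
      nlinarith
    exact_mod_cast this
  -- trivial case
  have htriv : (n' : ℝ) ≤ a ^ 16 * u → n ≤ L := by
    intro h
    have g1 : (n : ℝ) ≤ a ^ 8 * S := by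
      have g2 : (n : ℝ) ^ 2 ≤ (a ^ 8) ^ 2 * ((n : ℝ) * u) := by
        have g3 : (n : ℝ) ≤ a ^ 16 * u := hn'n.trans h
        nlinarith
      have g3 : Real.sqrt ((n : ℝ) ^ 2) ≤ Real.sqrt ((a ^ 8) ^ 2 * ((n : ℝ) * u)) := Real.sqrt_le_sqrt g2
      rw [Real.sqrt_sq hn0.le, Real.sqrt_mul (by positivity), Real.sqrt_sq (by positivity)] at g3
      exact g3
    have g2 : (n : ℝ) ≤ L := by
      refine g1.trans (le_trans ?_ hLa)
      exact mul_le_mul_of_nonneg_right (pow_le_pow_right₀ ha1 (by norm_num)) hS0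
    exact_mod_cast g2
  -- t
  set ψ' : ℝ := ψ / (8 * (K' + 1)) with hψ'
  have hψ'0 : 0 < ψ' := by rw [hψ']; positivity
  have hlog0 : 0 ≤ Real.log (2 * n') := Real.log_nonneg (by linarith)
  obtain ⟨t, ht1, ht2⟩ : ∃ t : ℕ, 8 * Real.log (2 * n') / ψ' ^ 2 ≤ t ∧ (t : ℝ) < 8 * Real.log (2 * n') / ψ' ^ 2 + 1 :=
    ⟨⌈8 * Real.log (2 * n') / ψ' ^ 2⌉₊, Nat.le_ceil _, Nat.ceil_lt_add_one (by positivity)⟩
  have ht : 8 * Real.log (2 * n') ≤ ψ' ^ 2 * t := by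
    rw [div_le_iff₀ (by positivity)] at ht1
    linarith
  have hta : (t : ℝ) + 1 ≤ a ^ 6 := by
    have g1 : 8 * Real.log (2 * n') / ψ' ^ 2 ≤ 512 * a ^ 5 := by
      have g2 : 1 / ψ' ≤ 8 * (a * a) := by
        rw [hψ', one_div_div]
        have g3 : 8 * ((K' : ℝ) + 1) / ψ = 8 * ((K' + 1) * (1 / ψ)) := by ring
        rw [g3]
        refine mul_le_mul_of_nonneg_left ?_ (by norm_num)
        exact mul_le_mul (by linarith) haψ (by positivity) ha0.le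
      have g3 : 8 * Real.log (2 * n') / ψ' ^ 2 = 8 * Real.log (2 * n') * (1 / ψ') ^ 2 := by
        rw [one_div, inv_pow]; rfl
      rw [g3]
      have g4 : (1 / ψ') ^ 2 ≤ (8 * (a * a)) ^ 2 := pow_le_pow_left₀ (by positivity) g2 2
      calc 8 * Real.log (2 * n') * (1 / ψ') ^ 2 ≤ 8 * a * (8 * (a * a)) ^ 2 :=
            mul_le_mul (by linarith) g4 (by positivity) (by positivity)
        _ = 512 * a ^ 5 := by ring
    have g5 : (1 : ℝ) ≤ a ^ 5 := one_le_pow₀ ha1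
    have g6 : 600 * a ^ 5 ≤ a * a ^ 5 := mul_le_mul_of_nonneg_right ha600 (by positivity)
    have g7 : a * a ^ 5 = a ^ 6 := by ring
    linarith
  have ht0 : (0 : ℝ) ≤ t := Nat.cast_nonneg _
  -- H
  obtain ⟨H, hHd⟩ : ∃ H : ℝ, H = 10 ^ 4 * (r * (n' : ℝ) ^ (1 / (r : ℝ)) + 2 ^ r) ^ 2 * (t + 1) ^ 2 * (2 * u) := ⟨_, rfl⟩
  have hroot0 : 0 ≤ (n' : ℝ) ^ (1 / (r : ℝ)) := by positivity
  have h2r : (1 : ℝ) ≤ 2 ^ r := one_le_pow₀ (by norm_num)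
  have hH1 : 1 ≤ H := by
    rw [hHd]
    have g1 : (1 : ℝ) ≤ (r * (n' : ℝ) ^ (1 / (r : ℝ)) + 2 ^ r) ^ 2 := by
      apply one_le_pow₀
      have : 0 ≤ r * (n' : ℝ) ^ (1 / (r : ℝ)) := by positivity
      linarith
    have g2 : (1 : ℝ) ≤ ((t : ℝ) + 1) ^ 2 := one_le_pow₀ (by linarith)
    exact one_le_mul_of_one_le_of_one_le (one_le_mul_of_one_le_of_one_le
      (one_le_mul_of_one_le_of_one_le (by norm_num) g1) g2) (by linarith)
  have hHa : H ≤ a ^ 15 * u := by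
    rw [hHd]
    have g1 : r * (n' : ℝ) ^ (1 / (r : ℝ)) + 2 ^ r ≤ (r + 2 ^ r) * a := by
      have : (r : ℝ) * (n' : ℝ) ^ (1 / (r : ℝ)) ≤ r * a := mul_le_mul_of_nonneg_left hroot hr0.le
      nlinarith
    have g2 : (r * (n' : ℝ) ^ (1 / (r : ℝ)) + 2 ^ r) ^ 2 ≤ ((r + 2 ^ r) * a) ^ 2 :=
      pow_le_pow_left₀ (by positivity) g1 2
    have g3 : ((t : ℝ) + 1) ^ 2 ≤ (a ^ 6) ^ 2 := pow_le_pow_left₀ (by linarith) hta 2
    have g4 : (r * (n' : ℝ) ^ (1 / (r : ℝ)) + 2 ^ r) ^ 2 * ((t : ℝ) + 1) ^ 2 ≤ ((r + 2 ^ r) * a) ^ 2 * (a ^ 6) ^ 2 :=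
      mul_le_mul g2 g3 (by positivity) (by positivity)
    calc 10 ^ 4 * (r * (n' : ℝ) ^ (1 / (r : ℝ)) + 2 ^ r) ^ 2 * (t + 1) ^ 2 * (2 * u)
        = ((r * (n' : ℝ) ^ (1 / (r : ℝ)) + 2 ^ r) ^ 2 * ((t : ℝ) + 1) ^ 2) * (2 * 10 ^ 4 * u) := by ring
      _ ≤ (((r + 2 ^ r) * a) ^ 2 * (a ^ 6) ^ 2) * (2 * 10 ^ 4 * u) := mul_le_mul_of_nonneg_right g4 (by positivity)
      _ = (2 * 10 ^ 4 * ((r : ℝ) + 2 ^ r) ^ 2) * (a ^ 14 * u) := by ring
      _ ≤ a * (a ^ 14 * u) := mul_le_mul_of_nonneg_right (hA7.trans haA) (by positivity)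
      _ = a ^ 15 * u := by ring
  have h1516 : a ^ 15 * u ≤ a ^ 16 * (u : ℝ) :=
    mul_le_mul_of_nonneg_right (pow_le_pow_right₀ ha1 (by norm_num)) (by linarith)
  by_cases hHn : (n' : ℝ) < H
  · exact Or.inl (htriv (by linarith))
  push Not at hHn
  refine Or.inr ⟨t, H, ht, by rw [hHd], hHn, ?_⟩
  intro B hB1 hHB hBig
  by_cases hBc : ncB r b ≤ B
  · right
    have hBR0 : (0 : ℝ) ≤ B := Nat.cast_nonneg _
    have hBr : (B : ℝ) ^ r ≤ n' := by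
      calc (B : ℝ) ^ r = 1 * (B : ℝ) ^ r := (one_mul _).symm
        _ ≤ H * (B : ℝ) ^ r := mul_le_mul_of_nonneg_right hH1 (by positivity)
        _ ≤ n' := hHB
    have hBa : (B : ℝ) ≤ a := by
      refine le_trans ?_ hroot
      have g1 : (B : ℝ) = ((B : ℝ) ^ r) ^ (1 / (r : ℝ)) := by
        rw [← Real.rpow_natCast (B : ℝ) r, ← Real.rpow_mul hBR0, mul_one_div, div_self hr0.ne', Real.rpow_one]
      rw [g1]
      exact Real.rpow_le_rpow (by positivity) hBr (by positivity)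
    have hun' : u ≤ n' := by
      have : (u : ℝ) ≤ n' := hunR.trans hn'n
      exact_mod_cast this
    have hL35 : a ^ 35 * Real.sqrt ((n' : ℝ) * u) ≤ L := by
      refine le_trans ?_ hLa
      have g1 : Real.sqrt ((n' : ℝ) * u) ≤ a * S := by
        have g2 : (n' : ℝ) * u ≤ a ^ 2 * ((n : ℝ) * u) := by
          have g3 : (n' : ℝ) * u ≤ a * n * u := mul_le_mul_of_nonneg_right hn'an (by linarith)
          have g4 : a * (n : ℝ) * u ≤ a ^ 2 * ((n : ℝ) * u) := by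
            have g5 : (0 : ℝ) ≤ (n : ℝ) * u := by positivity
            have g6 : a ≤ a ^ 2 := le_self_pow₀ ha1 (by norm_num)
            rw [mul_assoc]
            exact mul_le_mul_of_nonneg_right g6 g5
          linarith
        calc Real.sqrt ((n' : ℝ) * u) ≤ Real.sqrt (a ^ 2 * ((n : ℝ) * u)) := Real.sqrt_le_sqrt g2
          _ = a * S := by rw [Real.sqrt_mul (by positivity), Real.sqrt_sq ha0.le]
      calc a ^ 35 * Real.sqrt ((n' : ℝ) * u) ≤ a ^ 35 * (a * S) := mul_le_mul_of_nonneg_left g1 (by positivity)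
        _ = a ^ 36 * S := by ring
    exact nc_main hr2 hp1 hb (by linarith) (hA1.trans haA) (hA2.trans haA) (hA3.trans haA) (hA4.trans haA) hu hun'
      (by linarith) hta hH1 hHa hlogn' hap hBc hBa hHB hL35
  · left
    push Not at hBc
    apply htriv
    refine hBig.trans ?_
    have g1 : ((B : ℝ) + 1) ^ r ≤ (ncB r b : ℝ) ^ r := by
      apply pow_le_pow_left₀ (by positivity)
      exact_mod_cast hBc
    calc 4 * H * ((B : ℝ) + 1) ^ r ≤ 4 * H * (ncB r b : ℝ) ^ r := mul_le_mul_of_nonneg_left g1 (by linarith)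
      _ = (4 * (ncB r b : ℝ) ^ r) * H := by ring
      _ ≤ a * (a ^ 15 * u) := mul_le_mul (hA8.trans haA) hHa (by linarith) ha0.le
      _ = a ^ 16 * u := by ring

end Pool.Agent.GW
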