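import Pool.Agent.GW.CutChain

/-!
# The outer letters after a strand

Auxiliary lemmas for `cutOnce`: letters of the outer words, marks and numbers of marks after one strand.
-/

set_option autoImplicit false

namespace Pool.Agent.GW

open Equiv Pool.Agent.SWP

theorem chain_prev {α : Type} {R : α → α → Prop} : ∀ (l : List α), l.IsChain R → ∀ p ∈ l,
    l.head? = some p ∨ ∃ q ∈ l, R q p
  | [], _, p, hp => by simp at hp
  | [a], _, p, hp => by
      left
      simp only [List.mem_singleton] at hp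
      subst hp
      rfl
  | a :: b :: l, h, p, hp => by
      rw [List.isChain_cons_cons] at h
      rcases List.mem_cons.1 hp with h1 | h1
      · left
        subst h1
        rfl
      · right
        rcases chain_prev (b :: l) h.2 p h1 with h2 | ⟨q, hq, hqp⟩
        · simp only [List.head?_cons, Option.some.injEq] at h2
          subst h2
          exact ⟨a, List.mem_cons_self, h.1⟩
        · exact ⟨q, List.mem_cons_of_mem _ hq, hqp⟩

theorem chain_next {α : Type} {R : α → α → Prop} : ∀ (l : List α), l.IsChain R → ∀ p ∈ l,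
    l.getLast? = some p ∨ ∃ q ∈ l, R p q
  | [], _, p, hp => by simp at hp
  | [a], _, p, hp => by
      left
      simp only [List.mem_singleton] at hp
      subst hp
      rfl
  | a :: b :: l, h, p, hp => by
      rw [List.isChain_cons_cons] at h
      rcases List.mem_cons.1 hp with h1 | h1
      · right
        subst h1
        exact ⟨b, by simp, h.1⟩
      · rcases chain_next (b :: l) h.2 p h1 with h2 | ⟨q, hq, hqp⟩
        · left
          rw [List.getLast?_cons_cons]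
          exact h2
        · right
          exact ⟨q, List.mem_cons_of_mem _ hq, hqp⟩

theorem pair_hl {α : Type} {R : α → α → Prop} {l : List α} (h : l.Pairwise R) (h2 : 2 ≤ l.length) {p q : α}
    (hp : l.head? = some p) (hq : l.getLast? = some q) : R p q := by
  rcases l with _ | ⟨a, _ | ⟨b, l⟩⟩
  · simp at h2
  · simp at h2
  · simp only [List.head?_cons, Option.some.injEq] at hp
    subst hp
    rw [List.getLast?_cons_cons] at hq
    exact (List.pairwise_cons.1 h).1 q (List.mem_of_getLast? hq)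

section
variable {S : Sf} {F : Set S.D} {l : List (S.D × S.D)} {x y : S.D}

theorem inv_same {B : Set S.D} (hB : S.Inv B) {d e : S.D} (h : S.r.SameCycle d e) : d ∈ B ↔ e ∈ B := by
  have h1 : ∀ {d e : S.D}, S.r.SameCycle d e → d ∈ B → e ∈ B := fun h hd =>
    mem_of_same (Z := B) (fun e he => (hB e).2 he) hd h
  exact ⟨h1 h, h1 h.symm⟩

theorem chn_ne (h : Chn S F l x y) : x ≠ y := by
  intro hxy
  obtain ⟨f, hf⟩ := h.hx
  obtain ⟨e, he⟩ := h.hy
  have h1 := pair_hl h.dist h.two hf he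
  apply h1
  show S.r.SameCycle x e
  rw [hxy]
  exact (h.same _ (List.mem_of_getLast? he)).symm

theorem chn_ne' (h : Chn S F l x y) : S.a x ≠ S.a y := fun hc => chn_ne h (S.a.injective hc)

theorem cut_outer (h : Chn S F l x y) {d : S.D} (hd : d ∉ F) : Cut S l d ↔ d = S.a x ∨ d = S.a y := by
  constructor
  · rintro ⟨p, hp, h1 | h1 | h1 | h1⟩
    · exact absurd (h1 ▸ (h.fat p hp).1) hd
    · exact absurd (h1 ▸ (h.fat p hp).2) hd
    · rcases chain_prev l h.chain p hp with h2 | ⟨q, hq, hqp⟩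
      · obtain ⟨f, hf⟩ := h.hx
        rw [hf] at h2
        simp only [Option.some.injEq] at h2
        left
        rw [← S.aa d, h1, ← h2]
      · exfalso
        apply hd
        have h3 : d = q.2 := by
          rw [← S.aa d, h1, ← hqp, S.aa]
        rw [h3]
        exact (h.fat q hq).2
    · rcases chain_next l h.chain p hp with h2 | ⟨q, hq, hqp⟩
      · obtain ⟨f, hf⟩ := h.hy
        rw [hf] at h2
        simp only [Option.some.injEq] at h2
        right
        rw [← S.aa d, h1, ← h2]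
      · exfalso
        apply hd
        have h3 : d = q.1 := by
          rw [← S.aa d, h1, hqp]
        rw [h3]
        exact (h.fat q hq).1
  · rintro (h1 | h1)
    · obtain ⟨f, hf⟩ := h.hx
      exact ⟨_, List.mem_of_head? hf, Or.inr (Or.inr (Or.inl (by rw [h1, S.aa])))⟩
    · obtain ⟨f, hf⟩ := h.hy
      exact ⟨_, List.mem_of_getLast? hf, Or.inr (Or.inr (Or.inr (by rw [h1, S.aa])))⟩

/-- an arc without its first letter -/
theorem arc_tail {D : Type} [Finite D] {s : Perm D} {x y d : D} (hxy : x ≠ y) (hs : s.SameCycle x y) :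
    Arc s (s x) y d ↔ Arc s x y d ∧ d ≠ x := by
  have hp : ∀ (i : ℕ) (z : D), (s ^ (i + 1)) z = (s ^ i) (s z) := fun i z => by
    rw [pow_succ, Perm.mul_apply]
  constructor
  · rintro ⟨i, hi, hi'⟩
    have h1 : Arc s x y d := by
      refine ⟨i + 1, by rw [hp, hi], fun j hj => ?_⟩
      rcases j with _ | j
      · simpa using hxy
      · rw [hp]
        exact hi' j (by omega)
    refine ⟨h1, ?_⟩
    have h2 : Arc s x y ((s ^ i) x) := by
      refine ⟨i, rfl, fun j hj => ?_⟩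
      rcases j with _ | j
      · simpa using hxy
      · rw [hp]
        exact hi' j (by omega)
    have h3 := arc_step_ne hs h2
    rw [← hi, ← hp, pow_succ', Perm.mul_apply]
    exact h3
  · rintro ⟨⟨i, hi, hi'⟩, hne⟩
    rcases i with _ | i
    · exfalso
      apply hne
      rw [← hi]
      simp
    · refine ⟨i, by rw [← hp, hi], fun j hj => ?_⟩
      rw [← hp]
      exact hi' (j + 1) (by omega)

variable {S' : Sf} {F' : Set S'.D} {j : S.D → S'.D} {π : S'.D → S.D} {sd : S.D × S.D → Bool → Set S'.D}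
  {zf ze : S.D × S.D → Bool → S'.D} {C : Bool → Set S'.D}

/-- outer words off the cut word -/
theorem off_same (hF : Fat S F) (hS : StrandOut S F l x y S' F' j π sd zf ze C) {d : S.D} (hd : d ∉ F)
    (hn : ¬ S.r.SameCycle (S.a x) d) (c : S'.D) :
    S'.r.SameCycle (j d) c ↔ ∃ e, S.r.SameCycle d e ∧ c = j e := by
  have h0 : ∀ e, S.r.SameCycle d e → S'.r (j e) = j (S.r e) := by
    intro e he
    refine hS.outr e (fun hc => hd ((inv_same hF.inv he).2 hc)) (fun hc => hn (hc.trans he.symm))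
  constructor
  · intro h
    refine mem_of_same (Z := {c | ∃ e, S.r.SameCycle d e ∧ c = j e}) ?_ ⟨d, Perm.SameCycle.refl _ _, rfl⟩ h
    rintro c ⟨e, he, rfl⟩
    exact ⟨S.r e, Perm.sameCycle_apply_right.2 he, h0 e he⟩
  · rintro ⟨e, he, rfl⟩
    have h1 := mem_of_same (Z := {e | S.r.SameCycle d e ∧ S'.r.SameCycle (j d) (j e)}) ?_
      ⟨Perm.SameCycle.refl _ _, Perm.SameCycle.refl _ _⟩ he
    · exact h1.2
    · rintro e ⟨h2, h3⟩
      refine ⟨Perm.sameCycle_apply_right.2 h2, ?_⟩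
      rw [← h0 e h2]
      exact Perm.sameCycle_apply_right.2 h3

theorem ncut_of (h : Chn S F l x y) {d : S.D} (hd : d ∉ F) (h1 : d ≠ S.a x) (h2 : d ≠ S.a y) : ¬ Cut S l d := by
  rw [cut_outer h hd]
  tauto

theorem ncut_off (h : Chn S F l x y) {d : S.D} (hd : d ∉ F) (hn : ¬ S.r.SameCycle (S.a x) d) : ¬ Cut S l d := by
  refine ncut_of h hd ?_ ?_
  · rintro rfl
    exact hn (Perm.SameCycle.refl _ _)
  · rintro rfl
    exact hn h.outer

theorem j_live (hS : StrandOut S F l x y S' F' j π sd zf ze C) {d : S.D} (hd : ¬ Cut S l d) :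
    S'.a (j d) ≠ j d ↔ S.a d ≠ d := by
  rw [hS.ja d hd]
  exact (hS.inj.ne_iff)

theorem j_live' (hS : StrandOut S F l x y S' F' j π sd zf ze C) {d : S.D} (hd : S'.a (j d) ≠ j d) :
    ¬ Cut S l d ∧ S.a d ≠ d := by
  have h1 : ¬ Cut S l d := fun hc => hd (hS.jd d hc)
  exact ⟨h1, (j_live hS h1).1 hd⟩

theorem j_out (hS : StrandOut S F l x y S' F' j π sd zf ze C) {d : S.D} (hd : d ∉ F) : j d ∉ F' :=
  fun hc => hd ((hS.jF d).1 hc).1

/-- words off the cut word have the same length -/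
theorem off_len (hF : Fat S F) (h : Chn S F l x y) (hS : StrandOut S F l x y S' F' j π sd zf ze C) {d : S.D}
    (hd : d ∉ F) (hn : ¬ S.r.SameCycle (S.a x) d) : S'.len (j d) = S.len d := by
  have h0 : S'.word (j d) ∩ S'.live = j '' (S.word d ∩ S.live) := by
    ext c
    constructor
    · rintro ⟨h1, h2⟩
      obtain ⟨e, he, rfl⟩ := (off_same hF hS hd hn c).1 h1
      exact ⟨e, ⟨he, (j_live' hS h2).2⟩, rfl⟩
    · rintro ⟨e, ⟨he, h2⟩, rfl⟩
      refine ⟨(off_same hF hS hd hn _).2 ⟨e, he, rfl⟩, ?_⟩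
      have h3 : ¬ Cut S l e := ncut_off h (fun hc => hd ((inv_same hF.inv he).2 hc))
        (fun hc => hn (hc.trans he.symm))
      exact (j_live hS h3).2 h2
  unfold Sf.len Sf.num
  rw [h0, Set.ncard_image_of_injective _ hS.inj]

theorem off_marks (hF : Fat S F) (h : Chn S F l x y) (hS : StrandOut S F l x y S' F' j π sd zf ze C) (MK : Set S.D)
    {d : S.D} (hd : d ∉ F) (hn : ¬ S.r.SameCycle (S.a x) d) :
    j '' (MK \ {S.a x, S.a y}) ∩ S'.word (j d) = j '' (MK ∩ S.word d) := by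
  ext c
  constructor
  · rintro ⟨⟨e, he, rfl⟩, h1⟩
    obtain ⟨e', he', hee⟩ := (off_same hF hS hd hn _).1 h1
    have h2 := hS.inj hee
    subst h2
    exact ⟨e, ⟨he.1, he'⟩, rfl⟩
  · rintro ⟨e, ⟨he, h1⟩, rfl⟩
    refine ⟨⟨e, ⟨he, ?_⟩, rfl⟩, (off_same hF hS hd hn _).2 ⟨e, h1, rfl⟩⟩
    rintro (hc | hc)
    · subst hc
      exact hn h1.symm
    · have hc' : e = S.a y := hc
      subst hc'
      exact hn (h.outer.trans h1.symm)

/-- a word of an outer part stays in it -/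
theorem word_part (hS : StrandOut S F l x y S' F' j π sd zf ze C) (b : Bool) {c c' : S'.D} (hc : c ∈ C b)
    (h : S'.r.SameCycle c c') : c' ∈ C b :=
  mem_of_same (Z := C b) (fun e he => hS.Cinv b e he) hc h

/-- marks of an outer letter of the cut word -/
theorem part_marks (hS : StrandOut S F l x y S' F' j π sd zf ze C) (h : Chn S F l x y) (MK : Set S.D)
    (hMK : ∀ d ∈ MK, d ∉ F) (b : Bool) (A : Set S.D)
    (hA : ∀ d, d ∉ F → ¬ Cut S l d → (j d ∈ C b ↔ d ∈ A)) {c : S'.D} (hc : c ∈ C b) :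
    j '' (MK \ {S.a x, S.a y}) ∩ S'.word c ⊆ j '' (MK ∩ A) := by
  rintro c' ⟨⟨e, he, rfl⟩, h1⟩
  have h2 : ¬ Cut S l e := ncut_of h (hMK e he.1) (fun hc => he.2 (Or.inl hc)) (fun hc => he.2 (Or.inr hc))
  exact ⟨e, ⟨he.1, (hA e (hMK e he.1) h2).1 (word_part hS b hc h1)⟩, rfl⟩

/-- length of the words of an outer part -/
theorem part_len (hS : StrandOut S F l x y S' F' j π sd zf ze C) (h : Chn S F l x y) (MK : Set S.D)
    (hMK : ∀ d ∈ MK, d ∉ F ∧ S.a d ≠ d) (b : Bool) (k c : ℕ)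
    (hk : {d | ∃ p ∈ l, S.r.SameCycle p.1 d}.ncard ≤ k)
    (hc : S.len (S.a x) ≤ (MK ∩ S.word (S.a x)).ncard + c)
    (A : Set S.D) (hA : ∀ d, d ∉ F → ¬ Cut S l d → (j d ∈ C b ↔ d ∈ A)) (hAw : ∀ d ∈ A, S.r.SameCycle (S.a x) d)
    {c' : S'.D} (hc' : c' ∈ C b) :
    S'.len c' ≤ (j '' (MK \ {S.a x, S.a y}) ∩ S'.word c').ncard + c + 2 * k := by
  -- live letters of the new word
  have h1 : S'.word c' ∩ S'.live ⊆ (j '' (MK \ {S.a x, S.a y}) ∩ S'.word c') ∪
      (j '' ((S.word (S.a x) ∩ S.live) \ (MK ∩ S.word (S.a x))) ∪ {c | c ∉ F' ∧ ∀ d, j d ≠ c}) := by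
    rintro e ⟨he, hl⟩
    have hCe : e ∈ C b := word_part hS b hc' he
    have hFe : e ∉ F' := hS.CF b e hCe
    by_cases hj : ∃ d, j d = e
    · obtain ⟨d, rfl⟩ := hj
      have h2 := j_live' hS hl
      have h3 : d ∉ F := fun h3 => hFe ((hS.jF d).2 ⟨h3, h2.1⟩)
      have h4 : d ∈ A := (hA d h3 h2.1).1 hCe
      have h5 := hAw d h4
      by_cases hM : d ∈ MK
      · left
        refine ⟨⟨d, ⟨hM, ?_⟩, rfl⟩, he⟩
        rintro (hx | hx)
        · exact h2.1 ((cut_outer h h3).2 (Or.inl hx))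
        · exact h2.1 ((cut_outer h h3).2 (Or.inr hx))
      · right
        left
        exact ⟨d, ⟨⟨h5, h2.2⟩, fun hm => hM hm.1⟩, rfl⟩
    · right
      right
      exact ⟨hFe, fun d hd => hj ⟨d, hd⟩⟩
  have hfin : ∀ A : Set S'.D, A.Finite := fun A => Set.toFinite A
  have hfin' : ∀ A : Set S.D, A.Finite := fun A => Set.toFinite A
  have h2 : ((S.word (S.a x) ∩ S.live) \ (MK ∩ S.word (S.a x))).ncard ≤ c := by
    have h3 : MK ∩ S.word (S.a x) ⊆ S.word (S.a x) ∩ S.live := fun d hd => ⟨hd.2, (hMK d hd.1).2⟩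
    have h4 := Set.ncard_sdiff_add_ncard_of_subset h3 (hfin' _)
    have h5 : S.len (S.a x) = (S.word (S.a x) ∩ S.live).ncard := rfl
    omega
  have h3 : S'.len c' ≤ _ := Set.ncard_le_ncard h1 (hfin _)
  have h4 := Set.ncard_union_le (j '' (MK \ {S.a x, S.a y}) ∩ S'.word c')
    (j '' ((S.word (S.a x) ∩ S.live) \ (MK ∩ S.word (S.a x))) ∪ {c | c ∉ F' ∧ ∀ d, j d ≠ c})
  have h5 := Set.ncard_union_le (j '' ((S.word (S.a x) ∩ S.live) \ (MK ∩ S.word (S.a x))))
    {c | c ∉ F' ∧ ∀ d, j d ≠ c}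
  have h6 := Set.ncard_image_le (f := j) (hfin' ((S.word (S.a x) ∩ S.live) \ (MK ∩ S.word (S.a x))))
  have h7 := hS.newO
  omega

/-- the outer length increases little -/
theorem num_strand (hS : StrandOut S F l x y S' F' j π sd zf ze C) (k : ℕ)
    (hk : {d | ∃ p ∈ l, S.r.SameCycle p.1 d}.ncard ≤ k) : S'.num F'ᶜ ≤ S.num Fᶜ + 2 * k := by
  have h1 : F'ᶜ ∩ S'.live ⊆ j '' (Fᶜ ∩ S.live) ∪ {c | c ∉ F' ∧ ∀ d, j d ≠ c} := by
    rintro e ⟨he, hl⟩
    by_cases hj : ∃ d, j d = e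
    · obtain ⟨d, rfl⟩ := hj
      have h2 := j_live' hS hl
      left
      exact ⟨d, ⟨fun h3 => he ((hS.jF d).2 ⟨h3, h2.1⟩), h2.2⟩, rfl⟩
    · right
      exact ⟨he, fun d hd => hj ⟨d, hd⟩⟩
  have h3 : S'.num F'ᶜ ≤ _ := Set.ncard_le_ncard h1 (Set.toFinite _)
  have h4 := Set.ncard_union_le (j '' (Fᶜ ∩ S.live)) {c | c ∉ F' ∧ ∀ d, j d ≠ c}
  have h6 := Set.ncard_image_le (f := j) (Set.toFinite (Fᶜ ∩ S.live))
  have h7 := hS.newO
  have h8 : S.num Fᶜ = (Fᶜ ∩ S.live).ncard := rfl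
  omega

end

section
variable {D D' : Type} [Fintype D]

theorem sum_ind_image [Fintype D'] {j : D → D'} (hj : Function.Injective j) (A : Set D) (g : D' → ℝ) :
    ∑ c, Set.indicator (j '' A) g c = ∑ d, Set.indicator A (fun d => g (j d)) d := by
  classical
  have h1 : ∑ c, Set.indicator (j '' A) g c = ∑ c ∈ Finset.univ.image j, Set.indicator (j '' A) g c := by
    symm
    apply Finset.sum_subset (Finset.subset_univ _)
    intro c _ hc
    apply Set.indicator_of_notMem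
    rintro ⟨d, _, rfl⟩
    exact hc (Finset.mem_image_of_mem _ (Finset.mem_univ _))
  rw [h1, Finset.sum_image (fun a _ b _ h => hj h)]
  apply Finset.sum_congr rfl
  intro d _
  by_cases hd : d ∈ A
  · rw [Set.indicator_of_mem (Set.mem_image_of_mem _ hd), Set.indicator_of_mem hd]
  · rw [Set.indicator_of_notMem (fun hc => hd ((hj.mem_set_image).1 hc)), Set.indicator_of_notMem hd]

/-- sums of squares: the marks of one word are split in two parts -/
theorem sq_split {j : D → D'} (hj : Function.Injective j) (M M0 A B : Set D) (k : D → ℕ) (k' : D' → ℕ) (n n1 n2 : ℕ)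
    (hM0 : M0 ⊆ M) (hA0 : Disjoint M0 A) (hB0 : Disjoint M0 B) (hAB : Disjoint A B)
    (M' : Set D) (hM' : M' = M0 ∪ (A ∪ B)) (h0 : ∀ d ∈ M0, k' (j d) = k d)
    (hk : ∀ d ∈ M, d ∉ M0 → k d = n) (hA : ∀ d ∈ A, k' (j d) ≤ n1) (hB : ∀ d ∈ B, k' (j d) ≤ n2)
    (hn : (M \ M0).ncard = n) (hn1 : A.ncard = n1) (hn2 : B.ncard = n2) :
    (∑ᶠ c ∈ j '' M', k' c) + n * n ≤ (∑ᶠ d ∈ M, k d) + n1 * n1 + n2 * n2 := by
  classical
  have hfin : ∀ A : Set D, A.Finite := fun A => Set.toFinite A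
  rw [finsum_mem_image hj.injOn, hM', finsum_mem_union (Set.disjoint_union_right.2 ⟨hA0, hB0⟩) (hfin _) (hfin _),
    finsum_mem_union hAB (hfin _) (hfin _)]
  have hM : M = M0 ∪ (M \ M0) := by
    rw [Set.union_sdiff_cancel hM0]
  have e1 : ∑ᶠ d ∈ M, k d = ∑ᶠ d ∈ M0, k d + ∑ᶠ d ∈ M \ M0, k d := by
    conv_lhs => rw [hM]
    exact finsum_mem_union Set.disjoint_sdiff_right (hfin _) (hfin _)
  have e2 : ∑ᶠ d ∈ M0, k' (j d) = ∑ᶠ d ∈ M0, k d := finsum_mem_congr rfl h0
  have e3 : ∑ᶠ d ∈ M \ M0, k d = n * n := by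
    rw [finsum_mem_congr rfl (fun d hd => hk d hd.1 hd.2), finsum_mem_eq_finite_toFinset_sum _ (hfin _),
      Finset.sum_const, smul_eq_mul, ← Set.ncard_eq_toFinset_card _ (hfin _), hn]
  have e4 : ∑ᶠ d ∈ A, k' (j d) ≤ n1 * n1 := by
    rw [finsum_mem_eq_finite_toFinset_sum _ (hfin _)]
    refine (Finset.sum_le_card_nsmul _ _ n1 (fun d hd => hA d ((hfin A).mem_toFinset.1 hd))).trans ?_
    rw [smul_eq_mul, ← Set.ncard_eq_toFinset_card _ (hfin _), hn1]
  have e5 : ∑ᶠ d ∈ B, k' (j d) ≤ n2 * n2 := by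
    rw [finsum_mem_eq_finite_toFinset_sum _ (hfin _)]
    refine (Finset.sum_le_card_nsmul _ _ n2 (fun d hd => hB d ((hfin B).mem_toFinset.1 hd))).trans ?_
    rw [smul_eq_mul, ← Set.ncard_eq_toFinset_card _ (hfin _), hn2]
  rw [e1, e2, e3]
  omega

end

end Pool.Agent.GW
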