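import Pool.Agent.GW.Dyadic
import Pool.Agent.GW.Minimax
import Pool.Agent.GW.LllW

/-!
# GW.Rungs: pairwise disjoint rungs for all pairs

PROOF.  `S` = lists without repetition (finite type), `Γ i` = rungs of `i` of perimeter `≤ l = 10^3 (u/ψ) log N`, `a i s x = 1` if `x ∈ s`, else `0`.
`minimax_load` with `K = 10^6 (log N)^2/(κ ψ b)` (hypothesis: `dyadic`): laws `μ i` on the rungs with load `∑_i P(x ∈ γ i) ≤ K p x`.
For a fixed rung `γ` of `i`: `∑_j P(γ j meets γ) ≤ ∑_{x ∈ γ} K p x ≤ K l ≤ 1/10`.  Independent choices with the laws `μ i`; bad events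
`(i, j)`, `i ≠ j`: the two rungs meet; `LllW.lll_w`: `2 * 2 ∑_j P ≤ 4 K l ≤ 1/2`.
-/

set_option autoImplicit false

namespace Pool.Agent.GW

open Finset

theorem sum_mem_list {V : Type} [Fintype V] [DecidableEq V] {γ : List V} (h : γ.Nodup) (y : V → ℝ) :
    ∑ x, (if x ∈ γ then (1 : ℝ) else 0) * y x = (γ.map y).sum := by
  simp only [ite_mul, one_mul, zero_mul]
  rw [← sum_filter, ← List.sum_toFinset y h]
  refine sum_congr ?_ fun _ _ => rfl
  ext x
  simp

namespace WG

variable {V : Type} [Fintype V] [DecidableEq V] (G : WG V)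

theorem rungs [Nonempty V] {ι : Type} [Fintype ι] {p : V → ℕ} {blk : Bool → ι → V → ℝ} {ψ u κ b N : ℝ}
    (hP : G.Pc p ψ u κ) (hB : G.Blocks p blk b) (hN : G.nuP p u κ univ ≤ N) (hN2 : 2 ≤ N)
    (hb : 10 ^ 10 * (u / ψ) * Real.log N ^ 3 ≤ κ * ψ * b) :
    ∃ γ : ι → List V, (∀ i, G.IsRung p blk (10 ^ 3 * (u / ψ) * Real.log N) i (γ i)) ∧
      ∀ i j, i ≠ j → List.Disjoint (γ i) (γ j) := by
  classical
  set l : ℝ := 10 ^ 3 * (u / ψ) * Real.log N with hl
  set K : ℝ := 10 ^ 6 * Real.log N ^ 2 / (κ * ψ * b) with hK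
  have hψ := hP.h0
  have hlog : (1 / 2 : ℝ) ≤ Real.log N := by
    have h1 : Real.log 2 ≤ Real.log N := Real.log_le_log (by norm_num) hN2
    have h2 := Real.log_two_gt_d9
    linarith
  have huψ : 1 ≤ u / ψ := by
    rw [le_div_iff₀ hψ]
    linarith [hP.hu, hP.h1]
  have hl3 : (1 / 8 : ℝ) ≤ Real.log N ^ 3 := by
    have := pow_le_pow_left₀ (by norm_num : (0 : ℝ) ≤ 1 / 2) hlog 3
    norm_num at this
    exact this
  have hb1 : 1 ≤ κ * ψ * b := by
    refine le_trans ?_ hb
    have h1 : (1 : ℝ) * (1 / 8) ≤ u / ψ * Real.log N ^ 3 := mul_le_mul huψ hl3 (by norm_num) (by linarith)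
    have h2 : 10 ^ 10 * (u / ψ) * Real.log N ^ 3 = 10 ^ 10 * (u / ψ * Real.log N ^ 3) := by ring
    rw [h2]
    linarith
  have hbpos : 0 < κ * ψ * b := by linarith
  have hK0 : 0 ≤ K := by positivity
  have hl0 : 0 ≤ l := by positivity
  have hKl : K * l ≤ 1 / 10 := by
    rw [hK, hl, div_mul_eq_mul_div, div_le_iff₀ hbpos]
    have h2 : 10 ^ 6 * Real.log N ^ 2 * (10 ^ 3 * (u / ψ) * Real.log N) = 1 / 10 * (10 ^ 10 * (u / ψ) * Real.log N ^ 3) := by
      ring
    rw [h2]
    linarith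
  set Γ : ι → Finset {s : List V // s.Nodup} := fun i => univ.filter fun s => G.IsRung p blk l i s.1 with hΓ
  have hdy := fun (y : V → ℝ) (hy : ∀ x, 0 ≤ y x) (hy1 : ∑ x, (p x : ℝ) * y x ≤ 1) =>
    G.dyadic hP hB hN hN2 hb1 y hy hy1
  have hΓne : ∀ i, (Γ i).Nonempty := by
    intro i
    obtain ⟨γ, h1, -⟩ := hdy (fun _ => 0) (fun _ => le_rfl) (by simp)
    exact ⟨⟨γ i, (h1 i).nodup⟩, mem_filter.2 ⟨mem_univ _, h1 i⟩⟩
  obtain ⟨μ, hμ0, hμΓ, hμ1, hload⟩ := minimax_load Γ hΓne
    (fun _ (s : {s : List V // s.Nodup}) (x : V) => if x ∈ s.1 then (1 : ℝ) else 0) (fun x => (p x : ℝ))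
    (fun x => by
      have := hP.hp1 x
      exact_mod_cast this) hK0 (by
    intro y hy hy1
    obtain ⟨γ, h1, h2⟩ := hdy y hy hy1.le
    refine ⟨fun i => ⟨γ i, (h1 i).nodup⟩, fun i => mem_filter.2 ⟨mem_univ _, h1 i⟩, ?_⟩
    refine le_trans (le_of_eq ?_) h2
    exact sum_congr rfl fun i _ => sum_mem_list (h1 i).nodup y)
  -- the mean number of meetings
  set g : ι → ι → ℝ := fun i j => ∑ s : {s : List V // s.Nodup}, ∑ s' : {s : List V // s.Nodup},
    μ i s * μ j s' * ∑ x, (if x ∈ s.1 then (1 : ℝ) else 0) * (if x ∈ s'.1 then (1 : ℝ) else 0) with hg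
  have hgsymm : ∀ i j, g i j = g j i := by
    intro i j
    simp only [hg]
    rw [sum_comm]
    refine sum_congr rfl fun s _ => sum_congr rfl fun s' _ => ?_
    rw [mul_comm (μ i s')]
    congr 1
    exact sum_congr rfl fun x _ => mul_comm _ _
  have hg0 : ∀ i j, 0 ≤ g i j := fun i j => sum_nonneg fun s _ => sum_nonneg fun s' _ =>
    mul_nonneg (mul_nonneg (hμ0 _ _) (hμ0 _ _)) (sum_nonneg fun x _ => by positivity)
  have hgsum : ∀ i, ∑ j, g i j ≤ 1 / 10 := by
    intro i
    have e1 : ∑ j, g i j = ∑ s : {s : List V // s.Nodup}, μ i s * ∑ x, (if x ∈ s.1 then (1 : ℝ) else 0) *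
        ∑ j, ∑ s' : {s : List V // s.Nodup}, μ j s' * (if x ∈ s'.1 then (1 : ℝ) else 0) := by
      simp only [hg, mul_sum]
      rw [sum_comm]
      refine sum_congr rfl fun s _ => ?_
      have e2 : ∀ j, ∑ s' : {s : List V // s.Nodup}, ∑ x, μ i s * μ j s' *
          ((if x ∈ s.1 then (1 : ℝ) else 0) * (if x ∈ s'.1 then (1 : ℝ) else 0)) =
          ∑ x, ∑ s' : {s : List V // s.Nodup}, μ i s * μ j s' *
          ((if x ∈ s.1 then (1 : ℝ) else 0) * (if x ∈ s'.1 then (1 : ℝ) else 0)) := fun j => sum_comm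
      rw [sum_congr rfl fun j _ => e2 j, sum_comm]
      refine sum_congr rfl fun x _ => sum_congr rfl fun j _ => sum_congr rfl fun s' _ => ?_
      ring
    rw [e1]
    have e3 : ∀ s ∈ (univ : Finset {s : List V // s.Nodup}), μ i s * ∑ x, (if x ∈ s.1 then (1 : ℝ) else 0) *
        ∑ j, ∑ s' : {s : List V // s.Nodup}, μ j s' * (if x ∈ s'.1 then (1 : ℝ) else 0) ≤ μ i s * (K * l) := by
      intro s _
      by_cases hs : s ∈ Γ i
      · refine mul_le_mul_of_nonneg_left ?_ (hμ0 i s)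
        have hs' : G.IsRung p blk l i s.1 := (mem_filter.1 hs).2
        calc ∑ x, (if x ∈ s.1 then (1 : ℝ) else 0) *
              ∑ j, ∑ s' : {s : List V // s.Nodup}, μ j s' * (if x ∈ s'.1 then (1 : ℝ) else 0)
            ≤ ∑ x, (if x ∈ s.1 then (1 : ℝ) else 0) * (K * p x) :=
              sum_le_sum fun x _ => mul_le_mul_of_nonneg_left (hload x) (by positivity)
          _ = K * ((s.1.map fun x => (p x : ℝ)).sum) := by
              rw [← sum_mem_list s.2, mul_sum]
              exact sum_congr rfl fun x _ => by ring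
          _ ≤ K * l := by
              refine mul_le_mul_of_nonneg_left ?_ hK0
              have h1 := hs'.len
              have h2 : (s.1.map fun x => (p x : ℝ)).sum = ((s.1.map p).sum : ℝ) := by
                rw [Nat.cast_list_sum, List.map_map]
                rfl
              rw [h2]
              exact h1
      · rw [hμΓ i s hs, zero_mul, zero_mul]
    refine (sum_le_sum e3).trans ?_
    rw [← sum_mul, hμ1, one_mul]
    exact hKl
  -- the local lemma
  have hPR : ∀ i j, i ≠ j → LllW.PR μ (fun z => (i, j).1 ≠ (i, j).2 ∧ ¬ List.Disjoint (z i).1 (z j).1) ≤ g i j := by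
    intro i j hij
    rw [LllW.PR_eq]
    have h1 : ∀ z : ι → {s : List V // s.Nodup}, LllW.WW μ z *
        (if (i, j).1 ≠ (i, j).2 ∧ ¬ List.Disjoint (z i).1 (z j).1 then (1 : ℝ) else 0) =
        LllW.WW μ z * (fun s s' : {s : List V // s.Nodup} => if ¬ List.Disjoint s.1 s'.1 then (1 : ℝ) else 0) (z i) (z j) := by
      intro z
      congr 1
      by_cases h : List.Disjoint (z i).1 (z j).1
      · rw [if_neg (fun hh => hh.2 h)]
        simp [h]
      · rw [if_pos ⟨hij, h⟩]
        simp [h]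
    have h5 := LllW.WW_two (Ω := fun _ : ι => {s : List V // s.Nodup}) (q := μ) hμ1 hij
      (fun s s' => if ¬ List.Disjoint s.1 s'.1 then (1 : ℝ) else 0)
    rw [sum_congr rfl fun z _ => h1 z]
    refine le_trans (le_of_eq h5) ?_
    refine sum_le_sum fun s _ => sum_le_sum fun s' _ => ?_
    refine mul_le_mul_of_nonneg_left ?_ (mul_nonneg (hμ0 _ _) (hμ0 _ _))
    by_cases h : List.Disjoint s.1 s'.1
    · rw [if_neg (not_not.mpr h)]
      exact sum_nonneg fun x _ => by positivity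
    · rw [if_pos h]
      rw [List.Disjoint] at h
      push Not at h
      obtain ⟨x, hx1, hx2⟩ := h
      have h3 := single_le_sum (f := fun x => (if x ∈ s.1 then (1 : ℝ) else 0) * (if x ∈ s'.1 then (1 : ℝ) else 0))
        (fun x _ => by positivity) (mem_univ x)
      have hx3 : x ∈ s'.1 := by simpa using hx2
      beta_reduce at h3
      rw [if_pos hx1, if_pos hx3, mul_one] at h3
      exact h3
  obtain ⟨z, hz0, hz⟩ := LllW.lll_w (V := ι) (I := ι × ι) (q := μ) hμ0 hμ1 (fun e => {e.1, e.2})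
    (fun e => ⟨e.1, by simp⟩) (fun e z => e.1 ≠ e.2 ∧ ¬ List.Disjoint (z e.1).1 (z e.2).1)
    (fun e x y hxy hx => by
      rw [← hxy e.1 (by simp), ← hxy e.2 (by simp)]
      exact hx) (by
    intro v
    have hterm : ∀ e ∈ univ.filter (fun e : ι × ι => v ∈ ({e.1, e.2} : Finset ι)),
        (2 : ℝ) ^ (({e.1, e.2} : Finset ι).card - 1) *
          LllW.PR μ (fun z => e.1 ≠ e.2 ∧ ¬ List.Disjoint (z e.1).1 (z e.2).1) ≤ 2 * g e.1 e.2 := by
      intro e _
      by_cases he : e.1 = e.2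
      · have h1 : LllW.PR μ (fun z => e.1 ≠ e.2 ∧ ¬ List.Disjoint (z e.1).1 (z e.2).1) = 0 :=
          LllW.PR_zero fun z hz => absurd he hz.1
        rw [h1, mul_zero]
        exact mul_nonneg (by norm_num) (hg0 _ _)
      · rw [card_pair he]
        norm_num
        exact hPR e.1 e.2 he
    refine (sum_le_sum hterm).trans ?_
    have h2 : ∑ e ∈ univ.filter (fun e : ι × ι => v ∈ ({e.1, e.2} : Finset ι)), 2 * g e.1 e.2 ≤
        ∑ e : ι × ι, ((if e.1 = v then 2 * g e.1 e.2 else 0) + (if e.2 = v then 2 * g e.1 e.2 else 0)) := by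
      rw [sum_filter]
      refine sum_le_sum fun e _ => ?_
      have h3 := hg0 e.1 e.2
      by_cases h4 : v ∈ ({e.1, e.2} : Finset ι)
      · rw [if_pos h4]
        rw [mem_insert, mem_singleton] at h4
        rcases h4 with h4 | h4
        · rw [if_pos h4.symm]
          split_ifs <;> linarith
        · rw [if_pos h4.symm]
          split_ifs <;> linarith
      · rw [if_neg h4]
        split_ifs <;> linarith
    refine h2.trans ?_
    rw [sum_add_distrib, Fintype.sum_prod_type, Fintype.sum_prod_type_right]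
    simp only [sum_ite_irrel, sum_const_zero, sum_ite_eq', mem_univ, if_true]
    have h5 : ∑ x, 2 * g v x = 2 * ∑ x, g v x := (mul_sum _ _ _).symm
    have h6 : ∑ x, 2 * g x v = 2 * ∑ x, g v x := by
      rw [mul_sum]
      exact sum_congr rfl fun x _ => by rw [hgsymm]
    rw [h5, h6]
    linarith [hgsum v])
  refine ⟨fun i => (z i).1, fun i => ?_, fun i j hij => ?_⟩
  · by_contra hcon
    refine hz0 i (hμΓ i (z i) fun hmem => hcon ?_)
    exact (mem_filter.1 hmem).2
  · by_contra hcon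
    exact hz (i, j) ⟨hij, hcon⟩

end WG

end Pool.Agent.GW
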