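import Pool.Agent.GW.DcsDef
import Pool.Agent.GW.Arcs
import Pool.Agent.GW.Rungs

/-!
# GW/PsEx: chains of words between the blocks (proof: helper8)

PROOF.  For every class `l` of small words which contains a block: `ι = {i | the letters of the blocks of i are in words of class l}`,
`blk β i x` = number of letters of `BL β i` in the word `x` of `cl (u/ψ) c l`; `Blocks`: for such `x`, `p x - om x` = number of letters of `x` in `E`
(partner in a big word or in another class), the blocks are disjoint subsets of `E`.  `WG.rungs` gives lists of words `γ i`,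
pairwise disjoint for the same class, and for different classes because the words have different classes.
`PS`: `I`, `n i = length - 1`, `c i j`: a letter of the `j`-th word whose partner is in the next word (`Adj`), not in `E` (same
class, both small), `x i ∈ BL false i` in the first word, `y i ∈ BL true i` in the last word.  `s i j` and `t i j` are in the `j`-th word of `γ i`;
`s ≠ t`: for `0 < j < n` because `a (c (j-1)) = c j` would give the same word at `j - 1` and `j + 1`; otherwise one of the two is in `E` and the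
other one is not, or (`n = 0`) they are in different blocks.
-/

set_option autoImplicit false

namespace Pool.Agent.GW

open Equiv Pool.Agent.SWP Finset

theorem gr_om (S : Sf) (X : Finset S.Wd) (x : {x // x ∈ X}) :
    (S.gr X).om x = (Set.ncard {d | S.wd d = x.1 ∧ S.wd (S.a d) ∈ X} : ℝ) := by
  have h := S.dual_ee {x.1} X
  unfold WG.ee at h
  rw [Finset.sum_singleton] at h
  have h2 : {d | S.wd d ∈ ({x.1} : Finset S.Wd) ∧ S.wd (S.a d) ∈ X} = {d | S.wd d = x.1 ∧ S.wd (S.a d) ∈ X} := by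
    ext d; simp
  rw [h2] at h
  rw [← h]
  exact Finset.sum_coe_sort X (fun y => S.dual.w x.1 y)

/-- the measure of a class -/
theorem nu_le (S : Sf) {E : Set S.D} {c : S.Wd → S.Wd} {ψ u κ : ℝ} (hD : S.Dcs E c ψ u κ) {N : ℕ} (hN : S.card ≤ N)
    (hN2 : 2 ≤ N) (h0 : 0 < ψ) (hψ : 1 ≤ ψ * N) (hu : 1 ≤ u) (hA : ∑ x : S.Wd, (S.pw x : ℝ) ^ 2 ≤ u * S.card)
    (i : S.Wd) : (S.gr (S.cl (u / ψ) c i)).nuP (fun x => S.pw x) u κ univ ≤ 2 * (N : ℝ) ^ 2 := by
  have hP := hD.pc i
  have hκ := hP.hκ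
  have hκ1 := hP.hκ1
  have hNr : (2 : ℝ) ≤ N := by exact_mod_cast hN2
  have hcN : (S.card : ℝ) ≤ N := by exact_mod_cast hN
  have hκN : κ ≤ N := by
    have h1 : κ * ψ ≤ N * ψ := by linarith [mul_comm ψ (N : ℝ)]
    exact le_of_mul_le_mul_right h1 h0
  unfold WG.nuP
  have hstep : ∀ x : {x // x ∈ S.cl (u / ψ) c i},
      ((S.pw x.1 : ℝ) + (S.pw x.1 : ℝ) ^ 2 / u + κ * (S.pw x.1 - (S.gr (S.cl (u / ψ) c i)).om x)) ≤
      (1 + N) * (S.pw x.1 : ℝ) + (S.pw x.1 : ℝ) ^ 2 / u := by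
    intro x
    have h1 := (S.gr (S.cl (u / ψ) c i)).om_nonneg x
    have h2 : κ * (S.pw x.1 - (S.gr (S.cl (u / ψ) c i)).om x) ≤ κ * (S.pw x.1 : ℝ) :=
      mul_le_mul_of_nonneg_left (by linarith) hκ.le
    have h3 : κ * (S.pw x.1 : ℝ) ≤ N * (S.pw x.1 : ℝ) := mul_le_mul_of_nonneg_right hκN (by positivity)
    have h4 : (1 + (N : ℝ)) * (S.pw x.1 : ℝ) = S.pw x.1 + N * (S.pw x.1 : ℝ) := by ring
    linarith
  refine (sum_le_sum fun x _ => hstep x).trans ?_
  have hu0 : 0 < u := by linarith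
  have h5 : ∑ x : {x // x ∈ S.cl (u / ψ) c i}, ((1 + N) * (S.pw x.1 : ℝ) + (S.pw x.1 : ℝ) ^ 2 / u) ≤
      ∑ x : S.Wd, ((1 + N) * (S.pw x : ℝ) + (S.pw x : ℝ) ^ 2 / u) := by
    rw [Finset.sum_coe_sort (S.cl (u / ψ) c i) (fun x => ((1 + N) * (S.pw x : ℝ) + (S.pw x : ℝ) ^ 2 / u))]
    exact Finset.sum_le_sum_of_subset_of_nonneg (subset_univ _) (fun x _ _ => by positivity)
  refine h5.trans ?_
  rw [sum_add_distrib, ← mul_sum, ← sum_div, S.DecompS_sum]
  have h6 : (∑ x : S.Wd, (S.pw x : ℝ) ^ 2) / u ≤ S.card := by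
    rw [div_le_iff₀ hu0]; linarith [mul_comm u (S.card : ℝ)]
  have h7 : (1 + (N : ℝ)) * S.card ≤ (1 + N) * N := mul_le_mul_of_nonneg_left hcN (by positivity)
  nlinarith

/-- properties of a rung of words -/
structure WR (S : Sf) (c : S.Wd → S.Wd) (M l : ℝ) (k : S.Wd) (A B : Set S.D) (g : List S.Wd) : Prop where
  ne : g ≠ []
  nodup : g.Nodup
  chain : g.IsChain (fun x y => 0 < S.dual.w x y)
  small : ∀ x ∈ g, (S.pw x : ℝ) ≤ M ∧ c x = k
  first : ∃ d ∈ A, S.wd d = g.head ne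
  last : ∃ d ∈ B, S.wd d = g.getLast ne
  len : (((g.map S.pw).sum : ℕ) : ℝ) ≤ l

open Classical in
theorem ncard_pair_sum {D J : Type} [Fintype D] [Fintype J] (BL : J → Set D)
    (hBd : ∀ P Q, ∀ d ∈ BL P, d ∈ BL Q → P = Q) (Y : Set D) :
    ∑ P, (Set.ncard {d | d ∈ BL P ∧ d ∈ Y} : ℝ) ≤ Y.ncard := by
  by_cases hJ : Nonempty J
  · obtain ⟨P0⟩ := hJ
    set f : D → J := fun d => if h : ∃ P, d ∈ BL P then h.choose else P0 with hf
    have hf2 : ∀ P, ∀ d ∈ BL P, f d = P := by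
      intro P d hd
      have h : ∃ P, d ∈ BL P := ⟨P, hd⟩
      have h1 : f d = h.choose := by simp only [hf]; rw [dif_pos h]
      rw [h1]
      exact hBd _ _ d h.choose_spec hd
    have h1 := Sf.ncard_sum f {d | (∃ P, d ∈ BL P) ∧ d ∈ Y} (univ : Finset J) (fun d _ => mem_univ _)
    have h2 : ∀ P, {d | d ∈ BL P ∧ d ∈ Y} = {d | d ∈ {d | (∃ P, d ∈ BL P) ∧ d ∈ Y} ∧ f d = P} := by
      intro P
      ext d
      simp only [Set.mem_ofPred_eq]
      constructor
      · rintro ⟨h3, h4⟩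
        exact ⟨⟨⟨P, h3⟩, h4⟩, hf2 P d h3⟩
      · rintro ⟨⟨⟨Q, h3⟩, h4⟩, h5⟩
        rw [hf2 Q d h3] at h5
        exact ⟨h5 ▸ h3, h4⟩
    have h3 : ∑ P, (Set.ncard {d | d ∈ BL P ∧ d ∈ Y} : ℝ) = (Set.ncard {d | (∃ P, d ∈ BL P) ∧ d ∈ Y} : ℝ) := by
      rw [h1]
      exact sum_congr rfl fun P _ => by rw [h2 P]
    rw [h3]
    have h4 : {d | (∃ P, d ∈ BL P) ∧ d ∈ Y} ⊆ Y := fun d hd => hd.2
    exact_mod_cast Set.ncard_le_ncard h4 (Set.toFinite _)
  · rw [not_nonempty_iff] at hJ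
    simp

open Classical in
theorem class_rungs (S : Sf) {E : Set S.D} {c : S.Wd → S.Wd} {ψ u κ N : ℝ} (hD : S.Dcs E c ψ u κ) (k : S.Wd)
    (hnu : (S.gr (S.cl (u / ψ) c k)).nuP (fun x => S.pw x) u κ univ ≤ N) (hN : 2 ≤ N)
    {I : Type} [Fintype I] (BL : Bool → I → Set S.D) {b : ℕ} (hb1 : 1 ≤ b)
    (hBE : ∀ β i, ∀ d ∈ BL β i, d ∈ E ∧ (S.pw (S.wd d) : ℝ) ≤ u / ψ) (hBc : ∀ β i, (BL β i).ncard = b)
    (hBd : ∀ β i γ j, ∀ d ∈ BL β i, d ∈ BL γ j → β = γ ∧ i = j)
    (hk : ∀ β i, ∀ d ∈ BL β i, c (S.wd d) = k)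
    (hb : 10 ^ 10 * (u / ψ) * Real.log N ^ 3 ≤ κ * ψ * b) :
    ∃ γ : I → List S.Wd, (∀ i, WR S c (u / ψ) (10 ^ 3 * (u / ψ) * Real.log N) k (BL false i) (BL true i) (γ i)) ∧
      ∀ i j, i ≠ j → List.Disjoint (γ i) (γ j) := by
  by_cases hI : Nonempty I
  swap
  · rw [not_nonempty_iff] at hI
    exact ⟨fun _ => [], fun i => isEmptyElim i, fun i => isEmptyElim i⟩
  obtain ⟨i0⟩ := hI
  have memX : ∀ β i, ∀ d ∈ BL β i, S.wd d ∈ S.cl (u / ψ) c k := by
    intro β i d hd
    unfold Sf.cl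
    rw [mem_filter]
    exact ⟨mem_univ _, (hBE β i d hd).2, hk β i d hd⟩
  have hV : Nonempty {x // x ∈ S.cl (u / ψ) c k} := by
    have h1 : (BL false i0).Nonempty := by
      rw [← Set.ncard_pos (Set.toFinite _), hBc]
      omega
    obtain ⟨d, hd⟩ := h1
    exact ⟨⟨S.wd d, memX _ _ d hd⟩⟩
  set blk : Bool → I → {x // x ∈ S.cl (u / ψ) c k} → ℝ :=
    fun β i x => (Set.ncard {d | d ∈ BL β i ∧ S.wd d = x.1} : ℝ) with hblk
  have hB : (S.gr (S.cl (u / ψ) c k)).Blocks (fun x => S.pw x.1) blk b := by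
    refine ⟨fun β i x => by positivity, ?_, ?_⟩
    · intro x
      set Y : Set S.D := {d | S.wd d = x.1 ∧ S.wd (S.a d) ∉ S.cl (u / ψ) c k} with hY
      have h1 : (S.pw x.1 : ℝ) - (S.gr (S.cl (u / ψ) c k)).om x = Y.ncard := by
        rw [gr_om]
        have h2 : S.pw x.1 = Set.ncard {d | S.wd d = x.1 ∧ S.wd (S.a d) ∈ S.cl (u / ψ) c k} + Y.ncard := by
          unfold Sf.pw
          rw [← Set.ncard_union_eq _ (Set.toFinite _) (Set.toFinite _)]
          · congr 1
            ext d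
            simp only [hY, Set.mem_union, Set.mem_ofPred_eq]
            tauto
          · rw [Set.disjoint_left]
            rintro d ⟨_, h3⟩ ⟨_, h4⟩
            exact h4 h3
        rw [h2]
        push_cast
        ring
      rw [h1]
      have h3 := ncard_pair_sum (fun P : Bool × I => BL P.1 P.2) (fun P Q d h4 h5 => by
        obtain ⟨h6, h7⟩ := hBd P.1 P.2 Q.1 Q.2 d h4 h5
        exact Prod.ext h6 h7) Y
      rw [← Fintype.sum_prod_type' (f := fun β i => blk β i x)]
      refine le_trans (le_of_eq ?_) h3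
      refine sum_congr rfl fun P _ => ?_
      simp only [hblk]
      congr 2
      ext d
      simp only [Set.mem_ofPred_eq, hY]
      constructor
      · rintro ⟨h4, h5⟩
        refine ⟨h4, h5, ?_⟩
        intro h6
        unfold Sf.cl at h6
        rw [mem_filter] at h6
        have h7 := (hD.mem d).1 (hBE _ _ d h4).1
        rcases h7 with h7 | h7 | h7
        · exact absurd (hBE _ _ d h4).2 (not_le.2 h7)
        · exact absurd h6.2.1 (not_le.2 h7)
        · exact h7 ((hk _ _ d h4).trans h6.2.2.symm)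
      · rintro ⟨h4, h5, _⟩
        exact ⟨h4, h5⟩
    · intro β i
      have h1 := Sf.ncard_sum S.wd (BL β i) (S.cl (u / ψ) c k) (memX β i)
      rw [hBc β i] at h1
      rw [h1]
      exact le_of_eq (Finset.sum_coe_sort (S.cl (u / ψ) c k)
        (fun x => (Set.ncard {d | d ∈ BL β i ∧ S.wd d = x} : ℝ))).symm
  obtain ⟨γ, hγ, hdis⟩ := (S.gr (S.cl (u / ψ) c k)).rungs (hD.pc k) hB hnu hN hb
  refine ⟨fun i => (γ i).map Subtype.val, fun i => ?_, fun i j hij => ?_⟩
  · have h := hγ i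
    have hne : (γ i).map Subtype.val ≠ [] := fun h0 => h.ne (List.map_eq_nil_iff.1 h0)
    refine ⟨hne, h.nodup.map Subtype.val_injective, ?_, ?_, ?_, ?_, ?_⟩
    · rw [List.isChain_map]
      exact h.chain.imp fun x y hxy => hxy.2
    · intro x hx
      obtain ⟨y, _, rfl⟩ := List.mem_map.1 hx
      have h1 := y.2
      unfold Sf.cl at h1
      rw [mem_filter] at h1
      exact h1.2
    · have h1 := h.first
      simp only [hblk] at h1
      have h2 : 0 < Set.ncard {d | d ∈ BL false i ∧ S.wd d = ((γ i).head h.ne).1} := by exact_mod_cast h1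
      rw [Set.ncard_pos (Set.toFinite _)] at h2
      obtain ⟨d, hd1, hd2⟩ := h2
      exact ⟨d, hd1, by rw [hd2, List.head_map]⟩
    · have h1 := h.last
      simp only [hblk] at h1
      have h2 : 0 < Set.ncard {d | d ∈ BL true i ∧ S.wd d = ((γ i).getLast h.ne).1} := by exact_mod_cast h1
      rw [Set.ncard_pos (Set.toFinite _)] at h2
      obtain ⟨d, hd1, hd2⟩ := h2
      exact ⟨d, hd1, by rw [hd2, List.getLast_map]⟩
    · have h1 := h.len
      rw [List.map_map]
      exact h1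
  · intro x hx hy
    obtain ⟨x', hx1, hx2⟩ := List.mem_map.1 hx
    obtain ⟨y', hy1, hy2⟩ := List.mem_map.1 hy
    have : x' = y' := Subtype.ext (hx2.trans hy2.symm)
    subst this
    exact hdis i j hij hx1 hy1

theorem sum_range_getD {α : Type} (f : α → ℕ) (a0 : α) : ∀ l : List α,
    ∑ j ∈ range l.length, f (l.getD j a0) = (l.map f).sum
  | [] => by simp
  | a :: t => by
    rw [List.length_cons, sum_range_succ', List.map_cons, List.sum_cons, ← sum_range_getD f a0 t, add_comm]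
    simp

theorem ps_exists (S : Sf) (hS : S.Closed) {E : Set S.D} {c : S.Wd → S.Wd} {ψ u κ N : ℝ} (hD : S.Dcs E c ψ u κ)
    (hnu : ∀ i, (S.gr (S.cl (u / ψ) c i)).nuP (fun x => S.pw x) u κ univ ≤ N) (hN : 2 ≤ N)
    {I : Type} [Fintype I] (BL : Bool → I → Set S.D) {b : ℕ} (hb1 : 1 ≤ b)
    (hBE : ∀ β i, ∀ d ∈ BL β i, d ∈ E ∧ (S.pw (S.wd d) : ℝ) ≤ u / ψ) (hBc : ∀ β i, (BL β i).ncard = b)
    (hBd : ∀ β i γ j, ∀ d ∈ BL β i, d ∈ BL γ j → β = γ ∧ i = j)
    (hBl : ∀ β γ i, ∀ d ∈ BL β i, ∀ e ∈ BL γ i, c (S.wd d) = c (S.wd e))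
    (hb : 10 ^ 10 * (u / ψ) * Real.log N ^ 3 ≤ κ * ψ * b) :
    ∃ (Q : PS S E) (φ : Q.I ≃ I), (∀ i, Q.x i ∈ BL false (φ i)) ∧ (∀ i, Q.y i ∈ BL true (φ i)) ∧
      (∀ i, ∀ j ≤ Q.n i, S.r.SameCycle (Q.s i j) (Q.t i j) ∧ Q.s i j ≠ Q.t i j) ∧
      (∀ i i', ∀ j ≤ Q.n i, ∀ j' ≤ Q.n i', S.r.SameCycle (Q.s i j) (Q.s i' j') → i = i' ∧ j = j') ∧
      (∀ i, ∀ j ≤ Q.n i, (S.pw (S.wd (Q.s i j)) : ℝ) ≤ u / ψ) ∧
      ∀ i, ((∑ j ∈ range (Q.n i + 1), S.len (Q.s i j) : ℕ) : ℝ) ≤ 10 ^ 3 * (u / ψ) * Real.log N := by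
  classical
  -- classes of the indices
  have hne : ∀ i, ∃ d, d ∈ BL false i := by
    intro i
    have h1 : (BL false i).Nonempty := by
      rw [← Set.ncard_pos (Set.toFinite _), hBc]
      omega
    exact h1
  choose d0 hd0 using hne
  set K : I → S.Wd := fun i => c (S.wd (d0 i)) with hK
  have hKc : ∀ β i, ∀ d ∈ BL β i, c (S.wd d) = K i := fun β i d hd => hBl β false i d hd _ (hd0 i)
  have hall : ∀ k : S.Wd, ∃ γ : {i : I // K i = k} → List S.Wd,
      (∀ i, WR S c (u / ψ) (10 ^ 3 * (u / ψ) * Real.log N) k (BL false i.1) (BL true i.1) (γ i)) ∧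
      ∀ i j, i ≠ j → List.Disjoint (γ i) (γ j) := by
    intro k
    exact class_rungs S hD k (hnu k) hN (fun β (i : {i : I // K i = k}) => BL β i.1) hb1
      (fun β i d hd => hBE β i.1 d hd) (fun β i => hBc β i.1)
      (fun β i γ j d h1 h2 => ⟨(hBd β i.1 γ j.1 d h1 h2).1, Subtype.ext (hBd β i.1 γ j.1 d h1 h2).2⟩)
      (fun β i d hd => (hKc β i.1 d hd).trans i.2) hb
  choose Γ hΓ1 hΓ2 using hall
  set g : I → List S.Wd := fun i => Γ (K i) ⟨i, rfl⟩ with hg
  have hW : ∀ i, WR S c (u / ψ) (10 ^ 3 * (u / ψ) * Real.log N) (K i) (BL false i) (BL true i) (g i) :=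
    fun i => hΓ1 (K i) ⟨i, rfl⟩
  have hgk : ∀ i k (h : K i = k), g i = Γ k ⟨i, h⟩ := by
    rintro i _ rfl; rfl
  have hdis : ∀ i j x, x ∈ g i → x ∈ g j → i = j := by
    intro i j x hx hy
    by_contra hij
    have h1 : K j = K i := ((hW j).small x hy).2.symm.trans ((hW i).small x hx).2
    rw [hgk j (K i) h1] at hy
    exact hΓ2 (K i) ⟨i, rfl⟩ ⟨j, h1⟩ (fun h => hij (congrArg Subtype.val h)) hx hy
  -- the words
  set n : I → ℕ := fun i => (g i).length - 1 with hn
  have hlen : ∀ i, (g i).length = n i + 1 := by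
    intro i
    have h1 : 0 < (g i).length := List.length_pos_of_ne_nil (hW i).ne
    simp only [hn]
    omega
  set w : I → ℕ → S.Wd := fun i j => (g i).getD j (K i) with hw
  have hwe : ∀ i j (h : j ≤ n i), w i j = (g i)[j]'(by have := hlen i; omega) := by
    intro i j h
    simp only [hw]
    rw [List.getD_eq_getElem]
  have wmem : ∀ i j, j ≤ n i → w i j ∈ g i := by
    intro i j h
    rw [hwe i j h]
    exact List.getElem_mem _
  have winj : ∀ i j j', j ≤ n i → j' ≤ n i → w i j = w i j' → j = j' := by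
    intro i j j' h h' he
    rw [hwe i j h, hwe i j' h'] at he
    exact ((hW i).nodup.getElem_inj_iff).1 he
  have wstep : ∀ i j, j < n i → 0 < S.dual.w (w i j) (w i (j + 1)) := by
    intro i j h
    have h1 := (hW i).chain
    rw [List.isChain_iff_getElem] at h1
    rw [hwe i j (by omega), hwe i (j + 1) (by omega)]
    exact h1 j (by have := hlen i; omega)
  have hxex : ∀ i, ∃ d ∈ BL false i, S.wd d = w i 0 := by
    intro i
    obtain ⟨d, hd1, hd2⟩ := (hW i).first
    refine ⟨d, hd1, ?_⟩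
    rw [hd2, hwe i 0 (by omega), List.head_eq_getElem]
  have hyex : ∀ i, ∃ d ∈ BL true i, S.wd d = w i (n i) := by
    intro i
    obtain ⟨d, hd1, hd2⟩ := (hW i).last
    refine ⟨d, hd1, ?_⟩
    rw [hd2, hwe i (n i) le_rfl, List.getLast_eq_getElem]
  choose x hx1 hx2 using hxex
  choose y hy1 hy2 using hyex
  have hcex : ∀ i j, ∃ d : S.D, j < n i → S.wd d = w i j ∧ S.wd (S.a d) = w i (j + 1) := by
    intro i j
    by_cases h : j < n i
    · have h1 : (0 : ℝ) < (Set.ncard {d : S.D | S.wd d = w i j ∧ S.wd (S.a d) = w i (j + 1)} : ℝ) := wstep i j h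
      have h2 : 0 < Set.ncard {d : S.D | S.wd d = w i j ∧ S.wd (S.a d) = w i (j + 1)} := by exact_mod_cast h1
      rw [Set.ncard_pos (Set.toFinite _)] at h2
      obtain ⟨d, hd⟩ := h2
      exact ⟨d, fun _ => hd⟩
    · exact ⟨x i, fun h' => absurd h' h⟩
  choose cc hcc using hcex
  have hccE : ∀ i, ∀ j < n i, cc i j ∉ E := by
    intro i j h hE
    have h1 := hcc i j h
    have h2 := (hW i).small _ (wmem i j (by omega))
    have h3 := (hW i).small _ (wmem i (j + 1) (by omega))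
    rw [hD.mem, h1.1, h1.2] at hE
    rcases hE with hE | hE | hE
    · exact absurd h2.1 (not_le.2 hE)
    · exact absurd h3.1 (not_le.2 hE)
    · exact hE (h2.2.trans h3.2.symm)
  set Q : PS S E := ⟨I, inferInstance, n, cc, x, y, fun i => (hBE _ _ _ (hx1 i)).1, fun i => (hBE _ _ _ (hy1 i)).1,
    hccE⟩ with hQ
  have hs : ∀ i j, j ≤ n i → S.wd (Q.s i j) = w i j := by
    intro i j h
    cases j with
    | zero => exact hx2 i
    | succ j => exact (hcc i j (by omega)).2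
  have ht : ∀ i j, j ≤ n i → S.wd (Q.t i j) = w i j := by
    intro i j h
    by_cases h2 : j < n i
    · have h3 : Q.t i j = cc i j := if_pos h2
      rw [h3]
      exact (hcc i j h2).1
    · have h3 : Q.t i j = y i := if_neg h2
      have h4 : j = n i := by omega
      rw [h3, h4]
      exact hy2 i
  refine ⟨Q, Equiv.refl I, hx1, hy1, ?_, ?_, ?_, ?_⟩
  · intro i j hj
    refine ⟨(S.wd_eq _ _).1 ((hs i j hj).trans (ht i j hj).symm), ?_⟩
    intro he
    have hj' : j ≤ n i := hj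
    by_cases h2 : j < n i
    · have h3 : Q.t i j = cc i j := if_pos h2
      rw [h3] at he
      cases j with
      | zero =>
        have h4 : Q.s i 0 = x i := rfl
        rw [h4] at he
        exact hccE i 0 h2 (he ▸ (hBE _ _ _ (hx1 i)).1)
      | succ j =>
        have h4 : Q.s i (j + 1) = S.a (cc i j) := rfl
        rw [h4] at he
        have h5 : S.wd (S.a (cc i (j + 1))) = w i (j + 2) := (hcc i (j + 1) h2).2
        rw [← he, S.aa, (hcc i j (by omega)).1] at h5
        have h6 := winj i j (j + 2) (by omega) (by omega) h5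
        omega
    · have h3 : Q.t i j = y i := if_neg h2
      rw [h3] at he
      cases j with
      | zero =>
        have h4 : Q.s i 0 = x i := rfl
        rw [h4] at he
        have h5 := (hBd false i true i (x i) (hx1 i) (he ▸ hy1 i)).1
        exact absurd h5 (by decide)
      | succ j =>
        have h4 : Q.s i (j + 1) = S.a (cc i j) := rfl
        rw [h4] at he
        have h5 : S.a (y i) ∈ E := hD.cl _ (hBE _ _ _ (hy1 i)).1
        rw [← he, S.aa] at h5
        exact hccE i j (by omega) h5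
  · intro i i' j hj j' hj' h
    have h1 : w i j = w i' j' := by
      rw [← hs i j hj, ← hs i' j' hj']
      exact (S.wd_eq _ _).2 h
    have h2 : i = i' := hdis i i' (w i j) (wmem i j hj) (h1 ▸ wmem i' j' hj')
    subst h2
    exact ⟨rfl, winj i j j' hj hj' h1⟩
  · intro i j hj
    rw [hs i j hj]
    exact ((hW i).small _ (wmem i j hj)).1
  · intro i
    refine le_trans ?_ (hW i).len
    have h1 : ∑ j ∈ range (n i + 1), S.len (Q.s i j) ≤ ∑ j ∈ range (g i).length, S.pw (w i j) := by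
      rw [hlen i]
      refine sum_le_sum fun j hj => ?_
      have hj' : j ≤ n i := by rw [mem_range] at hj; omega
      rw [← hs i j hj']
      unfold Sf.len Sf.num Sf.pw
      refine Set.ncard_le_ncard ?_ (Set.toFinite _)
      rintro d ⟨hd, _⟩
      exact ((S.wd_eq _ _).2 hd).symm
    rw [sum_range_getD S.pw (K i) (g i)] at h1
    exact_mod_cast h1

end Pool.Agent.GW
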