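import Pool.Agent.GW.Cap

/-!
# GW/QCov (helper61): the cover for an arbitrary predicate (MP_37d33d_gt)

`QC Q`: the predicate `Q` of states goes down along `dbl`, `vtx` and along embeddings which only add isolated dead
letters (in both directions). `Q_cov`, `Q_cap`: such a predicate goes from the cover (from the capped surface and the
surface of the holes) down to the surface. Applied to `k ≤ genus`.
-/

set_option autoImplicit false

namespace Pool.Agent.GW

open Equiv Pool.Agent.SWP

/-- predicates which go down along the moves used by covers -/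
structure QC (Q : Sf → Prop) : Prop where
  dbl : ∀ (S : Sf) (e : S.D), S.a e ≠ e → Q (S.dbl e) → Q S
  vtx : ∀ (S : Sf) (p q : S.D), S.a p ≠ p → S.a q ≠ q → p ≠ q → S.vx p q → Q (S.setr (sw p q * S.r)) → Q S
  emb : ∀ {S T : Sf} {j : S.D → T.D}, Emb S T j → Q T → Q S
  ext : ∀ {S T : Sf} {j : S.D → T.D}, Emb S T j → Q S → Q T

namespace QC

open CovU

variable {Q : Sf → Prop} (hQ : QC Q)
include hQ

theorem dbl_step (S : Sf) (G : Set S.D) (e : S.D) (he : e ∉ G) (hl : S.a e ≠ e)
    (h : Q (S.cov (insert e G) (K0 S.D))) : Q (S.cov G (K0 S.D)) := by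
  refine hQ.dbl (S.cov G (K0 S.D)) (Sum.inl e) (fun h' => hl (Sum.inl_injective h')) ?_
  have hE : Emb (S.cov (insert e G) (K0 S.D)) ((S.cov G (K0 S.D)).dbl (Sum.inl e)) (jj S e) :=
    ⟨⟨jj_inj S e, jj_r S G e he, jj_a S G e he⟩, jj_dead S G e he⟩
  exact hQ.ext hE h

theorem dbl_all (S : Sf) (G : Set S.D) (hlive : ∀ d ∈ G, S.a d ≠ d) (h : Q (S.cov G (K0 S.D))) : Q S := by
  have key : ∀ F : Set S.D, F ⊆ G → Q (S.cov F (K0 S.D)) → Q S := by
    intro F
    induction F, Set.toFinite F using Set.Finite.induction_on with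
    | empty =>
      intro _ h
      have hE : Emb S (S.cov ∅ (K0 S.D)) (Sum.inl : S.D → S.D ⊕ (S.D ⊕ S.D)) := by
        refine ⟨⟨Sum.inl_injective, ?_, fun _ => rfl⟩, ?_⟩
        · intro d
          have h1 := r_pl S (K0_G (D := S.D) ∅) d
          rw [pl_notMem (Set.notMem_empty _), pl_notMem (Set.notMem_empty _)] at h1
          exact h1
        · rintro (d | d | d) hd
          · exact absurd rfl (hd d)
          · exact a_cp_not S (Set.notMem_empty _)
          · exact a_pt_not S (Set.notMem_empty _)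
      exact hQ.emb hE h
    | @insert e F he _ ih =>
      intro hF h
      exact ih (fun d hd => hF (Set.mem_insert_of_mem _ hd))
        (hQ.dbl_step S F e he (hlive e (hF (Set.mem_insert _ _))) h)
  exact key G subset_rfl h

theorem join_step (S : Sf) (G : Set S.D) (K : Lk S.D) (J : Set S.D) (hlive : ∀ d ∈ G, S.a d ≠ d)
    (hK : ∀ d e, K.N d = some e → d ∈ G ∧ e ∈ G ∧ S.Cor G d e) (d : S.D) (hd : d ∉ J)
    (h : Q (S.cov G (res K (insert d J)))) : Q (S.cov G (res K J)) := by
  rcases hN : K.N d with _ | e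
  · rw [res_none K J d hN] at h
    exact h
  have hG : ∀ d e, K.N d = some e → d ∈ G ∧ e ∈ G := fun d e h => ⟨(hK d e h).1, (hK d e h).2.1⟩
  obtain ⟨hdG, heG, hc⟩ := hK d e hN
  have hP0 : (res K J).P e = none := by
    rcases h1 : (res K J).P e with _ | y
    · rfl
    · have h2 := res_P_some K h1
      rw [(K.h d e).1 hN] at h2
      obtain rfl := Option.some_injective _ h2
      have h3 := ((res K J).h d e).2 h1
      rw [res_N_not K hd] at h3
      exact absurd h3 (by simp)
  have hp : A S G (res K J) (Sum.inr (Sum.inr d)) ≠ Sum.inr (Sum.inr d) := by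
    rw [a_pt S hdG]
    exact fun h' => Sum.inl_ne_inr (Sum.inr_injective h')
  have hq : A S G (res K J) (Sum.inl e) ≠ Sum.inl e := fun h' => hlive e heG (Sum.inl_injective h')
  refine hQ.vtx (S.cov G (res K J)) (Sum.inr (Sum.inr d)) (Sum.inl e) hp hq Sum.inr_ne_inl
    (cov_vx S G K J hG d e hdG heG hP0 hc) ?_
  have hr : (S.cov G (res K (insert d J))).r =
      sw (Sum.inr (Sum.inr d) : S.D ⊕ (S.D ⊕ S.D)) (Sum.inl e) * R S G (res K J) := by
    ext x
    exact ta_insert K J d e hd hN _
  have he : (S.cov G (res K J)).setr (sw (Sum.inr (Sum.inr d) : S.D ⊕ (S.D ⊕ S.D)) (Sum.inl e) * R S G (res K J)) =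
      S.cov G (res K (insert d J)) := by
    rw [← hr]
    rfl
  have h5 := h
  rw [← he] at h5
  exact h5

/-- from the cover down to the surface -/
theorem cov (S : Sf) (G : Set S.D) (K : Lk S.D) (hlive : ∀ d ∈ G, S.a d ≠ d)
    (hK : ∀ d e, K.N d = some e → d ∈ G ∧ e ∈ G ∧ S.Cor G d e) (h : Q (S.cov G K)) : Q S := by
  apply hQ.dbl_all S G hlive
  rw [← res_empty K]
  have key : ∀ J : Set S.D, Q (S.cov G (res K J)) → Q (S.cov G (res K ∅)) := by
    intro J
    induction J, Set.toFinite J using Set.Finite.induction_on with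
    | empty => exact fun h => h
    | @insert d J hd _ ih => exact fun h => ih (hQ.join_step S G K J hlive hK d hd h)
  apply key Set.univ
  rw [res_univ]
  exact h

/-- isomorphic states -/
theorem iso {S T : Sf} {φ : S.D ≃ T.D} (hφ : Iso S T φ) (h : Q S) : Q T := by
  have hE : Emb S T φ := ⟨⟨φ.injective, hφ.r, hφ.a⟩, fun e he => absurd (φ.apply_symm_apply e) (he _)⟩
  exact hQ.ext hE h

/-- from the capped surface and the surface of the holes down to the surface -/
theorem cap (S : Sf) (E : Set S.D) (hE : S.Cl E) (hlive : ∀ d ∈ E, S.a d ≠ d) (ρ : Perm S.D)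
    (hρ : S.FR E ρ) (h : Q ((S.capped E hE ρ).add (S.holes E ρ))) : Q S := by
  refine hQ.cov S E (capK E ρ hρ.off hρ.mem) hlive ?_ ?_
  · intro d e h
    by_cases hd : d ∈ E
    · have h3 : (capK E ρ hρ.off hρ.mem).N d = some (ρ d) := capN_pos hd
      rw [h3] at h
      have h4 : ρ d = e := Option.some.inj h
      rw [← h4]
      exact ⟨hd, hρ.mem d hd, hρ.cor d hd⟩
    · have h3 : (capK E ρ hρ.off hρ.mem).N d = none := capN_neg hd
      rw [h3] at h
      exact absurd h (by simp)
  · exact hQ.iso (cap_iso S E hE ρ hρ.off hρ.mem).symm h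

end QC

end Pool.Agent.GW
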