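import Pool.Agent.GW.Fin
import Pool.Agent.SWP.DefR
import Pool.Agent.GW.GenDef

/-!
# GW/RefR (helper73): numbers of letters on a scale (definitions of the refinements: SWP/DefR)
-/

set_option autoImplicit false

namespace Pool.Agent.GW

open Equiv Pool.Agent.SWP

/-- number of letters with real lengths `w` on a scale `η` -/
noncomputable def qn (η : ℝ) (S : St) (d : S.D) : ℝ := S.w d / η + 1

end Pool.Agent.GW
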