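import Mathlib

/-!
# GW/RegNum (helper92): the numbers of the regular case
-/

set_option autoImplicit false

namespace Pool.Agent.GW

open Finset

theorem rn_par {G A : ℕ} (hG : 2 ≤ G) (hA : G ^ 4 ≤ A) : 4 ≤ A / (2 * G) ∧ A ≤ 4 * G * (A / (2 * G)) ∧
    2 * G * (A / (2 * G)) ≤ A := by
  have h1 : 8 * G ≤ G ^ 4 := by
    have h2 : 2 ^ 3 ≤ G ^ 3 := Nat.pow_le_pow_left hG 3
    calc 8 * G ≤ G ^ 3 * G := Nat.mul_le_mul_right _ h2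
      _ = G ^ 4 := by ring
  have h0 : 0 < 2 * G := by omega
  have h4 : 4 ≤ A / (2 * G) := by
    rw [Nat.le_div_iff_mul_le h0]
    calc 4 * (2 * G) = 8 * G := by ring
      _ ≤ A := h1.trans hA
  refine ⟨h4, ?_, Nat.mul_div_le _ _⟩
  have h5 : A < 2 * G * (A / (2 * G) + 1) := by
    have := Nat.lt_mul_div_succ A h0
    exact this
  nlinarith

theorem rn_sqrt {a0 : ℕ} (h : 4 ≤ a0) : 18 * a0 < (Nat.sqrt (18 * a0) + 1) ^ 2 ∧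
    (Nat.sqrt (18 * a0) + 1) ^ 2 ≤ 36 * a0 := by
  constructor
  · exact Nat.lt_succ_sqrt' _
  · have h1 : Nat.sqrt (18 * a0) ^ 2 ≤ 18 * a0 := Nat.sqrt_le' _
    have h2 : 8 ≤ Nat.sqrt (18 * a0) := by
      rw [Nat.le_sqrt]
      omega
    nlinarith

theorem rn_K {V : Type} [Fintype V] (tops : Finset V) (K p : V → ℕ) {r0 G A : ℕ} (hK : ∀ t, K t ≤ 9 * (p t + 5 * r0))
    (hp : ∑ t ∈ tops, p t ^ 2 ≤ A + tops.card * (2 * r0) ^ 2) (hc : tops.card ≤ 79 * G) (hr : r0 ^ 2 * G ≤ 18 * A)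
    (h0 : ∀ t, t ∉ tops → K t = 0) : ∑ t, K t ^ 2 ≤ 7000000 * A := by
  classical
  have e1 : ∑ t, K t ^ 2 = ∑ t ∈ tops, K t ^ 2 := by
    refine (sum_subset (subset_univ _) (fun t _ ht => ?_)).symm
    rw [h0 t ht]
    rfl
  rw [e1]
  have e2 : ∀ t ∈ tops, K t ^ 2 ≤ 162 * p t ^ 2 + 4050 * r0 ^ 2 := by
    intro t _
    have h1 := hK t
    have h2 : K t ^ 2 ≤ (9 * (p t + 5 * r0)) ^ 2 := Nat.pow_le_pow_left h1 2
    have h3 : (9 * (p t + 5 * r0)) ^ 2 ≤ 162 * p t ^ 2 + 4050 * r0 ^ 2 := by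
      have h4 : 2 * (p t * (5 * r0)) ≤ p t ^ 2 + (5 * r0) ^ 2 := by
        have := two_mul_le_add_sq (p t : ℤ) (5 * r0 : ℤ)
        zify
        nlinarith
      nlinarith
    exact h2.trans h3
  have e3 := sum_le_sum e2
  rw [sum_add_distrib, ← mul_sum, sum_const, smul_eq_mul] at e3
  have e4 : tops.card * r0 ^ 2 ≤ 79 * (18 * A) := by
    calc tops.card * r0 ^ 2 ≤ 79 * G * r0 ^ 2 := Nat.mul_le_mul_right _ hc
      _ = 79 * (r0 ^ 2 * G) := by ring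
      _ ≤ 79 * (18 * A) := Nat.mul_le_mul_left _ hr
  have e5 : tops.card * (2 * r0) ^ 2 = 4 * (tops.card * r0 ^ 2) := by ring
  have e6 : tops.card * (4050 * r0 ^ 2) = 4050 * (tops.card * r0 ^ 2) := by ring
  rw [e5] at hp
  rw [e6] at e3
  omega

theorem rn_W {V : Type} [Fintype V] (tops : Finset V) (K : V → ℕ) {G A : ℕ} (hc : tops.card ≤ 79 * G)
    (h0 : ∀ t, t ∉ tops → K t = 0) (h1 : ∑ t, K t ^ 2 ≤ 7000000 * A) :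
    ((∑ t, K t : ℕ) : ℝ) ≤ 24000 * (Real.sqrt G * Real.sqrt A) := by
  classical
  have e1 : ∑ t, K t = ∑ t ∈ tops, K t := by
    refine (sum_subset (subset_univ _) (fun t _ ht => ?_)).symm
    exact h0 t ht
  have e2 : ∑ t ∈ tops, K t ^ 2 ≤ 7000000 * A := by
    refine le_trans (sum_le_sum_of_subset (subset_univ _)) h1
  have e3 : ((∑ t ∈ tops, K t : ℕ) : ℝ) ^ 2 ≤ (tops.card : ℝ) * ∑ t ∈ tops, (K t : ℝ) ^ 2 := by
    push_cast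
    exact sq_sum_le_card_mul_sum_sq
  have e4 : (∑ t ∈ tops, (K t : ℝ) ^ 2) ≤ 7000000 * A := by exact_mod_cast e2
  have e5 : (tops.card : ℝ) ≤ 79 * G := by exact_mod_cast hc
  have e6 : ((∑ t ∈ tops, K t : ℕ) : ℝ) ^ 2 ≤ (79 * G) * (7000000 * A) :=
    e3.trans (mul_le_mul e5 e4 (by positivity) (by positivity))
  rw [e1]
  have e7 : (0 : ℝ) ≤ 24000 * (Real.sqrt G * Real.sqrt A) := by positivity
  refine abs_le_of_sq_le_sq' ?_ e7 |>.2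
  have e8 : (24000 * (Real.sqrt G * Real.sqrt A)) ^ 2 = 576000000 * (G * A) := by
    rw [mul_pow, mul_pow, Real.sq_sqrt (Nat.cast_nonneg _), Real.sq_sqrt (Nat.cast_nonneg _)]
    norm_num
  rw [e8]
  refine e6.trans ?_
  have : (0 : ℝ) ≤ (G : ℝ) * A := by positivity
  nlinarith

/-- the step of the marks -/
theorem rn_dl {G A : ℕ} (hG : 2 ≤ G) (hA : G ^ 4 ≤ A) : ∃ dl : ℕ, 1 ≤ dl ∧ Real.sqrt A ≤ dl * (G : ℝ) ^ 2 ∧
    dl * (G : ℝ) ^ 2 ≤ 2 * Real.sqrt A := by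
  have hG0 : (0 : ℝ) < (G : ℝ) ^ 2 := by positivity
  have h1 : (G : ℝ) ^ 2 ≤ Real.sqrt A := by
    rw [Real.le_sqrt' hG0, ← pow_mul]
    exact_mod_cast hA
  have hs : (0 : ℝ) < Real.sqrt A := lt_of_lt_of_le hG0 h1
  refine ⟨⌈Real.sqrt A / (G : ℝ) ^ 2⌉₊, ?_, ?_, ?_⟩
  · exact Nat.one_le_iff_ne_zero.2 (Nat.ceil_pos.2 (by positivity)).ne'
  · have := Nat.le_ceil (Real.sqrt A / (G : ℝ) ^ 2)
    rw [div_le_iff₀ hG0] at this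
    exact this
  · have := (Nat.ceil_lt_add_one (show 0 ≤ Real.sqrt A / (G : ℝ) ^ 2 by positivity)).le
    have h2 := mul_le_mul_of_nonneg_right this hG0.le
    rw [add_mul, div_mul_cancel₀ _ hG0.ne', one_mul] at h2
    linarith

theorem rn_card {G A dl c w : ℕ} (hG : 2 ≤ G) (hdl : 1 ≤ dl) (h1 : Real.sqrt A ≤ dl * (G : ℝ) ^ 2)
    (h : dl * c ≤ 14 * (dl * (182 * G)) + 2 * w) (hw : (w : ℝ) ≤ 24000 * (Real.sqrt G * Real.sqrt A)) :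
    (c : ℝ) ≤ 52000 * (G : ℝ) ^ 3 := by
  have hd : (0 : ℝ) < dl := by exact_mod_cast hdl
  have hG1 : (1 : ℝ) ≤ G := by exact_mod_cast (by omega : 1 ≤ G)
  have h2 : (dl : ℝ) * c ≤ 14 * (dl * (182 * G)) + 2 * w := by exact_mod_cast h
  have hsG : Real.sqrt G ≤ G := by
    rw [Real.sqrt_le_iff]
    refine ⟨by positivity, ?_⟩
    nlinarith
  have h3 : Real.sqrt G * Real.sqrt A ≤ G * (dl * (G : ℝ) ^ 2) :=
    mul_le_mul hsG h1 (Real.sqrt_nonneg _) (by positivity)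
  have h4 : (dl : ℝ) * c ≤ dl * (52000 * (G : ℝ) ^ 3) := by
    have h5 : (G : ℝ) ≤ (G : ℝ) ^ 3 := by
      have := one_le_pow₀ hG1 (n := 2)
      calc (G : ℝ) = G * 1 := by ring
        _ ≤ G * G ^ 2 := mul_le_mul_of_nonneg_left this (by positivity)
        _ = (G : ℝ) ^ 3 := by ring
    have h6 : (dl : ℝ) * G ≤ dl * (G : ℝ) ^ 3 := mul_le_mul_of_nonneg_left h5 hd.le
    have h7 : (G : ℝ) * (dl * (G : ℝ) ^ 2) = dl * (G : ℝ) ^ 3 := by ring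
    rw [h7] at h3
    nlinarith
  exact le_of_mul_le_mul_left h4 hd

theorem rn_area {G A dl c : ℕ} (hG : 2 ≤ G) (hdl : 1 ≤ dl) (h1 : Real.sqrt A ≤ dl * (G : ℝ) ^ 2) {k : ℕ}
    (hk : k ≤ 7000000 * A)
    (h : dl ^ 2 * c ≤ 108 * (dl ^ 2 * (182 * G) ^ 2) + 12 * k) :
    (c : ℝ) ≤ 100000000 * (G : ℝ) ^ 4 := by
  have hd : (0 : ℝ) < (dl : ℝ) ^ 2 := by positivity
  have hG1 : (1 : ℝ) ≤ G := by exact_mod_cast (by omega : 1 ≤ G)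
  have h2 : (dl : ℝ) ^ 2 * c ≤ 108 * (dl ^ 2 * (182 * G) ^ 2) + 12 * (7000000 * A) := by
    have : dl ^ 2 * c ≤ 108 * (dl ^ 2 * (182 * G) ^ 2) + 12 * (7000000 * A) := by omega
    exact_mod_cast this
  have h3 : (A : ℝ) ≤ (dl : ℝ) ^ 2 * (G : ℝ) ^ 4 := by
    have h4 : Real.sqrt A ^ 2 ≤ (dl * (G : ℝ) ^ 2) ^ 2 := pow_le_pow_left₀ (Real.sqrt_nonneg _) h1 2
    rw [Real.sq_sqrt (Nat.cast_nonneg _)] at h4
    calc (A : ℝ) ≤ (dl * (G : ℝ) ^ 2) ^ 2 := h4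
      _ = (dl : ℝ) ^ 2 * (G : ℝ) ^ 4 := by ring
  have h4 : (dl : ℝ) ^ 2 * c ≤ (dl : ℝ) ^ 2 * (100000000 * (G : ℝ) ^ 4) := by
    have h5 : (G : ℝ) ^ 2 ≤ (G : ℝ) ^ 4 := pow_le_pow_right₀ hG1 (by norm_num)
    have h6 : (dl : ℝ) ^ 2 * (G : ℝ) ^ 2 ≤ (dl : ℝ) ^ 2 * (G : ℝ) ^ 4 := mul_le_mul_of_nonneg_left h5 hd.le
    nlinarith
  exact le_of_mul_le_mul_left h4 hd

/-- the last step -/
theorem rn_fin {ε C0 : ℝ} (hε : 0 < ε) (hC0 : 1 ≤ C0) {G A dl L c ar : ℕ} (hG : 2 ≤ G)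
    (hdl : (dl : ℝ) * (G : ℝ) ^ 2 ≤ 2 * Real.sqrt A) (hc : (c : ℝ) ≤ 52000 * (G : ℝ) ^ 3)
    (har : (ar : ℝ) ≤ 100000000 * (G : ℝ) ^ 4)
    (hL : 8 * (C0 * (52000 : ℝ) ^ (ε / 3) * 10000) * (G : ℝ) ^ ε * Real.sqrt A ≤ L) :
    ∃ L2 : ℕ, C0 * (c : ℝ) ^ (ε / 3) * Real.sqrt ar ≤ L2 ∧ 2 * dl * L2 ≤ L := by
  have hG1 : (1 : ℝ) ≤ G := by exact_mod_cast (by omega : 1 ≤ G)
  set B : ℝ := C0 * (52000 : ℝ) ^ (ε / 3) * 10000 with hB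
  have h52 : (1 : ℝ) ≤ (52000 : ℝ) ^ (ε / 3) := Real.one_le_rpow (by norm_num) (by positivity)
  have hB1 : 1 ≤ B := by
    have : 1 * 1 ≤ C0 * (52000 : ℝ) ^ (ε / 3) := mul_le_mul hC0 h52 (by norm_num) (by linarith)
    nlinarith
  have hGe : (1 : ℝ) ≤ (G : ℝ) ^ ε := Real.one_le_rpow hG1 hε.le
  have hG2 : (1 : ℝ) ≤ (G : ℝ) ^ 2 := one_le_pow₀ hG1
  have h1 : 1 ≤ B * (G : ℝ) ^ ε * (G : ℝ) ^ 2 := by
    have h3 : 1 * 1 ≤ B * (G : ℝ) ^ ε := mul_le_mul hB1 hGe (by norm_num) (by linarith)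
    have h4 : 1 * 1 * 1 ≤ B * (G : ℝ) ^ ε * (G : ℝ) ^ 2 := mul_le_mul h3 hG2 (by norm_num) (by linarith)
    linarith
  refine ⟨⌈B * (G : ℝ) ^ ε * (G : ℝ) ^ 2⌉₊, ?_, ?_⟩
  · refine le_trans ?_ (Nat.le_ceil _)
    have h3 : (c : ℝ) ^ (ε / 3) ≤ (52000 : ℝ) ^ (ε / 3) * (G : ℝ) ^ ε := by
      calc (c : ℝ) ^ (ε / 3) ≤ (52000 * (G : ℝ) ^ 3) ^ (ε / 3) :=
            Real.rpow_le_rpow (Nat.cast_nonneg _) hc (by positivity)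
        _ = (52000 : ℝ) ^ (ε / 3) * ((G : ℝ) ^ 3) ^ (ε / 3) := Real.mul_rpow (by norm_num) (by positivity)
        _ = (52000 : ℝ) ^ (ε / 3) * (G : ℝ) ^ ε := by
            rw [← Real.rpow_natCast, ← Real.rpow_mul (by positivity)]
            congr 2
            push_cast
            ring
    have h4 : Real.sqrt ar ≤ 10000 * (G : ℝ) ^ 2 := by
      rw [Real.sqrt_le_iff]
      refine ⟨by positivity, har.trans (le_of_eq ?_)⟩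
      ring
    calc C0 * (c : ℝ) ^ (ε / 3) * Real.sqrt ar ≤ C0 * ((52000 : ℝ) ^ (ε / 3) * (G : ℝ) ^ ε) * (10000 * (G : ℝ) ^ 2) := by
          refine mul_le_mul (mul_le_mul_of_nonneg_left h3 (by linarith)) h4 (Real.sqrt_nonneg _) ?_
          have : (0 : ℝ) ≤ (52000 : ℝ) ^ (ε / 3) := by positivity
          have : (0 : ℝ) ≤ (G : ℝ) ^ ε := by positivity
          have : 0 ≤ C0 := by linarith
          positivity
      _ = B * (G : ℝ) ^ ε * (G : ℝ) ^ 2 := by rw [hB]; ring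
  · have h3 := (Nat.ceil_lt_add_one (show 0 ≤ B * (G : ℝ) ^ ε * (G : ℝ) ^ 2 by linarith)).le
    have h4 : ((⌈B * (G : ℝ) ^ ε * (G : ℝ) ^ 2⌉₊ : ℕ) : ℝ) ≤ 2 * (B * (G : ℝ) ^ ε * (G : ℝ) ^ 2) := by linarith
    have h5 : ((2 * dl * ⌈B * (G : ℝ) ^ ε * (G : ℝ) ^ 2⌉₊ : ℕ) : ℝ) ≤ L := by
      push_cast
      have hd : (0 : ℝ) ≤ dl := Nat.cast_nonneg _
      have hBG : 0 ≤ B * (G : ℝ) ^ ε := by
        have h7 : 0 ≤ B := by linarith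
        have h8 : 0 ≤ (G : ℝ) ^ ε := by linarith
        exact mul_nonneg h7 h8
      calc 2 * (dl : ℝ) * (⌈B * (G : ℝ) ^ ε * (G : ℝ) ^ 2⌉₊ : ℝ) ≤ 2 * (dl : ℝ) * (2 * (B * (G : ℝ) ^ ε * (G : ℝ) ^ 2)) :=
            mul_le_mul_of_nonneg_left h4 (by linarith)
        _ = 4 * (B * (G : ℝ) ^ ε) * (dl * (G : ℝ) ^ 2) := by ring
        _ ≤ 4 * (B * (G : ℝ) ^ ε) * (2 * Real.sqrt A) := mul_le_mul_of_nonneg_left hdl (by linarith)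
        _ = 8 * B * (G : ℝ) ^ ε * Real.sqrt A := by ring
        _ ≤ L := hL
    exact_mod_cast h5

end Pool.Agent.GW
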