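import Pool.Agent.GW.GenDef
import Pool.Agent.GW.Balls
import Pool.Agent.GW.DecompS
import Pool.Agent.GW.BfsF

/-!
# GW/Roots (helper59): a forest of small depth with few roots

PROOF.  Choose a maximal set `M` of words whose balls `EB univ pw {P} r0` are pairwise disjoint: every ball has area more than `a0`, so
`|M| a0 ≤ area`.  Roots: one letter of every word of `M`, and in every word with more than `r0` letters every `r0`-th letter (at most
`pw / r0 + 1 ≤ 2 pw / r0` letters, so at most `2 pw^2 / a0` because `a0 ≤ r0^2`, such that from every letter of the word at most `r0`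
steps of `r` lead to a root letter).  Together `|R0| a0 ≤ 3 area`.
-/

set_option autoImplicit false

namespace Pool.Agent.GW

open Equiv Pool.Agent.SWP Finset

theorem max_disj {V : Type} [Fintype V] [DecidableEq V] (B : V → Finset V) (hB : ∀ x, x ∈ B x) :
    ∃ M : Finset V, (∀ P ∈ M, ∀ Q ∈ M, P ≠ Q → Disjoint (B P) (B Q)) ∧ ∀ x, ∃ P ∈ M, ∃ y, y ∈ B x ∧ y ∈ B P := by
  classical
  set F : Finset (Finset V) := univ.filter fun M => ∀ P ∈ M, ∀ Q ∈ M, P ≠ Q → Disjoint (B P) (B Q) with hF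
  have hne : F.Nonempty := ⟨∅, mem_filter.2 ⟨mem_univ _, fun P hP => absurd hP (notMem_empty _)⟩⟩
  obtain ⟨M, hM, hmax⟩ := exists_max_image F card hne
  have hM' := (mem_filter.1 hM).2
  refine ⟨M, hM', fun x => ?_⟩
  by_contra hno
  push Not at hno
  have hdis : ∀ P ∈ M, Disjoint (B x) (B P) := fun P hP => disjoint_left.2 fun y hy => hno P hP y hy
  have hx : x ∉ M := fun hx => hno x hx x (hB x) (hB x)
  have h1 : insert x M ∈ F := by
    refine mem_filter.2 ⟨mem_univ _, ?_⟩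
    intro P hP Q hQ hPQ
    rcases mem_insert.1 hP with e1 | hP1
    · rcases mem_insert.1 hQ with e2 | hQ1
      · exact absurd (e1.trans e2.symm) hPQ
      · rw [e1]
        exact hdis Q hQ1
    · rcases mem_insert.1 hQ with e2 | hQ1
      · rw [e2]
        exact (hdis P hP1).symm
      · exact hM' P hP1 Q hQ1 hPQ
  have h2 := hmax _ h1
  rw [card_insert_of_notMem hx] at h2
  omega

/-- two letters of a word: less than `pw` steps. -/
theorem pow_lt_pw (S : Sf) {d e : S.D} (h : S.wd e = S.wd d) : ∃ j < S.pw (S.wd e), (S.r ^ j) e = d := by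
  classical
  have h1 : ∃ j : ℕ, (S.r ^ j) e = d := ((S.wd_eq e d).1 h).exists_nat_pow_eq
  refine ⟨Nat.find h1, ?_, Nat.find_spec h1⟩
  set j := Nat.find h1 with hj
  have hinj : Set.InjOn (fun i : ℕ => (S.r ^ i) e) (↑(range (j + 1)) : Set ℕ) := by
    have key : ∀ a b : ℕ, a < b → b ≤ j → (S.r ^ a) e ≠ (S.r ^ b) e := by
      intro a b hab hbj heq
      have h2 : (S.r ^ (j - b + a)) e = d := by
        rw [pow_add, Perm.mul_apply, heq, ← Perm.mul_apply, ← pow_add, Nat.sub_add_cancel hbj]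
        exact Nat.find_spec h1
      have h3 := Nat.find_min' h1 h2
      omega
    intro a ha b hb hab
    have ha' := mem_range.1 (mem_coe.1 ha)
    have hb' := mem_range.1 (mem_coe.1 hb)
    rcases lt_trichotomy a b with h2 | h2 | h2
    · exact absurd hab (key a b h2 (by omega))
    · exact h2
    · exact absurd hab.symm (key b a h2 (by omega))
  have h4 : ((range (j + 1)).image fun i : ℕ => (S.r ^ i) e).card = j + 1 := by
    rw [card_image_of_injOn hinj, card_range]
  have h5 : (↑((range (j + 1)).image fun i : ℕ => (S.r ^ i) e) : Set S.D) ⊆ {x | S.wd x = S.wd e} := by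
    intro x hx
    obtain ⟨i, _, hi⟩ := mem_image.1 (mem_coe.1 hx)
    rw [← hi]
    show S.wd _ = S.wd e
    rw [S.wd_eq]
    exact Perm.SameCycle.symm ⟨i, by rw [zpow_natCast]⟩
  have h6 := Set.ncard_le_ncard h5 (Set.toFinite _)
  rw [Set.ncard_coe_finset, h4] at h6
  unfold Sf.pw
  omega

/-- area as a sum over the words. -/
theorem area_sum (S : Sf) (hS : S.Closed) : S.area = ∑ x : S.Wd, S.pw x ^ 2 := by
  classical
  have hlen : ∀ d, S.len d = S.pw (S.wd d) := by
    intro d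
    unfold Sf.len Sf.num Sf.pw
    congr 1
    ext e
    constructor
    · rintro ⟨h1, _⟩
      exact ((S.wd_eq e d).2 h1.symm)
    · intro h1
      exact ⟨((S.wd_eq e d).1 h1).symm, hS e⟩
  have h1 : S.area = ∑ x : S.Wd, ∑ d ∈ univ.filter (fun d => S.wd d = x), S.pw (S.wd d) := by
    unfold Sf.area
    rw [Finset.sum_fiberwise]
    exact Finset.sum_congr rfl fun d _ => by rw [hlen]
  rw [h1]
  refine Finset.sum_congr rfl fun x _ => ?_
  have h2 : ∀ d ∈ univ.filter (fun d => S.wd d = x), S.pw (S.wd d) = S.pw x := by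
    intro d hd
    rw [(Finset.mem_filter.1 hd).2]
  rw [Finset.sum_congr rfl h2, Finset.sum_const, smul_eq_mul, sq]
  congr 1
  unfold Sf.pw
  rw [Set.ncard_eq_toFinset_card']
  congr 1
  ext d
  simp

section

variable {S : Sf} {R0 : Set S.D}

/-- inside of a word. -/
theorem VR.word {n : ℕ} {d e : S.D} (h : VR S R0 n e) (hde : S.wd e = S.wd d) : VR S R0 (n + S.pw (S.wd e)) d := by
  obtain ⟨j, h1, h2⟩ := pow_lt_pw S hde
  rw [← h2]
  exact (h.pow j).mono (by omega)

/-- to the next word. -/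
theorem adj_letter (S : Sf) {x y : S.Wd} (h : S.dual.Adj x y) : ∃ e, S.wd e = x ∧ S.wd (S.a e) = y := by
  have h1 : 0 < S.dual.w x y := h.2
  have h2 : (0 : ℝ) < (Set.ncard {d : S.D | S.wd d = x ∧ S.wd (S.a d) = y} : ℝ) := h1
  have h3 : 0 < Set.ncard {d : S.D | S.wd d = x ∧ S.wd (S.a d) = y} := by exact_mod_cast h2
  obtain ⟨e, he⟩ := (Set.ncard_pos (Set.toFinite _)).1 h3
  exact ⟨e, he.1, he.2⟩

theorem roots_wd_r (S : Sf) (d : S.D) : S.wd (S.r d) = S.wd d :=
  (S.wd_eq _ _).mpr (Perm.sameCycle_apply_left.mpr (Perm.SameCycle.refl _ _))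

/-- from the centre outwards. -/
theorem VR.out {P : S.Wd} (hP : ∃ d, S.wd d = P ∧ VR S R0 0 d) {r : ℕ} {x : S.Wd}
    (h : S.dual.Rch univ S.pw {P} r x) : ∃ d, S.wd d = x ∧ VR S R0 r d := by
  induction h with
  | @base r x h1 _ =>
    rw [mem_singleton.1 h1]
    obtain ⟨d, h3, h4⟩ := hP
    exact ⟨d, h3, h4.mono (Nat.zero_le _)⟩
  | @step r s x y h1 h2 h3 h4 ih =>
    obtain ⟨d, h5, h6⟩ := ih
    obtain ⟨e, h7, h8⟩ := adj_letter S h2
    have h9 := h6.word (d := e) (by rw [h5, h7])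
    rw [h5] at h9
    exact ⟨S.r (S.a e), by rw [roots_wd_r, h8], (h9.vx (vx_ra S e)).mono h4⟩

/-- back to the centre. -/
theorem VR.back {P : S.Wd} {r : ℕ} {x : S.Wd} (h : S.dual.Rch univ S.pw {P} r x) :
    ∀ t, (∀ d, S.wd d = x → VR S R0 t d) → ∀ d, S.wd d = P → VR S R0 (t + r) d := by
  induction h with
  | @base r x h1 _ =>
    intro t ht d hd
    exact (ht d (by rw [hd, mem_singleton.1 h1])).mono (by omega)
  | @step r s x y h1 h2 h3 h4 ih =>
    intro t ht d hd
    obtain ⟨e, h7, h8⟩ := adj_letter S h2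
    have h9 : VR S R0 t e := (ht (S.r (S.a e)) (by rw [roots_wd_r, h8])).vx (vx_ra S e).symm
    refine (ih (t + S.pw x) ?_ d hd).mono (by omega)
    intro d' hd'
    have h10 := h9.word (d := d') (by rw [h7, hd'])
    rwa [h7] at h10

end

theorem roots (S : Sf) (hS : S.Closed) {a0 r0 : ℕ} (h0 : 0 < a0) (h1 : a0 ≤ r0 ^ 2)
    (hbig : ∀ P : S.Wd, a0 < ∑ Q ∈ S.dual.EB Finset.univ S.pw {P} r0, S.pw Q ^ 2) :
    ∃ (N : Set S.D) (δ : S.D → ℕ) (R0 : Finset S.D), Fo S N δ (3 * r0) ∧ (∀ d, δ d = 0 → ∃ e ∈ R0, S.vx e d) ∧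
      R0.card * a0 ≤ 3 * S.area := by
  classical
  have hr0 : 1 ≤ r0 := by
    by_contra h
    have : r0 = 0 := by omega
    subst this
    simp at h1
    omega
  obtain ⟨M, hM1, hM2⟩ := max_disj (fun P => S.dual.EB univ S.pw {P} r0) (fun P =>
    S.dual.mem_EB.2 (WG.Rch.base (mem_singleton_self P) (mem_univ _)))
  choose rep hrep using S.wd_surj
  set lg : Finset S.Wd := univ.filter fun P => r0 < S.pw P with hlg
  set R1 : Finset S.D := M.image rep with hR1
  set R2 : Finset S.D := lg.biUnion fun P => (range (S.pw P / r0 + 1)).image fun i => (S.r ^ (r0 * i)) (rep P) with hR2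
  set R0 : Finset S.D := R1 ∪ R2 with hR0
  have hlong : ∀ P, r0 < S.pw P → ∀ d, S.wd d = P → VR S (↑R0 : Set S.D) r0 d := by
    intro P hP d hd
    obtain ⟨j, h2, h3⟩ := pow_lt_pw S (d := d) (e := rep P) (by rw [hrep, hd])
    rw [hrep] at h2
    have h4 : (S.r ^ (r0 * (j / r0))) (rep P) ∈ (↑R0 : Set S.D) := by
      refine mem_coe.2 (mem_union_right _ (mem_biUnion.2 ⟨P, mem_filter.2 ⟨mem_univ _, hP⟩, mem_image.2 ⟨j / r0, ?_, rfl⟩⟩))
      rw [mem_range]
      have := Nat.div_le_div_right (c := r0) h2.le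
      omega
    have h5 : VR S (↑R0 : Set S.D) 0 ((S.r ^ (r0 * (j / r0))) (rep P)) := VR.base h4 (Perm.SameCycle.refl _ _)
    have h6 := h5.pow (j % r0)
    rw [← Perm.mul_apply, ← pow_add, Nat.mod_add_div, h3] at h6
    exact h6.mono (by have := Nat.mod_lt j (by omega : 0 < r0); omega)
  have hall : ∀ d, VR S (↑R0 : Set S.D) (3 * r0) d := by
    intro d
    obtain ⟨P, hP, x, hx1, hx2⟩ := hM2 (S.wd d)
    have hx1' := S.dual.mem_EB.1 hx1
    have hx2' := S.dual.mem_EB.1 hx2
    have h2 : ∀ e, S.wd e = x → VR S (↑R0 : Set S.D) (2 * r0) e := by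
      intro e he
      by_cases hlx : r0 < S.pw x
      · exact (hlong x hlx e he).mono (by omega)
      · obtain ⟨d', h3, h4⟩ := VR.out (R0 := (↑R0 : Set S.D)) (P := P) ⟨rep P, hrep P, VR.base
          (mem_coe.2 (mem_union_left _ (mem_image_of_mem _ hP))) (Perm.SameCycle.refl _ _)⟩ hx2'
        have h5 := h4.word (d := e) (by rw [h3, he])
        rw [h3] at h5
        exact h5.mono (by omega)
    exact (VR.back hx1' (2 * r0) h2 d rfl).mono (by omega)
  obtain ⟨N, δ, hF, hz⟩ := bfs_forest S (↑R0 : Set S.D) (3 * r0) hall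
  refine ⟨N, δ, R0, hF, fun d hd => by simpa using hz d hd, ?_⟩
  -- counting
  have hc1 : R1.card * a0 ≤ S.area := by
    calc R1.card * a0 ≤ M.card * a0 := Nat.mul_le_mul_right _ card_image_le
      _ = ∑ P ∈ M, a0 := by rw [sum_const, smul_eq_mul]
      _ ≤ ∑ P ∈ M, ∑ Q ∈ S.dual.EB Finset.univ S.pw {P} r0, S.pw Q ^ 2 := sum_le_sum fun P _ => (hbig P).le
      _ = ∑ Q ∈ M.biUnion (fun P => S.dual.EB Finset.univ S.pw {P} r0), S.pw Q ^ 2 := by
          rw [sum_biUnion]
          intro P hP Q hQ hPQ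
          exact hM1 P hP Q hQ hPQ
      _ ≤ ∑ Q, S.pw Q ^ 2 := sum_le_sum_of_subset (subset_univ _)
      _ = S.area := (area_sum S hS).symm
  have hc2 : R2.card * a0 ≤ 2 * S.area := by
    calc R2.card * a0 ≤ (∑ P ∈ lg, (S.pw P / r0 + 1)) * a0 := by
          refine Nat.mul_le_mul_right _ (card_biUnion_le.trans (sum_le_sum fun P _ => card_image_le.trans ?_))
          rw [card_range]
      _ = ∑ P ∈ lg, (S.pw P / r0 + 1) * a0 := sum_mul _ _ _
      _ ≤ ∑ P ∈ lg, 2 * S.pw P ^ 2 := by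
          refine sum_le_sum fun P hP => ?_
          have h2 := (mem_filter.1 hP).2
          have h3 : S.pw P / r0 * r0 ≤ S.pw P := Nat.div_mul_le_self _ _
          calc (S.pw P / r0 + 1) * a0 ≤ (S.pw P / r0 + 1) * r0 ^ 2 := Nat.mul_le_mul_left _ h1
            _ = (S.pw P / r0 * r0) * r0 + r0 * r0 := by ring
            _ ≤ S.pw P * S.pw P + S.pw P * S.pw P :=
                Nat.add_le_add (Nat.mul_le_mul h3 h2.le) (Nat.mul_le_mul h2.le h2.le)
            _ = 2 * S.pw P ^ 2 := by ring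
      _ ≤ ∑ P, 2 * S.pw P ^ 2 := sum_le_sum_of_subset (subset_univ _)
      _ = 2 * S.area := by rw [← mul_sum, area_sum S hS]
  calc R0.card * a0 ≤ (R1.card + R2.card) * a0 := Nat.mul_le_mul_right _ (card_union_le _ _)
    _ ≤ 3 * S.area := by rw [add_mul]; omega

end Pool.Agent.GW
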