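import Pool.Agent.GW.GenDef

/-!
# GW/WallsEx: walls for given letters of `N`

PROOF of `walls_exist`.  `W = Y ∪ {d ∉ N | the edge {d, a d} is on the path to the root from the vertex of some y ∈ Y}`: inductive relation
`Anc u y`: `u` up-letter with `vx y u`; or `Anc u' y`, `u` up-letter with `vx (a u') u`.  Every vertex at which a letter of `W` starts has its
up-letter in `W`; the up-letter `u ∈ W` has at its vertex the letter `y` or `a u'`.
PROOF of `walls_count`.  `m j` = number of up-letters `u ∈ W` with `δ u = j` (= number of vertices of depth `j ≥ 1` with walls), `y j` = number of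
`y ∈ W ∩ N` with `δ y = j`.  `∑ (dgv - 2)` over the wall vertices of depth `j ≥ 1` is `m (j+1) - m j + y j`, all terms are `≥ 0` (`hup`, `two`); sum over
`j ≥ 1`: `∑_{j ≥ 1} y j - m 1`.  Letters at vertices of depth `≥ 1` with `dgv ≥ 3`: at most `3 ∑ (dgv - 2)`; letters at depth `0`: `m 1 + y 0`.
-/

set_option autoImplicit false

namespace Pool.Agent.GW

open Equiv Pool.Agent.SWP

/-- up-letters on the paths from the letters of `Y` to the roots -/
private inductive Wx (S : Sf) (N : Set S.D) (δ : S.D → ℕ) (Y : Set S.D) : S.D → Prop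
  | base (y u : S.D) : y ∈ Y → u ∈ S.up N δ → S.vx y u → Wx S N δ Y u
  | step (v u : S.D) : Wx S N δ Y v → u ∈ S.up N δ → S.vx (S.a v) u → Wx S N δ Y u

private theorem Wx.up {S : Sf} {N : Set S.D} {δ : S.D → ℕ} {Y : Set S.D} {u : S.D} (h : Wx S N δ Y u) : u ∈ S.up N δ := by
  cases h with
  | base _ _ _ h _ => exact h
  | step _ _ _ h _ => exact h

private theorem wx_no {S : Sf} {N : Set S.D} {δ : S.D → ℕ} {u : S.D} (h : u ∈ S.up N δ) (h' : S.a u ∈ S.up N δ) : False := by
  have h1 := h.2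
  have h2 := h'.2
  rw [S.aa] at h2
  omega

theorem walls_exist (S : Sf) (hS : S.Closed) {N : Set S.D} {δ : S.D → ℕ} {ρ : ℕ} (hF : Fo S N δ ρ) (Y : Set S.D)
    (hY : S.Cl Y) (hYN : Y ⊆ N) : ∃ W : Set S.D, W ∩ N = Y ∧ Wl S N δ W := by
  have hN : ∀ d, S.a d ∈ N → d ∈ N := fun d h => by rw [← S.aa d]; exact hF.cl _ h
  refine ⟨Y ∪ {d | Wx S N δ Y d ∨ Wx S N δ Y (S.a d)}, ?_, ?_, ?_, ?_⟩
  · ext d
    constructor
    · rintro ⟨h1 | h1 | h1, h2⟩
      · exact h1
      · exact absurd h2 h1.up.1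
      · exact absurd (hF.cl _ h2) h1.up.1
    · intro h
      exact ⟨Or.inl h, hYN h⟩
  · rintro d (h | h | h)
    · exact Or.inl (hY d h)
    · exact Or.inr (Or.inr (by rw [S.aa]; exact h))
    · exact Or.inr (Or.inl h)
  · rintro y (h | h | h) u hu hv
    · exact Or.inr (Or.inl (Wx.base y u h hu hv))
    · rw [← hF.uniq y h.up u hu hv]
      exact Or.inr (Or.inl h)
    · refine Or.inr (Or.inl (Wx.step _ u h hu ?_))
      rw [S.aa]
      exact hv
  · rintro u hu (h | h | h)
    · exact absurd (hYN h) hu.1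
    · cases h with
      | base y _ hy _ hv =>
        exact ⟨y, Or.inl hy, fun h' => hu.1 (by rw [← h']; exact hYN hy), hv.symm⟩
      | step v _ hv0 _ hv =>
        refine ⟨S.a v, Or.inr (Or.inr (by rw [S.aa]; exact hv0)), fun h' => ?_, hv.symm⟩
        refine wx_no hu ?_
        rw [← h', S.aa]
        exact hv0.up
    · exact absurd h.up (fun h' => wx_no hu h')

theorem walls_count (S : Sf) (hS : S.Closed) {N : Set S.D} {δ : S.D → ℕ} {ρ : ℕ} (hF : Fo S N δ ρ) {W : Set S.D}
    (hW : Wl S N δ W) : Set.ncard {d | d ∈ W ∧ S.dgv W d ≠ 2} ≤ 4 * (W ∩ N).ncard := by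
  classical
  have hN : ∀ d, S.a d ∈ N → d ∈ N := fun d h => by rw [← S.aa d]; exact hF.cl _ h
  have hWa : ∀ d, S.a d ∈ W → d ∈ W := fun d h => by rw [← S.aa d]; exact hW.cl _ h
  have hδ : ∀ d e, S.vx d e → δ d = δ e := by
    intro d e h
    have h1 := (iff_of_same (s := S.r * S.a) (Q := fun x => δ d = δ x) (fun x => by
      rw [Perm.mul_apply, hF.vtx]) h).mp rfl
    exact h1
  have hf : ∀ d : S.D, ∃ u, 0 < δ d → (u ∈ S.up N δ ∧ S.vx d u) := by
    intro d
    by_cases h : 0 < δ d
    · obtain ⟨e, h1, h2⟩ := hF.ex d h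
      exact ⟨e, fun _ => ⟨h1, h2⟩⟩
    · exact ⟨d, fun h' => absurd h' h⟩
  choose f hf using hf
  set A1 : Finset S.D := Finset.univ.filter (fun d => d ∈ W ∧ 0 < δ d) with hA1
  set B1 : Finset S.D := Finset.univ.filter (fun d => d ∈ W ∧ 0 < δ d ∧ S.dgv W d ≠ 2) with hB1
  set D0 : Finset S.D := Finset.univ.filter (fun d => d ∈ W ∧ δ d = 0) with hD0
  set Uf : Finset S.D := Finset.univ.filter (fun d => d ∈ W ∧ d ∈ S.up N δ) with hUf
  set T0 : Finset S.D := Finset.univ.filter (fun d => d ∈ W ∧ S.a d ∈ S.up N δ ∧ δ d = 0) with hT0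
  set T1 : Finset S.D := Finset.univ.filter (fun d => d ∈ W ∧ S.a d ∈ S.up N δ ∧ 0 < δ d) with hT1
  set N0 : Finset S.D := Finset.univ.filter (fun d => d ∈ W ∧ d ∈ N ∧ δ d = 0) with hN0
  set N1 : Finset S.D := Finset.univ.filter (fun d => d ∈ W ∧ d ∈ N ∧ 0 < δ d) with hN1
  have hup0 : ∀ u, u ∈ S.up N δ → 0 < δ u := fun u hu => by have := hu.2; omega
  have c1 : Set.ncard {d | d ∈ W ∧ S.dgv W d ≠ 2} ≤ B1.card + D0.card := by
    rw [← Finset.card_union_of_disjoint, ← Set.ncard_coe_finset]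
    · refine Set.ncard_le_ncard ?_ (Set.toFinite _)
      rintro d ⟨h1, h2⟩
      rcases Nat.eq_zero_or_pos (δ d) with h3 | h3
      · simp [hB1, hD0, h1, h3]
      · simp [hB1, hD0, h1, h2, h3]
    · rw [Finset.disjoint_left]
      intro d h1 h2
      simp only [hB1, hD0, Finset.mem_filter, Finset.mem_univ, true_and] at h1 h2
      omega
  have c2 : N0.card + N1.card = (W ∩ N).ncard := by
    rw [← Finset.card_union_of_disjoint, ← Set.ncard_coe_finset]
    · congr 1
      ext d
      simp only [hN0, hN1, Finset.coe_union, Finset.coe_filter, Finset.mem_univ, true_and]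
      constructor
      · rintro (h | h)
        · exact ⟨h.1, h.2.1⟩
        · exact ⟨h.1, h.2.1⟩
      · rintro ⟨h1, h2⟩
        rcases Nat.eq_zero_or_pos (δ d) with h3 | h3
        · exact Or.inl ⟨h1, h2, h3⟩
        · exact Or.inr ⟨h1, h2, h3⟩
    · rw [Finset.disjoint_left]
      intro d h1 h2
      simp only [hN0, hN1, Finset.mem_filter, Finset.mem_univ, true_and] at h1 h2
      omega
  have c3 : T0.card + T1.card = Uf.card := by
    rw [← Finset.card_union_of_disjoint]
    · refine Finset.card_bij (fun d _ => S.a d) ?_ ?_ ?_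
      · intro d hd
        simp only [hT0, hT1, hUf, Finset.mem_union, Finset.mem_filter, Finset.mem_univ, true_and] at hd ⊢
        rcases hd with hd | hd
        · exact ⟨hW.cl _ hd.1, hd.2.1⟩
        · exact ⟨hW.cl _ hd.1, hd.2.1⟩
      · intro d _ e _ h
        exact S.a.injective h
      · intro u hu
        simp only [hT0, hT1, hUf, Finset.mem_union, Finset.mem_filter, Finset.mem_univ, true_and] at hu ⊢
        refine ⟨S.a u, ?_, S.aa u⟩
        rw [S.aa]
        rcases Nat.eq_zero_or_pos (δ (S.a u)) with h3 | h3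
        · exact Or.inl ⟨hW.cl _ hu.1, hu.2, h3⟩
        · exact Or.inr ⟨hW.cl _ hu.1, hu.2, h3⟩
    · rw [Finset.disjoint_left]
      intro d h1 h2
      simp only [hT0, hT1, Finset.mem_filter, Finset.mem_univ, true_and] at h1 h2
      omega
  have htree : ∀ d, d ∉ N → d ∈ S.up N δ ∨ S.a d ∈ S.up N δ := by
    intro d hd
    rcases hF.tree d hd with h | h
    · exact Or.inl ⟨hd, h⟩
    · exact Or.inr ⟨fun h' => hd (hN d h'), by rw [S.aa]; exact h⟩
  have c4 : D0.card = T0.card + N0.card := by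
    rw [← Finset.card_union_of_disjoint]
    · congr 1
      ext d
      simp only [hT0, hN0, hD0, Finset.mem_union, Finset.mem_filter, Finset.mem_univ, true_and]
      constructor
      · rintro ⟨h1, h2⟩
        by_cases h3 : d ∈ N
        · exact Or.inr ⟨h1, h3, h2⟩
        · rcases htree d h3 with h4 | h4
          · have := hup0 d h4
            omega
          · exact Or.inl ⟨h1, h4, h2⟩
      · rintro (h | h)
        · exact ⟨h.1, h.2.2⟩
        · exact ⟨h.1, h.2.2⟩
    · rw [Finset.disjoint_left]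
      intro d h1 h2
      simp only [hT0, hN0, Finset.mem_filter, Finset.mem_univ, true_and] at h1 h2
      exact h1.2.1.1 (hF.cl _ h2.2.1)
  have c5 : A1.card = Uf.card + T1.card + N1.card := by
    rw [← Finset.card_union_of_disjoint, ← Finset.card_union_of_disjoint]
    · congr 1
      ext d
      simp only [hT1, hN1, hA1, hUf, Finset.mem_union, Finset.mem_filter, Finset.mem_univ, true_and]
      constructor
      · rintro ⟨h1, h2⟩
        by_cases h3 : d ∈ N
        · exact Or.inr ⟨h1, h3, h2⟩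
        · rcases htree d h3 with h4 | h4
          · exact Or.inl (Or.inl ⟨h1, h4⟩)
          · exact Or.inl (Or.inr ⟨h1, h4, h2⟩)
      · rintro ((h | h) | h)
        · exact ⟨h.1, hup0 d h.2⟩
        · exact ⟨h.1, h.2.2⟩
        · exact ⟨h.1, h.2.2⟩
    · rw [Finset.disjoint_left]
      intro d h1 h2
      simp only [hT1, hN1, hUf, Finset.mem_union, Finset.mem_filter, Finset.mem_univ, true_and] at h1 h2
      rcases h1 with h1 | h1
      · exact h1.2.1 h2.2.1
      · exact h1.2.1.1 (hF.cl _ h2.2.1)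
    · rw [Finset.disjoint_left]
      intro d h1 h2
      simp only [hT1, hUf, Finset.mem_filter, Finset.mem_univ, true_and] at h1 h2
      exact wx_no h1.2 h2.2.1
  have hmap : ∀ d ∈ A1, f d ∈ Uf := by
    intro d hd
    simp only [hA1, hUf, Finset.mem_filter, Finset.mem_univ, true_and] at hd ⊢
    obtain ⟨h1, h2⟩ := hf d hd.2
    exact ⟨hW.hup d hd.1 _ h1 h2, h1⟩
  have hfib : ∀ u ∈ Uf, ∀ d, (d ∈ W ∧ S.vx u d) ↔ ((d ∈ W ∧ 0 < δ d) ∧ f d = u) := by
    intro u hu d
    simp only [hUf, Finset.mem_filter, Finset.mem_univ, true_and] at hu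
    constructor
    · rintro ⟨h1, h2⟩
      have h3 : 0 < δ d := by rw [← hδ u d h2]; exact hup0 u hu.2
      obtain ⟨h4, h5⟩ := hf d h3
      exact ⟨⟨h1, h3⟩, hF.uniq _ h4 u hu.2 (h5.symm.trans h2.symm)⟩
    · rintro ⟨⟨h1, h2⟩, rfl⟩
      exact ⟨h1, (hf d h2).2.symm⟩
  have hdg : ∀ u ∈ Uf, S.dgv W u = (A1.filter (fun d => f d = u)).card := by
    intro u hu
    unfold Sf.dgv
    rw [← Set.ncard_coe_finset]
    congr 1
    ext d
    simp only [hA1, Finset.coe_filter, Finset.mem_filter, Finset.mem_univ, true_and]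
    exact hfib u hu d
  have hdc : ∀ d e, S.vx d e → S.dgv W d = S.dgv W e := by
    intro d e h
    unfold Sf.dgv
    congr 1
    ext x
    constructor
    · rintro ⟨h1, h2⟩
      exact ⟨h1, h.symm.trans h2⟩
    · rintro ⟨h1, h2⟩
      exact ⟨h1, h.trans h2⟩
  have c6 : A1.card = ∑ u ∈ Uf, S.dgv W u := by
    rw [Finset.card_eq_sum_card_fiberwise (f := f) (t := Uf) hmap]
    exact Finset.sum_congr rfl fun u hu => (hdg u hu).symm
  have htwo : ∀ u ∈ Uf, 2 ≤ S.dgv W u := by
    intro u hu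
    simp only [hUf, Finset.mem_filter, Finset.mem_univ, true_and] at hu
    obtain ⟨d, h1, h2, h3⟩ := hW.two u hu.2 hu.1
    have h4 : ({u, d} : Set S.D) ⊆ {e | e ∈ W ∧ S.vx u e} := by
      rintro x (rfl | rfl)
      · exact ⟨hu.1, Perm.SameCycle.refl _ _⟩
      · exact ⟨h1, h3⟩
    have h5 := Set.ncard_le_ncard h4 (Set.toFinite _)
    rw [Set.ncard_pair (Ne.symm h2)] at h5
    exact h5
  have c7 : B1.card ≤ ∑ u ∈ Uf, 3 * (S.dgv W u - 2) := by
    have hBm : ∀ d ∈ B1, f d ∈ Uf := by
      intro d hd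
      refine hmap d ?_
      simp only [hA1, hB1, Finset.mem_filter, Finset.mem_univ, true_and] at hd ⊢
      exact ⟨hd.1, hd.2.1⟩
    rw [Finset.card_eq_sum_card_fiberwise (f := f) (t := Uf) hBm]
    refine Finset.sum_le_sum fun u hu => ?_
    by_cases h2 : S.dgv W u = 2
    · have h3 : B1.filter (fun d => f d = u) = ∅ := by
        rw [Finset.filter_eq_empty_iff]
        intro d hd hfd
        simp only [hB1, Finset.mem_filter, Finset.mem_univ, true_and] at hd
        apply hd.2.2
        have h4 := (hf d hd.2.1).2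
        rw [hfd] at h4
        rw [hdc d u h4, h2]
      rw [h3]
      simp
    · have h3 : (B1.filter (fun d => f d = u)).card ≤ S.dgv W u := by
        rw [hdg u hu]
        refine Finset.card_le_card ?_
        intro d hd
        simp only [hB1, hA1, Finset.mem_filter, Finset.mem_univ, true_and] at hd ⊢
        exact ⟨⟨hd.1.1, hd.1.2.1⟩, hd.2⟩
      have h4 := htwo u hu
      omega
  have c8 : ∑ u ∈ Uf, 3 * (S.dgv W u - 2) + 6 * Uf.card = 3 * ∑ u ∈ Uf, S.dgv W u := by
    rw [Finset.mul_sum, Finset.card_eq_sum_ones, Finset.mul_sum, ← Finset.sum_add_distrib]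
    refine Finset.sum_congr rfl fun u hu => ?_
    have h4 := htwo u hu
    omega
  omega

end Pool.Agent.GW
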