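import Pool.Agent.GW.Cotree
import Pool.Agent.GW.Cluster
import Pool.Agent.GW.WallsEx
import Pool.Agent.GW.Carve

/-!
# GW/WallSys: the system of walls

PROOF.  Root word: any.  `cotree_exists`, `X = N \ hT.T`: by `Ct.card`, `forest_count` it has at most `2 (gen - 2 + #words + #R0) - (2 #words - 2) ≤ X0` letters.
`clusters` with `pr P = T.wd (T.a (e P))` and `x P = #{d ∈ X | wd d = P}` gives `lab = top`, `C`.  `Y = X ∪ {e P, a (e P) | P ∈ C}`: `|Y| ≤ X0 + 2 |C| ≤ 7 X0`.
`walls_exist` with `Y`.  `e P ∈ W ↔ e P ∈ Y ↔ P ∈ C` for `P ≠ root` (the letters `e P`, `a (e P)` are all different and not in `X`).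
Letters of `Y` in the cluster `t`: letters of `X` (`∑_{top P = t} x P`), `e P` with `P ∈ C`, `top P = t` (only `P = t`), `a (e P)` with `P ∈ C`,
`top (pr P) = t`: together at most `2 + x t + #{P ≠ root | pr P = t} ≤ 2 + #{d ∈ N | wd d = t}`.  `cluster_walls`, `carve`.
`tops = C ∪ {root}`.
-/

set_option autoImplicit false

namespace Pool.Agent.GW

open Equiv Pool.Agent.SWP

theorem wallsys (T : Sf) (hT : T.Closed) (hC : T.Con) (hne : Nonempty T.D) {N : Set T.D} {δ : T.D → ℕ} {ρ : ℕ}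
    (hF : Fo T N δ ρ) (R0 : Finset T.D) (hR : ∀ d, δ d = 0 → ∃ e ∈ R0, T.vx e d) (X0 : ℕ)
    (hX0 : 2 * T.gen + 2 * R0.card ≤ (X0 : ℤ) + 2) :
    ∃ (W : Set T.D) (hW : Wl T N δ W) (lab : T.Wd → T.Wd) (tops : Finset T.Wd), (∀ P, lab P ∈ tops) ∧
      tops.card ≤ 3 * X0 + 1 ∧ (W ∩ N).ncard ≤ 7 * X0 ∧ (∀ d, d ∉ W → lab (T.wd (T.a d)) = lab (T.wd d)) ∧
      (∀ t, Set.ncard {d | d ∈ W ∧ lab (T.wd d) = t} ≤ (2 * ρ + 1) * (Set.ncard {d | d ∈ N ∧ T.wd d = t} + 2)) ∧
      ∀ L, (∀ d, T.len d ≤ L) →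
        (∀ P Q, 2 * ((2 * ρ + 1) * (Set.ncard {d | d ∈ N ∧ T.wd d = P} + Set.ncard {d | d ∈ N ∧ T.wd d = Q} + 2)) ≤ L) →
        U L (T.glueSet Wᶜ hW.clc) → U L T := by
  classical
  obtain ⟨root⟩ : Nonempty T.Wd := ⟨T.wd hne.some⟩
  obtain ⟨e, h, hCt⟩ := cotree_exists T hC hF root
  obtain ⟨hTN, hTcl, hTc⟩ := hCt.card hT hF.cl
  have hfc := forest_count T hT hC hne hF R0 hR
  have hXc : (N \ hCt.T).ncard ≤ X0 := by
    have h1 : (N \ hCt.T).ncard + hCt.T.ncard = N.ncard :=
      Set.ncard_sdiff_add_ncard_of_subset hTN (Set.toFinite _)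
    omega
  have hpr : ∀ P, P ≠ root → h (T.wd (T.a (e P))) < h P := hCt.lt
  obtain ⟨top, C, hrC, htop, hpar, hCc, hcl⟩ := clusters root (fun P => T.wd (T.a (e P))) h hpr
    (fun P => (Finset.univ.filter (fun d : T.D => d ∈ N \ hCt.T ∧ T.wd d = P)).card)
  have hCne : ∀ P ∈ C, P ≠ root := fun P hP h' => hrC (by rw [← h']; exact hP)
  have hxs : ∀ p : T.Wd → Prop, ∑ P ∈ Finset.univ.filter p,
      (Finset.univ.filter (fun d : T.D => d ∈ N \ hCt.T ∧ T.wd d = P)).card =
      (Finset.univ.filter (fun d : T.D => d ∈ N \ hCt.T ∧ p (T.wd d))).card := by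
    intro p
    rw [Finset.card_eq_sum_card_fiberwise (f := T.wd) (t := Finset.univ.filter p)
      (s := Finset.univ.filter (fun d : T.D => d ∈ N \ hCt.T ∧ p (T.wd d)))]
    · refine Finset.sum_congr rfl fun P hP => ?_
      congr 1
      ext d
      simp only [Finset.mem_filter, Finset.mem_univ, true_and] at hP ⊢
      constructor
      · rintro ⟨h1, h2⟩
        exact ⟨⟨h1, by rw [h2]; exact hP⟩, h2⟩
      · rintro ⟨⟨h1, _⟩, h2⟩
        exact ⟨h1, h2⟩
    · intro d hd
      simp only [Finset.coe_filter, Finset.mem_univ, true_and] at hd ⊢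
      exact hd.2
  have hxall : ∑ P, (Finset.univ.filter (fun d : T.D => d ∈ N \ hCt.T ∧ T.wd d = P)).card = (N \ hCt.T).ncard := by
    have h1 := hxs (fun _ => True)
    simp only [Finset.filter_true, and_true] at h1
    rw [h1, ← Set.ncard_coe_finset]
    congr 1
    ext d
    simp
  have hCX : C.card ≤ 3 * X0 := by
    refine hCc.trans ?_
    rw [hxall]
    omega
  -- different letters
  have hee : ∀ P Q, P ≠ root → Q ≠ root → e P = e Q → P = Q := by
    intro P Q hP hQ heq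
    rw [← hCt.wd P hP, ← hCt.wd Q hQ, heq]
  have hea : ∀ P Q, P ≠ root → Q ≠ root → e P ≠ T.a (e Q) := by
    intro P Q hP hQ heq
    have h1 : T.wd (T.a (e Q)) = P := by rw [← heq, hCt.wd P hP]
    have h2 : T.wd (T.a (e P)) = Q := by rw [heq, T.aa, hCt.wd Q hQ]
    have h3 := hCt.lt P hP
    have h4 := hCt.lt Q hQ
    rw [h2] at h3
    rw [h1] at h4
    omega
  set Y : Set T.D := (N \ hCt.T) ∪ {d | ∃ P ∈ C, d = e P ∨ d = T.a (e P)} with hY
  have hYcl : T.Cl Y := by
    rintro d (hd | ⟨P, hP, hd | hd⟩)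
    · refine Or.inl ⟨hF.cl _ hd.1, fun h' => hd.2 ?_⟩
      rw [← T.aa d]
      exact hTcl _ h'
    · exact Or.inr ⟨P, hP, Or.inr (by rw [hd])⟩
    · exact Or.inr ⟨P, hP, Or.inl (by rw [hd, T.aa])⟩
  have hYN : Y ⊆ N := by
    rintro d (hd | ⟨P, hP, hd | hd⟩)
    · exact hd.1
    · rw [hd]; exact hCt.mem P (hCne P hP)
    · rw [hd]; exact hF.cl _ (hCt.mem P (hCne P hP))
  have hYc : Y.ncard ≤ 7 * X0 := by
    have h1 : Y ⊆ (N \ hCt.T) ∪ ((e '' (C : Set T.Wd)) ∪ ((fun P => T.a (e P)) '' (C : Set T.Wd))) := by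
      rintro d (hd | ⟨P, hP, hd | hd⟩)
      · exact Or.inl hd
      · exact Or.inr (Or.inl ⟨P, hP, hd.symm⟩)
      · exact Or.inr (Or.inr ⟨P, hP, hd.symm⟩)
    have h2 := Set.ncard_le_ncard h1 (Set.toFinite _)
    have h3 := Set.ncard_union_le (N \ hCt.T) ((e '' (C : Set T.Wd)) ∪ ((fun P => T.a (e P)) '' (C : Set T.Wd)))
    have h4 := Set.ncard_union_le (e '' (C : Set T.Wd)) ((fun P => T.a (e P)) '' (C : Set T.Wd))
    have h5 := Set.ncard_image_le (f := e) (s := (C : Set T.Wd)) (Set.toFinite _)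
    have h6 := Set.ncard_image_le (f := fun P => T.a (e P)) (s := (C : Set T.Wd)) (Set.toFinite _)
    rw [Set.ncard_coe_finset] at h5 h6
    omega
  obtain ⟨W, hWN, hW⟩ := walls_exist T hT hF Y hYcl hYN
  have hWY : ∀ d, d ∈ W → d ∈ N → d ∈ Y := fun d h1 h2 => by rw [← hWN]; exact ⟨h1, h2⟩
  have hYW : ∀ d, d ∈ Y → d ∈ W := fun d h1 => by
    rw [← hWN] at h1
    exact h1.1
  have heW : ∀ P, P ≠ root → (e P ∈ W ↔ P ∈ C) := by
    intro P hP
    constructor
    · intro h1
      rcases hWY _ h1 (hCt.mem P hP) with h2 | ⟨Q, hQ, h2 | h2⟩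
      · exact absurd (show e P ∈ hCt.T from ⟨P, hP, Or.inl rfl⟩) h2.2
      · rw [hee P Q hP (hCne Q hQ) h2]
        exact hQ
      · exact absurd h2 (hea P Q hP (hCne Q hQ))
    · intro h1
      exact hYW _ (Or.inr ⟨P, h1, Or.inl rfl⟩)
  have hX : ∀ d ∈ N, d ∉ W → d ∈ hCt.T := by
    intro d h1 h2
    by_contra h3
    exact h2 (hYW _ (Or.inl ⟨h1, h3⟩))
  have ht1 : ∀ P, P = root ∨ e P ∈ W → top P = P := by
    intro P hP
    by_cases h1 : P = root
    · exact htop P (Or.inl h1)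
    · rcases hP with hP | hP
      · exact absurd hP h1
      · exact htop P (Or.inr ((heW P h1).1 hP))
  have ht2 : ∀ P, P ≠ root → e P ∉ W → top P = top (T.wd (T.a (e P))) := by
    intro P hP h1
    exact hpar P hP (fun h' => h1 ((heW P hP).2 h'))
  have hcnt : ∀ t, Set.ncard {d | d ∈ W ∧ d ∈ N ∧ top (T.wd d) = t} ≤ Set.ncard {d | d ∈ N ∧ T.wd d = t} + 2 := by
    intro t
    have h1 : {d | d ∈ W ∧ d ∈ N ∧ top (T.wd d) = t} ⊆
        ((Finset.univ.filter (fun d : T.D => d ∈ N \ hCt.T ∧ top (T.wd d) = t) : Finset T.D) : Set T.D) ∪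
        ({e t} ∪ ((fun P => T.a (e P)) '' ((C.filter (fun P => top (T.wd (T.a (e P))) = t) : Finset T.Wd) : Set T.Wd))) := by
      rintro d ⟨h1, h2, h3⟩
      rcases hWY d h1 h2 with h4 | ⟨P, hP, h4 | h4⟩
      · left
        simp only [Finset.coe_filter, Finset.mem_univ, true_and]
        exact ⟨h4, h3⟩
      · right; left
        have h5 : top P = t := by rw [← h3, h4, hCt.wd P (hCne P hP)]
        rw [htop P (Or.inr hP)] at h5
        rw [h4, h5]
        rfl
      · right; right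
        refine ⟨P, ?_, h4.symm⟩
        simp only [Finset.coe_filter]
        exact ⟨hP, by rw [← h3, h4]⟩
    have h2 := Set.ncard_le_ncard h1 (Set.toFinite _)
    have h3 := Set.ncard_union_le
      ((Finset.univ.filter (fun d : T.D => d ∈ N \ hCt.T ∧ top (T.wd d) = t) : Finset T.D) : Set T.D)
      ({e t} ∪ ((fun P => T.a (e P)) '' ((C.filter (fun P => top (T.wd (T.a (e P))) = t) : Finset T.Wd) : Set T.Wd)))
    have h4 := Set.ncard_union_le ({e t} : Set T.D)
      ((fun P => T.a (e P)) '' ((C.filter (fun P => top (T.wd (T.a (e P))) = t) : Finset T.Wd) : Set T.Wd))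
    have h5 := Set.ncard_image_le (f := fun P => T.a (e P))
      (s := ((C.filter (fun P => top (T.wd (T.a (e P))) = t) : Finset T.Wd) : Set T.Wd)) (Set.toFinite _)
    rw [Set.ncard_coe_finset] at h3 h5
    rw [Set.ncard_singleton] at h4
    have h6 := hcl t
    have h7 := hxs (fun P => top P = t)
    have h8 : (Finset.univ.filter (fun d : T.D => d ∈ N \ hCt.T ∧ T.wd d = t)).card +
        (Finset.univ.filter (fun P : T.Wd => P ≠ root ∧ T.wd (T.a (e P)) = t)).card ≤
        Set.ncard {d | d ∈ N ∧ T.wd d = t} := by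
      have h9 : (Finset.univ.filter (fun P : T.Wd => P ≠ root ∧ T.wd (T.a (e P)) = t)).card =
          ((Finset.univ.filter (fun P : T.Wd => P ≠ root ∧ T.wd (T.a (e P)) = t)).image (fun P => T.a (e P))).card := by
        rw [Finset.card_image_of_injOn]
        intro P hP Q hQ h10
        simp only [Finset.coe_filter, Finset.mem_univ, true_and] at hP hQ
        exact hee P Q hP.1 hQ.1 (T.a.injective h10)
      rw [h9, ← Finset.card_union_of_disjoint, ← Set.ncard_coe_finset]
      · refine Set.ncard_le_ncard ?_ (Set.toFinite _)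
        intro d hd
        simp only [Finset.coe_union, Finset.coe_filter, Finset.mem_univ, true_and, Finset.coe_image] at hd
        rcases hd with hd | ⟨P, hP, hd⟩
        · exact ⟨hd.1.1, hd.2⟩
        · rw [← hd]
          exact ⟨hF.cl _ (hCt.mem P hP.1), hP.2⟩
      · rw [Finset.disjoint_left]
        intro d h10 h11
        simp only [Finset.mem_filter, Finset.mem_univ, true_and, Finset.mem_image] at h10 h11
        obtain ⟨P, hP, hd⟩ := h11
        exact h10.1.2 ⟨P, hP.1, Or.inr hd.symm⟩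
    omega
  obtain ⟨hw1, hw2⟩ := cluster_walls T hF hCt hW hX top ht2
  refine ⟨W, hW, top, insert root C, ?_, ?_, ?_, hw1, ?_, ?_⟩
  · have key : ∀ n, ∀ P, h P < n → top P ∈ insert root C := by
      intro n
      induction n with
      | zero => intro P hP; omega
      | succ n ih =>
        intro P hP
        by_cases h1 : P = root
        · rw [htop P (Or.inl h1), h1]
          exact Finset.mem_insert_self _ _
        by_cases h2 : P ∈ C
        · rw [htop P (Or.inr h2)]
          exact Finset.mem_insert_of_mem h2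
        · rw [hpar P h1 h2]
          have h3 := hCt.lt P h1
          exact ih _ (by omega)
    exact fun P => key _ P (Nat.lt_succ_self _)
  · have h1 := Finset.card_insert_le root C
    omega
  · rw [hWN]
    exact hYc
  · intro t
    exact (hw2 t).trans (Nat.mul_le_mul_left _ (hcnt t))
  · intro L hL hPQ hU
    refine carve L T hT hF hCt hW hX top ht1 ht2 hL ?_ hU
    intro P
    refine le_trans (Nat.mul_le_mul_left _ (Nat.mul_le_mul_left _ ?_)) (hPQ (top P) P)
    have h1 := hcnt (top P)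
    omega

end Pool.Agent.GW
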