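import Pool.Agent.GW.BallBig
import Pool.Agent.GW.Roots
import Pool.Agent.GW.Chord
import Pool.Agent.GW.WallSys
import Pool.Agent.GW.CoarseSt
import Pool.Agent.GW.Main
import Pool.Agent.GW.RegNum

/-!
# GW/RegFin: the regular connected case

`A = area`, `a0 = A / (2 G)` (natural division; `4 ≤ a0`, `A ≤ 4 G a0`), `r0 = √(18 a0) + 1` (`Nat.sqrt`; `18 a0 < r0^2 ≤ 36 a0`, so `r0^2 G ≤ 18 A`).  `ball_big`, `roots`:
`|R0| a0 ≤ 3 A`, so `|R0| ≤ 12 G`.  `chord`.  `X0 = 26 G`, `wallsys` with `ρ = 4 r0`: `k P = #{d ∈ N' | wd d = P}`, `r0 k ≤ pw + 3 r0`; `|W ∩ N'| ≤ 182 G`,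
`|W ∩ K_t| ≤ (8 r0 + 1) (k t + 2) ≤ 9 r0 (k t + 2) ≤ 9 (pw t + 5 r0)`, `tops.card ≤ 79 G`,
`∑_{t ∈ tops} |W ∩ K_t|^2 ≤ 162 (∑ pw t^2 + 25 r0^2 79 G) ≤ 162 (A + 79 G 4 r0^2 + 25 · 79 G r0^2) ≤ C A`; `|W| ≤ ∑_t |W ∩ K_t| ≤ √(79 G) √(C A)`.
`dl = ⌈√A / G^2⌉`: `√A ≤ dl G^2 ≤ 2 √A` (as `G^4 ≤ A`).  `coarse_state`: `S2.card ≤ C G + C √(A G) / dl ≤ C G^3`, `S2.area ≤ C G^2 + C A / dl^2 ≤ C G^4`.
`main_U` with `ε / 3`: `L2 = L / (2 dl)`, `U.mono`.  Conditions: words at most `√A`, `2 (8 r0 + 1) (k P + k Q + 2) ≤ 18 (pw P + pw Q + 8 r0) ≤ C √A ≤ L`.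
-/

set_option autoImplicit false

namespace Pool.Agent.GW

open Equiv Pool.Agent.SWP

/-- step 1: a forest with few roots -/
theorem reg_roots (S : Sf) (G : ℕ) (hS : S.Closed) (hG : 2 ≤ G) (hA : G ^ 4 ≤ S.area)
    (hreg : ∀ (P : S.Wd) (r : ℕ), 2 * G * ∑ Q ∈ S.dual.EB Finset.univ S.pw {P} r, S.pw Q ^ 2 ≤ S.area →
      ∑ Q ∈ S.dual.EB Finset.univ S.pw {P} r, S.pw Q ^ 2 <
        2 * (S.bd (S.lets (S.dual.EB Finset.univ S.pw {P} r))).ncard ^ 2) :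
    ∃ (r0 : ℕ) (N : Set S.D) (δ : S.D → ℕ) (R0 : Finset S.D), 0 < r0 ∧ r0 ^ 2 * G ≤ 18 * S.area ∧
      Fo S N δ (3 * r0) ∧ (∀ d, δ d = 0 → ∃ e ∈ R0, S.vx e d) ∧ R0.card ≤ 12 * G := by
  obtain ⟨h4, h5, h6⟩ := rn_par hG hA
  obtain ⟨h7, h8⟩ := rn_sqrt h4
  set a0 := S.area / (2 * G) with ha0
  set r0 := Nat.sqrt (18 * a0) + 1 with hr0
  have hbig : ∀ P : S.Wd, a0 < ∑ Q ∈ S.dual.EB Finset.univ S.pw {P} r0, S.pw Q ^ 2 := by
    intro P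
    refine ball_big S.dual S.pw (fun x => (S.DecompS_om x).le) P (S.DecompS_pos P) ?_ r0 h7
    intro r hr
    have h9 : 2 * G * ∑ Q ∈ S.dual.EB Finset.univ S.pw {P} r, S.pw Q ^ 2 ≤ S.area :=
      (Nat.mul_le_mul_left _ hr).trans h6
    have h10 := hreg P r h9
    rw [S.dual_cut]
    exact_mod_cast h10
  obtain ⟨N, δ, R0, h9, h10, h11⟩ := roots S hS (a0 := a0) (r0 := r0) (by omega) (by omega) hbig
  refine ⟨r0, N, δ, R0, by omega, ?_, h9, h10, ?_⟩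
  · have h12 : r0 ^ 2 * G ≤ 36 * a0 * G := Nat.mul_le_mul_right _ h8
    have h13 : 36 * a0 * G = 18 * (2 * G * a0) := by ring
    omega
  · have h12 : R0.card * a0 ≤ (12 * G) * a0 := by
      calc R0.card * a0 ≤ 3 * S.area := h11
        _ ≤ 3 * (4 * G * a0) := Nat.mul_le_mul_left _ h5
        _ = (12 * G) * a0 := by ring
    exact Nat.le_of_mul_le_mul_right h12 (by omega)

/-- number of wall letters -/
theorem reg_sum {D V : Type} [Fintype D] [Fintype V] [DecidableEq V] (f : D → V) (W : Set D) :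
    W.ncard = ∑ t : V, Set.ncard {d | d ∈ W ∧ f d = t} := by
  have h := Sf.ncard_sum f W Finset.univ (fun d _ => Finset.mem_univ _)
  exact_mod_cast h

/-- steps 2 - 4: the coarse state -/
theorem reg_coarse (S : Sf) (G : ℕ) (hS : S.Closed) (hC : S.Con) (hgen : S.gen + 2 ≤ G) (hG : 2 ≤ G)
    (hA : G ^ 4 ≤ S.area)
    (hreg : ∀ (P : S.Wd) (r : ℕ), 2 * G * ∑ Q ∈ S.dual.EB Finset.univ S.pw {P} r, S.pw Q ^ 2 ≤ S.area →
      ∑ Q ∈ S.dual.EB Finset.univ S.pw {P} r, S.pw Q ^ 2 <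
        2 * (S.bd (S.lets (S.dual.EB Finset.univ S.pw {P} r))).ncard ^ 2) :
    ∃ (S2 : Sf) (dl : ℕ), S2.Closed ∧ (dl : ℝ) * (G : ℝ) ^ 2 ≤ 2 * Real.sqrt S.area ∧
      (S2.card : ℝ) ≤ 52000 * (G : ℝ) ^ 3 ∧ (S2.area : ℝ) ≤ 100000000 * (G : ℝ) ^ 4 ∧
      ∀ L L2 : ℕ, 1300 * Real.sqrt S.area ≤ L → 2 * dl * L2 ≤ L → U L2 S2 → U L S := by
  classical
  obtain ⟨r0, N, δ, R0, hr0, hrG, hF, hR, hRc⟩ := reg_roots S G hS hG hA hreg
  obtain ⟨T, N', δ', R0', hT, hTC, hF', hRc', hR', hgen', hN', hlen', hsum', hU'⟩ := chord S hS hC hF R0 hR r0 hr0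
  obtain ⟨dl, hdl, hd1, hd2⟩ := rn_dl hG hA
  -- lengths
  have hsA : ∀ d, (S.len d : ℝ) ≤ Real.sqrt S.area := by
    intro d
    refine Real.le_sqrt_of_sq_le ?_
    exact_mod_cast len_sq_le_area S d
  have hr0A : (r0 : ℝ) ≤ 5 * Real.sqrt S.area := by
    have h1 : r0 ^ 2 ≤ 9 * S.area := by
      have h2 : r0 ^ 2 * 2 ≤ r0 ^ 2 * G := Nat.mul_le_mul_left _ hG
      omega
    have h3 : (r0 : ℝ) ^ 2 ≤ (5 * Real.sqrt S.area) ^ 2 := by
      rw [mul_pow, Real.sq_sqrt (Nat.cast_nonneg _)]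
      have h4 : (r0 : ℝ) ^ 2 ≤ 9 * S.area := by exact_mod_cast h1
      have h5 : (0 : ℝ) ≤ S.area := Nat.cast_nonneg _
      linarith
    exact abs_le_of_sq_le_sq' h3 (by positivity) |>.2
  have hTlen : ∀ d, (T.len d : ℝ) ≤ 10 * Real.sqrt S.area := by
    intro d
    rcases hlen' d with ⟨e, he⟩ | he
    · rw [he]
      have h1 := hsA e
      have h2 := Real.sqrt_nonneg (S.area : ℝ)
      linarith
    · have h1 : (T.len d : ℝ) ≤ 2 * r0 := by exact_mod_cast he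
      linarith
  have hU1 : ∀ L : ℕ, 1300 * Real.sqrt S.area ≤ L → U L T → U L S := by
    intro L hL hUT
    refine hU' L (fun d => ?_) ?_ hUT
    · have h1 := hsA d
      have h2 := Real.sqrt_nonneg (S.area : ℝ)
      have h3 : ((2 * S.len d : ℕ) : ℝ) ≤ L := by push_cast; linarith
      exact_mod_cast h3
    · have h2 := Real.sqrt_nonneg (S.area : ℝ)
      have h3 : ((4 * r0 : ℕ) : ℝ) ≤ L := by push_cast; linarith
      exact_mod_cast h3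
  by_cases hne : Nonempty T.D
  swap
  · have hemp : IsEmpty T.D := not_nonempty_iff.1 hne
    refine ⟨T, dl, hT, hd2, ?_, ?_, fun L L2 hL _ _ => hU1 L hL (U.done T (fun d => (hemp.false d).elim))⟩
    · have h1 : T.card = 0 := Fintype.card_eq_zero
      rw [h1, Nat.cast_zero]
      positivity
    · have h1 : T.area = 0 := by
        unfold Sf.area
        exact Finset.sum_eq_zero (fun d _ => (hemp.false d).elim)
      rw [h1, Nat.cast_zero]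
      positivity
  -- walls
  have hX0 : 2 * T.gen + 2 * R0'.card ≤ ((26 * G : ℕ) : ℤ) + 2 := by
    have h1 : (R0'.card : ℤ) ≤ 12 * G := by exact_mod_cast hRc'.trans hRc
    push_cast
    linarith
  obtain ⟨W, hW, lab, tops, hlt, htc, hWN, hlab, hWK, hUW⟩ := wallsys T hT hTC hne hF' R0' hR' (26 * G) hX0
  -- letters of N in a word
  have hnk : ∀ t : T.Wd, r0 * Set.ncard {d | d ∈ N' ∧ T.wd d = t} ≤ T.pw t + 3 * r0 := by
    intro t
    obtain ⟨d, rfl⟩ := T.wd_surj t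
    have h1 := hN' d
    rw [len_eq_pw T hT] at h1
    have h2 : {e | e ∈ N' ∧ T.wd e = T.wd d} = N' ∩ T.word d := by
      ext e
      constructor
      · rintro ⟨h3, h4⟩
        exact ⟨h3, (T.wd_eq _ _).1 h4.symm⟩
      · rintro ⟨h3, h4⟩
        exact ⟨h3, ((T.wd_eq _ _).2 h4).symm⟩
    rw [h2]
    exact h1
  have h8 : 2 * (3 * r0 + r0) + 1 ≤ 9 * r0 := by omega
  have hK : ∀ t : T.Wd, Set.ncard {d | d ∈ W ∧ lab (T.wd d) = t} ≤ 9 * (T.pw t + 5 * r0) := by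
    intro t
    refine (hWK t).trans ?_
    calc (2 * (3 * r0 + r0) + 1) * (Set.ncard {d | d ∈ N' ∧ T.wd d = t} + 2)
        ≤ 9 * r0 * (Set.ncard {d | d ∈ N' ∧ T.wd d = t} + 2) := Nat.mul_le_mul_right _ h8
      _ = 9 * (r0 * Set.ncard {d | d ∈ N' ∧ T.wd d = t} + 2 * r0) := by ring
      _ ≤ 9 * (T.pw t + 3 * r0 + 2 * r0) := Nat.mul_le_mul_left _ (Nat.add_le_add_right (hnk t) _)
      _ = 9 * (T.pw t + 5 * r0) := by ring
  have htc' : tops.card ≤ 79 * G := by omega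
  have hK0 : ∀ t, t ∉ tops → Set.ncard {d | d ∈ W ∧ lab (T.wd d) = t} = 0 := by
    intro t ht
    rw [Set.ncard_eq_zero (Set.toFinite _)]
    ext d
    refine ⟨?_, fun h => h.elim⟩
    rintro ⟨_, h⟩
    exact ht (by rw [← h]; exact hlt _)
  have hKs := rn_K tops (fun t => Set.ncard {d | d ∈ W ∧ lab (T.wd d) = t}) T.pw (A := S.area) hK (hsum' tops)
    htc' hrG hK0
  have hWs := rn_W tops (fun t => Set.ncard {d | d ∈ W ∧ lab (T.wd d) = t}) (A := S.area) htc' hK0 hKs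
  rw [← reg_sum (fun d => lab (T.wd d)) W] at hWs
  obtain ⟨S2, hS2, hc2, ha2, hU2⟩ := coarse_state T hT hF' hW lab hlab dl hdl
  have hWN' : (W ∩ N').ncard ≤ 182 * G := by omega
  refine ⟨S2, dl, hS2, hd2, ?_, ?_, ?_⟩
  · refine rn_card hG hdl hd1 (hc2.trans ?_) hWs
    have h1 : dl * (W ∩ N').ncard ≤ dl * (182 * G) := Nat.mul_le_mul_left _ hWN'
    omega
  · refine rn_area hG hdl hd1 hKs (ha2.trans ?_)
    have h1 : (W ∩ N').ncard ^ 2 ≤ (182 * G) ^ 2 := Nat.pow_le_pow_left hWN' 2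
    have h2 : dl ^ 2 * (W ∩ N').ncard ^ 2 ≤ dl ^ 2 * (182 * G) ^ 2 := Nat.mul_le_mul_left _ h1
    omega
  · intro L L2 hL hL2 hUS
    refine hU1 L hL (hUW L (fun d => ?_) (fun P Q => ?_) ((hU2 L2 hUS).mono hL2))
    · have h1 := hTlen d
      have h2 := Real.sqrt_nonneg (S.area : ℝ)
      have h3 : (T.len d : ℝ) ≤ L := by linarith
      exact_mod_cast h3
    · obtain ⟨dP, hP⟩ := T.wd_surj P
      obtain ⟨dQ, hQ⟩ := T.wd_surj Q
      have h1 := hTlen dP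
      have h2 := hTlen dQ
      rw [len_eq_pw T hT, hP] at h1
      rw [len_eq_pw T hT, hQ] at h2
      have h3 := hnk P
      have h4 := hnk Q
      have h5 : 2 * ((2 * (3 * r0 + r0) + 1) * (Set.ncard {d | d ∈ N' ∧ T.wd d = P} +
          Set.ncard {d | d ∈ N' ∧ T.wd d = Q} + 2)) ≤ 18 * (T.pw P + T.pw Q + 8 * r0) := by
        calc 2 * ((2 * (3 * r0 + r0) + 1) * (Set.ncard {d | d ∈ N' ∧ T.wd d = P} +
            Set.ncard {d | d ∈ N' ∧ T.wd d = Q} + 2))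
            ≤ 2 * (9 * r0 * (Set.ncard {d | d ∈ N' ∧ T.wd d = P} +
              Set.ncard {d | d ∈ N' ∧ T.wd d = Q} + 2)) := Nat.mul_le_mul_left _ (Nat.mul_le_mul_right _ h8)
          _ = 18 * (r0 * Set.ncard {d | d ∈ N' ∧ T.wd d = P} + r0 * Set.ncard {d | d ∈ N' ∧ T.wd d = Q} + 2 * r0) := by
              ring
          _ ≤ 18 * (T.pw P + T.pw Q + 8 * r0) := by omega
      have h6 : ((18 * (T.pw P + T.pw Q + 8 * r0) : ℕ) : ℝ) ≤ L := by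
        push_cast
        linarith
      exact h5.trans (by exact_mod_cast h6)

theorem reg_U : ∀ ε : ℝ, 0 < ε → ∃ C : ℝ, 1 ≤ C ∧ ∀ (S : Sf) (G L : ℕ), S.Closed → S.Con → Nonempty S.D →
    S.gen + 2 ≤ G → 2 ≤ G → G ^ 4 ≤ S.area →
    (∀ (P : S.Wd) (r : ℕ), 2 * G * ∑ Q ∈ S.dual.EB Finset.univ S.pw {P} r, S.pw Q ^ 2 ≤ S.area →
      ∑ Q ∈ S.dual.EB Finset.univ S.pw {P} r, S.pw Q ^ 2 <
        2 * (S.bd (S.lets (S.dual.EB Finset.univ S.pw {P} r))).ncard ^ 2) →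
    C * (G : ℝ) ^ ε * Real.sqrt S.area ≤ L → U L S := by
  intro ε hε
  obtain ⟨C0, hC0, hmain⟩ := main_U (ε / 3) (by positivity)
  have h52 : (1 : ℝ) ≤ (52000 : ℝ) ^ (ε / 3) := Real.one_le_rpow (by norm_num) (by positivity)
  have hB : 0 ≤ 8 * (C0 * (52000 : ℝ) ^ (ε / 3) * 10000) := by
    have : 0 ≤ C0 := by linarith
    positivity
  refine ⟨8 * (C0 * (52000 : ℝ) ^ (ε / 3) * 10000) + 1300, by linarith, ?_⟩
  intro S G L hS hC _ hgen hG hA hreg hL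
  obtain ⟨S2, dl, hS2, hd2, hc2, ha2, hU⟩ := reg_coarse S G hS hC hgen hG hA hreg
  have hG1 : (1 : ℝ) ≤ G := by exact_mod_cast (by omega : 1 ≤ G)
  have hGe : (1 : ℝ) ≤ (G : ℝ) ^ ε := Real.one_le_rpow hG1 hε.le
  have hs := Real.sqrt_nonneg (S.area : ℝ)
  have hGs : Real.sqrt S.area ≤ (G : ℝ) ^ ε * Real.sqrt S.area := by
    have := mul_le_mul_of_nonneg_right hGe hs
    linarith
  have h0 : 0 ≤ (G : ℝ) ^ ε * Real.sqrt S.area := hs.trans hGs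
  have hL' : 8 * (C0 * (52000 : ℝ) ^ (ε / 3) * 10000) * ((G : ℝ) ^ ε * Real.sqrt S.area) +
      1300 * ((G : ℝ) ^ ε * Real.sqrt S.area) ≤ L := by
    refine le_trans (le_of_eq ?_) hL
    ring
  have h3 : 0 ≤ 8 * (C0 * (52000 : ℝ) ^ (ε / 3) * 10000) * ((G : ℝ) ^ ε * Real.sqrt S.area) := mul_nonneg hB h0
  obtain ⟨L2, h4, h5⟩ := rn_fin (L := L) hε hC0 hG hd2 hc2 ha2 (by
    have h6 : 8 * (C0 * (52000 : ℝ) ^ (ε / 3) * 10000) * (G : ℝ) ^ ε * Real.sqrt S.area =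
      8 * (C0 * (52000 : ℝ) ^ (ε / 3) * 10000) * ((G : ℝ) ^ ε * Real.sqrt S.area) := by ring
    rw [h6]
    linarith)
  exact hU L L2 (by linarith) h5 (hmain S2 L2 hS2 h4)

end Pool.Agent.GW
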