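import Pool.Agent.GW.Net

/-!
# Route lemma in the Hamming network (note 3851 (2))

PROOF. For a first hub `g` and a tuple `x` (coordinates `α = x none`, `β = x (some none)`, `u j = x (some (some j))`) path 1 is `g`, `g` with
the last digit set to `α`, then the digits `0 .. R-1` are set to `u_0 .. u_(R-1)` (`rtP (Equiv.refl _) none g x k`, `k = 0 .. R+1`, ends
at `u`). Path 2 starts at `h`, sets the first digit to `β`, then the digits `R-1, .., 0` to those of `u` (`rtP Fin.revPerm (some none)`).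
Every requirement (new digit different from the old one; hub not in `Fb`; legal turn; hubs of the two paths different, different
from `i0`, `j0`) fails for at most `β + K + 1` values of ONE coordinate, the others being fixed (`rt_small`, `rt_union`), there are
`9 R + 15` of them, so at least half of the `B^(R+2)` tuples are legal, and some legal tuple has cost at most twice the average
(`rt_pick`); `∑_g rtE g = (R+1) ∑ ω` because setting a digit to uniform values keeps the uniform distribution (`rt_avg`).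
`s i = (3/M) ∑_(g adj i) A g`, `A g = ω g + 2 E1 g + 2 E2 g`: choose `g ∈ I`, `g ≠ j0` with least `A g` and `h ∈ J`, `h ≠ i0, g` with least `A h`.
-/

set_option autoImplicit false

namespace Pool.Agent.GW

open Equiv Pool.Agent.SWP

/-! ### uniform tuples -/

theorem rt_upd_sum {κ : Type} [Fintype κ] [DecidableEq κ] {B : ℕ} {V : Type} [AddCommMonoid V] (c : κ)
    (F : (κ → Fin B) → V) :
    ∑ x : κ → Fin B, ∑ v : Fin B, F (Function.update x c v) = B • ∑ x : κ → Fin B, F x := by
  rw [← Fintype.sum_prod_type' (fun x v => F (Function.update x c v))]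
  have h2 : ∑ p : (κ → Fin B) × Fin B, F (Function.update p.1 c p.2) = ∑ p : (κ → Fin B) × Fin B, F p.1 := by
    refine Fintype.sum_equiv (⟨fun p => (Function.update p.1 c p.2, p.1 c), fun p => (Function.update p.1 c p.2, p.1 c),
      fun p => by simp, fun p => by simp⟩ : (κ → Fin B) × Fin B ≃ (κ → Fin B) × Fin B) _ _ (fun p => rfl)
  rw [h2, Fintype.sum_prod_type' (fun x (_ : Fin B) => F x)]
  simp [Finset.sum_nsmul]

/-- few values of one coordinate, the others being fixed -/
theorem rt_small {κ : Type} [Fintype κ] [DecidableEq κ] {B n : ℕ} (A : Set (κ → Fin B)) (c : κ)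
    (h : ∀ x : κ → Fin B, {v | Function.update x c v ∈ A}.ncard ≤ n) :
    B * A.ncard ≤ n * Fintype.card (κ → Fin B) := by
  classical
  have h1 := rt_upd_sum c (fun x => if x ∈ A then (1 : ℕ) else 0)
  have h2 : ∑ x : κ → Fin B, (if x ∈ A then (1 : ℕ) else 0) = A.ncard := by
    rw [Set.ncard_eq_toFinset_card' A, ← Finset.sum_filter, Finset.sum_const, smul_eq_mul, mul_one]
    congr 1; ext x; simp
  rw [h2, smul_eq_mul] at h1
  rw [← h1]
  calc ∑ x : κ → Fin B, ∑ v : Fin B, (if Function.update x c v ∈ A then (1 : ℕ) else 0)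
      ≤ ∑ _x : κ → Fin B, n := by
        refine Finset.sum_le_sum (fun x _ => ?_)
        refine le_trans (le_of_eq ?_) (h x)
        rw [Set.ncard_eq_toFinset_card', ← Finset.sum_filter, Finset.sum_const, smul_eq_mul, mul_one]
        congr 1; ext v; simp
    _ = n * Fintype.card (κ → Fin B) := by simp [mul_comm]

/-- union of sets which are small in one coordinate -/
theorem rt_union {κ ρ : Type} [Fintype κ] [DecidableEq κ] [Fintype ρ] {B n : ℕ} (A : ρ → Set (κ → Fin B)) (c : ρ → κ)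
    (h : ∀ r x, {v | Function.update x (c r) v ∈ A r}.ncard ≤ n) :
    B * (⋃ r, A r).ncard ≤ Fintype.card ρ * n * Fintype.card (κ → Fin B) := by
  classical
  have h1 : (⋃ r, A r).ncard ≤ ∑ r, (A r).ncard := by
    have : (⋃ r, A r) = ((Finset.univ.biUnion (fun r => (A r).toFinset) : Finset (κ → Fin B)) : Set (κ → Fin B)) := by
      ext x; simp
    rw [this, Set.ncard_coe_finset]
    refine le_trans Finset.card_biUnion_le (Finset.sum_le_sum (fun r _ => ?_))
    rw [Set.ncard_eq_toFinset_card']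
  calc B * (⋃ r, A r).ncard ≤ B * ∑ r, (A r).ncard := Nat.mul_le_mul_left _ h1
    _ = ∑ r, B * (A r).ncard := by rw [Finset.mul_sum]
    _ ≤ ∑ _r : ρ, n * Fintype.card (κ → Fin B) := Finset.sum_le_sum (fun r _ => rt_small (A r) (c r) (h r))
    _ = Fintype.card ρ * n * Fintype.card (κ → Fin B) := by simp [mul_assoc]

/-- in a set of at least half of the tuples there is one with at most twice the average cost -/
theorem rt_pick {X : Type} [Fintype X] [Nonempty X] (Bad : Set X) (hb : 2 * Bad.ncard ≤ Fintype.card X)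
    (F : X → ℝ) (hF : ∀ x, 0 ≤ F x) :
    ∃ x, x ∉ Bad ∧ F x ≤ 2 * ((∑ x, F x) / Fintype.card X) := by
  classical
  by_contra hcon
  push Not at hcon
  set N : ℝ := (Fintype.card X : ℝ) with hN
  have hNpos : 0 < N := by rw [hN]; exact_mod_cast Fintype.card_pos
  set G : Finset X := Finset.univ.filter (fun x => x ∉ Bad) with hG
  have hcard : N ≤ 2 * (G.card : ℝ) := by
    have h1 : G.card + Bad.ncard = Fintype.card X := by
      rw [hG, Set.ncard_eq_toFinset_card' Bad, ← Finset.card_univ,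
        ← Finset.card_filter_add_card_filter_not (s := Finset.univ) (fun x => x ∉ Bad)]
      congr 2
      ext x; simp
    have h2 : Fintype.card X ≤ 2 * G.card := by omega
    rw [hN]; exact_mod_cast h2
  have hGne : G.Nonempty := by
    rw [← Finset.card_pos]
    by_contra h0
    have : (G.card : ℝ) = 0 := by simp at h0; simp [h0]
    rw [this] at hcard; linarith
  have h3 : ∑ x ∈ G, 2 * ((∑ x, F x) / N) < ∑ x ∈ G, F x :=
    Finset.sum_lt_sum_of_nonempty hGne (fun x hx => hcon x (by simpa [hG] using hx))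
  have h4 : ∑ x ∈ G, F x ≤ ∑ x, F x :=
    Finset.sum_le_sum_of_subset_of_nonneg (Finset.subset_univ _) (fun x _ _ => hF x)
  rw [Finset.sum_const, nsmul_eq_mul] at h3
  have h5 : (∑ x, F x) = N * ((∑ x, F x) / N) := by field_simp
  have h6 : 0 ≤ (∑ x, F x) / N := div_nonneg (Finset.sum_nonneg (fun x _ => hF x)) hNpos.le
  nlinarith

/-! ### paths -/

/-- hubs of a path: first the digit `e last` is set to `a`, then the digits `e 0, e 1, .., e last` are set to those of `u` -/
def rtQ {R B : ℕ} (e : Equiv.Perm (Fin R)) (g : Lab R B) (a : Fin B) (u : Lab R B) (k : ℕ) : Lab R B :=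
  fun j => if k = 0 then g j
    else if (e.symm j).val + 1 = R then (if k ≤ R then a else u j)
    else if (e.symm j).val + 1 < k then u j else g j

theorem rtQ_zero {R B : ℕ} (e : Equiv.Perm (Fin R)) (g : Lab R B) (a : Fin B) (u : Lab R B) :
    rtQ e g a u 0 = g := by
  funext j; simp [rtQ]

theorem rtQ_last {R B : ℕ} (e : Equiv.Perm (Fin R)) (g : Lab R B) (a : Fin B) (u : Lab R B) :
    rtQ e g a u (R + 1) = u := by
  funext j
  have h1 := (e.symm j).isLt
  unfold rtQ
  rw [if_neg (by omega)]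
  by_cases h2 : (e.symm j).val + 1 = R
  · rw [if_pos h2, if_neg (by omega)]
  · rw [if_neg h2, if_pos (by omega)]

theorem rt_eq_iff {R : ℕ} (e : Equiv.Perm (Fin R)) (j i : Fin R) : j = e i ↔ (e.symm j).val = i.val := by
  rw [← Fin.ext_iff, Equiv.symm_apply_eq]

theorem rtQ_one {R B : ℕ} (e : Equiv.Perm (Fin R)) (g : Lab R B) (a : Fin B) (u : Lab R B) (i : Fin R)
    (hi : i.val + 1 = R) : rtQ e g a u 1 = Function.update g (e i) a := by
  funext j
  unfold rtQ
  rw [if_neg (by omega), Function.update_apply]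
  by_cases h2 : (e.symm j).val + 1 = R
  · rw [if_pos h2, if_pos (by omega), if_pos ((rt_eq_iff e j i).2 (by omega))]
  · rw [if_neg h2, if_neg (by omega), if_neg (fun h => h2 (by rw [(rt_eq_iff e j i).1 h]; omega))]

theorem rtQ_succ {R B : ℕ} (e : Equiv.Perm (Fin R)) (g : Lab R B) (a : Fin B) (u : Lab R B) (i : Fin R) :
    rtQ e g a u (i.val + 1 + 1) = Function.update (rtQ e g a u (i.val + 1)) (e i) (u (e i)) := by
  funext j
  have hi := i.isLt
  have hj := (e.symm j).isLt
  rw [Function.update_apply]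
  by_cases h : j = e i
  · rw [if_pos h]
    have h1 := (rt_eq_iff e j i).1 h
    unfold rtQ
    rw [if_neg (by omega)]
    by_cases h2 : (e.symm j).val + 1 = R
    · rw [if_pos h2, if_neg (by omega), h]
    · rw [if_neg h2, if_pos (by omega), h]
  · rw [if_neg h]
    have h1 : (e.symm j).val ≠ i.val := fun h' => h ((rt_eq_iff e j i).2 h')
    unfold rtQ
    split_ifs <;> first | rfl | (exfalso; omega)

theorem rtQ_pen {R B : ℕ} (e : Equiv.Perm (Fin R)) (g : Lab R B) (a : Fin B) (u : Lab R B) (i : Fin R)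
    (hi : i.val + 1 = R) : rtQ e g a u R = Function.update u (e i) a := by
  funext j
  have hj := (e.symm j).isLt
  unfold rtQ
  rw [if_neg (by omega), Function.update_apply]
  by_cases h2 : (e.symm j).val + 1 = R
  · rw [if_pos h2, if_pos (by omega), if_pos ((rt_eq_iff e j i).2 (by omega))]
  · rw [if_neg h2, if_pos (by omega), if_neg (fun h => h2 (by rw [(rt_eq_iff e j i).1 h]; omega))]

/-- the first hubs do not depend on the later digits -/
theorem rtQ_indep {R B : ℕ} (e : Equiv.Perm (Fin R)) (g : Lab R B) (a : Fin B) (u : Lab R B) (i : Fin R)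
    (v : Fin B) (k : ℕ) (hk : k ≤ i.val + 1) :
    rtQ e g a (Function.update u (e i) v) k = rtQ e g a u k := by
  funext j
  have hi := i.isLt
  unfold rtQ
  by_cases h0 : k = 0
  · rw [if_pos h0, if_pos h0]
  rw [if_neg h0, if_neg h0]
  by_cases h2 : (e.symm j).val + 1 = R
  · rw [if_pos h2, if_pos h2, if_pos (by omega), if_pos (by omega)]
  · rw [if_neg h2, if_neg h2]
    by_cases h3 : (e.symm j).val + 1 < k
    · rw [if_pos h3, if_pos h3, Function.update_of_ne]
      intro h; have := (rt_eq_iff e j i).1 h; omega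
    · rw [if_neg h3, if_neg h3]

/-- the last digit of the middle hubs -/
theorem rtQ_dlast {R B : ℕ} (e : Equiv.Perm (Fin R)) (g : Lab R B) (a : Fin B) (u : Lab R B) (i : Fin R)
    (hi : i.val + 1 = R) (k : ℕ) (h1 : 1 ≤ k) (h2 : k ≤ R) : rtQ e g a u k (e i) = a := by
  unfold rtQ
  rw [if_neg (by omega), if_pos (by simp [hi]), if_pos h2]

/-- the digits which are already set -/
theorem rtQ_dset {R B : ℕ} (e : Equiv.Perm (Fin R)) (g : Lab R B) (a : Fin B) (u : Lab R B) (i : Fin R)
    (hi : i.val + 1 ≠ R) (k : ℕ) (h1 : i.val + 1 < k) : rtQ e g a u k (e i) = u (e i) := by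
  unfold rtQ
  rw [if_neg (by omega), if_neg (by simpa using hi), if_pos (by simpa using h1)]

/-- the digits which are not yet set -/
theorem rtQ_dold {R B : ℕ} (e : Equiv.Perm (Fin R)) (g : Lab R B) (a : Fin B) (u : Lab R B) (i : Fin R)
    (hi : i.val + 1 ≠ R) (k : ℕ) (h1 : k ≤ i.val + 1) : rtQ e g a u k (e i) = g (e i) := by
  unfold rtQ
  by_cases h0 : k = 0
  · rw [if_pos h0]
  rw [if_neg h0, if_neg (by simpa using hi), if_neg (by simpa using h1)]

/-- distinctness of the hubs of one path -/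
theorem rtQ_ne {R B : ℕ} (e : Equiv.Perm (Fin R)) (g : Lab R B) (a : Fin B) (u : Lab R B) (hR : 2 ≤ R)
    (hu : ∀ j, u j ≠ g j) (ha : ∀ i : Fin R, i.val + 1 = R → a ≠ g (e i) ∧ u (e i) ≠ a) (k l : ℕ) (hkl : k < l)
    (hl : l ≤ R + 1) : rtQ e g a u k ≠ rtQ e g a u l := by
  have hlast : ∃ i : Fin R, i.val + 1 = R := ⟨⟨R - 1, by omega⟩, by simp; omega⟩
  obtain ⟨i, hi⟩ := hlast
  intro h
  by_cases h1 : l = R + 1
  · subst h1
    rw [rtQ_last] at h
    by_cases h0 : k = 0
    · subst h0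
      rw [rtQ_zero] at h
      exact hu (e i) (by rw [h])
    · have := congrFun h (e i)
      rw [rtQ_dlast e g a u i hi k (by omega) (by omega)] at this
      exact (ha i hi).2 this.symm
  · by_cases h0 : k = 0
    · subst h0
      rw [rtQ_zero] at h
      have := congrFun h (e i)
      rw [rtQ_dlast e g a u i hi l (by omega) (by omega)] at this
      exact (ha i hi).1 this.symm
    · have hk : k - 1 < R := by omega
      have := congrFun h (e ⟨k - 1, hk⟩)
      rw [rtQ_dold e g a u _ (by simp; omega) k (by simp; omega),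
        rtQ_dset e g a u _ (by simp; omega) l (by simp; omega)] at this
      exact hu _ this.symm

theorem adj_update {R B : ℕ} (g : Lab R B) (i : Fin R) (v : Fin B) (h : v ≠ g i) : adj g (Function.update g i v) :=
  ⟨i, by simp [Ne.symm h], fun i' hi' => by simp [hi']⟩

theorem adj_symm {R B : ℕ} {g h : Lab R B} (hh : adj g h) : adj h g := by
  obtain ⟨i, h1, h2⟩ := hh
  exact ⟨i, Ne.symm h1, fun i' hi' => (h2 i' hi').symm⟩

/-- adjacency of consecutive hubs -/
theorem rtQ_adj {R B : ℕ} (e : Equiv.Perm (Fin R)) (g : Lab R B) (a : Fin B) (u : Lab R B) (hR : 2 ≤ R)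
    (hu : ∀ j, u j ≠ g j) (ha : ∀ i : Fin R, i.val + 1 = R → a ≠ g (e i) ∧ u (e i) ≠ a) (k : ℕ)
    (hk : k ≤ R) : adj (rtQ e g a u k) (rtQ e g a u (k + 1)) := by
  by_cases h0 : k = 0
  · subst h0
    rw [rtQ_zero, rtQ_one e g a u ⟨R - 1, by omega⟩ (by simp; omega)]
    exact adj_update _ _ _ (ha _ (by simp; omega)).1
  · obtain ⟨k, rfl⟩ : ∃ m, k = m + 1 := ⟨k - 1, by omega⟩
    have hkR : k < R := by omega
    have h1 := rtQ_succ e g a u ⟨k, hkR⟩
    simp only at h1
    rw [h1]
    refine adj_update _ _ _ ?_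
    by_cases h2 : k + 1 = R
    · rw [rtQ_dlast e g a u ⟨k, hkR⟩ h2 (k + 1) (by omega) (by omega)]
      exact (ha _ h2).2
    · rw [rtQ_dold e g a u ⟨k, hkR⟩ h2 (k + 1) (by simp)]
      exact hu _

/-! ### tuples of `R + 2` digits -/

/-- path for the tuple `x`; `c` is the coordinate of the auxiliary digit -/
def rtP {R B : ℕ} (e : Equiv.Perm (Fin R)) (c : Option (Option (Fin R))) (g : Lab R B)
    (x : Option (Option (Fin R)) → Fin B) (k : ℕ) : Lab R B :=
  rtQ e g (x c) (fun j => x (some (some j))) k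

theorem rt_updc {R B : ℕ} (c : Option (Option (Fin R))) (hc : ∀ j, c ≠ some (some j))
    (x : Option (Option (Fin R)) → Fin B) (v : Fin B) :
    (fun j => Function.update x c v (some (some j))) = (fun j => x (some (some j))) := by
  funext j
  rw [Function.update_of_ne (Ne.symm (hc j))]

theorem rt_updd {R B : ℕ} (x : Option (Option (Fin R)) → Fin B) (i : Fin R) (v : Fin B) :
    (fun j => Function.update x (some (some i)) v (some (some j))) =
      Function.update (fun j => x (some (some j))) i v := by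
  funext j
  by_cases h : j = i
  · subst h; simp
  · rw [Function.update_of_ne (by simpa using h), Function.update_of_ne h]

theorem rtP_one {R B : ℕ} (e : Equiv.Perm (Fin R)) (c : Option (Option (Fin R))) (g : Lab R B)
    (x : Option (Option (Fin R)) → Fin B) (v : Fin B) (i : Fin R) (hi : i.val + 1 = R) :
    rtP e c g (Function.update x c v) 1 = Function.update g (e i) v := by
  unfold rtP
  rw [rtQ_one e _ _ _ i hi]
  simp

theorem rtP_zero {R B : ℕ} (e : Equiv.Perm (Fin R)) (c : Option (Option (Fin R))) (g : Lab R B)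
    (x : Option (Option (Fin R)) → Fin B) : rtP e c g x 0 = g := rtQ_zero _ _ _ _

theorem rtP_updd {R B : ℕ} (e : Equiv.Perm (Fin R)) (c : Option (Option (Fin R))) (hc : ∀ j, c ≠ some (some j))
    (g : Lab R B) (x : Option (Option (Fin R)) → Fin B) (v : Fin B) (i : Fin R) (k : ℕ) (hk : k ≤ i.val + 1) :
    rtP e c g (Function.update x (some (some (e i))) v) k = rtP e c g x k := by
  unfold rtP
  rw [rt_updd, Function.update_of_ne (hc (e i)), rtQ_indep e _ _ _ _ _ _ hk]

theorem rtP_succ {R B : ℕ} (e : Equiv.Perm (Fin R)) (c : Option (Option (Fin R))) (hc : ∀ j, c ≠ some (some j))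
    (g : Lab R B) (x : Option (Option (Fin R)) → Fin B) (v : Fin B) (i : Fin R) :
    rtP e c g (Function.update x (some (some (e i))) v) (i.val + 1 + 1) =
      Function.update (rtP e c g x (i.val + 1)) (e i) v := by
  rw [← rtP_updd e c hc g x v i (i.val + 1) le_rfl]
  unfold rtP
  rw [rtQ_succ, rt_updd]
  simp

theorem rt_avg_step {R B : ℕ} {κ : Type} [Fintype κ] [DecidableEq κ] (hB : 0 < B) (c : κ) (d : Fin R)
    (Φ Ψ : Lab R B → (κ → Fin B) → Lab R B)
    (h1 : ∀ g x v, Ψ g (Function.update x c v) = Function.update (Φ g x) d v)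
    (h : ∀ F : Lab R B → ℝ, ∑ g, ∑ x, F (Φ g x) = Fintype.card (κ → Fin B) * ∑ g, F g) (F : Lab R B → ℝ) :
    ∑ g, ∑ x, F (Ψ g x) = Fintype.card (κ → Fin B) * ∑ g, F g := by
  have hB' : (B : ℝ) ≠ 0 := by exact_mod_cast hB.ne'
  have h2 : (B : ℝ) * ∑ g, ∑ x, F (Ψ g x) = B * (Fintype.card (κ → Fin B) * ∑ g, F g) := by
    calc (B : ℝ) * ∑ g, ∑ x, F (Ψ g x) = ∑ g, B • ∑ x, F (Ψ g x) := by
          rw [Finset.mul_sum]; exact Finset.sum_congr rfl (fun g _ => by rw [nsmul_eq_mul])
      _ = ∑ g, ∑ x, ∑ v : Fin B, F (Function.update (Φ g x) d v) := by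
          refine Finset.sum_congr rfl (fun g _ => ?_)
          rw [← rt_upd_sum c (fun x => F (Ψ g x))]
          refine Finset.sum_congr rfl (fun x _ => Finset.sum_congr rfl (fun v _ => ?_))
          rw [h1]
      _ = Fintype.card (κ → Fin B) * ∑ g : Lab R B, ∑ v : Fin B, F (Function.update g d v) :=
          h (fun y => ∑ v : Fin B, F (Function.update y d v))
      _ = B * (Fintype.card (κ → Fin B) * ∑ g, F g) := by
          rw [rt_upd_sum d F, nsmul_eq_mul]; ring
  exact mul_left_cancel₀ hB' h2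

theorem rt_avg {R B : ℕ} (hB : 0 < B) (e : Equiv.Perm (Fin R)) (c : Option (Option (Fin R)))
    (hc : ∀ j, c ≠ some (some j)) (k : ℕ) (hk : k ≤ R + 1) (hR : 0 < R) :
    ∀ F : Lab R B → ℝ, ∑ g, ∑ x, F (rtP e c g x k) =
      Fintype.card (Option (Option (Fin R)) → Fin B) * ∑ g, F g := by
  induction k with
  | zero =>
    intro F
    rw [Finset.mul_sum]
    refine Finset.sum_congr rfl (fun g _ => ?_)
    simp only [rtP_zero, Finset.sum_const, nsmul_eq_mul, Finset.card_univ]
  | succ k ih =>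
    rcases Nat.eq_zero_or_pos k with h0 | h0
    · subst h0
      refine rt_avg_step hB c (e ⟨R - 1, by omega⟩) (fun g x => rtP e c g x 0) (fun g x => rtP e c g x 1) ?_
        (ih (by omega))
      intro g x v
      simp only [rtP_zero]
      exact rtP_one e c g x v _ (by simp; omega)
    · obtain ⟨k, rfl⟩ : ∃ m, k = m + 1 := ⟨k - 1, by omega⟩
      have hkR : k < R := by omega
      refine rt_avg_step hB (some (some (e ⟨k, hkR⟩))) (e ⟨k, hkR⟩) (fun g x => rtP e c g x (k + 1))
        (fun g x => rtP e c g x (k + 1 + 1)) ?_ (ih (by omega))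
      intro g x v
      exact rtP_succ e c hc g x v ⟨k, hkR⟩

/-- average cost of a path without its first hub -/
noncomputable def rtE {R B : ℕ} (ω : Lab R B → ℝ) (e : Equiv.Perm (Fin R)) (c : Option (Option (Fin R)))
    (g : Lab R B) : ℝ :=
  (∑ x : Option (Option (Fin R)) → Fin B, ∑ k ∈ Finset.range (R + 1), ω (rtP e c g x (k + 1))) /
    Fintype.card (Option (Option (Fin R)) → Fin B)

theorem rtE_nonneg {R B : ℕ} (ω : Lab R B → ℝ) (hω : ∀ g, 0 ≤ ω g) (e : Equiv.Perm (Fin R))
    (c : Option (Option (Fin R))) (g : Lab R B) : 0 ≤ rtE ω e c g :=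
  div_nonneg (Finset.sum_nonneg (fun _ _ => Finset.sum_nonneg (fun _ _ => hω _))) (Nat.cast_nonneg _)

theorem rtE_sum {R B : ℕ} (hB : 0 < B) (hR : 0 < R) (ω : Lab R B → ℝ) (e : Equiv.Perm (Fin R))
    (c : Option (Option (Fin R))) (hc : ∀ j, c ≠ some (some j)) :
    ∑ g, rtE ω e c g = (R + 1) * ∑ g, ω g := by
  have : Nonempty (Fin B) := ⟨⟨0, hB⟩⟩
  have hN : (0 : ℝ) < Fintype.card (Option (Option (Fin R)) → Fin B) := by exact_mod_cast Fintype.card_pos
  unfold rtE
  rw [← Finset.sum_div, div_eq_iff hN.ne']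
  calc ∑ g, ∑ x, ∑ k ∈ Finset.range (R + 1), ω (rtP e c g x (k + 1))
      = ∑ k ∈ Finset.range (R + 1), ∑ g, ∑ x, ω (rtP e c g x (k + 1)) := by
        refine Eq.trans (Finset.sum_congr rfl (fun g _ => Finset.sum_comm)) ?_
        rw [Finset.sum_comm]
    _ = ∑ k ∈ Finset.range (R + 1), Fintype.card (Option (Option (Fin R)) → Fin B) * ∑ g, ω g := by
        refine Finset.sum_congr rfl (fun k hk => rt_avg hB e c hc (k + 1) (by simp at hk; omega) hR ω)
    _ = (R + 1) * (∑ g, ω g) * Fintype.card (Option (Option (Fin R)) → Fin B) := by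
        rw [Finset.sum_const, Finset.card_range, nsmul_eq_mul]; push_cast; ring

/-- number of adjacent labels -/
theorem adj_ncard {R B : ℕ} (g : Lab R B) : {i : Lab R B | adj i g}.ncard ≤ R * B := by
  classical
  have h : {i : Lab R B | adj i g} ⊆
      ((Finset.univ.image (fun p : Fin R × Fin B => Function.update g p.1 p.2) : Finset (Lab R B)) : Set (Lab R B)) := by
    rintro i ⟨d, h1, h2⟩
    simp only [Finset.coe_image, Finset.coe_univ, Set.image_univ, Set.mem_range, Prod.exists]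
    refine ⟨d, i d, ?_⟩
    funext j
    by_cases hj : j = d
    · subst hj; simp
    · rw [Function.update_of_ne hj, h2 j hj]
  refine le_trans (Set.ncard_le_ncard h (Finset.finite_toSet _)) ?_
  rw [Set.ncard_coe_finset]
  refine le_trans Finset.card_image_le ?_
  simp

open Classical in
theorem rt_adj_sum {R B : ℕ} (A : Lab R B → ℝ) (hA : ∀ g, 0 ≤ A g) :
    ∑ i : Lab R B, ∑ g, (if adj i g then A g else 0) ≤ R * B * ∑ g, A g := by
  rw [Finset.sum_comm, Finset.mul_sum]
  refine Finset.sum_le_sum (fun g _ => ?_)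
  rw [← Finset.sum_filter, Finset.sum_const, nsmul_eq_mul]
  refine mul_le_mul_of_nonneg_right ?_ (hA g)
  have := adj_ncard g
  rw [Set.ncard_eq_toFinset_card'] at this
  have h2 : (Finset.univ.filter (fun i : Lab R B => adj i g)).card ≤ R * B := by
    refine le_trans (le_of_eq ?_) this
    congr 1; ext i; simp
  exact_mod_cast h2

/-! ### the bad tuples -/

/-- the coordinate which is read at step `k` -/
def rtC {R : ℕ} (e : Equiv.Perm (Fin R)) (c : Option (Option (Fin R))) (k : Fin (R + 1)) : Option (Option (Fin R)) :=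
  if h : k.val = 0 then c else some (some (e ⟨k.val - 1, by have := k.isLt; omega⟩))

/-- the hub before the hub number `k` -/
def rtV {R B : ℕ} (e : Equiv.Perm (Fin R)) (c : Option (Option (Fin R))) (i0 g : Lab R B)
    (x : Option (Option (Fin R)) → Fin B) (k : ℕ) : Lab R B :=
  if k = 0 then i0 else rtP e c g x (k - 1)

/-- updating the coordinate of step `k` -/
theorem rt_updC {R B : ℕ} (hR : 0 < R) (e : Equiv.Perm (Fin R)) (c : Option (Option (Fin R)))
    (hc : ∀ j, c ≠ some (some j)) (i0 g : Lab R B) (x : Option (Option (Fin R)) → Fin B)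
    (k : Fin (R + 1)) :
    ∃ d : Fin R, ∀ v : Fin B,
      rtP e c g (Function.update x (rtC e c k) v) (k.val + 1) = Function.update (rtP e c g x k.val) d v ∧
      rtP e c g (Function.update x (rtC e c k) v) k.val = rtP e c g x k.val ∧
      rtV e c i0 g (Function.update x (rtC e c k) v) k.val = rtV e c i0 g x k.val := by
  by_cases h : k.val = 0
  · refine ⟨e ⟨R - 1, by omega⟩, fun v => ?_⟩
    have h1 : rtC e c k = c := by unfold rtC; rw [dif_pos h]
    rw [h1, h]
    refine ⟨?_, ?_, ?_⟩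
    · rw [rtP_zero]; exact rtP_one e c g x v _ (by simp; omega)
    · rw [rtP_zero, rtP_zero]
    · simp [rtV]
  · have hk := k.isLt
    have hlt : k.val - 1 < R := by omega
    refine ⟨e ⟨k.val - 1, hlt⟩, fun v => ?_⟩
    have h1 : rtC e c k = some (some (e ⟨k.val - 1, hlt⟩)) := by unfold rtC; rw [dif_neg h]
    rw [h1]
    have h2 : k.val = (⟨k.val - 1, hlt⟩ : Fin R).val + 1 := by simp; omega
    refine ⟨?_, ?_, ?_⟩
    · rw [show k.val + 1 = (⟨k.val - 1, hlt⟩ : Fin R).val + 1 + 1 by rw [← h2], rtP_succ e c hc]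
      rw [← h2]
    · exact rtP_updd e c hc g x v _ _ (by rw [← h2])
    · unfold rtV
      rw [if_neg h, if_neg h]
      exact rtP_updd e c hc g x v _ _ (by simp)

section
variable {R B : ℕ} (Fb : Set (Lab R B)) (Leg : Lab R B → Lab R B → Lab R B → Prop)

/-- step `k` leads to a forbidden hub -/
def rtS1 (e : Equiv.Perm (Fin R)) (c : Option (Option (Fin R))) (g : Lab R B) (k : ℕ) :
    Set (Option (Option (Fin R)) → Fin B) := {x | rtP e c g x (k + 1) ∈ Fb}

/-- the turn at the hub number `k` is not legal -/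
def rtS2 (e : Equiv.Perm (Fin R)) (c : Option (Option (Fin R))) (i0 g : Lab R B) (k : ℕ) :
    Set (Option (Option (Fin R)) → Fin B) :=
  {x | rtP e c g x k ∉ Fb ∧ adj (rtP e c g x k) (rtV e c i0 g x k) ∧
    ¬ Leg (rtP e c g x k) (rtV e c i0 g x k) (rtP e c g x (k + 1))}

/-- the turn at the common last hub is not legal -/
def rtS3 (h : Lab R B) : Set (Option (Option (Fin R)) → Fin B) :=
  {x | (fun j => x (some (some j))) ∉ Fb ∧ adj (fun j => x (some (some j))) (rtP Fin.revPerm (some none) h x R) ∧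
    ¬ Leg (fun j => x (some (some j))) (rtP Fin.revPerm (some none) h x R)
      (rtP (Equiv.refl _) none h x R)}

theorem rtS1_small (hR : 0 < R) {β : ℕ}
    (hF : ∀ (g : Lab R B) (i : Fin R), {v : Fin B | Function.update g i v ∈ Fb}.ncard ≤ β)
    (e : Equiv.Perm (Fin R)) (c : Option (Option (Fin R))) (hc : ∀ j, c ≠ some (some j)) (g : Lab R B)
    (k : Fin (R + 1)) (x : Option (Option (Fin R)) → Fin B) :
    {v | Function.update x (rtC e c k) v ∈ rtS1 Fb e c g k.val}.ncard ≤ β := by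
  by_cases hB : Nonempty (Fin B)
  · obtain ⟨v0⟩ := hB
    obtain ⟨d, hd⟩ := rt_updC hR e c hc g g x k
    refine le_trans (le_of_eq ?_) (hF (rtP e c g x k.val) d)
    congr 1
    ext v
    simp only [Set.mem_ofPred_eq, rtS1, (hd v).1]
  · have : {v : Fin B | Function.update x (rtC e c k) v ∈ rtS1 Fb e c g k.val} = ∅ := by
      ext v; exact absurd ⟨v⟩ hB
    rw [this]; simp

theorem rt_leg_small {K : ℕ}
    (hL : ∀ g, g ∉ Fb → ∀ h, adj g h → ∀ i : Fin R, {v : Fin B | ¬ Leg g h (Function.update g i v)}.ncard ≤ K)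
    (a b : Lab R B) (d : Fin R) :
    {v : Fin B | a ∉ Fb ∧ adj a b ∧ ¬ Leg a b (Function.update a d v)}.ncard ≤ K := by
  by_cases h : a ∉ Fb ∧ adj a b
  · refine le_trans (le_of_eq ?_) (hL a h.1 b h.2 d)
    congr 1
    ext v
    simp [h.1, h.2]
  · have : {v : Fin B | a ∉ Fb ∧ adj a b ∧ ¬ Leg a b (Function.update a d v)} = ∅ := by
      ext v
      simp only [Set.mem_ofPred_eq, Set.mem_empty_iff_false, iff_false]
      exact fun h' => h ⟨h'.1, h'.2.1⟩
    rw [this]; simp

theorem rtS2_small (hR : 0 < R) {K : ℕ}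
    (hL : ∀ g, g ∉ Fb → ∀ h, adj g h → ∀ i : Fin R, {v : Fin B | ¬ Leg g h (Function.update g i v)}.ncard ≤ K)
    (e : Equiv.Perm (Fin R)) (c : Option (Option (Fin R))) (hc : ∀ j, c ≠ some (some j)) (i0 g : Lab R B)
    (k : Fin (R + 1)) (x : Option (Option (Fin R)) → Fin B) :
    {v | Function.update x (rtC e c k) v ∈ rtS2 Fb Leg e c i0 g k.val}.ncard ≤ K := by
  by_cases hB : Nonempty (Fin B)
  · obtain ⟨v0⟩ := hB
    obtain ⟨d, hd⟩ := rt_updC hR e c hc i0 g x k
    refine le_trans (le_of_eq ?_) (rt_leg_small Fb Leg hL (rtP e c g x k.val) (rtV e c i0 g x k.val) d)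
    congr 1
    ext v
    simp only [Set.mem_ofPred_eq, rtS2, (hd v).1, (hd v).2.1, (hd v).2.2]
  · have : {v : Fin B | Function.update x (rtC e c k) v ∈ rtS2 Fb Leg e c i0 g k.val} = ∅ := by
      ext v; exact absurd ⟨v⟩ hB
    rw [this]; simp

theorem rtP_other (e : Equiv.Perm (Fin R)) (c c' : Option (Option (Fin R))) (hc' : ∀ j, c' ≠ some (some j))
    (hcc : c' ≠ c) (g : Lab R B) (x : Option (Option (Fin R)) → Fin B) (v : Fin B) (k : ℕ) :
    rtP e c g (Function.update x c' v) k = rtP e c g x k := by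
  unfold rtP
  rw [rt_updc c' hc', Function.update_of_ne (Ne.symm hcc)]

theorem rtP_pen (hR : 0 < R) (e : Equiv.Perm (Fin R)) (c : Option (Option (Fin R))) (hc : ∀ j, c ≠ some (some j))
    (g : Lab R B) (x : Option (Option (Fin R)) → Fin B) (v : Fin B) :
    rtP e c g (Function.update x c v) R =
      Function.update (fun j => x (some (some j))) (e ⟨R - 1, by omega⟩) v := by
  unfold rtP
  rw [rt_updc c hc, rtQ_pen e _ _ _ ⟨R - 1, by omega⟩ (by simp; omega)]
  simp

theorem rtS3_small (hR : 0 < R) {K : ℕ}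
    (hL : ∀ g, g ∉ Fb → ∀ h, adj g h → ∀ i : Fin R, {v : Fin B | ¬ Leg g h (Function.update g i v)}.ncard ≤ K)
    (h : Lab R B) (x : Option (Option (Fin R)) → Fin B) :
    {v | Function.update x none v ∈ rtS3 Fb Leg h}.ncard ≤ K := by
  refine le_trans (le_of_eq ?_) (rt_leg_small Fb Leg hL (fun j => x (some (some j)))
    (rtP Fin.revPerm (some none) h x R) ((Equiv.refl _) ⟨R - 1, by omega⟩))
  congr 1
  ext v
  simp only [Set.mem_ofPred_eq, rtS3]
  rw [rt_updc none (by simp), rtP_other Fin.revPerm (some none) none (by simp) (by simp),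
    rtP_pen hR (Equiv.refl _) none (by simp)]
end

/-- the digit of a coordinate -/
def rtD {R : ℕ} (hR : 0 < R) (c : Option (Option (Fin R))) : Fin R :=
  match c with
  | none => ⟨R - 1, by omega⟩
  | some none => ⟨0, hR⟩
  | some (some j) => j

/-- forbidden values of a coordinate -/
def rtW {R B : ℕ} (hR : 0 < R) (g h i0 j0 : Lab R B) (c : Option (Option (Fin R))) (s : Fin 5)
    (x : Option (Option (Fin R)) → Fin B) : Fin B :=
  if s = 0 then g (rtD hR c) else if s = 1 then h (rtD hR c) else if s = 2 then i0 (rtD hR c)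
  else if s = 3 then j0 (rtD hR c)
  else match c with
    | none => x (some (some ⟨R - 1, by omega⟩))
    | some none => x (some (some ⟨0, hR⟩))
    | some (some j) => g j

theorem rtW_upd {R B : ℕ} (hR : 0 < R) (g h i0 j0 : Lab R B) (c : Option (Option (Fin R))) (s : Fin 5)
    (x : Option (Option (Fin R)) → Fin B) (v : Fin B) :
    rtW hR g h i0 j0 c s (Function.update x c v) = rtW hR g h i0 j0 c s x := by
  unfold rtW
  match c with
  | none => simp
  | some none => simp
  | some (some j) => rfl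

theorem rtW_small {R B : ℕ} (hR : 0 < R) (g h i0 j0 : Lab R B) (c : Option (Option (Fin R))) (s : Fin 5)
    (x : Option (Option (Fin R)) → Fin B) :
    {v | Function.update x c v ∈ {y | y c = rtW hR g h i0 j0 c s y}}.ncard ≤ 1 := by
  have : {v | Function.update x c v ∈ {y | y c = rtW hR g h i0 j0 c s y}} = {rtW hR g h i0 j0 c s x} := by
    ext v
    simp only [Set.mem_ofPred_eq, rtW_upd, Function.update_self, Set.mem_singleton_iff]
  rw [this]; simp

/-- a legal tuple of small cost -/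
theorem rt_good {R B : ℕ} (hR : 2 ≤ R) (ω : Lab R B → ℝ) (hω : ∀ g, 0 ≤ ω g) (Fb : Set (Lab R B)) (β K : ℕ)
    (Leg : Lab R B → Lab R B → Lab R B → Prop) (i0 j0 : Lab R B) (hB : 64 * (R + 3) ^ 2 * (β + K + 2) ≤ B)
    (hF : ∀ (g : Lab R B) (i : Fin R), {v : Fin B | Function.update g i v ∈ Fb}.ncard ≤ β)
    (hL : ∀ g, g ∉ Fb → ∀ h, adj g h → ∀ i : Fin R, {v : Fin B | ¬ Leg g h (Function.update g i v)}.ncard ≤ K)
    (g h : Lab R B) :
    ∃ x : Option (Option (Fin R)) → Fin B,
      (∀ k, k ≤ R → rtP (Equiv.refl _) none g x (k + 1) ∉ Fb) ∧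
      (∀ k, k ≤ R → rtP Fin.revPerm (some none) h x (k + 1) ∉ Fb) ∧
      (∀ k, k ≤ R → x ∉ rtS2 Fb Leg (Equiv.refl _) none i0 g k) ∧
      (∀ k, k ≤ R → x ∉ rtS2 Fb Leg Fin.revPerm (some none) j0 h k) ∧
      (x ∉ rtS3 Fb Leg h) ∧
      (∀ c s, x c ≠ rtW (by omega) g h i0 j0 c s x) ∧
      ∑ k ∈ Finset.range (R + 1), ω (rtP (Equiv.refl _) none g x (k + 1)) +
        ∑ k ∈ Finset.range (R + 1), ω (rtP Fin.revPerm (some none) h x (k + 1)) ≤
        2 * rtE ω (Equiv.refl _) none g + 2 * rtE ω Fin.revPerm (some none) h := by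
  have hR0 : 0 < R := by omega
  have hB0 : 0 < B := by
    have : 0 < 64 * (R + 3) ^ 2 * (β + K + 2) := by positivity
    omega
  have hne : Nonempty (Fin B) := ⟨⟨0, hB0⟩⟩
  let A : ((Fin (R + 1) ⊕ Fin (R + 1)) ⊕ (Fin (R + 1) ⊕ Fin (R + 1))) ⊕ ((Option (Option (Fin R)) × Fin 5) ⊕ Unit) →
      Set (Option (Option (Fin R)) → Fin B) := fun r => match r with
    | Sum.inl (Sum.inl (Sum.inl k)) => rtS1 Fb (Equiv.refl _) none g k.val
    | Sum.inl (Sum.inl (Sum.inr k)) => rtS1 Fb Fin.revPerm (some none) h k.val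
    | Sum.inl (Sum.inr (Sum.inl k)) => rtS2 Fb Leg (Equiv.refl _) none i0 g k.val
    | Sum.inl (Sum.inr (Sum.inr k)) => rtS2 Fb Leg Fin.revPerm (some none) j0 h k.val
    | Sum.inr (Sum.inl (c, s)) => {y | y c = rtW hR0 g h i0 j0 c s y}
    | Sum.inr (Sum.inr _) => rtS3 Fb Leg h
  let cc : ((Fin (R + 1) ⊕ Fin (R + 1)) ⊕ (Fin (R + 1) ⊕ Fin (R + 1))) ⊕ ((Option (Option (Fin R)) × Fin 5) ⊕ Unit) →
      Option (Option (Fin R)) := fun r => match r with
    | Sum.inl (Sum.inl (Sum.inl k)) => rtC (Equiv.refl _) none k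
    | Sum.inl (Sum.inl (Sum.inr k)) => rtC Fin.revPerm (some none) k
    | Sum.inl (Sum.inr (Sum.inl k)) => rtC (Equiv.refl _) none k
    | Sum.inl (Sum.inr (Sum.inr k)) => rtC Fin.revPerm (some none) k
    | Sum.inr (Sum.inl (c, _)) => c
    | Sum.inr (Sum.inr _) => none
  have hsmall : ∀ r x, {v | Function.update x (cc r) v ∈ A r}.ncard ≤ β + K + 1 := by
    intro r x
    match r with
    | Sum.inl (Sum.inl (Sum.inl k)) =>
      exact le_trans (rtS1_small Fb hR0 hF (Equiv.refl _) none (by simp) g k x) (by omega)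
    | Sum.inl (Sum.inl (Sum.inr k)) =>
      exact le_trans (rtS1_small Fb hR0 hF Fin.revPerm (some none) (by simp) h k x) (by omega)
    | Sum.inl (Sum.inr (Sum.inl k)) =>
      exact le_trans (rtS2_small Fb Leg hR0 hL (Equiv.refl _) none (by simp) i0 g k x) (by omega)
    | Sum.inl (Sum.inr (Sum.inr k)) =>
      exact le_trans (rtS2_small Fb Leg hR0 hL Fin.revPerm (some none) (by simp) j0 h k x) (by omega)
    | Sum.inr (Sum.inl (c, s)) => exact le_trans (rtW_small hR0 g h i0 j0 c s x) (by omega)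
    | Sum.inr (Sum.inr _) => exact le_trans (rtS3_small Fb Leg hR0 hL h x) (by omega)
  have hun := rt_union A cc hsmall
  have hcard : 2 * (⋃ r, A r).ncard ≤ Fintype.card (Option (Option (Fin R)) → Fin B) := by
    have h1 : Fintype.card (((Fin (R + 1) ⊕ Fin (R + 1)) ⊕ (Fin (R + 1) ⊕ Fin (R + 1))) ⊕
        ((Option (Option (Fin R)) × Fin 5) ⊕ Unit)) = 9 * R + 15 := by
      simp; ring
    rw [h1] at hun
    have h2 : 2 * ((9 * R + 15) * (β + K + 1)) ≤ B := by
      refine le_trans ?_ hB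
      have : 2 * ((9 * R + 15) * (β + K + 1)) ≤ (64 * (R + 3) ^ 2) * (β + K + 2) := by
        rw [← mul_assoc]
        exact Nat.mul_le_mul (by nlinarith) (by omega)
      exact this
    have h3 : B * (2 * (⋃ r, A r).ncard) ≤ B * Fintype.card (Option (Option (Fin R)) → Fin B) := by
      calc B * (2 * (⋃ r, A r).ncard) = 2 * (B * (⋃ r, A r).ncard) := by ring
        _ ≤ 2 * ((9 * R + 15) * (β + K + 1) * Fintype.card (Option (Option (Fin R)) → Fin B)) :=
            Nat.mul_le_mul_left _ hun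
        _ = 2 * ((9 * R + 15) * (β + K + 1)) * Fintype.card (Option (Option (Fin R)) → Fin B) := by ring
        _ ≤ B * Fintype.card (Option (Option (Fin R)) → Fin B) := Nat.mul_le_mul_right _ h2
    exact Nat.le_of_mul_le_mul_left h3 hB0
  obtain ⟨x, hx, hxF⟩ := rt_pick (⋃ r, A r) hcard
    (fun x => ∑ k ∈ Finset.range (R + 1), ω (rtP (Equiv.refl _) none g x (k + 1)) +
        ∑ k ∈ Finset.range (R + 1), ω (rtP Fin.revPerm (some none) h x (k + 1)))
    (fun x => add_nonneg (Finset.sum_nonneg (fun _ _ => hω _)) (Finset.sum_nonneg (fun _ _ => hω _)))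
  have hxA : ∀ r, x ∉ A r := fun r hr => hx (Set.mem_iUnion.2 ⟨r, hr⟩)
  refine ⟨x, ?_, ?_, ?_, ?_, ?_, ?_, ?_⟩
  · intro k hk h'
    exact hxA (Sum.inl (Sum.inl (Sum.inl ⟨k, by omega⟩))) h'
  · intro k hk h'
    exact hxA (Sum.inl (Sum.inl (Sum.inr ⟨k, by omega⟩))) h'
  · intro k hk h'
    exact hxA (Sum.inl (Sum.inr (Sum.inl ⟨k, by omega⟩))) h'
  · intro k hk h'
    exact hxA (Sum.inl (Sum.inr (Sum.inr ⟨k, by omega⟩))) h'
  · intro h'
    exact hxA (Sum.inr (Sum.inr ())) h'
  · intro c s h'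
    exact hxA (Sum.inr (Sum.inl (c, s))) h'
  · refine le_trans hxF (le_of_eq ?_)
    rw [Finset.sum_add_distrib, add_div, mul_add]
    rfl

/-! ### from two half paths to the list of hubs -/

/-- Two half paths `P1`, `P2` (hubs `0 .. R+1`, both end at the same hub) from the neighbours of `i0`, `j0`. -/
theorem rt_list {X : Type} (R : ℕ) (ad : X → X → Prop) (hsym : ∀ a b, ad a b → ad b a) (Leg : X → X → X → Prop)
    (lsym : ∀ g h h', Leg g h h' → Leg g h' h) (Fb : Set X) (i0 j0 : X) (P1 P2 : ℕ → X)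
    (he : P1 (R + 1) = P2 (R + 1)) (hi : ad i0 (P1 0)) (hj : ad j0 (P2 0))
    (a1 : ∀ k, k ≤ R → ad (P1 k) (P1 (k + 1))) (a2 : ∀ k, k ≤ R → ad (P2 k) (P2 (k + 1)))
    (f1 : ∀ k, k ≤ R + 1 → P1 k ∉ Fb) (f2 : ∀ k, k ≤ R + 1 → P2 k ∉ Fb)
    (l1 : ∀ k, k ≤ R → Leg (P1 k) (if k = 0 then i0 else P1 (k - 1)) (P1 (k + 1)))
    (l2 : ∀ k, k ≤ R → Leg (P2 k) (if k = 0 then j0 else P2 (k - 1)) (P2 (k + 1)))
    (l3 : Leg (P1 (R + 1)) (P1 R) (P2 R)) (hij : i0 ≠ j0)
    (n1 : ∀ k l, k < l → l ≤ R + 1 → P1 k ≠ P1 l) (n2 : ∀ k l, k < l → l ≤ R + 1 → P2 k ≠ P2 l)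
    (n3 : ∀ k l, k ≤ R → l ≤ R → P1 k ≠ P2 l)
    (n4 : ∀ k, k ≤ R + 1 → P1 k ≠ i0 ∧ P1 k ≠ j0) (n5 : ∀ k, k ≤ R + 1 → P2 k ≠ i0 ∧ P2 k ≠ j0) (ω : X → ℝ) :
    ∃ p : List X, p ≠ [] ∧ p.length ≤ 2 * R + 3 ∧ (i0 :: (p ++ [j0])).IsChain ad ∧
        (i0 :: (p ++ [j0])).Nodup ∧ (∀ g ∈ p, g ∉ Fb) ∧ (p.head? = some (P1 0)) ∧
        (p.getLast? = some (P2 0)) ∧
        (∀ l1 l2 h g h', i0 :: (p ++ [j0]) = l1 ++ ([h, g, h'] ++ l2) → Leg g h h') ∧
        (p.map ω).sum = ω (P1 0) + ∑ k ∈ Finset.range (R + 1), ω (P1 (k + 1)) + ∑ k ∈ Finset.range (R + 1), ω (P2 k) := by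
  classical
  let V : ℕ → X := fun n => if n = 0 then i0 else if n ≤ R + 2 then P1 (n - 1)
    else if n ≤ 2 * R + 3 then P2 (2 * R + 3 - n) else j0
  have V0 : V 0 = i0 := by simp [V]
  have VE : V (2 * R + 4) = j0 := by
    simp only [V]; rw [if_neg (by omega), if_neg (by omega), if_neg (by omega)]
  have V1 : ∀ k, k ≤ R + 1 → V (k + 1) = P1 k := by
    intro k hk
    simp only [V]; rw [if_neg (by omega), if_pos (by omega)]
    congr 1
  have V2 : ∀ k, k ≤ R + 1 → V (2 * R + 3 - k) = P2 k := by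
    intro k hk
    by_cases h : k = R + 1
    · subst h
      rw [show 2 * R + 3 - (R + 1) = (R + 1) + 1 by omega, V1 _ le_rfl, he]
    · simp only [V]; rw [if_neg (by omega), if_neg (by omega), if_pos (by omega)]
      congr 1; omega
  have Vadj : ∀ n, n ≤ 2 * R + 3 → ad (V n) (V (n + 1)) := by
    intro n hn
    by_cases h0 : n = 0
    · subst h0
      rw [V0, V1 0 (by omega)]; exact hi
    by_cases h1 : n ≤ R + 1
    · obtain ⟨k, rfl⟩ : ∃ k, n = k + 1 := ⟨n - 1, by omega⟩
      rw [V1 k (by omega), V1 (k + 1) (by omega)]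
      exact a1 k (by omega)
    by_cases h2 : n ≤ 2 * R + 2
    · obtain ⟨k, rfl⟩ : ∃ k, n = 2 * R + 3 - (k + 1) := ⟨2 * R + 2 - n, by omega⟩
      rw [V2 (k + 1) (by omega), show 2 * R + 3 - (k + 1) + 1 = 2 * R + 3 - k by omega, V2 k (by omega)]
      exact hsym _ _ (a2 k (by omega))
    · have : n = 2 * R + 3 - 0 := by omega
      rw [this, V2 0 (by omega), show 2 * R + 3 - 0 + 1 = 2 * R + 4 by omega, VE]
      exact hsym _ _ hj
  have Vleg : ∀ n, n + 2 ≤ 2 * R + 4 → Leg (V (n + 1)) (V n) (V (n + 2)) := by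
    intro n hn
    by_cases h0 : n = 0
    · subst h0
      have := l1 0 (by omega)
      rw [if_pos rfl] at this
      rw [V1 0 (by omega), V0, V1 1 (by omega)]; exact this
    by_cases h1 : n ≤ R
    · obtain ⟨k, rfl⟩ : ∃ k, n = k + 1 := ⟨n - 1, by omega⟩
      have := l1 (k + 1) (by omega)
      rw [if_neg (by omega)] at this
      rw [V1 (k + 1) (by omega), V1 k (by omega), V1 (k + 2) (by omega)]
      exact this
    by_cases h2 : n = R + 1
    · subst h2
      rw [V1 (R + 1) le_rfl, V1 R (by omega), show R + 1 + 2 = 2 * R + 3 - R by omega, V2 R (by omega)]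
      exact l3
    · obtain ⟨k, rfl⟩ : ∃ k, n = 2 * R + 3 - (k + 1) := ⟨2 * R + 2 - n, by omega⟩
      have := l2 k (by omega)
      rw [V2 (k + 1) (by omega), show 2 * R + 3 - (k + 1) + 1 = 2 * R + 3 - k by omega, V2 k (by omega)]
      by_cases h3 : k = 0
      · subst h3
        rw [if_pos rfl] at this
        rw [show 2 * R + 3 - (0 + 1) + 2 = 2 * R + 4 by omega, VE]
        exact lsym _ _ _ this
      · rw [if_neg h3] at this
        rw [show 2 * R + 3 - (k + 1) + 2 = 2 * R + 3 - (k - 1) by omega, V2 (k - 1) (by omega)]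
        exact lsym _ _ _ this
  have Vcase : ∀ n, n ≤ 2 * R + 4 → n = 0 ∨ (∃ k, k ≤ R + 1 ∧ n = k + 1) ∨ (∃ k, k ≤ R ∧ n = 2 * R + 3 - k) ∨
      n = 2 * R + 4 := by
    intro n hn
    by_cases h0 : n = 0
    · exact Or.inl h0
    by_cases h1 : n ≤ R + 2
    · exact Or.inr (Or.inl ⟨n - 1, by omega, by omega⟩)
    by_cases h2 : n ≤ 2 * R + 3
    · exact Or.inr (Or.inr (Or.inl ⟨2 * R + 3 - n, by omega, by omega⟩))
    · exact Or.inr (Or.inr (Or.inr (by omega)))
  have Vlt : ∀ n m, n < m → m ≤ 2 * R + 4 → V n ≠ V m := by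
    intro n m hnm hm
    rcases Vcase n (by omega) with h | ⟨k, hk, h⟩ | ⟨k, hk, h⟩ | h
    · rcases Vcase m hm with h' | ⟨l, hl, h'⟩ | ⟨l, hl, h'⟩ | h'
      · omega
      · rw [h, h', V0, V1 l hl]; exact (n4 l hl).1.symm
      · rw [h, h', V0, V2 l (by omega)]; exact (n5 l (by omega)).1.symm
      · rw [h, h', V0, VE]; exact hij
    · rcases Vcase m hm with h' | ⟨l, hl, h'⟩ | ⟨l, hl, h'⟩ | h'
      · omega
      · rw [h, h', V1 k hk, V1 l hl]; exact n1 k l (by omega) hl
      · rw [h, h', V1 k hk, V2 l (by omega)]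
        by_cases hkR : k = R + 1
        · rw [hkR, he]; exact (n2 l (R + 1) (by omega) le_rfl).symm
        · exact n3 k l (by omega) hl
      · rw [h, h', V1 k hk, VE]; exact (n4 k hk).2
    · rcases Vcase m hm with h' | ⟨l, hl, h'⟩ | ⟨l, hl, h'⟩ | h'
      · omega
      · omega
      · rw [h, h', V2 k (by omega), V2 l (by omega)]; exact (n2 l k (by omega) (by omega)).symm
      · rw [h, h', V2 k (by omega), VE]; exact (n5 k (by omega)).2
    · omega
  have Vinj : ∀ n m, n ≤ 2 * R + 4 → m ≤ 2 * R + 4 → V n = V m → n = m := by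
    intro n m hn hm hV
    rcases lt_trichotomy n m with h | h | h
    · exact absurd hV (Vlt n m h hm)
    · exact h
    · exact absurd hV.symm (Vlt m n h hn)
  let p : List X := (List.range (2 * R + 3)).map (fun n => V (n + 1))
  have hW : i0 :: (p ++ [j0]) = (List.range (2 * R + 5)).map V := by
    rw [show 2 * R + 5 = (2 * R + 4) + 1 by omega, List.range_succ, List.map_append]
    rw [show 2 * R + 4 = (2 * R + 3) + 1 by omega, List.range_succ_eq_map, List.map_cons, V0, List.map_map]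
    simp only [p, List.map_cons, List.map_nil, List.cons_append]
    rw [show 2 * R + 3 + 1 = 2 * R + 4 by omega, VE]
    rfl
  refine ⟨p, ?_, ?_, ?_, ?_, ?_, ?_, ?_, ?_, ?_⟩
  · intro h
    have := congrArg List.length h
    simp [p] at this
  · simp [p]
  · rw [hW, List.isChain_iff_getElem]
    intro n hn
    simp only [List.length_map, List.length_range] at hn
    simp only [List.getElem_map, List.getElem_range]
    exact Vadj n (by omega)
  · rw [hW]
    refine List.Nodup.map_on ?_ List.nodup_range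
    intro a ha b hb hab
    rw [List.mem_range] at ha hb
    exact Vinj a b (by omega) (by omega) hab
  · intro g hg
    simp only [p, List.mem_map, List.mem_range] at hg
    obtain ⟨n, hn, rfl⟩ := hg
    rcases Vcase (n + 1) (by omega) with h | ⟨k, hk, h⟩ | ⟨k, hk, h⟩ | h
    · omega
    · rw [h, V1 k hk]; exact f1 k hk
    · rw [h, V2 k (by omega)]; exact f2 k (by omega)
    · omega
  · simp only [p]
    rw [show 2 * R + 3 = (2 * R + 2) + 1 by omega, List.range_succ_eq_map, List.map_cons, List.head?_cons,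
      V1 0 (by omega)]
  · simp only [p]
    rw [show 2 * R + 3 = (2 * R + 2) + 1 by omega, List.range_succ, List.map_append, List.map_cons, List.map_nil,
      List.getLast?_append]
    simp only [List.getLast?_singleton, Option.some_or]
    rw [show 2 * R + 2 + 1 = 2 * R + 3 - 0 by omega, V2 0 (by omega)]
  · intro m1 m2 h g h' heq
    rw [hW] at heq
    have hlen := congrArg List.length heq
    simp only [List.length_map, List.length_range, List.length_append, List.length_cons, List.length_nil] at hlen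
    have e0 : ((List.range (2 * R + 5)).map V)[m1.length]? = some h := by
      rw [heq, List.getElem?_append_right le_rfl]; simp
    have e1 : ((List.range (2 * R + 5)).map V)[m1.length + 1]? = some g := by
      rw [heq, List.getElem?_append_right (by omega)]; simp
    have e2 : ((List.range (2 * R + 5)).map V)[m1.length + 2]? = some h' := by
      rw [heq, List.getElem?_append_right (by omega)]; simp
    rw [List.getElem?_map, List.getElem?_range (by omega)] at e0 e1 e2
    simp only [Option.map_some, Option.some.injEq] at e0 e1 e2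
    rw [← e0, ← e1, ← e2]
    exact Vleg m1.length (by omega)
  · have hs : ∀ (f : ℕ → ℝ) (n : ℕ), ((List.range n).map f).sum = ∑ i ∈ Finset.range n, f i := by
      intro f n
      induction n with
      | zero => simp
      | succ n ih => rw [List.sum_range_succ, Finset.sum_range_succ, ih]
    simp only [p, List.map_map]
    rw [hs, show 2 * R + 3 = (R + 2) + (R + 1) by omega, Finset.sum_range_add]
    congr 1
    · rw [Finset.sum_range_succ', add_comm]
      refine congrArg₂ (· + ·) ?_ ?_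
      · simp only [Function.comp]
        rw [V1 0 (by omega)]
      · refine Finset.sum_congr rfl (fun k hk => ?_)
        simp only [Function.comp]
        rw [Finset.mem_range] at hk
        rw [V1 (k + 1) (by omega)]
    · rw [← Finset.sum_range_reflect (fun k => ω (P2 k))]
      refine Finset.sum_congr rfl (fun k hk => ?_)
      rw [Finset.mem_range] at hk
      simp only [Function.comp]
      rw [← V2 (R + 1 - 1 - k) (by omega)]
      congr 2
      omega

theorem rt_core {R B : ℕ} (hR : 2 ≤ R) (ω : Lab R B → ℝ) (hω : ∀ g, 0 ≤ ω g) (Fb : Set (Lab R B)) (β K : ℕ)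
    (Leg : Lab R B → Lab R B → Lab R B → Prop) (i0 j0 : Lab R B) (hB : 64 * (R + 3) ^ 2 * (β + K + 2) ≤ B)
    (hF : ∀ (g : Lab R B) (i : Fin R), {v : Fin B | Function.update g i v ∈ Fb}.ncard ≤ β)
    (lsym : ∀ g h h', Leg g h h' → Leg g h' h)
    (hL : ∀ g, g ∉ Fb → ∀ h, adj g h → ∀ i : Fin R, {v : Fin B | ¬ Leg g h (Function.update g i v)}.ncard ≤ K)
    (hij : i0 ≠ j0) (g h : Lab R B) (hg : adj i0 g) (hgF : g ∉ Fb) (hh : adj j0 h) (hhF : h ∉ Fb) (hgj : g ≠ j0)
    (hhi : h ≠ i0) (hgh : g ≠ h) :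
    ∃ p : List (Lab R B), p ≠ [] ∧ p.length ≤ 2 * R + 3 ∧ (i0 :: (p ++ [j0])).IsChain adj ∧
        (i0 :: (p ++ [j0])).Nodup ∧ (∀ g ∈ p, g ∉ Fb) ∧ (p.head? = some g) ∧
        (p.getLast? = some h) ∧
        (∀ l1 l2 h g h', i0 :: (p ++ [j0]) = l1 ++ ([h, g, h'] ++ l2) → Leg g h h') ∧
        (p.map ω).sum ≤ ω g + ω h + (2 * rtE ω (Equiv.refl _) none g + 2 * rtE ω Fin.revPerm (some none) h) := by
  have hR0 : 0 < R := by omega
  obtain ⟨x, f1, f2, s1, s2, s3, w, cost⟩ := rt_good hR ω hω Fb β K Leg i0 j0 hB hF hL g h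
  have wn : ∀ s, x none ≠ rtW hR0 g h i0 j0 none s x := fun s => w none s
  have ws : ∀ s, x (some none) ≠ rtW hR0 g h i0 j0 (some none) s x := fun s => w (some none) s
  have wd : ∀ j s, x (some (some j)) ≠ rtW hR0 g h i0 j0 (some (some j)) s x := fun j s => w _ s
  have hrev : (Fin.revPerm : Equiv.Perm (Fin R)) ⟨R - 1, by omega⟩ = ⟨0, hR0⟩ := by
    simp only [Fin.revPerm_apply]; ext; simp [Fin.val_rev]; omega
  have hrev0 : (Fin.revPerm : Equiv.Perm (Fin R)) ⟨0, hR0⟩ = ⟨R - 1, by omega⟩ := by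
    simp only [Fin.revPerm_apply]; ext; simp [Fin.val_rev]
  have a_g : x none ≠ g ⟨R - 1, by omega⟩ := by simpa [rtW, rtD] using wn 0
  have a_h : x none ≠ h ⟨R - 1, by omega⟩ := by simpa [rtW, rtD] using wn 1
  have a_i : x none ≠ i0 ⟨R - 1, by omega⟩ := by simpa [rtW, rtD] using wn 2
  have a_j : x none ≠ j0 ⟨R - 1, by omega⟩ := by simpa [rtW, rtD] using wn 3
  have a_u : x none ≠ x (some (some ⟨R - 1, by omega⟩)) := by simpa [rtW, rtD] using wn 4
  have b_g : x (some none) ≠ g ⟨0, hR0⟩ := by simpa [rtW, rtD] using ws 0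
  have b_h : x (some none) ≠ h ⟨0, hR0⟩ := by simpa [rtW, rtD] using ws 1
  have b_i : x (some none) ≠ i0 ⟨0, hR0⟩ := by simpa [rtW, rtD] using ws 2
  have b_j : x (some none) ≠ j0 ⟨0, hR0⟩ := by simpa [rtW, rtD] using ws 3
  have b_u : x (some none) ≠ x (some (some ⟨0, hR0⟩)) := by simpa [rtW, rtD] using ws 4
  have u_g : ∀ j, x (some (some j)) ≠ g j := fun j => by simpa [rtW, rtD] using wd j 0
  have u_h : ∀ j, x (some (some j)) ≠ h j := fun j => by simpa [rtW, rtD] using wd j 1
  have u_i : ∀ j, x (some (some j)) ≠ i0 j := fun j => by simpa [rtW, rtD] using wd j 2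
  have u_j : ∀ j, x (some (some j)) ≠ j0 j := fun j => by simpa [rtW, rtD] using wd j 3
  have hlast : ∀ i : Fin R, i.val + 1 = R → i = ⟨R - 1, by omega⟩ := fun i hi => Fin.ext (by simp; omega)
  have ha1 : ∀ i : Fin R, i.val + 1 = R → x none ≠ g ((Equiv.refl _) i) ∧
      (fun j => x (some (some j))) ((Equiv.refl _) i) ≠ x none := by
    intro i hi
    rw [hlast i hi]
    exact ⟨a_g, a_u.symm⟩
  have ha2 : ∀ i : Fin R, i.val + 1 = R → x (some none) ≠ h (Fin.revPerm i) ∧
      (fun j => x (some (some j))) (Fin.revPerm i) ≠ x (some none) := by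
    intro i hi
    rw [hlast i hi, hrev]
    exact ⟨b_h, b_u.symm⟩
  have hP1u : rtP (Equiv.refl _) none g x (R + 1) = fun j => x (some (some j)) := rtQ_last _ _ _ _
  have hP2u : rtP Fin.revPerm (some none) h x (R + 1) = fun j => x (some (some j)) := rtQ_last _ _ _ _
  have adj1 : ∀ k, k ≤ R → adj (rtP (Equiv.refl _) none g x k) (rtP (Equiv.refl _) none g x (k + 1)) :=
    fun k hk => rtQ_adj _ _ _ _ hR u_g ha1 k hk
  have adj2 : ∀ k, k ≤ R → adj (rtP Fin.revPerm (some none) h x k) (rtP Fin.revPerm (some none) h x (k + 1)) :=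
    fun k hk => rtQ_adj _ _ _ _ hR u_h ha2 k hk
  have F1 : ∀ k, k ≤ R + 1 → rtP (Equiv.refl _) none g x k ∉ Fb := by
    intro k hk
    rcases Nat.eq_zero_or_pos k with h0 | h0
    · subst h0; rw [rtP_zero]; exact hgF
    · obtain ⟨k, rfl⟩ : ∃ m, k = m + 1 := ⟨k - 1, by omega⟩
      exact f1 k (by omega)
  have F2 : ∀ k, k ≤ R + 1 → rtP Fin.revPerm (some none) h x k ∉ Fb := by
    intro k hk
    rcases Nat.eq_zero_or_pos k with h0 | h0
    · subst h0; rw [rtP_zero]; exact hhF
    · obtain ⟨k, rfl⟩ : ∃ m, k = m + 1 := ⟨k - 1, by omega⟩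
      exact f2 k (by omega)
  have L1 : ∀ k, k ≤ R → Leg (rtP (Equiv.refl _) none g x k)
      (if k = 0 then i0 else rtP (Equiv.refl _) none g x (k - 1)) (rtP (Equiv.refl _) none g x (k + 1)) := by
    intro k hk
    by_contra hcon
    refine s1 k hk ⟨F1 k (by omega), ?_, hcon⟩
    unfold rtV
    by_cases h0 : k = 0
    · subst h0; rw [if_pos rfl, rtP_zero]; exact adj_symm hg
    · rw [if_neg h0]
      have := adj1 (k - 1) (by omega)
      rw [show k - 1 + 1 = k by omega] at this
      exact adj_symm this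
  have L2 : ∀ k, k ≤ R → Leg (rtP Fin.revPerm (some none) h x k)
      (if k = 0 then j0 else rtP Fin.revPerm (some none) h x (k - 1)) (rtP Fin.revPerm (some none) h x (k + 1)) := by
    intro k hk
    by_contra hcon
    refine s2 k hk ⟨F2 k (by omega), ?_, hcon⟩
    unfold rtV
    by_cases h0 : k = 0
    · subst h0; rw [if_pos rfl, rtP_zero]; exact adj_symm hh
    · rw [if_neg h0]
      have := adj2 (k - 1) (by omega)
      rw [show k - 1 + 1 = k by omega] at this
      exact adj_symm this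
  have L3 : Leg (rtP (Equiv.refl _) none g x (R + 1)) (rtP (Equiv.refl _) none g x R)
      (rtP Fin.revPerm (some none) h x R) := by
    by_contra hcon
    refine s3 ⟨?_, ?_, ?_⟩
    · rw [← hP1u]; exact F1 (R + 1) le_rfl
    · rw [← hP2u]; exact adj_symm (adj2 R le_rfl)
    · have e1 : rtP (Equiv.refl _) none h x R = rtP (Equiv.refl _) none g x R := by
        unfold rtP
        rw [rtQ_pen _ h _ _ ⟨R - 1, by omega⟩ (by simp; omega), rtQ_pen _ g _ _ ⟨R - 1, by omega⟩ (by simp; omega)]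
      rw [← hP1u, e1]; exact fun h' => hcon (lsym _ _ _ h')
  have mid1 : ∀ k, 1 ≤ k → k ≤ R → rtP (Equiv.refl _) none g x k ⟨R - 1, by omega⟩ = x none := fun k h1 h2 =>
    rtQ_dlast (Equiv.refl _) g (x none) _ ⟨R - 1, by omega⟩ (by simp; omega) k h1 h2
  have mid2 : ∀ k, 1 ≤ k → k ≤ R → rtP Fin.revPerm (some none) h x k ⟨0, hR0⟩ = x (some none) := fun k h1 h2 => by
    rw [← hrev]
    exact rtQ_dlast Fin.revPerm h (x (some none)) _ ⟨R - 1, by omega⟩ (by simp; omega) k h1 h2
  have hgi : g ≠ i0 := by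
    rintro rfl; obtain ⟨i, hi, _⟩ := hg; exact hi rfl
  have hhj : h ≠ j0 := by
    rintro rfl; obtain ⟨i, hi, _⟩ := hh; exact hi rfl
  obtain ⟨p, q1, q2, q3, q4, q5, q6, q7, q8, q9⟩ := rt_list R adj (fun a b => adj_symm) Leg lsym Fb i0 j0
    (fun k => rtP (Equiv.refl _) none g x k) (fun k => rtP Fin.revPerm (some none) h x k)
    (by rw [hP1u, hP2u]) (by simpa [rtP_zero] using hg) (by simpa [rtP_zero] using hh) adj1 adj2 F1 F2 L1 L2 L3
    hij (fun k l h1 h2 => rtQ_ne _ _ _ _ hR u_g ha1 k l h1 h2) (fun k l h1 h2 => rtQ_ne _ _ _ _ hR u_h ha2 k l h1 h2)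
    (by
      intro k l hk hl heq
      by_cases hk0 : k = 0
      · subst hk0
        rw [rtP_zero] at heq
        by_cases hl0 : l = 0
        · subst hl0; rw [rtP_zero] at heq; exact hgh heq
        · have := congrFun heq ⟨0, hR0⟩
          rw [mid2 l (by omega) hl] at this
          exact b_g this.symm
      · have := congrFun heq ⟨R - 1, by omega⟩
        rw [mid1 k (by omega) hk] at this
        by_cases hl1 : l ≤ 1
        · have h3 : rtP Fin.revPerm (some none) h x l ⟨R - 1, by omega⟩ = h ⟨R - 1, by omega⟩ := by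
            rw [← hrev0]
            exact rtQ_dold Fin.revPerm h (x (some none)) _ ⟨0, hR0⟩ (by simp; omega) l (by simpa using hl1)
          rw [h3] at this
          exact a_h this
        · have h3 : rtP Fin.revPerm (some none) h x l ⟨R - 1, by omega⟩ = x (some (some ⟨R - 1, by omega⟩)) := by
            rw [← hrev0]
            exact rtQ_dset Fin.revPerm h (x (some none)) _ ⟨0, hR0⟩ (by simp; omega) l (by simp; omega)
          rw [h3] at this
          exact a_u this)
    (by
      intro k hk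
      by_cases hk0 : k = 0
      · subst hk0; rw [rtP_zero]; exact ⟨hgi, hgj⟩
      by_cases hkR : k = R + 1
      · subst hkR
        rw [hP1u]
        exact ⟨fun h' => u_i ⟨0, hR0⟩ (congrFun h' _), fun h' => u_j ⟨0, hR0⟩ (congrFun h' _)⟩
      · constructor
        · intro h'
          have := congrFun h' ⟨R - 1, by omega⟩
          rw [mid1 k (by omega) (by omega)] at this
          exact a_i this
        · intro h'
          have := congrFun h' ⟨R - 1, by omega⟩
          rw [mid1 k (by omega) (by omega)] at this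
          exact a_j this)
    (by
      intro k hk
      by_cases hk0 : k = 0
      · subst hk0; rw [rtP_zero]; exact ⟨hhi, hhj⟩
      by_cases hkR : k = R + 1
      · subst hkR
        rw [hP2u]
        exact ⟨fun h' => u_i ⟨0, hR0⟩ (congrFun h' _), fun h' => u_j ⟨0, hR0⟩ (congrFun h' _)⟩
      · constructor
        · intro h'
          have := congrFun h' ⟨0, hR0⟩
          rw [mid2 k (by omega) (by omega)] at this
          exact b_i this
        · intro h'
          have := congrFun h' ⟨0, hR0⟩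
          rw [mid2 k (by omega) (by omega)] at this
          exact b_j this)
    ω
  refine ⟨p, q1, q2, q3, q4, q5, by simpa [rtP_zero] using q6, by simpa [rtP_zero] using q7, q8, ?_⟩
  rw [q9, rtP_zero]
  have h5 : ∑ k ∈ Finset.range (R + 1), ω (rtP Fin.revPerm (some none) h x k) ≤
      ω h + ∑ k ∈ Finset.range (R + 1), ω (rtP Fin.revPerm (some none) h x (k + 1)) := by
    have h6 := Finset.sum_range_succ' (fun k => ω (rtP Fin.revPerm (some none) h x k)) (R + 1)
    have h7 := Finset.sum_range_succ (fun k => ω (rtP Fin.revPerm (some none) h x k)) (R + 1)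
    rw [rtP_zero] at h6
    have h8 := hω (rtP Fin.revPerm (some none) h x (R + 1))
    linarith
  linarith

theorem rt_choose {R B : ℕ} (M : ℕ) (hM : 3 ≤ M) (A : Lab R B → ℝ) (hA : ∀ g, 0 ≤ A g) (i a b : Lab R B)
    (I : Set (Lab R B)) (hI : ∀ g ∈ I, adj i g) (hc : M ≤ I.ncard) :
    ∃ g ∈ I, g ≠ a ∧ g ≠ b ∧ A g ≤ 3 / M * ∑ g, (open Classical in if adj i g then A g else 0) := by
  classical
  set D : Finset (Lab R B) := I.toFinset \ {a, b} with hD
  have h1 : I.toFinset.card - 2 ≤ D.card := by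
    have := Finset.le_card_sdiff ({a, b} : Finset (Lab R B)) I.toFinset
    have h2 : ({a, b} : Finset (Lab R B)).card ≤ 2 := Finset.card_le_two
    rw [hD]
    omega
  rw [Set.ncard_eq_toFinset_card'] at hc
  have h3 : M ≤ 3 * D.card := by omega
  have hne : D.Nonempty := by
    rw [← Finset.card_pos]; omega
  obtain ⟨g, hg, hmin⟩ := Finset.exists_min_image D A hne
  have hgm : g ∈ I ∧ g ≠ a ∧ g ≠ b := by
    simp only [hD, Finset.mem_sdiff, Set.mem_toFinset, Finset.mem_insert, Finset.mem_singleton, not_or] at hg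
    exact ⟨hg.1, hg.2.1, hg.2.2⟩
  refine ⟨g, hgm.1, hgm.2.1, hgm.2.2, ?_⟩
  have h4 : (D.card : ℝ) * A g ≤ ∑ g, (if adj i g then A g else 0) := by
    calc (D.card : ℝ) * A g = ∑ _x ∈ D, A g := by rw [Finset.sum_const, nsmul_eq_mul]
      _ ≤ ∑ x ∈ D, A x := Finset.sum_le_sum hmin
      _ = ∑ x ∈ D, (if adj i x then A x else 0) := by
          refine Finset.sum_congr rfl (fun x hx => ?_)
          rw [if_pos]
          refine hI x ?_
          simp only [hD, Finset.mem_sdiff, Set.mem_toFinset] at hx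
          exact hx.1
      _ ≤ ∑ x, (if adj i x then A x else 0) := by
          refine Finset.sum_le_sum_of_subset_of_nonneg (Finset.subset_univ _) (fun x _ _ => ?_)
          split_ifs
          · exact hA x
          · exact le_rfl
  have hM0 : (0 : ℝ) < M := by exact_mod_cast (by omega : 0 < M)
  rw [div_mul_eq_mul_div, le_div_iff₀ hM0]
  have h5 : (M : ℝ) ≤ 3 * D.card := by exact_mod_cast h3
  have h6 := hA g
  nlinarith

/-- routes of small cost: `Fb` forbidden hubs, `Leg g h h'`: the turn at `g` from `h` to `h'` is legal, `I`, `J` possible first and last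
hubs between `i0` and `j0`. -/
def RouteOK {R B : ℕ} (M : ℕ) (ω s : Lab R B → ℝ) : Prop :=
    ∀ (Fb : Set (Lab R B)) (β K : ℕ) (Leg : Lab R B → Lab R B → Lab R B → Prop) (i0 j0 : Lab R B)
      (I J : Set (Lab R B)),
      64 * (R + 3) ^ 2 * (β + K + 2) ≤ B →
      (∀ (g : Lab R B) (i : Fin R), {v : Fin B | Function.update g i v ∈ Fb}.ncard ≤ β) →
      (∀ g h h', Leg g h h' → Leg g h' h) →
      (∀ g, g ∉ Fb → ∀ h, adj g h → ∀ i : Fin R, {v : Fin B | ¬ Leg g h (Function.update g i v)}.ncard ≤ K) →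
      i0 ≠ j0 → (∀ g ∈ I, adj i0 g ∧ g ∉ Fb) → (∀ g ∈ J, adj j0 g ∧ g ∉ Fb) → M ≤ I.ncard → M ≤ J.ncard →
      ∃ p : List (Lab R B), p ≠ [] ∧ p.length ≤ 2 * R + 3 ∧ (i0 :: (p ++ [j0])).IsChain adj ∧
        (i0 :: (p ++ [j0])).Nodup ∧ (∀ g ∈ p, g ∉ Fb) ∧ (∃ g ∈ I, p.head? = some g) ∧
        (∃ g ∈ J, p.getLast? = some g) ∧
        (∀ l1 l2 h g h', i0 :: (p ++ [j0]) = l1 ++ ([h, g, h'] ++ l2) → Leg g h h') ∧
        (p.map ω).sum ≤ s i0 + s j0

theorem route {R B : ℕ} (hR : 2 ≤ R) (M : ℕ) (hM : 3 ≤ M) (ω : Lab R B → ℝ) (hω : ∀ g, 0 ≤ ω g) :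
    ∃ s : Lab R B → ℝ, (∀ g, 0 ≤ s g) ∧ (∑ g, s g ≤ 40 * (R : ℝ) ^ 2 * B / M * ∑ g, ω g) ∧ RouteOK M ω s := by
  classical
  have hM0 : (0 : ℝ) < M := by exact_mod_cast (by omega : 0 < M)
  set A : Lab R B → ℝ := fun g => ω g + 2 * rtE ω (Equiv.refl _) none g + 2 * rtE ω Fin.revPerm (some none) g with hAdef
  have hA : ∀ g, 0 ≤ A g := fun g => by
    have h1 := hω g
    have h2 := rtE_nonneg ω hω (Equiv.refl _) none g
    have h3 := rtE_nonneg ω hω Fin.revPerm (some none) g
    simp only [hAdef]; linarith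
  refine ⟨fun i => 3 / M * ∑ g, (if adj i g then A g else 0), ?_, ?_, ?_⟩
  · intro i
    refine mul_nonneg (by positivity) (Finset.sum_nonneg (fun g _ => ?_))
    split_ifs
    · exact hA g
    · exact le_rfl
  · rcases Nat.eq_zero_or_pos B with hB | hB
    · subst hB
      have : IsEmpty (Lab R 0) := ⟨fun g => (g ⟨0, by omega⟩).elim0⟩
      simp
    rw [← Finset.mul_sum]
    have h1 := rt_adj_sum A hA
    have h2 : ∑ g, A g = (4 * R + 5) * ∑ g, ω g := by
      simp only [hAdef]
      rw [Finset.sum_add_distrib, Finset.sum_add_distrib, ← Finset.mul_sum, ← Finset.mul_sum,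
        rtE_sum hB (by omega) ω _ none (by simp), rtE_sum hB (by omega) ω _ (some none) (by simp)]
      ring
    have h3 : 0 ≤ ∑ g, ω g := Finset.sum_nonneg (fun g _ => hω g)
    have hR' : (2 : ℝ) ≤ R := by exact_mod_cast hR
    have hB' : (0 : ℝ) ≤ B := Nat.cast_nonneg B
    calc 3 / (M : ℝ) * ∑ i : Lab R B, ∑ g, (if adj i g then A g else 0)
        ≤ 3 / M * (R * B * ∑ g, A g) := mul_le_mul_of_nonneg_left h1 (by positivity)
      _ = (3 * R * (4 * R + 5)) * (B / M * ∑ g, ω g) := by rw [h2]; ring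
      _ ≤ (40 * (R : ℝ) ^ 2) * (B / M * ∑ g, ω g) := by
          refine mul_le_mul_of_nonneg_right (by nlinarith) (by positivity)
      _ = 40 * (R : ℝ) ^ 2 * B / M * ∑ g, ω g := by ring
  · intro Fb β K Leg i0 j0 I J hB hF lsym hL hij hI hJ hIM hJM
    obtain ⟨g, hg, hg1, -, hgA⟩ := rt_choose M hM A hA i0 j0 j0 I (fun g hg => (hI g hg).1) hIM
    obtain ⟨h, hh, hh1, hh2, hhA⟩ := rt_choose M hM A hA j0 i0 g J (fun g hg => (hJ g hg).1) hJM
    obtain ⟨p, q1, q2, q3, q4, q5, q6, q7, q8, q9⟩ := rt_core hR ω hω Fb β K Leg i0 j0 hB hF lsym hL hij g h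
      (hI g hg).1 (hI g hg).2 (hJ h hh).1 (hJ h hh).2 hg1 hh1 (Ne.symm hh2)
    refine ⟨p, q1, q2, q3, q4, q5, ⟨g, hg, q6⟩, ⟨h, hh, q7⟩, q8, le_trans q9 ?_⟩
    have h1 := rtE_nonneg ω hω Fin.revPerm (some none) g
    have h2 := rtE_nonneg ω hω (Equiv.refl _) none h
    refine le_trans ?_ (add_le_add hgA hhA)
    simp only [hAdef]
    linarith

end Pool.Agent.GW
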