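import Mathlib

/-!
# GW/RouteH (helper3): the route lemma in the Hamming graph (3851 (2), MP_37d33d_gt)

Hubs are labels `h : Fin r → Fin B`, linked when they differ in exactly one digit.  `T` = touched hubs, at most `D` of them
on every line; `near h x y` = the links of `h` to `x` and to `y` are too close, at most `D` values `y` for given `h, x`.
Two hubs `i0`, `j0` with at least `M` allowed exits each are joined by a legal route with `2 r + 3` inner hubs whose cost is
at most `s i0 + s j0`, where `s` depends only on the weights and `∑ s ≤ (2 r B (4 r + 5) / M) ∑ w`.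

PROOF.  Choose `al, be : Fin B` and `u : Fin r → Fin B`.  Path 1: `i1`, set the last digit to `al`, then set the digits
`0, 1, .., r - 1` to `u`.  Path 2: `j1`, set the digit `0` to `be`, then set the digits `r - 1, .., 0` to `u`.  Every
requirement fails for at most `D` values of one of the `r + 2` coordinates, there are `6 r + 18` requirements, so half of
all choices are legal; the average cost of all choices is `s1 i1 + s2 j1`.
-/

set_option autoImplicit false

namespace Pool.Agent.GW.RH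

open Finset Function

/-- labels of hubs -/
abbrev Lab (r B : ℕ) : Type := Fin r → Fin B

/-- Hamming distance one -/
def Adj1 {r B : ℕ} (h h' : Lab r B) : Prop := ∃ k, h k ≠ h' k ∧ ∀ j, j ≠ k → h j = h' j

section

variable {r B : ℕ}

theorem Adj1.symm {h h' : Lab r B} (H : Adj1 h h') : Adj1 h' h := by
  obtain ⟨k, h1, h2⟩ := H
  exact ⟨k, h1.symm, fun j hj => (h2 j hj).symm⟩

theorem Adj1.ne {h h' : Lab r B} (H : Adj1 h h') : h ≠ h' := by
  obtain ⟨k, h1, -⟩ := H
  intro h
  exact h1 (by rw [h])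

theorem adj1_update {h : Lab r B} {k : Fin r} {v : Fin B} (hv : v ≠ h k) : Adj1 h (update h k v) := by
  refine ⟨k, ?_, fun j hj => ?_⟩
  · rw [update_self]; exact hv.symm
  · rw [update_of_ne hj]

end

section counting

variable {ι : Type} [Fintype ι] [DecidableEq ι] {B : ℕ}

/-- `Bad` holds for at most `D` values of one coordinate, for all values of the others -/
def Sm (D : ℕ) (Bad : (ι → Fin B) → Prop) : Prop :=
  ∃ c : ι, ∀ x : ι → Fin B, Set.ncard {v | Bad (update x c v)} ≤ D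

open Classical in
theorem ncard_filter {α : Type} [Fintype α] (P : α → Prop) : (univ.filter P).card = Set.ncard {v | P v} := by
  rw [← Set.ncard_coe_finset]
  congr 1
  ext v
  simp

open Classical in
/-- counting by one coordinate -/
theorem cnt_coord (c : ι) (Bad : (ι → Fin B) → Prop) (D : ℕ)
    (h : ∀ x : ι → Fin B, Set.ncard {v | Bad (update x c v)} ≤ D) :
    B * (univ.filter Bad).card ≤ D * Fintype.card (ι → Fin B) := by
  let ps : (ι → Fin B) × Fin B ≃ (ι → Fin B) × Fin B :=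
    { toFun := fun p => (update p.1 c p.2, p.1 c)
      invFun := fun p => (update p.1 c p.2, p.1 c)
      left_inv := by
        rintro ⟨x, v⟩
        simp
      right_inv := by
        rintro ⟨x, v⟩
        simp }
  have h1 : ∑ p : (ι → Fin B) × Fin B, (if Bad (update p.1 c p.2) then 1 else 0)
      = ∑ p : (ι → Fin B) × Fin B, (if Bad p.1 then 1 else 0) :=
    Fintype.sum_equiv ps _ _ fun p => rfl
  have h2 : ∑ p : (ι → Fin B) × Fin B, (if Bad p.1 then 1 else 0) = B * (univ.filter Bad).card := by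
    rw [Fintype.sum_prod_type, card_filter, mul_sum]
    refine sum_congr rfl fun x _ => ?_
    show (∑ _y : Fin B, if Bad x then 1 else 0) = B * if Bad x then 1 else 0
    rw [sum_const, card_univ, Fintype.card_fin, smul_eq_mul]
  have h3 : ∑ p : (ι → Fin B) × Fin B, (if Bad (update p.1 c p.2) then 1 else 0) ≤ D * Fintype.card (ι → Fin B) := by
    rw [Fintype.sum_prod_type]
    calc _ ≤ ∑ _x : ι → Fin B, D := by
          refine sum_le_sum fun x _ => ?_
          rw [← card_filter, ncard_filter]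
          exact h x
      _ = D * Fintype.card (ι → Fin B) := by
          rw [sum_const, card_univ, smul_eq_mul, mul_comm]
  rw [← h2, ← h1]
  exact h3

open Classical in
/-- union bound -/
theorem cnt_list (D : ℕ) : ∀ L : List ((ι → Fin B) → Prop), (∀ Bad ∈ L, Sm D Bad) →
    B * (univ.filter fun x : ι → Fin B => ∃ Bad ∈ L, Bad x).card ≤ L.length * (D * Fintype.card (ι → Fin B))
  | [], _ => by simp
  | b :: L, h => by
      obtain ⟨c, hc⟩ := h b (by simp)
      have h1 := cnt_coord c b D hc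
      have h2 := cnt_list D L fun Bad hB => h Bad (List.mem_cons_of_mem _ hB)
      have h3 : (univ.filter fun x : ι → Fin B => ∃ Bad ∈ b :: L, Bad x) ⊆
          univ.filter b ∪ univ.filter fun x : ι → Fin B => ∃ Bad ∈ L, Bad x := by
        intro x hx
        rw [mem_filter] at hx
        obtain ⟨-, Bad, hB, hx⟩ := hx
        rw [mem_union, mem_filter, mem_filter]
        rcases List.mem_cons.1 hB with h | h
        · left; exact ⟨mem_univ _, h ▸ hx⟩
        · right; exact ⟨mem_univ _, Bad, h, hx⟩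
      have h4 := (card_le_card h3).trans (card_union_le _ _)
      calc _ ≤ B * ((univ.filter b).card + (univ.filter fun x : ι → Fin B => ∃ Bad ∈ L, Bad x).card) :=
            Nat.mul_le_mul_left B h4
        _ = B * (univ.filter b).card + B * (univ.filter fun x : ι → Fin B => ∃ Bad ∈ L, Bad x).card := by ring
        _ ≤ D * Fintype.card (ι → Fin B) + L.length * (D * Fintype.card (ι → Fin B)) := add_le_add h1 h2
        _ = (b :: L).length * (D * Fintype.card (ι → Fin B)) := by rw [List.length_cons]; ring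

open Classical in
/-- a legal choice whose cost is at most twice the average -/
theorem cheap_legal (D : ℕ) (L : List ((ι → Fin B) → Prop)) (hB : 0 < B)
    (hL : ∀ Bad ∈ L, Sm D Bad)
    (hD : 2 * (L.length * D) ≤ B) (f : (ι → Fin B) → ℝ) (hf : ∀ x, 0 ≤ f x) :
    ∃ x, (∀ Bad ∈ L, ¬ Bad x) ∧ f x ≤ 2 * ((∑ x, f x) / Fintype.card (ι → Fin B)) := by
  have h1 := cnt_list D L hL
  set N : ℕ := Fintype.card (ι → Fin B) with hN
  haveI : Nonempty (Fin B) := ⟨⟨0, hB⟩⟩
  have hN0 : 0 < N := Fintype.card_pos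
  set bad : Finset (ι → Fin B) := univ.filter fun x : ι → Fin B => ∃ Bad ∈ L, Bad x with hbad
  have h2 : 2 * bad.card ≤ N := by
    have h3 : B * (2 * bad.card) ≤ B * N := by
      calc B * (2 * bad.card) = 2 * (B * bad.card) := by ring
        _ ≤ 2 * (L.length * (D * N)) := Nat.mul_le_mul_left 2 h1
        _ = (2 * (L.length * D)) * N := by ring
        _ ≤ B * N := Nat.mul_le_mul_right N hD
    exact Nat.le_of_mul_le_mul_left h3 hB
  have h3 : badᶜ.card + bad.card = N := by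
    rw [hN, ← card_univ (α := ι → Fin B), card_compl, card_univ]
    have := card_le_univ bad
    omega
  have h4 : N ≤ 2 * badᶜ.card := by omega
  have h5 : badᶜ.Nonempty := by
    rw [← card_pos]; omega
  have hS : ∑ x ∈ badᶜ, f x ≤ ∑ x, f x :=
    sum_le_sum_of_subset_of_nonneg (subset_univ _) fun x _ _ => hf x
  have hSn : 0 ≤ ∑ x, f x := sum_nonneg fun x _ => hf x
  have hNr : (0 : ℝ) < N := by exact_mod_cast hN0
  have h4r : (N : ℝ) ≤ 2 * badᶜ.card := by exact_mod_cast h4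
  have h6 : ∑ x ∈ badᶜ, f x ≤ ∑ _x ∈ badᶜ, (2 * ((∑ x, f x) / N)) := by
    rw [sum_const, nsmul_eq_mul]
    calc ∑ x ∈ badᶜ, f x ≤ ∑ x, f x := hS
      _ = N * ((∑ x, f x) / N) := by field_simp
      _ ≤ (2 * badᶜ.card) * ((∑ x, f x) / N) := mul_le_mul_of_nonneg_right h4r (by positivity)
      _ = badᶜ.card * (2 * ((∑ x, f x) / N)) := by ring
  obtain ⟨x, hx, hfx⟩ := exists_le_of_sum_le h5 h6
  refine ⟨x, ?_, hfx⟩
  rw [mem_compl, hbad, mem_filter] at hx
  intro Bad hBd hb
  exact hx ⟨mem_univ _, Bad, hBd, hb⟩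

end counting

/-! ## paths -/

section path

variable {r B : ℕ}

/-- the choices: the digits `u` (`inl k`), `al` (`inr false`) and `be` (`inr true`) -/
abbrev Cho (r B : ℕ) : Type := (Fin r ⊕ Bool) → Fin B

/-- the path which starts in `i`, with the order `e` of the digits -/
def hub (e : Equiv.Perm (Fin r)) (c0 : Bool) (i : Lab r B) (x : Cho r B) (s : ℕ) : Lab r B :=
  fun k => if (e k).val < s then x (Sum.inl k) else if (e k).val + 1 = r then x (Sum.inr c0) else i k

/-- the same with the two hubs in front -/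
def HP (e : Equiv.Perm (Fin r)) (c0 : Bool) (i0 i : Lab r B) (x : Cho r B) : ℕ → Lab r B
  | 0 => i0
  | 1 => i
  | s + 2 => hub e c0 i x s

theorem hub_top (e : Equiv.Perm (Fin r)) (c0 : Bool) (i : Lab r B) (x : Cho r B) :
    hub e c0 i x r = fun k => x (Sum.inl k) := by
  funext k
  unfold hub
  rw [if_pos (e k).isLt]

theorem hub_succ (e : Equiv.Perm (Fin r)) (c0 : Bool) (i : Lab r B) (x : Cho r B) {s : ℕ} (hs : s < r) :
    hub e c0 i x (s + 1) = update (hub e c0 i x s) (e.symm ⟨s, hs⟩) (x (Sum.inl (e.symm ⟨s, hs⟩))) := by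
  funext k
  by_cases hk : k = e.symm ⟨s, hs⟩
  · rw [hk, update_self]
    unfold hub
    rw [Equiv.apply_symm_apply, if_pos (Nat.lt_succ_self s)]
  · rw [update_of_ne hk]
    unfold hub
    have h1 : (e k).val ≠ s := by
      intro h
      apply hk
      rw [Equiv.eq_symm_apply]
      exact Fin.ext h
    by_cases h2 : (e k).val < s
    · rw [if_pos h2, if_pos (by omega)]
    · rw [if_neg h2, if_neg (by omega)]

theorem hub_zero (e : Equiv.Perm (Fin r)) (c0 : Bool) (i : Lab r B) (x : Cho r B) (hr : r - 1 < r) :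
    hub e c0 i x 0 = update i (e.symm ⟨r - 1, hr⟩) (x (Sum.inr c0)) := by
  funext k
  by_cases hk : k = e.symm ⟨r - 1, hr⟩
  · rw [hk, update_self]
    unfold hub
    rw [Equiv.apply_symm_apply, if_neg (Nat.not_lt_zero _), if_pos (by show r - 1 + 1 = r; omega)]
  · rw [update_of_ne hk]
    unfold hub
    rw [if_neg (Nat.not_lt_zero _), if_neg]
    intro h
    apply hk
    rw [Equiv.eq_symm_apply]
    exact Fin.ext (by show (e k).val = r - 1; omega)

/-- the last prepared digit is `al` until the end -/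
theorem hub_last (e : Equiv.Perm (Fin r)) (c0 : Bool) (i : Lab r B) (x : Cho r B) (hr : r - 1 < r) {s : ℕ}
    (hs : s ≤ r - 1) : hub e c0 i x s (e.symm ⟨r - 1, hr⟩) = x (Sum.inr c0) := by
  unfold hub
  rw [Equiv.apply_symm_apply, if_neg (by show ¬ (r - 1 < s); omega), if_pos (by show r - 1 + 1 = r; omega)]

theorem hub_upd_inl (e : Equiv.Perm (Fin r)) (c0 : Bool) (i : Lab r B) (x : Cho r B) {s s' : ℕ} (hs : s < r)
    (hs' : s' ≤ s) (v : Fin B) :
    hub e c0 i (update x (Sum.inl (e.symm ⟨s, hs⟩)) v) s' = hub e c0 i x s' := by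
  funext k
  unfold hub
  rw [update_of_ne (show (Sum.inr c0 : Fin r ⊕ Bool) ≠ Sum.inl (e.symm ⟨s, hs⟩) from Sum.inr_ne_inl)]
  by_cases h1 : (e k).val < s'
  · rw [if_pos h1, if_pos h1, update_of_ne]
    intro h
    have h2 : k = e.symm ⟨s, hs⟩ := Sum.inl_injective h
    rw [h2, Equiv.apply_symm_apply] at h1
    exact absurd h1 (by show ¬ (s < s'); omega)
  · rw [if_neg h1, if_neg h1]

theorem hub_upd_succ (e : Equiv.Perm (Fin r)) (c0 : Bool) (i : Lab r B) (x : Cho r B) {s : ℕ} (hs : s < r)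
    (v : Fin B) :
    hub e c0 i (update x (Sum.inl (e.symm ⟨s, hs⟩)) v) (s + 1) = update (hub e c0 i x s) (e.symm ⟨s, hs⟩) v := by
  rw [hub_succ e c0 i _ hs, hub_upd_inl e c0 i x hs le_rfl, update_self]

theorem HP_upd_inl (e : Equiv.Perm (Fin r)) (c0 : Bool) (i0 i : Lab r B) (x : Cho r B) {s : ℕ} (hs : s < r)
    (v : Fin B) :
    HP e c0 i0 i (update x (Sum.inl (e.symm ⟨s, hs⟩)) v) (s + 1) = HP e c0 i0 i x (s + 1) := by
  rcases s with _ | s
  · rfl
  · exact hub_upd_inl e c0 i x hs (Nat.le_succ s) v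

variable (T : Set (Lab r B)) (near : Lab r B → Lab r B → Lab r B → Prop)

/-- the requirements along one path, as bad events -/
def pBad (e : Equiv.Perm (Fin r)) (c0 : Bool) (i0 i : Lab r B) (hr : r - 1 < r) : List (Cho r B → Prop) :=
  [fun x => x (Sum.inr c0) = i (e.symm ⟨r - 1, hr⟩),
    fun x => hub e c0 i x 0 ∈ T,
    fun x => x (Sum.inr c0) ≠ i (e.symm ⟨r - 1, hr⟩) ∧ near i i0 (hub e c0 i x 0),
    fun x => x (Sum.inl (e.symm ⟨r - 1, hr⟩)) = i (e.symm ⟨r - 1, hr⟩)] ++
  ((List.finRange r).map fun s : Fin r => fun x : Cho r B => x (Sum.inl (e.symm s)) = hub e c0 i x s.val (e.symm s)) ++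
  ((List.finRange r).map fun s : Fin r => fun x : Cho r B => hub e c0 i x (s.val + 1) ∈ T) ++
  ((List.finRange r).map fun s : Fin r => fun x : Cho r B => x (Sum.inl (e.symm s)) ≠ hub e c0 i x s.val (e.symm s) ∧
    near (hub e c0 i x s.val) (HP e c0 i0 i x (s.val + 1)) (hub e c0 i x (s.val + 1)))

theorem pBad_length (e : Equiv.Perm (Fin r)) (c0 : Bool) (i0 i : Lab r B) (hr : r - 1 < r) :
    (pBad T near e c0 i0 i hr).length = 3 * r + 4 := by
  unfold pBad
  simp only [List.length_append, List.length_map, List.length_finRange, List.length_cons, List.length_nil]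
  ring

theorem card_eq_le_one (D : ℕ) (hD : 1 ≤ D) (a : Fin B) (P : Fin B → Prop) (hP : ∀ v, P v → v = a) :
    Set.ncard {v | P v} ≤ D := by
  refine le_trans ?_ hD
  calc Set.ncard {v | P v} ≤ Set.ncard {a} := Set.ncard_le_ncard (fun v hv => hP v hv) (Set.toFinite _)
    _ = 1 := Set.ncard_singleton a

theorem near_card {D : ℕ} (hn : ∀ h x, Set.ncard {y | Adj1 h y ∧ near h x y} ≤ D) (h x : Lab r B) (k : Fin r) :
    Set.ncard {v | v ≠ h k ∧ near h x (update h k v)} ≤ D := by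
  refine le_trans ?_ (hn h x)
  refine Set.ncard_le_ncard_of_injOn (fun v => update h k v) ?_ ?_ (Set.toFinite _)
  · intro v hv
    exact ⟨adj1_update hv.1, hv.2⟩
  · intro v _ w _ hvw
    exact update_injective h k hvw

theorem pBad_small {D : ℕ} (hD : 1 ≤ D) (hT : ∀ (h : Lab r B) k, Set.ncard {v | update h k v ∈ T} ≤ D)
    (hn : ∀ h x, Set.ncard {y | Adj1 h y ∧ near h x y} ≤ D)
    (e : Equiv.Perm (Fin r)) (c0 : Bool) (i0 i : Lab r B) (hr : r - 1 < r) :
    ∀ Bad ∈ pBad T near e c0 i0 i hr, Sm D Bad := by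
  intro Bad hBad
  unfold pBad at hBad
  rw [List.mem_append, List.mem_append, List.mem_append] at hBad
  rcases hBad with ((hBad | hBad) | hBad) | hBad
  · simp only [List.mem_cons, List.not_mem_nil, or_false] at hBad
    rcases hBad with rfl | rfl | rfl | rfl
    · refine ⟨Sum.inr c0, fun x => card_eq_le_one D hD (i (e.symm ⟨r - 1, hr⟩)) _ fun v hv => ?_⟩
      have hv' : update x (Sum.inr c0) v (Sum.inr c0) = i (e.symm ⟨r - 1, hr⟩) := hv
      rw [update_self] at hv'
      exact hv'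
    · refine ⟨Sum.inr c0, fun x => ?_⟩
      simp_rw [hub_zero e c0 i _ hr, update_self]
      exact hT _ _
    · refine ⟨Sum.inr c0, fun x => ?_⟩
      simp_rw [hub_zero e c0 i _ hr, update_self]
      exact near_card near hn i i0 _
    · refine ⟨Sum.inl (e.symm ⟨r - 1, hr⟩), fun x => card_eq_le_one D hD (i (e.symm ⟨r - 1, hr⟩)) _ fun v hv => ?_⟩
      have hv' : update x (Sum.inl (e.symm ⟨r - 1, hr⟩)) v (Sum.inl (e.symm ⟨r - 1, hr⟩)) = i (e.symm ⟨r - 1, hr⟩) := hv
      rw [update_self] at hv'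
      exact hv'
  · rw [List.mem_map] at hBad
    obtain ⟨s, -, rfl⟩ := hBad
    refine ⟨Sum.inl (e.symm s), fun x => card_eq_le_one D hD (hub e c0 i x s.val (e.symm s)) _ fun v hv => ?_⟩
    have hv' : update x (Sum.inl (e.symm s)) v (Sum.inl (e.symm s)) =
      hub e c0 i (update x (Sum.inl (e.symm s)) v) s.val (e.symm s) := hv
    rw [update_self, show hub e c0 i (update x (Sum.inl (e.symm s)) v) s.val = hub e c0 i x s.val from
      hub_upd_inl e c0 i x s.isLt le_rfl v] at hv'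
    exact hv'
  · rw [List.mem_map] at hBad
    obtain ⟨s, -, rfl⟩ := hBad
    refine ⟨Sum.inl (e.symm s), fun x => ?_⟩
    have h1 : ∀ v, hub e c0 i (update x (Sum.inl (e.symm s)) v) (s.val + 1) = update (hub e c0 i x s.val) (e.symm s) v :=
      fun v => hub_upd_succ e c0 i x s.isLt v
    simp_rw [h1]
    exact hT _ _
  · rw [List.mem_map] at hBad
    obtain ⟨s, -, rfl⟩ := hBad
    refine ⟨Sum.inl (e.symm s), fun x => ?_⟩
    have h1 : ∀ v, hub e c0 i (update x (Sum.inl (e.symm s)) v) (s.val + 1) = update (hub e c0 i x s.val) (e.symm s) v :=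
      fun v => hub_upd_succ e c0 i x s.isLt v
    have h2 : ∀ v, hub e c0 i (update x (Sum.inl (e.symm s)) v) s.val = hub e c0 i x s.val :=
      fun v => hub_upd_inl e c0 i x s.isLt le_rfl v
    have h3 : ∀ v, HP e c0 i0 i (update x (Sum.inl (e.symm s)) v) (s.val + 1) = HP e c0 i0 i x (s.val + 1) :=
      fun v => HP_upd_inl e c0 i0 i x s.isLt v
    simp_rw [h1, h2, h3, update_self]
    exact near_card near hn _ _ _

/-- what a legal choice gives along one path -/
theorem pBad_spec {e : Equiv.Perm (Fin r)} {c0 : Bool} {i0 i : Lab r B} {hr : r - 1 < r} (hi : Adj1 i0 i) (hiT : i ∉ T)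
    {x : Cho r B} (hx : ∀ Bad ∈ pBad T near e c0 i0 i hr, ¬ Bad x) :
    (∀ k < r + 2, Adj1 (HP e c0 i0 i x k) (HP e c0 i0 i x (k + 1))) ∧
    (∀ k, 1 ≤ k → k ≤ r + 2 → HP e c0 i0 i x k ∉ T) ∧
    (∀ k, 1 ≤ k → k ≤ r + 1 → ¬ near (HP e c0 i0 i x k) (HP e c0 i0 i x (k - 1)) (HP e c0 i0 i x (k + 1))) ∧
    (∀ k l, 1 ≤ k → k < l → l ≤ r + 2 → HP e c0 i0 i x k ≠ HP e c0 i0 i x l) ∧
    x (Sum.inl (e.symm ⟨r - 1, hr⟩)) ≠ x (Sum.inr c0) := by
  have hmem : ∀ Bad, Bad ∈ pBad T near e c0 i0 i hr → ¬ Bad x := hx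
  unfold pBad at hmem
  simp only [List.mem_append, List.mem_cons, List.not_mem_nil, or_false, List.mem_map, List.mem_finRange, true_and] at hmem
  have ha : x (Sum.inr c0) ≠ i (e.symm ⟨r - 1, hr⟩) := hmem _ (Or.inl (Or.inl (Or.inl (Or.inl rfl))))
  have hb : hub e c0 i x 0 ∉ T := hmem _ (Or.inl (Or.inl (Or.inl (Or.inr (Or.inl rfl)))))
  have hc : ¬ (x (Sum.inr c0) ≠ i (e.symm ⟨r - 1, hr⟩) ∧ near i i0 (hub e c0 i x 0)) :=
    hmem _ (Or.inl (Or.inl (Or.inl (Or.inr (Or.inr (Or.inl rfl))))))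
  have hg : x (Sum.inl (e.symm ⟨r - 1, hr⟩)) ≠ i (e.symm ⟨r - 1, hr⟩) :=
    hmem _ (Or.inl (Or.inl (Or.inl (Or.inr (Or.inr (Or.inr rfl))))))
  have hd : ∀ s : Fin r, x (Sum.inl (e.symm s)) ≠ hub e c0 i x s.val (e.symm s) := fun s =>
    hmem _ (Or.inl (Or.inl (Or.inr ⟨s, rfl⟩)))
  have he : ∀ s : Fin r, hub e c0 i x (s.val + 1) ∉ T := fun s => hmem _ (Or.inl (Or.inr ⟨s, rfl⟩))
  have hf : ∀ s : Fin r, ¬ (x (Sum.inl (e.symm s)) ≠ hub e c0 i x s.val (e.symm s) ∧
    near (hub e c0 i x s.val) (HP e c0 i0 i x (s.val + 1)) (hub e c0 i x (s.val + 1))) := fun s =>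
    hmem _ (Or.inr ⟨s, rfl⟩)
  refine ⟨?_, ?_, ?_, ?_, ?_⟩
  · intro k hk
    rcases k with _ | _ | s
    · exact hi
    · show Adj1 i (hub e c0 i x 0)
      rw [hub_zero e c0 i x hr]
      exact adj1_update ha
    · show Adj1 (hub e c0 i x s) (hub e c0 i x (s + 1))
      have hs : s < r := by omega
      rw [hub_succ e c0 i x hs]
      exact adj1_update (hd ⟨s, hs⟩)
  · intro k h1 h2
    rcases k with _ | _ | s
    · omega
    · exact hiT
    · show hub e c0 i x s ∉ T
      rcases s with _ | s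
      · exact hb
      · exact he ⟨s, by omega⟩
  · intro k h1 h2
    rcases k with _ | _ | s
    · omega
    · show ¬ near i i0 (hub e c0 i x 0)
      intro h
      exact hc ⟨ha, h⟩
    · show ¬ near (hub e c0 i x s) (HP e c0 i0 i x (s + 1)) (hub e c0 i x (s + 1))
      intro h
      exact hf ⟨s, by omega⟩ ⟨hd ⟨s, by omega⟩, h⟩
  · intro k l h1 hkl h2
    rcases k with _ | _ | s
    · omega
    · rcases l with _ | _ | s'
      · omega
      · omega
      · show i ≠ hub e c0 i x s'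
        intro h
        have h3 := congrFun h (e.symm ⟨r - 1, hr⟩)
        by_cases hs' : s' ≤ r - 1
        · rw [hub_last e c0 i x hr hs'] at h3
          exact ha h3.symm
        · have h4 : s' = r := by omega
          rw [h4, hub_top] at h3
          exact hg h3.symm
    · rcases l with _ | _ | s'
      · omega
      · omega
      · show hub e c0 i x s ≠ hub e c0 i x s'
        intro h
        have hs : s < r := by omega
        have h3 := congrFun h (e.symm ⟨s, hs⟩)
        have h4 : hub e c0 i x s' (e.symm ⟨s, hs⟩) = x (Sum.inl (e.symm ⟨s, hs⟩)) := by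
          unfold hub
          rw [Equiv.apply_symm_apply, if_pos (by show s < s'; omega)]
        rw [h4] at h3
        exact hd ⟨s, hs⟩ h3.symm
  · have h5 := hd ⟨r - 1, hr⟩
    rw [hub_last e c0 i x hr le_rfl] at h5
    exact h5

end path

/-! ## averages -/

section average

variable {r B : ℕ}

/-- the map `(i, x) ↦ hub s` is uniform -/
theorem sum_hub (e : Equiv.Perm (Fin r)) (c0 : Bool) (s : ℕ) (w : Lab r B → ℝ) :
    ∑ i : Lab r B, ∑ x : Cho r B, w (hub e c0 i x s) = Fintype.card (Cho r B) * ∑ i, w i := by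
  classical
  -- exchange the digits
  let f : Lab r B × Cho r B → Lab r B × Cho r B := fun p =>
    (hub e c0 p.1 p.2 s, fun c => match c with
      | Sum.inl k => if (e k).val < s then p.1 k else p.2 (Sum.inl k)
      | Sum.inr b => if h : b = c0 ∧ s < r then p.1 (e.symm ⟨r - 1, by omega⟩) else p.2 (Sum.inr b))
  have hf : Function.Involutive f := by
    rintro ⟨i, x⟩
    have e1 : (f (f (i, x))).1 = i := by
      funext k
      show hub e c0 (hub e c0 i x s) _ s k = i k
      unfold hub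
      by_cases h1 : (e k).val < s
      · rw [if_pos h1]
        show (if (e k).val < s then i k else x (Sum.inl k)) = i k
        rw [if_pos h1]
      · rw [if_neg h1]
        by_cases h2 : (e k).val + 1 = r
        · rw [if_pos h2]
          show (if h : c0 = c0 ∧ s < r then i (e.symm ⟨r - 1, by omega⟩) else x (Sum.inr c0)) = i k
          rw [dif_pos ⟨rfl, by omega⟩]
          congr 1
          rw [Equiv.symm_apply_eq]
          exact Fin.ext (by show r - 1 = (e k).val; omega)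
        · rw [if_neg h2]
          rw [if_neg h1, if_neg h2]
    have e2 : (f (f (i, x))).2 = x := by
      funext c
      rcases c with k | b
      · show (if (e k).val < s then hub e c0 i x s k else (if (e k).val < s then i k else x (Sum.inl k))) = x (Sum.inl k)
        by_cases h1 : (e k).val < s
        · rw [if_pos h1]
          unfold hub
          rw [if_pos h1]
        · rw [if_neg h1, if_neg h1]
      · show (if h : b = c0 ∧ s < r then hub e c0 i x s (e.symm ⟨r - 1, by omega⟩) else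
          (if h : b = c0 ∧ s < r then i (e.symm ⟨r - 1, by omega⟩) else x (Sum.inr b))) = x (Sum.inr b)
        by_cases h1 : b = c0 ∧ s < r
        · rw [dif_pos h1, hub_last e c0 i x (by omega) (by omega), h1.1]
        · rw [dif_neg h1, dif_neg h1]
    exact Prod.ext e1 e2
  have h1 : ∑ p : Lab r B × Cho r B, w (f p).1 = ∑ p : Lab r B × Cho r B, w p.1 :=
    Fintype.sum_equiv hf.toPerm _ _ fun p => rfl
  rw [Fintype.sum_prod_type, Fintype.sum_prod_type] at h1
  have h2 : ∀ i : Lab r B, ∑ _x : Cho r B, w i = Fintype.card (Cho r B) * w i := by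
    intro i
    rw [sum_const, card_univ, nsmul_eq_mul]
  have h3 : ∑ i : Lab r B, ∑ x : Cho r B, w (hub e c0 i x s) = ∑ i : Lab r B, ∑ _x : Cho r B, w i := h1
  rw [h3, sum_congr rfl fun i _ => h2 i, ← mul_sum]

/-- average cost of the path which starts in `i` -/
noncomputable def avg (e : Equiv.Perm (Fin r)) (c0 : Bool) (w : Lab r B → ℝ) (i : Lab r B) : ℝ :=
  (∑ x : Cho r B, ∑ s ∈ range (r + 1), w (hub e c0 i x s)) / Fintype.card (Cho r B)

theorem avg_nonneg (e : Equiv.Perm (Fin r)) (c0 : Bool) (w : Lab r B → ℝ) (hw : ∀ h, 0 ≤ w h) (i : Lab r B) :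
    0 ≤ avg e c0 w i :=
  div_nonneg (sum_nonneg fun x _ => sum_nonneg fun s _ => hw _) (Nat.cast_nonneg _)

theorem sum_avg (e : Equiv.Perm (Fin r)) (c0 : Bool) (w : Lab r B → ℝ) (hB : 0 < B) :
    ∑ i, avg e c0 w i = (r + 1) * ∑ i, w i := by
  haveI : Nonempty (Fin B) := ⟨⟨0, hB⟩⟩
  have hN : (0 : ℝ) < Fintype.card (Cho r B) := by exact_mod_cast Fintype.card_pos
  unfold avg
  rw [← sum_div]
  have h1 : ∑ i : Lab r B, ∑ x : Cho r B, ∑ s ∈ range (r + 1), w (hub e c0 i x s)
      = (r + 1) * (Fintype.card (Cho r B) * ∑ i, w i) := by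
    calc _ = ∑ i : Lab r B, ∑ s ∈ range (r + 1), ∑ x : Cho r B, w (hub e c0 i x s) :=
          sum_congr rfl fun i _ => sum_comm
      _ = ∑ s ∈ range (r + 1), ∑ i : Lab r B, ∑ x : Cho r B, w (hub e c0 i x s) := sum_comm
      _ = ∑ _s ∈ range (r + 1), (Fintype.card (Cho r B) * ∑ i, w i) := sum_congr rfl fun s _ => sum_hub e c0 s w
      _ = _ := by
          rw [sum_const, card_range, nsmul_eq_mul]
          push_cast
          ring
  rw [h1]
  field_simp

end average

/-! ## the route lemma -/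

section route

variable {r B : ℕ}

theorem hub_pred (e : Equiv.Perm (Fin r)) (c0 : Bool) (i : Lab r B) (x : Cho r B) (hr : r - 1 < r) :
    hub e c0 i x (r - 1) = update (fun k => x (Sum.inl k)) (e.symm ⟨r - 1, hr⟩) (x (Sum.inr c0)) := by
  have h1 := hub_succ e c0 i x hr
  have h2 : r - 1 + 1 = r := by omega
  rw [h2, hub_top] at h1
  rw [h1, update_idem, ← hub_last e c0 i x hr le_rfl, update_eq_self]

theorem card_adj (x : Lab r B) [DecidablePred fun i : Lab r B => Adj1 i x] :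
    (univ.filter fun i : Lab r B => Adj1 i x).card ≤ r * B := by
  classical
  have h1 : (univ.filter fun i : Lab r B => Adj1 i x) ⊆ (univ : Finset (Fin r × Fin B)).image fun p => update x p.1 p.2 := by
    intro i hi
    obtain ⟨k, h1, h2⟩ := (mem_filter.1 hi).2
    rw [mem_image]
    refine ⟨(k, i k), mem_univ _, ?_⟩
    funext j
    by_cases hj : j = k
    · rw [hj, update_self]
    · rw [update_of_ne hj]
      exact (h2 j hj).symm
  refine (card_le_card h1).trans (card_image_le.trans ?_)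
  rw [card_univ, Fintype.card_prod, Fintype.card_fin, Fintype.card_fin]

open Classical in
/-- a cheap element of a large set of neighbours -/
theorem cheap_exit {M : ℕ} (hM : 4 ≤ M) (F : Lab r B → ℝ) (hF : ∀ h, 0 ≤ F h) (i0 : Lab r B) (P : Finset (Lab r B))
    (hP : ∀ x ∈ P, Adj1 x i0) (hPM : M ≤ P.card) (a b : Lab r B) :
    ∃ x ∈ P, x ≠ a ∧ x ≠ b ∧ F x ≤ 2 / M * ∑ y ∈ univ.filter (fun y => Adj1 y i0), F y := by
  set P' : Finset (Lab r B) := (P.erase a).erase b with hP'
  have h1 : P.card ≤ P'.card + 2 := by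
    have h2 := pred_card_le_card_erase (s := P) (a := a)
    have h3 := pred_card_le_card_erase (s := P.erase a) (a := b)
    rw [← hP'] at h3
    omega
  have h2 : M ≤ 2 * P'.card := by omega
  have h3 : P'.Nonempty := by
    rw [← card_pos]; omega
  set S : ℝ := ∑ y ∈ univ.filter (fun y => Adj1 y i0), F y with hS
  have hS0 : 0 ≤ S := sum_nonneg fun y _ => hF y
  have hMr : (0 : ℝ) < M := by
    have : (4 : ℝ) ≤ M := by exact_mod_cast hM
    linarith
  have h4 : ∑ x ∈ P', F x ≤ ∑ _x ∈ P', (2 / M * S) := by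
    rw [sum_const, nsmul_eq_mul]
    have h5 : ∑ x ∈ P', F x ≤ S := by
      refine sum_le_sum_of_subset_of_nonneg ?_ fun y _ _ => hF y
      intro y hy
      rw [mem_filter]
      exact ⟨mem_univ _, hP y (mem_of_mem_erase (mem_of_mem_erase hy))⟩
    have h6 : (1 : ℝ) ≤ P'.card * (2 / M) := by
      have h7 : (M : ℝ) ≤ 2 * P'.card := by exact_mod_cast h2
      rw [mul_div_assoc', le_div_iff₀ hMr]
      linarith
    calc ∑ x ∈ P', F x ≤ 1 * S := by rw [one_mul]; exact h5
      _ ≤ (P'.card * (2 / M)) * S := mul_le_mul_of_nonneg_right h6 hS0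
      _ = P'.card * (2 / M * S) := by ring
  obtain ⟨x, hx, hFx⟩ := exists_le_of_sum_le h3 h4
  refine ⟨x, mem_of_mem_erase (mem_of_mem_erase hx), ?_, ?_, hFx⟩
  · exact ne_of_mem_erase (mem_of_mem_erase hx)
  · exact ne_of_mem_erase hx

/-- order of the digits of the second path -/
theorem rev_last (hr : r - 1 < r) : (Fin.revPerm (n := r)).symm ⟨r - 1, hr⟩ = ⟨0, by omega⟩ := by
  rw [Equiv.symm_apply_eq]
  apply Fin.ext
  rw [Fin.revPerm_apply, Fin.val_rev]

/-- the requirements which involve both paths -/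
def xBad (near : Lab r B → Lab r B → Lab r B → Prop) (i0 j0 i1 j1 : Lab r B) (k1 k2 : Fin r) : List (Cho r B → Prop) :=
  [fun x => x (Sum.inr false) = j1 k1, fun x => x (Sum.inr false) = x (Sum.inr true),
    fun x => x (Sum.inr false) = i0 k1, fun x => x (Sum.inr false) = j0 k1,
    fun x => x (Sum.inr false) ≠ x (Sum.inl k1) ∧
      near (fun k => x (Sum.inl k)) (hub Fin.revPerm true j1 x (r - 1)) (hub 1 false i1 x (r - 1)),
    fun x => x (Sum.inr true) = i1 k2, fun x => x (Sum.inr true) = i0 k2, fun x => x (Sum.inr true) = j0 k2,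
    fun x => x (Sum.inl k2) = i0 k2, fun x => x (Sum.inl k2) = j0 k2]

theorem sm_eq {D : ℕ} (hD : 1 ≤ D) (c : Fin r ⊕ Bool) (a : Fin B) : Sm D (fun x : Cho r B => x c = a) := by
  refine ⟨c, fun x => card_eq_le_one D hD a _ fun v hv => ?_⟩
  have hv' : update x c v c = a := hv
  rw [update_self] at hv'
  exact hv'

theorem sm_eq2 {D : ℕ} (hD : 1 ≤ D) : Sm D (fun x : Cho r B => x (Sum.inr false) = x (Sum.inr true)) := by
  refine ⟨Sum.inr false, fun x => card_eq_le_one D hD (x (Sum.inr true)) _ fun v hv => ?_⟩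
  have hv' : update x (Sum.inr false) v (Sum.inr false) = update x (Sum.inr false) v (Sum.inr true) := hv
  rw [update_self, update_of_ne (by simp)] at hv'
  exact hv'

theorem sm_near {D : ℕ} (near : Lab r B → Lab r B → Lab r B → Prop) (hr1 : r - 1 < r)
    (hn : ∀ h x, Set.ncard {y | Adj1 h y ∧ near h x y} ≤ D) (i1 j1 : Lab r B) :
    Sm D (fun x : Cho r B => x (Sum.inr false) ≠ x (Sum.inl ((1 : Equiv.Perm (Fin r)).symm ⟨r - 1, hr1⟩)) ∧
      near (fun k => x (Sum.inl k)) (hub Fin.revPerm true j1 x (r - 1)) (hub 1 false i1 x (r - 1))) := by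
  set k1 : Fin r := (1 : Equiv.Perm (Fin r)).symm ⟨r - 1, hr1⟩ with hk1
  refine ⟨Sum.inr false, fun x => ?_⟩
  have e3 : ∀ v, hub Fin.revPerm true j1 (update x (Sum.inr false) v) (r - 1) = hub Fin.revPerm true j1 x (r - 1) := by
    intro v
    rw [hub_pred _ true j1 _ hr1, hub_pred _ true j1 x hr1]
    rw [update_of_ne (show (Sum.inr true : Fin r ⊕ Bool) ≠ Sum.inr false by simp)]
    rfl
  have e4 : ∀ v, hub 1 false i1 (update x (Sum.inr false) v) (r - 1) = update (fun k => x (Sum.inl k)) k1 v := by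
    intro v
    rw [hub_pred _ false i1 _ hr1, update_self]
    rfl
  have h6 := near_card near hn (fun k => x (Sum.inl k)) (hub Fin.revPerm true j1 x (r - 1)) k1
  refine le_trans (Set.ncard_le_ncard ?_ (Set.toFinite _)) h6
  intro v hv
  have h7 : update x (Sum.inr false) v (Sum.inr false) ≠ update x (Sum.inr false) v (Sum.inl k1) := hv.1
  have h8 : near (fun k => update x (Sum.inr false) v (Sum.inl k)) (hub Fin.revPerm true j1 (update x (Sum.inr false) v) (r - 1))
    (hub 1 false i1 (update x (Sum.inr false) v) (r - 1)) := hv.2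
  rw [update_self, update_of_ne (by simp)] at h7
  rw [e3 v, e4 v] at h8
  exact ⟨h7, h8⟩

theorem xBad_small {D : ℕ} (hD : 1 ≤ D) (near : Lab r B → Lab r B → Lab r B → Prop) (hr1 : r - 1 < r)
    (hn : ∀ h x, Set.ncard {y | Adj1 h y ∧ near h x y} ≤ D) (i0 j0 i1 j1 : Lab r B) (k2 : Fin r) :
    ∀ Bad ∈ xBad near i0 j0 i1 j1 ((1 : Equiv.Perm (Fin r)).symm ⟨r - 1, hr1⟩) k2, Sm D Bad := by
  unfold xBad
  rw [List.forall_mem_cons, List.forall_mem_cons, List.forall_mem_cons, List.forall_mem_cons, List.forall_mem_cons,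
    List.forall_mem_cons, List.forall_mem_cons, List.forall_mem_cons, List.forall_mem_cons, List.forall_mem_cons]
  exact ⟨sm_eq hD _ _, sm_eq2 hD, sm_eq hD _ _, sm_eq hD _ _, sm_near near hr1 hn i1 j1, sm_eq hD _ _, sm_eq hD _ _,
    sm_eq hD _ _, sm_eq hD _ _, sm_eq hD _ _, by simp⟩

theorem xBad_spec {near : Lab r B → Lab r B → Lab r B → Prop} {i0 j0 i1 j1 : Lab r B} {k1 k2 : Fin r} {x : Cho r B}
    (hx : ∀ Bad ∈ xBad near i0 j0 i1 j1 k1 k2, ¬ Bad x) :
    x (Sum.inr false) ≠ j1 k1 ∧ x (Sum.inr false) ≠ x (Sum.inr true) ∧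
    x (Sum.inr false) ≠ i0 k1 ∧ x (Sum.inr false) ≠ j0 k1 ∧
    ¬ (x (Sum.inr false) ≠ x (Sum.inl k1) ∧
      near (fun k => x (Sum.inl k)) (hub Fin.revPerm true j1 x (r - 1)) (hub 1 false i1 x (r - 1))) ∧
    x (Sum.inr true) ≠ i1 k2 ∧ x (Sum.inr true) ≠ i0 k2 ∧ x (Sum.inr true) ≠ j0 k2 ∧
    x (Sum.inl k2) ≠ i0 k2 ∧ x (Sum.inl k2) ≠ j0 k2 := by
  unfold xBad at hx
  rw [List.forall_mem_cons, List.forall_mem_cons, List.forall_mem_cons, List.forall_mem_cons, List.forall_mem_cons,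
    List.forall_mem_cons, List.forall_mem_cons, List.forall_mem_cons, List.forall_mem_cons, List.forall_mem_cons] at hx
  obtain ⟨x1, x2, x3, x4, x5, x6, x7, x8, x9, x10, -⟩ := hx
  exact ⟨x1, x2, x3, x4, x5, x6, x7, x8, x9, x10⟩

/-- gluing two half routes -/
theorem route_glue (T : Set (Lab r B)) (near : Lab r B → Lab r B → Lab r B → Prop)
    (hsym : ∀ h x y, near h x y → near h y x) {i0 j0 : Lab r B} (H G : ℕ → Lab r B) (hH0 : H 0 = i0) (hG0 : G 0 = j0)
    (hHG : H (r + 2) = G (r + 2))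
    (H1 : ∀ k < r + 2, Adj1 (H k) (H (k + 1))) (H2 : ∀ k, 1 ≤ k → k ≤ r + 2 → H k ∉ T)
    (H3 : ∀ k, 1 ≤ k → k ≤ r + 1 → ¬ near (H k) (H (k - 1)) (H (k + 1)))
    (H4 : ∀ k l, 1 ≤ k → k < l → l ≤ r + 2 → H k ≠ H l)
    (G1 : ∀ k < r + 2, Adj1 (G k) (G (k + 1))) (G2 : ∀ k, 1 ≤ k → k ≤ r + 2 → G k ∉ T)
    (G3 : ∀ k, 1 ≤ k → k ≤ r + 1 → ¬ near (G k) (G (k - 1)) (G (k + 1)))
    (G4 : ∀ k l, 1 ≤ k → k < l → l ≤ r + 2 → G k ≠ G l)
    (hcross : ∀ k l, 1 ≤ k → k ≤ r + 1 → 1 ≤ l → l ≤ r + 1 → H k ≠ G l)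
    (hHi0 : ∀ k, 1 ≤ k → k ≤ r + 2 → H k ≠ i0 ∧ H k ≠ j0)
    (hGi0 : ∀ l, 1 ≤ l → l ≤ r + 1 → G l ≠ i0 ∧ G l ≠ j0)
    (hu : ¬ near (H (r + 2)) (H (r + 1)) (G (r + 1))) :
    ∃ ρ : ℕ → Lab r B, (∀ k, k ≤ r + 2 → ρ k = H k) ∧ (∀ k, r + 2 ≤ k → ρ k = G (2 * r + 4 - k)) ∧
      ρ 0 = i0 ∧ ρ (2 * r + 4) = j0 ∧ (∀ k < 2 * r + 4, Adj1 (ρ k) (ρ (k + 1))) ∧
      (∀ k, 1 ≤ k → k ≤ 2 * r + 3 → ρ k ∉ T ∧ ρ k ≠ i0 ∧ ρ k ≠ j0 ∧ ¬ near (ρ k) (ρ (k - 1)) (ρ (k + 1))) ∧
      (∀ k l, 1 ≤ k → k < l → l ≤ 2 * r + 3 → ρ k ≠ ρ l) := by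
  let ρ : ℕ → Lab r B := fun k => if k ≤ r + 2 then H k else G (2 * r + 4 - k)
  have hρH : ∀ k, k ≤ r + 2 → ρ k = H k := fun k hk => if_pos hk
  have hρG : ∀ k, r + 2 ≤ k → ρ k = G (2 * r + 4 - k) := by
    intro k hk
    rcases Nat.lt_or_ge (r + 2) k with h | h
    · exact if_neg (by omega)
    · have h1 : k = r + 2 := by omega
      rw [hρH k (by omega), h1, hHG]
      congr 1
      omega
  refine ⟨ρ, hρH, hρG, ?_, ?_, ?_, ?_, ?_⟩
  · rw [hρH 0 (by omega)]; exact hH0
  · rw [hρG _ (by omega), Nat.sub_self]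
    exact hG0
  · intro k hk
    rcases Nat.lt_or_ge k (r + 2) with h | h
    · rw [hρH k (by omega), hρH (k + 1) (by omega)]
      exact H1 k h
    · rw [hρG k h, hρG (k + 1) (by omega)]
      obtain ⟨l, hl, hl1, hl2⟩ : ∃ l, l < r + 2 ∧ 2 * r + 4 - (k + 1) = l ∧ 2 * r + 4 - k = l + 1 :=
        ⟨2 * r + 4 - (k + 1), by omega, rfl, by omega⟩
      rw [hl1, hl2]
      exact (G1 l hl).symm
  · intro k h1 h2
    rcases Nat.lt_or_ge k (r + 2) with h | h
    · rw [hρH k (by omega), hρH (k - 1) (by omega), hρH (k + 1) (by omega)]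
      exact ⟨H2 k h1 (by omega), (hHi0 k h1 (by omega)).1, (hHi0 k h1 (by omega)).2, H3 k h1 (by omega)⟩
    · rcases Nat.lt_or_ge (r + 2) k with h' | h'
      · rw [hρG k h, hρG (k - 1) (by omega), hρG (k + 1) (by omega)]
        obtain ⟨l, hl0, hl, hl1, hl2, hl3⟩ : ∃ l, 1 ≤ l ∧ l ≤ r + 1 ∧ 2 * r + 4 - k = l ∧ 2 * r + 4 - (k - 1) = l + 1 ∧
            2 * r + 4 - (k + 1) = l - 1 := ⟨2 * r + 4 - k, by omega, by omega, rfl, by omega, by omega⟩
        rw [hl1, hl2, hl3]
        exact ⟨G2 l hl0 (by omega), (hGi0 l hl0 hl).1, (hGi0 l hl0 hl).2, fun h => G3 l hl0 hl (hsym _ _ _ h)⟩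
      · have hk : k = r + 2 := by omega
        rw [hk, hρH (r + 2) le_rfl, hρH (r + 2 - 1) (by omega), hρG (r + 2 + 1) (by omega)]
        refine ⟨H2 (r + 2) (by omega) le_rfl, (hHi0 (r + 2) (by omega) le_rfl).1, (hHi0 (r + 2) (by omega) le_rfl).2, ?_⟩
        rw [show r + 2 - 1 = r + 1 by omega, show 2 * r + 4 - (r + 2 + 1) = r + 1 by omega]
        exact hu
  · intro k l h1 hkl h2
    rcases Nat.lt_or_ge (r + 2) l with h | h
    · rcases Nat.lt_or_ge k (r + 2) with h' | h'
      · rw [hρH k (by omega), hρG l (by omega)]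
        exact hcross k _ h1 (by omega) (by omega) (by omega)
      · rw [hρG k h', hρG l (by omega)]
        exact (G4 _ _ (by omega) (by omega) (by omega)).symm
    · rw [hρH k (by omega), hρH l h]
      exact H4 k l h1 hkl h

/-- the cost of a glued route -/
theorem route_cost (w : Lab r B → ℝ) (ρ H G : ℕ → Lab r B) (hρH : ∀ k, k ≤ r + 2 → ρ k = H k)
    (hρG : ∀ k, r + 2 ≤ k → ρ k = G (2 * r + 4 - k)) :
    ∑ k ∈ range (2 * r + 3), w (ρ (k + 1)) =
      (∑ s ∈ range (r + 1), w (H (s + 2)) + w (H 1)) + (∑ s ∈ range r, w (G (s + 2)) + w (G 1)) := by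
  have hsplit : ∑ k ∈ range (2 * r + 3), w (ρ (k + 1)) =
      ∑ k ∈ range (r + 2), w (ρ (k + 1)) + ∑ j ∈ range (r + 1), w (ρ (r + 2 + j + 1)) := by
    rw [show 2 * r + 3 = (r + 2) + (r + 1) by ring, sum_range_add]
  have hfirst : ∑ k ∈ range (r + 2), w (ρ (k + 1)) = ∑ k ∈ range (r + 2), w (H (k + 1)) := by
    refine sum_congr rfl fun s hs => ?_
    rw [mem_range] at hs
    rw [hρH (s + 1) (by omega)]
  have hsecond : ∑ j ∈ range (r + 1), w (ρ (r + 2 + j + 1)) = ∑ j ∈ range (r + 1), w (G (j + 1)) := by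
    rw [← sum_range_reflect]
    refine sum_congr rfl fun j hj => ?_
    rw [mem_range] at hj
    rw [hρG _ (by omega)]
    congr 2
    omega
  rw [hsplit, hfirst, hsecond, show r + 2 = (r + 1) + 1 by ring, sum_range_succ' (fun k => w (H (k + 1))),
    sum_range_succ' (fun k => w (G (k + 1)))]

open Classical in
/-- **ROUTE LEMMA** -/
theorem route {D M : ℕ} (hr : 1 ≤ r) (hD : 1 ≤ D) (hB : 12 * (r + 3) * D ≤ B) (hM : 4 ≤ M) (w : Lab r B → ℝ)
    (hw : ∀ h, 0 ≤ w h) :
    ∃ s : Lab r B → ℝ, (∀ h, 0 ≤ s h) ∧ ∑ h, s h ≤ 2 * r * B * (4 * r + 5) / M * ∑ h, w h ∧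
      ∀ (T : Set (Lab r B)) (near : Lab r B → Lab r B → Lab r B → Prop),
        (∀ (h : Lab r B) k, Set.ncard {v | update h k v ∈ T} ≤ D) →
        (∀ h x, Set.ncard {y | Adj1 h y ∧ near h x y} ≤ D) →
        (∀ h x y, near h x y → near h y x) →
        ∀ (i0 j0 : Lab r B) (P Q : Finset (Lab r B)), (∀ x ∈ P, Adj1 i0 x ∧ x ∉ T) → (∀ x ∈ Q, Adj1 j0 x ∧ x ∉ T) →
          M ≤ P.card → M ≤ Q.card →
          ∃ ρ : ℕ → Lab r B, ρ 0 = i0 ∧ ρ (2 * r + 4) = j0 ∧ ρ 1 ∈ P ∧ ρ (2 * r + 3) ∈ Q ∧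
            (∀ k < 2 * r + 4, Adj1 (ρ k) (ρ (k + 1))) ∧
            (∀ k, 1 ≤ k → k ≤ 2 * r + 3 →
              ρ k ∉ T ∧ ρ k ≠ i0 ∧ ρ k ≠ j0 ∧ ¬ near (ρ k) (ρ (k - 1)) (ρ (k + 1))) ∧
            (∀ k l, 1 ≤ k → k < l → l ≤ 2 * r + 3 → ρ k ≠ ρ l) ∧
            ∑ k ∈ range (2 * r + 3), w (ρ (k + 1)) ≤ s i0 + s j0 := by
  have hr1 : r - 1 < r := by omega
  have hB0 : 0 < B := by
    have : 0 < 12 * (r + 3) * D := by positivity
    omega
  have hMr : (0 : ℝ) < M := by
    have : (4 : ℝ) ≤ M := by exact_mod_cast hM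
    linarith
  set e1 : Equiv.Perm (Fin r) := 1 with he1
  set e2 : Equiv.Perm (Fin r) := Fin.revPerm with he2
  let F : Lab r B → ℝ := fun i => w i + 2 * avg e1 false w i + 2 * avg e2 true w i
  have hF : ∀ i, 0 ≤ F i := fun i => by
    have h1 := avg_nonneg e1 false w hw i
    have h2 := avg_nonneg e2 true w hw i
    have h3 := hw i
    show 0 ≤ w i + 2 * avg e1 false w i + 2 * avg e2 true w i
    linarith
  have hFsum : ∑ i, F i = (4 * r + 5) * ∑ i, w i := by
    show ∑ i, (w i + 2 * avg e1 false w i + 2 * avg e2 true w i) = _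
    rw [sum_add_distrib, sum_add_distrib, ← mul_sum, ← mul_sum, sum_avg e1 false w hB0, sum_avg e2 true w hB0]
    ring
  let s : Lab r B → ℝ := fun i => 2 / M * ∑ y ∈ univ.filter (fun y => Adj1 y i), F y
  refine ⟨s, fun i => mul_nonneg (by positivity) (sum_nonneg fun y _ => hF y), ?_, ?_⟩
  · -- the sum of `s`
    show ∑ i, (2 / M * ∑ y ∈ univ.filter (fun y => Adj1 y i), F y) ≤ _
    rw [← mul_sum]
    have h1 : ∑ i : Lab r B, ∑ y ∈ univ.filter (fun y => Adj1 y i), F y ≤ (r * B) * ∑ y, F y := by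
      calc ∑ i : Lab r B, ∑ y ∈ univ.filter (fun y => Adj1 y i), F y
          = ∑ i : Lab r B, ∑ y : Lab r B, (if Adj1 y i then F y else 0) := sum_congr rfl fun i _ => sum_filter _ _
        _ = ∑ y : Lab r B, ∑ i : Lab r B, (if Adj1 y i then F y else 0) := sum_comm
        _ ≤ ∑ y : Lab r B, (r * B) * F y := by
            refine sum_le_sum fun y _ => ?_
            rw [← sum_filter, sum_const, nsmul_eq_mul]
            refine mul_le_mul_of_nonneg_right ?_ (hF y)
            have h2 : (univ.filter fun i : Lab r B => Adj1 y i).card ≤ r * B := by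
              refine (card_le_card ?_).trans (card_adj y)
              intro i hi
              exact mem_filter.2 ⟨mem_univ _, (mem_filter.1 hi).2.symm⟩
            exact_mod_cast h2
        _ = (r * B) * ∑ y, F y := by rw [mul_sum]
    calc 2 / M * ∑ i : Lab r B, ∑ y ∈ univ.filter (fun y => Adj1 y i), F y ≤ 2 / M * ((r * B) * ∑ y, F y) :=
          mul_le_mul_of_nonneg_left h1 (by positivity)
      _ = 2 * r * B * (4 * r + 5) / M * ∑ h, w h := by rw [hFsum]; ring
  -- the routes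
  intro T near hT hn hsym i0 j0 P Q hP hQ hPM hQM
  obtain ⟨i1, hi1P, -, hi1j0, hFi1⟩ := cheap_exit hM F hF i0 P (fun x hx => (hP x hx).1.symm) hPM i0 j0
  obtain ⟨j1, hj1Q, hj1i1, hj1i0, hFj1⟩ := cheap_exit hM F hF j0 Q (fun x hx => (hQ x hx).1.symm) hQM i1 i0
  set k1 : Fin r := e1.symm ⟨r - 1, hr1⟩ with hk1
  set k2 : Fin r := e2.symm ⟨r - 1, hr1⟩ with hk2
  have hk1v : k1 = ⟨r - 1, hr1⟩ := rfl
  have hk2v : k2 = ⟨0, by omega⟩ := rev_last hr1
  -- the list of bad events
  let L : List (Cho r B → Prop) := pBad T near e1 false i0 i1 hr1 ++ pBad T near e2 true j0 j1 hr1 ++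
    xBad near i0 j0 i1 j1 k1 k2
  have hLl : L.length = 6 * r + 18 := by
    show (pBad T near e1 false i0 i1 hr1 ++ pBad T near e2 true j0 j1 hr1 ++ xBad near i0 j0 i1 j1 k1 k2).length = _
    rw [List.length_append, List.length_append, pBad_length, pBad_length]
    show 3 * r + 4 + (3 * r + 4) + 10 = _
    ring
  have hLs : ∀ Bad ∈ L, Sm D Bad := by
    intro Bad hBd
    rcases List.mem_append.1 hBd with h | h
    · rcases List.mem_append.1 h with h | h
      · exact pBad_small T near hD hT hn e1 false i0 i1 hr1 Bad h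
      · exact pBad_small T near hD hT hn e2 true j0 j1 hr1 Bad h
    · exact xBad_small hD near hr1 hn i0 j0 i1 j1 k2 Bad h
  -- the cost
  let f : Cho r B → ℝ := fun x => ∑ s ∈ range (r + 1), w (hub e1 false i1 x s) + ∑ s ∈ range (r + 1), w (hub e2 true j1 x s)
  have hf : ∀ x, 0 ≤ f x := fun x => add_nonneg (sum_nonneg fun s _ => hw _) (sum_nonneg fun s _ => hw _)
  obtain ⟨x, hx, hfx⟩ := cheap_legal D L hB0 hLs (by rw [hLl]; calc 2 * ((6 * r + 18) * D) = 12 * (r + 3) * D := by ring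
                                                          _ ≤ B := hB) f hf
  have hfx2 : f x ≤ 2 * (avg e1 false w i1 + avg e2 true w j1) := by
    have h1 : (∑ x, f x) / Fintype.card (Cho r B) = avg e1 false w i1 + avg e2 true w j1 := by
      unfold avg
      rw [← add_div, ← sum_add_distrib]
    rw [← h1]
    exact hfx
  obtain ⟨H1, H2, H3, H4, H5⟩ := pBad_spec T near (hP i1 hi1P).1 (hP i1 hi1P).2
    (fun Bad h => hx Bad (List.mem_append.2 (Or.inl (List.mem_append.2 (Or.inl h)))))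
  obtain ⟨G1, G2, G3, G4, G5⟩ := pBad_spec T near (hQ j1 hj1Q).1 (hQ j1 hj1Q).2
    (fun Bad h => hx Bad (List.mem_append.2 (Or.inl (List.mem_append.2 (Or.inr h)))))
  have xs := fun _ : Unit => xBad_spec (fun Bad h => hx Bad (List.mem_append.2 (Or.inr h)))
  set H : ℕ → Lab r B := HP e1 false i0 i1 x with hH
  set G : ℕ → Lab r B := HP e2 true j0 j1 x with hG
  have hHtop : H (r + 2) = fun k => x (Sum.inl k) := hub_top e1 false i1 x
  have hGtop : G (r + 2) = fun k => x (Sum.inl k) := hub_top e2 true j1 x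
  have hHG : H (r + 2) = G (r + 2) := by rw [hHtop, hGtop]
  -- digits
  have hHk : ∀ k, 2 ≤ k → k ≤ r + 1 → H k k1 = x (Sum.inr false) := by
    intro k h1 h2
    obtain ⟨t, rfl⟩ : ∃ t, k = t + 2 := ⟨k - 2, by omega⟩
    exact hub_last e1 false i1 x hr1 (by omega)
  have hGk : ∀ k, 2 ≤ k → k ≤ r + 1 → G k k2 = x (Sum.inr true) := by
    intro k h1 h2
    obtain ⟨t, rfl⟩ : ∃ t, k = t + 2 := ⟨k - 2, by omega⟩
    exact hub_last e2 true j1 x hr1 (by omega)
  have hGk1 : ∀ l, 1 ≤ l → l ≤ r + 1 → G l k1 ≠ x (Sum.inr false) := by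
    intro l h1 h2
    rcases l with _ | _ | t
    · omega
    · show j1 k1 ≠ _
      exact fun h => (xs ()).1 h.symm
    · show hub e2 true j1 x t k1 ≠ _
      unfold hub
      split_ifs
      · exact H5
      · exact fun h => (xs ()).2.1 h.symm
      · exact fun h => (xs ()).1 h.symm
  have hcross : ∀ k l, 1 ≤ k → k ≤ r + 1 → 1 ≤ l → l ≤ r + 1 → H k ≠ G l := by
    intro k l h1 h2 h3 h4 h
    by_cases hk : 2 ≤ k
    · have h5 := congrFun h k1
      rw [hHk k hk h2] at h5
      exact hGk1 l h3 h4 h5.symm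
    · have hk1' : k = 1 := by omega
      rw [hk1'] at h
      by_cases hl : 2 ≤ l
      · have h5 := congrFun h k2
        rw [hGk l hl h4] at h5
        exact (xs ()).2.2.2.2.2.1 h5.symm
      · have hl1 : l = 1 := by omega
        rw [hl1] at h
        exact hj1i1 h.symm
  have hHi0 : ∀ k, 1 ≤ k → k ≤ r + 2 → H k ≠ i0 ∧ H k ≠ j0 := by
    intro k h1 h2
    rcases Nat.lt_or_ge k (r + 2) with h3 | h3
    · by_cases hk : 2 ≤ k
      · constructor
        · intro h
          have h5 := congrFun h k1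
          rw [hHk k hk (by omega)] at h5
          exact (xs ()).2.2.1 h5
        · intro h
          have h5 := congrFun h k1
          rw [hHk k hk (by omega)] at h5
          exact (xs ()).2.2.2.1 h5
      · have hk1' : k = 1 := by omega
        rw [hk1']
        exact ⟨(hP i1 hi1P).1.ne.symm, hi1j0⟩
    · have hk : k = r + 2 := by omega
      rw [hk, hHtop]
      exact ⟨fun h => (xs ()).2.2.2.2.2.2.2.2.1 (congrFun h k2), fun h => (xs ()).2.2.2.2.2.2.2.2.2 (congrFun h k2)⟩
  have hGi0 : ∀ l, 1 ≤ l → l ≤ r + 1 → G l ≠ i0 ∧ G l ≠ j0 := by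
    intro l h1 h2
    by_cases hl : 2 ≤ l
    · constructor
      · intro h
        have h5 := congrFun h k2
        rw [hGk l hl h2] at h5
        exact (xs ()).2.2.2.2.2.2.1 h5
      · intro h
        have h5 := congrFun h k2
        rw [hGk l hl h2] at h5
        exact (xs ()).2.2.2.2.2.2.2.1 h5
    · have hl1 : l = 1 := by omega
      rw [hl1]
      exact ⟨hj1i0, (hQ j1 hj1Q).1.ne.symm⟩
  have hu : ¬ near (H (r + 2)) (H (r + 1)) (G (r + 1)) := by
    intro hcon
    apply (xs ()).2.2.2.2.1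
    have h3 : H (r + 1) = hub e1 false i1 x (r - 1) := by
      rw [show r + 1 = (r - 1) + 2 by omega]; rfl
    have h4 : G (r + 1) = hub e2 true j1 x (r - 1) := by
      rw [show r + 1 = (r - 1) + 2 by omega]; rfl
    rw [h3, h4, hHtop] at hcon
    exact ⟨fun h => H5 h.symm, hsym _ _ _ hcon⟩
  obtain ⟨ρ, hρH, hρG, r1, r2, r3, r4, r5⟩ := route_glue T near hsym H G rfl rfl hHG H1 H2 H3 H4 G1 G2 G3 G4 hcross hHi0 hGi0 hu
  have hcost := route_cost w ρ H G hρH hρG
  refine ⟨ρ, r1, r2, ?_, ?_, r3, r4, r5, ?_⟩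
  · rw [hρH 1 (Nat.le_add_left 1 (r + 1))]
    exact hi1P
  · rw [hρG _ (by clear * -; omega), show 2 * r + 4 - (2 * r + 3) = 1 by clear * -; omega]
    exact hj1Q
  · have e5 : ∑ s ∈ range (r + 1), w (H (s + 2)) = ∑ s ∈ range (r + 1), w (hub e1 false i1 x s) := rfl
    have e6 : ∑ s ∈ range r, w (G (s + 2)) ≤ ∑ s ∈ range (r + 1), w (hub e2 true j1 x s) := by
      calc ∑ s ∈ range r, w (G (s + 2)) = ∑ s ∈ range r, w (hub e2 true j1 x s) := rfl
        _ ≤ ∑ s ∈ range (r + 1), w (hub e2 true j1 x s) :=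
            sum_le_sum_of_subset_of_nonneg (range_mono (Nat.le_succ r)) fun s _ _ => hw _
    have e7 : H 1 = i1 := rfl
    have e8 : G 1 = j1 := rfl
    have ha1 := avg_nonneg e2 true w hw i1
    have ha2 := avg_nonneg e1 false w hw j1
    have h9 : f x = ∑ s ∈ range (r + 1), w (hub e1 false i1 x s) + ∑ s ∈ range (r + 1), w (hub e2 true j1 x s) := rfl
    have h10 : F i1 = w i1 + 2 * avg e1 false w i1 + 2 * avg e2 true w i1 := rfl
    have h11 : F j1 = w j1 + 2 * avg e1 false w j1 + 2 * avg e2 true w j1 := rfl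
    have h12 : F i1 ≤ s i0 := hFi1
    have h13 : F j1 ≤ s j0 := hFj1
    rw [hcost, e5, e7, e8]
    linarith

end route

end Pool.Agent.GW.RH
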