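import Pool.Agent.GW.Step

/-!
# The schedule: after `T` steps all corners are closed

PROOF. Let `p0` = number of open corners of `N` (`p0 = 0`: nothing to do), `u0 = Ups B0 N.t = 2 B^R`. Choose the steps with
`α = (1 - 1/Q^2)^(T-τ) / (2 p0)`-type weights: with `Ψ_τ = (1-1/Q^2)^(-τ) Pend_τ / (2 p0) + (1+δ)^(-τ) Ups_τ / (2 u0)` one has `Ψ_0 = 1`,
`Ψ_(τ+1) ≤ Ψ_τ`, so `Ups_τ ≤ 2 e u0 ≤ 12 B^R` for all `τ ≤ T` (`T δ ≤ 1`) and `Pend_T ≤ 2 p0 e^(-T/Q^2) < 1` because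
`p0 ≤ W^2` (`prs ⊆` pairs of live outer letters). `Ups_τ < B0^(b-511)` gives `t g + 512 ≤ b` and `nb t g ≤ b - 512`, so a line has at most
`b` touched labels and at most `β0 + b` bad labels (`FewBad`).
-/

set_option autoImplicit false

namespace Pool.Agent.GW

open Equiv Pool.Agent.SWP

theorem pow_le_Ups {R B : ℕ} {B0 : ℝ} (hB0 : 1 ≤ B0) (t : Lab R B → ℕ) (g : Lab R B) :
    B0 ^ t g ≤ Ups B0 t ∧ B0 ^ nb t g ≤ Ups B0 t := by
  have h0 : (0 : ℝ) ≤ B0 := by linarith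
  have h1 : B0 ^ t g + B0 ^ nb t g ≤ Ups B0 t :=
    Finset.single_le_sum (f := fun g => B0 ^ t g + B0 ^ nb t g)
      (fun g _ => add_nonneg (pow_nonneg h0 _) (pow_nonneg h0 _)) (Finset.mem_univ g)
  have h2 := pow_nonneg h0 (t g)
  have h3 := pow_nonneg h0 (nb t g)
  exact ⟨by linarith, by linarith⟩

theorem lt_of_Ups {R B : ℕ} {B0 : ℝ} (hB0 : 1 ≤ B0) (t : Lab R B → ℕ) {n : ℕ} (h : Ups B0 t < B0 ^ n) (g : Lab R B) :
    t g < n ∧ nb t g < n := by
  obtain ⟨h1, h2⟩ := pow_le_Ups hB0 t g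
  constructor
  · by_contra hc
    push Not at hc
    have := pow_le_pow_right₀ hB0 hc
    linarith
  · by_contra hc
    push Not at hc
    have := pow_le_pow_right₀ hB0 hc
    linarith

theorem nb_zero {R B : ℕ} {t : Lab R B → ℕ} (ht : ∀ g, t g = 0) (g : Lab R B) : nb t g = 0 := by
  unfold nb
  have : ({h | adj g h ∧ t h ≠ 0} : Set (Lab R B)) = ∅ := by
    ext h
    simp [ht h]
  rw [this, Set.ncard_empty]

theorem Ups_zero {R B : ℕ} {B0 : ℝ} {t : Lab R B → ℕ} (ht : ∀ g, t g = 0) : Ups B0 t = 2 * (B : ℝ) ^ R := by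
  unfold Ups
  have h1 : ∀ g, B0 ^ t g + B0 ^ nb t g = 2 := fun g => by
    rw [ht g, nb_zero ht g]
    norm_num
  rw [Finset.sum_congr rfl fun g _ => h1 g, Finset.sum_const, Finset.card_univ, nsmul_eq_mul]
  have h2 : Fintype.card (Lab R B) = B ^ R := by
    rw [Fintype.card_pi]
    simp
  rw [h2]
  push_cast
  ring

/-- few bad labels from few touched neighbours -/
theorem few_of {R B : ℕ} (P : Par R B) (N : NetS R B) {β0 b : ℕ}
    (hβ : ∀ (g : Lab R B) (i : Fin R), {v : Fin B | Function.update g i v ∉ P.pres}.ncard ≤ β0)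
    (hnb : ∀ g, nb N.t g + 1 ≤ b) : FewBad P N (β0 + b) := by
  intro g i
  have h1 : {v : Fin B | Function.update g i v ∉ P.pres ∨ N.t (Function.update g i v) ≠ 0} ⊆
      {v : Fin B | Function.update g i v ∉ P.pres} ∪
        insert (g i) {v : Fin B | v ≠ g i ∧ N.t (Function.update g i v) ≠ 0} := by
    rintro v (hv | hv)
    · exact Or.inl hv
    · refine Or.inr ?_
      by_cases h : v = g i
      · exact Or.inl h
      · exact Or.inr ⟨h, hv⟩
  have h2 : {v : Fin B | v ≠ g i ∧ N.t (Function.update g i v) ≠ 0}.ncard ≤ nb N.t g := by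
    unfold nb
    refine Set.ncard_le_ncard_of_injOn (fun v => Function.update g i v) ?_ ?_ (Set.toFinite _)
    · rintro v ⟨hv1, hv2⟩
      refine ⟨⟨i, ?_, ?_⟩, hv2⟩
      · show g i ≠ Function.update g i v i
        rw [Function.update_self]
        exact fun h => hv1 h.symm
      · intro i' hi'
        show g i' = Function.update g i v i'
        rw [Function.update_of_ne hi']
    · intro v _ v' _ h
      have h3 := congrFun h i
      simpa using h3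
  have h3 := Set.ncard_le_ncard h1 (Set.toFinite _)
  have h4 := Set.ncard_union_le {v : Fin B | Function.update g i v ∉ P.pres}
    (insert (g i) {v : Fin B | v ≠ g i ∧ N.t (Function.update g i v) ≠ 0})
  have h5 := Set.ncard_insert_le (g i) {v : Fin B | v ≠ g i ∧ N.t (Function.update g i v) ≠ 0}
  have h6 := hβ g i
  have h7 := hnb g
  omega

/-- number of open corners -/
theorem prs_le (S : Sf) (F : Set S.D) : (prs S F).ncard ≤ S.num Fᶜ * S.num Fᶜ := by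
  have h1 : prs S F ⊆ (Fᶜ ∩ S.live) ×ˢ (Fᶜ ∩ S.live) := by
    rintro ⟨d, e⟩ ⟨h1, h2, h3, h4, _, _⟩
    exact ⟨⟨h1, h3⟩, ⟨h2, h4⟩⟩
  refine (Set.ncard_le_ncard h1 (Set.toFinite _)).trans ?_
  rw [Set.ncard_prod]
  exact le_rfl

/-- numbers of the schedule -/
theorem sched_base {T Q W : ℕ} (hQ : 1 ≤ Q) (hT : (Q : ℝ) ^ 2 * (2 * Real.log W + 3) ≤ T) {x : ℝ}
    (hx : x ≤ (W : ℝ) * W) (hx0 : 0 ≤ x) : (1 - 1 / (Q : ℝ) ^ 2) ^ T * Real.exp 1 * x ≤ 1 := by
  have hQ1 : (1 : ℝ) ≤ Q := by exact_mod_cast hQ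
  have hQ2 : (0 : ℝ) < (Q : ℝ) ^ 2 := by positivity
  have hal0 : 0 ≤ 1 - 1 / (Q : ℝ) ^ 2 := by
    rw [sub_nonneg, div_le_one hQ2]
    nlinarith
  have h1 : 1 - 1 / (Q : ℝ) ^ 2 ≤ Real.exp (-(1 / (Q : ℝ) ^ 2)) := by
    have := Real.add_one_le_exp (-(1 / (Q : ℝ) ^ 2))
    linarith
  have h2 : (1 - 1 / (Q : ℝ) ^ 2) ^ T ≤ Real.exp (-(1 / (Q : ℝ) ^ 2)) ^ T := pow_le_pow_left₀ hal0 h1 T
  rw [← Real.exp_nat_mul] at h2
  have h3 : (T : ℝ) * -(1 / (Q : ℝ) ^ 2) ≤ -(2 * Real.log W + 3) := by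
    have h4 : 2 * Real.log W + 3 ≤ T / (Q : ℝ) ^ 2 := by
      rw [le_div_iff₀ hQ2]
      linarith
    have h5 : (T : ℝ) * -(1 / (Q : ℝ) ^ 2) = -(T / (Q : ℝ) ^ 2) := by ring
    rw [h5]; linarith
  have h6 : (1 - 1 / (Q : ℝ) ^ 2) ^ T ≤ Real.exp (-(2 * Real.log W + 3)) := h2.trans (Real.exp_le_exp.2 h3)
  rcases Nat.eq_zero_or_pos W with hW | hW
  · subst hW
    have : x = 0 := by
      have : x ≤ 0 := by simpa using hx
      linarith
    rw [this]
    simp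
  · have hW' : (0 : ℝ) < W := by exact_mod_cast hW
    have h7 : Real.exp (-(2 * Real.log W + 3)) = Real.exp (-3) / ((W : ℝ) * W) := by
      have e1 : -(2 * Real.log W + 3) = -3 - (Real.log W + Real.log W) := by ring
      rw [e1, Real.exp_sub, Real.exp_add, Real.exp_log hW']
    rw [h7] at h6
    have h8 : Real.exp (-3) * Real.exp 1 ≤ 1 := by
      rw [← Real.exp_add]
      exact Real.exp_le_one_iff.2 (by norm_num)
    have h9 : (0 : ℝ) ≤ Real.exp 1 * x := mul_nonneg (Real.exp_pos _).le hx0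
    calc (1 - 1 / (Q : ℝ) ^ 2) ^ T * Real.exp 1 * x = (1 - 1 / (Q : ℝ) ^ 2) ^ T * (Real.exp 1 * x) := by ring
      _ ≤ Real.exp (-3) / ((W : ℝ) * W) * (Real.exp 1 * x) := mul_le_mul_of_nonneg_right h6 h9
      _ = Real.exp (-3) * Real.exp 1 * (x / ((W : ℝ) * W)) := by ring
      _ ≤ 1 * 1 := by
          refine mul_le_mul h8 ?_ (by positivity) zero_le_one
          rw [div_le_one (by positivity)]
          exact hx
      _ = 1 := one_mul 1

/-- the costs stay small -/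
theorem sched_U {T τ : ℕ} (hT : 1 ≤ T) (hτ : τ ≤ T) {U0 U A : ℝ} (hU0 : 0 < U0) (hA : 0 ≤ A)
    (h : A + (1 + 1 / (T : ℝ)) ^ (T - τ) / ((1 + 1 / (T : ℝ)) ^ T * U0) * U ≤ 2) : U ≤ 6 * U0 := by
  have hTp : (0 : ℝ) < T := by exact_mod_cast hT
  set be : ℝ := 1 + 1 / (T : ℝ) with hbe
  have hbe1 : 1 ≤ be := by
    have : (0 : ℝ) ≤ 1 / T := by positivity
    rw [hbe]; linarith
  have hbe0 : 0 < be := by linarith
  have h2 : (be ^ (T - τ) / (be ^ T * U0)) * U ≤ 2 := by linarith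
  have h3 : be ^ T = be ^ (T - τ) * be ^ τ := by
    rw [← pow_add]; congr 1; omega
  have h4 : be ^ (T - τ) / (be ^ T * U0) = 1 / (be ^ τ * U0) := by
    rw [h3]
    have : be ^ (T - τ) ≠ 0 := by positivity
    field_simp
  rw [h4, one_div, inv_mul_le_iff₀ (by positivity)] at h2
  have h5 : be ^ τ ≤ 3 := by
    have h6 : be ^ τ ≤ be ^ T := pow_le_pow_right₀ hbe1 hτ
    have h7 : be ≤ Real.exp (1 / T) := by
      have := Real.add_one_le_exp (1 / (T : ℝ))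
      rw [hbe]; linarith
    have h8 : be ^ T ≤ Real.exp (1 / T) ^ T := pow_le_pow_left₀ hbe0.le h7 T
    rw [← Real.exp_nat_mul] at h8
    have h9 : (T : ℝ) * (1 / T) = 1 := by field_simp
    rw [h9] at h8
    have h10 : Real.exp 1 < 3 := lt_trans Real.exp_one_lt_d9 (by norm_num)
    linarith
  have h6 : be ^ τ * U0 * 2 ≤ 3 * U0 * 2 := by
    have : be ^ τ * U0 ≤ 3 * U0 := mul_le_mul_of_nonneg_right h5 hU0.le
    linarith
  linarith

theorem sched {R B : ℕ} (hR : 2 ≤ R) (P : Par R B) (N : NetS R B) (hN : Ok P N) (b β0 M : ℕ) (ht : ∀ g, N.t g = 0)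
    (hβ : ∀ (g : Lab R B) (i : Fin R), {v : Fin B | Function.update g i v ∉ P.pres}.ncard ≤ β0)
    (hM2 : 3 ≤ M) (hM : M * 4 ^ (b + 1) ≤ P.K)
    (hK : 4 ^ (b + 1) * (R * (β0 + b + 512 * (2 * R + 5)) + 6) ≤ P.K)
    (hB : 64 * (R + 3) ^ 2 * (β0 + b + 512 * (2 * R + 5) + P.K + 10) ≤ B)
    (B0 : ℝ) (hB0 : 1 ≤ B0) (hb : 512 ≤ b) (hBb : 12 * (B : ℝ) ^ R < B0 ^ (b - 511))
    (m W Q T : ℕ) (hm : 512 * kap P b + 1 ≤ m) (hΘ : 2 * 4 ^ b * P.Th + 1 ≤ m)
    (hl : ∀ d, d ∉ N.F → N.S.len d ≤ 8 * m) (hW : N.S.num N.Fᶜ + T * (1024 * kap P b) ≤ W) (hQ : W < 8 * m * Q)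
    (hT : (Q : ℝ) ^ 2 * (2 * Real.log W + 3) ≤ T) (hδ : T * del P b M m Q B0 ≤ 1) (L : ℕ) (hL : 220 * m ≤ L) :
    ∃ N' : NetS R B, Ok P N' ∧ (U L N'.S → U L N.S) ∧ (∀ d, d ∉ N'.F → N'.S.len d ≤ 8 * m) ∧
      prs N'.S N'.F = ∅ ∧ (∀ g, N'.t g ≤ b) ∧ FewBad P N' (β0 + b) := by
  have hQ0 : 1 ≤ Q := by
    rcases Nat.eq_zero_or_pos Q with h | h
    · subst h; simp at hQ
    · exact h
  have hQ1 : (1 : ℝ) ≤ Q := by exact_mod_cast hQ0
  have hlog : 0 ≤ Real.log W := Real.log_natCast_nonneg W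
  have hT3 : (3 : ℝ) ≤ T := by
    have h1 : (1 : ℝ) ≤ (Q : ℝ) ^ 2 := one_le_pow₀ hQ1
    nlinarith
  have hT1 : 1 ≤ T := by
    have : (1 : ℝ) ≤ T := by linarith
    exact_mod_cast this
  have hTp : (0 : ℝ) < T := by linarith
  have hBp : (0 : ℝ) < B := by
    have h1 : 0 < 64 * (R + 3) ^ 2 * (β0 + b + 512 * (2 * R + 5) + P.K + 10) := by positivity
    exact_mod_cast h1.trans_le hB
  set al : ℝ := 1 - 1 / (Q : ℝ) ^ 2 with hal
  have hal0 : 0 ≤ al := by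
    rw [hal, sub_nonneg, div_le_one (by positivity)]
    exact one_le_pow₀ hQ1
  set be : ℝ := 1 + 1 / (T : ℝ) with hbe
  have hbe0 : 0 < be := by positivity
  set U0 : ℝ := 2 * (B : ℝ) ^ R with hU0d
  have hU0 : 0 < U0 := mul_pos two_pos (pow_pos hBp _)
  let Pd : NetS R B → ℝ := fun N' => ((prs N'.S N'.F).ncard : ℝ)
  let Ph : ℕ → NetS R B → ℝ := fun τ N' =>
    al ^ (T - τ) * Real.exp 1 * Pd N' + be ^ (T - τ) / (be ^ T * U0) * Ups B0 N'.t
  have hUp : ∀ t : Lab R B → ℕ, 0 ≤ Ups B0 t := fun t =>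
    Finset.sum_nonneg fun g _ => add_nonneg (pow_nonneg (by linarith) _) (pow_nonneg (by linarith) _)
  -- small costs
  have hUle : ∀ τ ≤ T, ∀ N' : NetS R B, Ph τ N' ≤ 2 → Ups B0 N'.t < B0 ^ (b - 511) := by
    intro τ hτ N' h
    have h1 : 0 ≤ al ^ (T - τ) * Real.exp 1 * Pd N' :=
      mul_nonneg (mul_nonneg (pow_nonneg hal0 _) (Real.exp_pos _).le) (Nat.cast_nonneg _)
    have h2 : Ups B0 N'.t ≤ 6 * U0 := sched_U hT1 hτ hU0 h1 h
    have h3 : 6 * U0 = 12 * (B : ℝ) ^ R := by rw [hU0d]; ring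
    linarith
  have hgood : ∀ τ ≤ T, ∀ N' : NetS R B, Ph τ N' ≤ 2 → (∀ g, N'.t g + 512 ≤ b) ∧ FewBad P N' (β0 + b) := by
    intro τ hτ N' h
    have h1 := hUle τ hτ N' h
    refine ⟨fun g => ?_, few_of P N' hβ fun g => ?_⟩
    · have := (lt_of_Ups hB0 N'.t h1 g).1
      omega
    · have := (lt_of_Ups hB0 N'.t h1 g).2
      omega
  -- the chain
  have key : ∀ τ ≤ T, ∃ N' : NetS R B, Ok P N' ∧ (U L N'.S → U L N.S) ∧ (∀ d, d ∉ N'.F → N'.S.len d ≤ 8 * m) ∧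
      N'.S.num N'.Fᶜ ≤ N.S.num N.Fᶜ + τ * (1024 * kap P b) ∧ Ph τ N' ≤ 2 := by
    intro τ
    induction τ with
    | zero =>
      intro _
      refine ⟨N, hN, id, hl, by omega, ?_⟩
      have h1 : al ^ T * Real.exp 1 * Pd N ≤ 1 := by
        refine sched_base hQ0 hT ?_ (Nat.cast_nonneg _)
        have h2 := prs_le N.S N.F
        have h3 : N.S.num N.Fᶜ ≤ W := by omega
        have h4 : (prs N.S N.F).ncard ≤ W * W := h2.trans (Nat.mul_le_mul h3 h3)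
        show ((prs N.S N.F).ncard : ℝ) ≤ (W : ℝ) * W
        exact_mod_cast h4
      have h2 : be ^ T / (be ^ T * U0) * Ups B0 N.t = 1 := by
        rw [Ups_zero ht, ← hU0d]
        field_simp
      show al ^ (T - 0) * Real.exp 1 * Pd N + be ^ (T - 0) / (be ^ T * U0) * Ups B0 N.t ≤ 2
      rw [Nat.sub_zero, h2]
      linarith
    | succ τ ih =>
      intro hτ
      obtain ⟨N1, h1, h2, h3, h4, h5⟩ := ih (by omega)
      obtain ⟨g1, g2⟩ := hgood τ (by omega) N1 h5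
      have hnum : N1.S.num N1.Fᶜ ≤ W := by
        have : τ * (1024 * kap P b) ≤ T * (1024 * kap P b) := Nat.mul_le_mul_right _ (by omega)
        omega
      have ha : 0 ≤ al ^ (T - (τ + 1)) * Real.exp 1 := mul_nonneg (pow_nonneg hal0 _) (Real.exp_pos _).le
      have hb' : 0 ≤ be ^ (T - (τ + 1)) / (be ^ T * U0) :=
        div_nonneg (pow_nonneg hbe0.le _) (mul_nonneg (pow_nonneg hbe0.le _) hU0.le)
      obtain ⟨N2, k1, k2, k3, k4, k5⟩ := step hR P N1 h1 b (β0 + b) M g1 g2 hM2 hM hK hB B0 hB0 m W Q hm hΘ h3 hnum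
        hQ L hL _ _ ha hb'
      refine ⟨N2, k1, fun h => h2 (k2 h), k3, ?_, ?_⟩
      · rw [Nat.succ_mul]; omega
      · have e1 : T - τ = (T - (τ + 1)) + 1 := by omega
        have h6 : (1 + del P b M m Q B0) ≤ be := by
          rw [hbe]
          have : del P b M m Q B0 ≤ 1 / T := by
            rw [le_div_iff₀ hTp]; linarith
          linarith
        have h7 : be ^ (T - (τ + 1)) / (be ^ T * U0) * ((1 + del P b M m Q B0) * Ups B0 N1.t) ≤
            be ^ (T - τ) / (be ^ T * U0) * Ups B0 N1.t := by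
          have h8 : (1 + del P b M m Q B0) * Ups B0 N1.t ≤ be * Ups B0 N1.t :=
            mul_le_mul_of_nonneg_right h6 (hUp _)
          refine (mul_le_mul_of_nonneg_left h8 hb').trans (le_of_eq ?_)
          have e2 : be ^ (T - τ) = be ^ (T - (τ + 1)) * be := by rw [e1, pow_succ]
          rw [e2]
          ring
        have h8 : al ^ (T - (τ + 1)) * Real.exp 1 * ((1 - 1 / (Q : ℝ) ^ 2) * ((prs N1.S N1.F).ncard : ℝ)) =
            al ^ (T - τ) * Real.exp 1 * Pd N1 := by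
          have e2 : al ^ (T - τ) = al ^ (T - (τ + 1)) * al := by rw [e1, pow_succ]
          rw [← hal, e2]
          show _ = al ^ (T - (τ + 1)) * al * Real.exp 1 * ((prs N1.S N1.F).ncard : ℝ)
          ring
        have h9 : Ph (τ + 1) N2 ≤ Ph τ N1 := by
          show al ^ (T - (τ + 1)) * Real.exp 1 * ((prs N2.S N2.F).ncard : ℝ) +
            be ^ (T - (τ + 1)) / (be ^ T * U0) * Ups B0 N2.t ≤
            al ^ (T - τ) * Real.exp 1 * Pd N1 + be ^ (T - τ) / (be ^ T * U0) * Ups B0 N1.t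
          linarith
        linarith
  obtain ⟨N', h1, h2, h3, _, h5⟩ := key T le_rfl
  obtain ⟨g1, g2⟩ := hgood T le_rfl N' h5
  refine ⟨N', h1, h2, h3, ?_, fun g => by have := g1 g; omega, g2⟩
  have h6 : Ph T N' = Real.exp 1 * Pd N' + 1 / (be ^ T * U0) * Ups B0 N'.t := by
    show al ^ (T - T) * Real.exp 1 * Pd N' + be ^ (T - T) / (be ^ T * U0) * Ups B0 N'.t = _
    rw [Nat.sub_self, pow_zero, pow_zero, one_mul]
  rw [h6] at h5
  have h7 : 0 ≤ 1 / (be ^ T * U0) * Ups B0 N'.t :=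
    mul_nonneg (div_nonneg zero_le_one (mul_nonneg (pow_nonneg hbe0.le _) hU0.le)) (hUp _)
  have h8 : 2 < Real.exp 1 := lt_trans (by norm_num) Real.exp_one_gt_d9
  have h9 : 0 ≤ Pd N' := Nat.cast_nonneg _
  have h10 : Pd N' < 1 := by nlinarith
  have h11 : (prs N'.S N'.F).ncard = 0 := by
    have h12 : ((prs N'.S N'.F).ncard : ℝ) < 1 := h10
    have : (prs N'.S N'.F).ncard < 1 := by exact_mod_cast h12
    omega
  exact (Set.ncard_eq_zero (Set.toFinite _)).mp h11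

end Pool.Agent.GW
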