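import Mathlib

/-!
# GW/Sched (helper13): the schedule lemma without probability

Two potentials of a state: `Pd` (pending corners) and `U` (costs).  In every state with `U s ≤ 6 U0` there is a finite
nonempty family of moves (pairs of bins) such that on average `Pd` drops by the factor `1 - 1 / N` and `U` grows at
most by the factor `1 + 1 / T`.  If `T ≥ N (log Pd0 + 1)` then after `T` moves `Pd < 1`, and `U ≤ 6 U0` at all times.
Also: first fit bins (`bins`).
-/

set_option autoImplicit false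

namespace Pool.Agent.GW

open Finset

/-- the mixed potential has a non increasing choice -/
theorem exists_choice {I : Type*} [Fintype I] [Nonempty I] (f g : I → ℝ) {x y a b : ℝ} (ha : 0 ≤ a) (hb : 0 ≤ b)
    (hf : ∑ i, f i ≤ Fintype.card I * x) (hg : ∑ i, g i ≤ Fintype.card I * y) :
    ∃ i, a * f i + b * g i ≤ a * x + b * y := by
  by_contra hcon
  push Not at hcon
  have h1 : ∑ _i : I, (a * x + b * y) < ∑ i, (a * f i + b * g i) :=
    Finset.sum_lt_sum_of_nonempty univ_nonempty fun i _ => hcon i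
  rw [Finset.sum_const, nsmul_eq_mul, Finset.card_univ, Finset.sum_add_distrib, ← Finset.mul_sum, ← Finset.mul_sum]
    at h1
  have h2 := mul_le_mul_of_nonneg_left hf ha
  have h3 := mul_le_mul_of_nonneg_left hg hb
  nlinarith

/-- **SCHEDULE LEMMA** -/
theorem schedule {St : Type*} (Good : St → Prop) (Mv : St → St → Prop) (Pd U : St → ℝ) {U0 N : ℝ} {T : ℕ}
    (hT : 1 ≤ T) (hN : 1 ≤ N) (hPd : ∀ s, Good s → 0 ≤ Pd s) (hU : ∀ s, Good s → 0 ≤ U s) (hU0 : 0 < U0)
    (hstep : ∀ s, Good s → U s ≤ 6 * U0 → ∃ (I : Type) (_ : Fintype I) (_ : Nonempty I) (f : I → St),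
      (∀ i, Mv s (f i) ∧ Good (f i)) ∧ ∑ i, Pd (f i) ≤ Fintype.card I * ((1 - 1 / N) * Pd s) ∧
        ∑ i, U (f i) ≤ Fintype.card I * ((1 + 1 / T) * U s))
    (s0 : St) (h0 : Good s0) (hU1 : U s0 ≤ U0) (hPT : N * (Real.log (max (Pd s0) 1) + 1) ≤ T) :
    ∃ c : ℕ → St, c 0 = s0 ∧ (∀ t < T, Mv (c t) (c (t + 1))) ∧ (∀ t ≤ T, Good (c t) ∧ U (c t) ≤ 6 * U0) ∧
      Pd (c T) < 1 := by
  classical
  set M : ℝ := max (Pd s0) 1 with hM
  have hM1 : 1 ≤ M := le_max_right _ _
  have hMp : 0 < M := by linarith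
  have hTp : (0 : ℝ) < T := by exact_mod_cast hT
  have hNp : 0 < N := by linarith
  -- factors
  set al : ℝ := 1 - 1 / N with hal
  have hal0 : 0 ≤ al := by
    rw [hal, sub_nonneg, div_le_one hNp]
    exact hN
  have hE3 : Real.exp 1 < 3 := lt_trans Real.exp_one_lt_d9 (by norm_num)
  have hpw : ∀ t ≤ T, (1 + 1 / (T : ℝ)) ^ t ≤ 3 := by
    intro t ht
    have h1 : (1 + 1 / (T : ℝ)) ^ t ≤ (1 + 1 / (T : ℝ)) ^ T :=
      pow_le_pow_right₀ (by have : (0:ℝ) ≤ 1 / T := by positivity
                            linarith) ht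
    have h2 : (1 + 1 / (T : ℝ)) ≤ Real.exp (1 / T) := by
      have := Real.add_one_le_exp (1 / (T : ℝ))
      linarith
    have h3 : (1 + 1 / (T : ℝ)) ^ T ≤ Real.exp (1 / T) ^ T :=
      pow_le_pow_left₀ (by positivity) h2 T
    rw [← Real.exp_nat_mul] at h3
    have h4 : (T : ℝ) * (1 / T) = 1 := by field_simp
    rw [h4] at h3
    linarith
  -- the potential at time `t`: `Pd / M * al ^ (T - t) + U / (2 U0) ...`
  -- we keep: `al ^ (T - t) * Pd s * K + b ^ (T - t) * U s / U0 ≤ const`
  set be : ℝ := 1 + 1 / (T : ℝ) with hbe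
  have hbe1 : 1 ≤ be := by
    have : (0 : ℝ) ≤ 1 / T := by positivity
    rw [hbe]; linarith
  have hbe0 : 0 < be := by linarith
  -- constant `K` in front of the pending corners
  have hexp : al ^ T * M * Real.exp 1 ≤ 1 := by
    have h1 : al ≤ Real.exp (-(1 / N)) := by
      have := Real.add_one_le_exp (-(1 / N))
      rw [hal]; linarith
    have h2 : al ^ T ≤ Real.exp (-(1 / N)) ^ T := pow_le_pow_left₀ hal0 h1 T
    rw [← Real.exp_nat_mul] at h2
    have h3 : (T : ℝ) * -(1 / N) ≤ -(Real.log M + 1) := by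
      have h4 : Real.log M + 1 ≤ T / N := by
        rw [le_div_iff₀ hNp]
        linarith
      have h5 : (T : ℝ) * -(1 / N) = -(T / N) := by ring
      rw [h5]; linarith
    have h6 : al ^ T ≤ Real.exp (-(Real.log M + 1)) := h2.trans (Real.exp_le_exp.2 h3)
    have h7 : Real.exp (-(Real.log M + 1)) * M * Real.exp 1 = 1 := by
      have : Real.exp (-(Real.log M + 1)) = Real.exp (-Real.log M) * Real.exp (-1) := by
        rw [← Real.exp_add]; congr 1; ring
      rw [this, Real.exp_neg, Real.exp_log hMp, Real.exp_neg]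
      field_simp
    have h8 : al ^ T * M * Real.exp 1 ≤ Real.exp (-(Real.log M + 1)) * M * Real.exp 1 := by
      gcongr
    linarith
  -- mixed potential
  let Ph : ℕ → St → ℝ := fun t s => (al ^ (T - t) * Real.exp 1) * Pd s + (be ^ (T - t) / (be ^ T * U0)) * U s
  have hPh0 : Ph 0 s0 ≤ 2 := by
    have h1 : (al ^ (T - 0) * Real.exp 1) * Pd s0 ≤ 1 := by
      have : (al ^ (T - 0) * Real.exp 1) * Pd s0 ≤ (al ^ (T - 0) * Real.exp 1) * M := by
        have h9 : Pd s0 ≤ M := le_max_left _ _
        have h10 : 0 ≤ al ^ (T - 0) * Real.exp 1 := by positivity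
        exact mul_le_mul_of_nonneg_left h9 h10
      have h11 : (al ^ (T - 0) * Real.exp 1) * M = al ^ T * M * Real.exp 1 := by
        rw [Nat.sub_zero]; ring
      linarith
    have h2 : (be ^ (T - 0) / (be ^ T * U0)) * U s0 ≤ 1 := by
      rw [Nat.sub_zero]
      have h12 : be ^ T / (be ^ T * U0) = 1 / U0 := by
        have : be ^ T ≠ 0 := by positivity
        field_simp
      rw [h12, one_div, inv_mul_le_iff₀ hU0, mul_one]
      exact hU1
    show (al ^ (T - 0) * Real.exp 1) * Pd s0 + (be ^ (T - 0) / (be ^ T * U0)) * U s0 ≤ 2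
    linarith
  -- consequences of `Ph t s ≤ 2`
  have hUle : ∀ t ≤ T, ∀ s, Good s → Ph t s ≤ 2 → U s ≤ 6 * U0 := by
    intro t ht s hs h
    have h1 : 0 ≤ (al ^ (T - t) * Real.exp 1) * Pd s := by
      have := hPd s hs
      positivity
    have h2 : (be ^ (T - t) / (be ^ T * U0)) * U s ≤ 2 := by
      have : Ph t s = (al ^ (T - t) * Real.exp 1) * Pd s + (be ^ (T - t) / (be ^ T * U0)) * U s := rfl
      linarith
    have h3 : be ^ T = be ^ (T - t) * be ^ t := by
      rw [← pow_add]; congr 1; omega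
    have h4 : be ^ (T - t) / (be ^ T * U0) = 1 / (be ^ t * U0) := by
      rw [h3]
      have : be ^ (T - t) ≠ 0 := by positivity
      field_simp
    rw [h4, one_div, inv_mul_le_iff₀ (by positivity)] at h2
    have h5 := hpw t ht
    have h6 : be ^ t * U0 * 2 ≤ 3 * U0 * 2 := by
      have : be ^ t * U0 ≤ 3 * U0 := mul_le_mul_of_nonneg_right h5 hU0.le
      linarith
    linarith
  -- one step
  have hone : ∀ t < T, ∀ s, Good s → Ph t s ≤ 2 → ∃ s', Mv s s' ∧ Good s' ∧ Ph (t + 1) s' ≤ 2 := by
    intro t ht s hs h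
    obtain ⟨I, i1, i2, f, hf, hfP, hfU⟩ := hstep s hs (hUle t ht.le s hs h)
    have ha : 0 ≤ al ^ (T - (t + 1)) * Real.exp 1 := by positivity
    have hb : 0 ≤ be ^ (T - (t + 1)) / (be ^ T * U0) := by positivity
    obtain ⟨i, hi⟩ := exists_choice (fun i => Pd (f i)) (fun i => U (f i)) ha hb hfP hfU
    refine ⟨f i, (hf i).1, (hf i).2, ?_⟩
    have e1 : T - t = (T - (t + 1)) + 1 := by omega
    have e2 : al ^ (T - (t + 1)) * Real.exp 1 * (al * Pd s) = (al ^ (T - t) * Real.exp 1) * Pd s := by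
      rw [e1, pow_succ]; ring
    have e3 : be ^ (T - (t + 1)) / (be ^ T * U0) * (be * U s) = (be ^ (T - t) / (be ^ T * U0)) * U s := by
      rw [e1, pow_succ]; ring
    have h5 : Ph (t + 1) (f i) ≤ Ph t s := by
      show (al ^ (T - (t + 1)) * Real.exp 1) * Pd (f i) + (be ^ (T - (t + 1)) / (be ^ T * U0)) * U (f i) ≤
        (al ^ (T - t) * Real.exp 1) * Pd s + (be ^ (T - t) / (be ^ T * U0)) * U s
      rw [← e2, ← e3]
      exact hi
    linarith
  -- the chain
  let R : ℕ → {s : St // Good s} → {s : St // Good s} := fun t s =>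
    if h : t < T ∧ Ph t s.1 ≤ 2 then
      ⟨(hone t h.1 s.1 s.2 h.2).choose, (hone t h.1 s.1 s.2 h.2).choose_spec.2.1⟩ else s
  let c : ℕ → {s : St // Good s} := fun t => Nat.rec ⟨s0, h0⟩ (fun t s => R t s) t
  have hc0 : (c 0).1 = s0 := rfl
  have hcs : ∀ t, c (t + 1) = R t (c t) := fun t => rfl
  have hPhc : ∀ t ≤ T, Ph t (c t).1 ≤ 2 := by
    intro t
    induction t with
    | zero => intro _; exact hPh0
    | succ t ih =>
      intro ht
      have h1 := ih (by omega)
      rw [hcs]
      show Ph (t + 1) (R t (c t)).1 ≤ 2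
      have h2 : t < T ∧ Ph t (c t).1 ≤ 2 := ⟨by omega, h1⟩
      have h3 : R t (c t) = ⟨(hone t h2.1 (c t).1 (c t).2 h2.2).choose,
          (hone t h2.1 (c t).1 (c t).2 h2.2).choose_spec.2.1⟩ := dif_pos h2
      rw [h3]
      exact (hone t h2.1 (c t).1 (c t).2 h2.2).choose_spec.2.2
  refine ⟨fun t => (c t).1, hc0, ?_, ?_, ?_⟩
  · intro t ht
    have h1 := hPhc t ht.le
    have h2 : t < T ∧ Ph t (c t).1 ≤ 2 := ⟨ht, h1⟩
    show Mv (c t).1 (c (t + 1)).1
    rw [hcs]
    have h3 : R t (c t) = ⟨(hone t h2.1 (c t).1 (c t).2 h2.2).choose,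
        (hone t h2.1 (c t).1 (c t).2 h2.2).choose_spec.2.1⟩ := dif_pos h2
    rw [h3]
    exact (hone t h2.1 (c t).1 (c t).2 h2.2).choose_spec.1
  · intro t ht
    exact ⟨(c t).2, hUle t ht _ (c t).2 (hPhc t ht)⟩
  · have h1 := hPhc T le_rfl
    have h2 : Ph T (c T).1 = Real.exp 1 * Pd (c T).1 + (1 / (be ^ T * U0)) * U (c T).1 := by
      show (al ^ (T - T) * Real.exp 1) * Pd (c T).1 + (be ^ (T - T) / (be ^ T * U0)) * U (c T).1 = _
      rw [Nat.sub_self, pow_zero, pow_zero, one_mul]
    rw [h2] at h1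
    have h3 : 0 ≤ (1 / (be ^ T * U0)) * U (c T).1 := by
      have := hU (c T).1 (c T).2
      positivity
    have h4 : 2 < Real.exp 1 := lt_trans (by norm_num) Real.exp_one_gt_d9
    have h5 := hPd (c T).1 (c T).2
    show Pd (c T).1 < 1
    nlinarith

/-- **FIRST FIT**: letters of weight at most `h` in a row of total weight `W` are divided into at most `2 W / h + 1`
consecutive bins of weight at most `2 h`: greedy form on lists. -/
theorem bins {α : Type*} (w : α → ℝ) {h : ℝ} (hh : 0 < h) (hw : ∀ x, 0 ≤ w x) :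
    ∀ l : List α, (∀ x ∈ l, w x ≤ h) → ∃ B : List (List α), B.flatten = l ∧
      (∀ b ∈ B, (b.map w).sum ≤ 2 * h) ∧ (B.length : ℝ) ≤ (l.map w).sum / h + 1 ∧
        ((B.length : ℝ) ≤ (l.map w).sum / h ∨ ∃ b B', B = b :: B' ∧ (b.map w).sum ≤ h ∧
          (B'.length : ℝ) * h + (b.map w).sum ≤ (l.map w).sum) := by
  intro l
  induction l with
  | nil => intro _; exact ⟨[], rfl, by simp, by simp, Or.inl (by simp)⟩
  | cons x l ih =>
    intro hx
    obtain ⟨B, hB1, hB2, hB3, hB4⟩ := ih fun y hy => hx y (List.mem_cons_of_mem x hy)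
    have hxx := hx x List.mem_cons_self
    have hw0 := hw x
    rcases hB4 with h1 | ⟨b, B', h1, h2, h3⟩
    · refine ⟨[x] :: B, by simp [hB1], ?_, ?_, Or.inr ⟨[x], B, rfl, by simpa using hxx, ?_⟩⟩
      · intro b hb
        rcases List.mem_cons.1 hb with rfl | hb
        · simp only [List.map_cons, List.map_nil, List.sum_cons, List.sum_nil]
          linarith
        · exact hB2 b hb
      · rw [List.length_cons, List.map_cons, List.sum_cons, add_div]
        push_cast
        have : 0 ≤ w x / h := by positivity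
        linarith
      · simp only [List.map_cons, List.map_nil, List.sum_cons, List.sum_nil]
        rw [le_div_iff₀ hh] at h1
        linarith
    · by_cases hfit : w x + (b.map w).sum ≤ h
      · refine ⟨(x :: b) :: B', by rw [← hB1, h1]; simp, ?_, ?_, Or.inr ⟨x :: b, B', rfl, ?_, ?_⟩⟩
        · intro b' hb'
          rcases List.mem_cons.1 hb' with rfl | hb'
          · rw [List.map_cons, List.sum_cons]; linarith
          · exact hB2 b' (by rw [h1]; exact List.mem_cons_of_mem _ hb')
        · rw [h1] at hB3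
          rw [List.length_cons] at hB3 ⊢
          rw [List.map_cons, List.sum_cons, add_div]
          have : 0 ≤ w x / h := by positivity
          linarith
        · rw [List.map_cons, List.sum_cons]; exact hfit
        · rw [List.map_cons, List.sum_cons, List.map_cons, List.sum_cons]; linarith
      · push Not at hfit
        -- the bin `x :: b` has weight between `h` and `2 h`: full
        refine ⟨(x :: b) :: B', by rw [← hB1, h1]; simp, ?_, ?_, Or.inl ?_⟩
        · intro b' hb'
          rcases List.mem_cons.1 hb' with rfl | hb'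
          · rw [List.map_cons, List.sum_cons]; linarith
          · exact hB2 b' (by rw [h1]; exact List.mem_cons_of_mem _ hb')
        · rw [h1] at hB3
          rw [List.length_cons] at hB3 ⊢
          rw [List.map_cons, List.sum_cons, add_div]
          have : 0 ≤ w x / h := by positivity
          linarith
        · rw [le_div_iff₀ hh, List.length_cons, List.map_cons, List.sum_cons]
          push_cast
          nlinarith

end Pool.Agent.GW
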