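import Pool.Agent.GW.GenDef

/-!
# GW/Sector: the sector lemma (helper59)

`sector_lev`: the number of live tree letters between the depths `j` and `j - 1` is at most twice the number of live letters of `N`.
`sector`: summed over the levels.  `sector_out`: if no letter of `N` outside of `W` leaves `M` then no letter outside of `W` leaves `M`.
-/

set_option autoImplicit false

namespace Pool.Agent.GW

open Equiv Finset Pool.Agent.SWP

/-- walls (the part which is used in the sector lemma). -/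
structure WallA (S : Sf) (N : Set S.D) (del : S.D → ℕ) (W : Set S.D) : Prop where
  cl : ∀ d ∈ W, S.a d ∈ W
  two : ∀ u ∈ W, u ∉ N → del u = del (S.a u) + 1 → ∃ w ∈ W, w ≠ u ∧ S.vx u w

theorem Wl.wallA {S : Sf} {N : Set S.D} {δ : S.D → ℕ} {W : Set S.D} (h : Wl S N δ W) : WallA S N δ W where
  cl := h.cl
  two := fun u hu h1 h2 => h.two u ⟨h1, h2⟩ hu

section

variable {S : Sf} {N : Set S.D} {del : S.D → ℕ} {ρ : ℕ} {W M : Set S.D}

theorem Fo.cl' (h : Fo S N del ρ) {d : S.D} : S.a d ∈ N ↔ d ∈ N :=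
  ⟨fun hd => by rw [← S.aa d]; exact h.cl _ hd, h.cl d⟩

theorem WallA.cl' (h : WallA S N del W) {d : S.D} : S.a d ∈ W ↔ d ∈ W :=
  ⟨fun hd => by rw [← S.aa d]; exact h.cl _ hd, h.cl d⟩

theorem Fo.vx (h : Fo S N del ρ) {d e : S.D} (hde : S.vx d e) : del d = del e := by
  obtain ⟨n, hn⟩ := hde.exists_nat_pow_eq
  rw [← hn]
  clear hn
  induction n with
  | zero => rfl
  | succ n ih =>
    rw [pow_succ', Perm.mul_apply, Perm.mul_apply, h.vtx]
    exact ih

/-- indicator -/
noncomputable def fI {α : Type} (X : Set α) (x : α) : ℕ := by classical exact if x ∈ X then 1 else 0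

theorem fI_pos {α : Type} {X : Set α} {x : α} (h : x ∈ X) : fI X x = 1 := by unfold fI; rw [if_pos h]

theorem fI_neg {α : Type} {X : Set α} {x : α} (h : x ∉ X) : fI X x = 0 := by unfold fI; rw [if_neg h]

theorem fI_le {α : Type} (X : Set α) (x : α) : fI X x ≤ 1 := by
  by_cases h : x ∈ X
  · rw [fI_pos h]
  · rw [fI_neg h]; omega

theorem fI_sum {α : Type} [Fintype α] (X : Set α) : ∑ x, fI X x = X.ncard := by
  classical
  rw [← Set.coe_toFinset X, Set.ncard_coe_finset, card_eq_sum_ones, ← Finset.sum_filter_add_sum_filter_not univ (fun x => x ∈ X)]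
  have h1 : (univ.filter fun x => x ∉ X).sum (fI (↑X.toFinset : Set α)) = 0 := by
    refine sum_eq_zero fun x hx => fI_neg ?_
    simpa using (mem_filter.1 hx).2
  have h2 : univ.filter (fun x => x ∈ X) = X.toFinset := by ext x; simp
  rw [h1, h2, add_zero]
  refine sum_congr rfl fun x hx => fI_pos ?_
  simpa using hx

open Classical in
/-- the letters at a vertex -/
noncomputable def orbF (S : Sf) (d : S.D) : Finset S.D := univ.filter fun e => S.vx d e

theorem mem_orbF {d e : S.D} : e ∈ orbF S d ↔ S.vx d e := by simp [orbF]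

/-- sums over a vertex are invariant under rotation. -/
theorem orb_sum (d : S.D) (f : S.D → ℕ) : ∑ e ∈ orbF S d, f (S.r (S.a e)) = ∑ e ∈ orbF S d, f e := by
  classical
  refine sum_bij (fun e _ => S.r (S.a e)) ?_ ?_ ?_ ?_
  · intro e he
    rw [mem_orbF] at he ⊢
    exact he.trans ⟨1, by simp⟩
  · intro e _ e' _ h
    exact S.a.injective (S.r.injective h)
  · intro e he
    rw [mem_orbF] at he
    refine ⟨S.a (S.r.symm e), ?_, by simp [S.aa]⟩
    rw [mem_orbF]
    refine he.trans ⟨-1, ?_⟩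
    rw [zpow_neg_one, Perm.inv_eq_iff_eq]
    simp [S.aa]
  · intro e _
    rfl

theorem liv_bal (hW : ∀ d ∈ W, S.a d ∈ W) (d : S.D) :
    fI (S.liv W M) d + fI M (S.a d) = fI (S.liv W M) (S.a d) + fI M d := by
  have hW' : S.a d ∈ W ↔ d ∈ W := ⟨fun hd => by rw [← S.aa d]; exact hW _ hd, hW d⟩
  have h1 : d ∈ S.liv W M ↔ d ∈ M ∧ (d ∈ W ∨ S.a d ∉ M) := Iff.rfl
  have h2 : S.a d ∈ S.liv W M ↔ S.a d ∈ M ∧ (d ∈ W ∨ d ∉ M) := by
    show S.a d ∈ M ∧ (S.a d ∈ W ∨ S.a (S.a d) ∉ M) ↔ _
    rw [hW', S.aa]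
  by_cases hd : d ∈ M <;> by_cases ha : S.a d ∈ M <;> by_cases hw : d ∈ W
  · rw [fI_pos (h1.2 ⟨hd, Or.inl hw⟩), fI_pos (h2.2 ⟨ha, Or.inl hw⟩), fI_pos hd, fI_pos ha]
  · rw [fI_neg (fun h => (h1.1 h).2.elim hw (fun h => h ha)), fI_neg (fun h => (h2.1 h).2.elim hw (fun h => h hd)),
      fI_pos hd, fI_pos ha]
  · rw [fI_pos (h1.2 ⟨hd, Or.inl hw⟩), fI_neg (fun h => ha (h2.1 h).1), fI_pos hd, fI_neg ha]
  · rw [fI_pos (h1.2 ⟨hd, Or.inr ha⟩), fI_neg (fun h => ha (h2.1 h).1), fI_pos hd, fI_neg ha]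
  · rw [fI_neg (fun h => hd (h1.1 h).1), fI_pos (h2.2 ⟨ha, Or.inl hw⟩), fI_neg hd, fI_pos ha]
  · rw [fI_neg (fun h => hd (h1.1 h).1), fI_pos (h2.2 ⟨ha, Or.inr hd⟩), fI_neg hd, fI_pos ha]
  · rw [fI_neg (fun h => hd (h1.1 h).1), fI_neg (fun h => ha (h2.1 h).1), fI_neg hd, fI_neg ha]
  · rw [fI_neg (fun h => hd (h1.1 h).1), fI_neg (fun h => ha (h2.1 h).1), fI_neg hd, fI_neg ha]

/-- at every vertex the numbers of live letters on both sides are equal. -/
theorem orb_balance (hW : ∀ d ∈ W, S.a d ∈ W) (hM : S.Inv M) (d : S.D) :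
    ∑ e ∈ orbF S d, fI (S.liv W M) e = ∑ e ∈ orbF S d, fI (S.liv W M) (S.a e) := by
  have h1 : ∑ e ∈ orbF S d, (fI (S.liv W M) e + fI M (S.a e)) = ∑ e ∈ orbF S d, (fI (S.liv W M) (S.a e) + fI M e) :=
    sum_congr rfl fun e _ => liv_bal hW e
  have h2 : ∑ e ∈ orbF S d, fI M (S.a e) = ∑ e ∈ orbF S d, fI M e := by
    rw [← orb_sum d (fI M)]
    refine sum_congr rfl fun e _ => ?_
    by_cases h : S.a e ∈ M
    · rw [fI_pos h, fI_pos ((hM _).2 h)]
    · rw [fI_neg h, fI_neg (fun h' => h ((hM _).1 h'))]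
  rw [sum_add_distrib, sum_add_distrib, h2] at h1
  omega

/-- the inequality at one vertex. -/
theorem orb_up (hW : WallA S N del W) (hM : S.Inv M) {u : S.D} (hu : u ∉ N) (hup : del u = del (S.a u) + 1) :
    fI (S.liv W M) u + fI (S.liv W M) (S.a u) ≤ ∑ e ∈ orbF S u, fI (S.liv W M) e := by
  classical
  have hmem : u ∈ orbF S u := mem_orbF.2 (Perm.SameCycle.refl _ _)
  by_cases h1 : u ∈ S.liv W M
  · by_cases h2 : S.a u ∈ S.liv W M
    · -- both are live
      have huW : u ∈ W := h1.2.resolve_right fun h => h h2.1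
      rw [fI_pos h1, fI_pos h2]
      have hex : ∃ e ∈ orbF S u, e ≠ u ∧ e ∈ S.liv W M := by
        by_contra hno
        push Not at hno
        have hall : ∀ n : ℕ, ((S.r * S.a) ^ n) u ∈ M := by
          intro n
          induction n with
          | zero => exact h1.1
          | succ n ih =>
            rw [pow_succ', Perm.mul_apply, Perm.mul_apply]
            refine (hM _).2 ?_
            by_cases he : ((S.r * S.a) ^ n) u = u
            · rw [he]; exact h2.1
            · have h3 := hno _ (mem_orbF.2 ⟨n, by simp⟩) he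
              by_contra h4
              exact h3 ⟨ih, Or.inr h4⟩
        obtain ⟨w, hwW, hwu, hvx⟩ := hW.two u huW hu hup
        obtain ⟨n, hn⟩ := hvx.exists_nat_pow_eq
        refine hno w (mem_orbF.2 hvx) hwu ⟨?_, Or.inl hwW⟩
        rw [← hn]
        exact hall n
      obtain ⟨e, he, heu, hel⟩ := hex
      calc 1 + 1 = ∑ x ∈ {u, e}, fI (S.liv W M) x := by
            rw [sum_pair heu.symm, fI_pos h1, fI_pos hel]
        _ ≤ _ := sum_le_sum_of_subset (by
            intro x hx
            rcases mem_insert.1 hx with rfl | hx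
            · exact hmem
            · rw [mem_singleton.1 hx]; exact he)
    · rw [fI_pos h1, fI_neg h2]
      calc 1 + 0 = fI (S.liv W M) u := by rw [fI_pos h1]
        _ ≤ _ := single_le_sum (f := fI (S.liv W M)) (fun _ _ => Nat.zero_le _) hmem
  · rw [fI_neg h1]
    by_cases h2 : S.a u ∈ S.liv W M
    · rw [orb_balance hW.cl hM u]
      calc 0 + fI (S.liv W M) (S.a u) = fI (S.liv W M) (S.a u) := by omega
        _ ≤ _ := single_le_sum (f := fun e => fI (S.liv W M) (S.a e)) (fun _ _ => Nat.zero_le _) hmem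
    · rw [fI_neg h2]
      omega

open Classical in
/-- up-letters of depth `j` -/
noncomputable def upF (S : Sf) (N : Set S.D) (del : S.D → ℕ) (j : ℕ) : Finset S.D :=
  univ.filter fun u => u ∉ N ∧ del u = del (S.a u) + 1 ∧ del u = j

/-- number of live tree letters of level `j`. -/
noncomputable def FF (S : Sf) (N : Set S.D) (del : S.D → ℕ) (W M : Set S.D) (j : ℕ) : ℕ :=
  ∑ u ∈ upF S N del j, (fI (S.liv W M) u + fI (S.liv W M) (S.a u))

open Classical in
/-- number of ends at depth `j` of live letters of `N`. -/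
noncomputable def GG (S : Sf) (N : Set S.D) (del : S.D → ℕ) (W M : Set S.D) (j : ℕ) : ℕ :=
  ∑ d ∈ univ.filter (fun d => d ∈ N ∧ del d = j), (fI (S.liv W M) d + fI (S.liv W M) (S.a d))

theorem FF_le (h : Fo S N del ρ) (hW : WallA S N del W) (hM : S.Inv M) (j : ℕ) :
    FF S N del W M j ≤ FF S N del W M (j + 1) + GG S N del W M j := by
  classical
  -- vertexwise
  have h1 : FF S N del W M j ≤ ∑ d ∈ univ.filter (fun d => del d = j), fI (S.liv W M) d := by
    calc FF S N del W M j ≤ ∑ u ∈ upF S N del j, ∑ e ∈ orbF S u, fI (S.liv W M) e := by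
          refine sum_le_sum fun u hu => ?_
          obtain ⟨_, hu1, hu2, _⟩ := mem_filter.1 hu
          exact orb_up hW hM hu1 hu2
      _ = ∑ e ∈ (upF S N del j).biUnion (orbF S), fI (S.liv W M) e := by
          rw [sum_biUnion]
          intro u hu v hv huv
          obtain ⟨_, hu1, hu2, _⟩ := mem_filter.1 hu
          obtain ⟨_, hv1, hv2, _⟩ := mem_filter.1 hv
          show Disjoint (orbF S u) (orbF S v)
          rw [disjoint_left]
          intro e he he'
          rw [mem_orbF] at he he'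
          exact huv (h.uniq u ⟨hu1, hu2⟩ v ⟨hv1, hv2⟩ (he.trans he'.symm))
      _ ≤ _ := by
          refine sum_le_sum_of_subset fun e he => ?_
          obtain ⟨u, hu, he2⟩ := mem_biUnion.1 he
          obtain ⟨_, _, _, hu3⟩ := mem_filter.1 hu
          rw [mem_orbF] at he2
          exact mem_filter.2 ⟨mem_univ _, by rw [← h.vx he2]; exact hu3⟩
  -- balance over the level
  have h2 : ∑ d ∈ univ.filter (fun d => del d = j), fI (S.liv W M) d =
      ∑ d ∈ univ.filter (fun d => del d = j), fI (S.liv W M) (S.a d) := by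
    have h3 : ∑ d ∈ univ.filter (fun d => del d = j), (fI (S.liv W M) d + fI M (S.a d)) =
        ∑ d ∈ univ.filter (fun d => del d = j), (fI (S.liv W M) (S.a d) + fI M d) :=
      sum_congr rfl fun e _ => liv_bal hW.cl e
    have h4 : ∑ d ∈ univ.filter (fun d => del d = j), fI M (S.a d) =
        ∑ d ∈ univ.filter (fun d => del d = j), fI M d := by
      refine sum_bij (fun e _ => S.r (S.a e)) ?_ ?_ ?_ ?_
      · intro e he
        exact mem_filter.2 ⟨mem_univ _, by rw [h.vtx]; exact (mem_filter.1 he).2⟩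
      · intro e _ e' _ hh
        exact S.a.injective (S.r.injective hh)
      · intro e he
        refine ⟨S.a (S.r.symm e), mem_filter.2 ⟨mem_univ _, ?_⟩, by simp [S.aa]⟩
        rw [← h.vtx]
        simpa [S.aa] using (mem_filter.1 he).2
      · intro e _
        by_cases hh : S.a e ∈ M
        · rw [fI_pos hh, fI_pos ((hM _).2 hh)]
        · rw [fI_neg hh, fI_neg (fun h' => hh ((hM _).1 h'))]
    rw [sum_add_distrib, sum_add_distrib, h4] at h3
    omega
  -- split of the letters of the level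
  have h5 : ∑ d ∈ univ.filter (fun d => del d = j), (fI (S.liv W M) d + fI (S.liv W M) (S.a d)) =
      FF S N del W M j + FF S N del W M (j + 1) + GG S N del W M j := by
    rw [← sum_filter_add_sum_filter_not (univ.filter (fun d => del d = j)) (fun d => d ∈ N)]
    have e1 : (univ.filter (fun d => del d = j)).filter (fun d => d ∈ N) = univ.filter (fun d => d ∈ N ∧ del d = j) := by
      ext d; simp only [mem_filter, mem_univ, true_and]; tauto
    rw [e1, ← sum_filter_add_sum_filter_not ((univ.filter (fun d => del d = j)).filter (fun d => d ∉ N))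
      (fun d => del d = del (S.a d) + 1)]
    have e2 : ((univ.filter (fun d => del d = j)).filter (fun d => d ∉ N)).filter (fun d => del d = del (S.a d) + 1) =
        upF S N del j := by
      ext d; simp only [upF, mem_filter, mem_univ, true_and]; tauto
    rw [e2]
    have e3 : ∑ d ∈ ((univ.filter (fun d => del d = j)).filter (fun d => d ∉ N)).filter (fun d => ¬ del d = del (S.a d) + 1),
        (fI (S.liv W M) d + fI (S.liv W M) (S.a d)) = FF S N del W M (j + 1) := by
      unfold FF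
      refine sum_bij (fun d _ => S.a d) ?_ ?_ ?_ ?_
      · intro d hd
        simp only [mem_filter, mem_univ, true_and] at hd
        obtain ⟨⟨hd1, hd2⟩, hd3⟩ := hd
        have hd4 := (h.tree d hd2).resolve_left hd3
        refine mem_filter.2 ⟨mem_univ _, fun hh => hd2 (h.cl'.1 hh), ?_, ?_⟩
        · rw [S.aa]; exact hd4
        · rw [hd4, hd1]
      · intro d _ d' _ hh
        exact S.a.injective hh
      · intro u hu
        obtain ⟨_, hu1, hu2, hu3⟩ := mem_filter.1 hu
        refine ⟨S.a u, ?_, S.aa u⟩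
        simp only [mem_filter, mem_univ, true_and, S.aa]
        refine ⟨⟨by omega, fun hh => hu1 (h.cl'.1 hh)⟩, by omega⟩
      · intro d _
        rw [S.aa]
        omega
    rw [e3]
    unfold FF GG
    omega
  rw [sum_add_distrib] at h5
  omega

theorem FF_zero (h : Fo S N del ρ) {j : ℕ} (hj : ρ < j) : FF S N del W M j = 0 := by
  classical
  unfold FF
  refine sum_eq_zero fun u hu => ?_
  obtain ⟨_, _, _, hu3⟩ := mem_filter.1 hu
  have := h.le u
  omega

theorem GG_sum (h : Fo S N del ρ) : ∑ j ∈ range (ρ + 1), GG S N del W M j = 2 * (S.liv W M ∩ N).ncard := by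
  classical
  have h1 : ∑ j ∈ range (ρ + 1), GG S N del W M j =
      ∑ d ∈ univ.filter (fun d => d ∈ N), (fI (S.liv W M) d + fI (S.liv W M) (S.a d)) := by
    unfold GG
    rw [← sum_fiberwise_of_maps_to (s := univ.filter (fun d => d ∈ N)) (t := range (ρ + 1)) (g := del)
      (fun d _ => mem_range.2 (Nat.lt_succ_of_le (h.le d)))]
    refine sum_congr rfl fun j _ => sum_congr ?_ fun _ _ => rfl
    ext d; simp only [mem_filter, mem_univ, true_and]
  have h2 : ∑ d ∈ univ.filter (fun d => d ∈ N), fI (S.liv W M) (S.a d) = ∑ d ∈ univ.filter (fun d => d ∈ N), fI (S.liv W M) d := by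
    refine sum_bij (fun e _ => S.a e) ?_ ?_ ?_ ?_
    · intro e he
      exact mem_filter.2 ⟨mem_univ _, h.cl _ (mem_filter.1 he).2⟩
    · intro e _ e' _ hh
      exact S.a.injective hh
    · intro e he
      exact ⟨S.a e, mem_filter.2 ⟨mem_univ _, h.cl _ (mem_filter.1 he).2⟩, S.aa e⟩
    · intro e _
      rfl
  have h3 : ∑ d ∈ univ.filter (fun d => d ∈ N), fI (S.liv W M) d = (S.liv W M ∩ N).ncard := by
    rw [← fI_sum, sum_filter]
    refine sum_congr rfl fun d _ => ?_
    by_cases hN : d ∈ N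
    · rw [if_pos hN]
      by_cases hl : d ∈ S.liv W M
      · rw [fI_pos hl, fI_pos (show d ∈ S.liv W M ∩ N from ⟨hl, hN⟩)]
      · rw [fI_neg hl, fI_neg (fun hh : d ∈ S.liv W M ∩ N => hl hh.1)]
    · rw [if_neg hN, fI_neg (fun hh : d ∈ S.liv W M ∩ N => hN hh.2)]
  rw [h1, sum_add_distrib, h2, h3]
  omega

/-- **levelwise sector lemma.** -/
theorem FF_bound (h : Fo S N del ρ) (hW : WallA S N del W) (hM : S.Inv M) (j : ℕ) :
    FF S N del W M j ≤ 2 * (S.liv W M ∩ N).ncard := by
  classical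
  have h1 : ∀ k i : ℕ, i + k = ρ + 1 → FF S N del W M i ≤ ∑ l ∈ Ico i (ρ + 1), GG S N del W M l := by
    intro k
    induction k with
    | zero =>
      intro i hi
      rw [FF_zero h (by omega)]
      exact Nat.zero_le _
    | succ k ih =>
      intro i hi
      have h2 := ih (i + 1) (by omega)
      have h3 := FF_le h hW hM i
      rw [sum_eq_sum_Ico_succ_bot (by omega : i < ρ + 1)]
      omega
  by_cases hj : j ≤ ρ + 1
  · refine (h1 (ρ + 1 - j) j (by omega)).trans ?_
    rw [← GG_sum h, range_eq_Ico]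
    exact sum_le_sum_of_subset (Ico_subset_Ico (Nat.zero_le _) le_rfl)
  · rw [FF_zero h (by omega)]
    exact Nat.zero_le _

theorem FF_card (h : Fo S N del ρ) (j : ℕ) :
    FF S N del W M j = {d | d ∈ S.liv W M ∧ d ∉ N ∧ max (del d) (del (S.a d)) = j}.ncard := by
  classical
  rw [← fI_sum]
  unfold FF
  rw [sum_add_distrib]
  have h1 : ∑ d, fI {d | d ∈ S.liv W M ∧ d ∉ N ∧ max (del d) (del (S.a d)) = j} d =
      ∑ d ∈ upF S N del j, fI (S.liv W M) d + ∑ d ∈ univ.filter (fun d => S.a d ∈ upF S N del j), fI (S.liv W M) d := by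
    rw [← sum_union]
    · rw [← sum_filter_add_sum_filter_not univ (fun d => d ∈ upF S N del j ∪ univ.filter (fun d => S.a d ∈ upF S N del j))]
      rw [add_comm]
      have e1 : ∑ d ∈ univ.filter (fun d => d ∉ upF S N del j ∪ univ.filter (fun d => S.a d ∈ upF S N del j)),
          fI {d | d ∈ S.liv W M ∧ d ∉ N ∧ max (del d) (del (S.a d)) = j} d = 0 := by
        refine sum_eq_zero fun d hd => fI_neg ?_
        rintro ⟨_, hd2, hd3⟩
        refine (mem_filter.1 hd).2 ?_
        rw [mem_union]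
        rcases h.tree d hd2 with hd4 | hd4
        · left
          exact mem_filter.2 ⟨mem_univ _, hd2, hd4, by omega⟩
        · right
          refine mem_filter.2 ⟨mem_univ _, mem_filter.2 ⟨mem_univ _, fun hh => hd2 (h.cl'.1 hh), ?_, by omega⟩⟩
          rw [S.aa]; exact hd4
      rw [e1, zero_add]
      refine sum_congr (by ext d; simp) fun d hd => ?_
      have hd' : d ∉ N ∧ max (del d) (del (S.a d)) = j := by
        rcases mem_union.1 hd with hd | hd
        · obtain ⟨_, hd1, hd2, hd3⟩ := mem_filter.1 hd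
          exact ⟨hd1, by omega⟩
        · obtain ⟨_, hd1, hd2, hd3⟩ := mem_filter.1 (mem_filter.1 hd).2
          rw [S.aa] at hd2
          exact ⟨fun hh => hd1 (h.cl _ hh), by omega⟩
      by_cases hl : d ∈ S.liv W M
      · rw [fI_pos hl, fI_pos (show d ∈ {d | d ∈ S.liv W M ∧ d ∉ N ∧ max (del d) (del (S.a d)) = j} from ⟨hl, hd'⟩)]
      · rw [fI_neg hl, fI_neg (fun hh : d ∈ {d | d ∈ S.liv W M ∧ d ∉ N ∧ max (del d) (del (S.a d)) = j} => hl hh.1)]
    · rw [disjoint_left]
      intro d hd hd'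
      obtain ⟨_, _, hd2, _⟩ := mem_filter.1 hd
      obtain ⟨_, _, hd4, _⟩ := mem_filter.1 (mem_filter.1 hd').2
      rw [S.aa] at hd4
      omega
  rw [h1]
  congr 1
  refine sum_bij (fun d _ => S.a d) ?_ ?_ ?_ ?_
  · intro d hd
    exact mem_filter.2 ⟨mem_univ _, by rw [S.aa]; exact hd⟩
  · intro d _ d' _ hh
    exact S.a.injective hh
  · intro d hd
    exact ⟨S.a d, (mem_filter.1 hd).2, S.aa d⟩
  · intro d _
    rfl

/-- levelwise sector lemma, in terms of sets. -/
theorem sector_lev (h : Fo S N del ρ) (hW : WallA S N del W) (hM : S.Inv M) (j : ℕ) :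
    {d | d ∈ S.liv W M ∧ d ∉ N ∧ max (del d) (del (S.a d)) = j}.ncard ≤ 2 * (S.liv W M ∩ N).ncard := by
  rw [← FF_card h]
  exact FF_bound h hW hM j

/-- **sector lemma.** -/
theorem sectorA (h : Fo S N del ρ) (hW : WallA S N del W) (hM : S.Inv M) :
    (S.liv W M \ N).ncard ≤ 2 * ρ * (S.liv W M ∩ N).ncard := by
  classical
  have h1 : (S.liv W M \ N).ncard ≤ ∑ j ∈ Icc 1 ρ, {d | d ∈ S.liv W M ∧ d ∉ N ∧ max (del d) (del (S.a d)) = j}.ncard := by
    have h2 : S.liv W M \ N ⊆ ⋃ j ∈ Icc 1 ρ, {d | d ∈ S.liv W M ∧ d ∉ N ∧ max (del d) (del (S.a d)) = j} := by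
      rintro d ⟨hd1, hd2⟩
      simp only [Set.mem_iUnion]
      refine ⟨max (del d) (del (S.a d)), ?_, hd1, hd2, rfl⟩
      rw [mem_Icc]
      have h3 := h.le d
      have h4 := h.le (S.a d)
      rcases h.tree d hd2 with h5 | h5 <;> omega
    refine (Set.ncard_le_ncard h2 (Set.toFinite _)).trans ?_
    exact Finset.set_ncard_biUnion_le _ _
  refine h1.trans ?_
  calc _ ≤ ∑ j ∈ Icc 1 ρ, 2 * (S.liv W M ∩ N).ncard := sum_le_sum fun j _ => sector_lev h hW hM j
    _ = _ := by
        rw [sum_const, Nat.card_Icc, smul_eq_mul]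
        simp only [Nat.add_sub_cancel]
        ring


end

theorem vertex_balance (S : Sf) {W M : Set S.D} (hW : S.Cl W) (hM : S.Inv M) (v : S.D) :
    Set.ncard {d | S.vx v d ∧ d ∈ S.liv W M} = Set.ncard {d | S.vx v d ∧ S.a d ∈ S.liv W M} := by
  classical
  have h1 := orb_balance (S := S) (W := W) (M := M) hW hM v
  have h2 : ∀ f : S.D → S.D, ∑ e ∈ orbF S v, fI (S.liv W M) (f e) = Set.ncard {d | S.vx v d ∧ f d ∈ S.liv W M} := by
    intro f
    rw [← fI_sum, ← sum_filter_add_sum_filter_not univ (fun e => e ∈ orbF S v)]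
    have e1 : ∑ d ∈ univ.filter (fun e => e ∉ orbF S v), fI {d | S.vx v d ∧ f d ∈ S.liv W M} d = 0 := by
      refine sum_eq_zero fun d hd => fI_neg ?_
      rintro ⟨h3, _⟩
      exact (mem_filter.1 hd).2 (mem_orbF.2 h3)
    rw [e1, add_zero]
    refine sum_congr (by ext d; simp) fun d hd => ?_
    by_cases h3 : f d ∈ S.liv W M
    · rw [fI_pos h3, fI_pos (show d ∈ {d | S.vx v d ∧ f d ∈ S.liv W M} from ⟨mem_orbF.1 (mem_filter.1 hd).2, h3⟩)]
    · rw [fI_neg h3, fI_neg (fun hh : d ∈ {d | S.vx v d ∧ f d ∈ S.liv W M} => h3 hh.2)]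
  have h3 := h2 id
  have h4 := h2 S.a
  simp only [id] at h3
  rw [← h3, ← h4]
  exact h1

/-- **sector lemma.** -/
theorem sector (S : Sf) {N : Set S.D} {δ : S.D → ℕ} {ρ : ℕ} (hF : Fo S N δ ρ) {W : Set S.D} (hW : Wl S N δ W)
    (M : Set S.D) (hM : S.Inv M) : (S.liv W M \ N).ncard ≤ 2 * ρ * (S.liv W M ∩ N).ncard :=
  sectorA hF hW.wallA hM

theorem up_out (S : Sf) {N : Set S.D} {δ : S.D → ℕ} {ρ : ℕ} (hF : Fo S N δ ρ) {W : Set S.D} (hW : Wl S N δ W)
    (M : Set S.D) (hM : S.Inv M) (hN : ∀ y ∈ N, y ∈ M → y ∉ W → S.a y ∈ M) :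
    ∀ (k : ℕ) (u : S.D), u ∈ S.up N δ → u ∉ W → δ u + k = ρ → (u ∈ M ↔ S.a u ∈ M) := by
  intro k
  induction k using Nat.strong_induction_on with
  | _ k ih =>
    intro u hu huW hk
    have hclW : ∀ e, S.a e ∉ W ↔ e ∉ W := fun e => not_congr ⟨fun h => by rw [← S.aa e]; exact hW.cl _ h, hW.cl e⟩
    have hstep : ∀ e, S.vx u e → e ≠ u → (e ∈ M ↔ S.r (S.a e) ∈ M) := by
      intro e he heu
      have heW : e ∉ W := fun h => huW (hW.hup e h u hu he.symm)
      rw [hM]
      by_cases heN : e ∈ N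
      · refine ⟨fun h => hN e heN h heW, fun h => ?_⟩
        have h2 := hN (S.a e) (hF.cl e heN) h ((hclW e).2 heW)
        rwa [S.aa] at h2
      · have h3 : δ e = δ u := (hF.vx he).symm
        rcases hF.tree e heN with h4 | h4
        · exact absurd (hF.uniq u hu e ⟨heN, h4⟩ he).symm heu
        · have h5 : S.a e ∈ S.up N δ := by
            refine ⟨fun h => heN (hF.cl'.1 h), ?_⟩
            rw [S.aa]; exact h4
          have h6 := hF.le (S.a e)
          have h7 := ih (ρ - δ (S.a e)) (by omega) (S.a e) h5 ((hclW e).2 heW) (by omega)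
          rw [S.aa] at h7
          exact h7.symm
    have hall : ∀ n : ℕ, (((S.r * S.a) ^ (n + 1)) u ∈ M ↔ S.r (S.a u) ∈ M) := by
      intro n
      induction n with
      | zero => simp
      | succ n ihn =>
        rw [pow_succ', Perm.mul_apply, Perm.mul_apply]
        by_cases he : ((S.r * S.a) ^ (n + 1)) u = u
        · rw [he]
        · rw [← hstep _ ⟨((n + 1 : ℕ) : ℤ), by rw [zpow_natCast]⟩ he, ihn]
    obtain ⟨n, hn⟩ : ∃ n : ℕ, ((S.r * S.a) ^ (n + 1)) u = u := by
      refine ⟨orderOf (S.r * S.a) - 1, ?_⟩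
      rw [Nat.sub_add_cancel (orderOf_pos _), pow_orderOf_eq_one]
      rfl
    have h8 := hall n
    rw [hn, hM] at h8
    exact h8

theorem sector_out (S : Sf) {N : Set S.D} {δ : S.D → ℕ} {ρ : ℕ} (hF : Fo S N δ ρ) {W : Set S.D} (hW : Wl S N δ W)
    (M : Set S.D) (hM : S.Inv M) (hN : ∀ y ∈ N, y ∈ M → y ∉ W → S.a y ∈ M) : ∀ d ∈ M, d ∉ W → S.a d ∈ M := by
  intro d hd hdW
  by_cases hdN : d ∈ N
  · exact hN d hdN hd hdW
  rcases hF.tree d hdN with h1 | h1
  · have h2 := hF.le d
    exact (up_out S hF hW M hM hN (ρ - δ d) d ⟨hdN, h1⟩ hdW (by omega)).1 hd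
  · have h2 := hF.le (S.a d)
    have h3 : S.a d ∈ S.up N δ := ⟨fun h => hdN (hF.cl'.1 h), by rw [S.aa]; exact h1⟩
    have h4 := up_out S hF hW M hM hN (ρ - δ (S.a d)) (S.a d) h3
      (fun h => hdW (by rw [← S.aa d]; exact hW.cl _ h)) (by omega)
    rw [S.aa] at h4
    exact h4.2 hd

end Pool.Agent.GW
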