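import Pool.Agent.GW.LadDef

/-!
# GW/Sel: blocks of the holes

`Z`: the letters of the holes which are subdivided (a union of cycles of `ρ`).

PROOF.  Number the cycles of `ρ` (any injection of the quotient to `ℕ`) and the letters of every cycle by `0, …, h - 1` (choose a letter `c` of
the cycle, `pos (ρ^j c) = j`).  Hole with `h` letters in `Z`: `r = (h / b) / 4` pairs, `k < r`: `BL false k` = positions of `[2kb, (2k+1)b)`,
`BL true k` = positions of `[(4r-2-2k)b, (4r-1-2k)b)`.  Ends have distance more than `b` because the blocks between are empty; `h ≥ 4rb`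
gives `gend`.  Cells: if `p < q` are positions of two letters of the same cell, then `q < 2rb` implies `q - p < 4b` (a false block strictly
between them would be crossed), `2rb ≤ p` implies `q - p < 6b`.  So a cell has at most `10 b` letters.
-/

set_option autoImplicit false

namespace Pool.Agent.GW

open Equiv Pool.Agent.SWP

private theorem num_exists {D : Type} [Fintype D] (ρ : Perm D) :
    ∃ (rep : D → D) (pos sz : D → ℕ), (∀ d e, rep d = rep e ↔ ρ.SameCycle d e) ∧ (∀ d, ρ.SameCycle (rep d) d) ∧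
      (∀ d, pos d < sz (rep d)) ∧ (∀ d, ρ^[pos d] (rep d) = d) ∧ (∀ d n, n < sz (rep d) → pos (ρ^[n] (rep d)) = n) ∧
      ∀ d, ρ^[sz (rep d)] (rep d) = rep d := by
  classical
  have hrep : ∃ rep : D → D, (∀ d e, rep d = rep e ↔ ρ.SameCycle d e) ∧ ∀ d, ρ.SameCycle (rep d) d := by
    refine ⟨fun d => (Quotient.mk (Perm.SameCycle.setoid ρ) d).out, fun d e => ?_,
      fun d => Quotient.mk_out (s := Perm.SameCycle.setoid ρ) d⟩
    constructor
    · intro h
      have h1 : Quotient.mk (Perm.SameCycle.setoid ρ) d = Quotient.mk (Perm.SameCycle.setoid ρ) e := by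
        have h' : (Quotient.mk (Perm.SameCycle.setoid ρ) d).out = (Quotient.mk (Perm.SameCycle.setoid ρ) e).out := h
        rw [← Quotient.out_eq (Quotient.mk (Perm.SameCycle.setoid ρ) d),
          ← Quotient.out_eq (Quotient.mk (Perm.SameCycle.setoid ρ) e), h']
      exact Quotient.exact h1
    · intro h
      have h1 : Quotient.mk (Perm.SameCycle.setoid ρ) d = Quotient.mk (Perm.SameCycle.setoid ρ) e := Quotient.sound h
      show (Quotient.mk (Perm.SameCycle.setoid ρ) d).out = (Quotient.mk (Perm.SameCycle.setoid ρ) e).out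
      rw [h1]
  obtain ⟨rep, h1, h2⟩ := hrep
  have hsz : ∀ c, 0 < Function.minimalPeriod ρ c := fun c =>
    Function.minimalPeriod_pos_of_mem_periodicPts (ρ.injective.mem_periodicPts c)
  have hex : ∀ d, ∃ n, ρ^[n] (rep d) = d ∧ n < Function.minimalPeriod ρ (rep d) := fun d => by
    obtain ⟨n, hn⟩ := (h2 d).exists_nat_pow_eq
    refine ⟨n % Function.minimalPeriod ρ (rep d), ?_, Nat.mod_lt _ (hsz _)⟩
    rw [Function.iterate_mod_minimalPeriod_eq, Perm.iterate_eq_pow]
    exact hn
  choose pos hp1 hp2 using hex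
  refine ⟨rep, pos, fun c => Function.minimalPeriod ρ c, h1, h2, hp2, hp1, ?_, fun d => Function.iterate_minimalPeriod⟩
  intro d n hn
  have e1 : rep (ρ^[n] (rep d)) = rep d := by
    rw [h1, Perm.iterate_eq_pow, Perm.sameCycle_pow_left]
    exact h2 d
  have e2 := hp1 (ρ^[n] (rep d))
  have e3 := hp2 (ρ^[n] (rep d))
  rw [e1] at e2 e3
  exact (Function.iterate_eq_iterate_iff_of_lt_minimalPeriod e3 hn).1 e2

private theorem sep {b m m' p q : ℕ} (h : m + 2 ≤ m') (hp : p < m * b + b) (hq : m' * b ≤ q) : p + b < q := by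
  have h1 := Nat.mul_le_mul_right b h
  rw [Nat.add_mul] at h1
  omega

private theorem card_of_diam {D : Type} [Fintype D] (A : Set D) (pos : D → ℕ) (L : ℕ)
    (hinj : ∀ d ∈ A, ∀ e ∈ A, pos d = pos e → d = e) (h : ∀ d ∈ A, ∀ e ∈ A, pos d < pos e → pos e < pos d + L) (hL : 1 ≤ L) :
    A.ncard ≤ L := by
  classical
  rcases A.eq_empty_or_nonempty with hA | hA
  · rw [hA]
    simp
  · obtain ⟨d, hd, hmin⟩ := Set.exists_min_image A pos A.toFinite hA
    have h1 : A.ncard ≤ (↑(Finset.Ico (pos d) (pos d + L)) : Set ℕ).ncard := by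
      refine Set.ncard_le_ncard_of_injOn pos (fun e he => ?_) (fun e he e' he' hee => hinj e he e' he' hee)
        (Finset.finite_toSet _)
      rw [Finset.mem_coe, Finset.mem_Ico]
      refine ⟨hmin e he, ?_⟩
      rcases (hmin e he).lt_or_eq with h2 | h2
      · exact h d hd e he h2
      · omega
    rw [Set.ncard_coe_finset, Nat.card_Ico] at h1
    omega

theorem blocks_exist {D : Type} [Fintype D] (E : Set D) (ρ : Perm D) (hE : ∀ d, ρ d ∈ E ↔ d ∈ E) (Z : Set D)
    (hZ : ∀ d, ρ d ∈ Z ↔ d ∈ Z) (b : ℕ) (hb : 1 ≤ b) :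
    ∃ (I : Type) (_ : Fintype I) (BL : Bool → I → Set D) (H pos : D → ℕ), Hn E ρ H pos ∧
      (∀ β i, ∀ d ∈ BL β i, d ∈ E ∧ d ∈ Z) ∧ (∀ β i, (BL β i).ncard = b) ∧
      (∀ β i γ j, ∀ d ∈ BL β i, d ∈ BL γ j → β = γ ∧ i = j) ∧
      (∀ β γ i, ∀ d ∈ BL β i, ∀ e ∈ BL γ i, ρ.SameCycle d e) ∧
      ∀ (x y : I → D), (∀ i, x i ∈ BL false i) → (∀ i, y i ∈ BL true i) → Sel E H pos b x y ∧
        ∀ d ∈ E, d ∈ Z → Set.ncard {e | e ∈ E ∧ H e = H d ∧ ∀ i, enc H pos x y i e ↔ enc H pos x y i d} ≤ 10 * b := by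
  classical
  obtain ⟨rep, pos, sz, h1, h2, h3, h4, h5, h6⟩ := num_exists ρ
  have hrr : ∀ d, rep (rep d) = rep d := fun d => (h1 _ _).2 (h2 d)
  have hrρ : ∀ d, rep (ρ d) = rep d := fun d => (h1 _ _).2 (Perm.sameCycle_apply_left.2 (Perm.SameCycle.refl ρ d))
  have hEi : ∀ n d, ρ^[n] d ∈ E ↔ d ∈ E := fun n d => by
    induction n with
    | zero => exact Iff.rfl
    | succ n ih => rw [Function.iterate_succ_apply', hE]; exact ih
  have hZi : ∀ n d, ρ^[n] d ∈ Z ↔ d ∈ Z := fun n d => by
    induction n with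
    | zero => exact Iff.rfl
    | succ n ih => rw [Function.iterate_succ_apply', hZ]; exact ih
  have hEr : ∀ d, rep d ∈ E ↔ d ∈ E := fun d => by
    rw [← hEi (pos d) (rep d), h4]
  have hZr : ∀ d, rep d ∈ Z ↔ d ∈ Z := fun d => by
    rw [← hZi (pos d) (rep d), h4]
  have hri : ∀ n d, rep (ρ^[n] d) = rep d := fun n d => by
    induction n with
    | zero => rfl
    | succ n ih => rw [Function.iterate_succ_apply', hrρ]; exact ih
  obtain ⟨ν, hν⟩ : ∃ ν : D → ℕ, Function.Injective ν :=
    ⟨fun d => (Fintype.equivFin D d : ℕ), fun i j h => (Fintype.equivFin D).injective (Fin.ext h)⟩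
  have hinj : ∀ d e, rep d = rep e → pos d = pos e → d = e := fun d e h h' => by
    rw [← h4 d, ← h4 e, h, h']
  -- the numbers of the blocks
  obtain ⟨mm, hm0, hm1⟩ : ∃ mm : Bool → ((c : {c : D // c ∈ E ∧ c ∈ Z ∧ rep c = c}) × Fin (sz c.1 / b / 4)) → ℕ,
      (∀ i, mm false i = 2 * i.2.1) ∧ ∀ i, mm true i = 4 * (sz i.1.1 / b / 4) - 2 - 2 * i.2.1 :=
    ⟨fun β i => if β then 4 * (sz i.1.1 / b / 4) - 2 - 2 * i.2.1 else 2 * i.2.1, fun i => by simp, fun i => by simp⟩
  have hszb : ∀ c, 4 * (sz c / b / 4) * b ≤ sz c := fun c => by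
    have e1 : 4 * (sz c / b / 4) ≤ sz c / b := Nat.mul_div_le _ _
    exact (Nat.mul_le_mul_right b e1).trans (Nat.div_mul_le_self _ _)
  have hszl : ∀ c, sz c < (4 * (sz c / b / 4) + 4) * b := fun c => by
    have e1 : sz c / b < 4 * (sz c / b / 4) + 4 := by omega
    exact (Nat.div_lt_iff_lt_mul (by omega)).1 e1
  have hmr : ∀ β i, mm β i + 2 ≤ 4 * (sz i.1.1 / b / 4) := fun β i => by
    have := i.2.2
    cases β
    · rw [hm0]; omega
    · rw [hm1]; omega
  have hmm : ∀ i : (c : {c : D // c ∈ E ∧ c ∈ Z ∧ rep c = c}) × Fin (sz c.1 / b / 4),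
      mm false i + 2 ≤ 2 * (sz i.1.1 / b / 4) ∧ 2 * (sz i.1.1 / b / 4) ≤ mm true i := fun i => by
    have := i.2.2
    rw [hm0, hm1]
    omega
  have hup : ∀ β i, mm β i * b + b + b ≤ sz i.1.1 := fun β i => by
    have e1 := Nat.mul_le_mul_right b (hmr β i)
    have e2 := hszb i.1.1
    rw [Nat.add_mul] at e1
    omega
  refine ⟨(c : {c : D // c ∈ E ∧ c ∈ Z ∧ rep c = c}) × Fin (sz c.1 / b / 4), inferInstance,
    fun β i => {d | rep d = i.1.1 ∧ mm β i * b ≤ pos d ∧ pos d < mm β i * b + b}, fun d => ν (rep d), pos, ?_, ?_, ?_, ?_,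
    ?_, ?_⟩
  · refine ⟨fun d _ e _ => ⟨fun h => (h1 d e).1 (hν h), fun h => congrArg ν ((h1 d e).2 h)⟩, fun d _ => ?_,
      fun d _ e _ h h' => hinj d e (hν h) h', fun d _ h0 e _ he => ?_⟩
    · have e1 : ρ d = ρ^[pos d + 1] (rep d) := by rw [Function.iterate_succ_apply', h4]
      rcases Nat.lt_or_ge (pos d + 1) (sz (rep d)) with h | h
      · left
        rw [e1, h5 d _ h]
      · right
        have e2 : pos d + 1 = sz (rep d) := le_antisymm (h3 d) h
        rw [e1, e2, h6]
        have e3 := h5 d 0 (by have := h3 d; omega)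
        exact e3
    · have e1 : ρ d = ρ^[pos d + 1] (rep d) := by rw [Function.iterate_succ_apply', h4]
      rcases Nat.lt_or_ge (pos d + 1) (sz (rep d)) with h | h
      · rw [e1, h5 d _ h] at h0
        omega
      · have e2 : rep e = rep d := hν he
        have e3 := h3 e
        rw [e2] at e3
        omega
  · rintro β ⟨⟨c, hcE, hcZ, hc⟩, k⟩ d ⟨hd, _⟩
    have hd' : rep d = c := hd
    exact ⟨(hEr d).1 (by rw [hd']; exact hcE), (hZr d).1 (by rw [hd']; exact hcZ)⟩
  · intro β i
    have hup' := hup β i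
    have hci : rep i.1.1 = i.1.1 := i.1.2.2.2
    have e1 : {d | rep d = i.1.1 ∧ mm β i * b ≤ pos d ∧ pos d < mm β i * b + b} =
        (fun n => ρ^[n] i.1.1) '' (↑(Finset.Ico (mm β i * b) (mm β i * b + b)) : Set ℕ) := by
      ext d
      simp only [Set.mem_ofPred_eq, Set.mem_image, Finset.coe_Ico, Set.mem_Ico]
      constructor
      · rintro ⟨ha, hb', hc'⟩
        exact ⟨pos d, ⟨hb', hc'⟩, by rw [← ha]; exact h4 d⟩
      · rintro ⟨n, ⟨hn, hn'⟩, rfl⟩
        have e2 : pos (ρ^[n] i.1.1) = n := by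
          have := h5 i.1.1 n (by rw [hci]; omega)
          rw [hci] at this
          exact this
        rw [e2]
        exact ⟨by rw [hri]; exact hci, hn, hn'⟩
    show Set.ncard {d | rep d = i.1.1 ∧ mm β i * b ≤ pos d ∧ pos d < mm β i * b + b} = b
    rw [e1, Set.InjOn.ncard_image, Set.ncard_coe_finset, Nat.card_Ico]
    · omega
    · intro n hn n' hn' h
      rw [Finset.coe_Ico, Set.mem_Ico] at hn hn'
      have e2 : ∀ n, n < sz i.1.1 → pos (ρ^[n] i.1.1) = n := fun n hn => by
        have := h5 i.1.1 n (by rw [hci]; exact hn)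
        rw [hci] at this
        exact this
      have h' : ρ^[n] i.1.1 = ρ^[n'] i.1.1 := h
      rw [← e2 n (by omega), ← e2 n' (by omega), h']
  · rintro β i γ j d ⟨ha, hb1, hc1⟩ ⟨ha', hb1', hc1'⟩
    have hij : i.1.1 = j.1.1 := ha.symm.trans ha'
    obtain ⟨⟨c, hc⟩, k⟩ := i
    obtain ⟨⟨c', hc'⟩, k'⟩ := j
    have hij' : c = c' := hij
    subst hij'
    have hmeq : mm β ⟨⟨c, hc⟩, k⟩ = mm γ ⟨⟨c, hc'⟩, k'⟩ := by
      rcases lt_trichotomy (mm β ⟨⟨c, hc⟩, k⟩) (mm γ ⟨⟨c, hc'⟩, k'⟩) with h | h | h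
      · exfalso
        have := Nat.mul_le_mul_right b h
        rw [Nat.succ_mul] at this
        omega
      · exact h
      · exfalso
        have := Nat.mul_le_mul_right b h
        rw [Nat.succ_mul] at this
        omega
    have q1 := hmm ⟨⟨c, hc⟩, k⟩
    have q2 := hmm ⟨⟨c, hc'⟩, k'⟩
    have hk := k.2
    have hk' := k'.2
    have k1 : mm false ⟨⟨c, hc⟩, k⟩ = 2 * k.1 := hm0 _
    have k2 : mm true ⟨⟨c, hc⟩, k⟩ = 4 * (sz c / b / 4) - 2 - 2 * k.1 := hm1 _
    have k3 : mm false ⟨⟨c, hc'⟩, k'⟩ = 2 * k'.1 := hm0 _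
    have k4 : mm true ⟨⟨c, hc'⟩, k'⟩ = 4 * (sz c / b / 4) - 2 - 2 * k'.1 := hm1 _
    have hkk : ∀ _ : k.1 = k'.1, (⟨⟨c, hc⟩, k⟩ : (c : {c : D // c ∈ E ∧ c ∈ Z ∧ rep c = c}) × Fin (sz c.1 / b / 4)) =
        ⟨⟨c, hc'⟩, k'⟩ := fun h => by
      have : k = k' := Fin.ext h
      rw [this]
    dsimp only at q1 q2 hk hk'
    cases β <;> cases γ
    · exact ⟨rfl, hkk (by omega)⟩
    · exfalso; omega
    · exfalso; omega
    · exact ⟨rfl, hkk (by omega)⟩
  · rintro β γ i d ⟨ha, _⟩ e ⟨ha', _⟩
    exact (h1 d e).1 (ha.trans ha'.symm)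
  · intro x y hx hy
    have hcase : ∀ i j : (c : {c : D // c ∈ E ∧ c ∈ Z ∧ rep c = c}) × Fin (sz c.1 / b / 4), i.1.1 = j.1.1 →
        i = j ∨ (mm false i + 2 ≤ mm false j ∧ mm true j + 2 ≤ mm true i) ∨
          (mm false j + 2 ≤ mm false i ∧ mm true i + 2 ≤ mm true j) := by
      rintro ⟨⟨c, hc⟩, k⟩ ⟨⟨c', hc'⟩, k'⟩ hij
      have hij' : c = c' := hij
      subst hij'
      have hk := k.2
      have hk' := k'.2
      have k1 : mm false ⟨⟨c, hc⟩, k⟩ = 2 * k.1 := hm0 _
      have k2 : mm true ⟨⟨c, hc⟩, k⟩ = 4 * (sz c / b / 4) - 2 - 2 * k.1 := hm1 _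
      have k3 : mm false ⟨⟨c, hc'⟩, k'⟩ = 2 * k'.1 := hm0 _
      have k4 : mm true ⟨⟨c, hc'⟩, k'⟩ = 4 * (sz c / b / 4) - 2 - 2 * k'.1 := hm1 _
      dsimp only at hk hk'
      rcases lt_trichotomy k.1 k'.1 with h | h | h
      · right; left; omega
      · left
        have : k = k' := Fin.ext h
        rw [this]
      · right; right; omega
    have hc1 : ∀ i j : (c : {c : D // c ∈ E ∧ c ∈ Z ∧ rep c = c}) × Fin (sz c.1 / b / 4), i.1.1 = j.1.1 →
        mm false i + 2 ≤ mm true j := by
      rintro ⟨⟨c, hc⟩, k⟩ ⟨⟨c', hc'⟩, k'⟩ hij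
      have hij' : c = c' := hij
      subst hij'
      have q1 := hmm ⟨⟨c, hc⟩, k⟩
      have q2 := hmm ⟨⟨c, hc'⟩, k'⟩
      dsimp only at q1 q2
      omega
    have hxr : ∀ i, rep (x i) = i.1.1 := fun i => (hx i).1
    have hyr : ∀ i, rep (y i) = i.1.1 := fun i => (hy i).1
    have hxl : ∀ i, mm false i * b ≤ pos (x i) := fun i => (hx i).2.1
    have hxu : ∀ i, pos (x i) < mm false i * b + b := fun i => (hx i).2.2
    have hyl : ∀ i, mm true i * b ≤ pos (y i) := fun i => (hy i).2.1
    have hyu : ∀ i, pos (y i) < mm true i * b + b := fun i => (hy i).2.2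
    refine ⟨⟨fun i => (hEr _).1 (by rw [hxr]; exact i.1.2.1), fun i => (hEr _).1 (by rw [hyr]; exact i.1.2.1),
      fun i => by rw [hyr, hxr], ?_, ?_, ?_, ?_, ?_⟩, ?_⟩
    · intro i j hij h
      have h' : i.1.1 = j.1.1 := by
        have := hν h
        rw [hxr, hxr] at this
        exact this
      rcases hcase i j h' with e | ⟨e, e'⟩ | ⟨e, e'⟩
      · exact absurd e hij
      · left
        have a1 := sep e (hxu i) (hxl j)
        have a2 := sep e' (hyu j) (hyl i)
        exact ⟨by omega, by omega⟩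
      · right
        have a1 := sep e (hxu j) (hxl i)
        have a2 := sep e' (hyu i) (hyl j)
        exact ⟨by omega, by omega⟩
    · intro i j h hlt
      have h' : i.1.1 = j.1.1 := by
        have := hν h
        rw [hxr, hxr] at this
        exact this
      rcases hcase i j h' with e | ⟨e, e'⟩ | ⟨e, e'⟩
      · rw [e] at hlt
        omega
      · exact sep e (hxu i) (hxl j)
      · have a1 := sep e (hxu j) (hxl i)
        omega
    · intro i j h hlt
      have h' : i.1.1 = j.1.1 := by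
        have := hν h
        rw [hyr, hyr] at this
        exact this
      rcases hcase i j h' with e | ⟨e, e'⟩ | ⟨e, e'⟩
      · rw [e] at hlt
        omega
      · have a1 := sep e' (hyu j) (hyl i)
        omega
      · exact sep e' (hyu i) (hyl j)
    · intro i j h
      have h' : i.1.1 = j.1.1 := by
        have := hν h
        rw [hxr, hyr] at this
        exact this
      exact sep (hc1 i j h') (hxu i) (hyl j)
    · intro i
      have hci : rep i.1.1 = i.1.1 := i.1.2.2.2
      have a1 := hup true i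
      have a2 := hyu i
      have e2 : pos (ρ^[pos (y i) + b] i.1.1) = pos (y i) + b := by
        have := h5 i.1.1 (pos (y i) + b) (by rw [hci]; omega)
        rw [hci] at this
        exact this
      refine ⟨ρ^[pos (y i) + b] i.1.1, (hEi _ _).2 i.1.2.1, ?_, by rw [e2]⟩
      show ν (rep (ρ^[pos (y i) + b] i.1.1)) = ν (rep (y i))
      rw [hri, hci, hyr]
    · intro d hdE hdZ
      set r := sz (rep d) / b / 4 with hr
      have hAr : ∀ e ∈ {e | e ∈ E ∧ ν (rep e) = ν (rep d) ∧
          ∀ i, enc (fun d => ν (rep d)) pos x y i e ↔ enc (fun d => ν (rep d)) pos x y i d}, rep e = rep d :=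
        fun e he => hν he.2.1
      have hcE : rep d ∈ E := (hEr d).2 hdE
      have hcZ : rep d ∈ Z := (hZr d).2 hdZ
      have hlow : ∀ e ∈ {e | e ∈ E ∧ ν (rep e) = ν (rep d) ∧
          ∀ i, enc (fun d => ν (rep d)) pos x y i e ↔ enc (fun d => ν (rep d)) pos x y i d}, ∀ e' ∈ {e | e ∈ E ∧
          ν (rep e) = ν (rep d) ∧
          ∀ i, enc (fun d => ν (rep d)) pos x y i e ↔ enc (fun d => ν (rep d)) pos x y i d}, pos e < pos e' →
          pos e' < 2 * r * b → pos e' < pos e + 4 * b := by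
        intro e he e' he' hlt hq
        by_contra hcon
        -- the next false block
        have hk1 : 2 * (pos e / (2 * b)) * b ≤ pos e := by
          have := Nat.div_mul_le_self (pos e) (2 * b)
          calc 2 * (pos e / (2 * b)) * b = pos e / (2 * b) * (2 * b) := by ring
            _ ≤ pos e := this
        have hk2 : pos e < 2 * (pos e / (2 * b) + 1) * b := by
          have := Nat.lt_div_mul_add (a := pos e) (b := 2 * b) (by omega)
          calc pos e < pos e / (2 * b) * (2 * b) + 2 * b := this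
            _ = 2 * (pos e / (2 * b) + 1) * b := by ring
        set k := pos e / (2 * b) + 1 with hk
        have hk3 : 2 * k * b ≤ pos e + 2 * b := by
          calc 2 * k * b = 2 * (pos e / (2 * b)) * b + 2 * b := by rw [hk]; ring
            _ ≤ pos e + 2 * b := by omega
        have hkr : k < r := by
          have : 2 * k * b < 2 * r * b := by omega
          have := Nat.lt_of_mul_lt_mul_right this
          omega
        obtain ⟨i, hi1, hi2, hi3⟩ : ∃ i : (c : {c : D // c ∈ E ∧ c ∈ Z ∧ rep c = c}) × Fin (sz c.1 / b / 4),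
            i.1.1 = rep d ∧ mm false i = 2 * k ∧ 2 * r ≤ mm true i := by
          refine ⟨⟨⟨rep d, hcE, hcZ, hrr d⟩, ⟨k, hkr⟩⟩, rfl, hm0 _, (hmm ⟨⟨rep d, hcE, hcZ, hrr d⟩, ⟨k, hkr⟩⟩).2⟩
        have a1 := hxl i
        have a2 := hxu i
        have a3 := hyl i
        have a4 := Nat.mul_le_mul_right b hi3
        rw [hi2] at a1 a2
        have b1 : enc (fun d => ν (rep d)) pos x y i e' := by
          refine ⟨?_, by omega, by omega⟩
          show ν (rep (x i)) = ν (rep e')
          rw [hxr, hi1, hAr e' he']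
        have b2 : ¬ enc (fun d => ν (rep d)) pos x y i e := fun h => by
          have := h.2.1
          omega
        exact b2 ((he.2.2 i).2 ((he'.2.2 i).1 b1))
      have hhigh : ∀ e ∈ {e | e ∈ E ∧ ν (rep e) = ν (rep d) ∧
          ∀ i, enc (fun d => ν (rep d)) pos x y i e ↔ enc (fun d => ν (rep d)) pos x y i d}, ∀ e' ∈ {e | e ∈ E ∧
          ν (rep e) = ν (rep d) ∧
          ∀ i, enc (fun d => ν (rep d)) pos x y i e ↔ enc (fun d => ν (rep d)) pos x y i d}, pos e < pos e' →
          2 * r * b ≤ pos e → pos e' < pos e + 6 * b := by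
        intro e he e' he' hlt hq
        by_contra hcon
        have hk1 : 2 * (pos e / (2 * b)) * b ≤ pos e := by
          have := Nat.div_mul_le_self (pos e) (2 * b)
          calc 2 * (pos e / (2 * b)) * b = pos e / (2 * b) * (2 * b) := by ring
            _ ≤ pos e := this
        have hk2 : pos e < 2 * (pos e / (2 * b) + 1) * b := by
          have := Nat.lt_div_mul_add (a := pos e) (b := 2 * b) (by omega)
          calc pos e < pos e / (2 * b) * (2 * b) + 2 * b := this
            _ = 2 * (pos e / (2 * b) + 1) * b := by ring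
        set k := pos e / (2 * b) + 1 with hk
        have hk3 : 2 * k * b ≤ pos e + 2 * b := by
          calc 2 * k * b = 2 * (pos e / (2 * b)) * b + 2 * b := by rw [hk]; ring
            _ ≤ pos e + 2 * b := by omega
        have hrk : r < k := by
          have : 2 * r * b < 2 * k * b := by omega
          have := Nat.lt_of_mul_lt_mul_right this
          omega
        have hszd := hszl (rep d)
        rw [← hr] at hszd
        have he'sz : pos e' < sz (rep d) := by
          have := h3 e'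
          rw [hAr e' he'] at this
          exact this
        have hk4 : k < 2 * r := by
          have e1 : (4 * r + 4) * b = 2 * (2 * r) * b + 4 * b := by ring
          have : 2 * k * b < 2 * (2 * r) * b := by omega
          have := Nat.lt_of_mul_lt_mul_right this
          omega
        obtain ⟨i, hi1, hi2, hi3⟩ : ∃ i : (c : {c : D // c ∈ E ∧ c ∈ Z ∧ rep c = c}) × Fin (sz c.1 / b / 4),
            i.1.1 = rep d ∧ mm true i = 2 * k ∧ mm false i + 2 ≤ 2 * r := by
          have hkk : 2 * r - 1 - k < sz (rep d) / b / 4 := by omega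
          refine ⟨⟨⟨rep d, hcE, hcZ, hrr d⟩, ⟨2 * r - 1 - k, hkk⟩⟩, rfl, ?_, ?_⟩
          · rw [hm1]
            show 4 * (sz (rep d) / b / 4) - 2 - 2 * (2 * r - 1 - k) = 2 * k
            omega
          · exact (hmm ⟨⟨rep d, hcE, hcZ, hrr d⟩, ⟨2 * r - 1 - k, hkk⟩⟩).1
        have a1 := hyl i
        have a2 := hyu i
        have a3 := hxu i
        have a4 := Nat.mul_le_mul_right b hi3
        rw [Nat.add_mul] at a4
        rw [hi2] at a1 a2
        have b1 : enc (fun d => ν (rep d)) pos x y i e := by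
          refine ⟨?_, by omega, by omega⟩
          show ν (rep (x i)) = ν (rep e)
          rw [hxr, hi1, hAr e he]
        have b2 : ¬ enc (fun d => ν (rep d)) pos x y i e' := fun h => by
          have := h.2.2
          omega
        exact b2 ((he'.2.2 i).2 ((he.2.2 i).1 b1))
      set A : Set D := {e | e ∈ E ∧ ν (rep e) = ν (rep d) ∧
          ∀ i, enc (fun d => ν (rep d)) pos x y i e ↔ enc (fun d => ν (rep d)) pos x y i d} with hA
      have hsp : A ⊆ {e | e ∈ A ∧ pos e < 2 * r * b} ∪ {e | e ∈ A ∧ 2 * r * b ≤ pos e} := fun e he => by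
        rcases Nat.lt_or_ge (pos e) (2 * r * b) with h | h
        · exact Or.inl ⟨he, h⟩
        · exact Or.inr ⟨he, h⟩
      have c1 : Set.ncard {e | e ∈ A ∧ pos e < 2 * r * b} ≤ 4 * b :=
        card_of_diam _ pos _ (fun e he e' he' h => hinj e e' ((hAr e he.1).trans (hAr e' he'.1).symm) h)
          (fun e he e' he' h => hlow e he.1 e' he'.1 h he'.2) (by omega)
      have c2 : Set.ncard {e | e ∈ A ∧ 2 * r * b ≤ pos e} ≤ 6 * b :=
        card_of_diam _ pos _ (fun e he e' he' h => hinj e e' ((hAr e he.1).trans (hAr e' he'.1).symm) h)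
          (fun e he e' he' h => hhigh e he.1 e' he'.1 h he.2) (by omega)
      calc A.ncard ≤ _ := Set.ncard_le_ncard hsp (Set.toFinite _)
        _ ≤ _ := Set.ncard_union_le _ _
        _ ≤ 10 * b := by omega

end Pool.Agent.GW
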