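import Pool.Agent.GW.Net

/-!
# Stage start, labels (helper48)

`gd` = good labels of `R + 1` digits, `z0` the digit of the new centres. `dl`, `hb`, `pr`: new level, new hub, parent of a good
label; `nbF`, `bl`: neighbourhoods and balls of labels; `cnt_pairs`: number of good neighbours of a new hub;
`bad_nb`: number of bad neighbours of a label.
-/

set_option autoImplicit false

namespace Pool.Agent.GW

open Equiv Pool.Agent.SWP

namespace StA

/-! ### neighbourhoods -/

theorem adj_symm {R B : ℕ} {g h : Lab R B} (H : adj g h) : adj h g := by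
  obtain ⟨i, h1, h2⟩ := H
  exact ⟨i, fun h3 => h1 h3.symm, fun i' hi => (h2 i' hi).symm⟩

theorem adj_update {R B : ℕ} (g : Lab R B) (i : Fin R) (w : Fin B) (hw : w ≠ g i) : adj g (Function.update g i w) := by
  refine ⟨i, ?_, fun i' hi => ?_⟩
  · rw [Function.update_self]
    exact fun h => hw h.symm
  · rw [Function.update_of_ne hi]

theorem eq_update {R B : ℕ} {g h : Lab R B} {i : Fin R} (h2 : ∀ i', i' ≠ i → g i' = h i') :
    h = Function.update g i (h i) := by
  funext i'
  by_cases hi : i' = i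
  · subst hi
    rw [Function.update_self]
  · rw [Function.update_of_ne hi, h2 i' hi]

/-- a label and its neighbours -/
def nbF {R B : ℕ} (h : Lab R B) : Finset (Lab R B) :=
  insert h (Finset.univ.image fun p : Fin R × Fin B => Function.update h p.1 p.2)

theorem card_nbF {R B : ℕ} (h : Lab R B) : (nbF h).card ≤ R * B + 1 := by
  refine (Finset.card_insert_le _ _).trans ?_
  have h1 : (Finset.univ.image fun p : Fin R × Fin B => Function.update h p.1 p.2).card ≤ R * B := by
    refine Finset.card_image_le.trans ?_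
    rw [Finset.card_univ, Fintype.card_prod, Fintype.card_fin, Fintype.card_fin]
  omega

theorem self_nbF {R B : ℕ} (h : Lab R B) : h ∈ nbF h := Finset.mem_insert_self _ _

theorem mem_nbF {R B : ℕ} {g h : Lab R B} (H : adj h g) : g ∈ nbF h := by
  obtain ⟨i, _, h2⟩ := H
  refine Finset.mem_insert_of_mem (Finset.mem_image.2 ⟨(i, g i), Finset.mem_univ _, ?_⟩)
  exact (eq_update h2).symm

/-- the ball of radius `k` -/
def bl {R B : ℕ} : ℕ → Lab R B → Finset (Lab R B)
  | 0, h => {h}
  | k + 1, h => (bl k h).biUnion nbF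

theorem card_bl {R B : ℕ} (k : ℕ) (h : Lab R B) : (bl k h).card ≤ (R * B + 1) ^ k := by
  induction k with
  | zero => simp [bl]
  | succ k ih =>
    rw [bl, pow_succ]
    refine Finset.card_biUnion_le.trans ((Finset.sum_le_sum fun g _ => card_nbF g).trans ?_)
    rw [Finset.sum_const, smul_eq_mul]
    exact Nat.mul_le_mul_right _ ih

theorem bl_succ {R B : ℕ} {k : ℕ} {g h : Lab R B} (H : g ∈ bl k h) : g ∈ bl (k + 1) h :=
  Finset.mem_biUnion.2 ⟨g, H, self_nbF g⟩

theorem bl_le {R B : ℕ} {k l : ℕ} (hkl : k ≤ l) {g h : Lab R B} (H : g ∈ bl k h) : g ∈ bl l h := by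
  induction hkl with
  | refl => exact H
  | step _ ih => exact bl_succ ih

theorem bl_adj {R B : ℕ} {k : ℕ} {g g' h : Lab R B} (H : g ∈ bl k h) (ha : adj g' g) : g' ∈ bl (k + 1) h :=
  Finset.mem_biUnion.2 ⟨g, H, mem_nbF (adj_symm ha)⟩

/-! ### bad neighbours -/

theorem bad_nb {R B : ℕ} (gd : Lab R B → Prop) {β : ℕ}
    (hl : ∀ (g : Lab R B) (i : Fin R), {v : Fin B | ¬ gd (Function.update g i v)}.ncard ≤ β) (g : Lab R B) :
    {h | adj g h ∧ ¬ gd h}.ncard ≤ R * β := by
  classical
  have h1 : {h | adj g h ∧ ¬ gd h} ⊆ ⋃ i : Fin R, Function.update g i '' {v : Fin B | ¬ gd (Function.update g i v)} := by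
    rintro h ⟨⟨i, _, h2⟩, h3⟩
    refine Set.mem_iUnion.2 ⟨i, h i, ?_, (eq_update h2).symm⟩
    show ¬ gd (Function.update g i (h i))
    rwa [← eq_update h2]
  refine (Set.ncard_le_ncard h1 (Set.toFinite _)).trans ?_
  refine (Set.ncard_iUnion_le_of_fintype _).trans ?_
  refine (Finset.sum_le_sum fun i _ => (Set.ncard_image_le (Set.toFinite _)).trans (hl g i)).trans ?_
  rw [Finset.sum_const, Finset.card_univ, Fintype.card_fin, smul_eq_mul]

/-! ### first digit -/

section digit

variable {R B : ℕ}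

/-- first digit `x`, other digits `v` -/
def cn (x : Fin B) (v : Lab R B) : Lab (R + 1) B := Fin.cons (α := fun _ => Fin B) x v

/-- the other digits -/
def tl (g : Lab (R + 1) B) : Lab R B := fun i => g i.succ

theorem cn_zero (x : Fin B) (v : Lab R B) : cn x v 0 = x := rfl

theorem cn_succ (x : Fin B) (v : Lab R B) (i : Fin R) : cn x v i.succ = v i := rfl

theorem tl_cn (x : Fin B) (v : Lab R B) : tl (cn x v) = v := rfl

theorem cn_tl (g : Lab (R + 1) B) : cn (g 0) (tl g) = g := by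
  funext i
  refine Fin.cases ?_ (fun j => ?_) i
  · rfl
  · rfl

theorem cn_inj {x y : Fin B} {v w : Lab R B} (h : cn x v = cn y w) : x = y ∧ v = w :=
  ⟨congrFun h 0, funext fun i => congrFun h i.succ⟩

theorem cn_update (x : Fin B) (v : Lab R B) (i : Fin R) (w : Fin B) :
    cn x (Function.update v i w) = Function.update (cn x v) i.succ w := by
  funext j
  refine Fin.cases ?_ (fun j => ?_) j
  · rw [Function.update_of_ne (Fin.succ_ne_zero i).symm]
    rfl
  · rw [cn_succ]
    by_cases h : j = i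
    · subst h
      rw [Function.update_self, Function.update_self]
    · rw [Function.update_of_ne h, Function.update_of_ne (fun h' => h (Fin.succ_injective _ h')), cn_succ]

theorem adj_cn {x : Fin B} {v w : Lab R B} : adj (cn x v) (cn x w) ↔ adj v w := by
  constructor
  · rintro ⟨i, h1, h2⟩
    rcases Fin.eq_zero_or_eq_succ i with h3 | ⟨j, h3⟩
    · subst h3
      exact absurd rfl h1
    · subst h3
      exact ⟨j, h1, fun i' hi => h2 i'.succ fun h => hi (Fin.succ_injective _ h)⟩
  · rintro ⟨i, h1, h2⟩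
    refine ⟨i.succ, h1, fun j => ?_⟩
    refine Fin.cases (fun _ => rfl) (fun j' hj => ?_) j
    exact h2 j' fun h => hj (by rw [h])

theorem adj_head {x y : Fin B} (hxy : x ≠ y) (v : Lab R B) : adj (cn x v) (cn y v) := by
  refine ⟨0, hxy, fun j => ?_⟩
  refine Fin.cases (fun h => absurd rfl h) (fun j' _ => rfl) j

end digit

section lab

variable {R B : ℕ} (gd : Lab (R + 1) B → Prop) (z0 : Fin B)

open Classical in
/-- hub of the labels of level 2 -/
noncomputable def v2 (g : Lab (R + 1) B) : Lab R B :=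
  if h : ∃ v, adj (tl g) v ∧ gd (cn (g 0) v) ∧ gd (cn z0 v) then h.choose else tl g

open Classical in
noncomputable def dl (g : Lab (R + 1) B) : ℕ := if g 0 = z0 then 0 else if gd (cn z0 (tl g)) then 1 else 2

open Classical in
noncomputable def hb (g : Lab (R + 1) B) : Lab R B :=
  if g 0 = z0 then tl g else if gd (cn z0 (tl g)) then tl g else v2 gd z0 g

open Classical in
noncomputable def pr (g : Lab (R + 1) B) : Lab (R + 1) B :=
  if gd (cn z0 (tl g)) then cn z0 (tl g) else cn (g 0) (v2 gd z0 g)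

variable {gd} {z0} {β : ℕ}

theorem v2_spec (hR : 1 ≤ R) (hB : 2 * β + 4 ≤ B)
    (hl : ∀ (g : Lab (R + 1) B) (i : Fin (R + 1)), {v : Fin B | ¬ gd (Function.update g i v)}.ncard ≤ β)
    {g : Lab (R + 1) B} (h2 : ¬ gd (cn z0 (tl g))) :
    adj (tl g) (v2 gd z0 g) ∧ gd (cn (g 0) (v2 gd z0 g)) ∧ gd (cn z0 (v2 gd z0 g)) := by
  classical
  have hex : ∃ v, adj (tl g) v ∧ gd (cn (g 0) v) ∧ gd (cn z0 v) := by
    set i : Fin R := ⟨0, hR⟩ with hi
    have e1 := hl (cn (g 0) (tl g)) i.succ
    have e2 := hl (cn z0 (tl g)) i.succ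
    obtain ⟨w, hw⟩ : ∃ w : Fin B, w ∉ {v : Fin B | ¬ gd (Function.update (cn (g 0) (tl g)) i.succ v)} ∪
        {v : Fin B | ¬ gd (Function.update (cn z0 (tl g)) i.succ v)} := by
      by_contra hcon
      push Not at hcon
      have e3 : (Set.univ : Set (Fin B)) ⊆ {v : Fin B | ¬ gd (Function.update (cn (g 0) (tl g)) i.succ v)} ∪
          {v : Fin B | ¬ gd (Function.update (cn z0 (tl g)) i.succ v)} := fun w _ => hcon w
      have e4 := Set.ncard_le_ncard e3 (Set.toFinite _)
      rw [Set.ncard_univ, Nat.card_eq_fintype_card, Fintype.card_fin] at e4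
      have e5 := e4.trans (Set.ncard_union_le _ _)
      omega
    rw [Set.mem_union, not_or, Set.mem_ofPred_eq, Set.mem_ofPred_eq, not_not, not_not] at hw
    rw [← cn_update, ← cn_update] at hw
    refine ⟨Function.update (tl g) i w, ?_, hw.1, hw.2⟩
    refine adj_update _ _ _ fun h => h2 ?_
    have e6 := hw.2
    rw [h, Function.update_eq_self] at e6
    exact e6
  unfold v2
  rw [dif_pos hex]
  exact hex.choose_spec

theorem dl_zero {g : Lab (R + 1) B} : dl gd z0 g = 0 ↔ g 0 = z0 := by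
  unfold dl
  split_ifs with h1 h2 <;> simp [h1]

theorem dl_le (g : Lab (R + 1) B) : dl gd z0 g ≤ 2 := by
  unfold dl
  split_ifs <;> omega

theorem hb_zero {g : Lab (R + 1) B} (h : dl gd z0 g = 0) : hb gd z0 g = tl g := by
  unfold hb
  rw [if_pos (dl_zero.1 h)]

theorem eq_zero {g : Lab (R + 1) B} (h : dl gd z0 g = 0) : g = cn z0 (hb gd z0 g) := by
  rw [hb_zero h, ← dl_zero.1 h, cn_tl]

theorem dl_cn (v : Lab R B) : dl gd z0 (cn z0 v) = 0 := dl_zero.2 rfl

theorem hb_cn (v : Lab R B) : hb gd z0 (cn z0 v) = v := by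
  rw [hb_zero (dl_cn v), tl_cn]

theorem hb_good (hR : 1 ≤ R) (hB : 2 * β + 4 ≤ B)
    (hl : ∀ (g : Lab (R + 1) B) (i : Fin (R + 1)), {v : Fin B | ¬ gd (Function.update g i v)}.ncard ≤ β)
    {g : Lab (R + 1) B} (hg : gd g) : gd (cn z0 (hb gd z0 g)) := by
  unfold hb
  split_ifs with h1 h2
  · rw [← h1, cn_tl]
    exact hg
  · exact h2
  · exact (v2_spec hR hB hl h2).2.2

theorem pr_spec (hR : 1 ≤ R) (hB : 2 * β + 4 ≤ B)
    (hl : ∀ (g : Lab (R + 1) B) (i : Fin (R + 1)), {v : Fin B | ¬ gd (Function.update g i v)}.ncard ≤ β)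
    {g : Lab (R + 1) B} (h0 : 0 < dl gd z0 g) :
    gd (pr gd z0 g) ∧ adj g (pr gd z0 g) ∧ dl gd z0 (pr gd z0 g) + 1 = dl gd z0 g ∧
      hb gd z0 (pr gd z0 g) = hb gd z0 g := by
  have h1 : g 0 ≠ z0 := fun h => by
    have := dl_zero (gd := gd) (z0 := z0) (g := g) |>.2 h
    omega
  by_cases h2 : gd (cn z0 (tl g))
  · have e1 : pr gd z0 g = cn z0 (tl g) := if_pos h2
    have e2 : dl gd z0 g = 1 := by
      unfold dl
      rw [if_neg h1, if_pos h2]
    have e3 : hb gd z0 g = tl g := by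
      unfold hb
      rw [if_neg h1, if_pos h2]
    rw [e1, e2, e3, dl_cn, hb_cn]
    refine ⟨h2, ?_, rfl, rfl⟩
    have e4 := adj_head h1 (tl g)
    rwa [cn_tl] at e4
  · have hs := v2_spec hR hB hl h2
    have e1 : pr gd z0 g = cn (g 0) (v2 gd z0 g) := if_neg h2
    have e2 : dl gd z0 g = 2 := by
      unfold dl
      rw [if_neg h1, if_neg h2]
    have e3 : hb gd z0 g = v2 gd z0 g := by
      unfold hb
      rw [if_neg h1, if_neg h2]
    have e4 : dl gd z0 (cn (g 0) (v2 gd z0 g)) = 1 := by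
      unfold dl
      rw [cn_zero, if_neg h1, tl_cn, if_pos hs.2.2]
    have e5 : hb gd z0 (cn (g 0) (v2 gd z0 g)) = v2 gd z0 g := by
      unfold hb
      rw [cn_zero, if_neg h1, tl_cn, if_pos hs.2.2]
    rw [e1, e2, e3, e4, e5]
    refine ⟨hs.2.1, ?_, rfl, rfl⟩
    have e6 := (adj_cn (x := g 0)).2 hs.1
    rwa [cn_tl] at e6

theorem mem_bl (hR : 1 ≤ R) (hB : 2 * β + 4 ≤ B)
    (hl : ∀ (g : Lab (R + 1) B) (i : Fin (R + 1)), {v : Fin B | ¬ gd (Function.update g i v)}.ncard ≤ β) :
    ∀ (n : ℕ) (g : Lab (R + 1) B), dl gd z0 g = n → g ∈ bl n (cn z0 (hb gd z0 g)) := by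
  intro n
  induction n with
  | zero =>
    intro g h
    rw [bl, Finset.mem_singleton]
    exact eq_zero h
  | succ n ih =>
    intro g h
    have h0 : 0 < dl gd z0 g := by
      rw [h]
      exact Nat.succ_pos n
    obtain ⟨_, h2, h3, h4⟩ := pr_spec hR hB hl h0
    have h5 := ih (pr gd z0 g) (by omega)
    rw [h4] at h5
    exact bl_adj h5 h2

/-- number of good neighbours of a new hub -/
theorem cnt_pairs (hl : ∀ (g : Lab (R + 1) B) (i : Fin (R + 1)), {v : Fin B | ¬ gd (Function.update g i v)}.ncard ≤ β)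
    {K' : ℕ} (hK' : K' + R * β ≤ R * (B - 1)) (v : Lab R B) :
    K' ≤ {p : Fin R × Fin B | p.2 ≠ v p.1 ∧ gd (cn z0 (Function.update v p.1 p.2))}.ncard := by
  classical
  set A := {p : Fin R × Fin B | p.2 ≠ v p.1 ∧ gd (cn z0 (Function.update v p.1 p.2))} with hA
  set C := ⋃ i : Fin R, (fun w : Fin B => (i, w)) '' {w : Fin B | ¬ gd (Function.update (cn z0 v) i.succ w)} with hC
  set D := Set.range (fun i : Fin R => (i, v i)) with hD
  have h1 : (Set.univ : Set (Fin R × Fin B)) ⊆ A ∪ (C ∪ D) := by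
    rintro ⟨i, w⟩ _
    by_cases h2 : w = v i
    · exact Or.inr (Or.inr ⟨i, by rw [h2]⟩)
    · by_cases h3 : gd (cn z0 (Function.update v i w))
      · exact Or.inl ⟨h2, h3⟩
      · refine Or.inr (Or.inl (Set.mem_iUnion.2 ⟨i, w, ?_, rfl⟩))
        show ¬ gd (Function.update (cn z0 v) i.succ w)
        rwa [← cn_update]
  have h2 := (Set.ncard_le_ncard h1 (Set.toFinite _)).trans (Set.ncard_union_le _ _)
  have h3 := Set.ncard_union_le C D
  have h4 : C.ncard ≤ R * β := by
    refine (Set.ncard_iUnion_le_of_fintype _).trans ?_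
    refine (Finset.sum_le_sum fun i _ => (Set.ncard_image_le (Set.toFinite _)).trans (hl (cn z0 v) i.succ)).trans ?_
    rw [Finset.sum_const, Finset.card_univ, Fintype.card_fin, smul_eq_mul]
  have h5 : D.ncard ≤ R := by
    rw [hD, ← Set.image_univ]
    refine (Set.ncard_image_le (Set.toFinite _)).trans ?_
    rw [Set.ncard_univ, Nat.card_eq_fintype_card, Fintype.card_fin]
  rw [Set.ncard_univ, Nat.card_eq_fintype_card, Fintype.card_prod, Fintype.card_fin, Fintype.card_fin] at h2
  have h6 : R * (B - 1) = R * B - R := by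
    rw [Nat.mul_sub, Nat.mul_one]
  omega

end lab

end StA

end Pool.Agent.GW
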