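import Pool.Agent.GW.StageA
import Pool.Agent.GW.Union

/-!
# Stage start, the doubled state (helper48)

`S.cover Q ∅` : `cvN Q` intertwines `r` and the new `r` on ALL letters, so the old words are unchanged (with `q` renamed); the new
words are the digons `(q, (q,true))`.  `pj` = projection.  `half`: one letter of each pair.
-/

set_option autoImplicit false

namespace Pool.Agent.GW

open Equiv Pool.Agent.SWP

namespace StA

theorem cvF_out {D : Type} {r : Perm D} {Q : Set D} {d : D} (h : d ∉ Q) : cvF r Q ∅ (Sum.inl d) = cvN Q (r d) := by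
  simp only [cvF, dif_neg h]

theorem cvF_in {D : Type} {r : Perm D} {Q : Set D} {d : D} (h : d ∈ Q) :
    cvF r Q ∅ (Sum.inl d) = Sum.inr (⟨d, h⟩, true) := by
  simp [cvF, h]

theorem cvF_true {D : Type} {r : Perm D} {Q : Set D} (q : Q) : cvF r Q ∅ (Sum.inr (q, true)) = Sum.inl (q : D) := by
  simp [cvF]

section cov

variable (S : Sf) (Q : Set S.D)

/-- the letters of the doubled state -/
abbrev cD : Type := S.D ⊕ (Q × Bool)

/-- the position of the letter `d` -/
noncomputable def ps (d : S.D) : (S.cover Q ∅).D := cvN Q d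

/-- projection -/
def pj : (S.cover Q ∅).D → S.D := fun c => match (c : S.D ⊕ (Q × Bool)) with
  | Sum.inl d => d
  | Sum.inr (q, _) => q

/-- the old letter -/
def iL (d : S.D) : (S.cover Q ∅).D := (Sum.inl d : S.D ⊕ (Q × Bool))

/-- the new letters -/
def iR (q : Q) (b : Bool) : (S.cover Q ∅).D := (Sum.inr (q, b) : S.D ⊕ (Q × Bool))

variable {S} {Q}

theorem ps_out {d : S.D} (h : d ∉ Q) : ps S Q d = iL S Q d := dif_neg h

theorem ps_in {d : S.D} (h : d ∈ Q) : ps S Q d = iR S Q ⟨d, h⟩ false := dif_pos h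

theorem pj_iL (d : S.D) : pj S Q (iL S Q d) = d := rfl

theorem pj_iR (q : Q) (b : Bool) : pj S Q (iR S Q q b) = q := rfl

theorem pj_ps (d : S.D) : pj S Q (ps S Q d) = d := by
  by_cases h : d ∈ Q
  · rw [ps_in h]
    rfl
  · rw [ps_out h]
    rfl

theorem iL_inj {d e : S.D} (h : iL S Q d = iL S Q e) : d = e := by
  have := congrArg (pj S Q) h
  exact this

theorem ps_inj : Function.Injective (ps S Q) := fun d e h => by
  have := congrArg (pj S Q) h
  rwa [pj_ps, pj_ps] at this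

theorem iL_ne_iR (d : S.D) (q : Q) (b : Bool) : iL S Q d ≠ iR S Q q b := Sum.inl_ne_inr

theorem iR_inj {q q' : Q} {b b' : Bool} (h : iR S Q q b = iR S Q q' b') : q = q' ∧ b = b' := by
  have h1 : ((q, b) : Q × Bool) = (q', b') := Sum.inr_injective h
  exact ⟨congrArg Prod.fst h1, congrArg Prod.snd h1⟩

/-- every letter is `iL d` or `iR q b` -/
theorem cases_cD (c : (S.cover Q ∅).D) : (∃ d, c = iL S Q d) ∨ ∃ q b, c = iR S Q q b := by
  rcases (c : S.D ⊕ (Q × Bool)) with d | ⟨q, b⟩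
  · exact Or.inl ⟨d, rfl⟩
  · exact Or.inr ⟨q, b, rfl⟩

theorem a_iL (d : S.D) : (S.cover Q ∅).a (iL S Q d) = iL S Q (S.a d) := rfl

theorem a_iR (q : Q) (b : Bool) : (S.cover Q ∅).a (iR S Q q b) = iR S Q q (!b) := rfl

theorem r_iL_out {d : S.D} (h : d ∉ Q) : (S.cover Q ∅).r (iL S Q d) = ps S Q (S.r d) := cvF_out h

theorem r_iL_in {d : S.D} (h : d ∈ Q) : (S.cover Q ∅).r (iL S Q d) = iR S Q ⟨d, h⟩ true := cvF_in h

theorem r_false (q : Q) : (S.cover Q ∅).r (iR S Q q false) = ps S Q (S.r q) := rfl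

theorem r_true (q : Q) : (S.cover Q ∅).r (iR S Q q true) = iL S Q q := cvF_true q

theorem r_ps (d : S.D) : (S.cover Q ∅).r (ps S Q d) = ps S Q (S.r d) := by
  by_cases h : d ∈ Q
  · rw [ps_in h, r_false]
  · rw [ps_out h, r_iL_out h]

theorem same_ps (d e : S.D) : (S.cover Q ∅).r.SameCycle (ps S Q d) (ps S Q e) ↔ S.r.SameCycle d e :=
  same_map' ps_inj r_ps d e

theorem same_ps' {d : S.D} {c : (S.cover Q ∅).D} (h : (S.cover Q ∅).r.SameCycle (ps S Q d) c) :
    ∃ e, c = ps S Q e ∧ S.r.SameCycle d e := (same_map r_ps d c).1 h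

end cov

/-! ### one letter of each pair -/

/-- one letter of each pair of `A` -/
theorem half {D : Type} [Fintype D] (a : Perm D) (haa : ∀ d, a (a d) = d) (A : Set D)
    (hne : ∀ d ∈ A, a d ≠ d) : ∃ Q ⊆ A, (∀ d ∈ Q, a d ∉ Q) ∧ ∀ d ∈ A, a d ∈ A → d ∈ Q ∨ a d ∈ Q := by
  classical
  let e : D ≃ Fin (Fintype.card D) := Fintype.equivFin D
  refine ⟨{d | d ∈ A ∧ (a d ∈ A → e d < e (a d))}, fun d hd => hd.1, fun d hd h => ?_, fun d hd had => ?_⟩
  · have h1 := hd.2 h.1
    have h2 := h.2 (by rw [haa]; exact hd.1)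
    rw [haa] at h2
    exact lt_asymm h1 h2
  · rcases lt_trichotomy (e d) (e (a d)) with h | h | h
    · exact Or.inl ⟨hd, fun _ => h⟩
    · exact absurd (e.injective h).symm (hne d hd)
    · refine Or.inr ⟨had, fun _ => ?_⟩
      rw [haa]
      exact h

end StA

end Pool.Agent.GW
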