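import Pool.Agent.GW.StageB
import Pool.Agent.GW.CutChain

/-!
# Stage start, attachments of the words (helper48)

For a net `N` of depth 0: `Uc d` = the letter by which the word of `d` is attached, `dlt d` = new level, `chi d` = new hub.
-/

set_option autoImplicit false

namespace Pool.Agent.GW

open Equiv Pool.Agent.SWP

namespace StA

theorem same_inv {D : Type} {s : Perm D} {p : D → Prop} (h : ∀ d, p (s d) ↔ p d) {d e : D} (H : s.SameCycle d e) :
    p d ↔ p e := by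
  obtain ⟨i, rfl⟩ := H
  induction i using Int.induction_on with
  | zero => simp
  | succ i ih =>
    rw [ih, add_comm, zpow_add, zpow_one, Perm.mul_apply, h]
  | pred i ih =>
    rw [ih, ← h ((s ^ (-(i : ℤ) - 1)) d)]
    have e1 : s ((s ^ (-(i : ℤ) - 1)) d) = (s ^ (-(i : ℤ))) d := by
      rw [← Perm.mul_apply, ← zpow_one_add]
      congr 2
      ring
    rw [e1]

section

variable {R B : ℕ} (P : Par (R + 1) B) (N : NetS (R + 1) B) (z0 : Fin B)

/-- good labels -/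
def gd (g : Lab (R + 1) B) : Prop := g ∈ P.pres ∧ N.t g = 0

variable {P} {N}

theorem line_gd {β : ℕ} (hβ : FewBad P N β) (g : Lab (R + 1) B) (i : Fin (R + 1)) :
    {v : Fin B | ¬ gd P N (Function.update g i v)}.ncard ≤ β := by
  refine le_trans (Set.ncard_le_ncard (fun v hv => ?_) (Set.toFinite _)) (hβ g i)
  have hv' : ¬ gd P N (Function.update g i v) := hv
  unfold gd at hv'
  rw [not_and_or] at hv'
  exact hv'

theorem same_F (hN : Ok P N) {d e : N.S.D} (hd : d ∈ N.F) (H : N.S.r.SameCycle d e) : e ∈ N.F :=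
  (same_inv (p := fun d => d ∈ N.F) hN.fat.inv H).1 hd

theorem same_hub (hN : Ok P N) {d e : N.S.D} (hd : d ∈ N.F) (H : N.S.r.SameCycle d e) : N.hub e = N.hub d := by
  have h1 := (same_inv (p := fun c => c ∈ N.F ∧ N.hub c = N.hub d) (fun c => ?_) H).1 ⟨hd, rfl⟩
  · exact h1.2
  · rw [hN.fat.inv c]
    refine and_congr_right fun hc => ?_
    rw [hN.hubr c hc]

theorem lev_zero (hN : Ok P N) (hdep : P.dep = 0) {d : N.S.D} (hd : d ∈ N.F) : N.lev d = 0 := by
  have := hN.levd d hd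
  omega

variable (P) (N)

open Classical in
/-- the condition for the attaching letter -/
def prU (d f : N.S.D) : Prop :=
  f ∈ N.fr ∧ if gd P N (N.hub d) then N.hub f = N.hub d ∧ N.hub (N.S.a f) = pr (gd P N) z0 (N.hub d) else
    f ∈ N.S.word d ∧ gd P N (N.hub (N.S.a f))

open Classical in
/-- the attaching letter -/
noncomputable def Uc (d : N.S.D) : N.S.D := if h : ∃ f, prU P N z0 d f then h.choose else d

open Classical in
/-- the new level -/
noncomputable def dlt (d : N.S.D) : ℕ :=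
  if gd P N (N.hub d) then dl (gd P N) z0 (N.hub d) else dl (gd P N) z0 (N.hub (N.S.a (Uc P N z0 d))) + 1

open Classical in
/-- the new hub -/
noncomputable def chi (d : N.S.D) : Lab R B :=
  if gd P N (N.hub d) then hb (gd P N) z0 (N.hub d) else hb (gd P N) z0 (N.hub (N.S.a (Uc P N z0 d)))

variable {P} {N} {z0}

theorem prU_same (hN : Ok P N) {d e : N.S.D} (hd : d ∈ N.F) (H : N.S.r.SameCycle d e) :
    prU P N z0 e = prU P N z0 d := by
  have h1 := same_hub hN hd H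
  have h2 : N.S.word e = N.S.word d := by
    ext c
    exact ⟨fun h => H.trans h, fun h => H.symm.trans h⟩
  funext f
  unfold prU
  rw [h1, h2]

theorem Uc_same (hN : Ok P N) {d e : N.S.D} (hd : d ∈ N.F) (H : N.S.r.SameCycle d e)
    (hex : ∃ f, prU P N z0 d f) : Uc P N z0 e = Uc P N z0 d := by
  have h1 := prU_same (z0 := z0) hN hd H
  have hex' : ∃ f, prU P N z0 e f := by
    rw [h1]
    exact hex
  unfold Uc
  rw [dif_pos hex, dif_pos hex']
  simp only [h1]

theorem Uc_spec {d : N.S.D} (hex : ∃ f, prU P N z0 d f) : prU P N z0 d (Uc P N z0 d) := by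
  unfold Uc
  rw [dif_pos hex]
  exact hex.choose_spec

variable {b β : ℕ}

/-- words of touched labels have a fresh letter to a good label -/
theorem exists_touched (hN : Ok P N) (hdep : P.dep = 0) (hb : ∀ g, N.t g ≤ b) (hβ : FewBad P N β)
    (hK : 4 ^ b * ((R + 1) * β) < P.K) {d : N.S.D} (hd : d ∈ N.F) :
    ∃ f, f ∈ N.fr ∧ f ∈ N.S.word d ∧ gd P N (N.hub (N.S.a f)) := by
  by_contra hcon
  push Not at hcon
  have h1 := hN.cnt d hd (lev_zero hN hdep hd)
  have h2 : {e | e ∈ N.fr ∧ N.S.r.SameCycle d e}.ncard ≤ {h | adj (N.hub d) h ∧ ¬ gd P N h}.ncard := by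
    refine Set.ncard_le_ncard_of_injOn (fun e => N.hub (N.S.a e)) (fun e he => ?_) (fun e he e' he' hee => ?_)
      (Set.toFinite _)
    · obtain ⟨h3, h4⟩ := he
      refine ⟨?_, hcon e h3 h4⟩
      have h5 := (hN.frF e h3).2.2.2
      rwa [same_hub hN hd h4] at h5
    · obtain ⟨h3, h4⟩ := he
      obtain ⟨h5, h6⟩ := he'
      exact hN.frU e h3 e' h5 (by rw [same_hub hN hd h4, same_hub hN hd h6]) hee
  have h3 := h2.trans (bad_nb (gd P N) (line_gd hβ) (N.hub d))
  have h4 : 4 ^ N.t (N.hub d) * {e | e ∈ N.fr ∧ N.S.r.SameCycle d e}.ncard ≤ 4 ^ b * ((R + 1) * β) :=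
    Nat.mul_le_mul (Nat.pow_le_pow_right (by norm_num) (hb _)) h3
  omega

theorem exists_U (hR : 1 ≤ R) (hB : 2 * β + 4 ≤ B) (hN : Ok P N) (hdep : P.dep = 0) (hb : ∀ g, N.t g ≤ b)
    (hβ : FewBad P N β) (hK : 4 ^ b * ((R + 1) * β) < P.K) {d : N.S.D} (hd : d ∈ N.F)
    (h : ¬ gd P N (N.hub d) ∨ 0 < dl (gd P N) z0 (N.hub d)) : ∃ f, prU P N z0 d f := by
  by_cases hg : gd P N (N.hub d)
  · have h0 := h.resolve_left (fun h' => h' hg)
    obtain ⟨h1, h2, _, _⟩ := pr_spec (z0 := z0) hR hB (line_gd hβ) h0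
    obtain ⟨f, f1, f2, f3⟩ := hN.frE (N.hub d) hg.1 _ h1.1 h2 hg.2 h1.2
    refine ⟨f, f1, ?_⟩
    rw [if_pos hg]
    exact ⟨f2, f3⟩
  · obtain ⟨f, f1, f2, f3⟩ := exists_touched hN hdep hb hβ hK hd
    refine ⟨f, f1, ?_⟩
    rw [if_neg hg]
    exact ⟨f2, f3⟩

/-- same word: same new level, hub, attaching letter -/
theorem same_all (hR : 1 ≤ R) (hB : 2 * β + 4 ≤ B) (hN : Ok P N) (hdep : P.dep = 0) (hb : ∀ g, N.t g ≤ b)
    (hβ : FewBad P N β) (hK : 4 ^ b * ((R + 1) * β) < P.K) {d e : N.S.D} (hd : d ∈ N.F) (H : N.S.r.SameCycle d e) :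
    dlt P N z0 e = dlt P N z0 d ∧ chi P N z0 e = chi P N z0 d := by
  have h1 := same_hub hN hd H
  by_cases hg : gd P N (N.hub d)
  · have hg' : gd P N (N.hub e) := by rwa [h1]
    unfold dlt chi
    rw [if_pos hg, if_pos hg', if_pos hg, if_pos hg', h1]
    exact ⟨rfl, rfl⟩
  · have hg' : ¬ gd P N (N.hub e) := by rwa [h1]
    have h2 := Uc_same (z0 := z0) hN hd H (exists_U hR hB hN hdep hb hβ hK hd (Or.inl hg))
    unfold dlt chi
    rw [if_neg hg, if_neg hg', if_neg hg, if_neg hg', h2]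
    exact ⟨rfl, rfl⟩

/-- the attaching letter of a word of positive level -/
theorem U_all (hR : 1 ≤ R) (hB : 2 * β + 4 ≤ B) (hN : Ok P N) (hdep : P.dep = 0) (hb : ∀ g, N.t g ≤ b)
    (hβ : FewBad P N β) (hK : 4 ^ b * ((R + 1) * β) < P.K) {d : N.S.D} (hd : d ∈ N.F) (h0 : 0 < dlt P N z0 d) :
    Uc P N z0 d ∈ N.fr ∧ N.S.r.SameCycle d (Uc P N z0 d) ∧
      dlt P N z0 (N.S.a (Uc P N z0 d)) + 1 = dlt P N z0 d ∧ chi P N z0 (N.S.a (Uc P N z0 d)) = chi P N z0 d ∧
      Uc P N z0 (Uc P N z0 d) = Uc P N z0 d := by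
  have hex : ∃ f, prU P N z0 d f := by
    refine exists_U hR hB hN hdep hb hβ hK hd ?_
    by_cases hg : gd P N (N.hub d)
    · refine Or.inr ?_
      unfold dlt at h0
      rwa [if_pos hg] at h0
    · exact Or.inl hg
  have hs := Uc_spec hex
  set u := Uc P N z0 d with hu
  obtain ⟨h1, h2⟩ := hs
  have huF := (hN.frF u h1).1
  have hauF := (hN.frF _ (hN.frF u h1).2.2.1).1
  by_cases hg : gd P N (N.hub d)
  · rw [if_pos hg] at h2
    have h3 : 0 < dl (gd P N) z0 (N.hub d) := by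
      unfold dlt at h0
      rwa [if_pos hg] at h0
    obtain ⟨p1, p2, p3, p4⟩ := pr_spec (z0 := z0) hR hB (line_gd hβ) h3
    have hsame : N.S.r.SameCycle d u :=
      hN.one d hd u huF h2.1.symm hg.2 (lev_zero hN hdep hd) (lev_zero hN hdep huF)
    have hga : gd P N (N.hub (N.S.a u)) := by
      rw [h2.2]
      exact p1
    refine ⟨h1, hsame, ?_, ?_, ?_⟩
    · unfold dlt
      rw [if_pos hg, if_pos hga, h2.2]
      exact p3
    · unfold chi
      rw [if_pos hg, if_pos hga, h2.2]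
      exact p4
    · exact Uc_same hN hd hsame hex
  · rw [if_neg hg] at h2
    have hsame : N.S.r.SameCycle d u := h2.1
    refine ⟨h1, hsame, ?_, ?_, ?_⟩
    · unfold dlt
      rw [if_neg hg, if_pos h2.2]
    · unfold chi
      rw [if_neg hg, if_pos h2.2]
    · exact Uc_same hN hd hsame hex

theorem dlt_zero {d : N.S.D} (h : dlt P N z0 d = 0) : gd P N (N.hub d) ∧ N.hub d = cn z0 (chi P N z0 d) := by
  unfold dlt at h
  split_ifs at h with hg
  refine ⟨hg, ?_⟩
  unfold chi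
  rw [if_pos hg]
  exact eq_zero h

theorem dlt_cn {d : N.S.D} {v : Lab R B} (h : N.hub d = cn z0 v) (hg : gd P N (cn z0 v)) :
    dlt P N z0 d = 0 ∧ chi P N z0 d = v := by
  unfold dlt chi
  rw [h, if_pos hg, if_pos hg, dl_cn, hb_cn]
  exact ⟨rfl, rfl⟩

theorem chi_good (hR : 1 ≤ R) (hB : 2 * β + 4 ≤ B) (hN : Ok P N) (hdep : P.dep = 0) (hb : ∀ g, N.t g ≤ b)
    (hβ : FewBad P N β) (hK : 4 ^ b * ((R + 1) * β) < P.K) {d : N.S.D} (hd : d ∈ N.F) :
    gd P N (cn z0 (chi P N z0 d)) := by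
  unfold chi
  split_ifs with hg
  · exact hb_good hR hB (line_gd hβ) hg
  · have hs := Uc_spec (exists_U (z0 := z0) hR hB hN hdep hb hβ hK hd (Or.inl hg))
    obtain ⟨_, h2⟩ := hs
    rw [if_neg hg] at h2
    exact hb_good hR hB (line_gd hβ) h2.2

theorem dlt_le (d : N.S.D) : dlt P N z0 d ≤ 3 := by
  unfold dlt
  split_ifs with hg
  · have := dl_le (gd := gd P N) (z0 := z0) (N.hub d)
    omega
  · have := dl_le (gd := gd P N) (z0 := z0) (N.hub (N.S.a (Uc P N z0 d)))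
    omega

theorem chi_ball (hR : 1 ≤ R) (hB : 2 * β + 4 ≤ B) (hN : Ok P N) (hdep : P.dep = 0) (hb : ∀ g, N.t g ≤ b)
    (hβ : FewBad P N β) (hK : 4 ^ b * ((R + 1) * β) < P.K) {d : N.S.D} (hd : d ∈ N.F) :
    N.hub d ∈ bl 3 (cn z0 (chi P N z0 d)) := by
  by_cases hg : gd P N (N.hub d)
  · unfold chi
    rw [if_pos hg]
    have h1 := mem_bl (z0 := z0) hR hB (line_gd hβ) _ (N.hub d) rfl
    exact bl_le (by have := dl_le (gd := gd P N) (z0 := z0) (N.hub d); omega) h1
  · have hs := Uc_spec (exists_U (z0 := z0) hR hB hN hdep hb hβ hK hd (Or.inl hg))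
    unfold chi
    rw [if_neg hg]
    set u := Uc P N z0 d with hu
    obtain ⟨h1, h2⟩ := hs
    rw [if_neg hg] at h2
    have h3 := mem_bl (z0 := z0) hR hB (line_gd hβ) _ (N.hub (N.S.a u)) rfl
    have h4 : adj (N.hub d) (N.hub (N.S.a u)) := by
      have h5 := (hN.frF u h1).2.2.2
      rwa [same_hub hN hd h2.1] at h5
    exact bl_le (by have := dl_le (gd := gd P N) (z0 := z0) (N.hub (N.S.a u)); omega) (bl_adj h3 h4)

end

end StA

end Pool.Agent.GW
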