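import Pool.Agent.GW.StageC

/-!
# Stage start, the new net (helper48)
-/

set_option autoImplicit false

namespace Pool.Agent.GW

open Equiv Pool.Agent.SWP

namespace StA

section

variable {R B : ℕ} (P : Par (R + 1) B) (N : NetS (R + 1) B) (z0 : Fin B)

/-- the up letters -/
def upS : Set N.S.D := {u | ∃ d ∈ N.F, 0 < dlt P N z0 d ∧ u = Uc P N z0 d}

/-- the fresh letters which are kept -/
def frS : Set N.S.D := {d | d ∈ N.fr ∧ dlt P N z0 d = 0 ∧ dlt P N z0 (N.S.a d) = 0}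

/-- reserved letters which are kept -/
def Kp (d : N.S.D) : Prop := d ∈ upS P N z0 ∨ N.S.a d ∈ upS P N z0 ∨ d ∈ frS P N z0

/-- the other reserved letters -/
def As : Set N.S.D := {d | d ∈ N.F ∧ N.S.a d ∈ N.F ∧ ¬ Kp P N z0 d}

/-- the new net -/
noncomputable def nN (Q : Set N.S.D) : NetS R B where
  S := N.S.cover Q ∅
  F := ps N.S Q '' N.F
  hub := fun c => chi P N z0 (pj N.S Q c)
  lev := fun c => dlt P N z0 (pj N.S Q c)
  fr := iL N.S Q '' frS P N z0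
  up := iL N.S Q '' upS P N z0
  t := fun _ => 0

/-- the hypotheses -/
structure Hy (b β : ℕ) : Prop where
  hR : 1 ≤ R
  hB : 2 * β + 4 ≤ B
  hN : Ok P N
  hdep : P.dep = 0
  hb : ∀ g, N.t g ≤ b
  hβ : FewBad P N β
  hK : 4 ^ b * ((R + 1) * β) < P.K

/-- the doubled letters -/
structure HQ (Q : Set N.S.D) : Prop where
  sub : Q ⊆ As P N z0
  one : ∀ d ∈ Q, N.S.a d ∉ Q
  all : ∀ d ∈ As P N z0, N.S.a d ∈ As P N z0 → d ∈ Q ∨ N.S.a d ∈ Q

variable {P} {N} {z0} {b β : ℕ} {Q : Set N.S.D}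

theorem frS_a (hN : Ok P N) {d : N.S.D} (h : d ∈ frS P N z0) : N.S.a d ∈ frS P N z0 := by
  refine ⟨(hN.frF d h.1).2.2.1, h.2.2, ?_⟩
  rw [N.S.aa]
  exact h.2.1

theorem Kp_a (hN : Ok P N) {d : N.S.D} (h : Kp P N z0 d) : Kp P N z0 (N.S.a d) := by
  rcases h with h | h | h
  · refine Or.inr (Or.inl ?_)
    rwa [N.S.aa]
  · exact Or.inl h
  · exact Or.inr (Or.inr (frS_a hN h))

theorem As_a (hN : Ok P N) {d : N.S.D} (h : d ∈ As P N z0) : N.S.a d ∈ As P N z0 := by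
  refine ⟨h.2.1, ?_, fun hk => h.2.2 ?_⟩
  · rw [N.S.aa]
    exact h.1
  · have := Kp_a hN hk
    rwa [N.S.aa] at this

theorem exists_Q (hN : Ok P N) : ∃ Q, HQ P N z0 Q := by
  obtain ⟨Q, h1, h2, h3⟩ := half N.S.a N.S.aa (As P N z0) (fun d hd => hN.fat.live d hd.1)
  exact ⟨Q, h1, h2, h3⟩

theorem notQ (hQ : HQ P N z0 Q) {d : N.S.D} (h : Kp P N z0 d) : d ∉ Q := fun h' => (hQ.sub h').2.2 h

theorem notQ' (hN : Ok P N) (hQ : HQ P N z0 Q) {d : N.S.D} (h : Kp P N z0 d) : N.S.a d ∉ Q :=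
  notQ hQ (Kp_a hN h)

theorem ps_Kp (hQ : HQ P N z0 Q) {d : N.S.D} (h : Kp P N z0 d) : ps N.S Q d = iL N.S Q d := ps_out (notQ hQ h)

/-- facts on the up letters -/
theorem upS_spec (H : Hy P N b β) {u : N.S.D} (hu : u ∈ upS P N z0) :
    u ∈ N.F ∧ u ∈ N.fr ∧ 0 < dlt P N z0 u ∧ dlt P N z0 (N.S.a u) + 1 = dlt P N z0 u ∧
      chi P N z0 (N.S.a u) = chi P N z0 u ∧ Uc P N z0 u = u := by
  obtain ⟨d, hd, h0, rfl⟩ := hu
  obtain ⟨h1, h2, h3, h4, h5⟩ := U_all H.hR H.hB H.hN H.hdep H.hb H.hβ H.hK hd h0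
  obtain ⟨h6, h7⟩ := same_all (z0 := z0) H.hR H.hB H.hN H.hdep H.hb H.hβ H.hK hd h2
  refine ⟨same_F H.hN hd h2, h1, ?_, ?_, ?_, h5⟩
  · rw [h6]
    exact h0
  · rw [h6]
    exact h3
  · rw [h7]
    exact h4

theorem upS_one (H : Hy P N b β) {u v : N.S.D} (hu : u ∈ upS P N z0) (hv : v ∈ upS P N z0)
    (h : N.S.r.SameCycle u v) : u = v := by
  obtain ⟨u1, _, u3, _, _, u6⟩ := upS_spec H hu
  obtain ⟨_, _, _, _, _, v6⟩ := upS_spec H hv
  rw [← u6, ← v6]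
  refine (Uc_same H.hN u1 h ?_).symm
  refine exists_U H.hR H.hB H.hN H.hdep H.hb H.hβ H.hK u1 ?_
  by_cases hg : gd P N (N.hub u)
  · refine Or.inr ?_
    unfold dlt at u3
    rwa [if_pos hg] at u3
  · exact Or.inl hg

theorem mem_F {c : (N.S.cover Q ∅).D} (h : c ∈ ps N.S Q '' N.F) : pj N.S Q c ∈ N.F := by
  obtain ⟨d, hd, rfl⟩ := h
  rwa [pj_ps]

theorem iL_mem {d : N.S.D} (hd : d ∈ N.F) (hQ : d ∉ Q) : iL N.S Q d ∈ ps N.S Q '' N.F :=
  ⟨d, hd, ps_out hQ⟩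

theorem iL_mem' {d : N.S.D} (h : iL N.S Q d ∈ ps N.S Q '' N.F) : d ∈ N.F ∧ d ∉ Q := by
  obtain ⟨e, he, h1⟩ := h
  have h2 : e = d := by
    have := congrArg (pj N.S Q) h1
    rwa [pj_ps] at this
  subst h2
  refine ⟨he, fun hq => ?_⟩
  rw [ps_in hq] at h1
  exact iL_ne_iR _ _ _ h1.symm

theorem iR_mem (hQ : HQ P N z0 Q) (q : Q) : iR N.S Q q false ∈ ps N.S Q '' N.F :=
  ⟨q, (hQ.sub q.2).1, ps_in q.2⟩

theorem iR_mem' (q : Q) : iR N.S Q q true ∉ ps N.S Q '' N.F := by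
  rintro ⟨e, _, h1⟩
  by_cases hq : e ∈ Q
  · rw [ps_in hq] at h1
    have := (iR_inj h1).2
    exact Bool.noConfusion this
  · rw [ps_out hq] at h1
    exact iL_ne_iR _ _ _ h1

theorem fat' (H : Hy P N b β) (hQ : HQ P N z0 Q) : Fat (N.S.cover Q ∅) (ps N.S Q '' N.F) := by
  refine ⟨fun c => ⟨?_, ?_⟩, ?_, ?_⟩
  · rintro ⟨e, he, h1⟩
    refine ⟨N.S.r.symm e, ?_, ?_⟩
    · have := H.hN.fat.inv (N.S.r.symm e)
      rw [Equiv.apply_symm_apply] at this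
      exact this.1 he
    · have h2 := r_ps (S := N.S) (Q := Q) (N.S.r.symm e)
      rw [Equiv.apply_symm_apply, h1] at h2
      exact (N.S.cover Q ∅).r.injective h2
  · rintro ⟨e, he, rfl⟩
    exact ⟨N.S.r e, (H.hN.fat.inv e).2 he, (r_ps e).symm⟩
  · rintro c ⟨d, hd, rfl⟩
    by_cases hq : d ∈ Q
    · rw [ps_in hq, a_iR]
      intro h
      have := (iR_inj h).2
      exact Bool.noConfusion this
    · rw [ps_out hq, a_iL]
      exact fun h => H.hN.fat.live d hd (iL_inj h)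
  · intro c hc hl
    rcases cases_cD c with ⟨d, rfl⟩ | ⟨q, b, rfl⟩
    · rw [a_iL] at hl ⊢
      have hl' : N.S.a d ≠ d := fun h => hl (by rw [h])
      by_cases hd : d ∈ N.F
      · have hq : d ∈ Q := by
          by_contra hq
          exact hc (iL_mem hd hq)
        exact iL_mem (hQ.sub hq).2.1 (hQ.one d hq)
      · refine iL_mem (H.hN.fat.out d hd hl') fun hq => hd ?_
        have := (hQ.sub hq).2.1
        rwa [N.S.aa] at this
    · cases b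
      · exact absurd (iR_mem hQ q) hc
      · rw [a_iR]
        exact iR_mem hQ q

theorem same_of {d e : N.S.D} (h : (N.S.cover Q ∅).r.SameCycle (ps N.S Q d) (ps N.S Q e)) : N.S.r.SameCycle d e :=
  (same_ps d e).1 h

theorem ncard_cover (C : Set N.S.D) : (ps N.S Q '' C).ncard = C.ncard := Set.ncard_image_of_injective _ ps_inj

theorem level_zero (H : Hy P N b β) {d e : N.S.D} (hd : d ∈ N.F) (he : e ∈ N.F) (h1 : dlt P N z0 d = 0)
    (h2 : dlt P N z0 e = 0) (h3 : chi P N z0 d = chi P N z0 e) : N.S.r.SameCycle d e := by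
  obtain ⟨g1, g2⟩ := dlt_zero h1
  obtain ⟨_, g4⟩ := dlt_zero h2
  refine H.hN.one d hd e he ?_ g1.2 (lev_zero H.hN H.hdep hd) (lev_zero H.hN H.hdep he)
  rw [g2, g4, h3]

theorem cnt' (H : Hy P N b β) (hQ : HQ P N z0 Q) {K' : ℕ} (hK' : K' + R * β ≤ R * (B - 1)) {d : N.S.D}
    (hd : d ∈ N.F) (h0 : dlt P N z0 d = 0) :
    K' ≤ {e | e ∈ iL N.S Q '' frS P N z0 ∧ (N.S.cover Q ∅).r.SameCycle (ps N.S Q d) e}.ncard := by
  classical
  obtain ⟨g1, g2⟩ := dlt_zero h0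
  set v := chi P N z0 d with hv
  refine (cnt_pairs (z0 := z0) (line_gd H.hβ) hK' v).trans ?_
  have hex : ∀ p : Fin R × Fin B, p.2 ≠ v p.1 ∧ gd P N (cn z0 (Function.update v p.1 p.2)) →
      ∃ f, f ∈ N.fr ∧ N.hub f = cn z0 v ∧ N.hub (N.S.a f) = cn z0 (Function.update v p.1 p.2) := by
    rintro p ⟨h1, h2⟩
    have g1' := g1
    rw [g2] at g1'
    obtain ⟨f, f1, f2, f3⟩ := H.hN.frE (cn z0 v) g1'.1 _ h2.1 (adj_cn.2 (adj_update _ _ _ h1)) g1'.2 h2.2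
    exact ⟨f, f1, f2, f3⟩
  have : Nonempty N.S.D := ⟨d⟩
  choose! f hf using hex
  refine Set.ncard_le_ncard_of_injOn (fun p => iL N.S Q (f p)) (fun p hp => ?_) (fun p hp p' hp' hpp => ?_)
    (Set.toFinite _)
  · obtain ⟨f1, f2, f3⟩ := hf p hp
    have g1' := g1
    rw [g2] at g1'
    have e1 := dlt_cn f2 g1'
    have e2 := dlt_cn f3 hp.2
    have hfS : f p ∈ frS P N z0 := ⟨f1, e1.1, e2.1⟩
    refine ⟨⟨f p, hfS, rfl⟩, ?_⟩
    have e3 : iL N.S Q (f p) = ps N.S Q (f p) := (ps_Kp hQ (Or.inr (Or.inr hfS))).symm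
    rw [e3, same_ps]
    exact level_zero H hd (H.hN.frF _ f1).1 h0 e1.1 (hv.symm.trans e1.2.symm)
  · obtain ⟨_, _, f3⟩ := hf p hp
    obtain ⟨_, _, f3'⟩ := hf p' hp'
    have e1 : f p = f p' := iL_inj hpp
    rw [e1, f3'] at f3
    have e2 := (cn_inj f3).2
    have h1 := hp.1
    have h1' := hp'.1
    have e3 : p.1 = p'.1 := by
      by_contra hne
      have e4 := congrFun e2 p.1
      rw [Function.update_self, Function.update_of_ne hne] at e4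
      exact h1 e4.symm
    have e5 : p.2 = p'.2 := by
      have e4 := congrFun e2 p.1
      rw [Function.update_self] at e4
      rw [e3, Function.update_self] at e4
      exact e4.symm
    exact Prod.ext e3 e5

theorem ncard_bl {Th0 : ℕ} (hdep : P.dep = 0) (hN : Ok P N) (hb : ∀ g, N.t g ≤ b) (hT : P.Th0 = Th0)
    (s : Finset (Lab (R + 1) B)) :
    {d | d ∈ N.F ∧ N.hub d ∈ s}.ncard ≤ s.card * (4 ^ b * Th0) := by
  classical
  have h1 : {d | d ∈ N.F ∧ N.hub d ∈ s} ⊆ ⋃ g ∈ s, {d | d ∈ N.F ∧ N.hub d = g ∧ N.lev d = 0} := by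
    rintro d ⟨h1, h2⟩
    exact Set.mem_biUnion (x := N.hub d) h2 ⟨h1, rfl, lev_zero hN hdep h1⟩
  refine (Set.ncard_le_ncard h1 (Set.toFinite _)).trans ((Finset.set_ncard_biUnion_le _ _).trans ?_)
  rw [← smul_eq_mul, ← Finset.sum_const]
  refine Finset.sum_le_sum fun g _ => (hN.c0 g).trans ?_
  rw [hT]
  exact Nat.mul_le_mul_right _ (Nat.pow_le_pow_right (by norm_num) (hb g))

theorem ok' (H : Hy P N b β) (hQ : HQ P N z0 Q) {K' : ℕ} (hK' : K' + R * β ≤ R * (B - 1)) :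
    Ok ⟨{v | gd P N (cn z0 v)}, K', P.Th0, ((R + 1) * B + 1) ^ 3 * 4 ^ b * P.Th0, 3⟩ (nN P N z0 Q) where
  fat := fat' H hQ
  hubr := by
    rintro c ⟨d, hd, rfl⟩
    show chi P N z0 (pj N.S Q ((N.S.cover Q ∅).r (ps N.S Q d))) = chi P N z0 (pj N.S Q (ps N.S Q d))
    rw [r_ps, pj_ps, pj_ps]
    exact (same_all H.hR H.hB H.hN H.hdep H.hb H.hβ H.hK hd ⟨1, by simp⟩).2
  levr := by
    rintro c ⟨d, hd, rfl⟩
    show dlt P N z0 (pj N.S Q ((N.S.cover Q ∅).r (ps N.S Q d))) = dlt P N z0 (pj N.S Q (ps N.S Q d))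
    rw [r_ps, pj_ps, pj_ps]
    exact (same_all H.hR H.hB H.hN H.hdep H.hb H.hβ H.hK hd ⟨1, by simp⟩).1
  hubp := by
    intro c hc
    exact chi_good H.hR H.hB H.hN H.hdep H.hb H.hβ H.hK (mem_F hc)
  levd := fun c _ => dlt_le _
  port := by
    rintro c ⟨d, hd, rfl⟩
    obtain ⟨e, h1, h2⟩ := H.hN.port d hd
    have hq : e ∉ Q := fun hq => h2 (hQ.sub hq).2.1
    refine ⟨ps N.S Q e, (same_ps d e).2 h1, ?_⟩
    show (N.S.cover Q ∅).a (ps N.S Q e) ∉ ps N.S Q '' N.F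
    rw [ps_out hq, a_iL]
    exact fun h => h2 (iL_mem' h).1
  upF := by
    rintro c ⟨u, hu, rfl⟩
    obtain ⟨h1, h2, h3, h4, h5, h6⟩ := upS_spec H hu
    have h7 := (H.hN.frF _ (H.hN.frF u h2).2.2.1).1
    refine ⟨iL_mem h1 (notQ hQ (Or.inl hu)), ?_, ?_, ?_⟩
    · exact iL_mem h7 (notQ' H.hN hQ (Or.inl hu))
    · exact h5
    · exact h4
  upE := by
    rintro c ⟨d, hd, rfl⟩ h0
    have h0' : 0 < dlt P N z0 d := by
      have h0'' : 0 < dlt P N z0 (pj N.S Q (ps N.S Q d)) := h0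
      rwa [pj_ps] at h0''
    have hu : Uc P N z0 d ∈ upS P N z0 := ⟨d, hd, h0', rfl⟩
    obtain ⟨_, h2, _⟩ := U_all H.hR H.hB H.hN H.hdep H.hb H.hβ H.hK hd h0'
    refine ⟨iL N.S Q (Uc P N z0 d), ⟨_, hu, rfl⟩, ?_⟩
    show (N.S.cover Q ∅).r.SameCycle (ps N.S Q d) (iL N.S Q (Uc P N z0 d))
    rw [← ps_Kp hQ (Or.inl hu), same_ps]
    exact h2
  upU := by
    rintro c ⟨u, hu, rfl⟩ c' ⟨v, hv, rfl⟩ h
    have h' : (N.S.cover Q ∅).r.SameCycle (iL N.S Q u) (iL N.S Q v) := h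
    rw [← ps_Kp hQ (Or.inl hu), ← ps_Kp hQ (Or.inl hv), same_ps] at h'
    rw [upS_one H hu hv h']
  resv := by
    rintro c ⟨d, hd, rfl⟩ h1 h0
    have h0' : 0 < dlt P N z0 d := by
      have h0'' : 0 < dlt P N z0 (pj N.S Q (ps N.S Q d)) := h0
      rwa [pj_ps] at h0''
    have h1' : (N.S.cover Q ∅).a (ps N.S Q d) ∈ ps N.S Q '' N.F := h1
    show ps N.S Q d ∈ iL N.S Q '' upS P N z0 ∨ (N.S.cover Q ∅).a (ps N.S Q d) ∈ iL N.S Q '' upS P N z0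
    by_cases hq : d ∈ Q
    · rw [ps_in hq, a_iR] at h1'
      exact absurd h1' (iR_mem' _)
    · rw [ps_out hq, a_iL] at h1' ⊢
      obtain ⟨h2, h3⟩ := iL_mem' h1'
      have hk : Kp P N z0 d := by
        by_contra hk
        have hA : d ∈ As P N z0 := ⟨hd, h2, hk⟩
        rcases hQ.all d hA (As_a H.hN hA) with h4 | h4
        · exact hq h4
        · exact h3 h4
      rcases hk with h4 | h4 | h4
      · exact Or.inl ⟨d, h4, rfl⟩
      · exact Or.inr ⟨_, h4, rfl⟩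
      · have := h4.2.1
        omega
  frF := by
    rintro c ⟨d, hd, rfl⟩
    obtain ⟨h1, h2, h3⟩ := hd
    obtain ⟨f1, f2, f3, f4⟩ := H.hN.frF d h1
    refine ⟨iL_mem f1 (notQ hQ (Or.inr (Or.inr ⟨h1, h2, h3⟩))), h2, ?_, ?_⟩
    · exact ⟨N.S.a d, frS_a H.hN ⟨h1, h2, h3⟩, rfl⟩
    · show adj (chi P N z0 d) (chi P N z0 (N.S.a d))
      rw [(dlt_zero h2).2, (dlt_zero h3).2, adj_cn] at f4
      exact f4
  frU := by
    rintro c ⟨d, hd, rfl⟩ c' ⟨e, he, rfl⟩ h1 h2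
    obtain ⟨d1, d2, d3⟩ := hd
    obtain ⟨e1, e2, e3⟩ := he
    have h1' : chi P N z0 d = chi P N z0 e := h1
    have h2' : chi P N z0 (N.S.a d) = chi P N z0 (N.S.a e) := h2
    have h3 : d = e := by
      refine H.hN.frU d d1 e e1 ?_ ?_
      · rw [(dlt_zero d2).2, (dlt_zero e2).2, h1']
      · rw [(dlt_zero d3).2, (dlt_zero e3).2, h2']
    rw [h3]
  frE := by
    intro g hg h hh hgh _ _
    have hg' : gd P N (cn z0 g) := hg
    have hh' : gd P N (cn z0 h) := hh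
    obtain ⟨d, d1, d2, d3⟩ := H.hN.frE (cn z0 g) hg'.1 (cn z0 h) hh'.1 (adj_cn.2 hgh) hg'.2 hh'.2
    obtain ⟨e1, e2⟩ := dlt_cn d2 hg'
    obtain ⟨e3, e4⟩ := dlt_cn d3 hh'
    exact ⟨iL N.S Q d, ⟨d, ⟨d1, e1, e3⟩, rfl⟩, e2, e4⟩
  one := by
    rintro c ⟨d, hd, rfl⟩ c' ⟨e, he, rfl⟩ h1 _ h2 h3
    have h1' : chi P N z0 (pj N.S Q (ps N.S Q d)) = chi P N z0 (pj N.S Q (ps N.S Q e)) := h1
    have h2' : dlt P N z0 (pj N.S Q (ps N.S Q d)) = 0 := h2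
    have h3' : dlt P N z0 (pj N.S Q (ps N.S Q e)) = 0 := h3
    rw [pj_ps, pj_ps] at h1'
    rw [pj_ps] at h2' h3'
    exact (same_ps d e).2 (level_zero H hd he h2' h3' h1')
  cnt := by
    rintro c ⟨d, hd, rfl⟩ h2
    have h2' : dlt P N z0 (pj N.S Q (ps N.S Q d)) = 0 := h2
    rw [pj_ps] at h2'
    have h3 := cnt' H hQ hK' hd h2'
    show K' ≤ 4 ^ 0 * _
    rw [pow_zero, one_mul]
    exact h3
  c0 := by
    intro g
    show {c | c ∈ ps N.S Q '' N.F ∧ chi P N z0 (pj N.S Q c) = g ∧ dlt P N z0 (pj N.S Q c) = 0}.ncard ≤ 4 ^ 0 * P.Th0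
    rw [pow_zero, one_mul]
    rcases Set.eq_empty_or_nonempty
      {c | c ∈ ps N.S Q '' N.F ∧ chi P N z0 (pj N.S Q c) = g ∧ dlt P N z0 (pj N.S Q c) = 0} with he | ⟨c, hc⟩
    · rw [he, Set.ncard_empty]
      exact Nat.zero_le _
    · have h1 : N.t (cn z0 g) = 0 := by
        obtain ⟨g1, g2⟩ := dlt_zero hc.2.2
        rw [hc.2.1] at g2
        rw [← g2]
        exact g1.2
      have h2 := H.hN.c0 (cn z0 g)
      rw [h1, pow_zero, one_mul] at h2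
      refine le_trans ?_ h2
      rw [← ncard_cover (Q := Q) {d | d ∈ N.F ∧ N.hub d = cn z0 g ∧ N.lev d = 0}]
      refine Set.ncard_le_ncard ?_ (Set.toFinite _)
      rintro c ⟨⟨d, hd, rfl⟩, h3, h4⟩
      rw [pj_ps] at h3 h4
      refine ⟨d, ⟨hd, ?_, lev_zero H.hN H.hdep hd⟩, rfl⟩
      rw [(dlt_zero h4).2, h3]
  cT := by
    intro g
    show {c | c ∈ ps N.S Q '' N.F ∧ chi P N z0 (pj N.S Q c) = g}.ncard ≤ 4 ^ 0 * (((R + 1) * B + 1) ^ 3 * 4 ^ b * P.Th0)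
    rw [pow_zero, one_mul]
    refine le_trans ?_ ((ncard_bl H.hdep H.hN H.hb rfl (bl 3 (cn z0 g))).trans ?_)
    · rw [← ncard_cover (Q := Q)]
      refine Set.ncard_le_ncard ?_ (Set.toFinite _)
      rintro c ⟨⟨d, hd, rfl⟩, h3⟩
      rw [pj_ps] at h3
      refine ⟨d, ⟨hd, ?_⟩, rfl⟩
      have := chi_ball (z0 := z0) H.hR H.hB H.hN H.hdep H.hb H.hβ H.hK hd
      rwa [h3] at this
    · rw [mul_assoc]
      exact Nat.mul_le_mul_right _ (card_bl 3 _)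

end

end StA

end Pool.Agent.GW
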