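import Pool.Agent.GW.Absorb
import Pool.Agent.GW.StageD

/-!
# Start of the next stage (one digit less)

`N` net with `R+1` digits and centre words only (depth 0). A label `g` is GOOD if it is present and untouched. New hubs: labels
`v` with `(v,0)` good; all other centre words become satellites:
* `g = (v,x)` good, `x ≠ 0`: if `(v,0)` is good: attached to the centre of `(v,0)` by the fresh letter, `δ g = 1`, new hub `v`; otherwise
  change one digit of `v` to get `v'` with `(v',x)`, `(v',0)` good (`2 β + 1 < B`): attached to `(v',x)`, `δ g = 2`, new hub `v'`;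
* a word `X` of a touched label: it has more than `(R+1) β` fresh letters (`cnt`), they lead to different labels (`frU`), choose one, `f`, with
  `hub (a f) = g'` good: attached by `f`, level `δ g' + 1 ≤ 3`, new hub = new hub of `g'`.
`up'` = the chosen letters. `fr'` = fresh letters between centres of new hubs (last digit 0, good, both ends). Every other reserved pair
is doubled: `Q` = one letter of each such pair, new state `S.cover Q ∅`; the letter `(q,false)` takes the place of `q` in its fat word,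
the digon `(q, (q,true))` is an outer word. So `F' = {inl d | d ∈ F, d ∉ Q} ∪ {(q,false)}`; the words are the same (with `q` renamed).
Counting: the words with new hub `v` belong to labels at distance at most 3 from `(v,0)`.
(statement helper92, proof helper48)
-/

set_option autoImplicit false

namespace Pool.Agent.GW

open Equiv Pool.Agent.SWP

namespace StA

section

variable {R B : ℕ} {P : Par (R + 1) B} {N : NetS (R + 1) B} {z0 : Fin B} {b β : ℕ} {Q : Set N.S.D}

theorem same_inl (H : Hy P N b β) (hQ : HQ P N z0 Q) {d : N.S.D} (hd : d ∉ N.F) {c : (N.S.cover Q ∅).D}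
    (h : (N.S.cover Q ∅).r.SameCycle (iL N.S Q d) c) : ∃ e, c = iL N.S Q e ∧ N.S.r.SameCycle d e := by
  have hq : d ∉ Q := fun hq => hd (hQ.sub hq).1
  rw [← ps_out hq] at h
  obtain ⟨e, h1, h2⟩ := same_ps' h
  refine ⟨e, ?_, h2⟩
  have he : e ∉ N.F := fun he => hd (same_F H.hN he h2.symm)
  rw [h1, ps_out (fun h => he (hQ.sub h).1)]

theorem len_outer (H : Hy P N b β) (hQ : HQ P N z0 Q) {d : N.S.D} (hd : d ∉ N.F) :
    (N.S.cover Q ∅).len (iL N.S Q d) ≤ N.S.len d := by
  unfold Sf.len Sf.num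
  rw [← Set.ncard_image_of_injective (N.S.word d ∩ N.S.live) (f := iL N.S Q) (fun _ _ => iL_inj)]
  refine Set.ncard_le_ncard ?_ (Set.toFinite _)
  rintro c ⟨h1, h2⟩
  obtain ⟨e, rfl, h3⟩ := same_inl H hQ hd h1
  exact ⟨e, ⟨h3, fun h => h2 (congrArg (iL N.S Q) h)⟩, rfl⟩

theorem len_digon (q : Q) (c : (N.S.cover Q ∅).D) (hc : c = iL N.S Q q ∨ c = iR N.S Q q true) :
    (N.S.cover Q ∅).len c ≤ 2 := by
  have h1 : ∀ d ∈ ({iL N.S Q q, iR N.S Q q true} : Set (N.S.cover Q ∅).D),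
      (N.S.cover Q ∅).r d ∈ ({iL N.S Q q, iR N.S Q q true} : Set (N.S.cover Q ∅).D) := by
    rintro d (rfl | rfl)
    · exact Or.inr (r_iL_in q.2)
    · exact Or.inl (r_true q)
  have h2 : c ∈ ({iL N.S Q q, iR N.S Q q true} : Set (N.S.cover Q ∅).D) := hc
  refine (len_le_num _ h1 h2).trans ((num_le_ncard _ _).trans ?_)
  exact (Set.ncard_insert_le _ _).trans (by rw [Set.ncard_singleton])

theorem len_out (H : Hy P N b β) (hQ : HQ P N z0 Q) {m : ℕ} (hm : 1 ≤ m) (hl : ∀ d, N.S.len d ≤ 8 * m)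
    (c : (N.S.cover Q ∅).D) (hc : c ∉ ps N.S Q '' N.F) : (N.S.cover Q ∅).len c ≤ 8 * m := by
  rcases cases_cD c with ⟨d, rfl⟩ | ⟨q, b, rfl⟩
  · by_cases hd : d ∈ N.F
    · have hq : d ∈ Q := by
        by_contra hq
        exact hc (iL_mem hd hq)
      exact (len_digon ⟨d, hq⟩ _ (Or.inl rfl)).trans (by omega)
    · exact (len_outer H hQ hd).trans (hl d)
  · cases b
    · exact absurd (iR_mem hQ q) hc
    · exact (len_digon q _ (Or.inr rfl)).trans (by omega)

theorem num_out (H : Hy P N b β) (hQ : HQ P N z0 Q) :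
    (N.S.cover Q ∅).num (ps N.S Q '' N.F)ᶜ ≤ B ^ (R + 1) * 4 ^ b * P.Th0 := by
  have h1 : (N.S.cover Q ∅).num (ps N.S Q '' N.F)ᶜ ≤ (ps N.S Q '' N.F).ncard := by
    unfold Sf.num
    refine Set.ncard_le_ncard_of_injOn (fun c => (N.S.cover Q ∅).a c) (fun c hc => ?_)
      (fun c _ c' _ h => (N.S.cover Q ∅).a.injective h) (Set.toFinite _)
    exact (fat' H hQ).out c hc.1 hc.2
  refine h1.trans ?_
  rw [ncard_cover]
  have h2 := ncard_bl H.hdep H.hN H.hb rfl Finset.univ
  rw [Finset.card_univ] at h2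
  have h3 : Fintype.card (Lab (R + 1) B) = B ^ (R + 1) := by
    rw [Fintype.card_fun, Fintype.card_fin, Fintype.card_fin]
  rw [h3] at h2
  rw [mul_assoc]
  refine le_trans (Set.ncard_le_ncard (fun d hd => ?_) (Set.toFinite _)) h2
  exact ⟨hd, Finset.mem_univ _⟩

end

end StA

theorem stageStart {R B : ℕ} (hR : 1 ≤ R) (P : Par (R + 1) B) (N : NetS (R + 1) B) (hN : Ok P N) (hdep : P.dep = 0)
    (b β : ℕ) (hb : ∀ g, N.t g ≤ b) (hβ : FewBad P N β) (hB : 2 * β + 4 ≤ B) (hK : 4 ^ b * ((R + 1) * β) < P.K)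
    (K' : ℕ) (hK' : K' + R * β ≤ R * (B - 1)) (m : ℕ) (hm : 1 ≤ m) (hl : ∀ d, N.S.len d ≤ 8 * m)
    (L : ℕ) (hL : 16 * m ≤ L) :
    ∃ (pres' : Set (Lab R B)) (N' : NetS R B),
      Ok ⟨pres', K', P.Th0, ((R + 1) * B + 1) ^ 3 * 4 ^ b * P.Th0, 3⟩ N' ∧ (∀ g, N'.t g = 0) ∧
      (U L N'.S → U L N.S) ∧ (∀ (g : Lab R B) (i : Fin R), {v : Fin B | Function.update g i v ∉ pres'}.ncard ≤ β) ∧
      (∀ d, d ∉ N'.F → N'.S.len d ≤ 8 * m) ∧ N'.S.num N'.Fᶜ ≤ B ^ (R + 1) * 4 ^ b * P.Th0 := by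
  obtain ⟨z0⟩ : Nonempty (Fin B) := ⟨⟨0, by omega⟩⟩
  have H : StA.Hy P N b β := ⟨hR, by omega, hN, hdep, hb, hβ, hK⟩
  obtain ⟨Q, hQ⟩ := StA.exists_Q (z0 := z0) hN
  refine ⟨{v | StA.gd P N (StA.cn z0 v)}, StA.nN P N z0 Q, StA.ok' H hQ hK', fun _ => rfl, ?_, ?_, ?_, ?_⟩
  · refine cover_U L N.S Q ∅ (fun q hq => hN.fat.live q (hQ.sub hq).1) fun d => ?_
    have := hl d
    omega
  · intro g i
    have h1 := StA.line_gd hβ (StA.cn z0 g) i.succ
    refine le_trans (Set.ncard_le_ncard (fun v hv => ?_) (Set.toFinite _)) h1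
    have hv' : ¬ StA.gd P N (StA.cn z0 (Function.update g i v)) := hv
    rw [StA.cn_update] at hv'
    exact hv'
  · exact StA.len_out H hQ hm hl
  · exact StA.num_out H hQ

end Pool.Agent.GW
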