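import Pool.Agent.GW.Close
import Pool.Agent.SWP.Grp

/-!
# One step of the schedule

PROOF. `SWP.grouping` (weights = indicator of the live outer letters, `κ = g = 8 m`, total `≤ W`) gives `grp`, constant on words,
every group has at most `16 m` live outer letters, `grp d ≤ W/(8m) < Q`. For a pair `(i, j)`, `i, j < Q`: `A` = outer letters with
`grp d = i` or `grp d = j`; `close_U`, `ok_setr`, then `loop` with `MK` = live letters of `A`, `s` from `route` for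
`ω = omg B0 c1 N.t`. New number of open corners `≤` old number minus the number of pairs `(d,e)` with `grp d = i, grp e = j`; the sum
over all `(i,j)` of these numbers is the old number. New `Ups ≤ Ups + (2048/m) fsum f MK_(ij)`; every letter is in `MK_(ij)` for at
most `2 Q` pairs, and `∑_d f (hub (a d)) ≤ 4^b Th ∑_g f g`, `∑ (ω + s) ≤ (1 + 40 R^2 B/M) ∑ ω`, `∑ ω ≤ B0^c1 R B Ups`. Take the pair with
the least `α Pend + γ Ups` (average over the `Q^2` pairs).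
-/

set_option autoImplicit false

namespace Pool.Agent.GW

open Equiv Pool.Agent.SWP

/-- relative growth of `Ups` in one step -/
noncomputable def del {R B : ℕ} (P : Par R B) (b M m Q : ℕ) (B0 : ℝ) : ℝ :=
  4096 * 4 ^ b * P.Th * (1 + 40 * (R : ℝ) ^ 2 * B / M) * B0 ^ (512 * (2 * R + 5) + 1) * R * B / (Q * m)

private theorem Step_sum_ind {D : Type} [Fintype D] (X : Set D) (c : ℝ) :
    ∑ e, Set.indicator X (fun _ => c) e = (X.ncard : ℝ) * c := by
  classical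
  have h : ∀ e, Set.indicator X (fun _ => c) e = if e ∈ X then c else 0 := fun e => Set.indicator_apply _ _ _
  rw [Finset.sum_congr rfl fun e _ => h e, ← Finset.sum_filter, Finset.sum_const, nsmul_eq_mul,
    Set.ncard_eq_toFinset_card']
  congr 2
  congr 1
  ext e
  simp

private theorem Step_wt_ind {D : Type} [Fintype D] (X B : Set D) :
    wt (Set.indicator X fun _ => (1 : ℝ)) B = ((B ∩ X).ncard : ℝ) := by
  unfold wt
  rw [← mul_one ((B ∩ X).ncard : ℝ), ← Step_sum_ind]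
  refine Finset.sum_congr rfl fun e _ => ?_
  rw [Set.indicator_indicator]

private theorem Step_lenF {R B : ℕ} (P : Par R B) (N : NetS R B) (hN : Ok P N) (b m : ℕ)
    (hb : ∀ g, N.t g + 512 ≤ b) (hΘ : 2 * 4 ^ b * P.Th + 1 ≤ m) {d : N.S.D} (hd : d ∈ N.F) :
    N.S.len d ≤ m := by
  have h1 : N.S.word d ⊆ {e | e ∈ N.F ∧ N.hub e = N.hub d} := by
    intro e he
    refine mem_of_same (s := N.S.r) (Z := {e | e ∈ N.F ∧ N.hub e = N.hub d}) ?_ ⟨hd, rfl⟩ he
    intro x hx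
    exact ⟨(hN.fat.inv x).2 hx.1, (hN.hubr x hx.1).trans hx.2⟩
  have h2 : N.S.len d ≤ (N.S.word d).ncard := num_le_ncard _ _
  have h3 := Set.ncard_le_ncard h1 (Set.toFinite _)
  have h4 := hN.cT (N.hub d)
  have h5 : 4 ^ N.t (N.hub d) ≤ 4 ^ b := Nat.pow_le_pow_right (by norm_num) (by have := hb (N.hub d); omega)
  have h6 : 4 ^ N.t (N.hub d) * P.Th ≤ 4 ^ b * P.Th := Nat.mul_le_mul_right _ h5
  have h7 : 2 * 4 ^ b * P.Th = 2 * (4 ^ b * P.Th) := by ring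
  omega

private theorem Step_core {R B : ℕ} (hR : 2 ≤ R) (P : Par R B) (N : NetS R B) (hN : Ok P N) (b β M : ℕ)
    (hb : ∀ g, N.t g + 512 ≤ b) (hβ : FewBad P N β) (hM : M * 4 ^ (b + 1) ≤ P.K)
    (hK : 4 ^ (b + 1) * (R * (β + 512 * (2 * R + 5)) + 6) ≤ P.K)
    (hB : 64 * (R + 3) ^ 2 * (β + 512 * (2 * R + 5) + P.K + 10) ≤ B)
    (B0 : ℝ) (hB0 : 1 ≤ B0) (s : Lab R B → ℝ) (hs : ∀ g, 0 ≤ s g)
    (hr : RouteOK M (omg B0 (512 * (2 * R + 5) + 1) N.t) s) (m : ℕ) (hm : 512 * kap P b + 1 ≤ m)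
    (hΘ : 2 * 4 ^ b * P.Th + 1 ≤ m) (hl : ∀ d, d ∉ N.F → N.S.len d ≤ 8 * m) (L : ℕ) (hL : 220 * m ≤ L)
    (A : Set N.S.D) (hA : N.S.Inv A) (hAF : ∀ d ∈ A, d ∉ N.F) (hn : N.S.num A ≤ 32 * m) :
    ∃ N' : NetS R B, Ok P N' ∧ (U L N'.S → U L N.S) ∧ (∀ d, d ∉ N'.F → N'.S.len d ≤ 8 * m) ∧
      (prs N'.S N'.F).ncard + {p | p ∈ prs N.S N.F ∧ p.1 ∈ A ∧ p.2 ∈ A}.ncard ≤ (prs N.S N.F).ncard ∧
      N'.S.num N'.Fᶜ ≤ N.S.num N.Fᶜ + 1024 * kap P b ∧
      Ups B0 N'.t ≤ Ups B0 N.t +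
        2048 / m * fsum N (fun g => omg B0 (512 * (2 * R + 5) + 1) N.t g + s g) (A ∩ N.S.live) := by
  have hlen : ∀ d, N.S.len d ≤ L := by
    intro d
    by_cases hd : d ∈ N.F
    · have := Step_lenF P N hN b m hb hΘ hd
      omega
    · have := hl d hd
      omega
  obtain ⟨r', h1, h2, h3, h4, h5⟩ := close_U L N.S A hA (by omega) hlen
  have hF1 : ∀ d ∈ N.F, r' d = N.S.r d := fun d hd => h1 d fun h => hAF _ h ((hN.fat.inv d).2 hd)
  have hnA : ∀ d, d ∉ A → r' d = N.S.r d := fun d hd => h1 d fun h => hd ((hA d).1 h)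
  have hF2 : ∀ d, r' d ∈ N.F ↔ d ∈ N.F := by
    intro d
    by_cases hd : d ∈ A
    · exact ⟨fun h => absurd h (hAF _ ((h2 d).2 hd)), fun h => absurd h (hAF _ hd)⟩
    · rw [hnA d hd]
      exact hN.fat.inv d
  have hN1 : Ok P (N.setr r') := ok_setr P N hN r' hF1 hF2
  have hl1 : ∀ d, d ∉ (N.setr r').F →
      ((N.setr r').S.len d ≤ 8 * m ∧ (A ∩ N.S.live) ∩ (N.setr r').S.word d = ∅) ∨
        (N.setr r').S.len d ≤ ((A ∩ N.S.live) ∩ (N.setr r').S.word d).ncard := by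
    intro d hd
    by_cases hdA : d ∈ A
    · right
      refine Set.ncard_le_ncard (?_ : (N.setr r').S.word d ∩ (N.setr r').S.live ⊆ _) (Set.toFinite _)
      rintro e ⟨he1, he2⟩
      have he3 : e ∈ A := mem_of_same (s := r') (Z := A) (fun x hx => (h2 x).2 hx) hdA he1
      exact ⟨⟨he3, he2⟩, he1⟩
    · left
      have hsub : (N.setr r').S.word d ⊆ {e | e ∉ A ∧ N.S.r.SameCycle d e} := by
        intro e he
        refine mem_of_same (s := r') (Z := {e | e ∉ A ∧ N.S.r.SameCycle d e}) ?_ ⟨hdA, Perm.SameCycle.refl _ _⟩ he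
        rintro x ⟨hx1, hx2⟩
        refine ⟨fun h => hx1 ((h2 x).1 h), ?_⟩
        rw [hnA x hx1]
        exact Perm.sameCycle_apply_right.2 hx2
      constructor
      · have h6 : (N.setr r').S.len d ≤ N.S.len d := by
          refine Set.ncard_le_ncard (?_ : (N.setr r').S.word d ∩ (N.setr r').S.live ⊆ N.S.word d ∩ N.S.live)
            (Set.toFinite _)
          rintro e ⟨he1, he2⟩
          exact ⟨(hsub he1).2, he2⟩
        exact h6.trans (hl d hd)
      · ext e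
        constructor
        · rintro ⟨⟨he1, _⟩, he2⟩
          exact absurd he1 (hsub he2).1
        · intro h
          exact absurd h (Set.notMem_empty _)
  obtain ⟨N', g1, g2, g3, g4, g5, g6⟩ := loop hR P (N.setr r') hN1 b β M hb hβ hM hK hB B0 hB0 s hs hr
    (A ∩ N.S.live) (fun d hd => ⟨hAF d hd.1, hd.2⟩) m hn hm hΘ hl1 L hL
  refine ⟨N', g1, fun h => h5 (g2 h), g3, ?_, g5, g6⟩
  have hdis : Disjoint (prs (N.setr r').S (N.setr r').F) {p | p ∈ prs N.S N.F ∧ p.1 ∈ A ∧ p.2 ∈ A} := by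
    rw [Set.disjoint_left]
    rintro p hp ⟨hq, hq1, hq2⟩
    exact h4 p.1 hq1 p.2 hq2 hp.2.2.1 hp.2.2.2.1 hp.2.2.2.2.1 hp.2.2.2.2.2
  have hsub : prs (N.setr r').S (N.setr r').F ∪ {p | p ∈ prs N.S N.F ∧ p.1 ∈ A ∧ p.2 ∈ A} ⊆ prs N.S N.F := by
    rintro p (hp | hp)
    · exact ⟨hp.1, hp.2.1, hp.2.2.1, hp.2.2.2.1, hp.2.2.2.2.1, h3 _ _ hp.2.2.2.2.2⟩
    · exact hp.1
  have h7 := Set.ncard_le_ncard hsub (Set.toFinite _)
  rw [Set.ncard_union_eq hdis (Set.toFinite _) (Set.toFinite _)] at h7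
  exact (Nat.add_le_add_right g4 _).trans h7

private theorem Step_adj {R B : ℕ} (h : Lab R B) : {g : Lab R B | adj g h}.ncard ≤ R * B := by
  classical
  have h1 : {g : Lab R B | adj g h} ⊆ (fun p : Fin R × Fin B => Function.update h p.1 p.2) '' Set.univ := by
    rintro g ⟨i, _, hi⟩
    refine ⟨(i, g i), Set.mem_univ _, ?_⟩
    funext k
    by_cases hk : k = i
    · subst hk
      simp
    · show Function.update h i (g i) k = g k
      rw [Function.update_of_ne hk, hi k hk]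
  refine (Set.ncard_le_ncard h1 (Set.toFinite _)).trans ((Set.ncard_image_le (Set.toFinite _)).trans ?_)
  rw [Set.ncard_univ, Nat.card_eq_fintype_card, Fintype.card_prod, Fintype.card_fin, Fintype.card_fin]

private theorem Step_omg {R B : ℕ} (hRB : 1 ≤ R * B) (B0 : ℝ) (hB0 : 1 ≤ B0) (c1 : ℕ) (t : Lab R B → ℕ) :
    ∑ g, omg B0 c1 t g ≤ B0 ^ c1 * ((R : ℝ) * B * Ups B0 t) := by
  have hp : ∀ n : ℕ, 0 ≤ B0 ^ n := fun n => pow_nonneg (by linarith) n
  have hRB' : (1 : ℝ) ≤ (R : ℝ) * B := by exact_mod_cast hRB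
  unfold omg
  rw [← Finset.mul_sum]
  refine mul_le_mul_of_nonneg_left ?_ (hp _)
  unfold Ups
  rw [Finset.sum_add_distrib, Finset.sum_add_distrib, mul_add, Finset.sum_comm]
  refine add_le_add ?_ ?_
  · exact le_mul_of_one_le_left (Finset.sum_nonneg fun g _ => hp _) hRB'
  · rw [Finset.mul_sum]
    refine Finset.sum_le_sum fun h _ => ?_
    have e1 : ∀ g : Lab R B, Set.indicator {h | adj g h} (fun h => B0 ^ nb t h) h =
        Set.indicator {g | adj g h} (fun _ => B0 ^ nb t h) g := by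
      intro g
      by_cases hg : adj g h
      · rw [Set.indicator_of_mem (show h ∈ {h | adj g h} from hg),
          Set.indicator_of_mem (show g ∈ {g | adj g h} from hg)]
      · rw [Set.indicator_of_notMem (show h ∉ {h | adj g h} from hg),
          Set.indicator_of_notMem (show g ∉ {g | adj g h} from hg)]
    rw [Finset.sum_congr rfl fun g _ => e1 g, Step_sum_ind]
    have e2 : (({g : Lab R B | adj g h}.ncard : ℕ) : ℝ) ≤ (R : ℝ) * B := by exact_mod_cast Step_adj h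
    exact mul_le_mul_of_nonneg_right e2 (hp _)

private theorem Step_fsum {R B : ℕ} (P : Par R B) (N : NetS R B) (hN : Ok P N) (b : ℕ)
    (hb : ∀ g, N.t g + 512 ≤ b) (f : Lab R B → ℝ) (hf : ∀ g, 0 ≤ f g) :
    fsum N f (N.Fᶜ ∩ N.S.live) ≤ 4 ^ b * P.Th * ∑ g, f g := by
  have e1 : ∀ d, Set.indicator (N.Fᶜ ∩ N.S.live) (fun d => f (N.hub (N.S.a d))) d =
      ∑ g, Set.indicator {d | d ∈ N.Fᶜ ∩ N.S.live ∧ N.hub (N.S.a d) = g} (fun _ => f g) d := by
    intro d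
    by_cases hd : d ∈ N.Fᶜ ∩ N.S.live
    · rw [Set.indicator_of_mem hd, Finset.sum_eq_single (N.hub (N.S.a d))]
      · rw [Set.indicator_of_mem]
        exact ⟨hd, rfl⟩
      · intro g _ hg
        rw [Set.indicator_of_notMem]
        rintro ⟨_, h⟩
        exact hg h.symm
      · intro h
        exact absurd (Finset.mem_univ _) h
    · rw [Set.indicator_of_notMem hd, Finset.sum_eq_zero]
      intro g _
      rw [Set.indicator_of_notMem]
      rintro ⟨h, _⟩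
      exact hd h
  unfold fsum
  rw [Finset.sum_congr rfl fun d _ => e1 d, Finset.sum_comm, Finset.mul_sum]
  refine Finset.sum_le_sum fun g _ => ?_
  rw [Step_sum_ind]
  refine mul_le_mul_of_nonneg_right ?_ (hf g)
  have h1 : {d | d ∈ N.Fᶜ ∩ N.S.live ∧ N.hub (N.S.a d) = g}.ncard ≤ {d | d ∈ N.F ∧ N.hub d = g}.ncard := by
    refine Set.ncard_le_ncard_of_injOn (fun d => N.S.a d) ?_ ?_ (Set.toFinite _)
    · rintro d ⟨⟨hd1, hd2⟩, hd3⟩
      exact ⟨hN.fat.out d hd1 hd2, hd3⟩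
    · intro x _ y _ hxy
      exact N.S.a.injective hxy
  have h4 := hN.cT g
  have h5 : 4 ^ N.t g ≤ 4 ^ b := Nat.pow_le_pow_right (by norm_num) (by have := hb g; omega)
  have h6 : 4 ^ N.t g * P.Th ≤ 4 ^ b * P.Th := Nat.mul_le_mul_right _ h5
  exact_mod_cast (h1.trans h4).trans h6

private theorem Step_avg {ι : Type} [DecidableEq ι] (t : Finset ι) (x y c F : ι → ℝ) (p u κ Φ α γ Q : ℝ) (hQ : 0 < Q)
    (hκ : 0 ≤ κ) (hα : 0 ≤ α) (hγ : 0 ≤ γ) (ht : (t.card : ℝ) = Q ^ 2) (hx : ∀ i ∈ t, x i + c i ≤ p) (hy : ∀ i ∈ t, y i ≤ u + κ * F i)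
    (hc : p ≤ ∑ i ∈ t, c i) (hF : ∑ i ∈ t, F i ≤ 2 * Q * Φ) :
    ∃ i ∈ t, α * x i + γ * y i ≤ α * ((1 - 1 / Q ^ 2) * p) + γ * (u + κ * (2 * Φ / Q)) := by
  have hne : t.Nonempty := by
    rw [← Finset.card_pos]
    have : (0 : ℝ) < t.card := by rw [ht]; positivity
    exact_mod_cast this
  have hQ2 : Q ^ 2 ≠ 0 := by positivity
  have hmain : ∑ i ∈ t, (α * x i + γ * y i) ≤
      ∑ _i ∈ t, (α * ((1 - 1 / Q ^ 2) * p) + γ * (u + κ * (2 * Φ / Q))) := by
    rw [Finset.sum_const, nsmul_eq_mul, ht, Finset.sum_add_distrib, ← Finset.mul_sum, ← Finset.mul_sum]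
    have h1 : ∑ i ∈ t, x i ≤ Q ^ 2 * p - p := by
      have h2 : ∑ i ∈ t, (x i + c i) ≤ ∑ _i ∈ t, p := Finset.sum_le_sum hx
      rw [Finset.sum_add_distrib, Finset.sum_const, nsmul_eq_mul, ht] at h2
      linarith
    have h3 : ∑ i ∈ t, y i ≤ Q ^ 2 * u + κ * (2 * Q * Φ) := by
      have h4 : ∑ i ∈ t, y i ≤ ∑ i ∈ t, (u + κ * F i) := Finset.sum_le_sum hy
      rw [Finset.sum_add_distrib, Finset.sum_const, nsmul_eq_mul, ht, ← Finset.mul_sum] at h4
      have h5 := mul_le_mul_of_nonneg_left hF hκ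
      linarith
    have h6 := mul_le_mul_of_nonneg_left h1 hα
    have h7 := mul_le_mul_of_nonneg_left h3 hγ
    have h8 : Q ^ 2 * (α * ((1 - 1 / Q ^ 2) * p) + γ * (u + κ * (2 * Φ / Q))) =
        α * (Q ^ 2 * p - p) + γ * (Q ^ 2 * u + κ * (2 * Q * Φ)) := by
      field_simp
    rw [h8]
    linarith
  exact Finset.exists_le_of_sum_le hne hmain

private theorem Step_ind_le {D : Type} (A : Set D) (f : D → ℝ) (d : D) (h : 0 ≤ f d) : Set.indicator A f d ≤ f d := by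
  by_cases hd : d ∈ A
  · rw [Set.indicator_of_mem hd]
  · rw [Set.indicator_of_notMem hd]
    exact h

theorem step {R B : ℕ} (hR : 2 ≤ R) (P : Par R B) (N : NetS R B) (hN : Ok P N) (b β M : ℕ)
    (hb : ∀ g, N.t g + 512 ≤ b) (hβ : FewBad P N β) (hM2 : 3 ≤ M) (hM : M * 4 ^ (b + 1) ≤ P.K)
    (hK : 4 ^ (b + 1) * (R * (β + 512 * (2 * R + 5)) + 6) ≤ P.K)
    (hB : 64 * (R + 3) ^ 2 * (β + 512 * (2 * R + 5) + P.K + 10) ≤ B)
    (B0 : ℝ) (hB0 : 1 ≤ B0) (m W Q : ℕ) (hm : 512 * kap P b + 1 ≤ m) (hΘ : 2 * 4 ^ b * P.Th + 1 ≤ m)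
    (hl : ∀ d, d ∉ N.F → N.S.len d ≤ 8 * m) (hW : N.S.num N.Fᶜ ≤ W) (hQ : W < 8 * m * Q) (L : ℕ) (hL : 220 * m ≤ L)
    (α γ : ℝ) (hα : 0 ≤ α) (hγ : 0 ≤ γ) :
    ∃ N' : NetS R B, Ok P N' ∧ (U L N'.S → U L N.S) ∧ (∀ d, d ∉ N'.F → N'.S.len d ≤ 8 * m) ∧
      N'.S.num N'.Fᶜ ≤ N.S.num N.Fᶜ + 1024 * kap P b ∧
      α * (prs N'.S N'.F).ncard + γ * Ups B0 N'.t ≤
        α * ((1 - 1 / (Q : ℝ) ^ 2) * (prs N.S N.F).ncard) + γ * ((1 + del P b M m Q B0) * Ups B0 N.t) := by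
  classical
  have hmR : (0 : ℝ) < m := by
    have : 0 < m := by omega
    exact_mod_cast this
  have hQpos : 0 < Q := by
    rcases Nat.eq_zero_or_pos Q with h | h
    · subst h
      simp at hQ
    · exact h
  have hQR : (0 : ℝ) < Q := by exact_mod_cast hQpos
  have hMR : (0 : ℝ) < M := by
    have : 0 < M := by omega
    exact_mod_cast this
  have hBpos : 0 < B := by
    have h0 : 0 < 64 * (R + 3) ^ 2 * (β + 512 * (2 * R + 5) + P.K + 10) := by positivity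
    omega
  have hRB : 1 ≤ R * B := Nat.mul_pos (by omega) hBpos
  have hB0' : (0 : ℝ) ≤ B0 := by linarith
  have hω : ∀ g, 0 ≤ omg B0 (512 * (2 * R + 5) + 1) N.t g := by
    intro g
    unfold omg
    refine mul_nonneg (pow_nonneg hB0' _) (add_nonneg (pow_nonneg hB0' _) (Finset.sum_nonneg fun h _ => ?_))
    exact Set.indicator_nonneg (fun _ _ => pow_nonneg hB0' _) _
  obtain ⟨s, hs, hsum, hr⟩ := route hR M hM2 (omg B0 (512 * (2 * R + 5) + 1) N.t) hω
  have hcyc : ∀ d, cyc N.S.r (Set.indicator (N.Fᶜ ∩ N.S.live) fun _ => (1 : ℝ)) d ≤ 8 * m := by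
    intro d
    have e1 : cyc N.S.r (Set.indicator (N.Fᶜ ∩ N.S.live) fun _ => (1 : ℝ)) d =
        ((N.S.word d ∩ (N.Fᶜ ∩ N.S.live)).ncard : ℝ) := Step_wt_ind _ _
    rw [e1]
    by_cases hd : d ∈ N.F
    · have e2 : N.S.word d ∩ (N.Fᶜ ∩ N.S.live) = ∅ := by
        ext e
        constructor
        · rintro ⟨he1, he2, _⟩
          exact absurd (mem_of_same (s := N.S.r) (Z := N.F) (fun x hx => (hN.fat.inv x).2 hx) hd he1) he2
        · intro h
          exact absurd h (Set.notMem_empty _)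
      rw [e2, Set.ncard_empty]
      push_cast
      positivity
    · have e3 : (N.S.word d ∩ (N.Fᶜ ∩ N.S.live)).ncard ≤ N.S.len d := by
        refine Set.ncard_le_ncard (?_ : _ ⊆ N.S.word d ∩ N.S.live) (Set.toFinite _)
        rintro e ⟨he1, _, he2⟩
        exact ⟨he1, he2⟩
      exact_mod_cast e3.trans (hl d hd)
  have hWR : ∑ d, Set.indicator (N.Fᶜ ∩ N.S.live) (fun _ => (1 : ℝ)) d ≤ W := by
    rw [Step_sum_ind, mul_one]
    exact_mod_cast hW
  obtain ⟨grp, hg1, hg2, hg3⟩ := grouping N.S.r (Set.indicator (N.Fᶜ ∩ N.S.live) fun _ => (1 : ℝ))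
    (fun d => Set.indicator_nonneg (fun _ _ => zero_le_one) d) (8 * m) (8 * m) W (by positivity) (by positivity) hcyc hWR
  have hg4 : ∀ d, grp d < Q := by
    intro d
    have h1 := hg3 d
    have h2 : (W : ℝ) < 8 * m * Q := by exact_mod_cast hQ
    have h3 : (W : ℝ) / (8 * m) < Q := by
      rw [div_lt_iff₀ (by positivity)]
      linarith
    exact_mod_cast h1.trans_lt h3
  have hg5 : ∀ i, ({d | grp d = i} ∩ (N.Fᶜ ∩ N.S.live)).ncard ≤ 16 * m := by
    intro i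
    have h1 := hg2 i
    rw [Step_wt_ind] at h1
    have h2 : (({d | grp d = i} ∩ (N.Fᶜ ∩ N.S.live)).ncard : ℝ) ≤ ((16 * m : ℕ) : ℝ) := by
      push_cast
      linarith
    exact_mod_cast h2
  have key : ∀ ij : ℕ × ℕ, ∃ N' : NetS R B, Ok P N' ∧ (U L N'.S → U L N.S) ∧ (∀ d, d ∉ N'.F → N'.S.len d ≤ 8 * m) ∧
      (prs N'.S N'.F).ncard + {p | p ∈ prs N.S N.F ∧ p.1 ∈ {d | d ∉ N.F ∧ (grp d = ij.1 ∨ grp d = ij.2)} ∧
        p.2 ∈ {d | d ∉ N.F ∧ (grp d = ij.1 ∨ grp d = ij.2)}}.ncard ≤ (prs N.S N.F).ncard ∧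
      N'.S.num N'.Fᶜ ≤ N.S.num N.Fᶜ + 1024 * kap P b ∧
      Ups B0 N'.t ≤ Ups B0 N.t +
        2048 / m * fsum N (fun g => omg B0 (512 * (2 * R + 5) + 1) N.t g + s g)
          ({d | d ∉ N.F ∧ (grp d = ij.1 ∨ grp d = ij.2)} ∩ N.S.live) := by
    intro ij
    refine Step_core hR P N hN b β M hb hβ hM hK hB B0 hB0 s hs hr m hm hΘ hl L hL
      {d | d ∉ N.F ∧ (grp d = ij.1 ∨ grp d = ij.2)} ?_ (fun d hd => hd.1) ?_
    · intro d
      show (N.S.r d ∉ N.F ∧ (grp (N.S.r d) = ij.1 ∨ grp (N.S.r d) = ij.2)) ↔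
        (d ∉ N.F ∧ (grp d = ij.1 ∨ grp d = ij.2))
      rw [hg1, hN.fat.inv d]
    · have h1 : {d | d ∉ N.F ∧ (grp d = ij.1 ∨ grp d = ij.2)} ∩ N.S.live ⊆
          ({d | grp d = ij.1} ∩ (N.Fᶜ ∩ N.S.live)) ∪ ({d | grp d = ij.2} ∩ (N.Fᶜ ∩ N.S.live)) := by
        rintro d ⟨⟨hd1, hd2 | hd2⟩, hd3⟩
        · exact Or.inl ⟨hd2, hd1, hd3⟩
        · exact Or.inr ⟨hd2, hd1, hd3⟩
      have h2 := Set.ncard_le_ncard h1 (Set.toFinite _)
      have h3 := Set.ncard_union_le ({d | grp d = ij.1} ∩ (N.Fᶜ ∩ N.S.live))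
        ({d | grp d = ij.2} ∩ (N.Fᶜ ∩ N.S.live))
      have h4 := hg5 ij.1
      have h5 := hg5 ij.2
      unfold Sf.num
      omega
  choose N' k1 k2 k3 k4 k5 k6 using key
  have hf : ∀ g, 0 ≤ omg B0 (512 * (2 * R + 5) + 1) N.t g + s g := fun g => add_nonneg (hω g) (hs g)
  have hcard : ((Finset.range Q ×ˢ Finset.range Q).card : ℝ) = (Q : ℝ) ^ 2 := by
    rw [Finset.card_product, Finset.card_range]
    push_cast
    ring
  have hc : ((prs N.S N.F).ncard : ℝ) ≤ ∑ ij ∈ Finset.range Q ×ˢ Finset.range Q,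
      ({p | p ∈ prs N.S N.F ∧ p.1 ∈ {d | d ∉ N.F ∧ (grp d = ij.1 ∨ grp d = ij.2)} ∧
        p.2 ∈ {d | d ∉ N.F ∧ (grp d = ij.1 ∨ grp d = ij.2)}}.ncard : ℝ) := by
    have h1 : (prs N.S N.F).ncard = ∑ ij ∈ Finset.range Q ×ˢ Finset.range Q,
        ((prs N.S N.F).toFinset.filter fun p => (grp p.1, grp p.2) = ij).card := by
      rw [Set.ncard_eq_toFinset_card']
      refine Finset.card_eq_sum_card_fiberwise fun p _ => ?_
      exact Finset.mem_coe.2 (Finset.mem_product.2 ⟨Finset.mem_range.2 (hg4 _), Finset.mem_range.2 (hg4 _)⟩)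
    rw [h1]
    push_cast
    refine Finset.sum_le_sum fun ij _ => ?_
    have h2 : ((prs N.S N.F).toFinset.filter fun p => (grp p.1, grp p.2) = ij).card ≤
        {p | p ∈ prs N.S N.F ∧ p.1 ∈ {d | d ∉ N.F ∧ (grp d = ij.1 ∨ grp d = ij.2)} ∧
          p.2 ∈ {d | d ∉ N.F ∧ (grp d = ij.1 ∨ grp d = ij.2)}}.ncard := by
      rw [← Set.ncard_coe_finset]
      refine Set.ncard_le_ncard ?_ (Set.toFinite _)
      intro p hp
      rw [Finset.mem_coe, Finset.mem_filter, Set.mem_toFinset] at hp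
      obtain ⟨hp1, hp2⟩ := hp
      refine ⟨hp1, ⟨hp1.1, Or.inl ?_⟩, ⟨hp1.2.1, Or.inr ?_⟩⟩
      · exact congrArg Prod.fst hp2
      · exact congrArg Prod.snd hp2
    exact_mod_cast h2
  have hF : ∑ ij ∈ Finset.range Q ×ˢ Finset.range Q,
      fsum N (fun g => omg B0 (512 * (2 * R + 5) + 1) N.t g + s g)
        ({d | d ∉ N.F ∧ (grp d = ij.1 ∨ grp d = ij.2)} ∩ N.S.live) ≤
      2 * Q * fsum N (fun g => omg B0 (512 * (2 * R + 5) + 1) N.t g + s g) (N.Fᶜ ∩ N.S.live) := by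
    unfold fsum
    rw [Finset.sum_comm, Finset.mul_sum]
    refine Finset.sum_le_sum fun d _ => ?_
    by_cases hd : d ∈ N.Fᶜ ∩ N.S.live
    · rw [Set.indicator_of_mem hd]
      have hφ := hf (N.hub (N.S.a d))
      set φ : ℝ := omg B0 (512 * (2 * R + 5) + 1) N.t (N.hub (N.S.a d)) + s (N.hub (N.S.a d)) with hφd
      have h1 : ∀ ij ∈ Finset.range Q ×ˢ Finset.range Q,
          Set.indicator ({d | d ∉ N.F ∧ (grp d = ij.1 ∨ grp d = ij.2)} ∩ N.S.live)
            (fun d => omg B0 (512 * (2 * R + 5) + 1) N.t (N.hub (N.S.a d)) + s (N.hub (N.S.a d))) d ≤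
          (if grp d = ij.1 then φ else 0) + (if grp d = ij.2 then φ else 0) := by
        intro ij _
        by_cases hi : grp d = ij.1
        · rw [if_pos hi]
          refine (Step_ind_le _ (fun d => omg B0 (512 * (2 * R + 5) + 1) N.t (N.hub (N.S.a d)) + s (N.hub (N.S.a d))) d hφ).trans ?_
          have : 0 ≤ if grp d = ij.2 then φ else 0 := by split_ifs <;> [exact hφ; exact le_refl _]
          linarith
        · by_cases hj : grp d = ij.2
          · rw [if_neg hi, if_pos hj]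
            refine (Step_ind_le _ (fun d => omg B0 (512 * (2 * R + 5) + 1) N.t (N.hub (N.S.a d)) + s (N.hub (N.S.a d))) d hφ).trans ?_
            linarith
          · rw [if_neg hi, if_neg hj, Set.indicator_of_notMem]
            · simp
            · rintro ⟨⟨_, h | h⟩, _⟩
              · exact hi h
              · exact hj h
      refine (Finset.sum_le_sum h1).trans ?_
      rw [Finset.sum_product]
      have h2 : ∀ i ∈ Finset.range Q, ∑ j ∈ Finset.range Q,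
          ((if grp d = (i, j).1 then φ else 0) + (if grp d = (i, j).2 then φ else 0)) =
          Q * (if grp d = i then φ else 0) + φ := by
        intro i _
        show ∑ j ∈ Finset.range Q, ((if grp d = i then φ else 0) + (if grp d = j then φ else 0)) =
          Q * (if grp d = i then φ else 0) + φ
        rw [Finset.sum_add_distrib, Finset.sum_const, Finset.card_range, nsmul_eq_mul, Finset.sum_ite_eq,
          if_pos (Finset.mem_range.2 (hg4 d))]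
      rw [Finset.sum_congr rfl h2, Finset.sum_add_distrib, ← Finset.mul_sum, Finset.sum_ite_eq,
        if_pos (Finset.mem_range.2 (hg4 d)), Finset.sum_const, Finset.card_range, nsmul_eq_mul]
      linarith
    · rw [Set.indicator_of_notMem hd, mul_zero, Finset.sum_eq_zero]
      intro ij _
      rw [Set.indicator_of_notMem]
      rintro ⟨⟨h, _⟩, h'⟩
      exact hd ⟨h, h'⟩
  obtain ⟨ij, _, hij⟩ := Step_avg (Finset.range Q ×ˢ Finset.range Q)
    (fun ij => ((prs (N' ij).S (N' ij).F).ncard : ℝ)) (fun ij => Ups B0 (N' ij).t)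
    (fun ij => ({p | p ∈ prs N.S N.F ∧ p.1 ∈ {d | d ∉ N.F ∧ (grp d = ij.1 ∨ grp d = ij.2)} ∧
        p.2 ∈ {d | d ∉ N.F ∧ (grp d = ij.1 ∨ grp d = ij.2)}}.ncard : ℝ))
    (fun ij => fsum N (fun g => omg B0 (512 * (2 * R + 5) + 1) N.t g + s g)
        ({d | d ∉ N.F ∧ (grp d = ij.1 ∨ grp d = ij.2)} ∩ N.S.live))
    ((prs N.S N.F).ncard : ℝ) (Ups B0 N.t) (2048 / m)
    (fsum N (fun g => omg B0 (512 * (2 * R + 5) + 1) N.t g + s g) (N.Fᶜ ∩ N.S.live)) α γ Q hQR (by positivity)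
    hα hγ hcard (fun ij _ => by exact_mod_cast k4 ij) (fun ij _ => k6 ij) hc hF
  refine ⟨N' ij, k1 ij, k2 ij, k3 ij, k5 ij, hij.trans ?_⟩
  refine add_le_add (le_refl _) (mul_le_mul_of_nonneg_left ?_ hγ)
  have hu : 0 ≤ Ups B0 N.t := Finset.sum_nonneg fun g _ => add_nonneg (pow_nonneg hB0' _) (pow_nonneg hB0' _)
  have a1 := Step_fsum P N hN b hb _ hf
  have a2 : ∑ g, (omg B0 (512 * (2 * R + 5) + 1) N.t g + s g) ≤
      (1 + 40 * (R : ℝ) ^ 2 * B / M) * ∑ g, omg B0 (512 * (2 * R + 5) + 1) N.t g := by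
    rw [Finset.sum_add_distrib]
    linarith
  have a3 := Step_omg hRB B0 hB0 (512 * (2 * R + 5) + 1) N.t
  have a4 : (0 : ℝ) ≤ 1 + 40 * (R : ℝ) ^ 2 * B / M := by positivity
  have a5 : fsum N (fun g => omg B0 (512 * (2 * R + 5) + 1) N.t g + s g) (N.Fᶜ ∩ N.S.live) ≤
      4 ^ b * P.Th * ((1 + 40 * (R : ℝ) ^ 2 * B / M) *
        (B0 ^ (512 * (2 * R + 5) + 1) * ((R : ℝ) * B * Ups B0 N.t))) := by
    refine a1.trans (mul_le_mul_of_nonneg_left (a2.trans (mul_le_mul_of_nonneg_left a3 a4)) (by positivity))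
  have a6 : 2048 / (m : ℝ) * (2 * fsum N (fun g => omg B0 (512 * (2 * R + 5) + 1) N.t g + s g) (N.Fᶜ ∩ N.S.live) / Q) ≤
      2048 / (m : ℝ) * (2 * (4 ^ b * P.Th * ((1 + 40 * (R : ℝ) ^ 2 * B / M) *
        (B0 ^ (512 * (2 * R + 5) + 1) * ((R : ℝ) * B * Ups B0 N.t)))) / Q) := by
    refine mul_le_mul_of_nonneg_left ?_ (by positivity)
    refine div_le_div_of_nonneg_right ?_ hQR.le
    linarith
  have a7 : 2048 / (m : ℝ) * (2 * (4 ^ b * P.Th * ((1 + 40 * (R : ℝ) ^ 2 * B / M) *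
        (B0 ^ (512 * (2 * R + 5) + 1) * ((R : ℝ) * B * Ups B0 N.t)))) / Q) = del P b M m Q B0 * Ups B0 N.t := by
    unfold del
    field_simp
    ring
  rw [a7] at a6
  linarith

end Pool.Agent.GW
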