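import Pool.Agent.GW.FatDef
import Pool.Agent.GW.MsbL

/-!
# Strands: facts on chains, the new state
-/

set_option autoImplicit false

namespace Pool.Agent.GW

open Equiv Pool.Agent.SWP

theorem schain_next {α : Type} {R : α → α → Prop} : ∀ {l : List α}, l.IsChain R → ∀ p ∈ l,
    (∃ q ∈ l, R p q) ∨ l.getLast? = some p := by
  intro l
  induction l with
  | nil => intro _ p hp; cases hp
  | cons a l ih =>
    intro h p hp
    cases l with
    | nil =>
      right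
      rw [List.mem_singleton] at hp
      rw [hp]; rfl
    | cons b l =>
      rw [List.isChain_cons_cons] at h
      rcases List.mem_cons.1 hp with h1 | h1
      · left
        exact ⟨b, by simp, by rw [h1]; exact h.1⟩
      · rcases ih h.2 p h1 with ⟨q, hq, hR⟩ | h2
        · exact Or.inl ⟨q, List.mem_cons_of_mem _ hq, hR⟩
        · right
          rw [List.getLast?_cons_cons]
          exact h2

theorem schain_prev {α : Type} {R : α → α → Prop} : ∀ {l : List α}, l.IsChain R → ∀ q ∈ l,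
    (∃ p ∈ l, R p q) ∨ l.head? = some q := by
  intro l
  induction l with
  | nil => intro _ p hp; cases hp
  | cons a l ih =>
    intro h p hp
    rcases List.mem_cons.1 hp with h1 | h1
    · right
      rw [h1]; rfl
    · cases l with
      | nil => cases h1
      | cons b l =>
        rw [List.isChain_cons_cons] at h
        left
        rcases ih h.2 p h1 with ⟨q, hq, hR⟩ | h2
        · exact ⟨q, List.mem_cons_of_mem _ hq, hR⟩
        · have h3 : b = p := by simpa using h2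
          exact ⟨a, by simp, by rw [← h3]; exact h.1⟩

/-- the facts on a chain which we use -/
structure SLk (S : Sf) (F : Set S.D) (l : List (S.D × S.D)) (x y : S.D) : Prop where
  fat : ∀ p ∈ l, p.1 ∈ F ∧ p.2 ∈ F
  same : ∀ p ∈ l, S.r.SameCycle p.1 p.2
  ne : ∀ p ∈ l, p.1 ≠ p.2
  uniq : ∀ p ∈ l, ∀ q ∈ l, S.r.SameCycle p.1 q.1 → p = q
  lf : ∀ p ∈ l, p.2 ≠ y → ∃ q ∈ l, S.a p.2 = q.1
  lb : ∀ q ∈ l, q.1 ≠ x → ∃ p ∈ l, S.a p.2 = q.1
  hx : ∃ p ∈ l, p.1 = x
  hy : ∃ p ∈ l, p.2 = y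
  xy : ∀ p ∈ l, p.1 = x → p.2 ≠ y
  ax : S.a x ∉ F
  ay : S.a y ∉ F
  outer : S.r.SameCycle (S.a x) (S.a y)

theorem pw_all {α : Type} {R : α → α → Prop} (hs : ∀ a b, R a b → R b a) : ∀ {l : List α}, l.Pairwise R →
    ∀ a ∈ l, ∀ b ∈ l, a ≠ b → R a b := by
  intro l
  induction l with
  | nil => intro _ p hp; cases hp
  | cons c l ih =>
    intro h a ha b hb hne
    rw [List.pairwise_cons] at h
    rcases List.mem_cons.1 ha with h1 | h1
    · rcases List.mem_cons.1 hb with h2 | h2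
      · exact absurd (h1.trans h2.symm) hne
      · rw [h1]; exact h.1 b h2
    · rcases List.mem_cons.1 hb with h2 | h2
      · rw [h2]; exact hs _ _ (h.1 a h1)
      · exact ih h.2 a h1 b h2 hne

theorem Chn.lk {S : Sf} {F : Set S.D} {l : List (S.D × S.D)} {x y : S.D} (h : Chn S F l x y) : SLk S F l x y where
  fat := h.fat
  same := h.same
  ne := h.ne
  uniq := by
    intro p hp q hq hs
    by_contra hne
    exact pw_all (fun _ _ h1 h2 => h1 h2.symm) h.dist p hp q hq hne hs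
  lf := by
    intro p hp hpy
    rcases schain_next h.chain p hp with h1 | h1
    · exact h1
    · exfalso
      obtain ⟨e, he⟩ := h.hy
      rw [h1] at he
      apply hpy
      rw [Option.some.inj he]
  lb := by
    intro p hp hpx
    rcases schain_prev h.chain p hp with h1 | h1
    · exact h1
    · exfalso
      obtain ⟨e, he⟩ := h.hx
      rw [h1] at he
      apply hpx
      rw [Option.some.inj he]
  hx := by
    obtain ⟨f, hf⟩ := h.hx
    exact ⟨(x, f), List.mem_of_head? hf, rfl⟩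
  hy := by
    obtain ⟨e, he⟩ := h.hy
    exact ⟨(e, y), List.mem_of_getLast? he, rfl⟩
  xy := by
    intro p hp h1 h2
    have hd := h.dist
    have h3 := h.two
    obtain ⟨f, hf⟩ := h.hx
    obtain ⟨e, he⟩ := h.hy
    have hsame := h.same
    have key : ∀ l : List (S.D × S.D), l.Pairwise (fun p q => ¬ S.r.SameCycle p.1 q.1) → 2 ≤ l.length →
        l.head? = some (x, f) → l.getLast? = some (e, y) → ¬ S.r.SameCycle x e := by
      intro l hd h3 hf he
      match l, hd, h3, hf, he with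
      | a :: b :: l', hd, h3, hf, he =>
        rw [List.pairwise_cons] at hd
        have h5 : a = (x, f) := by simpa using hf
        rw [List.getLast?_cons_cons] at he
        have h6 := hd.1 _ (List.mem_of_getLast? he)
        rw [h5] at h6
        exact h6
    have h4 := key l hd h3 hf he
    apply h4
    have h5 := hsame p hp
    rw [h1, h2] at h5
    exact h5.trans (hsame _ (List.mem_of_getLast? he)).symm
  ax := h.ax
  ay := h.ay
  outer := h.outer

section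
variable {S : Sf} {F : Set S.D} {l : List (S.D × S.D)} {x y : S.D}

theorem SLk.swap (h : SLk S F l x y) : SLk S F (l.map Prod.swap) y x where
  fat := by
    intro p hp
    rw [List.mem_map] at hp
    obtain ⟨q, hq, rfl⟩ := hp
    exact (h.fat q hq).symm
  same := by
    intro p hp
    rw [List.mem_map] at hp
    obtain ⟨q, hq, rfl⟩ := hp
    exact (h.same q hq).symm
  ne := by
    intro p hp
    rw [List.mem_map] at hp
    obtain ⟨q, hq, rfl⟩ := hp
    exact (h.ne q hq).symm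
  uniq := by
    intro p hp q hq hs
    rw [List.mem_map] at hp hq
    obtain ⟨p, hp, rfl⟩ := hp
    obtain ⟨q, hq, rfl⟩ := hq
    rw [h.uniq p hp q hq (((h.same p hp).trans hs).trans (h.same q hq).symm)]
  lf := by
    intro p hp hpx
    rw [List.mem_map] at hp
    obtain ⟨q, hq, rfl⟩ := hp
    obtain ⟨p, hp, h1⟩ := h.lb q hq hpx
    refine ⟨p.swap, List.mem_map.2 ⟨p, hp, rfl⟩, ?_⟩
    show S.a q.1 = p.2
    rw [← h1, S.aa]
  lb := by
    intro p hp hpx
    rw [List.mem_map] at hp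
    obtain ⟨q, hq, rfl⟩ := hp
    obtain ⟨p, hp, h1⟩ := h.lf q hq hpx
    refine ⟨p.swap, List.mem_map.2 ⟨p, hp, rfl⟩, ?_⟩
    show S.a p.1 = q.2
    rw [← h1, S.aa]
  hx := by
    obtain ⟨p, hp, h1⟩ := h.hy
    exact ⟨p.swap, List.mem_map.2 ⟨p, hp, rfl⟩, h1⟩
  hy := by
    obtain ⟨p, hp, h1⟩ := h.hx
    exact ⟨p.swap, List.mem_map.2 ⟨p, hp, rfl⟩, h1⟩
  xy := by
    intro p hp h1 h2
    rw [List.mem_map] at hp
    obtain ⟨q, hq, rfl⟩ := hp
    exact h.xy q hq h2 h1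
  ax := h.ay
  ay := h.ax
  outer := h.outer.symm

/-- entries and exits -/
def stK (l : List (S.D × S.D)) : Set S.D := {d | ∃ p ∈ l, d = p.1 ∨ d = p.2}

/-- crossing letters -/
def stQ (l : List (S.D × S.D)) (x y : S.D) : Set S.D := {d | d ∈ stK l ∧ d ≠ x ∧ d ≠ y}

/-- letters of the words of the chain -/
def stW (l : List (S.D × S.D)) : Set S.D := {d | ∃ p ∈ l, S.r.SameCycle p.1 d}

theorem SLk.KW (h : SLk S F l x y) {d : S.D} (hd : d ∈ stK l) : d ∈ stW l := by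
  obtain ⟨p, hp, rfl | rfl⟩ := hd
  · exact ⟨p, hp, Perm.SameCycle.refl _ _⟩
  · exact ⟨p, hp, h.same p hp⟩

theorem SLk.WF (h : SLk S F l x y) (hF : Fat S F) {d : S.D} (hd : d ∈ stW l) : d ∈ F := by
  obtain ⟨p, hp, h1⟩ := hd
  exact mem_of_same (s := S.r) (fun d hd => (hF.inv d).2 hd) (h.fat p hp).1 h1

theorem SLk.KF (h : SLk S F l x y) {d : S.D} (hd : d ∈ stK l) : d ∈ F := by
  obtain ⟨p, hp, rfl | rfl⟩ := hd
  · exact (h.fat p hp).1
  · exact (h.fat p hp).2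

theorem SLk.xK (h : SLk S F l x y) : x ∈ stK l := by
  obtain ⟨p, hp, h1⟩ := h.hx
  exact ⟨p, hp, Or.inl h1.symm⟩

theorem SLk.yK (h : SLk S F l x y) : y ∈ stK l := by
  obtain ⟨p, hp, h1⟩ := h.hy
  exact ⟨p, hp, Or.inr h1.symm⟩

/-- exits are no entries -/
theorem SLk.ee (h : SLk S F l x y) {p q : S.D × S.D} (hp : p ∈ l) (hq : q ∈ l) : p.1 ≠ q.2 := by
  intro h1
  have h2 : p = q := h.uniq p hp q hq (by
    rw [h1]
    exact (h.same q hq).symm)
  subst h2
  exact h.ne p hp h1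

theorem SLk.px (h : SLk S F l x y) {p : S.D × S.D} (hp : p ∈ l) : p.2 ≠ x := by
  obtain ⟨q, hq, h1⟩ := h.hx
  rw [← h1]
  exact (h.ee hq hp).symm

theorem SLk.py (h : SLk S F l x y) {p : S.D × S.D} (hp : p ∈ l) : p.1 ≠ y := by
  obtain ⟨q, hq, h1⟩ := h.hy
  rw [← h1]
  exact h.ee hp hq

theorem SLk.Q2 (h : SLk S F l x y) {p : S.D × S.D} (hp : p ∈ l) (hy : p.2 ≠ y) : p.2 ∈ stQ l x y :=
  ⟨⟨p, hp, Or.inr rfl⟩, h.px hp, hy⟩

theorem SLk.Q1 (h : SLk S F l x y) {p : S.D × S.D} (hp : p ∈ l) (hx : p.1 ≠ x) : p.1 ∈ stQ l x y :=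
  ⟨⟨p, hp, Or.inl rfl⟩, hx, h.py hp⟩

theorem SLk.Qa (h : SLk S F l x y) {d : S.D} (hd : d ∈ stQ l x y) : S.a d ∈ stQ l x y := by
  have hxx : S.a d ≠ x := fun h1 => h.ax (by rw [← h1, S.aa]; exact h.KF hd.1)
  have hyy : S.a d ≠ y := fun h1 => h.ay (by rw [← h1, S.aa]; exact h.KF hd.1)
  obtain ⟨⟨p, hp, rfl | rfl⟩, h1, h2⟩ := hd
  · obtain ⟨q, hq, h3⟩ := h.lb p hp h1
    have h4 : S.a p.1 = q.2 := by rw [← h3, S.aa]
    exact ⟨⟨q, hq, Or.inr h4⟩, hxx, hyy⟩
  · obtain ⟨q, hq, h3⟩ := h.lf p hp h2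
    exact ⟨⟨q, hq, Or.inl h3⟩, hxx, hyy⟩

theorem SLk.Qa' (h : SLk S F l x y) {d : S.D} (hd : S.a d ∈ stQ l x y) : d ∈ stQ l x y := by
  have := h.Qa hd
  rw [S.aa] at this
  exact this

theorem SLk.Qx (h : SLk S F l x y) {d : S.D} (hd : S.a d ∈ stK l) : d ∈ stQ l x y ∨ d = S.a x ∨ d = S.a y := by
  by_cases h1 : S.a d = x
  · right; left; rw [← h1, S.aa]
  by_cases h2 : S.a d = y
  · right; right; rw [← h2, S.aa]
  exact Or.inl (h.Qa' ⟨hd, h1, h2⟩)

theorem SLk.cut (h : SLk S F l x y) (d : S.D) : Cut S l d ↔ d ∈ stK l ∨ d = S.a x ∨ d = S.a y := by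
  constructor
  · rintro ⟨p, hp, h1 | h1 | h1 | h1⟩
    · exact Or.inl ⟨p, hp, Or.inl h1⟩
    · exact Or.inl ⟨p, hp, Or.inr h1⟩
    · rcases h.Qx ⟨p, hp, Or.inl h1⟩ with h2 | h2
      · exact Or.inl h2.1
      · exact Or.inr h2
    · rcases h.Qx ⟨p, hp, Or.inr h1⟩ with h2 | h2
      · exact Or.inl h2.1
      · exact Or.inr h2
  · rintro (⟨p, hp, h1 | h1⟩ | h1 | h1)
    · exact ⟨p, hp, Or.inl h1⟩
    · exact ⟨p, hp, Or.inr (Or.inl h1)⟩
    · obtain ⟨p, hp, h2⟩ := h.hx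
      exact ⟨p, hp, Or.inr (Or.inr (Or.inl (by rw [h1, S.aa, h2])))⟩
    · obtain ⟨p, hp, h2⟩ := h.hy
      exact ⟨p, hp, Or.inr (Or.inr (Or.inr (by rw [h1, S.aa, h2])))⟩

theorem SLk.cutF (h : SLk S F l x y) {d : S.D} (hd : d ∈ F) : Cut S l d ↔ d ∈ stK l := by
  rw [h.cut]
  constructor
  · rintro (h1 | h1 | h1)
    · exact h1
    · exact absurd (h1 ▸ hd) h.ax
    · exact absurd (h1 ▸ hd) h.ay
  · exact Or.inl

theorem SLk.cutO (h : SLk S F l x y) {d : S.D} (hd : d ∉ F) : Cut S l d ↔ d = S.a x ∨ d = S.a y := by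
  rw [h.cut]
  constructor
  · rintro (h1 | h1)
    · exact absurd (h.KF h1) hd
    · exact h1
  · exact Or.inr

theorem scut_a {d : S.D} (hd : Cut S l d) : Cut S l (S.a d) := by
  obtain ⟨p, hp, h1 | h1 | h1 | h1⟩ := hd
  · exact ⟨p, hp, Or.inr (Or.inr (Or.inl (by rw [S.aa, h1])))⟩
  · exact ⟨p, hp, Or.inr (Or.inr (Or.inr (by rw [S.aa, h1])))⟩
  · exact ⟨p, hp, Or.inl h1⟩
  · exact ⟨p, hp, Or.inr (Or.inl h1)⟩

theorem scut_a' {d : S.D} (hd : Cut S l (S.a d)) : Cut S l d := by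
  have := scut_a hd
  rw [S.aa] at this
  exact this

theorem SLk.axy (h : SLk S F l x y) : S.a x ≠ S.a y := by
  intro h1
  have h2 : x = y := S.a.injective h1
  obtain ⟨p, hp, h3⟩ := h.hy
  exact h.px hp (by rw [h3, h2])

end

end Pool.Agent.GW
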