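import Pool.Agent.GW.StrA

/-!
# Strands: the new state
-/

set_option autoImplicit false

namespace Pool.Agent.GW

open Equiv Pool.Agent.SWP

section
variable (S : Sf) (l : List (S.D × S.D)) (x y : S.D)

/-- letters of the subdivided state -/
abbrev stD1 : Type := S.D ⊕ (stQ l x y × Bool)

/-- the doubled letters -/
def stG : Set (stD1 S l x y) := {c | msP S (stQ l x y) c ∈ stW (S := S) l ∧ ∀ d ∈ stK l, c ≠ Sum.inl d}

/-- letters of the new state -/
abbrev stD2 : Type := stD1 S l x y ⊕ (stG S l x y × Bool)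

noncomputable abbrev st1 : Sf := S.msub (stQ l x y)

noncomputable abbrev st2 : Sf := (st1 S l x y).cover (stG S l x y) Set.univ

def stY : Set (stD2 S l x y) := {c | ∃ d, Cut S l d ∧ c = Sum.inl (Sum.inl d)}

theorem stCl : (st2 S l x y).Cl (stY S l x y) := by
  rintro c ⟨d, hd, rfl⟩
  exact ⟨S.a d, scut_a hd, rfl⟩

/-- the new state -/
noncomputable def st3 : Sf := (st2 S l x y).glueSet (stY S l x y) (stCl S l x y)

noncomputable abbrev stN (t : stD1 S l x y) : stD2 S l x y := cvN (stG S l x y) t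

theorem st3_not {c : stD2 S l x y} (h : c ∉ stY S l x y) : (st3 S l x y).r c = (st2 S l x y).r c := by
  show (st2 S l x y).r ((st2 S l x y).beta (stY S l x y) c) = _
  rw [(st2 S l x y).beta_notMem h]

theorem st3_mem {d : S.D} (h : Cut S l d) : (st3 S l x y).r (Sum.inl (Sum.inl d) : stD2 S l x y) =
    (st2 S l x y).r (Sum.inl (Sum.inl (S.a d)) : stD2 S l x y) := by
  show (st2 S l x y).r ((st2 S l x y).beta (stY S l x y) (Sum.inl (Sum.inl d) : stD2 S l x y)) = _
  rw [(st2 S l x y).beta_mem (stCl S l x y) ⟨d, h, rfl⟩]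
  rfl

theorem sa3_not {c : stD2 S l x y} (h : c ∉ stY S l x y) : (st3 S l x y).a c = (st2 S l x y).a c := by
  show (st2 S l x y).a ((st2 S l x y).beta (stY S l x y) c) = _
  rw [(st2 S l x y).beta_notMem h]

theorem sa3_mem {d : S.D} (h : Cut S l d) : (st3 S l x y).a (Sum.inl (Sum.inl d) : stD2 S l x y) =
    (Sum.inl (Sum.inl d) : stD2 S l x y) := by
  show (st2 S l x y).a ((st2 S l x y).beta (stY S l x y) (Sum.inl (Sum.inl d) : stD2 S l x y)) = _
  rw [(st2 S l x y).beta_mem (stCl S l x y) ⟨d, h, rfl⟩, (st2 S l x y).aa]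

/-- gluing does not change the vertices -/
theorem st3_vx {c c' : stD2 S l x y} : (st3 S l x y).vx c c' ↔ (st2 S l x y).vx c c' := by
  have h : (st3 S l x y).r * (st3 S l x y).a = (st2 S l x y).r * (st2 S l x y).a := by
    refine Equiv.ext (fun c => ?_)
    show (st3 S l x y).r ((st3 S l x y).a c) = (st2 S l x y).r ((st2 S l x y).a c)
    by_cases hc : c ∈ stY S l x y
    · obtain ⟨d, hd, rfl⟩ := hc
      rw [sa3_mem S l x y hd, st3_mem S l x y hd]
      rfl
    · rw [sa3_not S l x y hc, st3_not S l x y]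
      intro h1
      apply hc
      have h2 := stCl S l x y _ h1
      rw [(st2 S l x y).aa] at h2
      exact h2
  unfold Sf.vx
  rw [h]
  exact Iff.rfl

variable {S l x y}

theorem SLk.notG {F : Set S.D} (h : SLk S F l x y) (hF : Fat S F) {d : S.D} (hd : Cut S l d ∨ d ∉ F) :
    (Sum.inl d : stD1 S l x y) ∉ stG S l x y := by
  rintro ⟨h1, h2⟩
  have h3 : d ∈ stW l := h1
  by_cases hdF : d ∈ F
  · rcases hd with hd | hd
    · exact h2 d ((h.cutF hdF).1 hd) rfl
    · exact hd hdF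
  · exact hdF (h.WF hF h3)

theorem SLk.N_inl {F : Set S.D} (h : SLk S F l x y) (hF : Fat S F) {d : S.D} (hd : Cut S l d ∨ d ∉ F) :
    stN S l x y (Sum.inl d) = Sum.inl (Sum.inl d) := cvN_notMem (h.notG hF hd)

/-- outer positions -/
theorem SLk.r3N {F : Set S.D} (h : SLk S F l x y) (hF : Fat S F) {t : stD1 S l x y} (ht : ∀ d, Cut S l d → t ≠ Sum.inl d) :
    (st3 S l x y).r (stN S l x y t) = stN S l x y ((st1 S l x y).r t) := by
  rw [st3_not S l x y]
  · exact cvR_N (st1 S l x y).r t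
  · rintro ⟨d, hd, h1⟩
    rw [← h.N_inl hF (Or.inl hd)] at h1
    exact ht d hd (cvN_inj h1)

theorem SLk.r3c {F : Set S.D} (h : SLk S F l x y) (hF : Fat S F) {d : S.D} (hd : Cut S l d) :
    (st3 S l x y).r (stN S l x y (Sum.inl d)) = stN S l x y ((st1 S l x y).r (Sum.inl (S.a d) : stD1 S l x y)) := by
  rw [h.N_inl hF (Or.inl hd), st3_mem S l x y hd, ← h.N_inl hF (Or.inl (scut_a hd))]
  exact cvR_N (st1 S l x y).r _

theorem SLk.G_notY {F : Set S.D} (h : SLk S F l x y) (hF : Fat S F) {t : stD1 S l x y} (ht : t ∈ stG S l x y) :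
    (Sum.inl t : stD2 S l x y) ∉ stY S l x y := by
  rintro ⟨d, hd, h1⟩
  have h2 : t = Sum.inl d := Sum.inl.inj h1
  rw [h2] at ht
  exact h.notG hF (Or.inl hd) ht

theorem inr_notY (g : stG S l x y × Bool) : (Sum.inr g : stD2 S l x y) ∉ stY S l x y := by
  rintro ⟨d, hd, h1⟩
  cases h1

/-- untouched letters -/
theorem SLk.r3old {F : Set S.D} (h : SLk S F l x y) (hF : Fat S F) {d : S.D} (hd : d ∉ stW l) (hc : ¬ Cut S l d) :
    (st3 S l x y).r (Sum.inl (Sum.inl d) : stD2 S l x y) = (Sum.inl (Sum.inl (S.r d)) : stD2 S l x y) := by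
  have hG : ∀ z, z ∉ stW (S := S) l → (Sum.inl z : stD1 S l x y) ∉ stG S l x y := fun z hz h1 => hz h1.1
  have hW : S.r d ∉ stW l := by
    rintro ⟨p, hp, h1⟩
    exact hd ⟨p, hp, Perm.sameCycle_apply_right.1 h1⟩
  have h1 : (Sum.inl (Sum.inl d) : stD2 S l x y) = stN S l x y (Sum.inl d) := (cvN_notMem (hG d hd)).symm
  rw [h1, h.r3N hF (fun z hz h2 => hc ((Sum.inl.inj h2 : d = z) ▸ hz)), msR_out S _ (fun h2 => hd (h.KW h2.1)),
    msN_notMem S.a _ (fun h2 => hW (h.KW (h.Qa' h2).1))]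
  exact cvN_notMem (hG _ hW)

theorem r2_join {t : stD1 S l x y} (h1 : t ∈ stG S l x y) (h2 : (st1 S l x y).r t ∈ stG S l x y) :
    (st2 S l x y).r (Sum.inl t : stD2 S l x y) = (Sum.inl ((st1 S l x y).r t) : stD2 S l x y) :=
  cvR_join (st1 S l x y).r h1 (Set.mem_univ _) h2

theorem r2_end {t : stD1 S l x y} (h1 : t ∈ stG S l x y) (h2 : (st1 S l x y).r t ∉ stG S l x y) :
    (st2 S l x y).r (Sum.inl t : stD2 S l x y) = (Sum.inr (⟨t, h1⟩, true) : stD2 S l x y) :=
  cvR_end (st1 S l x y).r h1 (fun h3 => h2 h3.2)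

theorem r2_prev {g : stG S l x y} (h1 : (st1 S l x y).r.symm (g : stD1 S l x y) ∈ stG S l x y) :
    (st2 S l x y).r (Sum.inr (g, true) : stD2 S l x y) =
      (Sum.inr (⟨(st1 S l x y).r.symm (g : stD1 S l x y), h1⟩, true) : stD2 S l x y) :=
  cvR_true_prev (st1 S l x y).r h1 (Set.mem_univ _)

theorem r2_start {g : stG S l x y} (h1 : (st1 S l x y).r.symm (g : stD1 S l x y) ∉ stG S l x y) :
    (st2 S l x y).r (Sum.inr (g, true) : stD2 S l x y) = (Sum.inl (g : stD1 S l x y) : stD2 S l x y) :=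
  cvR_true_start (st1 S l x y).r (fun h3 => h1 h3.1)

theorem a2_inl (t : stD1 S l x y) : (st2 S l x y).a (Sum.inl t : stD2 S l x y) =
    (Sum.inl ((st1 S l x y).a t) : stD2 S l x y) := rfl

theorem a2_old (d : S.D) : (st2 S l x y).a (Sum.inl (Sum.inl d) : stD2 S l x y) =
    (Sum.inl (Sum.inl (S.a d)) : stD2 S l x y) := rfl

theorem a2_sub (q : stQ l x y) (c : Bool) : (st2 S l x y).a (Sum.inl (Sum.inr (q, c)) : stD2 S l x y) =
    (Sum.inl (Sum.inr (q, !c)) : stD2 S l x y) := rfl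

theorem a2_inr (g : stG S l x y) (c : Bool) : (st2 S l x y).a (Sum.inr (g, c) : stD2 S l x y) =
    (Sum.inr (g, !c) : stD2 S l x y) := rfl

theorem SLk.old_notY {F : Set S.D} (_h : SLk S F l x y) {d : S.D} (hd : ¬ Cut S l d) :
    (Sum.inl (Sum.inl d) : stD2 S l x y) ∉ stY S l x y := by
  rintro ⟨z, hz, h3⟩
  have h4 : d = z := Sum.inl.inj (Sum.inl.inj h3)
  subst h4
  exact hd hz

theorem sub_notY (q : stQ l x y × Bool) : (Sum.inl (Sum.inr q) : stD2 S l x y) ∉ stY S l x y := by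
  rintro ⟨z, hz, h3⟩
  cases h3

end

end Pool.Agent.GW
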