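import Pool.Agent.GW.StrB

/-!
# Strands: the fat words
-/

set_option autoImplicit false

namespace Pool.Agent.GW

open Equiv Pool.Agent.SWP

/-- start of the side `b` of a fat word -/
def sen {D : Type} (p : D × D) (b : Bool) : D := bif b then p.1 else p.2

/-- end of the side `b` -/
def sex {D : Type} (p : D × D) (b : Bool) : D := bif b then p.2 else p.1

section
variable (S : Sf) (F : Set S.D) (l : List (S.D × S.D)) (x y : S.D)

/-- new fat letters -/
def stF : Set (stD2 S l x y) := {c | (∃ t : stD1 S l x y, c = Sum.inl t ∧ msP S (stQ l x y) t ∈ F ∧ ∀ d ∈ stK l, t ≠ Sum.inl d) ∨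
  ∃ g, c = Sum.inr (g, true)}

/-- projection to the old letters -/
def stP : stD2 S l x y → S.D
  | Sum.inl t => msP S (stQ l x y) t
  | Sum.inr (g, _) => msP S (stQ l x y) g

/-- arc of the side `b` in the subdivided state -/
def stA (p : S.D × S.D) (b : Bool) (t : stD1 S l x y) : Prop :=
  Arc (st1 S l x y).r ((st1 S l x y).r (Sum.inl (sen p b) : stD1 S l x y)) (Sum.inl (sex p b) : stD1 S l x y) t

/-- the new words -/
def stS (p : S.D × S.D) (b : Bool) : Set (stD2 S l x y) :=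
  sideS (st1 S l x y).r (stG S l x y) ((st1 S l x y).r (Sum.inl (sen p b) : stD1 S l x y)) (Sum.inl (sex p b) : stD1 S l x y)

variable {S F l x y}

theorem SLk.sen_K {p : S.D × S.D} (hp : p ∈ l) (b : Bool) : sen p b ∈ stK l := by
  cases b
  · exact ⟨p, hp, Or.inr rfl⟩
  · exact ⟨p, hp, Or.inl rfl⟩

theorem SLk.sex_K {p : S.D × S.D} (hp : p ∈ l) (b : Bool) : sex p b ∈ stK l := by
  cases b
  · exact ⟨p, hp, Or.inl rfl⟩
  · exact ⟨p, hp, Or.inr rfl⟩

theorem SLk.sen_same (h : SLk S F l x y) {p : S.D × S.D} (hp : p ∈ l) (b : Bool) : S.r.SameCycle p.1 (sen p b) := by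
  cases b
  · exact h.same p hp
  · exact Perm.SameCycle.refl _ _

theorem SLk.sex_same (h : SLk S F l x y) {p : S.D × S.D} (hp : p ∈ l) (b : Bool) : S.r.SameCycle p.1 (sex p b) := by
  cases b
  · exact Perm.SameCycle.refl _ _
  · exact h.same p hp

theorem SLk.sne (h : SLk S F l x y) {p : S.D × S.D} (hp : p ∈ l) (b : Bool) : sen p b ≠ sex p b := by
  cases b
  · exact (h.ne p hp).symm
  · exact h.ne p hp

/-- the only entries and exits of a word -/
theorem SLk.K_of_same (h : SLk S F l x y) {p : S.D × S.D} (hp : p ∈ l) {d : S.D} (hd : d ∈ stK l) (hs : S.r.SameCycle p.1 d)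
    (b : Bool) : d = sen p b ∨ d = sex p b := by
  obtain ⟨q, hq, h1⟩ := hd
  have h2 : p = q := by
    refine h.uniq p hp q hq ?_
    rcases h1 with h1 | h1
    · rw [← h1]; exact hs
    · rw [h1] at hs
      exact hs.trans (h.same q hq).symm
  subst h2
  cases b
  · exact h1.symm
  · exact h1

theorem SLk.same1 (h : SLk S F l x y) {p : S.D × S.D} (hp : p ∈ l) (b : Bool) :
    (st1 S l x y).r.SameCycle (Sum.inl (sen p b) : stD1 S l x y) (Sum.inl (sex p b) : stD1 S l x y) := by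
  rw [ms_same]
  exact (h.sen_same hp b).symm.trans (h.sex_same hp b)

theorem SLk.A_same (h : SLk S F l x y) {p : S.D × S.D} (hp : p ∈ l) (b : Bool) {t : stD1 S l x y} (ht : stA S l x y p b t) :
    S.r.SameCycle p.1 (msP S (stQ l x y) t) :=
  (h.sen_same hp b).trans (msP_same S _ (garc_same' ht))

theorem SLk.A_G (h : SLk S F l x y) {p : S.D × S.D} (hp : p ∈ l) (b : Bool) {t : stD1 S l x y} (ht : stA S l x y p b t) :
    t ∈ stG S l x y := by
  refine ⟨⟨p, hp, h.A_same hp b ht⟩, ?_⟩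
  intro d hd h1
  have h2 := h.A_same hp b ht
  rw [h1] at h2
  rcases h.K_of_same hp hd h2 b with h3 | h3
  · rw [h1, h3] at ht
    exact garc_not_start (h.same1 hp b) ht
  · rw [h1, h3] at ht
    exact garc_ne ht rfl

theorem SLk.senG (h : SLk S F l x y) (hF : Fat S F) {p : S.D × S.D} (hp : p ∈ l) (b : Bool) :
    (Sum.inl (sen p b) : stD1 S l x y) ∉ stG S l x y :=
  h.notG hF (Or.inl ((h.cut _).2 (Or.inl (SLk.sen_K hp b))))

theorem SLk.sexG (h : SLk S F l x y) (hF : Fat S F) {p : S.D × S.D} (hp : p ∈ l) (b : Bool) :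
    (Sum.inl (sex p b) : stD1 S l x y) ∉ stG S l x y :=
  h.notG hF (Or.inl ((h.cut _).2 (Or.inl (SLk.sex_K hp b))))

theorem stG_F (h : SLk S F l x y) (hF : Fat S F) {t : stD1 S l x y} (ht : t ∈ stG S l x y) :
    (Sum.inl t : stD2 S l x y) ∈ stF S F l x y := Or.inl ⟨t, rfl, h.WF hF ht.1, ht.2⟩

/-- positions outside the chain -/
theorem SLk.pos (h : SLk S F l x y) {t : stD1 S l x y} (ht : msP S (stQ l x y) t ∉ stW l) :
    ∃ d, t = Sum.inl d ∧ d ∉ stW (S := S) l := by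
  rcases t with d | ⟨⟨q, hq⟩, _ | _⟩
  · exact ⟨d, rfl, ht⟩
  · exact absurd (h.KW (h.Qa hq).1) ht
  · exact absurd (h.KW hq.1) ht

/-- old fat letters outside the chain, letters of `stG`, new letters -/
theorem SLk.F_cases (h : SLk S F l x y) {c : stD2 S l x y} (hc : c ∈ stF S F l x y) :
    (∃ d, c = Sum.inl (Sum.inl d) ∧ d ∈ F ∧ d ∉ stW (S := S) l) ∨ (∃ t, c = Sum.inl t ∧ t ∈ stG S l x y) ∨
      ∃ g, c = Sum.inr (g, true) := by
  rcases hc with ⟨t, rfl, h1, h2⟩ | h1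
  · by_cases h3 : msP S (stQ l x y) t ∈ stW (S := S) l
    · exact Or.inr (Or.inl ⟨t, rfl, h3, h2⟩)
    · obtain ⟨d, rfl, h4⟩ := h.pos h3
      exact Or.inl ⟨d, rfl, h1, h4⟩
  · exact Or.inr (Or.inr h1)

theorem SLk.inl_F {d : S.D} : (Sum.inl (Sum.inl d) : stD2 S l x y) ∈ stF S F l x y ↔ d ∈ F ∧ d ∉ stK l := by
  constructor
  · rintro (⟨t, h0, h1, h2⟩ | ⟨g, h0⟩)
    · have h3 : Sum.inl d = t := Sum.inl.inj h0
      subst h3
      exact ⟨h1, fun h4 => h2 d h4 rfl⟩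
    · cases h0
  · rintro ⟨h1, h2⟩
    refine Or.inl ⟨Sum.inl d, rfl, h1, ?_⟩
    intro z hz h3
    exact h2 ((Sum.inl.inj h3 : d = z) ▸ hz)

/-- how `r` acts on fat letters -/
theorem SLk.rF (h : SLk S F l x y) (hF : Fat S F) {c : stD2 S l x y} (hc : c ∈ stF S F l x y) :
    (st3 S l x y).r c ∈ stF S F l x y ∧ S.r.SameCycle (stP S l x y c) (stP S l x y ((st3 S l x y).r c)) := by
  have hstep : ∀ t : stD1 S l x y, S.r.SameCycle (msP S (stQ l x y) t) (msP S (stQ l x y) ((st1 S l x y).r t)) :=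
    fun t => msP_step S _ t
  rcases h.F_cases hc with ⟨d, rfl, h1, h2⟩ | ⟨t, rfl, h1⟩ | ⟨g, rfl⟩
  · rw [h.r3old hF h2 (fun h3 => h2 (h.KW ((h.cutF h1).1 h3)))]
    constructor
    · refine SLk.inl_F.2 ⟨(hF.inv d).2 h1, fun h3 => h2 ?_⟩
      obtain ⟨p, hp, h4⟩ := h.KW h3
      exact ⟨p, hp, Perm.sameCycle_apply_right.1 h4⟩
    · exact Perm.sameCycle_apply_right.2 (Perm.SameCycle.refl _ _)
  · rw [st3_not S l x y (h.G_notY hF h1)]
    by_cases h2 : (st1 S l x y).r t ∈ stG S l x y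
    · rw [r2_join h1 h2]
      exact ⟨stG_F h hF h2, hstep t⟩
    · rw [r2_end h1 h2]
      exact ⟨Or.inr ⟨_, rfl⟩, Perm.SameCycle.refl _ _⟩
  · rw [st3_not S l x y (inr_notY _)]
    by_cases h2 : (st1 S l x y).r.symm (g : stD1 S l x y) ∈ stG S l x y
    · rw [r2_prev h2]
      refine ⟨Or.inr ⟨_, rfl⟩, ?_⟩
      have h3 := hstep ((st1 S l x y).r.symm (g : stD1 S l x y))
      rw [Equiv.apply_symm_apply] at h3
      exact h3.symm
    · rw [r2_start h2]
      exact ⟨stG_F h hF g.2, Perm.SameCycle.refl _ _⟩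

/-- the partner of a fat letter -/
theorem SLk.aF (h : SLk S F l x y) (hF : Fat S F) {c : stD2 S l x y} (hc : c ∈ stF S F l x y) :
    (∃ d, c = Sum.inl (Sum.inl d) ∧ ¬ Cut S l d ∧ d ∈ F ∧ (st3 S l x y).a c = (Sum.inl (Sum.inl (S.a d)) : stD2 S l x y)) ∨
    (∃ q b, c = Sum.inl (Sum.inr (q, b)) ∧ (st3 S l x y).a c = (Sum.inl (Sum.inr (q, !b)) : stD2 S l x y)) ∨
    ∃ g, c = Sum.inr (g, true) ∧ (st3 S l x y).a c = (Sum.inr (g, false) : stD2 S l x y) := by
  rcases c with (d | ⟨q, b⟩) | ⟨g, _ | _⟩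
  · have h1 := SLk.inl_F.1 hc
    have h2 : ¬ Cut S l d := fun h3 => h1.2 ((h.cutF h1.1).1 h3)
    refine Or.inl ⟨d, rfl, h2, h1.1, ?_⟩
    rw [sa3_not S l x y (h.old_notY h2), a2_old]
  · refine Or.inr (Or.inl ⟨q, b, rfl, ?_⟩)
    rw [sa3_not S l x y (sub_notY _), a2_sub]
  · exfalso
    rcases hc with ⟨t, h0, _⟩ | ⟨g', h0⟩
    · cases h0
    · have h1 := congrArg Prod.snd (Sum.inr.inj h0)
      cases h1
  · refine Or.inr (Or.inr ⟨g, rfl, ?_⟩)
    rw [sa3_not S l x y (inr_notY _), a2_inr]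
    rfl

/-- outer letters -/
theorem SLk.O_cases (h : SLk S F l x y) {c : stD2 S l x y} (hc : c ∉ stF S F l x y) :
    (∃ d, c = Sum.inl (Sum.inl d) ∧ (d ∉ F ∨ d ∈ stK l)) ∨ ∃ g, c = Sum.inr (g, false) := by
  rcases c with (d | ⟨q, c⟩) | ⟨g, _ | _⟩
  · left
    refine ⟨d, rfl, ?_⟩
    by_contra h1
    push Not at h1
    exact hc (SLk.inl_F.2 h1)
  · exfalso
    apply hc
    refine Or.inl ⟨_, rfl, ?_, ?_⟩
    · cases c
      · exact h.KF (h.Qa q.2).1
      · exact h.KF q.2.1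
    · intro d _ h1
      cases h1
  · exact Or.inr ⟨g, rfl⟩
  · exact absurd (Or.inr ⟨g, rfl⟩) hc

theorem inr_notF (g : stG S l x y) : (Sum.inr (g, false) : stD2 S l x y) ∉ stF S F l x y := by
  rintro (⟨t, h0, _⟩ | ⟨g', h0⟩)
  · cases h0
  · have h1 := congrArg Prod.snd (Sum.inr.inj h0)
    cases h1

theorem SLk.fat3 (h : SLk S F l x y) (hF : Fat S F) : Fat (st3 S l x y) (stF S F l x y) where
  inv := inv_fwd (st3 S l x y) (fun c hc => (h.rF hF hc).1)
  live := by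
    intro c hc
    rcases h.aF hF hc with ⟨d, rfl, h1, h2, h3⟩ | ⟨q, b, rfl, h3⟩ | ⟨g, rfl, h3⟩
    · rw [h3]
      intro h4
      exact hF.live d h2 (Sum.inl.inj (Sum.inl.inj h4))
    · rw [h3]
      intro h4
      have h5 := congrArg Prod.snd (Sum.inr.inj (Sum.inl.inj h4))
      simp at h5
    · rw [h3]
      intro h4
      have h5 := congrArg Prod.snd (Sum.inr.inj h4)
      cases h5
  out := by
    intro c hc hl
    rcases h.O_cases hc with ⟨d, rfl, h0⟩ | ⟨g, rfl⟩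
    · have hcut : ¬ Cut S l d := fun h1 => hl (sa3_mem S l x y h1)
      have hdF : d ∉ F := by
        rcases h0 with h0 | h0
        · exact h0
        · exact absurd ((h.cut _).2 (Or.inl h0)) hcut
      rw [sa3_not S l x y (h.old_notY hcut), a2_old] at hl ⊢
      have h1 : S.a d ≠ d := by
        intro h2
        apply hl
        rw [h2]
      exact SLk.inl_F.2 ⟨hF.out d hdF h1, fun h2 => hcut (scut_a' ((h.cut _).2 (Or.inl h2)))⟩
    · rw [sa3_not S l x y (inr_notY _), a2_inr]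
      exact Or.inr ⟨g, rfl⟩

/-! ## the sides -/

theorem SLk.S_mem (h : SLk S F l x y) {p : S.D × S.D} (hp : p ∈ l) (b : Bool) {c : stD2 S l x y}
    (hc : c ∈ stS S l x y p b) : (∃ t, c = Sum.inl t ∧ t ∈ stG S l x y ∧ stA S l x y p b t) ∨
      ∃ g : stG S l x y, c = Sum.inr (g, true) ∧ stA S l x y p b g := by
  rcases hc with ⟨t, h1, h2⟩ | ⟨g, h1, h2⟩
  · exact Or.inl ⟨t, h1, h.A_G hp b h2, h2⟩
  · exact Or.inr ⟨g, h1, h2⟩

theorem SLk.S_F (h : SLk S F l x y) (hF : Fat S F) {p : S.D × S.D} (hp : p ∈ l) (b : Bool) {c : stD2 S l x y}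
    (hc : c ∈ stS S l x y p b) : c ∈ stF S F l x y ∧ S.r.SameCycle p.1 (stP S l x y c) := by
  rcases h.S_mem hp b hc with ⟨t, rfl, h1, h2⟩ | ⟨g, rfl, h2⟩
  · exact ⟨stG_F h hF h1, h.A_same hp b h2⟩
  · exact ⟨Or.inr ⟨g, rfl⟩, h.A_same hp b h2⟩

theorem SLk.A_cov (h : SLk S F l x y) {p : S.D × S.D} (hp : p ∈ l) {t : stD1 S l x y} (ht : t ∈ stG S l x y)
    (hs : S.r.SameCycle p.1 (msP S (stQ l x y) t)) : ∃ b, stA S l x y p b t := by
  have h1 : (st1 S l x y).r.SameCycle (Sum.inl p.1 : stD1 S l x y) (Sum.inl p.2 : stD1 S l x y) := h.same1 hp true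
  have h2 : (st1 S l x y).r.SameCycle (Sum.inl p.1 : stD1 S l x y) t := by
    rw [ms_same]
    exact hs
  rcases garc_cover h1 h2 (ht.2 _ (SLk.sen_K hp true)) (ht.2 _ (SLk.sex_K hp true)) with h3 | h3
  · exact ⟨true, h3⟩
  · exact ⟨false, h3⟩

theorem SLk.S_cov (h : SLk S F l x y) {p : S.D × S.D} (hp : p ∈ l) {c : stD2 S l x y}
    (hc : c ∈ stF S F l x y) (hs : S.r.SameCycle p.1 (stP S l x y c)) : ∃ b, c ∈ stS S l x y p b := by
  rcases h.F_cases hc with ⟨d, rfl, h1, h2⟩ | ⟨t, rfl, h1⟩ | ⟨g, rfl⟩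
  · exact absurd ⟨p, hp, hs⟩ h2
  · obtain ⟨b, hb⟩ := h.A_cov hp h1 hs
    exact ⟨b, Or.inl ⟨t, rfl, hb⟩⟩
  · obtain ⟨b, hb⟩ := h.A_cov hp g.2 hs
    exact ⟨b, Or.inr ⟨g, rfl, hb⟩⟩

theorem SLk.S_notY (h : SLk S F l x y) (hF : Fat S F) {p : S.D × S.D} (hp : p ∈ l) (b : Bool) {c : stD2 S l x y}
    (hc : c ∈ stS S l x y p b) : c ∉ stY S l x y := by
  rcases h.S_mem hp b hc with ⟨t, rfl, h1, h2⟩ | ⟨g, rfl, h2⟩
  · exact h.G_notY hF h1
  · exact inr_notY _

theorem SLk.S_cyc (h : SLk S F l x y) (hF : Fat S F) {p : S.D × S.D} (hp : p ∈ l) (b : Bool) {c : stD2 S l x y}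
    (hc : c ∈ stS S l x y p b) (c' : stD2 S l x y) :
    (st3 S l x y).r.SameCycle c c' ↔ c' ∈ stS S l x y p b := by
  have h1 := side_cycle (st1 S l x y).r (fun t ht => h.A_G hp b ht) (h.senG hF hp b) (h.sexG hF hp b) (h.same1 hp b) hc c'
  refine Iff.trans ?_ h1
  refine same_congr (s := (st3 S l x y).r) (t := cvR (st1 S l x y).r (stG S l x y) Set.univ) (Z := stS S l x y p b) ?_ ?_ hc c'
  · intro e he
    rw [st3_not S l x y (h.S_notY hF hp b he)]
    exact side_inv (st1 S l x y).r (fun t ht => h.A_G hp b ht) (h.senG hF hp b) (h.sexG hF hp b) he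
  · intro e he
    exact st3_not S l x y (h.S_notY hF hp b he)

theorem SLk.S_dis (h : SLk S F l x y) {p : S.D × S.D} (hp : p ∈ l) {c : stD2 S l x y}
    (hc : c ∈ stS S l x y p true) : c ∉ stS S l x y p false := by
  intro hc'
  have hne : (Sum.inl p.1 : stD1 S l x y) ≠ Sum.inl p.2 := fun h1 => h.ne p hp (Sum.inl.inj h1)
  rcases h.S_mem hp true hc with ⟨t, rfl, h1, h2⟩ | ⟨g, rfl, h2⟩
  · rcases h.S_mem hp false hc' with ⟨t', h3, h4, h5⟩ | ⟨g, h3, h5⟩
    · have h6 : t = t' := Sum.inl.inj h3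
      rw [← h6] at h5
      exact garc_disj hne h2 h5
    · cases h3
  · rcases h.S_mem hp false hc' with ⟨t', h3, h4, h5⟩ | ⟨g', h3, h5⟩
    · cases h3
    · have h6 : g = g' := congrArg Prod.fst (Sum.inr.inj h3)
      rw [← h6] at h5
      exact garc_disj hne h2 h5

/-- old arcs are in the new arcs -/
theorem SLk.A_old (h : SLk S F l x y) {p : S.D × S.D} (hp : p ∈ l) (b : Bool) {d : S.D}
    (hd : Arc S.r (S.r (sen p b)) (sex p b) d) : stA S l x y p b (Sum.inl d) := by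
  have hs : S.r.SameCycle (sen p b) (sex p b) := (h.sen_same hp b).symm.trans (h.sex_same hp b)
  have hne1 : d ≠ sen p b := by
    rintro rfl
    exact garc_not_start hs hd
  have hne2 : d ≠ sex p b := garc_ne hd
  have h1 := h.same1 hp b
  have h2 : (st1 S l x y).r.SameCycle (Sum.inl (sen p b) : stD1 S l x y) (Sum.inl d : stD1 S l x y) := by
    rw [ms_same]
    exact garc_same' hd
  rcases garc_cover h1 h2 (fun h3 => hne1 (Sum.inl.inj h3)) (fun h3 => hne2 (Sum.inl.inj h3)) with h3 | h3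
  · exact h3
  · exfalso
    rcases ms_arc S _ h3 with ⟨_, h4⟩ | ⟨_, h4⟩ | h4
    · cases h4
    · cases h4
    · exact garc_disj (h.sne hp b) hd h4

end

end Pool.Agent.GW
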