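import Pool.Agent.GW.StrC

/-!
# Strands: subdivision letters and counting
-/

set_option autoImplicit false

namespace Pool.Agent.GW

open Equiv Pool.Agent.SWP

section
variable (S : Sf) (l : List (S.D × S.D)) (x y : S.D)

/-- the subdivision letter -/
noncomputable def stB (d : S.D) (b : Bool) : stD2 S l x y :=
  open Classical in if h : d ∈ stQ l x y then Sum.inl (Sum.inr (⟨d, h⟩, b)) else Sum.inl (Sum.inl d)

noncomputable def stZf (p : S.D × S.D) (b : Bool) : stD2 S l x y :=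
  bif b then stB S l x y (S.a p.2) false else stB S l x y p.2 true

noncomputable def stZe (p : S.D × S.D) (b : Bool) : stD2 S l x y :=
  bif b then stB S l x y p.1 true else stB S l x y (S.a p.1) false

/-- the last letter at a position -/
noncomputable def stT (d : S.D) : stD1 S l x y :=
  open Classical in if h : d ∈ stQ l x y then Sum.inr (⟨d, h⟩, true) else Sum.inl d

variable {S l x y}

theorem stB_mem {d : S.D} (h : d ∈ stQ l x y) (b : Bool) : stB S l x y d b = Sum.inl (Sum.inr (⟨d, h⟩, b)) := dif_pos h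

theorem stT_mem {d : S.D} (h : d ∈ stQ l x y) : stT S l x y d = Sum.inr (⟨d, h⟩, true) := dif_pos h

theorem stT_notMem {d : S.D} (h : d ∉ stQ l x y) : stT S l x y d = Sum.inl d := dif_neg h

variable {F : Set S.D}

/-- the first letter of an arc -/
theorem SLk.A_start (h : SLk S F l x y) {p : S.D × S.D} (_hp : p ∈ l) (b : Bool) (hq : sen p b ∈ stQ l x y) :
    stA S l x y p b (Sum.inr (⟨sen p b, hq⟩, true)) := by
  have h1 := msR_in S (stQ l x y) hq
  have h2 : (Sum.inr (⟨sen p b, hq⟩, true) : stD1 S l x y) ≠ Sum.inl (sex p b) := fun h3 => by cases h3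
  unfold stA
  have h3 : (st1 S l x y).r (Sum.inl (sen p b) : stD1 S l x y) = (Sum.inr (⟨sen p b, hq⟩, true) : stD1 S l x y) := h1
  rw [h3]
  exact garc_start h2

theorem SLk.A_end (h : SLk S F l x y) {p : S.D × S.D} (hp : p ∈ l) (b : Bool) (hq : S.a (sex p b) ∈ stQ l x y) :
    stA S l x y p b (Sum.inr (⟨S.a (sex p b), hq⟩, false)) := by
  refine garc_last (h.same1 hp b) (fun h3 => h.sne hp b (Sum.inl.inj h3)) ?_ (fun h3 => by cases h3)
  show (Sum.inl (S.a (S.a (sex p b))) : stD1 S l x y) = _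
  rw [S.aa]

theorem SLk.Q2' (h : SLk S F l x y) {p q : S.D × S.D} (hp : p ∈ l) (hq : q ∈ l) (h1 : S.a p.2 = q.1) : p.2 ≠ y := by
  rintro rfl
  exact h.ay (by rw [h1]; exact (h.fat q hq).1)

theorem SLk.Q1' (h : SLk S F l x y) {p q : S.D × S.D} (hp : p ∈ l) (hq : q ∈ l) (h1 : S.a p.2 = q.1) : q.1 ≠ x := by
  rintro rfl
  apply h.ax
  rw [← h1, S.aa]
  exact (h.fat p hp).2

theorem SLk.zf1 (h : SLk S F l x y) {p : S.D × S.D} (hp : p ∈ l) (hy : p.2 ≠ y) (b : Bool) :
    stZf S l x y p b ∈ stS S l x y p b ∧ ∀ d, (Sum.inl (Sum.inl d) : stD2 S l x y) ≠ stZf S l x y p b := by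
  have hq := h.Q2 hp hy
  cases b
  · show stB S l x y p.2 true ∈ _ ∧ ∀ d, _ ≠ stB S l x y p.2 true
    rw [stB_mem hq]
    exact ⟨Or.inl ⟨_, rfl, h.A_start hp false hq⟩, fun d h1 => by cases Sum.inl.inj h1⟩
  · have hq' := h.Qa hq
    show stB S l x y (S.a p.2) false ∈ _ ∧ ∀ d, _ ≠ stB S l x y (S.a p.2) false
    rw [stB_mem hq']
    exact ⟨Or.inl ⟨_, rfl, h.A_end hp true hq'⟩, fun d h1 => by cases Sum.inl.inj h1⟩

theorem SLk.ze1 (h : SLk S F l x y) {p : S.D × S.D} (hp : p ∈ l) (hx : p.1 ≠ x) (b : Bool) :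
    stZe S l x y p b ∈ stS S l x y p b ∧ ∀ d, (Sum.inl (Sum.inl d) : stD2 S l x y) ≠ stZe S l x y p b := by
  have hq := h.Q1 hp hx
  cases b
  · have hq' := h.Qa hq
    show stB S l x y (S.a p.1) false ∈ _ ∧ ∀ d, _ ≠ stB S l x y (S.a p.1) false
    rw [stB_mem hq']
    exact ⟨Or.inl ⟨_, rfl, h.A_end hp false hq'⟩, fun d h1 => by cases Sum.inl.inj h1⟩
  · show stB S l x y p.1 true ∈ _ ∧ ∀ d, _ ≠ stB S l x y p.1 true
    rw [stB_mem hq]
    exact ⟨Or.inl ⟨_, rfl, h.A_start hp true hq⟩, fun d h1 => by cases Sum.inl.inj h1⟩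

theorem SLk.zz (h : SLk S F l x y) {p q : S.D × S.D} (hp : p ∈ l) (hq : q ∈ l) (h1 : S.a p.2 = q.1) (b : Bool) :
    (st3 S l x y).a (stZf S l x y p b) = stZe S l x y q b := by
  have h2 := h.Q2 hp (h.Q2' hp hq h1)
  have h3 := h.Q1 hq (h.Q1' hp hq h1)
  cases b
  · show (st3 S l x y).a (stB S l x y p.2 true) = stB S l x y (S.a q.1) false
    rw [← h1, S.aa, stB_mem h2, stB_mem h2, sa3_not S l x y (sub_notY _), a2_sub]
    rfl
  · show (st3 S l x y).a (stB S l x y (S.a p.2) false) = stB S l x y q.1 true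
    rw [h1, stB_mem h3, stB_mem h3, sa3_not S l x y (sub_notY _), a2_sub]
    rfl

/-- there is a port on every side -/
theorem SLk.sdp (h : SLk S F l x y) (hF : Fat S F) {p : S.D × S.D} (hp : p ∈ l) (b : Bool) :
    ∃ c ∈ stS S l x y p b, (st3 S l x y).a c ∉ stF S F l x y := by
  have key : ∃ t, stA S l x y p b t := by
    by_cases h1 : p.1 = x
    · have h2 := h.Q2 hp (h.xy p hp h1)
      cases b
      · exact ⟨_, h.A_start hp false h2⟩
      · exact ⟨_, h.A_end hp true (h.Qa h2)⟩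
    · have h2 := h.Q1 hp h1
      cases b
      · exact ⟨_, h.A_end hp false (h.Qa h2)⟩
      · exact ⟨_, h.A_start hp true h2⟩
  obtain ⟨t, ht⟩ := key
  have hG := h.A_G hp b ht
  refine ⟨Sum.inr (⟨t, hG⟩, true), Or.inr ⟨⟨t, hG⟩, rfl, ht⟩, ?_⟩
  rw [sa3_not S l x y (inr_notY _), a2_inr]
  exact inr_notF _

theorem SLk.res (h : SLk S F l x y) (hF : Fat S F) {c : stD2 S l x y} (hc : c ∈ stF S F l x y)
    (hac : (st3 S l x y).a c ∈ stF S F l x y) (hn : ∀ d, (Sum.inl (Sum.inl d) : stD2 S l x y) ≠ c) :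
    ∃ p ∈ l, ∃ b, (p.2 ≠ y ∧ c = stZf S l x y p b) ∨ (p.1 ≠ x ∧ c = stZe S l x y p b) := by
  rcases h.aF hF hc with ⟨d, rfl, h1, h2, h3⟩ | ⟨q, b, rfl, h3⟩ | ⟨g, rfl, h3⟩
  · exact absurd rfl (hn d)
  · obtain ⟨q, hq⟩ := q
    have hq2 := hq
    obtain ⟨⟨p, hp, h4⟩, h5, h6⟩ := hq2
    rw [← stB_mem hq]
    cases b
    · -- before `a q`
      rcases h4 with h4 | h4
      · obtain ⟨p', hp', h7⟩ := h.lb p hp (by rw [← h4]; exact h5)
        refine ⟨p', hp', true, Or.inl ⟨h.Q2' hp' hp h7, ?_⟩⟩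
        show _ = stB S l x y (S.a p'.2) false
        rw [h7, ← h4]
      · obtain ⟨p', hp', h7⟩ := h.lf p hp (by rw [← h4]; exact h6)
        refine ⟨p', hp', false, Or.inr ⟨h.Q1' hp hp' h7, ?_⟩⟩
        show _ = stB S l x y (S.a p'.1) false
        rw [← h7, S.aa, ← h4]
    · rcases h4 with h4 | h4
      · refine ⟨p, hp, true, Or.inr ⟨by rw [← h4]; exact h5, ?_⟩⟩
        show _ = stB S l x y p.1 true
        rw [← h4]
      · refine ⟨p, hp, false, Or.inl ⟨by rw [← h4]; exact h6, ?_⟩⟩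
        show _ = stB S l x y p.2 true
        rw [← h4]
  · rw [h3] at hac
    exact absurd hac (inr_notF g)

theorem SLk.newF (h : SLk S F l x y) {c : stD2 S l x y} (hc : c ∈ stF S F l x y)
    (hn : ∀ d, (Sum.inl (Sum.inl d) : stD2 S l x y) ≠ c) : ∃ p ∈ l, S.r.SameCycle p.1 (stP S l x y c) := by
  rcases h.F_cases hc with ⟨d, rfl, _⟩ | ⟨t, rfl, h1⟩ | ⟨g, rfl⟩
  · exact absurd rfl (hn d)
  · exact h1.1
  · exact g.2.1

theorem SLk.newa (h : SLk S F l x y) (hF : Fat S F) {c : stD2 S l x y} (hc : c ∈ stF S F l x y)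
    (hn : ∀ d, (Sum.inl (Sum.inl d) : stD2 S l x y) ≠ c) (d : S.D) :
    (st3 S l x y).a c ≠ (Sum.inl (Sum.inl d) : stD2 S l x y) := by
  rcases h.aF hF hc with ⟨d, rfl, h1, h2, h3⟩ | ⟨q, b, rfl, h3⟩ | ⟨g, rfl, h3⟩
  · exact absurd rfl (hn d)
  · rw [h3]
    intro h4
    cases Sum.inl.inj h4
  · rw [h3]
    intro h4
    cases h4

/-- positions of the doubled letters -/
theorem SLk.pos2 (h : SLk S F l x y) {t : stD1 S l x y} (ht : t ∈ stG S l x y) :
    t = msN S.a (stQ l x y) (msP S (stQ l x y) t) ∨ t = stT S l x y (msP S (stQ l x y) t) := by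
  rcases t with d | ⟨q, _ | _⟩
  · left
    show _ = msN S.a (stQ l x y) d
    rw [msN_notMem]
    intro h1
    exact ht.2 d (h.Qa' h1).1 rfl
  · left
    show _ = msN S.a (stQ l x y) (S.a q)
    have h1 : S.a (S.a q) ∈ stQ l x y := by rw [S.aa]; exact q.2
    rw [msN_mem S.a _ h1]
    congr 2
    apply Subtype.ext
    exact (S.aa q).symm
  · right
    show _ = stT S l x y q
    rw [stT_mem q.2]

noncomputable def stI (b : Bool) (t : stD1 S l x y) : stD2 S l x y :=
  open Classical in if h : t ∈ stG S l x y then Sum.inr (⟨t, h⟩, b) else Sum.inl t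

theorem stI_mem {b : Bool} (g : stG S l x y) : stI b (g : stD1 S l x y) = Sum.inr (g, b) := dif_pos g.2

theorem SLk.newO (h : SLk S F l x y) : {c : stD2 S l x y | c ∉ stF S F l x y ∧ ∀ d, (Sum.inl (Sum.inl d) : stD2 S l x y) ≠ c}.ncard
    ≤ 2 * {d | ∃ p ∈ l, S.r.SameCycle p.1 d}.ncard := by
  have hsub : {c : stD2 S l x y | c ∉ stF S F l x y ∧ ∀ d, (Sum.inl (Sum.inl d) : stD2 S l x y) ≠ c} ⊆
      (fun d => stI false (msN S.a (stQ l x y) d)) '' {d | ∃ p ∈ l, S.r.SameCycle p.1 d} ∪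
      (fun d => stI false (stT S l x y d)) '' {d | ∃ p ∈ l, S.r.SameCycle p.1 d} := by
    rintro c ⟨h1, h2⟩
    rcases h.O_cases h1 with ⟨d, rfl, _⟩ | ⟨g, rfl⟩
    · exact absurd rfl (h2 d)
    · rcases h.pos2 g.2 with h3 | h3
      · left
        refine ⟨_, g.2.1, ?_⟩
        show stI false (msN S.a (stQ l x y) (msP S (stQ l x y) g)) = _
        rw [← h3, stI_mem]
      · right
        refine ⟨_, g.2.1, ?_⟩
        show stI false (stT S l x y (msP S (stQ l x y) g)) = _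
        rw [← h3, stI_mem]
  refine (Set.ncard_le_ncard hsub (Set.toFinite _)).trans ?_
  refine (Set.ncard_union_le _ _).trans ?_
  have h1 := Set.ncard_image_le (f := fun d => stI (l := l) (x := x) (y := y) false (msN S.a (stQ l x y) d))
    (Set.toFinite {d | ∃ p ∈ l, S.r.SameCycle p.1 d})
  have h2 := Set.ncard_image_le (f := fun d => stI (l := l) (x := x) (y := y) false (stT S l x y d))
    (Set.toFinite {d | ∃ p ∈ l, S.r.SameCycle p.1 d})
  omega

theorem SLk.num (h : SLk S F l x y) {p : S.D × S.D} (hp : p ∈ l) :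
    {c : stD2 S l x y | c ∈ stF S F l x y ∧ S.r.SameCycle p.1 (stP S l x y c)}.ncard ≤ 4 * (S.word p.1).ncard := by
  have hsub : {c : stD2 S l x y | c ∈ stF S F l x y ∧ S.r.SameCycle p.1 (stP S l x y c)} ⊆
      (((fun d => Sum.inl (msN S.a (stQ l x y) d)) '' S.word p.1 ∪
      (fun d => Sum.inl (stT S l x y d)) '' S.word p.1) ∪
      (fun d => stI true (msN S.a (stQ l x y) d)) '' S.word p.1) ∪
      (fun d => stI true (stT S l x y d)) '' S.word p.1 := by
    rintro c ⟨h1, h2⟩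
    rcases h.F_cases h1 with ⟨d, rfl, _, h3⟩ | ⟨t, rfl, h3⟩ | ⟨g, rfl⟩
    · exact absurd ⟨p, hp, h2⟩ h3
    · rcases h.pos2 h3 with h4 | h4
      · left; left; left
        refine ⟨_, h2, ?_⟩
        show Sum.inl (msN S.a (stQ l x y) (msP S (stQ l x y) t)) = _
        rw [← h4]
      · left; left; right
        refine ⟨_, h2, ?_⟩
        show Sum.inl (stT S l x y (msP S (stQ l x y) t)) = _
        rw [← h4]
    · rcases h.pos2 g.2 with h3 | h3
      · left; right
        refine ⟨_, h2, ?_⟩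
        show stI true (msN S.a (stQ l x y) (msP S (stQ l x y) g)) = _
        rw [← h3, stI_mem]
      · right
        refine ⟨_, h2, ?_⟩
        show stI true (stT S l x y (msP S (stQ l x y) g)) = _
        rw [← h3, stI_mem]
  refine (Set.ncard_le_ncard hsub (Set.toFinite _)).trans ?_
  refine (Set.ncard_union_le _ _).trans ?_
  have h1 := Set.ncard_union_le (((fun d => (Sum.inl (msN S.a (stQ l x y) d) : stD2 S l x y)) '' S.word p.1 ∪
      (fun d => (Sum.inl (stT S l x y d) : stD2 S l x y)) '' S.word p.1))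
      ((fun d => stI (l := l) (x := x) (y := y) true (msN S.a (stQ l x y) d)) '' S.word p.1)
  have h2 := Set.ncard_union_le ((fun d => (Sum.inl (msN S.a (stQ l x y) d) : stD2 S l x y)) '' S.word p.1)
      ((fun d => (Sum.inl (stT S l x y d) : stD2 S l x y)) '' S.word p.1)
  have h3 := Set.ncard_image_le (f := fun d => (Sum.inl (msN S.a (stQ l x y) d) : stD2 S l x y))
    (Set.toFinite (S.word p.1))
  have h4 := Set.ncard_image_le (f := fun d => (Sum.inl (stT S l x y d) : stD2 S l x y))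
    (Set.toFinite (S.word p.1))
  have h5 := Set.ncard_image_le (f := fun d => stI (l := l) (x := x) (y := y) true (msN S.a (stQ l x y) d))
    (Set.toFinite (S.word p.1))
  have h6 := Set.ncard_image_le (f := fun d => stI (l := l) (x := x) (y := y) true (stT S l x y d))
    (Set.toFinite (S.word p.1))
  omega

end

end Pool.Agent.GW
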