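import Pool.Agent.GW.StrD

/-!
# Strands: the outer words
-/

set_option autoImplicit false

namespace Pool.Agent.GW

open Equiv Pool.Agent.SWP

section
variable (S : Sf) (l : List (S.D × S.D)) (x y : S.D)

/-- positions of the outer word of the side `b` -/
def stC1 (b : Bool) : Set (stD1 S l x y) := {t | (∃ p ∈ l, stA S l x y p b t) ∨
  (∃ d, Arc S.r (S.r (S.a (sex (x, y) b))) (S.a (sen (x, y) b)) d ∧ t = Sum.inl d) ∨ t = Sum.inl (S.a (sen (x, y) b)) ∨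
  ∃ p ∈ l, t = Sum.inl (sex p b)}

def stC (b : Bool) : Set (stD2 S l x y) := {c | ∃ t ∈ stC1 S l x y b, c = stN S l x y t}

variable {S l x y} {F : Set S.D}

theorem SLk.link (h : SLk S F l x y) {p : S.D × S.D} (hp : p ∈ l) (b : Bool) (hne : sex p b ≠ sex (x, y) b) :
    ∃ q ∈ l, S.a (sex p b) = sen q b := by
  cases b
  · obtain ⟨q, hq, h1⟩ := h.lb p hp hne
    refine ⟨q, hq, ?_⟩
    show S.a p.1 = q.2
    rw [← h1, S.aa]
  · exact h.lf p hp hne

theorem SLk.start (h : SLk S F l x y) (b : Bool) : ∃ q ∈ l, sen q b = sen (x, y) b := by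
  cases b
  · exact h.hy
  · exact h.hx

theorem SLk.aen (h : SLk S F l x y) (b : Bool) : S.a (sen (x, y) b) ∉ F := by
  cases b
  · exact h.ay
  · exact h.ax

theorem SLk.aex (h : SLk S F l x y) (b : Bool) : S.a (sex (x, y) b) ∉ F := by
  cases b
  · exact h.ax
  · exact h.ay

theorem SLk.cen (h : SLk S F l x y) (b : Bool) : Cut S l (S.a (sen (x, y) b)) := by
  cases b
  · exact (h.cut _).2 (Or.inr (Or.inr rfl))
  · exact (h.cut _).2 (Or.inr (Or.inl rfl))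

theorem SLk.oo (h : SLk S F l x y) (b : Bool) : S.r.SameCycle (S.a (sex (x, y) b)) (S.a (sen (x, y) b)) := by
  cases b
  · exact h.outer
  · exact h.outer.symm

theorem SLk.one (h : SLk S F l x y) (b : Bool) : S.a (sex (x, y) b) ≠ S.a (sen (x, y) b) := by
  cases b
  · exact h.axy
  · exact h.axy.symm

theorem SLk.xx (b : Bool) {d : S.D} (hd : d = S.a x ∨ d = S.a y) : d = S.a (sex (x, y) b) ∨ d = S.a (sen (x, y) b) := by
  cases b
  · exact hd
  · exact hd.symm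

/-- letters of the outer arcs -/
theorem SLk.outF (h : SLk S F l x y) (hF : Fat S F) (b : Bool) {d : S.D}
    (hd : Arc S.r (S.r (S.a (sex (x, y) b))) (S.a (sen (x, y) b)) d) : d ∉ F ∧ ¬ Cut S l d := by
  have h1 : d ∉ F := by
    intro h2
    have h3 : S.a (sex (x, y) b) ∈ F :=
      mem_of_same (s := S.r) (fun d hd => (hF.inv d).2 hd) h2 (garc_same' hd).symm
    exact h.aex b h3
  refine ⟨h1, fun h2 => ?_⟩
  rcases SLk.xx b ((h.cutO h1).1 h2) with h3 | h3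
  · rw [h3] at hd
    exact garc_not_start (h.oo b) hd
  · exact garc_ne hd h3

theorem SLk.r1_out (h : SLk S F l x y) (hF : Fat S F) {d : S.D} (hd : d ∉ F) :
    (st1 S l x y).r (Sum.inl d : stD1 S l x y) = (Sum.inl (S.r d) : stD1 S l x y) := by
  have h1 : d ∉ stQ l x y := fun h2 => hd (h.KF h2.1)
  have h2 : S.a (S.r d) ∉ stQ l x y := fun h2 => hd ((hF.inv d).1 (h.KF (h.Qa' h2).1))
  rw [msR_out S _ h1]
  exact msN_notMem S.a _ h2

theorem SLk.C_start (_h : SLk S F l x y) {q : S.D × S.D} (hq : q ∈ l) (b : Bool) :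
    (st1 S l x y).r (Sum.inl (sen q b) : stD1 S l x y) ∈ stC1 S l x y b := by
  by_cases h1 : (st1 S l x y).r (Sum.inl (sen q b) : stD1 S l x y) = (Sum.inl (sex q b) : stD1 S l x y)
  · exact Or.inr (Or.inr (Or.inr ⟨q, hq, h1⟩))
  · exact Or.inl ⟨q, hq, garc_start h1⟩

theorem SLk.C_step (h : SLk S F l x y) (hF : Fat S F) (b : Bool) {t : stD1 S l x y} (ht : t ∈ stC1 S l x y b) :
    (st3 S l x y).r (stN S l x y t) ∈ stC S l x y b := by
  rcases ht with ⟨p, hp, ht⟩ | ⟨d, hd, rfl⟩ | rfl | ⟨p, hp, rfl⟩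
  · have h1 := h.A_G hp b ht
    rw [h.r3N hF (fun d hd h2 => h.notG hF (Or.inl hd) (h2 ▸ h1))]
    rcases garc_next ht with h2 | h2
    · exact ⟨_, Or.inr (Or.inr (Or.inr ⟨p, hp, h2⟩)), rfl⟩
    · exact ⟨_, Or.inl ⟨p, hp, h2⟩, rfl⟩
  · have h1 := h.outF hF b hd
    rw [h.r3N hF (fun z hz h2 => h1.2 ((Sum.inl.inj h2 : d = z) ▸ hz)), h.r1_out hF h1.1]
    rcases garc_next hd with h2 | h2
    · exact ⟨_, Or.inr (Or.inr (Or.inl rfl)), by rw [h2]⟩
    · exact ⟨_, Or.inr (Or.inl ⟨_, h2, rfl⟩), rfl⟩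
  · rw [h.r3c hF (h.cen b), S.aa]
    obtain ⟨q, hq, h1⟩ := h.start b
    rw [← h1]
    exact ⟨_, h.C_start hq b, rfl⟩
  · rw [h.r3c hF ((h.cut _).2 (Or.inl (SLk.sex_K hp b)))]
    by_cases h1 : sex p b = sex (x, y) b
    · rw [h1, h.r1_out hF (h.aex b)]
      by_cases h2 : S.r (S.a (sex (x, y) b)) = S.a (sen (x, y) b)
      · exact ⟨_, Or.inr (Or.inr (Or.inl rfl)), by rw [h2]⟩
      · exact ⟨_, Or.inr (Or.inl ⟨_, garc_start h2, rfl⟩), rfl⟩
    · obtain ⟨q, hq, h2⟩ := h.link hp b h1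
      rw [h2]
      exact ⟨_, h.C_start hq b, rfl⟩

theorem SLk.Cinv (h : SLk S F l x y) (hF : Fat S F) (b : Bool) {c : stD2 S l x y} (hc : c ∈ stC S l x y b) :
    (st3 S l x y).r c ∈ stC S l x y b := by
  obtain ⟨t, ht, rfl⟩ := hc
  exact h.C_step hF b ht

/-- positions of the outer part: doubled, or old outer letters, or entries or exits -/
theorem SLk.C1_cases (h : SLk S F l x y) (hF : Fat S F) (b : Bool) {t : stD1 S l x y} (ht : t ∈ stC1 S l x y b) :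
    t ∈ stG S l x y ∨ (∃ d, t = Sum.inl d ∧ (d ∉ F ∨ d ∈ stK l)) := by
  rcases ht with ⟨p, hp, ht⟩ | ⟨d, hd, rfl⟩ | rfl | ⟨p, hp, rfl⟩
  · exact Or.inl (h.A_G hp b ht)
  · exact Or.inr ⟨d, rfl, Or.inl (h.outF hF b hd).1⟩
  · exact Or.inr ⟨_, rfl, Or.inl (h.aen b)⟩
  · exact Or.inr ⟨_, rfl, Or.inr (SLk.sex_K hp b)⟩

theorem SLk.CF (h : SLk S F l x y) (hF : Fat S F) (b : Bool) {c : stD2 S l x y} (hc : c ∈ stC S l x y b) :
    c ∉ stF S F l x y := by
  obtain ⟨t, ht, rfl⟩ := hc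
  rcases h.C1_cases hF b ht with h1 | ⟨d, rfl, h1⟩
  · have h2 : stN S l x y t = Sum.inr (⟨t, h1⟩, false) := cvN_mem h1
    rw [h2]
    exact inr_notF _
  · have h2 : stN S l x y (Sum.inl d) = Sum.inl (Sum.inl d) := by
      refine h.N_inl hF ?_
      rcases h1 with h1 | h1
      · exact Or.inr h1
      · exact Or.inl ((h.cut _).2 (Or.inl h1))
    rw [h2]
    intro h3
    rcases h1 with h1 | h1
    · exact h1 (SLk.inl_F.1 h3).1
    · exact (SLk.inl_F.1 h3).2 h1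

theorem SLk.Cdis (h : SLk S F l x y) (hF : Fat S F) {c : stD2 S l x y} (hc : c ∈ stC S l x y true) :
    c ∉ stC S l x y false := by
  obtain ⟨t, ht, rfl⟩ := hc
  rintro ⟨t', ht', h0⟩
  have h1 : t = t' := cvN_inj h0
  subst h1
  have hgo : ∀ {d : S.D}, (Sum.inl d : stD1 S l x y) ∈ stG S l x y → d ∉ F → False := fun h1 h2 => h.notG hF (Or.inr h2) h1
  have hgk : ∀ {d : S.D}, (Sum.inl d : stD1 S l x y) ∈ stG S l x y → d ∈ stK l → False :=
    fun h1 h2 => h.notG hF (Or.inl ((h.cut _).2 (Or.inl h2))) h1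
  rcases ht with ⟨p, hp, ht⟩ | ⟨d, hd, rfl⟩ | rfl | ⟨p, hp, rfl⟩
  · have hG := h.A_G hp true ht
    rcases ht' with ⟨q, hq, ht'⟩ | ⟨d, hd, rfl⟩ | rfl | ⟨q, hq, rfl⟩
    · have h2 : p = q := h.uniq p hp q hq ((h.A_same hp true ht).trans (h.A_same hq false ht').symm)
      subst h2
      exact garc_disj (fun h3 => h.ne p hp (Sum.inl.inj h3)) ht ht'
    · exact hgo hG (h.outF hF false hd).1
    · exact hgo hG (h.aen false)
    · exact hgk hG (SLk.sex_K hq false)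
  · rcases ht' with ⟨q, hq, ht'⟩ | ⟨d', hd', h2⟩ | h2 | ⟨q, hq, h2⟩
    · exact hgo (h.A_G hq false ht') (h.outF hF true hd).1
    · have h3 : d = d' := Sum.inl.inj h2
      subst h3
      exact garc_disj h.axy hd' hd
    · have h3 : d = S.a y := Sum.inl.inj h2
      rw [h3] at hd
      exact garc_not_start h.outer.symm hd
    · have h3 : d = sex q false := Sum.inl.inj h2
      exact (h.outF hF true hd).1 (h3 ▸ h.KF (SLk.sex_K hq false))
  · rcases ht' with ⟨q, hq, ht'⟩ | ⟨d', hd', h2⟩ | h2 | ⟨q, hq, h2⟩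
    · exact hgo (h.A_G hq false ht') (h.aen true)
    · have h3 : S.a x = d' := Sum.inl.inj h2
      rw [← h3] at hd'
      exact garc_not_start h.outer hd'
    · have h3 : S.a x = S.a y := Sum.inl.inj h2
      exact h.axy h3
    · have h3 : S.a x = sex q false := Sum.inl.inj h2
      exact h.ax (h3 ▸ h.KF (SLk.sex_K hq false))
  · rcases ht' with ⟨q, hq, ht'⟩ | ⟨d', hd', h2⟩ | h2 | ⟨q, hq, h2⟩
    · exact hgk (h.A_G hq false ht') (SLk.sex_K hp true)
    · have h3 : sex p true = d' := Sum.inl.inj h2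
      exact (h.outF hF false hd').1 (h3 ▸ h.KF (SLk.sex_K hp true))
    · have h3 : sex p true = S.a y := Sum.inl.inj h2
      exact h.ay (h3 ▸ h.KF (SLk.sex_K hp true))
    · have h3 : p.2 = q.1 := Sum.inl.inj h2
      exact h.ee hq hp h3.symm

theorem SLk.Ccov (h : SLk S F l x y) (hF : Fat S F) {c : stD2 S l x y} (hc : c ∉ stF S F l x y) :
    (∃ d, c = Sum.inl (Sum.inl d) ∧ d ∉ F ∧ ¬ S.r.SameCycle (S.a x) d) ∨ c ∈ stC S l x y true ∨ c ∈ stC S l x y false := by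
  have hN : ∀ {d : S.D}, Cut S l d ∨ d ∉ F → (Sum.inl (Sum.inl d) : stD2 S l x y) = stN S l x y (Sum.inl d) :=
    fun hd => (h.N_inl hF hd).symm
  rcases h.O_cases hc with ⟨d, rfl, h1 | h1⟩ | ⟨g, rfl⟩
  · by_cases h2 : S.r.SameCycle (S.a x) d
    · right
      by_cases h3 : d = S.a x
      · left
        exact ⟨Sum.inl d, Or.inr (Or.inr (Or.inl (by rw [h3]; rfl))), hN (Or.inr h1)⟩
      by_cases h4 : d = S.a y
      · right
        exact ⟨Sum.inl d, Or.inr (Or.inr (Or.inl (by rw [h4]; rfl))), hN (Or.inr h1)⟩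
      rcases garc_cover h.outer h2 h3 h4 with h5 | h5
      · right
        exact ⟨Sum.inl d, Or.inr (Or.inl ⟨d, h5, rfl⟩), hN (Or.inr h1)⟩
      · left
        exact ⟨Sum.inl d, Or.inr (Or.inl ⟨d, h5, rfl⟩), hN (Or.inr h1)⟩
    · left
      exact ⟨d, rfl, h1, h2⟩
  · right
    obtain ⟨p, hp, h2 | h2⟩ := h1
    · right
      exact ⟨Sum.inl d, Or.inr (Or.inr (Or.inr ⟨p, hp, by rw [h2]; rfl⟩)),
        hN (Or.inl ((h.cut _).2 (Or.inl ⟨p, hp, Or.inl h2⟩)))⟩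
    · left
      exact ⟨Sum.inl d, Or.inr (Or.inr (Or.inr ⟨p, hp, by rw [h2]; rfl⟩)),
        hN (Or.inl ((h.cut _).2 (Or.inl ⟨p, hp, Or.inr h2⟩)))⟩
  · right
    obtain ⟨p, hp, h1⟩ := g.2.1
    have hg : (Sum.inr (g, false) : stD2 S l x y) = stN S l x y g := (cvN_mem g.2).symm
    obtain ⟨b, hb⟩ := h.A_cov hp g.2 h1
    cases b
    · right
      exact ⟨g, Or.inl ⟨p, hp, hb⟩, hg⟩
    · left
      exact ⟨g, Or.inl ⟨p, hp, hb⟩, hg⟩

theorem SLk.CAB (h : SLk S F l x y) (hF : Fat S F) (b : Bool) {d : S.D} (hd : d ∉ F) (hc : ¬ Cut S l d) :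
    (Sum.inl (Sum.inl d) : stD2 S l x y) ∈ stC S l x y b ↔
      Arc S.r (S.r (S.a (sex (x, y) b))) (S.a (sen (x, y) b)) d := by
  have hN : (Sum.inl (Sum.inl d) : stD2 S l x y) = stN S l x y (Sum.inl d) := (h.N_inl hF (Or.inr hd)).symm
  constructor
  · rintro ⟨t, ht, h0⟩
    rw [hN] at h0
    have h1 : Sum.inl d = t := cvN_inj h0
    subst h1
    rcases ht with ⟨p, hp, ht⟩ | ⟨d', hd', h2⟩ | h2 | ⟨p, hp, h2⟩
    · exact absurd (h.A_G hp b ht) (h.notG hF (Or.inr hd))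
    · rw [(Sum.inl.inj h2 : d = d')]
      exact hd'
    · have h3 : d = S.a (sen (x, y) b) := Sum.inl.inj h2
      exact absurd (h3 ▸ h.cen b) hc
    · have h3 : d = sex p b := Sum.inl.inj h2
      exact absurd (h3 ▸ h.KF (SLk.sex_K hp b)) hd
  · intro h1
    exact ⟨Sum.inl d, Or.inr (Or.inl ⟨d, h1, rfl⟩), hN⟩

end

end Pool.Agent.GW
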