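import Pool.Agent.GW.StrE

/-!
# Strands: open corners
-/

set_option autoImplicit false

namespace Pool.Agent.GW

open Equiv Pool.Agent.SWP

section
variable (S : Sf) (l : List (S.D × S.D)) (x y : S.D)

/-- old outer letter at the vertex of an outer letter -/
noncomputable def stM : stD2 S l x y → S.D
  | Sum.inl (Sum.inl d) => d
  | Sum.inl (Sum.inr _) => x
  | Sum.inr (g, _) => open Classical in
      if (g : stD1 S l x y) = (st1 S l x y).r (Sum.inl x : stD1 S l x y) then S.a x else S.a y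

/-- live outer letters which can have open corners -/
def stOk (F : Set S.D) : Set (stD2 S l x y) := {c | (∃ d, c = Sum.inl (Sum.inl d) ∧ d ∉ F ∧ ¬ Cut S l d ∧ S.a d ≠ d) ∨
  ∃ g, c = Sum.inr (g, false) ∧ ((g : stD1 S l x y) = (st1 S l x y).r (Sum.inl x : stD1 S l x y) ∨
    (g : stD1 S l x y) = (st1 S l x y).r (Sum.inl y : stD1 S l x y))}

variable {S l x y} {F : Set S.D}

theorem SLk.r1xy (h : SLk S F l x y) :
    (st1 S l x y).r (Sum.inl x : stD1 S l x y) ≠ (st1 S l x y).r (Sum.inl y : stD1 S l x y) := by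
  intro h1
  have h2 : (Sum.inl x : stD1 S l x y) = Sum.inl y := (st1 S l x y).r.injective h1
  exact h.axy (by rw [(Sum.inl.inj h2 : x = y)])

/-- an outer copy with an open corner comes directly after `x` or `y` -/
theorem SLk.corner (h : SLk S F l x y) (hF : Fat S F) {g : stG S l x y} {c : stD2 S l x y}
    (hv : (st2 S l x y).vx (Sum.inr (g, false) : stD2 S l x y) c) (hne : c ≠ Sum.inr (g, false)) (hc : c ∉ stF S F l x y)
    (hl : (st3 S l x y).a c ≠ c) :
    (g : stD1 S l x y) = (st1 S l x y).r (Sum.inl x : stD1 S l x y) ∨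
      (g : stD1 S l x y) = (st1 S l x y).r (Sum.inl y : stD1 S l x y) := by
  by_cases hG : (st1 S l x y).r.symm (g : stD1 S l x y) ∈ stG S l x y
  · exfalso
    rcases cover_inner (st1 S l x y) (stG S l x y) g.2 hG hv with h1 | h1
    · exact hne h1
    · exact hc (Or.inr ⟨_, h1⟩)
  · -- the previous letter is an entry or exit
    have h1 : (st1 S l x y).r.SameCycle ((st1 S l x y).r.symm (g : stD1 S l x y)) (g : stD1 S l x y) := by
      have h2 := Perm.sameCycle_apply_right.2 (Perm.SameCycle.refl (st1 S l x y).r ((st1 S l x y).r.symm (g : stD1 S l x y)))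
      rw [Equiv.apply_symm_apply] at h2
      exact h2
    have h2 := msP_same S (stQ l x y) h1
    have h3 : msP S (stQ l x y) ((st1 S l x y).r.symm (g : stD1 S l x y)) ∈ stW (S := S) l := by
      obtain ⟨p, hp, h4⟩ := g.2.1
      exact ⟨p, hp, h4.trans h2.symm⟩
    have h4 : ∃ d ∈ stK l, (st1 S l x y).r.symm (g : stD1 S l x y) = Sum.inl d := by
      by_contra h5
      push Not at h5
      exact hG ⟨h3, h5⟩
    obtain ⟨d, hd, h5⟩ := h4
    have h6 : (g : stD1 S l x y) = (st1 S l x y).r (Sum.inl d : stD1 S l x y) := by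
      rw [← h5, Equiv.apply_symm_apply]
    by_cases hdx : d = x
    · left; rw [h6, hdx]
    by_cases hdy : d = y
    · right; rw [h6, hdy]
    exfalso
    have hq : d ∈ stQ l x y := ⟨hd, hdx, hdy⟩
    have hqa := h.Qa hq
    have h7 : (st1 S l x y).r (Sum.inl d : stD1 S l x y) = (Sum.inr (⟨d, hq⟩, true) : stD1 S l x y) := msR_in S _ hq
    rw [h7] at h6
    have hGt : (Sum.inr (⟨d, hq⟩, true) : stD1 S l x y) ∈ stG S l x y := h6 ▸ g.2
    have hGf : (Sum.inr (⟨d, hq⟩, false) : stD1 S l x y) ∈ stG S l x y :=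
      ⟨h.KW hqa.1, fun z _ h8 => by cases h8⟩
    have hgg : g = ⟨Sum.inr (⟨d, hq⟩, true), hGt⟩ := Subtype.ext h6
    have hcl : c ∈ ({c | c = Sum.inr (⟨Sum.inr (⟨d, hq⟩, true), hGt⟩, false) ∨ c = Sum.inl (Sum.inr (⟨d, hq⟩, true)) ∨
        c = Sum.inr (⟨Sum.inr (⟨d, hq⟩, false), hGf⟩, true) ∨ c = Sum.inl (Sum.inl (S.a d))} : Set (stD2 S l x y)) := by
      refine mem_of_same (s := (st2 S l x y).r * (st2 S l x y).a)
        (d := (Sum.inr (⟨Sum.inr (⟨d, hq⟩, true), hGt⟩, false) : stD2 S l x y)) ?_ (Or.inl rfl) (hgg ▸ hv)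
      rintro z (rfl | rfl | rfl | rfl)
      · right; left
        have h8 : (st1 S l x y).r.symm (Sum.inr (⟨d, hq⟩, true) : stD1 S l x y) = (Sum.inl d : stD1 S l x y) := by
          rw [← h7]
          exact Equiv.symm_apply_apply _ _
        have h9 := r2_start (S := S) (l := l) (x := x) (y := y) (g := ⟨Sum.inr (⟨d, hq⟩, true), hGt⟩) (by
          rw [h8]
          exact h.notG hF (Or.inl ((h.cut _).2 (Or.inl hd))))
        exact h9
      · right; right; left
        have h9 : (st1 S l x y).r (Sum.inr (⟨d, hq⟩, false) : stD1 S l x y) = (Sum.inl (S.a d) : stD1 S l x y) :=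
          msR_false S _ ⟨d, hq⟩
        exact r2_end (S := S) (l := l) (x := x) (y := y) hGf (by
          rw [h9]
          exact h.notG hF (Or.inl ((h.cut _).2 (Or.inl hqa.1))))
      · right; right; right
        have h9 : (st2 S l x y).r (Sum.inr (⟨Sum.inr (⟨d, hq⟩, false), hGf⟩, false) : stD2 S l x y) =
            stN S l x y (Sum.inl (S.a d)) := rfl
        rw [h.N_inl hF (Or.inl ((h.cut _).2 (Or.inl hqa.1)))] at h9
        exact h9
      · left
        have h9 : (st2 S l x y).r (stN S l x y (Sum.inl d)) = stN S l x y ((st1 S l x y).r (Sum.inl d : stD1 S l x y)) :=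
          cvR_N (st1 S l x y).r _
        rw [h.N_inl hF (Or.inl ((h.cut _).2 (Or.inl hd))), h7] at h9
        have h10 : stN S l x y (Sum.inr (⟨d, hq⟩, true)) = (Sum.inr (⟨Sum.inr (⟨d, hq⟩, true), hGt⟩, false) : stD2 S l x y) :=
          cvN_mem hGt
        rw [h10] at h9
        show (st2 S l x y).r (Sum.inl (Sum.inl (S.a (S.a d))) : stD2 S l x y) = _
        rw [S.aa]
        exact h9
    rcases hcl with h8 | h8 | h8 | h8
    · exact hne (by rw [h8, hgg])
    · exact hc (by rw [h8]; exact stG_F h hF hGt)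
    · exact hc (Or.inr ⟨_, h8⟩)
    · exact hl (by rw [h8]; exact sa3_mem S l x y ((h.cut _).2 (Or.inl hqa.1)))

theorem SLk.ok (h : SLk S F l x y) (hF : Fat S F) {c c' : stD2 S l x y} (hc : c ∉ stF S F l x y) (hc' : c' ∉ stF S F l x y)
    (hl : (st3 S l x y).a c ≠ c) (hl' : (st3 S l x y).a c' ≠ c') (hne : c ≠ c') (hv : (st3 S l x y).vx c c') :
    c ∈ stOk S l x y F := by
  rcases h.O_cases hc with ⟨d, rfl, h1⟩ | ⟨g, rfl⟩
  · have hcut : ¬ Cut S l d := fun h1 => hl (sa3_mem S l x y h1)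
    have hdF : d ∉ F := by
      rcases h1 with h0 | h0
      · exact h0
      · exact absurd ((h.cut _).2 (Or.inl h0)) hcut
    refine Or.inl ⟨d, rfl, hdF, hcut, ?_⟩
    intro h2
    apply hl
    rw [sa3_not S l x y (h.old_notY hcut), a2_old, h2]
  · exact Or.inr ⟨g, rfl, h.corner hF ((st3_vx S l x y).1 hv) hne.symm hc' hl'⟩

theorem stM_x {g : stG S l x y} (hg : (g : stD1 S l x y) = (st1 S l x y).r (Sum.inl x : stD1 S l x y)) :
    stM S l x y (Sum.inr (g, false)) = S.a x := if_pos hg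

theorem stM_y {g : stG S l x y} (hg : (g : stD1 S l x y) ≠ (st1 S l x y).r (Sum.inl x : stD1 S l x y)) :
    stM S l x y (Sum.inr (g, false)) = S.a y := if_neg hg

/-- the old letter is live and outer, and at the same vertex -/
theorem SLk.okM (h : SLk S F l x y) {c : stD2 S l x y} (hc : c ∈ stOk S l x y F) :
    stM S l x y c ∉ F ∧ S.a (stM S l x y c) ≠ stM S l x y c ∧
      (st1 S l x y).vx (Sum.inl (stM S l x y c) : stD1 S l x y) (cvK (st1 S l x y) (stG S l x y) c) := by
  have hx : ∀ z, z ∈ stK l → S.a z ∉ F → S.a (S.a z) ≠ S.a z := by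
    intro z hz h1 h2
    rw [S.aa] at h2
    exact h1 (h2 ▸ h.KF hz)
  have hstep : ∀ z, (st1 S l x y).vx (Sum.inl (S.a z) : stD1 S l x y) ((st1 S l x y).r (Sum.inl z : stD1 S l x y)) := by
    intro z
    have h1 : ((st1 S l x y).r * (st1 S l x y).a) (Sum.inl (S.a z) : stD1 S l x y) =
        (st1 S l x y).r (Sum.inl z : stD1 S l x y) := by
      show (st1 S l x y).r (Sum.inl (S.a (S.a z)) : stD1 S l x y) = _
      rw [S.aa]
    rw [← h1]
    exact Perm.sameCycle_apply_right.2 (Perm.SameCycle.refl _ _)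
  rcases hc with ⟨d, rfl, h1, h2, h3⟩ | ⟨g, rfl, h1⟩
  · exact ⟨h1, h3, Perm.SameCycle.refl _ _⟩
  · by_cases h2 : (g : stD1 S l x y) = (st1 S l x y).r (Sum.inl x : stD1 S l x y)
    · rw [stM_x h2]
      refine ⟨h.ax, hx x h.xK h.ax, ?_⟩
      have h3 : cvK (st1 S l x y) (stG S l x y) (Sum.inr (g, false) : stD2 S l x y) = (st1 S l x y).r (Sum.inl x : stD1 S l x y) := h2
      rw [h3]
      exact hstep x
    · have h4 := h1.resolve_left h2
      rw [stM_y h2]
      refine ⟨h.ay, hx y h.yK h.ay, ?_⟩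
      have h3 : cvK (st1 S l x y) (stG S l x y) (Sum.inr (g, false) : stD2 S l x y) = (st1 S l x y).r (Sum.inl y : stD1 S l x y) := h4
      rw [h3]
      exact hstep y

theorem SLk.okInj (h : SLk S F l x y) {c c' : stD2 S l x y} (hc : c ∈ stOk S l x y F) (hc' : c' ∈ stOk S l x y F)
    (he : stM S l x y c = stM S l x y c') : c = c' := by
  have key : ∀ (d : S.D) (g : stG S l x y), ¬ Cut S l d → stM S l x y (Sum.inr (g, false)) ≠ d := by
    intro d g hd h1
    apply hd
    rw [← h1]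
    by_cases h2 : (g : stD1 S l x y) = (st1 S l x y).r (Sum.inl x : stD1 S l x y)
    · rw [stM_x h2]
      exact (h.cut _).2 (Or.inr (Or.inl rfl))
    · rw [stM_y h2]
      exact (h.cut _).2 (Or.inr (Or.inr rfl))
  rcases hc with ⟨d, rfl, h1, h2, h3⟩ | ⟨g, rfl, h1⟩
  · rcases hc' with ⟨d', rfl, h1', h2', h3'⟩ | ⟨g', rfl, h1'⟩
    · have h4 : d = d' := he
      rw [h4]
    · exact absurd he.symm (key d g' h2)
  · rcases hc' with ⟨d', rfl, h1', h2', h3'⟩ | ⟨g', rfl, h1'⟩
    · exact absurd he (key d' g h2')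
    · have h4 : (g : stD1 S l x y) = g' := by
        by_cases h2 : (g : stD1 S l x y) = (st1 S l x y).r (Sum.inl x : stD1 S l x y)
        · by_cases h3 : (g' : stD1 S l x y) = (st1 S l x y).r (Sum.inl x : stD1 S l x y)
          · rw [h2, h3]
          · rw [stM_x h2, stM_y h3] at he
            exact absurd he h.axy
        · by_cases h3 : (g' : stD1 S l x y) = (st1 S l x y).r (Sum.inl x : stD1 S l x y)
          · rw [stM_y h2, stM_x h3] at he
            exact absurd he.symm h.axy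
          · rw [h1.resolve_left h2, h1'.resolve_left h3]
      have h5 : g = g' := Subtype.ext h4
      rw [h5]

theorem SLk.prs3 (h : SLk S F l x y) (hF : Fat S F) : (prs (st3 S l x y) (stF S F l x y)).ncard ≤ (prs S F).ncard := by
  refine Set.ncard_le_ncard_of_injOn (fun p : stD2 S l x y × stD2 S l x y => (stM S l x y p.1, stM S l x y p.2)) ?_ ?_ (Set.toFinite _)
  · rintro ⟨c, c'⟩ ⟨h1, h2, h3, h4, h5, h6⟩
    have hok := h.ok hF h1 h2 h3 h4 h5 h6
    have hok' := h.ok hF h2 h1 h4 h3 (Ne.symm h5) h6.symm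
    obtain ⟨m1, m2, m3⟩ := h.okM hok
    obtain ⟨m1', m2', m3'⟩ := h.okM hok'
    refine ⟨m1, m1', m2, m2', fun h7 => h5 (h.okInj hok hok' h7), ?_⟩
    have h7 := cover_vx (st1 S l x y) (stG S l x y) ((st3_vx S l x y).1 h6)
    have h8 : (st1 S l x y).vx (Sum.inl (stM S l x y c) : stD1 S l x y) (Sum.inl (stM S l x y c') : stD1 S l x y) :=
      (m3.trans h7).trans m3'.symm
    exact ms_vx S (stQ l x y) (fun h9 => m1 (h.KF (h.Qa' h9).1)) h8
  · rintro ⟨c, c'⟩ ⟨h1, h2, h3, h4, h5, h6⟩ ⟨e, e'⟩ ⟨k1, k2, k3, k4, k5, k6⟩ he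
    have hok := h.ok hF h1 h2 h3 h4 h5 h6
    have hok' := h.ok hF h2 h1 h4 h3 (Ne.symm h5) h6.symm
    have kok := h.ok hF k1 k2 k3 k4 k5 k6
    have kok' := h.ok hF k2 k1 k4 k3 (Ne.symm k5) k6.symm
    have e1 := h.okInj hok kok (congrArg Prod.fst he)
    have e2 := h.okInj hok' kok' (congrArg Prod.snd he)
    exact Prod.ext e1 e2

end

end Pool.Agent.GW
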