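import Pool.Agent.GW.StrF

/-!
# Strands: the moves
-/

set_option autoImplicit false

namespace Pool.Agent.GW

open Equiv Pool.Agent.SWP

section
variable {S : Sf} {l : List (S.D × S.D)} {x y : S.D} {F : Set S.D}

/-- every position is one of three -/
theorem SLk.pos3 (t : stD1 S l x y) : t = Sum.inl (msP S (stQ l x y) t) ∨ t = stT S l x y (msP S (stQ l x y) t) ∨
    t = msN S.a (stQ l x y) (msP S (stQ l x y) t) := by
  rcases t with d | ⟨q, _ | _⟩
  · exact Or.inl rfl
  · right; right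
    show _ = msN S.a (stQ l x y) (S.a q)
    have h1 : S.a (S.a q) ∈ stQ l x y := by rw [S.aa]; exact q.2
    rw [msN_mem S.a _ h1]
    congr 2
    apply Subtype.ext
    exact (S.aa q).symm
  · right; left
    show _ = stT S l x y q
    rw [stT_mem q.2]

theorem SLk.Qlive (h : SLk S F l x y) (hF : Fat S F) {d : S.D} (hd : d ∈ stQ l x y) : S.a d ≠ d :=
  hF.live d (h.KF hd.1)

theorem SLk.len1 (h : SLk S F l x y) (hF : Fat S F) (t : stD1 S l x y) :
    (st1 S l x y).len t ≤ 3 * S.len (msP S (stQ l x y) t) := by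
  have hlive : ∀ c : stD1 S l x y, (st1 S l x y).a c ≠ c → S.a (msP S (stQ l x y) c) ≠ msP S (stQ l x y) c := by
    rintro (d | ⟨q, _ | _⟩) hc
    · intro h1
      apply hc
      show (Sum.inl (S.a d) : stD1 S l x y) = Sum.inl d
      have h1' : S.a d = d := h1
      rw [h1']
    · exact h.Qlive hF (h.Qa q.2)
    · exact h.Qlive hF q.2
  have hsub : (st1 S l x y).word t ∩ (st1 S l x y).live ⊆
      ((fun d => (Sum.inl d : stD1 S l x y)) '' (S.word (msP S (stQ l x y) t) ∩ S.live) ∪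
      (stT S l x y) '' (S.word (msP S (stQ l x y) t) ∩ S.live)) ∪
      (msN S.a (stQ l x y)) '' (S.word (msP S (stQ l x y) t) ∩ S.live) := by
    rintro c ⟨h1, h2⟩
    have h3 : msP S (stQ l x y) c ∈ S.word (msP S (stQ l x y) t) ∩ S.live := ⟨msP_same S _ h1, hlive c h2⟩
    rcases SLk.pos3 c with h4 | h4 | h4
    · exact Or.inl (Or.inl ⟨_, h3, h4.symm⟩)
    · exact Or.inl (Or.inr ⟨_, h3, h4.symm⟩)
    · exact Or.inr ⟨_, h3, h4.symm⟩
  have key : ∀ A : Set (stD1 S l x y), A ⊆ ((fun d => (Sum.inl d : stD1 S l x y)) '' (S.word (msP S (stQ l x y) t) ∩ S.live) ∪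
      (stT S l x y) '' (S.word (msP S (stQ l x y) t) ∩ S.live)) ∪
      (msN S.a (stQ l x y)) '' (S.word (msP S (stQ l x y) t) ∩ S.live) →
      A.ncard ≤ 3 * (S.word (msP S (stQ l x y) t) ∩ S.live).ncard := by
    intro A hA
    refine (Set.ncard_le_ncard hA (Set.toFinite _)).trans ?_
    refine (Set.ncard_union_le _ _).trans ?_
    have h1 := Set.ncard_union_le ((fun d => (Sum.inl d : stD1 S l x y)) '' (S.word (msP S (stQ l x y) t) ∩ S.live))
        ((stT S l x y) '' (S.word (msP S (stQ l x y) t) ∩ S.live))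
    have h2 := Set.ncard_image_le (f := fun d => (Sum.inl d : stD1 S l x y))
      (Set.toFinite (S.word (msP S (stQ l x y) t) ∩ S.live))
    have h3 := Set.ncard_image_le (f := stT S l x y) (Set.toFinite (S.word (msP S (stQ l x y) t) ∩ S.live))
    have h4 := Set.ncard_image_le (f := msN S.a (stQ l x y)) (Set.toFinite (S.word (msP S (stQ l x y) t) ∩ S.live))
    omega
  exact key _ hsub

theorem SLk.G_live (h : SLk S F l x y) (hF : Fat S F) (t : stD1 S l x y) (ht : t ∈ stG S l x y) :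
    (st1 S l x y).a t ≠ t := by
  rcases t with d | ⟨q, c⟩
  · intro h4
    exact hF.live d (h.WF hF ht.1) (Sum.inl.inj h4)
  · intro h4
    have h5 : (Sum.inr (q, !c) : stD1 S l x y) = Sum.inr (q, c) := h4
    simp at h5

variable (S l x y) in
/-- the outer word and the strips -/
def stZ : Set (stD2 S l x y) := {c | ∃ t : stD1 S l x y, c = stN S l x y t ∧
  (msP S (stQ l x y) t ∈ stW (S := S) l ∨ S.r.SameCycle (S.a x) (msP S (stQ l x y) t))}

theorem SLk.ZInv : (st2 S l x y).Inv (stZ S l x y) := by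
  refine inv_fwd (st2 S l x y) ?_
  rintro c ⟨t, rfl, ht⟩
  refine ⟨(st1 S l x y).r t, cvR_N (st1 S l x y).r t, ?_⟩
  have h1 := msP_step S (stQ l x y) t
  rcases ht with ⟨p, hp, ht⟩ | ht
  · exact Or.inl ⟨p, hp, ht.trans h1⟩
  · exact Or.inr (ht.trans h1)

theorem SLk.YZ (h : SLk S F l x y) (hF : Fat S F) : stY S l x y ⊆ stZ S l x y := by
  rintro c ⟨d, hd, rfl⟩
  refine ⟨Sum.inl d, (h.N_inl hF (Or.inl hd)).symm, ?_⟩
  rcases (h.cut d).1 hd with h1 | h1 | h1
  · exact Or.inl (h.KW h1)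
  · right
    show S.r.SameCycle (S.a x) d
    rw [h1]
  · right
    show S.r.SameCycle (S.a x) d
    rw [h1]
    exact h.outer

theorem SLk.Znum (h : SLk S F l x y) (hF : Fat S F) : (st2 S l x y).num (stZ S l x y) ≤
    S.len (S.a x) + 3 * (stW (S := S) l).ncard := by
  have hsub : stZ S l x y ∩ (st2 S l x y).live ⊆
      (((fun d => (Sum.inl (Sum.inl d) : stD2 S l x y)) '' (S.word (S.a x) ∩ S.live) ∪
      (fun d => stN S l x y (Sum.inl d)) '' stW l) ∪
      (fun d => stN S l x y (stT S l x y d)) '' stW l) ∪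
      (fun d => stN S l x y (msN S.a (stQ l x y) d)) '' stW l := by
    rintro c ⟨⟨t, rfl, ht⟩, h2⟩
    by_cases hW : msP S (stQ l x y) t ∈ stW (S := S) l
    · rcases SLk.pos3 t with h4 | h4 | h4
      · exact Or.inl (Or.inl (Or.inr ⟨_, hW, congrArg (stN S l x y) h4.symm⟩))
      · exact Or.inl (Or.inr ⟨_, hW, congrArg (stN S l x y) h4.symm⟩)
      · exact Or.inr ⟨_, hW, congrArg (stN S l x y) h4.symm⟩
    · have h3 := ht.resolve_left hW
      obtain ⟨d, rfl, h4⟩ := h.pos hW
      have h5 : d ∉ F := by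
        intro h6
        exact h.ax (mem_of_same (s := S.r) (fun d hd => (hF.inv d).2 hd) h6 h3.symm)
      have h6 := h.N_inl hF (Or.inr h5)
      refine Or.inl (Or.inl (Or.inl ⟨d, ⟨h3, ?_⟩, h6.symm⟩))
      intro h7
      apply h2
      rw [h6]
      show (Sum.inl (Sum.inl (S.a d)) : stD2 S l x y) = _
      rw [h7]
  have key : ∀ A : Set (stD2 S l x y), A ⊆
      (((fun d => (Sum.inl (Sum.inl d) : stD2 S l x y)) '' (S.word (S.a x) ∩ S.live) ∪
      (fun d => stN S l x y (Sum.inl d)) '' stW l) ∪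
      (fun d => stN S l x y (stT S l x y d)) '' stW l) ∪
      (fun d => stN S l x y (msN S.a (stQ l x y) d)) '' stW l →
      A.ncard ≤ (S.word (S.a x) ∩ S.live).ncard + 3 * (stW (S := S) l).ncard := by
    intro A hA
    refine (Set.ncard_le_ncard hA (Set.toFinite _)).trans ?_
    refine (Set.ncard_union_le _ _).trans ?_
    have h1 := Set.ncard_union_le ((fun d => (Sum.inl (Sum.inl d) : stD2 S l x y)) '' (S.word (S.a x) ∩ S.live) ∪
        (fun d => stN S l x y (Sum.inl d)) '' stW l) ((fun d => stN S l x y (stT S l x y d)) '' stW l)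
    have h2 := Set.ncard_union_le ((fun d => (Sum.inl (Sum.inl d) : stD2 S l x y)) '' (S.word (S.a x) ∩ S.live))
        ((fun d => stN S l x y (Sum.inl d)) '' stW l)
    have h3 := Set.ncard_image_le (f := fun d => (Sum.inl (Sum.inl d) : stD2 S l x y))
      (Set.toFinite (S.word (S.a x) ∩ S.live))
    have h4 := Set.ncard_image_le (f := fun d => stN S l x y (Sum.inl d)) (Set.toFinite (stW (S := S) l))
    have h5 := Set.ncard_image_le (f := fun d => stN S l x y (stT S l x y d)) (Set.toFinite (stW (S := S) l))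
    have h6 := Set.ncard_image_le (f := fun d => stN S l x y (msN S.a (stQ l x y) d)) (Set.toFinite (stW (S := S) l))
    omega
  exact key _ hsub

theorem SLk.U3 (h : SLk S F l x y) (hF : Fat S F) (L : ℕ) (hL : ∀ d, 6 * S.len d ≤ L)
    (hM : S.len (S.a x) + 3 * {d | ∃ p ∈ l, S.r.SameCycle p.1 d}.ncard ≤ L) (hU : U L (st3 S l x y)) : U L S := by
  have h1 : ∀ t : stD1 S l x y, 2 * (st1 S l x y).len t ≤ L := by
    intro t
    have h2 := h.len1 hF t
    have h3 := hL (msP S (stQ l x y) t)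
    omega
  refine msub_U L S (stQ l x y) (fun d hd => h.Qlive hF hd) ?_
  refine cover_U L (st1 S l x y) (stG S l x y) Set.univ (h.G_live hF) h1 ?_
  refine glueSet_U L (st2 S l x y) (stY S l x y) (stZ S l x y) (stCl S l x y) (h.YZ hF) SLk.ZInv ((h.Znum hF).trans hM) ?_ hU
  exact cover_len_le (st1 S l x y) (stG S l x y) Set.univ (h.G_live hF) h1

end

end Pool.Agent.GW
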