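import Pool.Agent.GW.Cnd
import Pool.Agent.SWP.Fin

/-!
# GW/Top (helper73): the two main statements T1, T2 and the induction

`T1`: a closed state with words of length at most `u` and conductance at least `ψ` can be swept with words of length
`card^ε * ψ^(-m) * (card * u)^(1/2)`.
`T2`: one step of the induction: a closed state is reduced to closed states with conductance at least `ψ / C` and words
of length at most `K * area / (ψ * card)` and to a closed state with at most `ψ * K * card` letters and area at most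
`K * area`, `K = C (log N)^m`.
`main`: every closed state can be swept with words of length `C * card^ε * area^(1/2)`.
-/

set_option autoImplicit false

namespace Pool.Agent.GW

open Equiv Pool.Agent.SWP

/-- statement T1 -/
def T1 : Prop := ∀ ε : ℝ, 0 < ε → ∃ (C : ℝ) (m : ℕ), 1 ≤ C ∧ ∀ (S : Sf) (ψ : ℝ) (u L : ℕ), S.Closed → 0 < ψ → ψ ≤ 1 →
  S.Cond ψ → (∀ d, S.len d ≤ u) →
  C * (1 / ψ) ^ m * (S.card : ℝ) ^ ε * Real.sqrt ((S.card : ℝ) * u) ≤ L → U L S

/-- statement T2 -/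
def T2 : Prop := ∃ (C : ℝ) (m : ℕ), 1 ≤ C ∧ ∀ (S : Sf) (N : ℕ) (ψ : ℝ) (L : ℕ), S.Closed → S.card ≤ N → 2 ≤ N → 0 < ψ → ψ ≤ 1 →
  1 ≤ ψ * N → (∀ d, 2 * S.len d ≤ L) →
  (∀ X : Sf, X.Closed → X.Cond (ψ / C) → (X.card : ℝ) ≤ C * S.card →
    (∀ d, ψ * S.card * X.len d ≤ C * Real.log N ^ m * S.area) → U L X) →
  (∀ R : Sf, R.Closed → (R.card : ℝ) ≤ ψ * (C * Real.log N ^ m) * S.card →
    (R.area : ℝ) ≤ C * Real.log N ^ m * S.area → U L R) →
  C * Real.log N ^ m * S.area ≤ ψ * S.card * L → U L S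

/-- the square of the length of a word is at most the area -/
theorem len_sq_le_area (S : Sf) (d : S.D) : S.len d ^ 2 ≤ S.area := by
  classical
  unfold Sf.area
  have h1 : ∀ e ∈ (S.word d).toFinset, S.len e = S.len d := by
    intro e he
    have he' : S.r.SameCycle d e := by simpa [Sf.word] using he
    unfold Sf.len
    congr 1
    ext x
    exact ⟨fun h => he'.trans h, fun h => he'.symm.trans h⟩
  have h2 : ∑ e ∈ (S.word d).toFinset, S.len e = (S.word d).toFinset.card * S.len d := by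
    rw [Finset.sum_congr rfl h1, Finset.sum_const, smul_eq_mul]
  have h3 : S.len d ≤ (S.word d).toFinset.card := by
    rw [← Set.ncard_eq_toFinset_card']
    unfold Sf.len Sf.num
    exact Set.ncard_le_ncard Set.inter_subset_left (Set.toFinite _)
  calc S.len d ^ 2 = S.len d * S.len d := sq _
    _ ≤ (S.word d).toFinset.card * S.len d := Nat.mul_le_mul_right _ h3
    _ = ∑ e ∈ (S.word d).toFinset, S.len e := h2.symm
    _ ≤ ∑ e, S.len e := Finset.sum_le_sum_of_subset (Finset.subset_univ _)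

/-- `C (log N)^m ≤ N^κ` for large `N` -/
theorem log_bound (C : ℝ) (m : ℕ) (κ : ℝ) (hC : 1 ≤ C) (hκ : 0 < κ) : ∃ N0 : ℝ, 2 ≤ N0 ∧ ∀ N : ℝ, N0 ≤ N →
    C * Real.log N ^ m ≤ N ^ κ := by
  set k' : ℝ := κ / (2 * ((m : ℝ) + 1)) with hk'
  have hm : (0 : ℝ) < (m : ℝ) + 1 := by positivity
  have hk : 0 < k' := by positivity
  set C3 : ℝ := C * (1 / k') ^ m with hC3
  have hC3p : 0 < C3 := by positivity
  refine ⟨max 2 (C3 ^ (2 / κ)), le_max_left _ _, fun N hN => ?_⟩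
  have hN2 : 2 ≤ N := (le_max_left _ _).trans hN
  have hN3 : C3 ^ (2 / κ) ≤ N := (le_max_right _ _).trans hN
  have hN0 : 0 < N := by linarith
  have hN1 : 1 ≤ N := by linarith
  have h1 : Real.log N ≤ N ^ k' / k' := Real.log_le_rpow_div hN0.le hk
  have h2 : Real.log N ^ m ≤ (N ^ k' / k') ^ m := pow_le_pow_left₀ (Real.log_nonneg hN1) h1 m
  have h3 : (N ^ k' / k') ^ m = N ^ (k' * m) * (1 / k') ^ m := by
    rw [div_eq_mul_one_div, mul_pow, ← Real.rpow_natCast (N ^ k') m, ← Real.rpow_mul hN0.le]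
  have h4 : C3 ≤ N ^ (κ / 2) := by
    have h5 : (C3 ^ (2 / κ)) ^ (κ / 2) = C3 := by
      rw [← Real.rpow_mul hC3p.le]
      have : 2 / κ * (κ / 2) = 1 := by field_simp
      rw [this, Real.rpow_one]
    rw [← h5]
    exact Real.rpow_le_rpow (by positivity) hN3 (by positivity)
  have h6 : N ^ (k' * m) ≤ N ^ (κ / 2) := by
    apply Real.rpow_le_rpow_of_exponent_le hN1
    rw [hk']
    rw [div_mul_eq_mul_div, div_le_div_iff₀ (by positivity) (by norm_num)]
    nlinarith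
  calc C * Real.log N ^ m ≤ C * (N ^ (k' * m) * (1 / k') ^ m) := by
        rw [← h3]; exact mul_le_mul_of_nonneg_left h2 (by linarith)
    _ = C3 * N ^ (k' * m) := by rw [hC3]; ring
    _ ≤ N ^ (κ / 2) * N ^ (κ / 2) := mul_le_mul h4 h6 (by positivity) (by positivity)
    _ = N ^ κ := by rw [← Real.rpow_add hN0]; congr 1; ring

/-- numbers of the induction -/
structure Num (e ζ κ : ℝ) (m k0 : ℕ) : Prop where
  e0 : 0 < e
  e1 : e ≤ 1
  z0 : 0 < ζ
  z1 : ζ ≤ 1 / 8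
  zm : ζ * m ≤ e / 8
  ze : ζ ≤ e / 8
  kk : 2 / ζ + 1 ≤ (k0 : ℝ)
  k1 : 0 < κ
  k2 : κ ≤ ζ / 2
  k3 : κ * (k0 + 1) ≤ e / 8

theorem num_exists (ε : ℝ) (h : 0 < ε) (m : ℕ) : ∃ (ζ κ : ℝ) (k0 : ℕ), Num (min ε 1) ζ κ m k0 := by
  set e : ℝ := min ε 1 with he
  have e0 : 0 < e := lt_min h one_pos
  have e1 : e ≤ 1 := min_le_right _ _
  set ζ : ℝ := e / (8 * ((m : ℝ) + 1)) with hζ
  have hm : (0 : ℝ) < (m : ℝ) + 1 := by positivity
  have z0 : 0 < ζ := by positivity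
  have hζe : ζ * (8 * ((m : ℝ) + 1)) = e := by rw [hζ]; field_simp
  have hm0 : (0 : ℝ) ≤ (m : ℝ) := by positivity
  obtain ⟨k0, hk0⟩ := exists_nat_ge (2 / ζ + 1)
  set κ : ℝ := min (ζ / 2) (e / (8 * ((k0 : ℝ) + 1))) with hκ
  have hk : (0 : ℝ) < (k0 : ℝ) + 1 := by positivity
  refine ⟨ζ, κ, k0, ⟨e0, e1, z0, ?_, ?_, ?_, hk0, ?_, min_le_left _ _, ?_⟩⟩
  · nlinarith
  · nlinarith
  · nlinarith
  · exact lt_min (by positivity) (by positivity)
  · calc κ * ((k0 : ℝ) + 1) ≤ e / (8 * ((k0 : ℝ) + 1)) * ((k0 : ℝ) + 1) :=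
          mul_le_mul_of_nonneg_right (min_le_right _ _) hk.le
      _ = e / 8 := by field_simp

/-- the inductive claim at level `k` -/
def Claim (N : ℕ) (ψ K A : ℝ) (L k : ℕ) : Prop :=
  ∀ S : Sf, S.Closed → S.card ≤ N → (S.card : ℝ) ≤ N * (ψ * K) ^ k → (S.area : ℝ) ≤ K ^ k * A → U L S

theorem claim_base {N : ℕ} {ψ K A e ζ κ : ℝ} {m k0 L : ℕ} (hn : Num e ζ κ m k0) (hN : 2 ≤ N)
    (hψ : ψ = (N : ℝ) ^ (-ζ)) (hK0 : 0 < K) (hK : K ≤ (N : ℝ) ^ κ) : Claim N ψ K A L k0 := by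
  intro S hS _ hc _
  have hN1 : (1 : ℝ) < N := by exact_mod_cast (by omega : 1 < N)
  have hN0 : (0 : ℝ) < N := by linarith
  have h1 : ψ * K ≤ (N : ℝ) ^ (-(ζ / 2)) := by
    calc ψ * K ≤ (N : ℝ) ^ (-ζ) * (N : ℝ) ^ κ := by
          rw [hψ]; exact mul_le_mul_of_nonneg_left hK (by positivity)
      _ = (N : ℝ) ^ (-ζ + κ) := (Real.rpow_add hN0 _ _).symm
      _ ≤ (N : ℝ) ^ (-(ζ / 2)) := Real.rpow_le_rpow_of_exponent_le hN1.le (by have := hn.k2; linarith)
  have h2 : (ψ * K) ^ k0 ≤ (N : ℝ) ^ (-(ζ / 2) * k0) := by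
    calc (ψ * K) ^ k0 ≤ ((N : ℝ) ^ (-(ζ / 2))) ^ k0 :=
          pow_le_pow_left₀ (by rw [hψ]; positivity) h1 _
      _ = (N : ℝ) ^ (-(ζ / 2) * k0) := by rw [← Real.rpow_natCast, ← Real.rpow_mul hN0.le]
  have h3 : -(ζ / 2) * k0 < -1 := by
    have h4 := hn.kk
    have h5 := hn.z0
    have h6 : ζ / 2 * (2 / ζ + 1) ≤ ζ / 2 * k0 := mul_le_mul_of_nonneg_left h4 (by linarith)
    have h7 : ζ / 2 * (2 / ζ + 1) = 1 + ζ / 2 := by field_simp
    linarith
  have h4 : (N : ℝ) * (ψ * K) ^ k0 < 1 := by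
    calc (N : ℝ) * (ψ * K) ^ k0 ≤ (N : ℝ) * (N : ℝ) ^ (-(ζ / 2) * k0) := mul_le_mul_of_nonneg_left h2 hN0.le
      _ < (N : ℝ) * (N : ℝ) ^ (-1 : ℝ) :=
          mul_lt_mul_of_pos_left (Real.rpow_lt_rpow_of_exponent_lt hN1 h3) hN0
      _ = 1 := by rw [Real.rpow_neg_one]; exact mul_inv_cancel₀ hN0.ne'
  have h5 : (S.card : ℝ) < 1 := lt_of_le_of_lt hc h4
  have h6 : S.card < 1 := by exact_mod_cast h5
  exact U_of_card L S (by omega)

theorem claim_step {N : ℕ} {ψ K A e ζ κ C1 C2 : ℝ} {m1 m2 k0 k L : ℕ} (hn : Num e ζ κ m1 k0) (hN : 2 ≤ N)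
    (hψ : ψ = (N : ℝ) ^ (-ζ)) (hK : K ≤ (N : ℝ) ^ κ) (hKe : K = C2 * Real.log N ^ m2) (hK1 : 1 ≤ K)
    (hC1 : 1 ≤ C1) (hC2 : 1 ≤ C2) (hA : 0 ≤ A)
    (H1 : ∀ (S : Sf) (ψ : ℝ) (u L : ℕ), S.Closed → 0 < ψ → ψ ≤ 1 → S.Cond ψ → (∀ d, S.len d ≤ u) →
      C1 * (1 / ψ) ^ m1 * (S.card : ℝ) ^ (e / 4) * Real.sqrt ((S.card : ℝ) * u) ≤ L → U L S)
    (H2 : ∀ (S : Sf) (N : ℕ) (ψ : ℝ) (L : ℕ), S.Closed → S.card ≤ N → 2 ≤ N → 0 < ψ → ψ ≤ 1 →
      1 ≤ ψ * N → (∀ d, 2 * S.len d ≤ L) →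
      (∀ X : Sf, X.Closed → X.Cond (ψ / C2) → (X.card : ℝ) ≤ C2 * S.card →
        (∀ d, ψ * S.card * X.len d ≤ C2 * Real.log N ^ m2 * S.area) → U L X) →
      (∀ R : Sf, R.Closed → (R.card : ℝ) ≤ ψ * (C2 * Real.log N ^ m2) * S.card →
        (R.area : ℝ) ≤ C2 * Real.log N ^ m2 * S.area → U L R) →
      C2 * Real.log N ^ m2 * S.area ≤ ψ * S.card * L → U L S)
    (hL : 2 * (C1 * C2 ^ (m1 + 2)) * (N : ℝ) ^ e * Real.sqrt A ≤ L) (hk : k < k0)
    (ih : Claim N ψ K A L (k + 1)) : Claim N ψ K A L k := by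
  intro S hS hcN hc ha
  by_cases hSL : S.card ≤ L
  · exact U_of_card L S hSL
  push Not at hSL
  have hN1 : (1 : ℝ) < N := by exact_mod_cast (by omega : 1 < N)
  have hN0 : (0 : ℝ) < N := by linarith
  have hψ0 : 0 < ψ := by rw [hψ]; positivity
  have hψ1 : ψ ≤ 1 := by
    rw [hψ]; exact Real.rpow_le_one_of_one_le_of_nonpos hN1.le (by have := hn.z0; linarith)
  have hKp : 0 < K := by linarith
  have hψK : ψ * K ≤ 1 := by
    calc ψ * K ≤ (N : ℝ) ^ (-ζ) * (N : ℝ) ^ κ := by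
          rw [hψ]; exact mul_le_mul_of_nonneg_left hK (by positivity)
      _ = (N : ℝ) ^ (-ζ + κ) := (Real.rpow_add hN0 _ _).symm
      _ ≤ 1 := Real.rpow_le_one_of_one_le_of_nonpos hN1.le (by have := hn.k2; have := hn.z0; linarith)
  have hcS0 : (0 : ℝ) < S.card := by
    have : 0 < S.card := by omega
    exact_mod_cast this
  -- powers of `K`
  have hKk : K ^ (k + 1) ≤ (N : ℝ) ^ (e / 8) := by
    calc K ^ (k + 1) ≤ ((N : ℝ) ^ κ) ^ (k + 1) := pow_le_pow_left₀ hKp.le hK _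
      _ = (N : ℝ) ^ (κ * ((k + 1 : ℕ) : ℝ)) := by rw [← Real.rpow_natCast, ← Real.rpow_mul hN0.le]
      _ ≤ (N : ℝ) ^ (e / 8) := by
          apply Real.rpow_le_rpow_of_exponent_le hN1.le
          have h1 := hn.k3
          have h2 : ((k + 1 : ℕ) : ℝ) ≤ (k0 : ℝ) + 1 := by
            have : (k : ℝ) + 1 ≤ (k0 : ℝ) + 1 := by
              have : (k : ℝ) ≤ k0 := by exact_mod_cast hk.le
              linarith
            push_cast; exact this
          have h3 : κ * ((k + 1 : ℕ) : ℝ) ≤ κ * ((k0 : ℝ) + 1) := mul_le_mul_of_nonneg_left h2 hn.k1.le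
          linarith
  have hψi : 1 / ψ = (N : ℝ) ^ ζ := by
    rw [hψ, Real.rpow_neg hN0.le, one_div, inv_inv]
  have hψe : 1 / ψ ≤ (N : ℝ) ^ (e / 8) := by
    rw [hψi]; exact Real.rpow_le_rpow_of_exponent_le hN1.le hn.ze
  have hLA2 : 2 * ((N : ℝ) ^ e * Real.sqrt A) ≤ L := by
    have h1 : (1 : ℝ) ≤ C1 * C2 ^ (m1 + 2) := by
      have := one_le_pow₀ hC2 (n := m1 + 2)
      nlinarith
    calc 2 * ((N : ℝ) ^ e * Real.sqrt A) ≤ 2 * ((C1 * C2 ^ (m1 + 2)) * ((N : ℝ) ^ e * Real.sqrt A)) :=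
          mul_le_mul_of_nonneg_left (le_mul_of_one_le_left (by positivity) h1) (by norm_num)
      _ = 2 * (C1 * C2 ^ (m1 + 2)) * (N : ℝ) ^ e * Real.sqrt A := by ring
      _ ≤ L := hL
  have hLA : (N : ℝ) ^ e * Real.sqrt A ≤ L := by
    have : 0 ≤ (N : ℝ) ^ e * Real.sqrt A := by positivity
    linarith
  have hL' : C1 * C2 ^ (m1 + 2) * (N : ℝ) ^ e * Real.sqrt A ≤ L := by
    have h1 : (0 : ℝ) ≤ C1 * C2 ^ (m1 + 2) * (N : ℝ) ^ e * Real.sqrt A := by positivity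
    linarith
  have haK : K * S.area ≤ K ^ (k + 1) * A := by
    calc K * (S.area : ℝ) ≤ K * (K ^ k * A) := mul_le_mul_of_nonneg_left ha hKp.le
      _ = K ^ (k + 1) * A := by ring
  have hL0 : (0 : ℝ) ≤ L := by positivity
  have hKA : K ^ (k + 1) * A ≤ ψ * ((L : ℝ) * L) := by
    have h2 : ((N : ℝ) ^ e * Real.sqrt A) * ((N : ℝ) ^ e * Real.sqrt A) ≤ (L : ℝ) * L :=
      mul_le_mul hLA hLA (by positivity) hL0
    have h3 : ((N : ℝ) ^ e * Real.sqrt A) * ((N : ℝ) ^ e * Real.sqrt A) = (N : ℝ) ^ (2 * e) * A := by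
      have h4 : (N : ℝ) ^ (2 * e) = (N : ℝ) ^ e * (N : ℝ) ^ e := by
        rw [← Real.rpow_add hN0]; congr 1; ring
      rw [h4]
      calc ((N : ℝ) ^ e * Real.sqrt A) * ((N : ℝ) ^ e * Real.sqrt A)
          = (N : ℝ) ^ e * (N : ℝ) ^ e * (Real.sqrt A * Real.sqrt A) := by ring
        _ = (N : ℝ) ^ e * (N : ℝ) ^ e * A := by rw [Real.mul_self_sqrt hA]
    have h5 : K ^ (k + 1) ≤ ψ * (N : ℝ) ^ (2 * e) := by
      have h6 : K ^ (k + 1) * (1 / ψ) ≤ (N : ℝ) ^ (2 * e) := by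
        calc K ^ (k + 1) * (1 / ψ) ≤ (N : ℝ) ^ (e / 8) * (N : ℝ) ^ (e / 8) :=
              mul_le_mul hKk hψe (by positivity) (by positivity)
          _ = (N : ℝ) ^ (e / 8 + e / 8) := (Real.rpow_add hN0 _ _).symm
          _ ≤ (N : ℝ) ^ (2 * e) := Real.rpow_le_rpow_of_exponent_le hN1.le (by have := hn.e0; linarith)
      rw [mul_one_div, div_le_iff₀ hψ0] at h6
      linarith [mul_comm ((N : ℝ) ^ (2 * e)) ψ]
    calc K ^ (k + 1) * A ≤ ψ * (N : ℝ) ^ (2 * e) * A := mul_le_mul_of_nonneg_right h5 hA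
      _ = ψ * ((N : ℝ) ^ (2 * e) * A) := by ring
      _ ≤ ψ * ((L : ℝ) * L) := by
          apply mul_le_mul_of_nonneg_left _ hψ0.le
          rw [← h3]; exact h2
  have hlenL : ∀ d, 2 * S.len d ≤ L := by
    intro d
    have h1 : (S.len d : ℝ) ^ 2 ≤ S.area := by exact_mod_cast len_sq_le_area S d
    have h2 : (S.area : ℝ) ≤ K * S.area := le_mul_of_one_le_left (by positivity) hK1
    have h3 : K ^ (k + 1) * A ≤ ((N : ℝ) ^ e * Real.sqrt A) ^ 2 := by
      have h4 : (N : ℝ) ^ (e / 8) ≤ (N : ℝ) ^ (2 * e) :=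
        Real.rpow_le_rpow_of_exponent_le hN1.le (by have := hn.e0; linarith)
      have h5 : ((N : ℝ) ^ e * Real.sqrt A) ^ 2 = (N : ℝ) ^ (2 * e) * A := by
        rw [mul_pow, Real.sq_sqrt hA]
        congr 1
        rw [← Real.rpow_natCast, ← Real.rpow_mul hN0.le]; congr 1; push_cast; ring
      rw [h5]
      exact mul_le_mul_of_nonneg_right (hKk.trans h4) hA
    have h4 : (S.len d : ℝ) ^ 2 ≤ ((N : ℝ) ^ e * Real.sqrt A) ^ 2 := by linarith
    have h5 : (S.len d : ℝ) ≤ (N : ℝ) ^ e * Real.sqrt A :=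
      (pow_le_pow_iff_left₀ (by positivity) (by positivity) (by norm_num)).1 h4
    have h6 : (2 : ℝ) * S.len d ≤ L := by linarith
    exact_mod_cast h6
  have hψN : 1 ≤ ψ * N := by
    have h1 : ψ * N = (N : ℝ) ^ (-ζ + 1) := by
      rw [hψ, Real.rpow_add hN0, Real.rpow_one]
    rw [h1]
    exact Real.one_le_rpow hN1.le (by have := hn.z1; linarith)
  refine H2 S N ψ L hS hcN hN hψ0 hψ1 hψN hlenL ?_ ?_ ?_
  · -- conductance pieces
    intro X hX hXc hXn hXl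
    have hψC : 0 < ψ / C2 := by positivity
    have hψC1 : ψ / C2 ≤ 1 := by rw [div_le_one (by linarith)]; linarith
    set u : ℕ := ⌊K * S.area / (ψ * S.card)⌋₊ with hu
    have hu1 : ∀ d, X.len d ≤ u := by
      intro d
      apply Nat.le_floor
      rw [le_div_iff₀ (by positivity)]
      have := hXl d
      rw [← hKe] at this
      linarith [this, mul_comm (X.len d : ℝ) (ψ * S.card)]
    refine H1 X (ψ / C2) u L hX hψC hψC1 hXc hu1 ?_
    have hu2 : (u : ℝ) ≤ K * S.area / (ψ * S.card) := Nat.floor_le (by positivity)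
    have h1 : (1 / (ψ / C2)) ^ m1 ≤ C2 ^ m1 * (N : ℝ) ^ (e / 8) := by
      have h2 : 1 / (ψ / C2) = C2 * (N : ℝ) ^ ζ := by rw [← hψi]; field_simp
      rw [h2, mul_pow]
      apply mul_le_mul_of_nonneg_left _ (by positivity)
      calc ((N : ℝ) ^ ζ) ^ m1 = (N : ℝ) ^ (ζ * m1) := by rw [← Real.rpow_natCast, ← Real.rpow_mul hN0.le]
        _ ≤ (N : ℝ) ^ (e / 8) := Real.rpow_le_rpow_of_exponent_le hN1.le hn.zm
    have h2 : (X.card : ℝ) ^ (e / 4) ≤ C2 * (N : ℝ) ^ (e / 4) := by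
      have h3 : (X.card : ℝ) ≤ C2 * N := hXn.trans (mul_le_mul_of_nonneg_left (by exact_mod_cast hcN) (by linarith))
      calc (X.card : ℝ) ^ (e / 4) ≤ (C2 * N) ^ (e / 4) :=
            Real.rpow_le_rpow (by positivity) h3 (by have := hn.e0; linarith)
        _ = C2 ^ (e / 4) * (N : ℝ) ^ (e / 4) := Real.mul_rpow (by linarith) hN0.le
        _ ≤ C2 * (N : ℝ) ^ (e / 4) := by
            apply mul_le_mul_of_nonneg_right _ (by positivity)
            calc C2 ^ (e / 4) ≤ C2 ^ (1 : ℝ) :=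
                  Real.rpow_le_rpow_of_exponent_le hC2 (by have := hn.e1; linarith)
              _ = C2 := Real.rpow_one _
    have h3 : (X.card : ℝ) * u ≤ C2 ^ 2 * (N : ℝ) ^ (e / 4) * A := by
      calc (X.card : ℝ) * u ≤ (C2 * S.card) * (K * S.area / (ψ * S.card)) :=
            mul_le_mul hXn hu2 (by positivity) (by positivity)
        _ = C2 * (K * S.area) * (1 / ψ) := by field_simp
        _ ≤ C2 * (K ^ (k + 1) * A) * (N : ℝ) ^ (e / 8) :=
            mul_le_mul (mul_le_mul_of_nonneg_left haK (by linarith)) hψe (by positivity) (by positivity)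
        _ ≤ C2 * ((N : ℝ) ^ (e / 8) * A) * (N : ℝ) ^ (e / 8) := by
            apply mul_le_mul_of_nonneg_right _ (by positivity)
            apply mul_le_mul_of_nonneg_left _ (by linarith)
            exact mul_le_mul_of_nonneg_right hKk hA
        _ = C2 * (N : ℝ) ^ (e / 4) * A := by
            have : (N : ℝ) ^ (e / 4) = (N : ℝ) ^ (e / 8) * (N : ℝ) ^ (e / 8) := by
              rw [← Real.rpow_add hN0]; congr 1; ring
            rw [this]; ring
        _ ≤ C2 ^ 2 * (N : ℝ) ^ (e / 4) * A := by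
            apply mul_le_mul_of_nonneg_right _ hA
            apply mul_le_mul_of_nonneg_right _ (by positivity)
            nlinarith
    have h4 : Real.sqrt ((X.card : ℝ) * u) ≤ C2 * (N : ℝ) ^ (e / 8) * Real.sqrt A := by
      calc Real.sqrt ((X.card : ℝ) * u) ≤ Real.sqrt (C2 ^ 2 * (N : ℝ) ^ (e / 4) * A) := Real.sqrt_le_sqrt h3
        _ = Real.sqrt ((C2 * (N : ℝ) ^ (e / 8)) ^ 2 * A) := by
            congr 1
            have : (N : ℝ) ^ (e / 4) = ((N : ℝ) ^ (e / 8)) ^ 2 := by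
              rw [← Real.rpow_natCast, ← Real.rpow_mul hN0.le]; congr 1; push_cast; ring
            rw [this]; ring
        _ = C2 * (N : ℝ) ^ (e / 8) * Real.sqrt A := by
            rw [Real.sqrt_mul (by positivity), Real.sqrt_sq (by positivity)]
    calc C1 * (1 / (ψ / C2)) ^ m1 * (X.card : ℝ) ^ (e / 4) * Real.sqrt ((X.card : ℝ) * u)
        ≤ C1 * (C2 ^ m1 * (N : ℝ) ^ (e / 8)) * (C2 * (N : ℝ) ^ (e / 4)) *
          (C2 * (N : ℝ) ^ (e / 8) * Real.sqrt A) := by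
          apply mul_le_mul _ h4 (by positivity) (by positivity)
          apply mul_le_mul _ h2 (by positivity) (by positivity)
          exact mul_le_mul_of_nonneg_left h1 (by linarith)
      _ = C1 * C2 ^ (m1 + 2) * ((N : ℝ) ^ (e / 8) * (N : ℝ) ^ (e / 4) * (N : ℝ) ^ (e / 8)) * Real.sqrt A := by
          ring
      _ ≤ C1 * C2 ^ (m1 + 2) * (N : ℝ) ^ e * Real.sqrt A := by
          apply mul_le_mul_of_nonneg_right _ (Real.sqrt_nonneg _)
          apply mul_le_mul_of_nonneg_left _ (by positivity)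
          rw [← Real.rpow_add hN0, ← Real.rpow_add hN0]
          exact Real.rpow_le_rpow_of_exponent_le hN1.le (by have := hn.e0; linarith)
      _ ≤ L := hL'
  · -- the reduced surface
    intro R hR hRc hRa
    rw [← hKe] at hRc hRa
    apply ih R hR
    · have h1 : (R.card : ℝ) ≤ S.card := by
        calc (R.card : ℝ) ≤ ψ * K * S.card := hRc
          _ ≤ 1 * S.card := mul_le_mul_of_nonneg_right hψK hcS0.le
          _ = S.card := one_mul _
      have h2 : R.card ≤ S.card := by exact_mod_cast h1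
      omega
    · calc (R.card : ℝ) ≤ ψ * K * S.card := hRc
        _ ≤ ψ * K * (N * (ψ * K) ^ k) := mul_le_mul_of_nonneg_left hc (by positivity)
        _ = N * (ψ * K) ^ (k + 1) := by ring
    · exact hRa.trans haK
  · -- the lengths
    rw [← hKe]
    have hL1 : (L : ℝ) ≤ S.card := by exact_mod_cast hSL.le
    calc K * (S.area : ℝ) ≤ K ^ (k + 1) * A := haK
      _ ≤ ψ * ((L : ℝ) * L) := hKA
      _ ≤ ψ * (S.card * L) := by
          apply mul_le_mul_of_nonneg_left _ hψ0.le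
          exact mul_le_mul_of_nonneg_right hL1 hL0
      _ = ψ * S.card * L := by ring

/-- **MAIN INDUCTION** -/
theorem main_of (h1 : T1) (h2 : T2) : ∀ ε : ℝ, 0 < ε → ∃ C : ℝ, 1 ≤ C ∧ ∀ (S : Sf) (L : ℕ), S.Closed →
    C * (S.card : ℝ) ^ ε * Real.sqrt S.area ≤ L → U L S := by
  intro ε hε
  obtain ⟨C2, m2, hC2, H2⟩ := h2
  -- the exponent of T1 must be chosen before `m1` is known: `e = min ε 1`
  obtain ⟨C1, m1, hC1, H1⟩ := h1 (min ε 1 / 4) (by have : 0 < min ε 1 := lt_min hε one_pos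
                                                   linarith)
  obtain ⟨ζ, κ, k0, hn⟩ := num_exists ε hε m1
  set e : ℝ := min ε 1 with he
  have he0 : 0 < e := hn.e0
  obtain ⟨N0, hN02, hN0⟩ := log_bound C2 m2 κ hC2 hn.k1
  obtain ⟨n0, hn0⟩ := exists_nat_ge (Real.exp 1)
  refine ⟨max (2 * (C1 * C2 ^ (m1 + 2))) (N0 + n0), ?_, ?_⟩
  · refine le_trans ?_ (le_max_right _ _)
    have : (0 : ℝ) ≤ n0 := by positivity
    linarith
  intro S L hS hL
  by_cases hc0 : S.card = 0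
  · exact U_of_card L S (by omega)
  have hc1 : 1 ≤ S.card := Nat.one_le_iff_ne_zero.mpr hc0
  have hc1' : (1 : ℝ) ≤ S.card := by exact_mod_cast hc1
  have hA1 : (1 : ℝ) ≤ S.area := by exact_mod_cast hc1.trans (card_le_area S hS)
  have hsA : 1 ≤ Real.sqrt S.area := by
    rw [show (1 : ℝ) = Real.sqrt 1 from Real.sqrt_one.symm]; exact Real.sqrt_le_sqrt hA1
  have hpow : (1 : ℝ) ≤ (S.card : ℝ) ^ ε := Real.one_le_rpow hc1' hε.le
  have hpe : (S.card : ℝ) ^ e ≤ (S.card : ℝ) ^ ε := Real.rpow_le_rpow_of_exponent_le hc1' (min_le_left _ _)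
  by_cases hsmall : (S.card : ℝ) < N0 + n0
  · apply U_of_card
    have h3 : N0 + n0 ≤ max (2 * (C1 * C2 ^ (m1 + 2))) (N0 + n0) * (S.card : ℝ) ^ ε * Real.sqrt S.area := by
      have h4 : N0 + (n0 : ℝ) ≤ max (2 * (C1 * C2 ^ (m1 + 2))) (N0 + n0) := le_max_right _ _
      have h5 : (0 : ℝ) ≤ max (2 * (C1 * C2 ^ (m1 + 2))) (N0 + n0) := by
        refine le_trans ?_ h4
        have : (0 : ℝ) ≤ n0 := by positivity
        linarith
      calc N0 + (n0 : ℝ) ≤ max (2 * (C1 * C2 ^ (m1 + 2))) (N0 + n0) := h4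
        _ ≤ max (2 * (C1 * C2 ^ (m1 + 2))) (N0 + n0) * (S.card : ℝ) ^ ε := le_mul_of_one_le_right h5 hpow
        _ ≤ max (2 * (C1 * C2 ^ (m1 + 2))) (N0 + n0) * (S.card : ℝ) ^ ε * Real.sqrt S.area :=
            le_mul_of_one_le_right (by positivity) hsA
    have h6 : (S.card : ℝ) ≤ L := by linarith
    exact_mod_cast h6
  push Not at hsmall
  set N : ℕ := S.card with hN
  have hNN0 : N0 ≤ (N : ℝ) := by
    have : (0 : ℝ) ≤ n0 := by positivity
    linarith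
  have hN2 : 2 ≤ N := by
    have : (2 : ℝ) ≤ N := hN02.trans hNN0
    exact_mod_cast this
  have hNpos : (0 : ℝ) < N := by linarith
  set K : ℝ := C2 * Real.log N ^ m2 with hK
  have hKκ : K ≤ (N : ℝ) ^ κ := hN0 N hNN0
  have hlog : 1 ≤ Real.log N := by
    rw [Real.le_log_iff_exp_le hNpos]
    have : (0 : ℝ) ≤ N0 := by linarith
    linarith
  have hK1 : 1 ≤ K := by
    have := one_le_pow₀ hlog (n := m2)
    nlinarith
  set ψ : ℝ := (N : ℝ) ^ (-ζ) with hψ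
  have hLL : 2 * (C1 * C2 ^ (m1 + 2)) * (N : ℝ) ^ e * Real.sqrt S.area ≤ L := by
    refine le_trans ?_ hL
    apply mul_le_mul_of_nonneg_right _ (Real.sqrt_nonneg _)
    exact mul_le_mul (le_max_left _ _) hpe (by positivity) (le_trans (by positivity) (le_max_left _ _))
  have key : ∀ j : ℕ, j ≤ k0 → Claim N ψ K S.area L (k0 - j) := by
    intro j
    induction j with
    | zero => intro _; exact claim_base hn hN2 hψ (by linarith) hKκ
    | succ j ihj =>
      intro hj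
      have h1 := ihj (by omega)
      have h2 : k0 - j = (k0 - (j + 1)) + 1 := by omega
      rw [h2] at h1
      exact claim_step hn hN2 hψ hKκ hK hK1 hC1 hC2 (by positivity) H1 H2 hLL (by omega) h1
  have h0 := key k0 le_rfl
  rw [Nat.sub_self] at h0
  exact h0 S hS le_rfl (by simp [hN]) (by simp)

end Pool.Agent.GW
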