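import Pool.Agent.GW.NumF
import Pool.Agent.GW.LayForm
import Pool.Agent.GW.NetG
import Pool.Agent.GW.NetCells
import Pool.Agent.GW.Init
import Pool.Agent.GW.Top

/-!
# GW/T1Fin (helper90): the proof of T1 (MP_37d33d_gt)

Normal form (`norm_form`), net of its dual graph (`WG.net`), cells (`cells_of_net`), first net (`init`), dynamic part (`dyn`), numbers
(`nums`).
-/

set_option autoImplicit false

namespace Pool.Agent.GW

open Equiv Pool.Agent.SWP

theorem len_closed (S : Sf) (hS : S.Closed) (d : S.D) : S.len d = (Set.ncard {e | S.wd e = S.wd d}) := by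
  unfold Sf.len Sf.num
  congr 1
  ext e
  constructor
  · rintro ⟨he, _⟩
    exact ((S.wd_eq e d).mpr he.symm)
  · intro he
    exact ⟨((S.wd_eq e d).mp he).symm, hS e⟩

theorem t1 : T1 := by
  classical
  intro ε hε
  obtain ⟨r, b, C, hr, hC, HN⟩ := nums ε hε
  refine ⟨C, 36, hC, ?_⟩
  intro S ψ u L hS h0 h1 hCd hlen hL
  by_cases hn0 : S.card = 0
  · exact U_of_card L S (by omega)
  have hn1 : 1 ≤ S.card := by omega
  -- words of length at most v
  obtain ⟨v, hv⟩ : ∃ v, v = min u S.card := ⟨_, rfl⟩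
  have hlenv : ∀ d, S.len d ≤ v := fun d => by rw [hv]; exact le_min (hlen d) (len_le_card S d)
  have hvu : v ≤ u := by rw [hv]; exact min_le_left _ _
  have hvn : v ≤ S.card := by rw [hv]; exact min_le_right _ _
  have hv1 : 1 ≤ v := by
    have : Nonempty S.D := Fintype.card_pos_iff.mp hn1
    obtain ⟨d⟩ := this
    refine le_trans ?_ (hlenv d)
    rw [len_closed S hS d]
    exact (Set.ncard_pos (Set.toFinite _)).mpr ⟨d, rfl⟩
  have hψi : 0 < 1 / ψ := by positivity
  have hLv : C * (1 / ψ) ^ 36 * (S.card : ℝ) ^ ε * Real.sqrt ((S.card : ℝ) * v) ≤ L := by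
    refine le_trans ?_ hL
    refine mul_le_mul_of_nonneg_left ?_ (by positivity)
    apply Real.sqrt_le_sqrt
    refine mul_le_mul_of_nonneg_left ?_ (Nat.cast_nonneg _)
    exact_mod_cast hvu
  obtain ⟨K', hK1, hK2⟩ : ∃ K' : ℕ, v ≤ 2 ^ K' ∧ 2 ^ K' ≤ 2 * v := by
    refine ⟨Nat.clog 2 v, Nat.le_pow_clog (by norm_num) v, ?_⟩
    rcases Nat.lt_or_ge 1 v with hv2 | hv2
    · have h3 := Nat.pow_pred_clog_lt_self (b := 2) (by norm_num) hv2
      have h4 : 0 < Nat.clog 2 v := Nat.clog_pos (by norm_num) hv2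
      have h5 : 2 ^ Nat.clog 2 v = 2 * 2 ^ (Nat.clog 2 v).pred := by
        obtain ⟨c, hc⟩ : ∃ c, Nat.clog 2 v = c + 1 := ⟨Nat.clog 2 v - 1, by omega⟩
        rw [hc, Nat.pred_succ, pow_succ, mul_comm]
      omega
    · have h3 : v = 1 := by omega
      rw [h3]; simp
  obtain ⟨h4v, hcase⟩ := HN S.card v K' ((2 * K' + 1) * S.card) L ψ hv1 hvn hK2 rfl h0 h1 hLv
  rcases hcase with h | ⟨t, H, ht, hH, hHn, hB⟩
  · exact U_of_card L S h
  obtain ⟨S', hS', hcard, hlenS, hCS, hdeg, hU⟩ := norm_form S hS h0 h1 hCd v K' L hlenv hK1 h4v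
  have hvol : S'.dual.vol Finset.univ = (((2 * K' + 1) * S.card : ℕ) : ℝ) := by rw [S'.dual_vol_univ, hcard]
  have homL : ∀ P, 1 ≤ S'.dual.om P ∧ S'.dual.om P ≤ 2 * (v : ℝ) := by
    intro P
    obtain ⟨d, rfl⟩ := S'.wd_surj P
    rw [S'.dual_om]
    have h3 := len_closed S' hS' d
    have h4 := hlenS d
    rw [h3] at h4
    constructor
    · have : 1 ≤ Set.ncard {e | S'.wd e = S'.wd d} := (Set.ncard_pos (Set.toFinite _)).mpr ⟨d, rfl⟩
      exact_mod_cast this
    · exact_mod_cast h4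
  have hne : Nonempty S'.Wd := by
    have h3 : 0 < S'.card := by rw [hcard]; exact Nat.mul_pos (Nat.succ_pos _) hn1
    obtain ⟨d⟩ : Nonempty S'.D := Fintype.card_pos_iff.mp h3
    exact ⟨S'.wd d⟩
  have hψ'0 : 0 < ψ / (8 * ((K' : ℝ) + 1)) := by positivity
  have hψ'1 : ψ / (8 * ((K' : ℝ) + 1)) ≤ 1 := by
    rw [div_le_one (by positivity)]
    have : (0 : ℝ) ≤ K' := Nat.cast_nonneg _
    linarith
  obtain ⟨B, κ, fκ, _, cls, hub, cen, b1, b2, b3, c1, c2, c3, c4, _, c6⟩ :=
    WG.net S'.dual (r := r) (H := H) (t := t) (by omega) hψ'0 hψ'1 hCS (fun P => (homL P).1) (fun P => (homL P).2)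
      (fun P => by convert hdeg P) (by rw [hvol]; exact ht) (by rw [hvol]; exact hH) (by rw [hvol]; exact hHn)
  rw [hvol] at b2 b3
  rcases hB B b1 b2 b3 with h | ⟨Th', K, M, m, W, Q, T, B0, k1, k2, k3, k4, k5, k6⟩
  · exact U_of_card L S h
  apply hU
  have hcl := cells_of_net S' hS' cls hub cen (fun k => by convert c2 k) c3 c1 Th' Th'
    (fun g => by
      refine le_trans ?_ ((c4 g).trans k1)
      refine Finset.sum_le_sum_of_subset_of_nonneg ?_ (fun x _ _ => S'.dual.om_nonneg x)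
      intro x hx
      simp only [Finset.mem_filter, Finset.mem_univ, true_and] at hx ⊢
      exact hx)
    (fun g => by
      refine le_trans ?_ ((c4 g).trans k1)
      refine Finset.sum_le_sum_of_subset_of_nonneg ?_ (fun x _ _ => S'.dual.om_nonneg x)
      intro x hx
      simp only [Finset.mem_filter, Finset.mem_univ, true_and] at hx ⊢
      rw [hx, c1]) (fun g g' hg => by
        refine c6 g g' ?_
        rw [← hg])
  have hlines : ∀ (g : Lab r B) (i : Fin r), {w : Fin B | Function.update g i w ∉ (Set.univ : Set (Lab r B))}.ncard ≤ 0 := by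
    intro g i
    have : {w : Fin B | Function.update g i w ∉ (Set.univ : Set (Lab r B))} = ∅ := by
      ext w; simp
    rw [this, Set.ncard_empty]
  obtain ⟨N, hN, hNt, hNU, hNl, hNn⟩ := init (by omega) S' Set.univ _ _ _ Th' Th' 0 K hcl hlines
    (by
      have : K ≤ B - 1 := by omega
      have h3 : 1 * (B - 1) ≤ r * (B - 1) := Nat.mul_le_mul_right _ (by omega)
      omega) k2 L k5
  apply hNU
  refine dyn k6 r hr le_rfl ⟨Set.univ, K, 2 * Th', 2 * Th', 3⟩ N hN rfl rfl ?_ le_rfl hNt ?_ ?_ ?_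
  · exact Nat.le_mul_of_pos_left _ (by positivity)
  · intro g i
    exact (hlines g i).trans (Nat.zero_le _)
  · intro d hd
    exact (hNl d hd).trans (by omega)
  · refine hNn.trans ?_
    have h3 : Fintype.card S'.D = (2 * K' + 1) * S.card := hcard
    rw [h3]
    unfold nbW
    omega

end Pool.Agent.GW
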