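import Pool.Agent.GW.T2Lay
import Pool.Agent.GW.CovLen
import Pool.Agent.GW.LabCap
import Pool.Agent.GW.CompCond
import Pool.Agent.GW.Parts
import Pool.Agent.GW.Cap
import Pool.Agent.GW.Top

/-!
# GW/T2Comb (helper76): the combinatorial half of T2
-/

set_option autoImplicit false

namespace Pool.Agent.GW

open Equiv Pool.Agent.SWP Finset

theorem live_r {S : Sf} (hdead : ∀ d, S.a d = d → S.r d = d) (d : S.D) : S.a (S.r d) = S.r d ↔ S.a d = d := by
  constructor
  · intro h1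
    have h2 := hdead _ h1
    rw [S.r.injective h2] at h1
    exact h1
  · intro h1
    rw [hdead d h1]; exact h1

theorem live_a {S : Sf} (d : S.D) : S.a (S.a d) = S.a d ↔ S.a d = d := by
  rw [S.aa]
  exact eq_comm

theorem sum_val_le {D : Type} [Fintype D] (A : Set D) (i : Fintype {d // d ∈ A}) (F : D → ℕ) :
    ∑ d ∈ @Finset.univ _ i, F d.1 ≤ ∑ d, F d := by
  have h := Finset.sum_map (Finset.univ : Finset {d // d ∈ A}) ⟨Subtype.val, Subtype.val_injective⟩ F
  have h2 : ∑ d : {d // d ∈ A}, F d.1 = ∑ e ∈ Finset.univ.map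
      (⟨Subtype.val, Subtype.val_injective⟩ : {d // d ∈ A} ↪ D), F e := h.symm
  rw [h2]
  exact Finset.sum_le_sum_of_subset (Finset.subset_univ _)

section

variable {S : Sf} (hS : S.Closed) {E : Set S.D} {M : ℝ} {b n : ℕ} {ρ : Perm S.D} {R : Rg S E ρ}
  {ρ' : Perm (S.D ⊕ (S.D ⊕ S.D))} (hY : Lay S E M b n ρ R ρ')

include hS hY

theorem lay_covlen (e : S.D ⊕ (S.D ⊕ S.D)) : (S.cov R.G R.K).len e ≤ 2 * n + S.len (base e) := by
  have hNG : ∀ d e, R.K.N d = some e → d ∈ R.G ∧ e ∈ R.G := fun d e h => ⟨(R.NG d e h).1, (R.NG d e h).2.1⟩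
  obtain ⟨h1, h2⟩ := cov_len S R.G R.K (fun d _ => hS d) hNG
  have hc : ∀ d ∈ R.G, Set.ncard {e | Relation.EqvGen (fun x y => R.K.N x = some y) d e} ≤ n := by
    intro d hd
    obtain ⟨i, _, hi⟩ := R.cls d hd
    rw [hi]
    exact hY.ch i
  rcases e with d | d | d
  · by_cases hd : d ∈ R.G
    · have h3 := (h2 d hd).2.1
      have h4 := hc d hd
      show _ ≤ 2 * n + S.len d
      omega
    · have h3 := (h1 d hd).1
      show _ ≤ 2 * n + S.len d
      omega
  · by_cases hd : d ∈ R.G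
    · have h3 := (h2 d hd).1
      show _ ≤ 2 * n + S.len d
      omega
    · have h3 := (h1 d hd).2.1
      show _ ≤ 2 * n + S.len d
      omega
  · by_cases hd : d ∈ R.G
    · have h3 := (h2 d hd).2.2
      have h4 := hc d hd
      show _ ≤ 2 * n + S.len d
      omega
    · have h3 := (h1 d hd).2.2
      show _ ≤ 2 * n + S.len d
      omega

theorem lay_covlen' (L : ℕ) (hn : 2 * n ≤ L) (hL : ∀ d, S.len d ≤ L) (e : S.D ⊕ (S.D ⊕ S.D)) :
    (S.cov R.G R.K).len e ≤ L := by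
  have hNG : ∀ d e, R.K.N d = some e → d ∈ R.G ∧ e ∈ R.G := fun d e h => ⟨(R.NG d e h).1, (R.NG d e h).2.1⟩
  obtain ⟨h1, h2⟩ := cov_len S R.G R.K (fun d _ => hS d) hNG
  have hc : ∀ d ∈ R.G, Set.ncard {e | Relation.EqvGen (fun x y => R.K.N x = some y) d e} ≤ n := by
    intro d hd
    obtain ⟨i, _, hi⟩ := R.cls d hd
    rw [hi]
    exact hY.ch i
  rcases e with d | d | d
  · by_cases hd : d ∈ R.G
    · have h3 := (h2 d hd).2.1
      have h4 := hc d hd
      omega
    · have h3 := (h1 d hd).1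
      have := hL d
      omega
  · by_cases hd : d ∈ R.G
    · have h3 := (h2 d hd).1
      have := hL d
      omega
    · have h3 := (h1 d hd).2.1
      omega
  · by_cases hd : d ∈ R.G
    · have h3 := (h2 d hd).2.2
      have h4 := hc d hd
      omega
    · have h3 := (h1 d hd).2.2
      omega

/-- lengths of the holes -/
theorem lay_hole (e : S.D ⊕ (S.D ⊕ S.D)) : ((S.cov R.G R.K).holes R.E' ρ').len e ≤ 10 * b + 2 * n ∨
    ∃ d ∈ E, e = Sum.inl d ∧ M < S.pw (S.wd d) ∧ ((S.cov R.G R.K).holes R.E' ρ').len e ≤ S.len d := by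
  by_cases he : e ∈ R.E'
  · rcases e with d | d | d
    · have hd : d ∈ E := he
      by_cases hs : (S.pw (S.wd d) : ℝ) ≤ M
      · exact Or.inl (hY.sml d hd hs)
      · push Not at hs
        exact Or.inr ⟨d, hd, rfl, hs, hY.big d hd hs⟩
    · exact Or.inl (hY.cp d he).1
    · exact Or.inl (hY.cp d he).2
  · left
    rw [hY.out e he]
    exact Nat.zero_le _

/-- number of rung letters -/
theorem lay_rung (h16 : 16 * n ≤ b) (hb : 1 ≤ b) :
    16 * Set.ncard {e : S.D ⊕ (S.D ⊕ S.D) | ∃ d ∈ R.G, e = Sum.inr (Sum.inl d) ∨ e = Sum.inr (Sum.inr d)} ≤ E.ncard := by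
  have h1 := hY.gap Set.univ (fun e => by simp)
  have h2 : ({e | e ∈ Set.univ ∧ ∃ d ∈ R.G, e = Sum.inr (Sum.inl d) ∨ e = Sum.inr (Sum.inr d)} :
      Set (S.D ⊕ (S.D ⊕ S.D))) = {e | ∃ d ∈ R.G, e = Sum.inr (Sum.inl d) ∨ e = Sum.inr (Sum.inr d)} := by
    ext e; simp
  have h3 : ({e | e ∈ Set.univ ∧ ∃ d ∈ E, e = Sum.inl d} : Set (S.D ⊕ (S.D ⊕ S.D))) = Sum.inl '' E := by
    ext e
    simp only [Set.mem_ofPred_eq, Set.mem_image, Set.mem_univ, true_and]
    constructor
    · rintro ⟨d, hd, rfl⟩; exact ⟨d, hd, rfl⟩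
    · rintro ⟨d, hd, rfl⟩; exact ⟨d, hd, rfl⟩
  rw [h2, h3, Set.ncard_image_of_injective _ Sum.inl_injective] at h1
  set q := Set.ncard {e : S.D ⊕ (S.D ⊕ S.D) | ∃ d ∈ R.G, e = Sum.inr (Sum.inl d) ∨ e = Sum.inr (Sum.inr d)}
  have h4 : b * (16 * q) ≤ b * E.ncard := by
    calc b * (16 * q) = 16 * (b * q) := by ring
      _ ≤ 16 * (n * E.ncard) := Nat.mul_le_mul_left _ h1
      _ = (16 * n) * E.ncard := by ring
      _ ≤ b * E.ncard := Nat.mul_le_mul_right _ h16
  exact Nat.le_of_mul_le_mul_left h4 hb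

theorem lay_E' (h16 : 16 * n ≤ b) (hb : 1 ≤ b) : R.E'.ncard ≤ 2 * E.ncard := by
  have h1 := lay_rung hS hY h16 hb
  have h2 : R.E' ⊆ Sum.inl '' E ∪ {e | ∃ d ∈ R.G, e = Sum.inr (Sum.inl d) ∨ e = Sum.inr (Sum.inr d)} := by
    rintro (d | d | d) h
    · exact Or.inl ⟨d, h, rfl⟩
    · exact Or.inr ⟨d, h, Or.inl rfl⟩
    · exact Or.inr ⟨d, h, Or.inr rfl⟩
  have h3 := (Set.ncard_le_ncard h2 (Set.toFinite _)).trans (Set.ncard_union_le _ _)
  rw [Set.ncard_image_of_injective _ Sum.inl_injective] at h3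
  omega

theorem lay_holes_dead (e : S.D ⊕ (S.D ⊕ S.D)) (he : ((S.cov R.G R.K).holes R.E' ρ').a e = e) :
    ((S.cov R.G R.K).holes R.E' ρ').r e = e := by
  by_cases h : e ∈ R.E'
  · exfalso
    rw [holes_a_pos _ _ _ h] at he
    exact (cov_live S hS E ρ R).2.1 e h he
  · exact hY.FR.off e h

theorem lay_holes_live (e : S.D ⊕ (S.D ⊕ S.D)) : ((S.cov R.G R.K).holes R.E' ρ').a e ≠ e ↔ e ∈ R.E' := by
  constructor
  · intro h
    by_contra h2
    exact h (holes_a_neg _ _ hY.cl _ h2)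
  · intro h he
    rw [holes_a_pos _ _ _ h] at he
    exact (cov_live S hS E ρ R).2.1 e h he

/-- the surface of the holes -/
theorem lay_U_holes (L : ℕ) (h16 : 16 * n ≤ b) (hb : 1 ≤ b) (hL : ∀ d, S.len d ≤ L) (hL2 : 10 * b + 2 * n ≤ L)
    (hR : ∀ R : Sf, R.Closed → R.card ≤ 3 * E.ncard → R.area ≤ 3 * E.ncard * (10 * b + 2 * n) + 2 * S.area → U L R) :
    U L ((S.cov R.G R.K).holes R.E' ρ') := by
  classical
  have hlen : ∀ e, ((S.cov R.G R.K).holes R.E' ρ').len e ≤ L := by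
    intro e
    rcases lay_hole hS hY e with h | ⟨d, _, _, _, h⟩
    · exact h.trans hL2
    · exact h.trans (hL d)
  have hdead := lay_holes_dead hS hY
  refine U_parts_live (ι := Unit) _ (fun _ => ()) (fun _ => rfl) (fun _ => rfl) hdead hlen
    (fun i d => ?_) (fun i d => ?_) (fun i => ?_)
  · exact and_congr_right fun _ => not_congr (live_r hdead d)
  · exact and_congr_right fun _ => not_congr (live_a d)
  · set A : Set ((S.cov R.G R.K).holes R.E' ρ').D := {d | () = i ∧ ((S.cov R.G R.K).holes R.E' ρ').a d ≠ d} with hA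
    have hAE : A ⊆ R.E' := fun e he => (lay_holes_live hS hY e).1 he.2
    have hAc : A.ncard ≤ 2 * E.ncard := (Set.ncard_le_ncard hAE (Set.toFinite _)).trans (lay_E' hS hY h16 hb)
    apply hR
    · exact Sf.part_closed _ _ _ _ (fun d hd => hd.2)
    · rw [Sf.part_card]
      show A.ncard ≤ _
      omega
    · set F : S.D ⊕ (S.D ⊕ S.D) → ℕ := Sum.elim S.len (fun _ => 0) with hF
      have h1 : ∀ e, ((S.cov R.G R.K).holes R.E' ρ').len e ≤ (10 * b + 2 * n) + F e := by
        intro e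
        rcases lay_hole hS hY e with h | ⟨d, _, rfl, _, h⟩
        · omega
        · have : F (Sum.inl d) = S.len d := rfl
          omega
      unfold Sf.area
      calc ∑ d, (((S.cov R.G R.K).holes R.E' ρ').part A _ _).len d
          ≤ ∑ d : (((S.cov R.G R.K).holes R.E' ρ').part A _ _).D, ((10 * b + 2 * n) + F d.1) := by
            apply Finset.sum_le_sum
            intro d _
            rw [Sf.part_len]
            exact h1 d.1
        _ = A.ncard * (10 * b + 2 * n) + ∑ d : (((S.cov R.G R.K).holes R.E' ρ').part A _ _).D, F d.1 := by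
            rw [Finset.sum_add_distrib, Finset.sum_const, smul_eq_mul, Finset.card_univ]
            congr 2
            exact Sf.part_card _ A _ _
        _ ≤ A.ncard * (10 * b + 2 * n) + ∑ e, F e := by
            refine Nat.add_le_add_left ?_ _
            exact sum_val_le A _ F
        _ = A.ncard * (10 * b + 2 * n) + ∑ d, S.len d := by
            congr 1
            rw [Fintype.sum_sum_type]
            simp [hF]
        _ ≤ 3 * E.ncard * (10 * b + 2 * n) + 2 * ∑ d, S.len d := by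
            have h3 : A.ncard * (10 * b + 2 * n) ≤ 3 * E.ncard * (10 * b + 2 * n) :=
              Nat.mul_le_mul_right _ (by omega)
            omega

end

theorem ncard_img3 {X : Type} [Finite X] (A B C : Set X) :
    (Sum.inl '' A ∪ Sum.inl '' B ∪ Sum.inr '' C : Set (X ⊕ X)).ncard ≤ A.ncard + B.ncard + C.ncard := by
  refine (Set.ncard_union_le _ _).trans ?_
  refine (Nat.add_le_add_right (Set.ncard_union_le _ _) _).trans ?_
  rw [Set.ncard_image_of_injective _ Sum.inl_injective, Set.ncard_image_of_injective _ Sum.inl_injective,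
    Set.ncard_image_of_injective _ Sum.inr_injective]

theorem ncard_img4 {D : Type} [Finite D] (A : Set D) (B C : Set (D ⊕ (D ⊕ D))) :
    (Sum.inl '' (Sum.inl '' A) ∪ Sum.inl '' B ∪ Sum.inr '' C : Set ((D ⊕ (D ⊕ D)) ⊕ (D ⊕ (D ⊕ D)))).ncard ≤
      A.ncard + B.ncard + C.ncard := by
  refine (ncard_img3 _ _ _).trans ?_
  rw [Set.ncard_image_of_injective _ Sum.inl_injective]

theorem ncard_img5 {D : Type} [Finite D] (B : Set D) :
    (Sum.inl '' (Sum.inl '' B) ∪ Sum.inl '' ∅ ∪ Sum.inr '' (Sum.inl '' B) :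
      Set ((D ⊕ (D ⊕ D)) ⊕ (D ⊕ (D ⊕ D)))).ncard ≤ 2 * B.ncard := by
  refine (ncard_img3 _ _ _).trans ?_
  rw [Set.ncard_image_of_injective _ Sum.inl_injective, Set.ncard_empty]
  omega

theorem capped_live_inl {S : Sf} {E : Set S.D} {hE : S.Cl E} (hlive : ∀ d ∈ E, S.a d ≠ d) {ρ : Perm S.D} {e : S.D}
    (h : (S.capped E hE ρ).a (Sum.inl e) ≠ Sum.inl e) : S.a e ≠ e := by
  classical
  by_cases he : e ∈ E
  · exact hlive e he
  · intro h2
    apply h
    show hatFun E S.a (Sum.inl e) = Sum.inl e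
    simp [hatFun, he, h2]

theorem capped_live_inr {S : Sf} {E : Set S.D} {hE : S.Cl E} {ρ : Perm S.D} {e : S.D}
    (h : (S.capped E hE ρ).a (Sum.inr e) ≠ Sum.inr e) : e ∈ E := by
  classical
  by_contra he
  apply h
  show hatFun E S.a (Sum.inr e) = Sum.inr e
  simp [hatFun, he]

/-- the capped surface -/
theorem lay_U_capped (S : Sf) (hS : S.Closed) {E : Set S.D} {c : S.Wd → S.Wd} {ψ u κ : ℝ} (hD : S.Dcs E c ψ u κ)
    (h0 : 0 < ψ) (h1 : ψ ≤ 1) (L b n : ℕ) (hb1 : 1 ≤ b) (hub : u / ψ ≤ b) (h16 : 16 * n ≤ b)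
    (hnb : 16 * n ≤ κ * ψ * b) {ρ : Perm S.D} (hρ : S.FR E ρ) {R : Rg S E ρ}
    {ρ' : Perm (S.D ⊕ (S.D ⊕ S.D))} (hY : Lay S E (u / ψ) b n ρ R ρ')
    (hL : ∀ d, S.len d ≤ L) (hL2 : 10 * b + 2 * n ≤ L)
    (hX : ∀ X : Sf, X.Closed → X.Cond (ψ / 8) → X.card ≤ 6 * S.card → (∀ d, X.len d ≤ 10 * b + 2 * n) → U L X)
    (hR : ∀ R : Sf, R.Closed → R.card ≤ 3 * E.ncard → R.area ≤ 3 * E.ncard * (10 * b + 2 * n) + 2 * S.area → U L R) :
    U L ((S.cov R.G R.K).capped R.E' hY.cl ρ') := by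
  classical
  obtain ⟨hd1, hd2, hd3⟩ := cov_live S hS E ρ R
  have hclen := cap_len (S.cov R.G R.K) R.E' hY.cl hd2 ρ' hY.FR
  have hdead := cap_dead (S.cov R.G R.K) R.E' hY.cl hd2 hd1 ρ' hY.FR
  have hlen : ∀ t, ((S.cov R.G R.K).capped R.E' hY.cl ρ').len t ≤ L := by
    rintro (e | e)
    · rw [(hclen e).1]
      exact lay_covlen' hS hY L (by omega) hL e
    · rw [(hclen e).2]
      rcases lay_hole hS hY e with h | ⟨d, _, _, _, h⟩
      · exact h.trans hL2
      · exact h.trans (hL d)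
  have hfr := lab_r S (S.lbl (u / ψ) c) (S.lbl_r (u / ψ) c) E hD.cl (fun d hd => hD.lbl_a hd) ρ R hY.cl ρ' hY.FR
  have hfa := lab_a S (S.lbl (u / ψ) c) (S.lbl_r (u / ψ) c) E hD.cl (fun d hd => hD.lbl_a hd) ρ R hY.cl ρ' hY.FR
  have hEc : E.ncard ≤ S.card := by
    unfold Sf.card
    rw [← Nat.card_eq_fintype_card, ← Set.ncard_univ]
    exact Set.ncard_le_ncard (Set.subset_univ _) (Set.toFinite _)
  refine U_parts_live _ (fun t => S.lbl (u / ψ) c (bas t)) hfr hfa hdead hlen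
    (fun i d => ?_) (fun i d => ?_) (fun i => ?_)
  · show _ ∧ _ ↔ _ ∧ _
    exact and_congr (by rw [hfr]) (not_congr (live_r hdead d))
  · show _ ∧ _ ↔ _ ∧ _
    exact and_congr (by rw [hfa]) (not_congr (live_a d))
  · rcases i with l | P
    · -- small classes
      apply hX
      · exact Sf.part_closed _ _ _ _ (fun d hd => hd.2)
      · apply Sf.part_cond
        intro X hXA hXI
        have h3 := comp_cond S hS hD h0 h1 ρ hρ R hY.cl ρ' hY.FR b n hb1 hnb hY.gap l X hXI hXA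
        linarith
      · rw [Sf.part_card]
        have h3 : ({t | S.lbl (u / ψ) c (bas t) = Sum.inl l ∧ ((S.cov R.G R.K).capped R.E' hY.cl ρ').a t ≠ t} :
            Set ((S.cov R.G R.K).capped R.E' hY.cl ρ').D) ⊆ (Sum.inl '' (Sum.inl '' Set.univ)) ∪
            (Sum.inl '' {e | ∃ d ∈ R.G, e = Sum.inr (Sum.inl d) ∨ e = Sum.inr (Sum.inr d)}) ∪ (Sum.inr '' R.E') := by
          rintro (e | e) ⟨_, h4⟩
          · have h5 := (hd3 e).1 (capped_live_inl hd2 h4)
            rcases h5 with ⟨d, h5 | ⟨h6, h5⟩⟩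
            · exact Or.inl (Or.inl ⟨e, ⟨d, trivial, h5.symm⟩, rfl⟩)
            · exact Or.inl (Or.inr ⟨e, ⟨d, h6, h5⟩, rfl⟩)
          · exact Or.inr ⟨e, capped_live_inr h4, rfl⟩
        have h4 := lay_rung hS hY h16 hb1
        have h5 := lay_E' hS hY h16 hb1
        refine (Set.ncard_le_ncard h3 (Set.toFinite _)).trans ((ncard_img4 _ _ _).trans ?_)
        have h6 : (Set.univ : Set S.D).ncard = S.card := by
          rw [Set.ncard_univ, Nat.card_eq_fintype_card]; rfl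
        have h8 : Set.ncard {e : S.D ⊕ (S.D ⊕ S.D) | ∃ d ∈ R.G, e = Sum.inr (Sum.inl d) ∨ e = Sum.inr (Sum.inr d)} ≤
            E.ncard := by omega
        exact le_trans (Nat.add_le_add (Nat.add_le_add h6.le h8) h5) (by omega)
      · rintro ⟨t, ht⟩
        rw [Sf.part_len]
        have h3 := (S.lbl_inl (u / ψ) c _ l).1 ht.1
        have h4 : S.len (bas t) ≤ b := by
          have h5 : (S.len (bas t) : ℝ) ≤ b := by
            rw [len_eq_pw S hS]
            exact h3.1.trans hub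
          exact_mod_cast h5
        rcases t with e | e
        · show ((S.cov R.G R.K).capped R.E' hY.cl ρ').len (Sum.inl e) ≤ _
          rw [(hclen e).1]
          have h5 := lay_covlen hS hY e
          have h6 : S.len (base e) ≤ b := h4
          omega
        · show ((S.cov R.G R.K).capped R.E' hY.cl ρ').len (Sum.inr e) ≤ _
          rw [(hclen e).2]
          rcases lay_hole hS hY e with h | ⟨d, _, rfl, h, _⟩
          · exact h
          · exact absurd h3.1 (not_le.2 h)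
    · -- big words
      set A : Set ((S.cov R.G R.K).capped R.E' hY.cl ρ').D :=
        {t | S.lbl (u / ψ) c (bas t) = Sum.inr P ∧ ((S.cov R.G R.K).capped R.E' hY.cl ρ').a t ≠ t} with hA
      set B : Set S.D := {d | u / ψ < S.pw (S.wd d) ∧ S.wd d = P} with hB
      have h3 : ∀ t ∈ A, ∃ d ∈ B, t = Sum.inl (Sum.inl d) ∨ t = Sum.inr (Sum.inl d) := by
        rintro (e | e) ⟨h4, h5⟩
        · have h6 := (S.lbl_inr (u / ψ) c _ P).1 h4
          rcases (hd3 e).1 (capped_live_inl hd2 h5) with ⟨d, h7 | ⟨h8, h7⟩⟩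
          · subst h7
            exact ⟨d, h6, Or.inl rfl⟩
          · exfalso
            have h9 := hY.G d h8
            rcases h7 with rfl | rfl
            · exact absurd h9 (not_le.2 h6.1)
            · exact absurd h9 (not_le.2 h6.1)
        · have h6 := (S.lbl_inr (u / ψ) c _ P).1 h4
          have h7 := capped_live_inr h5
          rcases e with d | d | d
          · exact ⟨d, h6, Or.inr rfl⟩
          · exact absurd (hY.G d h7) (not_le.2 h6.1)
          · exact absurd (hY.G d h7) (not_le.2 h6.1)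
      have hBE : B.ncard ≤ E.ncard :=
        Set.ncard_le_ncard (fun d hd => (hD.mem d).2 (Or.inl hd.1)) (Set.toFinite _)
      have hBP : B.ncard ≤ S.pw P := Set.ncard_le_ncard (fun d hd => hd.2) (Set.toFinite _)
      have hAB : A.ncard ≤ 2 * B.ncard := by
        have h4 : A ⊆ Sum.inl '' (Sum.inl '' B) ∪ Sum.inl '' ∅ ∪ Sum.inr '' (Sum.inl '' B) := by
          intro t ht
          obtain ⟨d, hd, h5 | h5⟩ := h3 t ht
          · exact Or.inl (Or.inl ⟨Sum.inl d, ⟨d, hd, rfl⟩, h5.symm⟩)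
          · exact Or.inr ⟨Sum.inl d, ⟨d, hd, rfl⟩, h5.symm⟩
        exact (Set.ncard_le_ncard h4 (Set.toFinite _)).trans (ncard_img5 _)
      apply hR
      · exact Sf.part_closed _ _ _ _ (fun d hd => hd.2)
      · rw [Sf.part_card]
        show A.ncard ≤ _
        omega
      · have h4 : ∀ t ∈ A, ((S.cov R.G R.K).capped R.E' hY.cl ρ').len t ≤ S.pw P := by
          intro t ht
          obtain ⟨d, hd, rfl | rfl⟩ := h3 t ht
          · refine (le_of_eq (hclen (Sum.inl d)).1).trans ?_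
            have hdG : d ∉ R.G := fun h => absurd (hY.G d h) (not_le.2 hd.1)
            have h5 := ((cov_len S R.G R.K (fun d _ => hS d)
              (fun d e h => ⟨(R.NG d e h).1, (R.NG d e h).2.1⟩)).1 d hdG).1
            rw [h5, len_eq_pw S hS, hd.2]
          · refine (le_of_eq (hclen (Sum.inl d)).2).trans ?_
            have hdE : d ∈ E := (hD.mem d).2 (Or.inl hd.1)
            have h5 := hY.big d hdE hd.1
            rwa [len_eq_pw S hS, hd.2] at h5
        refine (Sf.part_area _ _ _ _ h4).trans ?_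
        show A.ncard * S.pw P ≤ _
        obtain ⟨d, hd⟩ := S.wd_surj P
        have h5 := len_sq_le_area S d
        rw [len_eq_pw S hS, hd] at h5
        have h6 : A.ncard * S.pw P ≤ 2 * S.pw P ^ 2 := by
          calc A.ncard * S.pw P ≤ (2 * S.pw P) * S.pw P := Nat.mul_le_mul_right _ (by omega)
            _ = 2 * S.pw P ^ 2 := by ring
        omega

theorem t2_comb (S : Sf) (hS : S.Closed) {E : Set S.D} {c : S.Wd → S.Wd} {ψ u κ N : ℝ} (hD : S.Dcs E c ψ u κ)
    (h0 : 0 < ψ) (h1 : ψ ≤ 1) (hu : 1 ≤ u) (hα : κ * ψ ≤ 1) (hnu : ∀ i, (S.gr (S.cl (u / ψ) c i)).nuP (fun x => S.pw x) u κ univ ≤ N)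
    (hN : 2 ≤ N) (L b n : ℕ) (hb1 : 1 ≤ b) (hub : u / ψ ≤ b)
    (hb : 10 ^ 10 * (u / ψ) * Real.log N ^ 3 ≤ κ * ψ * b) (hn : 10 ^ 3 * (u / ψ) * Real.log N ≤ n)
    (hnb : 16 * n ≤ κ * ψ * b) (hL : ∀ d, 2 * S.len d ≤ L) (hL2 : 2 * (10 * b + 2 * n) ≤ L)
    (hX : ∀ X : Sf, X.Closed → X.Cond (ψ / 8) → X.card ≤ 6 * S.card → (∀ d, X.len d ≤ 10 * b + 2 * n) → U L X)
    (hR : ∀ R : Sf, R.Closed → R.card ≤ 3 * E.ncard → R.area ≤ 3 * E.ncard * (10 * b + 2 * n) + 2 * S.area → U L R) :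
    U L S := by
  obtain ⟨ρ, hρ, R, ρ', hY⟩ := lay_exists S hS hD hnu hN b n hb1 hb hn
  have h16 : 16 * n ≤ b := by
    have h2 : (16 * n : ℝ) ≤ b := by
      calc (16 * n : ℝ) ≤ κ * ψ * b := hnb
        _ ≤ 1 * b := mul_le_mul_of_nonneg_right hα (Nat.cast_nonneg b)
        _ = b := one_mul _
    exact_mod_cast h2
  have hL' : ∀ d, S.len d ≤ L := fun d => by have := hL d; omega
  obtain ⟨hd1, hd2, hd3⟩ := cov_live S hS E ρ R
  apply U_cov L S R.G R.K (fun d _ => hS d) _ hL' _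
  · apply U_cap L (S.cov R.G R.K) R.E' hY.cl hd2 ρ' hY.FR (lay_covlen' hS hY L (by omega) hL')
    · intro e
      rcases lay_hole hS hY e with h | ⟨d, _, _, _, h⟩
      · omega
      · have := hL d
        omega
    · exact lay_U_capped S hS hD h0 h1 L b n hb1 hub h16 hnb hρ hY hL' (by omega) hX hR
    · exact lay_U_holes hS hY L h16 hb1 hL' (by omega) hR
  · intro d e h
    obtain ⟨h2, h3, k, hk, hk'⟩ := R.NG d e h
    exact ⟨h2, h3, k, hk, fun i hi => ⟨fun h4 => (hk' i hi).1 (Or.inr h4), fun h4 => (hk' i hi).2 (Or.inr h4)⟩⟩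
  · intro d hd
    obtain ⟨i, _, hi⟩ := R.cls d hd
    rw [hi]
    have := hY.ch i
    omega

end Pool.Agent.GW
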