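import Pool.Agent.GW.Lad2
import Pool.Agent.GW.Sel
import Pool.Agent.GW.PsEx

/-!
# GW/T2Lay (helper76): rungs of a decomposed closed state
-/

set_option autoImplicit false

namespace Pool.Agent.GW

open Equiv Pool.Agent.SWP Finset

theorem inv_sameT {D Λ : Type} (ρ : Perm D) (f : D → Λ) (h : ∀ d, f (ρ d) = f d) {d e : D} (hde : ρ.SameCycle d e) :
    f d = f e := by
  obtain ⟨k, hk⟩ := hde
  have hn : ∀ (n : ℕ) (x : D), f ((ρ ^ n) x) = f x := by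
    intro n
    induction n with
    | zero => intro x; simp
    | succ n ih => intro x; rw [pow_succ', Perm.mul_apply, h, ih]
  rcases k with n | n
  · rw [← hk]
    exact (hn n d).symm
  · have h2 : (ρ ^ (n + 1)) e = d := by
      rw [← hk, ← Perm.mul_apply, ← zpow_natCast, ← zpow_add]
      have h3 : ((n + 1 : ℕ) : ℤ) + Int.negSucc n = 0 := by omega
      rw [h3, zpow_zero, Perm.one_apply]
    rw [← h2]
    exact hn (n + 1) e

theorem len_eq_pw (S : Sf) (hS : S.Closed) (d : S.D) : S.len d = S.pw (S.wd d) := by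
  unfold Sf.len Sf.num Sf.pw
  congr 1
  ext e
  simp only [Sf.word, Sf.live, Set.mem_inter_iff, Set.mem_ofPred_eq]
  rw [S.wd_eq]
  constructor
  · intro h; exact h.1.symm
  · intro h; exact ⟨h.symm, hS e⟩

theorem lbl_rho {S : Sf} {E : Set S.D} {c : S.Wd → S.Wd} {ψ u κ : ℝ} (hD : S.Dcs E c ψ u κ) {ρ : Perm S.D}
    (hρ : S.FR E ρ) (d : S.D) : S.lbl (u / ψ) c (ρ d) = S.lbl (u / ψ) c d := by
  have h := FR_inv S E hD.cl ρ hρ {e | S.lbl (u / ψ) c e = S.lbl (u / ψ) c d} ?_ ?_ d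
  · exact h.2 rfl
  · intro e
    show S.lbl (u / ψ) c (S.r e) = _ ↔ S.lbl (u / ψ) c e = _
    rw [S.lbl_r]
  · intro e he hE
    show S.lbl (u / ψ) c (S.a e) = _
    rw [hD.lbl_a hE]
    exact he

/-- the rungs, the new holes and their properties -/
structure Lay (S : Sf) (E : Set S.D) (M : ℝ) (b n : ℕ) (ρ : Perm S.D) (R : Rg S E ρ)
    (ρ' : Perm (S.D ⊕ (S.D ⊕ S.D))) : Prop where
  cl : (S.cov R.G R.K).Cl R.E'
  FR : (S.cov R.G R.K).FR R.E' ρ'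
  ch : ∀ i, (R.ch i).ncard ≤ n
  G : ∀ d ∈ R.G, (S.pw (S.wd d) : ℝ) ≤ M
  sml : ∀ d ∈ E, (S.pw (S.wd d) : ℝ) ≤ M → ((S.cov R.G R.K).holes R.E' ρ').len (Sum.inl d) ≤ 10 * b + 2 * n
  big : ∀ d ∈ E, M < S.pw (S.wd d) → ((S.cov R.G R.K).holes R.E' ρ').len (Sum.inl d) ≤ S.len d
  cp : ∀ d ∈ R.G, ((S.cov R.G R.K).holes R.E' ρ').len (Sum.inr (Sum.inl d)) ≤ 10 * b + 2 * n ∧
    ((S.cov R.G R.K).holes R.E' ρ').len (Sum.inr (Sum.inr d)) ≤ 10 * b + 2 * n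
  out : ∀ e, e ∉ R.E' → ((S.cov R.G R.K).holes R.E' ρ').len e = 0
  gap : ∀ Z : Set (S.D ⊕ (S.D ⊕ S.D)), (∀ e, ρ' e ∈ Z ↔ e ∈ Z) →
    b * Set.ncard {e | e ∈ Z ∧ ∃ d ∈ R.G, e = Sum.inr (Sum.inl d) ∨ e = Sum.inr (Sum.inr d)} ≤
    n * Set.ncard {e | e ∈ Z ∧ ∃ d ∈ E, e = Sum.inl d}

theorem lay_exists (S : Sf) (hS : S.Closed) {E : Set S.D} {c : S.Wd → S.Wd} {ψ u κ N : ℝ} (hD : S.Dcs E c ψ u κ)
    (hnu : ∀ i, (S.gr (S.cl (u / ψ) c i)).nuP (fun x => S.pw x) u κ univ ≤ N) (hN : 2 ≤ N) (b n : ℕ) (hb1 : 1 ≤ b)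
    (hb : 10 ^ 10 * (u / ψ) * Real.log N ^ 3 ≤ κ * ψ * b) (hn : 10 ^ 3 * (u / ψ) * Real.log N ≤ n) :
    ∃ (ρ : Perm S.D) (_ : S.FR E ρ) (R : Rg S E ρ) (ρ' : Perm (S.D ⊕ (S.D ⊕ S.D))), Lay S E (u / ψ) b n ρ R ρ' := by
  classical
  obtain ⟨ρ, hρ⟩ := FR_exists S E hD.cl
  set M : ℝ := u / ψ with hM
  have hlbl : ∀ d, S.lbl M c (ρ d) = S.lbl M c d := lbl_rho hD hρ
  have hsame : ∀ {d e}, ρ.SameCycle d e → S.lbl M c d = S.lbl M c e := fun h => inv_sameT ρ _ hlbl h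
  have hsm : ∀ d, (S.pw (S.wd d) : ℝ) ≤ M ↔ ∃ i, S.lbl M c d = Sum.inl i := by
    intro d
    constructor
    · intro h; exact ⟨c (S.wd d), (S.lbl_inl M c d _).2 ⟨h, rfl⟩⟩
    · rintro ⟨i, hi⟩; exact ((S.lbl_inl M c d i).1 hi).1
  have hsm2 : ∀ {d e}, ρ.SameCycle d e → ((S.pw (S.wd d) : ℝ) ≤ M ↔ (S.pw (S.wd e) : ℝ) ≤ M) := by
    intro d e h
    rw [hsm, hsm, hsame h]
  have hρE : ∀ d, ρ d ∈ E ↔ d ∈ E := by
    intro d
    constructor
    · intro h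
      by_contra h2
      rw [hρ.off d h2] at h
      exact h2 h
    · exact hρ.mem d
  have hρZ : ∀ d, ρ d ∈ {d | (S.pw (S.wd d) : ℝ) ≤ M} ↔ d ∈ {d | (S.pw (S.wd d) : ℝ) ≤ M} := by
    intro d
    exact hsm2 (Perm.sameCycle_apply_left.mpr (Perm.SameCycle.refl _ _))
  obtain ⟨I, fI, BL, H, pos, hHn, hBE, hBc, hBd, hBs, hsel⟩ :=
    blocks_exist E ρ hρE {d | (S.pw (S.wd d) : ℝ) ≤ M} hρZ b hb1
  have hBl : ∀ β γ i, ∀ d ∈ BL β i, ∀ e ∈ BL γ i, c (S.wd d) = c (S.wd e) := by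
    intro β γ i d hd e he
    have h2 := hsame (hBs β γ i d hd e he)
    have h3 := (S.lbl_inl M c d _).2 ⟨(hBE β i d hd).2, rfl⟩
    rw [h2] at h3
    exact ((S.lbl_inl M c e _).1 h3).2.symm
  obtain ⟨Q, φ, hQx, hQy, hst, hdis, hQs, hQl⟩ := ps_exists S hS hD hnu hN BL hb1 hBE hBc hBd hBl hb
  obtain ⟨hSel, hcell⟩ := hsel (fun i => Q.x (φ.symm i)) (fun i => Q.y (φ.symm i))
    (fun i => by have := hQx (φ.symm i); rwa [Equiv.apply_symm_apply] at this)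
    (fun i => by have := hQy (φ.symm i); rwa [Equiv.apply_symm_apply] at this)
  have hQS : Sel E H pos b Q.x Q.y := by
    have h := hSel.comp φ
    simpa using h
  have hxy : ∀ i j, ρ (Q.x i) ≠ Q.y j := by
    intro i j hij
    have h2 : H (Q.x i) = H (Q.y j) := by
      rw [← hij]
      exact (hHn.hH _ (hQS.xE i) _ (hρ.mem _ (hQS.xE i))).2
        (Perm.sameCycle_apply_right.mpr (Perm.SameCycle.refl _ _))
    have h3 := hQS.gxy i j h2
    have h4 := hHn.hp _ (hQS.xE i)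
    rw [hij] at h4
    omega
  obtain ⟨R, χ, hRx, hRy, hRch⟩ := rungs_of_chains S hS E hD.cl ρ hρ Q hst hdis hxy
  have hRS : Sel E H pos b R.x R.y := by
    have h := hQS.comp χ
    simpa [← hRx, ← hRy] using h
  obtain ⟨hcl, ρ', hFR, hsp⟩ := rung_FR S E hD.cl (fun d _ => hS d) ρ hρ R
  have hch : ∀ i, (R.ch i).ncard ≤ n := by
    intro i
    have h2 : (R.ch i).toFinset ⊆ (range (Q.n (χ i) + 1)).biUnion (fun j => (S.word (Q.s (χ i) j)).toFinset) := by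
      intro d hd
      rw [Set.mem_toFinset] at hd
      obtain ⟨j, hj, h3⟩ := hRch i d hd
      rw [Finset.mem_biUnion]
      exact ⟨j, by rw [Finset.mem_range]; omega, by rw [Set.mem_toFinset]; exact h3⟩
    have h3 : (R.ch i).ncard ≤ ∑ j ∈ range (Q.n (χ i) + 1), S.len (Q.s (χ i) j) := by
      rw [Set.ncard_eq_toFinset_card']
      refine (Finset.card_le_card h2).trans (Finset.card_biUnion_le.trans (le_of_eq ?_))
      refine Finset.sum_congr rfl fun j _ => ?_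
      rw [← Set.ncard_eq_toFinset_card']
      unfold Sf.len Sf.num
      congr 1
      ext e
      simp only [Sf.live, Set.mem_inter_iff, Set.mem_ofPred_eq]
      exact ⟨fun h => ⟨h, hS e⟩, fun h => h.1⟩
    have h4 := hQl (χ i)
    have h5 : ((∑ j ∈ range (Q.n (χ i) + 1), S.len (Q.s (χ i) j) : ℕ) : ℝ) ≤ n := h4.trans hn
    have h6 : (∑ j ∈ range (Q.n (χ i) + 1), S.len (Q.s (χ i) j) : ℕ) ≤ n := by exact_mod_cast h5
    exact h3.trans h6
  -- the cells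
  have hcell' : ∀ d ∈ E, (S.pw (S.wd d) : ℝ) ≤ M →
      Set.ncard {e | e ∈ E ∧ H e = H d ∧ ∀ i, enc H pos R.x R.y i e ↔ enc H pos R.x R.y i d} ≤ 10 * b := by
    intro d hd hds
    have h2 := hcell d hd hds
    have h3 : {e | e ∈ E ∧ H e = H d ∧ ∀ i, enc H pos R.x R.y i e ↔ enc H pos R.x R.y i d} =
        {e | e ∈ E ∧ H e = H d ∧ ∀ i, enc H pos (fun i => Q.x (φ.symm i)) (fun i => Q.y (φ.symm i)) i e ↔
          enc H pos (fun i => Q.x (φ.symm i)) (fun i => Q.y (φ.symm i)) i d} := by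
      ext e
      simp only [Set.mem_ofPred_eq]
      refine and_congr_right fun _ => and_congr_right fun _ => ?_
      constructor
      · intro h i
        have h4 := h (χ.symm (φ.symm i))
        unfold enc at h4 ⊢
        rw [hRx, hRy, Equiv.apply_symm_apply] at h4
        exact h4
      · intro h i
        have h4 := h (φ (χ i))
        unfold enc at h4 ⊢
        simp only [Equiv.symm_apply_apply] at h4
        rw [hRx, hRy]
        exact h4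
    rw [h3]; exact h2
  have hHs : ∀ {d e}, d ∈ E → e ∈ E → H d = H e → ((S.pw (S.wd d) : ℝ) ≤ M ↔ (S.pw (S.wd e) : ℝ) ≤ M) :=
    fun hd he h => hsm2 ((hHn.hH _ hd _ he).1 h)
  set P : ℕ → Prop := fun h => ∃ d ∈ E, (S.pw (S.wd d) : ℝ) ≤ M ∧ H d = h with hP
  have hxs : ∀ i, (S.pw (S.wd (R.x i)) : ℝ) ≤ M := by
    intro i
    rw [hRx]
    exact (hBE _ _ _ (hQx (χ i))).2
  have hPx : ∀ i, P (H (R.x i)) := fun i => ⟨R.x i, hRS.xE i, hxs i, rfl⟩
  obtain ⟨hl1, hl2, hl3⟩ := ladder_loc S E hD.cl (fun d _ => hS d) ρ hρ R ρ' hFR hsp H pos hHn b hb1 hRS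
    (fun h => if P h then 10 * b else Set.ncard {e | e ∈ E ∧ H e = h}) (fun h => if P h then n else 0)
    (by
      intro d hd
      by_cases hp : P (H d)
      · rw [if_pos hp]
        obtain ⟨e, he, hes, heq⟩ := hp
        exact hcell' d hd ((hHs he hd heq).1 hes)
      · rw [if_neg hp]
        refine Set.ncard_le_ncard ?_ (Set.toFinite _)
        rintro e ⟨h2, h3, _⟩
        exact ⟨h2, h3⟩)
    (by
      intro i
      rw [if_pos (hPx i)]
      exact hch i)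
  refine ⟨ρ, hρ, R, ρ', ?_⟩
  refine ⟨hcl, hFR, hch, ?_, ?_, ?_, ?_, hl3, ?_⟩
  · intro d hd
    obtain ⟨i, hi⟩ := R.reach d hd
    obtain ⟨j, hj, h2⟩ := hRch i d hi
    have h3 := hQs (χ i) j hj
    rwa [(S.wd_eq _ _).2 h2] at h3
  · intro d hd hds
    have h2 := hl1 d hd
    rw [if_pos (show P (H d) from ⟨d, hd, hds, rfl⟩), if_pos (show P (H d) from ⟨d, hd, hds, rfl⟩)] at h2
    exact h2
  · intro d hd hds
    have hp : ¬ P (H d) := by
      rintro ⟨e, he, hes, heq⟩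
      exact absurd ((hHs he hd heq).1 hes) (not_le.2 hds)
    have h2 := hl1 d hd
    rw [if_neg hp, if_neg hp] at h2
    refine h2.trans ?_
    rw [len_eq_pw S hS]
    unfold Sf.pw
    rw [mul_zero, add_zero]
    refine Set.ncard_le_ncard ?_ (Set.toFinite _)
    rintro e ⟨he, heq⟩
    have h3 := hsame ((hHn.hH _ he _ hd).1 heq)
    have h4 := (S.lbl_inr M c d _).2 ⟨hds, rfl⟩
    rw [← h3] at h4
    exact ((S.lbl_inr M c e _).1 h4).2
  · intro d hd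
    obtain ⟨i, hi⟩ := R.reach d hd
    have h2 := hl2 i d hi
    rw [if_pos (hPx i), if_pos (hPx i)] at h2
    exact h2
  · intro Z hZ
    exact ladder_gap S E ρ hρ R ρ' hsp H pos hHn b n hb1 hRS hch Z hZ

end Pool.Agent.GW
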