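import Pool.Agent.GW.Dual
import Pool.Agent.SWP.Cy

/-!
# GW/Tree: connected sets of words are glued to one word along a spanning tree

Proof: merge classes of words one after the other: as long as a fibre of `f` is not one class there is a letter `p`
with `p` and `a p` in two different classes of this fibre; gluing it joins the two classes and changes no other word
(`r * sw b (a b)`). The fibres do not interact.
-/

set_option autoImplicit false

namespace Pool.Agent.GW

open Equiv Pool.Agent.SWP

/-- multiplying by the swap of two letters in different cycles: the two letters are now in one cycle -/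
private theorem gt_join {D : Type} [Finite D] (s : Perm D) (p q : D) (h : ¬ s.SameCycle p q) :
    (s * sw p q).SameCycle p q := by
  classical
  have := Fintype.ofFinite D
  set t := s * sw p q with ht
  have hne : ∀ k : ℕ, (s ^ k) q ≠ p := by
    intro k hk
    exact h (Perm.SameCycle.symm ⟨(k : ℤ), by simpa using hk⟩)
  have hp : t p = s q := by rw [ht, Perm.mul_apply, sw_left]
  have key : ∀ k : ℕ, t.SameCycle p q ∨ t.SameCycle p ((s ^ (k + 1)) q) := by
    intro k
    induction k with
    | zero =>
      right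
      rw [zero_add, pow_one, ← hp]
      exact Perm.sameCycle_apply_right.2 (Perm.SameCycle.refl _ _)
    | succ k ih =>
      rcases ih with ih | ih
      · exact Or.inl ih
      · by_cases hq : (s ^ (k + 1)) q = q
        · rw [hq] at ih; exact Or.inl ih
        · right
          have h1 : t ((s ^ (k + 1)) q) = (s ^ (k + 1 + 1)) q := by
            rw [ht, Perm.mul_apply, sw_of_ne (hne _) hq, ← Perm.mul_apply, ← pow_succ']
          rw [← h1]
          exact Perm.sameCycle_apply_right.2 ih
  obtain ⟨n, hn, hn1⟩ : ∃ n : ℕ, 0 < n ∧ s ^ n = 1 := ⟨orderOf s, orderOf_pos s, pow_orderOf_eq_one s⟩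
  obtain ⟨k, rfl⟩ : ∃ k, n = k + 1 := ⟨n - 1, by omega⟩
  rcases key k with h1 | h1
  · exact h1
  · rw [hn1] at h1; simpa using h1

/-- old cycles stay together -/
private theorem gt_old {D : Type} [Fintype D] (s : Perm D) (p q : D) (h : ¬ s.SameCycle p q) {x y : D}
    (hxy : s.SameCycle x y) : (s * sw p q).SameCycle x y := by
  have hj := gt_join s p q h
  set t := s * sw p q with ht
  have hp : t p = s q := by rw [ht, Perm.mul_apply, sw_left]
  have hq : t q = s p := by rw [ht, Perm.mul_apply, sw_right]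
  have hstep : ∀ z, t.SameCycle z (s z) := by
    intro z
    by_cases h1 : z = p
    · subst h1
      rw [← hq]
      exact Perm.sameCycle_apply_right.2 hj
    · by_cases h2 : z = q
      · subst h2
        rw [← hp]
        exact Perm.sameCycle_apply_right.2 hj.symm
      · have h3 : t z = s z := by rw [ht, Perm.mul_apply, sw_of_ne h1 h2]
        rw [← h3]
        exact Perm.sameCycle_apply_right.2 (Perm.SameCycle.refl _ _)
  have hQ : ∀ d, t.SameCycle x (s d) ↔ t.SameCycle x d := by
    intro d
    exact ⟨fun h1 => h1.trans (hstep d).symm, fun h1 => h1.trans (hstep d)⟩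
  exact (iff_of_same (s := s) (Q := fun d => t.SameCycle x d) hQ hxy).mp (Perm.SameCycle.refl _ _)

namespace Sf

/-- the invariant: the classes of `g` are words after gluing `Y` -/
private structure TI (S : Sf) {ι : Type} (f : S.Wd → ι) (g : S.Wd → S.Wd) (Y : Set S.D) : Prop where
  cl : S.Cl Y
  ne : ∀ y ∈ Y, S.a y ≠ y
  gg : ∀ y ∈ Y, g (S.wd y) = g (S.wd (S.a y))
  same : ∀ d e, (S.r * S.beta Y).SameCycle d e ↔ g (S.wd d) = g (S.wd e)
  cnt : ∀ P : S.Wd, Set.ncard {y | y ∈ Y ∧ g (S.wd y) = g P} + 2 = 2 * Set.ncard {Q | g Q = g P}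
  fg : ∀ P Q, g P = g Q → f P = f Q

private theorem ti_start (S : Sf) {ι : Type} (f : S.Wd → ι) : S.TI f id ∅ := by
  have hb : S.beta ∅ = 1 := by
    ext d
    exact S.beta_notMem (Set.notMem_empty d)
  refine ⟨fun d hd => absurd hd (Set.notMem_empty d), fun d hd => absurd hd (Set.notMem_empty d),
    fun d hd => absurd hd (Set.notMem_empty d), ?_, ?_, ?_⟩
  · intro d e
    rw [hb, mul_one]
    exact (S.wd_eq d e).symm
  · intro P
    have h1 : ({y | y ∈ (∅ : Set S.D) ∧ id (S.wd y) = id P} : Set S.D) = ∅ := by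
      ext y; simp
    have h2 : ({Q | id Q = id P} : Set S.Wd) = {P} := by
      ext Q; simp
    rw [h1, h2, Set.ncard_empty, Set.ncard_singleton]
  · intro P Q h
    have : P = Q := h
    rw [this]

private theorem ti_step (S : Sf) {ι : Type} (f : S.Wd → ι) (g : S.Wd → S.Wd) (Y : Set S.D) (h : S.TI f g Y)
    (p : S.D) (hf : f (S.wd p) = f (S.wd (S.a p))) (hg : g (S.wd p) ≠ g (S.wd (S.a p))) :
    ∃ g' Y', S.TI f g' Y' ∧ (∀ P Q, g P = g Q → g' P = g' Q) ∧ g' (S.wd p) = g' (S.wd (S.a p)) := by
  classical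
  set q := S.a p with hq
  set A := g (S.wd p) with hA
  set B := g (S.wd q) with hB
  have hAB : A ≠ B := hg
  set g' : S.Wd → S.Wd := fun Q => if g Q = B then A else g Q with hg'
  have hgB : ∀ Q, g Q = B → g' Q = A := fun Q hQ => by simp only [hg', hQ, if_true]
  have hgN : ∀ Q, g Q ≠ B → g' Q = g Q := fun Q hQ => by simp only [hg', hQ, if_false]
  have hgA : ∀ Q, g Q = A → g' Q = A := fun Q hQ => by
    rw [hgN Q (by rw [hQ]; exact hAB), hQ]
  have hpq : p ≠ q := by
    intro e
    apply hAB
    rw [hA, hB, ← e]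
  have hap : S.a p = q := rfl
  have haq : S.a q = p := by rw [hq, S.aa]
  have hpY : p ∉ Y := fun hp => hAB (h.gg p hp)
  have hqY : q ∉ Y := fun hp => hAB (by have := h.gg q hp; rw [haq] at this; exact this.symm)
  set Y' : Set S.D := Y ∪ {p, q} with hY'
  have hmem : ∀ x, x ∈ Y' ↔ x ∈ Y ∨ x = p ∨ x = q := by
    intro x; simp only [hY', Set.mem_union, Set.mem_insert_iff, Set.mem_singleton_iff]
  have hcl : S.Cl Y' := by
    intro d hd
    rw [hmem] at hd ⊢
    rcases hd with hd | hd | hd
    · exact Or.inl (h.cl d hd)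
    · subst hd; right; right; rfl
    · subst hd; right; left; exact haq
  have hbeta : S.beta Y' = S.beta Y * sw p q := by
    ext x
    rw [Perm.mul_apply]
    by_cases h1 : x = p
    · rw [h1, sw_left, S.beta_notMem hqY, S.beta_mem hcl ((hmem p).mpr (Or.inr (Or.inl rfl)))]
    · by_cases h2 : x = q
      · rw [h2, sw_right, S.beta_notMem hpY, S.beta_mem hcl ((hmem q).mpr (Or.inr (Or.inr rfl)))]
        exact haq
      · rw [sw_of_ne h1 h2]
        by_cases h3 : x ∈ Y
        · rw [S.beta_mem hcl ((hmem x).mpr (Or.inl h3)), S.beta_mem h.cl h3]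
        · have h4 : x ∉ Y' := by rw [hmem]; tauto
          rw [S.beta_notMem h4, S.beta_notMem h3]
  have hperm : S.r * S.beta Y' = (S.r * S.beta Y) * sw p q := by rw [hbeta, mul_assoc]
  have hns : ¬ (S.r * S.beta Y).SameCycle p q := by
    rw [h.same]; exact hAB
  have hgp : g' (S.wd p) = A := hgA _ rfl
  have hgq : g' (S.wd q) = A := hgB _ rfl
  refine ⟨g', Y', ⟨hcl, ?_, ?_, ?_, ?_, ?_⟩, ?_, by rw [hgp, hgq]⟩
  · intro y hy
    rw [hmem] at hy
    rcases hy with hy | hy | hy
    · exact h.ne y hy
    · subst hy; exact hpq.symm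
    · subst hy; rw [haq]; exact hpq
  · intro y hy
    rw [hmem] at hy
    rcases hy with hy | hy | hy
    · have := h.gg y hy
      simp only [hg', this]
    · rw [hy]; exact hgp.trans hgq.symm
    · rw [hy, haq]; exact hgq.trans hgp.symm
  · intro d e
    rw [hperm]
    have hj := gt_join _ p q hns
    constructor
    · intro hde
      have hQ : ∀ x, (g' (S.wd d) = g' (S.wd (((S.r * S.beta Y) * sw p q) x))) ↔ (g' (S.wd d) = g' (S.wd x)) := by
        intro x
        have hstep : ∀ z, g (S.wd ((S.r * S.beta Y) z)) = g (S.wd z) := by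
          intro z
          exact (h.same _ _).mp (Perm.sameCycle_apply_left.2 (Perm.SameCycle.refl _ _))
        have : g' (S.wd (((S.r * S.beta Y) * sw p q) x)) = g' (S.wd x) := by
          rw [Perm.mul_apply]
          by_cases h1 : x = p
          · rw [h1, sw_left, hgp]
            exact hgB _ (hstep q)
          · by_cases h2 : x = q
            · rw [h2, sw_right, hgq]
              exact hgA _ (hstep p)
            · rw [sw_of_ne h1 h2]
              simp only [hg', hstep x]
        rw [this]
      exact (iff_of_same (s := (S.r * S.beta Y) * sw p q) (Q := fun x => g' (S.wd d) = g' (S.wd x)) hQ hde).mp rfl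
    · intro hde
      -- every letter of the two classes is joined to p
      have hin : ∀ x, (g (S.wd x) = A ∨ g (S.wd x) = B) → ((S.r * S.beta Y) * sw p q).SameCycle p x := by
        intro x hx
        rcases hx with hx | hx
        · exact gt_old _ p q hns ((h.same p x).mpr hx.symm)
        · exact hj.trans (gt_old _ p q hns ((h.same q x).mpr hx.symm))
      by_cases hd : g (S.wd d) = A ∨ g (S.wd d) = B
      · have h1 : g' (S.wd d) = A := by
          rcases hd with hd | hd
          · exact hgA _ hd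
          · exact hgB _ hd
        have he : g (S.wd e) = A ∨ g (S.wd e) = B := by
          by_contra hc
          push Not at hc
          rw [h1, hgN _ hc.2] at hde
          exact hc.1 hde.symm
        exact (hin d hd).symm.trans (hin e he)
      · push Not at hd
        rw [hgN _ hd.2] at hde
        have he : g (S.wd e) ≠ B := by
          intro hc
          rw [hgB _ hc] at hde
          exact hd.1 hde
        rw [hgN _ he] at hde
        exact gt_old _ p q hns ((h.same d e).mpr hde)
  · intro P
    by_cases hP : g P = A ∨ g P = B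
    · have h1 : g' P = A := by
        rcases hP with hP | hP
        · exact hgA _ hP
        · exact hgB _ hP
      have hiff : ∀ Q, g' Q = A ↔ g Q = A ∨ g Q = B := by
        intro Q
        constructor
        · intro hQ
          by_contra hc
          push Not at hc
          rw [hgN _ hc.2] at hQ
          exact hc.1 hQ
        · rintro (hQ | hQ)
          · exact hgA _ hQ
          · exact hgB _ hQ
      have e1 : ({y | y ∈ Y' ∧ g' (S.wd y) = g' P} : Set S.D)
          = ({y | y ∈ Y ∧ g (S.wd y) = g (S.wd p)} ∪ {y | y ∈ Y ∧ g (S.wd y) = g (S.wd q)}) ∪ {p, q} := by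
        ext y
        simp only [Set.mem_ofPred_eq, Set.mem_union, Set.mem_insert_iff, Set.mem_singleton_iff]
        rw [h1, hiff, hmem, ← hA, ← hB]
        constructor
        · rintro ⟨h2 | h2, h3⟩
          · rcases h3 with h3 | h3
            · exact Or.inl (Or.inl ⟨h2, h3⟩)
            · exact Or.inl (Or.inr ⟨h2, h3⟩)
          · exact Or.inr h2
        · rintro ((⟨h2, h3⟩ | ⟨h2, h3⟩) | h2 | h2)
          · exact ⟨Or.inl h2, Or.inl h3⟩
          · exact ⟨Or.inl h2, Or.inr h3⟩
          · exact ⟨Or.inr (Or.inl h2), Or.inl (by rw [h2])⟩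
          · exact ⟨Or.inr (Or.inr h2), Or.inr (by rw [h2])⟩
      have e2 : ({Q | g' Q = g' P} : Set S.Wd) = {Q | g Q = g (S.wd p)} ∪ {Q | g Q = g (S.wd q)} := by
        ext Q
        simp only [Set.mem_ofPred_eq, Set.mem_union]
        rw [h1, hiff]
      have d1 : Disjoint ({Q | g Q = g (S.wd p)} : Set S.Wd) {Q | g Q = g (S.wd q)} := by
        rw [Set.disjoint_left]
        intro Q h2 h3
        have h2' : g Q = A := h2
        have h3' : g Q = B := h3
        exact hAB (h2'.symm.trans h3')
      have d2 : Disjoint ({y | y ∈ Y ∧ g (S.wd y) = g (S.wd p)} : Set S.D)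
          {y | y ∈ Y ∧ g (S.wd y) = g (S.wd q)} := by
        rw [Set.disjoint_left]
        intro Q h2 h3
        have h2' : g (S.wd Q) = A := h2.2
        have h3' : g (S.wd Q) = B := h3.2
        exact hAB (h2'.symm.trans h3')
      have d3 : Disjoint ({y | y ∈ Y ∧ g (S.wd y) = g (S.wd p)} ∪ {y | y ∈ Y ∧ g (S.wd y) = g (S.wd q)} : Set S.D)
          {p, q} := by
        rw [Set.disjoint_left]
        intro y h2 h3
        have h4 : y ∈ Y := by
          rcases h2 with h2 | h2
          · exact h2.1
          · exact h2.1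
        rcases h3 with h3 | h3
        · exact hpY (h3 ▸ h4)
        · have h3' : y = q := h3
          exact hqY (h3' ▸ h4)
      rw [e1, e2, Set.ncard_union_eq d3 (Set.toFinite _) (Set.toFinite _),
        Set.ncard_union_eq d2 (Set.toFinite _) (Set.toFinite _),
        Set.ncard_union_eq d1 (Set.toFinite _) (Set.toFinite _), Set.ncard_pair hpq]
      have c1 := h.cnt (S.wd p)
      have c2 := h.cnt (S.wd q)
      omega
    · push Not at hP
      have h1 : g' P = g P := hgN _ hP.2
      have hiff : ∀ Q, g' Q = g P ↔ g Q = g P := by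
        intro Q
        constructor
        · intro hQ
          by_cases hB' : g Q = B
          · rw [hgB _ hB'] at hQ
            exact absurd hQ.symm hP.1
          · rw [hgN _ hB'] at hQ; exact hQ
        · intro hQ
          rw [hgN _ (by rw [hQ]; exact hP.2), hQ]
      have e1 : ({y | y ∈ Y' ∧ g' (S.wd y) = g' P} : Set S.D) = {y | y ∈ Y ∧ g (S.wd y) = g P} := by
        ext y
        simp only [Set.mem_ofPred_eq]
        rw [h1, hiff, hmem]
        constructor
        · rintro ⟨h2 | h2 | h2, h3⟩
          · exact ⟨h2, h3⟩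
          · rw [h2] at h3; exact absurd h3.symm hP.1
          · rw [h2] at h3; exact absurd h3.symm hP.2
        · rintro ⟨h2, h3⟩
          exact ⟨Or.inl h2, h3⟩
      have e2 : ({Q | g' Q = g' P} : Set S.Wd) = {Q | g Q = g P} := by
        ext Q
        simp only [Set.mem_ofPred_eq]
        rw [h1, hiff]
      rw [e1, e2]
      exact h.cnt P
  · intro P Q hPQ
    -- f is constant on the classes of g'
    have hfAB : ∀ Q, (g Q = A ∨ g Q = B) → f Q = f (S.wd p) := by
      intro Q hQ
      rcases hQ with hQ | hQ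
      · exact h.fg _ _ hQ
      · exact (h.fg _ _ hQ).trans hf.symm
    by_cases hP : g P = A ∨ g P = B
    · have h1 : g' P = A := by
        rcases hP with hP | hP
        · exact hgA _ hP
        · exact hgB _ hP
      have hQ : g Q = A ∨ g Q = B := by
        by_contra hc
        push Not at hc
        rw [h1, hgN _ hc.2] at hPQ
        exact hc.1 hPQ.symm
      rw [hfAB P hP, hfAB Q hQ]
    · push Not at hP
      rw [hgN _ hP.2] at hPQ
      have he : g Q ≠ B := by
        intro hc
        rw [hgB _ hc] at hPQ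
        exact hP.1 hPQ
      rw [hgN _ he] at hPQ
      exact h.fg _ _ hPQ
  · intro P Q hPQ
    simp only [hg', hPQ]

/-- a chain between two classes crosses the classes -/
private theorem gt_cross {V κ : Type} {R : V → V → Prop} (g : V → κ) {x y : V} (h : Relation.ReflTransGen R x y)
    (hg : g x ≠ g y) : ∃ a b, Relation.ReflTransGen R x a ∧ R a b ∧ g a ≠ g b := by
  induction h with
  | refl => exact absurd rfl hg
  | tail hxb hbc ih =>
    rename_i b c
    by_cases h1 : g x = g b
    · exact ⟨b, c, hxb, hbc, by rw [← h1]; exact hg⟩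
    · exact ih h1

theorem exists_tree (S : Sf) {ι : Type} (f : S.Wd → ι)
    (hf : ∀ P : S.Wd, ∀ X : Finset S.Wd, (∀ Q, Q ∈ X ↔ f Q = f P) → S.dual.Conn X) :
    ∃ Y : Set S.D, S.Cl Y ∧ (∀ y ∈ Y, S.a y ≠ y) ∧ (∀ y ∈ Y, f (S.wd y) = f (S.wd (S.a y))) ∧
      (∀ d e, (S.r * S.beta Y).SameCycle d e ↔ f (S.wd d) = f (S.wd e)) ∧
      (∀ P : S.Wd, Set.ncard {y | y ∈ Y ∧ f (S.wd y) = f P} + 2 = 2 * Set.ncard {Q | f Q = f P}) := by
  classical
  have key : ∀ n : ℕ, ∀ (g : S.Wd → S.Wd) (Y : Set S.D), S.TI f g Y →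
      Set.ncard {pq : S.Wd × S.Wd | f pq.1 = f pq.2 ∧ g pq.1 ≠ g pq.2} = n →
      ∃ (g' : S.Wd → S.Wd) (Y' : Set S.D), S.TI f g' Y' ∧ ∀ P Q, f P = f Q → g' P = g' Q := by
    intro n
    induction n using Nat.strong_induction_on with
    | _ n ih =>
    intro g Y h hn
    by_cases hall : ∀ P Q, f P = f Q → g P = g Q
    · exact ⟨g, Y, h, hall⟩
    push Not at hall
    obtain ⟨P, Q, hfPQ, hgPQ⟩ := hall
    obtain ⟨X, hX⟩ : ∃ X : Finset S.Wd, ∀ Q, Q ∈ X ↔ f Q = f P :=
      ⟨Finset.univ.filter (fun Q => f Q = f P), fun Q => by simp⟩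
    have hconn := (hf P X hX).2 P ((hX P).mpr rfl) Q ((hX Q).mpr hfPQ.symm)
    obtain ⟨a, b, h1, h2, h3⟩ := gt_cross g hconn hgPQ
    have ha : a ∈ X := by
      rcases Relation.ReflTransGen.cases_tail h1 with h4 | ⟨c, _, h4⟩
      · rw [h4]; exact (hX P).mpr rfl
      · exact h4.2
    have hb : b ∈ X := h2.2
    have hw : 0 < S.dual.w a b := h2.1.2
    have hne : ({d : S.D | S.wd d = a ∧ S.wd (S.a d) = b} : Set S.D).Nonempty := by
      rw [← Set.ncard_pos (Set.toFinite _)]
      have : (0 : ℝ) < (Set.ncard {d : S.D | S.wd d = a ∧ S.wd (S.a d) = b} : ℝ) := hw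
      exact_mod_cast this
    obtain ⟨p, hp1, hp2⟩ := hne
    have hfp : f (S.wd p) = f (S.wd (S.a p)) := by
      rw [hp1, hp2, (hX a).mp ha, (hX b).mp hb]
    have hgp : g (S.wd p) ≠ g (S.wd (S.a p)) := by rw [hp1, hp2]; exact h3
    obtain ⟨g', Y', ht, hmono, heq⟩ := S.ti_step f g Y h p hfp hgp
    have hlt : Set.ncard {pq : S.Wd × S.Wd | f pq.1 = f pq.2 ∧ g' pq.1 ≠ g' pq.2} < n := by
      rw [← hn]
      apply Set.ncard_lt_ncard _ (Set.toFinite _)
      refine ⟨?_, ?_⟩
      · rintro ⟨x, y⟩ ⟨h5, h6⟩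
        exact ⟨h5, fun h7 => h6 (hmono _ _ h7)⟩
      · intro hsub
        have h5 : (S.wd p, S.wd (S.a p)) ∈ ({pq : S.Wd × S.Wd | f pq.1 = f pq.2 ∧ g pq.1 ≠ g pq.2} : Set _) :=
          ⟨hfp, hgp⟩
        exact (hsub h5).2 heq
    exact ih _ hlt g' Y' ht rfl
  obtain ⟨g, Y, h, hfg⟩ := key _ id ∅ (S.ti_start f) rfl
  have hiff : ∀ P Q, f P = f Q ↔ g P = g Q := fun P Q => ⟨hfg P Q, h.fg P Q⟩
  refine ⟨Y, h.cl, h.ne, fun y hy => h.fg _ _ (h.gg y hy), ?_, ?_⟩
  · intro d e
    rw [hiff]; exact h.same d e
  · intro P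
    simp_rw [hiff]
    exact h.cnt P

end Sf

end Pool.Agent.GW
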