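import Pool.Agent.SWP.Trans

/-!
# Unit letters: states and the inductive predicate `U` (MP_37d33d_gt)

`Sf`: letters `D`, `r` next letter, `a` partner. A letter with `a d = d` is dead. The length of a word is the number of
its live letters. `U L S`: the surface can be swept with all words of length at most `L` (moves as in `SW`).
-/

set_option autoImplicit false

namespace Pool.Agent.GW

open Equiv Pool.Agent.SWP

/-- States with unit letters. -/
structure Sf where
  D : Type
  fD : Fintype D
  r : Perm D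
  a : Perm D
  aa : ∀ d, a (a d) = d

attribute [instance] Sf.fD

namespace Sf

/-- the live letters -/
def live (S : Sf) : Set S.D := {d | S.a d ≠ d}

/-- number of live letters of a set -/
noncomputable def num (S : Sf) (B : Set S.D) : ℕ := (B ∩ S.live).ncard

/-- the word (cycle of `r`) of a letter -/
def word (S : Sf) (d : S.D) : Set S.D := {e | S.r.SameCycle d e}

/-- number of live letters of the word of `d` -/
noncomputable def len (S : Sf) (d : S.D) : ℕ := S.num (S.word d)

/-- closed under the partner map -/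
def Cl (S : Sf) (Y : Set S.D) : Prop := ∀ d ∈ Y, S.a d ∈ Y

/-- closed under `r` and its inverse: a union of words -/
def Inv (S : Sf) (B : Set S.D) : Prop := ∀ d, S.r d ∈ B ↔ d ∈ B

/-- same vertex: the letters starting at one vertex are a cycle of `r * a` -/
def vx (S : Sf) (d e : S.D) : Prop := (S.r * S.a).SameCycle d e

theorem sw_aa {D : Type} (a : Perm D) (h : ∀ d, a (a d) = d) (b d : D) :
    (a * sw b (a b)) ((a * sw b (a b)) d) = d := by
  simp only [Perm.mul_apply]
  by_cases h1 : d = b
  · subst h1; simp [sw_left, h]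
  by_cases h2 : d = a b
  · subst h2; simp [sw_right]
  have h3 : a d ≠ b := fun h' => h2 (by rw [← h', h])
  have h4 : a d ≠ a b := fun h' => h1 (a.injective h')
  rw [sw_of_ne h1 h2, sw_of_ne h3 h4, h]

/-- Glue the letter `b` to its partner; both become dead. -/
noncomputable def glue (S : Sf) (b : S.D) : Sf where
  D := S.D
  fD := S.fD
  r := S.r * sw b (S.a b)
  a := S.a * sw b (S.a b)
  aa := sw_aa S.a S.aa b

/-- Insert a digon along the letter `e`. -/
noncomputable def dbl (S : Sf) (e : S.D) : Sf where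
  D := S.D ⊕ Bool
  fD := inferInstance
  r := sw (Sum.inl e) (Sum.inr false) * Equiv.sumCongr S.r (Equiv.refl Bool) * sw (Sum.inr true) (Sum.inr false)
    * sw (Sum.inl e) (Sum.inr false)
  a := Equiv.sumCongr S.a Equiv.boolNot
  aa := St.ext_aa S.a S.aa

/-- Subdivide the letter `b` and its partner: new letter `inr true` after `b`, its partner `inr false` before `a b`. -/
noncomputable def sub (S : Sf) (b : S.D) : Sf where
  D := S.D ⊕ Bool
  fD := inferInstance
  r := sw (Sum.inl (S.a b)) (Sum.inr false) * Equiv.sumCongr S.r (Equiv.refl Bool) * sw (Sum.inl b) (Sum.inr true)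
  a := Equiv.sumCongr S.a Equiv.boolNot
  aa := St.ext_aa S.a S.aa

/-- change the permutation `r` -/
def setr (S : Sf) (r : Perm S.D) : Sf where
  D := S.D
  fD := S.fD
  r := r
  a := S.a
  aa := S.aa

/-- the partner map on `Y`, the identity elsewhere (as a function) -/
noncomputable def betaFun (S : Sf) (Y : Set S.D) (d : S.D) : S.D :=
  @ite _ (d ∈ Y ∧ S.a d ∈ Y) (Classical.propDecidable _) (S.a d) d

theorem betaFun_pos (S : Sf) {Y : Set S.D} {d : S.D} (h : d ∈ Y ∧ S.a d ∈ Y) : S.betaFun Y d = S.a d := by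
  unfold betaFun; rw [if_pos h]

theorem betaFun_neg (S : Sf) {Y : Set S.D} {d : S.D} (h : ¬(d ∈ Y ∧ S.a d ∈ Y)) : S.betaFun Y d = d := by
  unfold betaFun; rw [if_neg h]

theorem betaFun_inv (S : Sf) (Y : Set S.D) : Function.Involutive (S.betaFun Y) := by
  intro d
  by_cases h : d ∈ Y ∧ S.a d ∈ Y
  · have h2 : S.a d ∈ Y ∧ S.a (S.a d) ∈ Y := ⟨h.2, by rw [S.aa]; exact h.1⟩
    rw [S.betaFun_pos h, S.betaFun_pos h2, S.aa]
  · rw [S.betaFun_neg h, S.betaFun_neg h]

/-- the partner map on `Y`, the identity elsewhere -/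
noncomputable def beta (S : Sf) (Y : Set S.D) : Perm S.D := Function.Involutive.toPerm (S.betaFun Y) (S.betaFun_inv Y)

theorem beta_mem (S : Sf) {Y : Set S.D} (h : S.Cl Y) {d : S.D} (hd : d ∈ Y) : S.beta Y d = S.a d :=
  S.betaFun_pos ⟨hd, h d hd⟩

theorem beta_notMem (S : Sf) {Y : Set S.D} {d : S.D} (hd : d ∉ Y) : S.beta Y d = d :=
  S.betaFun_neg (fun h => hd h.1)

/-- glue all letters of `Y` to their partners -/
noncomputable def glueSet (S : Sf) (Y : Set S.D) (hY : S.Cl Y) : Sf where
  D := S.D
  fD := S.fD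
  r := S.r * S.beta Y
  a := S.a * S.beta Y
  aa := by
    intro d
    simp only [Perm.mul_apply]
    by_cases h : d ∈ Y
    · rw [S.beta_mem hY h, S.aa, S.beta_mem hY h, S.aa]
    · have h2 : S.a d ∉ Y := fun h2 => h (by rw [← S.aa d]; exact hY _ h2)
      rw [S.beta_notMem h, S.beta_notMem h2, S.aa]

end Sf

/-- Sweeps with words of at most `L` live letters; gluing and refining are mixed, words may be cut or joined at a
vertex, dead letters may be taken out of their words. -/
inductive U (L : ℕ) : Sf → Prop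
  | done (S : Sf) : (∀ d, S.a d = d) → U L S
  | glue (S : Sf) (b : S.D) : S.a b ≠ b → (∀ d, S.len d ≤ L) → U L (S.glue b) → U L S
  | dbl (S : Sf) (e : S.D) : S.a e ≠ e → U L (S.dbl e) → U L S
  | sub (S : Sf) (b : S.D) : S.a b ≠ b → U L (S.sub b) → U L S
  | vtx (S : Sf) (p q : S.D) : S.a p ≠ p → S.a q ≠ q → p ≠ q → S.vx p q →
      (∀ d, S.len d ≤ L) → U L (S.setr (sw p q * S.r)) → U L S
  | ghost (S : Sf) (g : S.D) : S.a g = g → U L (S.setr (sw g (S.r g) * S.r)) → U L S

/-- the state without the weights -/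
def forget (S : St) : Sf := ⟨S.D, S.fD, S.r, S.a, S.aa⟩

/-- isomorphism of states -/
structure Iso (S T : Sf) (φ : S.D ≃ T.D) : Prop where
  r : ∀ d, T.r (φ d) = φ (S.r d)
  a : ∀ d, T.a (φ d) = φ (S.a d)

end Pool.Agent.GW
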